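import Pool.Agent.HQ.BsDef

/-!
MODULE BsA (problem MP_7936f4_al): geometry of the predecessors.  COMPLETE PAPER PROOF.

Everything is integer arithmetic from the four point condition hyp
  (H) d(a,c) + |b| <= max(d(a,b) + |c|, d(b,c) + |a|) + 2 delta.
mem_BN: fin.  BN_ne: geo e v (|v|-k) gives y with |y| = |v|-k, d(y,v) = k.
step_close: n = |y| = |y'|, |v| = |v'| = n+k.  (H) for (y,v,v'): d(y,v') <= max(d(y,v), d(v,v')-k) + 2 delta <= k + 4 delta;
 (H) for (y,v',y'): d(y,y') + n + k <= max(d(y,v') + n, d(v',y') + n) + 2 delta, so d(y,y') <= 6 delta.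
common: y = geodesic point of v (d(v,y) = k); (H) for (y,v,v') gives d(y,v') <= max(k, d(v,v')-k) + 2 delta <= k + 2 delta.
reach_level: induction.  reach_close: induction on m with step_close (6 delta <= 16 delta).
reach_self: m = 0: y = y' = v; m+1: y in BR m x, y' in BR m x', x, x' in BN v, d(x,x') <= 6 delta (step_close with v = v');
 in general for d(v,v') <= 6 delta the points of BR m v, BR m v' have distance <= 6 delta.
reach_geo: induction: x in BN v with d(v,x) = k, z in BR m x with d(x,z) = m k; d(v,z) <= (m+1)k and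
 |z| + (m+1) k = |v| <= |z| + d(z,v), so equality.
two points: z in BR (i-s) v, z' in BR (j-s) w on geodesics, d(v,z) = |v| - sk, d(w,z') = |w| - sk, |z| = |z'| = sk.
 upper: (H) (z,v,w): d(z,w) + |v| <= max(d(z,v)+|w|, d(v,w)+|z|) + 2 delta; (H) (z,w,z'): d(z,z') + |w| <= max(d(z,w)+|z'|,
 d(w,z')+|z|) + 2 delta; together d(z,z') <= max(0, 2sk - T2) + 4 delta; add 6 delta + 6 delta for y, y' (reach_self).
 lower: (H) (v,z,w): d(v,w) + |z| <= max(d(v,z)+|w|, d(z,w)+|v|) + 2 delta; if the first term is the maximum then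
 2sk <= T2 + 2 delta, excluded; so d(z,w) >= d(v,w) - |v| + sk - 2 delta; (H) (z,z',w): d(z,w) + |z'| <= max(d(z,z')+|w|,
 d(z',w)+|z|) + 2 delta; in both cases d(z,w) <= d(z,z') + |w| - sk + 2 delta; so d(z,z') >= 2sk - T2 - 4 delta; subtract 12 delta.
-/

namespace Pool.HQ

variable {G : Type} {d : G → G → ℕ} {e : G} {δ k V : ℕ}

theorem mem_BN (H : BsH d e δ k V) (v y : G) :
    y ∈ BN d e δ k v ↔ d v y ≤ k + 2 * δ ∧ d e y + k = d e v := by
  have hf : {y | d v y ≤ k + 2 * δ ∧ d e y + k = d e v}.Finite :=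
    (H.fin v (k + 2 * δ)).subset (fun x hx => hx.1)
  unfold BN
  rw [dif_pos hf, Set.Finite.mem_toFinset]
  rfl

theorem BN_ne (H : BsH d e δ k V) (v : G) (hv : k ≤ d e v) : ∃ y ∈ BN d e δ k v, d v y = k := by
  obtain ⟨x, h1, h2⟩ := H.geo e v (d e v - k) (Nat.sub_le _ _)
  have h3 : d v x = k := by rw [H.symm v x, h2]; omega
  refine ⟨x, (mem_BN H v x).2 ⟨by omega, by omega⟩, h3⟩

theorem BN_card (H : BsH d e δ k V) (v : G) : (BN d e δ k v).card ≤ V := by
  refine le_trans ?_ (H.card v)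
  rw [← Set.ncard_coe_finset]
  apply Set.ncard_le_ncard _ (H.fin v _)
  intro y hy
  exact ((mem_BN H v y).1 (by simpa using hy)).1

theorem step_close (H : BsH d e δ k V) (v v' : G) (hl : d e v = d e v') (hd : d v v' ≤ 16 * δ)
    (y y' : G) (hy : y ∈ BN d e δ k v) (hy' : y' ∈ BN d e δ k v') : d y y' ≤ 6 * δ := by
  rw [mem_BN H] at hy hy'
  obtain ⟨h1, h2⟩ := hy
  obtain ⟨h3, h4⟩ := hy'
  have a1 := H.hyp y v v'
  have a2 := H.hyp y v' y'
  have b1 := H.symm y v
  have hk := H.hk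
  omega

theorem common (H : BsH d e δ k V) (v v' : G) (hl : d e v = d e v') (hd : d v v' ≤ 16 * δ)
    (hv : k ≤ d e v) : ∃ y, y ∈ BN d e δ k v ∧ y ∈ BN d e δ k v' := by
  obtain ⟨y, hy, hvy⟩ := BN_ne H v hv
  refine ⟨y, hy, ?_⟩
  rw [mem_BN H] at hy ⊢
  obtain ⟨h1, h2⟩ := hy
  have a1 := H.hyp y v v'
  have b1 := H.symm y v
  have b2 := H.symm y v'
  have hk := H.hk
  omega

theorem reach_level (H : BsH d e δ k V) (m : ℕ) (v y : G) (hy : y ∈ BR d e δ k m v) :
    d e y + m * k = d e v := by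
  induction m generalizing v with
  | zero =>
    have : y = v := hy
    subst this
    omega
  | succ m ih =>
    obtain ⟨x, hx, hyx⟩ := hy
    have := ih x hyx
    rw [mem_BN H] at hx
    rw [Nat.succ_mul]
    omega

theorem reach_close_aux (H : BsH d e δ k V) (r : ℕ) (hr : 6 * δ ≤ r) (hr' : r ≤ 16 * δ) (m : ℕ)
    (v v' y y' : G) (hl : d e v = d e v')
    (hd : d v v' ≤ r) (hy : y ∈ BR d e δ k m v) (hy' : y' ∈ BR d e δ k m v') :
    d y y' ≤ r := by
  induction m generalizing v v' with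
  | zero =>
    have h1 : y = v := hy
    have h2 : y' = v' := hy'
    subst h1
    subst h2
    exact hd
  | succ m ih =>
    obtain ⟨x, hx, hyx⟩ := hy
    obtain ⟨x', hx', hyx'⟩ := hy'
    have h6 := step_close H v v' hl (hd.trans hr') x x' hx hx'
    refine ih x x' ?_ (h6.trans hr) hyx hyx'
    rw [mem_BN H] at hx hx'
    omega

theorem reach_close (H : BsH d e δ k V) (m : ℕ) (v v' y y' : G) (hl : d e v = d e v')
    (hd : d v v' ≤ 16 * δ) (hy : y ∈ BR d e δ k m v) (hy' : y' ∈ BR d e δ k m v') :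
    d y y' ≤ 16 * δ :=
  reach_close_aux H (16 * δ) (by omega) le_rfl m v v' y y' hl hd hy hy'

theorem reach_self (H : BsH d e δ k V) (m : ℕ) (v y y' : G)
    (hy : y ∈ BR d e δ k m v) (hy' : y' ∈ BR d e δ k m v) : d y y' ≤ 6 * δ :=
  reach_close_aux H (6 * δ) le_rfl (by omega) m v v y y' rfl (by rw [H.self]; omega) hy hy'

theorem reach_geo (H : BsH d e δ k V) (m : ℕ) (v : G) (hv : m * k ≤ d e v) :
    ∃ z ∈ BR d e δ k m v, d v z = m * k := by
  induction m generalizing v with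
  | zero => exact ⟨v, rfl, by rw [H.self]; omega⟩
  | succ m ih =>
    rw [Nat.succ_mul] at hv ⊢
    obtain ⟨x, hx, hvx⟩ := BN_ne H v (by omega)
    have hx' := (mem_BN H v x).1 hx
    obtain ⟨z, hz, hxz⟩ := ih x (by omega)
    refine ⟨z, ⟨x, hx, hz⟩, ?_⟩
    have a1 := reach_level H m x z hz
    have a2 := H.tri v x z
    have a3 := H.tri e z v
    have a4 := H.symm z v
    omega

theorem two_points (H : BsH d e δ k V) (v w : G) (i j s : ℕ) (hv : d e v = i * k)
    (hw : d e w = j * k) (hi : s ≤ i) (hj : s ≤ j) :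
    ∃ z ∈ BR d e δ k (i - s) v, ∃ z' ∈ BR d e δ k (j - s) w,
      d z z' ≤ (2 * (s * k) - T2 d e v w) + 4 * δ ∧
      (T2 d e v w + 2 * δ < 2 * (s * k) → 2 * (s * k) ≤ T2 d e v w + 4 * δ + d z z') := by
  have e1 : (i - s) * k = i * k - s * k := Nat.sub_mul _ _ _
  have e2 : (j - s) * k = j * k - s * k := Nat.sub_mul _ _ _
  have e3 : s * k ≤ i * k := Nat.mul_le_mul_right k hi
  have e4 : s * k ≤ j * k := Nat.mul_le_mul_right k hj
  obtain ⟨z, hz, hvz⟩ := reach_geo H (i - s) v (by omega)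
  obtain ⟨z', hz', hwz'⟩ := reach_geo H (j - s) w (by omega)
  refine ⟨z, hz, z', hz', ?_⟩
  have l1 := reach_level H _ _ _ hz
  have l2 := reach_level H _ _ _ hz'
  generalize s * k = S at *
  generalize i * k = I at *
  generalize j * k = J at *
  have t1 := H.tri v e w
  have t2 := H.symm v e
  have s1 := H.symm v z
  have s2 := H.symm w z'
  have s3 := H.symm v w
  have s4 := H.symm w v
  have a1 := H.hyp z v w
  have a2 := H.hyp z w z'
  have a3 := H.hyp v z w
  have a4 := H.hyp z z' w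
  unfold T2
  constructor
  · omega
  · intro h
    omega

theorem reach_upper (H : BsH d e δ k V) (v w y y' : G) (i j s : ℕ) (hv : d e v = i * k)
    (hw : d e w = j * k) (hi : s ≤ i) (hj : s ≤ j) (hy : y ∈ BR d e δ k (i - s) v)
    (hy' : y' ∈ BR d e δ k (j - s) w) : d y y' ≤ (2 * (s * k) - T2 d e v w) + 16 * δ := by
  obtain ⟨z, hz, z', hz', h1, h2⟩ := two_points H v w i j s hv hw hi hj
  have a1 := reach_self H _ v y z hy hz
  have a2 := reach_self H _ w z' y' hz' hy'
  have a3 := H.tri y z y'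
  have a4 := H.tri z z' y'
  omega

theorem reach_lower (H : BsH d e δ k V) (v w y y' : G) (i j s : ℕ) (hv : d e v = i * k)
    (hw : d e w = j * k) (hi : s ≤ i) (hj : s ≤ j) (hy : y ∈ BR d e δ k (i - s) v)
    (hy' : y' ∈ BR d e δ k (j - s) w) (hs : T2 d e v w + 2 * δ < 2 * (s * k)) :
    2 * (s * k) ≤ T2 d e v w + 16 * δ + d y y' := by
  obtain ⟨z, hz, z', hz', h1, h2⟩ := two_points H v w i j s hv hw hi hj
  have a1 := reach_self H _ v z y hz hy
  have a2 := reach_self H _ w y' z' hy' hz'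
  have a3 := H.tri z y z'
  have a4 := H.tri y y' z'
  have := h2 hs
  omega

end Pool.HQ
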