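import Pool.Agent.HQ.BsA

/-!
MODULE BsB (problem MP_7936f4_al): the averages BP^[m] g.  COMPLETE PAPER PROOF.

P = BP, P^[m+1] g = P (P^[m] g) (Function.iterate_succ_apply').
exists_ge: (P^[m] g) v <= g y for some y in BR m v, if m k <= |v|: induction: an average over the nonempty BN v is <= the value
 at some x in BN v (Finset.exists_le_of_sum_le or exists_max_image); apply the induction hypothesis to x.  exists_le: same (or g -> -g).
contract: for |v| = |v'| = n + m k, d(v,v') <= 16 delta: |P^[m]g v - P^[m]g v'| <= (1-1/V^2)^m K if |g y - g y'| <= K for all y, y'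
 with |y| = |y'| = n, d(y,y') <= 16 delta (K >= 0): induction on m.  Step: h = P^[m]g.  P h v - P h v' =
 sum over (y,y') in BN v x BN v' of (h y - h y')/(|BN v||BN v'|); each |h y - h y'| <= (1-1/V^2)^m K =: K' (levels n + m k,
 distance <= 6 delta by step_close), and the pair (y0,y0), y0 the common point, contributes 0; so the sum is at most
 K' (1 - 1/(|BN v||BN v'|)) <= K' (1 - 1/V^2).
diff_le: s <= t <= i, j and 2 t k <= T2: P^[i-s]g = P^[i-t](P^[t-s] g) (Function.iterate_add_apply).  h = P^[t-s]g.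
 exists_ge: y in BR (i-t) v, P^[i-t]h v <= h y; exists_le: y' in BR (j-t) w, h y' <= P^[j-t]h w.  d(y,y') <= 16 delta by
 reach_upper (2tk - T2 = 0), levels tk; so by contract (n = s k, m = t - s, K = 1 since 0 <= g <= 1) h y - h y' <= beta^(t-s).
 Symmetric for the other sign.
sep: s <= i, j, T2 + 16 delta < 2 s k <= T2 + 4 k, colours different for 0 < d <= 4k + 16 delta: for y in BR (i-s) v,
 y' in BR (j-s) w: d(y,y') > 0 (reach_lower) and <= 4k + 16 delta (reach_upper), so c y <> c y'.  sum_x P^[i-s](ind x) v = 1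
 (P is linear, P 1 = 1 at levels >= k) so some x has value >= 1/L; it is positive, so by exists_ge some y in BR (i-s) v has colour x;
 hence every y' in BR (j-s) w has ind c x y' = 0 and P^[j-s](ind x) w = 0 (exists_ge, exists_le).
-/

namespace Pool.HQ

variable {G : Type} {d : G → G → ℕ} {e : G} {δ k V : ℕ}

theorem avg_le_some (s : Finset G) (hs : s.Nonempty) (h : G → ℝ) :
    ∃ x ∈ s, (∑ y ∈ s, h y) / (s.card : ℝ) ≤ h x := by
  have hc : (0 : ℝ) < s.card := by
    have := Finset.card_pos.2 hs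
    exact_mod_cast this
  apply Finset.exists_le_of_sum_le hs
  rw [Finset.sum_const, nsmul_eq_mul, mul_div_cancel₀ _ hc.ne']

theorem some_le_avg (s : Finset G) (hs : s.Nonempty) (h : G → ℝ) :
    ∃ x ∈ s, h x ≤ (∑ y ∈ s, h y) / (s.card : ℝ) := by
  have hc : (0 : ℝ) < s.card := by
    have := Finset.card_pos.2 hs
    exact_mod_cast this
  apply Finset.exists_le_of_sum_le hs
  rw [Finset.sum_const, nsmul_eq_mul, mul_div_cancel₀ _ hc.ne']

theorem BN_nonempty (H : BsH d e δ k V) (v : G) (hv : k ≤ d e v) : (BN d e δ k v).Nonempty := by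
  obtain ⟨y, hy, -⟩ := BN_ne H v hv
  exact ⟨y, hy⟩

theorem BN_level (H : BsH d e δ k V) (v y : G) (hy : y ∈ BN d e δ k v) : d e y + k = d e v :=
  ((mem_BN H v y).1 hy).2

theorem exists_ge (H : BsH d e δ k V) (g : G → ℝ) (m : ℕ) (v : G) (hv : m * k ≤ d e v) :
    ∃ y ∈ BR d e δ k m v, ((BP d e δ k)^[m] g) v ≤ g y := by
  induction m generalizing v with
  | zero => exact ⟨v, rfl, le_rfl⟩
  | succ m ih =>
    have hk : k ≤ d e v := by
      rw [Nat.succ_mul] at hv
      omega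
    obtain ⟨x, hx, hle⟩ := avg_le_some (BN d e δ k v) (BN_nonempty H v hk) ((BP d e δ k)^[m] g)
    have hlx := BN_level H v x hx
    obtain ⟨y, hy, hxy⟩ := ih x (by rw [Nat.succ_mul] at hv; omega)
    refine ⟨y, ⟨x, hx, hy⟩, ?_⟩
    rw [Function.iterate_succ_apply']
    exact hle.trans hxy

theorem exists_le (H : BsH d e δ k V) (g : G → ℝ) (m : ℕ) (v : G) (hv : m * k ≤ d e v) :
    ∃ y ∈ BR d e δ k m v, g y ≤ ((BP d e δ k)^[m] g) v := by
  induction m generalizing v with
  | zero => exact ⟨v, rfl, le_rfl⟩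
  | succ m ih =>
    have hk : k ≤ d e v := by
      rw [Nat.succ_mul] at hv
      omega
    obtain ⟨x, hx, hle⟩ := some_le_avg (BN d e δ k v) (BN_nonempty H v hk) ((BP d e δ k)^[m] g)
    have hlx := BN_level H v x hx
    obtain ⟨y, hy, hxy⟩ := ih x (by rw [Nat.succ_mul] at hv; omega)
    refine ⟨y, ⟨x, hx, hy⟩, ?_⟩
    rw [Function.iterate_succ_apply']
    exact hxy.trans hle

theorem avg_diff (s t : Finset G) (h : G → ℝ) (K : ℝ) (hK : 0 ≤ K) (V : ℕ)
    (hs : s.card ≤ V) (ht : t.card ≤ V) (y0 : G) (h0s : y0 ∈ s) (h0t : y0 ∈ t)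
    (hd : ∀ y ∈ s, ∀ y' ∈ t, |h y - h y'| ≤ K) :
    |(∑ y ∈ s, h y) / (s.card : ℝ) - (∑ y ∈ t, h y) / (t.card : ℝ)| ≤
      (1 - 1 / (V : ℝ) ^ 2) * K := by
  classical
  have ha : 0 < s.card := Finset.card_pos.2 ⟨y0, h0s⟩
  have hb : 0 < t.card := Finset.card_pos.2 ⟨y0, h0t⟩
  have ha' : (0 : ℝ) < s.card := by exact_mod_cast ha
  have hb' : (0 : ℝ) < t.card := by exact_mod_cast hb
  have haV : (s.card : ℝ) ≤ V := by exact_mod_cast hs
  have hbV : (t.card : ℝ) ≤ V := by exact_mod_cast ht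
  have hV : (0 : ℝ) < V := lt_of_lt_of_le ha' haV
  have hsum : ∑ p ∈ s ×ˢ t, (h p.1 - h p.2) =
      (t.card : ℝ) * (∑ y ∈ s, h y) - (s.card : ℝ) * (∑ y ∈ t, h y) := by
    rw [Finset.sum_product]
    have : ∀ y ∈ s, ∑ y' ∈ t, (h y - h y') = (t.card : ℝ) * h y - ∑ y' ∈ t, h y' := by
      intro y _
      rw [Finset.sum_sub_distrib, Finset.sum_const, nsmul_eq_mul]
    rw [Finset.sum_congr rfl this, Finset.sum_sub_distrib, ← Finset.mul_sum, Finset.sum_const,
      nsmul_eq_mul]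
  have hmem : (y0, y0) ∈ s ×ˢ t := Finset.mk_mem_product h0s h0t
  have herase : ∑ p ∈ s ×ˢ t, |h p.1 - h p.2| ≤ ((s.card : ℝ) * t.card - 1) * K := by
    rw [← Finset.add_sum_erase _ _ hmem]
    have h1 : ∑ p ∈ (s ×ˢ t).erase (y0, y0), |h p.1 - h p.2| ≤
        ((s ×ˢ t).erase (y0, y0)).card • K := by
      apply Finset.sum_le_card_nsmul
      intro p hp
      have hp2 := Finset.mem_product.1 (Finset.mem_of_mem_erase hp)
      exact hd _ hp2.1 _ hp2.2
    rw [Finset.card_erase_of_mem hmem, Finset.card_product, nsmul_eq_mul] at h1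
    have h2 : ((s.card * t.card - 1 : ℕ) : ℝ) = (s.card : ℝ) * t.card - 1 := by
      rw [Nat.cast_sub (Nat.mul_pos ha hb)]
      push_cast
      ring
    rw [h2] at h1
    simp only [sub_self, abs_zero, zero_add]
    exact h1
  have hab : (0 : ℝ) < (s.card : ℝ) * t.card := mul_pos ha' hb'
  have heq : (∑ y ∈ s, h y) / (s.card : ℝ) - (∑ y ∈ t, h y) / (t.card : ℝ) =
      (∑ p ∈ s ×ˢ t, (h p.1 - h p.2)) / ((s.card : ℝ) * t.card) := by
    rw [hsum]
    field_simp
  rw [heq, abs_div, abs_of_pos hab, div_le_iff₀ hab]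
  have h3 : |∑ p ∈ s ×ˢ t, (h p.1 - h p.2)| ≤ ((s.card : ℝ) * t.card - 1) * K :=
    (Finset.abs_sum_le_sum_abs _ _).trans herase
  refine h3.trans ?_
  have h4 : (s.card : ℝ) * t.card ≤ (V : ℝ) ^ 2 := by
    rw [sq]
    exact mul_le_mul haV hbV hb'.le hV.le
  have h5 : (s.card : ℝ) * t.card / (V : ℝ) ^ 2 ≤ 1 := by
    rw [div_le_one (by positivity)]
    exact h4
  have h6 : (1 - 1 / (V : ℝ) ^ 2) * K * ((s.card : ℝ) * t.card) =
      ((s.card : ℝ) * t.card - (s.card : ℝ) * t.card / (V : ℝ) ^ 2) * K := by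
    field_simp
  rw [h6]
  apply mul_le_mul_of_nonneg_right _ hK
  linarith

theorem contract (H : BsH d e δ k V) (g : G → ℝ) (n : ℕ) (K : ℝ) (hK : 0 ≤ K)
    (hg : ∀ y y', d e y = n → d e y' = n → d y y' ≤ 16 * δ → |g y - g y'| ≤ K) (m : ℕ) (v v' : G)
    (hv : d e v = n + m * k) (hv' : d e v' = n + m * k) (hd : d v v' ≤ 16 * δ) :
    |((BP d e δ k)^[m] g) v - ((BP d e δ k)^[m] g) v'| ≤ (1 - 1 / (V : ℝ) ^ 2) ^ m * K := by
  induction m generalizing v v' with
  | zero =>
    simp only [Nat.zero_mul, Nat.add_zero] at hv hv'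
    simp only [Function.iterate_zero, id_eq, pow_zero, one_mul]
    exact hg v v' hv hv' hd
  | succ m ih =>
    have hk : k ≤ d e v := by
      rw [hv, Nat.succ_mul]
      omega
    obtain ⟨y0, hy0, hy0'⟩ := common H v v' (by rw [hv, hv']) hd hk
    have hV1 : 1 ≤ V := by
      have h1 := BN_card H v
      have h2 := Finset.card_pos.2 ⟨y0, hy0⟩
      omega
    have hV1' : (1 : ℝ) ≤ V := by exact_mod_cast hV1
    have hβ : 0 ≤ 1 - 1 / (V : ℝ) ^ 2 := by
      have : 1 / (V : ℝ) ^ 2 ≤ 1 := by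
        rw [div_le_one (by positivity)]
        nlinarith
      linarith
    rw [Function.iterate_succ_apply', pow_succ', mul_assoc]
    apply avg_diff (BN d e δ k v) (BN d e δ k v') ((BP d e δ k)^[m] g)
      ((1 - 1 / (V : ℝ) ^ 2) ^ m * K) (mul_nonneg (pow_nonneg hβ m) hK) V (BN_card H v)
      (BN_card H v') y0 hy0 hy0'
    intro y hy y' hy'
    have hly := BN_level H v y hy
    have hly' := BN_level H v' y' hy'
    have hclose := step_close H v v' (by rw [hv, hv']) hd y y' hy hy'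
    apply ih
    · rw [hv, Nat.succ_mul] at hly
      omega
    · rw [hv', Nat.succ_mul] at hly'
      omega
    · omega

theorem level_of_reach (H : BsH d e δ k V) (v y : G) (i t : ℕ) (hv : d e v = i * k) (hi : t ≤ i)
    (hy : y ∈ BR d e δ k (i - t) v) : d e y = t * k := by
  have h := reach_level H (i - t) v y hy
  rw [hv] at h
  have h2 : i * k = t * k + (i - t) * k := by
    rw [← Nat.add_mul]
    congr 1
    omega
  omega

theorem diff_le_aux (H : BsH d e δ k V) (g : G → ℝ) (hg0 : ∀ y, 0 ≤ g y) (hg1 : ∀ y, g y ≤ 1)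
    (v w : G) (i j s t : ℕ) (hv : d e v = i * k) (hw : d e w = j * k) (hst : s ≤ t) (hi : t ≤ i)
    (hj : t ≤ j) (y y' : G) (hy : y ∈ BR d e δ k (i - t) v) (hy' : y' ∈ BR d e δ k (j - t) w)
    (ht : 2 * (t * k) ≤ T2 d e v w) :
    |((BP d e δ k)^[t - s] g) y - ((BP d e δ k)^[t - s] g) y'| ≤
      (1 - 1 / (V : ℝ) ^ 2) ^ (t - s) := by
  have hlev := level_of_reach H v y i t hv hi hy
  have hlev' := level_of_reach H w y' j t hw hj hy'
  have hd := reach_upper H v w y y' i j t hv hw hi hj hy hy'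
  have h2 : t * k = s * k + (t - s) * k := by
    rw [← Nat.add_mul]
    congr 1
    omega
  have h3 := contract H g (s * k) 1 (by norm_num)
    (fun y y' _ _ _ => by
      rw [abs_le]
      constructor <;> linarith [hg0 y, hg0 y', hg1 y, hg1 y'])
    (t - s) y y' (by omega) (by omega) (by omega)
  rw [mul_one] at h3
  exact h3

theorem diff_le (H : BsH d e δ k V) (g : G → ℝ) (hg0 : ∀ y, 0 ≤ g y) (hg1 : ∀ y, g y ≤ 1)
    (v w : G) (i j s t : ℕ) (hv : d e v = i * k) (hw : d e w = j * k) (hst : s ≤ t) (hi : t ≤ i)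
    (hj : t ≤ j) (ht : 2 * (t * k) ≤ T2 d e v w) :
    |((BP d e δ k)^[i - s] g) v - ((BP d e δ k)^[j - s] g) w| ≤ (1 - 1 / (V : ℝ) ^ 2) ^ (t - s) := by
  have e1 : i - s = (i - t) + (t - s) := by omega
  have e2 : j - s = (j - t) + (t - s) := by omega
  rw [e1, e2, Function.iterate_add_apply, Function.iterate_add_apply]
  have hvi : (i - t) * k ≤ d e v := by
    rw [hv]
    exact Nat.mul_le_mul_right k (Nat.sub_le i t)
  have hwj : (j - t) * k ≤ d e w := by
    rw [hw]
    exact Nat.mul_le_mul_right k (Nat.sub_le j t)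
  rw [abs_le]
  constructor
  · obtain ⟨y, hy, hle⟩ := exists_le H ((BP d e δ k)^[t - s] g) (i - t) v hvi
    obtain ⟨y', hy', hle'⟩ := exists_ge H ((BP d e δ k)^[t - s] g) (j - t) w hwj
    have h := diff_le_aux H g hg0 hg1 v w i j s t hv hw hst hi hj y y' hy hy' ht
    rw [abs_le] at h
    linarith [h.1]
  · obtain ⟨y, hy, hle⟩ := exists_ge H ((BP d e δ k)^[t - s] g) (i - t) v hvi
    obtain ⟨y', hy', hle'⟩ := exists_le H ((BP d e δ k)^[t - s] g) (j - t) w hwj
    have h := diff_le_aux H g hg0 hg1 v w i j s t hv hw hst hi hj y y' hy hy' ht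
    rw [abs_le] at h
    linarith [h.2]

theorem sum_ind (H : BsH d e δ k V) {L : ℕ} (c : G → Fin L) (m : ℕ) (v : G)
    (hv : m * k ≤ d e v) : ∑ x, ((BP d e δ k)^[m] (ind c x)) v = 1 := by
  induction m generalizing v with
  | zero =>
    simp only [Function.iterate_zero, id_eq, ind]
    rw [Finset.sum_ite_eq]
    simp
  | succ m ih =>
    have hk : k ≤ d e v := by
      rw [Nat.succ_mul] at hv
      omega
    have hne := BN_nonempty H v hk
    have hc : (0 : ℝ) < (BN d e δ k v).card := by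
      have := Finset.card_pos.2 hne
      exact_mod_cast this
    have h1 : ∀ x, ((BP d e δ k)^[m + 1] (ind c x)) v =
        (∑ y ∈ BN d e δ k v, ((BP d e δ k)^[m] (ind c x)) y) / ((BN d e δ k v).card : ℝ) := by
      intro x
      rw [Function.iterate_succ_apply']
      rfl
    simp only [h1]
    rw [← Finset.sum_div, Finset.sum_comm]
    have h2 : ∀ y ∈ BN d e δ k v, ∑ x, ((BP d e δ k)^[m] (ind c x)) y = 1 := by
      intro y hy
      apply ih
      have := BN_level H v y hy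
      rw [Nat.succ_mul] at hv
      omega
    rw [Finset.sum_congr rfl h2, Finset.sum_const, nsmul_eq_mul, mul_one, div_self hc.ne']

theorem sep (H : BsH d e δ k V) {L : ℕ} (hL : 0 < L) (c : G → Fin L)
    (hc : ∀ y y', 0 < d y y' → d y y' ≤ 4 * k + 16 * δ → c y ≠ c y') (v w : G) (i j s : ℕ)
    (hv : d e v = i * k) (hw : d e w = j * k) (hi : s ≤ i) (hj : s ≤ j)
    (h1 : T2 d e v w + 16 * δ < 2 * (s * k)) (h2 : 2 * (s * k) ≤ T2 d e v w + 4 * k) :
    ∃ x, 1 / (L : ℝ) ≤ ((BP d e δ k)^[i - s] (ind c x)) v ∧ ((BP d e δ k)^[j - s] (ind c x)) w = 0 := by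
  have hL' : (0 : ℝ) < L := by exact_mod_cast hL
  have hvi : (i - s) * k ≤ d e v := by
    rw [hv]
    exact Nat.mul_le_mul_right k (Nat.sub_le i s)
  have hwj : (j - s) * k ≤ d e w := by
    rw [hw]
    exact Nat.mul_le_mul_right k (Nat.sub_le j s)
  have hsum := sum_ind H c (i - s) v hvi
  have : Nonempty (Fin L) := ⟨⟨0, hL⟩⟩
  obtain ⟨x, -, hx⟩ := Finset.exists_le_of_sum_le (s := (Finset.univ : Finset (Fin L)))
    (f := fun _ => 1 / (L : ℝ)) (g := fun x => ((BP d e δ k)^[i - s] (ind c x)) v)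
    Finset.univ_nonempty (by
      rw [hsum, Finset.sum_const, Finset.card_univ, Fintype.card_fin, nsmul_eq_mul]
      rw [mul_one_div, div_self hL'.ne'])
  refine ⟨x, hx, ?_⟩
  obtain ⟨y, hy, hvy⟩ := exists_ge H (ind c x) (i - s) v hvi
  have hcy : c y = x := by
    by_contra hcon
    have h3 : ind c x y = 0 := by
      simp only [ind]
      rw [if_neg hcon]
    rw [h3] at hvy
    have h4 : 0 < 1 / (L : ℝ) := by positivity
    linarith
  have hne : ∀ y' ∈ BR d e δ k (j - s) w, ind c x y' = 0 := by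
    intro y' hy'
    have hup := reach_upper H v w y y' i j s hv hw hi hj hy hy'
    have hlow := reach_lower H v w y y' i j s hv hw hi hj hy hy' (by omega)
    have h3 := hc y y' (by omega) (by omega)
    simp only [ind]
    rw [if_neg]
    intro h4
    apply h3
    rw [hcy, h4]
  obtain ⟨y1, hy1, hl1⟩ := exists_ge H (ind c x) (j - s) w hwj
  obtain ⟨y2, hy2, hl2⟩ := exists_le H (ind c x) (j - s) w hwj
  rw [hne y1 hy1] at hl1
  rw [hne y2 hy2] at hl2
  exact le_antisymm hl1 hl2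

end Pool.HQ
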