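import Mathlib

/-!
MODULE BsCol (problem MP_7936f4_al): greedy colouring.  COMPLETE PAPER PROOF.

R symmetric relation on G, every a has at most n neighbours.  Take a well order < of G (e.g. WellOrderingRel) and define by
well-founded recursion c(a) = the least colour in Fin (n+1) not in {c(b) : b < a, R a b} (at most n colours are forbidden, so one
is free).  For R a b, a <> b, one of them is smaller, so the colours differ.
-/

namespace Pool.HQ

theorem exists_col_of_bd {G : Type} (R : G → G → Prop) (hs : ∀ a b, R a b → R b a) (n : ℕ)
    (hfin : ∀ a, {b | R a b}.Finite) (hn : ∀ a, {b | R a b}.ncard ≤ n) :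
    ∃ c : G → Fin (n + 1), ∀ a b, a ≠ b → R a b → c a ≠ c b := by
  classical
  -- a free colour for every partially defined colouring
  have free : ∀ (a : G) (f : ∀ b : G, WellOrderingRel b a → Fin (n + 1)),
      ∃ x : Fin (n + 1), ∀ (b : G) (h : WellOrderingRel b a), R a b → f b h ≠ x := by
    intro a f
    by_contra hcon
    push Not at hcon
    choose b h hR hf using hcon
    have hinj : Function.Injective b := by
      intro x y hxy
      have : ∀ (b₁ b₂ : G) (h₁ : WellOrderingRel b₁ a) (h₂ : WellOrderingRel b₂ a), b₁ = b₂ →
          f b₁ h₁ = f b₂ h₂ := by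
        rintro b₁ _ h₁ h₂ rfl
        rfl
      rw [← hf x, ← hf y]
      exact this _ _ _ _ hxy
    have h1 : (Finset.univ.image b).card = n + 1 := by
      rw [Finset.card_image_of_injective _ hinj]
      simp
    have h2 : ((Finset.univ.image b : Finset G) : Set G) ⊆ {b | R a b} := by
      intro y hy
      simp only [Finset.coe_image, Finset.coe_univ, Set.image_univ, Set.mem_range] at hy
      obtain ⟨x, rfl⟩ := hy
      exact hR x
    have h3 := Set.ncard_le_ncard h2 (hfin a)
    rw [Set.ncard_coe_finset, h1] at h3
    have := hn a
    omega
  choose F hF using free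
  have wf : WellFounded (WellOrderingRel : G → G → Prop) := WellOrderingRel.isWellOrder.wf
  refine ⟨fun a => wf.fix F a, ?_⟩
  have key : ∀ a b, WellOrderingRel b a → R a b → wf.fix F b ≠ wf.fix F a := by
    intro a b h hR
    have e1 : wf.fix F a = F a (fun b _ => wf.fix F b) := wf.fix_eq F a
    rw [e1]
    exact hF a (fun b _ => wf.fix F b) b h hR
  intro a b hab hR
  by_cases h : WellOrderingRel a b
  · exact key b a h (hs _ _ hR)
  by_cases h' : WellOrderingRel b a
  · exact (key a b h' hR).symm
  · exact absurd ((WellOrderingRel.isWellOrder (α := G)).trichotomous a b h h') hab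

end Pool.HQ
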