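import Mathlib

/-!
MODULE BsDef (problem MP_7936f4_al, full answer; rough similarity of a hyperbolic group into the ball).
Definitions only.

|a| = d e a.  BN v = {y : d(v,y) <= k + 2 delta, |y| + k = |v|} (finite set), BP g v = average of g over BN v,
BR m v = set of all endpoints of m steps v -> y in BN v.
-/

open Classical

namespace Pool.HQ

/-- Hypotheses: d is a discrete geodesic hyperbolic metric with base point e, finite balls, balls of radius
k + 2 delta of at most V points. -/
structure BsH {G : Type} (d : G → G → ℕ) (e : G) (δ k V : ℕ) : Prop where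
  self : ∀ a, d a a = 0
  symm : ∀ a b, d a b = d b a
  tri : ∀ a b c, d a c ≤ d a b + d b c
  geo : ∀ a b m, m ≤ d a b → ∃ x, d a x = m ∧ d x b = d a b - m
  hyp : ∀ a b c, d a c + d e b ≤ max (d a b + d e c) (d b c + d e a) + 2 * δ
  fin : ∀ a r, {b | d a b ≤ r}.Finite
  card : ∀ a, {b | d a b ≤ k + 2 * δ}.ncard ≤ V
  hk : 16 * δ + 1 ≤ k

variable {G : Type}

/-- The set of predecessors of v. -/
noncomputable def BN (d : G → G → ℕ) (e : G) (δ k : ℕ) (v : G) : Finset G :=
  if h : {y | d v y ≤ k + 2 * δ ∧ d e y + k = d e v}.Finite then h.toFinset else ∅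

/-- Average over the predecessors. -/
noncomputable def BP (d : G → G → ℕ) (e : G) (δ k : ℕ) (g : G → ℝ) (v : G) : ℝ :=
  (∑ y ∈ BN d e δ k v, g y) / ((BN d e δ k v).card : ℝ)

/-- Points reached after m steps. -/
noncomputable def BR (d : G → G → ℕ) (e : G) (δ k : ℕ) : ℕ → G → Set G
  | 0, v => {v}
  | m + 1, v => {y | ∃ x ∈ BN d e δ k v, y ∈ BR d e δ k m x}

/-- Twice the Gromov product. -/
def T2 (d : G → G → ℕ) (e : G) (v w : G) : ℕ := d e v + d e w - d v w

/-- The indicator of a colour. -/
noncomputable def ind {L : ℕ} (c : G → Fin L) (x : Fin L) : G → ℝ := fun y => if c y = x then 1 else 0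

/-- U s x v: expected value at level s k of the indicator of the colour x, started at v. -/
noncomputable def BU (d : G → G → ℕ) (e : G) (δ k : ℕ) {L : ℕ} (c : G → Fin L) (s : ℕ) (x : Fin L)
    (v : G) : ℝ :=
  if s * k ≤ d e v then ((BP d e δ k)^[d e v / k - s] (ind c x)) v else 0

end Pool.HQ
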