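import Mathlib

/-!
MODULE BsSum (problem MP_7936f4_al): the weighted sums (pure analysis).  COMPLETE PAPER PROOF.

0 < x < 1, 1/2 <= b < x.  u, w : N -> R with |u s - w s| <= b^(t-s) for s <= t and |u s - w s| <= 1 for all s.
sum_upper: |sum_{s<n, s = m mod N} x^s (u s - w s)| <= sum_{s<=t} x^s b^(t-s) + sum_{s>t} x^s
 = x^t sum_{j=0..t} (b/x)^j + x^t (x + x^2 + ...) <= x^t (1/(1-b/x) + 1/(1-x)).
sum_lower: if moreover u q - w q >= c0 > 0 in absolute value, q = t + 2 < n, then the sum over s = q mod N has absolute value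
 >= c0 x^q - sum_{s = q - jN, j >= 1} x^s b^(t-s) - sum_{s = q + jN, j >= 1} x^s.  First sum (t - s = jN - 2; only s <= t occur as
 N >= 2): x^(q - jN) b^(jN-2) = x^q b^(-2) (b/x)^(jN), total <= x^q b^(-2) r^N/(1-r), r = b/x.  Second: x^q x^(jN),
 total <= x^q x^N/(1-x).  Choose N >= 2 with b^(-2) r^N/(1-r) <= c0/4 and x^N/(1-x) <= c0/4.
-/

namespace Pool.HQ

lemma sumA (r : ℝ) (h0 : 0 ≤ r) (h1 : r < 1) (J : Finset ℕ) (M : ℕ) (hJ : ∀ j ∈ J, M ≤ j) :
    ∑ j ∈ J, r ^ j ≤ r ^ M / (1 - r) := by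
  have hsub : J ⊆ Finset.Ico M (M + J.sup id + 1) := by
    intro j hj
    rw [Finset.mem_Ico]
    have := Finset.le_sup (f := id) hj
    simp only [id] at this
    exact ⟨hJ j hj, by omega⟩
  calc ∑ j ∈ J, r ^ j ≤ ∑ j ∈ Finset.Ico M (M + J.sup id + 1), r ^ j :=
        Finset.sum_le_sum_of_subset_of_nonneg hsub (fun _ _ _ => by positivity)
    _ = (r ^ M - r ^ (M + J.sup id + 1)) / (1 - r) := by
        rw [geom_sum_Ico' h1.ne (by omega)]
    _ ≤ r ^ M / (1 - r) := by
        have : 0 < 1 - r := by linarith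
        gcongr
        have : 0 ≤ r ^ (M + J.sup id + 1) := by positivity
        linarith

lemma sumB (x b : ℝ) (hb : 0 < b) (hbx : b < x) (S : Finset ℕ) (t M : ℕ)
    (hS : ∀ s ∈ S, s + M ≤ t) :
    ∑ s ∈ S, x ^ s * b ^ (t - s) ≤ x ^ t * ((b / x) ^ M / (1 - b / x)) := by
  have hx : 0 < x := by linarith
  have e1 : ∑ s ∈ S, x ^ s * b ^ (t - s) = x ^ t * ∑ j ∈ S.image (fun s => t - s), (b / x) ^ j := by
    rw [Finset.sum_image, Finset.mul_sum]
    · apply Finset.sum_congr rfl
      intro s hs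
      have h := hS s hs
      have : x ^ t = x ^ s * x ^ (t - s) := by rw [← pow_add]; congr 1; omega
      rw [this, div_pow]
      field_simp
    · intro s hs s' hs' h
      have h1 := hS s hs
      have h2 := hS s' hs'
      simp only at h
      omega
  rw [e1]
  gcongr
  apply sumA _ (by positivity) ((div_lt_one hx).2 hbx)
  intro j hj
  rw [Finset.mem_image] at hj
  obtain ⟨s, hs, rfl⟩ := hj
  have := hS s hs
  omega

theorem sum_upper (x b : ℝ) (hb : 1 / 2 ≤ b) (hbx : b < x) (hx : x < 1) (u w : ℕ → ℝ) (t : ℕ)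
    (h1 : ∀ s, s ≤ t → |u s - w s| ≤ b ^ (t - s)) (h2 : ∀ s, |u s - w s| ≤ 1) (n N m : ℕ) :
    |∑ s ∈ (Finset.range n).filter (fun s => s % N = m), x ^ s * (u s - w s)| ≤
      x ^ t * (1 / (1 - b / x) + 1 / (1 - x)) := by
  have hx0 : 0 < x := by linarith
  set S := (Finset.range n).filter (fun s => s % N = m) with hS
  calc |∑ s ∈ S, x ^ s * (u s - w s)| ≤ ∑ s ∈ S, |x ^ s * (u s - w s)| :=
        Finset.abs_sum_le_sum_abs _ _
    _ = ∑ s ∈ S, x ^ s * |u s - w s| := by
        apply Finset.sum_congr rfl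
        intro s _
        rw [abs_mul, abs_of_pos (pow_pos hx0 s)]
    _ = ∑ s ∈ S.filter (fun s => s ≤ t), x ^ s * |u s - w s| +
        ∑ s ∈ S.filter (fun s => ¬ s ≤ t), x ^ s * |u s - w s| :=
        (Finset.sum_filter_add_sum_filter_not S (fun s => s ≤ t) _).symm
    _ ≤ ∑ s ∈ S.filter (fun s => s ≤ t), x ^ s * b ^ (t - s) +
        ∑ s ∈ S.filter (fun s => ¬ s ≤ t), x ^ s := by
        apply add_le_add
        · apply Finset.sum_le_sum
          intro s hs
          have := h1 s (Finset.mem_filter.1 hs).2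
          gcongr
        · apply Finset.sum_le_sum
          intro s hs
          have := h2 s
          have h0 := pow_pos hx0 s
          nlinarith
    _ ≤ x ^ t * ((b / x) ^ 0 / (1 - b / x)) + x ^ t / (1 - x) := by
        apply add_le_add
        · apply sumB x b (by linarith) hbx
          intro s hs
          have := (Finset.mem_filter.1 hs).2
          omega
        · apply sumA x hx0.le hx
          intro s hs
          have := (Finset.mem_filter.1 hs).2
          omega
    _ = x ^ t * (1 / (1 - b / x) + 1 / (1 - x)) := by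
        rw [pow_zero]; ring

theorem sum_lower (x b c0 : ℝ) (hb : 1 / 2 ≤ b) (hbx : b < x) (hx : x < 1) (hc : 0 < c0) :
    ∃ N : ℕ, 2 ≤ N ∧ ∀ (u w : ℕ → ℝ) (t n : ℕ), (∀ s, s ≤ t → |u s - w s| ≤ b ^ (t - s)) →
      (∀ s, |u s - w s| ≤ 1) → t + 2 < n → c0 ≤ |u (t + 2) - w (t + 2)| →
      x ^ (t + 2) * (c0 / 2) ≤ |∑ s ∈ (Finset.range n).filter (fun s => s % N = (t + 2) % N),
        x ^ s * (u s - w s)| := by
  have hx0 : 0 < x := by linarith
  have hr1 : b / x < 1 := (div_lt_one hx0).2 hbx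
  have hr0 : 0 ≤ b / x := by positivity
  obtain ⟨M1, hM1⟩ := exists_pow_lt_of_lt_one (show 0 < (1 - b / x) * (x ^ 2 * (c0 / 4)) by
    have : 0 < 1 - b / x := by linarith
    positivity) hr1
  obtain ⟨M2, hM2⟩ := exists_pow_lt_of_lt_one (show 0 < (1 - x) * (c0 / 4) by
    have : 0 < 1 - x := by linarith
    positivity) hx
  refine ⟨M1 + M2 + 2, by omega, ?_⟩
  intro u w t n h1 h2 htn hq
  set N := M1 + M2 + 2 with hN
  set S := (Finset.range n).filter (fun s => s % N = (t + 2) % N) with hS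
  have hqS : t + 2 ∈ S := by
    rw [hS, Finset.mem_filter, Finset.mem_range]
    exact ⟨htn, rfl⟩
  have hlow : ∀ s ∈ (S.erase (t + 2)).filter (fun s => s ≤ t), s + (M1 + M2) ≤ t := by
    intro s hs
    rw [Finset.mem_filter, Finset.mem_erase, hS, Finset.mem_filter, Finset.mem_range] at hs
    obtain ⟨⟨hne, hsn, hmod⟩, hst⟩ := hs
    have hd : N ∣ (t + 2) - s := (Nat.modEq_iff_dvd' (by omega)).1 hmod
    have := Nat.le_of_dvd (by omega) hd
    omega
  have hup : ∀ s ∈ (S.erase (t + 2)).filter (fun s => ¬ s ≤ t), t + 2 + N ≤ s := by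
    intro s hs
    rw [Finset.mem_filter, Finset.mem_erase, hS, Finset.mem_filter, Finset.mem_range] at hs
    obtain ⟨⟨hne, hsn, hmod⟩, hst⟩ := hs
    rcases Nat.lt_or_ge s (t + 2) with hlt | hge
    · have hd : N ∣ (t + 2) - s := (Nat.modEq_iff_dvd' (by omega)).1 hmod
      have := Nat.le_of_dvd (by omega) hd
      omega
    · have hd : N ∣ s - (t + 2) := (Nat.modEq_iff_dvd' (by omega)).1 hmod.symm
      have := Nat.le_of_dvd (by omega) hd
      omega
  have hrest : |∑ s ∈ S.erase (t + 2), x ^ s * (u s - w s)| ≤ x ^ (t + 2) * (c0 / 2) := by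
    calc |∑ s ∈ S.erase (t + 2), x ^ s * (u s - w s)|
          ≤ ∑ s ∈ S.erase (t + 2), |x ^ s * (u s - w s)| := Finset.abs_sum_le_sum_abs _ _
      _ = ∑ s ∈ S.erase (t + 2), x ^ s * |u s - w s| := by
          apply Finset.sum_congr rfl
          intro s _
          rw [abs_mul, abs_of_pos (pow_pos hx0 s)]
      _ = ∑ s ∈ (S.erase (t + 2)).filter (fun s => s ≤ t), x ^ s * |u s - w s| +
          ∑ s ∈ (S.erase (t + 2)).filter (fun s => ¬ s ≤ t), x ^ s * |u s - w s| :=
          (Finset.sum_filter_add_sum_filter_not _ (fun s => s ≤ t) _).symm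
      _ ≤ ∑ s ∈ (S.erase (t + 2)).filter (fun s => s ≤ t), x ^ s * b ^ (t - s) +
          ∑ s ∈ (S.erase (t + 2)).filter (fun s => ¬ s ≤ t), x ^ s := by
          apply add_le_add
          · apply Finset.sum_le_sum
            intro s hs
            have := h1 s (Finset.mem_filter.1 hs).2
            gcongr
          · apply Finset.sum_le_sum
            intro s hs
            have := h2 s
            have h0 := pow_pos hx0 s
            nlinarith
      _ ≤ x ^ t * ((b / x) ^ (M1 + M2) / (1 - b / x)) + x ^ (t + 2 + N) / (1 - x) := by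
          apply add_le_add
          · exact sumB x b (by linarith) hbx _ _ _ hlow
          · exact sumA x hx0.le hx _ _ hup
      _ ≤ x ^ t * (x ^ 2 * (c0 / 4)) + x ^ (t + 2) * (c0 / 4) := by
          have h3 : 0 < 1 - b / x := by linarith
          have h4 : 0 < 1 - x := by linarith
          apply add_le_add
          · gcongr
            rw [div_le_iff₀ h3]
            calc (b / x) ^ (M1 + M2) ≤ (b / x) ^ M1 := pow_le_pow_of_le_one hr0 hr1.le (by omega)
              _ ≤ (1 - b / x) * (x ^ 2 * (c0 / 4)) := hM1.le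
              _ = x ^ 2 * (c0 / 4) * (1 - b / x) := by ring
          · rw [pow_add, mul_div_assoc]
            apply mul_le_mul_of_nonneg_left _ (pow_nonneg hx0.le _)
            rw [div_le_iff₀ h4]
            calc x ^ N ≤ x ^ M2 := pow_le_pow_of_le_one hx0.le hx.le (by omega)
              _ ≤ (1 - x) * (c0 / 4) := hM2.le
              _ = c0 / 4 * (1 - x) := by ring
      _ = x ^ (t + 2) * (c0 / 2) := by rw [pow_add]; ring
  have hsplit : ∑ s ∈ S, x ^ s * (u s - w s) =
      x ^ (t + 2) * (u (t + 2) - w (t + 2)) + ∑ s ∈ S.erase (t + 2), x ^ s * (u s - w s) :=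
    (Finset.add_sum_erase S (fun s => x ^ s * (u s - w s)) hqS).symm
  rw [hsplit]
  have hmain : x ^ (t + 2) * c0 ≤ |x ^ (t + 2) * (u (t + 2) - w (t + 2))| := by
    rw [abs_mul, abs_of_pos (pow_pos hx0 _)]
    gcongr
  have := abs_sub_abs_le_abs_sub (x ^ (t + 2) * (u (t + 2) - w (t + 2)))
    (-∑ s ∈ S.erase (t + 2), x ^ s * (u s - w s))
  rw [abs_neg, sub_neg_eq_add] at this
  linarith

end Pool.HQ
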