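import Pool.Agent.HQ.BsB
import Pool.Agent.HQ.BsSum

/-!
MODULE BsF (problem MP_7936f4_al): the map F on the levels.  COMPLETE PAPER PROOF.

Let b = max(1/2, 1 - 1/V^2) < 1 and lam0 > 0 with exp(-lam0 k) > b, i.e. lam0 = -log(b')/k for some b < b' < 1 (take b' = (1+b)/2).
For 0 < lam <= lam0 put x = exp(-lam k), so b < x < 1; N from BsSum.sum_lower with c0 = 1/L.  Define
 F v (m,a) = sum over s < |v|/k + 1 with s mod N = m of x^s BU s a v   (p = (m,a) in Fin N x Fin L).
BU s a v = 0 for s k > |v|, so F v (m,a) = sum over s < n, s mod N = m, for every n > |v|/k.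
Let |v| = i k, |w| = j k, T2 = T2 v w <= 2 min(|v|,|w|) (triangle inequality), t = T2/(2k) (natural division), so t <= i, j,
2 t k <= T2 < 2(t+1)k.  u s = BU s a v, w s = BU s a w.  Values of BU are in [0,1] (exists_ge, exists_le for ind), so |u s - w s| <= 1.
For s <= t: s <= i, j and |u s - w s| <= (1-1/V^2)^(t-s) <= b^(t-s) by diff_le (|v|/k = i since k > 0).
Upper bound: sum_upper with n > i, j: |F v p - F w p| <= x^t K, K = 1/(1-b/x) + 1/(1-x), and
 x^t = exp(-lam k t) <= exp(lam k) exp(-lam T2/2) because k(t+1) >= T2/2.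
Lower bound when t + 2 <= i, j: s = t+2 satisfies T2 + 16 delta < 2 s k <= T2 + 4k (2sk = 2tk + 4k > T2 + 2k > T2 + 16 delta, and
 2tk <= T2), so sep gives a with u s >= 1/L, w s = 0; sum_lower (n > i, j >= t+2, p = (s mod N, a)) gives |F v p - F w p| >=
 x^(t+2)/(2L) = exp(-lam k (t+2))/(2L) >= exp(-2 lam k) exp(-lam T2/2)/(2L).
Bound: |F v p| <= sum_s x^s <= 1/(1-x).
-/

namespace Pool.HQ

variable {G : Type} {d : G → G → ℕ} {e : G} {δ k V : ℕ}

theorem BsF_kpos (H : BsH d e δ k V) : 0 < k := by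
  have := H.hk
  omega

theorem BsF_T2_le (H : BsH d e δ k V) (v w : G) : T2 d e v w ≤ 2 * d e v ∧ T2 d e v w ≤ 2 * d e w := by
  have h1 := H.tri e v w
  have h2 := H.tri e w v
  have h3 := H.symm v w
  unfold T2
  omega

theorem BsF_BU_zero {L : ℕ} (c : G → Fin L) (s : ℕ) (a : Fin L) (v : G) (h : d e v < s * k) :
    BU d e δ k c s a v = 0 := by
  unfold BU
  rw [if_neg (by omega)]

theorem BsF_BU_mem (H : BsH d e δ k V) {L : ℕ} (c : G → Fin L) (s : ℕ) (a : Fin L) (v : G) :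
    0 ≤ BU d e δ k c s a v ∧ BU d e δ k c s a v ≤ 1 := by
  unfold BU
  split_ifs with h
  · have hle : (d e v / k - s) * k ≤ d e v :=
      (Nat.mul_le_mul_right k (Nat.sub_le _ _)).trans (Nat.div_mul_le_self _ _)
    obtain ⟨y, _, hy⟩ := exists_ge H (ind c a) (d e v / k - s) v hle
    obtain ⟨y', _, hy'⟩ := exists_le H (ind c a) (d e v / k - s) v hle
    have h1 : ind c a y ≤ 1 := by
      unfold ind; split_ifs <;> norm_num
    have h2 : 0 ≤ ind c a y' := by
      unfold ind; split_ifs <;> norm_num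
    exact ⟨h2.trans hy', hy.trans h1⟩
  · exact ⟨le_refl _, zero_le_one⟩

/-- The map F. -/
noncomputable def BsFmap (d : G → G → ℕ) (e : G) (δ k : ℕ) {L : ℕ} (c : G → Fin L) (x : ℝ) (N : ℕ)
    (v : G) (p : Fin N × Fin L) : ℝ :=
  ∑ s ∈ (Finset.range (d e v / k + 1)).filter (fun s => s % N = (p.1 : ℕ)), x ^ s * BU d e δ k c s p.2 v

theorem BsF_Fmap_eq (H : BsH d e δ k V) {L : ℕ} (c : G → Fin L) (x : ℝ) (N : ℕ)
    (v : G) (p : Fin N × Fin L) (n : ℕ) (hn : d e v / k + 1 ≤ n) :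
    BsFmap d e δ k c x N v p =
      ∑ s ∈ (Finset.range n).filter (fun s => s % N = (p.1 : ℕ)), x ^ s * BU d e δ k c s p.2 v := by
  unfold BsFmap
  apply Finset.sum_subset
  · intro s hs
    simp only [Finset.mem_filter, Finset.mem_range] at hs ⊢
    exact ⟨by omega, hs.2⟩
  · intro s hs hs'
    simp only [Finset.mem_filter, Finset.mem_range, not_and] at hs hs'
    have h1 : d e v / k + 1 ≤ s := by
      by_contra hcon
      exact hs' (by omega) hs.2
    have hk := BsF_kpos H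
    have h2 : d e v < s * k := by
      have := Nat.lt_succ_iff.mpr (le_refl (d e v / k))
      have h3 : d e v / k < s := by omega
      exact (Nat.div_lt_iff_lt_mul hk).mp h3
    rw [BsF_BU_zero c s p.2 v h2, mul_zero]

theorem BsF_Fmap_bound (H : BsH d e δ k V) {L : ℕ} (c : G → Fin L) (x : ℝ) (hx0 : 0 < x) (hx1 : x < 1)
    (N : ℕ) (v : G) (p : Fin N × Fin L) :
    |BsFmap d e δ k c x N v p| ≤ 1 / (1 - x) := by
  unfold BsFmap
  have h1 : |∑ s ∈ (Finset.range (d e v / k + 1)).filter (fun s => s % N = (p.1 : ℕ)),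
      x ^ s * BU d e δ k c s p.2 v| ≤
      ∑ s ∈ (Finset.range (d e v / k + 1)).filter (fun s => s % N = (p.1 : ℕ)), x ^ s := by
    refine (Finset.abs_sum_le_sum_abs _ _).trans (Finset.sum_le_sum ?_)
    intro s _
    obtain ⟨h0, h1⟩ := BsF_BU_mem H c s p.2 v
    rw [abs_of_nonneg (mul_nonneg (pow_nonneg hx0.le _) h0)]
    exact mul_le_of_le_one_right (pow_nonneg hx0.le _) h1
  have h2 : ∑ s ∈ (Finset.range (d e v / k + 1)).filter (fun s => s % N = (p.1 : ℕ)), x ^ s ≤
      ∑' s : ℕ, x ^ s :=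
    (summable_geometric_of_lt_one hx0.le hx1).sum_le_tsum _ (fun s _ => pow_nonneg hx0.le _)
  rw [tsum_geometric_of_lt_one hx0.le hx1] at h2
  rw [one_div]
  exact h1.trans h2

theorem BsF_Fmap_sub (H : BsH d e δ k V) {L : ℕ} (c : G → Fin L) (x : ℝ) (N : ℕ)
    (v w : G) (p : Fin N × Fin L) (n : ℕ) (hv : d e v / k + 1 ≤ n) (hw : d e w / k + 1 ≤ n) :
    BsFmap d e δ k c x N v p - BsFmap d e δ k c x N w p =
      ∑ s ∈ (Finset.range n).filter (fun s => s % N = (p.1 : ℕ)),
        x ^ s * (BU d e δ k c s p.2 v - BU d e δ k c s p.2 w) := by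
  rw [BsF_Fmap_eq H c x N v p n hv, BsF_Fmap_eq H c x N w p n hw, ← Finset.sum_sub_distrib]
  refine Finset.sum_congr rfl ?_
  intro s _
  ring

/-- t = floor(T2/(2k)). -/
theorem exists_F (H : BsH d e δ k V) (hV : 1 ≤ V) {L : ℕ} (hL : 0 < L) (c : G → Fin L)
    (hc : ∀ y y', 0 < d y y' → d y y' ≤ 4 * k + 16 * δ → c y ≠ c y') :
    ∃ lam0 : ℝ, 0 < lam0 ∧ ∀ lam : ℝ, 0 < lam → lam ≤ lam0 →
      ∃ (N : ℕ) (F : G → Fin N × Fin L → ℝ) (C c0 : ℝ), 0 < C ∧ 0 < c0 ∧ (∀ v p, |F v p| ≤ C) ∧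
        ∀ (v w : G) (i j : ℕ), d e v = i * k → d e w = j * k →
          (∀ p, |F v p - F w p| ≤ C * Real.exp (-lam * ((T2 d e v w : ℝ) / 2))) ∧
          (T2 d e v w / (2 * k) + 2 ≤ i → T2 d e v w / (2 * k) + 2 ≤ j →
            ∃ p, c0 * Real.exp (-lam * ((T2 d e v w : ℝ) / 2)) ≤ |F v p - F w p|) := by
  have hk := BsF_kpos H
  have hkR : (0 : ℝ) < k := by exact_mod_cast hk
  have hVR : (1 : ℝ) ≤ V := by exact_mod_cast hV
  have hLR : (0 : ℝ) < L := by exact_mod_cast hL
  set β : ℝ := 1 - 1 / (V : ℝ) ^ 2 with hβ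
  have hV2 : (1 : ℝ) ≤ (V : ℝ) ^ 2 := one_le_pow₀ hVR
  have hβ0 : 0 ≤ β := by
    rw [hβ, sub_nonneg, div_le_one (by linarith)]
    exact hV2
  have hβ1 : β < 1 := by
    rw [hβ]
    have : 0 < 1 / (V : ℝ) ^ 2 := by positivity
    linarith
  set b : ℝ := max (1 / 2) β with hb
  have hbhalf : 1 / 2 ≤ b := le_max_left _ _
  have hβb : β ≤ b := le_max_right _ _
  have hb1 : b < 1 := max_lt (by norm_num) hβ1
  have hb0 : 0 < b := by linarith
  set b' : ℝ := (1 + b) / 2 with hb'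
  have hb'b : b < b' := by rw [hb']; linarith
  have hb'1 : b' < 1 := by rw [hb']; linarith
  have hb'0 : 0 < b' := by linarith
  refine ⟨-Real.log b' / k, ?_, ?_⟩
  · apply div_pos _ hkR
    have := Real.log_neg hb'0 hb'1
    linarith
  intro lam hlam hlam0
  set x : ℝ := Real.exp (-(lam * k)) with hx
  have hxb : b < x := by
    have h1 : lam * k ≤ -Real.log b' := by
      rw [le_div_iff₀ hkR] at hlam0
      exact hlam0
    have h2 : Real.exp (Real.log b') ≤ x := by
      rw [hx]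
      apply Real.exp_le_exp.mpr
      linarith
    rw [Real.exp_log hb'0] at h2
    linarith
  have hx0 : 0 < x := by linarith
  have hx1 : x < 1 := by
    rw [hx, Real.exp_lt_one_iff]
    have := mul_pos hlam hkR
    linarith
  have hxpow : ∀ q : ℕ, x ^ q = Real.exp (-(lam * k * q)) := by
    intro q
    rw [hx, ← Real.exp_nat_mul]
    congr 1
    ring
  obtain ⟨N, hN2, hN⟩ := sum_lower x b (1 / (L : ℝ)) hbhalf hxb hx1 (by positivity)
  set K : ℝ := 1 / (1 - b / x) + 1 / (1 - x) with hK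
  have hbx1 : b / x < 1 := (div_lt_one hx0).mpr hxb
  have h1x : 0 < 1 / (1 - x) := by
    apply div_pos one_pos
    linarith
  have hK0 : 0 < K := by
    rw [hK]
    have : 0 < 1 / (1 - b / x) := div_pos one_pos (by linarith)
    linarith
  have hexp0 : 0 < Real.exp (lam * k) := Real.exp_pos _
  refine ⟨N, BsFmap d e δ k c x N, 1 / (1 - x) + Real.exp (lam * k) * K,
    Real.exp (-(2 * lam * k)) / (2 * L), ?_, ?_, ?_, ?_⟩
  · have := mul_pos hexp0 hK0
    linarith
  · positivity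
  · intro v p
    have h := BsF_Fmap_bound H c x hx0 hx1 N v p
    have := mul_pos hexp0 hK0
    linarith
  intro v w i j hi hj
  set t : ℕ := T2 d e v w / (2 * k) with ht
  obtain ⟨hT1, hT2⟩ := BsF_T2_le H v w
  have h2k : 0 < 2 * k := by omega
  have htT : t * (2 * k) ≤ T2 d e v w := Nat.div_mul_le_self _ _
  have htT' : T2 d e v w < (t + 1) * (2 * k) := by
    have := Nat.lt_succ_iff.mpr (le_refl (T2 d e v w / (2 * k)))
    exact (Nat.div_lt_iff_lt_mul h2k).mp this
  have hti : t ≤ i := by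
    have h : t * k ≤ i * k := by linarith
    exact Nat.le_of_mul_le_mul_right h hk
  have htj : t ≤ j := by
    have h : t * k ≤ j * k := by linarith
    exact Nat.le_of_mul_le_mul_right h hk
  have hidiv : d e v / k = i := by rw [hi]; exact Nat.mul_div_cancel i hk
  have hjdiv : d e w / k = j := by rw [hj]; exact Nat.mul_div_cancel j hk
  have hBUv : ∀ s a, s ≤ i → BU d e δ k c s a v = ((BP d e δ k)^[i - s] (ind c a)) v := by
    intro s a hs
    unfold BU
    rw [if_pos, hidiv]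
    rw [hi]
    exact Nat.mul_le_mul_right k hs
  have hBUw : ∀ s a, s ≤ j → BU d e δ k c s a w = ((BP d e δ k)^[j - s] (ind c a)) w := by
    intro s a hs
    unfold BU
    rw [if_pos, hjdiv]
    rw [hj]
    exact Nat.mul_le_mul_right k hs
  have hd1 : ∀ a s, s ≤ t → |BU d e δ k c s a v - BU d e δ k c s a w| ≤ b ^ (t - s) := by
    intro a s hs
    rw [hBUv s a (hs.trans hti), hBUw s a (hs.trans htj)]
    have h := diff_le H (ind c a) (fun y => by unfold ind; split_ifs <;> norm_num)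
      (fun y => by unfold ind; split_ifs <;> norm_num) v w i j s t hi hj hs hti htj
      (by linarith)
    refine h.trans ?_
    exact pow_le_pow_left₀ hβ0 hβb _
  have hd2 : ∀ a s, |BU d e δ k c s a v - BU d e δ k c s a w| ≤ 1 := by
    intro a s
    obtain ⟨h1, h2⟩ := BsF_BU_mem H c s a v
    obtain ⟨h3, h4⟩ := BsF_BU_mem H c s a w
    rw [abs_le]
    constructor <;> linarith
  have hT2R : (T2 d e v w : ℝ) / 2 ≤ k * (t + 1) := by
    have : (T2 d e v w : ℝ) ≤ ((t + 1) * (2 * k) : ℕ) := by exact_mod_cast htT'.le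
    push_cast at this
    linarith
  have hT2R' : (k : ℝ) * t ≤ (T2 d e v w : ℝ) / 2 := by
    have : ((t * (2 * k) : ℕ) : ℝ) ≤ (T2 d e v w : ℝ) := by exact_mod_cast htT
    push_cast at this
    linarith
  set n : ℕ := i + j + 3 with hn
  have hnv : d e v / k + 1 ≤ n := by rw [hidiv]; omega
  have hnw : d e w / k + 1 ≤ n := by rw [hjdiv]; omega
  constructor
  · intro p
    rw [BsF_Fmap_sub H c x N v w p n hnv hnw]
    have h := sum_upper x b hbhalf hxb hx1 (fun s => BU d e δ k c s p.2 v)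
      (fun s => BU d e δ k c s p.2 w) t (fun s hs => hd1 p.2 s hs) (fun s => hd2 p.2 s) n N (p.1 : ℕ)
    refine h.trans ?_
    have h3 : x ^ t ≤ Real.exp (lam * k) * Real.exp (-lam * ((T2 d e v w : ℝ) / 2)) := by
      rw [hxpow, ← Real.exp_add]
      apply Real.exp_le_exp.mpr
      nlinarith
    have h4 : 0 ≤ Real.exp (-lam * ((T2 d e v w : ℝ) / 2)) := (Real.exp_pos _).le
    calc x ^ t * (1 / (1 - b / x) + 1 / (1 - x)) = x ^ t * K := by rw [hK]
      _ ≤ Real.exp (lam * k) * Real.exp (-lam * ((T2 d e v w : ℝ) / 2)) * K :=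
          mul_le_mul_of_nonneg_right h3 hK0.le
      _ = (Real.exp (lam * k) * K) * Real.exp (-lam * ((T2 d e v w : ℝ) / 2)) := by ring
      _ ≤ (1 / (1 - x) + Real.exp (lam * k) * K) * Real.exp (-lam * ((T2 d e v w : ℝ) / 2)) :=
          mul_le_mul_of_nonneg_right (by linarith) h4
  · intro hi2 hj2
    have hkk : 16 * δ + 1 ≤ k := H.hk
    obtain ⟨a, ha1, ha2⟩ := sep H hL c hc v w i j (t + 2) hi hj hi2 hj2
      (by linarith) (by linarith)
    have hNpos : 0 < N := by omega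
    have h := hN (fun s => BU d e δ k c s a v) (fun s => BU d e δ k c s a w) t n
      (fun s hs => hd1 a s hs) (fun s => hd2 a s) (by omega) (by
        show 1 / (L : ℝ) ≤ |BU d e δ k c (t + 2) a v - BU d e δ k c (t + 2) a w|
        rw [hBUv _ a hi2, hBUw _ a hj2, ha2, sub_zero]
        exact ha1.trans (le_abs_self _))
    refine ⟨(⟨(t + 2) % N, Nat.mod_lt _ hNpos⟩, a), ?_⟩
    rw [BsF_Fmap_sub H c x N v w _ n hnv hnw]
    refine le_trans ?_ h
    have h3 : Real.exp (-(2 * lam * k)) * Real.exp (-lam * ((T2 d e v w : ℝ) / 2)) ≤ x ^ (t + 2) := by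
      rw [hxpow, ← Real.exp_add]
      apply Real.exp_le_exp.mpr
      push_cast
      nlinarith
    calc Real.exp (-(2 * lam * k)) / (2 * L) * Real.exp (-lam * ((T2 d e v w : ℝ) / 2))
        = (Real.exp (-(2 * lam * k)) * Real.exp (-lam * ((T2 d e v w : ℝ) / 2))) *
          (1 / (L : ℝ) / 2) := by
          field_simp
      _ ≤ x ^ (t + 2) * (1 / (L : ℝ) / 2) :=
          mul_le_mul_of_nonneg_right h3 (by positivity)

/-- Extension to all of G. pi a = a point with |pi a| = (|a|/k) k, d(a, pi a) = |a| mod k (geo); F a := F (pi a).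
|T2 (pi a) (pi b) - T2 a b| <= 4k.  If T2 a b + 12 k <= 2|a| then T2 (pi a)(pi b)/(2k) + 2 <= |a|/k:
T2 (pi a)(pi b) <= T2 a b + 4k <= 2|a| - 8k, and 2|a| < 2k(|a|/k + 1), so T2(pi a)(pi b)/(2k) <= |a|/k + 1 - 4. Constants change by
exp(2 lam k).  Index set Fin N x Fin L identified with Fin (N * L) (finProdFinEquiv). -/
theorem exists_F_all (H : BsH d e δ k V) (hV : 1 ≤ V) {L : ℕ} (hL : 0 < L) (c : G → Fin L)
    (hc : ∀ y y', 0 < d y y' → d y y' ≤ 4 * k + 16 * δ → c y ≠ c y') :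
    ∃ lam0 : ℝ, 0 < lam0 ∧ ∀ lam : ℝ, 0 < lam → lam ≤ lam0 →
      ∃ (m : ℕ) (F : G → Fin m → ℝ) (C c0 : ℝ), 0 < C ∧ 0 < c0 ∧ (∀ a p, |F a p| ≤ C) ∧
        (∀ a b p, |F a p - F b p| ≤ C * Real.exp (-lam * ((T2 d e a b : ℝ) / 2))) ∧
        ∀ a b, T2 d e a b + 12 * k ≤ 2 * d e a → T2 d e a b + 12 * k ≤ 2 * d e b →
            ∃ p, c0 * Real.exp (-lam * ((T2 d e a b : ℝ) / 2)) ≤ |F a p - F b p| := by
  have hk := BsF_kpos H
  have hkR : (0 : ℝ) < k := by exact_mod_cast hk
  obtain ⟨lam0, hlam0, hmain⟩ := exists_F H hV hL c hc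
  refine ⟨lam0, hlam0, ?_⟩
  intro lam hlam hlle
  obtain ⟨N, F, C, c0, hC, hc0, hFb, hF⟩ := hmain lam hlam hlle
  -- the projection
  have hpi : ∀ a : G, ∃ y : G, d e y = (d e a / k) * k ∧ d y a = d e a - (d e a / k) * k :=
    fun a => H.geo e a ((d e a / k) * k) (Nat.div_mul_le_self _ _)
  choose π hπ1 hπ2 using hpi
  have hdiff : ∀ a b, T2 d e (π a) (π b) ≤ T2 d e a b ∧ T2 d e a b ≤ T2 d e (π a) (π b) + 4 * k := by
    intro a b
    have ha1 := hπ1 a
    have ha2 := hπ2 a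
    have hb1 := hπ1 b
    have hb2 := hπ2 b
    have hma : d e a < (d e a / k) * k + k := by
      have := Nat.lt_div_mul_add hk (a := d e a)
      exact this
    have hmb : d e b < (d e b / k) * k + k := Nat.lt_div_mul_add hk
    have hma' : (d e a / k) * k ≤ d e a := Nat.div_mul_le_self _ _
    have hmb' : (d e b / k) * k ≤ d e b := Nat.div_mul_le_self _ _
    have t1 := H.tri a (π a) b
    have t2 := H.tri (π a) (π b) b
    have t3 := H.tri (π a) a (π b)
    have t4 := H.tri a b (π b)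
    have s1 := H.symm a (π a)
    have s2 := H.symm b (π b)
    have u1 := H.tri a e b
    have u2 := H.symm a e
    have u3 := H.tri (π a) e (π b)
    have u4 := H.symm (π a) e
    unfold T2
    generalize (d e a / k) * k = A at *
    generalize (d e b / k) * k = B at *
    omega
  set E : ℝ := Real.exp (2 * lam * k) with hE
  have hE0 : 0 < E := Real.exp_pos _
  have hE1 : 1 ≤ E := by
    rw [hE]
    apply Real.one_le_exp
    positivity
  have hCE : C ≤ C * E := le_mul_of_one_le_right hC.le hE1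
  refine ⟨N * L, fun a p => F (π a) (finProdFinEquiv.symm p), C * E, c0, by positivity, hc0, ?_, ?_, ?_⟩
  · intro a p
    exact (hFb _ _).trans hCE
  · intro a b p
    have h := (hF (π a) (π b) _ _ (hπ1 a) (hπ1 b)).1 (finProdFinEquiv.symm p)
    refine h.trans ?_
    obtain ⟨hd1, hd2⟩ := hdiff a b
    have hd2R : (T2 d e a b : ℝ) ≤ T2 d e (π a) (π b) + 4 * k := by exact_mod_cast hd2
    have h3 : Real.exp (-lam * ((T2 d e (π a) (π b) : ℝ) / 2)) ≤
        E * Real.exp (-lam * ((T2 d e a b : ℝ) / 2)) := by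
      rw [hE, ← Real.exp_add]
      apply Real.exp_le_exp.mpr
      nlinarith
    calc C * Real.exp (-lam * ((T2 d e (π a) (π b) : ℝ) / 2))
        ≤ C * (E * Real.exp (-lam * ((T2 d e a b : ℝ) / 2))) :=
          mul_le_mul_of_nonneg_left h3 hC.le
      _ = C * E * Real.exp (-lam * ((T2 d e a b : ℝ) / 2)) := by ring
  · intro a b ha hb
    obtain ⟨hd1, hd2⟩ := hdiff a b
    have h2k : 0 < 2 * k := by omega
    have key : ∀ z : G, T2 d e a b + 12 * k ≤ 2 * d e z →
        T2 d e (π a) (π b) / (2 * k) + 2 ≤ d e z / k := by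
      intro z hz
      have hmz : d e z < (d e z / k) * k + k := Nat.lt_div_mul_add hk
      have h1 : T2 d e (π a) (π b) / (2 * k) * (2 * k) ≤ T2 d e (π a) (π b) := Nat.div_mul_le_self _ _
      set q := T2 d e (π a) (π b) / (2 * k) with hq
      have h5 : (q + 2) * k ≤ (d e z / k) * k := by
        linarith
      exact Nat.le_of_mul_le_mul_right h5 hk
    obtain ⟨p, hp⟩ := (hF (π a) (π b) _ _ (hπ1 a) (hπ1 b)).2 (key a ha) (key b hb)
    refine ⟨finProdFinEquiv p, ?_⟩
    simp only [Equiv.symm_apply_apply]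
    refine le_trans ?_ hp
    apply mul_le_mul_of_nonneg_left _ hc0.le
    apply Real.exp_le_exp.mpr
    have hd1R : (T2 d e (π a) (π b) : ℝ) ≤ T2 d e a b := by exact_mod_cast hd1
    nlinarith

end Pool.HQ
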