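import Mathlib

/-!
MODULE BsSph (problem MP_7936f4_al): a box of R^m in the unit sphere of R^(m+1), and the passage to the ball.
COMPLETE PAPER PROOF.

box_sphere: R = 2 C sqrt(m) + 2 (so |v| <= R/2 in Euclidean norm when |v_p| <= C), sigma v = (v/R, sqrt(1 - |v|^2/R^2)) by Fin.snoc.
 |sigma v| = 1.  |sigma v - sigma w|^2 = |v-w|^2/R^2 + (sqrt(1-s) - sqrt(1-s'))^2 with s = |v|^2/R^2, s' = |w|^2/R^2 in [0,1/4];
 |sqrt(1-s) - sqrt(1-s')| = |s-s'|/(sqrt(1-s)+sqrt(1-s')) <= |s-s'| <= (|v|+|w|)|v-w|/R^2 <= |v-w|/R.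
 So |v-w|/R <= |sigma v - sigma w| <= 2|v-w|/R, and |v-w| <= sqrt(m) max_p |v_p - w_p|, |v_p - w_p| <= |v-w|.
 A = max(R, 2 sqrt(m)/R) + 1 works.

to_ball: n a = |a| (natural), 2(a|b) = T a b := n a + n b - d a b (natural subtraction, d a b <= n a + n b), T a b <= 2 n a, 2 n b
 (these follow from the triangle inequality), n e = 0.  sigma : G -> unit sphere with
 (U) |sigma a - sigma b| <= C exp(-lam T/2), (L) |sigma a - sigma b| >= c0 exp(-lam T/2) if T + K <= 2 n a, 2 n b.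
 rho a = 1 - E a, E a = exp(-lam n a), f a = rho a . sigma a.  f e = 0.  |f a| = rho a < 1.  D a = 1 - |f a|^2 = E a (2 - E a), so
 E a <= D a <= 2 E a.  Write q = |f a - f b|^2/(D a D b), Q = exp(lam d(a,b)) = exp(-lam T)/(E a E b) (T = n a + n b - d).
 Upper: |f a - f b| <= |rho a - rho b| + |sigma a - sigma b| <= (1 + C) exp(-lam T/2), since E a, E b <= exp(-lam T/2).
  So 1 + q <= 1 + (1+C)^2 Q <= (1 + (1+C)^2) Q  (Q >= 1).
 Lower: let K1 >= K be such that exp(-lam K1/2) <= min(1/2, c0/4).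
  Case T + K1 <= 2 n a, 2 n b: E a, E b <= exp(-lam K1/2) exp(-lam T/2) (and <= 1/2), so rho a >= 1/2 and |f a - f b| >=
   rho a |sigma a - sigma b| - |rho a - rho b| >= (c0/2 - c0/4) exp(-lam T/2), q >= (c0/4)^2 exp(-lam T)/(4 E a E b) = c0^2/64 Q.
  Case T + K1 > 2 n a (the case of b is symmetric): d = n a + n b - T < n b - n a + K1.
   |f a - f b| >= |rho a - rho b| = |E a - E b|, so 1 + q >= 1 + (E a - E b)^2/(4 E a E b) = (E a + E b)^2/(4 E a E b)
   >= E a/(4 E b) = exp(lam (n b - n a))/4 >= exp(-lam K1) Q/4.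
-/

namespace Pool.HQ

theorem box_sphere (m : ℕ) (C : ℝ) (hC : 0 < C) :
    ∃ (A : ℝ) (σ : (Fin m → ℝ) → EuclideanSpace ℝ (Fin (m + 1))), 0 < A ∧
      (∀ v, (∀ p, |v p| ≤ C) → ‖σ v‖ = 1) ∧
      ∀ v w, (∀ p, |v p| ≤ C) → (∀ p, |w p| ≤ C) →
        (∀ p, |v p - w p| ≤ A * ‖σ v - σ w‖) ∧
        ∀ t, 0 ≤ t → (∀ p, |v p - w p| ≤ t) → ‖σ v - σ w‖ ≤ A * t := by
  have hm : (0 : ℝ) ≤ m := Nat.cast_nonneg m
  obtain ⟨R, hR⟩ : ∃ R : ℝ, R = 2 * C * Real.sqrt m + 2 := ⟨_, rfl⟩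
  have hsm := Real.sqrt_nonneg (m : ℝ)
  have hR2 : 2 ≤ R := by
    rw [hR]
    have : 0 ≤ 2 * C * Real.sqrt m := by positivity
    linarith
  have hRpos : 0 < R := by linarith
  have hRsq : 4 * C ^ 2 * m ≤ R ^ 2 := by
    have h1 : (2 * C * Real.sqrt m) ^ 2 = 4 * C ^ 2 * m := by
      rw [mul_pow, Real.sq_sqrt hm]
      ring
    rw [← h1, hR]
    apply pow_le_pow_left₀ (by positivity)
    linarith
  let q : (Fin m → ℝ) → ℝ := fun v => ∑ p, (v p / R) ^ 2
  let σ : (Fin m → ℝ) → EuclideanSpace ℝ (Fin (m + 1)) := fun v =>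
    WithLp.toLp 2 (Fin.snoc (α := fun _ => ℝ) (fun p => v p / R) (Real.sqrt (1 - q v)))
  have hσc : ∀ v (p : Fin m), σ v p.castSucc = v p / R := by
    intro v p
    simp only [σ]
    exact Fin.snoc_castSucc (α := fun _ => ℝ) _ _ p
  have hσl : ∀ v, σ v (Fin.last m) = Real.sqrt (1 - q v) := by
    intro v
    simp only [σ]
    exact Fin.snoc_last (α := fun _ => ℝ) _ _
  have hq0 : ∀ v, 0 ≤ q v := fun v => Finset.sum_nonneg fun p _ => sq_nonneg _
  have hq1 : ∀ v, (∀ p, |v p| ≤ C) → q v ≤ 1 / 4 := by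
    intro v hv
    have h1 : q v ≤ ∑ _p : Fin m, C ^ 2 / R ^ 2 := by
      apply Finset.sum_le_sum
      intro p _
      rw [div_pow]
      apply div_le_div_of_nonneg_right _ (by positivity)
      rw [← sq_abs (v p)]
      exact pow_le_pow_left₀ (abs_nonneg _) (hv p) 2
    rw [Finset.sum_const, Finset.card_univ, Fintype.card_fin, nsmul_eq_mul] at h1
    have h2 : (m : ℝ) * (C ^ 2 / R ^ 2) ≤ 1 / 4 := by
      rw [mul_div_assoc', div_le_iff₀ (by positivity)]
      linarith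
    exact h1.trans h2
  have hnorm : ∀ v, ‖σ v‖ ^ 2 = q v + Real.sqrt (1 - q v) ^ 2 := by
    intro v
    rw [EuclideanSpace.norm_sq_eq, Fin.sum_univ_castSucc]
    simp only [hσc, hσl, Real.norm_eq_abs, sq_abs]
    rfl
  have hdiff : ∀ v w, ‖σ v - σ w‖ ^ 2 = (∑ p, ((v p - w p) / R) ^ 2) +
      (Real.sqrt (1 - q v) - Real.sqrt (1 - q w)) ^ 2 := by
    intro v w
    rw [EuclideanSpace.norm_sq_eq, Fin.sum_univ_castSucc]
    simp only [PiLp.sub_apply, hσc, hσl, Real.norm_eq_abs, sq_abs, sub_div]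
  refine ⟨R + m + 2 * m * C + 1, σ, by positivity, ?_, ?_⟩
  · intro v hv
    have h1 := hq1 v hv
    have h2 := hnorm v
    rw [Real.sq_sqrt (by linarith)] at h2
    have h3 : ‖σ v‖ ^ 2 = 1 := by linarith
    have h4 := norm_nonneg (σ v)
    nlinarith
  · intro v w hv hw
    have hN := norm_nonneg (σ v - σ w)
    constructor
    · intro p
      have h1 : ((v p - w p) / R) ^ 2 ≤ ‖σ v - σ w‖ ^ 2 := by
        rw [hdiff]
        have h2 := Finset.single_le_sum (f := fun p => ((v p - w p) / R) ^ 2)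
          (fun p _ => sq_nonneg _) (Finset.mem_univ p)
        have h3 := sq_nonneg (Real.sqrt (1 - q v) - Real.sqrt (1 - q w))
        linarith
      have h4 : |(v p - w p) / R| ≤ ‖σ v - σ w‖ := by
        have := Real.sqrt_le_sqrt h1
        rwa [Real.sqrt_sq_eq_abs, Real.sqrt_sq hN] at this
      rw [abs_div, abs_of_pos hRpos, div_le_iff₀ hRpos] at h4
      calc |v p - w p| ≤ ‖σ v - σ w‖ * R := h4
        _ = R * ‖σ v - σ w‖ := by ring
        _ ≤ (R + m + 2 * m * C + 1) * ‖σ v - σ w‖ := by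
            apply mul_le_mul_of_nonneg_right _ hN
            have : 0 ≤ 2 * m * C := by positivity
            linarith
    · intro t ht hvt
      have h1 := hq1 v hv
      have h2 := hq1 w hw
      -- the first part
      have hS : (∑ p, ((v p - w p) / R) ^ 2) ≤ m * t ^ 2 := by
        have h3 : (∑ p, ((v p - w p) / R) ^ 2) ≤ ∑ _p : Fin m, t ^ 2 := by
          apply Finset.sum_le_sum
          intro p _
          rw [div_pow, div_le_iff₀ (by positivity)]
          have h4 : (v p - w p) ^ 2 ≤ t ^ 2 := by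
            rw [← sq_abs (v p - w p)]
            exact pow_le_pow_left₀ (abs_nonneg _) (hvt p) 2
          have h5 : 1 ≤ R ^ 2 := by nlinarith
          nlinarith [sq_nonneg t]
        rw [Finset.sum_const, Finset.card_univ, Fintype.card_fin, nsmul_eq_mul] at h3
        exact h3
      have hqd : |q v - q w| ≤ 2 * m * C * t := by
        have h3 : q v - q w = ∑ p, ((v p / R) ^ 2 - (w p / R) ^ 2) := by
          simp only [q, Finset.sum_sub_distrib]
        rw [h3]
        calc |∑ p, ((v p / R) ^ 2 - (w p / R) ^ 2)| ≤ ∑ p, |(v p / R) ^ 2 - (w p / R) ^ 2| :=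
              Finset.abs_sum_le_sum_abs _ _
          _ ≤ ∑ _p : Fin m, 2 * C * t := by
              apply Finset.sum_le_sum
              intro p _
              have h4 : (v p / R) ^ 2 - (w p / R) ^ 2 = ((v p + w p) * (v p - w p)) / R ^ 2 := by
                field_simp
                ring
              rw [h4, abs_div, abs_mul, abs_of_pos (by positivity : (0 : ℝ) < R ^ 2),
                div_le_iff₀ (by positivity)]
              have h5 : |v p + w p| ≤ 2 * C := by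
                have := abs_add_le (v p) (w p)
                linarith [hv p, hw p]
              have h6 : |v p + w p| * |v p - w p| ≤ 2 * C * t :=
                mul_le_mul h5 (hvt p) (abs_nonneg _) (by positivity)
              have h7 : 1 ≤ R ^ 2 := by nlinarith
              have h8 : 0 ≤ 2 * C * t := by positivity
              nlinarith
          _ = 2 * m * C * t := by
              rw [Finset.sum_const, Finset.card_univ, Fintype.card_fin, nsmul_eq_mul]
              ring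
      have hsq : |Real.sqrt (1 - q v) - Real.sqrt (1 - q w)| ≤ |q v - q w| := by
        have ha : 1 / 2 ≤ Real.sqrt (1 - q v) := by
          apply Real.le_sqrt_of_sq_le
          linarith
        have hb : 1 / 2 ≤ Real.sqrt (1 - q w) := by
          apply Real.le_sqrt_of_sq_le
          linarith
        have ha2 : Real.sqrt (1 - q v) ^ 2 = 1 - q v := Real.sq_sqrt (by linarith)
        have hb2 : Real.sqrt (1 - q w) ^ 2 = 1 - q w := Real.sq_sqrt (by linarith)
        have h3 : (Real.sqrt (1 - q v) - Real.sqrt (1 - q w)) *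
            (Real.sqrt (1 - q v) + Real.sqrt (1 - q w)) = -(q v - q w) := by nlinarith
        have h4 : |Real.sqrt (1 - q v) - Real.sqrt (1 - q w)| *
            (Real.sqrt (1 - q v) + Real.sqrt (1 - q w)) = |q v - q w| := by
          rw [← abs_of_nonneg (by linarith : 0 ≤ Real.sqrt (1 - q v) + Real.sqrt (1 - q w)),
            ← abs_mul, h3, abs_neg]
        have h5 := abs_nonneg (Real.sqrt (1 - q v) - Real.sqrt (1 - q w))
        nlinarith
      have hfin : ‖σ v - σ w‖ ^ 2 ≤ ((R + m + 2 * m * C + 1) * t) ^ 2 := by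
        rw [hdiff]
        have h3 : (Real.sqrt (1 - q v) - Real.sqrt (1 - q w)) ^ 2 ≤ (2 * m * C * t) ^ 2 := by
          rw [← sq_abs (Real.sqrt (1 - q v) - Real.sqrt (1 - q w))]
          exact pow_le_pow_left₀ (abs_nonneg _) (hsq.trans hqd) 2
        have h4 : (m : ℝ) ≤ (m : ℝ) ^ 2 + 1 := by nlinarith [sq_nonneg ((m : ℝ) - 1)]
        have h5 : (m : ℝ) * t ^ 2 + (2 * m * C * t) ^ 2 ≤ ((R + m + 2 * m * C + 1) * t) ^ 2 := by
          have h6 : ((R + m + 2 * m * C + 1) * t) ^ 2 = (R + m + 2 * m * C + 1) ^ 2 * t ^ 2 := by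
            ring
          rw [h6, mul_pow, ← add_mul]
          apply mul_le_mul_of_nonneg_right _ (sq_nonneg t)
          have h7 : 0 ≤ 2 * m * C := by positivity
          nlinarith [mul_nonneg hm h7, mul_nonneg hRpos.le hm, mul_nonneg hRpos.le h7]
        linarith
      have h9 : 0 ≤ (R + m + 2 * m * C + 1) * t := by positivity
      exact abs_le_of_sq_le_sq' hfin h9 |>.2

/-- The real inequalities behind `to_ball`. -/
theorem ball_upper (Ea Eb X Q C N : ℝ) (ha : 0 < Ea) (hb : 0 < Eb) (ha1 : Ea ≤ 1) (hb1 : Eb ≤ 1)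
    (hQ : 1 ≤ Q) (hX2 : X ^ 2 = Q * Ea * Eb) (hN0 : 0 ≤ N) (hC : 0 < C) (hX : 0 < X)
    (hN : N ≤ (1 + C) * X) :
    1 + N ^ 2 / ((1 - (1 - Ea) ^ 2) * (1 - (1 - Eb) ^ 2)) ≤ (1 + (1 + C) ^ 2) * Q := by
  have hDa : Ea ≤ 1 - (1 - Ea) ^ 2 := by nlinarith
  have hDb : Eb ≤ 1 - (1 - Eb) ^ 2 := by nlinarith
  have hDD : Ea * Eb ≤ (1 - (1 - Ea) ^ 2) * (1 - (1 - Eb) ^ 2) :=
    mul_le_mul hDa hDb hb.le (ha.le.trans hDa)
  have hEE : 0 < Ea * Eb := mul_pos ha hb
  have h1 : N ^ 2 ≤ ((1 + C) * X) ^ 2 := pow_le_pow_left₀ hN0 hN 2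
  have h2 : N ^ 2 / ((1 - (1 - Ea) ^ 2) * (1 - (1 - Eb) ^ 2)) ≤ (1 + C) ^ 2 * Q := by
    rw [div_le_iff₀ (by linarith)]
    calc N ^ 2 ≤ (1 + C) ^ 2 * X ^ 2 := by rw [← mul_pow]; exact h1
      _ = (1 + C) ^ 2 * Q * (Ea * Eb) := by rw [hX2]; ring
      _ ≤ (1 + C) ^ 2 * Q * ((1 - (1 - Ea) ^ 2) * (1 - (1 - Eb) ^ 2)) := by
          apply mul_le_mul_of_nonneg_left hDD
          positivity
  nlinarith

theorem ball_lower1 (Ea Eb X Q c0 N : ℝ) (ha : 0 < Ea) (hb : 0 < Eb) (ha1 : Ea ≤ 1) (hb1 : Eb ≤ 1)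
    (hX2 : X ^ 2 = Q * Ea * Eb) (hc0 : 0 < c0) (hX : 0 < X) (hQ : 0 < Q)
    (hN : c0 / 4 * X ≤ N) :
    c0 ^ 2 / 64 * Q ≤ 1 + N ^ 2 / ((1 - (1 - Ea) ^ 2) * (1 - (1 - Eb) ^ 2)) := by
  have hDa : 1 - (1 - Ea) ^ 2 ≤ 2 * Ea := by nlinarith
  have hDb : 1 - (1 - Eb) ^ 2 ≤ 2 * Eb := by nlinarith
  have hDa0 : 0 < 1 - (1 - Ea) ^ 2 := by nlinarith
  have hDb0 : 0 < 1 - (1 - Eb) ^ 2 := by nlinarith
  have hDD : (1 - (1 - Ea) ^ 2) * (1 - (1 - Eb) ^ 2) ≤ 2 * Ea * (2 * Eb) :=
    mul_le_mul hDa hDb hDb0.le (by positivity)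
  have h1 : (c0 / 4 * X) ^ 2 ≤ N ^ 2 := pow_le_pow_left₀ (by positivity) hN 2
  have h2 : c0 ^ 2 / 64 * Q ≤ N ^ 2 / ((1 - (1 - Ea) ^ 2) * (1 - (1 - Eb) ^ 2)) := by
    rw [le_div_iff₀ (mul_pos hDa0 hDb0)]
    calc c0 ^ 2 / 64 * Q * ((1 - (1 - Ea) ^ 2) * (1 - (1 - Eb) ^ 2))
        ≤ c0 ^ 2 / 64 * Q * (2 * Ea * (2 * Eb)) := by
          apply mul_le_mul_of_nonneg_left hDD
          positivity
      _ = c0 ^ 2 / 16 * X ^ 2 := by rw [hX2]; ring
      _ = (c0 / 4 * X) ^ 2 := by ring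
      _ ≤ N ^ 2 := h1
  linarith

theorem ball_lower2 (Ea Eb Q N k : ℝ) (ha : 0 < Ea) (hb : 0 < Eb) (ha1 : Ea ≤ 1) (hb1 : Eb ≤ 1)
    (hN : |Ea - Eb| ≤ N) (hk : k * Q * Eb ≤ Ea) :
    k / 4 * Q ≤ 1 + N ^ 2 / ((1 - (1 - Ea) ^ 2) * (1 - (1 - Eb) ^ 2)) := by
  have hDa : 1 - (1 - Ea) ^ 2 ≤ 2 * Ea := by nlinarith
  have hDb : 1 - (1 - Eb) ^ 2 ≤ 2 * Eb := by nlinarith
  have hDa0 : 0 < 1 - (1 - Ea) ^ 2 := by nlinarith
  have hDb0 : 0 < 1 - (1 - Eb) ^ 2 := by nlinarith
  have hDD : (1 - (1 - Ea) ^ 2) * (1 - (1 - Eb) ^ 2) ≤ 2 * Ea * (2 * Eb) :=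
    mul_le_mul hDa hDb hDb0.le (by positivity)
  have h1 : (Ea - Eb) ^ 2 ≤ N ^ 2 := by
    rw [← sq_abs (Ea - Eb)]
    exact pow_le_pow_left₀ (abs_nonneg _) hN 2
  have h2 : (Ea - Eb) ^ 2 / (2 * Ea * (2 * Eb)) ≤
      N ^ 2 / ((1 - (1 - Ea) ^ 2) * (1 - (1 - Eb) ^ 2)) := by
    apply div_le_div₀ (by positivity) h1 (mul_pos hDa0 hDb0) hDD
  have h3 : k / 4 * Q ≤ 1 + (Ea - Eb) ^ 2 / (2 * Ea * (2 * Eb)) := by
    have h4 : 1 + (Ea - Eb) ^ 2 / (2 * Ea * (2 * Eb)) = (Ea + Eb) ^ 2 / (4 * Ea * Eb) := by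
      field_simp
      ring
    rw [h4, le_div_iff₀ (by positivity)]
    have h5 : k * Q * Eb * Ea ≤ Ea * Ea := mul_le_mul_of_nonneg_right hk ha.le
    nlinarith [mul_pos ha hb]
  linarith

theorem to_ball {G : Type} (d : G → G → ℕ) (e : G) (hself : ∀ a, d a a = 0)
    (hsymm : ∀ a b, d a b = d b a) (htri : ∀ a b c, d a c ≤ d a b + d b c)
    {E : Type} [NormedAddCommGroup E] [NormedSpace ℝ E] (σ : G → E) (hσ : ∀ a, ‖σ a‖ = 1)
    (lam C c0 : ℝ) (K : ℕ) (hlam : 0 < lam) (hC : 0 < C) (hc0 : 0 < c0)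
    (hU : ∀ a b, ‖σ a - σ b‖ ≤ C * Real.exp (-lam * (((d e a + d e b - d a b : ℕ) : ℝ) / 2)))
    (hL : ∀ a b, (d e a + d e b - d a b) + K ≤ 2 * d e a → (d e a + d e b - d a b) + K ≤ 2 * d e b →
      c0 * Real.exp (-lam * (((d e a + d e b - d a b : ℕ) : ℝ) / 2)) ≤ ‖σ a - σ b‖) :
    ∃ (C' : ℝ) (f : G → E), 1 ≤ C' ∧ f e = 0 ∧ (∀ a, ‖f a‖ < 1) ∧ ∀ a b,
      C'⁻¹ * Real.exp (lam * d a b) ≤ 1 + ‖f a - f b‖ ^ 2 / ((1 - ‖f a‖ ^ 2) * (1 - ‖f b‖ ^ 2)) ∧
      1 + ‖f a - f b‖ ^ 2 / ((1 - ‖f a‖ ^ 2) * (1 - ‖f b‖ ^ 2)) ≤ C' * Real.exp (lam * d a b) := by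
  -- the constant K1
  obtain ⟨K1, hK1, hε1, hε2⟩ : ∃ K1 : ℕ, K ≤ K1 ∧ Real.exp (-lam * ((K1 : ℝ) / 2)) ≤ 1 / 2 ∧
      Real.exp (-lam * ((K1 : ℝ) / 2)) ≤ c0 / 4 := by
    have hlim : Filter.Tendsto (fun n : ℕ => Real.exp (-lam * ((n : ℝ) / 2))) Filter.atTop
        (nhds 0) := by
      apply Real.tendsto_exp_atBot.comp
      have h1 : Filter.Tendsto (fun n : ℕ => (n : ℝ) / 2) Filter.atTop Filter.atTop :=
        tendsto_natCast_atTop_atTop.atTop_div_const (by norm_num)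
      exact h1.const_mul_atTop_of_neg (by linarith)
    have h1 := hlim.eventually (ge_mem_nhds (by norm_num : (0 : ℝ) < 1 / 2))
    have h2 := hlim.eventually (ge_mem_nhds (by positivity : (0 : ℝ) < c0 / 4))
    obtain ⟨K1, hK⟩ := (h1.and (h2.and (Filter.eventually_ge_atTop K))).exists
    exact ⟨K1, hK.2.2, hK.1, hK.2.1⟩
  let Ex : G → ℝ := fun a => Real.exp (-lam * (d e a : ℝ))
  let f : G → E := fun a => (1 - Ex a) • σ a
  have hE0 : ∀ a, 0 < Ex a := fun a => Real.exp_pos _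
  have hE1 : ∀ a, Ex a ≤ 1 := by
    intro a
    apply Real.exp_le_one_iff.2
    have : (0 : ℝ) ≤ d e a := Nat.cast_nonneg _
    nlinarith
  have hfn : ∀ a, ‖f a‖ = 1 - Ex a := by
    intro a
    simp only [f]
    rw [norm_smul, hσ, mul_one, Real.norm_eq_abs, abs_of_nonneg (by linarith [hE1 a])]
  have h4K : 0 < Real.exp (lam * K1) := Real.exp_pos _
  have h64 : 0 < 64 / c0 ^ 2 := by positivity
  refine ⟨1 + (1 + C) ^ 2 + 64 / c0 ^ 2 + 4 * Real.exp (lam * K1), f, ?_, ?_, ?_, ?_⟩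
  · nlinarith [sq_nonneg (1 + C)]
  · simp only [f, Ex]
    rw [hself]
    simp
  · intro a
    rw [hfn]
    linarith [hE0 a]
  · intro a b
    rw [hfn a, hfn b]
    -- the Gromov product
    obtain ⟨T, hT⟩ : ∃ T : ℕ, T = d e a + d e b - d a b := ⟨_, rfl⟩
    have t1 : d a b ≤ d e a + d e b := by
      have := htri a e b
      rw [hsymm a e] at this
      exact this
    have t2 : d e b ≤ d e a + d a b := htri e a b
    have t3 : d e a ≤ d e b + d a b := by
      have := htri e b a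
      rw [hsymm b a] at this
      exact this
    have hTr : (T : ℝ) = d e a + d e b - d a b := by
      have : T + d a b = d e a + d e b := by omega
      have h2 : ((T + d a b : ℕ) : ℝ) = ((d e a + d e b : ℕ) : ℝ) := by rw [this]
      push_cast at h2
      linarith
    have hTa : (T : ℝ) ≤ 2 * d e a := by
      have : T ≤ 2 * d e a := by omega
      exact_mod_cast this
    have hTb : (T : ℝ) ≤ 2 * d e b := by
      have : T ≤ 2 * d e b := by omega
      exact_mod_cast this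
    have hT0 : (0 : ℝ) ≤ T := Nat.cast_nonneg _
    obtain ⟨X, hX⟩ : ∃ X : ℝ, X = Real.exp (-lam * ((T : ℝ) / 2)) := ⟨_, rfl⟩
    obtain ⟨Q, hQ⟩ : ∃ Q : ℝ, Q = Real.exp (lam * d a b) := ⟨_, rfl⟩
    have hXpos : 0 < X := by rw [hX]; exact Real.exp_pos _
    have hX1 : X ≤ 1 := by
      rw [hX]
      apply Real.exp_le_one_iff.2
      nlinarith
    have hQpos : 0 < Q := by rw [hQ]; exact Real.exp_pos _
    have hQ1 : 1 ≤ Q := by
      rw [hQ]
      apply Real.one_le_exp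
      have : (0 : ℝ) ≤ d a b := Nat.cast_nonneg _
      positivity
    have hX2 : X ^ 2 = Q * Ex a * Ex b := by
      rw [hX, hQ, ← Real.exp_nat_mul]
      simp only [Ex]
      rw [← Real.exp_add, ← Real.exp_add]
      congr 1
      push_cast
      rw [hTr]
      ring
    have hEaX : Ex a ≤ X := by
      rw [hX]
      apply Real.exp_le_exp.2
      nlinarith
    have hEbX : Ex b ≤ X := by
      rw [hX]
      apply Real.exp_le_exp.2
      nlinarith
    have hU' := hU a b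
    rw [← hT, ← hX] at hU'
    have hL' := hL a b
    rw [← hT, ← hX] at hL'
    have hN0 : 0 ≤ ‖f a - f b‖ := norm_nonneg _
    have hdec : f a - f b = (1 - Ex a) • (σ a - σ b) + (Ex b - Ex a) • σ b := by
      simp only [f]
      rw [smul_sub, sub_smul (Ex b) (Ex a)]
      rw [sub_smul 1 (Ex b) (σ b), sub_smul 1 (Ex a) (σ b)]
      abel
    have hEab : |Ex b - Ex a| ≤ X := by
      rw [abs_le]
      constructor <;> linarith [hE0 a, hE0 b]
    have hNup : ‖f a - f b‖ ≤ (1 + C) * X := by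
      rw [hdec]
      calc ‖(1 - Ex a) • (σ a - σ b) + (Ex b - Ex a) • σ b‖
          ≤ ‖(1 - Ex a) • (σ a - σ b)‖ + ‖(Ex b - Ex a) • σ b‖ := norm_add_le _ _
        _ = (1 - Ex a) * ‖σ a - σ b‖ + |Ex b - Ex a| := by
            rw [norm_smul, norm_smul, hσ, mul_one, Real.norm_eq_abs, Real.norm_eq_abs,
              abs_of_nonneg (by linarith [hE1 a])]
        _ ≤ (1 + C) * X := by
            have h1 : (1 - Ex a) * ‖σ a - σ b‖ ≤ 1 * (C * X) := by
              apply mul_le_mul (by linarith [hE0 a]) hU' (norm_nonneg _) (by norm_num)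
            linarith
    constructor
    · -- lower bound
      have hCp : 0 < 1 + (1 + C) ^ 2 + 64 / c0 ^ 2 + 4 * Real.exp (lam * K1) := by positivity
      by_cases hcase : T + K1 ≤ 2 * d e a ∧ T + K1 ≤ 2 * d e b
      · have hl := hL' (by omega) (by omega)
        have hTa' : (T : ℝ) + K1 ≤ 2 * d e a := by exact_mod_cast hcase.1
        have hTb' : (T : ℝ) + K1 ≤ 2 * d e b := by exact_mod_cast hcase.2
        have hEa : Ex a ≤ Real.exp (-lam * ((K1 : ℝ) / 2)) * X := by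
          rw [hX, ← Real.exp_add]
          apply Real.exp_le_exp.2
          nlinarith
        have hEb : Ex b ≤ Real.exp (-lam * ((K1 : ℝ) / 2)) * X := by
          rw [hX, ← Real.exp_add]
          apply Real.exp_le_exp.2
          nlinarith
        have hεX : Real.exp (-lam * ((K1 : ℝ) / 2)) * X ≤ c0 / 4 * X :=
          mul_le_mul_of_nonneg_right hε2 hXpos.le
        have hεX' : Real.exp (-lam * ((K1 : ℝ) / 2)) * X ≤ 1 / 2 := by
          calc Real.exp (-lam * ((K1 : ℝ) / 2)) * X ≤ 1 / 2 * 1 :=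
                mul_le_mul hε1 hX1 hXpos.le (by norm_num)
            _ = 1 / 2 := by ring
        have hEab' : |Ex b - Ex a| ≤ c0 / 4 * X := by
          rw [abs_le]
          constructor <;> linarith [hE0 a, hE0 b]
        have hNlow : c0 / 4 * X ≤ ‖f a - f b‖ := by
          rw [hdec]
          have h1 : ‖(1 - Ex a) • (σ a - σ b)‖ - ‖(Ex b - Ex a) • σ b‖ ≤
              ‖(1 - Ex a) • (σ a - σ b) + (Ex b - Ex a) • σ b‖ := by
            have := norm_sub_norm_le ((1 - Ex a) • (σ a - σ b)) (-((Ex b - Ex a) • σ b))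
            rw [norm_neg, sub_neg_eq_add] at this
            exact this
          have h2 : ‖(1 - Ex a) • (σ a - σ b)‖ = (1 - Ex a) * ‖σ a - σ b‖ := by
            rw [norm_smul, Real.norm_eq_abs, abs_of_nonneg (by linarith [hE1 a])]
          have h3 : ‖(Ex b - Ex a) • σ b‖ = |Ex b - Ex a| := by
            rw [norm_smul, hσ, mul_one, Real.norm_eq_abs]
          rw [h2, h3] at h1
          have h4 : 1 / 2 * (c0 * X) ≤ (1 - Ex a) * ‖σ a - σ b‖ := by
            apply mul_le_mul (by linarith) hl (by positivity) (by linarith [hE1 a])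
          linarith
        have hfinal := ball_lower1 (Ex a) (Ex b) X Q c0 ‖f a - f b‖ (hE0 a) (hE0 b) (hE1 a) (hE1 b)
          hX2 hc0 hXpos hQpos hNlow
        refine le_trans ?_ hfinal
        rw [← hQ]
        apply mul_le_mul_of_nonneg_right _ hQpos.le
        rw [inv_le_comm₀ hCp (by positivity)]
        have h5 : (c0 ^ 2 / 64)⁻¹ = 64 / c0 ^ 2 := by rw [inv_div]
        rw [h5]
        nlinarith [sq_nonneg (1 + C)]
      · -- one of the two points is close to the geodesic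
        have hkey : Real.exp (-(lam * K1)) / 4 * Q ≤
            1 + ‖f a - f b‖ ^ 2 / ((1 - (1 - Ex a) ^ 2) * (1 - (1 - Ex b) ^ 2)) := by
          have hNab : |Ex a - Ex b| ≤ ‖f a - f b‖ := by
            have h1 := abs_norm_sub_norm_le (f a) (f b)
            rw [hfn, hfn] at h1
            rw [abs_sub_comm]
            have h2 : Ex b - Ex a = 1 - Ex a - (1 - Ex b) := by ring
            rw [h2]
            exact h1
          by_cases hca : T + K1 ≤ 2 * d e a
          · have hcb : 2 * d e b < T + K1 := by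
              by_contra hcon
              exact hcase ⟨hca, by omega⟩
            have hcb' : (2 : ℝ) * d e b ≤ T + K1 := by exact_mod_cast hcb.le
            have hk : Real.exp (-(lam * K1)) * Q * Ex a ≤ Ex b := by
              rw [hQ]
              simp only [Ex]
              rw [← Real.exp_add, ← Real.exp_add]
              apply Real.exp_le_exp.2
              nlinarith
            have h3 := ball_lower2 (Ex b) (Ex a) Q ‖f a - f b‖ (Real.exp (-(lam * K1)))
              (hE0 b) (hE0 a) (hE1 b) (hE1 a) (by rw [abs_sub_comm]; exact hNab) hk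
            rw [mul_comm (1 - (1 - Ex b) ^ 2)] at h3
            exact h3
          · have hca' : (2 : ℝ) * d e a ≤ T + K1 := by
              have : 2 * d e a ≤ T + K1 := by omega
              exact_mod_cast this
            have hk : Real.exp (-(lam * K1)) * Q * Ex b ≤ Ex a := by
              rw [hQ]
              simp only [Ex]
              rw [← Real.exp_add, ← Real.exp_add]
              apply Real.exp_le_exp.2
              nlinarith
            exact ball_lower2 (Ex a) (Ex b) Q ‖f a - f b‖ (Real.exp (-(lam * K1)))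
              (hE0 a) (hE0 b) (hE1 a) (hE1 b) hNab hk
        refine le_trans ?_ hkey
        rw [← hQ]
        apply mul_le_mul_of_nonneg_right _ hQpos.le
        rw [inv_le_comm₀ hCp (by positivity)]
        have h5 : (Real.exp (-(lam * K1)) / 4)⁻¹ = 4 * Real.exp (lam * K1) := by
          rw [inv_div, Real.exp_neg, div_inv_eq_mul]
        rw [h5]
        nlinarith [sq_nonneg (1 + C)]
    · -- upper bound
      have h1 := ball_upper (Ex a) (Ex b) X Q C ‖f a - f b‖ (hE0 a) (hE0 b) (hE1 a) (hE1 b)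
        hQ1 hX2 hN0 hC hXpos hNup
      refine h1.trans ?_
      rw [← hQ]
      apply mul_le_mul_of_nonneg_right _ hQpos.le
      linarith

end Pool.HQ
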