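import Pool.Agent.HQ.BsF
import Pool.Agent.HQ.BsCol
import Pool.Agent.HQ.BsSph

/-!
MODULE BsMain (problem MP_7936f4_al): polar Bonk-Schramm theorem.
-/

namespace Pool.HQ

/-- Rough similarity of a (uniformly locally finite, discrete geodesic, hyperbolic) space into the unit ball, all small
exponents lam. -/
theorem bonk_schramm {G : Type} (d : G → G → ℕ) (e : G) (δ : ℕ) (hself : ∀ a, d a a = 0)
    (hsymm : ∀ a b, d a b = d b a) (htri : ∀ a b c, d a c ≤ d a b + d b c)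
    (hgeo : ∀ a b m, m ≤ d a b → ∃ x, d a x = m ∧ d x b = d a b - m)
    (hhyp : ∀ a b c, d a c + d e b ≤ max (d a b + d e c) (d b c + d e a) + 2 * δ)
    (hfin : ∀ a r, {b | d a b ≤ r}.Finite)
    (hbd : ∀ r, ∃ V, ∀ a, {b | d a b ≤ r}.ncard ≤ V) :
    ∃ lam0 : ℝ, 0 < lam0 ∧ ∀ lam : ℝ, 0 < lam → lam ≤ lam0 →
      ∃ (m : ℕ) (C : ℝ) (f : G → EuclideanSpace ℝ (Fin (m + 1))), 1 ≤ C ∧ f e = 0 ∧
        (∀ a, ‖f a‖ < 1) ∧ ∀ a b,
        C⁻¹ * Real.exp (lam * d a b) ≤ 1 + ‖f a - f b‖ ^ 2 / ((1 - ‖f a‖ ^ 2) * (1 - ‖f b‖ ^ 2)) ∧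
        1 + ‖f a - f b‖ ^ 2 / ((1 - ‖f a‖ ^ 2) * (1 - ‖f b‖ ^ 2)) ≤ C * Real.exp (lam * d a b) := by
  obtain ⟨k, hk⟩ : ∃ k, k = 16 * δ + 1 := ⟨_, rfl⟩
  obtain ⟨V, hV⟩ := hbd (k + 2 * δ)
  obtain ⟨V', hV'⟩ := hbd (4 * k + 16 * δ)
  have H : BsH d e δ k V := ⟨hself, hsymm, htri, hgeo, hhyp, hfin, hV, by omega⟩
  have hV1 : 1 ≤ V := by
    refine le_trans ?_ (hV e)
    have : e ∈ {b | d e b ≤ k + 2 * δ} := by simp [hself]
    exact (Set.ncard_pos (hfin e _)).2 ⟨e, this⟩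
  obtain ⟨c, hc⟩ := exists_col_of_bd (fun a b => d a b ≤ 4 * k + 16 * δ)
    (fun a b h => by rw [hsymm]; exact h) V' (fun a => hfin a _) hV'
  have hc' : ∀ y y', 0 < d y y' → d y y' ≤ 4 * k + 16 * δ → c y ≠ c y' := by
    intro y y' h0 h1
    apply hc y y' _ h1
    rintro rfl
    rw [hself] at h0
    omega
  obtain ⟨lam0, hlam0, hF⟩ := exists_F_all H hV1 (Nat.succ_pos V') c hc'
  refine ⟨lam0, hlam0, fun lam hl hl0 => ?_⟩
  obtain ⟨m, F, C, c0, hC, hc0, hb, hu, hlo⟩ := hF lam hl hl0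
  obtain ⟨A, σ, hA, hσ1, hσ2⟩ := box_sphere m C hC
  obtain ⟨C', f, h1, h2, h3, h4⟩ := to_ball d e hself hsymm htri (fun a => σ (F a))
    (fun a => hσ1 _ (hb a)) lam (A * C) (c0 / A) (12 * k) hl (by positivity) (by positivity)
    (by
      intro a b
      have := (hσ2 (F a) (F b) (hb a) (hb b)).2 (C * Real.exp (-lam * ((T2 d e a b : ℝ) / 2)))
        (by positivity) (fun p => hu a b p)
      rw [mul_assoc]
      exact this)
    (by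
      intro a b ha hb'
      obtain ⟨p, hp⟩ := hlo a b ha hb'
      have := (hσ2 (F a) (F b) (hb a) (hb b)).1 p
      rw [div_mul_eq_mul_div, div_le_iff₀ hA, mul_comm ‖_‖]
      exact hp.trans this)
  exact ⟨m, C', f, h1, h2, h3, h4⟩

end Pool.HQ
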