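import Mathlib

/-!
MP_7936f4_al, full question.  Common definitions: the metric of the group, the quasi-distance of the ball,
rough similarities of the group into the ball.
-/

namespace Pool.HQ

/-- A left invariant integer valued geodesic hyperbolic metric with finite balls (word metric of a
hyperbolic group). -/
structure HypM {G : Type} [Group G] (d : G → G → ℕ) : Prop where
  self : ∀ a, d a a = 0
  eq_of : ∀ a b, d a b = 0 → a = b
  symm : ∀ a b, d a b = d b a
  tri : ∀ a b c, d a c ≤ d a b + d b c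
  inv : ∀ g a b, d (g * a) (g * b) = d a b
  fin : ∀ n : ℕ, {a : G | d 1 a ≤ n}.Finite
  geo : ∀ a b n, n ≤ d a b → ∃ c, d a c = n ∧ d c b = d a b - n
  hyp : ∃ δ : ℕ, ∀ a b c w, d a c + d b w ≤ max (d a b + d c w) (d b c + d a w) + 2 * δ

/-- `qd x z = sinh² (ρ(x,z)/2)` for the hyperbolic distance ρ of the unit ball of curvature -1. -/
noncomputable def qd {M : ℕ} (x z : EuclideanSpace ℝ (Fin M)) : ℝ :=
  ‖x - z‖ ^ 2 / ((1 - ‖x‖ ^ 2) * (1 - ‖z‖ ^ 2))

/-- A rough similarity of the group into the unit ball (Bonk-Schramm). -/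
structure RoughSim {G : Type} [Group G] (d : G → G → ℕ) {M : ℕ} (lam C : ℝ)
    (f : G → EuclideanSpace ℝ (Fin M)) : Prop where
  lam_pos : 0 < lam
  one_le : 1 ≤ C
  ball : ∀ a, ‖f a‖ < 1
  one : f 1 = 0
  lo : ∀ a b, C⁻¹ * Real.exp (lam * d a b) ≤ 1 + qd (f a) (f b)
  up : ∀ a b, 1 + qd (f a) (f b) ≤ C * Real.exp (lam * d a b)

end Pool.HQ
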