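import Pool.Agent.HQ.BsMain
import Pool.Agent.HQ.Defs

/-!
MODULE BsRough (problem MP_7936f4_al): every (G,d) with HypM has a rough similarity into the unit ball, for all small exponents.
-/

namespace Pool.HQ

theorem HypM.exists_roughSim {G : Type} [Group G] {d : G → G → ℕ} (h : HypM d) :
    ∃ lam0 : ℝ, 0 < lam0 ∧ ∀ lam : ℝ, 0 < lam → lam ≤ lam0 →
      ∃ (m : ℕ) (C : ℝ) (f : G → EuclideanSpace ℝ (Fin (m + 1))), RoughSim d lam C f := by
  have key : ∀ (a : G) (r : ℕ), {b | d a b ≤ r} = (fun x => a * x) '' {b | d 1 b ≤ r} := by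
    intro a r
    ext b
    simp only [Set.mem_ofPred_eq, Set.mem_image]
    constructor
    · intro hb
      refine ⟨a⁻¹ * b, ?_, by group⟩
      rw [← h.inv a, mul_one, mul_inv_cancel_left]
      exact hb
    · rintro ⟨x, hx, rfl⟩
      have := h.inv a 1 x
      rw [mul_one] at this
      rw [this]
      exact hx
  obtain ⟨δ, hδ⟩ := h.hyp
  obtain ⟨lam0, h0, H⟩ := bonk_schramm d 1 δ h.self h.symm h.tri h.geo
    (fun a b c => by
      have := hδ a b c 1
      rw [h.symm b 1, h.symm c 1, h.symm a 1] at this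
      exact this)
    (fun a r => by
      rw [key]
      exact (h.fin r).image _)
    (fun r => ⟨{b | d 1 b ≤ r}.ncard, fun a => by
      rw [key]
      exact Set.ncard_image_le (h.fin r)⟩)
  refine ⟨lam0, h0, fun lam hl hl0 => ?_⟩
  obtain ⟨m, C, f, h1, h2, h3, h4⟩ := H lam hl hl0
  exact ⟨m, C, f, ⟨hl, h1, h3, h2, fun a b => (h4 a b).1, fun a b => (h4 a b).2⟩⟩

end Pool.HQ
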