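import Mathlib

/-!
MP_7936f4_al, full question.  THEOREM E (uniformly Lipschitz orthogonal cocycle with exact near
coordinates).  Definitions, part 0: points of simplicial complexes, bounded Lipschitz functions,
complexes with a rigid action, combinatorial G-bundles.
-/

namespace Pool.HQ

open scoped Pointwise Matrix

/-! ### Points -/

/-- l¹ norm of a finitely supported function. -/
noncomputable def n1 {V : Type} (x : V →₀ ℝ) : ℝ := ∑ v ∈ x.support, |x v|

/-- l¹ distance. -/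
noncomputable def d1 {V : Type} (x y : V →₀ ℝ) : ℝ := n1 (x - y)

/-- distance on pairs (point, real parameter). -/
noncomputable def dI {V : Type} (p q : (V →₀ ℝ) × ℝ) : ℝ := d1 p.1 q.1 + |p.2 - q.2|

/-- closed simplex with vertex set t. -/
def sx {V : Type} (t : Finset V) : Set (V →₀ ℝ) :=
  {x | (∀ v, 0 ≤ x v) ∧ x.support ⊆ t ∧ ∑ v ∈ x.support, x v = 1}

/-- action of a group on points: `pact g x v = x (g⁻¹ • v)`. -/
noncomputable def pact {G V : Type} [Group G] [MulAction G V] (g : G) (x : V →₀ ℝ) : V →₀ ℝ :=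
  Finsupp.equivMapDomain (MulAction.toPerm g) x

/-- vertex, as a point. -/
noncomputable def vx {V : Type} (v : V) : V →₀ ℝ := Finsupp.single v 1

/-- barycentre of a finite set. -/
noncomputable def bary {V : Type} (t : Finset V) : V →₀ ℝ := ∑ v ∈ t, Finsupp.single v ((t.card : ℝ)⁻¹)

/-! ### Bounded Lipschitz functions -/

/-- f is bounded and Lipschitz on S with respect to the distance function δ. -/
def BL {X E : Type} [SeminormedAddCommGroup E] (δ : X → X → ℝ) (S : Set X) (f : X → E) : Prop :=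
  ∃ C : ℝ, 0 ≤ C ∧ (∀ x ∈ S, ‖f x‖ ≤ C) ∧ ∀ x ∈ S, ∀ y ∈ S, ‖f x - f y‖ ≤ C * δ x y

/-- matrix valued function with bounded Lipschitz entries. -/
def BLM {X m n : Type} (δ : X → X → ℝ) (S : Set X) (A : X → Matrix m n ℂ) : Prop :=
  ∀ i j, BL δ S (fun x => A x i j)

/-! ### Complexes -/

/-- A set K of finite subsets of V (the simplices), closed under nonempty subsets, with an action of G
which is rigid (the stabiliser of a simplex fixes its vertices), with finite stabilisers and finitely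
many orbits of simplices. -/
structure Cx (G V : Type) [Group G] [MulAction G V] [DecidableEq V] (K : Set (Finset V)) : Prop where
  ne : ∀ t ∈ K, t.Nonempty
  down : ∀ t ∈ K, ∀ s ⊆ t, s.Nonempty → s ∈ K
  smul : ∀ g : G, ∀ t ∈ K, g • t ∈ K
  rigid : ∀ g : G, ∀ t ∈ K, g • t = t → ∀ v ∈ t, g • v = v
  stab : ∀ t ∈ K, {g : G | g • t = t}.Finite
  orb : ∃ R : Finset (Finset V), ∀ t ∈ K, ∃ g : G, g • t ∈ R

/-- A combinatorial G-bundle with fibre ℂ^ι over the simplices of K with at most k vertices: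
for every simplex t a coordinate system of the bundle over the closed simplex t; `τ t s x` (for s ⊆ t,
x in the closed simplex s) is the change of coordinates from the coordinates of s to those of t;
an element g of G maps the fibre over x, in the coordinates of t, to the fibre over g x, in the
coordinates of g t, by the permutation matrix of `π g t`. -/
structure CB {G V : Type} [Group G] [MulAction G V] [DecidableEq V] (K : Set (Finset V)) (k : ℕ)
    (ι : Type) [Fintype ι] [DecidableEq ι] (π : G → Finset V → Equiv.Perm ι)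
    (τ : Finset V → Finset V → (V →₀ ℝ) → Matrix ι ι ℂ) : Prop where
  pimul : ∀ (g h : G) (t : Finset V), π (g * h) t = π g (h • t) * π h t
  free : ∀ (g : G), ∀ t ∈ K, t.card ≤ k → g • t = t → ∀ i, π g t i = i → g = 1
  uni : ∀ t ∈ K, t.card ≤ k → ∀ s ⊆ t, s.Nonempty → ∀ x ∈ sx s, (τ t s x)ᴴ * τ t s x = 1
  bl : ∀ t ∈ K, t.card ≤ k → ∀ s ⊆ t, s.Nonempty → BLM d1 (sx s) (τ t s)
  coc : ∀ r ∈ K, r.card ≤ k → ∀ t ⊆ r, ∀ s ⊆ t, s.Nonempty → ∀ x ∈ sx s,
    τ r t x * τ t s x = τ r s x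
  eqv : ∀ (g : G), ∀ t ∈ K, t.card ≤ k → ∀ s ⊆ t, s.Nonempty → ∀ x ∈ sx s, ∀ i j,
    τ (g • t) (g • s) (pact g x) (π g t i) (π g s j) = τ t s x i j

/-! ### Cut-off functions -/

/-- Lebesgue measure of the levels η in (0,c) with {x > η} = s. -/
noncomputable def lev {V : Type} (c : ℝ) (s : Finset V) (x : V →₀ ℝ) : ℝ :=
  (MeasureTheory.volume {η : ℝ | 0 < η ∧ η < c ∧ ∀ v, v ∈ s ↔ η < x v}).toReal

/-- The clipping map: subtract ε, take the positive part, normalise. -/
noncomputable def rho {V : Type} (ε : ℝ) (x : V →₀ ℝ) : V →₀ ℝ :=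
  (∑ v ∈ x.support, max (x v - ε) 0)⁻¹ •
    x.mapRange (fun a => if a = 0 then 0 else max (a - ε) 0) (by simp)

/-- normalised cut-off function of the simplex s: the sum over s of the squares is 1. -/
noncomputable def phi {V : Type} (ε : ℝ) (s : Finset V) (x : V →₀ ℝ) : ℝ :=
  lev ε s x / Real.sqrt (∑ s' ∈ x.support.powerset, lev ε s' x ^ 2)

/-- ε for simplices with at most e vertices. -/
noncomputable def eps (e : ℕ) : ℝ := 1 / (2 * (e : ℝ))

/-! ### Index sets of tensor powers -/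

/-- The index set of E^{⊗ (2e'+2)}. -/
abbrev Wd (ι : Type) (e' : ℕ) : Type := Fin (2 * e' + 2) → ι

/-- slotwise tensor product of matrices. -/
def pwf {ι : Type} {e' : ℕ} (M : Fin (2 * e' + 2) → Matrix ι ι ℂ) : Matrix (Wd ι e') (Wd ι e') ℂ :=
  fun w w' => ∏ l, M l (w l) (w' l)

/-- a ⊗ a ⊗ 1 ⊗ … ⊗ 1. -/
def ten1 {ι : Type} [DecidableEq ι] (e' : ℕ) (a : Matrix ι ι ℂ) : Matrix (Wd ι e') (Wd ι e') ℂ :=
  pwf (fun l => if l.val < 2 then a else 1)

/-- a ⊗ a ⊗ … ⊗ a. -/
def ten2 {ι : Type} (e' : ℕ) (a : Matrix ι ι ℂ) : Matrix (Wd ι e') (Wd ι e') ℂ :=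
  pwf (fun _ => a)

/-- block diagonal amplification A ⊗ 1_n. -/
def amp {Y Y' : Type} (n : ℕ) (A : Matrix Y Y' ℂ) : Matrix (Y × Fin n) (Y' × Fin n) ℂ :=
  fun p q => if p.2 = q.2 then A p.1 q.1 else 0

/-- the permutation σ × σ × 1 × … × 1 of the words. -/
def act1 {ι : Type} (e' : ℕ) (σ : Equiv.Perm ι) : Equiv.Perm (Wd ι e') :=
  Equiv.piCongrRight (fun l => if l.val < 2 then σ else 1)

/-- the permutation σ × σ × … × σ of the words. -/
def act2 {ι : Type} (e' : ℕ) (σ : Equiv.Perm ι) : Equiv.Perm (Wd ι e') :=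
  Equiv.piCongrRight (fun _ => σ)

/-- act1 × 1 on W × Fin n. -/
def act1n {ι : Type} (e' n : ℕ) (σ : Equiv.Perm ι) : Equiv.Perm (Wd ι e' × Fin n) :=
  Equiv.prodCongr (act1 e' σ) (Equiv.refl _)

/-- The untwisting: keep the letters 0 and 1, apply ψ (w 0) to all other letters. -/
def psi {ι : Type} (e' : ℕ) (ψ : ι → Equiv.Perm ι) (w : Wd ι e') : Wd ι e' :=
  fun l => if l.val < 2 then w l else ψ (w 0) (w l)

/-- matrix of a map of index sets: e_j ↦ e_{f j}. -/
def pmx {Y Y' : Type} [DecidableEq Y'] (f : Y → Y') : Matrix Y' Y ℂ :=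
  fun i j => if i = f j then 1 else 0

/-! ### Admissible maps and null maps -/

/-- Unitary valued bounded Lipschitz map, invariant under the permutations α', α (indexed by H). -/
structure Adm {V H Y Y' : Type} [Fintype Y] [DecidableEq Y] [Fintype Y'] [DecidableEq Y']
    (S : Set (V →₀ ℝ)) (α' : H → Equiv.Perm Y') (α : H → Equiv.Perm Y)
    (f : (V →₀ ℝ) → Matrix Y' Y ℂ) : Prop where
  uni : ∀ x ∈ S, (f x)ᴴ * f x = 1
  uni' : ∀ x ∈ S, f x * (f x)ᴴ = 1
  inv : ∀ x ∈ S, ∀ h i j, f x (α' h i) (α h j) = f x i j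
  bl : BLM d1 S f

/-- f is homotopic to 1 on S through admissible maps. -/
def Nul {V H Y : Type} [Fintype Y] [DecidableEq Y] (S : Set (V →₀ ℝ)) (α : H → Equiv.Perm Y)
    (f : (V →₀ ℝ) → Matrix Y Y ℂ) : Prop :=
  ∃ F : (V →₀ ℝ) → ℝ → Matrix Y Y ℂ,
    (∀ x ∈ S, F x 0 = 1) ∧ (∀ x ∈ S, F x 1 = f x) ∧
    (∀ x ∈ S, ∀ s ∈ Set.Icc (0 : ℝ) 1, (F x s)ᴴ * F x s = 1 ∧
      ∀ h i j, F x s (α h i) (α h j) = F x s i j) ∧
    BLM dI (S ×ˢ Set.Icc (0 : ℝ) 1) (fun p => F p.1 p.2)

end Pool.HQ
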