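import Pool.Agent.HQ.E00

/-!
MP_7936f4_al, THEOREM E, module E01: calculus of bounded Lipschitz functions (BL) and of matrices with
bounded Lipschitz entries (BLM).  All statements are elementary: sums, products, finite sums, quotients
with lower bounds, compositions, cut-off products.  `hδ : ∀ x y, 0 ≤ δ x y` is assumed where needed.
Proofs: |fg(x)-fg(y)| ≤ |f(x)||g(x)-g(y)| + |f(x)-f(y)||g(y)|;  1/a - 1/b = (b-a)/(ab);
|√a - √b| ≤ |a-b|/(√a+√b);  cut: for x ∈ U, y ∉ U one has |φ(x)a(x) - 0| ≤ |a(x)| |φ(x) - φ(y)|.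
Matrix versions entrywise (product of matrices = finite sum of products).
-/

namespace Pool.HQ

open scoped Matrix

section scalar

variable {X E : Type} [SeminormedAddCommGroup E] {δ : X → X → ℝ} {S T : Set X}

lemma BL.mono {f : X → E} (h : BL δ T f) (hST : S ⊆ T) : BL δ S f := by
  obtain ⟨C, hC, h1, h2⟩ := h
  exact ⟨C, hC, fun x hx => h1 x (hST hx), fun x hx y hy => h2 x (hST hx) y (hST hy)⟩

lemma BL.congr {f g : X → E} (h : BL δ S f) (hfg : ∀ x ∈ S, f x = g x) : BL δ S g := by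
  obtain ⟨C, hC, h1, h2⟩ := h
  refine ⟨C, hC, fun x hx => ?_, fun x hx y hy => ?_⟩
  · rw [← hfg x hx]; exact h1 x hx
  · rw [← hfg x hx, ← hfg y hy]; exact h2 x hx y hy

lemma BL.const (hδ : ∀ x y, 0 ≤ δ x y) (c : E) : BL δ S (fun _ => c) := by
  refine ⟨‖c‖, norm_nonneg c, fun x _ => le_refl _, fun x _ y _ => ?_⟩
  simp only [sub_self, norm_zero]
  exact mul_nonneg (norm_nonneg c) (hδ x y)

lemma BL.add (hδ : ∀ x y, 0 ≤ δ x y) {f g : X → E} (hf : BL δ S f) (hg : BL δ S g) :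
    BL δ S (fun x => f x + g x) := by
  obtain ⟨C, hC, h1, h2⟩ := hf
  obtain ⟨D, hD, k1, k2⟩ := hg
  refine ⟨C + D, by positivity, fun x hx => ?_, fun x hx y hy => ?_⟩
  · exact (norm_add_le _ _).trans (add_le_add (h1 x hx) (k1 x hx))
  · have e : f x + g x - (f y + g y) = (f x - f y) + (g x - g y) := by abel
    rw [e, add_mul]
    exact (norm_add_le _ _).trans (add_le_add (h2 x hx y hy) (k2 x hx y hy))

lemma BL.neg {f : X → E} (hf : BL δ S f) : BL δ S (fun x => - f x) := by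
  obtain ⟨C, hC, h1, h2⟩ := hf
  refine ⟨C, hC, fun x hx => ?_, fun x hx y hy => ?_⟩
  · rw [norm_neg]; exact h1 x hx
  · have e : -f x - -f y = -(f x - f y) := by abel
    rw [e, norm_neg]; exact h2 x hx y hy

lemma BL.sub (hδ : ∀ x y, 0 ≤ δ x y) {f g : X → E} (hf : BL δ S f) (hg : BL δ S g) :
    BL δ S (fun x => f x - g x) := by
  have h := BL.add hδ hf (BL.neg hg)
  exact BL.congr h (fun x _ => by rw [sub_eq_add_neg])

lemma BL.sum (hδ : ∀ x y, 0 ≤ δ x y) {I : Type} (s : Finset I) (f : I → X → E)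
    (h : ∀ i ∈ s, BL δ S (f i)) : BL δ S (fun x => ∑ i ∈ s, f i x) := by
  classical
  induction s using Finset.induction_on with
  | empty =>
    exact BL.congr (BL.const hδ (0 : E)) (fun x _ => by simp)
  | insert a s ha ih =>
    have h1 := h a (Finset.mem_insert_self a s)
    have h2 := ih (fun i hi => h i (Finset.mem_insert_of_mem hi))
    exact BL.congr (BL.add hδ h1 h2) (fun x _ => by rw [Finset.sum_insert ha])

lemma BL.mul (hδ : ∀ x y, 0 ≤ δ x y) {R : Type} [SeminormedRing R] {f g : X → R}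
    (hf : BL δ S f) (hg : BL δ S g) : BL δ S (fun x => f x * g x) := by
  obtain ⟨C, hC, h1, h2⟩ := hf
  obtain ⟨D, hD, k1, k2⟩ := hg
  refine ⟨2 * (C * D), by positivity, fun x hx => ?_, fun x hx y hy => ?_⟩
  · calc ‖f x * g x‖ ≤ ‖f x‖ * ‖g x‖ := norm_mul_le _ _
      _ ≤ C * D := mul_le_mul (h1 x hx) (k1 x hx) (norm_nonneg _) hC
      _ ≤ 2 * (C * D) := by nlinarith [mul_nonneg hC hD]
  · have e : f x * g x - f y * g y = f x * (g x - g y) + (f x - f y) * g y := by noncomm_ring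
    have hd := hδ x y
    calc ‖f x * g x - f y * g y‖ ≤ ‖f x * (g x - g y)‖ + ‖(f x - f y) * g y‖ := by
          rw [e]; exact norm_add_le _ _
      _ ≤ ‖f x‖ * ‖g x - g y‖ + ‖f x - f y‖ * ‖g y‖ := add_le_add (norm_mul_le _ _) (norm_mul_le _ _)
      _ ≤ C * (D * δ x y) + (C * δ x y) * D :=
          add_le_add (mul_le_mul (h1 x hx) (k2 x hx y hy) (norm_nonneg _) hC)
            (mul_le_mul (h2 x hx y hy) (k1 y hy) (norm_nonneg _) (mul_nonneg hC hd))
      _ = 2 * (C * D) * δ x y := by ring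

lemma BL.smul (hδ : ∀ x y, 0 ≤ δ x y) [NormedSpace ℝ E] {f : X → ℝ} {g : X → E}
    (hf : BL δ S f) (hg : BL δ S g) : BL δ S (fun x => f x • g x) := by
  obtain ⟨C, hC, h1, h2⟩ := hf
  obtain ⟨D, hD, k1, k2⟩ := hg
  refine ⟨2 * (C * D), by positivity, fun x hx => ?_, fun x hx y hy => ?_⟩
  · calc ‖f x • g x‖ = ‖f x‖ * ‖g x‖ := norm_smul _ _
      _ ≤ C * D := mul_le_mul (h1 x hx) (k1 x hx) (norm_nonneg _) hC
      _ ≤ 2 * (C * D) := by nlinarith [mul_nonneg hC hD]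
  · have e : f x • g x - f y • g y = f x • (g x - g y) + (f x - f y) • g y := by
      rw [smul_sub, sub_smul]; abel
    have hd := hδ x y
    calc ‖f x • g x - f y • g y‖ ≤ ‖f x • (g x - g y)‖ + ‖(f x - f y) • g y‖ := by
          rw [e]; exact norm_add_le _ _
      _ = ‖f x‖ * ‖g x - g y‖ + ‖f x - f y‖ * ‖g y‖ := by rw [norm_smul, norm_smul]
      _ ≤ C * (D * δ x y) + (C * δ x y) * D :=
          add_le_add (mul_le_mul (h1 x hx) (k2 x hx y hy) (norm_nonneg _) hC)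
            (mul_le_mul (h2 x hx y hy) (k1 y hy) (norm_nonneg _) (mul_nonneg hC hd))
      _ = 2 * (C * D) * δ x y := by ring

lemma BL.csmul (hδ : ∀ x y, 0 ≤ δ x y) [NormedSpace ℂ E] {f : X → ℂ} {g : X → E}
    (hf : BL δ S f) (hg : BL δ S g) : BL δ S (fun x => f x • g x) := by
  obtain ⟨C, hC, h1, h2⟩ := hf
  obtain ⟨D, hD, k1, k2⟩ := hg
  refine ⟨2 * (C * D), by positivity, fun x hx => ?_, fun x hx y hy => ?_⟩
  · calc ‖f x • g x‖ = ‖f x‖ * ‖g x‖ := norm_smul _ _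
      _ ≤ C * D := mul_le_mul (h1 x hx) (k1 x hx) (norm_nonneg _) hC
      _ ≤ 2 * (C * D) := by nlinarith [mul_nonneg hC hD]
  · have e : f x • g x - f y • g y = f x • (g x - g y) + (f x - f y) • g y := by
      rw [smul_sub, sub_smul]; abel
    have hd := hδ x y
    calc ‖f x • g x - f y • g y‖ ≤ ‖f x • (g x - g y)‖ + ‖(f x - f y) • g y‖ := by
          rw [e]; exact norm_add_le _ _
      _ = ‖f x‖ * ‖g x - g y‖ + ‖f x - f y‖ * ‖g y‖ := by rw [norm_smul, norm_smul]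
      _ ≤ C * (D * δ x y) + (C * δ x y) * D :=
          add_le_add (mul_le_mul (h1 x hx) (k2 x hx y hy) (norm_nonneg _) hC)
            (mul_le_mul (h2 x hx y hy) (k1 y hy) (norm_nonneg _) (mul_nonneg hC hd))
      _ = 2 * (C * D) * δ x y := by ring

lemma BL.prod (hδ : ∀ x y, 0 ≤ δ x y) {I : Type} (s : Finset I) (f : I → X → ℂ)
    (h : ∀ i ∈ s, BL δ S (f i)) : BL δ S (fun x => ∏ i ∈ s, f i x) := by
  classical
  induction s using Finset.induction_on with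
  | empty =>
    exact BL.congr (BL.const hδ (1 : ℂ)) (fun x _ => by simp)
  | insert a s ha ih =>
    have h1 := h a (Finset.mem_insert_self a s)
    have h2 := ih (fun i hi => h i (Finset.mem_insert_of_mem hi))
    exact BL.congr (BL.mul hδ h1 h2) (fun x _ => by rw [Finset.prod_insert ha])

lemma BL.star {f : X → ℂ} (hf : BL δ S f) : BL δ S (fun x => Star.star (f x)) := by
  obtain ⟨C, hC, h1, h2⟩ := hf
  refine ⟨C, hC, fun x hx => ?_, fun x hx y hy => ?_⟩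
  · rw [norm_star]; exact h1 x hx
  · rw [← star_sub, norm_star]; exact h2 x hx y hy

lemma BL.ofReal {f : X → ℝ} (hf : BL δ S f) : BL δ S (fun x => ((f x : ℝ) : ℂ)) := by
  obtain ⟨C, hC, h1, h2⟩ := hf
  refine ⟨C, hC, fun x hx => ?_, fun x hx y hy => ?_⟩
  · rw [Complex.norm_real]; exact h1 x hx
  · rw [← Complex.ofReal_sub, Complex.norm_real]; exact h2 x hx y hy

lemma BL.inv (hδ : ∀ x y, 0 ≤ δ x y) {f : X → ℝ} (hf : BL δ S f) {c : ℝ} (hc : 0 < c)
    (hfc : ∀ x ∈ S, c ≤ f x) : BL δ S (fun x => (f x)⁻¹) := by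
  obtain ⟨C, hC, _, h2⟩ := hf
  refine ⟨c⁻¹ + C * (c⁻¹ * c⁻¹), by positivity, fun x hx => ?_, fun x hx y hy => ?_⟩
  · have hx0 : 0 < f x := lt_of_lt_of_le hc (hfc x hx)
    rw [Real.norm_eq_abs, abs_of_pos (inv_pos.mpr hx0)]
    have h3 : (f x)⁻¹ ≤ c⁻¹ := inv_anti₀ hc (hfc x hx)
    have h4 : 0 ≤ C * (c⁻¹ * c⁻¹) := by positivity
    linarith
  · have hx0 : 0 < f x := lt_of_lt_of_le hc (hfc x hx)
    have hy0 : 0 < f y := lt_of_lt_of_le hc (hfc y hy)
    have hd := hδ x y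
    have h3 : (f x)⁻¹ ≤ c⁻¹ := inv_anti₀ hc (hfc x hx)
    have h4 : (f y)⁻¹ ≤ c⁻¹ := inv_anti₀ hc (hfc y hy)
    have e : (f x)⁻¹ - (f y)⁻¹ = -((f x - f y) * ((f x)⁻¹ * (f y)⁻¹)) := by
      field_simp
      ring
    have h5 : ‖(f x)⁻¹ - (f y)⁻¹‖ = ‖f x - f y‖ * ((f x)⁻¹ * (f y)⁻¹) := by
      rw [e, norm_neg, norm_mul]
      congr 1
      rw [Real.norm_eq_abs, abs_of_pos (by positivity)]
    have h6 : (f x)⁻¹ * (f y)⁻¹ ≤ c⁻¹ * c⁻¹ :=
      mul_le_mul h3 h4 (by positivity) (by positivity)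
    calc ‖(f x)⁻¹ - (f y)⁻¹‖ = ‖f x - f y‖ * ((f x)⁻¹ * (f y)⁻¹) := h5
      _ ≤ (C * δ x y) * (c⁻¹ * c⁻¹) :=
          mul_le_mul (h2 x hx y hy) h6 (by positivity) (mul_nonneg hC hd)
      _ ≤ (c⁻¹ + C * (c⁻¹ * c⁻¹)) * δ x y := by
          have : 0 ≤ c⁻¹ * δ x y := mul_nonneg (by positivity) hd
          nlinarith

lemma BL.sqrt (hδ : ∀ x y, 0 ≤ δ x y) {f : X → ℝ} (hf : BL δ S f) {c : ℝ} (hc : 0 < c)
    (hfc : ∀ x ∈ S, c ≤ f x) : BL δ S (fun x => Real.sqrt (f x)) := by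
  obtain ⟨C, hC, h1, h2⟩ := hf
  have hsc : 0 < Real.sqrt c := Real.sqrt_pos.mpr hc
  refine ⟨(C + 1) + C * (Real.sqrt c)⁻¹, by positivity, fun x hx => ?_, fun x hx y hy => ?_⟩
  · have hx0 : 0 < f x := lt_of_lt_of_le hc (hfc x hx)
    have h3 : f x ≤ C := (le_abs_self _).trans (h1 x hx)
    rw [Real.norm_eq_abs, abs_of_nonneg (Real.sqrt_nonneg _)]
    have h4 : Real.sqrt (f x) ≤ f x + 1 := by
      have := Real.sq_sqrt hx0.le
      nlinarith [Real.sqrt_nonneg (f x), sq_nonneg (Real.sqrt (f x) - 1)]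
    have h5 : 0 ≤ C * (Real.sqrt c)⁻¹ := by positivity
    linarith
  · have hx0 : 0 < f x := lt_of_lt_of_le hc (hfc x hx)
    have hy0 : 0 < f y := lt_of_lt_of_le hc (hfc y hy)
    have hd := hδ x y
    have h3 : Real.sqrt c ≤ Real.sqrt (f x) := Real.sqrt_le_sqrt (hfc x hx)
    have h4 : 0 ≤ Real.sqrt (f y) := Real.sqrt_nonneg _
    have e : (Real.sqrt (f x) - Real.sqrt (f y)) * (Real.sqrt (f x) + Real.sqrt (f y)) = f x - f y := by
      have a1 := Real.mul_self_sqrt hx0.le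
      have a2 := Real.mul_self_sqrt hy0.le
      nlinarith
    have h5 : ‖Real.sqrt (f x) - Real.sqrt (f y)‖ * Real.sqrt c ≤ ‖f x - f y‖ := by
      rw [← e, norm_mul]
      apply mul_le_mul_of_nonneg_left _ (norm_nonneg _)
      rw [Real.norm_eq_abs, abs_of_nonneg (by positivity)]
      linarith
    have h6 : ‖Real.sqrt (f x) - Real.sqrt (f y)‖ ≤ ‖f x - f y‖ * (Real.sqrt c)⁻¹ := by
      rw [← div_eq_mul_inv, le_div_iff₀ hsc]; exact h5
    calc ‖Real.sqrt (f x) - Real.sqrt (f y)‖ ≤ ‖f x - f y‖ * (Real.sqrt c)⁻¹ := h6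
      _ ≤ (C * δ x y) * (Real.sqrt c)⁻¹ :=
          mul_le_mul_of_nonneg_right (h2 x hx y hy) (by positivity)
      _ ≤ ((C + 1) + C * (Real.sqrt c)⁻¹) * δ x y := by
          have : 0 ≤ (C + 1) * δ x y := mul_nonneg (by positivity) hd
          nlinarith

lemma BL.max (hδ : ∀ x y, 0 ≤ δ x y) {f g : X → ℝ} (hf : BL δ S f) (hg : BL δ S g) :
    BL δ S (fun x => Max.max (f x) (g x)) := by
  obtain ⟨C, hC, h1, h2⟩ := hf
  obtain ⟨D, hD, k1, k2⟩ := hg
  refine ⟨C + D, by positivity, fun x hx => ?_, fun x hx y hy => ?_⟩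
  · have a1 := h1 x hx
    have a2 := k1 x hx
    rw [Real.norm_eq_abs] at a1 a2 ⊢
    have a3 : |Max.max (f x) (g x)| ≤ Max.max |f x| |g x| := abs_max_le_max_abs_abs
    have a4 : Max.max |f x| |g x| ≤ C + D := max_le (by linarith) (by linarith)
    exact a3.trans a4
  · have a1 := h2 x hx y hy
    have a2 := k2 x hx y hy
    have hd := hδ x y
    rw [Real.norm_eq_abs] at a1 a2 ⊢
    have a3 : |Max.max (f x) (g x) - Max.max (f y) (g y)| ≤ Max.max |f x - f y| |g x - g y| :=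
      abs_max_sub_max_le_max _ _ _ _
    have b1 : 0 ≤ C * δ x y := mul_nonneg hC hd
    have b2 : 0 ≤ D * δ x y := mul_nonneg hD hd
    rw [add_mul]
    exact a3.trans (max_le (by linarith) (by linarith))

/-- composition with a Lipschitz map -/
lemma BL.comp (hδ : ∀ x y, 0 ≤ δ x y) {Y : Type} {δ' : Y → Y → ℝ} {T : Set Y} {f : Y → E}
    (hf : BL δ' T f) (g : X → Y)
    (hg : ∀ x ∈ S, g x ∈ T) (c : ℝ) (hc : 0 ≤ c)
    (hgl : ∀ x ∈ S, ∀ y ∈ S, δ' (g x) (g y) ≤ c * δ x y) : BL δ S (fun x => f (g x)) := by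
  obtain ⟨C, hC, h1, h2⟩ := hf
  refine ⟨C + C * c, by positivity, fun x hx => ?_, fun x hx y hy => ?_⟩
  · have := h1 (g x) (hg x hx)
    have h3 : 0 ≤ C * c := by positivity
    linarith
  · have hd := hδ x y
    calc ‖f (g x) - f (g y)‖ ≤ C * δ' (g x) (g y) := h2 _ (hg x hx) _ (hg y hy)
      _ ≤ C * (c * δ x y) := mul_le_mul_of_nonneg_left (hgl x hx y hy) hC
      _ ≤ (C + C * c) * δ x y := by
          have : 0 ≤ C * δ x y := mul_nonneg hC hd
          nlinarith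

/-- cut-off product: a is only controlled on U, φ vanishes outside U. -/
lemma BL.cut (hδ : ∀ x y, 0 ≤ δ x y) {φ a : X → ℂ} {U : Set X} (hφ : BL δ T φ)
    (h0 : ∀ x ∈ T, x ∉ U → φ x = 0) (ha : BL δ (T ∩ U) a) : BL δ T (fun x => φ x * a x) := by
  obtain ⟨C, hC, h1, h2⟩ := hφ
  obtain ⟨D, hD, k1, k2⟩ := ha
  refine ⟨2 * (C * D), by positivity, fun x hx => ?_, fun x hx y hy => ?_⟩
  · by_cases hU : x ∈ U
    · calc ‖φ x * a x‖ = ‖φ x‖ * ‖a x‖ := norm_mul _ _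
        _ ≤ C * D := mul_le_mul (h1 x hx) (k1 x ⟨hx, hU⟩) (norm_nonneg _) hC
        _ ≤ 2 * (C * D) := by nlinarith [mul_nonneg hC hD]
    · show ‖φ x * a x‖ ≤ 2 * (C * D)
      rw [h0 x hx hU, zero_mul, norm_zero]; positivity
  · have hd := hδ x y
    have hCD : 0 ≤ C * D * δ x y := mul_nonneg (mul_nonneg hC hD) hd
    by_cases hU : x ∈ U
    · by_cases hV : y ∈ U
      · have e : φ x * a x - φ y * a y = φ x * (a x - a y) + (φ x - φ y) * a y := by ring
        calc ‖φ x * a x - φ y * a y‖ ≤ ‖φ x * (a x - a y)‖ + ‖(φ x - φ y) * a y‖ := by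
              rw [e]; exact norm_add_le _ _
          _ = ‖φ x‖ * ‖a x - a y‖ + ‖φ x - φ y‖ * ‖a y‖ := by rw [norm_mul, norm_mul]
          _ ≤ C * (D * δ x y) + (C * δ x y) * D :=
              add_le_add (mul_le_mul (h1 x hx) (k2 x ⟨hx, hU⟩ y ⟨hy, hV⟩) (norm_nonneg _) hC)
                (mul_le_mul (h2 x hx y hy) (k1 y ⟨hy, hV⟩) (norm_nonneg _) (mul_nonneg hC hd))
          _ = 2 * (C * D) * δ x y := by ring
      · have e : φ x * a x - φ y * a y = (φ x - φ y) * a x := by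
          rw [h0 y hy hV]; ring
        calc ‖φ x * a x - φ y * a y‖ = ‖φ x - φ y‖ * ‖a x‖ := by rw [e, norm_mul]
          _ ≤ (C * δ x y) * D :=
              mul_le_mul (h2 x hx y hy) (k1 x ⟨hx, hU⟩) (norm_nonneg _) (mul_nonneg hC hd)
          _ ≤ 2 * (C * D) * δ x y := by nlinarith
    · by_cases hV : y ∈ U
      · have e : φ x * a x - φ y * a y = (φ x - φ y) * a y := by
          rw [h0 x hx hU]; ring
        calc ‖φ x * a x - φ y * a y‖ = ‖φ x - φ y‖ * ‖a y‖ := by rw [e, norm_mul]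
          _ ≤ (C * δ x y) * D :=
              mul_le_mul (h2 x hx y hy) (k1 y ⟨hy, hV⟩) (norm_nonneg _) (mul_nonneg hC hd)
          _ ≤ 2 * (C * D) * δ x y := by nlinarith
      · show ‖φ x * a x - φ y * a y‖ ≤ 2 * (C * D) * δ x y
        rw [h0 x hx hU, h0 y hy hV]
        simp only [zero_mul, sub_zero, norm_zero]
        nlinarith

end scalar

section matrix

variable {X m n l : Type} {δ : X → X → ℝ} {S T : Set X}

lemma BLM.mono {A : X → Matrix m n ℂ} (h : BLM δ T A) (hST : S ⊆ T) : BLM δ S A := by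
  exact fun i j => BL.mono (h i j) hST

lemma BLM.congr {A B : X → Matrix m n ℂ} (h : BLM δ S A) (hAB : ∀ x ∈ S, A x = B x) :
    BLM δ S B := by
  exact fun i j => BL.congr (h i j) (fun x hx => by rw [hAB x hx])

lemma BLM.const (hδ : ∀ x y, 0 ≤ δ x y) (C : Matrix m n ℂ) : BLM δ S (fun _ => C) := by
  exact fun i j => BL.const hδ (C i j)

lemma BLM.add (hδ : ∀ x y, 0 ≤ δ x y) {A B : X → Matrix m n ℂ} (hA : BLM δ S A)
    (hB : BLM δ S B) : BLM δ S (fun x => A x + B x) := by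
  exact fun i j => BL.congr (BL.add hδ (hA i j) (hB i j)) (fun x _ => rfl)

lemma BLM.sub (hδ : ∀ x y, 0 ≤ δ x y) {A B : X → Matrix m n ℂ} (hA : BLM δ S A)
    (hB : BLM δ S B) : BLM δ S (fun x => A x - B x) := by
  exact fun i j => BL.congr (BL.sub hδ (hA i j) (hB i j)) (fun x _ => rfl)

lemma BLM.mul [Fintype n] (hδ : ∀ x y, 0 ≤ δ x y) {A : X → Matrix m n ℂ} {B : X → Matrix n l ℂ}
    (hA : BLM δ S A) (hB : BLM δ S B) : BLM δ S (fun x => A x * B x) := by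
  intro i j
  have h := BL.sum (E := ℂ) (S := S) hδ Finset.univ (fun k x => A x i k * B x k j)
    (fun k _ => BL.mul hδ (hA i k) (hB k j))
  exact BL.congr h (fun x _ => by simp [Matrix.mul_apply])

lemma BLM.conjTranspose {A : X → Matrix m n ℂ} (hA : BLM δ S A) : BLM δ S (fun x => (A x)ᴴ) := by
  exact fun i j => BL.congr (BL.star (hA j i)) (fun x _ => rfl)

lemma BLM.submatrix {m' n' : Type} {A : X → Matrix m n ℂ} (hA : BLM δ S A) (f : m' → m)
    (g : n' → n) : BLM δ S (fun x => (A x).submatrix f g) := by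
  exact fun i j => BL.congr (hA (f i) (g j)) (fun x _ => rfl)

lemma BLM.fromBlocks {m' n' : Type} {A : X → Matrix m n ℂ} {B : X → Matrix m n' ℂ}
    {C : X → Matrix m' n ℂ} {D : X → Matrix m' n' ℂ} (hA : BLM δ S A) (hB : BLM δ S B)
    (hC : BLM δ S C) (hD : BLM δ S D) :
    BLM δ S (fun x => Matrix.fromBlocks (A x) (B x) (C x) (D x)) := by
  intro i j
  rcases i with i | i <;> rcases j with j | j
  · exact BL.congr (hA i j) (fun x _ => rfl)
  · exact BL.congr (hB i j) (fun x _ => rfl)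
  · exact BL.congr (hC i j) (fun x _ => rfl)
  · exact BL.congr (hD i j) (fun x _ => rfl)

lemma BLM.fromCols {n' : Type} {A : X → Matrix m n ℂ} {B : X → Matrix m n' ℂ}
    (hA : BLM δ S A) (hB : BLM δ S B) :
    BLM δ S (fun x => Matrix.fromCols (A x) (B x)) := by
  intro i j
  rcases j with j | j
  · exact BL.congr (hA i j) (fun x _ => rfl)
  · exact BL.congr (hB i j) (fun x _ => rfl)

lemma BLM.comp (hδ : ∀ x y, 0 ≤ δ x y) {Y : Type} {δ' : Y → Y → ℝ} {T : Set Y}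
    {A : Y → Matrix m n ℂ}
    (hA : BLM δ' T A) (g : X → Y) (hg : ∀ x ∈ S, g x ∈ T) (c : ℝ) (hc : 0 ≤ c)
    (hgl : ∀ x ∈ S, ∀ y ∈ S, δ' (g x) (g y) ≤ c * δ x y) : BLM δ S (fun x => A (g x)) := by
  exact fun i j => BL.comp hδ (hA i j) g hg c hc hgl

lemma BLM.amp (hδ : ∀ x y, 0 ≤ δ x y) (k : ℕ) {A : X → Matrix m n ℂ} (hA : BLM δ S A) :
    BLM δ S (fun x => Pool.HQ.amp k (A x)) := by
  intro p q
  by_cases h : p.2 = q.2
  · exact BL.congr (hA p.1 q.1) (fun x _ => by simp [Pool.HQ.amp, h])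
  · exact BL.congr (BL.const hδ (0 : ℂ)) (fun x _ => by simp [Pool.HQ.amp, h])

lemma BLM.pwf (hδ : ∀ x y, 0 ≤ δ x y) {ι : Type} {e' : ℕ}
    {M : X → Fin (2 * e' + 2) → Matrix ι ι ℂ} (hM : ∀ l, BLM δ S (fun x => M x l)) :
    BLM δ S (fun x => Pool.HQ.pwf (M x)) := by
  intro w w'
  exact BL.congr (BL.prod hδ Finset.univ (fun l x => M x l (w l) (w' l))
    (fun l _ => hM l (w l) (w' l))) (fun x _ => rfl)

lemma BLM.ten1 (hδ : ∀ x y, 0 ≤ δ x y) {ι : Type} [DecidableEq ι] (e' : ℕ)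
    {A : X → Matrix ι ι ℂ} (hA : BLM δ S A) : BLM δ S (fun x => Pool.HQ.ten1 e' (A x)) := by
  refine BLM.pwf hδ (M := fun x l => if l.val < 2 then A x else 1) (fun l => ?_)
  by_cases h : l.val < 2
  · exact BLM.congr hA (fun x _ => by simp [h])
  · exact BLM.congr (BLM.const hδ (1 : Matrix ι ι ℂ)) (fun x _ => by simp [h])

lemma BLM.ten2 (hδ : ∀ x y, 0 ≤ δ x y) {ι : Type} (e' : ℕ)
    {A : X → Matrix ι ι ℂ} (hA : BLM δ S A) : BLM δ S (fun x => Pool.HQ.ten2 e' (A x)) := by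
  exact BLM.pwf hδ (M := fun x _ => A x) (fun _ => hA)

end matrix

end Pool.HQ
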