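import Pool.Agent.HQ.E00

/-!
MP_7936f4_al, THEOREM E, module E02: elementary facts on points (finitely supported functions), the l¹
distance d1, closed simplices sx, the action pact, barycentres, segments.
Proofs: n1 x can be computed by summing |x v| over any finite set containing the support.
-/

namespace Pool.HQ

open scoped Pointwise

section norm

variable {V : Type}

lemma n1_eq_sum (x : V →₀ ℝ) {T : Finset V} (hT : x.support ⊆ T) : n1 x = ∑ v ∈ T, |x v| := by
  unfold n1
  refine Finset.sum_subset hT fun v _ hv => ?_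
  rw [Finsupp.notMem_support_iff.1 hv, abs_zero]

lemma n1_nonneg (x : V →₀ ℝ) : 0 ≤ n1 x := by
  unfold n1
  exact Finset.sum_nonneg fun v _ => abs_nonneg _

lemma n1_add_le (x y : V →₀ ℝ) : n1 (x + y) ≤ n1 x + n1 y := by
  classical
  rw [n1_eq_sum (x + y) (T := x.support ∪ y.support) Finsupp.support_add,
    n1_eq_sum x (T := x.support ∪ y.support) Finset.subset_union_left,
    n1_eq_sum y (T := x.support ∪ y.support) Finset.subset_union_right,
    ← Finset.sum_add_distrib]
  refine Finset.sum_le_sum fun v _ => ?_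
  rw [Finsupp.add_apply]
  exact abs_add_le _ _

lemma n1_smul (c : ℝ) (x : V →₀ ℝ) : n1 (c • x) = |c| * n1 x := by
  rw [n1_eq_sum (c • x) (T := x.support) Finsupp.support_smul]
  unfold n1
  rw [Finset.mul_sum]
  refine Finset.sum_congr rfl fun v _ => ?_
  rw [Finsupp.smul_apply, smul_eq_mul, abs_mul]

lemma n1_neg (x : V →₀ ℝ) : n1 (-x) = n1 x := by
  have h : -x = (-1 : ℝ) • x := by
    ext v
    simp
  rw [h, n1_smul]
  simp

lemma n1_sum_le {I : Type} (s : Finset I) (f : I → V →₀ ℝ) : n1 (∑ i ∈ s, f i) ≤ ∑ i ∈ s, n1 (f i) := by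
  classical
  induction s using Finset.induction_on with
  | empty => simp [n1]
  | insert a s ha ih =>
    rw [Finset.sum_insert ha, Finset.sum_insert ha]
    exact (n1_add_le _ _).trans (by linarith)

lemma n1_single (v : V) (c : ℝ) : n1 (Finsupp.single v c) = |c| := by
  rw [n1_eq_sum (Finsupp.single v c) (T := {v}) Finsupp.support_single_subset]
  simp

lemma abs_apply_le_n1 (x : V →₀ ℝ) (v : V) : |x v| ≤ n1 x := by
  by_cases hv : v ∈ x.support
  · unfold n1
    exact Finset.single_le_sum (f := fun v => |x v|) (fun v _ => abs_nonneg _) hv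
  · rw [Finsupp.notMem_support_iff.1 hv, abs_zero]
    exact n1_nonneg x

lemma d1_nonneg (x y : V →₀ ℝ) : 0 ≤ d1 x y := by
  exact n1_nonneg _

lemma d1_self (x : V →₀ ℝ) : d1 x x = 0 := by
  unfold d1 n1
  simp

lemma d1_comm (x y : V →₀ ℝ) : d1 x y = d1 y x := by
  unfold d1
  rw [← n1_neg (y - x), neg_sub]

lemma d1_triangle (x y z : V →₀ ℝ) : d1 x z ≤ d1 x y + d1 y z := by
  unfold d1
  have h : x - z = (x - y) + (y - z) := by abel
  rw [h]
  exact n1_add_le _ _

lemma eq_of_d1_eq_zero {x y : V →₀ ℝ} (h : d1 x y = 0) : x = y := by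
  ext v
  have h1 := abs_apply_le_n1 (x - y) v
  unfold d1 at h
  rw [h, Finsupp.sub_apply] at h1
  have h2 := abs_eq_zero.1 (le_antisymm h1 (abs_nonneg _))
  linarith

lemma abs_sub_le_d1 (x y : V →₀ ℝ) (v : V) : |x v - y v| ≤ d1 x y := by
  have h1 := abs_apply_le_n1 (x - y) v
  rwa [Finsupp.sub_apply] at h1

lemma d1_eq_sum (x y : V →₀ ℝ) {T : Finset V} (hx : x.support ⊆ T) (hy : y.support ⊆ T) :
    d1 x y = ∑ v ∈ T, |x v - y v| := by
  classical
  unfold d1
  rw [n1_eq_sum (x - y) (T := T) (Finsupp.support_sub.trans (Finset.union_subset hx hy))]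
  refine Finset.sum_congr rfl fun v _ => ?_
  rw [Finsupp.sub_apply]

lemma dI_nonneg (p q : (V →₀ ℝ) × ℝ) : 0 ≤ dI p q := by
  unfold dI
  exact add_nonneg (d1_nonneg _ _) (abs_nonneg _)

end norm

section simplex

variable {V : Type}

lemma sx_mono {s t : Finset V} (h : s ⊆ t) : sx s ⊆ sx t := by
  rintro x ⟨h1, h2, h3⟩
  exact ⟨h1, h2.trans h, h3⟩

lemma sx_support {t : Finset V} {x : V →₀ ℝ} (hx : x ∈ sx t) : x ∈ sx x.support := by
  exact ⟨hx.1, Finset.Subset.refl _, hx.2.2⟩

lemma sx_support_nonempty {t : Finset V} {x : V →₀ ℝ} (hx : x ∈ sx t) : x.support.Nonempty := by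
  rw [Finset.nonempty_iff_ne_empty]
  intro h
  have h1 := hx.2.2
  rw [h, Finset.sum_empty] at h1
  exact zero_ne_one h1

lemma sx_sum {t : Finset V} {x : V →₀ ℝ} (hx : x ∈ sx t) {T : Finset V} (hT : x.support ⊆ T) :
    ∑ v ∈ T, x v = 1 := by
  rw [← hx.2.2]
  exact (Finset.sum_subset hT fun v _ hv => Finsupp.notMem_support_iff.1 hv).symm

lemma sx_n1 {t : Finset V} {x : V →₀ ℝ} (hx : x ∈ sx t) : n1 x = 1 := by
  unfold n1
  rw [← hx.2.2]
  exact Finset.sum_congr rfl fun v _ => abs_of_nonneg (hx.1 v)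

lemma sx_d1_le {t t' : Finset V} {x y : V →₀ ℝ} (hx : x ∈ sx t) (hy : y ∈ sx t') :
    d1 x y ≤ 2 := by
  unfold d1
  rw [sub_eq_add_neg]
  refine (n1_add_le _ _).trans ?_
  rw [n1_neg, sx_n1 hx, sx_n1 hy]
  norm_num

lemma sx_inter [DecidableEq V] {s t : Finset V} {x : V →₀ ℝ} (hs : x ∈ sx s) (ht : x ∈ sx t) :
    x ∈ sx (s ∩ t) := by
  exact ⟨hs.1, Finset.subset_inter hs.2.1 ht.2.1, hs.2.2⟩

lemma vx_mem {t : Finset V} {v : V} (hv : v ∈ t) : vx v ∈ sx t := by
  classical
  refine ⟨fun w => ?_, ?_, ?_⟩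
  · unfold vx
    rw [Finsupp.single_apply]
    split_ifs <;> norm_num
  · unfold vx
    exact Finsupp.support_single_subset.trans (Finset.singleton_subset_iff.2 hv)
  · unfold vx
    rw [Finsupp.support_single_ne_zero v one_ne_zero]
    simp

lemma bary_apply (t : Finset V) (v : V) [DecidableEq V] :
    bary t v = if v ∈ t then ((t.card : ℝ)⁻¹) else 0 := by
  unfold bary
  rw [Finsupp.finsetSum_apply]
  simp only [Finsupp.single_apply]
  rw [Finset.sum_ite_eq' t v]

lemma bary_support {t : Finset V} (ht : t.Nonempty) : (bary t).support = t := by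
  classical
  ext v
  rw [Finsupp.mem_support_iff, bary_apply]
  have h : ((t.card : ℝ)⁻¹) ≠ 0 := inv_ne_zero (by exact_mod_cast ht.card_pos.ne')
  by_cases hv : v ∈ t
  · simp [hv, h]
  · simp [hv]

lemma bary_mem {t : Finset V} (ht : t.Nonempty) : bary t ∈ sx t := by
  classical
  refine ⟨fun v => ?_, (bary_support ht).le, ?_⟩
  · rw [bary_apply]
    split_ifs
    · positivity
    · exact le_rfl
  · rw [bary_support ht]
    have h1 : ∀ v ∈ t, bary t v = (t.card : ℝ)⁻¹ := fun v hv => by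
      rw [bary_apply, if_pos hv]
    rw [Finset.sum_congr rfl h1, Finset.sum_const, nsmul_eq_mul]
    exact mul_inv_cancel₀ (by exact_mod_cast ht.card_pos.ne')

/-- segments in a closed simplex -/
lemma seg_mem {t : Finset V} {p x : V →₀ ℝ} (hp : p ∈ sx t) (hx : x ∈ sx t) {s : ℝ}
    (hs : s ∈ Set.Icc (0 : ℝ) 1) : (1 - s) • p + s • x ∈ sx t := by
  classical
  have hsup : ((1 - s) • p + s • x).support ⊆ t :=
    Finsupp.support_add.trans (Finset.union_subset (Finsupp.support_smul.trans hp.2.1)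
      (Finsupp.support_smul.trans hx.2.1))
  refine ⟨fun v => ?_, hsup, ?_⟩
  · rw [Finsupp.add_apply, Finsupp.smul_apply, Finsupp.smul_apply, smul_eq_mul, smul_eq_mul]
    exact add_nonneg (mul_nonneg (by linarith [hs.2]) (hp.1 v)) (mul_nonneg hs.1 (hx.1 v))
  · rw [Finset.sum_subset hsup fun v _ hv => Finsupp.notMem_support_iff.1 hv]
    simp only [Finsupp.add_apply, Finsupp.smul_apply, smul_eq_mul]
    rw [Finset.sum_add_distrib, ← Finset.mul_sum, ← Finset.mul_sum, sx_sum hp hp.2.1,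
      sx_sum hx hx.2.1]
    ring

lemma seg_d1 (p x y : V →₀ ℝ) (s : ℝ) :
    d1 ((1 - s) • p + s • x) ((1 - s) • p + s • y) = |s| * d1 x y := by
  unfold d1
  rw [← n1_smul]
  congr 1
  ext v
  simp only [Finsupp.add_apply, Finsupp.sub_apply, Finsupp.smul_apply, smul_eq_mul]
  ring

lemma seg_d1' (p x : V →₀ ℝ) (s s' : ℝ) :
    d1 ((1 - s) • p + s • x) ((1 - s') • p + s' • x) = |s - s'| * d1 p x := by
  unfold d1
  rw [abs_sub_comm s s', ← n1_smul]
  congr 1
  ext v
  simp only [Finsupp.add_apply, Finsupp.sub_apply, Finsupp.smul_apply, smul_eq_mul]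
  ring

end simplex

section action

variable {G V : Type} [Group G] [MulAction G V]

lemma pact_apply (g : G) (x : V →₀ ℝ) (v : V) : pact g x v = x (g⁻¹ • v) := by
  rfl

lemma pact_smul_apply (g : G) (x : V →₀ ℝ) (v : V) : pact g x (g • v) = x v := by
  rw [pact_apply, inv_smul_smul]

lemma pact_one (x : V →₀ ℝ) : pact (1 : G) x = x := by
  ext v
  rw [pact_apply, inv_one, one_smul]

lemma pact_mul (g h : G) (x : V →₀ ℝ) : pact (g * h) x = pact g (pact h x) := by
  ext v
  rw [pact_apply, pact_apply, pact_apply, mul_inv_rev, mul_smul]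

lemma pact_add (g : G) (x y : V →₀ ℝ) : pact g (x + y) = pact g x + pact g y := by
  ext v
  rw [pact_apply, Finsupp.add_apply, Finsupp.add_apply, pact_apply, pact_apply]

lemma pact_sub (g : G) (x y : V →₀ ℝ) : pact g (x - y) = pact g x - pact g y := by
  ext v
  rw [pact_apply, Finsupp.sub_apply, Finsupp.sub_apply, pact_apply, pact_apply]

lemma pact_smul (g : G) (c : ℝ) (x : V →₀ ℝ) : pact g (c • x) = c • pact g x := by
  ext v
  rw [pact_apply, Finsupp.smul_apply, Finsupp.smul_apply, pact_apply]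

lemma pact_support [DecidableEq V] (g : G) (x : V →₀ ℝ) : (pact g x).support = g • x.support := by
  ext v
  rw [Finsupp.mem_support_iff, pact_apply, ← Finset.inv_smul_mem_iff, Finsupp.mem_support_iff]

lemma pact_n1 (g : G) (x : V →₀ ℝ) : n1 (pact g x) = n1 x := by
  classical
  unfold n1
  rw [pact_support, Finset.smul_finset_def, Finset.sum_image
    (fun a _ b _ h => MulAction.injective g h)]
  exact Finset.sum_congr rfl fun v _ => by rw [pact_smul_apply]

lemma pact_d1 (g : G) (x y : V →₀ ℝ) : d1 (pact g x) (pact g y) = d1 x y := by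
  unfold d1
  rw [← pact_sub, pact_n1]

lemma pact_mem [DecidableEq V] (g : G) {t : Finset V} {x : V →₀ ℝ} (hx : x ∈ sx t) :
    pact g x ∈ sx (g • t) := by
  refine ⟨fun v => ?_, ?_, ?_⟩
  · rw [pact_apply]
    exact hx.1 _
  · rw [pact_support]
    exact Finset.smul_finset_subset_smul_finset hx.2.1
  · rw [pact_support, Finset.smul_finset_def, Finset.sum_image
      (fun a _ b _ h => MulAction.injective g h), ← hx.2.2]
    exact Finset.sum_congr rfl fun v _ => by rw [pact_smul_apply]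

lemma pact_mem_iff [DecidableEq V] (g : G) (t : Finset V) (x : V →₀ ℝ) :
    pact g x ∈ sx (g • t) ↔ x ∈ sx t := by
  constructor
  · intro h
    have h1 := pact_mem g⁻¹ h
    rw [← pact_mul, inv_mul_cancel, pact_one, inv_smul_smul] at h1
    exact h1
  · exact pact_mem g

lemma pact_bary [DecidableEq V] (g : G) (t : Finset V) : pact g (bary t) = bary (g • t) := by
  ext v
  rw [pact_apply, bary_apply, bary_apply, Finset.card_smul_finset]
  by_cases h : v ∈ g • t
  · rw [if_pos h, if_pos (Finset.inv_smul_mem_iff.2 h)]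
  · rw [if_neg h, if_neg (fun h' => h (Finset.inv_smul_mem_iff.1 h'))]

lemma pact_vx (g : G) (v : V) : pact g (vx v) = vx (g • v) := by
  classical
  ext w
  rw [pact_apply]
  unfold vx
  rw [Finsupp.single_apply, Finsupp.single_apply]
  congr 1
  rw [eq_iff_iff]
  constructor
  · intro h
    rw [h, smul_inv_smul]
  · intro h
    rw [← h, inv_smul_smul]

/-- an element fixing the vertices of t fixes the points of the closed simplex t -/
lemma pact_fix {g : G} {t : Finset V} (h : ∀ v ∈ t, g • v = v) {x : V →₀ ℝ} (hx : x ∈ sx t) :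
    pact g x = x := by
  ext v
  rw [pact_apply]
  by_cases hv : v ∈ t
  · have h1 : g⁻¹ • v = v := by
      rw [inv_smul_eq_iff, h v hv]
    rw [h1]
  · have h1 : g⁻¹ • v ∉ t := by
      intro h2
      have h3 := h _ h2
      rw [smul_inv_smul] at h3
      rw [← h3] at h2
      exact hv h2
    have h4 : ∀ w, w ∉ t → x w = 0 := fun w hw =>
      Finsupp.notMem_support_iff.1 fun h5 => hw (hx.2.1 h5)
    rw [h4 _ h1, h4 _ hv]

end action

section glue

variable {V E : Type} [SeminormedAddCommGroup E]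

/-- Points of two simplices are joined through the common face: let m be the mass of min(x,y)
(supported in s ∩ t); m = 1 - |x-y|₁/2; if m > 0 then z = min(x,y)/m is in the closed simplex s ∩ t and
|x - z|₁ ≤ |x-y|₁, |z - y|₁ ≤ |x-y|₁. -/
lemma exists_between [DecidableEq V] {s t : Finset V} {x y : V →₀ ℝ} (hx : x ∈ sx s) (hy : y ∈ sx t)
    (hxy : d1 x y < 2) : ∃ z ∈ sx (s ∩ t), d1 x z ≤ d1 x y ∧ d1 z y ≤ d1 x y := by
  obtain ⟨m, hm⟩ : ∃ m : V →₀ ℝ, ∀ v, m v = min (x v) (y v) :=
    ⟨Finsupp.zipWith min (by simp) x y, fun v => Finsupp.zipWith_apply⟩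
  have hx0 : ∀ v, v ∉ s → x v = 0 := fun w hw =>
    Finsupp.notMem_support_iff.1 fun h5 => hw (hx.2.1 h5)
  have hy0 : ∀ v, v ∉ t → y v = 0 := fun w hw =>
    Finsupp.notMem_support_iff.1 fun h5 => hw (hy.2.1 h5)
  have hm0 : ∀ v, 0 ≤ m v := fun v => by
    rw [hm]
    exact le_min (hx.1 v) (hy.1 v)
  have hms : m.support ⊆ s ∩ t := by
    intro v hv
    rw [Finsupp.mem_support_iff, hm] at hv
    rw [Finset.mem_inter]
    constructor
    · by_contra h
      apply hv
      rw [hx0 v h]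
      exact min_eq_left (hy.1 v)
    · by_contra h
      apply hv
      rw [hy0 v h]
      exact min_eq_right (hx.1 v)
  obtain ⟨M, hM⟩ : ∃ M, M = ∑ v ∈ s ∪ t, m v := ⟨_, rfl⟩
  have hd : d1 x y = 2 - 2 * M := by
    rw [d1_eq_sum x y (T := s ∪ t) (hx.2.1.trans Finset.subset_union_left)
      (hy.2.1.trans Finset.subset_union_right), hM]
    have h1 := sx_sum hx (T := s ∪ t) (hx.2.1.trans Finset.subset_union_left)
    have h2 := sx_sum hy (T := s ∪ t) (hy.2.1.trans Finset.subset_union_right)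
    have h3 : ∀ v ∈ s ∪ t, |x v - y v| = x v + y v - 2 * m v := by
      intro v _
      rw [hm]
      rcases le_total (x v) (y v) with h | h
      · rw [min_eq_left h, abs_of_nonpos (by linarith)]
        ring
      · rw [min_eq_right h, abs_of_nonneg (by linarith)]
        ring
    rw [Finset.sum_congr rfl h3, Finset.sum_sub_distrib, Finset.sum_add_distrib, h1, h2,
      ← Finset.mul_sum]
    ring
  have hM0 : 0 < M := by linarith
  have hM1 : M ≤ 1 := by
    have := d1_nonneg x y
    linarith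
  have hn1m : n1 m = M := by
    rw [n1_eq_sum m (T := s ∪ t) (hms.trans (Finset.inter_subset_left.trans
      Finset.subset_union_left)), hM]
    exact Finset.sum_congr rfl fun v _ => abs_of_nonneg (hm0 v)
  have hsub : ∀ (w : V →₀ ℝ) (u : Finset V), w ∈ sx u → u ⊆ s ∪ t → (∀ v, m v ≤ w v) →
      d1 w (M⁻¹ • m) ≤ d1 x y := by
    intro w u hw hu hmw
    have h1 : d1 w m = 1 - M := by
      rw [d1_eq_sum w m (T := s ∪ t) (hw.2.1.trans hu) (hms.trans
        (Finset.inter_subset_left.trans Finset.subset_union_left))]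
      have h2 := sx_sum hw (T := s ∪ t) (hw.2.1.trans hu)
      rw [← h2, hM, ← Finset.sum_sub_distrib]
      exact Finset.sum_congr rfl fun v _ => abs_of_nonneg (by linarith [hmw v])
    have h2 : d1 m (M⁻¹ • m) = 1 - M := by
      have h3 : m - M⁻¹ • m = (1 - M⁻¹) • m := by rw [sub_smul, one_smul]
      unfold d1
      rw [h3, n1_smul, hn1m]
      have h4 : 1 ≤ M⁻¹ := (one_le_inv₀ hM0).2 hM1
      rw [abs_of_nonpos (by linarith)]
      field_simp
      ring
    have h3 := d1_triangle w m (M⁻¹ • m)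
    linarith
  refine ⟨M⁻¹ • m, ⟨fun v => ?_, Finsupp.support_smul.trans hms, ?_⟩, ?_, ?_⟩
  · rw [Finsupp.smul_apply, smul_eq_mul]
    exact mul_nonneg (inv_nonneg.2 hM0.le) (hm0 v)
  · have h1 : (M⁻¹ • m).support ⊆ s ∪ t := Finsupp.support_smul.trans (hms.trans
      (Finset.inter_subset_left.trans Finset.subset_union_left))
    rw [Finset.sum_subset h1 fun v _ hv => Finsupp.notMem_support_iff.1 hv]
    simp only [Finsupp.smul_apply, smul_eq_mul]
    rw [← Finset.mul_sum, ← hM]
    exact inv_mul_cancel₀ hM0.ne'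
  · exact hsub x s hx Finset.subset_union_left fun v => by
      rw [hm]
      exact min_le_left _ _
  · rw [d1_comm]
    exact hsub y t hy Finset.subset_union_right fun v => by
      rw [hm]
      exact min_le_right _ _

/-- A function which is bounded Lipschitz on finitely many closed simplices is so on their union
(use exists_between if d1 x y < 2, and boundedness if d1 x y ≥ 2). -/
lemma BL_glue (R : Finset (Finset V)) {f : (V →₀ ℝ) → E} (h : ∀ r ∈ R, BL d1 (sx r) f) :
    BL d1 {x | ∃ r ∈ R, x ∈ sx r} f := by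
  classical
  have hC : ∀ r : Finset V, ∃ C : ℝ, 0 ≤ C ∧ (r ∈ R → (∀ x ∈ sx r, ‖f x‖ ≤ C) ∧
      ∀ x ∈ sx r, ∀ y ∈ sx r, ‖f x - f y‖ ≤ C * d1 x y) := by
    intro r
    by_cases hr : r ∈ R
    · obtain ⟨C, h1, h2, h3⟩ := h r hr
      exact ⟨C, h1, fun _ => ⟨h2, h3⟩⟩
    · exact ⟨0, le_rfl, fun h => absurd h hr⟩
  choose c hc0 hc using hC
  obtain ⟨C, hCd⟩ : ∃ C, C = ∑ r ∈ R, c r := ⟨_, rfl⟩
  have hC0 : 0 ≤ C := by
    rw [hCd]
    exact Finset.sum_nonneg fun r _ => hc0 r
  have hle : ∀ r ∈ R, c r ≤ C := fun r hr => by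
    rw [hCd]
    exact Finset.single_le_sum (f := c) (fun r _ => hc0 r) hr
  have hb : ∀ r ∈ R, ∀ x ∈ sx r, ‖f x‖ ≤ C := fun r hr x hx =>
    ((hc r hr).1 x hx).trans (hle r hr)
  have hl : ∀ r ∈ R, ∀ x ∈ sx r, ∀ y ∈ sx r, ‖f x - f y‖ ≤ C * d1 x y := fun r hr x hx y hy =>
    ((hc r hr).2 x hx y hy).trans (mul_le_mul_of_nonneg_right (hle r hr) (d1_nonneg _ _))
  refine ⟨2 * C, by linarith, ?_, ?_⟩
  · rintro x ⟨r, hr, hx⟩
    have := hb r hr x hx
    linarith
  · rintro x ⟨r, hr, hx⟩ y ⟨r', hr', hy⟩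
    by_cases hxy : d1 x y < 2
    · obtain ⟨z, hz, h1, h2⟩ := exists_between hx hy hxy
      have h3 := hl r hr x hx z (sx_mono Finset.inter_subset_left hz)
      have h4 := hl r' hr' z (sx_mono Finset.inter_subset_right hz) y hy
      have h5 := mul_le_mul_of_nonneg_left h1 hC0
      have h6 := mul_le_mul_of_nonneg_left h2 hC0
      have h7 : ‖f x - f y‖ ≤ ‖f x - f z‖ + ‖f z - f y‖ := by
        have : f x - f y = (f x - f z) + (f z - f y) := by abel
        rw [this]
        exact norm_add_le _ _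
      linarith
    · have h1 := hb r hr x hx
      have h2 := hb r' hr' y hy
      have h3 := norm_sub_le (f x) (f y)
      have h4 : 2 * C * 1 ≤ 2 * C * d1 x y :=
        mul_le_mul_of_nonneg_left (by linarith) (by linarith)
      linarith

lemma BLM_glue {m n : Type} (R : Finset (Finset V)) {A : (V →₀ ℝ) → Matrix m n ℂ}
    (h : ∀ r ∈ R, BLM d1 (sx r) A) : BLM d1 {x | ∃ r ∈ R, x ∈ sx r} A := by
  intro i j
  exact BL_glue R fun r hr => h r hr i j

end glue

end Pool.HQ
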