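import Pool.Agent.HQ.E01
import Pool.Agent.HQ.E02

/-!
MP_7936f4_al, THEOREM E, module E03: the level functions
lev c s x = measure of {η ∈ (0,c) : {v : η < x v} = s}.

For fixed η > 0 the set {v : η < x v} is finite (contained in the support of x), so the sets of η defining
lev c s x, for s running through the subsets of any T ⊇ support, form a measurable partition of (0,c)
(they are finite intersections of half lines: v ∈ s, η < x v; v ∈ support minus s, η ≥ x v).
* lev_lip: the two sets for x and y differ only at those η for which some v has exactly one of η < x v,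
  η < y v; such η lie between x v and y v; total measure ≤ Σ |x v - y v|.
* lev_card_sum: Σ_s |s| 1[{x > η} = s] = Σ_v 1[η < x v]; integrate over (0,c); for 0 ≤ x v ≤ c the integral
  of 1[η < x v] is x v.
-/

namespace Pool.HQ

open scoped Pointwise

variable {V : Type}

/-- the set of levels -/
private def Lv (c : ℝ) (s : Finset V) (x : V →₀ ℝ) : Set ℝ :=
  {η : ℝ | 0 < η ∧ η < c ∧ ∀ v, v ∈ s ↔ η < x v}

private lemma lev_eq (c : ℝ) (s : Finset V) (x : V →₀ ℝ) :
    lev c s x = (MeasureTheory.volume (Lv c s x)).toReal := rfl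

private lemma Lv_subset (c : ℝ) (s : Finset V) (x : V →₀ ℝ) : Lv c s x ⊆ Set.Ioo 0 c :=
  fun _ h => ⟨h.1, h.2.1⟩

private lemma Lv_fin (c : ℝ) (s : Finset V) (x : V →₀ ℝ) :
    MeasureTheory.volume (Lv c s x) ≠ ⊤ :=
  ne_top_of_le_ne_top (by rw [Real.volume_Ioo]; exact ENNReal.ofReal_ne_top)
    (MeasureTheory.measure_mono (Lv_subset c s x))

lemma lev_nonneg (c : ℝ) (s : Finset V) (x : V →₀ ℝ) : 0 ≤ lev c s x := by
  rw [lev_eq]
  exact ENNReal.toReal_nonneg

lemma lev_le (c : ℝ) (hc : 0 ≤ c) (s : Finset V) (x : V →₀ ℝ) : lev c s x ≤ c := by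
  rw [lev_eq]
  have h := MeasureTheory.measure_mono (μ := MeasureTheory.volume) (Lv_subset c s x)
  rw [Real.volume_Ioo, sub_zero] at h
  exact ENNReal.toReal_le_of_le_ofReal hc h

lemma lev_ne {c : ℝ} {s : Finset V} {x : V →₀ ℝ} (h : lev c s x ≠ 0) :
    ∃ η, 0 < η ∧ η < c ∧ ∀ v, v ∈ s ↔ η < x v := by
  by_contra hne
  apply h
  rw [lev_eq]
  have : Lv c s x = ∅ := by
    ext η
    simp only [Set.mem_empty_iff_false, iff_false]
    intro hη
    exact hne ⟨η, hη⟩
  rw [this]
  simp

lemma lev_nested {c : ℝ} {s s' : Finset V} {x : V →₀ ℝ} (h : lev c s x ≠ 0) (h' : lev c s' x ≠ 0) :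
    s ⊆ s' ∨ s' ⊆ s := by
  obtain ⟨η, _, _, h1⟩ := lev_ne h
  obtain ⟨η', _, _, h2⟩ := lev_ne h'
  rcases le_total η η' with hle | hle
  · right
    intro v hv
    exact (h1 v).2 (lt_of_le_of_lt hle ((h2 v).1 hv))
  · left
    intro v hv
    exact (h2 v).2 (lt_of_le_of_lt hle ((h1 v).1 hv))

lemma lev_subset {c : ℝ} {s : Finset V} {x : V →₀ ℝ} (h : lev c s x ≠ 0) : s ⊆ x.support := by
  obtain ⟨η, h0, _, h1⟩ := lev_ne h
  intro v hv
  have h2 := (h1 v).1 hv
  rw [Finsupp.mem_support_iff]
  intro h3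
  rw [h3] at h2
  exact absurd h2 (not_lt.2 h0.le)

private lemma lev_lip_aux (c : ℝ) (s : Finset V) (x y : V →₀ ℝ) :
    lev c s x ≤ lev c s y + d1 x y := by
  have hsub : Lv c s x ⊆ Lv c s y ∪ ⋃ v ∈ (x - y).support, Set.uIcc (x v) (y v) := by
    intro η hη
    by_cases hy : η ∈ Lv c s y
    · exact Or.inl hy
    · right
      have : ∃ v, ¬ (v ∈ s ↔ η < y v) := by
        by_contra hcon
        push Not at hcon
        exact hy ⟨hη.1, hη.2.1, hcon⟩
      obtain ⟨v, hv⟩ := this
      have hx := hη.2.2 v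
      rw [Set.mem_iUnion₂]
      refine ⟨v, ?_, ?_⟩
      · rw [Finsupp.mem_support_iff, Finsupp.sub_apply, sub_ne_zero]
        intro heq
        rw [heq] at hx
        exact hv hx
      · rw [Set.mem_uIcc]
        by_cases hs : v ∈ s
        · have h1 := hx.1 hs
          have h2 : ¬ η < y v := fun h => hv ⟨fun _ => h, fun _ => hs⟩
          right
          exact ⟨not_lt.1 h2, h1.le⟩
        · have h1 : ¬ η < x v := fun h => hs (hx.2 h)
          have h2 : η < y v := by
            by_contra h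
            exact hv ⟨fun h' => absurd h' hs, fun h' => absurd h' h⟩
          left
          exact ⟨not_lt.1 h1, h2.le⟩
  have h1 : MeasureTheory.volume (Lv c s x) ≤ MeasureTheory.volume (Lv c s y)
      + ENNReal.ofReal (d1 x y) := by
    refine (MeasureTheory.measure_mono hsub).trans ?_
    refine (MeasureTheory.measure_union_le _ _).trans ?_
    gcongr
    refine (MeasureTheory.measure_biUnion_finset_le _ _).trans ?_
    have h2 : d1 x y = ∑ v ∈ (x - y).support, |x v - y v| := by
      unfold d1 n1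
      rfl
    rw [h2, ENNReal.ofReal_sum_of_nonneg (fun v _ => abs_nonneg _)]
    refine Finset.sum_le_sum fun v _ => ?_
    rw [Set.uIcc, Real.volume_Icc]
    apply ENNReal.ofReal_le_ofReal
    rw [sup_sub_inf_eq_abs_sub, abs_sub_comm]
  have h3 := ENNReal.toReal_mono (by
    exact ENNReal.add_ne_top.2 ⟨Lv_fin c s y, ENNReal.ofReal_ne_top⟩) h1
  rw [ENNReal.toReal_add (Lv_fin c s y) ENNReal.ofReal_ne_top,
    ENNReal.toReal_ofReal (d1_nonneg x y)] at h3
  exact h3

lemma lev_lip (c : ℝ) (s : Finset V) (x y : V →₀ ℝ) : |lev c s x - lev c s y| ≤ d1 x y := by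
  rw [abs_le]
  have h1 := lev_lip_aux c s x y
  have h2 := lev_lip_aux c s y x
  rw [d1_comm] at h2
  constructor <;> linarith

private lemma Lv_meas (c : ℝ) {s T : Finset V} {x : V →₀ ℝ} (hT : x.support ⊆ T) (hs : s ⊆ T) :
    MeasurableSet (Lv c s x) := by
  classical
  have h : Lv c s x = Set.Ioo 0 c ∩ ⋂ v ∈ T, {η : ℝ | v ∈ s ↔ η < x v} := by
    ext η
    constructor
    · intro h
      refine ⟨⟨h.1, h.2.1⟩, ?_⟩
      rw [Set.mem_iInter₂]
      intro v _
      exact h.2.2 v
    · rintro ⟨h1, h2⟩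
      refine ⟨h1.1, h1.2, fun v => ?_⟩
      rw [Set.mem_iInter₂] at h2
      by_cases hv : v ∈ T
      · exact h2 v hv
      · have h3 : x v = 0 := by
          by_contra h4
          exact hv (hT (Finsupp.mem_support_iff.2 h4))
        rw [h3]
        constructor
        · intro h4
          exact absurd (hs h4) hv
        · intro h4
          exact absurd h4 (not_lt.2 h1.1.le)
  rw [h]
  refine measurableSet_Ioo.inter ?_
  refine Finset.measurableSet_biInter _ fun v _ => ?_
  by_cases hv : v ∈ s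
  · have : {η : ℝ | v ∈ s ↔ η < x v} = Set.Iio (x v) := by
      ext η
      simp [hv]
    rw [this]
    exact measurableSet_Iio
  · have : {η : ℝ | v ∈ s ↔ η < x v} = Set.Ici (x v) := by
      ext η
      simp [hv]
    rw [this]
    exact measurableSet_Ici

private lemma sum_lev (c : ℝ) {T : Finset V} {x : V →₀ ℝ} (hT : x.support ⊆ T)
    (F : Finset (Finset V)) (hF : F ⊆ T.powerset) :
    ∑ s ∈ F, lev c s x = (MeasureTheory.volume (⋃ s ∈ F, Lv c s x)).toReal := by
  rw [MeasureTheory.measure_biUnion_finset]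
  · rw [ENNReal.toReal_sum (fun s _ => Lv_fin c s x)]
    rfl
  · intro s _ s' _ hne
    rw [Function.onFun, Set.disjoint_left]
    intro η h1 h2
    apply hne
    ext v
    rw [h1.2.2 v, h2.2.2 v]
  · intro s hs
    exact Lv_meas c hT (Finset.mem_powerset.1 (hF hs))

lemma lev_sum {c : ℝ} (hc : 0 ≤ c) (x : V →₀ ℝ) {T : Finset V} (hT : x.support ⊆ T) :
    ∑ s ∈ T.powerset, lev c s x = c := by
  classical
  rw [sum_lev c hT T.powerset (Finset.Subset.refl _)]
  have h : (⋃ s ∈ T.powerset, Lv c s x) = Set.Ioo 0 c := by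
    ext η
    rw [Set.mem_iUnion₂]
    constructor
    · rintro ⟨s, _, h⟩
      exact Lv_subset c s x h
    · intro h
      refine ⟨T.filter (fun v => η < x v), ?_, h.1, h.2, fun v => ?_⟩
      · exact Finset.mem_powerset.2 (Finset.filter_subset _ _)
      · rw [Finset.mem_filter]
        constructor
        · exact fun h => h.2
        · intro h1
          refine ⟨hT ?_, h1⟩
          rw [Finsupp.mem_support_iff]
          intro h2
          rw [h2] at h1
          exact absurd h1 (not_lt.2 h.1.le)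
  rw [h, Real.volume_Ioo, sub_zero, ENNReal.toReal_ofReal hc]

lemma lev_card_sum {c : ℝ} (x : V →₀ ℝ) (h0 : ∀ v, 0 ≤ x v) (h1 : ∀ v, x v ≤ c) {T : Finset V}
    (hT : x.support ⊆ T) :
    ∑ s ∈ T.powerset, (s.card : ℝ) * lev c s x = ∑ v ∈ T, x v := by
  classical
  have hcard : ∀ s ∈ T.powerset, (s.card : ℝ) * lev c s x
      = ∑ v ∈ T, if v ∈ s then lev c s x else 0 := by
    intro s hs
    rw [← Finset.sum_filter]
    have : T.filter (fun v => v ∈ s) = s := by
      rw [Finset.filter_mem_eq_inter]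
      exact Finset.inter_eq_right.2 (Finset.mem_powerset.1 hs)
    rw [this, Finset.sum_const, nsmul_eq_mul]
  rw [Finset.sum_congr rfl hcard, Finset.sum_comm]
  refine Finset.sum_congr rfl fun v hv => ?_
  rw [← Finset.sum_filter, sum_lev c hT _ (Finset.filter_subset _ _)]
  have h : (⋃ s ∈ T.powerset.filter (fun s => v ∈ s), Lv c s x) = Set.Ioo 0 (x v) := by
    ext η
    rw [Set.mem_iUnion₂]
    constructor
    · rintro ⟨s, hs, h⟩
      exact ⟨h.1, (h.2.2 v).1 (Finset.mem_filter.1 hs).2⟩
    · intro h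
      refine ⟨T.filter (fun v => η < x v), ?_, h.1, lt_of_lt_of_le h.2 (h1 v), fun w => ?_⟩
      · rw [Finset.mem_filter]
        exact ⟨Finset.mem_powerset.2 (Finset.filter_subset _ _), Finset.mem_filter.2 ⟨hv, h.2⟩⟩
      · rw [Finset.mem_filter]
        constructor
        · exact fun h => h.2
        · intro h3
          refine ⟨hT ?_, h3⟩
          rw [Finsupp.mem_support_iff]
          intro h2
          rw [h2] at h3
          exact absurd h3 (not_lt.2 h.1.le)
  rw [h, Real.volume_Ioo, sub_zero, ENNReal.toReal_ofReal (h0 v)]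

lemma lev_empty {c : ℝ} {x : V →₀ ℝ} {v : V} (h : c ≤ x v) : lev c (∅ : Finset V) x = 0 := by
  by_contra hne
  obtain ⟨η, _, h2, h3⟩ := lev_ne hne
  have := (h3 v).2 (lt_of_lt_of_le h2 h)
  simp at this

lemma lev_pact {G : Type} [Group G] [MulAction G V] [DecidableEq V] (c : ℝ) (g : G) (s : Finset V)
    (x : V →₀ ℝ) : lev c (g • s) (pact g x) = lev c s x := by
  rw [lev_eq, lev_eq]
  have h : Lv c (g • s) (pact g x) = Lv c s x := by
    ext η
    constructor
    · rintro ⟨h1, h2, h3⟩
      refine ⟨h1, h2, fun v => ?_⟩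
      have h4 := h3 (g • v)
      rw [Finset.smul_mem_smul_finset_iff, pact_smul_apply] at h4
      exact h4
    · rintro ⟨h1, h2, h3⟩
      refine ⟨h1, h2, fun v => ?_⟩
      rw [pact_apply, ← h3 (g⁻¹ • v), Finset.mem_smul_finset]
      constructor
      · rintro ⟨w, hw, rfl⟩
        rwa [inv_smul_smul]
      · intro h4
        exact ⟨_, h4, smul_inv_smul g v⟩
  rw [h]

end Pool.HQ
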