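import Pool.Agent.HQ.E03

/-!
MP_7936f4_al, THEOREM E, module E04: the clipping map rho and the cut-off functions phi.
Throughout ε = eps e = 1/(2e), t has at most e elements, x in the closed simplex t.

* Z(x) = Σ_v max(x_v - ε, 0) ≥ Σ_{v∈t} (x_v - ε) = 1 - |t| ε ≥ 1/2; some x_v ≥ 1/|t| ≥ 2ε > ε.
* rho x = (x-ε)^+ / Z(x): nonnegative, sum 1, support contained in {x > ε}; so in the closed simplex s
  as soon as x_v ≤ ε for v ∉ s.  Lipschitz: |a/Z - a'/Z'|₁ ≤ (|a-a'|₁ + |Z-Z'| |a'|₁/Z')/Z ≤ 2|x-x'|₁/Z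
  ≤ 4|x-x'|₁ (|a'|₁ = Z', |Z - Z'| ≤ |a-a'|₁ ≤ |x-x'|₁).
* phi_s = lev ε s / √(Σ_{s'} lev²).  Σ_{s' ⊆ supp} lev ε s' x = ε, lev ε ∅ x = 0 (lev_empty), so
  Σ lev² ≥ ε²/2^e (Cauchy-Schwarz) is bounded below; for x in sx t the sum over x.support.powerset equals
  the sum over t.powerset (lev_subset).  Lipschitz by lev_lip.
* phi_ne: from lev_ne with η < ε: v ∉ s gives x_v ≤ η < ε; s nonempty because some x_v ≥ 2ε > η.
* phi_card: nested (lev_nested) and of equal cardinality.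
* phi_bary: all coordinates of bary t are 1/|t| ≥ 2ε > η or 0: {x > η} = t for all η ∈ (0,ε), so
  lev ε t = ε, all other lev are 0.
-/

namespace Pool.HQ

open scoped Pointwise

variable {V : Type}

lemma eps_pos {e : ℕ} (he : 1 ≤ e) : 0 < eps e := by
  have : (0 : ℝ) < e := by exact_mod_cast he
  unfold eps
  positivity

/-- the normalising factor of rho -/
private noncomputable def zz (ε : ℝ) (x : V →₀ ℝ) : ℝ := ∑ v ∈ x.support, max (x v - ε) 0

private lemma rho_apply0 (ε : ℝ) (x : V →₀ ℝ) (v : V) :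
    rho ε x v = (zz ε x)⁻¹ * (if x v = 0 then 0 else max (x v - ε) 0) := by
  unfold rho zz
  rw [Finsupp.smul_apply, Finsupp.mapRange_apply, smul_eq_mul]

private lemma rho_apply1 {ε : ℝ} (hε : 0 ≤ ε) (x : V →₀ ℝ) (v : V) :
    rho ε x v = (zz ε x)⁻¹ * max (x v - ε) 0 := by
  rw [rho_apply0]
  split_ifs with h
  · rw [h, max_eq_right (by linarith)]
  · rfl

private lemma zz_eq_sum {ε : ℝ} (hε : 0 ≤ ε) (x : V →₀ ℝ) {T : Finset V} (hT : x.support ⊆ T) :
    zz ε x = ∑ v ∈ T, max (x v - ε) 0 := by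
  unfold zz
  refine Finset.sum_subset hT fun v _ hv => ?_
  rw [Finsupp.notMem_support_iff] at hv
  rw [hv, max_eq_right (by linarith)]

private lemma card_mul_eps {e k : ℕ} (he : 1 ≤ e) (hk : k ≤ e) : (k : ℝ) * eps e ≤ 1 / 2 := by
  have h1 : (0 : ℝ) < e := by exact_mod_cast he
  have h2 : (k : ℝ) ≤ e := by exact_mod_cast hk
  unfold eps
  rw [mul_one_div, div_le_div_iff₀ (by positivity) (by norm_num)]
  linarith

private lemma supp_card {e : ℕ} {t : Finset V} (hte : t.card ≤ e) {x : V →₀ ℝ} (hx : x ∈ sx t) :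
    x.support.card ≤ e := (Finset.card_le_card hx.2.1).trans hte

private lemma zz_ge {e : ℕ} (he : 1 ≤ e) {t : Finset V} (hte : t.card ≤ e) {x : V →₀ ℝ}
    (hx : x ∈ sx t) : 1 / 2 ≤ zz (eps e) x := by
  have h1 : ∑ v ∈ x.support, (x v - eps e) ≤ zz (eps e) x := by
    unfold zz
    exact Finset.sum_le_sum fun v _ => le_max_left _ _
  rw [Finset.sum_sub_distrib, hx.2.2, Finset.sum_const, nsmul_eq_mul] at h1
  have h2 := card_mul_eps he (supp_card hte hx)
  linarith

lemma rho_support (ε : ℝ) (x : V →₀ ℝ) : (rho ε x).support ⊆ x.support := by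
  intro v hv
  rw [Finsupp.mem_support_iff] at hv ⊢
  intro h
  apply hv
  rw [rho_apply0, if_pos h, mul_zero]

lemma rho_mem {e : ℕ} (he : 1 ≤ e) {t : Finset V} (hte : t.card ≤ e) {x : V →₀ ℝ} (hx : x ∈ sx t)
    {s : Finset V} (hs : ∀ v, v ∉ s → x v ≤ eps e) : rho (eps e) x ∈ sx s := by
  have hε := (eps_pos he).le
  have hz := zz_ge he hte hx
  have hz0 : 0 < zz (eps e) x := by linarith
  refine ⟨fun v => ?_, fun v hv => ?_, ?_⟩
  · rw [rho_apply1 hε]
    exact mul_nonneg (inv_nonneg.2 hz0.le) (le_max_right _ _)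
  · by_contra hvs
    rw [Finsupp.mem_support_iff] at hv
    apply hv
    rw [rho_apply1 hε, max_eq_right (by linarith [hs v hvs]), mul_zero]
  · rw [Finset.sum_subset (rho_support (eps e) x)
      (fun v _ hv => Finsupp.notMem_support_iff.1 hv)]
    have : ∑ v ∈ x.support, rho (eps e) x v = (zz (eps e) x)⁻¹ * zz (eps e) x := by
      conv_rhs => rw [zz]
      rw [show (∑ v ∈ x.support, max (x v - eps e) 0) = zz (eps e) x from rfl]
      conv_rhs => rw [zz, Finset.mul_sum]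
      refine Finset.sum_congr rfl fun v _ => ?_
      rw [rho_apply1 hε]
      rfl
    rw [this, inv_mul_cancel₀ hz0.ne']

lemma rho_mem_self {e : ℕ} (he : 1 ≤ e) {t : Finset V} (hte : t.card ≤ e) {x : V →₀ ℝ}
    (hx : x ∈ sx t) : rho (eps e) x ∈ sx t := by
  refine rho_mem he hte hx fun v hv => ?_
  have h : x v = 0 := by
    by_contra h
    exact hv (hx.2.1 (Finsupp.mem_support_iff.2 h))
  rw [h]
  exact (eps_pos he).le

private lemma quot_lip {ι : Type} (T : Finset ι) (a b : ι → ℝ) (hb : ∀ i ∈ T, 0 ≤ b i)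
    {Z W : ℝ} (hZ : Z = ∑ i ∈ T, a i) (hW : W = ∑ i ∈ T, b i) (hZ0 : 1 / 2 ≤ Z) (hW0 : 1 / 2 ≤ W) :
    ∑ i ∈ T, |Z⁻¹ * a i - W⁻¹ * b i| ≤ 4 * ∑ i ∈ T, |a i - b i| := by
  have hZp : 0 < Z := by linarith
  have hWp : 0 < W := by linarith
  have hZW : |W - Z| ≤ ∑ i ∈ T, |a i - b i| := by
    rw [hZ, hW, ← Finset.sum_sub_distrib]
    refine (Finset.abs_sum_le_sum_abs _ _).trans (Finset.sum_le_sum fun i _ => ?_)
    rw [abs_sub_comm]
  set D := ∑ i ∈ T, |a i - b i| with hD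
  have hD0 : 0 ≤ D := Finset.sum_nonneg fun _ _ => abs_nonneg _
  have h1 : ∀ i ∈ T, |Z⁻¹ * a i - W⁻¹ * b i| ≤ Z⁻¹ * |a i - b i| + Z⁻¹ * |W - Z| * (W⁻¹ * b i) := by
    intro i hi
    have e1 : Z⁻¹ * a i - W⁻¹ * b i = Z⁻¹ * (a i - b i) + Z⁻¹ * (W - Z) * (W⁻¹ * b i) := by
      field_simp
      ring
    rw [e1]
    refine (abs_add_le _ _).trans (le_of_eq ?_)
    rw [abs_mul, abs_mul, abs_mul, abs_of_pos (inv_pos.2 hZp),
      abs_of_nonneg (mul_nonneg (inv_nonneg.2 hWp.le) (hb i hi))]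
  have h2 := Finset.sum_le_sum h1
  rw [Finset.sum_add_distrib, ← Finset.mul_sum, ← Finset.mul_sum, ← Finset.mul_sum, ← hW,
    inv_mul_cancel₀ hWp.ne', mul_one] at h2
  have hZi : Z⁻¹ ≤ 2 := by
    rw [inv_le_comm₀ hZp (by norm_num)]
    linarith
  refine h2.trans ?_
  have h3 : Z⁻¹ * D ≤ 2 * D := mul_le_mul_of_nonneg_right hZi hD0
  have h4 : Z⁻¹ * |W - Z| ≤ 2 * D :=
    mul_le_mul hZi hZW (abs_nonneg _) (by norm_num)
  linarith

lemma rho_lip {e : ℕ} (he : 1 ≤ e) {t : Finset V} (hte : t.card ≤ e) {x y : V →₀ ℝ}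
    (hx : x ∈ sx t) (hy : y ∈ sx t) : d1 (rho (eps e) x) (rho (eps e) y) ≤ 4 * d1 x y := by
  have hε := (eps_pos he).le
  rw [d1_eq_sum _ _ ((rho_support _ _).trans hx.2.1) ((rho_support _ _).trans hy.2.1),
    d1_eq_sum x y hx.2.1 hy.2.1]
  have h1 := quot_lip t (fun v => max (x v - eps e) 0) (fun v => max (y v - eps e) 0)
    (fun v _ => le_max_right _ _) (zz_eq_sum hε x hx.2.1) (zz_eq_sum hε y hy.2.1)
    (zz_ge he hte hx) (zz_ge he hte hy)
  have h2 : ∑ v ∈ t, |rho (eps e) x v - rho (eps e) y v| =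
      ∑ v ∈ t, |(zz (eps e) x)⁻¹ * max (x v - eps e) 0 - (zz (eps e) y)⁻¹ * max (y v - eps e) 0| :=
    Finset.sum_congr rfl fun v _ => by rw [rho_apply1 hε, rho_apply1 hε]
  rw [h2]
  refine h1.trans ?_
  refine mul_le_mul_of_nonneg_left (Finset.sum_le_sum fun v _ => ?_) (by norm_num)
  have h3 := abs_max_sub_max_le_abs (x v - eps e) (y v - eps e) 0
  have h4 : x v - eps e - (y v - eps e) = x v - y v := by ring
  rwa [h4] at h3

lemma rho_pact {G : Type} [Group G] [MulAction G V] (ε : ℝ) (g : G) (x : V →₀ ℝ) :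
    rho ε (pact g x) = pact g (rho ε x) := by
  have hz : zz ε (pact g x) = zz ε x := by
    unfold zz
    have h1 : (pact g x).support = x.support.map (MulAction.toPerm g).toEmbedding := rfl
    rw [h1, Finset.sum_map]
    refine Finset.sum_congr rfl fun v _ => ?_
    have h2 : (pact g x) ((MulAction.toPerm g).toEmbedding v) = x v := pact_smul_apply g x v
    rw [h2]
  ext v
  rw [rho_apply0, pact_apply, hz, pact_apply, rho_apply0]

private lemma two_eps_le {e : ℕ} (he : 1 ≤ e) {t : Finset V} (hte : t.card ≤ e)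
    (ht : t.Nonempty) : 2 * eps e ≤ (t.card : ℝ)⁻¹ := by
  have h1 : (0 : ℝ) < t.card := by exact_mod_cast ht.card_pos
  have h2 : (t.card : ℝ) ≤ e := by exact_mod_cast hte
  have h3 : (0 : ℝ) < e := by linarith
  have h4 : 2 * eps e = (e : ℝ)⁻¹ := by
    unfold eps
    field_simp
  rw [h4]
  exact inv_anti₀ h1 h2

lemma rho_bary {e : ℕ} (he : 1 ≤ e) {t : Finset V} (hte : t.card ≤ e) (ht : t.Nonempty) :
    rho (eps e) (bary t) = bary t := by
  classical
  have hε := eps_pos he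
  have h1 : (0 : ℝ) < t.card := by exact_mod_cast ht.card_pos
  have h2 := two_eps_le he hte ht
  have hm := bary_mem ht
  have hz := zz_ge he hte hm
  have hz1 : zz (eps e) (bary t) = 1 - t.card * eps e := by
    rw [zz_eq_sum hε.le _ hm.2.1]
    have : ∀ v ∈ t, max (bary t v - eps e) 0 = (t.card : ℝ)⁻¹ - eps e := by
      intro v hv
      rw [bary_apply, if_pos hv, max_eq_left (by linarith)]
    rw [Finset.sum_congr rfl this, Finset.sum_const, nsmul_eq_mul]
    field_simp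
  ext v
  rw [rho_apply1 hε.le, hz1, bary_apply]
  rw [hz1] at hz
  split_ifs with hv
  · rw [max_eq_left (by linarith)]
    have h3 : (1 - (t.card : ℝ) * eps e) ≠ 0 := by linarith
    field_simp
  · rw [max_eq_right (by linarith), mul_zero]

lemma phi_nonneg (ε : ℝ) (s : Finset V) (x : V →₀ ℝ) : 0 ≤ phi ε s x :=
  div_nonneg (lev_nonneg _ _ _) (Real.sqrt_nonneg _)

private noncomputable def nn (ε : ℝ) (x : V →₀ ℝ) : ℝ :=
  Real.sqrt (∑ s' ∈ x.support.powerset, lev ε s' x ^ 2)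

private lemma phi_def (ε : ℝ) (s : Finset V) (x : V →₀ ℝ) : phi ε s x = lev ε s x / nn ε x := rfl

private lemma nn_eq (ε : ℝ) (x : V →₀ ℝ) {T : Finset V} (hT : x.support ⊆ T) :
    nn ε x = Real.sqrt (∑ s' ∈ T.powerset, lev ε s' x ^ 2) := by
  unfold nn
  congr 1
  refine Finset.sum_subset (Finset.powerset_mono.2 hT) fun s _ hs => ?_
  have : lev ε s x = 0 := by
    by_contra h
    exact hs (Finset.mem_powerset.2 (lev_subset h))
  rw [this]
  ring

private lemma lev_le_nn (ε : ℝ) (s : Finset V) (x : V →₀ ℝ) : lev ε s x ≤ nn ε x := by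
  by_cases h : lev ε s x = 0
  · rw [h]
    exact Real.sqrt_nonneg _
  · unfold nn
    apply Real.le_sqrt_of_sq_le
    exact Finset.single_le_sum (f := fun s' => lev ε s' x ^ 2) (fun _ _ => sq_nonneg _)
      (Finset.mem_powerset.2 (lev_subset h))

lemma phi_le_one (ε : ℝ) (s : Finset V) (x : V →₀ ℝ) : phi ε s x ≤ 1 := by
  rw [phi_def]
  exact div_le_one_of_le₀ (lev_le_nn ε s x) (Real.sqrt_nonneg _)

lemma phi_ne {e : ℕ} (he : 1 ≤ e) {t : Finset V} (hte : t.card ≤ e) {x : V →₀ ℝ} (hx : x ∈ sx t)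
    {s : Finset V} (h : phi (eps e) s x ≠ 0) :
    s.Nonempty ∧ s ⊆ x.support ∧ ∀ v, v ∉ s → x v ≤ eps e := by
  have hl : lev (eps e) s x ≠ 0 := by
    intro h0
    apply h
    rw [phi_def, h0, zero_div]
  obtain ⟨η, hη0, hη1, hη⟩ := lev_ne hl
  refine ⟨?_, lev_subset hl, fun v hv => ?_⟩
  · by_contra hne
    rw [Finset.not_nonempty_iff_eq_empty] at hne
    have h1 : ∀ v ∈ x.support, x v ≤ eps e := by
      intro v _
      have h2 : ¬ η < x v := by
        rw [← hη v, hne]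
        exact Finset.notMem_empty v
      linarith [not_lt.1 h2]
    have h2 := Finset.sum_le_card_nsmul _ _ _ h1
    rw [hx.2.2, nsmul_eq_mul] at h2
    have h3 := card_mul_eps he (supp_card hte hx)
    linarith
  · have h2 : ¬ η < x v := by rwa [← hη v]
    linarith [not_lt.1 h2]

/-- Cauchy-Schwarz: the normalising factor is bounded below -/
private lemma nn_ge {ε : ℝ} (hε : 0 ≤ ε) {e : ℕ} (x : V →₀ ℝ) {t : Finset V} (hte : t.card ≤ e)
    (hT : x.support ⊆ t) : ε / 2 ^ e ≤ nn ε x := by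
  rw [nn_eq ε x hT]
  apply Real.le_sqrt_of_sq_le
  have h1 := lev_sum hε x hT
  have h2 := Finset.sum_mul_sq_le_sq_mul_sq t.powerset (fun _ => (1 : ℝ)) (fun s => lev ε s x)
  simp only [one_mul, one_pow, Finset.sum_const, Finset.card_powerset, nsmul_eq_mul, mul_one] at h2
  rw [h1] at h2
  have h3 : ((2 ^ t.card : ℕ) : ℝ) ≤ (2 ^ e) ^ 2 := by
    push_cast
    calc (2 : ℝ) ^ t.card ≤ 2 ^ e := pow_le_pow_right₀ (by norm_num) hte
      _ ≤ (2 ^ e) ^ 2 := by
          have : (1 : ℝ) ≤ 2 ^ e := one_le_pow₀ (by norm_num)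
          nlinarith
  have h4 : 0 ≤ ∑ s ∈ t.powerset, lev ε s x ^ 2 := Finset.sum_nonneg fun _ _ => sq_nonneg _
  rw [div_pow, div_le_iff₀ (by positivity)]
  calc ε ^ 2 ≤ _ := h2
    _ ≤ (2 ^ e) ^ 2 * ∑ s ∈ t.powerset, lev ε s x ^ 2 := mul_le_mul_of_nonneg_right h3 h4
    _ = _ := by ring

lemma phi_sum {e : ℕ} (he : 1 ≤ e) {t : Finset V} (hte : t.card ≤ e) {x : V →₀ ℝ} (hx : x ∈ sx t)
    {T : Finset V} (hT : x.support ⊆ T) : ∑ s ∈ T.powerset, phi (eps e) s x ^ 2 = 1 := by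
  have hn : 0 < nn (eps e) x := by
    have h1 := nn_ge (eps_pos he).le x (supp_card hte hx) (Finset.Subset.refl _)
    have h2 : 0 < eps e / 2 ^ e := div_pos (eps_pos he) (by positivity)
    linarith
  have h3 : ∀ s ∈ T.powerset, phi (eps e) s x ^ 2 = lev (eps e) s x ^ 2 / nn (eps e) x ^ 2 := by
    intro s _
    rw [phi_def, div_pow]
  rw [Finset.sum_congr rfl h3, ← Finset.sum_div]
  have h4 : nn (eps e) x ^ 2 = ∑ s ∈ T.powerset, lev (eps e) s x ^ 2 := by
    rw [nn_eq (eps e) x hT, Real.sq_sqrt (Finset.sum_nonneg fun _ _ => sq_nonneg _)]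
  rw [← h4]
  exact div_self (by positivity)

lemma phi_card {ε : ℝ} {s s' : Finset V} {x : V →₀ ℝ} (h : phi ε s x ≠ 0) (h' : phi ε s' x ≠ 0)
    (hc : s.card = s'.card) : s = s' := by
  have hl : lev ε s x ≠ 0 := by
    intro h0
    apply h
    rw [phi_def, h0, zero_div]
  have hl' : lev ε s' x ≠ 0 := by
    intro h0
    apply h'
    rw [phi_def, h0, zero_div]
  rcases lev_nested hl hl' with h1 | h1
  · exact Finset.eq_of_subset_of_card_le h1 hc.ge
  · exact (Finset.eq_of_subset_of_card_le h1 hc.le).symm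

private lemma nn_lip (ε : ℝ) {e : ℕ} {t : Finset V} (hte : t.card ≤ e) {x y : V →₀ ℝ}
    (hx : x.support ⊆ t) (hy : y.support ⊆ t) (hpos : 0 < nn ε x + nn ε y) :
    |nn ε x - nn ε y| ≤ 2 ^ e * d1 x y := by
  have hx2 : nn ε x ^ 2 = ∑ s ∈ t.powerset, lev ε s x ^ 2 := by
    rw [nn_eq ε x hx, Real.sq_sqrt (Finset.sum_nonneg fun _ _ => sq_nonneg _)]
  have hy2 : nn ε y ^ 2 = ∑ s ∈ t.powerset, lev ε s y ^ 2 := by
    rw [nn_eq ε y hy, Real.sq_sqrt (Finset.sum_nonneg fun _ _ => sq_nonneg _)]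
  have h1 : |nn ε x ^ 2 - nn ε y ^ 2| ≤ (2 ^ e * d1 x y) * (nn ε x + nn ε y) := by
    rw [hx2, hy2, ← Finset.sum_sub_distrib]
    refine (Finset.abs_sum_le_sum_abs _ _).trans ?_
    have h2 : ∀ s ∈ t.powerset, |lev ε s x ^ 2 - lev ε s y ^ 2| ≤ d1 x y * (nn ε x + nn ε y) := by
      intro s _
      rw [sq_sub_sq, mul_comm, abs_mul]
      have h3 : |lev ε s x + lev ε s y| ≤ nn ε x + nn ε y := by
        rw [abs_of_nonneg (add_nonneg (lev_nonneg _ _ _) (lev_nonneg _ _ _))]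
        exact add_le_add (lev_le_nn _ _ _) (lev_le_nn _ _ _)
      exact mul_le_mul (lev_lip ε s x y) h3 (abs_nonneg _) (d1_nonneg _ _)
    refine (Finset.sum_le_card_nsmul _ _ _ h2).trans ?_
    rw [Finset.card_powerset, nsmul_eq_mul]
    push_cast
    have h4 : (2 : ℝ) ^ t.card ≤ 2 ^ e := pow_le_pow_right₀ (by norm_num) hte
    have h5 : 0 ≤ d1 x y * (nn ε x + nn ε y) := mul_nonneg (d1_nonneg _ _) hpos.le
    calc (2 : ℝ) ^ t.card * (d1 x y * (nn ε x + nn ε y))
        ≤ 2 ^ e * (d1 x y * (nn ε x + nn ε y)) := mul_le_mul_of_nonneg_right h4 h5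
      _ = _ := by ring
  have h6 : nn ε x ^ 2 - nn ε y ^ 2 = (nn ε x - nn ε y) * (nn ε x + nn ε y) := by ring
  rw [h6, abs_mul, abs_of_pos hpos] at h1
  exact le_of_mul_le_mul_right h1 hpos

/-- uniform version: the constant does not depend on the simplices. -/
lemma phi_lip {e : ℕ} (he : 1 ≤ e) : ∃ C : ℝ, 0 ≤ C ∧ ∀ (t s : Finset V) (x y : V →₀ ℝ), t.card ≤ e →
    x ∈ sx t → y ∈ sx t → |phi (eps e) s x - phi (eps e) s y| ≤ C * d1 x y := by
  have hε := eps_pos he
  refine ⟨(1 + 2 ^ e) * (2 ^ e / eps e), by positivity, ?_⟩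
  intro t s x y hte hx hy
  have hX := nn_ge hε.le x hte hx.2.1
  have hY := nn_ge hε.le y hte hy.2.1
  have hδ : 0 < eps e / 2 ^ e := by positivity
  have hX0 : 0 < nn (eps e) x := by linarith
  have hY0 : 0 < nn (eps e) y := by linarith
  have hN := nn_lip (eps e) hte hx.2.1 hy.2.1 (by linarith)
  have hl := lev_lip (eps e) s x y
  have hd := d1_nonneg x y
  set a := lev (eps e) s x with ha
  set b := lev (eps e) s y with hb
  set X := nn (eps e) x with hXd
  set Y := nn (eps e) y with hYd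
  have hbY : b ≤ Y := lev_le_nn _ _ _
  have hb0 : 0 ≤ b := lev_nonneg _ _ _
  rw [phi_def, phi_def, ← ha, ← hb, ← hXd, ← hYd]
  have e1 : a / X - b / Y = (a - b) / X + (Y - X) / X * (b / Y) := by
    field_simp
    ring
  have h1 : |b / Y| ≤ 1 := by
    rw [abs_of_nonneg (div_nonneg hb0 hY0.le)]
    exact div_le_one_of_le₀ hbY hY0.le
  have h2 : |a / X - b / Y| ≤ |a - b| / X + |X - Y| / X := by
    rw [e1]
    refine (abs_add_le _ _).trans ?_
    rw [abs_mul, abs_div, abs_div, abs_of_pos hX0, abs_sub_comm Y X]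
    have h3 : |X - Y| / X * |b / Y| ≤ |X - Y| / X :=
      mul_le_of_le_one_right (by positivity) h1
    linarith
  refine h2.trans ?_
  rw [← add_div, div_le_iff₀ hX0]
  have h4 : 1 ≤ 2 ^ e / eps e * X := by
    have h5 : 2 ^ e / eps e * (eps e / 2 ^ e) = 1 := by
      field_simp
    rw [← h5]
    exact mul_le_mul_of_nonneg_left hX (by positivity)
  calc |a - b| + |X - Y| ≤ (1 + 2 ^ e) * d1 x y := by linarith
    _ ≤ (1 + 2 ^ e) * d1 x y * (2 ^ e / eps e * X) := le_mul_of_one_le_right (by positivity) h4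
    _ = _ := by ring

lemma phi_BL {e : ℕ} (he : 1 ≤ e) {t : Finset V} (hte : t.card ≤ e) (s : Finset V) :
    BL d1 (sx t) (phi (eps e) s) := by
  obtain ⟨C, hC, h⟩ := phi_lip (V := V) he
  refine ⟨1 + C, by linarith, fun x _ => ?_, fun x hx y hy => ?_⟩
  · rw [Real.norm_eq_abs, abs_of_nonneg (phi_nonneg _ _ _)]
    linarith [phi_le_one (eps e) s x]
  · rw [Real.norm_eq_abs]
    have h1 := h t s x y hte hx hy
    have h2 := d1_nonneg x y
    linarith [mul_nonneg hC h2]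

lemma phi_pact {G : Type} [Group G] [MulAction G V] [DecidableEq V] (ε : ℝ) (g : G) (s : Finset V)
    (x : V →₀ ℝ) : phi ε (g • s) (pact g x) = phi ε s x := by
  have h : nn ε (pact g x) = nn ε x := by
    unfold nn
    congr 1
    rw [pact_support]
    refine Finset.sum_nbij' (fun s => g⁻¹ • s) (fun s => g • s) ?_ ?_ ?_ ?_ ?_
    · intro a ha
      rw [Finset.mem_powerset] at ha ⊢
      have := Finset.smul_finset_subset_smul_finset (a := g⁻¹) ha
      rwa [inv_smul_smul] at this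
    · intro a ha
      rw [Finset.mem_powerset] at ha ⊢
      exact Finset.smul_finset_subset_smul_finset ha
    · intro a _
      exact smul_inv_smul g a
    · intro a _
      exact inv_smul_smul g a
    · intro a _
      have := lev_pact ε g (g⁻¹ • a) x
      rw [smul_inv_smul] at this
      rw [this]
  rw [phi_def, phi_def, lev_pact, h]

lemma phi_bary [DecidableEq V] {e : ℕ} (he : 1 ≤ e) {t : Finset V} (hte : t.card ≤ e)
    (ht : t.Nonempty) (s : Finset V) : phi (eps e) s (bary t) = if s = t then 1 else 0 := by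
  have hε := eps_pos he
  have h2 := two_eps_le he hte ht
  have hkey : ∀ η : ℝ, 0 < η → η < eps e → ∀ v, v ∈ t ↔ η < bary t v := by
    intro η h0 h1 v
    rw [bary_apply]
    split_ifs with hv
    · simp only [hv, true_iff]
      linarith
    · simp only [hv, false_iff, not_lt]
      exact h0.le
  have hlt : lev (eps e) t (bary t) = eps e := by
    unfold lev
    have : {η : ℝ | 0 < η ∧ η < eps e ∧ ∀ v, v ∈ t ↔ η < bary t v} = Set.Ioo 0 (eps e) := by
      ext η
      simp only [Set.mem_ofPred_eq, Set.mem_Ioo]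
      constructor
      · exact fun h => ⟨h.1, h.2.1⟩
      · exact fun h => ⟨h.1, h.2, hkey η h.1 h.2⟩
    rw [this, Real.volume_Ioo, sub_zero, ENNReal.toReal_ofReal hε.le]
  have hls : ∀ s', s' ≠ t → lev (eps e) s' (bary t) = 0 := by
    intro s' hs'
    by_contra h
    obtain ⟨η, h0, h1, h3⟩ := lev_ne h
    apply hs'
    ext v
    rw [h3 v, hkey η h0 h1 v]
  have hnn : nn (eps e) (bary t) = eps e := by
    unfold nn
    rw [bary_support ht, Finset.sum_eq_single t]
    · rw [hlt, Real.sqrt_sq hε.le]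
    · intro s' _ hs'
      rw [hls s' hs']
      ring
    · intro h
      exact absurd (Finset.mem_powerset_self t) h
  rw [phi_def, hnn]
  split_ifs with h
  · rw [h, hlt]
    exact div_self hε.ne'
  · rw [hls s h, zero_div]

end Pool.HQ
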