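import Pool.Agent.HQ.E00

/-!
MP_7936f4_al, THEOREM E, module E05: canonical unitary transport between near projections of a
C*-algebra, chains of transports.

Proof of exists_transport.  For star projections P, Q with ‖P - Q‖ ≤ 1/2 let
S = Q P + (1-Q)(1-P).  Then S P = Q P = Q S, star S * S = P Q P + (1-P)(1-Q)(1-P) = 1 - (P-Q)² =: 1 - E and
S * star S = Q P Q + (1-Q)(1-P)(1-Q) = 1 - (P-Q)² as well; (P-Q)² commutes with P and Q; E ≥ 0, ‖E‖ ≤ 1/4.
Let X = CFC.sqrt (1 - E) (positive, X² = 1 - E, commutes with everything commuting with E, the spectrum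
of X is in [√(3/4), 1], so ‖1 - X‖ ≤ 1/4 : indeed 0 ≤ 1 - √(1-e) ≤ e ≤ 1/4 on the spectrum of E).
X is invertible with ‖X⁻¹‖ ≤ 4/3 (Neumann series).  u Q P := S * X⁻¹ (Ring.inverse X).  It is unitary
(star u u = X⁻¹ (star S S) X⁻¹ = 1; u star u = S X⁻² star S = S (star S S)⁻¹ star S = 1 because S is
invertible: star S S = S star S = X² is invertible), u P = S X⁻¹ P = S P X⁻¹ = Q S X⁻¹ = Q u, and it
commutes with every w commuting with P and Q.  For P = Q: S = 1, E = 0, u = 1.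
For P, Q not satisfying the hypotheses define u Q P := 1.
Lipschitz: ‖S - S'‖ ≤ 2(‖P-P'‖ + ‖Q-Q'‖);  D = X - X' satisfies X D + D X' = X² - X'² = E' - E, hence
2D = (1-X) D + D (1-X') + (E'-E), 2‖D‖ ≤ (1/4+1/4)‖D‖ + ‖E-E'‖, ‖D‖ ≤ (2/3)‖E - E'‖,
‖E-E'‖ ≤ (‖P-Q‖ + ‖P'-Q'‖)(‖P-P'‖+‖Q-Q'‖) ≤ ‖P-P'‖+‖Q-Q'‖;
X⁻¹ - X'⁻¹ = X⁻¹ (X' - X) X'⁻¹, norm ≤ (16/9)(2/3)(...) ≤ 1.2 (...);
‖u - u'‖ ≤ ‖S-S'‖ ‖X⁻¹‖ + ‖S'‖ ‖X⁻¹ - X'⁻¹‖ ≤ (8/3 + 1.2)(...) ≤ 8 (...)   (‖S'‖ ≤ 1 as ‖S'‖² = ‖1-E'‖ ≤ 1).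
-/

namespace Pool.HQ

section transport

variable {A : Type} [CStarAlgebra A]

/-- E = (P - Q)² -/
def tE (P Q : A) : A := (P - Q) * (P - Q)

/-- S = Q P + (1-Q)(1-P) -/
def tS (P Q : A) : A := Q * P + (1 - Q) * (1 - P)

/-- Y = (1-E)^(-1/2) -/
noncomputable def tY (P Q : A) : A := cfc (fun x : ℝ => (Real.sqrt (1 - x))⁻¹) (tE P Q)

lemma t_one_le : ‖(1 : A)‖ ≤ 1 := by
  rcases subsingleton_or_nontrivial A with h | h
  · rw [show (1 : A) = 0 from Subsingleton.elim _ _, norm_zero]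
    exact zero_le_one
  · exact (CStarRing.norm_one (E := A)).le

lemma t_unitary_le {u : A} (hu : u ∈ unitary A) : ‖u‖ ≤ 1 := by
  have h1 : ‖u‖ * ‖u‖ = ‖(1 : A)‖ := by
    rw [← CStarRing.norm_star_mul_self, (Unitary.mem_iff.1 hu).1]
  have h2 : ‖u‖ * ‖u‖ ≤ 1 := h1.trans_le t_one_le
  nlinarith [norm_nonneg u]

lemma t_proj_le {P : A} (hP : IsStarProjection P) : ‖P‖ ≤ 1 := by
  have h1 : ‖P‖ * ‖P‖ = ‖P‖ := by
    rw [← CStarRing.norm_star_mul_self, hP.isSelfAdjoint.star_eq, hP.isIdempotentElem.eq]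
  nlinarith [norm_nonneg P]

lemma t_assoc {P : A} (hP : P * P = P) (x : A) : P * (P * x) = P * x := by
  rw [← mul_assoc, hP]

lemma tE_sa {P Q : A} (hP : IsStarProjection P) (hQ : IsStarProjection Q) :
    IsSelfAdjoint (tE P Q) := by
  have h : star (P - Q) = P - Q := by
    rw [star_sub, hP.isSelfAdjoint.star_eq, hQ.isSelfAdjoint.star_eq]
  show star ((P - Q) * (P - Q)) = (P - Q) * (P - Q)
  rw [star_mul, h]

lemma tE_comm_left {P Q : A} (hP : P * P = P) (hQ : Q * Q = Q) : Commute P (tE P Q) := by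
  show P * ((P - Q) * (P - Q)) = (P - Q) * (P - Q) * P
  simp only [mul_sub, sub_mul, mul_assoc, hP, hQ, t_assoc hP]
  abel

lemma tE_comm_right {P Q : A} (hP : P * P = P) (hQ : Q * Q = Q) : Commute Q (tE P Q) := by
  show Q * ((P - Q) * (P - Q)) = (P - Q) * (P - Q) * Q
  simp only [mul_sub, sub_mul, mul_assoc, hP, hQ, t_assoc hQ]
  abel

lemma tS_star {P Q : A} (hP : IsStarProjection P) (hQ : IsStarProjection Q) :
    star (tS P Q) = P * Q + (1 - P) * (1 - Q) := by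
  unfold tS
  rw [star_add, star_mul, star_mul, star_sub, star_sub, star_one, hP.isSelfAdjoint.star_eq,
    hQ.isSelfAdjoint.star_eq]

lemma tS_star_mul {P Q : A} (hP : IsStarProjection P) (hQ : IsStarProjection Q) :
    star (tS P Q) * tS P Q = 1 - tE P Q := by
  rw [tS_star hP hQ]
  unfold tS tE
  have h1 := hP.isIdempotentElem.eq
  have h2 := hQ.isIdempotentElem.eq
  simp only [mul_sub, sub_mul, mul_add, add_mul, mul_one, one_mul, mul_assoc, h1, h2,
    t_assoc h1, t_assoc h2]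
  abel

lemma tS_mul_star {P Q : A} (hP : IsStarProjection P) (hQ : IsStarProjection Q) :
    tS P Q * star (tS P Q) = 1 - tE P Q := by
  rw [tS_star hP hQ]
  unfold tS tE
  have h1 := hP.isIdempotentElem.eq
  have h2 := hQ.isIdempotentElem.eq
  simp only [mul_sub, sub_mul, mul_add, add_mul, mul_one, one_mul, mul_assoc, h1, h2,
    t_assoc h1, t_assoc h2]
  abel

lemma tS_mul {P Q : A} (hP : P * P = P) : tS P Q * P = Q * P := by
  unfold tS
  simp only [mul_sub, sub_mul, add_mul, mul_one, one_mul, mul_assoc, hP]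
  abel

lemma mul_tS {P Q : A} (hQ : Q * Q = Q) : Q * tS P Q = Q * P := by
  unfold tS
  simp only [mul_sub, mul_add, mul_one, one_mul, sub_mul, hQ, t_assoc hQ]
  abel

lemma tE_norm {P Q : A} (h : ‖P - Q‖ ≤ 1 / 2) : ‖tE P Q‖ ≤ 1 / 4 := by
  refine (norm_mul_le _ _).trans ?_
  nlinarith [norm_nonneg (P - Q)]

lemma t_spec {P Q : A} (h : ‖P - Q‖ ≤ 1 / 2) {x : ℝ} (hx : x ∈ spectrum ℝ (tE P Q)) :
    |x| ≤ 1 / 4 := by
  have h1 := spectrum.norm_le_norm_mul_of_mem hx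
  rw [Real.norm_eq_abs] at h1
  have h2 := tE_norm h
  nlinarith [norm_nonneg (tE P Q), t_one_le (A := A), norm_nonneg (1 : A)]

lemma t_sqrt {x : ℝ} (hx : |x| ≤ 1 / 4) :
    0.84 ≤ (Real.sqrt (1 - x))⁻¹ ∧ (Real.sqrt (1 - x))⁻¹ ≤ 1.16 := by
  rw [abs_le] at hx
  have h1 : (0.863 : ℝ) ≤ Real.sqrt (1 - x) := by
    apply Real.le_sqrt_of_sq_le
    norm_num
    linarith [hx.2]
  have h2 : Real.sqrt (1 - x) ≤ 1.19 := by
    apply Real.sqrt_le_iff.2
    constructor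
    · norm_num
    · norm_num
      linarith [hx.1]
  constructor
  · rw [le_inv_comm₀ (by norm_num) (by linarith)]
    refine h2.trans (by norm_num)
  · rw [inv_le_comm₀ (by linarith) (by norm_num)]
    refine le_trans (by norm_num) h1

lemma t_cont {P Q : A} (h : ‖P - Q‖ ≤ 1 / 2) :
    ContinuousOn (fun x : ℝ => (Real.sqrt (1 - x))⁻¹) (spectrum ℝ (tE P Q)) := by
  refine ContinuousOn.inv₀ (by fun_prop) ?_
  intro x hx h0
  have h1 := t_sqrt (t_spec h hx)
  rw [h0] at h1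
  norm_num at h1

lemma tY_comm {P Q w : A} (hw : Commute w (tE P Q)) : Commute w (tY P Q) :=
  (Commute.cfc_real hw.symm _).symm

lemma tY_star (P Q : A) : star (tY P Q) = tY P Q :=
  (cfc_predicate (R := ℝ) (fun x : ℝ => (Real.sqrt (1 - x))⁻¹) (tE P Q) : IsSelfAdjoint _).star_eq

lemma tY_norm {P Q : A} (h : ‖P - Q‖ ≤ 1 / 2) : ‖tY P Q‖ ≤ 1.16 := by
  refine norm_cfc_le (by norm_num) fun x hx => ?_
  have h1 := t_sqrt (t_spec h hx)
  rw [Real.norm_eq_abs, abs_le]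
  constructor <;> linarith [h1.1, h1.2]

lemma tY_sub_norm {P Q : A} (hP : IsStarProjection P) (hQ : IsStarProjection Q)
    (h : ‖P - Q‖ ≤ 1 / 2) : ‖1 - tY P Q‖ ≤ 0.16 := by
  have hsa := tE_sa hP hQ
  have h1 : 1 - tY P Q = cfc (fun x : ℝ => 1 - (Real.sqrt (1 - x))⁻¹) (tE P Q) := by
    rw [cfc_sub (fun _ : ℝ => 1) _ (tE P Q) (by fun_prop) (t_cont h), cfc_const_one ℝ (tE P Q)]
    rfl
  rw [h1]
  refine norm_cfc_le (by norm_num) fun x hx => ?_
  have h1 := t_sqrt (t_spec h hx)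
  rw [Real.norm_eq_abs, abs_le]
  constructor <;> linarith [h1.1, h1.2]

lemma tY_sq {P Q : A} (hP : IsStarProjection P) (hQ : IsStarProjection Q)
    (h : ‖P - Q‖ ≤ 1 / 2) : tY P Q * tY P Q * (1 - tE P Q) = 1 := by
  have hsa := tE_sa hP hQ
  have hc := t_cont h
  have h1 : 1 - tE P Q = cfc (fun x : ℝ => 1 - x) (tE P Q) := by
    rw [cfc_sub (fun _ : ℝ => 1) _ (tE P Q) (by fun_prop) (by fun_prop),
      cfc_const_one ℝ (tE P Q), cfc_id' ℝ (tE P Q)]
  rw [h1]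
  unfold tY
  rw [← cfc_mul _ _ (tE P Q) hc hc, ← cfc_mul (fun x : ℝ => (Real.sqrt (1 - x))⁻¹ *
    (Real.sqrt (1 - x))⁻¹) (fun x : ℝ => 1 - x) (tE P Q) (hc.mul hc) (by fun_prop)]
  rw [← cfc_const_one ℝ (tE P Q)]
  apply cfc_congr
  intro x hx
  have h2 := t_spec h hx
  rw [abs_le] at h2
  have h3 : 0 < 1 - x := by linarith [h2.2]
  show (Real.sqrt (1 - x))⁻¹ * (Real.sqrt (1 - x))⁻¹ * (1 - x) = 1
  have h4 : Real.sqrt (1 - x) * Real.sqrt (1 - x) = 1 - x := Real.mul_self_sqrt h3.le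
  rw [← mul_inv, h4]
  exact inv_mul_cancel₀ h3.ne'

/-- the transport unitary -/
noncomputable def tU (Q P : A) : A := tS P Q * tY P Q

lemma tS_comm {P Q w : A} (h1 : Commute w P) (h2 : Commute w Q) : Commute w (tS P Q) :=
  (h2.mul_right h1).add_right
    (((Commute.one_right w).sub_right h2).mul_right ((Commute.one_right w).sub_right h1))

lemma tE_comm {P Q w : A} (h1 : Commute w P) (h2 : Commute w Q) : Commute w (tE P Q) :=
  (h1.sub_right h2).mul_right (h1.sub_right h2)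

lemma tU_mem {P Q : A} (hP : IsStarProjection P) (hQ : IsStarProjection Q)
    (h : ‖P - Q‖ ≤ 1 / 2) : tU Q P ∈ unitary A := by
  have hc1 := tE_comm_left hP.isIdempotentElem.eq hQ.isIdempotentElem.eq
  have hc2 := tE_comm_right hP.isIdempotentElem.eq hQ.isIdempotentElem.eq
  have hSE : Commute (tS P Q) (tE P Q) := (tS_comm hc1.symm hc2.symm).symm
  have hSY : tS P Q * tY P Q = tY P Q * tS P Q := tY_comm hSE
  have hYE : tY P Q * tE P Q = tE P Q * tY P Q := (tY_comm (Commute.refl (tE P Q))).symm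
  have hY1 : (1 - tE P Q) * tY P Q = tY P Q * (1 - tE P Q) := by
    rw [mul_sub, sub_mul, hYE, one_mul, mul_one]
  have hsq := tY_sq hP hQ h
  rw [Unitary.mem_iff]
  unfold tU
  rw [star_mul, tY_star]
  constructor
  · calc tY P Q * star (tS P Q) * (tS P Q * tY P Q)
        = tY P Q * ((star (tS P Q) * tS P Q) * tY P Q) := by simp only [mul_assoc]
      _ = 1 := by rw [tS_star_mul hP hQ, hY1, ← mul_assoc, hsq]
  · calc tS P Q * tY P Q * (tY P Q * star (tS P Q))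
        = tY P Q * tY P Q * (tS P Q * star (tS P Q)) := by
          rw [hSY]
          have h3 : tY P Q * tS P Q * (tY P Q * star (tS P Q)) =
              tY P Q * (tS P Q * tY P Q) * star (tS P Q) := by simp only [mul_assoc]
          rw [h3, hSY]
          simp only [mul_assoc]
      _ = 1 := by rw [tS_mul_star hP hQ, hsq]

lemma tU_intertwine {P Q : A} (hP : IsStarProjection P) (hQ : IsStarProjection Q) :
    tU Q P * P = Q * tU Q P := by
  have h1 := hP.isIdempotentElem.eq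
  have h2 := hQ.isIdempotentElem.eq
  have h3 : P * tY P Q = tY P Q * P := tY_comm (tE_comm_left h1 h2)
  unfold tU
  rw [mul_assoc, ← h3, ← mul_assoc, tS_mul h1, ← mul_assoc Q, mul_tS h2]

lemma tU_comm {P Q w : A} (h1 : Commute w P) (h2 : Commute w Q) : Commute w (tU Q P) :=
  (tS_comm h1 h2).mul_right (tY_comm (tE_comm h1 h2))

lemma tU_self {P : A} (hP : IsStarProjection P) : tU P P = 1 := by
  have h1 := hP.isIdempotentElem.eq
  have h2 : tS P P = 1 := by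
    unfold tS
    simp only [mul_sub, sub_mul, mul_one, one_mul, h1]
    abel
  have h3 : tE P P = 0 := by
    unfold tE
    rw [sub_self, mul_zero]
  unfold tU tY
  rw [h2, h3, cfc_apply_zero, one_mul]
  simp

lemma tE_lip {P Q P' Q' : A} (h : ‖P - Q‖ ≤ 1 / 2) (h' : ‖P' - Q'‖ ≤ 1 / 2) :
    ‖tE P Q - tE P' Q'‖ ≤ ‖P - P'‖ + ‖Q - Q'‖ := by
  set δ := (P - P') - (Q - Q') with hδ
  have h1 : tE P Q - tE P' Q' = (P - Q) * δ + δ * (P' - Q') := by
    unfold tE
    rw [hδ]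
    noncomm_ring
  have h2 : ‖δ‖ ≤ ‖P - P'‖ + ‖Q - Q'‖ := norm_sub_le _ _
  rw [h1]
  refine (norm_add_le _ _).trans ?_
  have h3 := norm_mul_le (P - Q) δ
  have h4 := norm_mul_le δ (P' - Q')
  have h5 : ‖P - Q‖ * ‖δ‖ ≤ 1 / 2 * ‖δ‖ := mul_le_mul_of_nonneg_right h (norm_nonneg _)
  have h6 : ‖δ‖ * ‖P' - Q'‖ ≤ ‖δ‖ * (1 / 2) := mul_le_mul_of_nonneg_left h' (norm_nonneg _)
  linarith

lemma tY_lip {P Q P' Q' : A} (hP : IsStarProjection P) (hQ : IsStarProjection Q)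
    (hP' : IsStarProjection P') (hQ' : IsStarProjection Q')
    (h : ‖P - Q‖ ≤ 1 / 2) (h' : ‖P' - Q'‖ ≤ 1 / 2) :
    ‖tY P Q - tY P' Q'‖ ≤ 1.1 * (‖P - P'‖ + ‖Q - Q'‖) := by
  set Y := tY P Q with hY
  set Y' := tY P' Q' with hY'
  set E := tE P Q with hE
  set E' := tE P' Q' with hE'
  set D := Y - Y' with hD
  have e1 : Y * Y * (1 - E) = 1 := tY_sq hP hQ h
  have e2 : Y' * Y' * (1 - E') = 1 := tY_sq hP' hQ' h'
  have c2 : E' * Y' = Y' * E' := tY_comm (Commute.refl E')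
  have e3 : (1 - E') * (Y' * Y') = 1 := by
    have : (1 - E') * (Y' * Y') = Y' * Y' * (1 - E') := by
      rw [sub_mul, mul_sub, one_mul, mul_one, ← mul_assoc, c2, mul_assoc, c2, ← mul_assoc]
    rw [this, e2]
  have e4 : Y * Y - Y' * Y' = (Y * Y) * (E - E') * (Y' * Y') := by
    have h1 : (Y * Y) * (E - E') * (Y' * Y') =
        (Y * Y) * ((1 - E') * (Y' * Y')) - (Y * Y * (1 - E)) * (Y' * Y') := by
      noncomm_ring
    rw [h1, e1, e3, mul_one, one_mul]
  have e5 : (2 : ℝ) • D = (1 - Y) * D + D * (1 - Y') + (Y * Y) * (E - E') * (Y' * Y') := by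
    rw [← e4, hD, two_smul]
    noncomm_ring
  have n1 : ‖1 - Y‖ ≤ 0.16 := tY_sub_norm hP hQ h
  have n2 : ‖1 - Y'‖ ≤ 0.16 := tY_sub_norm hP' hQ' h'
  have n3 : ‖Y‖ ≤ 1.16 := tY_norm h
  have n4 : ‖Y'‖ ≤ 1.16 := tY_norm h'
  have n5 : ‖E - E'‖ ≤ ‖P - P'‖ + ‖Q - Q'‖ := tE_lip h h'
  have n6 : ‖(Y * Y) * (E - E') * (Y' * Y')‖ ≤ 1.3456 * ‖E - E'‖ * 1.3456 := by
    have m1 : ‖Y * Y‖ ≤ 1.3456 := by
      refine (norm_mul_le _ _).trans ?_
      nlinarith [norm_nonneg Y]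
    have m2 : ‖Y' * Y'‖ ≤ 1.3456 := by
      refine (norm_mul_le _ _).trans ?_
      nlinarith [norm_nonneg Y']
    refine (norm_mul_le _ _).trans ?_
    have m3 := norm_mul_le (Y * Y) (E - E')
    have m4 : ‖Y * Y‖ * ‖E - E'‖ ≤ 1.3456 * ‖E - E'‖ :=
      mul_le_mul_of_nonneg_right m1 (norm_nonneg _)
    exact mul_le_mul (m3.trans m4) m2 (norm_nonneg _) (by positivity)
  have n7 : ‖(1 - Y) * D‖ ≤ 0.16 * ‖D‖ :=
    (norm_mul_le _ _).trans (mul_le_mul_of_nonneg_right n1 (norm_nonneg _))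
  have n8 : ‖D * (1 - Y')‖ ≤ ‖D‖ * 0.16 :=
    (norm_mul_le _ _).trans (mul_le_mul_of_nonneg_left n2 (norm_nonneg _))
  have n9 : ‖(2 : ℝ) • D‖ ≤ ‖(1 - Y) * D‖ + ‖D * (1 - Y')‖ +
      ‖(Y * Y) * (E - E') * (Y' * Y')‖ := by
    rw [e5]
    exact (norm_add_le _ _).trans (add_le_add (norm_add_le _ _) le_rfl)
  rw [norm_smul, Real.norm_of_nonneg (by norm_num)] at n9
  have n10 : 0 ≤ ‖E - E'‖ := norm_nonneg _
  have n11 : 0 ≤ ‖D‖ := norm_nonneg _
  norm_num at n6 n7 n8 ⊢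
  linarith

lemma tS_lip {P Q P' Q' : A} (hP : IsStarProjection P) (hQ' : IsStarProjection Q') :
    ‖tS P Q - tS P' Q'‖ ≤ 3 * (‖P - P'‖ + ‖Q - Q'‖) := by
  have h1 : tS P Q - tS P' Q' = ((Q - Q') * P + Q' * (P - P')) + ((Q - Q') * P + Q' * (P - P')) -
      ((P - P') + (Q - Q')) := by
    unfold tS
    noncomm_ring
  have h2 : ‖(Q - Q') * P + Q' * (P - P')‖ ≤ ‖P - P'‖ + ‖Q - Q'‖ := by
    refine (norm_add_le _ _).trans ?_
    have a1 := norm_mul_le (Q - Q') P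
    have a2 := norm_mul_le Q' (P - P')
    have a3 : ‖Q - Q'‖ * ‖P‖ ≤ ‖Q - Q'‖ * 1 :=
      mul_le_mul_of_nonneg_left (t_proj_le hP) (norm_nonneg _)
    have a4 : ‖Q'‖ * ‖P - P'‖ ≤ 1 * ‖P - P'‖ :=
      mul_le_mul_of_nonneg_right (t_proj_le hQ') (norm_nonneg _)
    linarith
  rw [h1]
  have h3 := norm_sub_le (((Q - Q') * P + Q' * (P - P')) + ((Q - Q') * P + Q' * (P - P')))
    ((P - P') + (Q - Q'))
  have h4 := norm_add_le ((Q - Q') * P + Q' * (P - P')) ((Q - Q') * P + Q' * (P - P'))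
  have h5 := norm_add_le (P - P') (Q - Q')
  linarith

lemma tS_norm {P Q : A} (hP : IsStarProjection P) (hQ : IsStarProjection Q) :
    ‖tS P Q‖ ≤ 2 := by
  unfold tS
  have h1 := t_proj_le hP
  have h2 := t_proj_le hQ
  have h3 := t_proj_le hP.one_sub
  have h4 := t_proj_le hQ.one_sub
  have h5 := norm_add_le (Q * P) ((1 - Q) * (1 - P))
  have h6 := norm_mul_le Q P
  have h7 := norm_mul_le (1 - Q) (1 - P)
  have h8 : ‖Q‖ * ‖P‖ ≤ 1 := by nlinarith [norm_nonneg P, norm_nonneg Q]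
  have h9 : ‖1 - Q‖ * ‖1 - P‖ ≤ 1 := by nlinarith [norm_nonneg (1 - P), norm_nonneg (1 - Q)]
  linarith

lemma tU_lip {P Q P' Q' : A} (hP : IsStarProjection P) (hQ : IsStarProjection Q)
    (hP' : IsStarProjection P') (hQ' : IsStarProjection Q')
    (h : ‖P - Q‖ ≤ 1 / 2) (h' : ‖P' - Q'‖ ≤ 1 / 2) :
    ‖tU Q P - tU Q' P'‖ ≤ 8 * (‖P - P'‖ + ‖Q - Q'‖) := by
  have h1 : tU Q P - tU Q' P' = (tS P Q - tS P' Q') * tY P Q +
      tS P' Q' * (tY P Q - tY P' Q') := by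
    unfold tU
    noncomm_ring
  rw [h1]
  have h2 := norm_add_le ((tS P Q - tS P' Q') * tY P Q) (tS P' Q' * (tY P Q - tY P' Q'))
  have h3 := norm_mul_le (tS P Q - tS P' Q') (tY P Q)
  have h4 := norm_mul_le (tS P' Q') (tY P Q - tY P' Q')
  have h5 := tS_lip (Q := Q) (P' := P') hP hQ'
  have h6 := tY_lip hP hQ hP' hQ' h h'
  have h7 := tS_norm hP' hQ'
  have h8 := tY_norm h
  have h9 : ‖tS P Q - tS P' Q'‖ * ‖tY P Q‖ ≤ (3 * (‖P - P'‖ + ‖Q - Q'‖)) * 1.16 :=
    mul_le_mul h5 h8 (norm_nonneg _) (by positivity)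
  have h10 : ‖tS P' Q'‖ * ‖tY P Q - tY P' Q'‖ ≤ 2 * (1.1 * (‖P - P'‖ + ‖Q - Q'‖)) :=
    mul_le_mul h7 h6 (norm_nonneg _) (by norm_num)
  have h11 : 0 ≤ ‖P - P'‖ + ‖Q - Q'‖ := by positivity
  norm_num at h9 h10
  linarith

end transport

/-- Canonical unitary u Q P with (u Q P) P = Q (u Q P), Lipschitz in (P, Q). -/
theorem exists_transport (A : Type) [CStarAlgebra A] : ∃ u : A → A → A,
    (∀ P Q : A, IsStarProjection P → IsStarProjection Q → ‖P - Q‖ ≤ 1 / 2 →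
      u Q P ∈ unitary A ∧ u Q P * P = Q * u Q P ∧
      ∀ w, Commute w P → Commute w Q → Commute w (u Q P)) ∧
    (∀ P : A, IsStarProjection P → u P P = 1) ∧
    (∀ P Q P' Q' : A, IsStarProjection P → IsStarProjection Q → IsStarProjection P' →
      IsStarProjection Q' → ‖P - Q‖ ≤ 1 / 2 → ‖P' - Q'‖ ≤ 1 / 2 →
      ‖u Q P - u Q' P'‖ ≤ 8 * (‖P - P'‖ + ‖Q - Q'‖)) := by
  refine ⟨tU, ?_, ?_, ?_⟩
  · intro P Q hP hQ h
    exact ⟨tU_mem hP hQ h, tU_intertwine hP hQ, fun w h1 h2 => tU_comm h1 h2⟩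
  · intro P hP
    exact tU_self hP
  · intro P Q P' Q' hP hQ hP' hQ' h h'
    exact tU_lip hP hQ hP' hQ' h h'

/-- the transport -/
noncomputable def tu (A : Type) [CStarAlgebra A] : A → A → A := Classical.choose (exists_transport A)

/-- product of the transports along a chain P 0, P 1, …, P n. -/
noncomputable def chn {A : Type} [CStarAlgebra A] (P : ℕ → A) : ℕ → A
  | 0 => 1
  | n + 1 => tu A (P (n + 1)) (P n) * chn P n

section chain

variable {A : Type} [CStarAlgebra A] {P P' : ℕ → A} {n : ℕ}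

/-- main properties of a chain: by induction on n. -/
lemma chn_spec (hP : ∀ i, i ≤ n → IsStarProjection (P i))
    (hn : ∀ i, i < n → ‖P i - P (i + 1)‖ ≤ 1 / 2) :
    chn P n ∈ unitary A ∧ chn P n * P 0 = P n * chn P n ∧
    ∀ w, (∀ i, i ≤ n → Commute w (P i)) → Commute w (chn P n) := by
  induction n with
  | zero => exact ⟨one_mem _, by simp [chn], fun w _ => Commute.one_right w⟩
  | succ n ih =>
    obtain ⟨h1, h2, h3⟩ := ih (fun i hi => hP i (by omega)) (fun i hi => hn i (by omega))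
    obtain ⟨g1, g2, g3⟩ := (Classical.choose_spec (exists_transport A)).1 (P n) (P (n + 1))
      (hP n (by omega)) (hP (n + 1) le_rfl) (hn n (by omega))
    refine ⟨mul_mem g1 h1, ?_, ?_⟩
    · show tu A (P (n + 1)) (P n) * chn P n * P 0 =
        P (n + 1) * (tu A (P (n + 1)) (P n) * chn P n)
      rw [mul_assoc, h2, ← mul_assoc, ← mul_assoc]
      congr 1
    · intro w hw
      exact (g3 w (hw n (by omega)) (hw (n + 1) le_rfl)).mul_right
        (h3 w fun i hi => hw i (by omega))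

/-- a chain which is constant from m on: the chain products are constant from m on. -/
lemma chn_const {m : ℕ} (hP : ∀ i, IsStarProjection (P i)) (hm : ∀ i, m ≤ i → P i = P m) (hmn : m ≤ n) :
    chn P n = chn P m := by
  induction n, hmn using Nat.le_induction with
  | base => rfl
  | succ k hk ih =>
    show tu A (P (k + 1)) (P k) * chn P k = chn P m
    have h1 : tu A (P m) (P m) = 1 := (Classical.choose_spec (exists_transport A)).2.1 (P m) (hP m)
    rw [ih, hm (k + 1) (by omega), hm k hk, h1, one_mul]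

lemma chn_congr (h : ∀ i, i ≤ n → P i = P' i) : chn P n = chn P' n := by
  induction n with
  | zero => rfl
  | succ n ih =>
    show tu A (P (n + 1)) (P n) * chn P n = tu A (P' (n + 1)) (P' n) * chn P' n
    rw [ih fun i hi => h i (by omega), h (n + 1) le_rfl, h n (by omega)]

/-- telescoping: unitary factors, each factor changes by at most 8(‖P i - P' i‖ + ‖P (i+1) - P' (i+1)‖). -/
lemma chn_lip (hP : ∀ i, i ≤ n → IsStarProjection (P i)) (hP' : ∀ i, i ≤ n → IsStarProjection (P' i))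
    (hn : ∀ i, i < n → ‖P i - P (i + 1)‖ ≤ 1 / 2) (hn' : ∀ i, i < n → ‖P' i - P' (i + 1)‖ ≤ 1 / 2) :
    ‖chn P n - chn P' n‖ ≤ 16 * ∑ i ∈ Finset.range (n + 1), ‖P i - P' i‖ := by
  have key : ‖chn P n - chn P' n‖ ≤
      8 * ∑ i ∈ Finset.range n, (‖P i - P' i‖ + ‖P (i + 1) - P' (i + 1)‖) := by
    induction n with
    | zero => simp [chn]
    | succ n ih =>
      have ih' := ih (fun i hi => hP i (by omega)) (fun i hi => hP' i (by omega))
        (fun i hi => hn i (by omega)) (fun i hi => hn' i (by omega))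
      have hspec := Classical.choose_spec (exists_transport A)
      have c1 := (chn_spec (n := n) (P := P) (fun i hi => hP i (by omega))
        (fun i hi => hn i (by omega))).1
      have c2 := (hspec.1 (P' n) (P' (n + 1)) (hP' n (by omega)) (hP' (n + 1) le_rfl)
        (hn' n (by omega))).1
      have c3 := hspec.2.2 (P n) (P (n + 1)) (P' n) (P' (n + 1)) (hP n (by omega))
        (hP (n + 1) le_rfl) (hP' n (by omega)) (hP' (n + 1) le_rfl) (hn n (by omega))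
        (hn' n (by omega))
      set T := Classical.choose (exists_transport A) (P (n + 1)) (P n) with hT
      set T' := Classical.choose (exists_transport A) (P' (n + 1)) (P' n) with hT'
      have e1 : chn P (n + 1) - chn P' (n + 1) = (T - T') * chn P n +
          T' * (chn P n - chn P' n) := by
        show T * chn P n - T' * chn P' n = _
        noncomm_ring
      rw [e1, Finset.sum_range_succ]
      have n1 := norm_add_le ((T - T') * chn P n) (T' * (chn P n - chn P' n))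
      have n2 := norm_mul_le (T - T') (chn P n)
      have n3 := norm_mul_le T' (chn P n - chn P' n)
      have n4 : ‖T - T'‖ * ‖chn P n‖ ≤ ‖T - T'‖ * 1 :=
        mul_le_mul_of_nonneg_left (t_unitary_le c1) (norm_nonneg _)
      have n5 : ‖T'‖ * ‖chn P n - chn P' n‖ ≤ 1 * ‖chn P n - chn P' n‖ :=
        mul_le_mul_of_nonneg_right (t_unitary_le c2) (norm_nonneg _)
      linarith
  refine key.trans ?_
  rw [Finset.sum_add_distrib]
  have h1 : ∑ i ∈ Finset.range n, ‖P i - P' i‖ ≤ ∑ i ∈ Finset.range (n + 1), ‖P i - P' i‖ :=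
    Finset.sum_le_sum_of_subset_of_nonneg (Finset.range_mono (by omega))
      fun _ _ _ => norm_nonneg _
  have h2 : ∑ i ∈ Finset.range n, ‖P (i + 1) - P' (i + 1)‖ ≤
      ∑ i ∈ Finset.range (n + 1), ‖P i - P' i‖ := by
    rw [Finset.sum_range_succ']
    linarith [norm_nonneg (P 0 - P' 0)]
  linarith

end chain

end Pool.HQ
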