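import Pool.Agent.HQ.E05
import Pool.Agent.HQ.E02

/-!
MP_7936f4_al, THEOREM E, module E06: transport over star-shaped sets.

tlem: let N be a natural number with L B / N ≤ 1/2 (N ≥ 1), x_i = (1 - i/N) p₀ + (i/N) x (i ≤ N), all in D by
star-shapedness, d1 x_i x_{i+1} = d1 p₀ x / N ≤ B/N (seg_d1'), so ‖P x_i - P x_{i+1}‖ ≤ 1/2.  Put
U x = chn (fun i => P x_i) N.  chn_spec gives unitarity, U x P p₀ = P x U x and the commutation;
chn_lip and d1 x_i y_i = (i/N) d1 x y (seg_d1) give ‖U x - U y‖ ≤ 16 L (N+1) d1 x y.  U p₀ = 1 because all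
factors are tu P P = 1 (x_i = p₀).

tlemM: the same for matrices, with entrywise statements.  Use the C*-algebra Matrix Y Y ℂ with the L2
operator norm (open scoped Matrix.Norms.L2Operator; instances Matrix.instCStarAlgebra ...).
Entrywise bounded Lipschitz is equivalent to bounded Lipschitz in the operator norm because
|A i j| ≤ ‖A‖ ≤ Σ |A i j| (second inequality: A = Σ A i j • single i j 1, each of norm ≤ 1).
The invariance under a permutation σ (P x (σ i) (σ j) = P x i j) is the commutation with the permutation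
matrix pmx σ.  Y may be empty.
-/

namespace Pool.HQ

open scoped Matrix

lemma e06_seg_zero {V : Type} (p x : V →₀ ℝ) : (1 - (0 : ℝ)) • p + (0 : ℝ) • x = p := by
  rw [sub_zero, one_smul, zero_smul, add_zero]

lemma e06_seg_one {V : Type} (p x : V →₀ ℝ) : (1 - (1 : ℝ)) • p + (1 : ℝ) • x = x := by
  rw [sub_self, one_smul, zero_smul, zero_add]

lemma e06_seg_self {V : Type} (p : V →₀ ℝ) (s : ℝ) : (1 - s) • p + s • p = p := by
  rw [← add_smul, sub_add_cancel, one_smul]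

theorem tlem {V A : Type} [CStarAlgebra A] (D : Set (V →₀ ℝ)) (p₀ : V →₀ ℝ) (hp₀ : p₀ ∈ D) (B : ℝ)
    (hB : ∀ x ∈ D, d1 p₀ x ≤ B)
    (hstar : ∀ x ∈ D, ∀ s ∈ Set.Icc (0 : ℝ) 1, (1 - s) • p₀ + s • x ∈ D)
    (P : (V →₀ ℝ) → A) (L : ℝ) (hP : ∀ x ∈ D, IsStarProjection (P x))
    (hL : ∀ x ∈ D, ∀ y ∈ D, ‖P x - P y‖ ≤ L * d1 x y) :
    ∃ U : (V →₀ ℝ) → A, U p₀ = 1 ∧ (∀ x ∈ D, U x ∈ unitary A ∧ U x * P p₀ = P x * U x) ∧
      (∃ C : ℝ, 0 ≤ C ∧ ∀ x ∈ D, ∀ y ∈ D, ‖U x - U y‖ ≤ C * d1 x y) ∧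
      ∀ w, (∀ x ∈ D, Commute w (P x)) → ∀ x ∈ D, Commute w (U x) := by
  have hB0 : 0 ≤ B := by
    have h := hB p₀ hp₀
    rw [d1_self] at h
    exact h
  obtain ⟨N, hN⟩ := exists_nat_ge (max 1 (2 * (|L| * B)))
  have hN1 : (1 : ℝ) ≤ N := (le_max_left _ _).trans hN
  have hN2 : 2 * (|L| * B) ≤ N := (le_max_right _ _).trans hN
  have hN0 : (0 : ℝ) < N := by linarith
  have hmem : ∀ x ∈ D, ∀ i : ℕ, i ≤ N →
      (1 - (i : ℝ) / N) • p₀ + ((i : ℝ) / N) • x ∈ D := by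
    intro x hx i hi
    refine hstar x hx _ ⟨by positivity, ?_⟩
    rw [div_le_one hN0]
    exact_mod_cast hi
  have hstep : ∀ x ∈ D, ∀ i : ℕ, i < N →
      ‖P ((1 - (i : ℝ) / N) • p₀ + ((i : ℝ) / N) • x) -
        P ((1 - ((i + 1 : ℕ) : ℝ) / N) • p₀ + (((i + 1 : ℕ) : ℝ) / N) • x)‖ ≤ 1 / 2 := by
    intro x hx i hi
    refine (hL _ (hmem x hx i hi.le) _ (hmem x hx (i + 1) hi)).trans ?_
    rw [seg_d1']
    have h1 : |(i : ℝ) / N - ((i + 1 : ℕ) : ℝ) / N| = 1 / N := by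
      rw [← sub_div]
      push_cast
      rw [show (i : ℝ) - (i + 1) = -1 by ring, abs_div, abs_neg, abs_one, abs_of_pos hN0]
    rw [h1]
    have h2 : 1 / (N : ℝ) * d1 p₀ x ≤ 1 / (N : ℝ) * B :=
      mul_le_mul_of_nonneg_left (hB x hx) (by positivity)
    have h3 : 0 ≤ 1 / (N : ℝ) * d1 p₀ x := mul_nonneg (by positivity) (d1_nonneg _ _)
    calc L * (1 / (N : ℝ) * d1 p₀ x) ≤ |L| * (1 / (N : ℝ) * d1 p₀ x) :=
          mul_le_mul_of_nonneg_right (le_abs_self L) h3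
      _ ≤ |L| * (1 / (N : ℝ) * B) := mul_le_mul_of_nonneg_left h2 (abs_nonneg L)
      _ = |L| * B / N := by ring
      _ ≤ 1 / 2 := by
          rw [div_le_iff₀ hN0]
          linarith
  have hz : ∀ x : V →₀ ℝ, (1 - ((0 : ℕ) : ℝ) / N) • p₀ + (((0 : ℕ) : ℝ) / N) • x = p₀ := by
    intro x
    rw [Nat.cast_zero, zero_div]
    exact e06_seg_zero p₀ x
  have ho : ∀ x : V →₀ ℝ, (1 - ((N : ℕ) : ℝ) / N) • p₀ + (((N : ℕ) : ℝ) / N) • x = x := by
    intro x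
    rw [div_self hN0.ne']
    exact e06_seg_one p₀ x
  have hspec := fun x (hx : x ∈ D) => chn_spec
    (P := fun i : ℕ => P ((1 - (i : ℝ) / N) • p₀ + ((i : ℝ) / N) • x)) (n := N)
    (fun i hi => hP _ (hmem x hx i hi)) (fun i hi => hstep x hx i hi)
  refine ⟨fun x => chn (fun i : ℕ => P ((1 - (i : ℝ) / N) • p₀ + ((i : ℝ) / N) • x)) N,
    ?_, ?_, ⟨16 * ((N + 1) * |L|), by positivity, ?_⟩, ?_⟩
  · show chn (fun i : ℕ => P ((1 - (i : ℝ) / N) • p₀ + ((i : ℝ) / N) • p₀)) N = 1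
    have h1 : (fun i : ℕ => P ((1 - (i : ℝ) / N) • p₀ + ((i : ℝ) / N) • p₀)) =
        fun _ : ℕ => P p₀ := by
      funext i
      rw [e06_seg_self]
    rw [h1, chn_const (m := 0) (fun _ => hP p₀ hp₀) (fun _ _ => rfl) (Nat.zero_le N)]
    rfl
  · intro x hx
    obtain ⟨h1, h2, -⟩ := hspec x hx
    refine ⟨h1, ?_⟩
    have h3 : P ((1 - ((0 : ℕ) : ℝ) / N) • p₀ + (((0 : ℕ) : ℝ) / N) • x) = P p₀ := by rw [hz]
    have h4 : P ((1 - ((N : ℕ) : ℝ) / N) • p₀ + (((N : ℕ) : ℝ) / N) • x) = P x := by rw [ho]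
    have h2' := h2
    simp only [h3, h4] at h2'
    exact h2'
  · intro x hx y hy
    have h1 := chn_lip
      (P := fun i : ℕ => P ((1 - (i : ℝ) / N) • p₀ + ((i : ℝ) / N) • x))
      (P' := fun i : ℕ => P ((1 - (i : ℝ) / N) • p₀ + ((i : ℝ) / N) • y)) (n := N)
      (fun i hi => hP _ (hmem x hx i hi)) (fun i hi => hP _ (hmem y hy i hi))
      (fun i hi => hstep x hx i hi) (fun i hi => hstep y hy i hi)
    refine h1.trans ?_
    have h2 : ∀ i ∈ Finset.range (N + 1),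
        ‖P ((1 - (i : ℝ) / N) • p₀ + ((i : ℝ) / N) • x) -
          P ((1 - (i : ℝ) / N) • p₀ + ((i : ℝ) / N) • y)‖ ≤ |L| * d1 x y := by
      intro i hi
      have hi' : i ≤ N := Nat.lt_succ_iff.1 (Finset.mem_range.1 hi)
      refine (hL _ (hmem x hx i hi') _ (hmem y hy i hi')).trans ?_
      rw [seg_d1]
      have h3 : |(i : ℝ) / N| ≤ 1 := by
        rw [abs_of_nonneg (by positivity), div_le_one hN0]
        exact_mod_cast hi'
      have h4 : |(i : ℝ) / N| * d1 x y ≤ 1 * d1 x y :=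
        mul_le_mul_of_nonneg_right h3 (d1_nonneg _ _)
      have h5 : 0 ≤ |(i : ℝ) / N| * d1 x y := mul_nonneg (abs_nonneg _) (d1_nonneg _ _)
      calc L * (|(i : ℝ) / N| * d1 x y) ≤ |L| * (|(i : ℝ) / N| * d1 x y) :=
            mul_le_mul_of_nonneg_right (le_abs_self L) h5
        _ ≤ |L| * (1 * d1 x y) := mul_le_mul_of_nonneg_left h4 (abs_nonneg L)
        _ = |L| * d1 x y := by rw [one_mul]
    have h3 := Finset.sum_le_sum h2
    rw [Finset.sum_const, Finset.card_range, nsmul_eq_mul] at h3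
    push_cast at h3
    calc _ ≤ 16 * (((N : ℝ) + 1) * (|L| * d1 x y)) :=
          mul_le_mul_of_nonneg_left h3 (by norm_num)
      _ = 16 * (((N : ℝ) + 1) * |L|) * d1 x y := by ring
  · intro w hw x hx
    exact (hspec x hx).2.2 w fun i hi => hw _ (hmem x hx i hi)

section matrixpart

open scoped Matrix.Norms.L2Operator

lemma e06_entry_le {Y : Type} [Fintype Y] [DecidableEq Y] (A : Matrix Y Y ℂ) (i j : Y) :
    ‖A i j‖ ≤ ‖A‖ := by
  have h1 := Matrix.l2_opNorm_mulVec A (EuclideanSpace.single j (1 : ℂ))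
  rw [PiLp.norm_single, norm_one, mul_one] at h1
  refine le_trans ?_ h1
  have h2 := PiLp.norm_apply_le (p := 2) (WithLp.toLp 2
    (A *ᵥ (EuclideanSpace.single j (1 : ℂ)).ofLp)) i
  refine le_trans (le_of_eq ?_) h2
  congr 1
  show A i j = (A *ᵥ (EuclideanSpace.single j (1 : ℂ)).ofLp) i
  rw [PiLp.ofLp_single, Matrix.mulVec_single_one]
  rfl

lemma e06_single_le {Y : Type} [Fintype Y] [DecidableEq Y] (i j : Y) :
    ‖(Matrix.single i j (1 : ℂ))‖ ≤ 1 := by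
  have h1 := Matrix.l2_opNorm_conjTranspose_mul_self (Matrix.single i j (1 : ℂ))
  have h2 : (Matrix.single i j (1 : ℂ))ᴴ * Matrix.single i j (1 : ℂ) =
      Matrix.diagonal (Pi.single j (1 : ℂ)) := by
    rw [Matrix.conjTranspose_single, star_one, Matrix.single_mul_single_same, mul_one]
    exact (Matrix.diagonal_single j (1 : ℂ)).symm
  rw [h2, Matrix.l2_opNorm_diagonal] at h1
  have h3 : ‖(Pi.single j (1 : ℂ) : Y → ℂ)‖ ≤ 1 := by
    rw [pi_norm_le_iff_of_nonneg zero_le_one]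
    intro k
    by_cases hk : k = j
    · subst hk
      simp
    · rw [Pi.single_eq_of_ne hk, norm_zero]
      exact zero_le_one
  rw [h1] at h3
  nlinarith [norm_nonneg (Matrix.single i j (1 : ℂ))]

lemma e06_norm_le {Y : Type} [Fintype Y] [DecidableEq Y] (A : Matrix Y Y ℂ) :
    ‖A‖ ≤ ∑ i, ∑ j, ‖A i j‖ := by
  conv_lhs => rw [Matrix.matrix_eq_sum_single A]
  refine (norm_sum_le _ _).trans (Finset.sum_le_sum fun i _ => (norm_sum_le _ _).trans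
    (Finset.sum_le_sum fun j _ => ?_))
  have h1 : Matrix.single i j (A i j) = (A i j) • Matrix.single i j (1 : ℂ) := by
    rw [Matrix.smul_single, smul_eq_mul, mul_one]
  rw [h1]
  refine (norm_smul_le _ _).trans ?_
  have h2 := mul_le_mul_of_nonneg_left (e06_single_le i j) (norm_nonneg (A i j))
  rwa [mul_one] at h2

lemma e06_pmx_mul {Y : Type} [Fintype Y] [DecidableEq Y] (σ : Equiv.Perm Y) (A : Matrix Y Y ℂ)
    (i j : Y) : (pmx σ * A) (σ i) j = A i j := by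
  rw [Matrix.mul_apply, Finset.sum_eq_single i]
  · show (if σ i = σ i then (1 : ℂ) else 0) * A i j = A i j
    rw [if_pos rfl, one_mul]
  · intro k _ hk
    show (if σ i = σ k then (1 : ℂ) else 0) * A k j = 0
    rw [if_neg (fun h => hk (σ.injective h).symm), zero_mul]
  · intro h
    exact absurd (Finset.mem_univ i) h

lemma e06_mul_pmx {Y : Type} [Fintype Y] [DecidableEq Y] (σ : Equiv.Perm Y) (A : Matrix Y Y ℂ)
    (i j : Y) : (A * pmx σ) i j = A i (σ j) := by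
  rw [Matrix.mul_apply, Finset.sum_eq_single (σ j)]
  · show A i (σ j) * (if σ j = σ j then (1 : ℂ) else 0) = A i (σ j)
    rw [if_pos rfl, mul_one]
  · intro k _ hk
    show A i k * (if k = σ j then (1 : ℂ) else 0) = 0
    rw [if_neg hk, mul_zero]
  · intro h
    exact absurd (Finset.mem_univ (σ j)) h

lemma e06_comm_iff {Y : Type} [Fintype Y] [DecidableEq Y] (σ : Equiv.Perm Y) (A : Matrix Y Y ℂ) :
    Commute (pmx σ) A ↔ ∀ i j, A (σ i) (σ j) = A i j := by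
  constructor
  · intro h i j
    have h1 : (pmx σ * A) (σ i) j = (A * pmx σ) (σ i) j := by rw [h.eq]
    rw [e06_pmx_mul, e06_mul_pmx] at h1
    exact h1.symm
  · intro h
    show pmx σ * A = A * pmx σ
    ext i j
    obtain ⟨i', rfl⟩ := σ.surjective i
    rw [e06_pmx_mul, e06_mul_pmx, h]

theorem e06_tlemM {V Y : Type} [Fintype Y] [DecidableEq Y] (D : Set (V →₀ ℝ)) (p₀ : V →₀ ℝ)
    (hp₀ : p₀ ∈ D) (B : ℝ) (hB : ∀ x ∈ D, d1 p₀ x ≤ B)
    (hstar : ∀ x ∈ D, ∀ s ∈ Set.Icc (0 : ℝ) 1, (1 - s) • p₀ + s • x ∈ D)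
    (P : (V →₀ ℝ) → Matrix Y Y ℂ) (hP : ∀ x ∈ D, (P x)ᴴ = P x ∧ P x * P x = P x)
    (hL : BLM d1 D P) :
    ∃ U : (V →₀ ℝ) → Matrix Y Y ℂ, U p₀ = 1 ∧
      (∀ x ∈ D, (U x)ᴴ * U x = 1 ∧ U x * (U x)ᴴ = 1 ∧ U x * P p₀ = P x * U x) ∧ BLM d1 D U ∧
      ∀ σ : Equiv.Perm Y, (∀ x ∈ D, ∀ i j, P x (σ i) (σ j) = P x i j) →
        ∀ x ∈ D, ∀ i j, U x (σ i) (σ j) = U x i j := by
  choose C hC0 _ hC using hL
  have hlip : ∀ x ∈ D, ∀ y ∈ D, ‖P x - P y‖ ≤ (∑ i, ∑ j, C i j) * d1 x y := by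
    intro x hx y hy
    refine (e06_norm_le (P x - P y)).trans ?_
    rw [Finset.sum_mul]
    refine Finset.sum_le_sum fun i _ => ?_
    rw [Finset.sum_mul]
    exact Finset.sum_le_sum fun j _ => hC i j x hx y hy
  obtain ⟨U, hU0, hU1, ⟨K, hK0, hK⟩, hU2⟩ := tlem (A := Matrix Y Y ℂ) D p₀ hp₀ B hB hstar P
    (∑ i, ∑ j, C i j) (fun x hx => ⟨(hP x hx).2, (hP x hx).1⟩) hlip
  refine ⟨U, hU0, fun x hx => ?_, fun i j => ?_, fun σ hσ x hx => ?_⟩
  · obtain ⟨h1, h2⟩ := hU1 x hx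
    exact ⟨(Unitary.mem_iff.1 h1).1, (Unitary.mem_iff.1 h1).2, h2⟩
  · refine ⟨max K 1, le_max_of_le_left hK0, fun x hx => ?_, fun x hx y hy => ?_⟩
    · refine (e06_entry_le (U x) i j).trans ?_
      exact (t_unitary_le (hU1 x hx).1).trans (le_max_right _ _)
    · have h1 := e06_entry_le (U x - U y) i j
      refine h1.trans ((hK x hx y hy).trans ?_)
      exact mul_le_mul_of_nonneg_right (le_max_left _ _) (d1_nonneg _ _)
  · refine (e06_comm_iff σ (U x)).1 ?_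
    exact hU2 (pmx σ) (fun y hy => (e06_comm_iff σ (P y)).2 (hσ y hy)) x hx

end matrixpart

theorem tlemM {V Y : Type} [Fintype Y] [DecidableEq Y] (D : Set (V →₀ ℝ)) (p₀ : V →₀ ℝ)
    (hp₀ : p₀ ∈ D) (B : ℝ) (hB : ∀ x ∈ D, d1 p₀ x ≤ B)
    (hstar : ∀ x ∈ D, ∀ s ∈ Set.Icc (0 : ℝ) 1, (1 - s) • p₀ + s • x ∈ D)
    (P : (V →₀ ℝ) → Matrix Y Y ℂ) (hP : ∀ x ∈ D, (P x)ᴴ = P x ∧ P x * P x = P x)
    (hL : BLM d1 D P) :
    ∃ U : (V →₀ ℝ) → Matrix Y Y ℂ, U p₀ = 1 ∧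
      (∀ x ∈ D, (U x)ᴴ * U x = 1 ∧ U x * (U x)ᴴ = 1 ∧ U x * P p₀ = P x * U x) ∧ BLM d1 D U ∧
      ∀ σ : Equiv.Perm Y, (∀ x ∈ D, ∀ i j, P x (σ i) (σ j) = P x i j) →
        ∀ x ∈ D, ∀ i j, U x (σ i) (σ j) = U x i j := by
  exact e06_tlemM D p₀ hp₀ B hB hstar P hP hL

end Pool.HQ
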