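import Pool.Agent.HQ.E00

/-!
MP_7936f4_al, THEOREM E, module E07: the commutant of a set of matrices has a connected unitary group.

Proof.  The spectrum of C is finite and contained in the unit circle; choose ζ, |ζ| = 1, such that -ζ is not
in the spectrum of C (the circle is infinite).  Then C' = ζ⁻¹ C is unitary without eigenvalue -1, so
1 + C' is invertible and B = i (1 - C')(1 + C')⁻¹ is self-adjoint; for real s put
K s = (1 + i s B)(1 - i s B)⁻¹  or the inverse, chosen so that K 0 = 1, K 1 = C' (check: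
C' = (1 - (-i)B)...: from B = i (1-C')/(1+C') one gets C' = (1 + iB)/(1 - iB)).  1 - i s B is invertible
because B is self-adjoint: (1 - isB)ᴴ (1 - isB) = 1 + s² B² ≥ 1, the inverse has norm ≤ 1, and
(1-isB)⁻¹ - (1-is'B)⁻¹ = (1-isB)⁻¹ i(s-s')B (1-is'B)⁻¹ is Lipschitz in s.  Finally
c s = exp(i s arg ζ) K s.  Everything is a rational function of C, so it commutes with every w commuting
with C.  (Alternatively use Unitary.argSelfAdjoint and the exponential in the C*-algebra of matrices: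
C' = exp(i x), c s = exp(i s θ) exp(i s x).)
Y may be empty.
-/

namespace Pool.HQ

open scoped Matrix

theorem E07_commute_inv {Y : Type} [Fintype Y] [DecidableEq Y] (w M : Matrix Y Y ℂ)
    (hM : IsUnit M.det) (h : Commute w M) : Commute w M⁻¹ := by
  have h1 : M⁻¹ * M = 1 := Matrix.nonsing_inv_mul M hM
  have h2 : M * M⁻¹ = 1 := Matrix.mul_nonsing_inv M hM
  have h3 : w * M = M * w := h
  show w * M⁻¹ = M⁻¹ * w
  calc w * M⁻¹ = (M⁻¹ * M) * w * M⁻¹ := by rw [h1, one_mul]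
    _ = M⁻¹ * (M * w) * M⁻¹ := by simp only [mul_assoc]
    _ = M⁻¹ * (w * M) * M⁻¹ := by rw [h3]
    _ = M⁻¹ * w * (M * M⁻¹) := by simp only [mul_assoc]
    _ = M⁻¹ * w := by rw [h2, mul_one]

/-- the shift: a point of the circle which avoids the spectrum. -/
theorem E07_shift {Y : Type} [Fintype Y] [DecidableEq Y] (C : Matrix Y Y ℂ) :
    ∃ φ : ℝ, IsUnit (((Complex.exp (φ * Complex.I)) • (1 : Matrix Y Y ℂ) + C).det) := by
  classical
  by_contra hcon
  push Not at hcon
  have hdet : ∀ z : ℂ, (z • (1 : Matrix Y Y ℂ) + C).det = ((-C).charpoly).eval z := by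
    intro z
    rw [Matrix.eval_charpoly]
    congr 1
    rw [sub_neg_eq_add]
    congr 1
    ext i j
    by_cases hij : i = j
    · subst hij; simp
    · simp [hij]
  have hfin : ({z : ℂ | ((-C).charpoly).eval z = 0}).Finite := by
    have hne : (-C).charpoly ≠ 0 := (Matrix.charpoly_monic _).ne_zero
    refine (((-C).charpoly).roots.toFinset.finite_toSet).subset ?_
    intro z hz
    simp only [Finset.mem_coe, Multiset.mem_toFinset, Polynomial.mem_roots hne]
    exact hz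
  have hsub : (fun φ : ℝ => Complex.exp (φ * Complex.I)) '' (Set.Ioo 0 1) ⊆
      {z : ℂ | ((-C).charpoly).eval z = 0} := by
    rintro z ⟨φ, hφ, rfl⟩
    have := hcon φ
    rw [isUnit_iff_ne_zero, not_not, hdet] at this
    exact this
  have hinj : Set.InjOn (fun φ : ℝ => Complex.exp (φ * Complex.I)) (Set.Ioo 0 1) := by
    intro a ha b hb hab
    have hab' : Complex.exp (a * Complex.I) = Complex.exp (b * Complex.I) := hab
    rw [Complex.exp_eq_exp_iff_exists_int] at hab'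
    obtain ⟨n, hn⟩ := hab'
    have hn' : (a : ℂ) = b + n * (2 * Real.pi) := by
      have hI : Complex.I ≠ 0 := Complex.I_ne_zero
      apply mul_right_cancel₀ hI
      rw [hn]; ring
    have hn2 : a = b + n * (2 * Real.pi) := by exact_mod_cast hn'
    have hpi := Real.pi_gt_three
    have hn0 : n = 0 := by
      by_contra hne
      have h1 : (1 : ℝ) ≤ |(n : ℝ)| := by
        have := Int.one_le_abs hne
        exact_mod_cast this
      have h2 : |(n : ℝ) * (2 * Real.pi)| < 1 := by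
        have : (n : ℝ) * (2 * Real.pi) = a - b := by linarith
        rw [this, abs_lt]
        constructor <;> linarith [ha.1, ha.2, hb.1, hb.2]
      rw [abs_mul, abs_of_pos (by positivity : (0 : ℝ) < 2 * Real.pi)] at h2
      nlinarith
    rw [hn0] at hn2
    simpa using hn2
  have := (Set.infinite_image_iff hinj).2 (Set.Ioo_infinite (by norm_num : (0 : ℝ) < 1))
  exact this (hfin.subset hsub)

open scoped ComplexOrder in
theorem conn {Y : Type} [Fintype Y] [DecidableEq Y] (C : Matrix Y Y ℂ) (hC : Cᴴ * C = 1) :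
    ∃ c : ℝ → Matrix Y Y ℂ, c 0 = 1 ∧ c 1 = C ∧ (∀ s ∈ Set.Icc (0 : ℝ) 1, (c s)ᴴ * c s = 1) ∧
      (∃ L : ℝ, 0 ≤ L ∧ ∀ s ∈ Set.Icc (0 : ℝ) 1, ∀ s' ∈ Set.Icc (0 : ℝ) 1, ∀ i j,
        ‖c s i j - c s' i j‖ ≤ L * |s - s'|) ∧
      ∀ w, Commute w C → ∀ s ∈ Set.Icc (0 : ℝ) 1, Commute w (c s) := by
  classical
  obtain ⟨φ, hφ⟩ := E07_shift C
  set ζ : ℂ := Complex.exp (φ * Complex.I) with hζ
  have hζn : star ζ * ζ = 1 := by
    have h := Complex.norm_exp_ofReal_mul_I φ
    rw [← hζ] at h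
    rw [Complex.star_def, mul_comm, Complex.mul_conj, Complex.normSq_eq_norm_sq, h]
    norm_num
  have hζn' : ζ * star ζ = 1 := by rw [mul_comm]; exact hζn
  have hζ0 : ζ ≠ 0 := Complex.exp_ne_zero _
  have hC' : C * Cᴴ = 1 := mul_eq_one_comm.1 hC
  -- A = ζ + C is invertible
  set A : Matrix Y Y ℂ := ζ • 1 + C with hA
  have hA1 : A⁻¹ * A = 1 := Matrix.nonsing_inv_mul A hφ
  have hA2 : A * A⁻¹ = 1 := Matrix.mul_nonsing_inv A hφ
  -- B = i (ζ - C) (ζ + C)⁻¹
  set B : Matrix Y Y ℂ := Complex.I • ((ζ • 1 - C) * A⁻¹) with hB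
  have hcomA : Commute (ζ • 1 - C) A := by
    show (ζ • 1 - C) * (ζ • 1 + C) = (ζ • 1 + C) * (ζ • 1 - C)
    simp only [mul_add, sub_mul, mul_sub, add_mul, Matrix.smul_mul, Matrix.mul_smul, one_mul, mul_one]
    abel
  have hcomAi : Commute (ζ • 1 - C) A⁻¹ := E07_commute_inv _ _ hφ hcomA
  have hBA : B * A = Complex.I • (ζ • 1 - C) := by
    rw [hB, Matrix.smul_mul, mul_assoc, hA1, mul_one]
  have hAB : A * B = Complex.I • (ζ • 1 - C) := by
    rw [hB, Matrix.mul_smul, ← mul_assoc, ← hcomA.eq, mul_assoc, hA2, mul_one]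
  -- Bᴴ = B
  have hBH : Bᴴ = B := by
    -- Aᴴ Bᴴ = (B A)ᴴ = -i (ζ̄ - Cᴴ);  multiply by ζ C
    have h1 : Aᴴ * Bᴴ = (-Complex.I) • (star ζ • 1 - Cᴴ) := by
      rw [← Matrix.conjTranspose_mul, hBA, Matrix.conjTranspose_smul, Matrix.conjTranspose_sub,
        Matrix.conjTranspose_smul, Matrix.conjTranspose_one]
      simp
    have h2 : (ζ • C) * Aᴴ = A := by
      rw [hA, Matrix.conjTranspose_add, Matrix.conjTranspose_smul, Matrix.conjTranspose_one, mul_add,
        Matrix.smul_mul, Matrix.mul_smul, mul_one, Matrix.smul_mul, hC', smul_smul, hζn', one_smul,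
        add_comm]
    have h3 : (ζ • C) * (star ζ • 1 - Cᴴ) = -(ζ • 1 - C) := by
      rw [mul_sub, Matrix.smul_mul, Matrix.mul_smul, mul_one, Matrix.smul_mul, hC', smul_smul, hζn',
        one_smul]
      abel
    have h4 : A * Bᴴ = A * B := by
      rw [hAB, ← h2, mul_assoc, h1, Matrix.mul_smul, h3, smul_neg, neg_smul, neg_neg]
    calc Bᴴ = A⁻¹ * (A * Bᴴ) := by rw [← mul_assoc, hA1, one_mul]
      _ = A⁻¹ * (A * B) := by rw [h4]
      _ = B := by rw [← mul_assoc, hA1, one_mul]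
  -- M s = 1 - i s B
  set M : ℝ → Matrix Y Y ℂ := fun s => 1 - (Complex.I * (s : ℂ)) • B with hM
  have hMH : ∀ s, (M s)ᴴ = 1 + (Complex.I * (s : ℂ)) • B := by
    intro s
    rw [hM]
    simp only [Matrix.conjTranspose_sub, Matrix.conjTranspose_one, Matrix.conjTranspose_smul, hBH]
    have : star (Complex.I * (s : ℂ)) = -(Complex.I * (s : ℂ)) := by
      simp
    rw [this, neg_smul, sub_neg_eq_add]
  have hMcomm : ∀ s, (M s)ᴴ * M s = M s * (M s)ᴴ := by
    intro s
    rw [hMH, hM]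
    simp only [mul_add, sub_mul, mul_sub, add_mul, Matrix.smul_mul, Matrix.mul_smul, one_mul, mul_one]
    abel
  have hMdet : ∀ s, IsUnit (M s).det := by
    intro s
    rw [isUnit_iff_ne_zero]
    intro h0
    obtain ⟨v, hv0, hv⟩ := Matrix.exists_mulVec_eq_zero_iff.2 h0
    -- (Mᴴ M) v = 0, Mᴴ M = 1 + (sB)ᴴ (sB)
    have hMM : (M s)ᴴ * M s = 1 + ((s : ℂ) • B)ᴴ * ((s : ℂ) • B) := by
      rw [hMH, hM]
      simp only [mul_sub, add_mul, Matrix.smul_mul, Matrix.mul_smul, one_mul, mul_one,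
        Matrix.conjTranspose_smul, hBH, smul_smul]
      have e1 : (Complex.I * (s : ℂ)) * (Complex.I * (s : ℂ)) = -((s : ℂ) * (s : ℂ)) := by
        have := Complex.I_mul_I
        linear_combination ((s : ℂ) * (s : ℂ)) * this
      have e2 : star (s : ℂ) = (s : ℂ) := by simp
      rw [e1, e2, neg_smul]
      abel
    have h1 : star v ⬝ᵥ (((M s)ᴴ * M s) *ᵥ v) = 0 := by
      rw [← Matrix.mulVec_mulVec, hv, Matrix.mulVec_zero, dotProduct_zero]
    rw [hMM, Matrix.add_mulVec, Matrix.one_mulVec, dotProduct_add] at h1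
    have h2 : 0 ≤ star v ⬝ᵥ ((((s : ℂ) • B)ᴴ * ((s : ℂ) • B)) *ᵥ v) :=
      (Matrix.posSemidef_conjTranspose_mul_self ((s : ℂ) • B)).dotProduct_mulVec_nonneg v
    have h3 : 0 ≤ star v ⬝ᵥ v := dotProduct_star_self_nonneg v
    have h4 : star v ⬝ᵥ v = 0 := by
      apply le_antisymm _ h3
      rw [← h1]
      exact le_add_of_nonneg_right h2
    exact hv0 (dotProduct_star_self_eq_zero.1 h4)
  have hMi1 : ∀ s, (M s)⁻¹ * M s = 1 := fun s => Matrix.nonsing_inv_mul _ (hMdet s)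
  have hMi2 : ∀ s, M s * (M s)⁻¹ = 1 := fun s => Matrix.mul_nonsing_inv _ (hMdet s)
  set K : ℝ → Matrix Y Y ℂ := fun s => (M s)ᴴ * (M s)⁻¹ with hK
  have hKu : ∀ s, (K s)ᴴ * K s = 1 := by
    intro s
    have h1 : ((M s)⁻¹)ᴴ * (M s)ᴴ = 1 := by
      rw [← Matrix.conjTranspose_mul, hMi2, Matrix.conjTranspose_one]
    show ((M s)ᴴ * (M s)⁻¹)ᴴ * ((M s)ᴴ * (M s)⁻¹) = 1
    rw [Matrix.conjTranspose_mul, Matrix.conjTranspose_conjTranspose]
    calc ((M s)⁻¹)ᴴ * M s * ((M s)ᴴ * (M s)⁻¹) = ((M s)⁻¹)ᴴ * (M s * (M s)ᴴ) * (M s)⁻¹ := by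
          simp only [mul_assoc]
      _ = ((M s)⁻¹)ᴴ * ((M s)ᴴ * M s) * (M s)⁻¹ := by rw [hMcomm]
      _ = (((M s)⁻¹)ᴴ * (M s)ᴴ) * (M s * (M s)⁻¹) := by simp only [mul_assoc]
      _ = 1 := by rw [h1, hMi2, one_mul]
  have hKM : ∀ s, K s = (M s)⁻¹ + (M s)⁻¹ - 1 := by
    intro s
    have : (M s)ᴴ = (1 : Matrix Y Y ℂ) + 1 - M s := by
      rw [hMH, hM]
      simp only
      abel
    show (M s)ᴴ * (M s)⁻¹ = _
    rw [this, sub_mul, hMi2, add_mul, one_mul]
  have hentry : ∀ s i j, ‖K s i j‖ ≤ 1 := by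
    intro s i j
    have hmem : K s ∈ Matrix.unitaryGroup Y ℂ := by
      rw [Matrix.mem_unitaryGroup_iff']
      exact hKu s
    exact entry_norm_bound_of_unitary hmem i j
  have hMentry : ∀ s i j, ‖(M s)⁻¹ i j‖ ≤ 1 := by
    intro s i j
    have h1 : (M s)⁻¹ i j = (1 / 2 : ℂ) * (K s i j + (1 : Matrix Y Y ℂ) i j) := by
      rw [hKM]
      simp only [Matrix.sub_apply, Matrix.add_apply]
      ring
    rw [h1, norm_mul]
    have h2 : ‖(1 : Matrix Y Y ℂ) i j‖ ≤ 1 := by
      by_cases hij : i = j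
      · subst hij; simp
      · simp [hij]
    have h3 : ‖K s i j + (1 : Matrix Y Y ℂ) i j‖ ≤ 2 := by
      refine (norm_add_le _ _).trans ?_
      linarith [hentry s i j]
    have h4 : ‖(1 / 2 : ℂ)‖ = 1 / 2 := by norm_num
    rw [h4]
    linarith
  set β : ℝ := ∑ k, ∑ l, ‖B k l‖ with hβ
  have hβ0 : 0 ≤ β := Finset.sum_nonneg fun k _ => Finset.sum_nonneg fun l _ => norm_nonneg _
  have hMdiff : ∀ s s' i j, ‖(M s)⁻¹ i j - (M s')⁻¹ i j‖ ≤ β * |s - s'| := by
    intro s s' i j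
    have h1 : (M s)⁻¹ - (M s')⁻¹ = (Complex.I * ((s : ℂ) - s')) • ((M s)⁻¹ * B * (M s')⁻¹) := by
      have h2 : M s' - M s = (Complex.I * ((s : ℂ) - s')) • B := by
        simp only [hM]
        rw [mul_sub, sub_smul]
        abel
      calc (M s)⁻¹ - (M s')⁻¹ = (M s)⁻¹ * (M s' * (M s')⁻¹) - ((M s)⁻¹ * M s) * (M s')⁻¹ := by
            rw [hMi2, hMi1, mul_one, one_mul]
        _ = (M s)⁻¹ * (M s' - M s) * (M s')⁻¹ := by
            generalize M s = X
            generalize M s' = Z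
            rw [mul_sub, sub_mul, mul_assoc, mul_assoc]
        _ = _ := by rw [h2, Matrix.mul_smul, Matrix.smul_mul]
    have h3 : (M s)⁻¹ i j - (M s')⁻¹ i j =
        (Complex.I * ((s : ℂ) - s')) * ∑ l, (∑ k, (M s)⁻¹ i k * B k l) * (M s')⁻¹ l j := by
      have := congrFun (congrFun h1 i) j
      rw [Matrix.sub_apply] at this
      rw [this, Matrix.smul_apply, smul_eq_mul, Matrix.mul_apply]
      simp only [Matrix.mul_apply]
    rw [h3, norm_mul]
    have h4 : ‖Complex.I * ((s : ℂ) - s')‖ = |s - s'| := by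
      rw [norm_mul, Complex.norm_I, one_mul, ← Complex.ofReal_sub, Complex.norm_real, Real.norm_eq_abs]
    rw [h4, mul_comm]
    refine mul_le_mul_of_nonneg_right ?_ (abs_nonneg _)
    refine (norm_sum_le _ _).trans ?_
    rw [hβ, Finset.sum_comm]
    refine Finset.sum_le_sum fun l _ => ?_
    rw [norm_mul]
    have h5 : ‖∑ k, (M s)⁻¹ i k * B k l‖ ≤ ∑ k, ‖B k l‖ := by
      refine (norm_sum_le _ _).trans (Finset.sum_le_sum fun k _ => ?_)
      rw [norm_mul]
      have := hMentry s i k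
      nlinarith [norm_nonneg (B k l), norm_nonneg ((M s)⁻¹ i k)]
    have h6 := hMentry s' l j
    have h7 : 0 ≤ ∑ k, ‖B k l‖ := Finset.sum_nonneg fun k _ => norm_nonneg _
    nlinarith [norm_nonneg (∑ k, (M s)⁻¹ i k * B k l), norm_nonneg ((M s')⁻¹ l j)]
  have hKdiff : ∀ s s' i j, ‖K s i j - K s' i j‖ ≤ 2 * β * |s - s'| := by
    intro s s' i j
    have h1 : K s i j - K s' i j = 2 * ((M s)⁻¹ i j - (M s')⁻¹ i j) := by
      rw [hKM, hKM]
      simp only [Matrix.sub_apply, Matrix.add_apply]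
      ring
    rw [h1, norm_mul]
    have := hMdiff s s' i j
    have h2 : ‖(2 : ℂ)‖ = 2 := by norm_num
    rw [h2]; linarith
  -- the phases
  have hexpn : ∀ s : ℝ, ‖Complex.exp ((s * φ : ℝ) * Complex.I)‖ = 1 :=
    fun s => Complex.norm_exp_ofReal_mul_I _
  have hexpd : ∀ s s' : ℝ, ‖Complex.exp ((s * φ : ℝ) * Complex.I) - Complex.exp ((s' * φ : ℝ) * Complex.I)‖
      ≤ |φ| * |s - s'| := by
    intro s s'
    have h1 : Complex.exp ((s * φ : ℝ) * Complex.I) - Complex.exp ((s' * φ : ℝ) * Complex.I) =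
        Complex.exp ((s' * φ : ℝ) * Complex.I) * (Complex.exp (Complex.I * (((s - s') * φ : ℝ) : ℂ)) - 1) := by
      rw [mul_sub, mul_one, ← Complex.exp_add]
      congr 2
      push_cast
      ring
    rw [h1, norm_mul, hexpn, one_mul]
    refine (Real.norm_exp_I_mul_ofReal_sub_one_le).trans ?_
    rw [Real.norm_eq_abs, abs_mul, mul_comm]
  refine ⟨fun s => Complex.exp ((s * φ : ℝ) * Complex.I) • K s, ?_, ?_, ?_, ?_, ?_⟩
  · have h1 : M 0 = 1 := by simp [hM]
    have h2 : K 0 = 1 := by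
      simp only [hK]
      rw [h1]
      simp
    show Complex.exp (((0 : ℝ) * φ : ℝ) * Complex.I) • K 0 = 1
    rw [h2]
    simp
  · -- K 1 = ζ⁻¹ C
    have h1 : ζ • K 1 = C := by
      have h2 : M 1 * A = (2 : ℂ) • (ζ • (1 : Matrix Y Y ℂ)) := by
        simp only [hM]
        rw [sub_mul, one_mul, Matrix.smul_mul, hBA, smul_smul]
        have : Complex.I * ((1 : ℝ) : ℂ) * Complex.I = -1 := by
          have := Complex.I_mul_I
          push_cast
          linear_combination this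
        rw [this, hA, neg_smul, one_smul, two_smul]
        abel
      have h3 : (M 1)ᴴ * A = (2 : ℂ) • C := by
        rw [hMH, add_mul, one_mul, Matrix.smul_mul, hBA, smul_smul]
        have : Complex.I * ((1 : ℝ) : ℂ) * Complex.I = -1 := by
          have := Complex.I_mul_I
          push_cast
          linear_combination this
        rw [this, hA, neg_smul, one_smul, two_smul]
        abel
      -- A = 2 ζ M⁻¹
      have h4 : A = (2 * ζ) • (M 1)⁻¹ := by
        calc A = (M 1)⁻¹ * (M 1 * A) := by rw [← mul_assoc, hMi1, one_mul]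
          _ = _ := by rw [h2, smul_smul, Matrix.mul_smul, mul_one]
      have h5 : (M 1)ᴴ * A = (2 * ζ) • K 1 := by
        simp only [hK]
        conv_lhs => rw [h4]
        rw [Matrix.mul_smul]
      have h6 : (2 : ℂ) • (ζ • K 1) = (2 : ℂ) • C := by rw [smul_smul, ← h5, h3]
      exact smul_right_injective _ (two_ne_zero : (2 : ℂ) ≠ 0) h6
    show Complex.exp (((1 : ℝ) * φ : ℝ) * Complex.I) • K 1 = C
    rw [one_mul, ← hζ, h1]
  · intro s _
    show (Complex.exp ((s * φ : ℝ) * Complex.I) • K s)ᴴ * (Complex.exp ((s * φ : ℝ) * Complex.I) • K s) = 1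
    rw [Matrix.conjTranspose_smul, Matrix.smul_mul, Matrix.mul_smul, smul_smul, hKu]
    have h := hexpn s
    have : star (Complex.exp ((s * φ : ℝ) * Complex.I)) * Complex.exp ((s * φ : ℝ) * Complex.I) = 1 := by
      rw [Complex.star_def, mul_comm, Complex.mul_conj, Complex.normSq_eq_norm_sq, h]
      norm_num
    rw [this, one_smul]
  · refine ⟨|φ| + 2 * β, by positivity, ?_⟩
    intro s _ s' _ i j
    show ‖Complex.exp ((s * φ : ℝ) * Complex.I) * K s i j - Complex.exp ((s' * φ : ℝ) * Complex.I) * K s' i j‖ ≤ _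
    have h1 : Complex.exp ((s * φ : ℝ) * Complex.I) * K s i j -
        Complex.exp ((s' * φ : ℝ) * Complex.I) * K s' i j =
        (Complex.exp ((s * φ : ℝ) * Complex.I) - Complex.exp ((s' * φ : ℝ) * Complex.I)) * K s i j +
        Complex.exp ((s' * φ : ℝ) * Complex.I) * (K s i j - K s' i j) := by ring
    rw [h1]
    refine (norm_add_le _ _).trans ?_
    rw [norm_mul, norm_mul, hexpn, one_mul]
    have h2 := hexpd s s'
    have h3 := hentry s i j
    have h4 := hKdiff s s' i j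
    have h5 : ‖Complex.exp ((s * φ : ℝ) * Complex.I) - Complex.exp ((s' * φ : ℝ) * Complex.I)‖ * ‖K s i j‖ ≤
        |φ| * |s - s'| := by
      nlinarith [norm_nonneg (Complex.exp ((s * φ : ℝ) * Complex.I) - Complex.exp ((s' * φ : ℝ) * Complex.I)),
        norm_nonneg (K s i j)]
    nlinarith
  · intro w hw s _
    have h1 : Commute w A := by
      show w * A = A * w
      rw [hA, mul_add, add_mul, Matrix.mul_smul, Matrix.smul_mul, mul_one, one_mul, hw.eq]
    have h2 : Commute w (ζ • 1 - C) := by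
      show w * (ζ • 1 - C) = (ζ • 1 - C) * w
      rw [mul_sub, sub_mul, Matrix.mul_smul, Matrix.smul_mul, mul_one, one_mul, hw.eq]
    have h3 : Commute w B := by
      have h4 : Commute w ((ζ • 1 - C) * A⁻¹) := h2.mul_right (E07_commute_inv _ _ hφ h1)
      show w * B = B * w
      rw [hB, Matrix.mul_smul, Matrix.smul_mul, h4.eq]
    have h5 : Commute w (M s) := by
      show w * (M s) = (M s) * w
      simp only [hM]
      rw [mul_sub, sub_mul, Matrix.mul_smul, Matrix.smul_mul, mul_one, one_mul, h3.eq]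
    have h6 : Commute w (M s)ᴴ := by
      show w * (M s)ᴴ = (M s)ᴴ * w
      rw [hMH, mul_add, add_mul, Matrix.mul_smul, Matrix.smul_mul, mul_one, one_mul, h3.eq]
    have h7 : Commute w (K s) := h6.mul_right (E07_commute_inv _ _ (hMdet s) h5)
    show w * (Complex.exp ((s * φ : ℝ) * Complex.I) • K s) = (Complex.exp ((s * φ : ℝ) * Complex.I) • K s) * w
    rw [Matrix.mul_smul, Matrix.smul_mul, h7.eq]

/-- version with permutations: the entries of c s have the same symmetries as those of C. -/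
theorem conn_perm {Y : Type} [Fintype Y] [DecidableEq Y] (C : Matrix Y Y ℂ) (hC : Cᴴ * C = 1) :
    ∃ c : ℝ → Matrix Y Y ℂ, c 0 = 1 ∧ c 1 = C ∧ (∀ s ∈ Set.Icc (0 : ℝ) 1, (c s)ᴴ * c s = 1) ∧
      (∃ L : ℝ, 0 ≤ L ∧ ∀ s ∈ Set.Icc (0 : ℝ) 1, ∀ s' ∈ Set.Icc (0 : ℝ) 1, ∀ i j,
        ‖c s i j - c s' i j‖ ≤ L * |s - s'|) ∧
      ∀ σ : Equiv.Perm Y, (∀ i j, C (σ i) (σ j) = C i j) →
        ∀ s ∈ Set.Icc (0 : ℝ) 1, ∀ i j, c s (σ i) (σ j) = c s i j := by
  classical
  obtain ⟨c, h0, h1, hu, hL, hw⟩ := conn C hC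
  refine ⟨c, h0, h1, hu, hL, ?_⟩
  intro σ hσ s hs i j
  set P : Matrix Y Y ℂ := Matrix.of fun i j => if σ i = j then 1 else 0 with hP
  have hPm : ∀ (D : Matrix Y Y ℂ) i j, (P * D) i j = D (σ i) j := by
    intro D i j
    rw [Matrix.mul_apply]
    simp [hP]
  have hmP : ∀ (D : Matrix Y Y ℂ) i j, (D * P) i (σ j) = D i j := by
    intro D i j
    rw [Matrix.mul_apply]
    simp [hP, σ.injective.eq_iff]
  have hcomm : Commute P C := by
    show P * C = C * P
    ext i j
    obtain ⟨j, rfl⟩ := σ.surjective j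
    rw [hPm, hmP, hσ]
  have h2 : P * c s = c s * P := (hw P hcomm s hs).eq
  have h3 := congrFun (congrFun h2 i) (σ j)
  rw [hPm, hmP] at h3
  exact h3

end Pool.HQ
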