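import Pool.Agent.HQ.E01
import Pool.Agent.HQ.E02

/-!
MP_7936f4_al, THEOREM E, module E08: calculus of admissible maps (Adm), tensor powers.

Adm S α' α f : f is a unitary valued map on S, bounded Lipschitz, invariant under the permutations
α' h (rows) and α h (columns) for all h in the index type H.  (The cardinalities of Y and Y' agree as soon
as S is nonempty.)
For pmx: entries of pmx f (e_j ↦ e_(f j)); for a bijection f it is unitary; it is invariant if
f ∘ α h = α' h ∘ f.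
-/

namespace Pool.HQ

open scoped Matrix

section ampl

lemma amp_mul {Y Y' Y'' : Type} [Fintype Y'] (n : ℕ) (A : Matrix Y Y' ℂ) (B : Matrix Y' Y'' ℂ) :
    amp n (A * B) = amp n A * amp n B := by
  ext p q
  simp only [amp, Matrix.mul_apply, Fintype.sum_prod_type]
  by_cases hpq : p.2 = q.2
  · rw [if_pos hpq]
    refine Finset.sum_congr rfl fun k _ => ?_
    rw [Finset.sum_eq_single p.2]
    · rw [if_pos rfl, if_pos hpq]
    · intro b _ hb
      rw [if_neg (fun h => hb h.symm), zero_mul]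
    · intro h
      exact absurd (Finset.mem_univ _) h
  · rw [if_neg hpq]
    symm
    refine Finset.sum_eq_zero fun k _ => Finset.sum_eq_zero fun b _ => ?_
    by_cases h1 : p.2 = b
    · rw [if_neg (fun h2 => hpq (h1.trans h2)), mul_zero]
    · rw [if_neg h1, zero_mul]

lemma amp_one {Y : Type} [DecidableEq Y] (n : ℕ) : amp n (1 : Matrix Y Y ℂ) = 1 := by
  ext p q
  simp only [amp, Matrix.one_apply]
  by_cases h1 : p = q
  · subst h1
    simp
  · rw [if_neg h1]
    by_cases h2 : p.2 = q.2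
    · rw [if_pos h2, if_neg (fun h3 => h1 (Prod.ext h3 h2))]
    · rw [if_neg h2]

lemma amp_star {Y Y' : Type} (n : ℕ) (A : Matrix Y Y' ℂ) : (amp n A)ᴴ = amp n Aᴴ := by
  ext p q
  simp only [amp, Matrix.conjTranspose_apply]
  by_cases h2 : q.2 = p.2
  · rw [if_pos h2, if_pos h2.symm]
  · rw [if_neg h2, if_neg (fun h => h2 h.symm), star_zero]

end ampl

section adm

variable {V H Y Y' Y'' : Type} [Fintype Y] [DecidableEq Y] [Fintype Y'] [DecidableEq Y']
  [Fintype Y''] [DecidableEq Y''] {S D : Set (V →₀ ℝ)}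
  {α : H → Equiv.Perm Y} {α' : H → Equiv.Perm Y'} {α'' : H → Equiv.Perm Y''}

/-- entries of unitary valued maps are bounded, so BLM follows from the Lipschitz estimate -/
lemma entry_le_one {A : Matrix Y' Y ℂ} (h : Aᴴ * A = 1) (i : Y') (j : Y) : ‖A i j‖ ≤ 1 := by
  have h1 : ∑ k, ‖A k j‖ ^ 2 = (1 : ℝ) := by
    have h2 := congrFun (congrFun h j) j
    rw [Matrix.mul_apply, Matrix.one_apply_eq] at h2
    have h3 : ∑ k, ((‖A k j‖ ^ 2 : ℝ) : ℂ) = 1 := by
      rw [← h2]
      refine Finset.sum_congr rfl fun k _ => ?_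
      rw [Matrix.conjTranspose_apply, Complex.star_def, Complex.conj_mul']
      push_cast
      rfl
    exact_mod_cast h3
  have h4 : ‖A i j‖ ^ 2 ≤ 1 := by
    rw [← h1]
    exact Finset.single_le_sum (f := fun k => ‖A k j‖ ^ 2) (fun k _ => sq_nonneg _)
      (Finset.mem_univ i)
  nlinarith [norm_nonneg (A i j)]

lemma Adm.mono {f : (V →₀ ℝ) → Matrix Y' Y ℂ} (hf : Adm D α' α f) (h : S ⊆ D) : Adm S α' α f := by
  exact ⟨fun x hx => hf.uni x (h hx), fun x hx => hf.uni' x (h hx),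
    fun x hx => hf.inv x (h hx), BLM.mono hf.bl h⟩

lemma Adm.congr {f g : (V →₀ ℝ) → Matrix Y' Y ℂ} (hf : Adm S α' α f) (h : ∀ x ∈ S, f x = g x) :
    Adm S α' α g := by
  refine ⟨fun x hx => ?_, fun x hx => ?_, fun x hx => ?_, BLM.congr hf.bl h⟩
  · rw [← h x hx]
    exact hf.uni x hx
  · rw [← h x hx]
    exact hf.uni' x hx
  · rw [← h x hx]
    exact hf.inv x hx

lemma Adm.mul {f : (V →₀ ℝ) → Matrix Y'' Y' ℂ} {g : (V →₀ ℝ) → Matrix Y' Y ℂ}
    (hf : Adm S α'' α' f) (hg : Adm S α' α g) : Adm S α'' α (fun x => f x * g x) := by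
  refine ⟨fun x hx => ?_, fun x hx => ?_, fun x hx h i j => ?_, BLM.mul d1_nonneg hf.bl hg.bl⟩
  · rw [Matrix.conjTranspose_mul, Matrix.mul_assoc, ← Matrix.mul_assoc _ (f x), hf.uni x hx,
      Matrix.one_mul, hg.uni x hx]
  · rw [Matrix.conjTranspose_mul, Matrix.mul_assoc, ← Matrix.mul_assoc (g x), hg.uni' x hx,
      Matrix.one_mul, hf.uni' x hx]
  · rw [Matrix.mul_apply, Matrix.mul_apply, ← Equiv.sum_comp (α' h)]
    refine Finset.sum_congr rfl fun k _ => ?_
    rw [hf.inv x hx, hg.inv x hx]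

lemma Adm.star {f : (V →₀ ℝ) → Matrix Y' Y ℂ} (hf : Adm S α' α f) :
    Adm S α α' (fun x => (f x)ᴴ) := by
  refine ⟨fun x hx => ?_, fun x hx => ?_, fun x hx h i j => ?_, BLM.conjTranspose hf.bl⟩
  · rw [Matrix.conjTranspose_conjTranspose]
    exact hf.uni' x hx
  · rw [Matrix.conjTranspose_conjTranspose]
    exact hf.uni x hx
  · rw [Matrix.conjTranspose_apply, Matrix.conjTranspose_apply, hf.inv x hx]

lemma Adm.one : Adm (V := V) S α α (fun _ => (1 : Matrix Y Y ℂ)) := by
  refine ⟨fun x _ => by simp, fun x _ => by simp, fun x _ h i j => ?_,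
    BLM.const d1_nonneg 1⟩
  rw [Matrix.one_apply, Matrix.one_apply]
  by_cases hij : i = j
  · rw [if_pos hij, if_pos (by rw [hij])]
  · rw [if_neg hij, if_neg (fun h' => hij ((α h).injective h'))]

/-- constant permutation matrices -/
lemma Adm.pmx (f : Y → Y') (hf : Function.Bijective f) (hα : ∀ h y, f (α h y) = α' h (f y)) :
    Adm (V := V) S α' α (fun _ => Pool.HQ.pmx f) := by
  refine ⟨fun x _ => ?_, fun x _ => ?_, fun x _ h i j => ?_, BLM.const d1_nonneg _⟩
  · ext i j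
    rw [Matrix.mul_apply, Finset.sum_eq_single (f j)]
    · simp only [Matrix.conjTranspose_apply, Pool.HQ.pmx, Matrix.one_apply]
      by_cases hij : i = j
      · subst hij
        simp
      · rw [if_neg (fun h' => hij (hf.1 h'.symm)), if_neg hij, star_zero, zero_mul]
    · intro k _ hk
      simp only [Pool.HQ.pmx]
      rw [if_neg hk, mul_zero]
    · intro h'
      exact absurd (Finset.mem_univ _) h'
  · ext i j
    obtain ⟨k, rfl⟩ := hf.2 i
    rw [Matrix.mul_apply, Finset.sum_eq_single k]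
    · simp only [Matrix.conjTranspose_apply, Pool.HQ.pmx, Matrix.one_apply]
      by_cases hij : f k = j
      · subst hij
        simp
      · have hij' : ¬ j = f k := fun h' => hij h'.symm
        simp [hij, hij']
    · intro k' _ hk'
      simp only [Pool.HQ.pmx]
      rw [if_neg (fun h' => hk' (hf.1 h').symm), zero_mul]
    · intro h'
      exact absurd (Finset.mem_univ _) h'
  · simp only [Pool.HQ.pmx]
    rw [hα]
    by_cases hij : i = f j
    · rw [if_pos hij, if_pos (by rw [hij])]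
    · rw [if_neg hij, if_neg (fun h' => hij ((α' h).injective h'))]

lemma Adm.blocks {Z Z' : Type} [Fintype Z] [DecidableEq Z] [Fintype Z'] [DecidableEq Z']
    {β : H → Equiv.Perm Z} {β' : H → Equiv.Perm Z'} {f : (V →₀ ℝ) → Matrix Y' Y ℂ}
    {g : (V →₀ ℝ) → Matrix Z' Z ℂ} (hf : Adm S α' α f) (hg : Adm S β' β g) :
    Adm S (fun h => Equiv.sumCongr (α' h) (β' h)) (fun h => Equiv.sumCongr (α h) (β h))
      (fun x => Matrix.fromBlocks (f x) 0 0 (g x)) := by
  refine ⟨fun x hx => ?_, fun x hx => ?_, fun x hx h i j => ?_,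
    BLM.fromBlocks hf.bl (BLM.const d1_nonneg 0) (BLM.const d1_nonneg 0) hg.bl⟩
  · rw [Matrix.fromBlocks_conjTranspose, Matrix.fromBlocks_multiply]
    simp [hf.uni x hx, hg.uni x hx]
  · rw [Matrix.fromBlocks_conjTranspose, Matrix.fromBlocks_multiply]
    simp [hf.uni' x hx, hg.uni' x hx]
  · rcases i with i | i <;> rcases j with j | j
    · simp only [Equiv.sumCongr_apply, Sum.map_inl, Matrix.fromBlocks_apply₁₁]
      exact hf.inv x hx h i j
    · simp
    · simp
    · simp only [Equiv.sumCongr_apply, Sum.map_inr, Matrix.fromBlocks_apply₂₂]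
      exact hg.inv x hx h i j

lemma Adm.amp (n : ℕ) {f : (V →₀ ℝ) → Matrix Y' Y ℂ} (hf : Adm S α' α f) :
    Adm S (fun h => Equiv.prodCongr (α' h) (Equiv.refl (Fin n)))
      (fun h => Equiv.prodCongr (α h) (Equiv.refl (Fin n))) (fun x => Pool.HQ.amp n (f x)) := by
  refine ⟨fun x hx => ?_, fun x hx => ?_, fun x hx h i j => ?_, BLM.amp d1_nonneg n hf.bl⟩
  · rw [amp_star, ← amp_mul, hf.uni x hx, amp_one]
  · rw [amp_star, ← amp_mul, hf.uni' x hx, amp_one]
  · simp only [Pool.HQ.amp, Equiv.prodCongr_apply, Prod.map_fst, Prod.map_snd, Equiv.refl_apply]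
    rw [hf.inv x hx]

end adm

section tensor

variable {V H ι : Type} [Fintype ι] [DecidableEq ι] {S : Set (V →₀ ℝ)} {α β : H → Equiv.Perm ι}

lemma pwf_mul {e' : ℕ} (M M' : Fin (2 * e' + 2) → Matrix ι ι ℂ) :
    pwf M * pwf M' = pwf (fun l => M l * M' l) := by
  ext w w'
  simp only [pwf, Matrix.mul_apply]
  rw [Finset.prod_univ_sum, Fintype.piFinset_univ]
  refine Finset.sum_congr rfl fun k _ => ?_
  rw [← Finset.prod_mul_distrib]

lemma pwf_one {e' : ℕ} : pwf (fun _ : Fin (2 * e' + 2) => (1 : Matrix ι ι ℂ)) = 1 := by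
  ext w w'
  simp only [pwf]
  by_cases h : w = w'
  · subst h
    rw [Matrix.one_apply_eq]
    exact Finset.prod_eq_one fun l _ => Matrix.one_apply_eq _
  · rw [Matrix.one_apply_ne h]
    obtain ⟨l, hl⟩ := Function.ne_iff.mp h
    exact Finset.prod_eq_zero (Finset.mem_univ l) (Matrix.one_apply_ne hl)

lemma pwf_star {e' : ℕ} (M : Fin (2 * e' + 2) → Matrix ι ι ℂ) : (pwf M)ᴴ = pwf (fun l => (M l)ᴴ) := by
  ext w w'
  simp only [pwf, Matrix.conjTranspose_apply]
  rw [star_prod]

lemma ten1_mul (e' : ℕ) (a b : Matrix ι ι ℂ) : ten1 e' (a * b) = ten1 e' a * ten1 e' b := by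
  rw [ten1, ten1, ten1, pwf_mul]
  congr 1
  funext l
  split_ifs
  · rfl
  · rw [Matrix.one_mul]

lemma ten1_one (e' : ℕ) : ten1 e' (1 : Matrix ι ι ℂ) = 1 := by
  rw [ten1]
  simp only [ite_self]
  exact pwf_one

lemma ten1_star (e' : ℕ) (a : Matrix ι ι ℂ) : ten1 e' aᴴ = (ten1 e' a)ᴴ := by
  rw [ten1, ten1, pwf_star]
  congr 1
  funext l
  split_ifs
  · rfl
  · rw [Matrix.conjTranspose_one]

lemma ten2_mul (e' : ℕ) (a b : Matrix ι ι ℂ) : ten2 e' (a * b) = ten2 e' a * ten2 e' b := by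
  rw [ten2, ten2, ten2, pwf_mul]

lemma ten2_one (e' : ℕ) : ten2 e' (1 : Matrix ι ι ℂ) = 1 := by
  exact pwf_one

lemma ten2_star (e' : ℕ) (a : Matrix ι ι ℂ) : ten2 e' aᴴ = (ten2 e' a)ᴴ := by
  rw [ten2, ten2, pwf_star]

lemma ten1_apply_act (e' : ℕ) {a b : Matrix ι ι ℂ} {σ σ' : Equiv.Perm ι}
    (h : ∀ i j, a (σ i) (σ' j) = b i j) (w w' : Wd ι e') :
    ten1 e' a (act1 e' σ w) (act1 e' σ' w') = ten1 e' b w w' := by
  simp only [ten1, pwf, act1, Equiv.piCongrRight_apply, Pi.map_apply]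
  refine Finset.prod_congr rfl fun l _ => ?_
  split_ifs
  · exact h _ _
  · rfl

lemma ten2_apply_act (e' : ℕ) {a b : Matrix ι ι ℂ} {σ σ' : Equiv.Perm ι}
    (h : ∀ i j, a (σ i) (σ' j) = b i j) (w w' : Wd ι e') :
    ten2 e' a (act2 e' σ w) (act2 e' σ' w') = ten2 e' b w w' := by
  simp only [ten2, pwf, act2, Equiv.piCongrRight_apply, Pi.map_apply]
  exact Finset.prod_congr rfl fun l _ => h _ _

lemma act1_mul (e' : ℕ) (σ σ' : Equiv.Perm ι) : act1 e' (σ * σ') = act1 e' σ * act1 e' σ' := by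
  ext w l
  simp only [act1, Equiv.piCongrRight_apply, Equiv.Perm.coe_mul, Function.comp_apply, Pi.map_apply]
  split_ifs
  · rfl
  · rfl

lemma act2_mul (e' : ℕ) (σ σ' : Equiv.Perm ι) : act2 e' (σ * σ') = act2 e' σ * act2 e' σ' := by
  ext w l
  rfl

lemma act1n_mul (e' n : ℕ) (σ σ' : Equiv.Perm ι) :
    act1n e' n (σ * σ') = act1n e' n σ * act1n e' n σ' := by
  refine Equiv.ext fun p => ?_
  simp only [act1n, act1_mul]
  rfl

/-- single slot operators: g in slot l, the identity in the other slots; any permutations which act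
slotwise, with a slot l action under which g is invariant. -/
lemma Adm.slot (e' : ℕ) (l : Fin (2 * e' + 2)) {f : (V →₀ ℝ) → Matrix ι ι ℂ}
    (γ : H → Fin (2 * e' + 2) → Equiv.Perm ι) (hf : Adm S (fun h => γ h l) (fun h => γ h l) f) :
    Adm S (fun h => Equiv.piCongrRight (γ h)) (fun h => Equiv.piCongrRight (γ h))
      (fun x => (Pool.HQ.pwf (fun l' => if l' = l then f x else 1) : Matrix (Wd ι e') (Wd ι e') ℂ)) := by
  refine ⟨fun x hx => ?_, fun x hx => ?_, fun x hx h w w' => ?_, BLM.pwf d1_nonneg fun l' => ?_⟩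
  · rw [pwf_star, pwf_mul]
    have : (fun l' : Fin (2 * e' + 2) => (if l' = l then f x else (1 : Matrix ι ι ℂ))ᴴ *
        (if l' = l then f x else 1)) = fun _ => 1 := by
      funext l'
      split_ifs
      · exact hf.uni x hx
      · rw [Matrix.conjTranspose_one, Matrix.one_mul]
    rw [this, pwf_one]
  · rw [pwf_star, pwf_mul]
    have : (fun l' : Fin (2 * e' + 2) => (if l' = l then f x else (1 : Matrix ι ι ℂ)) *
        (if l' = l then f x else 1)ᴴ) = fun _ => 1 := by
      funext l'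
      split_ifs
      · exact hf.uni' x hx
      · rw [Matrix.conjTranspose_one, Matrix.one_mul]
    rw [this, pwf_one]
  · simp only [pwf, Equiv.piCongrRight_apply, Pi.map_apply]
    refine Finset.prod_congr rfl fun l' _ => ?_
    split_ifs with hl
    · subst hl
      exact hf.inv x hx h _ _
    · rw [Matrix.one_apply, Matrix.one_apply]
      by_cases hw : w l' = w' l'
      · rw [if_pos hw, if_pos (by rw [hw])]
      · rw [if_neg hw, if_neg (fun h' => hw ((γ h l').injective h'))]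
  · by_cases hl : l' = l
    · simp only [if_pos hl]
      exact hf.bl
    · simp only [if_neg hl]
      exact BLM.const d1_nonneg 1

lemma Adm.ten1 (e' : ℕ) {f : (V →₀ ℝ) → Matrix ι ι ℂ} (hf : Adm S β α f) :
    Adm S (fun h => act1 e' (β h)) (fun h => act1 e' (α h)) (fun x => Pool.HQ.ten1 e' (f x)) := by
  refine ⟨fun x hx => ?_, fun x hx => ?_, fun x hx h w w' => ?_, BLM.ten1 d1_nonneg e' hf.bl⟩
  · rw [← ten1_star, ← ten1_mul, hf.uni x hx, ten1_one]
  · rw [← ten1_star, ← ten1_mul, hf.uni' x hx, ten1_one]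
  · exact ten1_apply_act e' (hf.inv x hx h) w w'

lemma Adm.ten2 (e' : ℕ) {f : (V →₀ ℝ) → Matrix ι ι ℂ} (hf : Adm S β α f) :
    Adm S (fun h => act2 e' (β h)) (fun h => act2 e' (α h)) (fun x => Pool.HQ.ten2 e' (f x)) := by
  refine ⟨fun x hx => ?_, fun x hx => ?_, fun x hx h w w' => ?_, BLM.ten2 d1_nonneg e' hf.bl⟩
  · rw [← ten2_star, ← ten2_mul, hf.uni x hx, ten2_one]
  · rw [← ten2_star, ← ten2_mul, hf.uni' x hx, ten2_one]
  · exact ten2_apply_act e' (hf.inv x hx h) w w'

end tensor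

end Pool.HQ
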