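import Pool.Agent.HQ.E07
import Pool.Agent.HQ.E08

/-!
MP_7936f4_al, THEOREM E, module E08b: null maps.
Nul S α f : f is homotopic to 1 through admissible maps.  The null maps form a normal subgroup:
* mul: F x s * F' x s.  * star: (F x s)ᴴ.  * conj: g x * F x s * (g x)ᴴ (rectangular g allowed).
* const: E07 (conn_perm) applied to C; if S is empty everything is trivial.
* block: fromBlocks (F x s) 0 0 1.
* of_star: D star-shaped with respect to p₀, S ⊆ D: f x = (f x (f p₀)ᴴ)(f p₀); the first factor is null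
  through F x s = f ((1-s) p₀ + s x) (f p₀)ᴴ, the second one is constant.  Lipschitz in (x,s): use
  d1 ((1-s)p₀+s x) ((1-s')p₀+s' x') ≤ |s| d1 x x' + |s-s'| d1 p₀ x' ≤ (1+B) dI, (seg_d1, seg_d1').
-/

namespace Pool.HQ

open scoped Matrix

section nul

variable {V H Y Y' : Type} [Fintype Y] [DecidableEq Y] [Fintype Y'] [DecidableEq Y']
  {S D : Set (V →₀ ℝ)} {α : H → Equiv.Perm Y} {α' : H → Equiv.Perm Y'}

private lemma prodT_inv {σ : Equiv.Perm Y} {A B : Matrix Y Y ℂ} (hA : ∀ i j, A (σ i) (σ j) = A i j)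
    (hB : ∀ i j, B (σ i) (σ j) = B i j) (i j : Y) : (A * B) (σ i) (σ j) = (A * B) i j := by
  rw [Matrix.mul_apply, Matrix.mul_apply, ← Equiv.sum_comp σ (fun k => A (σ i) k * B k (σ j))]
  exact Finset.sum_congr rfl (fun k _ => by rw [hA, hB])

private lemma blm_fst {m n : Type} {A : (V →₀ ℝ) → Matrix m n ℂ} (hA : BLM d1 S A) :
    BLM dI (S ×ˢ Set.Icc (0 : ℝ) 1) (fun p => A p.1) := by
  refine BLM.comp dI_nonneg hA (fun p : (V →₀ ℝ) × ℝ => p.1) (fun p hp => hp.1) 1 zero_le_one ?_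
  intro p _ q _
  rw [one_mul]
  exact le_add_of_nonneg_right (abs_nonneg _)

lemma Nul.congr {f g : (V →₀ ℝ) → Matrix Y Y ℂ} (hf : Nul S α f) (h : ∀ x ∈ S, f x = g x) :
    Nul S α g := by
  obtain ⟨F, h0, h1, hu, hb⟩ := hf
  exact ⟨F, h0, fun x hx => (h1 x hx).trans (h x hx), hu, hb⟩

lemma Nul.adm {f : (V →₀ ℝ) → Matrix Y Y ℂ} (hf : Nul S α f) : Adm S α α f := by
  obtain ⟨F, h0, h1, hu, hb⟩ := hf
  have hone : (1 : ℝ) ∈ Set.Icc (0 : ℝ) 1 := ⟨zero_le_one, le_refl _⟩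
  refine ⟨?_, ?_, ?_, ?_⟩
  · intro x hx
    rw [← h1 x hx]
    exact (hu x hx 1 hone).1
  · intro x hx
    rw [← h1 x hx]
    exact mul_eq_one_comm.mp (hu x hx 1 hone).1
  · intro x hx h i j
    rw [← h1 x hx]
    exact (hu x hx 1 hone).2 h i j
  · have h2 : BLM d1 S (fun x => F x 1) := by
      refine BLM.comp d1_nonneg (A := fun p : (V →₀ ℝ) × ℝ => F p.1 p.2) hb (fun x => (x, (1 : ℝ)))
        (fun x hx => ⟨hx, hone⟩) 1 zero_le_one ?_
      intro x _ y _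
      simp [dI]
    exact BLM.congr h2 h1

lemma Nul.one : Nul (V := V) S α (fun _ => (1 : Matrix Y Y ℂ)) := by
  refine ⟨fun _ _ => 1, fun _ _ => rfl, fun _ _ => rfl, ?_, BLM.const dI_nonneg 1⟩
  intro x _ s _
  refine ⟨by simp, ?_⟩
  intro h i j
  simp [Matrix.one_apply]

lemma Nul.mul {f g : (V →₀ ℝ) → Matrix Y Y ℂ} (hf : Nul S α f) (hg : Nul S α g) :
    Nul S α (fun x => f x * g x) := by
  obtain ⟨F, h0, h1, hu, hb⟩ := hf
  obtain ⟨F', h0', h1', hu', hb'⟩ := hg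
  refine ⟨fun x s => F x s * F' x s, ?_, ?_, ?_, BLM.mul dI_nonneg hb hb'⟩
  · intro x hx
    show F x 0 * F' x 0 = 1
    rw [h0 x hx, h0' x hx, mul_one]
  · intro x hx
    show F x 1 * F' x 1 = f x * g x
    rw [h1 x hx, h1' x hx]
  · intro x hx s hs
    refine ⟨?_, ?_⟩
    · show (F x s * F' x s)ᴴ * (F x s * F' x s) = 1
      rw [Matrix.conjTranspose_mul, Matrix.mul_assoc, ← Matrix.mul_assoc (F x s)ᴴ,
        (hu x hx s hs).1, Matrix.one_mul, (hu' x hx s hs).1]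
    · intro h
      exact prodT_inv ((hu x hx s hs).2 h) ((hu' x hx s hs).2 h)

lemma Nul.star {f : (V →₀ ℝ) → Matrix Y Y ℂ} (hf : Nul S α f) : Nul S α (fun x => (f x)ᴴ) := by
  obtain ⟨F, h0, h1, hu, hb⟩ := hf
  refine ⟨fun x s => (F x s)ᴴ, ?_, ?_, ?_, BLM.conjTranspose hb⟩
  · intro x hx
    show (F x 0)ᴴ = 1
    rw [h0 x hx, Matrix.conjTranspose_one]
  · intro x hx
    show (F x 1)ᴴ = (f x)ᴴ
    rw [h1 x hx]
  · intro x hx s hs
    refine ⟨?_, ?_⟩
    · show ((F x s)ᴴ)ᴴ * (F x s)ᴴ = 1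
      rw [Matrix.conjTranspose_conjTranspose]
      exact mul_eq_one_comm.mp (hu x hx s hs).1
    · intro h i j
      show (F x s)ᴴ (α h i) (α h j) = (F x s)ᴴ i j
      rw [Matrix.conjTranspose_apply, Matrix.conjTranspose_apply, (hu x hx s hs).2 h]

lemma Nul.conj {f : (V →₀ ℝ) → Matrix Y Y ℂ} {g : (V →₀ ℝ) → Matrix Y' Y ℂ} (hf : Nul S α f)
    (hg : Adm S α' α g) : Nul S α' (fun x => g x * f x * (g x)ᴴ) := by
  obtain ⟨F, h0, h1, hu, hb⟩ := hf
  refine ⟨fun x s => g x * F x s * (g x)ᴴ, ?_, ?_, ?_, ?_⟩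
  · intro x hx
    show g x * F x 0 * (g x)ᴴ = 1
    rw [h0 x hx, Matrix.mul_one, hg.uni' x hx]
  · intro x hx
    show g x * F x 1 * (g x)ᴴ = _
    rw [h1 x hx]
  · intro x hx s hs
    refine ⟨?_, ?_⟩
    · show (g x * F x s * (g x)ᴴ)ᴴ * (g x * F x s * (g x)ᴴ) = 1
      rw [Matrix.conjTranspose_mul, Matrix.conjTranspose_mul, Matrix.conjTranspose_conjTranspose]
      calc g x * ((F x s)ᴴ * (g x)ᴴ) * (g x * F x s * (g x)ᴴ)
          = g x * ((F x s)ᴴ * ((g x)ᴴ * g x) * F x s) * (g x)ᴴ := by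
            simp only [Matrix.mul_assoc]
        _ = 1 := by
            rw [hg.uni x hx, Matrix.mul_one, (hu x hx s hs).1, Matrix.mul_one, hg.uni' x hx]
    · intro h i j
      show (g x * F x s * (g x)ᴴ) (α' h i) (α' h j) = (g x * F x s * (g x)ᴴ) i j
      have e1 : ∀ i k, (g x * F x s) (α' h i) (α h k) = (g x * F x s) i k := by
        intro i k
        rw [Matrix.mul_apply, Matrix.mul_apply,
          ← Equiv.sum_comp (α h) (fun l => g x (α' h i) l * F x s l (α h k))]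
        exact Finset.sum_congr rfl (fun l _ => by rw [hg.inv x hx, (hu x hx s hs).2 h])
      rw [Matrix.mul_apply, Matrix.mul_apply,
        ← Equiv.sum_comp (α h) (fun l => (g x * F x s) (α' h i) l * (g x)ᴴ l (α' h j))]
      refine Finset.sum_congr rfl (fun l _ => ?_)
      rw [e1, Matrix.conjTranspose_apply, Matrix.conjTranspose_apply, hg.inv x hx]
  · have hg' := blm_fst hg.bl
    exact BLM.mul dI_nonneg (BLM.mul dI_nonneg hg' hb) (BLM.conjTranspose hg')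

lemma Nul.const {C : Matrix Y Y ℂ} (hC : Adm (V := V) S α α (fun _ => C)) :
    Nul (V := V) S α (fun _ => C) := by
  rcases S.eq_empty_or_nonempty with hS | ⟨x₀, hx₀⟩
  · subst hS
    refine ⟨fun _ _ => 1, fun x hx => absurd hx (Set.notMem_empty x),
      fun x hx => absurd hx (Set.notMem_empty x), fun x hx => absurd hx (Set.notMem_empty x),
      BLM.const dI_nonneg 1⟩
  · obtain ⟨c, c0, c1, cu, ⟨L, hL0, hL⟩, ci⟩ := conn_perm C (hC.uni x₀ hx₀)
    refine ⟨fun _ s => c s, fun _ _ => c0, fun _ _ => c1, ?_, ?_⟩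
    · intro x hx s hs
      exact ⟨cu s hs, fun h => ci (α h) (fun i j => hC.inv x₀ hx₀ h i j) s hs⟩
    · intro i j
      refine ⟨1 + L, by positivity, ?_, ?_⟩
      · intro p hp
        have := entry_le_one (cu p.2 hp.2) i j
        linarith
      · intro p hp q hq
        have h1 := hL p.2 hp.2 q.2 hq.2 i j
        have h2 : |p.2 - q.2| ≤ dI p q := le_add_of_nonneg_left (d1_nonneg _ _)
        have h3 : L * |p.2 - q.2| ≤ L * dI p q := mul_le_mul_of_nonneg_left h2 hL0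
        have h4 : 0 ≤ dI p q := dI_nonneg p q
        show ‖c p.2 i j - c q.2 i j‖ ≤ (1 + L) * dI p q
        linarith

lemma Nul.block {Z : Type} [Fintype Z] [DecidableEq Z] (β : H → Equiv.Perm Z)
    {f : (V →₀ ℝ) → Matrix Y Y ℂ} (hf : Nul S α f) :
    Nul S (fun h => Equiv.sumCongr (α h) (β h)) (fun x => Matrix.fromBlocks (f x) 0 0 1) := by
  obtain ⟨F, h0, h1, hu, hb⟩ := hf
  refine ⟨fun x s => Matrix.fromBlocks (F x s) 0 0 1, ?_, ?_, ?_, ?_⟩
  · intro x hx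
    show Matrix.fromBlocks (F x 0) 0 0 1 = 1
    rw [h0 x hx, Matrix.fromBlocks_one]
  · intro x hx
    show Matrix.fromBlocks (F x 1) 0 0 1 = Matrix.fromBlocks (f x) 0 0 1
    rw [h1 x hx]
  · intro x hx s hs
    refine ⟨?_, ?_⟩
    · show (Matrix.fromBlocks (F x s) 0 0 (1 : Matrix Z Z ℂ))ᴴ * Matrix.fromBlocks (F x s) 0 0 1 = 1
      rw [Matrix.fromBlocks_conjTranspose, Matrix.fromBlocks_multiply]
      simp only [Matrix.conjTranspose_zero, Matrix.conjTranspose_one, Matrix.mul_zero,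
        Matrix.zero_mul, add_zero, zero_add, Matrix.mul_one]
      rw [(hu x hx s hs).1, Matrix.fromBlocks_one]
    · intro h i j
      rcases i with i | i <;> rcases j with j | j
      · exact (hu x hx s hs).2 h i j
      · rfl
      · rfl
      · show (1 : Matrix Z Z ℂ) (β h i) (β h j) = (1 : Matrix Z Z ℂ) i j
        simp [Matrix.one_apply]
  · exact BLM.fromBlocks hb (BLM.const dI_nonneg 0) (BLM.const dI_nonneg 0) (BLM.const dI_nonneg 1)

lemma Nul.of_star {f : (V →₀ ℝ) → Matrix Y Y ℂ} (p₀ : V →₀ ℝ) (hp₀ : p₀ ∈ D) (B : ℝ)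
    (hB : ∀ x ∈ D, d1 p₀ x ≤ B)
    (hstar : ∀ x ∈ D, ∀ s ∈ Set.Icc (0 : ℝ) 1, (1 - s) • p₀ + s • x ∈ D) (hS : S ⊆ D)
    (hf : Adm D α α f) : Nul S α f := by
  have hB0 : 0 ≤ B := by
    have := hB p₀ hp₀
    rwa [d1_self] at this
  have hinvp : ∀ h i j, (f p₀)ᴴ (α h i) (α h j) = (f p₀)ᴴ i j := by
    intro h i j
    rw [Matrix.conjTranspose_apply, Matrix.conjTranspose_apply, hf.inv p₀ hp₀]
  have hA : Nul S α (fun x => f x * (f p₀)ᴴ) := by
    refine ⟨fun x s => f ((1 - s) • p₀ + s • x) * (f p₀)ᴴ, ?_, ?_, ?_, ?_⟩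
    · intro x hx
      show f ((1 - (0 : ℝ)) • p₀ + (0 : ℝ) • x) * (f p₀)ᴴ = 1
      rw [sub_zero, one_smul, zero_smul, add_zero, hf.uni' p₀ hp₀]
    · intro x hx
      show f ((1 - (1 : ℝ)) • p₀ + (1 : ℝ) • x) * (f p₀)ᴴ = f x * (f p₀)ᴴ
      rw [sub_self, one_smul, zero_smul, zero_add]
    · intro x hx s hs
      have hD := hstar x (hS hx) s hs
      refine ⟨?_, ?_⟩
      · show (f ((1 - s) • p₀ + s • x) * (f p₀)ᴴ)ᴴ * (f ((1 - s) • p₀ + s • x) * (f p₀)ᴴ) = 1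
        rw [Matrix.conjTranspose_mul, Matrix.conjTranspose_conjTranspose, Matrix.mul_assoc,
          ← Matrix.mul_assoc (f ((1 - s) • p₀ + s • x))ᴴ, hf.uni _ hD, Matrix.one_mul,
          hf.uni' p₀ hp₀]
      · intro h
        exact prodT_inv (hf.inv _ hD h) (hinvp h)
    · have hcomp : BLM dI (S ×ˢ Set.Icc (0 : ℝ) 1)
          (fun p : (V →₀ ℝ) × ℝ => f ((1 - p.2) • p₀ + p.2 • p.1)) := by
        refine BLM.comp dI_nonneg hf.bl (fun p : (V →₀ ℝ) × ℝ => (1 - p.2) • p₀ + p.2 • p.1)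
          (fun p hp => hstar p.1 (hS hp.1) p.2 hp.2) (1 + B) (by linarith) ?_
        intro p hp q hq
        have h1 := d1_triangle ((1 - p.2) • p₀ + p.2 • p.1) ((1 - p.2) • p₀ + p.2 • q.1)
          ((1 - q.2) • p₀ + q.2 • q.1)
        rw [seg_d1, seg_d1'] at h1
        have h2 : |p.2| ≤ 1 := abs_le.mpr ⟨by linarith [hp.2.1], hp.2.2⟩
        have h3 : |p.2| * d1 p.1 q.1 ≤ d1 p.1 q.1 :=
          mul_le_of_le_one_left (d1_nonneg _ _) h2
        have h4 : |p.2 - q.2| * d1 p₀ q.1 ≤ |p.2 - q.2| * B :=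
          mul_le_mul_of_nonneg_left (hB q.1 (hS hq.1)) (abs_nonneg _)
        have h5 : dI p q = d1 p.1 q.1 + |p.2 - q.2| := rfl
        have h6 : 0 ≤ d1 p.1 q.1 := d1_nonneg _ _
        have h7 : 0 ≤ |p.2 - q.2| := abs_nonneg _
        have h8 : 0 ≤ B * d1 p.1 q.1 := mul_nonneg hB0 h6
        show d1 ((1 - p.2) • p₀ + p.2 • p.1) ((1 - q.2) • p₀ + q.2 • q.1) ≤ (1 + B) * dI p q
        rw [h5]
        nlinarith
      exact BLM.mul dI_nonneg hcomp (BLM.const dI_nonneg _)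
  have hC : Nul S α (fun _ => f p₀) := by
    apply Nul.const
    refine ⟨fun x _ => hf.uni p₀ hp₀, fun x _ => hf.uni' p₀ hp₀, fun x _ => hf.inv p₀ hp₀,
      BLM.const d1_nonneg _⟩
  refine (hA.mul hC).congr ?_
  intro x hx
  show f x * (f p₀)ᴴ * f p₀ = f x
  rw [Matrix.mul_assoc, hf.uni p₀ hp₀, Matrix.mul_one]

end nul

end Pool.HQ
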