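import Pool.Agent.HQ.E08b

/-!
MP_7936f4_al, THEOREM E, module E09: calculus modulo null maps; the tensor powers.

Eq0 S α f g: f and g are admissible and f gᴴ is null.  Since the null maps form a normal subgroup of the
group of admissible maps (E08b), Eq0 is a congruence: refl, symm, trans, mul, pow.
conj_const: C f Cᴴ ~ f for a constant C: C f Cᴴ fᴴ = C (f Cᴴ fᴴ), both factors null (Nul.const, Nul.conj).

slot l a = the matrix a in the tensor slot l, 1 elsewhere.  The slots commute and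
ten2 a = Π_l slot l a (pwf_mul), ten1 a = slot 0 a * slot 1 a.
slot_swap2: the permutation of words exchanging the letters l and l' is equivariant for act2 (all letters
are moved by the same permutation), T = pmx of it, slot l' a = T (slot l a) Tᴴ.
For act1 only the letters 0 and 1 may be exchanged (both moved by σ).
ten2_eq: product over l of slot l g ~ product of slot 1 g.  (Induct over a list / Finset of slots:
pwf (fun l => if l ∈ T then g else 1) ~ (slot 1 g)^|T| ; the identity is the case T = univ.)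
psi_eq: T = pmx (psi e' ψ): hψ says that it is equivariant from act2 to act1; it is a bijection (the letter 0
is unchanged, the other letters are changed by a permutation depending on letter 0); it commutes with
slot 1 a: T (slot 1 a) Tᴴ = slot 1 a (as a matrix of the same size), because letter 1 is not changed by psi
and the change of the letters ≥ 2 depends only on letter 0.  So
T ten2(g) Tᴴ ~ T (slot 1 g)^(2e'+2) Tᴴ = (slot 1 g)^(2e'+2).
blk n c A = A in block c, identity in the other blocks; amp n A = Π_c blk n c A; blk n c ~ blk n 0 by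
exchanging the blocks.
amp_ten1_eq: amp (ten1 g) ~ amp ((slot 1 g)²) = Π_c blk c (slot 1 g)² ~ (blk 0 (slot 1 g))^(2(e'+1))
 ~ blk 0 (T ten2(g) Tᴴ).
-/

namespace Pool.HQ

open scoped Matrix

/-- equality modulo null maps -/
def Eq0 {V H Y : Type} [Fintype Y] [DecidableEq Y] (S : Set (V →₀ ℝ)) (α : H → Equiv.Perm Y)
    (f g : (V →₀ ℝ) → Matrix Y Y ℂ) : Prop :=
  Adm S α α f ∧ Adm S α α g ∧ Nul S α (fun x => f x * (g x)ᴴ)

/-- the matrix a in slot l. -/
def slot {ι : Type} [DecidableEq ι] (e' : ℕ) (l : Fin (2 * e' + 2)) (a : Matrix ι ι ℂ) :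
    Matrix (Wd ι e') (Wd ι e') ℂ :=
  pwf (fun l' => if l' = l then a else 1)

/-- A in block c, identity in the other blocks -/
def blk {Y : Type} [DecidableEq Y] (n : ℕ) (c : Fin n) (A : Matrix Y Y ℂ) :
    Matrix (Y × Fin n) (Y × Fin n) ℂ :=
  fun p q => if p.2 = q.2 then (if p.2 = c then A p.1 q.1 else if p.1 = q.1 then 1 else 0) else 0

namespace E09Aux

/-- A in the blocks c ∈ T, identity in the other blocks -/
def pamp {Y : Type} [DecidableEq Y] (n : ℕ) (T : Finset (Fin n)) (A : Matrix Y Y ℂ) :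
    Matrix (Y × Fin n) (Y × Fin n) ℂ :=
  fun p q => if p.2 = q.2 then (if p.2 ∈ T then A p.1 q.1 else if p.1 = q.1 then 1 else 0) else 0

section P

variable {Y : Type} [Fintype Y] [DecidableEq Y]

omit [Fintype Y] in
lemma blk_eq (n : ℕ) (c : Fin n) (A : Matrix Y Y ℂ) : blk n c A = pamp n {c} A := by
  funext p q
  simp only [blk, pamp, Finset.mem_singleton]

lemma pamp_mul2 (n : ℕ) (T T' : Finset (Fin n)) (A B : Matrix Y Y ℂ) (p q : Y × Fin n) :
    (pamp n T A * pamp n T' B) p q = if p.2 = q.2 then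
      ((if p.2 ∈ T then A else 1) * (if p.2 ∈ T' then B else 1) : Matrix Y Y ℂ) p.1 q.1 else 0 := by
  rw [Matrix.mul_apply, Fintype.sum_prod_type]
  by_cases hpq : p.2 = q.2
  · rw [if_pos hpq, Matrix.mul_apply]
    refine Finset.sum_congr rfl ?_
    intro y _
    rw [Finset.sum_eq_single p.2]
    · have e1 : pamp n T A p (y, p.2) = (if p.2 ∈ T then A else 1) p.1 y := by
        unfold pamp
        rw [if_pos rfl]
        by_cases h : p.2 ∈ T
        · rw [if_pos h, if_pos h]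
        · rw [if_neg h, if_neg h, Matrix.one_apply]
      have e2 : pamp n T' B (y, p.2) q = (if p.2 ∈ T' then B else 1) y q.1 := by
        unfold pamp
        rw [if_pos hpq]
        by_cases h : p.2 ∈ T'
        · rw [if_pos h, if_pos h]
        · rw [if_neg h, if_neg h, Matrix.one_apply]
      rw [e1, e2]
    · intro c _ hc
      have : pamp n T A p (y, c) = 0 := by
        unfold pamp
        rw [if_neg (fun h => hc h.symm)]
      rw [this, zero_mul]
    · intro h
      exact absurd (Finset.mem_univ _) h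
  · rw [if_neg hpq]
    refine Finset.sum_eq_zero ?_
    intro y _
    refine Finset.sum_eq_zero ?_
    intro c _
    by_cases hc : p.2 = c
    · have : pamp n T' B (y, c) q = 0 := by
        unfold pamp
        rw [if_neg (fun h => hpq (hc.trans h))]
      rw [this, mul_zero]
    · have : pamp n T A p (y, c) = 0 := by
        unfold pamp
        rw [if_neg hc]
      rw [this, zero_mul]

omit [Fintype Y] in
lemma pamp_apply (n : ℕ) (T : Finset (Fin n)) (A : Matrix Y Y ℂ) (p q : Y × Fin n) :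
    pamp n T A p q = if p.2 = q.2 then (if p.2 ∈ T then A else 1 : Matrix Y Y ℂ) p.1 q.1 else 0 := by
  unfold pamp
  by_cases hpq : p.2 = q.2
  · rw [if_pos hpq, if_pos hpq]
    by_cases h : p.2 ∈ T
    · rw [if_pos h, if_pos h]
    · rw [if_neg h, if_neg h, Matrix.one_apply]
  · rw [if_neg hpq, if_neg hpq]

lemma pamp_mul (n : ℕ) (T : Finset (Fin n)) (A B : Matrix Y Y ℂ) :
    pamp n T (A * B) = pamp n T A * pamp n T B := by
  funext p q
  rw [pamp_mul2, pamp_apply]
  by_cases h : p.2 ∈ T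
  · simp only [if_pos h]
  · simp only [if_neg h, Matrix.mul_one]

omit [Fintype Y] in
lemma pamp_one (n : ℕ) (T : Finset (Fin n)) : pamp n T (1 : Matrix Y Y ℂ) = 1 := by
  funext p q
  rw [pamp_apply, Matrix.one_apply, ite_self, Matrix.one_apply]
  by_cases h : p = q
  · subst h
    rw [if_pos rfl, if_pos rfl, if_pos rfl]
  · rw [if_neg h]
    by_cases h2 : p.2 = q.2
    · rw [if_pos h2, if_neg (fun h1 => h (Prod.ext h1 h2))]
    · rw [if_neg h2]

omit [Fintype Y] in
lemma pamp_empty (n : ℕ) (A : Matrix Y Y ℂ) : pamp n ∅ A = 1 := by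
  rw [← pamp_one n ∅]
  funext p q
  rw [pamp_apply, pamp_apply, if_neg (Finset.notMem_empty _), if_neg (Finset.notMem_empty _)]

omit [Fintype Y] in
lemma pamp_univ (n : ℕ) (A : Matrix Y Y ℂ) : pamp n Finset.univ A = amp n A := by
  funext p q
  rw [pamp_apply, if_pos (Finset.mem_univ _)]
  rfl

lemma pamp_insert (n : ℕ) {T : Finset (Fin n)} {c : Fin n} (hc : c ∉ T) (A : Matrix Y Y ℂ) :
    pamp n T A * blk n c A = pamp n (insert c T) A := by
  funext p q
  rw [blk_eq, pamp_mul2, pamp_apply]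
  by_cases h : p.2 ∈ T
  · have h1 : p.2 ∉ ({c} : Finset (Fin n)) := by
      intro h2
      rw [Finset.mem_singleton] at h2
      exact hc (h2 ▸ h)
    rw [if_pos h, if_neg h1, if_pos (Finset.mem_insert_of_mem h), Matrix.mul_one]
  · by_cases h2 : p.2 = c
    · rw [if_neg h, if_pos (Finset.mem_singleton.2 h2), if_pos (Finset.mem_insert.2 (Or.inl h2)),
        Matrix.one_mul]
    · rw [if_neg h, if_neg (fun h3 => h2 (Finset.mem_singleton.1 h3)), if_neg (fun h3 =>
        (Finset.mem_insert.1 h3).elim h2 h), Matrix.one_mul]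

omit [Fintype Y] in
lemma pamp_star (n : ℕ) (T : Finset (Fin n)) (A : Matrix Y Y ℂ) :
    (pamp n T A)ᴴ = pamp n T Aᴴ := by
  funext p q
  rw [Matrix.conjTranspose_apply, pamp_apply, pamp_apply]
  by_cases h : p.2 = q.2
  · rw [if_pos h, if_pos h.symm, ← h]
    by_cases h1 : p.2 ∈ T
    · rw [if_pos h1, if_pos h1, Matrix.conjTranspose_apply]
    · rw [if_neg h1, if_neg h1, ← Matrix.conjTranspose_apply, Matrix.conjTranspose_one]
  · rw [if_neg h, if_neg (fun h1 => h h1.symm), star_zero]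

omit [Fintype Y] in
lemma blk_inv (n : ℕ) (c : Fin n) (A : Matrix Y Y ℂ) (σ : Equiv.Perm Y)
    (h : ∀ i j, A (σ i) (σ j) = A i j) (p q : Y × Fin n) :
    blk n c A (Equiv.prodCongr σ (Equiv.refl (Fin n)) p) (Equiv.prodCongr σ (Equiv.refl (Fin n)) q)
      = blk n c A p q := by
  obtain ⟨a, b⟩ := p
  obtain ⟨a', b'⟩ := q
  show (if b = b' then (if b = c then A (σ a) (σ a') else if σ a = σ a' then 1 else 0) else 0) =
    (if b = b' then (if b = c then A a a' else if a = a' then 1 else 0) else 0)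
  rw [h a a']
  simp only [EmbeddingLike.apply_eq_iff_eq]

omit [Fintype Y] in
lemma blk_blm {X : Type} {δ : X → X → ℝ} (hδ : ∀ x y, 0 ≤ δ x y) {S : Set X} (n : ℕ) (c : Fin n)
    {f : X → Matrix Y Y ℂ} (hf : BLM δ S f) : BLM δ S (fun x => blk n c (f x)) := by
  intro p q
  by_cases h1 : p.2 = q.2
  · by_cases h2 : p.2 = c
    · refine (hf p.1 q.1).congr ?_
      intro x hx
      show f x p.1 q.1 = if p.2 = q.2 then (if p.2 = c then f x p.1 q.1 else _) else 0
      rw [if_pos h1, if_pos h2]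
    · refine (BL.const hδ (if p.1 = q.1 then (1 : ℂ) else 0)).congr ?_
      intro x hx
      show _ = if p.2 = q.2 then (if p.2 = c then f x p.1 q.1 else _) else 0
      rw [if_pos h1, if_neg h2]
  · refine (BL.const hδ (0 : ℂ)).congr ?_
    intro x hx
    show _ = if p.2 = q.2 then (if p.2 = c then f x p.1 q.1 else _) else 0
    rw [if_neg h1]

lemma blk_pow (n : ℕ) (c : Fin n) (A : Matrix Y Y ℂ) (k : ℕ) : blk n c A ^ k = blk n c (A ^ k) := by
  induction k with
  | zero => rw [pow_zero, pow_zero, blk_eq, pamp_one]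
  | succ k ih => rw [pow_succ, pow_succ, ih, blk_eq, blk_eq, blk_eq, pamp_mul]

end P

section W

variable {V H Y : Type} [Fintype Y] [DecidableEq Y] {S : Set (V →₀ ℝ)} {α : H → Equiv.Perm Y}

lemma swap_adm (n : ℕ) (c c' : Fin n) :
    Adm (V := V) S (fun h => Equiv.prodCongr (α h) (Equiv.refl (Fin n)))
      (fun h => Equiv.prodCongr (α h) (Equiv.refl (Fin n)))
      (fun _ => pmx (Equiv.prodCongr (Equiv.refl Y) (Equiv.swap c c'))) := by
  refine Adm.pmx _ (Equiv.bijective _) ?_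
  intro h y
  rfl

/-- conjugation by a permutation matrix -/
lemma pmx_conj {Y' : Type} [Fintype Y'] [DecidableEq Y'] (e : Y ≃ Y') (A : Matrix Y Y ℂ)
    (i j : Y') : (pmx e * A * (pmx e)ᴴ) i j = A (e.symm i) (e.symm j) := by
  rw [Matrix.mul_apply, Finset.sum_eq_single (e.symm j)]
  · rw [Matrix.mul_apply, Finset.sum_eq_single (e.symm i)]
    · simp [pmx]
    · intro k _ hk
      have : ¬ (i = e k) := fun h => hk (by rw [h, Equiv.symm_apply_apply])
      simp [pmx, this]
    · intro h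
      exact absurd (Finset.mem_univ _) h
  · intro k _ hk
    have : ¬ (j = e k) := fun h => hk (by rw [h, Equiv.symm_apply_apply])
    simp [pmx, this]
  · intro h
    exact absurd (Finset.mem_univ _) h

lemma swap_blk (n : ℕ) (c c' : Fin n) (A : Matrix Y Y ℂ) :
    pmx (Equiv.prodCongr (Equiv.refl Y) (Equiv.swap c c')) * blk n c' A *
      (pmx (Equiv.prodCongr (Equiv.refl Y) (Equiv.swap c c')))ᴴ = blk n c A := by
  funext p q
  rw [pmx_conj]
  obtain ⟨a, b⟩ := p
  obtain ⟨a', b'⟩ := q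
  show (if Equiv.swap c c' b = Equiv.swap c c' b' then
    (if Equiv.swap c c' b = c' then A a a' else if a = a' then 1 else 0) else 0) =
    (if b = b' then (if b = c then A a a' else if a = a' then 1 else 0) else 0)
  have h : (Equiv.swap c c' b = c') ↔ b = c := by
    rw [← Equiv.eq_symm_apply, Equiv.symm_swap, Equiv.swap_apply_right]
  simp only [EmbeddingLike.apply_eq_iff_eq, h]

end W

section T

variable {ι : Type} [DecidableEq ι]

/-- a in the slots l ∈ T, 1 in the other slots -/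
def pslot (e' : ℕ) (T : Finset (Fin (2 * e' + 2))) (a : Matrix ι ι ℂ) : Matrix (Wd ι e') (Wd ι e') ℂ :=
  pwf (fun l => if l ∈ T then a else 1)

lemma pslot_insert [Fintype ι] (e' : ℕ) {T : Finset (Fin (2 * e' + 2))} {c : Fin (2 * e' + 2)}
    (hc : c ∉ T) (a : Matrix ι ι ℂ) : pslot e' T a * slot e' c a = pslot e' (insert c T) a := by
  unfold pslot slot
  rw [pwf_mul]
  congr 1
  funext l
  by_cases h1 : l ∈ T
  · have h2 : l ≠ c := fun h => hc (h ▸ h1)
    rw [if_pos h1, if_neg h2, if_pos (Finset.mem_insert_of_mem h1), Matrix.mul_one]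
  · by_cases h2 : l = c
    · rw [if_neg h1, if_pos h2, if_pos (Finset.mem_insert.2 (Or.inl h2)), Matrix.one_mul]
    · rw [if_neg h1, if_neg h2, if_neg (fun h3 => (Finset.mem_insert.1 h3).elim h2 h1),
        Matrix.one_mul]

lemma pslot_empty [Fintype ι] (e' : ℕ) (a : Matrix ι ι ℂ) : pslot e' ∅ a = 1 := by
  rw [← pwf_one (ι := ι) (e' := e')]
  have h : (fun l : Fin (2 * e' + 2) => (if l ∈ (∅ : Finset (Fin (2 * e' + 2))) then a else 1)) =
      fun _ => 1 := by
    funext l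
    rw [if_neg (Finset.notMem_empty _)]
  show pwf (fun l : Fin (2 * e' + 2) => (if l ∈ (∅ : Finset (Fin (2 * e' + 2))) then a else 1)) = _
  rw [h]

lemma pslot_univ (e' : ℕ) (a : Matrix ι ι ℂ) : pslot e' Finset.univ a = ten2 e' a := by
  have h : (fun l : Fin (2 * e' + 2) => (if l ∈ (Finset.univ : Finset (Fin (2 * e' + 2))) then a
      else 1)) = fun _ => a := by
    funext l
    rw [if_pos (Finset.mem_univ _)]
  show pwf (fun l : Fin (2 * e' + 2) => (if l ∈ (Finset.univ : Finset (Fin (2 * e' + 2))) then a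
      else 1)) = _
  rw [h]
  rfl

lemma slot_mul_ten1 [Fintype ι] (e' : ℕ) (a : Matrix ι ι ℂ) : slot e' 0 a * slot e' 1 a = ten1 e' a := by
  unfold slot ten1
  rw [pwf_mul]
  congr 1
  funext l
  by_cases h0 : l = 0
  · subst h0
    have h1 : ¬ ((0 : Fin (2 * e' + 2)) = 1) := by
      intro h
      have := congrArg Fin.val h
      simp at this
    have h2 : (0 : Fin (2 * e' + 2)).val < 2 := by simp
    rw [if_pos rfl, if_neg h1, if_pos h2, Matrix.mul_one]
  · by_cases h1 : l = 1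
    · subst h1
      have h2 : (1 : Fin (2 * e' + 2)).val < 2 := by simp
      rw [if_neg h0, if_pos rfl, if_pos h2, Matrix.one_mul]
    · have h2 : ¬ (l.val < 2) := by
        intro h
        have h3 : l.val ≠ 0 := fun h4 => h0 (Fin.ext (by simpa using h4))
        have h5 : l.val ≠ 1 := fun h4 => h1 (Fin.ext (by simpa using h4))
        omega
      rw [if_neg h0, if_neg h1, if_neg h2, Matrix.one_mul]

/-- permutation of the letters of a word: w ↦ w ∘ τ⁻¹ -/
def rwd (ι : Type) (e' : ℕ) (τ : Equiv.Perm (Fin (2 * e' + 2))) : Wd ι e' ≃ Wd ι e' :=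
  Equiv.arrowCongr τ (Equiv.refl ι)

lemma rwd_symm (e' : ℕ) (τ : Equiv.Perm (Fin (2 * e' + 2))) (w : Wd ι e') (l : Fin (2 * e' + 2)) :
    (rwd ι e' τ).symm w l = w (τ l) := rfl

lemma swap_slot [Fintype ι] (e' : ℕ) (l l' : Fin (2 * e' + 2)) (a : Matrix ι ι ℂ) :
    pmx (rwd ι e' (Equiv.swap l l')) * slot e' l' a * (pmx (rwd ι e' (Equiv.swap l l')))ᴴ =
      slot e' l a := by
  funext w w'
  rw [pmx_conj]
  unfold slot pwf
  simp only [rwd_symm]
  rw [← Equiv.prod_comp (Equiv.swap l l')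
    (fun x => (if x = l then a else 1 : Matrix ι ι ℂ) (w x) (w' x))]
  refine Finset.prod_congr rfl ?_
  intro x _
  have h : (Equiv.swap l l' x = l) ↔ x = l' := by
    rw [← Equiv.eq_symm_apply, Equiv.symm_swap, Equiv.swap_apply_left]
  simp only [h]

lemma slot_apply [Fintype ι] (e' : ℕ) (l : Fin (2 * e' + 2)) (a : Matrix ι ι ℂ) (w w' : Wd ι e') :
    slot e' l a w w' = if ∀ x, x ≠ l → w x = w' x then a (w l) (w' l) else 0 := by
  unfold slot pwf
  by_cases h : ∀ x, x ≠ l → w x = w' x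
  · rw [if_pos h, Finset.prod_eq_single l]
    · show (if l = l then a else 1 : Matrix ι ι ℂ) (w l) (w' l) = a (w l) (w' l)
      rw [if_pos rfl]
    · intro x _ hx
      show (if x = l then a else 1 : Matrix ι ι ℂ) (w x) (w' x) = 1
      rw [if_neg hx, Matrix.one_apply, if_pos (h x hx)]
    · intro h'
      exact absurd (Finset.mem_univ _) h'
  · rw [if_neg h]
    push Not at h
    obtain ⟨x, hx, hx'⟩ := h
    refine Finset.prod_eq_zero (Finset.mem_univ x) ?_
    show (if x = l then a else 1 : Matrix ι ι ℂ) (w x) (w' x) = 0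
    rw [if_neg hx, Matrix.one_apply, if_neg hx']

/-- psi as an equivalence -/
def psiE (e' : ℕ) (ψ : ι → Equiv.Perm ι) : Wd ι e' ≃ Wd ι e' where
  toFun := psi e' ψ
  invFun w := fun l => if l.val < 2 then w l else (ψ (w 0)).symm (w l)
  left_inv w := by
    funext l
    have h0 : (0 : Fin (2 * e' + 2)).val < 2 := by simp
    show (if l.val < 2 then psi e' ψ w l else (ψ (psi e' ψ w 0)).symm (psi e' ψ w l)) = w l
    unfold psi
    rw [if_pos h0]
    by_cases h : l.val < 2
    · rw [if_pos h, if_pos h]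
    · rw [if_neg h, if_neg h, Equiv.symm_apply_apply]
  right_inv w := by
    funext l
    have h0 : (0 : Fin (2 * e' + 2)).val < 2 := by simp
    show (if l.val < 2 then (if l.val < 2 then w l else (ψ (w 0)).symm (w l)) else
      ψ (if (0 : Fin (2 * e' + 2)).val < 2 then w 0 else (ψ (w 0)).symm (w 0))
        (if l.val < 2 then w l else (ψ (w 0)).symm (w l))) = w l
    by_cases h : l.val < 2
    · rw [if_pos h, if_pos h]
    · rw [if_neg h, if_neg h, if_pos h0, Equiv.apply_symm_apply]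

end T

end E09Aux

section general

variable {V H Y Y' : Type} [Fintype Y] [DecidableEq Y] [Fintype Y'] [DecidableEq Y']
  {S : Set (V →₀ ℝ)} {α : H → Equiv.Perm Y} {α' : H → Equiv.Perm Y'}
  {f g f' g' : (V →₀ ℝ) → Matrix Y Y ℂ}

lemma Eq0.refl (hf : Adm S α α f) : Eq0 S α f f := by
  refine ⟨hf, hf, Nul.congr Nul.one ?_⟩
  intro x hx
  exact (hf.uni' x hx).symm

lemma Eq0.symm (h : Eq0 S α f g) : Eq0 S α g f := by
  obtain ⟨hf, hg, hn⟩ := h
  refine ⟨hg, hf, Nul.congr hn.star ?_⟩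
  intro x hx
  simp only [Matrix.conjTranspose_mul, Matrix.conjTranspose_conjTranspose]

lemma Eq0.trans {k : (V →₀ ℝ) → Matrix Y Y ℂ} (h : Eq0 S α f g) (h' : Eq0 S α g k) :
    Eq0 S α f k := by
  obtain ⟨hf, hg, hn⟩ := h
  obtain ⟨_, hk, hn'⟩ := h'
  refine ⟨hf, hk, Nul.congr (hn.mul hn') ?_⟩
  intro x hx
  show f x * (g x)ᴴ * (g x * (k x)ᴴ) = f x * (k x)ᴴ
  rw [Matrix.mul_assoc, ← Matrix.mul_assoc (g x)ᴴ, hg.uni x hx, Matrix.one_mul]

lemma Eq0.mul (h : Eq0 S α f g) (h' : Eq0 S α f' g') :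
    Eq0 S α (fun x => f x * f' x) (fun x => g x * g' x) := by
  obtain ⟨hf, hg, hn⟩ := h
  obtain ⟨hf', hg', hn'⟩ := h'
  refine ⟨hf.mul hf', hg.mul hg', Nul.congr ((hn'.conj hf).mul hn) ?_⟩
  intro x hx
  show f x * (f' x * (g' x)ᴴ) * (f x)ᴴ * (f x * (g x)ᴴ) = f x * f' x * (g x * g' x)ᴴ
  rw [Matrix.conjTranspose_mul, Matrix.mul_assoc (f x * (f' x * (g' x)ᴴ)), ← Matrix.mul_assoc (f x)ᴴ,
    hf.uni x hx, Matrix.one_mul]
  simp only [Matrix.mul_assoc]

lemma Eq0.pow (h : Eq0 S α f g) (n : ℕ) : Eq0 S α (fun x => f x ^ n) (fun x => g x ^ n) := by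
  induction n with
  | zero =>
    simp only [pow_zero]
    exact Eq0.refl Adm.one
  | succ n ih =>
    simp only [pow_succ]
    exact ih.mul h

lemma Eq0.star (h : Eq0 S α f g) : Eq0 S α (fun x => (f x)ᴴ) (fun x => (g x)ᴴ) := by
  obtain ⟨hf, hg, hn⟩ := h
  refine ⟨hf.star, hg.star, Nul.congr (hn.star.conj hf.star) ?_⟩
  intro x hx
  simp only [Matrix.conjTranspose_mul, Matrix.conjTranspose_conjTranspose]
  rw [Matrix.mul_assoc, Matrix.mul_assoc (g x), hf.uni x hx, Matrix.mul_one]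

lemma Eq0.congr {f₁ g₁ : (V →₀ ℝ) → Matrix Y Y ℂ} (h : Eq0 S α f g) (hf : ∀ x ∈ S, f x = f₁ x)
    (hg : ∀ x ∈ S, g x = g₁ x) : Eq0 S α f₁ g₁ := by
  obtain ⟨h1, h2, h3⟩ := h
  refine ⟨h1.congr hf, h2.congr hg, Nul.congr h3 ?_⟩
  intro x hx
  show f x * (g x)ᴴ = f₁ x * (g₁ x)ᴴ
  rw [hf x hx, hg x hx]

lemma Eq0.conj {C : (V →₀ ℝ) → Matrix Y' Y ℂ} (h : Eq0 S α f g) (hC : Adm S α' α C) :
    Eq0 S α' (fun x => C x * f x * (C x)ᴴ) (fun x => C x * g x * (C x)ᴴ) := by
  obtain ⟨hf, hg, hn⟩ := h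
  refine ⟨(hC.mul hf).mul hC.star, (hC.mul hg).mul hC.star, Nul.congr (hn.conj hC) ?_⟩
  intro x hx
  show C x * (f x * (g x)ᴴ) * (C x)ᴴ = C x * f x * (C x)ᴴ * (C x * g x * (C x)ᴴ)ᴴ
  rw [Matrix.conjTranspose_mul, Matrix.conjTranspose_mul, Matrix.conjTranspose_conjTranspose,
    Matrix.mul_assoc (C x * f x), ← Matrix.mul_assoc (C x)ᴴ, hC.uni x hx, Matrix.one_mul]
  simp only [Matrix.mul_assoc]

lemma Eq0.conj_const {C : Matrix Y Y ℂ} (hC : Adm (V := V) S α α (fun _ => C))
    (hf : Adm S α α f) : Eq0 S α (fun x => C * f x * Cᴴ) f := by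
  refine ⟨(hC.mul hf).mul hC.star, hf,
    Nul.congr ((Nul.const hC).mul ((Nul.const hC).star.conj hf)) ?_⟩
  intro x hx
  show C * (f x * Cᴴ * (f x)ᴴ) = C * f x * Cᴴ * (f x)ᴴ
  simp only [Matrix.mul_assoc]

lemma Eq0.nul_iff (hf : Adm S α α f) : Eq0 S α f (fun _ => 1) ↔ Nul S α f := by
  constructor
  · intro h
    refine Nul.congr h.2.2 ?_
    intro x hx
    show f x * (1 : Matrix Y Y ℂ)ᴴ = f x
    rw [Matrix.conjTranspose_one, Matrix.mul_one]
  · intro h
    refine ⟨hf, Adm.one, Nul.congr h ?_⟩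
    intro x hx
    show f x = f x * (1 : Matrix Y Y ℂ)ᴴ
    rw [Matrix.conjTranspose_one, Matrix.mul_one]

lemma blk_mul (n : ℕ) (c : Fin n) (A B : Matrix Y Y ℂ) : blk n c (A * B) = blk n c A * blk n c B := by
  rw [E09Aux.blk_eq, E09Aux.blk_eq, E09Aux.blk_eq, E09Aux.pamp_mul]

lemma blk_one (n : ℕ) (c : Fin n) : blk n c (1 : Matrix Y Y ℂ) = 1 := by
  rw [E09Aux.blk_eq, E09Aux.pamp_one]

lemma blk_star (n : ℕ) (c : Fin n) (A : Matrix Y Y ℂ) : (blk n c A)ᴴ = blk n c Aᴴ := by
  rw [E09Aux.blk_eq, E09Aux.blk_eq, E09Aux.pamp_star]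

lemma Adm.blk (n : ℕ) (c : Fin n) (hf : Adm S α α f) :
    Adm S (fun h => Equiv.prodCongr (α h) (Equiv.refl (Fin n)))
      (fun h => Equiv.prodCongr (α h) (Equiv.refl (Fin n))) (fun x => Pool.HQ.blk n c (f x)) := by
  refine ⟨?_, ?_, ?_, ?_⟩
  · intro x hx
    show (Pool.HQ.blk n c (f x))ᴴ * Pool.HQ.blk n c (f x) = 1
    rw [blk_star, ← blk_mul, hf.uni x hx, blk_one]
  · intro x hx
    show Pool.HQ.blk n c (f x) * (Pool.HQ.blk n c (f x))ᴴ = 1
    rw [blk_star, ← blk_mul, hf.uni' x hx, blk_one]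
  · intro x hx h p q
    exact E09Aux.blk_inv n c (f x) (α h) (fun i j => hf.inv x hx h i j) p q
  · exact E09Aux.blk_blm d1_nonneg n c hf.bl

lemma Eq0.blk (n : ℕ) (c : Fin n) (h : Eq0 S α f g) :
    Eq0 S (fun h => Equiv.prodCongr (α h) (Equiv.refl (Fin n))) (fun x => Pool.HQ.blk n c (f x))
      (fun x => Pool.HQ.blk n c (g x)) := by
  obtain ⟨hf, hg, F, h0, h1, h2, h3⟩ := h
  refine ⟨hf.blk n c, hg.blk n c, fun x s => Pool.HQ.blk n c (F x s), ?_, ?_, ?_, ?_⟩
  · intro x hx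
    show Pool.HQ.blk n c (F x 0) = 1
    rw [h0 x hx, blk_one]
  · intro x hx
    show Pool.HQ.blk n c (F x 1) = Pool.HQ.blk n c (f x) * (Pool.HQ.blk n c (g x))ᴴ
    rw [h1 x hx, blk_star, ← blk_mul]
  · intro x hx s hs
    obtain ⟨h4, h5⟩ := h2 x hx s hs
    constructor
    · show (Pool.HQ.blk n c (F x s))ᴴ * Pool.HQ.blk n c (F x s) = 1
      rw [blk_star, ← blk_mul, h4, blk_one]
    · intro h p q
      exact E09Aux.blk_inv n c (F x s) (α h) (fun i j => h5 h i j) p q
  · exact E09Aux.blk_blm dI_nonneg n c h3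

/-- amp (n+1) f ~ (f in block 0)^(n+1) -/
lemma amp_eq (n : ℕ) (hf : Adm S α α f) :
    Eq0 S (fun h => Equiv.prodCongr (α h) (Equiv.refl (Fin (n + 1))))
      (fun x => amp (n + 1) (f x)) (fun x => (Pool.HQ.blk (n + 1) 0 (f x)) ^ (n + 1)) := by
  have key : ∀ T : Finset (Fin (n + 1)),
      Eq0 S (fun h => Equiv.prodCongr (α h) (Equiv.refl (Fin (n + 1))))
        (fun x => E09Aux.pamp (n + 1) T (f x)) (fun x => (Pool.HQ.blk (n + 1) 0 (f x)) ^ T.card) := by
    intro T
    induction T using Finset.induction_on with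
    | empty =>
      refine Eq0.congr (Eq0.refl Adm.one) ?_ ?_
      · intro x hx
        exact (E09Aux.pamp_empty (n + 1) (f x)).symm
      · intro x hx
        rw [Finset.card_empty, pow_zero]
    | insert c T hc ih =>
      have h1 : Eq0 S (fun h => Equiv.prodCongr (α h) (Equiv.refl (Fin (n + 1))))
          (fun x => Pool.HQ.blk (n + 1) c (f x)) (fun x => Pool.HQ.blk (n + 1) 0 (f x)) := by
        have h2 := Eq0.conj_const (E09Aux.swap_adm (S := S) (α := α) (n + 1) c 0)
          (hf.blk (n + 1) 0)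
        refine Eq0.congr h2 ?_ (fun x hx => rfl)
        intro x hx
        exact E09Aux.swap_blk (n + 1) c 0 (f x)
      refine Eq0.congr (ih.mul h1) ?_ ?_
      · intro x hx
        exact E09Aux.pamp_insert (n + 1) hc (f x)
      · intro x hx
        show Pool.HQ.blk (n + 1) 0 (f x) ^ T.card * Pool.HQ.blk (n + 1) 0 (f x) = _
        rw [Finset.card_insert_of_notMem hc, pow_succ]
  have h := key Finset.univ
  rw [Finset.card_univ, Fintype.card_fin] at h
  refine Eq0.congr h ?_ (fun x hx => rfl)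
  intro x hx
  exact E09Aux.pamp_univ (n + 1) (f x)

end general

section tensor

variable {V H ι : Type} [Fintype ι] [DecidableEq ι] {S : Set (V →₀ ℝ)} {α : H → Equiv.Perm ι}
  {g : (V →₀ ℝ) → Matrix ι ι ℂ}

lemma slot_adm2 (e' : ℕ) (l : Fin (2 * e' + 2)) (hg : Adm S α α g) :
    Adm S (fun h => act2 e' (α h)) (fun h => act2 e' (α h)) (fun x => slot e' l (g x)) := by
  exact Adm.slot e' l (fun h _ => α h) hg

lemma slot_adm1 (e' : ℕ) {l : Fin (2 * e' + 2)} (hl : l.val < 2) (hg : Adm S α α g) :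
    Adm S (fun h => act1 e' (α h)) (fun h => act1 e' (α h)) (fun x => slot e' l (g x)) := by
  refine Adm.slot e' l (fun h l' => if l'.val < 2 then α h else 1) ?_
  simp only [if_pos hl]
  exact hg

lemma slot_swap2 (e' : ℕ) (l l' : Fin (2 * e' + 2)) (hg : Adm S α α g) :
    Eq0 S (fun h => act2 e' (α h)) (fun x => slot e' l (g x)) (fun x => slot e' l' (g x)) := by
  have hC : Adm (V := V) S (fun h => act2 e' (α h)) (fun h => act2 e' (α h))
      (fun _ => pmx (E09Aux.rwd ι e' (Equiv.swap l l'))) := by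
    refine Adm.pmx _ (Equiv.bijective _) ?_
    intro h y
    rfl
  refine Eq0.congr (Eq0.conj_const hC (slot_adm2 e' l' hg)) ?_ (fun x hx => rfl)
  intro x hx
  exact E09Aux.swap_slot e' l l' (g x)

lemma slot_swap1 (e' : ℕ) (hg : Adm S α α g) :
    Eq0 S (fun h => act1 e' (α h)) (fun x => slot e' 0 (g x)) (fun x => slot e' 1 (g x)) := by
  have h0 : (0 : Fin (2 * e' + 2)).val < 2 := by simp
  have h1 : (1 : Fin (2 * e' + 2)).val < 2 := by simp
  have hC : Adm (V := V) S (fun h => act1 e' (α h)) (fun h => act1 e' (α h))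
      (fun _ => pmx (E09Aux.rwd ι e' (Equiv.swap 0 1))) := by
    refine Adm.pmx _ (Equiv.bijective _) ?_
    intro h y
    funext l
    show (if ((Equiv.swap (0 : Fin (2 * e' + 2)) 1).symm l).val < 2 then α h else 1)
      (y ((Equiv.swap (0 : Fin (2 * e' + 2)) 1).symm l)) =
      (if l.val < 2 then α h else 1) (y ((Equiv.swap (0 : Fin (2 * e' + 2)) 1).symm l))
    have h2 : ((Equiv.swap (0 : Fin (2 * e' + 2)) 1).symm l).val < 2 ↔ l.val < 2 := by
      rw [Equiv.symm_swap]
      by_cases hl0 : l = 0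
      · subst hl0
        rw [Equiv.swap_apply_left]
        exact ⟨fun _ => h0, fun _ => h1⟩
      · by_cases hl1 : l = 1
        · subst hl1
          rw [Equiv.swap_apply_right]
          exact ⟨fun _ => h1, fun _ => h0⟩
        · rw [Equiv.swap_apply_of_ne_of_ne hl0 hl1]
    simp only [h2]
  refine Eq0.congr (Eq0.conj_const hC (slot_adm1 e' h1 hg)) ?_ (fun x hx => rfl)
  intro x hx
  exact E09Aux.swap_slot e' 0 1 (g x)

lemma ten2_eq (e' : ℕ) (hg : Adm S α α g) :
    Eq0 S (fun h => act2 e' (α h)) (fun x => ten2 e' (g x))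
      (fun x => slot e' 1 (g x) ^ (2 * e' + 2)) := by
  have key : ∀ T : Finset (Fin (2 * e' + 2)),
      Eq0 S (fun h => act2 e' (α h)) (fun x => E09Aux.pslot e' T (g x))
        (fun x => slot e' 1 (g x) ^ T.card) := by
    intro T
    induction T using Finset.induction_on with
    | empty =>
      refine Eq0.congr (Eq0.refl Adm.one) ?_ ?_
      · intro x hx
        exact (E09Aux.pslot_empty e' (g x)).symm
      · intro x hx
        rw [Finset.card_empty, pow_zero]
    | insert c T hc ih =>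
      refine Eq0.congr (ih.mul (slot_swap2 e' c 1 hg)) ?_ ?_
      · intro x hx
        exact E09Aux.pslot_insert e' hc (g x)
      · intro x hx
        show slot e' 1 (g x) ^ T.card * slot e' 1 (g x) = _
        rw [Finset.card_insert_of_notMem hc, pow_succ]
  have h := key Finset.univ
  rw [Finset.card_univ, Fintype.card_fin] at h
  refine Eq0.congr h ?_ (fun x hx => rfl)
  intro x hx
  exact E09Aux.pslot_univ e' (g x)

lemma ten1_eq (e' : ℕ) (hg : Adm S α α g) :
    Eq0 S (fun h => act1 e' (α h)) (fun x => ten1 e' (g x)) (fun x => slot e' 1 (g x) ^ 2) := by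
  have h1 : (1 : Fin (2 * e' + 2)).val < 2 := by simp
  refine Eq0.congr ((slot_swap1 e' hg).mul (Eq0.refl (slot_adm1 e' h1 hg))) ?_ ?_
  · intro x hx
    exact E09Aux.slot_mul_ten1 e' (g x)
  · intro x hx
    exact (pow_two _).symm

lemma psi_bijective (e' : ℕ) (ψ : ι → Equiv.Perm ι) : Function.Bijective (psi e' ψ) := by
  exact (E09Aux.psiE e' ψ).bijective

lemma psi_slot (e' : ℕ) (ψ : ι → Equiv.Perm ι) (a : Matrix ι ι ℂ) :
    pmx (psi e' ψ) * slot e' 1 a * (pmx (psi e' ψ))ᴴ = slot e' 1 a := by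
  funext w w'
  have h0 : (pmx (psi e' ψ) * slot e' 1 a * (pmx (psi e' ψ))ᴴ) w w' =
      slot e' 1 a ((E09Aux.psiE e' ψ).symm w) ((E09Aux.psiE e' ψ).symm w') :=
    E09Aux.pmx_conj (E09Aux.psiE e' ψ) (slot e' 1 a) w w'
  have hl0 : (0 : Fin (2 * e' + 2)).val < 2 := by simp
  have hl1 : (1 : Fin (2 * e' + 2)).val < 2 := by simp
  have h01 : (0 : Fin (2 * e' + 2)) ≠ 1 := by
    intro h
    have := congrArg Fin.val h
    simp at this
  have hap : ∀ (u : Wd ι e') (l : Fin (2 * e' + 2)), (E09Aux.psiE e' ψ).symm u l =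
    if l.val < 2 then u l else (ψ (u 0)).symm (u l) := fun _ _ => rfl
  rw [h0, E09Aux.slot_apply, E09Aux.slot_apply, hap w 1, hap w' 1, if_pos hl1, if_pos hl1]
  have h2 : (∀ x, x ≠ (1 : Fin (2 * e' + 2)) →
      (E09Aux.psiE e' ψ).symm w x = (E09Aux.psiE e' ψ).symm w' x) ↔ ∀ x, x ≠ 1 → w x = w' x := by
    constructor
    · intro h x hx
      have h3 := h 0 h01
      rw [hap, hap, if_pos hl0, if_pos hl0] at h3
      have h4 := h x hx
      rw [hap, hap, h3] at h4
      by_cases hx2 : x.val < 2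
      · rwa [if_pos hx2, if_pos hx2] at h4
      · rw [if_neg hx2, if_neg hx2] at h4
        exact (ψ (w' 0)).symm.injective h4
    · intro h x hx
      rw [hap, hap, h 0 h01, h x hx]
  by_cases h3 : ∀ x, x ≠ (1 : Fin (2 * e' + 2)) → w x = w' x
  · rw [if_pos h3, if_pos (h2.2 h3)]
  · rw [if_neg h3, if_neg (fun h4 => h3 (h2.1 h4))]

lemma psi_adm (e' : ℕ) (ψ : ι → Equiv.Perm ι)
    (hψ : ∀ h w, psi e' ψ (act2 e' (α h) w) = act1 e' (α h) (psi e' ψ w)) :
    Adm (V := V) S (fun h => act1 e' (α h)) (fun h => act2 e' (α h)) (fun _ => pmx (psi e' ψ)) := by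
  exact Adm.pmx _ (psi_bijective e' ψ) hψ

lemma psi_eq (e' : ℕ) (ψ : ι → Equiv.Perm ι)
    (hψ : ∀ h w, psi e' ψ (act2 e' (α h) w) = act1 e' (α h) (psi e' ψ w)) (hg : Adm S α α g) :
    Eq0 S (fun h => act1 e' (α h)) (fun x => pmx (psi e' ψ) * ten2 e' (g x) * (pmx (psi e' ψ))ᴴ)
      (fun x => slot e' 1 (g x) ^ (2 * e' + 2)) := by
  have hT := psi_adm (V := V) (S := S) e' ψ hψ
  refine Eq0.congr ((ten2_eq e' hg).conj hT) (fun x hx => rfl) ?_
  intro x hx
  have h1 := hT.uni x hx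
  have h2 := hT.uni' x hx
  have h3 := psi_slot e' ψ (g x)
  show pmx (psi e' ψ) * slot e' 1 (g x) ^ (2 * e' + 2) * (pmx (psi e' ψ))ᴴ = _
  have h4 : Commute (pmx (psi e' ψ) : Matrix (Wd ι e') (Wd ι e') ℂ) (slot e' 1 (g x)) := by
    show pmx (psi e' ψ) * slot e' 1 (g x) = slot e' 1 (g x) * pmx (psi e' ψ)
    conv_rhs => rw [← h3, Matrix.mul_assoc _ _ (pmx (psi e' ψ)), h1, Matrix.mul_one]
  have h5 := h4.pow_right (2 * e' + 2)
  have h6 : pmx (psi e' ψ) * slot e' 1 (g x) ^ (2 * e' + 2) =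
    slot e' 1 (g x) ^ (2 * e' + 2) * pmx (psi e' ψ) := h5
  rw [h6, Matrix.mul_assoc, h2, Matrix.mul_one]

/-- the key identity modulo null maps -/
theorem amp_ten1_eq (e' : ℕ) (ψ : ι → Equiv.Perm ι)
    (hψ : ∀ h w, psi e' ψ (act2 e' (α h) w) = act1 e' (α h) (psi e' ψ w)) (hg : Adm S α α g) :
    Eq0 S (fun h => act1n e' (e' + 1) (α h)) (fun x => amp (e' + 1) (ten1 e' (g x)))
      (fun x => Pool.HQ.blk (e' + 1) 0 (pmx (psi e' ψ) * ten2 e' (g x) * (pmx (psi e' ψ))ᴴ)) := by
  have h1 := amp_eq e' (Adm.ten1 e' hg)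
  have h2 := ((ten1_eq e' hg).blk (e' + 1) 0).pow (e' + 1)
  have h3 := ((psi_eq e' ψ hψ hg).blk (e' + 1) 0).symm
  refine Eq0.congr (h1.trans (h2.trans (Eq0.congr h3 ?_ (fun x hx => rfl)))) (fun x hx => rfl)
    (fun x hx => rfl)
  intro x hx
  show Pool.HQ.blk (e' + 1) 0 (slot e' 1 (g x) ^ (2 * e' + 2)) =
    Pool.HQ.blk (e' + 1) 0 (slot e' 1 (g x) ^ 2) ^ (e' + 1)
  have h4 : ∀ (A : Matrix (Wd ι e') (Wd ι e') ℂ) (m : ℕ), m = 2 * (e' + 1) →
      A ^ m = (A ^ 2) ^ (e' + 1) := by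
    intro A m hm
    rw [hm, pow_mul]
  rw [E09Aux.blk_pow]
  exact congrArg _ (h4 _ _ (by omega))

end tensor

end Pool.HQ
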