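import Pool.Agent.HQ.E09

/-!
MP_7936f4_al, THEOREM E, module E10: stable triviality of the doubled complement.

Notation: e = e'+1, W = Wd ι e', ι₂ = W × Fin e', permutations A1 h = act1 e' (α h), A2 h = act2 e' (α h),
T = pmx (psi e' ψ).
Let C be the permutation matrix of the bijection ι₂ ⊕ W → W × Fin e, inl (w,c) ↦ (w, c.succ),
inr w ↦ (psi w, 0); it is equivariant from sumCongr (act1n e' e') A2 to act1n e' e (hψ), so it is a constant
admissible map.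
(1) hp Cᴴ and hm Cᴴ are admissible on the star-shaped sets D₊, D₋ with values in square matrices indexed
    by W × Fin e, so they are null on S (Nul.of_star).
(2) rel, multiplied by C: (hm Cᴴ) (C (k ⊕ ten2 g) Cᴴ) = amp (ten1 g) (hp Cᴴ)   [CᴴC = 1], hence
    C (k ⊕ ten2 g) Cᴴ ~ amp (ten1 g) ~ blk 0 (T ten2(g) Tᴴ) (amp_ten1_eq) = C (1 ⊕ ten2 g) Cᴴ (compute).
(3) Therefore C (k ⊕ 1) Cᴴ = C (k ⊕ ten2 g) Cᴴ (C (1 ⊕ ten2 g) Cᴴ)ᴴ is null, so k ⊕ 1_W is null on S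
    (conjugate back by Cᴴ).
(4) e' ≥ 1.  Conjugate (k ⊕ 1_W) ⊕ 1_{W × Fin (e'-1)} (null by Nul.block) by the equivariant bijection
    (ι₂ ⊕ W) ⊕ (W × Fin (e'-1)) → ι₂ ⊕ ι₂, inl inl y ↦ inl y, inl inr w ↦ inr (psi w, 0), inr (w,c) ↦ inr (w, c+1)
    to get: k ⊕ 1_{ι₂} is null; exchange the two summands: 1 ⊕ k is null; the product k ⊕ k is null.
-/

namespace Pool.HQ

open scoped Matrix

section pm

variable {Y Y' : Type} [Fintype Y] [DecidableEq Y] [Fintype Y'] [DecidableEq Y']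

lemma E10_pmx_uni (f : Y → Y') (hf : Function.Bijective f) :
    (pmx f)ᴴ * pmx f = 1 ∧ pmx f * (pmx f)ᴴ = 1 := by
  have h := Adm.pmx (V := ℕ) (H := Empty) (S := Set.univ) (α := fun h => h.elim)
    (α' := fun h => h.elim) f hf (fun h => h.elim)
  exact ⟨h.uni 0 trivial, h.uni' 0 trivial⟩

lemma E10_conj_eq (f : Y → Y') (hf : Function.Bijective f) (A : Matrix Y Y ℂ) (B : Matrix Y' Y' ℂ)
    (h : ∀ x y, B (f x) (f y) = A x y) : pmx f * A * (pmx f)ᴴ = B := by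
  have h1 : pmx f * A = B * pmx f := by
    ext i y
    obtain ⟨x, rfl⟩ := hf.2 i
    simp only [Matrix.mul_apply, pmx]
    rw [Finset.sum_eq_single x, Finset.sum_eq_single (f y)]
    · simp [h]
    · intro j _ hj
      simp [hj]
    · intro hj
      exact absurd (Finset.mem_univ _) hj
    · intro x' _ hx'
      rw [if_neg, zero_mul]
      intro hcon
      exact hx' (hf.1 hcon.symm)
    · intro hj
      exact absurd (Finset.mem_univ _) hj
  rw [h1, Matrix.mul_assoc, (E10_pmx_uni f hf).2, Matrix.mul_one]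

lemma E10_conj_apply (f : Y → Y') (hf : Function.Bijective f) (A : Matrix Y Y ℂ) (x y : Y) :
    (pmx f * A * (pmx f)ᴴ) (f x) (f y) = A x y := by
  let e := Equiv.ofBijective f hf
  have h : pmx f * A * (pmx f)ᴴ = fun i j => A (e.symm i) (e.symm j) := by
    apply E10_conj_eq f hf
    intro x y
    have hx : e.symm (f x) = x := e.symm_apply_apply x
    have hy : e.symm (f y) = y := e.symm_apply_apply y
    rw [hx, hy]
  rw [h]
  have hx : e.symm (f x) = x := e.symm_apply_apply x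
  have hy : e.symm (f y) = y := e.symm_apply_apply y
  show A (e.symm (f x)) (e.symm (f y)) = A x y
  rw [hx, hy]

lemma E10_alg (C : Matrix Y' Y ℂ) (K T : Matrix Y Y ℂ) (hu : Cᴴ * C = 1) :
    Cᴴ * (C * K * Cᴴ * (C * T * Cᴴ)ᴴ) * (Cᴴ)ᴴ = K * Tᴴ := by
  rw [Matrix.conjTranspose_mul, Matrix.conjTranspose_mul, Matrix.conjTranspose_conjTranspose]
  have e2 : Cᴴ * (C * K * Cᴴ * (C * (Tᴴ * Cᴴ))) * C = (Cᴴ * C) * K * (Cᴴ * C) * Tᴴ * (Cᴴ * C) := by
    simp only [Matrix.mul_assoc]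
  rw [e2, hu, Matrix.one_mul, Matrix.mul_one, Matrix.mul_one]

end pm

lemma E10_nul_conj {V H Y Y' : Type} [Fintype Y] [DecidableEq Y] [Fintype Y'] [DecidableEq Y']
    {S : Set (V →₀ ℝ)} {α : H → Equiv.Perm Y} {α' : H → Equiv.Perm Y'}
    (f : Y → Y') (hf : Function.Bijective f) (hα : ∀ h y, f (α h y) = α' h (f y))
    {A : (V →₀ ℝ) → Matrix Y Y ℂ} {B : (V →₀ ℝ) → Matrix Y' Y' ℂ} (hA : Nul S α A)
    (h : ∀ p, ∀ x y, B p (f x) (f y) = A p x y) : Nul S α' B := by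
  have h1 := Nul.conj hA (Adm.pmx (V := V) (S := S) (α := α) (α' := α') f hf hα)
  exact Nul.congr h1 (fun p _ => E10_conj_eq f hf (A p) (B p) (h p))

/-- The first bijection. -/
def E10c (ι : Type) (e' : ℕ) (ψ : ι → Equiv.Perm ι) :
    (Wd ι e' × Fin e') ⊕ Wd ι e' → Wd ι e' × Fin (e' + 1)
  | Sum.inl p => (p.1, p.2.succ)
  | Sum.inr w => (psi e' ψ w, 0)

lemma E10c_bij (ι : Type) [Fintype ι] [DecidableEq ι] (e' : ℕ) (ψ : ι → Equiv.Perm ι) :
    Function.Bijective (E10c ι e' ψ) := by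
  have hb := psi_bijective e' ψ
  constructor
  · rintro (⟨w, i⟩ | w) (⟨w', i'⟩ | w') h
    · simp only [E10c, Prod.mk.injEq] at h
      obtain ⟨h1, h2⟩ := h
      have h3 := Fin.succ_injective _ h2
      rw [h1, h3]
    · simp only [E10c, Prod.mk.injEq] at h
      exact absurd h.2 (Fin.succ_ne_zero i)
    · simp only [E10c, Prod.mk.injEq] at h
      exact absurd h.2.symm (Fin.succ_ne_zero i')
    · simp only [E10c, Prod.mk.injEq] at h
      rw [hb.1 h.1]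
  · rintro ⟨w, i⟩
    refine Fin.cases ?_ (fun j => ?_) i
    · obtain ⟨w', hw'⟩ := hb.2 w
      exact ⟨Sum.inr w', by simp [E10c, hw']⟩
    · exact ⟨Sum.inl (w, j), by simp [E10c]⟩

lemma E10c_equiv {H ι : Type} [Fintype ι] [DecidableEq ι] (e' : ℕ) (α : H → Equiv.Perm ι)
    (ψ : ι → Equiv.Perm ι)
    (hψ : ∀ h w, psi e' ψ (act2 e' (α h) w) = act1 e' (α h) (psi e' ψ w)) (h : H)
    (x : (Wd ι e' × Fin e') ⊕ Wd ι e') :
    E10c ι e' ψ (Equiv.sumCongr (act1n e' e' (α h)) (act2 e' (α h)) x) =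
      act1n e' (e' + 1) (α h) (E10c ι e' ψ x) := by
  rcases x with ⟨w, i⟩ | w
  · simp [E10c, act1n]
  · simp [E10c, act1n, hψ]

/-- The second bijection. -/
def E10c2 (ι : Type) (f : ℕ) (ψ : ι → Equiv.Perm ι) :
    ((Wd ι (f + 1) × Fin (f + 1)) ⊕ Wd ι (f + 1)) ⊕ (Wd ι (f + 1) × Fin f) →
      (Wd ι (f + 1) × Fin (f + 1)) ⊕ (Wd ι (f + 1) × Fin (f + 1))
  | Sum.inl (Sum.inl y) => Sum.inl y
  | Sum.inl (Sum.inr w) => Sum.inr (psi (f + 1) ψ w, 0)
  | Sum.inr p => Sum.inr (p.1, p.2.succ)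

lemma E10c2_bij (ι : Type) [Fintype ι] [DecidableEq ι] (f : ℕ) (ψ : ι → Equiv.Perm ι) :
    Function.Bijective (E10c2 ι f ψ) := by
  have hb := psi_bijective (f + 1) ψ
  constructor
  · rintro ((y | w) | ⟨w, i⟩) ((y' | w') | ⟨w', i'⟩) h
    · simp only [E10c2, Sum.inl.injEq] at h
      rw [h]
    · simp [E10c2] at h
    · simp [E10c2] at h
    · simp [E10c2] at h
    · simp only [E10c2, Sum.inr.injEq, Prod.mk.injEq] at h
      rw [hb.1 h.1]
    · simp only [E10c2, Sum.inr.injEq, Prod.mk.injEq] at h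
      exact absurd h.2.symm (Fin.succ_ne_zero i')
    · simp [E10c2] at h
    · simp only [E10c2, Sum.inr.injEq, Prod.mk.injEq] at h
      exact absurd h.2 (Fin.succ_ne_zero i)
    · simp only [E10c2, Sum.inr.injEq, Prod.mk.injEq] at h
      obtain ⟨h1, h2⟩ := h
      have h3 := Fin.succ_injective _ h2
      rw [h1, h3]
  · rintro (y | ⟨w, i⟩)
    · exact ⟨Sum.inl (Sum.inl y), rfl⟩
    · refine Fin.cases ?_ (fun j => ?_) i
      · obtain ⟨w', hw'⟩ := hb.2 w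
        exact ⟨Sum.inl (Sum.inr w'), by simp [E10c2, hw']⟩
      · exact ⟨Sum.inr (w, j), by simp [E10c2]⟩

theorem stab_triv {V H ι : Type} [Fintype ι] [DecidableEq ι] (S Dp Dm : Set (V →₀ ℝ))
    (hSp : S ⊆ Dp) (hSm : S ⊆ Dm) (B : ℝ)
    (pp : V →₀ ℝ) (hpp : pp ∈ Dp) (hBp : ∀ x ∈ Dp, d1 pp x ≤ B)
    (hstarp : ∀ x ∈ Dp, ∀ s ∈ Set.Icc (0 : ℝ) 1, (1 - s) • pp + s • x ∈ Dp)
    (pm : V →₀ ℝ) (hpm : pm ∈ Dm) (hBm : ∀ x ∈ Dm, d1 pm x ≤ B)
    (hstarm : ∀ x ∈ Dm, ∀ s ∈ Set.Icc (0 : ℝ) 1, (1 - s) • pm + s • x ∈ Dm)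
    (e' : ℕ) (he' : 1 ≤ e') (α : H → Equiv.Perm ι) (ψ : ι → Equiv.Perm ι)
    (hψ : ∀ h w, psi e' ψ (act2 e' (α h) w) = act1 e' (α h) (psi e' ψ w))
    (g : (V →₀ ℝ) → Matrix ι ι ℂ) (hg : Adm S α α g)
    (k : (V →₀ ℝ) → Matrix (Wd ι e' × Fin e') (Wd ι e' × Fin e') ℂ)
    (hk : Adm S (fun h => act1n e' e' (α h)) (fun h => act1n e' e' (α h)) k)
    (hp hm : (V →₀ ℝ) → Matrix (Wd ι e' × Fin (e' + 1)) ((Wd ι e' × Fin e') ⊕ Wd ι e') ℂ)
    (hhp : Adm Dp (fun h => act1n e' (e' + 1) (α h))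
      (fun h => Equiv.sumCongr (act1n e' e' (α h)) (act2 e' (α h))) hp)
    (hhm : Adm Dm (fun h => act1n e' (e' + 1) (α h))
      (fun h => Equiv.sumCongr (act1n e' e' (α h)) (act2 e' (α h))) hm)
    (hrel : ∀ x ∈ S, hm x * Matrix.fromBlocks (k x) 0 0 (ten2 e' (g x)) =
      amp (e' + 1) (ten1 e' (g x)) * hp x) :
    Nul S (fun h => Equiv.sumCongr (act1n e' e' (α h)) (act1n e' e' (α h)))
      (fun x => Matrix.fromBlocks (k x) 0 0 (k x)) := by
  obtain ⟨f, rfl⟩ : ∃ f, e' = f + 1 := ⟨e' - 1, by omega⟩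
  set c := E10c ι (f + 1) ψ with hc
  have hcb : Function.Bijective c := E10c_bij ι (f + 1) ψ
  have hce := E10c_equiv (f + 1) α ψ hψ
  have hCadm : ∀ S' : Set (V →₀ ℝ), Adm (V := V) S' (fun h => act1n (f + 1) (f + 1 + 1) (α h))
      (fun h => Equiv.sumCongr (act1n (f + 1) (f + 1) (α h)) (act2 (f + 1) (α h)))
      (fun _ => pmx c) := fun S' => Adm.pmx c hcb hce
  -- step 1
  have hPadm : Adm Dp (fun h => act1n (f + 1) (f + 1 + 1) (α h))
      (fun h => act1n (f + 1) (f + 1 + 1) (α h)) (fun x => hp x * (pmx c)ᴴ) :=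
    Adm.mul hhp (Adm.star (hCadm Dp))
  have hMadm : Adm Dm (fun h => act1n (f + 1) (f + 1 + 1) (α h))
      (fun h => act1n (f + 1) (f + 1 + 1) (α h)) (fun x => hm x * (pmx c)ᴴ) :=
    Adm.mul hhm (Adm.star (hCadm Dm))
  have hPnul : Nul S (fun h => act1n (f + 1) (f + 1 + 1) (α h)) (fun x => hp x * (pmx c)ᴴ) :=
    Nul.of_star pp hpp B hBp hstarp hSp hPadm
  have hMnul : Nul S (fun h => act1n (f + 1) (f + 1 + 1) (α h)) (fun x => hm x * (pmx c)ᴴ) :=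
    Nul.of_star pm hpm B hBm hstarm hSm hMadm
  -- step 2
  have hKBadm : Adm S (fun h => Equiv.sumCongr (act1n (f + 1) (f + 1) (α h)) (act2 (f + 1) (α h)))
      (fun h => Equiv.sumCongr (act1n (f + 1) (f + 1) (α h)) (act2 (f + 1) (α h)))
      (fun x => Matrix.fromBlocks (k x) 0 0 (ten2 (f + 1) (g x))) :=
    Adm.blocks hk (Adm.ten2 (f + 1) hg)
  have hQadm : Adm S (fun h => act1n (f + 1) (f + 1 + 1) (α h))
      (fun h => act1n (f + 1) (f + 1 + 1) (α h))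
      (fun x => pmx c * Matrix.fromBlocks (k x) 0 0 (ten2 (f + 1) (g x)) * (pmx c)ᴴ) :=
    Adm.mul (Adm.mul (hCadm S) hKBadm) (Adm.star (hCadm S))
  have hAadm : Adm S (fun h => act1n (f + 1) (f + 1 + 1) (α h))
      (fun h => act1n (f + 1) (f + 1 + 1) (α h))
      (fun x => amp (f + 1 + 1) (ten1 (f + 1) (g x))) :=
    Adm.amp (f + 1 + 1) (Adm.ten1 (f + 1) hg)
  obtain ⟨hu1, hu2⟩ := E10_pmx_uni c hcb
  have hQA : Eq0 S (fun h => act1n (f + 1) (f + 1 + 1) (α h))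
      (fun x => pmx c * Matrix.fromBlocks (k x) 0 0 (ten2 (f + 1) (g x)) * (pmx c)ᴴ)
      (fun x => amp (f + 1 + 1) (ten1 (f + 1) (g x))) := by
    refine ⟨hQadm, hAadm, ?_⟩
    have h1 := Nul.mul (Nul.star hMnul) (Nul.conj hPnul hAadm)
    refine Nul.congr h1 ?_
    intro x hx
    have hMu := (hMadm.mono hSm).uni x hx
    have hr := hrel x hx
    have e1 : hm x * (pmx c)ᴴ *
        (pmx c * Matrix.fromBlocks (k x) 0 0 (ten2 (f + 1) (g x)) * (pmx c)ᴴ) =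
        amp (f + 1 + 1) (ten1 (f + 1) (g x)) * (hp x * (pmx c)ᴴ) := by
      have e2 : hm x * (pmx c)ᴴ *
          (pmx c * Matrix.fromBlocks (k x) 0 0 (ten2 (f + 1) (g x)) * (pmx c)ᴴ) =
          hm x * ((pmx c)ᴴ * pmx c) * Matrix.fromBlocks (k x) 0 0 (ten2 (f + 1) (g x)) *
            (pmx c)ᴴ := by
        simp only [Matrix.mul_assoc]
      rw [e2, hu1, Matrix.mul_one, hr, Matrix.mul_assoc]
    show (hm x * (pmx c)ᴴ)ᴴ * (amp (f + 1 + 1) (ten1 (f + 1) (g x)) * (hp x * (pmx c)ᴴ) *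
      (amp (f + 1 + 1) (ten1 (f + 1) (g x)))ᴴ) = pmx c *
      Matrix.fromBlocks (k x) 0 0 (ten2 (f + 1) (g x)) * (pmx c)ᴴ *
      (amp (f + 1 + 1) (ten1 (f + 1) (g x)))ᴴ
    rw [← e1, ← Matrix.mul_assoc, ← Matrix.mul_assoc, hMu, Matrix.one_mul]
  have hAB := amp_ten1_eq (f + 1) ψ hψ hg
  have hQB := Eq0.trans hQA hAB
  -- the block matrix
  have hBcomp : ∀ x, pmx c * Matrix.fromBlocks
      (1 : Matrix (Wd ι (f + 1) × Fin (f + 1)) (Wd ι (f + 1) × Fin (f + 1)) ℂ) 0 0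
      (ten2 (f + 1) (g x)) * (pmx c)ᴴ =
      Pool.HQ.blk (f + 1 + 1) 0 (pmx (psi (f + 1) ψ) * ten2 (f + 1) (g x) *
        (pmx (psi (f + 1) ψ))ᴴ) := by
    intro x
    apply E10_conj_eq c hcb
    rintro (⟨w, i⟩ | w) (⟨w', i'⟩ | w')
    · simp only [hc, E10c, blk, Matrix.fromBlocks_apply₁₁, Matrix.one_apply, Prod.mk.injEq]
      by_cases h2 : i = i'
      · subst h2
        simp
      · rw [if_neg (fun h => h2 (Fin.succ_injective _ h)), if_neg (fun h => h2 h.2)]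
    · simp only [hc, E10c, blk, Matrix.fromBlocks_apply₁₂, Matrix.zero_apply]
      rw [if_neg (Fin.succ_ne_zero i)]
    · simp only [hc, E10c, blk, Matrix.fromBlocks_apply₂₁, Matrix.zero_apply]
      rw [if_neg (fun h => Fin.succ_ne_zero i' h.symm)]
    · simp only [hc, E10c, blk, Matrix.fromBlocks_apply₂₂, if_true]
      exact E10_conj_apply (psi (f + 1) ψ) (psi_bijective (f + 1) ψ) _ w w'
  -- step 3
  have hn3 : Nul S (fun h => Equiv.sumCongr (act1n (f + 1) (f + 1) (α h)) (act2 (f + 1) (α h)))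
      (fun x => Matrix.fromBlocks (k x) 0 0 (1 : Matrix (Wd ι (f + 1)) (Wd ι (f + 1)) ℂ)) := by
    have h1 := Nul.conj hQB.2.2 (Adm.star (hCadm S))
    refine Nul.congr h1 ?_
    intro x hx
    have ht2 : ten2 (f + 1) (g x) * (ten2 (f + 1) (g x))ᴴ = 1 :=
      (Adm.ten2 (f + 1) hg).uni' x hx
    show (pmx c)ᴴ * (pmx c * Matrix.fromBlocks (k x) 0 0 (ten2 (f + 1) (g x)) * (pmx c)ᴴ *
      (Pool.HQ.blk (f + 1 + 1) 0 (pmx (psi (f + 1) ψ) * ten2 (f + 1) (g x) *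
        (pmx (psi (f + 1) ψ))ᴴ))ᴴ) * ((pmx c)ᴴ)ᴴ = Matrix.fromBlocks (k x) 0 0 1
    rw [← hBcomp x, E10_alg (pmx c) _ _ hu1, Matrix.fromBlocks_conjTranspose,
      Matrix.fromBlocks_multiply]
    simp [ht2]
  -- step 4
  have hn4 := Nul.block (fun h => act1n (f + 1) f (α h)) hn3
  have hn5 : Nul S (fun h => Equiv.sumCongr (act1n (f + 1) (f + 1) (α h))
      (act1n (f + 1) (f + 1) (α h))) (fun x => Matrix.fromBlocks (k x) 0 0 1) := by
    refine E10_nul_conj (E10c2 ι f ψ) (E10c2_bij ι f ψ) ?_ hn4 ?_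
    · intro h y
      rcases y with (⟨w, i⟩ | w) | ⟨w, i⟩
      · simp [E10c2, act1n]
      · simp [E10c2, act1n, hψ]
      · simp [E10c2, act1n]
    · intro p
      rintro ((⟨w, i⟩ | w) | ⟨w, i⟩) ((⟨w', i'⟩ | w') | ⟨w', i'⟩)
      · simp [E10c2]
      · simp [E10c2]
      · simp [E10c2]
      · simp [E10c2]
      · simp only [E10c2, Matrix.fromBlocks_apply₂₂, Matrix.fromBlocks_apply₁₁, Matrix.one_apply,
          Prod.mk.injEq, and_true]
        by_cases hw : w = w'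
        · rw [hw]
          simp
        · rw [if_neg hw, if_neg (fun h => hw ((psi_bijective (f + 1) ψ).1 h))]
      · simp only [E10c2, Matrix.fromBlocks_apply₂₂, Matrix.fromBlocks_apply₁₂, Matrix.one_apply,
          Prod.mk.injEq, Matrix.zero_apply]
        rw [if_neg (fun h => Fin.succ_ne_zero i' h.2.symm)]
      · simp [E10c2]
      · simp only [E10c2, Matrix.fromBlocks_apply₂₂, Matrix.fromBlocks_apply₂₁, Matrix.one_apply,
          Prod.mk.injEq, Matrix.zero_apply]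
        rw [if_neg (fun h => Fin.succ_ne_zero i h.2)]
      · simp only [E10c2, Matrix.fromBlocks_apply₂₂, Matrix.one_apply, Prod.mk.injEq]
        by_cases h2 : i = i'
        · subst h2
          simp
        · rw [if_neg (fun h => h2 (Fin.succ_injective _ h.2)), if_neg (fun h => h2 h.2)]
  have hn6 : Nul S (fun h => Equiv.sumCongr (act1n (f + 1) (f + 1) (α h))
      (act1n (f + 1) (f + 1) (α h))) (fun x => Matrix.fromBlocks 1 0 0 (k x)) := by
    refine E10_nul_conj (Sum.swap) (Equiv.sumComm _ _).bijective ?_ hn5 ?_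
    · intro h y
      rcases y with y | y <;> simp
    · intro p
      rintro (y | y) (y' | y') <;> simp
  refine Nul.congr (Nul.mul hn5 hn6) ?_
  intro x _
  show Matrix.fromBlocks (k x) 0 0 1 * Matrix.fromBlocks 1 0 0 (k x) =
    Matrix.fromBlocks (k x) 0 0 (k x)
  rw [Matrix.fromBlocks_multiply]
  simp

end Pool.HQ
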