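import Pool.Agent.HQ.E08b

/-!
MP_7936f4_al, THEOREM E, module E11: a null map on the boundary of a simplex F extends to the simplex.

Let n = |F|, b = bary F, m(x) = n min_{v∈F} x_v ∈ [0,1] (= 1 iff x = b, = 0 iff x is in the boundary
S = {x ∈ sx F : ∃ v ∈ F, x v = 0}); m is n-Lipschitz.  For m(x) ≤ 1/2 put y(x) = (x - m b)/(1 - m) ∈ S
(nonnegative as x_v ≥ m/n); y is Lipschitz on {m ≤ 1/2} with constant 2(1 + 2n) or so
(x - m b and 1/(1-m) ≤ 2 are bounded Lipschitz).  Let Fh be the homotopy of f, and put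
K x = Fh (y x) (1 - 2 m x) if m x < 1/2, K x = 1 if m x ≥ 1/2.
On S: m = 0, y x = x, K x = Fh x 1 = f x.  Lipschitz: for m x, m x' ≤ 1/2 clear (at m = 1/2 the formula gives
Fh y 0 = 1 as well); both ≥ 1/2 constant; m x < 1/2 ≤ m x': |K x - 1| = |Fh (y x) (1-2m) - Fh (y x) 0| ≤
L (1 - 2 m x) ≤ 2 L (m x' - m x) ≤ 2 L n d1 x x'.  Bounded: unitary matrices have entries ≤ 1.
If |F| = 1 then S is empty and m = 1 everywhere on sx F: K = 1.
-/

namespace Pool.HQ

open scoped Matrix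

/-- the smallest coordinate -/
noncomputable def emu {V : Type} (F : Finset V) (hF : F.Nonempty) (x : V →₀ ℝ) : ℝ :=
  F.inf' hF (fun v => x v)

lemma emu_le {V : Type} {F : Finset V} (hF : F.Nonempty) (x : V →₀ ℝ) {v : V} (hv : v ∈ F) :
    emu F hF x ≤ x v := Finset.inf'_le _ hv

lemma emu_att {V : Type} {F : Finset V} (hF : F.Nonempty) (x : V →₀ ℝ) :
    ∃ v ∈ F, emu F hF x = x v := Finset.exists_mem_eq_inf' hF _

lemma emu_lip {V : Type} {F : Finset V} (hF : F.Nonempty) (x y : V →₀ ℝ) :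
    |emu F hF x - emu F hF y| ≤ d1 x y := by
  have key : ∀ x y : V →₀ ℝ, emu F hF x - emu F hF y ≤ d1 x y := by
    intro x y
    obtain ⟨v, hv, h⟩ := emu_att hF y
    have h1 := emu_le hF x hv
    have h2 := abs_sub_le_d1 x y v
    have h3 := le_abs_self (x v - y v)
    linarith
  rw [abs_le]
  have h1 := key x y
  have h2 := key y x
  rw [d1_comm] at h2
  constructor <;> linarith

lemma emu_nonneg {V : Type} {F : Finset V} (hF : F.Nonempty) {x : V →₀ ℝ} (hx : x ∈ sx F) :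
    0 ≤ emu F hF x := by
  obtain ⟨v, hv, h⟩ := emu_att hF x
  rw [h]
  exact hx.1 v

/-- the projection to the boundary from the barycentre -/
noncomputable def eyy {V : Type} (F : Finset V) (hF : F.Nonempty) (x : V →₀ ℝ) : V →₀ ℝ :=
  (1 - (F.card : ℝ) * emu F hF x)⁻¹ • (x - ((F.card : ℝ) * emu F hF x) • bary F)

lemma eyy_mem {V : Type} {F : Finset V} (hF : F.Nonempty) {x : V →₀ ℝ} (hx : x ∈ sx F)
    (hm : (F.card : ℝ) * emu F hF x ≤ 1 / 2) :
    eyy F hF x ∈ {x | x ∈ sx F ∧ ∃ v ∈ F, x v = 0} := by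
  classical
  have hn : (0 : ℝ) < F.card := by exact_mod_cast Finset.card_pos.mpr hF
  have h1m : 0 < 1 - (F.card : ℝ) * emu F hF x := by linarith
  have hval : ∀ v ∈ F, eyy F hF x v = (1 - (F.card : ℝ) * emu F hF x)⁻¹ * (x v - emu F hF x) := by
    intro v hv
    unfold eyy
    rw [Finsupp.smul_apply, Finsupp.sub_apply, Finsupp.smul_apply, bary_apply, if_pos hv,
      smul_eq_mul, smul_eq_mul]
    congr 2
    field_simp
  have hval0 : ∀ v, v ∉ F → eyy F hF x v = 0 := by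
    intro v hv
    unfold eyy
    have hxv : x v = 0 := by
      by_contra h
      exact hv (hx.2.1 (Finsupp.mem_support_iff.mpr h))
    rw [Finsupp.smul_apply, Finsupp.sub_apply, Finsupp.smul_apply, bary_apply, if_neg hv,
      hxv]
    simp
  have hsup : (eyy F hF x).support ⊆ F := by
    intro v hv
    by_contra h
    exact (Finsupp.mem_support_iff.mp hv) (hval0 v h)
  refine ⟨⟨?_, hsup, ?_⟩, ?_⟩
  · intro v
    by_cases hv : v ∈ F
    · rw [hval v hv]
      have := emu_le hF x hv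
      exact mul_nonneg (inv_nonneg.mpr h1m.le) (by linarith)
    · rw [hval0 v hv]
  · rw [Finset.sum_subset hsup (fun v _ h => by rwa [Finsupp.notMem_support_iff] at h),
      Finset.sum_congr rfl hval, ← Finset.mul_sum, Finset.sum_sub_distrib,
      sx_sum hx hx.2.1, Finset.sum_const, nsmul_eq_mul]
    exact inv_mul_cancel₀ h1m.ne'
  · obtain ⟨v, hv, h⟩ := emu_att hF x
    refine ⟨v, hv, ?_⟩
    rw [hval v hv, h, sub_self, mul_zero]

lemma eyy_lip {V : Type} {F : Finset V} (hF : F.Nonempty) {x y : V →₀ ℝ} (hx : x ∈ sx F)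
    (hy : y ∈ sx F) (hmx : (F.card : ℝ) * emu F hF x ≤ 1 / 2)
    (hmy : (F.card : ℝ) * emu F hF y ≤ 1 / 2) :
    d1 (eyy F hF x) (eyy F hF y) ≤ (2 + 10 * F.card) * d1 x y := by
  have hn : (0 : ℝ) < F.card := by exact_mod_cast Finset.card_pos.mpr hF
  obtain ⟨n, hnd⟩ : ∃ n : ℝ, n = F.card := ⟨_, rfl⟩
  obtain ⟨m, hm⟩ : ∃ m : ℝ, m = n * emu F hF x := ⟨_, rfl⟩
  obtain ⟨m', hm'⟩ : ∃ m' : ℝ, m' = n * emu F hF y := ⟨_, rfl⟩
  have hmm : |m - m'| ≤ n * d1 x y := by
    rw [hm, hm', ← mul_sub, abs_mul, abs_of_pos (by rw [hnd]; exact hn)]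
    exact mul_le_mul_of_nonneg_left (emu_lip hF x y) (by rw [hnd]; exact hn.le)
  have hd := d1_nonneg x y
  have hm0 : 0 ≤ m := by
    rw [hm, hnd]
    exact mul_nonneg hn.le (emu_nonneg hF hx)
  have hm0' : 0 ≤ m' := by
    rw [hm', hnd]
    exact mul_nonneg hn.le (emu_nonneg hF hy)
  rw [← hnd] at hn hmx hmy ⊢
  rw [← hm] at hmx
  rw [← hm'] at hmy
  have hb : n1 (bary F) = 1 := sx_n1 (bary_mem hF)
  have e : eyy F hF x - eyy F hF y = (1 - m)⁻¹ • ((x - y) + (-(m - m')) • bary F) +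
      ((1 - m)⁻¹ - (1 - m')⁻¹) • (y + (-m') • bary F) := by
    unfold eyy
    rw [← hnd, ← hm, ← hm']
    ext v
    simp only [Finsupp.sub_apply, Finsupp.add_apply, Finsupp.smul_apply, smul_eq_mul]
    ring
  have i1 : 0 < (1 - m)⁻¹ := inv_pos.mpr (by linarith)
  have i1' : 0 < (1 - m')⁻¹ := inv_pos.mpr (by linarith)
  have i2 : (1 - m)⁻¹ ≤ 2 := by
    rw [inv_le_comm₀ (by linarith) (by norm_num)]
    linarith
  have i2' : (1 - m')⁻¹ ≤ 2 := by
    rw [inv_le_comm₀ (by linarith) (by norm_num)]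
    linarith
  have i3 : |(1 - m)⁻¹ - (1 - m')⁻¹| ≤ 4 * (n * d1 x y) := by
    have h1 : (1 - m)⁻¹ - (1 - m')⁻¹ = (m - m') * ((1 - m)⁻¹ * (1 - m')⁻¹) := by
      have : (1 - m) ≠ 0 := by linarith
      have : (1 - m') ≠ 0 := by linarith
      field_simp
      ring
    rw [h1, abs_mul, abs_of_pos (mul_pos i1 i1')]
    have h2 : (1 - m)⁻¹ * (1 - m')⁻¹ ≤ 4 := by nlinarith
    have h3 : 0 ≤ n * d1 x y := mul_nonneg hn.le hd
    calc |m - m'| * ((1 - m)⁻¹ * (1 - m')⁻¹) ≤ (n * d1 x y) * 4 :=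
          mul_le_mul hmm h2 (mul_pos i1 i1').le h3
      _ = 4 * (n * d1 x y) := by ring
  have n1a : n1 ((x - y) + (-(m - m')) • bary F) ≤ d1 x y + n * d1 x y := by
    refine (n1_add_le _ _).trans ?_
    rw [n1_smul, hb, mul_one, abs_neg]
    exact add_le_add (le_refl _) hmm
  have n1b : n1 (y + (-m') • bary F) ≤ 3 / 2 := by
    refine (n1_add_le _ _).trans ?_
    rw [n1_smul, hb, mul_one, abs_neg, sx_n1 hy, abs_of_nonneg hm0']
    linarith
  have n1a0 := n1_nonneg ((x - y) + (-(m - m')) • bary F)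
  have n1b0 := n1_nonneg (y + (-m') • bary F)
  show n1 (eyy F hF x - eyy F hF y) ≤ _
  rw [e]
  refine (n1_add_le _ _).trans ?_
  rw [n1_smul, n1_smul, abs_of_pos i1]
  have t1 : (1 - m)⁻¹ * n1 ((x - y) + (-(m - m')) • bary F) ≤ 2 * (d1 x y + n * d1 x y) :=
    mul_le_mul i2 n1a n1a0 (by norm_num)
  have t2 : |(1 - m)⁻¹ - (1 - m')⁻¹| * n1 (y + (-m') • bary F) ≤ 4 * (n * d1 x y) * (3 / 2) :=
    mul_le_mul i3 n1b n1b0 (by positivity)
  have t3 : 0 ≤ n * d1 x y := mul_nonneg hn.le hd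
  nlinarith

theorem cone_ext {V H Y : Type} [Fintype Y] [DecidableEq Y] (F : Finset V) (hF : F.Nonempty)
    (α : H → Equiv.Perm Y) (f : (V →₀ ℝ) → Matrix Y Y ℂ)
    (hf : Nul {x | x ∈ sx F ∧ ∃ v ∈ F, x v = 0} α f) :
    ∃ K : (V →₀ ℝ) → Matrix Y Y ℂ, Adm (sx F) α α K ∧
      ∀ x ∈ sx F, (∃ v ∈ F, x v = 0) → K x = f x := by
  classical
  obtain ⟨Fh, hF0, hF1, hFu, hFbl⟩ := hf
  have hn : (0 : ℝ) < F.card := by exact_mod_cast Finset.card_pos.mpr hF
  obtain ⟨m, hm⟩ : ∃ m : (V →₀ ℝ) → ℝ, ∀ x, m x = (F.card : ℝ) * emu F hF x := ⟨_, fun _ => rfl⟩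
  obtain ⟨K, hK1, hK2⟩ : ∃ K : (V →₀ ℝ) → Matrix Y Y ℂ,
      (∀ x, m x < 1 / 2 → K x = Fh (eyy F hF x) (1 - 2 * m x)) ∧
      (∀ x, ¬ m x < 1 / 2 → K x = 1) :=
    ⟨fun x => if m x < 1 / 2 then Fh (eyy F hF x) (1 - 2 * m x) else 1,
      fun x h => by simp only [if_pos h], fun x h => by simp only [if_neg h]⟩
  have hm0 : ∀ x ∈ sx F, 0 ≤ m x := fun x hx => by
    rw [hm]
    exact mul_nonneg hn.le (emu_nonneg hF hx)
  have hmlip : ∀ x y, |m x - m y| ≤ F.card * d1 x y := by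
    intro x y
    rw [hm, hm, ← mul_sub, abs_mul, abs_of_pos hn]
    exact mul_le_mul_of_nonneg_left (emu_lip hF x y) hn.le
  have hS : ∀ x ∈ sx F, m x < 1 / 2 → eyy F hF x ∈ {x | x ∈ sx F ∧ ∃ v ∈ F, x v = 0} := by
    intro x hx h
    exact eyy_mem hF hx (by rw [← hm]; exact h.le)
  have hI : ∀ x ∈ sx F, m x < 1 / 2 → 1 - 2 * m x ∈ Set.Icc (0 : ℝ) 1 := by
    intro x hx h
    have := hm0 x hx
    constructor <;> linarith
  have huni : ∀ x ∈ sx F, (K x)ᴴ * K x = 1 := by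
    intro x hx
    by_cases h : m x < 1 / 2
    · rw [hK1 x h]
      exact (hFu _ (hS x hx h) _ (hI x hx h)).1
    · rw [hK2 x h]
      simp
  refine ⟨K, ⟨huni, ?_, ?_, ?_⟩, ?_⟩
  · intro x hx
    exact mul_eq_one_comm.mp (huni x hx)
  · intro x hx h i j
    by_cases hlt : m x < 1 / 2
    · rw [hK1 x hlt]
      exact (hFu _ (hS x hx hlt) _ (hI x hx hlt)).2 h i j
    · rw [hK2 x hlt, Matrix.one_apply, Matrix.one_apply]
      simp
  · intro i j
    obtain ⟨C, hC, hb, hl⟩ := hFbl i j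
    have mixed : ∀ x ∈ sx F, ∀ y ∈ sx F, m x < 1 / 2 → ¬ m y < 1 / 2 →
        ‖K x i j - K y i j‖ ≤ C * ((2 + 12 * F.card) * d1 x y) := by
      intro x hx y hy h1 h2
      rw [hK1 x h1, hK2 y h2, ← hF0 _ (hS x hx h1)]
      have h3 := hl (eyy F hF x, 1 - 2 * m x) ⟨hS x hx h1, hI x hx h1⟩ (eyy F hF x, 0)
        ⟨hS x hx h1, by norm_num⟩
      refine h3.trans (mul_le_mul_of_nonneg_left ?_ hC)
      unfold dI
      simp only
      rw [d1_self, zero_add, sub_zero, abs_of_nonneg (hI x hx h1).1]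
      have h4 := hmlip x y
      rw [abs_sub_comm] at h4
      have h5 := le_abs_self (m y - m x)
      have h6 := d1_nonneg x y
      have h7 : 0 ≤ F.card * d1 x y := mul_nonneg hn.le h6
      nlinarith
    refine ⟨C + 1 + C * (2 + 12 * F.card), by positivity, ?_, ?_⟩
    · intro x hx
      have hp : 0 ≤ C * (2 + 12 * (F.card : ℝ)) := by positivity
      by_cases h : m x < 1 / 2
      · simp only [hK1 x h]
        have := hb (eyy F hF x, 1 - 2 * m x) ⟨hS x hx h, hI x hx h⟩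
        simp only at this
        linarith
      · simp only [hK2 x h]
        have h1 : ‖(1 : Matrix Y Y ℂ) i j‖ ≤ 1 := by
          rw [Matrix.one_apply]
          split_ifs <;> simp
        linarith
    · intro x hx y hy
      have hd := d1_nonneg x y
      have goal : ‖K x i j - K y i j‖ ≤ C * ((2 + 12 * F.card) * d1 x y) := by
        by_cases h1 : m x < 1 / 2 <;> by_cases h2 : m y < 1 / 2
        · rw [hK1 x h1, hK1 y h2]
          have h3 := hl (eyy F hF x, 1 - 2 * m x) ⟨hS x hx h1, hI x hx h1⟩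
            (eyy F hF y, 1 - 2 * m y) ⟨hS y hy h2, hI y hy h2⟩
          refine h3.trans (mul_le_mul_of_nonneg_left ?_ hC)
          unfold dI
          simp only
          have h4 := eyy_lip hF hx hy (by rw [← hm]; exact h1.le) (by rw [← hm]; exact h2.le)
          have h5 : |1 - 2 * m x - (1 - 2 * m y)| = 2 * |m x - m y| := by
            rw [show 1 - 2 * m x - (1 - 2 * m y) = 2 * (m y - m x) by ring, abs_mul,
              abs_of_pos (by norm_num : (0 : ℝ) < 2), abs_sub_comm]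
          rw [h5]
          have h6 := hmlip x y
          linarith
        · exact mixed x hx y hy h1 h2
        · have h3 := mixed y hy x hx h2 h1
          rw [norm_sub_rev, d1_comm]
          exact h3
        · rw [hK2 x h1, hK2 y h2, sub_self, norm_zero]
          positivity
      refine goal.trans ?_
      have hp : 0 ≤ (C + 1) * d1 x y := by positivity
      nlinarith
  · rintro x hx ⟨v, hv, hxv⟩
    have h0 : emu F hF x = 0 := by
      apply le_antisymm
      · rw [← hxv]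
        exact emu_le hF x hv
      · exact emu_nonneg hF hx
    have hmx : m x = 0 := by rw [hm, h0, mul_zero]
    have hy : eyy F hF x = x := by
      unfold eyy
      rw [h0]
      simp
    rw [hK1 x (by rw [hmx]; norm_num), hy, hmx]
    have := hF1 x ⟨hx, v, hv, hxv⟩
    simpa using this

end Pool.HQ
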