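import Pool.Agent.HQ.E01
import Pool.Agent.HQ.E02

/-!
MP_7936f4_al, THEOREM E, module E12: elementary equivariance lemmas.

* free_conj: free actions of a group H on the same finite set are conjugate: both decompose into
  |ι|/|H| copies of H (ι nonempty forces H finite); if ι is empty take σ = 1.
* free_exists: ι ≃ H × Fin m with m = |ι|/|H|, left multiplication on the first factor.
* orbit_section: r s = representative of the orbit of s (Quotient.out of MulAction.orbitRel), γ s with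
  γ s • r s = s.
* equiv_choice: with r, γ as above (restricted to S'), c s := T (γ s) (r s) (x_{r s}), where x_{r s} is given
  by hex (r s ∈ S' as r s = (γ s)⁻¹ • s).  Then c (g • s) = T (γ (g•s)) (r s) x, T g s (c s) =
  T (g * γ s) (r s) x, and g * γ s = γ (g•s) * h with h = (γ (g•s))⁻¹ g γ s fixing r s:
  T (γ(g•s) * h) (r s) x = T (γ (g•s)) (r s) (T h (r s) x) = T (γ (g•s)) (r s) x.
* exists_psi: G acts on the set Φ of pairs (s,i), s ∈ K, s.card ≤ k, by g(s,i) = (g•s, π g s i) (pimul),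
  freely (free).  Choose an equivariant map κ : Φ → G, κ (g•s) (π g s i) = g * κ s i (κ = 1 on orbit
  representatives), and put ψ s i := π (κ s i)⁻¹ s.  Then
  ψ (g•s) (π g s i) * π g s = π (κ⁻¹ g⁻¹) (g•s) * π g s = π (κ⁻¹ g⁻¹ g) s = ψ s i.
-/

namespace Pool.HQ

open scoped Pointwise Matrix

theorem orbit_section_aux (G S : Type) [Group G] [MulAction G S] :
    ∃ (r : S → S) (γ : S → G), (∀ s, γ s • r s = s) ∧ ∀ (g : G) s, r (g • s) = r s := by
  have h : ∀ s : S, ∃ g : G, g • (Quotient.out (Quotient.mk (MulAction.orbitRel G S) s)) = s := by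
    intro s
    have h1 : (Quotient.mk (MulAction.orbitRel G S) (Quotient.out
        (Quotient.mk (MulAction.orbitRel G S) s))) = Quotient.mk (MulAction.orbitRel G S) s :=
      Quotient.out_eq _
    have h2 := Quotient.exact h1
    obtain ⟨g, hg⟩ := MulAction.mem_orbit_iff.1 ((MulAction.orbitRel_apply).1 h2)
    exact ⟨g⁻¹, by rw [← hg, inv_smul_smul]⟩
  choose γ hγ using h
  refine ⟨fun s => Quotient.out (Quotient.mk (MulAction.orbitRel G S) s), γ, hγ, fun g s => ?_⟩
  have h3 : Quotient.mk (MulAction.orbitRel G S) (g • s) =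
      Quotient.mk (MulAction.orbitRel G S) s :=
    Quotient.sound (MulAction.orbitRel_apply.2 (MulAction.mem_orbit s g))
  simp only [h3]

/-- a free action is a product of an index set with the group -/
theorem free_equiv {H ι : Type} [Group H] (α : H →* Equiv.Perm ι)
    (hα : ∀ h i, α h i = i → h = 1) :
    ∃ (Q : Set ι) (E : ι ≃ Q × H), ∀ h i, E (α h i) = ((E i).1, h * (E i).2) := by
  let _ : MulAction H ι := MulAction.compHom ι α
  have hsm : ∀ (h : H) (i : ι), h • i = α h i := fun h i => rfl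
  obtain ⟨r, γ, h1, h2⟩ := orbit_section_aux H ι
  have hinj : ∀ (h h' : H) (i : ι), α h i = α h' i → h = h' := by
    intro h h' i hh
    have h3 : α (h'⁻¹ * h) i = i := by
      rw [map_mul, Equiv.Perm.mul_apply, hh, ← Equiv.Perm.mul_apply, ← map_mul, inv_mul_cancel,
        map_one, Equiv.Perm.one_apply]
    have h4 := hα _ _ h3
    rw [inv_mul_eq_one] at h4
    exact h4.symm
  have hγ : ∀ h i, γ (α h i) = h * γ i := by
    intro h i
    apply hinj _ _ (r i)
    have h3 := h1 (h • i)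
    rw [h2] at h3
    rw [map_mul, Equiv.Perm.mul_apply, ← hsm (γ i) (r i), h1 i]
    exact h3
  have hrr : ∀ i, r (r i) = r i := by
    intro i
    have h3 := h2 (γ i) (r i)
    rw [h1] at h3
    exact h3.symm
  have hγr : ∀ i, γ (r i) = 1 := by
    intro i
    apply hinj _ _ (r i)
    have h3 := h1 (r i)
    rw [hrr] at h3
    rw [map_one, Equiv.Perm.one_apply]
    exact h3
  let E : ι ≃ (Set.range r) × H :=
    { toFun := fun i => (⟨r i, i, rfl⟩, γ i)
      invFun := fun q => α q.2 q.1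
      left_inv := fun i => h1 i
      right_inv := by
        rintro ⟨⟨_, i, rfl⟩, h⟩
        refine Prod.ext (Subtype.ext ?_) ?_
        · show r (α h (r i)) = r i
          rw [← hsm, h2, hrr]
        · show γ (α h (r i)) = h
          rw [hγ, hγr, mul_one] }
  refine ⟨Set.range r, E, fun h i => ?_⟩
  refine Prod.ext (Subtype.ext ?_) ?_
  · show r (α h i) = r i
    rw [← hsm, h2]
  · exact hγ h i

theorem free_conj {H ι : Type} [Group H] [Fintype ι] (α β : H →* Equiv.Perm ι)
    (hα : ∀ h i, α h i = i → h = 1) (hβ : ∀ h i, β h i = i → h = 1) :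
    ∃ σ : Equiv.Perm ι, ∀ h i, σ (α h i) = β h (σ i) := by
  classical
  rcases isEmpty_or_nonempty ι with he | ⟨⟨i0⟩⟩
  · exact ⟨1, fun h i => (he.false i).elim⟩
  obtain ⟨Qa, Ea, hEa⟩ := free_equiv α hα
  obtain ⟨Qb, Eb, hEb⟩ := free_equiv β hβ
  have : Finite (Qa × H) := Finite.of_equiv ι Ea
  have : Finite H := Finite.of_surjective (fun q : Qa × H => q.2)
    (fun h => ⟨((Ea i0).1, h), rfl⟩)
  have h1 : Nat.card Qa * Nat.card H = Nat.card Qb * Nat.card H := by
    rw [← Nat.card_prod, ← Nat.card_prod, ← Nat.card_congr Ea, ← Nat.card_congr Eb]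
  have h2 : Nat.card Qa = Nat.card Qb := Nat.eq_of_mul_eq_mul_right Nat.card_pos h1
  obtain ⟨e⟩ : Nonempty (Qa ≃ Qb) := Finite.card_eq.1 h2
  refine ⟨Ea.trans ((Equiv.prodCongr e (Equiv.refl H)).trans Eb.symm), fun h i => ?_⟩
  apply Eb.injective
  rw [hEb]
  simp only [Equiv.trans_apply, Equiv.apply_symm_apply, Equiv.prodCongr_apply, hEa, Prod.map,
    Equiv.refl_apply]

theorem free_exists {H ι : Type} [Group H] [Finite H] [Fintype ι]
    (hd : Nat.card H ∣ Fintype.card ι) :
    ∃ α : H →* Equiv.Perm ι, ∀ h i, α h i = i → h = 1 := by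
  classical
  obtain ⟨m, hm⟩ := hd
  have := Fintype.ofFinite H
  have hc : Fintype.card ι = Fintype.card (H × Fin m) := by
    rw [hm, Fintype.card_prod, Fintype.card_fin, Nat.card_eq_fintype_card]
  obtain ⟨e⟩ : Nonempty (ι ≃ H × Fin m) := ⟨Fintype.equivOfCardEq hc⟩
  let f : H → Equiv.Perm ι := fun h =>
    (e.trans (Equiv.prodCongr (Equiv.mulLeft h) (Equiv.refl (Fin m)))).trans e.symm
  have hf : ∀ h i, f h i = e.symm (h * (e i).1, (e i).2) := fun h i => rfl
  refine ⟨{ toFun := f, map_one' := ?_, map_mul' := ?_ }, ?_⟩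
  · ext i
    rw [hf, one_mul]
    simp
  · intro a b
    ext i
    rw [Equiv.Perm.mul_apply, hf, hf, hf, Equiv.apply_symm_apply, mul_assoc]
  · intro h i hi
    have h1 : e.symm (h * (e i).1, (e i).2) = i := hi
    rw [Equiv.symm_apply_eq] at h1
    have h2 := congrArg Prod.fst h1
    exact mul_eq_right.1 h2

theorem orbit_section (G S : Type) [Group G] [MulAction G S] :
    ∃ (r : S → S) (γ : S → G), (∀ s, γ s • r s = s) ∧ ∀ (g : G) s, r (g • s) = r s := by
  exact orbit_section_aux G S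

theorem equiv_choice {G S X : Type} [Group G] [MulAction G S] [Nonempty X] (S' : Set S)
    (hS' : ∀ g : G, ∀ s ∈ S', g • s ∈ S') (T : G → S → X → X)
    (hT : ∀ (g h : G) (s : S) (x : X), s ∈ S' → T (g * h) s x = T g (h • s) (T h s x))
    (R : S → X → Prop) (hR : ∀ (g : G) (s : S) (x : X), s ∈ S' → R s x → R (g • s) (T g s x))
    (hex : ∀ s ∈ S', ∃ x, R s x ∧ ∀ g : G, g • s = s → T g s x = x) :
    ∃ c : S → X, (∀ s ∈ S', R s (c s)) ∧ ∀ (g : G), ∀ s ∈ S', c (g • s) = T g s (c s) := by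
  classical
  obtain ⟨r, γ, h1, h2⟩ := orbit_section G S
  have hr : ∀ s ∈ S', r s ∈ S' := by
    intro s hs
    have h3 : r s = (γ s)⁻¹ • s := by
      rw [eq_inv_smul_iff]
      exact h1 s
    rw [h3]
    exact hS' _ _ hs
  have hx : ∀ s, ∃ x, s ∈ S' → R s x ∧ ∀ g : G, g • s = s → T g s x = x := by
    intro s
    by_cases hs : s ∈ S'
    · obtain ⟨x, hx⟩ := hex s hs
      exact ⟨x, fun _ => hx⟩
    · exact ⟨Classical.arbitrary X, fun h => absurd h hs⟩
  choose x hx using hx
  refine ⟨fun s => T (γ s) (r s) (x (r s)), fun s hs => ?_, fun g s hs => ?_⟩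
  · have h3 := hR (γ s) (r s) (x (r s)) (hr s hs) (hx _ (hr s hs)).1
    rw [h1] at h3
    exact h3
  · show T (γ (g • s)) (r (g • s)) (x (r (g • s))) = T g s (T (γ s) (r s) (x (r s)))
    rw [h2]
    have h3 := hT g (γ s) (r s) (x (r s)) (hr s hs)
    rw [h1] at h3
    rw [← h3]
    obtain ⟨h, hh⟩ : ∃ h, h = (γ (g • s))⁻¹ * (g * γ s) := ⟨_, rfl⟩
    have h4 : g * γ s = γ (g • s) * h := by rw [hh, mul_inv_cancel_left]
    have h5 : h • r s = r s := by
      rw [hh, mul_smul, mul_smul, h1, inv_smul_eq_iff]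
      have := h1 (g • s)
      rw [h2] at this
      exact this.symm
    rw [h4, hT _ _ _ _ (hr s hs), h5, (hx _ (hr s hs)).2 h h5]

section cb

variable {G V ι : Type} [Group G] [MulAction G V] [DecidableEq V] {K : Set (Finset V)} {k : ℕ}
  [Fintype ι] [DecidableEq ι] {π : G → Finset V → Equiv.Perm ι}
  {τ : Finset V → Finset V → (V →₀ ℝ) → Matrix ι ι ℂ}

lemma CB.pi_one (hB : CB K k ι π τ) (t : Finset V) : π 1 t = 1 := by
  have h := hB.pimul 1 1 t
  rw [one_mul, one_smul] at h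
  exact mul_eq_right.1 h.symm

lemma CB.tau_self (hB : CB K k ι π τ) {t : Finset V} (ht : t ∈ K) (htk : t.card ≤ k)
    (hne : t.Nonempty) {x : V →₀ ℝ} (hx : x ∈ sx t) : τ t t x = 1 := by
  have h1 := hB.coc t ht htk t (Finset.Subset.refl _) t (Finset.Subset.refl _) hne x hx
  have h2 := hB.uni t ht htk t (Finset.Subset.refl _) hne x hx
  calc τ t t x = ((τ t t x)ᴴ * τ t t x) * τ t t x := by rw [h2, Matrix.one_mul]
    _ = (τ t t x)ᴴ * (τ t t x * τ t t x) := by rw [Matrix.mul_assoc]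
    _ = 1 := by rw [h1, h2]

lemma CB.uni' (hB : CB K k ι π τ) {t : Finset V} (ht : t ∈ K) (htk : t.card ≤ k) {s : Finset V}
    (hs : s ⊆ t) (hne : s.Nonempty) {x : V →₀ ℝ} (hx : x ∈ sx s) : τ t s x * (τ t s x)ᴴ = 1 := by
  exact mul_eq_one_comm.1 (hB.uni t ht htk s hs hne x hx)

/-- π is a homomorphism on the stabiliser of t. -/
lemma CB.pi_stab (hB : CB K k ι π τ) (t : Finset V) (g h : G) (hh : h • t = t) :
    π (g * h) t = π g t * π h t := by
  rw [hB.pimul, hh]

theorem exists_psi (hK : Cx G V K) (hB : CB K k ι π τ) :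
    ∃ ψ : Finset V → ι → Equiv.Perm ι, ∀ (g : G), ∀ s ∈ K, s.card ≤ k → ∀ i,
      ψ (g • s) (π g s i) * π g s = ψ s i := by
  let _ : MulAction G (Finset V × ι) :=
    { smul := fun g p => (g • p.1, π g p.1 p.2)
      one_smul := fun p => by
        show ((1 : G) • p.1, π 1 p.1 p.2) = p
        rw [hB.pi_one, one_smul]
        rfl
      mul_smul := fun g h p => by
        show ((g * h) • p.1, π (g * h) p.1 p.2) = (g • (h • p.1), π g (h • p.1) (π h p.1 p.2))
        rw [hB.pimul, mul_smul]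
        rfl }
  have hsm : ∀ (g : G) (s : Finset V) (i : ι), g • (s, i) = (g • s, π g s i) :=
    fun g s i => rfl
  obtain ⟨r, γ, h1, h2⟩ := orbit_section G (Finset V × ι)
  have hγ : ∀ (g : G) (s : Finset V) (i : ι), s ∈ K → s.card ≤ k →
      γ (g • (s, i)) = g * γ (s, i) := by
    intro g s i hs hsk
    obtain ⟨h, hh⟩ : ∃ h, h = (γ (g • (s, i)))⁻¹ * (g * γ (s, i)) := ⟨_, rfl⟩
    have h5 : h • r (s, i) = r (s, i) := by
      rw [hh, mul_smul, mul_smul, h1, inv_smul_eq_iff]
      have := h1 (g • (s, i))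
      rw [h2] at this
      exact this.symm
    have h6 : r (s, i) = (γ (s, i))⁻¹ • (s, i) := by
      rw [eq_inv_smul_iff]
      exact h1 (s, i)
    obtain ⟨s', i', hsi⟩ : ∃ s' i', r (s, i) = (s', i') := ⟨_, _, rfl⟩
    rw [hsi, hsm] at h6
    have h7 : s' = (γ (s, i))⁻¹ • s := congrArg Prod.fst h6
    have h8 : s' ∈ K := by rw [h7]; exact hK.smul _ _ hs
    have h9 : s'.card ≤ k := by rw [h7, Finset.card_smul_finset]; exact hsk
    rw [hsi, hsm] at h5
    have h10 : h = 1 := hB.free h s' h8 h9 (congrArg Prod.fst h5) i' (congrArg Prod.snd h5)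
    rw [h10] at hh
    exact (inv_mul_eq_one.1 hh.symm)
  refine ⟨fun s i => π (γ (s, i))⁻¹ s, fun g s hs hsk i => ?_⟩
  show π (γ (g • s, π g s i))⁻¹ (g • s) * π g s = π (γ (s, i))⁻¹ s
  rw [← hsm, hγ g s i hs hsk, ← hB.pimul, mul_inv_rev, inv_mul_cancel_right]

/-- psi is equivariant from act2 to act1 -/
lemma psi_equivariant (e' : ℕ) {ψ ψ' : ι → Equiv.Perm ι} {σ : Equiv.Perm ι}
    (h : ∀ i, ψ' (σ i) * σ = ψ i) (w : Wd ι e') :
    psi e' ψ' (act2 e' σ w) = act1 e' σ (psi e' ψ w) := by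
  funext l
  have h2 : ∀ (w : Wd ι e') l, act2 e' σ w l = σ (w l) := fun w l => rfl
  have h1 : ∀ (w : Wd ι e') l, act1 e' σ w l = if l.val < 2 then σ (w l) else w l := by
    intro w l
    show (if l.val < 2 then σ else 1 : Equiv.Perm ι) (w l) = _
    split_ifs <;> rfl
  rw [h1]
  unfold psi
  by_cases hl : l.val < 2
  · rw [if_pos hl, if_pos hl, if_pos hl, h2]
  · rw [if_neg hl, if_neg hl, if_neg hl, h2, h2, ← h (w 0)]
    rfl

end cb

end Pool.HQ
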