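import Pool.Agent.HQ.E04
import Pool.Agent.HQ.E06
import Pool.Agent.HQ.E12

/-!
MP_7936f4_al, THEOREM E, module E13: frames of a combinatorial bundle (pulled back by the clipping map rho)
over star-shaped unions of closed simplices.

Frm 𝓡 T P Q a: a family a r x (r ∈ 𝓡, x in the closed simplex r) of unitary matrices, compatible with the
changes of coordinates T r' r x, bounded Lipschitz on each closed simplex, invariant under H.

pframe.  Let ρ = rho (eps e), Φ_s = phi (eps e) s, Y = {s // s ⊆ t} × ι (or ↥t.powerset × ι).  For r ⊆ t with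
|r| ≤ k and x ∈ sx r let j_r(x) be the Y × ι matrix
     j_r(x) (s,i) i' = Φ_s(x) conj (τ r s (ρ x) i' i)   if s ⊆ r,   0 otherwise.
(1) j_r(x)ᴴ j_r(x) = Σ_{s ⊆ r} Φ_s(x)² τ r s (ρx) (τ r s (ρx))ᴴ = 1 : where Φ_s(x) ≠ 0 we have s nonempty,
    s ⊆ supp x ⊆ r, ρ x ∈ sx s (phi_ne, rho_mem), so τ r s (ρ x) is unitary; phi_sum.
(2) r ⊆ r', x ∈ sx r: j_{r'}(x) = j_r(x) (τ r' r (ρ x))ᴴ, because for Φ_s(x) ≠ 0: s ⊆ r and
    τ r' s (ρx) = τ r' r (ρx) τ r s (ρx) (coc at the point ρ x ∈ sx s).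
(3) P(x) := j_r(x) j_r(x)ᴴ does not depend on r ∈ 𝓡 with x ∈ sx r: compare r, r' through supp x
    (nonempty subset of both; supp x ∈ K by down): j_r(x) = j_{supp x}(x) (unitary)ᴴ.
    Define P x := j_{supp x}(x) j_{supp x}(x)ᴴ.
(4) entries of j_r are bounded Lipschitz on sx r: BL.cut with U = {x : ∀ v ∉ s, x v ≤ eps e}: there
    x ↦ τ r s (ρ x) is bounded Lipschitz (bl, rho_mem, rho_lip), Φ_s is bounded Lipschitz and vanishes
    outside U.  So P is BLM on every sx r, r ∈ 𝓡, and by BLM_glue on D = ⋃_{r ∈ 𝓡} sx r.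
(5) D is star-shaped at p₀ (hstar, seg_mem); tlemM gives U.  Put a r x := j_r(x)ᴴ U(x) j_{r₀}(p₀).
    Unitary since U(x) maps the range of P(p₀) onto the range of P(x); compatible by (2) (τ unitary);
    BLM on sx r.
(6) h • t = t: h fixes the vertices of t (rigid), so h • s = s for s ⊆ t and pact h x = x on D;
    eqv gives τ r s y (π h r i) (π h s j) = τ r s y i j for y ∈ sx s, hence
    j_r(x) (s, π h s i) (π h r i') = j_r(x) (s,i) i', and P x is invariant under (s,i) ↦ (s, π h s i); so is U.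
-/

namespace Pool.HQ

open scoped Pointwise Matrix

/-- A frame of a bundle with changes of coordinates T over the closed simplices r ∈ 𝓡. -/
structure Frm {V H Y Z : Type} [Fintype Y] [DecidableEq Y] [Fintype Z] [DecidableEq Z]
    (R : Finset (Finset V)) (T : Finset V → Finset V → (V →₀ ℝ) → Matrix Y Y ℂ)
    (P : H → Finset V → Equiv.Perm Y) (Q : H → Equiv.Perm Z)
    (a : Finset V → (V →₀ ℝ) → Matrix Y Z ℂ) : Prop where
  uni : ∀ r ∈ R, ∀ x ∈ sx r, (a r x)ᴴ * a r x = 1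
  uni' : ∀ r ∈ R, ∀ x ∈ sx r, a r x * (a r x)ᴴ = 1
  bl : ∀ r ∈ R, BLM d1 (sx r) (a r)
  com : ∀ r' ∈ R, ∀ r ∈ R, r ⊆ r' → ∀ x ∈ sx r, T r' r x * a r x = a r' x
  inv : ∀ h, ∀ r ∈ R, ∀ x ∈ sx r, ∀ i j, a r x (P h r i) (Q h j) = a r x i j

namespace PFrameAux

section

variable {V ι : Type} [Fintype ι] [DecidableEq ι]

/-- the isometry of the fibre into the sum of the fibres over the faces -/
noncomputable def JJ (τ : Finset V → Finset V → (V →₀ ℝ) → Matrix ι ι ℂ) (e : ℕ)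
    (t r : Finset V) (x : V →₀ ℝ) : Matrix (↥t.powerset × ι) ι ℂ :=
  fun p i' => ((phi (eps e) p.1.1 x : ℝ) : ℂ) * star (τ r p.1.1 (rho (eps e) x) i' p.2)

theorem ph {e k : ℕ} (he : 1 ≤ e) (hke : k ≤ e) {r : Finset V} (hrk : r.card ≤ k) {x : V →₀ ℝ}
    (hx : x ∈ sx r) {s : Finset V} (h : phi (eps e) s x ≠ 0) :
    s.Nonempty ∧ s ⊆ r ∧ rho (eps e) x ∈ sx s := by
  obtain ⟨h1, h2, h3⟩ := phi_ne he (hrk.trans hke) hx h
  exact ⟨h1, h2.trans hx.2.1, rho_mem he (hrk.trans hke) hx h3⟩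

end

section

variable {G V ι : Type} [Group G] [MulAction G V] [DecidableEq V] {K : Set (Finset V)} {k : ℕ}
    [Fintype ι] [DecidableEq ι] {π : G → Finset V → Equiv.Perm ι}
    {τ : Finset V → Finset V → (V →₀ ℝ) → Matrix ι ι ℂ}

theorem JJ_iso (hK : Cx G V K) (hB : CB K k ι π τ) {e : ℕ} (he : 1 ≤ e) (hke : k ≤ e)
    {t : Finset V} (ht : t ∈ K) {r : Finset V} (hr : r ⊆ t) (hne : r.Nonempty)
    (hrk : r.card ≤ k) {x : V →₀ ℝ} (hx : x ∈ sx r) :
    (JJ τ e t r x)ᴴ * JJ τ e t r x = 1 := by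
  ext i' i''
  rw [Matrix.mul_apply, Fintype.sum_prod_type]
  have h1 : ∀ s : ↥t.powerset, ∑ i, (JJ τ e t r x)ᴴ i' (s, i) * JJ τ e t r x (s, i) i'' =
      ((phi (eps e) s.1 x ^ 2 : ℝ) : ℂ) * (1 : Matrix ι ι ℂ) i' i'' := by
    intro s
    by_cases h0 : phi (eps e) s.1 x = 0
    · rw [h0]
      refine (Finset.sum_eq_zero fun i _ => ?_).trans (by simp)
      simp [JJ, h0]
    · obtain ⟨hs1, hs2, hs3⟩ := ph he hke hrk hx h0
      have hu := hB.uni' (hK.down t ht r hr hne) hrk hs2 hs1 hs3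
      rw [← hu, Matrix.mul_apply, Finset.mul_sum]
      refine Finset.sum_congr rfl fun i _ => ?_
      simp only [JJ, Matrix.conjTranspose_apply, star_mul', star_star]
      have h2 : star ((phi (eps e) s.1 x : ℝ) : ℂ) = ((phi (eps e) s.1 x : ℝ) : ℂ) :=
        Complex.conj_ofReal _
      rw [h2]
      push_cast
      ring
  rw [Finset.sum_congr rfl fun s _ => h1 s, ← Finset.sum_mul,
    Finset.sum_coe_sort t.powerset (fun s => ((phi (eps e) s x ^ 2 : ℝ) : ℂ)),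
    ← Complex.ofReal_sum, phi_sum he (hrk.trans hke) hx (hx.2.1.trans hr), Complex.ofReal_one,
    one_mul]

theorem JJ_change (hB : CB K k ι π τ) {e : ℕ} (he : 1 ≤ e) (hke : k ≤ e)
    {t r r' : Finset V} (hr' : r' ∈ K) (hrr : r ⊆ r') (hrk' : r'.card ≤ k) {x : V →₀ ℝ}
    (hx : x ∈ sx r) :
    JJ τ e t r' x = JJ τ e t r x * (τ r' r (rho (eps e) x))ᴴ := by
  ext p i'
  rw [Matrix.mul_apply]
  by_cases h0 : phi (eps e) p.1.1 x = 0
  · refine Eq.trans ?_ (Finset.sum_eq_zero fun i _ => ?_).symm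
    · simp [JJ, h0]
    · simp [JJ, h0]
  · obtain ⟨hs1, hs2, hs3⟩ := ph he hke ((Finset.card_le_card hrr).trans hrk') hx h0
    have hc := hB.coc r' hr' hrk' r hrr p.1.1 hs2 hs1 _ hs3
    unfold JJ
    rw [← hc, Matrix.mul_apply, star_sum, Finset.mul_sum]
    refine Finset.sum_congr rfl fun i _ => ?_
    rw [Matrix.conjTranspose_apply, star_mul']
    ring

theorem JJ_bl (hK : Cx G V K) (hB : CB K k ι π τ) {e : ℕ} (he : 1 ≤ e) (hke : k ≤ e)
    {t : Finset V} (ht : t ∈ K) {r : Finset V} (hr : r ⊆ t) (hne : r.Nonempty)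
    (hrk : r.card ≤ k) : BLM d1 (sx r) (JJ τ e t r) := by
  intro p i'
  by_cases hs : p.1.1.Nonempty ∧ p.1.1 ⊆ r
  · have h1 : BL d1 (sx r) fun x => ((phi (eps e) p.1.1 x : ℝ) : ℂ) :=
      BL.ofReal (phi_BL he (hrk.trans hke) p.1.1)
    refine BL.cut (U := {x : V →₀ ℝ | ∀ v, v ∉ p.1.1 → x v ≤ eps e}) d1_nonneg h1 ?_ ?_
    · intro x hx hxU
      by_contra h0
      have h0' : phi (eps e) p.1.1 x ≠ 0 := fun h => h0 (by rw [h, Complex.ofReal_zero])
      exact hxU (phi_ne he (hrk.trans hke) hx h0').2.2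
    · refine BL.star ?_
      exact BL.comp d1_nonneg (hB.bl r (hK.down t ht r hr hne) hrk p.1.1 hs.2 hs.1 i' p.2)
        (rho (eps e)) (fun x hx => rho_mem he (hrk.trans hke) hx.1 hx.2) 4 (by norm_num)
        (fun x hx y hy => rho_lip he (hrk.trans hke) hx.1 hy.1)
  · refine BL.congr (BL.const d1_nonneg (0 : ℂ)) fun x hx => ?_
    have h0 : phi (eps e) p.1.1 x = 0 := by
      by_contra h0
      obtain ⟨h1, h2, -⟩ := ph he hke hrk hx h0
      exact hs ⟨h1, h2⟩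
    simp [JJ, h0]

/-- the projection -/
noncomputable def PP (τ : Finset V → Finset V → (V →₀ ℝ) → Matrix ι ι ℂ) (e : ℕ)
    (t : Finset V) (x : V →₀ ℝ) : Matrix (↥t.powerset × ι) (↥t.powerset × ι) ℂ :=
  JJ τ e t x.support x * (JJ τ e t x.support x)ᴴ

theorem PP_eq (hK : Cx G V K) (hB : CB K k ι π τ) {e : ℕ} (he : 1 ≤ e) (hke : k ≤ e)
    {t : Finset V} (ht : t ∈ K) {r : Finset V} (hr : r ⊆ t) (hne : r.Nonempty)
    (hrk : r.card ≤ k) {x : V →₀ ℝ} (hx : x ∈ sx r) :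
    PP τ e t x = JJ τ e t r x * (JJ τ e t r x)ᴴ := by
  have hrK := hK.down t ht r hr hne
  have hs := sx_support hx
  have hu := hB.uni r hrK hrk x.support hx.2.1 (sx_support_nonempty hx) _
    (rho_mem_self he (((Finset.card_le_card hx.2.1).trans hrk).trans hke) hs)
  rw [JJ_change hB he hke hrK hx.2.1 hrk hs, Matrix.conjTranspose_mul,
    Matrix.conjTranspose_conjTranspose]
  unfold PP
  rw [Matrix.mul_assoc, ← Matrix.mul_assoc (τ r x.support (rho (eps e) x))ᴴ, hu, Matrix.one_mul]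

/-- the permutation of the big index set -/
def Sg (π : G → Finset V → Equiv.Perm ι) (t : Finset V) (h : G) :
    Equiv.Perm (↥t.powerset × ι) :=
  Equiv.prodShear (Equiv.refl _) fun s => π h s.1

theorem smul_sub (hK : Cx G V K) {t : Finset V} (ht : t ∈ K) {h : G} (hh : h • t = t)
    {s : Finset V} (hs : s ⊆ t) : h • s = s := by
  have h1 := hK.rigid h t ht hh
  ext v
  rw [Finset.mem_smul_finset]
  constructor
  · rintro ⟨w, hw, rfl⟩
    rwa [h1 w (hs hw)]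
  · intro hv
    exact ⟨v, hv, h1 v (hs hv)⟩

theorem JJ_inv (hK : Cx G V K) (hB : CB K k ι π τ) {e : ℕ} (he : 1 ≤ e) (hke : k ≤ e)
    {t : Finset V} (ht : t ∈ K) {r : Finset V} (hr : r ⊆ t) (hne : r.Nonempty)
    (hrk : r.card ≤ k) {x : V →₀ ℝ} (hx : x ∈ sx r) {h : G} (hh : h • t = t) :
    (JJ τ e t r x).submatrix (Sg π t h) (π h r) = JJ τ e t r x := by
  ext p i'
  rw [Matrix.submatrix_apply]
  by_cases h0 : phi (eps e) p.1.1 x = 0
  · have h1 : phi (eps e) (Sg π t h p).1.1 x = 0 := h0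
    simp only [JJ, h0, h1, Complex.ofReal_zero, zero_mul]
  · obtain ⟨hs1, hs2, hs3⟩ := ph he hke hrk hx h0
    have hv := hB.eqv h r (hK.down t ht r hr hne) hrk p.1.1 hs2 hs1 _ hs3 i' p.2
    rw [smul_sub hK ht hh hr, smul_sub hK ht hh (hs2.trans hr),
      pact_fix (t := p.1.1) (fun v hv => hK.rigid h t ht hh v (hr (hs2 hv))) hs3] at hv
    have h2 : JJ τ e t r x (Sg π t h p) (π h r i') = ((phi (eps e) p.1.1 x : ℝ) : ℂ) *
        star (τ r p.1.1 (rho (eps e) x) (π h r i') (π h p.1.1 p.2)) := rfl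
    rw [h2, hv]
    rfl

end

end PFrameAux

open PFrameAux in
theorem pframe {G V ι : Type} [Group G] [MulAction G V] [DecidableEq V] {K : Set (Finset V)} {k : ℕ}
    [Fintype ι] [DecidableEq ι] {π : G → Finset V → Equiv.Perm ι}
    {τ : Finset V → Finset V → (V →₀ ℝ) → Matrix ι ι ℂ} (hK : Cx G V K) (hB : CB K k ι π τ)
    (e : ℕ) (he : 1 ≤ e) (hke : k ≤ e) (t : Finset V) (ht : t ∈ K) (R : Finset (Finset V))
    (hR : ∀ r ∈ R, r ⊆ t ∧ r.Nonempty ∧ r.card ≤ k) (r₀ : Finset V) (hr₀ : r₀ ∈ R)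
    (p₀ : V →₀ ℝ) (hp₀ : p₀ ∈ sx r₀) (hstar : ∀ r ∈ R, ∃ r' ∈ R, r ⊆ r' ∧ r₀ ⊆ r') :
    ∃ a : Finset V → (V →₀ ℝ) → Matrix ι ι ℂ,
      Frm (H := MulAction.stabilizer G t) R (fun r' r x => τ r' r (rho (eps e) x))
        (fun h r => π (h : G) r) (fun h => π (h : G) r₀) a := by
  have hprop : ∀ r ∈ R, ∀ x ∈ sx r, PP τ e t x = JJ τ e t r x * (JJ τ e t r x)ᴴ :=
    fun r hr x hx => PP_eq hK hB he hke ht (hR r hr).1 (hR r hr).2.1 (hR r hr).2.2 hx
  have hiso : ∀ r ∈ R, ∀ x ∈ sx r, (JJ τ e t r x)ᴴ * JJ τ e t r x = 1 :=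
    fun r hr x hx => JJ_iso hK hB he hke ht (hR r hr).1 (hR r hr).2.1 (hR r hr).2.2 hx
  have hbl : ∀ r ∈ R, BLM d1 (sx r) (JJ τ e t r) :=
    fun r hr => JJ_bl hK hB he hke ht (hR r hr).1 (hR r hr).2.1 (hR r hr).2.2
  have hinv : ∀ r ∈ R, ∀ x ∈ sx r, ∀ h : G, h • t = t →
      (JJ τ e t r x).submatrix (Sg π t h) (π h r) = JJ τ e t r x :=
    fun r hr x hx h hh => JJ_inv hK hB he hke ht (hR r hr).1 (hR r hr).2.1 (hR r hr).2.2 hx hh
  obtain ⟨U, hU0, hU1, hU2, hU3⟩ := tlemM {x | ∃ r ∈ R, x ∈ sx r} p₀ ⟨r₀, hr₀, hp₀⟩ 2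
    (fun x ⟨r, _, hx⟩ => sx_d1_le hp₀ hx)
    (fun x ⟨r, hr, hx⟩ s hs => by
      obtain ⟨r', hr', h1, h2⟩ := hstar r hr
      exact ⟨r', hr', seg_mem (sx_mono h2 hp₀) (sx_mono h1 hx) hs⟩)
    (PP τ e t)
    (fun x ⟨r, hr, hx⟩ => by
      rw [hprop r hr x hx]
      constructor
      · rw [Matrix.conjTranspose_mul, Matrix.conjTranspose_conjTranspose]
      · rw [Matrix.mul_assoc, ← Matrix.mul_assoc (JJ τ e t r x)ᴴ, hiso r hr x hx,
          Matrix.one_mul])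
    (BLM_glue R fun r hr => BLM.congr
      (BLM.mul d1_nonneg (hbl r hr) (BLM.conjTranspose (hbl r hr)))
      (fun x hx => (hprop r hr x hx).symm))
  have huni : ∀ r ∈ R, ∀ x ∈ sx r, ((JJ τ e t r x)ᴴ * (U x * JJ τ e t r₀ p₀))ᴴ *
      ((JJ τ e t r x)ᴴ * (U x * JJ τ e t r₀ p₀)) = 1 := by
    intro r hr x hx
    obtain ⟨u1, -, u3⟩ := hU1 x ⟨r, hr, hx⟩
    rw [hprop r hr x hx, hprop r₀ hr₀ p₀ hp₀] at u3
    have hi0 := hiso r₀ hr₀ p₀ hp₀
    generalize JJ τ e t r x = J at u3 ⊢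
    generalize JJ τ e t r₀ p₀ = J0 at u3 hi0 ⊢
    calc (Jᴴ * (U x * J0))ᴴ * (Jᴴ * (U x * J0))
        = J0ᴴ * ((U x)ᴴ * ((J * Jᴴ * U x) * J0)) := by
          simp only [Matrix.conjTranspose_mul, Matrix.conjTranspose_conjTranspose,
            Matrix.mul_assoc]
      _ = J0ᴴ * ((U x)ᴴ * ((U x * (J0 * J0ᴴ)) * J0)) := by rw [u3]
      _ = J0ᴴ * (((U x)ᴴ * U x) * (J0 * (J0ᴴ * J0))) := by simp only [Matrix.mul_assoc]
      _ = 1 := by rw [u1, hi0, Matrix.mul_one, Matrix.one_mul, hi0]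
  refine ⟨fun r x => (JJ τ e t r x)ᴴ * (U x * JJ τ e t r₀ p₀), ?_⟩
  constructor
  · exact huni
  · exact fun r hr x hx => mul_eq_one_comm.1 (huni r hr x hx)
  · intro r hr
    have h1 : BLM d1 (sx r) U := BLM.mono hU2 fun x hx => ⟨r, hr, hx⟩
    exact BLM.mul d1_nonneg (BLM.conjTranspose (hbl r hr))
      (BLM.mul d1_nonneg h1 (BLM.const d1_nonneg _))
  · intro r' hr' r hr hrr x hx
    have hK' := hK.down t ht r' (hR r' hr').1 (hR r' hr').2.1
    rw [JJ_change hB he hke hK' hrr (hR r' hr').2.2 hx, Matrix.conjTranspose_mul,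
      Matrix.conjTranspose_conjTranspose, Matrix.mul_assoc]
  · intro h r hr x hx i j
    have hh : (h : G) • t = t := h.2
    have hUs : (U x).submatrix (Sg π t (h : G)) (Sg π t (h : G)) = U x := by
      ext p q
      refine hU3 (Sg π t (h : G)) ?_ x ⟨r, hr, hx⟩ p q
      rintro y ⟨s, hs, hy⟩ a b
      have h1 : (PP τ e t y).submatrix (Sg π t (h : G)) (Sg π t (h : G)) = PP τ e t y := by
        rw [hprop s hs y hy, ← Matrix.submatrix_mul_equiv _ _ _ (π (h : G) s),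
          ← Matrix.conjTranspose_submatrix, hinv s hs y hy _ hh]
      exact congrFun (congrFun h1 a) b
    have h2 : ((JJ τ e t r x)ᴴ * (U x * JJ τ e t r₀ p₀)).submatrix (π (h : G) r)
        (π (h : G) r₀) = (JJ τ e t r x)ᴴ * (U x * JJ τ e t r₀ p₀) := by
      rw [← Matrix.submatrix_mul_equiv _ _ _ (Sg π t (h : G)),
        ← Matrix.submatrix_mul_equiv _ _ _ (Sg π t (h : G)), hUs,
        ← Matrix.conjTranspose_submatrix, hinv r hr x hx _ hh, hinv r₀ hr₀ p₀ hp₀ _ hh]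
    exact congrFun (congrFun h2 i) j

end Pool.HQ
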