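import Pool.Agent.HQ.E04
import Pool.Agent.HQ.E08
import Pool.Agent.HQ.E12

/-!
MP_7936f4_al, THEOREM E, module E14: the isometric embedding J of the tensor power E^{⊗(2e'+2)} into
E ⊗ E ⊗ 1 ⊗ … ⊗ ℂ^{e'+1}, E = the bundle pulled back by ρ = rho (eps (e'+1)).

At x in the closed simplex r, in the coordinates of r,
   J_r(x) = Σ_{s ⊆ r, |s| = c+1} Φ_s(x) ten1(τ r s (ρx)) pmx(psi (ψ s)) ten2(τ r s (ρx))ᴴ   in block c ∈ Fin (e'+1).
Hypotheses: |r| ≤ k ≤ e'+1 and ψ as in exists_psi.  Where Φ_s(x) ≠ 0 we have ∅ ≠ s ⊆ supp x and ρ x ∈ sx s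
(phi_ne, rho_mem), so τ r s (ρ x) is unitary (uni, CB.uni') and ten1, ten2, pmx(psi) are unitary.
J1: the s with Φ_s(x) ≠ 0 have different cardinalities (phi_card) between 1 and |r| ≤ e'+1, so the blocks are
    orthogonal: J_r(x)ᴴ J_r(x) = Σ_s Φ_s(x)² 1 = 1 (phi_sum).
J2: r ⊆ r', x ∈ sx r: sum over s ⊆ r (others have Φ_s(x) = 0), τ r' s (ρx) = τ r' r (ρx) τ r s (ρx) (coc), so
    ten2(τ r' s)ᴴ ten2(τ r' r) = ten2(τ r s)ᴴ (τ r' r (ρx) is unitary: ρ x ∈ sx r), ten1(τ r' s) = ten1(τ r' r) ten1(τ r s).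
J3: eqv at ρ x ∈ sx s, rho_pact, phi_pact, psi_equivariant and pmx: reindex the sum s ↦ g • s.
J4: BL.cut as in E13: Φ_s times a matrix which is bounded Lipschitz on {x ∈ sx r : x v ≤ eps for v ∉ s}.
J5: at bary r only s = r contributes (phi_bary), rho_bary, τ r r = 1 (CB.tau_self).
-/

namespace Pool.HQ

open scoped Pointwise Matrix

/-- The embedding J. -/
noncomputable def Jm {V ι : Type} [Fintype ι] [DecidableEq ι] (e' : ℕ)
    (τ : Finset V → Finset V → (V →₀ ℝ) → Matrix ι ι ℂ) (ψ : Finset V → ι → Equiv.Perm ι)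
    (r : Finset V) (x : V →₀ ℝ) : Matrix (Wd ι e' × Fin (e' + 1)) (Wd ι e') ℂ :=
  fun p w' => ∑ s ∈ r.powerset, if s.card = p.2.val + 1 then
    ((phi (eps (e' + 1)) s x : ℝ) : ℂ) *
      (ten1 e' (τ r s (rho (eps (e' + 1)) x)) * pmx (psi e' (ψ s)) *
        (ten2 e' (τ r s (rho (eps (e' + 1)) x)))ᴴ) p.1 w' else 0

namespace E14

lemma psi_inj {ι : Type} (e' : ℕ) (ψ : ι → Equiv.Perm ι) : Function.Injective (psi e' ψ) := by
  intro w w' h
  have h0 : w 0 = w' 0 := by
    have h1 := congrFun h 0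
    simpa [psi] using h1
  funext l
  have h1 := congrFun h l
  unfold psi at h1
  by_cases hl : l.val < 2
  · simpa [hl] using h1
  · simp only [if_neg hl] at h1
    rw [h0] at h1
    exact (ψ (w' 0)).injective h1

lemma pmx_star_mul {Y Y' : Type} [Fintype Y'] [DecidableEq Y] [DecidableEq Y'] (f : Y → Y')
    (hf : Function.Injective f) : (pmx f)ᴴ * pmx f = 1 := by
  ext i j
  rw [Matrix.mul_apply, Matrix.one_apply]
  simp only [Matrix.conjTranspose_apply, pmx]
  rw [Finset.sum_eq_single (f i)]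
  · by_cases h : i = j
    · subst h; simp
    · have : f i ≠ f j := fun h' => h (hf h')
      simp [h, this]
  · intro b _ hb
    simp [hb]
  · simp

variable {V ι : Type} [Fintype ι] [DecidableEq ι]

/-- the summand of J -/
noncomputable def Um (e' : ℕ) (a : Matrix ι ι ℂ) (ψ : ι → Equiv.Perm ι) :
    Matrix (Wd ι e') (Wd ι e') ℂ :=
  ten1 e' a * pmx (psi e' ψ) * (ten2 e' a)ᴴ

lemma Um_uni (e' : ℕ) {a : Matrix ι ι ℂ} (ψ : ι → Equiv.Perm ι) (h1 : aᴴ * a = 1)
    (h2 : a * aᴴ = 1) : (Um e' a ψ)ᴴ * Um e' a ψ = 1 := by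
  unfold Um
  have e1 : (ten1 e' a)ᴴ * ten1 e' a = 1 := by
    rw [← ten1_star, ← ten1_mul, h1, ten1_one]
  have e2 : ten2 e' a * (ten2 e' a)ᴴ = 1 := by
    rw [← ten2_star, ← ten2_mul, h2, ten2_one]
  have e3 := pmx_star_mul (psi e' ψ) (psi_inj e' ψ)
  rw [Matrix.conjTranspose_mul, Matrix.conjTranspose_mul, Matrix.conjTranspose_conjTranspose]
  calc ten2 e' a * ((pmx (psi e' ψ))ᴴ * (ten1 e' a)ᴴ) * (ten1 e' a * pmx (psi e' ψ) * (ten2 e' a)ᴴ)
      = ten2 e' a * ((pmx (psi e' ψ))ᴴ * (((ten1 e' a)ᴴ * ten1 e' a) * pmx (psi e' ψ))) *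
          (ten2 e' a)ᴴ := by simp only [Matrix.mul_assoc]
    _ = 1 := by rw [e1, Matrix.one_mul, e3, Matrix.mul_one, e2]

lemma Jm_apply (e' : ℕ) (τ : Finset V → Finset V → (V →₀ ℝ) → Matrix ι ι ℂ)
    (ψ : Finset V → ι → Equiv.Perm ι) (r : Finset V) (x : V →₀ ℝ)
    (p : Wd ι e' × Fin (e' + 1)) (w : Wd ι e') :
    Jm e' τ ψ r x p w = ∑ s ∈ r.powerset, if s.card = p.2.val + 1 then
      ((phi (eps (e' + 1)) s x : ℝ) : ℂ) *
        Um e' (τ r s (rho (eps (e' + 1)) x)) (ψ s) p.1 w else 0 := rfl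

lemma Um_equiv (e' : ℕ) {a b : Matrix ι ι ℂ} {σ σ' : Equiv.Perm ι} {ψ ψ' : ι → Equiv.Perm ι}
    (hab : ∀ i j, a (σ i) (σ' j) = b i j) (hψ : ∀ i, ψ' (σ' i) * σ' = ψ i) (w w' : Wd ι e') :
    Um e' a ψ' (act1 e' σ w) (act2 e' σ w') = Um e' b ψ w w' := by
  unfold Um
  rw [Matrix.mul_apply, Matrix.mul_apply, ← Equiv.sum_comp (act2 e' σ')]
  refine Finset.sum_congr rfl fun v _ => ?_
  rw [Matrix.conjTranspose_apply, Matrix.conjTranspose_apply, ten2_apply_act e' hab]
  congr 1
  rw [Matrix.mul_apply, Matrix.mul_apply, ← Equiv.sum_comp (act1 e' σ')]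
  refine Finset.sum_congr rfl fun u _ => ?_
  rw [ten1_apply_act e' hab]
  congr 1
  unfold pmx
  rw [psi_equivariant e' hψ]
  simp only [EmbeddingLike.apply_eq_iff_eq]

/-- the facts for the s with Φ_s(x) ≠ 0 -/
lemma facts {e' : ℕ} {r : Finset V} (hr : r.card ≤ e' + 1) {x : V →₀ ℝ} (hx : x ∈ sx r)
    {s : Finset V} (h : phi (eps (e' + 1)) s x ≠ 0) :
    s.Nonempty ∧ s ⊆ x.support ∧ rho (eps (e' + 1)) x ∈ sx s := by
  obtain ⟨h1, h2, h3⟩ := phi_ne (by omega) hr hx h
  exact ⟨h1, h2, rho_mem (by omega) hr hx h3⟩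

end E14

section

variable {G V ι : Type} [Group G] [MulAction G V] [DecidableEq V] {K : Set (Finset V)} {k : ℕ}
  [Fintype ι] [DecidableEq ι] {π : G → Finset V → Equiv.Perm ι}
  {τ : Finset V → Finset V → (V →₀ ℝ) → Matrix ι ι ℂ} {ψ : Finset V → ι → Equiv.Perm ι} {e' : ℕ}

theorem Jm_isom (hK : Cx G V K) (hB : CB K k ι π τ) (hke : k ≤ e' + 1) {r : Finset V} (hr : r ∈ K)
    (hrk : r.card ≤ k) {x : V →₀ ℝ} (hx : x ∈ sx r) : (Jm e' τ ψ r x)ᴴ * Jm e' τ ψ r x = 1 := by
  have hrc : r.card ≤ e' + 1 := hrk.trans hke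
  ext w w'
  rw [Matrix.mul_apply, Fintype.sum_prod_type_right]
  simp only [Matrix.conjTranspose_apply, E14.Jm_apply]
  set F : Fin (e' + 1) → Finset V → Wd ι e' → Wd ι e' → ℂ := fun c s w1 w2 =>
    if s.card = c.val + 1 then ((phi (eps (e' + 1)) s x : ℝ) : ℂ) *
      E14.Um e' (τ r s (rho (eps (e' + 1)) x)) (ψ s) w1 w2 else 0 with hF
  have h1 : ∀ (c : Fin (e' + 1)) (w1 : Wd ι e'),
      star (∑ s ∈ r.powerset, F c s w1 w) * ∑ s ∈ r.powerset, F c s w1 w' =
        ∑ s ∈ r.powerset, star (F c s w1 w) * F c s w1 w' := by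
    intro c w1
    rw [star_sum, Finset.sum_mul]
    refine Finset.sum_congr rfl fun s hs => ?_
    rw [Finset.mul_sum, Finset.sum_eq_single s]
    · intro s' _ hne
      by_cases hc : s.card = c.val + 1
      · by_cases hc' : s'.card = c.val + 1
        · by_cases hp : phi (eps (e' + 1)) s x = 0
          · simp only [hF]
            rw [hp]
            simp
          · by_cases hp' : phi (eps (e' + 1)) s' x = 0
            · simp only [hF]
              rw [hp']
              simp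
            · exact absurd (phi_card hp' hp (hc'.trans hc.symm)) hne
        · simp only [hF]
          rw [if_neg hc', mul_zero]
      · simp only [hF]
        rw [if_neg hc, star_zero, zero_mul]
    · intro h
      exact absurd hs h
  have h2 : ∀ s ∈ r.powerset, ∑ c : Fin (e' + 1), ∑ w1 : Wd ι e', star (F c s w1 w) * F c s w1 w' =
      ((phi (eps (e' + 1)) s x ^ 2 : ℝ) : ℂ) * (1 : Matrix (Wd ι e') (Wd ι e') ℂ) w w' := by
    intro s hs
    have hsr := Finset.mem_powerset.1 hs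
    by_cases hp : phi (eps (e' + 1)) s x = 0
    · rw [hp]
      simp only [hF, hp]
      simp
    · obtain ⟨hne, _, hρ⟩ := E14.facts hrc hx hp
      have hU := E14.Um_uni e' (ψ s) (hB.uni r hr hrk s hsr hne _ hρ)
        (hB.uni' hr hrk hsr hne hρ)
      have hUe := congrFun (congrFun hU w) w'
      rw [Matrix.mul_apply] at hUe
      simp only [Matrix.conjTranspose_apply] at hUe
      have hcard : 0 < s.card := Finset.card_pos.2 hne
      have hcr : s.card ≤ r.card := Finset.card_le_card hsr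
      rw [Finset.sum_eq_single (⟨s.card - 1, by omega⟩ : Fin (e' + 1))]
      · have hc : s.card = (s.card - 1) + 1 := by omega
        simp only [hF]
        rw [← hUe, Finset.mul_sum]
        refine Finset.sum_congr rfl fun w1 _ => ?_
        rw [if_pos hc, if_pos hc, star_mul']
        have : star ((phi (eps (e' + 1)) s x : ℝ) : ℂ) = ((phi (eps (e' + 1)) s x : ℝ) : ℂ) :=
          Complex.conj_ofReal _
        rw [this]
        push_cast
        ring
      · intro c _ hc
        refine Finset.sum_eq_zero fun w1 _ => ?_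
        have : ¬ s.card = c.val + 1 := by
          intro h
          apply hc
          apply Fin.ext
          show c.val = s.card - 1
          omega
        simp only [hF]
        rw [if_neg this, star_zero, zero_mul]
      · intro h
        exact absurd (Finset.mem_univ _) h
  calc ∑ c, ∑ w1, star (∑ s ∈ r.powerset, F c s w1 w) * ∑ s ∈ r.powerset, F c s w1 w'
      = ∑ c, ∑ w1, ∑ s ∈ r.powerset, star (F c s w1 w) * F c s w1 w' :=
        Finset.sum_congr rfl fun c _ => Finset.sum_congr rfl fun w1 _ => h1 c w1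
    _ = ∑ c, ∑ s ∈ r.powerset, ∑ w1, star (F c s w1 w) * F c s w1 w' :=
        Finset.sum_congr rfl fun c _ => Finset.sum_comm
    _ = ∑ s ∈ r.powerset, ∑ c, ∑ w1, star (F c s w1 w) * F c s w1 w' := Finset.sum_comm
    _ = ∑ s ∈ r.powerset, ((phi (eps (e' + 1)) s x ^ 2 : ℝ) : ℂ) *
          (1 : Matrix (Wd ι e') (Wd ι e') ℂ) w w' := Finset.sum_congr rfl h2
    _ = (1 : Matrix (Wd ι e') (Wd ι e') ℂ) w w' := by
        rw [← Finset.sum_mul, ← Complex.ofReal_sum, phi_sum (by omega) hrc hx hx.2.1]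
        simp

theorem Jm_compat (hK : Cx G V K) (hB : CB K k ι π τ) (hke : k ≤ e' + 1) {r' : Finset V}
    (hr' : r' ∈ K) (hrk : r'.card ≤ k) {r : Finset V} (hr : r ⊆ r') (hne : r.Nonempty)
    {x : V →₀ ℝ} (hx : x ∈ sx r) :
    Jm e' τ ψ r' x * ten2 e' (τ r' r (rho (eps (e' + 1)) x)) =
      amp (e' + 1) (ten1 e' (τ r' r (rho (eps (e' + 1)) x))) * Jm e' τ ψ r x := by
  have hrc' : r'.card ≤ e' + 1 := hrk.trans hke
  have hrc : r.card ≤ e' + 1 := (Finset.card_le_card hr).trans hrc'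
  have hρr : rho (eps (e' + 1)) x ∈ sx r := rho_mem_self (by omega) hrc hx
  have huni := hB.uni r' hr' hrk r hr hne _ hρr
  have hT : (ten2 e' (τ r' r (rho (eps (e' + 1)) x)))ᴴ *
      ten2 e' (τ r' r (rho (eps (e' + 1)) x)) = 1 := by
    rw [← ten2_star, ← ten2_mul, huni, ten2_one]
  ext p w
  have hL : (Jm e' τ ψ r' x * ten2 e' (τ r' r (rho (eps (e' + 1)) x))) p w =
      ∑ s ∈ r'.powerset, if s.card = p.2.val + 1 then
        ((phi (eps (e' + 1)) s x : ℝ) : ℂ) *
          (E14.Um e' (τ r' s (rho (eps (e' + 1)) x)) (ψ s) *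
            ten2 e' (τ r' r (rho (eps (e' + 1)) x))) p.1 w else 0 := by
    rw [Matrix.mul_apply]
    simp only [E14.Jm_apply, Finset.sum_mul]
    rw [Finset.sum_comm]
    refine Finset.sum_congr rfl fun s _ => ?_
    by_cases h : s.card = p.2.val + 1
    · simp only [if_pos h]
      rw [Matrix.mul_apply, Finset.mul_sum]
      refine Finset.sum_congr rfl fun w1 _ => ?_
      ring
    · simp only [if_neg h, zero_mul, Finset.sum_const_zero]
  have hR : (amp (e' + 1) (ten1 e' (τ r' r (rho (eps (e' + 1)) x))) * Jm e' τ ψ r x) p w =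
      ∑ s ∈ r.powerset, if s.card = p.2.val + 1 then
        ((phi (eps (e' + 1)) s x : ℝ) : ℂ) *
          (ten1 e' (τ r' r (rho (eps (e' + 1)) x)) *
            E14.Um e' (τ r s (rho (eps (e' + 1)) x)) (ψ s)) p.1 w else 0 := by
    rw [Matrix.mul_apply, Fintype.sum_prod_type_right]
    rw [Finset.sum_eq_single p.2]
    · have h1 : ∀ w1 : Wd ι e', amp (e' + 1) (ten1 e' (τ r' r (rho (eps (e' + 1)) x))) p (w1, p.2) =
          ten1 e' (τ r' r (rho (eps (e' + 1)) x)) p.1 w1 := by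
        intro w1
        unfold amp
        rw [if_pos rfl]
      simp only [h1, E14.Jm_apply, Finset.mul_sum]
      rw [Finset.sum_comm]
      refine Finset.sum_congr rfl fun s _ => ?_
      by_cases h : s.card = p.2.val + 1
      · simp only [if_pos h]
        rw [Matrix.mul_apply, Finset.mul_sum]
        refine Finset.sum_congr rfl fun w1 _ => ?_
        ring
      · simp only [if_neg h, mul_zero, Finset.sum_const_zero]
    · intro c _ hc
      refine Finset.sum_eq_zero fun w1 _ => ?_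
      have : amp (e' + 1) (ten1 e' (τ r' r (rho (eps (e' + 1)) x))) p (w1, c) = 0 := by
        unfold amp
        rw [if_neg (Ne.symm hc)]
      rw [this, zero_mul]
    · intro h
      exact absurd (Finset.mem_univ _) h
  rw [hL, hR, ← Finset.sum_subset (Finset.powerset_mono.2 hr)]
  · refine Finset.sum_congr rfl fun s hs => ?_
    have hsr := Finset.mem_powerset.1 hs
    by_cases hp : phi (eps (e' + 1)) s x = 0
    · rw [hp]
      simp
    · obtain ⟨hne', _, hρ⟩ := E14.facts hrc hx hp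
      have hcoc := hB.coc r' hr' hrk r hr s hsr hne' _ hρ
      have hM : E14.Um e' (τ r' s (rho (eps (e' + 1)) x)) (ψ s) *
          ten2 e' (τ r' r (rho (eps (e' + 1)) x)) =
          ten1 e' (τ r' r (rho (eps (e' + 1)) x)) *
            E14.Um e' (τ r s (rho (eps (e' + 1)) x)) (ψ s) := by
        unfold E14.Um
        rw [← hcoc, ten1_mul, ten2_mul, Matrix.conjTranspose_mul]
        simp only [Matrix.mul_assoc]
        rw [hT, Matrix.mul_one]
      rw [hM]
  · intro s hs hs'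
    by_cases hp : phi (eps (e' + 1)) s x = 0
    · rw [hp]
      simp
    · obtain ⟨_, hsx, _⟩ := E14.facts hrc hx hp
      exact absurd (Finset.mem_powerset.2 (hsx.trans hx.2.1)) hs'

theorem Jm_equiv (hK : Cx G V K) (hB : CB K k ι π τ) (hke : k ≤ e' + 1)
    (hψ : ∀ (g : G), ∀ s ∈ K, s.card ≤ k → ∀ i, ψ (g • s) (π g s i) * π g s = ψ s i)
    (g : G) {r : Finset V} (hr : r ∈ K) (hrk : r.card ≤ k) {x : V →₀ ℝ} (hx : x ∈ sx r)
    (p : Wd ι e' × Fin (e' + 1)) (w : Wd ι e') :
    Jm e' τ ψ (g • r) (pact g x) (act1n e' (e' + 1) (π g r) p) (act2 e' (π g r) w) =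
      Jm e' τ ψ r x p w := by
  have hrc : r.card ≤ e' + 1 := hrk.trans hke
  rw [E14.Jm_apply, E14.Jm_apply]
  symm
  refine Finset.sum_nbij' (fun s => g • s) (fun s => g⁻¹ • s) ?_ ?_ ?_ ?_ ?_
  · intro s hs
    rw [Finset.mem_powerset] at hs ⊢
    exact Finset.smul_finset_subset_smul_finset hs
  · intro s hs
    rw [Finset.mem_powerset] at hs ⊢
    have := Finset.smul_finset_subset_smul_finset (a := g⁻¹) hs
    rwa [inv_smul_smul] at this
  · intro s _
    exact inv_smul_smul g s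
  · intro s _
    exact smul_inv_smul g s
  · intro s hs
    have hsr := Finset.mem_powerset.1 hs
    have h1 : (act1n e' (e' + 1) (π g r) p).1 = act1 e' (π g r) p.1 := rfl
    have h2 : (act1n e' (e' + 1) (π g r) p).2 = p.2 := rfl
    rw [h1, h2, Finset.card_smul_finset, phi_pact, rho_pact]
    by_cases hp : phi (eps (e' + 1)) s x = 0
    · rw [hp]
      simp
    · obtain ⟨hne, _, hρ⟩ := E14.facts hrc hx hp
      have hsK := hK.down r hr s hsr hne
      have hsk := (Finset.card_le_card hsr).trans hrk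
      rw [E14.Um_equiv e' (fun i j => hB.eqv g r hr hrk s hsr hne _ hρ i j) (hψ g s hsK hsk)]

theorem Jm_blm (hK : Cx G V K) (hB : CB K k ι π τ) (hke : k ≤ e' + 1) {r : Finset V} (hr : r ∈ K)
    (hrk : r.card ≤ k) : BLM d1 (sx r) (Jm e' τ ψ r) := by
  have hrc : r.card ≤ e' + 1 := hrk.trans hke
  have he : 1 ≤ e' + 1 := by omega
  intro p w
  refine BL.congr (BL.sum d1_nonneg r.powerset (fun s x => if s.card = p.2.val + 1 then
      ((phi (eps (e' + 1)) s x : ℝ) : ℂ) *
        E14.Um e' (τ r s (rho (eps (e' + 1)) x)) (ψ s) p.1 w else 0) ?_)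
    (fun x _ => (E14.Jm_apply e' τ ψ r x p w).symm)
  intro s hs
  have hsr := Finset.mem_powerset.1 hs
  by_cases hc : s.card = p.2.val + 1
  · simp only [if_pos hc]
    have hne : s.Nonempty := Finset.card_pos.1 (by omega)
    refine BL.cut d1_nonneg (U := {x | ∀ v, v ∉ s → x v ≤ eps (e' + 1)})
      (BL.ofReal (phi_BL he hrc s)) ?_ ?_
    · intro x hx hU
      have : phi (eps (e' + 1)) s x = 0 := by
        by_contra h
        exact hU (phi_ne he hrc hx h).2.2
      rw [this]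
      simp
    · have hτ : BLM d1 (sx r ∩ {x | ∀ v, v ∉ s → x v ≤ eps (e' + 1)})
          (fun x => τ r s (rho (eps (e' + 1)) x)) :=
        BLM.comp d1_nonneg (hB.bl r hr hrk s hsr hne) (rho (eps (e' + 1)))
          (fun x hx => rho_mem he hrc hx.1 hx.2) 4 (by norm_num)
          (fun x hx y hy => rho_lip he hrc hx.1 hy.1)
      exact BLM.mul d1_nonneg (BLM.mul d1_nonneg (BLM.ten1 d1_nonneg e' hτ)
        (BLM.const d1_nonneg (pmx (psi e' (ψ s))))) (BLM.conjTranspose (BLM.ten2 d1_nonneg e' hτ))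
        p.1 w
  · simp only [if_neg hc]
    exact BL.const d1_nonneg 0

theorem Jm_bary (hK : Cx G V K) (hB : CB K k ι π τ) (hke : k ≤ e' + 1) {r : Finset V} (hr : r ∈ K)
    (hrk : r.card ≤ k) (p : Wd ι e' × Fin (e' + 1)) (w : Wd ι e') :
    Jm e' τ ψ r (bary r) p w = if p.2.val + 1 = r.card ∧ p.1 = psi e' (ψ r) w then 1 else 0 := by
  have hrc : r.card ≤ e' + 1 := hrk.trans hke
  have he : 1 ≤ e' + 1 := by omega
  have hne := hK.ne r hr
  rw [E14.Jm_apply, Finset.sum_eq_single r]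
  · rw [phi_bary he hrc hne, if_pos rfl, rho_bary he hrc hne,
      hB.tau_self hr hrk hne (bary_mem hne)]
    unfold E14.Um
    rw [ten1_one, ten2_one, Matrix.conjTranspose_one, Matrix.one_mul, Matrix.mul_one]
    unfold pmx
    by_cases h1 : r.card = p.2.val + 1
    · by_cases h2 : p.1 = psi e' (ψ r) w
      · rw [if_pos h1, if_pos h2, if_pos ⟨h1.symm, h2⟩]
        simp
      · rw [if_pos h1, if_neg h2, if_neg (fun h => h2 h.2)]
        simp
    · rw [if_neg h1, if_neg (fun h => h1 h.1.symm)]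
  · intro s _ hs
    rw [phi_bary he hrc hne, if_neg hs]
    simp
  · intro h
    exact absurd (Finset.mem_powerset.2 (Finset.Subset.refl r)) h

end

end Pool.HQ
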