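import Pool.Agent.HQ.E14
import Pool.Agent.HQ.E06

/-!
MP_7936f4_al, THEOREM E, module E15: coordinates of the orthogonal complement of J.

exists_cf.  Fix r ∈ K, |r| ≤ k ≤ e'+1.  P(x) = 1 - J_r(x) J_r(x)ᴴ is a projection (Jm_isom), BLM on D = sx r
(Jm_blm), D is star-shaped at bary r; tlemM gives U(x).  At bary r (Jm_bary) P = the projection on the
blocks c ≠ |r|-1, so c₀ : W × Fin e' → W × Fin (e'+1), (w,c) ↦ (w, (⟨|r|-1,_⟩ : Fin (e'+1)).succAbove c)
gives an isometry pmx c₀ with pmx c₀ (pmx c₀)ᴴ = P(bary r).  Put c_r(x) = U(x) pmx c₀ on sx r.  It satisfies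
(c1), (c2), (c3).  If h • r = r then h fixes sx r pointwise and P(x) is invariant under act1n e' (e'+1) (π h r)
(Jm_equiv at x; on the right index w use that act2 is a bijection), so U(x) is; pmx c₀ is invariant from
act1n e' e' (π h r) to act1n e' (e'+1) (π h r).  Thus c_r satisfies (c4) for the stabiliser of r.
Now use equiv_choice with S' = {r ∈ K : |r| ≤ k}, X = ((V →₀ ℝ) → Matrix _ _ ℂ),
T g r c = fun x => (c (pact g⁻¹ x)).submatrix (act1n e' (e'+1) (π g r)).symm (act1n e' e' (π g r)).symm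
(hT from pimul and act1n multiplicative), R r c = (c1) ∧ (c2) ∧ (c3) for r together with c x = 0 for x ∉ sx r
(normalisation outside sx r, so that T g r c = c is an equality of functions; pact_mem_iff).
hR: (c1)-(c3) are transported by Jm_equiv and pact_mem.
-/

namespace Pool.HQ

open scoped Pointwise Matrix

section aux

variable {V ι : Type}

private lemma psi_inj (e' : ℕ) (ψ : ι → Equiv.Perm ι) : Function.Injective (psi e' ψ) := by
  intro w w' h
  have h1 : ∀ l, psi e' ψ w l = psi e' ψ w' l := fun l => congrFun h l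
  have h0 : w 0 = w' 0 := by
    have := h1 0
    simpa [psi] using this
  funext l
  have h2 := h1 l
  unfold psi at h2
  split_ifs at h2 with hl
  · exact h2
  · rw [h0] at h2
    exact (ψ (w' 0)).injective h2

/-- the inclusion of the blocks different from the given one -/
private def c0 {e' : ℕ} (j : Fin (e' + 1)) (q : Wd ι e' × Fin e') : Wd ι e' × Fin (e' + 1) :=
  (q.1, j.succAbove q.2)

private lemma c0_inj {e' : ℕ} (j : Fin (e' + 1)) :
    Function.Injective (c0 (ι := ι) j) := by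
  rintro ⟨w, c⟩ ⟨w', c'⟩ h
  have h1 := congrArg Prod.fst h
  have h2 := congrArg Prod.snd h
  have h3 : c = c' := Fin.succAbove_right_injective h2
  exact Prod.ext h1 h3

private lemma c0_act {e' : ℕ} (j : Fin (e' + 1)) (σ : Equiv.Perm ι) (q : Wd ι e' × Fin e') :
    c0 j (act1n e' e' σ q) = act1n e' (e' + 1) σ (c0 j q) := rfl

private lemma pmx_isom {Y Y' : Type} [Fintype Y'] [DecidableEq Y] [DecidableEq Y'] {f : Y → Y'}
    (hf : Function.Injective f) : (pmx f)ᴴ * pmx f = 1 := by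
  ext i j
  rw [Matrix.mul_apply, Matrix.one_apply]
  simp only [Matrix.conjTranspose_apply, pmx]
  rw [Finset.sum_eq_single (f i)]
  · by_cases h : i = j
    · subst h
      simp
    · have h2 : f i ≠ f j := fun h' => h (hf h')
      simp [h, h2]
  · intro b _ hb
    simp [hb]
  · intro h
    exact absurd (Finset.mem_univ _) h

end aux

section main

variable {G V ι : Type} [Group G] [MulAction G V] [DecidableEq V] {K : Set (Finset V)}
  {k : ℕ} [Fintype ι] [DecidableEq ι] {π : G → Finset V → Equiv.Perm ι}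
  {τ : Finset V → Finset V → (V →₀ ℝ) → Matrix ι ι ℂ} {ψ : Finset V → ι → Equiv.Perm ι} {e' : ℕ}

private lemma J_sub (hK : Cx G V K) (hB : CB K k ι π τ) (hke : k ≤ e' + 1)
    (hψ : ∀ (g : G), ∀ s ∈ K, s.card ≤ k → ∀ i, ψ (g • s) (π g s i) * π g s = ψ s i)
    (g : G) {r : Finset V} (hr : r ∈ K) (hrk : r.card ≤ k) {x : V →₀ ℝ} (hx : x ∈ sx r) :
    Jm e' τ ψ (g • r) (pact g x) = (Jm e' τ ψ r x).submatrix (act1n e' (e' + 1) (π g r)).symm
      (act2 e' (π g r)).symm := by
  ext p w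
  rw [Matrix.submatrix_apply, ← Jm_equiv hK hB hke hψ g hr hrk hx, Equiv.apply_symm_apply,
    Equiv.apply_symm_apply]

private lemma JJ_sub (hK : Cx G V K) (hB : CB K k ι π τ) (hke : k ≤ e' + 1)
    (hψ : ∀ (g : G), ∀ s ∈ K, s.card ≤ k → ∀ i, ψ (g • s) (π g s i) * π g s = ψ s i)
    (g : G) {r : Finset V} (hr : r ∈ K) (hrk : r.card ≤ k) {x : V →₀ ℝ} (hx : x ∈ sx r) :
    1 - Jm e' τ ψ (g • r) (pact g x) * (Jm e' τ ψ (g • r) (pact g x))ᴴ =
      (1 - Jm e' τ ψ r x * (Jm e' τ ψ r x)ᴴ).submatrix (act1n e' (e' + 1) (π g r)).symm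
        (act1n e' (e' + 1) (π g r)).symm := by
  rw [J_sub hK hB hke hψ g hr hrk hx, Matrix.conjTranspose_submatrix,
    Matrix.submatrix_mul_equiv]
  ext p q
  rw [Matrix.submatrix_apply, Matrix.sub_apply, Matrix.sub_apply, Matrix.submatrix_apply,
    Matrix.one_apply, Matrix.one_apply]
  simp only [(act1n e' (e' + 1) (π g r)).symm.injective.eq_iff]

private lemma P_bary (hK : Cx G V K) (hB : CB K k ι π τ) (hke : k ≤ e' + 1) {r : Finset V}
    (hr : r ∈ K) (hrk : r.card ≤ k) {j : Fin (e' + 1)} (hj : j.val + 1 = r.card) :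
    pmx (c0 (ι := ι) j) * (pmx (c0 (ι := ι) j))ᴴ =
      1 - Jm e' τ ψ r (bary r) * (Jm e' τ ψ r (bary r))ᴴ := by
  have hbij : Function.Bijective (psi e' (ψ r)) :=
    Finite.injective_iff_bijective.1 (psi_inj e' (ψ r))
  have hJ : ∀ p q, (Jm e' τ ψ r (bary r) * (Jm e' τ ψ r (bary r))ᴴ) p q =
      if p = q ∧ p.2 = j then 1 else 0 := by
    rintro p q
    rw [Matrix.mul_apply]
    simp only [Matrix.conjTranspose_apply, Jm_bary hK hB hke hr hrk]
    obtain ⟨w, hw⟩ := hbij.2 p.1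
    have hpj : p.2.val + 1 = r.card ↔ p.2 = j := by
      rw [Fin.ext_iff]
      omega
    have hqj : q.2.val + 1 = r.card ↔ q.2 = j := by
      rw [Fin.ext_iff]
      omega
    rw [Finset.sum_eq_single w]
    · simp only [hpj, hqj, hw]
      by_cases h1 : p.2 = j
      · by_cases h2 : q.2 = j
        · by_cases h3 : q.1 = p.1
          · have h4 : p = q := Prod.ext h3.symm (h1.trans h2.symm)
            simp [h1, h2, h3, h4]
          · have h4 : p ≠ q := fun h => h3 (by rw [h])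
            simp [h3, h4]
        · have h4 : p ≠ q := fun h => h2 (by rw [← h]; exact h1)
          simp [h2, h4]
      · simp [h1]
    · intro b _ hb
      have h1 : p.1 ≠ psi e' (ψ r) b := by
        intro h
        apply hb
        exact hbij.1 (by rw [← h, hw])
      simp [h1]
    · intro h
      exact absurd (Finset.mem_univ _) h
  ext p q
  rw [Matrix.sub_apply, hJ, Matrix.mul_apply, Matrix.one_apply]
  simp only [Matrix.conjTranspose_apply, pmx]
  by_cases h1 : p.2 = j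
  · have h2 : ∀ b : Wd ι e' × Fin e', p ≠ c0 j b := by
      intro b hb
      have h3 := congrArg Prod.snd hb
      rw [h1] at h3
      exact Fin.succAbove_ne j b.2 h3.symm
    rw [Finset.sum_eq_zero fun b _ => by rw [if_neg (h2 b), zero_mul]]
    by_cases h3 : p = q
    · simp [h3, ← h1]
    · simp [h3]
  · obtain ⟨c, hc⟩ := Fin.exists_succAbove_eq h1
    rw [Finset.sum_eq_single (p.1, c)]
    · have h2 : c0 j (p.1, c) = p := Prod.ext rfl hc
      rw [h2]
      by_cases h3 : p = q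
      · subst h3
        simp [h1]
      · have h4 : q ≠ p := fun h => h3 h.symm
        simp [h3, h4]
    · intro b _ hb
      have h2 : p ≠ c0 j b := by
        intro h
        apply hb
        have h3 : c0 j (p.1, c) = c0 j b := (Prod.ext rfl hc : c0 j (p.1, c) = p).trans h
        exact (c0_inj j h3).symm
      rw [if_neg h2, zero_mul]
    · intro h
      exact absurd (Finset.mem_univ _) h

/-- existence for one simplex, invariant under its stabiliser -/
private lemma exists_one (hK : Cx G V K) (hB : CB K k ι π τ) (hke : k ≤ e' + 1)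
    (hψ : ∀ (g : G), ∀ s ∈ K, s.card ≤ k → ∀ i, ψ (g • s) (π g s i) * π g s = ψ s i)
    {r : Finset V} (hr : r ∈ K) (hrk : r.card ≤ k) :
    ∃ c : (V →₀ ℝ) → Matrix (Wd ι e' × Fin (e' + 1)) (Wd ι e' × Fin e') ℂ,
      (∀ x ∈ sx r, (c x)ᴴ * c x = 1) ∧
      (∀ x ∈ sx r, c x * (c x)ᴴ = 1 - Jm e' τ ψ r x * (Jm e' τ ψ r x)ᴴ) ∧
      BLM d1 (sx r) c ∧ (∀ x, x ∉ sx r → c x = 0) ∧
      ∀ g : G, g • r = r → (fun x => (c (pact g⁻¹ x)).submatrix
        (act1n e' (e' + 1) (π g r)).symm (act1n e' e' (π g r)).symm) = c := by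
  classical
  have hne : r.Nonempty := hK.ne r hr
  have hcard : 0 < r.card := hne.card_pos
  obtain ⟨j, hj⟩ : ∃ j : Fin (e' + 1), j.val + 1 = r.card :=
    ⟨⟨r.card - 1, by omega⟩, by show r.card - 1 + 1 = r.card; omega⟩
  have hbary : bary r ∈ sx r := bary_mem hne
  have hδ : ∀ x y : V →₀ ℝ, 0 ≤ d1 x y := d1_nonneg
  have hblm := Jm_blm (ψ := ψ) hK hB hke hr hrk
  set P : (V →₀ ℝ) → Matrix (Wd ι e' × Fin (e' + 1)) (Wd ι e' × Fin (e' + 1)) ℂ := fun x =>
    1 - Jm e' τ ψ r x * (Jm e' τ ψ r x)ᴴ with hP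
  have hproj : ∀ x ∈ sx r, (P x)ᴴ = P x ∧ P x * P x = P x := by
    intro x hx
    have hiso := Jm_isom (ψ := ψ) hK hB hke hr hrk hx
    set J := Jm e' τ ψ r x with hJ
    constructor
    · show (1 - J * Jᴴ)ᴴ = 1 - J * Jᴴ
      rw [Matrix.conjTranspose_sub, Matrix.conjTranspose_one, Matrix.conjTranspose_mul,
        Matrix.conjTranspose_conjTranspose]
    · show (1 - J * Jᴴ) * (1 - J * Jᴴ) = 1 - J * Jᴴ
      have h1 : J * Jᴴ * (J * Jᴴ) = J * Jᴴ := by
        rw [Matrix.mul_assoc, ← Matrix.mul_assoc Jᴴ, hiso, Matrix.one_mul]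
      rw [Matrix.sub_mul, Matrix.mul_sub, Matrix.mul_sub, h1, Matrix.one_mul, Matrix.mul_one,
        Matrix.one_mul, sub_self, sub_zero]
  obtain ⟨U, hU0, hU1, hU2, hU3⟩ := tlemM (sx r) (bary r) hbary 2
    (fun x hx => sx_d1_le hbary hx) (fun x hx s hs => seg_mem hbary hx hs) P hproj
    (BLM.sub hδ (BLM.const hδ 1) (BLM.mul hδ hblm (BLM.conjTranspose hblm)))
  set M0 : Matrix (Wd ι e' × Fin (e' + 1)) (Wd ι e' × Fin e') ℂ := pmx (c0 j) with hM0
  have hM1 : M0ᴴ * M0 = 1 := pmx_isom (c0_inj j)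
  have hM2 : M0 * M0ᴴ = P (bary r) := P_bary (ψ := ψ) hK hB hke hr hrk hj
  refine ⟨fun x => if x ∈ sx r then U x * M0 else 0, ?_, ?_, ?_, ?_, ?_⟩
  · intro x hx
    simp only [if_pos hx]
    rw [Matrix.conjTranspose_mul, Matrix.mul_assoc, ← Matrix.mul_assoc (U x)ᴴ, (hU1 x hx).1,
      Matrix.one_mul, hM1]
  · intro x hx
    simp only [if_pos hx]
    rw [Matrix.conjTranspose_mul, Matrix.mul_assoc, ← Matrix.mul_assoc M0, hM2,
      ← Matrix.mul_assoc, (hU1 x hx).2.2, Matrix.mul_assoc, (hU1 x hx).2.1, Matrix.mul_one]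
  · exact (BLM.mul hδ hU2 (BLM.const hδ M0)).congr fun x hx => (if_pos hx).symm
  · intro x hx
    exact if_neg hx
  · intro g hg
    have hfix : ∀ x ∈ sx r, pact g x = x := fun x hx => pact_fix (hK.rigid g r hr hg) hx
    have hfix' : ∀ x ∈ sx r, pact g⁻¹ x = x := by
      intro x hx
      conv_lhs => rw [← hfix x hx]
      rw [← pact_mul, inv_mul_cancel, pact_one]
    have hinv : ∀ x ∈ sx r, ∀ p q, P x (act1n e' (e' + 1) (π g r) p)
        (act1n e' (e' + 1) (π g r) q) = P x p q := by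
      intro x hx p q
      have h1 := JJ_sub hK hB hke hψ g hr hrk hx
      rw [hg, hfix x hx] at h1
      have h2 := congrFun (congrFun h1 (act1n e' (e' + 1) (π g r) p))
        (act1n e' (e' + 1) (π g r) q)
      rw [Matrix.submatrix_apply, Equiv.symm_apply_apply, Equiv.symm_apply_apply] at h2
      exact h2
    have hUinv := hU3 (act1n e' (e' + 1) (π g r)) hinv
    funext x
    by_cases hx : x ∈ sx r
    · simp only [hfix' x hx, if_pos hx]
      rw [← Matrix.submatrix_mul_equiv (U x) M0 _ (act1n e' (e' + 1) (π g r)).symm]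
      congr 1
      · ext p q
        rw [Matrix.submatrix_apply, ← hUinv x hx, Equiv.apply_symm_apply, Equiv.apply_symm_apply]
      · ext p q
        rw [Matrix.submatrix_apply]
        show (if _ then (1 : ℂ) else 0) = if _ then (1 : ℂ) else 0
        congr 1
        rw [eq_iff_iff, Equiv.symm_apply_eq, ← c0_act, Equiv.apply_symm_apply]
    · have hx' : pact g⁻¹ x ∉ sx r := by
        intro h
        apply hx
        have h1 := pact_mem g h
        rw [← pact_mul, mul_inv_cancel, pact_one, hg] at h1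
        exact h1
      simp only [if_neg hx, if_neg hx']
      rfl

end main

theorem exists_cf {G V ι : Type} [Group G] [MulAction G V] [DecidableEq V] {K : Set (Finset V)}
    {k : ℕ} [Fintype ι] [DecidableEq ι] {π : G → Finset V → Equiv.Perm ι}
    {τ : Finset V → Finset V → (V →₀ ℝ) → Matrix ι ι ℂ} {ψ : Finset V → ι → Equiv.Perm ι} {e' : ℕ}
    (hK : Cx G V K) (hB : CB K k ι π τ) (hke : k ≤ e' + 1)
    (hψ : ∀ (g : G), ∀ s ∈ K, s.card ≤ k → ∀ i, ψ (g • s) (π g s i) * π g s = ψ s i) :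
    ∃ cf : Finset V → (V →₀ ℝ) → Matrix (Wd ι e' × Fin (e' + 1)) (Wd ι e' × Fin e') ℂ,
      (∀ r ∈ K, r.card ≤ k → ∀ x ∈ sx r, (cf r x)ᴴ * cf r x = 1) ∧
      (∀ r ∈ K, r.card ≤ k → ∀ x ∈ sx r, cf r x * (cf r x)ᴴ = 1 - Jm e' τ ψ r x * (Jm e' τ ψ r x)ᴴ) ∧
      (∀ r ∈ K, r.card ≤ k → BLM d1 (sx r) (cf r)) ∧
      (∀ (g : G), ∀ r ∈ K, r.card ≤ k → ∀ x ∈ sx r, ∀ p q,
        cf (g • r) (pact g x) (act1n e' (e' + 1) (π g r) p) (act1n e' e' (π g r) q) = cf r x p q) := by
  obtain ⟨cf, h1, h2⟩ := equiv_choice (G := G) (S := Finset V)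
    (X := (V →₀ ℝ) → Matrix (Wd ι e' × Fin (e' + 1)) (Wd ι e' × Fin e') ℂ)
    {r | r ∈ K ∧ r.card ≤ k}
    (fun g s hs => ⟨hK.smul g s hs.1, by rw [Finset.card_smul_finset]; exact hs.2⟩)
    (fun g r c x => (c (pact g⁻¹ x)).submatrix (act1n e' (e' + 1) (π g r)).symm
      (act1n e' e' (π g r)).symm)
    (by
      intro g h s c _
      funext x
      simp only
      rw [mul_inv_rev, pact_mul, Matrix.submatrix_submatrix, hB.pimul, act1n_mul, act1n_mul]
      rfl)
    (fun r c => (∀ x ∈ sx r, (c x)ᴴ * c x = 1) ∧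
      (∀ x ∈ sx r, c x * (c x)ᴴ = 1 - Jm e' τ ψ r x * (Jm e' τ ψ r x)ᴴ) ∧
      BLM d1 (sx r) c ∧ (∀ x, x ∉ sx r → c x = 0))
    (by
      rintro g s c ⟨hs, hsk⟩ ⟨hc1, hc2, hc3, hc4⟩
      have hmem : ∀ x ∈ sx (g • s), pact g⁻¹ x ∈ sx s := by
        intro x hx
        have := pact_mem g⁻¹ hx
        rwa [inv_smul_smul] at this
      have hback : ∀ x : V →₀ ℝ, pact g (pact g⁻¹ x) = x := by
        intro x
        rw [← pact_mul, mul_inv_cancel, pact_one]
      refine ⟨?_, ?_, ?_, ?_⟩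
      · intro x hx
        simp only
        rw [Matrix.conjTranspose_submatrix, Matrix.submatrix_mul_equiv, hc1 _ (hmem x hx),
          Matrix.submatrix_one_equiv]
      · intro x hx
        simp only
        rw [Matrix.conjTranspose_submatrix, Matrix.submatrix_mul_equiv, hc2 _ (hmem x hx),
          ← JJ_sub hK hB hke hψ g hs hsk (hmem x hx), hback]
      · refine BLM.submatrix ?_ _ _
        refine BLM.comp d1_nonneg hc3 (fun x => pact g⁻¹ x) hmem 1 zero_le_one ?_
        intro x _ y _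
        rw [pact_d1, one_mul]
      · intro x hx
        have h3 : pact g⁻¹ x ∉ sx s := by
          intro h
          apply hx
          have := pact_mem g h
          rwa [hback] at this
        simp only [hc4 _ h3]
        rfl)
    (by
      rintro r ⟨hr, hrk⟩
      obtain ⟨c, a1, a2, a3, a4, a5⟩ := exists_one hK hB hke hψ hr hrk
      exact ⟨c, ⟨a1, a2, a3, a4⟩, a5⟩)
  refine ⟨cf, fun r hr hrk => (h1 r ⟨hr, hrk⟩).1, fun r hr hrk => (h1 r ⟨hr, hrk⟩).2.1,
    fun r hr hrk => (h1 r ⟨hr, hrk⟩).2.2.1, ?_⟩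
  intro g r hr hrk x hx p q
  rw [h2 g r ⟨hr, hrk⟩]
  simp only
  rw [Matrix.submatrix_apply, Equiv.symm_apply_apply, Equiv.symm_apply_apply, ← pact_mul,
    inv_mul_cancel, pact_one]

end Pool.HQ
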