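import Pool.Agent.HQ.E13
import Pool.Agent.HQ.E14

/-!
MP_7936f4_al, THEOREM E, module E16: the complement bundle E₂ and its double E₃ are combinatorial bundles.

cf = complement frames of E15 (hypotheses c1-c4, structure CFr).
τ₂ r' r x = cf_{r'}(x)ᴴ amp(ten1 (τ r' r (ρ x))) cf_r(x),  τ₃ = τ₂ ⊕ τ₂,  π₂ g r = act1n e' e' (π g r),
π₃ = π₂ ⊕ π₂.
* T = amp (ten1 (τ r' r (ρ x))) is unitary and maps the range of J_r(x) onto that of J_{r'}(x) (Jm_compat; ten2 (τ..)
  is unitary), hence T (1 - J_r J_rᴴ) = (1 - J_{r'} J_{r'}ᴴ) T, i.e. T cf_r cf_rᴴ = cf_{r'} cf_{r'}ᴴ T.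
* uni: τ₂ᴴ τ₂ = cf_rᴴ Tᴴ cf_{r'} cf_{r'}ᴴ T cf_r = cf_rᴴ Tᴴ T cf_r cf_rᴴ cf_r = 1.
* coc: τ₂ r'' r' τ₂ r' r = cf''ᴴ T'' cf' cf'ᴴ T cf_r = cf''ᴴ T'' T cf_r cf_rᴴ cf_r, T'' T = amp ten1(τ r'' r) (coc of τ
  at ρ x ∈ sx r, rho_mem_self).
* bl: BLM.mul etc., BLM.comp with rho (rho_lip, rho_mem_self), on sx r.
* eqv: c4, ten1_apply_act, eqv of τ, rho_pact; reindex the sums over the inner indices.
* free: π₃ g t y = y implies act1 e' (π g t) w = w, so π g t (w 0) = w 0 and g = 1.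
* pimul: act1n is multiplicative (act1n_mul), Equiv.sumCongr too.

-/

namespace Pool.HQ

open scoped Pointwise Matrix

/-- The properties of the complement frames of E15. -/
structure CFr {G V ι : Type} [Group G] [MulAction G V] [DecidableEq V] (K : Set (Finset V))
    (k : ℕ) [Fintype ι] [DecidableEq ι] (π : G → Finset V → Equiv.Perm ι)
    (τ : Finset V → Finset V → (V →₀ ℝ) → Matrix ι ι ℂ) (ψ : Finset V → ι → Equiv.Perm ι) (e' : ℕ)
    (cf : Finset V → (V →₀ ℝ) → Matrix (Wd ι e' × Fin (e' + 1)) (Wd ι e' × Fin e') ℂ) : Prop where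
  psi_eq : ∀ (g : G), ∀ s ∈ K, s.card ≤ k → ∀ i, ψ (g • s) (π g s i) * π g s = ψ s i
  c1 : ∀ r ∈ K, r.card ≤ k → ∀ x ∈ sx r, (cf r x)ᴴ * cf r x = 1
  c2 : ∀ r ∈ K, r.card ≤ k → ∀ x ∈ sx r,
    cf r x * (cf r x)ᴴ = 1 - Jm e' τ ψ r x * (Jm e' τ ψ r x)ᴴ
  c3 : ∀ r ∈ K, r.card ≤ k → BLM d1 (sx r) (cf r)
  c4 : ∀ (g : G), ∀ r ∈ K, r.card ≤ k → ∀ x ∈ sx r, ∀ p q,
    cf (g • r) (pact g x) (act1n e' (e' + 1) (π g r) p) (act1n e' e' (π g r) q) = cf r x p q

/-- changes of coordinates of the complement bundle E₂ -/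
noncomputable def tau2 {V ι : Type} [Fintype ι] [DecidableEq ι] (e' : ℕ)
    (τ : Finset V → Finset V → (V →₀ ℝ) → Matrix ι ι ℂ)
    (cf : Finset V → (V →₀ ℝ) → Matrix (Wd ι e' × Fin (e' + 1)) (Wd ι e' × Fin e') ℂ)
    (r' r : Finset V) (x : V →₀ ℝ) : Matrix (Wd ι e' × Fin e') (Wd ι e' × Fin e') ℂ :=
  (cf r' x)ᴴ * amp (e' + 1) (ten1 e' (τ r' r (rho (eps (e' + 1)) x))) * cf r x

/-- permutations of E₂ -/
def pi2 {G V ι : Type} (e' : ℕ) (π : G → Finset V → Equiv.Perm ι) (g : G) (r : Finset V) :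
    Equiv.Perm (Wd ι e' × Fin e') := act1n e' e' (π g r)

section aux16

lemma E16_mul_apply {m n l m' n' l' : Type} [Fintype n] [Fintype n'] {A : Matrix m n ℂ} {A' : Matrix m' n' ℂ}
    {B : Matrix n l ℂ} {B' : Matrix n' l' ℂ} (f : m → m') (σ : n ≃ n') (h : l → l')
    (hA : ∀ i j, A' (f i) (σ j) = A i j) (hB : ∀ j k, B' (σ j) (h k) = B j k) (i : m) (k : l) :
    (A' * B') (f i) (h k) = (A * B) i k := by
  rw [Matrix.mul_apply, Matrix.mul_apply, ← Equiv.sum_comp σ]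
  exact Finset.sum_congr rfl fun j _ => by rw [hA, hB]

end aux16

section

variable {G V ι : Type} [Group G] [MulAction G V] [DecidableEq V] {K : Set (Finset V)} {k : ℕ}
  [Fintype ι] [DecidableEq ι] {π : G → Finset V → Equiv.Perm ι}
  {τ : Finset V → Finset V → (V →₀ ℝ) → Matrix ι ι ℂ} {ψ : Finset V → ι → Equiv.Perm ι} {e' : ℕ}
  {cf : Finset V → (V →₀ ℝ) → Matrix (Wd ι e' × Fin (e' + 1)) (Wd ι e' × Fin e') ℂ}

/-- the amplified change of coordinates is unitary and intertwines the complement projections -/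
lemma E16_T (hK : Cx G V K) (hB : CB K k ι π τ) (hke : k ≤ e' + 1)
    (hc : CFr K k π τ ψ e' cf) {t : Finset V} (ht : t ∈ K) (htk : t.card ≤ k) {s : Finset V}
    (hst : s ⊆ t) (hne : s.Nonempty) {x : V →₀ ℝ} (hx : x ∈ sx s) {T : Matrix (Wd ι e' × Fin (e' + 1)) (Wd ι e' × Fin (e' + 1)) ℂ}
    (hT : T = amp (e' + 1) (ten1 e' (τ t s (rho (eps (e' + 1)) x)))) :
    Tᴴ * T = 1 ∧ T * (cf s x * (cf s x)ᴴ) = cf t x * (cf t x)ᴴ * T := by
  have hs : s ∈ K := hK.down t ht s hst hne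
  have hsk : s.card ≤ k := (Finset.card_le_card hst).trans htk
  have hxt : x ∈ sx t := sx_mono hst hx
  have hρ : rho (eps (e' + 1)) x ∈ sx s := rho_mem_self (by omega) (hsk.trans hke) hx
  have hu := hB.uni t ht htk s hst hne _ hρ
  have hu' := hB.uni' ht htk hst hne hρ
  have hTT : Tᴴ * T = 1 := by
    rw [hT, amp_star, ← amp_mul, ← ten1_star, ← ten1_mul, hu, ten1_one, amp_one]
  have hcomp := Jm_compat (ψ := ψ) hK hB hke ht htk hst hne hx
  rw [← hT] at hcomp
  refine ⟨hTT, ?_⟩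
  rw [hc.c2 s hs hsk x hx, hc.c2 t ht htk x hxt]
  have h22 : ten2 e' (τ t s (rho (eps (e' + 1)) x)) * (ten2 e' (τ t s (rho (eps (e' + 1)) x)))ᴴ = 1 := by
    rw [← ten2_star, ← ten2_mul, hu', ten2_one]
  have h3 : Tᴴ * Jm e' τ ψ t x = Jm e' τ ψ s x * (ten2 e' (τ t s (rho (eps (e' + 1)) x)))ᴴ := by
    calc Tᴴ * Jm e' τ ψ t x = Tᴴ * (Jm e' τ ψ t x * (ten2 e' (τ t s (rho (eps (e' + 1)) x)) *
          (ten2 e' (τ t s (rho (eps (e' + 1)) x)))ᴴ)) := by rw [h22, Matrix.mul_one]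
      _ = Tᴴ * (T * Jm e' τ ψ s x) * (ten2 e' (τ t s (rho (eps (e' + 1)) x)))ᴴ := by
          rw [← hcomp]
          simp only [Matrix.mul_assoc]
      _ = (Tᴴ * T) * Jm e' τ ψ s x * (ten2 e' (τ t s (rho (eps (e' + 1)) x)))ᴴ := by
          simp only [Matrix.mul_assoc]
      _ = _ := by rw [hTT, Matrix.one_mul]
  have h4 : (Jm e' τ ψ t x)ᴴ * T = ten2 e' (τ t s (rho (eps (e' + 1)) x)) * (Jm e' τ ψ s x)ᴴ := by
    have := congrArg Matrix.conjTranspose h3
    rwa [Matrix.conjTranspose_mul, Matrix.conjTranspose_mul, Matrix.conjTranspose_conjTranspose,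
      Matrix.conjTranspose_conjTranspose] at this
  rw [Matrix.mul_sub, Matrix.sub_mul, Matrix.mul_one, Matrix.one_mul]
  congr 1
  rw [← Matrix.mul_assoc, ← hcomp, Matrix.mul_assoc, Matrix.mul_assoc, h4]

theorem cb2 (hK : Cx G V K) (hB : CB K k ι π τ) (hke : k ≤ e' + 1)
    (hc : CFr K k π τ ψ e' cf) :
    CB K k (Wd ι e' × Fin e') (pi2 e' π) (tau2 e' τ cf) := by
  have he1 : 1 ≤ e' + 1 := by omega
  refine ⟨?_, ?_, ?_, ?_, ?_, ?_⟩
  · intro g h t
    unfold pi2
    rw [hB.pimul, act1n_mul]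
  · intro g t ht htk hgt i hi
    have h1 : act1 e' (π g t) i.1 = i.1 := congrArg Prod.fst hi
    have h2 : π g t (i.1 0) = i.1 0 := by
      have := congrFun h1 0
      simpa [act1] using this
    exact hB.free g t ht htk hgt _ h2
  · intro t ht htk s hst hne x hx
    obtain ⟨h1, h2⟩ := E16_T hK hB hke hc ht htk hst hne hx rfl
    have hs : s ∈ K := hK.down t ht s hst hne
    have hsk : s.card ≤ k := (Finset.card_le_card hst).trans htk
    have hc1 := hc.c1 s hs hsk x hx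
    unfold tau2
    generalize amp (e' + 1) (ten1 e' (τ t s (rho (eps (e' + 1)) x))) = T at *
    rw [Matrix.conjTranspose_mul, Matrix.conjTranspose_mul, Matrix.conjTranspose_conjTranspose]
    calc (cf s x)ᴴ * (Tᴴ * cf t x) * ((cf t x)ᴴ * T * cf s x)
        = (cf s x)ᴴ * (Tᴴ * (cf t x * (cf t x)ᴴ * T) * cf s x) := by
          simp only [Matrix.mul_assoc]
      _ = (cf s x)ᴴ * ((Tᴴ * T) * cf s x * ((cf s x)ᴴ * cf s x)) := by
          rw [← h2]
          simp only [Matrix.mul_assoc]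
      _ = 1 := by rw [h1, Matrix.one_mul, hc1, Matrix.mul_one, hc1]
  · intro t ht htk s hst hne
    have hs : s ∈ K := hK.down t ht s hst hne
    have hsk : s.card ≤ k := (Finset.card_le_card hst).trans htk
    have h1 : BLM d1 (sx s) (fun x => τ t s (rho (eps (e' + 1)) x)) :=
      BLM.comp d1_nonneg (hB.bl t ht htk s hst hne) (fun x => rho (eps (e' + 1)) x)
        (fun x hx => rho_mem_self he1 (hsk.trans hke) hx) 4 (by norm_num)
        (fun x hx y hy => rho_lip he1 (hsk.trans hke) hx hy)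
    exact BLM.mul d1_nonneg (BLM.mul d1_nonneg
      (BLM.conjTranspose (BLM.mono (hc.c3 t ht htk) (sx_mono hst)))
      (BLM.amp d1_nonneg _ (BLM.ten1 d1_nonneg e' h1))) (hc.c3 s hs hsk)
  · intro r hr hrk t htr s hst hne x hx
    have htne : t.Nonempty := hne.mono hst
    have ht : t ∈ K := hK.down r hr t htr htne
    have htk : t.card ≤ k := (Finset.card_le_card htr).trans hrk
    have hs : s ∈ K := hK.down t ht s hst hne
    have hsk : s.card ≤ k := (Finset.card_le_card hst).trans htk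
    obtain ⟨h1, h2⟩ := E16_T hK hB hke hc ht htk hst hne hx rfl
    have hc1 := hc.c1 s hs hsk x hx
    have hρ : rho (eps (e' + 1)) x ∈ sx s := rho_mem_self he1 (hsk.trans hke) hx
    have h3 : amp (e' + 1) (ten1 e' (τ r t (rho (eps (e' + 1)) x))) *
        amp (e' + 1) (ten1 e' (τ t s (rho (eps (e' + 1)) x))) =
        amp (e' + 1) (ten1 e' (τ r s (rho (eps (e' + 1)) x))) := by
      rw [← amp_mul, ← ten1_mul, hB.coc r hr hrk t htr s hst hne _ hρ]
    unfold tau2
    rw [← h3]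
    generalize amp (e' + 1) (ten1 e' (τ r t (rho (eps (e' + 1)) x))) = T' at *
    generalize amp (e' + 1) (ten1 e' (τ t s (rho (eps (e' + 1)) x))) = T at *
    calc (cf r x)ᴴ * T' * cf t x * ((cf t x)ᴴ * T * cf s x)
        = (cf r x)ᴴ * T' * (cf t x * (cf t x)ᴴ * T) * cf s x := by
          simp only [Matrix.mul_assoc]
      _ = (cf r x)ᴴ * (T' * T) * cf s x * ((cf s x)ᴴ * cf s x) := by
          rw [← h2]
          simp only [Matrix.mul_assoc]
      _ = (cf r x)ᴴ * (T' * T) * cf s x := by rw [hc1, Matrix.mul_one]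
  · intro g t ht htk s hst hne x hx i j
    have hs : s ∈ K := hK.down t ht s hst hne
    have hsk : s.card ≤ k := (Finset.card_le_card hst).trans htk
    have hρ : rho (eps (e' + 1)) x ∈ sx s := rho_mem_self he1 (hsk.trans hke) hx
    unfold tau2 pi2
    refine E16_mul_apply (act1n e' e' (π g t)) (act1n e' (e' + 1) (π g s)) (act1n e' e' (π g s))
      ?_ (hc.c4 g s hs hsk x hx) i j
    refine E16_mul_apply (act1n e' e' (π g t)) (act1n e' (e' + 1) (π g t))
      (act1n e' (e' + 1) (π g s)) ?_ ?_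
    · intro i j
      rw [Matrix.conjTranspose_apply, Matrix.conjTranspose_apply,
        hc.c4 g t ht htk x (sx_mono hst hx)]
    · intro p q
      have h1 := ten1_apply_act e' (a := τ (g • t) (g • s) (pact g (rho (eps (e' + 1)) x)))
        (b := τ t s (rho (eps (e' + 1)) x)) (σ := π g t) (σ' := π g s)
        (hB.eqv g t ht htk s hst hne _ hρ)
      rw [rho_pact]
      show (if p.2 = q.2 then ten1 e' (τ (g • t) (g • s) (pact g (rho (eps (e' + 1)) x)))
        (act1 e' (π g t) p.1) (act1 e' (π g s) q.1) else 0) = if p.2 = q.2 then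
        ten1 e' (τ t s (rho (eps (e' + 1)) x)) p.1 q.1 else 0
      rw [h1]

/-- double of a combinatorial bundle -/
theorem cb_double {ι' : Type} [Fintype ι'] [DecidableEq ι'] {π' : G → Finset V → Equiv.Perm ι'}
    {τ' : Finset V → Finset V → (V →₀ ℝ) → Matrix ι' ι' ℂ} (hB : CB K k ι' π' τ') :
    CB K k (ι' ⊕ ι') (fun g t => Equiv.sumCongr (π' g t) (π' g t))
      (fun t s x => Matrix.fromBlocks (τ' t s x) 0 0 (τ' t s x)) := by
  refine ⟨?_, ?_, ?_, ?_, ?_, ?_⟩
  · intro g h t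
    ext i
    rcases i with i | i <;> simp [hB.pimul]
  · intro g t ht htk hgt i hi
    rcases i with i | i
    · exact hB.free g t ht htk hgt i (by simpa using hi)
    · exact hB.free g t ht htk hgt i (by simpa using hi)
  · intro t ht htk s hst hne x hx
    have h := hB.uni t ht htk s hst hne x hx
    simp only [Matrix.fromBlocks_conjTranspose, Matrix.fromBlocks_multiply]
    simp [h]
  · intro t ht htk s hst hne
    have h := hB.bl t ht htk s hst hne
    exact BLM.fromBlocks h (BLM.const d1_nonneg 0) (BLM.const d1_nonneg 0) h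
  · intro r hr hrk t htr s hst hne x hx
    have h := hB.coc r hr hrk t htr s hst hne x hx
    simp only [Matrix.fromBlocks_multiply]
    simp [h]
  · intro g t ht htk s hst hne x hx i j
    have h := hB.eqv g t ht htk s hst hne x hx
    rcases i with i | i <;> rcases j with j | j
    · exact h i j
    · rfl
    · rfl
    · exact h i j

end

end Pool.HQ
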