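import Pool.Agent.HQ.E16

/-!
MP_7936f4_al, THEOREM E, module E17: frames of the complement bundle E₂ over star-shaped unions of
closed simplices.

frame2 (frames of E₂ on D = ⋃_{r∈R} sx r, R closed under nonempty subsets not needed).  Given a frame a of
the pulled back bundle E (structure Frm with T = τ r' r (ρ x)).  For x ∈ sx r, r ∈ R, put
A_r(x) = amp (ten1 (a r x)) and Q(x) = A_r(x)ᴴ (1 - J_r(x) J_r(x)ᴴ) A_r(x): independent of r by com and
Jm_compat (compare through supp x... if supp x ∉ R compare directly two simplices r, r' of R containing x through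
the coordinates of supp x: supp x ⊆ r ∩ r' is a simplex of K, and the two expressions are equal to the one obtained
from the frame τ r (supp x) (ρ x)ᴴ a r x = τ r' (supp x) (ρ x)ᴴ a r' x at supp x; to avoid this assume, as in the
statement, that R is closed under nonempty subsets, so supp x ∈ R).
Define Q x with r = supp x; BLM on each sx r, glue (BLM_glue), invariant under act1n e' (e'+1) (Qa h)
(h fixes x; inv of a, Jm_equiv).  tlemM with p₀ gives U.  Put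
c r x = cf_r(x)ᴴ A_r(x) U(x) A_{r₀}(p₀)ᴴ cf_{r₀}(p₀).
Unitary, compatible with τ₂ (as U(x) A_{r₀}(p₀)ᴴ cf_{r₀}(p₀) has its range in that of Q(x)), invariant from
act1n e' e' (π h r₀) to act1n e' e' (π h r) for h in the stabiliser of t.
Here the source permutations of a are Qa h = π h r₀ (as in pframe).
-/

namespace Pool.HQ

open scoped Pointwise Matrix

section

variable {G V ι : Type} [Group G] [MulAction G V] [DecidableEq V] {K : Set (Finset V)} {k : ℕ}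
  [Fintype ι] [DecidableEq ι] {π : G → Finset V → Equiv.Perm ι}
  {τ : Finset V → Finset V → (V →₀ ℝ) → Matrix ι ι ℂ} {ψ : Finset V → ι → Equiv.Perm ι} {e' : ℕ}
  {cf : Finset V → (V →₀ ℝ) → Matrix (Wd ι e' × Fin (e' + 1)) (Wd ι e' × Fin e') ℂ}

/-- the isometry of the fibre of E₂ into the trivial bundle, in the frame a -/
noncomputable def J2 (e' : ℕ) (a : Finset V → (V →₀ ℝ) → Matrix ι ι ℂ)
    (cf : Finset V → (V →₀ ℝ) → Matrix (Wd ι e' × Fin (e' + 1)) (Wd ι e' × Fin e') ℂ)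
    (r : Finset V) (x : V →₀ ℝ) : Matrix (Wd ι e' × Fin (e' + 1)) (Wd ι e' × Fin e') ℂ :=
  (amp (e' + 1) (ten1 e' (a r x)))ᴴ * cf r x

theorem amp_ten_uni (e' : ℕ) {u v : Matrix ι ι ℂ} (h : u * v = 1) :
    amp (e' + 1) (ten1 e' u) * amp (e' + 1) (ten1 e' v) = 1 := by
  rw [← amp_mul, ← ten1_mul, h, ten1_one, amp_one]

theorem amp_ten_star (e' : ℕ) (u : Matrix ι ι ℂ) :
    (amp (e' + 1) (ten1 e' u))ᴴ = amp (e' + 1) (ten1 e' uᴴ) := by
  rw [amp_star, ten1_star]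

theorem J2_iso {a : Finset V → (V →₀ ℝ) → Matrix ι ι ℂ} {r : Finset V} {x : V →₀ ℝ}
    (h1 : (cf r x)ᴴ * cf r x = 1) (h2 : a r x * (a r x)ᴴ = 1) :
    (J2 e' a cf r x)ᴴ * J2 e' a cf r x = 1 := by
  unfold J2
  rw [Matrix.conjTranspose_mul, Matrix.conjTranspose_conjTranspose, amp_ten_star,
    Matrix.mul_assoc, ← Matrix.mul_assoc (amp (e' + 1) (ten1 e' (a r x))),
    amp_ten_uni e' h2, Matrix.one_mul, h1]

theorem T_comm (hK : Cx G V K) (hB : CB K k ι π τ) (hke : k ≤ e' + 1)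
    (hc : CFr K k π τ ψ e' cf) {r' : Finset V} (hr' : r' ∈ K) (hrk : r'.card ≤ k)
    {r : Finset V} (hr : r ⊆ r') (hne : r.Nonempty) {x : V →₀ ℝ} (hx : x ∈ sx r) :
    amp (e' + 1) (ten1 e' (τ r' r (rho (eps (e' + 1)) x))) * (cf r x * (cf r x)ᴴ) =
      (cf r' x * (cf r' x)ᴴ) * amp (e' + 1) (ten1 e' (τ r' r (rho (eps (e' + 1)) x))) := by
  have hrK := hK.down r' hr' r hr hne
  have hrk' : r.card ≤ k := (Finset.card_le_card hr).trans hrk
  have hρ : rho (eps (e' + 1)) x ∈ sx r := rho_mem_self (by omega) (hrk'.trans hke) hx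
  rw [hc.c2 r hrK hrk' x hx, hc.c2 r' hr' hrk x (sx_mono hr hx)]
  have hJ := Jm_compat (ψ := ψ) hK hB hke hr' hrk hr hne hx
  have hu := hB.uni r' hr' hrk r hr hne _ hρ
  have hu' := hB.uni' hr' hrk hr hne hρ
  have t1 : amp (e' + 1) (ten1 e' (τ r' r (rho (eps (e' + 1)) x))) *
      (amp (e' + 1) (ten1 e' (τ r' r (rho (eps (e' + 1)) x))))ᴴ = 1 := by
    rw [amp_ten_star, amp_ten_uni e' hu']
  have t2 : (amp (e' + 1) (ten1 e' (τ r' r (rho (eps (e' + 1)) x))))ᴴ *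
      amp (e' + 1) (ten1 e' (τ r' r (rho (eps (e' + 1)) x))) = 1 := by
    rw [amp_ten_star, amp_ten_uni e' hu]
  have t3 : ten2 e' (τ r' r (rho (eps (e' + 1)) x)) *
      (ten2 e' (τ r' r (rho (eps (e' + 1)) x)))ᴴ = 1 := by
    rw [← ten2_star, ← ten2_mul, hu', ten2_one]
  have t4 : (ten2 e' (τ r' r (rho (eps (e' + 1)) x)))ᴴ *
      ten2 e' (τ r' r (rho (eps (e' + 1)) x)) = 1 := by
    rw [← ten2_star, ← ten2_mul, hu, ten2_one]
  generalize amp (e' + 1) (ten1 e' (τ r' r (rho (eps (e' + 1)) x))) = T at hJ t1 t2 ⊢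
  generalize ten2 e' (τ r' r (rho (eps (e' + 1)) x)) = D at hJ t3 t4 ⊢
  generalize Jm e' τ ψ r x = J at hJ ⊢
  generalize Jm e' τ ψ r' x = J' at hJ ⊢
  have h1 : J'ᴴ * T = D * Jᴴ := by
    have h2 : J' = T * J * Dᴴ := by
      rw [← hJ, Matrix.mul_assoc, t3, Matrix.mul_one]
    rw [h2]
    simp only [Matrix.conjTranspose_mul, Matrix.conjTranspose_conjTranspose, Matrix.mul_assoc]
    rw [t2, Matrix.mul_one]
  rw [Matrix.mul_sub, Matrix.sub_mul, Matrix.mul_one, Matrix.one_mul, Matrix.mul_assoc J',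
    h1, ← Matrix.mul_assoc J', hJ, Matrix.mul_assoc]

theorem J2_change (hK : Cx G V K) (hB : CB K k ι π τ) (hke : k ≤ e' + 1)
    (hc : CFr K k π τ ψ e' cf) {a : Finset V → (V →₀ ℝ) → Matrix ι ι ℂ} {r' : Finset V}
    (hr' : r' ∈ K) (hrk : r'.card ≤ k)
    {r : Finset V} (hr : r ⊆ r') (hne : r.Nonempty) {x : V →₀ ℝ} (hx : x ∈ sx r)
    (hcom : τ r' r (rho (eps (e' + 1)) x) * a r x = a r' x) :
    J2 e' a cf r' x = J2 e' a cf r x * (tau2 e' τ cf r' r x)ᴴ := by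
  have h1 := T_comm hK hB hke hc hr' hrk hr hne hx
  have h2 := hc.c1 r' hr' hrk x (sx_mono hr hx)
  unfold J2 tau2
  rw [← hcom, ten1_mul, amp_mul]
  generalize amp (e' + 1) (ten1 e' (τ r' r (rho (eps (e' + 1)) x))) = T at h1 ⊢
  generalize amp (e' + 1) (ten1 e' (a r x)) = A
  generalize cf r x = c at h1 ⊢
  generalize cf r' x = c' at h1 h2 ⊢
  have h3 : c * (cᴴ * (Tᴴ * c')) = Tᴴ * c' := by
    calc c * (cᴴ * (Tᴴ * c')) = (T * (c * cᴴ))ᴴ * c' := by
          simp only [Matrix.conjTranspose_mul, Matrix.conjTranspose_conjTranspose,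
            Matrix.mul_assoc]
      _ = (c' * c'ᴴ * T)ᴴ * c' := by rw [h1]
      _ = Tᴴ * (c' * (c'ᴴ * c')) := by
          simp only [Matrix.conjTranspose_mul, Matrix.conjTranspose_conjTranspose,
            Matrix.mul_assoc]
      _ = Tᴴ * c' := by rw [h2, Matrix.mul_one]
  simp only [Matrix.conjTranspose_mul, Matrix.conjTranspose_conjTranspose, Matrix.mul_assoc]
  rw [h3]

theorem frame2 (hK : Cx G V K) (hB : CB K k ι π τ) (hke : k ≤ e' + 1)
    (hc : CFr K k π τ ψ e' cf) (t : Finset V) (ht : t ∈ K) (R : Finset (Finset V))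
    (hR : ∀ r ∈ R, r ⊆ t ∧ r.Nonempty ∧ r.card ≤ k)
    (hRd : ∀ r ∈ R, ∀ s ⊆ r, s.Nonempty → s ∈ R) (r₀ : Finset V) (hr₀ : r₀ ∈ R)
    (p₀ : V →₀ ℝ) (hp₀ : p₀ ∈ sx r₀) (hstar : ∀ r ∈ R, ∃ r' ∈ R, r ⊆ r' ∧ r₀ ⊆ r')
    (a : Finset V → (V →₀ ℝ) → Matrix ι ι ℂ)
    (ha : Frm (H := MulAction.stabilizer G t) R (fun r' r x => τ r' r (rho (eps (e' + 1)) x))
        (fun h r => π (h : G) r) (fun h => π (h : G) r₀) a) :
    ∃ c : Finset V → (V →₀ ℝ) → Matrix (Wd ι e' × Fin e') (Wd ι e' × Fin e') ℂ,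
      Frm (H := MulAction.stabilizer G t) R (tau2 e' τ cf)
        (fun h r => pi2 e' π (h : G) r) (fun h => pi2 e' π (h : G) r₀) c := by
  have hRK : ∀ r ∈ R, r ∈ K := fun r hr => hK.down t ht r (hR r hr).1 (hR r hr).2.1
  have hB2 := cb2 hK hB hke hc
  have hiso : ∀ r ∈ R, ∀ x ∈ sx r, (J2 e' a cf r x)ᴴ * J2 e' a cf r x = 1 :=
    fun r hr x hx => J2_iso (hc.c1 r (hRK r hr) (hR r hr).2.2 x hx) (ha.uni' r hr x hx)
  have hbl : ∀ r ∈ R, BLM d1 (sx r) (J2 e' a cf r) := fun r hr =>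
    BLM.mul d1_nonneg (BLM.conjTranspose (BLM.amp d1_nonneg (e' + 1)
      (BLM.ten1 d1_nonneg e' (ha.bl r hr)))) (hc.c3 r (hRK r hr) (hR r hr).2.2)
  have hchange : ∀ r' ∈ R, ∀ r ∈ R, r ⊆ r' → ∀ x ∈ sx r,
      J2 e' a cf r' x = J2 e' a cf r x * (tau2 e' τ cf r' r x)ᴴ :=
    fun r' hr' r hr hrr x hx => J2_change hK hB hke hc (hRK r' hr') (hR r' hr').2.2 hrr
      (hR r hr).2.1 hx (ha.com r' hr' r hr hrr x hx)
  obtain ⟨QQ, hQQ⟩ : ∃ QQ : (V →₀ ℝ) → Matrix (Wd ι e' × Fin (e' + 1)) (Wd ι e' × Fin (e' + 1)) ℂ,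
      ∀ x, QQ x = J2 e' a cf x.support x * (J2 e' a cf x.support x)ᴴ := ⟨_, fun _ => rfl⟩
  have hprop : ∀ r ∈ R, ∀ x ∈ sx r, QQ x = J2 e' a cf r x * (J2 e' a cf r x)ᴴ := by
    intro r hr x hx
    have hs := sx_support hx
    have hsn := sx_support_nonempty hx
    have hsR : x.support ∈ R := hRd r hr _ hx.2.1 hsn
    have hu := hB2.uni r (hRK r hr) (hR r hr).2.2 x.support hx.2.1 hsn x hs
    rw [hQQ, hchange r hr x.support hsR hx.2.1 x hs, Matrix.conjTranspose_mul,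
      Matrix.conjTranspose_conjTranspose, Matrix.mul_assoc,
      ← Matrix.mul_assoc (tau2 e' τ cf r x.support x)ᴴ, hu, Matrix.one_mul]
  have hfix : ∀ h : G, h • t = t → ∀ r ∈ R, ∀ x ∈ sx r, pact h x = x :=
    fun h hh r hr x hx => pact_fix (t := r) (fun v hv => hK.rigid h t ht hh v ((hR r hr).1 hv)) hx
  have hinv : ∀ r ∈ R, ∀ x ∈ sx r, ∀ h : MulAction.stabilizer G t,
      (J2 e' a cf r x).submatrix (act1n e' (e' + 1) (π (h : G) r₀))
        (act1n e' e' (π (h : G) r)) = J2 e' a cf r x := by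
    intro r hr x hx h
    have hh : (h : G) • t = t := h.2
    have e1 : (amp (e' + 1) (ten1 e' (a r x))).submatrix (act1n e' (e' + 1) (π (h : G) r))
        (act1n e' (e' + 1) (π (h : G) r₀)) = amp (e' + 1) (ten1 e' (a r x)) := by
      ext p q
      rw [Matrix.submatrix_apply]
      show (if p.2 = q.2 then ten1 e' (a r x) (act1 e' (π (h : G) r) p.1)
        (act1 e' (π (h : G) r₀) q.1) else 0) = if p.2 = q.2 then ten1 e' (a r x) p.1 q.1 else 0
      rw [ten1_apply_act e' (ha.inv h r hr x hx)]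
    have e2 : (cf r x).submatrix (act1n e' (e' + 1) (π (h : G) r))
        (act1n e' e' (π (h : G) r)) = cf r x := by
      ext p q
      have h4 := hc.c4 (h : G) r (hRK r hr) (hR r hr).2.2 x hx p q
      rw [PFrameAux.smul_sub hK ht hh (hR r hr).1, hfix _ hh r hr x hx] at h4
      exact h4
    unfold J2
    rw [← Matrix.submatrix_mul_equiv _ _ _ (act1n e' (e' + 1) (π (h : G) r)),
      ← Matrix.conjTranspose_submatrix, e1, e2]
  obtain ⟨U, hU0, hU1, hU2, hU3⟩ := tlemM {x | ∃ r ∈ R, x ∈ sx r} p₀ ⟨r₀, hr₀, hp₀⟩ 2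
    (fun x ⟨r, _, hx⟩ => sx_d1_le hp₀ hx)
    (fun x ⟨r, hr, hx⟩ s hs => by
      obtain ⟨r', hr', h1, h2⟩ := hstar r hr
      exact ⟨r', hr', seg_mem (sx_mono h2 hp₀) (sx_mono h1 hx) hs⟩)
    QQ
    (fun x ⟨r, hr, hx⟩ => by
      rw [hprop r hr x hx]
      constructor
      · rw [Matrix.conjTranspose_mul, Matrix.conjTranspose_conjTranspose]
      · rw [Matrix.mul_assoc, ← Matrix.mul_assoc (J2 e' a cf r x)ᴴ, hiso r hr x hx,
          Matrix.one_mul])
    (BLM_glue R fun r hr => BLM.congr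
      (BLM.mul d1_nonneg (hbl r hr) (BLM.conjTranspose (hbl r hr)))
      (fun x hx => (hprop r hr x hx).symm))
  have huni : ∀ r ∈ R, ∀ x ∈ sx r, ((J2 e' a cf r x)ᴴ * (U x * J2 e' a cf r₀ p₀))ᴴ *
      ((J2 e' a cf r x)ᴴ * (U x * J2 e' a cf r₀ p₀)) = 1 := by
    intro r hr x hx
    obtain ⟨u1, -, u3⟩ := hU1 x ⟨r, hr, hx⟩
    rw [hprop r hr x hx, hprop r₀ hr₀ p₀ hp₀] at u3
    have hi0 := hiso r₀ hr₀ p₀ hp₀
    generalize J2 e' a cf r x = J at u3 ⊢
    generalize J2 e' a cf r₀ p₀ = J0 at u3 hi0 ⊢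
    calc (Jᴴ * (U x * J0))ᴴ * (Jᴴ * (U x * J0))
        = J0ᴴ * ((U x)ᴴ * ((J * Jᴴ * U x) * J0)) := by
          simp only [Matrix.conjTranspose_mul, Matrix.conjTranspose_conjTranspose,
            Matrix.mul_assoc]
      _ = J0ᴴ * ((U x)ᴴ * ((U x * (J0 * J0ᴴ)) * J0)) := by rw [u3]
      _ = J0ᴴ * (((U x)ᴴ * U x) * (J0 * (J0ᴴ * J0))) := by simp only [Matrix.mul_assoc]
      _ = 1 := by rw [u1, hi0, Matrix.mul_one, Matrix.one_mul, hi0]
  refine ⟨fun r x => (J2 e' a cf r x)ᴴ * (U x * J2 e' a cf r₀ p₀), ?_⟩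
  constructor
  · exact huni
  · exact fun r hr x hx => mul_eq_one_comm.1 (huni r hr x hx)
  · intro r hr
    have h1 : BLM d1 (sx r) U := BLM.mono hU2 fun x hx => ⟨r, hr, hx⟩
    exact BLM.mul d1_nonneg (BLM.conjTranspose (hbl r hr))
      (BLM.mul d1_nonneg h1 (BLM.const d1_nonneg _))
  · intro r' hr' r hr hrr x hx
    rw [hchange r' hr' r hr hrr x hx, Matrix.conjTranspose_mul,
      Matrix.conjTranspose_conjTranspose, Matrix.mul_assoc]
  · intro h r hr x hx i j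
    have hUs : (U x).submatrix (act1n e' (e' + 1) (π (h : G) r₀))
        (act1n e' (e' + 1) (π (h : G) r₀)) = U x := by
      ext p q
      refine hU3 (act1n e' (e' + 1) (π (h : G) r₀)) ?_ x ⟨r, hr, hx⟩ p q
      rintro y ⟨s, hs, hy⟩ a' b
      have h1 : (QQ y).submatrix (act1n e' (e' + 1) (π (h : G) r₀))
          (act1n e' (e' + 1) (π (h : G) r₀)) = QQ y := by
        rw [hprop s hs y hy, ← Matrix.submatrix_mul_equiv _ _ _ (act1n e' e' (π (h : G) s)),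
          ← Matrix.conjTranspose_submatrix, hinv s hs y hy h]
      exact congrFun (congrFun h1 a') b
    have h2 : ((J2 e' a cf r x)ᴴ * (U x * J2 e' a cf r₀ p₀)).submatrix
        (act1n e' e' (π (h : G) r)) (act1n e' e' (π (h : G) r₀)) =
        (J2 e' a cf r x)ᴴ * (U x * J2 e' a cf r₀ p₀) := by
      rw [← Matrix.submatrix_mul_equiv _ _ _ (act1n e' (e' + 1) (π (h : G) r₀)),
        ← Matrix.submatrix_mul_equiv _ _ _ (act1n e' (e' + 1) (π (h : G) r₀)), hUs,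
        ← Matrix.conjTranspose_submatrix, hinv r hr x hx h, hinv r₀ hr₀ p₀ hp₀ h]
    exact congrFun (congrFun h2 i) j

end

end Pool.HQ
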