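import Pool.Agent.HQ.E16
import Pool.Agent.HQ.E17

/-!
MP_7936f4_al, THEOREM E, module E18: comparison of the two frames of E ⊗ E ⊗ 1 over a star-shaped union D
of closed simplices.

Given a frame a of (the pulled back) E and a frame c of E₂ over R (structure Frm; source permutations Qa h of ι
and act1n e' e' (Qa h) of W × Fin e'), put, for x ∈ sx r, r ∈ R,
  h(x) = A_r(x)ᴴ [ cf_r(x) c_r(x) | J_r(x) ten2 (a_r(x)) ],   A_r(x) = amp (ten1 (a_r(x))).
It is unitary ([cf c | J ten2 a] is unitary: cf cfᴴ + J Jᴴ = 1, cfᴴ J = 0 which follows from c1, c2, Jm_isom),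
independent of r (frames are compatible: cf_{r'} c_{r'} = cf_{r'} τ₂ c_r = cf_{r'} cf_{r'}ᴴ T cf_r c_r = T cf_r c_r with
T = amp (ten1 (τ r' r (ρx))), as T cf_r cf_rᴴ = cf_{r'} cf_{r'}ᴴ T;  J_{r'} ten2(a_{r'}) = J_{r'} ten2(τ r' r) ten2(a_r) = T J_r ten2(a_r)
by Jm_compat; A_{r'} = T A_r, T unitary), BLM on each sx r, hence on D (BLM_glue), invariant under H = the
stabiliser of t, from sumCongr (act1n e' e' (Qa h)) (act2 e' (Qa h)) to act1n e' (e'+1) (Qa h).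
R is closed under nonempty subsets: define h x with r = supp x ∈ R, and compare with r ∈ R, x ∈ sx r.
-/

namespace Pool.HQ

open scoped Pointwise Matrix

section

variable {G V ι : Type} [Group G] [MulAction G V] [DecidableEq V] {K : Set (Finset V)} {k : ℕ}
  [Fintype ι] [DecidableEq ι] {π : G → Finset V → Equiv.Perm ι}
  {τ : Finset V → Finset V → (V →₀ ℝ) → Matrix ι ι ℂ} {ψ : Finset V → ι → Equiv.Perm ι} {e' : ℕ}
  {cf : Finset V → (V →₀ ℝ) → Matrix (Wd ι e' × Fin (e' + 1)) (Wd ι e' × Fin e') ℂ}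

/-- the frame of the trivial bundle which is compared with the amplified frame -/
noncomputable def E18B (e' : ℕ) (τ : Finset V → Finset V → (V →₀ ℝ) → Matrix ι ι ℂ)
    (ψ : Finset V → ι → Equiv.Perm ι)
    (cf : Finset V → (V →₀ ℝ) → Matrix (Wd ι e' × Fin (e' + 1)) (Wd ι e' × Fin e') ℂ)
    (a : Finset V → (V →₀ ℝ) → Matrix ι ι ℂ)
    (c : Finset V → (V →₀ ℝ) → Matrix (Wd ι e' × Fin e') (Wd ι e' × Fin e') ℂ)
    (r : Finset V) (x : V →₀ ℝ) :
    Matrix (Wd ι e' × Fin (e' + 1)) ((Wd ι e' × Fin e') ⊕ Wd ι e') ℂ :=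
  Matrix.fromCols (cf r x * c r x) (Jm e' τ ψ r x * ten2 e' (a r x))

theorem E18_change (hK : Cx G V K) (hB : CB K k ι π τ) (hke : k ≤ e' + 1)
    (hc : CFr K k π τ ψ e' cf) {a : Finset V → (V →₀ ℝ) → Matrix ι ι ℂ}
    {c : Finset V → (V →₀ ℝ) → Matrix (Wd ι e' × Fin e') (Wd ι e' × Fin e') ℂ}
    {r' : Finset V} (hr' : r' ∈ K) (hrk : r'.card ≤ k)
    {r : Finset V} (hr : r ⊆ r') (hne : r.Nonempty) {x : V →₀ ℝ} (hx : x ∈ sx r)
    (hcom : τ r' r (rho (eps (e' + 1)) x) * a r x = a r' x)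
    (hcom2 : tau2 e' τ cf r' r x * c r x = c r' x) :
    (amp (e' + 1) (ten1 e' (a r' x)))ᴴ * E18B e' τ ψ cf a c r' x =
      (amp (e' + 1) (ten1 e' (a r x)))ᴴ * E18B e' τ ψ cf a c r x := by
  have hrK := hK.down r' hr' r hr hne
  have hrk' : r.card ≤ k := (Finset.card_le_card hr).trans hrk
  have hρ : rho (eps (e' + 1)) x ∈ sx r := rho_mem_self (by omega) (hrk'.trans hke) hx
  have h1 := T_comm hK hB hke hc hr' hrk hr hne hx
  have h2 := hc.c1 r hrK hrk' x hx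
  have hJ := Jm_compat (ψ := ψ) hK hB hke hr' hrk hr hne hx
  have hu := hB.uni r' hr' hrk r hr hne _ hρ
  have hTT : (amp (e' + 1) (ten1 e' (τ r' r (rho (eps (e' + 1)) x))))ᴴ *
      amp (e' + 1) (ten1 e' (τ r' r (rho (eps (e' + 1)) x))) = 1 := by
    rw [amp_ten_star, amp_ten_uni e' hu]
  unfold E18B
  rw [← hcom2, ← hcom, ten1_mul, amp_mul, ten2_mul]
  unfold tau2
  generalize amp (e' + 1) (ten1 e' (τ r' r (rho (eps (e' + 1)) x))) = T at h1 hJ hTT ⊢
  generalize amp (e' + 1) (ten1 e' (a r x)) = A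
  generalize ten2 e' (τ r' r (rho (eps (e' + 1)) x)) = D at hJ ⊢
  generalize ten2 e' (a r x) = E
  generalize Jm e' τ ψ r x = J at hJ ⊢
  generalize Jm e' τ ψ r' x = J' at hJ ⊢
  generalize c r x = cc
  generalize cf r x = f at h1 h2 ⊢
  generalize cf r' x = f' at h1 ⊢
  have e1 : f' * (f'ᴴ * T * f * cc) = T * (f * cc) := by
    calc f' * (f'ᴴ * T * f * cc) = (f' * f'ᴴ * T) * (f * cc) := by
          simp only [Matrix.mul_assoc]
      _ = T * (f * fᴴ) * (f * cc) := by rw [h1]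
      _ = T * (f * ((fᴴ * f) * cc)) := by simp only [Matrix.mul_assoc]
      _ = T * (f * cc) := by rw [h2, Matrix.one_mul]
  have e2 : J' * (D * E) = T * (J * E) := by
    rw [← Matrix.mul_assoc, hJ, Matrix.mul_assoc]
  rw [e1, e2, ← Matrix.mul_fromCols, Matrix.conjTranspose_mul, Matrix.mul_assoc,
    ← Matrix.mul_assoc Tᴴ, hTT, Matrix.one_mul]

theorem E18B_uni (hK : Cx G V K) (hB : CB K k ι π τ) (hke : k ≤ e' + 1)
    (hc : CFr K k π τ ψ e' cf) {a : Finset V → (V →₀ ℝ) → Matrix ι ι ℂ}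
    {c : Finset V → (V →₀ ℝ) → Matrix (Wd ι e' × Fin e') (Wd ι e' × Fin e') ℂ}
    {r : Finset V} (hr : r ∈ K) (hrk : r.card ≤ k) {x : V →₀ ℝ} (hx : x ∈ sx r)
    (ha1 : (a r x)ᴴ * a r x = 1) (ha2 : a r x * (a r x)ᴴ = 1)
    (hc1 : (c r x)ᴴ * c r x = 1) (hc2 : c r x * (c r x)ᴴ = 1) :
    (E18B e' τ ψ cf a c r x)ᴴ * E18B e' τ ψ cf a c r x = 1 ∧
      E18B e' τ ψ cf a c r x * (E18B e' τ ψ cf a c r x)ᴴ = 1 := by
  have h1 := hc.c1 r hr hrk x hx
  have h2 := hc.c2 r hr hrk x hx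
  have hJ := Jm_isom (ψ := ψ) hK hB hke hr hrk hx
  have t1 : (ten2 e' (a r x))ᴴ * ten2 e' (a r x) = 1 := by
    rw [← ten2_star, ← ten2_mul, ha1, ten2_one]
  have t2 : ten2 e' (a r x) * (ten2 e' (a r x))ᴴ = 1 := by
    rw [← ten2_star, ← ten2_mul, ha2, ten2_one]
  unfold E18B
  rw [Matrix.conjTranspose_fromCols_eq_fromRows_conjTranspose]
  generalize ten2 e' (a r x) = E at t1 t2 ⊢
  generalize Jm e' τ ψ r x = J at h2 hJ ⊢
  generalize c r x = cc at hc1 hc2 ⊢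
  generalize cf r x = f at h1 h2 ⊢
  have h3 : fᴴ * J = 0 := by
    calc fᴴ * J = (fᴴ * f) * (fᴴ * J) := by rw [h1, Matrix.one_mul]
      _ = fᴴ * ((f * fᴴ) * J) := by simp only [Matrix.mul_assoc]
      _ = fᴴ * (J - J * (Jᴴ * J)) := by
          rw [h2, Matrix.sub_mul, Matrix.one_mul, Matrix.mul_assoc]
      _ = 0 := by rw [hJ, Matrix.mul_one, sub_self, Matrix.mul_zero]
  have h4 : Jᴴ * f = 0 := by
    have := congrArg Matrix.conjTranspose h3
    rwa [Matrix.conjTranspose_mul, Matrix.conjTranspose_conjTranspose,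
      Matrix.conjTranspose_zero] at this
  constructor
  · rw [Matrix.fromRows_mul_fromCols]
    have e11 : (f * cc)ᴴ * (f * cc) = 1 := by
      calc (f * cc)ᴴ * (f * cc) = ccᴴ * ((fᴴ * f) * cc) := by
            simp only [Matrix.conjTranspose_mul, Matrix.mul_assoc]
        _ = 1 := by rw [h1, Matrix.one_mul, hc1]
    have e12 : (f * cc)ᴴ * (J * E) = 0 := by
      calc (f * cc)ᴴ * (J * E) = ccᴴ * ((fᴴ * J) * E) := by
            simp only [Matrix.conjTranspose_mul, Matrix.mul_assoc]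
        _ = 0 := by rw [h3, Matrix.zero_mul, Matrix.mul_zero]
    have e21 : (J * E)ᴴ * (f * cc) = 0 := by
      calc (J * E)ᴴ * (f * cc) = Eᴴ * ((Jᴴ * f) * cc) := by
            simp only [Matrix.conjTranspose_mul, Matrix.mul_assoc]
        _ = 0 := by rw [h4, Matrix.zero_mul, Matrix.mul_zero]
    have e22 : (J * E)ᴴ * (J * E) = 1 := by
      calc (J * E)ᴴ * (J * E) = Eᴴ * ((Jᴴ * J) * E) := by
            simp only [Matrix.conjTranspose_mul, Matrix.mul_assoc]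
        _ = 1 := by rw [hJ, Matrix.one_mul, t1]
    rw [e11, e12, e21, e22, Matrix.fromBlocks_one]
  · rw [Matrix.fromCols_mul_fromRows]
    have e1 : f * cc * (f * cc)ᴴ = f * fᴴ := by
      calc f * cc * (f * cc)ᴴ = f * ((cc * ccᴴ) * fᴴ) := by
            simp only [Matrix.conjTranspose_mul, Matrix.mul_assoc]
        _ = f * fᴴ := by rw [hc2, Matrix.one_mul]
    have e2 : J * E * (J * E)ᴴ = J * Jᴴ := by
      calc J * E * (J * E)ᴴ = J * ((E * Eᴴ) * Jᴴ) := by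
            simp only [Matrix.conjTranspose_mul, Matrix.mul_assoc]
        _ = J * Jᴴ := by rw [t2, Matrix.one_mul]
    rw [e1, e2, h2, sub_add_cancel]

theorem hmap (hK : Cx G V K) (hB : CB K k ι π τ) (hke : k ≤ e' + 1)
    (hc : CFr K k π τ ψ e' cf) (t : Finset V) (ht : t ∈ K) (R : Finset (Finset V))
    (hR : ∀ r ∈ R, r ⊆ t ∧ r.Nonempty ∧ r.card ≤ k)
    (hRd : ∀ r ∈ R, ∀ s ⊆ r, s.Nonempty → s ∈ R)
    (Qa : MulAction.stabilizer G t → Equiv.Perm ι)
    (a : Finset V → (V →₀ ℝ) → Matrix ι ι ℂ)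
    (ha : Frm (H := MulAction.stabilizer G t) R (fun r' r x => τ r' r (rho (eps (e' + 1)) x))
        (fun h r => π (h : G) r) Qa a)
    (c : Finset V → (V →₀ ℝ) → Matrix (Wd ι e' × Fin e') (Wd ι e' × Fin e') ℂ)
    (hcc : Frm (H := MulAction.stabilizer G t) R (tau2 e' τ cf)
        (fun h r => pi2 e' π (h : G) r) (fun h => act1n e' e' (Qa h)) c) :
    ∃ hh : (V →₀ ℝ) → Matrix (Wd ι e' × Fin (e' + 1)) ((Wd ι e' × Fin e') ⊕ Wd ι e') ℂ,
      Adm {x | ∃ r ∈ R, x ∈ sx r} (fun h => act1n e' (e' + 1) (Qa h))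
        (fun h => Equiv.sumCongr (act1n e' e' (Qa h)) (act2 e' (Qa h))) hh ∧
      ∀ r ∈ R, ∀ x ∈ sx r, hh x =
        (amp (e' + 1) (ten1 e' (a r x)))ᴴ *
          Matrix.fromCols (cf r x * c r x) (Jm e' τ ψ r x * ten2 e' (a r x)) := by
  have hRK : ∀ r ∈ R, r ∈ K := fun r hr => hK.down t ht r (hR r hr).1 (hR r hr).2.1
  have hfix : ∀ h : G, h • t = t → ∀ r ∈ R, ∀ x ∈ sx r, pact h x = x :=
    fun h hh r hr x hx => pact_fix (t := r) (fun v hv => hK.rigid h t ht hh v ((hR r hr).1 hv)) hx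
  obtain ⟨hh, hhd⟩ : ∃ hh : (V →₀ ℝ) →
      Matrix (Wd ι e' × Fin (e' + 1)) ((Wd ι e' × Fin e') ⊕ Wd ι e') ℂ,
      ∀ x, hh x = (amp (e' + 1) (ten1 e' (a x.support x)))ᴴ * E18B e' τ ψ cf a c x.support x :=
    ⟨_, fun _ => rfl⟩
  have hval : ∀ r ∈ R, ∀ x ∈ sx r, hh x =
      (amp (e' + 1) (ten1 e' (a r x)))ᴴ * E18B e' τ ψ cf a c r x := by
    intro r hr x hx
    have hs := sx_support hx
    have hsn := sx_support_nonempty hx
    have hsR : x.support ∈ R := hRd r hr _ hx.2.1 hsn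
    rw [hhd]
    exact (E18_change hK hB hke hc (hRK r hr) (hR r hr).2.2 hx.2.1 hsn hs
      (ha.com r hr _ hsR hx.2.1 x hs) (hcc.com r hr _ hsR hx.2.1 x hs)).symm
  have hBu : ∀ r ∈ R, ∀ x ∈ sx r, _ := fun r hr x hx =>
    E18B_uni (cf := cf) hK hB hke hc (hRK r hr) (hR r hr).2.2 hx (ha.uni r hr x hx)
      (ha.uni' r hr x hx) (hcc.uni r hr x hx) (hcc.uni' r hr x hx)
  refine ⟨hh, ⟨?_, ?_, ?_, ?_⟩, fun r hr x hx => hval r hr x hx⟩
  · rintro x ⟨r, hr, hx⟩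
    rw [hval r hr x hx, amp_ten_star]
    have h1 : amp (e' + 1) (ten1 e' (a r x)) * amp (e' + 1) (ten1 e' (a r x)ᴴ) = 1 :=
      amp_ten_uni e' (ha.uni' r hr x hx)
    have h2 := (hBu r hr x hx).1
    rw [Matrix.conjTranspose_mul, amp_ten_star, Matrix.conjTranspose_conjTranspose,
      Matrix.mul_assoc, ← Matrix.mul_assoc (amp (e' + 1) (ten1 e' (a r x))), h1, Matrix.one_mul, h2]
  · rintro x ⟨r, hr, hx⟩
    rw [hval r hr x hx, amp_ten_star]
    have h1 : amp (e' + 1) (ten1 e' (a r x)ᴴ) * amp (e' + 1) (ten1 e' (a r x)) = 1 :=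
      amp_ten_uni e' (ha.uni r hr x hx)
    have h2 := (hBu r hr x hx).2
    rw [Matrix.conjTranspose_mul, amp_ten_star, Matrix.conjTranspose_conjTranspose,
      Matrix.mul_assoc, ← Matrix.mul_assoc (E18B e' τ ψ cf a c r x), h2, Matrix.one_mul, h1]
  · rintro x ⟨r, hr, hx⟩ h i j
    have hht : (h : G) • t = t := h.2
    have e1 : ∀ p q, amp (e' + 1) (ten1 e' (a r x)) (act1n e' (e' + 1) (π (h : G) r) p)
        (act1n e' (e' + 1) (Qa h) q) = amp (e' + 1) (ten1 e' (a r x)) p q := by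
      intro p q
      show (if p.2 = q.2 then ten1 e' (a r x) (act1 e' (π (h : G) r) p.1)
        (act1 e' (Qa h) q.1) else 0) = if p.2 = q.2 then ten1 e' (a r x) p.1 q.1 else 0
      rw [ten1_apply_act e' (ha.inv h r hr x hx)]
    have e2 : ∀ p q, cf r x (act1n e' (e' + 1) (π (h : G) r) p)
        (act1n e' e' (π (h : G) r) q) = cf r x p q := by
      intro p q
      have h4 := hc.c4 (h : G) r (hRK r hr) (hR r hr).2.2 x hx p q
      rw [PFrameAux.smul_sub hK ht hht (hR r hr).1, hfix _ hht r hr x hx] at h4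
      exact h4
    have e3 : ∀ p w, Jm e' τ ψ r x (act1n e' (e' + 1) (π (h : G) r) p)
        (act2 e' (π (h : G) r) w) = Jm e' τ ψ r x p w := by
      intro p w
      have h4 := Jm_equiv hK hB hke hc.psi_eq (h : G) (hRK r hr) (hR r hr).2.2 hx p w
      rw [PFrameAux.smul_sub hK ht hht (hR r hr).1, hfix _ hht r hr x hx] at h4
      exact h4
    have e4 : ∀ p q, E18B e' τ ψ cf a c r x (act1n e' (e' + 1) (π (h : G) r) p)
        (Equiv.sumCongr (act1n e' e' (Qa h)) (act2 e' (Qa h)) q) = E18B e' τ ψ cf a c r x p q := by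
      intro p q
      rcases q with q | q
      · exact E16_mul_apply (A := cf r x) (A' := cf r x) (B := c r x) (B' := c r x)
          (act1n e' (e' + 1) (π (h : G) r)) (act1n e' e' (π (h : G) r)) (act1n e' e' (Qa h))
          e2 (hcc.inv h r hr x hx) p q
      · exact E16_mul_apply (A := Jm e' τ ψ r x) (A' := Jm e' τ ψ r x)
          (B := ten2 e' (a r x)) (B' := ten2 e' (a r x))
          (act1n e' (e' + 1) (π (h : G) r)) (act2 e' (π (h : G) r)) (act2 e' (Qa h))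
          e3 (fun w w' => ten2_apply_act e' (ha.inv h r hr x hx) w w') p q
    rw [hval r hr x hx]
    refine E16_mul_apply (act1n e' (e' + 1) (Qa h)) (act1n e' (e' + 1) (π (h : G) r))
      (Equiv.sumCongr (act1n e' e' (Qa h)) (act2 e' (Qa h))) ?_ e4 i j
    intro p q
    rw [Matrix.conjTranspose_apply, Matrix.conjTranspose_apply, e1]
  · refine BLM_glue R fun r hr => BLM.congr ?_ fun x hx => (hval r hr x hx).symm
    have b1 := ha.bl r hr
    have b2 := hcc.bl r hr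
    have b3 := hc.c3 r (hRK r hr) (hR r hr).2.2
    have b4 := Jm_blm (ψ := ψ) hK hB hke (hRK r hr) (hR r hr).2.2
    exact BLM.mul d1_nonneg (BLM.conjTranspose (BLM.amp d1_nonneg _ (BLM.ten1 d1_nonneg e' b1)))
      (BLM.fromCols (BLM.mul d1_nonneg b3 b2)
        (BLM.mul d1_nonneg b4 (BLM.ten2 d1_nonneg e' b1)))

/-- change the source coordinates of a frame by a permutation -/
theorem Frm.reindex {V H Y Z Z' : Type} [Fintype Y] [DecidableEq Y] [Fintype Z] [DecidableEq Z]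
    [Fintype Z'] [DecidableEq Z']
    {R : Finset (Finset V)} {T : Finset V → Finset V → (V →₀ ℝ) → Matrix Y Y ℂ}
    {P : H → Finset V → Equiv.Perm Y} {Q : H → Equiv.Perm Z} {Q' : H → Equiv.Perm Z'}
    {a : Finset V → (V →₀ ℝ) → Matrix Y Z ℂ} (ha : Frm R T P Q a) (σ : Z' ≃ Z)
    (hσ : ∀ h z, σ (Q' h z) = Q h (σ z)) : Frm R T P Q' (fun r x => a r x * pmx σ) := by
  have hp1 : (pmx σ : Matrix Z Z' ℂ)ᴴ * pmx σ = 1 := E14.pmx_star_mul σ σ.injective
  have hp : (pmx σ : Matrix Z Z' ℂ)ᴴ * pmx σ = 1 ∧ (pmx σ : Matrix Z Z' ℂ) * (pmx σ)ᴴ = 1 :=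
    ⟨hp1, (Matrix.mul_eq_one_comm_of_equiv σ).1 hp1⟩
  have hap : ∀ r x i j, (a r x * pmx σ) i j = a r x i (σ j) := by
    intro r x i j
    rw [Matrix.mul_apply, Finset.sum_eq_single (σ j)]
    · simp [pmx]
    · intro b _ hb
      simp [pmx, hb]
    · intro hb
      exact absurd (Finset.mem_univ _) hb
  constructor
  · intro r hr x hx
    rw [Matrix.conjTranspose_mul, Matrix.mul_assoc, ← Matrix.mul_assoc (a r x)ᴴ,
      ha.uni r hr x hx, Matrix.one_mul, hp.1]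
  · intro r hr x hx
    rw [Matrix.conjTranspose_mul, Matrix.mul_assoc, ← Matrix.mul_assoc (pmx σ), hp.2,
      Matrix.one_mul, ha.uni' r hr x hx]
  · intro r hr
    exact BLM.mul d1_nonneg (ha.bl r hr) (BLM.const d1_nonneg _)
  · intro r' hr' r hr hrr x hx
    rw [← Matrix.mul_assoc, ha.com r' hr' r hr hrr x hx]
  · intro h r hr x hx i j
    rw [hap, hap, hσ, ha.inv h r hr x hx]

end

end Pool.HQ
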