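import Pool.Agent.HQ.E10
import Pool.Agent.HQ.E11
import Pool.Agent.HQ.E15
import Pool.Agent.HQ.E17
import Pool.Agent.HQ.E18

/-!
MP_7936f4_al, THEOREM E, module E19: the doubled complement bundle E₃ is trivial over the boundary of every
simplex t with k+1 vertices (k ≥ 1), equivariantly for the stabiliser of t.

Proof of ext_data.  Choose v₀ ∈ t, F = t.erase v₀ (nonempty, |F| = k).
R₊ = {r ⊆ t : r ≠ ∅, ∃ v ∈ t, v ≠ v₀, v ∉ r}, r₀ = {v₀}, p₀ = vx v₀;  R₋ = {r ⊆ F : r ≠ ∅}, r₀ = F, p₀ = bary F.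
Both are closed under nonempty subsets, their members have at most k elements, and hstar holds
(r ∪ {v₀} ∈ R₊ for r ∈ R₊; r ⊆ F for r ∈ R₋).
pframe gives frames a₊ (source π h {v₀}) and a₋ (source π h F); frame2 gives c₊, c₋.
H = stabiliser of t; h ↦ π h {v₀} and h ↦ π h F are homomorphisms H →* Perm ι (h fixes {v₀} and F by rigidity;
CB.pi_stab) and free (CB.free).  free_conj: σ with σ (π h {v₀} i) = π h F (σ i).  Replace a₋ by a₋ pmx σ and c₋ by
c₋ pmx (act1n e' e' σ) (Frm.reindex): now both have source permutations α h = π h {v₀}, resp. act1n e' e' (α h).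
D± = ⋃_{r ∈ R±} sx r.  S = {x ∈ sx F : ∃ v ∈ F, x v = 0} ⊆ D₊ ∩ D₋ (if x v = 0, v ∈ F then supp x ∈ R₊ ∩ R₋).
hmap gives hp, hm.  For x ∈ S put (with r = supp x) g x = (a₋ r x)ᴴ a₊ r x, k x = (c₋ r x)ᴴ c₊ r x: independent of
the choice of r ∈ R₊ ∩ R₋ with x ∈ sx r (com, unitary change of coordinates), admissible on S: BLM by BLM_glue over
the faces r ∈ R₊ ∩ R₋ (S = their union).
Relation: hm (k ⊕ ten2 g) = A₋ᴴ [cf c₋ k | J ten2(a₋) ten2(g)] = A₋ᴴ [cf c₊ | J ten2(a₊)] = A₋ᴴ A₊ hp = amp (ten1 g) hp.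
hψ for stab_triv: ψ := ψ {v₀}; psi_equivariant applied to hc.psi_eq with g = h, s = {v₀} (h • {v₀} = {v₀}).
stab_triv: k ⊕ k is null on S; cone_ext: Kx on sx F, admissible, Kx = k ⊕ k on S.
Put u s x = c₊ s x ⊕ c₊ s x if v₀ ∈ s,  u s x = (c₋ s x ⊕ c₋ s x) Kx x if v₀ ∉ s  (fromBlocks).
For s ⊆ t nonempty, s ≠ t: if v₀ ∈ s then s ∈ R₊; if v₀ ∉ s then s ⊆ F, s ∈ R₋.
Compatibility for s ⊆ s' ≠ t: if v₀ ∈ s or v₀ ∉ s' clear; if v₀ ∉ s, v₀ ∈ s': s' ∈ R₊, s ⊆ s'.erase v₀ ≠ F so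
x ∈ sx s implies x ∈ S and s ∈ R₊ ∩ R₋: u s x = (c₋ ⊕ c₋)(k ⊕ k) = c₊ s x ⊕ c₊ s x.
The source permutations of u are sumCongr (act1n e' e' (α h)) (act1n e' e' (α h)) = π₃ h {v₀}: a homomorphism
H →* Perm, free.
-/

namespace Pool.HQ

open scoped Pointwise Matrix

/-- Data extending a combinatorial bundle to a new simplex t: a free action α of the stabiliser of t on the
index set and a trivialisation u of the bundle over the boundary of t. -/
structure Ext {G V ι : Type} [Group G] [MulAction G V] [DecidableEq V] [Fintype ι] [DecidableEq ι]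
    (π : G → Finset V → Equiv.Perm ι) (τ : Finset V → Finset V → (V →₀ ℝ) → Matrix ι ι ℂ)
    (t : Finset V) (α : MulAction.stabilizer G t →* Equiv.Perm ι)
    (u : Finset V → (V →₀ ℝ) → Matrix ι ι ℂ) : Prop where
  free : ∀ h i, α h i = i → h = 1
  uni : ∀ s ⊆ t, s.Nonempty → s ≠ t → ∀ x ∈ sx s, (u s x)ᴴ * u s x = 1
  bl : ∀ s ⊆ t, s.Nonempty → s ≠ t → BLM d1 (sx s) (u s)
  com : ∀ s' ⊆ t, s' ≠ t → ∀ s ⊆ s', s.Nonempty → ∀ x ∈ sx s, τ s' s x * u s x = u s' x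
  inv : ∀ (h : MulAction.stabilizer G t), ∀ s ⊆ t, s.Nonempty → s ≠ t → ∀ x ∈ sx s, ∀ i j,
    u s x (π (h : G) s i) (α h j) = u s x i j

namespace E19

/-- invariance of a product, rectangular matrices -/
lemma mul_inv {A B C : Type} [Fintype B] {σ : Equiv.Perm A} {ρ : Equiv.Perm B} {μ : Equiv.Perm C}
    {M : Matrix A B ℂ} {N : Matrix B C ℂ} (hM : ∀ i j, M (σ i) (ρ j) = M i j)
    (hN : ∀ i j, N (ρ i) (μ j) = N i j) (i : A) (j : C) : (M * N) (σ i) (μ j) = (M * N) i j := by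
  rw [Matrix.mul_apply, Matrix.mul_apply, ← Equiv.sum_comp ρ (fun l => M (σ i) l * N l (μ j))]
  exact Finset.sum_congr rfl (fun l _ => by rw [hM, hN])

lemma star_inv {A B : Type} {σ : Equiv.Perm A} {ρ : Equiv.Perm B}
    {M : Matrix A B ℂ} (hM : ∀ i j, M (σ i) (ρ j) = M i j) (i : B) (j : A) :
    Mᴴ (ρ i) (σ j) = Mᴴ i j := by
  rw [Matrix.conjTranspose_apply, Matrix.conjTranspose_apply, hM]

/-- comparison of two frames of the same bundle -/
theorem cmp {V H Y Z : Type} [Fintype Y] [DecidableEq Y] [Fintype Z] [DecidableEq Z]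
    {R R₁ R₂ : Finset (Finset V)} {T : Finset V → Finset V → (V →₀ ℝ) → Matrix Y Y ℂ}
    {P : H → Finset V → Equiv.Perm Y} {Q : H → Equiv.Perm Z}
    {a b : Finset V → (V →₀ ℝ) → Matrix Y Z ℂ} (h1 : R ⊆ R₁) (h2 : R ⊆ R₂)
    (hd : ∀ r ∈ R, ∀ s ⊆ r, s.Nonempty → s ∈ R) (ha : Frm R₁ T P Q a) (hb : Frm R₂ T P Q b) :
    Adm {x | ∃ r ∈ R, x ∈ sx r} Q Q (fun x => (b x.support x)ᴴ * a x.support x) ∧
      ∀ r ∈ R, ∀ x ∈ sx r, (b r x)ᴴ * a r x = (b x.support x)ᴴ * a x.support x := by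
  have key : ∀ r ∈ R, ∀ x ∈ sx r, (b r x)ᴴ * a r x = (b x.support x)ᴴ * a x.support x := by
    intro r hr x hx
    have hs : x.support ∈ R := hd r hr _ hx.2.1 (sx_support_nonempty hx)
    have hxs : x ∈ sx x.support := sx_support hx
    have e1 := ha.com r (h1 hr) _ (h1 hs) hx.2.1 x hxs
    have e2 := hb.com r (h2 hr) _ (h2 hs) hx.2.1 x hxs
    have e3 : T r x.support x = a r x * (a x.support x)ᴴ := by
      rw [← e1, Matrix.mul_assoc, ha.uni' _ (h1 hs) x hxs, Matrix.mul_one]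
    have e4 : (T r x.support x)ᴴ * T r x.support x = 1 := by
      rw [e3, Matrix.conjTranspose_mul, Matrix.conjTranspose_conjTranspose, Matrix.mul_assoc,
        ← Matrix.mul_assoc (a r x)ᴴ, ha.uni r (h1 hr) x hx, Matrix.one_mul,
        ha.uni' _ (h1 hs) x hxs]
    rw [← e1, ← e2, Matrix.conjTranspose_mul, Matrix.mul_assoc,
      ← Matrix.mul_assoc (T r x.support x)ᴴ, e4, Matrix.one_mul]
  refine ⟨⟨?_, ?_, ?_, ?_⟩, key⟩
  · rintro x ⟨r, hr, hx⟩
    have hs : x.support ∈ R := hd r hr _ hx.2.1 (sx_support_nonempty hx)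
    have hxs : x ∈ sx x.support := sx_support hx
    rw [Matrix.conjTranspose_mul, Matrix.conjTranspose_conjTranspose, Matrix.mul_assoc,
      ← Matrix.mul_assoc (b x.support x), hb.uni' _ (h2 hs) x hxs, Matrix.one_mul,
      ha.uni _ (h1 hs) x hxs]
  · rintro x ⟨r, hr, hx⟩
    have hs : x.support ∈ R := hd r hr _ hx.2.1 (sx_support_nonempty hx)
    have hxs : x ∈ sx x.support := sx_support hx
    rw [Matrix.conjTranspose_mul, Matrix.conjTranspose_conjTranspose, Matrix.mul_assoc,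
      ← Matrix.mul_assoc (a x.support x), ha.uni' _ (h1 hs) x hxs, Matrix.one_mul,
      hb.uni _ (h2 hs) x hxs]
  · rintro x ⟨r, hr, hx⟩ h i j
    have hs : x.support ∈ R := hd r hr _ hx.2.1 (sx_support_nonempty hx)
    have hxs : x ∈ sx x.support := sx_support hx
    exact mul_inv (star_inv (hb.inv h _ (h2 hs) x hxs)) (ha.inv h _ (h1 hs) x hxs) i j
  · apply BLM_glue
    intro r hr
    refine BLM.congr (BLM.mul d1_nonneg (BLM.conjTranspose (hb.bl r (h2 hr))) (ha.bl r (h1 hr))) ?_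
    intro x hx
    exact key r hr x hx

lemma amp_ten1_uni' {ι : Type} [Fintype ι] [DecidableEq ι] (e' n : ℕ) {a : Matrix ι ι ℂ}
    (h : a * aᴴ = 1) : amp n (ten1 e' a) * (amp n (ten1 e' a))ᴴ = 1 := by
  rw [amp_star, ← amp_mul, ← ten1_star, ← ten1_mul, h, ten1_one, amp_one]

lemma blocks_uni {Y Z : Type} [Fintype Y] [Fintype Z] [DecidableEq Y] [DecidableEq Z]
    {M : Matrix Y Z ℂ} (h : Mᴴ * M = 1) :
    (Matrix.fromBlocks M 0 0 M)ᴴ * Matrix.fromBlocks M 0 0 M = 1 := by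
  rw [Matrix.fromBlocks_conjTranspose, Matrix.fromBlocks_multiply]
  simp only [Matrix.conjTranspose_zero, Matrix.mul_zero, Matrix.zero_mul, add_zero, zero_add]
  rw [h, Matrix.fromBlocks_one]

lemma blocks_mul {A B C : Type} [Fintype B] (M : Matrix A B ℂ) (N : Matrix B C ℂ) :
    Matrix.fromBlocks M 0 0 M * Matrix.fromBlocks N 0 0 N =
      Matrix.fromBlocks (M * N) 0 0 (M * N) := by
  rw [Matrix.fromBlocks_multiply]
  simp only [Matrix.mul_zero, Matrix.zero_mul, add_zero, zero_add]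

lemma blocks_inv {A B : Type} {σ : Equiv.Perm A} {ρ : Equiv.Perm B} {M : Matrix A B ℂ}
    (hM : ∀ i j, M (σ i) (ρ j) = M i j) (i : A ⊕ A) (j : B ⊕ B) :
    Matrix.fromBlocks M 0 0 M (Equiv.sumCongr σ σ i) (Equiv.sumCongr ρ ρ j) =
      Matrix.fromBlocks M 0 0 M i j := by
  rcases i with i | i <;> rcases j with j | j
  · exact hM i j
  · rfl
  · rfl
  · exact hM i j

lemma blocks_blm {X A B : Type} {δ : X → X → ℝ} (hδ : ∀ x y, 0 ≤ δ x y) {S : Set X}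
    {M : X → Matrix A B ℂ} (h : BLM δ S M) :
    BLM δ S (fun x => Matrix.fromBlocks (M x) 0 0 (M x)) :=
  BLM.fromBlocks h (BLM.const hδ 0) (BLM.const hδ 0) h

end E19

open E19 in
theorem ext_data {G V ι : Type} [Group G] [MulAction G V] [DecidableEq V] {K : Set (Finset V)}
    {k : ℕ} [Fintype ι] [DecidableEq ι] {π : G → Finset V → Equiv.Perm ι}
    {τ : Finset V → Finset V → (V →₀ ℝ) → Matrix ι ι ℂ} {ψ : Finset V → ι → Equiv.Perm ι} {e' : ℕ}
    {cf : Finset V → (V →₀ ℝ) → Matrix (Wd ι e' × Fin (e' + 1)) (Wd ι e' × Fin e') ℂ}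
    (hK : Cx G V K) (hB : CB K k ι π τ) (hk : 1 ≤ k) (he' : 1 ≤ e') (hke : k ≤ e' + 1)
    (hc : CFr K k π τ ψ e' cf) (t : Finset V) (ht : t ∈ K) (htk : t.card = k + 1) :
    ∃ (α : MulAction.stabilizer G t →* Equiv.Perm ((Wd ι e' × Fin e') ⊕ (Wd ι e' × Fin e')))
      (u : Finset V → (V →₀ ℝ) → Matrix ((Wd ι e' × Fin e') ⊕ (Wd ι e' × Fin e'))
        ((Wd ι e' × Fin e') ⊕ (Wd ι e' × Fin e')) ℂ),
      Ext (fun g t => Equiv.sumCongr (pi2 e' π g t) (pi2 e' π g t))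
        (fun t s x => Matrix.fromBlocks (tau2 e' τ cf t s x) 0 0 (tau2 e' τ cf t s x)) t α u := by
  classical
  obtain ⟨v₀, hv₀⟩ := hK.ne t ht
  obtain ⟨F, hFdef⟩ : ∃ F, F = t.erase v₀ := ⟨_, rfl⟩
  have hFcard : F.card = k := by rw [hFdef, Finset.card_erase_of_mem hv₀, htk]; rfl
  have hFne : F.Nonempty := by rw [← Finset.card_pos, hFcard]; omega
  have hFt : F ⊆ t := by rw [hFdef]; exact Finset.erase_subset _ _
  have hFK : F ∈ K := hK.down t ht F hFt hFne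
  have hv₀F : v₀ ∉ F := by rw [hFdef]; exact Finset.notMem_erase _ _
  have hmemF : ∀ v, v ∈ F ↔ v ≠ v₀ ∧ v ∈ t := fun v => by rw [hFdef, Finset.mem_erase]
  obtain ⟨w₀, hw₀⟩ := hFne
  have hw₀' := (hmemF w₀).mp hw₀
  have hvK : ({v₀} : Finset V) ∈ K :=
    hK.down t ht _ (Finset.singleton_subset_iff.mpr hv₀) (Finset.singleton_nonempty _)
  have hvk : ({v₀} : Finset V).card ≤ k := by rw [Finset.card_singleton]; exact hk
  -- the two families
  obtain ⟨Rp, hRp⟩ : ∃ Rp : Finset (Finset V), ∀ r, r ∈ Rp ↔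
      r ⊆ t ∧ r.Nonempty ∧ ∃ v ∈ t, v ≠ v₀ ∧ v ∉ r :=
    ⟨t.powerset.filter (fun r => r.Nonempty ∧ ∃ v ∈ t, v ≠ v₀ ∧ v ∉ r), fun r => by
      rw [Finset.mem_filter, Finset.mem_powerset]⟩
  obtain ⟨Rm, hRm⟩ : ∃ Rm : Finset (Finset V), ∀ r, r ∈ Rm ↔ r ⊆ F ∧ r.Nonempty :=
    ⟨F.powerset.filter (fun r => r.Nonempty), fun r => by
      rw [Finset.mem_filter, Finset.mem_powerset]⟩
  obtain ⟨Rc, hRc⟩ : ∃ Rc : Finset (Finset V), ∀ r, r ∈ Rc ↔ r ∈ Rp ∧ r ∈ Rm :=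
    ⟨Rp.filter (fun r => r ∈ Rm), fun r => by rw [Finset.mem_filter]⟩
  have hcardp : ∀ r ∈ Rp, r ⊆ t ∧ r.Nonempty ∧ r.card ≤ k := by
    intro r hr
    obtain ⟨h1, h2, v, hv, _, hvr⟩ := (hRp r).mp hr
    refine ⟨h1, h2, ?_⟩
    have : r ⊆ t.erase v := fun w hw => Finset.mem_erase.mpr ⟨fun h => hvr (h ▸ hw), h1 hw⟩
    have h3 := Finset.card_le_card this
    rw [Finset.card_erase_of_mem hv, htk] at h3
    simpa using h3
  have hcardm : ∀ r ∈ Rm, r ⊆ t ∧ r.Nonempty ∧ r.card ≤ k := by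
    intro r hr
    obtain ⟨h1, h2⟩ := (hRm r).mp hr
    exact ⟨h1.trans hFt, h2, (Finset.card_le_card h1).trans hFcard.le⟩
  have hdp : ∀ r ∈ Rp, ∀ s ⊆ r, s.Nonempty → s ∈ Rp := by
    intro r hr s hs hne
    obtain ⟨h1, h2, v, hv, hv', hvr⟩ := (hRp r).mp hr
    exact (hRp s).mpr ⟨hs.trans h1, hne, v, hv, hv', fun h => hvr (hs h)⟩
  have hdm : ∀ r ∈ Rm, ∀ s ⊆ r, s.Nonempty → s ∈ Rm := by
    intro r hr s hs hne
    exact (hRm s).mpr ⟨hs.trans ((hRm r).mp hr).1, hne⟩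
  have hdc : ∀ r ∈ Rc, ∀ s ⊆ r, s.Nonempty → s ∈ Rc := by
    intro r hr s hs hne
    have h := (hRc r).mp hr
    exact (hRc s).mpr ⟨hdp r h.1 s hs hne, hdm r h.2 s hs hne⟩
  have hRcp : Rc ⊆ Rp := fun r hr => ((hRc r).mp hr).1
  have hRcm : Rc ⊆ Rm := fun r hr => ((hRc r).mp hr).2
  have hr0p : ({v₀} : Finset V) ∈ Rp := (hRp _).mpr
    ⟨Finset.singleton_subset_iff.mpr hv₀, Finset.singleton_nonempty _, w₀, hw₀'.2, hw₀'.1,
      fun h => hw₀'.1 (Finset.mem_singleton.mp h)⟩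
  have hr0m : F ∈ Rm := (hRm _).mpr ⟨Finset.Subset.refl _, ⟨w₀, hw₀⟩⟩
  have hins : ∀ r ∈ Rp, insert v₀ r ∈ Rp := by
    intro r hr
    obtain ⟨h1, h2, v, hv, hv', hvr⟩ := (hRp r).mp hr
    refine (hRp _).mpr ⟨Finset.insert_subset hv₀ h1, Finset.insert_nonempty _ _, v, hv, hv', ?_⟩
    intro h
    rcases Finset.mem_insert.mp h with h | h
    · exact hv' h
    · exact hvr h
  have hstarp : ∀ r ∈ Rp, ∃ r' ∈ Rp, r ⊆ r' ∧ {v₀} ⊆ r' := fun r hr =>
    ⟨insert v₀ r, hins r hr, Finset.subset_insert _ _,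
      Finset.singleton_subset_iff.mpr (Finset.mem_insert_self _ _)⟩
  have hstarm : ∀ r ∈ Rm, ∃ r' ∈ Rm, r ⊆ r' ∧ F ⊆ r' := fun r hr =>
    ⟨F, hr0m, ((hRm r).mp hr).1, Finset.Subset.refl _⟩
  have hpp : vx v₀ ∈ sx ({v₀} : Finset V) := vx_mem (Finset.mem_singleton_self _)
  have hpm : bary F ∈ sx F := bary_mem ⟨w₀, hw₀⟩
  -- stabiliser
  have hsub : ∀ (h : MulAction.stabilizer G t) (s : Finset V), s ⊆ t → (h : G) • s = s :=
    fun h s hs => PFrameAux.smul_sub hK ht (MulAction.mem_stabilizer_iff.mp h.2) hs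
  have hsv : ∀ h : MulAction.stabilizer G t, (h : G) • ({v₀} : Finset V) = {v₀} :=
    fun h => hsub h _ (Finset.singleton_subset_iff.mpr hv₀)
  have hsF : ∀ h : MulAction.stabilizer G t, (h : G) • F = F := fun h => hsub h _ hFt
  -- homomorphisms
  let αp : MulAction.stabilizer G t →* Equiv.Perm ι :=
    { toFun := fun h => π (h : G) {v₀}
      map_one' := hB.pi_one _
      map_mul' := fun g h => hB.pi_stab {v₀} (g : G) (h : G) (hsv h) }
  let αm : MulAction.stabilizer G t →* Equiv.Perm ι :=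
    { toFun := fun h => π (h : G) F
      map_one' := hB.pi_one _
      map_mul' := fun g h => hB.pi_stab F (g : G) (h : G) (hsF h) }
  have hαp : ∀ h i, αp h i = i → h = 1 := fun h i hi =>
    Subtype.ext (hB.free (h : G) {v₀} hvK hvk (hsv h) i hi)
  have hαm : ∀ h i, αm h i = i → h = 1 := fun h i hi =>
    Subtype.ext (hB.free (h : G) F hFK hFcard.le (hsF h) i hi)
  obtain ⟨σ, hσ⟩ := free_conj αp αm hαp hαm
  -- frames
  obtain ⟨ap, hap⟩ := pframe hK hB (e' + 1) (by omega) hke t ht Rp hcardp {v₀} hr0p (vx v₀) hpp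
    hstarp
  obtain ⟨am0, ham0⟩ := pframe hK hB (e' + 1) (by omega) hke t ht Rm hcardm F hr0m (bary F) hpm
    hstarm
  obtain ⟨cp, hcp⟩ := frame2 hK hB hke hc t ht Rp hcardp hdp {v₀} hr0p (vx v₀) hpp hstarp ap hap
  obtain ⟨cm0, hcm0⟩ := frame2 hK hB hke hc t ht Rm hcardm hdm F hr0m (bary F) hpm hstarm am0 ham0
  have ham := Frm.reindex (Q' := fun h => αp h) ham0 σ (fun h z => hσ h z)
  have hcm := Frm.reindex (Q' := fun h => act1n e' e' (αp h)) hcm0 (act1n e' e' σ) (by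
    intro h z
    have h1 : act1n e' e' σ * act1n e' e' (αp h) = act1n e' e' (αm h) * act1n e' e' σ := by
      rw [← act1n_mul, ← act1n_mul]
      congr 1
      ext i
      exact hσ h i
    exact congrArg (fun f : Equiv.Perm _ => f z) h1)
  obtain ⟨am, ham_def⟩ : ∃ am, am = (fun r x => am0 r x * pmx σ :
    Finset V → (V →₀ ℝ) → Matrix ι ι ℂ) := ⟨_, rfl⟩
  obtain ⟨cm, hcm_def⟩ : ∃ cm, cm = (fun r x => cm0 r x * pmx (act1n e' e' σ) :
    Finset V → (V →₀ ℝ) → Matrix (Wd ι e' × Fin e') (Wd ι e' × Fin e') ℂ) := ⟨_, rfl⟩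
  rw [← ham_def] at ham
  rw [← hcm_def] at hcm
  have hap' : Frm (H := MulAction.stabilizer G t) Rp
      (fun r' r x => τ r' r (rho (eps (e' + 1)) x)) (fun h r => π (h : G) r)
      (fun h => αp h) ap := hap
  have hcp' : Frm (H := MulAction.stabilizer G t) Rp (tau2 e' τ cf)
      (fun h r => pi2 e' π (h : G) r) (fun h => act1n e' e' (αp h)) cp := hcp
  obtain ⟨hp, hhp, hhp'⟩ := hmap hK hB hke hc t ht Rp hcardp hdp (fun h => αp h) ap hap' cp hcp'
  obtain ⟨hm, hhm, hhm'⟩ := hmap hK hB hke hc t ht Rm hcardm hdm (fun h => αp h) am ham cm hcm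
  -- comparison
  obtain ⟨hg, hgr⟩ := cmp hRcp hRcm hdc hap' ham
  obtain ⟨hkk, hkr⟩ := cmp hRcp hRcm hdc hcp' hcm
  obtain ⟨g, hgdef⟩ : ∃ g : (V →₀ ℝ) → Matrix ι ι ℂ,
    g = fun x => (am x.support x)ᴴ * ap x.support x := ⟨_, rfl⟩
  obtain ⟨kk, hkdef⟩ : ∃ kk : (V →₀ ℝ) → Matrix (Wd ι e' × Fin e') (Wd ι e' × Fin e') ℂ,
    kk = fun x => (cm x.support x)ᴴ * cp x.support x := ⟨_, rfl⟩
  rw [← hgdef] at hg
  rw [← hkdef] at hkk
  have hkr' : ∀ r ∈ Rc, ∀ x ∈ sx r, (cm r x)ᴴ * cp r x = kk x := by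
    intro r hr x hx
    rw [hkr r hr x hx, hkdef]
  obtain ⟨S, hSdef⟩ : ∃ S : Set (V →₀ ℝ), S = {x | x ∈ sx F ∧ ∃ v ∈ F, x v = 0} := ⟨_, rfl⟩
  have hSsupp : ∀ x ∈ S, x.support ∈ Rc ∧ x ∈ sx x.support := by
    intro x hx
    rw [hSdef] at hx
    obtain ⟨hx1, v, hv, hxv⟩ := hx
    have hvs : v ∉ x.support := fun h => (Finsupp.mem_support_iff.mp h) hxv
    have hv' := (hmemF v).mp hv
    refine ⟨(hRc _).mpr ⟨(hRp _).mpr ⟨hx1.2.1.trans hFt, sx_support_nonempty hx1, v, hv'.2, hv'.1,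
      hvs⟩, (hRm _).mpr ⟨hx1.2.1, sx_support_nonempty hx1⟩⟩, sx_support hx1⟩
  have hSc : S ⊆ {x | ∃ r ∈ Rc, x ∈ sx r} := fun x hx => ⟨x.support, hSsupp x hx⟩
  have hSp : S ⊆ {x | ∃ r ∈ Rp, x ∈ sx r} := fun x hx =>
    ⟨x.support, hRcp (hSsupp x hx).1, (hSsupp x hx).2⟩
  have hSm : S ⊆ {x | ∃ r ∈ Rm, x ∈ sx r} := fun x hx =>
    ⟨x.support, hRcm (hSsupp x hx).1, (hSsupp x hx).2⟩
  have hrel : ∀ x ∈ S, hm x * Matrix.fromBlocks (kk x) 0 0 (ten2 e' (g x)) =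
      amp (e' + 1) (ten1 e' (g x)) * hp x := by
    intro x hx
    obtain ⟨hr, hxr⟩ := hSsupp x hx
    have hrp := hRcp hr
    have hrm := hRcm hr
    have e1 : cm x.support x * kk x = cp x.support x := by
      rw [← hkr' _ hr x hxr, ← Matrix.mul_assoc, hcm.uni' _ hrm x hxr, Matrix.one_mul]
    have e2 : am x.support x * g x = ap x.support x := by
      rw [hgdef]
      show am x.support x * ((am x.support x)ᴴ * ap x.support x) = ap x.support x
      rw [← Matrix.mul_assoc, ham.uni' _ hrm x hxr, Matrix.one_mul]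
    have e3 : amp (e' + 1) (ten1 e' (g x)) = (amp (e' + 1) (ten1 e' (am x.support x)))ᴴ *
        amp (e' + 1) (ten1 e' (ap x.support x)) := by
      rw [amp_star, ← amp_mul, ← ten1_star, ← ten1_mul, hgdef]
    rw [hhm' _ hrm x hxr, hhp' _ hrp x hxr, e3, Matrix.mul_assoc, Matrix.mul_assoc]
    congr 1
    rw [← Matrix.mul_assoc (amp (e' + 1) (ten1 e' (ap x.support x))),
      amp_ten1_uni' e' (e' + 1) (hap'.uni' _ hrp x hxr), Matrix.one_mul,
      Matrix.fromCols_mul_fromBlocks, Matrix.mul_zero, Matrix.mul_zero, add_zero, zero_add,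
      Matrix.mul_assoc, e1, Matrix.mul_assoc, ← ten2_mul, e2]
  have hψ : ∀ (h : MulAction.stabilizer G t) w, psi e' (ψ {v₀}) (act2 e' (αp h) w) =
      act1 e' (αp h) (psi e' (ψ {v₀}) w) := by
    intro h w
    apply psi_equivariant
    intro i
    have := hc.psi_eq (h : G) {v₀} hvK hvk i
    rw [hsv h] at this
    exact this
  have hnul := stab_triv S {x | ∃ r ∈ Rp, x ∈ sx r} {x | ∃ r ∈ Rm, x ∈ sx r} hSp hSm 2
    (vx v₀) ⟨_, hr0p, hpp⟩ (by rintro x ⟨r, _, hx⟩; exact sx_d1_le hpp hx)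
    (by
      rintro x ⟨r, hr, hx⟩ s hs
      obtain ⟨r', hr', h1, h2⟩ := hstarp r hr
      exact ⟨r', hr', seg_mem (sx_mono h2 hpp) (sx_mono h1 hx) hs⟩)
    (bary F) ⟨_, hr0m, hpm⟩ (by rintro x ⟨r, _, hx⟩; exact sx_d1_le hpm hx)
    (by
      rintro x ⟨r, hr, hx⟩ s hs
      obtain ⟨r', hr', h1, h2⟩ := hstarm r hr
      exact ⟨r', hr', seg_mem (sx_mono h2 hpm) (sx_mono h1 hx) hs⟩)
    e' he' (fun h => αp h) (ψ {v₀}) hψ g (Adm.mono hg hSc) kk (Adm.mono hkk hSc) hp hm hhp hhm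
    hrel
  rw [hSdef] at hnul
  obtain ⟨Kx, hKx, hKx'⟩ := cone_ext F ⟨w₀, hw₀⟩ _ _ hnul
  -- the homomorphism of the extension
  let α : MulAction.stabilizer G t →* Equiv.Perm ((Wd ι e' × Fin e') ⊕ (Wd ι e' × Fin e')) :=
    { toFun := fun h => Equiv.sumCongr (act1n e' e' (αp h)) (act1n e' e' (αp h))
      map_one' := by
        have h0 : act1n e' e' (1 : Equiv.Perm ι) = 1 := by
          have := act1n_mul e' e' (1 : Equiv.Perm ι) 1
          rw [mul_one] at this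
          exact (mul_eq_left.mp this.symm)
        rw [map_one, h0]
        exact Equiv.sumCongr_refl
      map_mul' := by
        intro x y
        rw [map_mul, act1n_mul]
        ext i
        rcases i with i | i <;> rfl }
  have hfree1 : ∀ (h : MulAction.stabilizer G t) (q : Wd ι e' × Fin e'),
      act1n e' e' (αp h) q = q → h = 1 := by
    intro h q hq
    have h1 : act1 e' (αp h) q.1 = q.1 := congrArg Prod.fst hq
    have h2 := congrFun h1 0
    have h3 : act1 e' (αp h) q.1 0 = αp h (q.1 0) := rfl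
    rw [h3] at h2
    exact hαp h _ h2
  -- membership facts
  have hcase1 : ∀ s ⊆ t, s.Nonempty → s ≠ t → v₀ ∈ s → s ∈ Rp := by
    intro s hs hne hst hv
    have : ∃ v ∈ t, v ∉ s := by
      by_contra hcon
      push Not at hcon
      exact hst (Finset.Subset.antisymm hs hcon)
    obtain ⟨v, hvt, hvs⟩ := this
    exact (hRp s).mpr ⟨hs, hne, v, hvt, fun h => hvs (h ▸ hv), hvs⟩
  have hcase2 : ∀ s ⊆ t, s.Nonempty → v₀ ∉ s → s ∈ Rm := by
    intro s hs hne hv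
    exact (hRm s).mpr ⟨fun w hw => (hmemF w).mpr ⟨fun h => hv (h ▸ hw), hs hw⟩, hne⟩
  obtain ⟨u, hu1, hu2⟩ : ∃ u : Finset V → (V →₀ ℝ) → Matrix ((Wd ι e' × Fin e') ⊕
      (Wd ι e' × Fin e')) ((Wd ι e' × Fin e') ⊕ (Wd ι e' × Fin e')) ℂ,
      (∀ s x, v₀ ∈ s → u s x = Matrix.fromBlocks (cp s x) 0 0 (cp s x)) ∧
      (∀ s x, v₀ ∉ s → u s x = Matrix.fromBlocks (cm s x) 0 0 (cm s x) * Kx x) :=
    ⟨fun s x => if v₀ ∈ s then Matrix.fromBlocks (cp s x) 0 0 (cp s x)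
      else Matrix.fromBlocks (cm s x) 0 0 (cm s x) * Kx x,
      fun s x h => if_pos h, fun s x h => if_neg h⟩
  refine ⟨α, u, ⟨?_, ?_, ?_, ?_, ?_⟩⟩
  · intro h i hi
    rcases i with i | i
    · exact hfree1 h i (Sum.inl_injective hi)
    · exact hfree1 h i (Sum.inr_injective hi)
  · intro s hs hne hst x hx
    by_cases hv : v₀ ∈ s
    · rw [hu1 s x hv]
      exact blocks_uni (hcp'.uni s (hcase1 s hs hne hst hv) x hx)
    · have hsm := hcase2 s hs hne hv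
      have hxF : x ∈ sx F := sx_mono ((hRm s).mp hsm).1 hx
      rw [hu2 s x hv, Matrix.conjTranspose_mul, Matrix.mul_assoc,
        ← Matrix.mul_assoc (Matrix.fromBlocks (cm s x) 0 0 (cm s x))ᴴ,
        blocks_uni (hcm.uni s hsm x hx), Matrix.one_mul, hKx.uni x hxF]
  · intro s hs hne hst
    by_cases hv : v₀ ∈ s
    · exact BLM.congr (blocks_blm d1_nonneg (hcp'.bl s (hcase1 s hs hne hst hv)))
        (fun x _ => (hu1 s x hv).symm)
    · have hsm := hcase2 s hs hne hv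
      exact BLM.congr (BLM.mul d1_nonneg (blocks_blm d1_nonneg (hcm.bl s hsm))
        (BLM.mono hKx.bl (sx_mono ((hRm s).mp hsm).1))) (fun x _ => (hu2 s x hv).symm)
  · intro s' hs' hst' s hss hne x hx
    have hne' : s'.Nonempty := hne.mono hss
    show Matrix.fromBlocks (tau2 e' τ cf s' s x) 0 0 (tau2 e' τ cf s' s x) * u s x = u s' x
    by_cases hv' : v₀ ∈ s'
    · have hs'p := hcase1 s' hs' hne' hst' hv'
      have hsp := hdp s' hs'p s hss hne
      have hcom := hcp'.com s' hs'p s hsp hss x hx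
      have hus : u s x = Matrix.fromBlocks (cp s x) 0 0 (cp s x) := by
        by_cases hv : v₀ ∈ s
        · exact hu1 s x hv
        · have hsm := hcase2 s (hss.trans hs') hne hv
          have hsc : s ∈ Rc := (hRc s).mpr ⟨hsp, hsm⟩
          have hxF : x ∈ sx F := sx_mono ((hRm s).mp hsm).1 hx
          obtain ⟨_, _, v, hvt, hvv, hvs⟩ := (hRp s).mp hsp
          have hxv : x v = 0 := by
            by_contra h
            exact hvs (hx.2.1 (Finsupp.mem_support_iff.mpr h))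
          rw [hu2 s x hv, hKx' x hxF ⟨v, (hmemF v).mpr ⟨hvv, hvt⟩, hxv⟩, blocks_mul,
            ← hkr' s hsc x hx, ← Matrix.mul_assoc, hcm.uni' s hsm x hx, Matrix.one_mul]
      rw [hus, hu1 s' x hv', blocks_mul, hcom]
    · have hv : v₀ ∉ s := fun h => hv' (hss h)
      have hs'm := hcase2 s' hs' hne' hv'
      have hsm := hcase2 s (hss.trans hs') hne hv
      have hcom := hcm.com s' hs'm s hsm hss x hx
      rw [hu2 s x hv, hu2 s' x hv', ← Matrix.mul_assoc, blocks_mul, hcom]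
  · intro h s hs hne hst x hx i j
    show u s x (Equiv.sumCongr (pi2 e' π (h : G) s) (pi2 e' π (h : G) s) i)
      (Equiv.sumCongr (act1n e' e' (αp h)) (act1n e' e' (αp h)) j) = u s x i j
    by_cases hv : v₀ ∈ s
    · rw [hu1 s x hv]
      exact blocks_inv (hcp'.inv h s (hcase1 s hs hne hst hv) x hx) i j
    · have hsm := hcase2 s hs hne hv
      have hxF : x ∈ sx F := sx_mono ((hRm s).mp hsm).1 hx
      rw [hu2 s x hv]
      exact mul_inv (blocks_inv (hcm.inv h s hsm x hx)) (hKx.inv x hxF h) i j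

end Pool.HQ
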