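import Pool.Agent.HQ.E19

/-!
MP_7936f4_al, THEOREM E, module E20: extension of a combinatorial bundle to the simplices with k+1 vertices.

cb_extend.  Let N = {t ∈ K : t.card = k+1} (G-invariant; |g • t| = |t|).  orbit_section: r, γ on Finset V.  For
t ∈ N let t₀ = r t ∈ N, γ = γ t, t = γ t • t₀, and α₀, u₀ the data of hext for t₀ (choose them by Classical.choice
for every t₀).  Define
 π' g t = if t.card ≤ k then π g t else if t ∈ N then α_{t₀}(⟨(γ (g•t))⁻¹ * g * γ t, _⟩) else 1,
 τ' t s x = if t.card ≤ k then τ t s x else if s = t then 1 else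
   the matrix with entries (i,j) ↦ conj (u₀ ((γ t)⁻¹ • s) (pact (γ t)⁻¹ x) ((π (γ t) ((γ t)⁻¹ • s))⁻¹ j) i).
 (In words: the coordinates of the new simplex t are the trivialisation u, transported from t₀ by γ t; τ' t s is the
 inverse = adjoint of the transported u.)
Checks: pimul: (γ(gh t))⁻¹ g h γ t = [(γ(gh t))⁻¹ g γ(h t)] [(γ (h t))⁻¹ h γ t], and t.card, N invariant.
free: g • t = t, α(…) i = i gives (γ t)⁻¹ g γ t = 1.
uni: the transported u is unitary (u₀ᴴ u₀ = 1, square).  For s = t it is 1.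
bl: u₀ bounded Lipschitz on sx (γ⁻¹ s), pact is an isometry (pact_d1), pact_mem.
coc: r ∈ N, t = r or s = t trivial (τ' t t = 1 for |t| ≤ k is CB.tau_self); s ⊆ t ⊊ r : τ' r t x τ t s x = τ' r s x
 because τ t s u^s = u^t for the transported u (Ext.com for t₀ and CB.eqv for γ t), so (u^t)ᴴ τ t s = (u^s)ᴴ
 (τ t s x unitary).
eqv: for t ∈ N, s ⊊ t: let η = (γ (g t))⁻¹ g γ t, in the stabiliser of t₀; it fixes the vertices of t₀ (rigid), so
 (γ(g t))⁻¹ g s = η (γ t)⁻¹ s = (γ t)⁻¹ s =: s₀ and (pact) likewise for x; π(γ(g t)) s₀ ⁻¹ (π g s j) = ?  From pimul: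
 π (γ(g t)) s₀ * π η s₀ = π (γ(g t) η) s₀ = π (g γ t) s₀ = π g s * π (γ t) s₀, so
 (π (γ(g t)) s₀)⁻¹ (π g s j) = π η s₀ ((π (γ t) s₀)⁻¹ j), and Ext.inv (h = η) gives the claim with π' g t i = α η i.

-/

namespace Pool.HQ

open scoped Pointwise Matrix

section E20aux

theorem e20_apply_inv {ι : Type} (σ : Equiv.Perm ι) (i : ι) : σ (σ⁻¹ i) = i :=
  σ.apply_symm_apply i

variable {G V ι : Type} [Group G] [MulAction G V] [DecidableEq V] [Fintype ι] [DecidableEq ι]

open scoped Classical in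
/-- extension by `1` of the action of the stabiliser -/
noncomputable def e20A (α : ∀ t : Finset V, MulAction.stabilizer G t →* Equiv.Perm ι)
    (t : Finset V) (g : G) : Equiv.Perm ι :=
  if h : g ∈ MulAction.stabilizer G t then α t ⟨g, h⟩ else 1

omit [Fintype ι] [DecidableEq ι] in
theorem e20A_of_mem (α : ∀ t : Finset V, MulAction.stabilizer G t →* Equiv.Perm ι)
    (t : Finset V) (g : G) (h : g • t = t) :
    e20A α t g = α t ⟨g, h⟩ := by
  unfold e20A
  exact dif_pos (show g ∈ MulAction.stabilizer G t from h)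

omit [Fintype ι] [DecidableEq ι] in
theorem e20A_mul (α : ∀ t : Finset V, MulAction.stabilizer G t →* Equiv.Perm ι)
    (t : Finset V) (g h : G) (hg : g • t = t) (hh : h • t = t) :
    e20A α t (g * h) = e20A α t g * e20A α t h := by
  have hgh : (g * h) • t = t := by rw [mul_smul, hh, hg]
  rw [e20A_of_mem α t g hg, e20A_of_mem α t h hh, e20A_of_mem α t _ hgh, ← map_mul]
  rfl

/-- the transported trivialisation -/
noncomputable def e20W (π : G → Finset V → Equiv.Perm ι) (r : Finset V → Finset V)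
    (γ : Finset V → G) (u : Finset V → Finset V → (V →₀ ℝ) → Matrix ι ι ℂ)
    (t s : Finset V) (x : V →₀ ℝ) : Matrix ι ι ℂ :=
  (u (r t) ((γ t)⁻¹ • s) (pact (γ t)⁻¹ x)).submatrix
    ((π (γ t) ((γ t)⁻¹ • s))⁻¹ : Equiv.Perm ι) id

end E20aux

theorem cb_extend {G V ι : Type} [Group G] [MulAction G V] [DecidableEq V] {K : Set (Finset V)}
    {k : ℕ} [Fintype ι] [DecidableEq ι] {π : G → Finset V → Equiv.Perm ι}
    {τ : Finset V → Finset V → (V →₀ ℝ) → Matrix ι ι ℂ} (hK : Cx G V K) (hB : CB K k ι π τ)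
    (hext : ∀ t ∈ K, t.card = k + 1 →
      ∃ (α : MulAction.stabilizer G t →* Equiv.Perm ι) (u : Finset V → (V →₀ ℝ) → Matrix ι ι ℂ),
        Ext π τ t α u) :
    ∃ (π' : G → Finset V → Equiv.Perm ι) (τ' : Finset V → Finset V → (V →₀ ℝ) → Matrix ι ι ℂ),
      CB K (k + 1) ι π' τ' := by
  classical
  obtain ⟨r, γ, hγ, hr⟩ := orbit_section G (Finset V)
  have hch : ∀ t : Finset V, ∃ (α : MulAction.stabilizer G t →* Equiv.Perm ι)
      (u : Finset V → (V →₀ ℝ) → Matrix ι ι ℂ), (t ∈ K → t.card = k + 1 → Ext π τ t α u) := by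
    intro t
    by_cases ht : t ∈ K ∧ t.card = k + 1
    · obtain ⟨α, u, h⟩ := hext t ht.1 ht.2
      exact ⟨α, u, fun _ _ => h⟩
    · exact ⟨1, fun _ _ => 1, fun h1 h2 => absurd ⟨h1, h2⟩ ht⟩
  choose α u hu using hch
  have hr' : ∀ t, r t = (γ t)⁻¹ • t := fun t => by
    rw [eq_inv_smul_iff]
    exact hγ t
  -- the group elements η
  have hη : ∀ (g : G) (t : Finset V), ((γ (g • t))⁻¹ * g * γ t) • r t = r t := by
    intro g t
    rw [mul_smul, mul_smul, hγ t, ← hr' (g • t), hr]
  have hcard : ∀ (g : G) (t : Finset V), (g • t).card = t.card := fun g t =>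
    Finset.card_smul_finset g t
  have hNr : ∀ t, t ∈ K → t.card = k + 1 → Ext π τ (r t) (α (r t)) (u (r t)) := by
    intro t ht htc
    have h1 : r t ∈ K := by
      rw [hr' t]
      exact hK.smul _ _ ht
    have h2 : (r t).card = k + 1 := by
      rw [hr' t, hcard, htc]
    exact hu (r t) h1 h2
  set W := e20W π r γ u with hW
  -- facts about W
  have hsub : ∀ (t s : Finset V), s ⊆ t → (γ t)⁻¹ • s ⊆ r t := by
    intro t s hs
    rw [hr' t]
    exact Finset.smul_finset_subset_smul_finset hs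
  have hne : ∀ (t s : Finset V), s ≠ t → (γ t)⁻¹ • s ≠ r t := by
    intro t s hs h
    rw [hr' t] at h
    exact hs (MulAction.injective _ h)
  have hWuni : ∀ t ∈ K, t.card = k + 1 → ∀ s ⊆ t, s.Nonempty → s ≠ t → ∀ x ∈ sx s,
      (W t s x)ᴴ * W t s x = 1 := by
    intro t ht htc s hs hsne hst x hx
    have h1 := (hNr t ht htc).uni ((γ t)⁻¹ • s) (hsub t s hs) hsne.smul_finset (hne t s hst)
      (pact (γ t)⁻¹ x) (pact_mem _ hx)
    rw [hW]
    unfold e20W
    rw [Matrix.conjTranspose_submatrix, Matrix.submatrix_mul_equiv, h1, Matrix.submatrix_id_id]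
  have hWbl : ∀ t ∈ K, t.card = k + 1 → ∀ s ⊆ t, s.Nonempty → s ≠ t → BLM d1 (sx s) (W t s) := by
    intro t ht htc s hs hsne hst
    have h1 := (hNr t ht htc).bl ((γ t)⁻¹ • s) (hsub t s hs) hsne.smul_finset (hne t s hst)
    intro i j
    obtain ⟨C, hC0, hC1, hC2⟩ := h1 ((π (γ t) ((γ t)⁻¹ • s))⁻¹ i) j
    refine ⟨C, hC0, fun x hx => ?_, fun x hx y hy => ?_⟩
    · exact hC1 _ (pact_mem _ hx)
    · have h2 := hC2 _ (pact_mem (γ t)⁻¹ hx) _ (pact_mem (γ t)⁻¹ hy)
      rw [pact_d1] at h2
      exact h2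
  have hWcom : ∀ t ∈ K, t.card = k + 1 → ∀ s' ⊆ t, s' ≠ t → ∀ s ⊆ s', s.Nonempty → ∀ x ∈ sx s,
      τ s' s x * W t s x = W t s' x := by
    intro t ht htc s' hs' hs't s hs hsne x hx
    have hs'ne : s'.Nonempty := hsne.mono hs
    have hs'K : s' ∈ K := hK.down t ht s' hs' hs'ne
    have hs'c : s'.card ≤ k := by
      have := Finset.card_lt_card (hs'.ssubset_of_ne hs't)
      omega
    have h1 := (hNr t ht htc).com ((γ t)⁻¹ • s') (hsub t s' hs') (hne t s' hs't) ((γ t)⁻¹ • s)
      (Finset.smul_finset_subset_smul_finset hs) hsne.smul_finset (pact (γ t)⁻¹ x)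
      (pact_mem _ hx)
    have h2 := hB.eqv (γ t) ((γ t)⁻¹ • s') (hK.smul _ _ hs'K) (by rw [hcard]; exact hs'c)
      ((γ t)⁻¹ • s) (Finset.smul_finset_subset_smul_finset hs) hsne.smul_finset
      (pact (γ t)⁻¹ x) (pact_mem _ hx)
    rw [smul_inv_smul, smul_inv_smul, ← pact_mul, mul_inv_cancel, pact_one] at h2
    ext a c
    have h3 := congrFun (congrFun h1 ((π (γ t) ((γ t)⁻¹ • s'))⁻¹ a)) c
    rw [Matrix.mul_apply] at h3 ⊢
    change _ = (u (r t) ((γ t)⁻¹ • s') (pact (γ t)⁻¹ x)) ((π (γ t) ((γ t)⁻¹ • s'))⁻¹ a) c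
    rw [← h3]
    refine Fintype.sum_equiv (π (γ t) ((γ t)⁻¹ • s))⁻¹ _ _ fun b => ?_
    have h4 := h2 ((π (γ t) ((γ t)⁻¹ • s'))⁻¹ a) ((π (γ t) ((γ t)⁻¹ • s))⁻¹ b)
    rw [e20_apply_inv, e20_apply_inv] at h4
    rw [← h4]
    rfl
  set π' : G → Finset V → Equiv.Perm ι := fun g t =>
    if t.card ≤ k then π g t else if t ∈ K ∧ t.card = k + 1 then
      e20A α (r t) ((γ (g • t))⁻¹ * g * γ t) else 1 with hπ'
  set τ' : Finset V → Finset V → (V →₀ ℝ) → Matrix ι ι ℂ := fun t s x =>
    if t.card ≤ k then τ t s x else if s = t then 1 else (W t s x)ᴴ with hτ'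
  have hπold : ∀ g t, t.card ≤ k → π' g t = π g t := fun g t h => by
    rw [hπ']
    exact if_pos h
  have hπnew : ∀ g t, t ∈ K → t.card = k + 1 →
      π' g t = e20A α (r t) ((γ (g • t))⁻¹ * g * γ t) := fun g t h h2 => by
    rw [hπ']
    simp only
    rw [if_neg (by omega), if_pos ⟨h, h2⟩]
  have hτold : ∀ t s x, t.card ≤ k → τ' t s x = τ t s x := fun t s x h => by
    rw [hτ']
    exact if_pos h
  have hτself : ∀ t x, t.card = k + 1 → τ' t t x = 1 := fun t x h => by
    rw [hτ']
    simp only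
    rw [if_neg (by omega)]
    simp
  have hτnew : ∀ t s x, t.card = k + 1 → s ≠ t → τ' t s x = (W t s x)ᴴ := fun t s x h hs => by
    rw [hτ']
    simp only
    rw [if_neg (by omega), if_neg hs]
  have hsplit : ∀ t : Finset V, t.card ≤ k + 1 → t.card ≤ k ∨ t.card = k + 1 := fun t h => by omega
  refine ⟨π', τ', ⟨?_, ?_, ?_, ?_, ?_, ?_⟩⟩
  · -- pimul
    intro g h t
    by_cases h1 : t.card ≤ k
    · rw [hπold _ _ h1, hπold _ _ h1, hπold _ _ (by rw [hcard]; exact h1)]
      exact hB.pimul g h t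
    · by_cases h2 : t ∈ K ∧ t.card = k + 1
      · have h3 : h • t ∈ K := hK.smul _ _ h2.1
        have h4 : (h • t).card = k + 1 := by rw [hcard]; exact h2.2
        rw [hπnew _ _ h2.1 h2.2, hπnew _ _ h2.1 h2.2, hπnew _ _ h3 h4]
        have h5 : (γ ((g * h) • t))⁻¹ * (g * h) * γ t
            = ((γ (g • h • t))⁻¹ * g * γ (h • t)) * ((γ (h • t))⁻¹ * h * γ t) := by
          rw [mul_smul]
          group
        rw [h5, hr h t]
        refine e20A_mul α (r t) _ _ ?_ (hη h t)
        have h6 := hη g (h • t)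
        rw [hr h t] at h6
        exact h6
      · have h3 : ¬ (h • t).card ≤ k := by rw [hcard]; exact h1
        have h4 : ¬ (h • t ∈ K ∧ (h • t).card = k + 1) := by
          rintro ⟨h5, h6⟩
          refine h2 ⟨?_, by rw [hcard] at h6; exact h6⟩
          have := hK.smul h⁻¹ _ h5
          rwa [inv_smul_smul] at this
        rw [hπ']
        simp only
        rw [if_neg h1, if_neg h2, if_neg h3, if_neg h4, if_neg h1, if_neg h2, mul_one]
  · -- free
    intro g t ht htc hgt i hi
    rcases hsplit t htc with h1 | h1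
    · rw [hπold _ _ h1] at hi
      exact hB.free g t ht h1 hgt i hi
    · rw [hπnew _ _ ht h1, e20A_of_mem α (r t) _ (hη g t)] at hi
      have h2 := (hNr t ht h1).free _ i hi
      have h3 : (γ (g • t))⁻¹ * g * γ t = 1 := congrArg Subtype.val h2
      rw [hgt] at h3
      have h4 : g = γ t * ((γ t)⁻¹ * g * γ t) * (γ t)⁻¹ := by group
      rw [h4, h3]
      group
  · -- uni
    intro t ht htc s hs hsne x hx
    rcases hsplit t htc with h1 | h1
    · rw [hτold _ _ _ h1]
      exact hB.uni t ht h1 s hs hsne x hx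
    · by_cases hst : s = t
      · subst hst
        rw [hτself _ _ h1]
        simp
      · rw [hτnew _ _ _ h1 hst, Matrix.conjTranspose_conjTranspose]
        exact mul_eq_one_comm.1 (hWuni t ht h1 s hs hsne hst x hx)
  · -- bl
    intro t ht htc s hs hsne
    rcases hsplit t htc with h1 | h1
    · exact (hB.bl t ht h1 s hs hsne).congr fun x _ => (hτold t s x h1).symm
    · by_cases hst : s = t
      · subst hst
        exact (BLM.const (fun x y => d1_nonneg x y) (1 : Matrix ι ι ℂ)).congr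
          fun x _ => (hτself s x h1).symm
      · exact (hWbl t ht h1 s hs hsne hst).conjTranspose.congr
          fun x _ => (hτnew t s x h1 hst).symm
  · -- coc
    intro q hq hqc t htq s hst hsne x hx
    rcases hsplit q hqc with h1 | h1
    · have h2 : t.card ≤ k := (Finset.card_le_card htq).trans h1
      rw [hτold _ _ _ h1, hτold _ _ _ h2, hτold _ _ _ h1]
      exact hB.coc q hq h1 t htq s hst hsne x hx
    · by_cases htq2 : t = q
      · subst htq2
        rw [hτself _ _ h1, Matrix.one_mul]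
      · have h2 : t.card ≤ k := by
          have := Finset.card_lt_card (htq.ssubset_of_ne htq2)
          omega
        have h3 : s ≠ q := by
          rintro rfl
          exact htq2 (Finset.Subset.antisymm htq hst)
        have htne : t.Nonempty := hsne.mono hst
        have htK : t ∈ K := hK.down q hq t htq htne
        rw [hτnew _ _ _ h1 htq2, hτold _ _ _ h2, hτnew _ _ _ h1 h3,
          ← hWcom q hq h1 t htq htq2 s hst hsne x hx, Matrix.conjTranspose_mul, Matrix.mul_assoc,
          hB.uni t htK h2 s hst hsne x hx, Matrix.mul_one]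
  · -- eqv
    intro g t ht htc s hs hsne x hx i j
    have hgt : g • t ∈ K := hK.smul _ _ ht
    rcases hsplit t htc with h1 | h1
    · have h2 : (g • t).card ≤ k := by rw [hcard]; exact h1
      have h3 : s.card ≤ k := (Finset.card_le_card hs).trans h1
      rw [hτold _ _ _ h1, hτold _ _ _ h2, hπold _ _ h1, hπold _ _ h3]
      exact hB.eqv g t ht h1 s hs hsne x hx i j
    · have h2 : (g • t).card = k + 1 := by rw [hcard]; exact h1
      by_cases hst : s = t
      · subst hst
        rw [hτself _ _ h1, hτself _ _ h2, Matrix.one_apply, Matrix.one_apply]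
        congr 1
        rw [eq_iff_iff]
        exact (π' g s).injective.eq_iff
      · have h3 : g • s ≠ g • t := fun h => hst (MulAction.injective _ h)
        have h4 : s.card ≤ k := by
          have := Finset.card_lt_card (hs.ssubset_of_ne hst)
          omega
        have hE := hNr t ht h1
        set η : G := (γ (g • t))⁻¹ * g * γ t with hηdef
        have hηr : η • r t = r t := hη g t
        have hrK : r t ∈ K := by
          rw [hr' t]
          exact hK.smul _ _ ht
        have hfixv : ∀ v ∈ r t, η • v = v := hK.rigid η (r t) hrK hηr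
        set s₀ : Finset V := (γ t)⁻¹ • s with hs₀
        have hs₀sub : s₀ ⊆ r t := hsub t s hs
        have hηs : η • s₀ = s₀ := by
          ext v
          constructor
          · intro hv
            obtain ⟨w, hw, rfl⟩ := Finset.mem_smul_finset.1 hv
            rw [hfixv w (hs₀sub hw)]
            exact hw
          · intro hv
            exact Finset.mem_smul_finset.2 ⟨v, hv, hfixv v (hs₀sub hv)⟩
        have hx₀ : pact (γ t)⁻¹ x ∈ sx s₀ := pact_mem _ hx
        have hγη : γ (g • t) * η = g * γ t := by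
          rw [hηdef]
          group
        have hA1 : (γ (g • t))⁻¹ * g = η * (γ t)⁻¹ := by
          rw [hηdef]
          group
        have hsx : (γ (g • t))⁻¹ • g • s = s₀ := by
          rw [← mul_smul, hA1, mul_smul, ← hs₀, hηs]
        have hpx : pact (γ (g • t))⁻¹ (pact g x) = pact (γ t)⁻¹ x := by
          rw [← pact_mul, hA1, pact_mul]
          exact pact_fix (t := r t) hfixv ⟨hx₀.1, hx₀.2.1.trans hs₀sub, hx₀.2.2⟩
        rw [hτnew _ _ _ h2 h3, hτnew _ _ _ h1 hst, hπnew _ _ ht h1, hπold _ _ h4, ← hηdef]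
        rw [Matrix.conjTranspose_apply, Matrix.conjTranspose_apply]
        congr 1
        rw [hW]
        change (u (r (g • t)) ((γ (g • t))⁻¹ • g • s) (pact (γ (g • t))⁻¹ (pact g x)))
            ((π (γ (g • t)) ((γ (g • t))⁻¹ • g • s))⁻¹ (π g s j)) (e20A α (r t) η i)
          = (u (r t) s₀ (pact (γ t)⁻¹ x)) ((π (γ t) s₀)⁻¹ j) i
        rw [hr g t, hsx, hpx]
        have hj : (π (γ (g • t)) s₀)⁻¹ (π g s j) = π η s₀ ((π (γ t) s₀)⁻¹ j) := by
          rw [Equiv.Perm.inv_eq_iff_eq]
          have h5 := hB.pimul (γ (g • t)) η s₀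
          rw [hηs, hγη] at h5
          have h6 := hB.pimul g (γ t) s₀
          rw [hs₀, smul_inv_smul, ← hs₀] at h6
          rw [h6] at h5
          have h7 := congrArg (fun σ : Equiv.Perm ι => σ ((π (γ t) s₀)⁻¹ j)) h5
          simp only [Equiv.Perm.mul_apply, e20_apply_inv] at h7
          exact h7
        rw [hj, e20A_of_mem α (r t) η hηr]
        exact hE.inv ⟨η, hηr⟩ s₀ hs₀sub hsne.smul_finset (hne t s hst) _ hx₀ _ _

end Pool.HQ
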