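import Pool.Agent.HQ.E20

/-!
MP_7936f4_al, THEOREM E, module E21: existence of combinatorial bundles (regular G-bundles).

exists_cb: induction on k.  k = 0: no simplex of K has ≤ 0 vertices; take ι = Fin M with M = the product of the orders of
the stabilisers of the finitely many representatives (orb; conjugate stabilisers have the same order; use only the
representatives which belong to K), π = 1, τ = 1.
Step k = 0 → 1: t = {v}: the only nonempty s ⊆ t is t, so Ext needs only a free action: free_exists (Finite by stab,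
divisibility).  Step k ≥ 1 → k+1: e' = k (≥ 1, k ≤ e'+1), ψ from exists_psi, cf from exists_cf (CFr), new
ι = (W × Fin e') ⊕ (W × Fin e') with cb2 + cb_double, ext_data for all t, cb_extend.  Divisibility:
|Wd ι e'| = |ι|^(2e'+2) is a multiple of |ι|.
-/

namespace Pool.HQ

open scoped Pointwise Matrix

theorem e21_finite_stab {G V : Type} [Group G] [MulAction G V] [DecidableEq V] {K : Set (Finset V)}
    (hK : Cx G V K) {t : Finset V} (ht : t ∈ K) : Finite (MulAction.stabilizer G t) :=
  (hK.stab t ht).to_subtype

theorem e21_base {G V : Type} [Group G] [MulAction G V] [DecidableEq V] {K : Set (Finset V)}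
    (hK : Cx G V K) : ∃ M : ℕ, 0 < M ∧ ∀ t ∈ K, Nat.card (MulAction.stabilizer G t) ∣ M := by
  classical
  obtain ⟨R, hR⟩ := hK.orb
  refine ⟨∏ r ∈ R, (if r ∈ K then Nat.card (MulAction.stabilizer G r) else 1), ?_, ?_⟩
  · apply Finset.prod_pos
    intro r _
    split_ifs with h
    · have := e21_finite_stab hK h
      exact Nat.card_pos
    · exact Nat.one_pos
  · intro t ht
    obtain ⟨g, hg⟩ := hR t ht
    have hgK : g • t ∈ K := hK.smul g t ht
    have h1 : Nat.card (MulAction.stabilizer G t) = Nat.card (MulAction.stabilizer G (g • t)) := by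
      have e : MulAction.stabilizer G t ≃* MulAction.stabilizer G (g • t) :=
        (MulAction.stabilizerEquivStabilizer (g := g) rfl)
      exact Nat.card_congr e.toEquiv
    rw [h1]
    have h2 := Finset.dvd_prod_of_mem
      (fun r => (if r ∈ K then Nat.card (MulAction.stabilizer G r) else 1)) hg
    simp only [if_pos hgK] at h2
    exact h2

theorem exists_cb {G V : Type} [Group G] [MulAction G V] [DecidableEq V] {K : Set (Finset V)}
    (hK : Cx G V K) (k : ℕ) :
    ∃ (ι : Type) (_ : Fintype ι) (_ : DecidableEq ι) (_ : Nonempty ι)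
      (π : G → Finset V → Equiv.Perm ι) (τ : Finset V → Finset V → (V →₀ ℝ) → Matrix ι ι ℂ),
      CB K k ι π τ ∧ ∀ t ∈ K, Nat.card (MulAction.stabilizer G t) ∣ Fintype.card ι := by
  induction k with
  | zero =>
    obtain ⟨M, hM, hd⟩ := e21_base hK
    have hcontr : ∀ t ∈ K, t.card ≤ 0 → False := by
      intro t ht h
      exact absurd (Finset.card_pos.mpr (hK.ne t ht)) (by omega)
    refine ⟨Fin M, inferInstance, inferInstance, ⟨⟨0, hM⟩⟩, fun _ _ => 1, fun _ _ _ => 1, ?_, ?_⟩
    · refine ⟨fun _ _ _ => rfl, ?_, ?_, ?_, ?_, ?_⟩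
      · intro g t ht h; exact (hcontr t ht h).elim
      · intro t ht h; exact (hcontr t ht h).elim
      · intro t ht h; exact (hcontr t ht h).elim
      · intro t ht h; exact (hcontr t ht h).elim
      · intro g t ht h; exact (hcontr t ht h).elim
    · intro t ht
      rw [Fintype.card_fin]
      exact hd t ht
  | succ k ih =>
    obtain ⟨ι, i1, i2, i3, π, τ, hB, hd⟩ := ih
    rcases Nat.eq_zero_or_pos k with hk | hk
    · subst hk
      obtain ⟨π', τ', hB'⟩ := cb_extend hK hB (by
        intro t ht htc
        have := e21_finite_stab hK ht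
        obtain ⟨α, hα⟩ := free_exists (hd t ht)
        have hs : ∀ s ⊆ t, s.Nonempty → s = t := by
          intro s hst hne
          apply Finset.eq_of_subset_of_card_le hst
          rw [htc]
          exact Finset.card_pos.mpr hne
        refine ⟨α, fun _ _ => 1, ⟨hα, ?_, ?_, ?_, ?_⟩⟩
        · intro s hst hne hne'; exact absurd (hs s hst hne) hne'
        · intro s hst hne hne'; exact absurd (hs s hst hne) hne'
        · intro s' hst hne' s hs' hne
          exact absurd (hs s' hst (hne.mono hs')) hne'
        · intro h s hst hne hne'; exact absurd (hs s hst hne) hne')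
      exact ⟨ι, i1, i2, i3, π', τ', hB', hd⟩
    · obtain ⟨ψ, hψ⟩ := exists_psi hK hB
      have hke : k ≤ k + 1 := Nat.le_succ k
      obtain ⟨cf, c1, c2, c3, c4⟩ := exists_cf (e' := k) hK hB hke hψ
      have hc : CFr K k π τ ψ k cf := ⟨hψ, c1, c2, c3, c4⟩
      have hB2 := cb_double (cb2 hK hB hke hc)
      obtain ⟨π', τ', hB'⟩ := cb_extend hK hB2
        (fun t ht htc => ext_data hK hB hk hk hke hc t ht htc)
      refine ⟨(Wd ι k × Fin k) ⊕ (Wd ι k × Fin k), inferInstance, inferInstance, ?_, π', τ', hB', ?_⟩
      · obtain ⟨i⟩ := i3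
        exact ⟨Sum.inl (fun _ => i, ⟨0, hk⟩)⟩
      · intro t ht
        have h1 : Fintype.card (Wd ι k) = Fintype.card ι ^ (2 * k + 2) := by
          simp [Wd]
        rw [Fintype.card_sum, Fintype.card_prod, h1]
        have h2 : Nat.card (MulAction.stabilizer G t) ∣ Fintype.card ι ^ (2 * k + 2) :=
          (hd t ht).trans (dvd_pow_self _ (by omega))
        exact dvd_add (h2.mul_right _) (h2.mul_right _)

end Pool.HQ
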