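import Pool.Agent.HQ.Defs
import Pool.Agent.HQ.E00

/-!
MP_7936f4_al, THEOREM E, definitions, part 2: location measures, the subdivided Rips complex, Hilbert bundles
over the space of location measures.
-/

namespace Pool.HQ

open scoped Pointwise InnerProductSpace

/-- Location measures: probability measures on G with support of diameter ≤ D. -/
def Loc {G : Type} (d : G → G → ℕ) (D : ℕ) : Set (G →₀ ℝ) :=
  {x | (∀ a, 0 ≤ x a) ∧ (∀ a ∈ x.support, ∀ b ∈ x.support, d a b ≤ D) ∧ ∑ a ∈ x.support, x a = 1}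

/-- The barycentric subdivision of the Rips complex: chains of nonempty finite sets of diameter ≤ D. -/
def RC {G : Type} (d : G → G → ℕ) (D : ℕ) : Set (Finset (Finset G)) :=
  {t | t.Nonempty ∧ (∀ σ ∈ t, σ.Nonempty ∧ ∀ a ∈ σ, ∀ b ∈ σ, d a b ≤ D) ∧
    ∀ σ ∈ t, ∀ σ' ∈ t, σ ⊆ σ' ∨ σ' ⊆ σ}

/-- The map from location measures to the subdivided Rips complex. -/
noncomputable def beta {G : Type} (x : G →₀ ℝ) : Finset G →₀ ℝ :=
  ∑ σ ∈ x.support.powerset, Finsupp.single σ ((σ.card : ℝ) * lev 1 σ x)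

/-- A G-equivariant Hilbert bundle of finite rank n over the location measures of diameter ≤ D (ranges of
projections P x in a Hilbert space ℋ with a unitary representation U of G), with near coordinates v a x
(a ∈ G), orthonormal for a within distance r of the support of x, and with a supply q of invariant orthonormal
vectors orthogonal to the bundle. -/
structure GB {G : Type} [Group G] (d : G → G → ℕ) (D r : ℕ) {ℋ : Type} [NormedAddCommGroup ℋ]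
    [InnerProductSpace ℂ ℋ] (U : G → (ℋ ≃ₗᵢ[ℂ] ℋ)) (P : (G →₀ ℝ) → (ℋ →L[ℂ] ℋ))
    (v : G → (G →₀ ℝ) → ℋ) (q : ℕ → ℋ) (n R : ℕ) (L : ℝ) : Prop where
  Umul : ∀ g h w, U (g * h) w = U g (U h w)
  Prank : ∀ x ∈ Loc d D, ∃ b : Fin n → ℋ, Orthonormal ℂ b ∧ ∀ w, P x w = ∑ i, ⟪b i, w⟫_ℂ • b i
  Peqv : ∀ g, ∀ x ∈ Loc d D, ∀ w, P (pact g x) (U g w) = U g (P x w)
  Plip : ∀ x ∈ Loc d D, ∀ y ∈ Loc d D, ‖P x - P y‖ ≤ L * d1 x y
  qorth : Orthonormal ℂ q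
  qfix : ∀ g i, U g (q i) = q i
  qP : ∀ x ∈ Loc d D, ∀ i, P x (q i) = 0
  vP : ∀ x ∈ Loc d D, ∀ a, P x (v a x) = v a x
  veqv : ∀ g a, ∀ x ∈ Loc d D, v (g * a) (pact g x) = U g (v a x)
  vorth : ∀ x ∈ Loc d D, ∀ a b, a ≠ b → ⟪v a x, v b x⟫_ℂ = 0
  vnorm : ∀ x ∈ Loc d D, ∀ a, ‖v a x‖ ≤ 1
  vone : ∀ x ∈ Loc d D, ∀ a, (∃ b ∈ x.support, d a b ≤ r) → ‖v a x‖ = 1
  vsupp : ∀ x ∈ Loc d D, ∀ a, v a x ≠ 0 → ∃ b ∈ x.support, d a b ≤ R
  vlip : ∀ a, ∀ x ∈ Loc d D, ∀ y ∈ Loc d D, ‖v a x - v a y‖ ≤ L * d1 x y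

end Pool.HQ
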