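import Pool.Agent.HQ.E30
import Pool.Agent.HQ.E03
import Pool.Agent.HQ.E12

/-!
MP_7936f4_al, THEOREM E, module E31: the subdivided Rips complex RC d D is a rigid complex with finite stabilisers
and finitely many orbits of simplices; the map beta.

G acts on G by left multiplication, on Finset G pointwise (open Pointwise), on Finset (Finset G) pointwise.
rc_cx: down clear; smul: d (g a) (g b) = d a b; rigid: g • t = t, σ ∈ t: g • σ ∈ t has the same cardinality as σ and is
comparable with σ, so g • σ = σ.  stab: g • t = t implies g • σ = σ for σ ∈ t; with a ∈ σ: g a ∈ σ: finitely many g.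
orb: choose σ ∈ t and a ∈ (smallest element of the chain, so a belongs to all σ ∈ t); translate by a⁻¹: all members of
a⁻¹ • t contain 1, so they are subsets of the ball of radius D around 1 (finite, HypM.fin): R = the finset of all
sets of subsets of this ball.
beta: x ∈ Loc d D.  beta x σ = |σ| lev 1 σ x (0 unless σ ⊆ supp x, lev_subset).  Nonnegative; sum = Σ |σ| lev 1 σ x =
Σ x a = 1 (lev_card_sum with c = 1, x a ≤ 1).  Support: nonempty subsets of supp x (card factor) which are level sets, a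
chain (lev_nested), of diameter ≤ D.  So (beta x).support ∈ RC d D.
beta_lip: only σ ⊆ supp x or σ ⊆ supp y contribute; if d1 x y < 2 the supports meet; anyway the number of σ is at most
2 · 2^m, m = number of elements of the ball of radius D (|supp x| ≤ m), |σ| ≤ m, and |lev - lev| ≤ d1 (lev_lip).
beta_pact: lev_pact, card of g • σ; (pact g x).support = g • x.support (pact_support).
-/

namespace Pool.HQ

open scoped Pointwise

section

variable {G : Type} [Group G] [DecidableEq G] {d : G → G → ℕ}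

omit [DecidableEq G] in
theorem e31_beta_apply (x : G →₀ ℝ) (σ : Finset G) :
    beta x σ = (σ.card : ℝ) * lev 1 σ x := by
  classical
  unfold beta
  rw [Finsupp.finsetSum_apply]
  simp only [Finsupp.single_apply]
  rw [Finset.sum_ite_eq' x.support.powerset σ (fun τ => (τ.card : ℝ) * lev 1 τ x)]
  split_ifs with h
  · rfl
  · by_contra h1
    apply h
    rw [Finset.mem_powerset]
    apply lev_subset (c := 1)
    intro h2
    apply h1
    rw [h2, mul_zero]

omit [DecidableEq G] in
theorem e31_loc_sx {D : ℕ} {x : G →₀ ℝ} (hx : x ∈ Loc d D) : x ∈ sx x.support :=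
  ⟨hx.1, Finset.Subset.refl _, hx.2.2⟩

omit [DecidableEq G] in
theorem e31_loc_le {D : ℕ} {x : G →₀ ℝ} (hx : x ∈ Loc d D) (a : G) : x a ≤ 1 := by
  by_cases h : a ∈ x.support
  · rw [← hx.2.2]
    exact Finset.single_le_sum (f := fun b => x b) (fun b _ => hx.1 b) h
  · rw [Finsupp.notMem_support_iff.1 h]
    exact zero_le_one

/-- a set of diameter at most D, translated to contain the identity -/
theorem e31_ball (hd : HypM d) {D : ℕ} {a b : G} (h : d a b ≤ D) :
    a⁻¹ * b ∈ (hd.fin D).toFinset := by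
  rw [Set.Finite.mem_toFinset]
  show d 1 (a⁻¹ * b) ≤ D
  have h1 := hd.inv a⁻¹ a b
  rw [inv_mul_cancel] at h1
  rw [h1]
  exact h

theorem rc_cx (hd : HypM d) (D : ℕ) : Cx G (Finset G) (RC d D) := by
  have hrigid : ∀ g : G, ∀ t ∈ RC d D, g • t = t → ∀ v ∈ t, g • v = v := by
    intro g t ht hg v hv
    have h1 : g • v ∈ t := by
      have h2 : g • v ∈ g • t := Finset.smul_mem_smul_finset hv
      rwa [hg] at h2
    have hc : (g • v).card = v.card := Finset.card_smul_finset g v
    rcases ht.2.2 v hv (g • v) h1 with h | h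
    · exact (Finset.eq_of_subset_of_card_le h hc.le).symm
    · exact Finset.eq_of_subset_of_card_le h hc.ge
  refine ⟨?_, ?_, ?_, hrigid, ?_, ?_⟩
  · intro t ht
    exact ht.1
  · intro t ht s hs hne
    exact ⟨hne, fun σ hσ => ht.2.1 σ (hs hσ), fun σ hσ σ' hσ' => ht.2.2 σ (hs hσ) σ' (hs hσ')⟩
  · intro g t ht
    refine ⟨ht.1.smul_finset, ?_, ?_⟩
    · intro σ hσ
      obtain ⟨τ, hτ, rfl⟩ := Finset.mem_smul_finset.1 hσ
      refine ⟨(ht.2.1 τ hτ).1.smul_finset, ?_⟩
      intro a ha b hb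
      obtain ⟨a', ha', rfl⟩ := Finset.mem_smul_finset.1 ha
      obtain ⟨b', hb', rfl⟩ := Finset.mem_smul_finset.1 hb
      rw [smul_eq_mul, smul_eq_mul, hd.inv]
      exact (ht.2.1 τ hτ).2 a' ha' b' hb'
    · intro σ hσ σ' hσ'
      obtain ⟨τ, hτ, rfl⟩ := Finset.mem_smul_finset.1 hσ
      obtain ⟨τ', hτ', rfl⟩ := Finset.mem_smul_finset.1 hσ'
      rcases ht.2.2 τ hτ τ' hτ' with h | h
      · exact Or.inl (Finset.smul_finset_subset_smul_finset h)
      · exact Or.inr (Finset.smul_finset_subset_smul_finset h)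
  · intro t ht
    obtain ⟨σ, hσ⟩ := ht.1
    obtain ⟨a, ha⟩ := (ht.2.1 σ hσ).1
    refine Set.Finite.subset (σ.finite_toSet.image (fun b => b * a⁻¹)) ?_
    intro g hg
    have h1 := hrigid g t ht hg σ hσ
    have h2 : g * a ∈ σ := by
      have h3 : g • a ∈ g • σ := Finset.smul_mem_smul_finset ha
      rw [h1] at h3
      exact h3
    exact ⟨g * a, h2, by simp⟩
  · refine ⟨(hd.fin D).toFinset.powerset.powerset, ?_⟩
    intro t ht
    obtain ⟨σ0, hσ0, hmin⟩ := Finset.exists_min_image t (fun σ => σ.card) ht.1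
    obtain ⟨a, ha⟩ := (ht.2.1 σ0 hσ0).1
    refine ⟨a⁻¹, ?_⟩
    rw [Finset.mem_powerset]
    intro σ hσ
    obtain ⟨τ, hτ, rfl⟩ := Finset.mem_smul_finset.1 hσ
    rw [Finset.mem_powerset]
    intro b hb
    obtain ⟨b', hb', rfl⟩ := Finset.mem_smul_finset.1 hb
    have haτ : a ∈ τ := by
      rcases ht.2.2 σ0 hσ0 τ hτ with h | h
      · exact h ha
      · rw [Finset.eq_of_subset_of_card_le h (hmin τ hτ)]
        exact ha
    exact e31_ball hd ((ht.2.1 τ hτ).2 a haτ b' hb')

theorem beta_supp {x : G →₀ ℝ} {σ : Finset G} (hσ : σ ∈ (beta x).support) :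
    σ ⊆ x.support ∧ σ.Nonempty := by
  rw [Finsupp.mem_support_iff, e31_beta_apply] at hσ
  refine ⟨lev_subset (c := 1) (right_ne_zero_of_mul hσ), ?_⟩
  rw [Finset.nonempty_iff_ne_empty]
  rintro rfl
  exact hσ (by simp)

theorem beta_mem (hd : HypM d) {D : ℕ} {x : G →₀ ℝ} (hx : x ∈ Loc d D) :
    (beta x).support ∈ RC d D ∧ beta x ∈ sx (beta x).support := by
  have hsum : ∑ σ ∈ (beta x).support, beta x σ = 1 := by
    have h1 : ∑ σ ∈ (beta x).support, beta x σ = ∑ σ ∈ x.support.powerset, beta x σ := by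
      refine Finset.sum_subset ?_ ?_
      · intro σ hσ
        exact Finset.mem_powerset.2 (beta_supp hσ).1
      · intro σ _ hσ
        exact Finsupp.notMem_support_iff.1 hσ
    rw [h1]
    have h2 := lev_card_sum (c := 1) x hx.1 (e31_loc_le hx) (Finset.Subset.refl x.support)
    rw [hx.2.2] at h2
    rw [← h2]
    exact Finset.sum_congr rfl fun σ _ => e31_beta_apply x σ
  have hne : (beta x).support.Nonempty := by
    rw [Finset.nonempty_iff_ne_empty]
    intro h
    rw [h, Finset.sum_empty] at hsum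
    exact zero_ne_one hsum
  refine ⟨⟨hne, ?_, ?_⟩, ?_, Finset.Subset.refl _, hsum⟩
  · intro σ hσ
    refine ⟨(beta_supp hσ).2, fun a ha b hb => ?_⟩
    exact hx.2.1 a ((beta_supp hσ).1 ha) b ((beta_supp hσ).1 hb)
  · intro σ hσ σ' hσ'
    rw [Finsupp.mem_support_iff, e31_beta_apply] at hσ hσ'
    exact lev_nested (right_ne_zero_of_mul hσ) (right_ne_zero_of_mul hσ')
  · intro σ
    rw [e31_beta_apply]
    exact mul_nonneg (Nat.cast_nonneg _) (lev_nonneg _ _ _)

/-- a location measure has at most m points, m the cardinality of the ball of radius D -/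
theorem loc_card (hd : HypM d) (D : ℕ) : ∃ m : ℕ, ∀ x ∈ Loc d D, x.support.card ≤ m := by
  refine ⟨(hd.fin D).toFinset.card, ?_⟩
  intro x hx
  obtain ⟨a, ha⟩ := sx_support_nonempty (e31_loc_sx hx)
  refine Finset.card_le_card_of_injOn (fun b => a⁻¹ * b) ?_ ?_
  · intro b hb
    exact e31_ball hd (hx.2.1 a ha b hb)
  · intro b _ c _ h
    exact mul_left_cancel h

theorem beta_lip (hd : HypM d) (D : ℕ) : ∃ C : ℝ, 0 ≤ C ∧ ∀ x ∈ Loc d D, ∀ y ∈ Loc d D,
    d1 (beta x) (beta y) ≤ C * d1 x y := by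
  obtain ⟨m, hm⟩ := loc_card hd D
  refine ⟨(2 * 2 ^ m : ℝ) * m, by positivity, ?_⟩
  intro x hx y hy
  rw [d1_eq_sum (beta x) (beta y) (T := x.support.powerset ∪ y.support.powerset)
    (fun σ hσ => Finset.mem_union_left _ (Finset.mem_powerset.2 (beta_supp hσ).1))
    (fun σ hσ => Finset.mem_union_right _ (Finset.mem_powerset.2 (beta_supp hσ).1))]
  have h1 : ∀ σ ∈ x.support.powerset ∪ y.support.powerset,
      |beta x σ - beta y σ| ≤ (m : ℝ) * d1 x y := by
    intro σ hσ
    have h2 : σ.card ≤ m := by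
      rcases Finset.mem_union.1 hσ with h | h
      · exact (Finset.card_le_card (Finset.mem_powerset.1 h)).trans (hm x hx)
      · exact (Finset.card_le_card (Finset.mem_powerset.1 h)).trans (hm y hy)
    rw [e31_beta_apply, e31_beta_apply, ← mul_sub, abs_mul, abs_of_nonneg (Nat.cast_nonneg _)]
    exact mul_le_mul (by exact_mod_cast h2) (lev_lip 1 σ x y) (abs_nonneg _) (Nat.cast_nonneg _)
  refine (Finset.sum_le_card_nsmul _ _ _ h1).trans ?_
  rw [nsmul_eq_mul, mul_assoc]
  refine mul_le_mul_of_nonneg_right ?_ (mul_nonneg (Nat.cast_nonneg _) (d1_nonneg _ _))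
  have h3 : (x.support.powerset ∪ y.support.powerset).card ≤ 2 ^ m + 2 ^ m := by
    refine (Finset.card_union_le _ _).trans ?_
    rw [Finset.card_powerset, Finset.card_powerset]
    exact add_le_add (Nat.pow_le_pow_right (by norm_num) (hm x hx))
      (Nat.pow_le_pow_right (by norm_num) (hm y hy))
  have h4 : ((x.support.powerset ∪ y.support.powerset).card : ℝ) ≤ 2 ^ m + 2 ^ m := by
    exact_mod_cast h3
  linarith

theorem beta_pact (g : G) (x : G →₀ ℝ) : beta (pact g x) = pact g (beta x) := by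
  ext σ
  rw [pact_apply, e31_beta_apply, e31_beta_apply, Finset.card_smul_finset]
  have h := lev_pact 1 g (g⁻¹ • σ) x
  rw [smul_inv_smul] at h
  rw [h]

theorem loc_pact (hd : HypM d) {D : ℕ} (g : G) {x : G →₀ ℝ} (hx : x ∈ Loc d D) :
    pact g x ∈ Loc d D := by
  have h1 := pact_mem g (e31_loc_sx hx)
  refine ⟨h1.1, ?_, h1.2.2⟩
  intro a ha b hb
  rw [pact_support] at ha hb
  obtain ⟨a', ha', rfl⟩ := Finset.mem_smul_finset.1 ha
  obtain ⟨b', hb', rfl⟩ := Finset.mem_smul_finset.1 hb
  rw [smul_eq_mul, smul_eq_mul, hd.inv]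
  exact hx.2.1 a' ha' b' hb'

theorem loc_mono {D D' : ℕ} (h : D ≤ D') : Loc d D ⊆ Loc d D' := by
  intro x hx
  exact ⟨hx.1, fun a ha b hb => (hx.2.1 a ha b hb).trans h, hx.2.2⟩

end

end Pool.HQ
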