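import Pool.Agent.HQ.E30
import Pool.Agent.HQ.E02

/-!
MP_7936f4_al, THEOREM E, module E32: permutation representations on l².

ℓ²(Ω, ℂ) = lp (fun _ : Ω => ℂ) 2 with basis vectors eb ω = lp.single 2 ω 1.  For a permutation σ of Ω there is a
linear isometric equivalence W σ with W σ (eb ω) = eb (σ ω), (W σ f) ω = f (σ⁻¹ ω).
Construction: either directly (composition of functions with σ⁻¹ preserves Memℓp and the norm), or with Hilbert bases.
-/

namespace Pool.HQ

open scoped ENNReal InnerProductSpace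

/-- the Hilbert space l²(Ω) -/
abbrev L2 (Ω : Type) : Type := lp (fun _ : Ω => ℂ) 2

/-- basis vector -/
noncomputable def eb {Ω : Type} (ω : Ω) : L2 Ω := by
  classical exact lp.single 2 ω (1 : ℂ)

lemma eb_inner {Ω : Type} (ω : Ω) (f : L2 Ω) : ⟪eb ω, f⟫_ℂ = f ω := by
  classical
  have h : (eb ω : L2 Ω) = lp.single 2 ω (1 : ℂ) := by
    unfold eb
    congr!
  rw [h, lp.inner_single_left]
  simp

lemma eb_apply {Ω : Type} [inst : DecidableEq Ω] (ω ω' : Ω) :
    (eb ω : L2 Ω) ω' = if ω' = ω then 1 else 0 := by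
  have h : (eb ω : L2 Ω) = lp.single 2 ω (1 : ℂ) := by
    have e : inst = fun a b => Classical.propDecidable (a = b) := Subsingleton.elim _ _
    subst e
    rfl
  rw [h, lp.single_apply, Pi.single_apply]

lemma eb_orthonormal (Ω : Type) : Orthonormal ℂ (fun ω : Ω => (eb ω : L2 Ω)) := by
  classical
  rw [orthonormal_iff_ite]
  intro i j
  rw [eb_inner, eb_apply]

/-- composition with a permutation preserves membership in `l²` -/
lemma memlp_comp {Ω : Type} (e : Equiv.Perm Ω) (f : L2 Ω) :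
    Memℓp (fun ω : Ω => f (e ω)) 2 := by
  have hf := lp.memℓp f
  have h2 : (0 : ℝ) < (2 : ℝ≥0∞).toReal := by norm_num
  rw [memℓp_gen_iff h2] at hf ⊢
  exact (e.summable_iff (f := fun ω => ‖f ω‖ ^ (2 : ℝ≥0∞).toReal)).2 hf

/-- the operator of composition with the inverse of a permutation -/
noncomputable def permOp {Ω : Type} (σ : Equiv.Perm Ω) (f : L2 Ω) : L2 Ω :=
  ⟨fun ω => f (σ⁻¹ ω), memlp_comp σ⁻¹ f⟩

lemma permOp_apply {Ω : Type} (σ : Equiv.Perm Ω) (f : L2 Ω) (ω : Ω) :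
    permOp σ f ω = f (σ⁻¹ ω) := rfl

lemma permOp_norm {Ω : Type} (σ : Equiv.Perm Ω) (f : L2 Ω) : ‖permOp σ f‖ = ‖f‖ := by
  have h2 : (0 : ℝ) < (2 : ℝ≥0∞).toReal := by norm_num
  rw [lp.norm_eq_tsum_rpow h2, lp.norm_eq_tsum_rpow h2]
  congr 1
  exact (σ⁻¹ : Equiv.Perm Ω).tsum_eq (fun ω => ‖f ω‖ ^ (2 : ℝ≥0∞).toReal)

lemma permOp_mul {Ω : Type} (σ σ' : Equiv.Perm Ω) (f : L2 Ω) :
    permOp (σ * σ') f = permOp σ (permOp σ' f) := by
  apply lp.ext
  funext ω
  simp only [permOp_apply]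
  rw [mul_inv_rev]
  rfl

lemma permOp_one {Ω : Type} (f : L2 Ω) : permOp (1 : Equiv.Perm Ω) f = f := by
  apply lp.ext
  funext ω
  simp only [permOp_apply]
  rfl

/-- the permutation operator as a linear isometric equivalence -/
noncomputable def permIso {Ω : Type} (σ : Equiv.Perm Ω) : L2 Ω ≃ₗᵢ[ℂ] L2 Ω where
  toFun := permOp σ
  invFun := permOp σ⁻¹
  left_inv f := by
    rw [← permOp_mul, inv_mul_cancel, permOp_one]
  right_inv f := by
    rw [← permOp_mul, mul_inv_cancel, permOp_one]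
  map_add' f g := by
    apply lp.ext
    funext ω
    simp only [permOp_apply, lp.coeFn_add, Pi.add_apply]
  map_smul' c f := by
    apply lp.ext
    funext ω
    simp only [permOp_apply, lp.coeFn_smul, Pi.smul_apply, RingHom.id_apply]
  norm_map' f := permOp_norm σ f

theorem exists_perm_rep (Ω : Type) : ∃ W : Equiv.Perm Ω → (L2 Ω ≃ₗᵢ[ℂ] L2 Ω),
    (∀ σ ω, W σ (eb ω) = eb (σ ω)) ∧ (∀ σ σ' f, W (σ * σ') f = W σ (W σ' f)) ∧
    (∀ σ f ω, W σ f (σ ω) = f ω) := by
  classical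
  refine ⟨permIso, fun σ ω => ?_, fun σ σ' f => permOp_mul σ σ' f, fun σ f ω => ?_⟩
  · show permOp σ (eb ω) = eb (σ ω)
    apply lp.ext
    funext ω'
    rw [permOp_apply, eb_apply, eb_apply]
    by_cases h : ω' = σ ω
    · rw [if_pos h, h, if_pos (by simp)]
    · rw [if_neg h, if_neg]
      intro h'
      apply h
      rw [← h']
      simp
  · show permOp σ f (σ ω) = f ω
    rw [permOp_apply]
    simp

end Pool.HQ
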