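import Pool.Agent.HQ.E04
import Pool.Agent.HQ.E12
import Pool.Agent.HQ.E32

/-!
MP_7936f4_al, THEOREM E, module E33: Hilbert space model of a combinatorial bundle.

Let K be a complex all of whose simplices have at most e vertices, CB K e ι π τ a combinatorial bundle,
ε = eps e, ρ = rho ε, Φ_s = phi ε s.  Ω = ((Finset V × ι) × Finset V) ⊕ ℕ, ℋ = ℓ²(Ω).
For t ∈ K, y ∈ sx t, i ∈ ι and a label c:
  Jv t y i c = Σ_{s ⊆ t} Σ_{i'} Φ_s(y) conj(τ t s (ρ y) i i') e_((s,i'),c).
* tau_lip: finitely many orbits (Cx.orb), CB.eqv, pact_d1: the Lipschitz constants of the finitely many functions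
  τ t s · i j with t a representative (t ∈ R ∩ K), s ⊆ t, i, j, bound those of all the others.
* Where Φ_s(y) ≠ 0: s ≠ ∅, s ⊆ supp y ⊆ t, ρ y ∈ sx s (phi_ne, rho_mem), τ t s (ρy) unitary.
* cut_lip: |Φ_s(y) τ t s (ρy) i j - Φ_s(y') τ t s (ρy') i j| ≤ C d1 y y' for y, y' ∈ sx t, s ⊆ t: if both y, y' are in
  U_s = {x_v ≤ ε for v ∉ s} use phi_lip, tau_lip, rho_lip (and |entries| ≤ 1); if only y ∈ U_s then the second term is 0
  and the first is ≤ |Φ_s(y) - Φ_s(y')|.
* Jv_orth: ⟨Jv t y i c, Jv t y i' c'⟩ = δ_{cc'} Σ_s Φ_s² Σ_j τ t s i j conj(τ t s i' j) = δ δ (rows of a unitary matrix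
  are orthonormal; phi_sum).
* Jv_change: t ⊆ t', y ∈ sx t: conj(τ t' s i i') = Σ_j conj(τ t' t i j) conj(τ t s j i') (coc at ρ y ∈ sx s).
* Jv_equiv: W (actΩ g) e_((s,i'),c) = e_((g•s, π g s i'),c); CB.eqv at ρ y, rho_pact, phi_pact; reindex the sums.
* Jv_lip: sum of at most 2^e |ι| terms.
-/

namespace Pool.HQ

open scoped Pointwise Matrix InnerProductSpace

/-- index set of the Hilbert space -/
abbrev Om (V ι : Type) : Type := ((Finset V × ι) × Finset V) ⊕ ℕ

namespace E33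

/-- the action on the index set -/
def actF {G V ι : Type} [Group G] [MulAction G V] [DecidableEq V]
    (π : G → Finset V → Equiv.Perm ι) (g : G) : Om V ι → Om V ι
  | Sum.inl ((s, i), c) => Sum.inl ((g • s, π g s i), c)
  | Sum.inr n => Sum.inr n

end E33

/-- the permutation of the index set defined by g: ((s,i),c) ↦ ((g•s, π g s i), c), n ↦ n. -/
theorem exists_actOm {G V ι : Type} [Group G] [MulAction G V] [DecidableEq V]
    (π : G → Finset V → Equiv.Perm ι) (hπ : ∀ (g h : G) (t : Finset V), π (g * h) t = π g (h • t) * π h t) :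
    ∃ A : G → Equiv.Perm (Om V ι), (∀ g s i c, A g (Sum.inl ((s, i), c)) = Sum.inl ((g • s, π g s i), c)) ∧
      (∀ g n, A g (Sum.inr n) = Sum.inr n) ∧ ∀ g h, A (g * h) = A g * A h := by
  have hone : ∀ t : Finset V, π 1 t = 1 := by
    intro t
    have h := hπ 1 1 t
    rw [one_mul, one_smul] at h
    exact mul_left_cancel (a := π 1 t) (by rw [← h, mul_one])
  have hmul : ∀ (g h : G) (ω : Om V ι), E33.actF π (g * h) ω = E33.actF π g (E33.actF π h ω) := by
    intro g h ω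
    rcases ω with ⟨⟨s, i⟩, c⟩ | n
    · show Sum.inl (((g * h) • s, π (g * h) s i), c) =
        Sum.inl ((g • h • s, π g (h • s) (π h s i)), c)
      rw [mul_smul, hπ]
      rfl
    · rfl
  have h1 : ∀ ω : Om V ι, E33.actF π (1 : G) ω = ω := by
    intro ω
    rcases ω with ⟨⟨s, i⟩, c⟩ | n
    · show Sum.inl (((1 : G) • s, π 1 s i), c) = Sum.inl ((s, i), c)
      rw [one_smul, hone]
      rfl
    · rfl
  refine ⟨fun g => ⟨E33.actF π g, E33.actF π g⁻¹, fun ω => ?_, fun ω => ?_⟩, ?_, ?_, ?_⟩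
  · rw [← hmul, inv_mul_cancel, h1]
  · rw [← hmul, mul_inv_cancel, h1]
  · intro g s i c
    rfl
  · intro g n
    rfl
  · intro g h
    ext ω
    exact hmul g h ω

/-- the vectors of the model -/
noncomputable def Jv {V ι : Type} [Fintype ι] (ε : ℝ)
    (τ : Finset V → Finset V → (V →₀ ℝ) → Matrix ι ι ℂ) (t : Finset V) (y : V →₀ ℝ) (i : ι)
    (c : Finset V) : L2 (Om V ι) :=
  ∑ s ∈ t.powerset, ∑ i' : ι,
    (((phi ε s y : ℝ) : ℂ) * star (τ t s (rho ε y) i i')) • (eb (Sum.inl ((s, i'), c)) : L2 (Om V ι))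

section

variable {V ι : Type} [DecidableEq V] [Fintype ι]
  {τ : Finset V → Finset V → (V →₀ ℝ) → Matrix ι ι ℂ}

theorem E33.Jv_apply (ε : ℝ) (t : Finset V) (y : V →₀ ℝ) (i : ι) (c : Finset V) (s : Finset V)
    (j : ι) (c' : Finset V) :
    Jv ε τ t y i c (Sum.inl ((s, j), c')) =
      if s ⊆ t ∧ c' = c then ((phi ε s y : ℝ) : ℂ) * star (τ t s (rho ε y) i j) else 0 := by
  classical
  unfold Jv
  rw [lp.coeFn_sum, Finset.sum_apply]
  have h1 : ∀ s' ∈ t.powerset, (∑ i' : ι, (((phi ε s' y : ℝ) : ℂ) * star (τ t s' (rho ε y) i i')) •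
      (eb (Sum.inl ((s', i'), c)) : L2 (Om V ι))) (Sum.inl ((s, j), c')) =
      if s' = s then (if c' = c then
        ((phi ε s y : ℝ) : ℂ) * star (τ t s (rho ε y) i j) else 0) else 0 := by
    intro s' _
    rw [lp.coeFn_sum, Finset.sum_apply]
    by_cases hs : s' = s
    · subst hs
      rw [if_pos rfl, Finset.sum_eq_single j]
      · rw [lp.coeFn_smul, Pi.smul_apply, eb_apply, smul_eq_mul]
        by_cases hc : c' = c
        · subst hc
          simp
        · rw [if_neg hc, if_neg, mul_zero]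
          intro h
          apply hc
          have h2 := Sum.inl.inj h
          exact congrArg Prod.snd h2
      · intro b _ hb
        rw [lp.coeFn_smul, Pi.smul_apply, eb_apply, if_neg, smul_zero]
        intro h
        apply hb
        have h2 := Sum.inl.inj h
        exact (congrArg (fun z => z.1.2) h2).symm
      · intro h
        exact absurd (Finset.mem_univ _) h
    · rw [if_neg hs]
      refine Finset.sum_eq_zero fun b _ => ?_
      rw [lp.coeFn_smul, Pi.smul_apply, eb_apply, if_neg, smul_zero]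
      intro h
      apply hs
      have h2 := Sum.inl.inj h
      exact (congrArg (fun z => z.1.1) h2).symm
  rw [Finset.sum_congr rfl h1, Finset.sum_ite_eq']
  by_cases hs : s ⊆ t
  · rw [if_pos (Finset.mem_powerset.2 hs)]
    by_cases hc : c' = c
    · rw [if_pos hc, if_pos ⟨hs, hc⟩]
    · rw [if_neg hc, if_neg (fun h => hc h.2)]
  · rw [if_neg (fun h => hs (Finset.mem_powerset.1 h)), if_neg (fun h => hs h.1)]

end

section

variable {G V ι : Type} [Group G] [MulAction G V] [DecidableEq V] {K : Set (Finset V)} {e : ℕ}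
  [Fintype ι] [DecidableEq ι] {π : G → Finset V → Equiv.Perm ι}
  {τ : Finset V → Finset V → (V →₀ ℝ) → Matrix ι ι ℂ}

theorem tau_lip (hK : Cx G V K) (hB : CB K e ι π τ) (hKe : ∀ t ∈ K, t.card ≤ e) :
    ∃ C : ℝ, 0 ≤ C ∧ ∀ t ∈ K, ∀ s ⊆ t, s.Nonempty → ∀ y ∈ sx s, ∀ y' ∈ sx s, ∀ i j,
      ‖τ t s y i j - τ t s y' i j‖ ≤ C * d1 y y' := by
  classical
  have hex : ∀ (t s : Finset V) (i j : ι), ∃ C : ℝ, 0 ≤ C ∧ (t ∈ K → s ⊆ t → s.Nonempty →
      ∀ y ∈ sx s, ∀ y' ∈ sx s, ‖τ t s y i j - τ t s y' i j‖ ≤ C * d1 y y') := by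
    intro t s i j
    by_cases h : t ∈ K ∧ s ⊆ t ∧ s.Nonempty
    · obtain ⟨C, hC, _, h2⟩ := hB.bl t h.1 (hKe t h.1) s h.2.1 h.2.2 i j
      exact ⟨C, hC, fun _ _ _ y hy y' hy' => h2 y hy y' hy'⟩
    · exact ⟨0, le_refl 0, fun h1 h2 h3 => absurd ⟨h1, h2, h3⟩ h⟩
  choose C hC0 hC using hex
  obtain ⟨R, hR⟩ := hK.orb
  refine ⟨∑ t ∈ R, ∑ s ∈ t.powerset, ∑ i, ∑ j, C t s i j, ?_, ?_⟩
  · exact Finset.sum_nonneg fun t _ => Finset.sum_nonneg fun s _ => Finset.sum_nonneg fun i _ =>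
      Finset.sum_nonneg fun j _ => hC0 t s i j
  · intro t ht s hs hne y hy y' hy' i j
    obtain ⟨g, hg⟩ := hR t ht
    have hgt := hK.smul g t ht
    have hgs : g • s ⊆ g • t := Finset.smul_finset_subset_smul_finset hs
    have h1 := hC (g • t) (g • s) (π g t i) (π g s j) hgt hgs hne.smul_finset (pact g y)
      (pact_mem g hy) (pact g y') (pact_mem g hy')
    rw [hB.eqv g t ht (hKe t ht) s hs hne y hy, hB.eqv g t ht (hKe t ht) s hs hne y' hy',
      pact_d1] at h1
    refine h1.trans (mul_le_mul_of_nonneg_right ?_ (d1_nonneg y y'))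
    have a1 : C (g • t) (g • s) (π g t i) (π g s j) ≤ ∑ j', C (g • t) (g • s) (π g t i) j' :=
      Finset.single_le_sum (f := fun j' => C (g • t) (g • s) (π g t i) j')
        (fun j' _ => hC0 _ _ _ _) (Finset.mem_univ _)
    have a2 : ∑ j', C (g • t) (g • s) (π g t i) j' ≤ ∑ i', ∑ j', C (g • t) (g • s) i' j' :=
      Finset.single_le_sum (f := fun i' => ∑ j', C (g • t) (g • s) i' j')
        (fun i' _ => Finset.sum_nonneg fun j' _ => hC0 _ _ _ _) (Finset.mem_univ _)
    have a3 : ∑ i', ∑ j', C (g • t) (g • s) i' j' ≤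
        ∑ s' ∈ (g • t).powerset, ∑ i', ∑ j', C (g • t) s' i' j' :=
      Finset.single_le_sum (f := fun s' => ∑ i', ∑ j', C (g • t) s' i' j')
        (fun s' _ => Finset.sum_nonneg fun i' _ => Finset.sum_nonneg fun j' _ => hC0 _ _ _ _)
        (Finset.mem_powerset.2 hgs)
    have a4 : ∑ s' ∈ (g • t).powerset, ∑ i', ∑ j', C (g • t) s' i' j' ≤
        ∑ t' ∈ R, ∑ s' ∈ t'.powerset, ∑ i', ∑ j', C t' s' i' j' :=
      Finset.single_le_sum (f := fun t' => ∑ s' ∈ t'.powerset, ∑ i', ∑ j', C t' s' i' j')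
        (fun t' _ => Finset.sum_nonneg fun s' _ => Finset.sum_nonneg fun i' _ =>
          Finset.sum_nonneg fun j' _ => hC0 _ _ _ _) hg
    exact a1.trans (a2.trans (a3.trans a4))

theorem E33.entry (hK : Cx G V K) (hB : CB K e ι π τ) (hKe : ∀ t ∈ K, t.card ≤ e)
    {t : Finset V} (ht : t ∈ K) {s : Finset V} (hs : s ⊆ t) (hne : s.Nonempty) {y : V →₀ ℝ}
    (hy : y ∈ sx s) (i j : ι) : ‖τ t s y i j‖ ≤ 1 := by
  have hmem : τ t s y ∈ Matrix.unitaryGroup ι ℂ := by
    rw [Matrix.mem_unitaryGroup_iff']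
    exact hB.uni t ht (hKe t ht) s hs hne y hy
  exact entry_norm_bound_of_unitary hmem i j

theorem cut_lip (hK : Cx G V K) (he : 1 ≤ e) (hB : CB K e ι π τ) (hKe : ∀ t ∈ K, t.card ≤ e) :
    ∃ C : ℝ, 0 ≤ C ∧ ∀ t ∈ K, ∀ s ⊆ t, ∀ y ∈ sx t, ∀ y' ∈ sx t, ∀ i j,
      ‖((phi (eps e) s y : ℝ) : ℂ) * τ t s (rho (eps e) y) i j -
        ((phi (eps e) s y' : ℝ) : ℂ) * τ t s (rho (eps e) y') i j‖ ≤ C * d1 y y' := by
  obtain ⟨C0, hC0, h0⟩ := tau_lip hK hB hKe
  obtain ⟨C1, hC1, h1⟩ := phi_lip he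
  refine ⟨4 * C0 + C1, by positivity, ?_⟩
  intro t ht s hs y hy y' hy' i j
  have hte := hKe t ht
  have hd := d1_nonneg y y'
  have hlip := h1 t s y y' hte hy hy'
  have hCd : 0 ≤ 4 * C0 * d1 y y' := by positivity
  by_cases hp : phi (eps e) s y = 0
  · by_cases hp' : phi (eps e) s y' = 0
    · rw [hp, hp']
      simp only [Complex.ofReal_zero, zero_mul, sub_zero, norm_zero]
      positivity
    · obtain ⟨hne, _, hU⟩ := phi_ne he hte hy' hp'
      have hρ := rho_mem he hte hy' hU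
      have hent := E33.entry hK hB hKe ht hs hne hρ i j
      rw [hp] at hlip ⊢
      rw [Complex.ofReal_zero, zero_mul, zero_sub, norm_neg, norm_mul, Complex.norm_real,
        Real.norm_eq_abs]
      rw [zero_sub, abs_neg] at hlip
      have : |phi (eps e) s y'| * ‖τ t s (rho (eps e) y') i j‖ ≤ |phi (eps e) s y'| :=
        mul_le_of_le_one_right (abs_nonneg _) hent
      nlinarith
  · obtain ⟨hne, _, hU⟩ := phi_ne he hte hy hp
    have hρ := rho_mem he hte hy hU
    have hent := E33.entry hK hB hKe ht hs hne hρ i j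
    by_cases hp' : phi (eps e) s y' = 0
    · rw [hp'] at hlip ⊢
      rw [Complex.ofReal_zero, zero_mul, sub_zero, norm_mul, Complex.norm_real,
        Real.norm_eq_abs]
      rw [sub_zero] at hlip
      have : |phi (eps e) s y| * ‖τ t s (rho (eps e) y) i j‖ ≤ |phi (eps e) s y| :=
        mul_le_of_le_one_right (abs_nonneg _) hent
      nlinarith
    · obtain ⟨_, _, hU'⟩ := phi_ne he hte hy' hp'
      have hρ' := rho_mem he hte hy' hU'
      have hent' := E33.entry hK hB hKe ht hs hne hρ' i j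
      have hτ := h0 t ht s hs hne _ hρ _ hρ' i j
      have hrl := rho_lip he hte hy hy'
      have hφ1 : |phi (eps e) s y| ≤ 1 := by
        rw [abs_of_nonneg (phi_nonneg _ _ _)]
        exact phi_le_one _ _ _
      have e1 : ((phi (eps e) s y : ℝ) : ℂ) * τ t s (rho (eps e) y) i j -
          ((phi (eps e) s y' : ℝ) : ℂ) * τ t s (rho (eps e) y') i j =
          ((phi (eps e) s y : ℝ) : ℂ) * (τ t s (rho (eps e) y) i j - τ t s (rho (eps e) y') i j) +
          (((phi (eps e) s y - phi (eps e) s y' : ℝ)) : ℂ) * τ t s (rho (eps e) y') i j := by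
        push_cast
        ring
      rw [e1]
      refine (norm_add_le _ _).trans ?_
      rw [norm_mul, norm_mul, Complex.norm_real, Complex.norm_real, Real.norm_eq_abs,
        Real.norm_eq_abs]
      have b1 : |phi (eps e) s y| * ‖τ t s (rho (eps e) y) i j - τ t s (rho (eps e) y') i j‖ ≤
          ‖τ t s (rho (eps e) y) i j - τ t s (rho (eps e) y') i j‖ :=
        mul_le_of_le_one_left (norm_nonneg _) hφ1
      have b2 : |phi (eps e) s y - phi (eps e) s y'| * ‖τ t s (rho (eps e) y') i j‖ ≤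
          |phi (eps e) s y - phi (eps e) s y'| := mul_le_of_le_one_right (abs_nonneg _) hent'
      have b3 : C0 * d1 (rho (eps e) y) (rho (eps e) y') ≤ C0 * (4 * d1 y y') :=
        mul_le_mul_of_nonneg_left hrl hC0
      nlinarith

theorem Jv_orth (hK : Cx G V K) (he : 1 ≤ e) (hB : CB K e ι π τ) (hKe : ∀ t ∈ K, t.card ≤ e)
    {t : Finset V} (ht : t ∈ K) {y : V →₀ ℝ} (hy : y ∈ sx t) (i i' : ι) (c c' : Finset V) :
    ⟪Jv (eps e) τ t y i c, Jv (eps e) τ t y i' c'⟫_ℂ = if i = i' ∧ c = c' then 1 else 0 := by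
  have hte := hKe t ht
  conv_lhs => rw [show Jv (eps e) τ t y i c = ∑ s ∈ t.powerset, ∑ j : ι,
    (((phi (eps e) s y : ℝ) : ℂ) * star (τ t s (rho (eps e) y) i j)) •
      (eb (Sum.inl ((s, j), c)) : L2 (Om V ι)) from rfl]
  rw [sum_inner]
  have h1 : ∀ s ∈ t.powerset, ⟪∑ j : ι, (((phi (eps e) s y : ℝ) : ℂ) *
      star (τ t s (rho (eps e) y) i j)) • (eb (Sum.inl ((s, j), c)) : L2 (Om V ι)),
      Jv (eps e) τ t y i' c'⟫_ℂ =
      ((phi (eps e) s y ^ 2 : ℝ) : ℂ) * (if i = i' ∧ c = c' then 1 else 0) := by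
    intro s hs
    have hst := Finset.mem_powerset.1 hs
    rw [sum_inner]
    have h2 : ∀ j : ι, ⟪(((phi (eps e) s y : ℝ) : ℂ) * star (τ t s (rho (eps e) y) i j)) •
        (eb (Sum.inl ((s, j), c)) : L2 (Om V ι)), Jv (eps e) τ t y i' c'⟫_ℂ =
        ((phi (eps e) s y ^ 2 : ℝ) : ℂ) * (if c = c' then
          τ t s (rho (eps e) y) i j * star (τ t s (rho (eps e) y) i' j) else 0) := by
      intro j
      rw [inner_smul_left, eb_inner, E33.Jv_apply]
      by_cases hc : c = c'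
      · rw [if_pos ⟨hst, hc⟩, if_pos hc, map_mul, Complex.conj_ofReal]
        have : (starRingEnd ℂ) (star (τ t s (rho (eps e) y) i j)) = τ t s (rho (eps e) y) i j :=
          star_star _
        rw [this]
        push_cast
        ring
      · rw [if_neg (fun h => hc h.2), if_neg hc, mul_zero, mul_zero]
    rw [Finset.sum_congr rfl fun j _ => h2 j, ← Finset.mul_sum]
    by_cases hp : phi (eps e) s y = 0
    · rw [hp]
      simp
    · obtain ⟨hne, _, hU⟩ := phi_ne he hte hy hp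
      have hρ := rho_mem he hte hy hU
      congr 1
      by_cases hc : c = c'
      · simp only [if_pos hc]
        have h3 := congrFun (congrFun (hB.uni' ht hte hst hne hρ) i) i'
        rw [Matrix.mul_apply, Matrix.one_apply] at h3
        simp only [Matrix.conjTranspose_apply] at h3
        rw [h3]
        by_cases hi : i = i'
        · rw [if_pos hi, if_pos ⟨hi, hc⟩]
        · rw [if_neg hi, if_neg (fun h => hi h.1)]
      · simp only [if_neg hc, Finset.sum_const_zero]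
        rw [if_neg (fun h => hc h.2)]
  rw [Finset.sum_congr rfl h1, ← Finset.sum_mul, ← Complex.ofReal_sum, phi_sum he hte hy hy.2.1]
  simp

theorem Jv_change (hK : Cx G V K) (he : 1 ≤ e) (hB : CB K e ι π τ) (hKe : ∀ t ∈ K, t.card ≤ e)
    {t t' : Finset V} (ht' : t' ∈ K) (htt : t ⊆ t') {y : V →₀ ℝ} (hy : y ∈ sx t) (i : ι)
    (c : Finset V) :
    Jv (eps e) τ t' y i c =
      ∑ j : ι, star (τ t' t (rho (eps e) y) i j) • Jv (eps e) τ t y j c := by
  have hte' := hKe t' ht'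
  have hte : t.card ≤ e := (Finset.card_le_card htt).trans hte'
  unfold Jv
  simp only [Finset.smul_sum]
  rw [Finset.sum_comm (s := (Finset.univ : Finset ι)) (t := t.powerset),
    ← Finset.sum_subset (Finset.powerset_mono.2 htt)]
  · refine Finset.sum_congr rfl fun s hs => ?_
    have hst := Finset.mem_powerset.1 hs
    rw [Finset.sum_comm]
    refine Finset.sum_congr rfl fun i' _ => ?_
    simp only [smul_smul]
    rw [← Finset.sum_smul]
    congr 1
    by_cases hp : phi (eps e) s y = 0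
    · rw [hp]
      simp
    · obtain ⟨hne, _, hU⟩ := phi_ne he hte hy hp
      have hρ := rho_mem he hte hy hU
      have hcoc := congrFun (congrFun (hB.coc t' ht' hte' t htt s hst hne _ hρ) i) i'
      rw [Matrix.mul_apply] at hcoc
      rw [← hcoc, star_sum, Finset.mul_sum]
      refine Finset.sum_congr rfl fun j _ => ?_
      rw [star_mul']
      ring
  · intro s _ hs
    by_cases hp : phi (eps e) s y = 0
    · rw [hp]
      simp
    · obtain ⟨_, hsy, _⟩ := phi_ne he hte hy hp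
      exact absurd (Finset.mem_powerset.2 (hsy.trans hy.2.1)) hs

theorem Jv_equiv (hK : Cx G V K) (he : 1 ≤ e) (hB : CB K e ι π τ) (hKe : ∀ t ∈ K, t.card ≤ e)
    (W : Equiv.Perm (Om V ι) → (L2 (Om V ι) ≃ₗᵢ[ℂ] L2 (Om V ι))) (hW : ∀ σ ω, W σ (eb ω) = eb (σ ω))
    (A : G → Equiv.Perm (Om V ι))
    (hA : ∀ g s i c, A g (Sum.inl ((s, i), c)) = Sum.inl ((g • s, π g s i), c)) (g : G)
    {t : Finset V} (ht : t ∈ K) {y : V →₀ ℝ} (hy : y ∈ sx t) (i : ι) (c : Finset V) :
    W (A g) (Jv (eps e) τ t y i c) = Jv (eps e) τ (g • t) (pact g y) (π g t i) c := by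
  have hte := hKe t ht
  unfold Jv
  rw [map_sum]
  refine Finset.sum_nbij' (fun s => g • s) (fun s => g⁻¹ • s) ?_ ?_ ?_ ?_ ?_
  · intro s hs
    rw [Finset.mem_powerset] at hs ⊢
    exact Finset.smul_finset_subset_smul_finset hs
  · intro s hs
    rw [Finset.mem_powerset] at hs ⊢
    have := Finset.smul_finset_subset_smul_finset (a := g⁻¹) hs
    rwa [inv_smul_smul] at this
  · intro s _
    exact inv_smul_smul g s
  · intro s _
    exact smul_inv_smul g s
  · intro s hs
    have hst := Finset.mem_powerset.1 hs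
    rw [map_sum, ← Equiv.sum_comp (π g s) (fun i' =>
      (((phi (eps e) (g • s) (pact g y) : ℝ) : ℂ) *
        star (τ (g • t) (g • s) (rho (eps e) (pact g y)) (π g t i) i')) •
          (eb (Sum.inl ((g • s, i'), c)) : L2 (Om V ι)))]
    refine Finset.sum_congr rfl fun i' _ => ?_
    rw [map_smul, hW, hA, phi_pact, rho_pact]
    by_cases hp : phi (eps e) s y = 0
    · rw [hp]
      simp
    · obtain ⟨hne, _, hU⟩ := phi_ne he hte hy hp
      have hρ := rho_mem he hte hy hU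
      rw [hB.eqv g t ht hte s hst hne _ hρ]

theorem Jv_lip (hK : Cx G V K) (he : 1 ≤ e) (hB : CB K e ι π τ) (hKe : ∀ t ∈ K, t.card ≤ e) :
    ∃ C : ℝ, 0 ≤ C ∧ ∀ t ∈ K, ∀ y ∈ sx t, ∀ y' ∈ sx t, ∀ i c,
      ‖Jv (eps e) τ t y i c - Jv (eps e) τ t y' i c‖ ≤ C * d1 y y' := by
  obtain ⟨C, hC, h⟩ := cut_lip hK he hB hKe
  refine ⟨2 ^ e * (Fintype.card ι * C), by positivity, ?_⟩
  intro t ht y hy y' hy' i c
  have hd := d1_nonneg y y'
  unfold Jv
  rw [← Finset.sum_sub_distrib]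
  refine (norm_sum_le _ _).trans ?_
  have h1 : ∀ s ∈ t.powerset, ‖(∑ i' : ι, (((phi (eps e) s y : ℝ) : ℂ) *
      star (τ t s (rho (eps e) y) i i')) • (eb (Sum.inl ((s, i'), c)) : L2 (Om V ι))) -
      ∑ i' : ι, (((phi (eps e) s y' : ℝ) : ℂ) *
      star (τ t s (rho (eps e) y') i i')) • (eb (Sum.inl ((s, i'), c)) : L2 (Om V ι))‖ ≤
      Fintype.card ι * (C * d1 y y') := by
    intro s hs
    rw [← Finset.sum_sub_distrib]
    refine (norm_sum_le _ _).trans ?_
    have h2 : ∀ i' ∈ (Finset.univ : Finset ι), ‖(((phi (eps e) s y : ℝ) : ℂ) *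
        star (τ t s (rho (eps e) y) i i')) • (eb (Sum.inl ((s, i'), c)) : L2 (Om V ι)) -
        (((phi (eps e) s y' : ℝ) : ℂ) *
        star (τ t s (rho (eps e) y') i i')) • (eb (Sum.inl ((s, i'), c)) : L2 (Om V ι))‖ ≤
        C * d1 y y' := by
      intro i' _
      rw [← sub_smul, norm_smul, (eb_orthonormal (Om V ι)).1, mul_one]
      have h3 := h t ht s (Finset.mem_powerset.1 hs) y hy y' hy' i i'
      rw [← norm_star] at h3
      have e1 : star (((phi (eps e) s y : ℝ) : ℂ) * τ t s (rho (eps e) y) i i' -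
          ((phi (eps e) s y' : ℝ) : ℂ) * τ t s (rho (eps e) y') i i') =
          ((phi (eps e) s y : ℝ) : ℂ) * star (τ t s (rho (eps e) y) i i') -
          ((phi (eps e) s y' : ℝ) : ℂ) * star (τ t s (rho (eps e) y') i i') := by
        rw [star_sub, star_mul', star_mul']
        have e2 : ∀ a : ℝ, star ((a : ℝ) : ℂ) = ((a : ℝ) : ℂ) := fun a => Complex.conj_ofReal a
        rw [e2, e2]
      rw [e1] at h3
      exact h3
    refine (Finset.sum_le_sum h2).trans ?_
    rw [Finset.sum_const, nsmul_eq_mul, Finset.card_univ]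
  refine (Finset.sum_le_sum h1).trans ?_
  rw [Finset.sum_const, nsmul_eq_mul, Finset.card_powerset]
  have h4 : ((2 ^ t.card : ℕ) : ℝ) ≤ 2 ^ e := by
    push_cast
    exact pow_le_pow_right₀ (by norm_num) (hKe t ht)
  have h5 : 0 ≤ (Fintype.card ι : ℝ) * (C * d1 y y') := by positivity
  calc ((2 ^ t.card : ℕ) : ℝ) * (Fintype.card ι * (C * d1 y y')) ≤
      2 ^ e * (Fintype.card ι * (C * d1 y y')) := mul_le_mul_of_nonneg_right h4 h5
    _ = 2 ^ e * (Fintype.card ι * C) * d1 y y' := by ring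

end

end Pool.HQ
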