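import Pool.Agent.HQ.E33
import Pool.Agent.HQ.E08

/-!
MP_7936f4_al, THEOREM E, module E34: the projections Pm and the near coordinates vm of the Hilbert space model.

Notation of E33.  Let 𝒮 be a finite set of labels, 𝒮 ⊆ K, i₀ ∈ ι.
 Pm 𝒮 y = Σ_{i, c ∈ 𝒮} |Jv y i c⟩⟨Jv y i c|   in the coordinates t = supp y,
 vm a y = Σ_{c ∈ 𝒮} Σ_i Φ_{a c}(y) τ t (a c) (ρ y) i (π a c i₀) Jv t y i c,   t = supp y  (a c = a • c).
* Pm_eq, vm_eq: the same formulas hold in the coordinates of any t ∈ K with y ∈ sx t (Jv_change, unitarity of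
  τ t' t (ρy); for vm: where Φ_{ac}(y) ≠ 0, a c ⊆ supp y, ρ y ∈ sx (a c) and Σ_i conj(τ t' t i j) τ t' (ac) i k = τ t (ac) j k).
* Pm_lip, vm_lip: on a closed simplex from Jv_lip, cut_lip (‖|a⟩⟨a| - |b⟩⟨b|‖ ≤ 2‖a-b‖ for unit vectors); for y ∈ sx t,
  y' ∈ sx t': if d1 y y' < 2 use exists_between (z ∈ sx (t ∩ t'), t ∩ t' ∈ K); if d1 y y' ≥ 2 use boundedness.
* vm_orth: ⟨vm a y, vm b y⟩ = Σ_c Φ_{ac} Φ_{bc} Σ_i conj(τ t (ac) i k) τ t (bc) i k', k = π a c i₀, k' = π b c i₀.  If the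
  c-term is nonzero then a c = b c (phi_card: same cardinality), h = a⁻¹ b fixes c, k' = π a c (π h c i₀) (pimul), and the
  inner sum is δ_{k k'} (columns of a unitary matrix), zero if a ≠ b as π h c i₀ ≠ i₀ (free).
* vm_norm: ‖vm a y‖² = Σ_{c ∈ 𝒮} Φ_{ac}(y)² ≤ 1, = 1 if every s with Φ_s(y) ≠ 0 is of the form a • c, c ∈ 𝒮 (phi_sum).
-/

namespace Pool.HQ

open scoped Pointwise Matrix InnerProductSpace

/-- rank one operator w ↦ ⟪a,w⟫ a -/
noncomputable def rk1 {ℋ : Type} [NormedAddCommGroup ℋ] [InnerProductSpace ℂ ℋ] (a : ℋ) : ℋ →L[ℂ] ℋ :=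
  (innerSL ℂ a).smulRight a

/-- the projection, in the coordinates t -/
noncomputable def Pm {V ι : Type} [Fintype ι] (ε : ℝ)
    (τ : Finset V → Finset V → (V →₀ ℝ) → Matrix ι ι ℂ) (Sc : Finset (Finset V)) (t : Finset V)
    (y : V →₀ ℝ) : L2 (Om V ι) →L[ℂ] L2 (Om V ι) :=
  ∑ i : ι, ∑ c ∈ Sc, rk1 (Jv ε τ t y i c)

/-- the near coordinates, in the coordinates t -/
noncomputable def vm {G V ι : Type} [Group G] [MulAction G V] [DecidableEq V] [Fintype ι] (ε : ℝ)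
    (π : G → Finset V → Equiv.Perm ι) (τ : Finset V → Finset V → (V →₀ ℝ) → Matrix ι ι ℂ)
    (Sc : Finset (Finset V)) (i₀ : ι) (t : Finset V) (a : G) (y : V →₀ ℝ) : L2 (Om V ι) :=
  ∑ c ∈ Sc, ∑ i : ι, (((phi ε (a • c) y : ℝ) : ℂ) * τ t (a • c) (rho ε y) i (π a c i₀)) •
    Jv ε τ t y i c

section rk

variable {ℋ : Type} [NormedAddCommGroup ℋ] [InnerProductSpace ℂ ℋ]

lemma rk1_apply (a w : ℋ) : rk1 a w = ⟪a, w⟫_ℂ • a := by
  simp [rk1]

lemma rk1_norm_le {a : ℋ} (ha : ‖a‖ ≤ 1) : ‖rk1 a‖ ≤ 1 := by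
  refine ContinuousLinearMap.opNorm_le_bound _ zero_le_one fun w => ?_
  rw [rk1_apply, norm_smul, one_mul]
  have h1 : ‖⟪a, w⟫_ℂ‖ ≤ ‖a‖ * ‖w‖ := norm_inner_le_norm a w
  have h2 : ‖⟪a, w⟫_ℂ‖ ≤ ‖w‖ := by nlinarith [norm_nonneg w, norm_nonneg a]
  nlinarith [norm_nonneg w, norm_nonneg a, norm_nonneg ⟪a, w⟫_ℂ]

lemma rk1_sub_norm_le {a b : ℋ} (ha : ‖a‖ ≤ 1) (hb : ‖b‖ ≤ 1) :
    ‖rk1 a - rk1 b‖ ≤ 2 * ‖a - b‖ := by
  refine ContinuousLinearMap.opNorm_le_bound _ (by positivity) fun w => ?_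
  rw [ContinuousLinearMap.sub_apply, rk1_apply, rk1_apply]
  have e1 : ⟪a, w⟫_ℂ • a - ⟪b, w⟫_ℂ • b = ⟪a - b, w⟫_ℂ • a + ⟪b, w⟫_ℂ • (a - b) := by
    rw [inner_sub_left, sub_smul, smul_sub]
    abel
  rw [e1]
  refine (norm_add_le _ _).trans ?_
  rw [norm_smul, norm_smul]
  have h1 : ‖⟪a - b, w⟫_ℂ‖ ≤ ‖a - b‖ * ‖w‖ := norm_inner_le_norm _ w
  have h2 : ‖⟪b, w⟫_ℂ‖ ≤ ‖b‖ * ‖w‖ := norm_inner_le_norm b w
  have h3 : ‖⟪a - b, w⟫_ℂ‖ * ‖a‖ ≤ (‖a - b‖ * ‖w‖) * 1 :=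
    mul_le_mul h1 ha (norm_nonneg _) (by positivity)
  have h4 : ‖⟪b, w⟫_ℂ‖ ≤ 1 * ‖w‖ := h2.trans (mul_le_mul_of_nonneg_right hb (norm_nonneg _))
  have h5 : ‖⟪b, w⟫_ℂ‖ * ‖a - b‖ ≤ (1 * ‖w‖) * ‖a - b‖ :=
    mul_le_mul_of_nonneg_right h4 (norm_nonneg _)
  linarith

/-- a unitary change of coordinates does not change the sum of the rank one operators -/
lemma rk1_sum_unitary {ι : Type} [Fintype ι] [DecidableEq ι] {U : Matrix ι ι ℂ}
    (hU : Uᴴ * U = 1) (v : ι → ℋ) :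
    ∑ i, rk1 (∑ j, star (U i j) • v j) = ∑ j, rk1 (v j) := by
  refine ContinuousLinearMap.ext fun w => ?_
  rw [_root_.sum_apply, _root_.sum_apply]
  simp only [rk1_apply]
  have h1 : ∀ i, ⟪∑ j, star (U i j) • v j, w⟫_ℂ • ∑ k, star (U i k) • v k =
      ∑ k, ∑ j, (star (U i k) * U i j) • (⟪v j, w⟫_ℂ • v k) := by
    intro i
    rw [sum_inner, Finset.smul_sum]
    refine Finset.sum_congr rfl fun k _ => ?_
    rw [Finset.sum_smul]
    refine Finset.sum_congr rfl fun j _ => ?_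
    rw [inner_smul_left, smul_smul, smul_smul]
    congr 1
    simp only [RCLike.star_def, Complex.conj_conj]
    ring
  simp only [h1]
  rw [Finset.sum_comm]
  refine Finset.sum_congr rfl fun k _ => ?_
  rw [Finset.sum_comm]
  have h2 : ∀ j, ∑ i, (star (U i k) * U i j) • (⟪v j, w⟫_ℂ • v k) =
      (if k = j then (1 : ℂ) else 0) • (⟪v j, w⟫_ℂ • v k) := by
    intro j
    rw [← Finset.sum_smul]
    congr 1
    have h3 := congrFun (congrFun hU k) j
    rw [Matrix.mul_apply, Matrix.one_apply] at h3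
    rw [← h3]
    rfl
  simp only [h2]
  rw [Finset.sum_eq_single k]
  · rw [if_pos rfl, one_smul]
  · intro j _ hj
    rw [if_neg (fun h => hj h.symm), zero_smul]
  · intro h
    exact absurd (Finset.mem_univ _) h

/-- gluing of Lipschitz estimates -/
lemma lip_glue {V E : Type} [DecidableEq V] [SeminormedAddCommGroup E] {G : Type} [Group G]
    [MulAction G V] {K : Set (Finset V)}
    (hK : Cx G V K) (F : Finset V → (V →₀ ℝ) → E) {C B : ℝ} (hC : 0 ≤ C) (hB0 : 0 ≤ B)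
    (hl : ∀ t ∈ K, ∀ y ∈ sx t, ∀ y' ∈ sx t, ‖F t y - F t y'‖ ≤ C * d1 y y')
    (hb : ∀ t ∈ K, ∀ y ∈ sx t, ‖F t y‖ ≤ B)
    (he : ∀ t ∈ K, ∀ t' ∈ K, t ⊆ t' → ∀ y ∈ sx t, F t' y = F t y)
    {t t' : Finset V} (ht : t ∈ K) (ht' : t' ∈ K) {y y' : V →₀ ℝ} (hy : y ∈ sx t)
    (hy' : y' ∈ sx t') : ‖F t y - F t' y'‖ ≤ (2 * C + B) * d1 y y' := by
  have hd := d1_nonneg y y'
  by_cases h2 : d1 y y' < 2
  · obtain ⟨z, hz, hz1, hz2⟩ := exists_between hy hy' h2
    have hne : (t ∩ t').Nonempty := (sx_support_nonempty hz).mono hz.2.1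
    have hi : t ∩ t' ∈ K := hK.down t ht _ Finset.inter_subset_left hne
    have hzt : z ∈ sx t := sx_mono Finset.inter_subset_left hz
    have hzt' : z ∈ sx t' := sx_mono Finset.inter_subset_right hz
    have e1 : F t z = F t' z := by
      rw [he _ hi _ ht Finset.inter_subset_left z hz, he _ hi _ ht' Finset.inter_subset_right z hz]
    have e2 : F t y - F t' y' = (F t y - F t z) + (F t' z - F t' y') := by
      rw [e1]
      abel
    rw [e2]
    refine (norm_add_le _ _).trans ?_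
    have h3 := hl t ht y hy z hzt
    have h4 := hl t' ht' z hzt' y' hy'
    have h5 : C * d1 y z ≤ C * d1 y y' := mul_le_mul_of_nonneg_left hz1 hC
    have h6 : C * d1 z y' ≤ C * d1 y y' := mul_le_mul_of_nonneg_left hz2 hC
    have h7 : 0 ≤ B * d1 y y' := mul_nonneg hB0 hd
    linarith
  · rw [not_lt] at h2
    refine (norm_sub_le _ _).trans ?_
    have h3 := hb t ht y hy
    have h4 := hb t' ht' y' hy'
    have h5 : B * 2 ≤ B * d1 y y' := mul_le_mul_of_nonneg_left h2 hB0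
    have h6 : 0 ≤ C * d1 y y' := mul_nonneg hC hd
    linarith

end rk

section

variable {G V ι : Type} [Group G] [MulAction G V] [DecidableEq V] {K : Set (Finset V)} {e : ℕ}
  [Fintype ι] [DecidableEq ι] {π : G → Finset V → Equiv.Perm ι}
  {τ : Finset V → Finset V → (V →₀ ℝ) → Matrix ι ι ℂ}

/-- facts where the cut-off function does not vanish -/
lemma phi_facts (hK : Cx G V K) (he : 1 ≤ e) (hKe : ∀ t ∈ K, t.card ≤ e) {t : Finset V}
    (ht : t ∈ K) {y : V →₀ ℝ} (hy : y ∈ sx t) {s : Finset V} (hs : phi (eps e) s y ≠ 0) :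
    s.Nonempty ∧ s ⊆ t ∧ s ∈ K ∧ rho (eps e) y ∈ sx s := by
  obtain ⟨h1, h2, h3⟩ := phi_ne he (hKe t ht) hy hs
  have h4 : s ⊆ t := h2.trans hy.2.1
  exact ⟨h1, h4, hK.down t ht s h4 h1, rho_mem he (hKe t ht) hy h3⟩

lemma Jv_norm (hK : Cx G V K) (he : 1 ≤ e) (hB : CB K e ι π τ) (hKe : ∀ t ∈ K, t.card ≤ e)
    {t : Finset V} (ht : t ∈ K) {y : V →₀ ℝ} (hy : y ∈ sx t) (i : ι) (c : Finset V) :
    ‖Jv (eps e) τ t y i c‖ = 1 := by
  have h := inner_self_eq_norm_sq (𝕜 := ℂ) (Jv (eps e) τ t y i c)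
  rw [Jv_orth hK he hB hKe ht hy i i c c, if_pos ⟨rfl, rfl⟩, RCLike.one_re] at h
  have h2 : ‖Jv (eps e) τ t y i c‖ ^ 2 = 1 := h.symm
  have h3 : 0 ≤ ‖Jv (eps e) τ t y i c‖ := norm_nonneg _
  nlinarith

lemma Pm_apply (Sc : Finset (Finset V)) (t : Finset V) (y : V →₀ ℝ) (w : L2 (Om V ι)) :
    Pm (eps e) τ Sc t y w = ∑ i : ι, ∑ c ∈ Sc,
      ⟪Jv (eps e) τ t y i c, w⟫_ℂ • Jv (eps e) τ t y i c := by
  unfold Pm
  rw [_root_.sum_apply]
  refine Finset.sum_congr rfl fun i _ => ?_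
  rw [_root_.sum_apply]
  refine Finset.sum_congr rfl fun c _ => ?_
  rw [rk1_apply]

lemma Pm_comm (ε : ℝ) (Sc : Finset (Finset V)) (t : Finset V) (y : V →₀ ℝ) :
    Pm ε τ Sc t y = ∑ c ∈ Sc, ∑ i : ι, rk1 (Jv ε τ t y i c) := by
  unfold Pm
  rw [Finset.sum_comm]

/-- unitarity in coordinates -/
lemma col_orth (hB : CB K e ι π τ) (hKe : ∀ t ∈ K, t.card ≤ e) {t : Finset V} (ht : t ∈ K)
    {s : Finset V} (hst : s ⊆ t) (hs : s.Nonempty) {x : V →₀ ℝ} (hx : x ∈ sx s) (k k' : ι) :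
    ∑ i, star (τ t s x i k) * τ t s x i k' = if k = k' then 1 else 0 := by
  have h3 := congrFun (congrFun (hB.uni t ht (hKe t ht) s hst hs x hx) k) k'
  rw [Matrix.mul_apply, Matrix.one_apply] at h3
  rw [← h3]
  rfl

lemma cut_le_one (hK : Cx G V K) (he : 1 ≤ e) (hB : CB K e ι π τ) (hKe : ∀ t ∈ K, t.card ≤ e)
    {t : Finset V} (ht : t ∈ K) {y : V →₀ ℝ} (hy : y ∈ sx t) (s : Finset V) (i j : ι) :
    ‖((phi (eps e) s y : ℝ) : ℂ) * τ t s (rho (eps e) y) i j‖ ≤ 1 := by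
  by_cases h : phi (eps e) s y = 0
  · rw [h]
    simp
  · obtain ⟨h1, h2, h3, h4⟩ := phi_facts hK he hKe ht hy h
    rw [norm_mul]
    have h5 : ‖((phi (eps e) s y : ℝ) : ℂ)‖ ≤ 1 := by
      rw [Complex.norm_real, Real.norm_eq_abs, abs_of_nonneg (phi_nonneg _ _ _)]
      exact phi_le_one _ _ _
    have h6 : ‖τ t s (rho (eps e) y) i j‖ ≤ 1 :=
      entry_le_one (hB.uni t ht (hKe t ht) s h2 h1 _ h4) i j
    exact mul_le_one₀ h5 (norm_nonneg _) h6

/-- inner products of linear combinations of the vectors Jv -/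
lemma comb_inner (hK : Cx G V K) (he : 1 ≤ e) (hB : CB K e ι π τ) (hKe : ∀ t ∈ K, t.card ≤ e)
    (Sc : Finset (Finset V)) {t : Finset V} (ht : t ∈ K) {y : V →₀ ℝ} (hy : y ∈ sx t)
    (f f' : Finset V → ι → ℂ) :
    ⟪∑ c ∈ Sc, ∑ i : ι, f c i • Jv (eps e) τ t y i c,
      ∑ c ∈ Sc, ∑ i : ι, f' c i • Jv (eps e) τ t y i c⟫_ℂ =
      ∑ c ∈ Sc, ∑ i : ι, star (f c i) * f' c i := by
  rw [sum_inner]
  refine Finset.sum_congr rfl fun c hc => ?_
  rw [sum_inner]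
  refine Finset.sum_congr rfl fun i _ => ?_
  rw [inner_sum, Finset.sum_eq_single c]
  · rw [inner_sum, Finset.sum_eq_single i]
    · rw [inner_smul_left, inner_smul_right, Jv_orth hK he hB hKe ht hy, if_pos ⟨rfl, rfl⟩, mul_one]
      rfl
    · intro i' _ hi'
      rw [inner_smul_left, inner_smul_right, Jv_orth hK he hB hKe ht hy,
        if_neg (fun h => hi' h.1.symm), mul_zero, mul_zero]
    · intro h
      exact absurd (Finset.mem_univ _) h
  · intro c' _ hc'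
    rw [inner_sum]
    refine Finset.sum_eq_zero fun i' _ => ?_
    rw [inner_smul_left, inner_smul_right, Jv_orth hK he hB hKe ht hy,
      if_neg (fun h => hc' h.2.symm), mul_zero, mul_zero]
  · intro h
    exact absurd hc h

theorem Pm_eq (hK : Cx G V K) (he : 1 ≤ e) (hB : CB K e ι π τ) (hKe : ∀ t ∈ K, t.card ≤ e)
    (Sc : Finset (Finset V)) {t t' : Finset V} (ht' : t' ∈ K) (htt : t ⊆ t') {y : V →₀ ℝ}
    (hy : y ∈ sx t) : Pm (eps e) τ Sc t' y = Pm (eps e) τ Sc t y := by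
  by_cases hne : t.Nonempty
  · have hr : rho (eps e) y ∈ sx t :=
      rho_mem_self he ((Finset.card_le_card htt).trans (hKe t' ht')) hy
    have hU := hB.uni t' ht' (hKe t' ht') t htt hne _ hr
    rw [Pm_comm, Pm_comm]
    refine Finset.sum_congr rfl fun c _ => ?_
    rw [← rk1_sum_unitary hU (fun j => Jv (eps e) τ t y j c)]
    refine Finset.sum_congr rfl fun i _ => ?_
    rw [Jv_change hK he hB hKe ht' htt hy]
  · exact absurd ((sx_support_nonempty hy).mono hy.2.1) hne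

theorem Pm_lip (hK : Cx G V K) (he : 1 ≤ e) (hB : CB K e ι π τ) (hKe : ∀ t ∈ K, t.card ≤ e)
    (Sc : Finset (Finset V)) : ∃ C : ℝ, 0 ≤ C ∧ ∀ t ∈ K, ∀ t' ∈ K, ∀ y ∈ sx t, ∀ y' ∈ sx t',
      ‖Pm (eps e) τ Sc t y - Pm (eps e) τ Sc t' y'‖ ≤ C * d1 y y' := by
  obtain ⟨C, hC, hJ⟩ := Jv_lip hK he hB hKe
  have hcard : (0 : ℝ) ≤ (Fintype.card ι : ℝ) * (Sc.card : ℝ) := by positivity
  refine ⟨2 * ((Fintype.card ι : ℝ) * (Sc.card : ℝ) * (2 * C)) +
    (Fintype.card ι : ℝ) * (Sc.card : ℝ), by positivity, ?_⟩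
  intro t ht t' ht' y hy y' hy'
  refine lip_glue hK (fun t y => Pm (eps e) τ Sc t y) (by positivity) hcard ?_ ?_ ?_ ht ht' hy hy'
  · intro t ht y hy y' hy'
    show ‖Pm (eps e) τ Sc t y - Pm (eps e) τ Sc t y'‖ ≤ _
    unfold Pm
    rw [← Finset.sum_sub_distrib]
    refine (norm_sum_le _ _).trans ?_
    have h1 : ∀ i ∈ (Finset.univ : Finset ι), ‖∑ c ∈ Sc, rk1 (Jv (eps e) τ t y i c) -
        ∑ c ∈ Sc, rk1 (Jv (eps e) τ t y' i c)‖ ≤ (Sc.card : ℝ) * (2 * C * d1 y y') := by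
      intro i _
      rw [← Finset.sum_sub_distrib]
      refine (norm_sum_le _ _).trans ?_
      refine (Finset.sum_le_card_nsmul _ _ (2 * C * d1 y y') fun c _ => ?_).trans
        (le_of_eq (by rw [nsmul_eq_mul]))
      have h2 := rk1_sub_norm_le (Jv_norm hK he hB hKe ht hy i c).le
        (Jv_norm hK he hB hKe ht hy' i c).le
      have h3 := hJ t ht y hy y' hy' i c
      linarith
    refine (Finset.sum_le_card_nsmul _ _ _ h1).trans (le_of_eq ?_)
    rw [nsmul_eq_mul, Finset.card_univ]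
    ring
  · intro t ht y hy
    show ‖Pm (eps e) τ Sc t y‖ ≤ _
    unfold Pm
    refine (norm_sum_le _ _).trans ?_
    have h1 : ∀ i ∈ (Finset.univ : Finset ι), ‖∑ c ∈ Sc, rk1 (Jv (eps e) τ t y i c)‖ ≤
        (Sc.card : ℝ) := by
      intro i _
      refine (norm_sum_le _ _).trans ?_
      refine (Finset.sum_le_card_nsmul _ _ (1 : ℝ) fun c _ => ?_).trans
        (le_of_eq (by rw [nsmul_eq_mul, mul_one]))
      exact rk1_norm_le (Jv_norm hK he hB hKe ht hy i c).le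
    refine (Finset.sum_le_card_nsmul _ _ _ h1).trans (le_of_eq ?_)
    rw [nsmul_eq_mul, Finset.card_univ]
  · intro t _ t' ht' htt y hy
    exact Pm_eq hK he hB hKe Sc ht' htt hy

theorem Pm_equiv (hK : Cx G V K) (he : 1 ≤ e) (hB : CB K e ι π τ) (hKe : ∀ t ∈ K, t.card ≤ e)
    (W : Equiv.Perm (Om V ι) → (L2 (Om V ι) ≃ₗᵢ[ℂ] L2 (Om V ι))) (hW : ∀ σ ω, W σ (eb ω) = eb (σ ω))
    (A : G → Equiv.Perm (Om V ι))
    (hA : ∀ g s i c, A g (Sum.inl ((s, i), c)) = Sum.inl ((g • s, π g s i), c)) (g : G)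
    (Sc : Finset (Finset V)) {t : Finset V} (ht : t ∈ K) {y : V →₀ ℝ} (hy : y ∈ sx t)
    (w : L2 (Om V ι)) :
    Pm (eps e) τ Sc (g • t) (pact g y) (W (A g) w) = W (A g) (Pm (eps e) τ Sc t y w) := by
  rw [Pm_apply, Pm_apply, map_sum, ← Equiv.sum_comp (π g t)]
  refine Finset.sum_congr rfl fun i _ => ?_
  rw [map_sum]
  refine Finset.sum_congr rfl fun c _ => ?_
  rw [← Jv_equiv hK he hB hKe W hW A hA g ht hy i c, map_smul, LinearIsometryEquiv.inner_map_map]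

theorem vm_eq (hK : Cx G V K) (he : 1 ≤ e) (hB : CB K e ι π τ) (hKe : ∀ t ∈ K, t.card ≤ e)
    (Sc : Finset (Finset V)) (hSc : ∀ c ∈ Sc, c ∈ K) (i₀ : ι) {t t' : Finset V} (ht' : t' ∈ K)
    (htt : t ⊆ t') {y : V →₀ ℝ} (hy : y ∈ sx t) (a : G) :
    vm (eps e) π τ Sc i₀ t' a y = vm (eps e) π τ Sc i₀ t a y := by
  have hne : t.Nonempty := (sx_support_nonempty hy).mono hy.2.1
  have ht : t ∈ K := hK.down t' ht' t htt hne
  have hr : rho (eps e) y ∈ sx t :=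
    rho_mem_self he ((Finset.card_le_card htt).trans (hKe t' ht')) hy
  have hU := hB.uni t' ht' (hKe t' ht') t htt hne _ hr
  unfold vm
  refine Finset.sum_congr rfl fun c _ => ?_
  by_cases h : phi (eps e) (a • c) y = 0
  · simp only [h, Complex.ofReal_zero, zero_mul, zero_smul, Finset.sum_const_zero]
  · obtain ⟨h1, h2, h3, h4⟩ := phi_facts hK he hKe ht hy h
    have hcoc := hB.coc t' ht' (hKe t' ht') t htt (a • c) h2 h1 _ h4
    have e1 : ∀ i : ι, (((phi (eps e) (a • c) y : ℝ) : ℂ) *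
        τ t' (a • c) (rho (eps e) y) i (π a c i₀)) • Jv (eps e) τ t' y i c =
        ∑ j, ((phi (eps e) (a • c) y : ℝ) : ℂ) • ((star (τ t' t (rho (eps e) y) i j) *
          τ t' (a • c) (rho (eps e) y) i (π a c i₀)) • Jv (eps e) τ t y j c) := by
      intro i
      rw [Jv_change hK he hB hKe ht' htt hy, Finset.smul_sum]
      refine Finset.sum_congr rfl fun j _ => ?_
      rw [smul_smul, smul_smul]
      congr 1
      ring
    rw [Finset.sum_congr rfl fun i _ => e1 i, Finset.sum_comm]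
    refine Finset.sum_congr rfl fun j _ => ?_
    rw [← Finset.smul_sum, ← Finset.sum_smul, smul_smul]
    congr 2
    have e2 : τ t (a • c) (rho (eps e) y) =
        (τ t' t (rho (eps e) y))ᴴ * τ t' (a • c) (rho (eps e) y) := by
      rw [← hcoc, ← Matrix.mul_assoc, hU, Matrix.one_mul]
    rw [e2, Matrix.mul_apply]
    rfl

theorem vm_lip (hK : Cx G V K) (he : 1 ≤ e) (hB : CB K e ι π τ) (hKe : ∀ t ∈ K, t.card ≤ e)
    (Sc : Finset (Finset V)) (hSc : ∀ c ∈ Sc, c ∈ K) (i₀ : ι) : ∃ C : ℝ, 0 ≤ C ∧ ∀ a : G,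
      ∀ t ∈ K, ∀ t' ∈ K, ∀ y ∈ sx t, ∀ y' ∈ sx t',
      ‖vm (eps e) π τ Sc i₀ t a y - vm (eps e) π τ Sc i₀ t' a y'‖ ≤ C * d1 y y' := by
  obtain ⟨C, hC, hJ⟩ := Jv_lip hK he hB hKe
  obtain ⟨D, hD, hcut⟩ := cut_lip hK he hB hKe
  have hcard : (0 : ℝ) ≤ (Sc.card : ℝ) * (Fintype.card ι : ℝ) := by positivity
  refine ⟨2 * ((Sc.card : ℝ) * (Fintype.card ι : ℝ) * (D + C)) +
    (Sc.card : ℝ) * (Fintype.card ι : ℝ), by positivity, ?_⟩
  intro a t ht t' ht' y hy y' hy'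
  refine lip_glue hK (fun t y => vm (eps e) π τ Sc i₀ t a y) (by positivity) hcard ?_ ?_ ?_
    ht ht' hy hy'
  · intro t ht y hy y' hy'
    show ‖vm (eps e) π τ Sc i₀ t a y - vm (eps e) π τ Sc i₀ t a y'‖ ≤ _
    unfold vm
    rw [← Finset.sum_sub_distrib]
    refine (norm_sum_le _ _).trans ?_
    have h1 : ∀ c ∈ Sc, ‖∑ i : ι, (((phi (eps e) (a • c) y : ℝ) : ℂ) *
        τ t (a • c) (rho (eps e) y) i (π a c i₀)) • Jv (eps e) τ t y i c -
        ∑ i : ι, (((phi (eps e) (a • c) y' : ℝ) : ℂ) *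
        τ t (a • c) (rho (eps e) y') i (π a c i₀)) • Jv (eps e) τ t y' i c‖ ≤
        (Fintype.card ι : ℝ) * ((D + C) * d1 y y') := by
      intro c _
      rw [← Finset.sum_sub_distrib]
      refine (norm_sum_le _ _).trans ?_
      refine (Finset.sum_le_card_nsmul _ _ ((D + C) * d1 y y') fun i _ => ?_).trans
        (le_of_eq (by rw [nsmul_eq_mul, Finset.card_univ]))
      have hα : ‖((phi (eps e) (a • c) y : ℝ) : ℂ) * τ t (a • c) (rho (eps e) y) i (π a c i₀) -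
          ((phi (eps e) (a • c) y' : ℝ) : ℂ) * τ t (a • c) (rho (eps e) y') i (π a c i₀)‖ ≤
          D * d1 y y' := by
        by_cases hsub : a • c ⊆ t
        · exact hcut t ht (a • c) hsub y hy y' hy' i (π a c i₀)
        · have z1 : phi (eps e) (a • c) y = 0 := by
            by_contra h
            exact hsub (phi_facts hK he hKe ht hy h).2.1
          have z2 : phi (eps e) (a • c) y' = 0 := by
            by_contra h
            exact hsub (phi_facts hK he hKe ht hy' h).2.1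
          rw [z1, z2]
          simp only [Complex.ofReal_zero, zero_mul, sub_self, norm_zero]
          exact mul_nonneg hD (d1_nonneg _ _)
      have hβ := hJ t ht y hy y' hy' i c
      have hγ := cut_le_one hK he hB hKe ht hy' (a • c) i (π a c i₀)
      have hδ := (Jv_norm hK he hB hKe ht hy i c).le
      generalize ((phi (eps e) (a • c) y : ℝ) : ℂ) *
        τ t (a • c) (rho (eps e) y) i (π a c i₀) = p at *
      generalize ((phi (eps e) (a • c) y' : ℝ) : ℂ) *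
        τ t (a • c) (rho (eps e) y') i (π a c i₀) = q at *
      generalize Jv (eps e) τ t y i c = u at *
      generalize Jv (eps e) τ t y' i c = w at *
      have e1 : p • u - q • w = (p - q) • u + q • (u - w) := by
        rw [sub_smul, smul_sub]
        abel
      rw [e1]
      refine (norm_add_le _ _).trans ?_
      rw [norm_smul, norm_smul]
      have h3 : ‖p - q‖ * ‖u‖ ≤ (D * d1 y y') * 1 :=
        mul_le_mul hα hδ (norm_nonneg _) (mul_nonneg hD (d1_nonneg _ _))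
      have h4 : ‖q‖ * ‖u - w‖ ≤ 1 * (C * d1 y y') :=
        mul_le_mul hγ hβ (norm_nonneg _) zero_le_one
      linarith
    refine (Finset.sum_le_card_nsmul _ _ _ h1).trans (le_of_eq ?_)
    rw [nsmul_eq_mul]
    ring
  · intro t ht y hy
    show ‖vm (eps e) π τ Sc i₀ t a y‖ ≤ _
    unfold vm
    refine (norm_sum_le _ _).trans ?_
    have h1 : ∀ c ∈ Sc, ‖∑ i : ι, (((phi (eps e) (a • c) y : ℝ) : ℂ) *
        τ t (a • c) (rho (eps e) y) i (π a c i₀)) • Jv (eps e) τ t y i c‖ ≤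
        (Fintype.card ι : ℝ) := by
      intro c _
      refine (norm_sum_le _ _).trans ?_
      refine (Finset.sum_le_card_nsmul _ _ (1 : ℝ) fun i _ => ?_).trans
        (le_of_eq (by rw [nsmul_eq_mul, mul_one, Finset.card_univ]))
      rw [norm_smul, Jv_norm hK he hB hKe ht hy i c, mul_one]
      exact cut_le_one hK he hB hKe ht hy (a • c) i (π a c i₀)
    refine (Finset.sum_le_card_nsmul _ _ _ h1).trans (le_of_eq ?_)
    rw [nsmul_eq_mul]
  · intro t _ t' ht' htt y hy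
    exact vm_eq hK he hB hKe Sc hSc i₀ ht' htt hy a

theorem vm_equiv (hK : Cx G V K) (he : 1 ≤ e) (hB : CB K e ι π τ) (hKe : ∀ t ∈ K, t.card ≤ e)
    (W : Equiv.Perm (Om V ι) → (L2 (Om V ι) ≃ₗᵢ[ℂ] L2 (Om V ι))) (hW : ∀ σ ω, W σ (eb ω) = eb (σ ω))
    (A : G → Equiv.Perm (Om V ι))
    (hA : ∀ g s i c, A g (Sum.inl ((s, i), c)) = Sum.inl ((g • s, π g s i), c)) (g a : G)
    (Sc : Finset (Finset V)) (hSc : ∀ c ∈ Sc, c ∈ K) (i₀ : ι) {t : Finset V} (ht : t ∈ K)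
    {y : V →₀ ℝ} (hy : y ∈ sx t) :
    vm (eps e) π τ Sc i₀ (g • t) (g * a) (pact g y) = W (A g) (vm (eps e) π τ Sc i₀ t a y) := by
  unfold vm
  rw [map_sum]
  refine Finset.sum_congr rfl fun c hc => ?_
  rw [map_sum, ← Equiv.sum_comp (π g t)]
  refine Finset.sum_congr rfl fun i _ => ?_
  have e1 : (g * a) • c = g • (a • c) := mul_smul g a c
  rw [map_smul, ← Jv_equiv hK he hB hKe W hW A hA g ht hy i c, e1, phi_pact]
  congr 1
  by_cases h : phi (eps e) (a • c) y = 0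
  · rw [h]
    simp only [Complex.ofReal_zero, zero_mul]
  · obtain ⟨h1, h2, h3, h4⟩ := phi_facts hK he hKe ht hy h
    rw [rho_pact, hB.pimul, Equiv.Perm.mul_apply,
      hB.eqv g t ht (hKe t ht) (a • c) h2 h1 _ h4]

theorem vm_mem (hK : Cx G V K) (he : 1 ≤ e) (hB : CB K e ι π τ) (hKe : ∀ t ∈ K, t.card ≤ e)
    (Sc : Finset (Finset V)) (hSc : ∀ c ∈ Sc, c ∈ K) (i₀ : ι) {t : Finset V} (ht : t ∈ K)
    {y : V →₀ ℝ} (hy : y ∈ sx t) (a : G) :
    Pm (eps e) τ Sc t y (vm (eps e) π τ Sc i₀ t a y) = vm (eps e) π τ Sc i₀ t a y := by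
  have hJ : ∀ i : ι, ∀ c ∈ Sc, Pm (eps e) τ Sc t y (Jv (eps e) τ t y i c) =
      Jv (eps e) τ t y i c := by
    intro i c hc
    rw [Pm_apply, Finset.sum_eq_single i]
    · rw [Finset.sum_eq_single c]
      · rw [Jv_orth hK he hB hKe ht hy, if_pos ⟨rfl, rfl⟩, one_smul]
      · intro c' _ hc'
        rw [Jv_orth hK he hB hKe ht hy, if_neg (fun h => hc' h.2), zero_smul]
      · intro h
        exact absurd hc h
    · intro i' _ hi'
      refine Finset.sum_eq_zero fun c' _ => ?_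
      rw [Jv_orth hK he hB hKe ht hy, if_neg (fun h => hi' h.1), zero_smul]
    · intro h
      exact absurd (Finset.mem_univ _) h
  unfold vm
  rw [map_sum]
  refine Finset.sum_congr rfl fun c hc => ?_
  rw [map_sum]
  refine Finset.sum_congr rfl fun i _ => ?_
  rw [map_smul, hJ i c hc]

theorem vm_orth (hK : Cx G V K) (he : 1 ≤ e) (hB : CB K e ι π τ) (hKe : ∀ t ∈ K, t.card ≤ e)
    (Sc : Finset (Finset V)) (hSc : ∀ c ∈ Sc, c ∈ K) (i₀ : ι) {t : Finset V} (ht : t ∈ K)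
    {y : V →₀ ℝ} (hy : y ∈ sx t) {a b : G} (hab : a ≠ b) :
    ⟪vm (eps e) π τ Sc i₀ t a y, vm (eps e) π τ Sc i₀ t b y⟫_ℂ = 0 := by
  unfold vm
  rw [comb_inner hK he hB hKe Sc ht hy]
  refine Finset.sum_eq_zero fun c hc => ?_
  by_cases h : phi (eps e) (a • c) y = 0
  · simp only [h, Complex.ofReal_zero, zero_mul, star_zero, Finset.sum_const_zero]
  by_cases h' : phi (eps e) (b • c) y = 0
  · simp only [h', Complex.ofReal_zero, zero_mul, mul_zero, Finset.sum_const_zero]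
  have hcard : (a • c).card = (b • c).card := by
    rw [Finset.card_smul_finset, Finset.card_smul_finset]
  have hac : a • c = b • c := phi_card h h' hcard
  obtain ⟨h1, h2, h3, h4⟩ := phi_facts hK he hKe ht hy h
  have e1 : ∀ i : ι, star (((phi (eps e) (a • c) y : ℝ) : ℂ) *
      τ t (a • c) (rho (eps e) y) i (π a c i₀)) * (((phi (eps e) (b • c) y : ℝ) : ℂ) *
      τ t (b • c) (rho (eps e) y) i (π b c i₀)) =
      (star ((phi (eps e) (a • c) y : ℝ) : ℂ) * ((phi (eps e) (a • c) y : ℝ) : ℂ)) *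
      (star (τ t (a • c) (rho (eps e) y) i (π a c i₀)) *
        τ t (a • c) (rho (eps e) y) i (π b c i₀)) := by
    intro i
    rw [← hac, star_mul']
    ring
  rw [Finset.sum_congr rfl fun i _ => e1 i, ← Finset.mul_sum,
    col_orth hB hKe ht h2 h1 h4, if_neg, mul_zero]
  intro hk
  apply hab
  have hh : (a⁻¹ * b) • c = c := by
    rw [mul_smul, ← hac, inv_smul_smul]
  have hpi := hB.pimul a (a⁻¹ * b) c
  rw [mul_inv_cancel_left, hh] at hpi
  rw [hpi, Equiv.Perm.mul_apply] at hk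
  have hk2 : π (a⁻¹ * b) c i₀ = i₀ := ((π a c).injective hk).symm
  have h5 := hB.free (a⁻¹ * b) c (hSc c hc) (hKe c (hSc c hc)) hh i₀ hk2
  exact (inv_mul_eq_one.1 h5)

theorem vm_norm (hK : Cx G V K) (he : 1 ≤ e) (hB : CB K e ι π τ) (hKe : ∀ t ∈ K, t.card ≤ e)
    (Sc : Finset (Finset V)) (hSc : ∀ c ∈ Sc, c ∈ K) (i₀ : ι) {t : Finset V} (ht : t ∈ K)
    {y : V →₀ ℝ} (hy : y ∈ sx t) (a : G) :
    ‖vm (eps e) π τ Sc i₀ t a y‖ ^ 2 = ∑ c ∈ Sc, phi (eps e) (a • c) y ^ 2 := by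
  have h0 : ((‖vm (eps e) π τ Sc i₀ t a y‖ ^ 2 : ℝ) : ℂ) =
      ((∑ c ∈ Sc, phi (eps e) (a • c) y ^ 2 : ℝ) : ℂ) := by
    have h1 : ⟪vm (eps e) π τ Sc i₀ t a y, vm (eps e) π τ Sc i₀ t a y⟫_ℂ =
        ((∑ c ∈ Sc, phi (eps e) (a • c) y ^ 2 : ℝ) : ℂ) := by
      unfold vm
      rw [comb_inner hK he hB hKe Sc ht hy, Complex.ofReal_sum]
      refine Finset.sum_congr rfl fun c hc => ?_
      by_cases h : phi (eps e) (a • c) y = 0
      · simp [h]
      · obtain ⟨h1, h2, h3, h4⟩ := phi_facts hK he hKe ht hy h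
        have e1 : ∀ i : ι, star (((phi (eps e) (a • c) y : ℝ) : ℂ) *
            τ t (a • c) (rho (eps e) y) i (π a c i₀)) * (((phi (eps e) (a • c) y : ℝ) : ℂ) *
            τ t (a • c) (rho (eps e) y) i (π a c i₀)) =
            (star ((phi (eps e) (a • c) y : ℝ) : ℂ) * ((phi (eps e) (a • c) y : ℝ) : ℂ)) *
            (star (τ t (a • c) (rho (eps e) y) i (π a c i₀)) *
              τ t (a • c) (rho (eps e) y) i (π a c i₀)) := by
          intro i
          rw [star_mul']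
          ring
        rw [Finset.sum_congr rfl fun i _ => e1 i, ← Finset.mul_sum,
          col_orth hB hKe ht h2 h1 h4, if_pos rfl, mul_one, Complex.star_def, Complex.conj_ofReal]
        push_cast
        ring
    rw [← h1, inner_self_eq_norm_sq_to_K]
    push_cast
    rfl
  exact_mod_cast h0

/-- the vectors Jv form a basis of the range of Pm -/
theorem Pm_basis (hK : Cx G V K) (he : 1 ≤ e) (hB : CB K e ι π τ) (hKe : ∀ t ∈ K, t.card ≤ e)
    (Sc : Finset (Finset V)) {t : Finset V} (ht : t ∈ K) {y : V →₀ ℝ} (hy : y ∈ sx t) :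
    ∃ b : Fin (Fintype.card ι * Sc.card) → L2 (Om V ι), Orthonormal ℂ b ∧
      ∀ w, Pm (eps e) τ Sc t y w = ∑ i, ⟪b i, w⟫_ℂ • b i := by
  have hc : Fintype.card (ι × Sc) = Fintype.card ι * Sc.card := by
    rw [Fintype.card_prod, Fintype.card_coe]
  let f : ι × Sc ≃ Fin (Fintype.card ι * Sc.card) := Fintype.equivFinOfCardEq hc
  refine ⟨fun k => Jv (eps e) τ t y (f.symm k).1 (f.symm k).2, ?_, fun w => ?_⟩
  · classical
    rw [orthonormal_iff_ite]
    intro k k'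
    rw [Jv_orth hK he hB hKe ht hy]
    by_cases hk : k = k'
    · subst hk
      rw [if_pos ⟨rfl, rfl⟩, if_pos rfl]
    · rw [if_neg hk, if_neg]
      intro h
      apply hk
      apply f.symm.injective
      exact Prod.ext h.1 (Subtype.ext h.2)
  · rw [Pm_apply]
    have h1 : ∀ i : ι, ∑ c ∈ Sc, ⟪Jv (eps e) τ t y i c, w⟫_ℂ • Jv (eps e) τ t y i c =
        ∑ c : Sc, ⟪Jv (eps e) τ t y i c, w⟫_ℂ • Jv (eps e) τ t y i c := by
      intro i
      rw [← Finset.sum_coe_sort Sc (fun c => ⟪Jv (eps e) τ t y i c, w⟫_ℂ • Jv (eps e) τ t y i c)]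
    rw [Finset.sum_congr rfl fun i _ => h1 i, ← Fintype.sum_prod_type',
      ← Equiv.sum_comp f.symm]

end

end Pool.HQ
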