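import Pool.Agent.HQ.E31
import Pool.Agent.HQ.E34
import Pool.Agent.HQ.E21

/-!
MP_7936f4_al, THEOREM E, module E35: existence of the Hilbert bundle with near coordinates.

Proof of exists_GB.  K = RC d D (rc_cx), e ≥ 1 a bound for the cardinalities of the simplices (Cx.orb: finitely many
orbits, |g • t| = |t|).  exists_cb with k = e gives ι, π, τ; i₀ ∈ ι.  𝒮 = {c ∈ K : ∀ σ ∈ c, ∀ b ∈ σ, d 1 b ≤ r + D}, a finite
set (subsets of the powerset of a finite ball).  V = Finset G, Ω = Om V ι, W from exists_perm_rep, A from exists_actOm,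
U g = W (A g), P x = Pm (eps e) τ 𝒮 (supp (beta x)) (beta x), v a x = vm (eps e) π τ 𝒮 i₀ (supp (beta x)) a (beta x),
q n = eb (Sum.inr n), n = |ι| |𝒮|, R = r + D.
* Prank: Pm_basis.  Peqv: Pm_equiv, beta_pact, pact_support.  Plip: Pm_lip, beta_lip.
* qfix: A g (inr n) = inr n.  qP: ⟪Jv .., eb (inr n)⟫ = 0.  qorth: eb_orthonormal.
* vP: vm_mem.  veqv: vm_equiv.  vorth: vm_orth.  vlip: vm_lip, beta_lip.
* vnorm: vm_norm: distinct c ∈ 𝒮 give distinct a • c, so the sum is ≤ Σ_s Φ_s² = 1 (phi_sum).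
* vone: let b₀ ∈ supp x, d a b₀ ≤ r.  If Φ_s(beta x) ≠ 0 then s ⊆ supp (beta x), s ≠ ∅, every σ ∈ s is a nonempty subset of
  supp x (beta_supp), so d a b ≤ d a b₀ + d b₀ b ≤ r + D for b ∈ σ, i.e. a⁻¹ • s ∈ 𝒮 (d 1 (a⁻¹ b) = d a b), s = a • (a⁻¹ • s).
  Hence ‖v a x‖² = 1.
* vsupp: v a x ≠ 0 gives c ∈ 𝒮 with Φ_{a c}(beta x) ≠ 0 (vm_norm), a c nonempty, σ ∈ a c, b ∈ σ ⊆ supp x,
  a⁻¹ b ∈ a⁻¹ σ ∈ c, d 1 (a⁻¹ b) ≤ r + D.
-/

namespace Pool.HQ

open scoped Pointwise Matrix InnerProductSpace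

/-- the vectors of the model are orthogonal to the supply -/
theorem Jv_inr {V ι : Type} [Fintype ι] (ε : ℝ)
    (τ : Finset V → Finset V → (V →₀ ℝ) → Matrix ι ι ℂ) (t : Finset V) (y : V →₀ ℝ) (i : ι)
    (c : Finset V) (n : ℕ) :
    ⟪Jv ε τ t y i c, (eb (Sum.inr n) : L2 (Om V ι))⟫_ℂ = 0 := by
  classical
  rw [inner_eq_zero_symm]
  unfold Jv
  rw [inner_sum]
  refine Finset.sum_eq_zero fun s _ => ?_
  rw [inner_sum]
  refine Finset.sum_eq_zero fun i' _ => ?_
  rw [inner_smul_right, eb_inner, eb_apply, if_neg (by simp), mul_zero]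

theorem exists_GB {G : Type} [Group G] {d : G → G → ℕ} (hd : HypM d) (D r : ℕ) :
    ∃ (Ω : Type) (U : G → (L2 Ω ≃ₗᵢ[ℂ] L2 Ω)) (P : (G →₀ ℝ) → (L2 Ω →L[ℂ] L2 Ω))
      (v : G → (G →₀ ℝ) → L2 Ω) (q : ℕ → L2 Ω) (n R : ℕ) (L : ℝ), GB d D r U P v q n R L := by
  classical
  have hK : Cx G (Finset G) (RC d D) := rc_cx hd D
  obtain ⟨e, he, hKe⟩ : ∃ e : ℕ, 1 ≤ e ∧ ∀ t ∈ RC d D, t.card ≤ e := by
    obtain ⟨R, hR⟩ := hK.orb
    refine ⟨R.sup Finset.card + 1, by omega, fun t ht => ?_⟩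
    obtain ⟨g, hg⟩ := hR t ht
    have h1 := Finset.le_sup (f := Finset.card) hg
    rw [Finset.card_smul_finset] at h1
    omega
  obtain ⟨ι, hι1, hι2, hι3, π, τ, hB, -⟩ := exists_cb hK e
  obtain ⟨i₀⟩ := hι3
  -- the labels
  have hfin := hd.fin (r + D)
  obtain ⟨Sc, hSc⟩ : ∃ Sc : Finset (Finset (Finset G)), ∀ c, c ∈ Sc ↔
      c ∈ RC d D ∧ ∀ σ ∈ c, ∀ b ∈ σ, d 1 b ≤ r + D := by
    refine ⟨(hfin.toFinset.powerset.powerset).filter (fun c => c ∈ RC d D), fun c => ?_⟩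
    rw [Finset.mem_filter, Finset.mem_powerset]
    constructor
    · rintro ⟨h1, h2⟩
      refine ⟨h2, fun σ hσ b hb => ?_⟩
      have h3 := Finset.mem_powerset.mp (h1 hσ) hb
      rw [Set.Finite.mem_toFinset] at h3
      exact h3
    · rintro ⟨h1, h2⟩
      refine ⟨fun σ hσ => Finset.mem_powerset.mpr fun b hb => ?_, h1⟩
      rw [Set.Finite.mem_toFinset]
      exact h2 σ hσ b hb
  have hScK : ∀ c ∈ Sc, c ∈ RC d D := fun c hc => ((hSc c).mp hc).1
  obtain ⟨A, hA1, hA2, hA3⟩ := exists_actOm (G := G) (V := Finset G) π hB.pimul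
  obtain ⟨W, hW1, hW2, hW3⟩ := exists_perm_rep (Om (Finset G) ι)
  obtain ⟨CP, hCP0, hCP⟩ := Pm_lip hK he hB hKe Sc
  obtain ⟨Cv, hCv0, hCv⟩ := vm_lip hK he hB hKe Sc hScK i₀
  obtain ⟨Cb, hCb0, hCb⟩ := beta_lip hd D
  have hbm : ∀ x ∈ Loc d D, (beta x).support ∈ RC d D ∧ beta x ∈ sx (beta x).support :=
    fun x hx => beta_mem hd hx
  have hbp : ∀ (g : G) (x : G →₀ ℝ), (beta (pact g x)).support = g • (beta x).support := by
    intro g x
    rw [beta_pact, pact_support]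
  -- distances
  have hdist : ∀ a b : G, d a (a * b) = d 1 b := by
    intro a b
    have h := hd.inv a 1 b
    rw [mul_one] at h
    exact h
  -- the norms of the near coordinates
  have hnorm : ∀ x ∈ Loc d D, ∀ a : G,
      ‖vm (eps e) π τ Sc i₀ (beta x).support a (beta x)‖ ^ 2 =
        ∑ c ∈ Sc, phi (eps e) (a • c) (beta x) ^ 2 :=
    fun x hx a => vm_norm hK he hB hKe Sc hScK i₀ (hbm x hx).1 (hbm x hx).2 a
  have hsumi : ∀ x ∈ Loc d D, ∀ a : G, ∑ c ∈ Sc, phi (eps e) (a • c) (beta x) ^ 2 =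
      ∑ s ∈ Sc.image (fun c => a • c), phi (eps e) s (beta x) ^ 2 := by
    intro x hx a
    rw [Finset.sum_image]
    intro c _ c' _ h
    exact smul_left_cancel a h
  have hphis : ∀ x ∈ Loc d D, ∑ s ∈ (beta x).support.powerset, phi (eps e) s (beta x) ^ 2 = 1 :=
    fun x hx => phi_sum he (hKe _ (hbm x hx).1) (hbm x hx).2 (Finset.Subset.refl _)
  have hphin : ∀ x ∈ Loc d D, ∀ s, phi (eps e) s (beta x) ≠ 0 →
      s.Nonempty ∧ s ⊆ (beta x).support := by
    intro x hx s h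
    obtain ⟨h1, h2, -⟩ := phi_ne he (hKe _ (hbm x hx).1) (hbm x hx).2 h
    exact ⟨h1, h2⟩
  refine ⟨Om (Finset G) ι, fun g => W (A g),
    fun x => Pm (eps e) τ Sc (beta x).support (beta x),
    fun a x => vm (eps e) π τ Sc i₀ (beta x).support a (beta x),
    fun n => eb (Sum.inr n), Fintype.card ι * Sc.card, r + D, CP * Cb + Cv * Cb, ?_⟩
  have hlip : ∀ (C : ℝ), 0 ≤ C → C ≤ CP * Cb + Cv * Cb → ∀ x y : G →₀ ℝ,
      C * d1 x y ≤ (CP * Cb + Cv * Cb) * d1 x y :=
    fun C _ h x y => mul_le_mul_of_nonneg_right h (d1_nonneg x y)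
  constructor
  · intro g h w
    show W (A (g * h)) w = W (A g) (W (A h) w)
    rw [hA3, hW2]
  · intro x hx
    exact Pm_basis hK he hB hKe Sc (hbm x hx).1 (hbm x hx).2
  · intro g x hx w
    show Pm (eps e) τ Sc (beta (pact g x)).support (beta (pact g x)) (W (A g) w) =
      W (A g) (Pm (eps e) τ Sc (beta x).support (beta x) w)
    rw [hbp, beta_pact]
    exact Pm_equiv hK he hB hKe W hW1 A hA1 g Sc (hbm x hx).1 (hbm x hx).2 w
  · intro x hx y hy
    refine (hCP _ (hbm x hx).1 _ (hbm y hy).1 _ (hbm x hx).2 _ (hbm y hy).2).trans ?_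
    refine (mul_le_mul_of_nonneg_left (hCb x hx y hy) hCP0).trans ?_
    rw [← mul_assoc]
    exact hlip _ (mul_nonneg hCP0 hCb0) (by linarith [mul_nonneg hCv0 hCb0]) x y
  · exact (eb_orthonormal (Om (Finset G) ι)).comp _ Sum.inr_injective
  · intro g i
    show W (A g) (eb (Sum.inr i)) = eb (Sum.inr i)
    rw [hW1, hA2]
  · intro x hx i
    show Pm (eps e) τ Sc (beta x).support (beta x) (eb (Sum.inr i)) = 0
    unfold Pm rk1
    simp [Jv_inr]
  · intro x hx a
    exact vm_mem hK he hB hKe Sc hScK i₀ (hbm x hx).1 (hbm x hx).2 a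
  · intro g a x hx
    show vm (eps e) π τ Sc i₀ (beta (pact g x)).support (g * a) (beta (pact g x)) =
      W (A g) (vm (eps e) π τ Sc i₀ (beta x).support a (beta x))
    rw [hbp, beta_pact]
    exact vm_equiv hK he hB hKe W hW1 A hA1 g a Sc hScK i₀ (hbm x hx).1 (hbm x hx).2
  · intro x hx a b hab
    exact vm_orth hK he hB hKe Sc hScK i₀ (hbm x hx).1 (hbm x hx).2 hab
  · intro x hx a
    have h1 : ‖vm (eps e) π τ Sc i₀ (beta x).support a (beta x)‖ ^ 2 ≤ 1 := by
      rw [hnorm x hx, hsumi x hx, ← hphis x hx]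
      have h2 : ∑ s ∈ Sc.image (fun c => a • c), phi (eps e) s (beta x) ^ 2 =
          ∑ s ∈ (Sc.image (fun c => a • c)).filter (fun s => s ∈ (beta x).support.powerset),
            phi (eps e) s (beta x) ^ 2 := by
        refine (Finset.sum_filter_of_ne fun s _ hs => ?_).symm
        rw [Finset.mem_powerset]
        exact (hphin x hx s (fun h => hs (by rw [h]; norm_num))).2
      rw [h2]
      refine Finset.sum_le_sum_of_subset_of_nonneg ?_ fun s _ _ => sq_nonneg _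
      intro s hs
      exact (Finset.mem_filter.mp hs).2
    nlinarith [norm_nonneg (vm (eps e) π τ Sc i₀ (beta x).support a (beta x))]
  · rintro x hx a ⟨b₀, hb₀, hab⟩
    have h1 : ‖vm (eps e) π τ Sc i₀ (beta x).support a (beta x)‖ ^ 2 = 1 := by
      apply le_antisymm
      · rw [hnorm x hx, hsumi x hx, ← hphis x hx]
        have h2 : ∑ s ∈ Sc.image (fun c => a • c), phi (eps e) s (beta x) ^ 2 =
            ∑ s ∈ (Sc.image (fun c => a • c)).filter (fun s => s ∈ (beta x).support.powerset),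
              phi (eps e) s (beta x) ^ 2 := by
          refine (Finset.sum_filter_of_ne fun s _ hs => ?_).symm
          rw [Finset.mem_powerset]
          exact (hphin x hx s (fun h => hs (by rw [h]; norm_num))).2
        rw [h2]
        refine Finset.sum_le_sum_of_subset_of_nonneg ?_ fun s _ _ => sq_nonneg _
        intro s hs
        exact (Finset.mem_filter.mp hs).2
      · rw [hnorm x hx, hsumi x hx]
        have h3 := hphis x hx
        have h2 : ∑ s ∈ (beta x).support.powerset, phi (eps e) s (beta x) ^ 2 =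
            ∑ s ∈ ((beta x).support.powerset).filter (fun s => s ∈ Sc.image (fun c => a • c)),
              phi (eps e) s (beta x) ^ 2 := by
          refine (Finset.sum_filter_of_ne fun s _ hs => ?_).symm
          obtain ⟨hs1, hs2⟩ := hphin x hx s (fun h => hs (by rw [h]; norm_num))
          rw [Finset.mem_image]
          refine ⟨a⁻¹ • s, ?_, smul_inv_smul a s⟩
          rw [hSc]
          refine ⟨hK.smul _ _ (hK.down _ (hbm x hx).1 s hs2 hs1), ?_⟩
          intro σ hσ b hb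
          have hσ' : a • σ ∈ s := by
            rw [← Finset.smul_mem_smul_finset_iff a, smul_inv_smul] at hσ
            exact hσ
          have hb' : a * b ∈ a • σ := by
            rw [← smul_eq_mul, Finset.smul_mem_smul_finset_iff]
            exact hb
          have hbx : a * b ∈ x.support := (beta_supp (hs2 hσ')).1 hb'
          have h4 := hx.2.1 b₀ hb₀ (a * b) hbx
          have h5 := hd.tri a b₀ (a * b)
          rw [hdist] at h5
          omega
        rw [h2] at h3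
        rw [← h3]
        refine Finset.sum_le_sum_of_subset_of_nonneg ?_ fun s _ _ => sq_nonneg _
        intro s hs
        exact (Finset.mem_filter.mp hs).2
    have h2 := norm_nonneg (vm (eps e) π τ Sc i₀ (beta x).support a (beta x))
    show ‖vm (eps e) π τ Sc i₀ (beta x).support a (beta x)‖ = 1
    nlinarith
  · intro x hx a hne
    have h1 : ‖vm (eps e) π τ Sc i₀ (beta x).support a (beta x)‖ ^ 2 ≠ 0 :=
      pow_ne_zero 2 (norm_ne_zero_iff.mpr hne)
    rw [hnorm x hx] at h1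
    obtain ⟨c, hc, hc0⟩ := Finset.exists_ne_zero_of_sum_ne_zero h1
    obtain ⟨hs1, hs2⟩ := hphin x hx (a • c) (fun h => hc0 (by rw [h]; norm_num))
    obtain ⟨σ', hσ'⟩ := hs1
    obtain ⟨σ, hσ, rfl⟩ := Finset.mem_smul_finset.mp hσ'
    obtain ⟨h3, b', hb'⟩ := beta_supp (hs2 hσ')
    obtain ⟨b, hb, rfl⟩ := Finset.mem_smul_finset.mp hb'
    refine ⟨a • b, h3 hb', ?_⟩
    rw [smul_eq_mul, hdist]
    exact ((hSc c).mp hc).2 σ hσ b hb
  · intro a x hx y hy
    refine (hCv a _ (hbm x hx).1 _ (hbm y hy).1 _ (hbm x hx).2 _ (hbm y hy).2).trans ?_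
    refine (mul_le_mul_of_nonneg_left (hCb x hx y hy) hCv0).trans ?_
    rw [← mul_assoc]
    exact hlip _ (mul_nonneg hCv0 hCb0) (by linarith [mul_nonneg hCP0 hCb0]) x y

end Pool.HQ
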