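import Pool.Agent.HQ.Defs
import Pool.Agent.HQ.E30

/-!
MP_7936f4_al, THEOREM E, module E41: algebra of the quasi-distance qd of the unit ball.

qd x z = |x-z|²/((1-|x|²)(1-|z|²)).  Write A x = 1 - |x|² > 0 and [x,z]² = |x-z|² + A x A z = 1 - 2<x,z> + |x|²|z|², so
1 + qd x z = [x,z]²/(A x A z).
* qd_quasi: (1+qd x z) ≤ 25 (1+qd x y)(1+qd y z).  It suffices A y [x,z] ≤ 5 [x,y][y,z].  One has [x,y] ≥ |x-y|,
  [x,y]² ≥ A x A y and [x,y] ≥ 1 - |x||y| ≥ max(A x, A y)/2 (as 1-2<x,y>+|x|²|y|² ≥ (1-|x||y|)², 1-|x||y| ≥ 1-|x| ≥ A x/2).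
  [x,z] ≤ |x-z| + √(A x A z) ≤ |x-y| + |y-z| + √(A x A z); A y |x-y| ≤ 2[y,z][x,y]; A y |y-z| ≤ 2 [x,y][y,z];
  A y √(A x A z) = √(A x A y) √(A y A z) ≤ [x,y][y,z].
* qd_scale: 0 ≤ s ≤ 1: |s x - s z|² = s²|x-z|², A (s x) ≥ A x.
* ratio: A x ≤ C_R A z if qd x z ≤ R: A x = [..]: A x - A z ≤ 2|x-z| ≤ 2 √(R A x A z), so A x / A z ≤ (√R + √(1+R))² ≤ 2(1+2R).
* qd_lip: let η = √(qd z z') ≤ 1, qd z w ≤ R.  A = A z, B = A z', W = A w.  A/B, B/A ≤ 6, |A/B - 1| ≤ 6η;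
  qd z w - qd z' w = (|z-w|²/(A W))(1 - A/B) + (|z-w|² - |z'-w|²)/(B W); the first term is ≤ 6 R η in absolute value; the
  second: | |z-w|² - |z'-w|² | ≤ |z-z'| (|z-w| + |z'-w|) ≤ |z-z'|(2|z-w| + |z-z'|), |z-z'| = η √(AB), |z-w| ≤ √(R A W), and
  A/W, W/A bounded by 2(1+2R).
* convexity: {z : |z| < 1, qd z c ≤ R} = {|z-c|² ≤ R A c (1-|z|²)} is convex: the function |z-c|² + R A c |z|² is convex.
-/

namespace Pool.HQ

variable {M : ℕ}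

lemma A_pos {x : EuclideanSpace ℝ (Fin M)} (hx : ‖x‖ < 1) : 0 < 1 - ‖x‖ ^ 2 := by
  have := norm_nonneg x
  nlinarith

lemma A_le_one (x : EuclideanSpace ℝ (Fin M)) : 1 - ‖x‖ ^ 2 ≤ 1 := by
  have := sq_nonneg ‖x‖
  linarith

lemma qd_nonneg {x z : EuclideanSpace ℝ (Fin M)} (hx : ‖x‖ < 1) (hz : ‖z‖ < 1) : 0 ≤ qd x z := by
  have h1 := A_pos hx
  have h2 := A_pos hz
  unfold qd
  positivity

lemma qd_self (x : EuclideanSpace ℝ (Fin M)) : qd x x = 0 := by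
  simp [qd]

lemma qd_comm (x z : EuclideanSpace ℝ (Fin M)) : qd x z = qd z x := by
  unfold qd
  rw [norm_sub_rev, mul_comm]

lemma qd_zero {x : EuclideanSpace ℝ (Fin M)} (hx : ‖x‖ < 1) : 1 + qd 0 x = (1 - ‖x‖ ^ 2)⁻¹ := by
  have h := A_pos hx
  unfold qd
  rw [zero_sub, norm_neg, norm_zero]
  field_simp
  ring

lemma norm_sub_sq_eq {x z : EuclideanSpace ℝ (Fin M)} (hx : ‖x‖ < 1) (hz : ‖z‖ < 1) :
    ‖x - z‖ ^ 2 = qd x z * ((1 - ‖x‖ ^ 2) * (1 - ‖z‖ ^ 2)) := by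
  have h1 := A_pos hx
  have h2 := A_pos hz
  unfold qd
  field_simp

lemma one_add_qd_div {x z : EuclideanSpace ℝ (Fin M)} (hx : ‖x‖ < 1) (hz : ‖z‖ < 1) :
    1 + qd x z = (‖x - z‖ ^ 2 + (1 - ‖x‖ ^ 2) * (1 - ‖z‖ ^ 2)) /
      ((1 - ‖x‖ ^ 2) * (1 - ‖z‖ ^ 2)) := by
  have h1 := A_pos hx
  have h2 := A_pos hz
  unfold qd
  field_simp
  ring

lemma bracket_ge {x y : EuclideanSpace ℝ (Fin M)} (hx : ‖x‖ < 1) (hy : ‖y‖ < 1) :
    ((1 - ‖y‖ ^ 2) / 2) ^ 2 ≤ ‖x - y‖ ^ 2 + (1 - ‖x‖ ^ 2) * (1 - ‖y‖ ^ 2) := by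
  have h1 := norm_sub_sq_real x y
  have h2 := real_inner_le_norm x y
  have hx0 := norm_nonneg x
  have hy0 := norm_nonneg y
  have h3 : (1 - ‖x‖ * ‖y‖) ^ 2 ≤ ‖x - y‖ ^ 2 + (1 - ‖x‖ ^ 2) * (1 - ‖y‖ ^ 2) := by
    rw [h1]
    linarith
  have h4 : (1 - ‖y‖ ^ 2) / 2 ≤ 1 - ‖x‖ * ‖y‖ := by nlinarith
  have h5 : 0 ≤ (1 - ‖y‖ ^ 2) / 2 := by
    have := A_pos hy
    linarith
  exact le_trans (pow_le_pow_left₀ h5 h4 2) h3

lemma qd_quasi {x y z : EuclideanSpace ℝ (Fin M)} (hx : ‖x‖ < 1) (hy : ‖y‖ < 1) (hz : ‖z‖ < 1) :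
    1 + qd x z ≤ 25 * ((1 + qd x y) * (1 + qd y z)) := by
  have hX := A_pos hx
  have hY := A_pos hy
  have hZ := A_pos hz
  rw [one_add_qd_div hx hz, one_add_qd_div hx hy, one_add_qd_div hy hz]
  have ha1 := bracket_ge hx hy
  have hb1 := bracket_ge hz hy
  rw [norm_sub_rev z y] at hb1
  set X := 1 - ‖x‖ ^ 2 with hXd
  set Y := 1 - ‖y‖ ^ 2 with hYd
  set Z := 1 - ‖z‖ ^ 2 with hZd
  set a := Real.sqrt (‖x - y‖ ^ 2 + X * Y) with ha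
  set b := Real.sqrt (‖y - z‖ ^ 2 + Y * Z) with hb
  set c := Real.sqrt (‖x - z‖ ^ 2 + X * Z) with hc
  have ha2 : a ^ 2 = ‖x - y‖ ^ 2 + X * Y := Real.sq_sqrt (by positivity)
  have hb2 : b ^ 2 = ‖y - z‖ ^ 2 + Y * Z := Real.sq_sqrt (by positivity)
  have hc2 : c ^ 2 = ‖x - z‖ ^ 2 + X * Z := Real.sq_sqrt (by positivity)
  have ha0 : 0 ≤ a := Real.sqrt_nonneg _
  have hb0 : 0 ≤ b := Real.sqrt_nonneg _
  have hc0 : 0 ≤ c := Real.sqrt_nonneg _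
  have e1 : ‖x - y‖ ≤ a := Real.le_sqrt_of_sq_le (by linarith [mul_pos hX hY])
  have e2 : ‖y - z‖ ≤ b := Real.le_sqrt_of_sq_le (by linarith [mul_pos hY hZ])
  have e3 : Y / 2 ≤ a := Real.le_sqrt_of_sq_le ha1
  have e4 : Y / 2 ≤ b := Real.le_sqrt_of_sq_le (by rw [mul_comm Y Z]; exact hb1)
  set p := Real.sqrt (X * Y) with hp
  set q := Real.sqrt (Y * Z) with hq
  have e5 : p ≤ a := Real.sqrt_le_sqrt (by linarith [sq_nonneg ‖x - y‖])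
  have e6 : q ≤ b := Real.sqrt_le_sqrt (by linarith [sq_nonneg ‖y - z‖])
  have hp0 : 0 ≤ p := Real.sqrt_nonneg _
  have hq0 : 0 ≤ q := Real.sqrt_nonneg _
  have e7 : Y * Real.sqrt (X * Z) = p * q := by
    rw [hp, hq, ← Real.sqrt_mul (by positivity), show X * Y * (Y * Z) = Y ^ 2 * (X * Z) by ring,
      Real.sqrt_mul (sq_nonneg Y) (X * Z), Real.sqrt_sq hY.le]
  have e8 : c ≤ ‖x - z‖ + Real.sqrt (X * Z) := by
    rw [hc]
    apply Real.sqrt_le_iff.2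
    have h0 := Real.sqrt_nonneg (X * Z)
    have h1 : Real.sqrt (X * Z) ^ 2 = X * Z := Real.sq_sqrt (by positivity)
    refine ⟨by positivity, ?_⟩
    linarith [mul_nonneg (norm_nonneg (x - z)) h0]
  have e9 : ‖x - z‖ ≤ ‖x - y‖ + ‖y - z‖ := norm_sub_le_norm_sub_add_norm_sub x y z
  have e10 : Y * c ≤ 5 * (a * b) := by
    have f1 : Y * ‖x - y‖ ≤ 2 * b * a := mul_le_mul (by linarith) e1 (norm_nonneg _) (by positivity)
    have f2 : Y * ‖y - z‖ ≤ 2 * a * b := mul_le_mul (by linarith) e2 (norm_nonneg _) (by positivity)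
    have f3 : p * q ≤ a * b := mul_le_mul e5 e6 hq0 ha0
    have f4 : Y * c ≤ Y * (‖x - y‖ + ‖y - z‖ + Real.sqrt (X * Z)) :=
      mul_le_mul_of_nonneg_left (by linarith) hY.le
    linarith
  have e11 : Y ^ 2 * c ^ 2 ≤ 25 * (a ^ 2 * b ^ 2) := by
    have := pow_le_pow_left₀ (mul_nonneg hY.le hc0) e10 2
    linarith
  rw [← ha2, ← hb2, ← hc2, div_mul_div_comm, mul_div_assoc', div_le_div_iff₀ (by positivity)
    (by positivity)]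
  have e12 := mul_le_mul_of_nonneg_right e11 (mul_pos hX hZ).le
  linarith

lemma qd_scale {x z : EuclideanSpace ℝ (Fin M)} (hx : ‖x‖ < 1) (hz : ‖z‖ < 1) {s : ℝ}
    (hs : s ∈ Set.Icc (0 : ℝ) 1) : qd (s • x) (s • z) ≤ qd x z := by
  have hX := A_pos hx
  have hZ := A_pos hz
  obtain ⟨hs0, hs1⟩ := hs
  have hs2 : s ^ 2 ≤ 1 := by nlinarith
  unfold qd
  rw [← smul_sub, norm_smul, norm_smul, norm_smul, Real.norm_eq_abs, abs_of_nonneg hs0]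
  have h1 : 1 - ‖x‖ ^ 2 ≤ 1 - (s * ‖x‖) ^ 2 := by
    rw [mul_pow]
    nlinarith [sq_nonneg ‖x‖]
  have h2 : 1 - ‖z‖ ^ 2 ≤ 1 - (s * ‖z‖) ^ 2 := by
    rw [mul_pow]
    nlinarith [sq_nonneg ‖z‖]
  have h3 : (s * ‖x - z‖) ^ 2 ≤ ‖x - z‖ ^ 2 := by
    rw [mul_pow]
    nlinarith [sq_nonneg ‖x - z‖]
  exact div_le_div₀ (sq_nonneg _) h3 (by positivity)
    (mul_le_mul h1 h2 hZ.le (le_trans hX.le h1))

lemma A_sub_le (x z : EuclideanSpace ℝ (Fin M)) (hx : ‖x‖ < 1) (hz : ‖z‖ < 1) :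
    |(1 - ‖x‖ ^ 2) - (1 - ‖z‖ ^ 2)| ≤ 2 * ‖x - z‖ := by
  have h1 : |‖x‖ - ‖z‖| ≤ ‖x - z‖ := abs_norm_sub_norm_le x z
  have hx0 := norm_nonneg x
  have hz0 := norm_nonneg z
  have h2 : (1 - ‖x‖ ^ 2) - (1 - ‖z‖ ^ 2) = -((‖x‖ - ‖z‖) * (‖x‖ + ‖z‖)) := by ring
  rw [h2, abs_neg, abs_mul, abs_of_nonneg (add_nonneg hx0 hz0), mul_comm]
  exact mul_le_mul (by linarith) h1 (abs_nonneg _) (by norm_num)

lemma ratio_le {x z : EuclideanSpace ℝ (Fin M)} (hx : ‖x‖ < 1) (hz : ‖z‖ < 1) {R : ℝ}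
    (hR : qd x z ≤ R) : 1 - ‖x‖ ^ 2 ≤ 2 * (1 + 2 * R) * (1 - ‖z‖ ^ 2) := by
  have hX := A_pos hx
  have hZ := A_pos hz
  have h0 := qd_nonneg hx hz
  have hR0 : 0 ≤ R := le_trans h0 hR
  have h1 := norm_sub_sq_eq hx hz
  have h2 := A_sub_le x z hx hz
  set X := 1 - ‖x‖ ^ 2 with hXd
  set Z := 1 - ‖z‖ ^ 2 with hZd
  have h3 : ‖x - z‖ ^ 2 ≤ R * (X * Z) := by
    rw [h1]
    exact mul_le_mul_of_nonneg_right hR (by positivity)
  have h4 : (X - Z) ^ 2 ≤ 4 * (R * (X * Z)) := by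
    have h5 := pow_le_pow_left₀ (abs_nonneg _) h2 2
    rw [sq_abs, mul_pow] at h5
    linarith
  have h6 : X * X ≤ X * (2 * (1 + 2 * R) * Z) := by linarith [sq_nonneg Z]
  exact le_of_mul_le_mul_left h6 hX

lemma qd_lip (M : ℕ) (R : ℝ) : ∃ C : ℝ, 0 ≤ C ∧ ∀ z z' w : EuclideanSpace ℝ (Fin M), ‖z‖ < 1 → ‖z'‖ < 1 →
    ‖w‖ < 1 → qd z z' ≤ 1 → qd z w ≤ R → |qd z w - qd z' w| ≤ C * Real.sqrt (qd z z') := by
  by_cases hR0 : R < 0
  · refine ⟨0, le_rfl, fun z z' w hz hz' hw h1 h2 => ?_⟩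
    exact absurd (lt_of_le_of_lt h2 hR0) (not_lt.2 (qd_nonneg hz hw))
  push Not at hR0
  set K : ℝ := 2 * (1 + 2 * R) with hK
  have hK0 : 0 ≤ K := by positivity
  refine ⟨R * 6 + 3 * (2 * (R * K + 1) + 18 * K), by positivity, fun z z' w hz hz' hw h1 h2 => ?_⟩
  have hA := A_pos hz
  have hB := A_pos hz'
  have hW := A_pos hw
  have r1 := ratio_le hz hz' h1
  have r2 := ratio_le (R := 1) hz' hz (by rw [qd_comm]; exact h1)
  have r3 := ratio_le hz hw h2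
  have n1 := norm_sub_sq_eq hz hz'
  have n2 := norm_sub_sq_eq hz hw
  have n3 := norm_sub_sq_eq hz' hw
  have d1 := A_sub_le z z' hz hz'
  have q0 := qd_nonneg hz hw
  have η0 := Real.sqrt_nonneg (qd z z')
  have η2 : Real.sqrt (qd z z') ^ 2 = qd z z' := Real.sq_sqrt (qd_nonneg hz hz')
  set η := Real.sqrt (qd z z') with hη
  rw [← η2] at n1 h1
  have η1 : η ≤ 1 := by nlinarith
  set A := 1 - ‖z‖ ^ 2 with hAd
  set B := 1 - ‖z'‖ ^ 2 with hBd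
  set W := 1 - ‖w‖ ^ 2 with hWd
  rw [← hK] at r3
  have hA6 : A ≤ 6 * B := by linarith
  have m1 : ‖z - z'‖ ≤ 3 * η * B := by
    apply le_of_sq_le_sq _ (by positivity)
    rw [n1]
    linarith [mul_nonneg (sq_nonneg η) (mul_nonneg hB.le (sub_nonneg.2 hA6)),
      mul_nonneg (sq_nonneg η) (sq_nonneg B)]
  have m2 : ‖z - w‖ ≤ (R * K + 1) * W := by
    apply le_of_sq_le_sq _ (by positivity)
    rw [n2]
    have g1 : qd z w * (A * W) ≤ R * (K * W * W) := by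
      apply mul_le_mul h2 _ (by positivity) hR0
      exact mul_le_mul_of_nonneg_right r3 hW.le
    have g2 : 0 ≤ R * K := by positivity
    have g3 : R * K ≤ (R * K + 1) ^ 2 := by nlinarith
    linarith [mul_le_mul_of_nonneg_right g3 (sq_nonneg W)]
  have m3 : ‖z - z'‖ ≤ 18 * K * W := by
    have g1 : η * B ≤ 1 * (6 * A) := mul_le_mul η1 (by linarith) hB.le (by norm_num)
    linarith
  have t1 : |1 - A / B| ≤ 6 * η := by
    rw [show 1 - A / B = -((A - B) / B) by field_simp; ring, abs_neg, abs_div, abs_of_pos hB,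
      div_le_iff₀ hB]
    linarith
  have t2 : |‖z - w‖ ^ 2 - ‖z' - w‖ ^ 2| ≤ ‖z - z'‖ * (2 * ‖z - w‖ + ‖z - z'‖) := by
    have g1 : |‖z - w‖ - ‖z' - w‖| ≤ ‖z - z'‖ := by
      have := abs_norm_sub_norm_le (z - w) (z' - w)
      rwa [sub_sub_sub_cancel_right] at this
    have g2 : ‖z' - w‖ ≤ ‖z - z'‖ + ‖z - w‖ := by
      have := norm_sub_le_norm_sub_add_norm_sub z' z w
      rwa [norm_sub_rev z' z] at this
    rw [sq_sub_sq, abs_mul, abs_of_nonneg (by positivity), mul_comm]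
    exact mul_le_mul g1 (by linarith) (by positivity) (norm_nonneg _)
  have t3 : |(‖z - w‖ ^ 2 - ‖z' - w‖ ^ 2) / (B * W)| ≤ 3 * (2 * (R * K + 1) + 18 * K) * η := by
    rw [abs_div, abs_of_pos (mul_pos hB hW), div_le_iff₀ (mul_pos hB hW)]
    refine t2.trans ?_
    have g1 : ‖z - z'‖ * (2 * ‖z - w‖ + ‖z - z'‖) ≤
        3 * η * B * (2 * ((R * K + 1) * W) + 18 * K * W) :=
      mul_le_mul m1 (by linarith) (by positivity) (by positivity)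
    refine g1.trans (le_of_eq ?_)
    ring
  have key : qd z w - qd z' w = qd z w * (1 - A / B) +
      (‖z - w‖ ^ 2 - ‖z' - w‖ ^ 2) / (B * W) := by
    rw [n2, n3]
    field_simp
    ring
  rw [key]
  refine (abs_add_le _ _).trans ?_
  have t4 : |qd z w * (1 - A / B)| ≤ R * (6 * η) := by
    rw [abs_mul, abs_of_nonneg q0]
    exact mul_le_mul h2 t1 (abs_nonneg _) hR0
  linarith

lemma sq_norm_comb (u v : EuclideanSpace ℝ (Fin M)) {a b : ℝ} (ha : 0 ≤ a) (hb : 0 ≤ b)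
    (hab : a + b = 1) : ‖a • u + b • v‖ ^ 2 ≤ a * ‖u‖ ^ 2 + b * ‖v‖ ^ 2 := by
  have h1 : ‖a • u + b • v‖ ≤ a * ‖u‖ + b * ‖v‖ := by
    refine (norm_add_le _ _).trans ?_
    rw [norm_smul, norm_smul, Real.norm_eq_abs, Real.norm_eq_abs, abs_of_nonneg ha,
      abs_of_nonneg hb]
  have h2 := pow_le_pow_left₀ (norm_nonneg _) h1 2
  refine h2.trans ?_
  have hb' : b = 1 - a := by linarith
  subst hb'
  linarith [mul_nonneg (mul_nonneg ha hb) (sq_nonneg (‖u‖ - ‖v‖))]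

lemma qd_le_iff {z c : EuclideanSpace ℝ (Fin M)} (hz : ‖z‖ < 1) (hc : ‖c‖ < 1) {R : ℝ} :
    qd z c ≤ R ↔ ‖z - c‖ ^ 2 ≤ R * (1 - ‖c‖ ^ 2) * (1 - ‖z‖ ^ 2) := by
  have h1 := A_pos hz
  have h2 := A_pos hc
  unfold qd
  rw [div_le_iff₀ (mul_pos h1 h2)]
  rw [show R * ((1 - ‖z‖ ^ 2) * (1 - ‖c‖ ^ 2)) = R * (1 - ‖c‖ ^ 2) * (1 - ‖z‖ ^ 2) by ring]

lemma qd_convex {c : EuclideanSpace ℝ (Fin M)} (hc : ‖c‖ < 1) {R : ℝ} (hR : 0 ≤ R) :
    Convex ℝ {z : EuclideanSpace ℝ (Fin M) | ‖z‖ < 1 ∧ qd z c ≤ R} := by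
  rintro u ⟨hu, hu2⟩ v ⟨hv, hv2⟩ a b ha hb hab
  have hC := A_pos hc
  have hz : ‖a • u + b • v‖ < 1 := by
    have h1 := sq_norm_comb u v ha hb hab
    have h2 := norm_nonneg (a • u + b • v)
    have h3 : ‖a • u + b • v‖ ≤ a * ‖u‖ + b * ‖v‖ := by
      refine (norm_add_le _ _).trans ?_
      rw [norm_smul, norm_smul, Real.norm_eq_abs, Real.norm_eq_abs, abs_of_nonneg ha,
        abs_of_nonneg hb]
    rcases lt_or_eq_of_le ha with ha' | ha'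
    · have h4 : a * ‖u‖ < a * 1 := mul_lt_mul_of_pos_left hu ha'
      have h5 : b * ‖v‖ ≤ b * 1 := mul_le_mul_of_nonneg_left hv.le hb
      linarith
    · subst ha'
      have hb1 : b = 1 := by linarith
      subst hb1
      simpa using hv
  refine ⟨hz, ?_⟩
  rw [qd_le_iff hz hc]
  rw [qd_le_iff hu hc] at hu2
  rw [qd_le_iff hv hc] at hv2
  have h1 := sq_norm_comb u v ha hb hab
  have h2 := sq_norm_comb (u - c) (v - c) ha hb hab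
  have h3 : a • (u - c) + b • (v - c) = a • u + b • v - c := by
    have hc' : c = a • c + b • c := by rw [← add_smul, hab, one_smul]
    conv_rhs => rw [hc']
    rw [smul_sub, smul_sub]
    abel
  rw [h3] at h2
  refine h2.trans ?_
  have h4 := mul_le_mul_of_nonneg_left hu2 ha
  have h5 := mul_le_mul_of_nonneg_left hv2 hb
  have h6 := mul_le_mul_of_nonneg_left h1 (mul_nonneg hR hC.le)
  have hb' : b = 1 - a := by linarith
  subst hb'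
  linarith

end Pool.HQ
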