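import Pool.Agent.HQ.E41
import Pool.Agent.HQ.E31

/-!
MP_7936f4_al, THEOREM E, module E42: radial segments stay near f(G); affine means of the f(a).

A z = 1 - |z|².  From RoughSim at the pair (1,b): 1 + qd 0 (f b) = 1/A(f b), so
C⁻¹ e^(-λ|b|) ≤ A (f b) ≤ C e^(-λ|b|), |b| = d 1 b.

stay_near: let n = d 1 a, z = s f a, so A (f a) ≤ A z ≤ 1.  Let i = min(n, floor(log(1/A z)/λ)); then
A z ≤ e^(-λ i) ≤ max(e^λ, C) A z (second inequality: if i = the floor, e^(-λ(i+1)) < A z; if i = n, A z ≥ A(f a) ≥ C⁻¹ e^(-λ n)).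
Take b with d 1 b = i, d b a = n - i (HypM.geo).  |f b - f a|² = qd A A ≤ C e^(λ(n-i)) C e^(-λ i) C e^(-λ n) = C³ e^(-2λ i).
|z - f a| = |f a| - |z| ≤ 1 - |z| ≤ A z ≤ e^(-λ i).  So |z - f b| ≤ (1 + C^(3/2)) e^(-λ i) and
qd z (f b) ≤ (1+C^(3/2))² max(e^λ,C) C.

fhat x = Σ x_a f(a).  fhat_near: for a ∈ supp x all f b, b ∈ supp x, lie in the convex set {qd · (f a) ≤ C e^(λD)} (qd_convex).
fhat_lip: d1 x y < 2 implies that some c is in both supports (as in exists_between); every a in supp x ∪ supp y has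
d a c ≤ D; fhat x - fhat y = Σ_a (x_a - y_a)(f a - f c) (both masses are 1), |f a - f c|² = qd A(f a) A(f c) ≤ C e^(λD) A(f a) A(f c) and
A(f a) ≤ C' A(f c) (ratio_le), so |fhat x - fhat y| ≤ C'' A(f c) d1 x y; A(fhat x), A(fhat y) ≥ c A(f c) (ratio_le and fhat_near).
-/

namespace Pool.HQ

variable {G : Type} [Group G] {d : G → G → ℕ} {M : ℕ} {lam C : ℝ}
  {f : G → EuclideanSpace ℝ (Fin M)}

/-- affine mean of the points f a -/
noncomputable def fhat (f : G → EuclideanSpace ℝ (Fin M)) (x : G →₀ ℝ) : EuclideanSpace ℝ (Fin M) :=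
  ∑ a ∈ x.support, x a • f a

theorem e42_sq_lt {M : ℕ} {z : EuclideanSpace ℝ (Fin M)} (hz : ‖z‖ < 1) : 0 < 1 - ‖z‖ ^ 2 := by
  have h := norm_nonneg z
  nlinarith

theorem e42_A (hf : RoughSim d lam C f) (a : G) :
    1 - ‖f a‖ ^ 2 ≤ C * Real.exp (-(lam * d 1 a)) ∧
      Real.exp (-(lam * d 1 a)) ≤ C * (1 - ‖f a‖ ^ 2) := by
  have hC : 0 < C := lt_of_lt_of_le one_pos hf.one_le
  have hA := e42_sq_lt (hf.ball a)
  have hE := Real.exp_pos (lam * d 1 a)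
  have h1 := hf.lo 1 a
  have h2 := hf.up 1 a
  rw [hf.one, qd_zero (hf.ball a)] at h1 h2
  rw [Real.exp_neg]
  constructor
  · have h3 : (1 - ‖f a‖ ^ 2) ≤ (C⁻¹ * Real.exp (lam * d 1 a))⁻¹ := by
      rw [le_inv_comm₀ hA (by positivity)]
      exact h1
    rwa [mul_inv, inv_inv] at h3
  · have h3 : (C * Real.exp (lam * d 1 a))⁻¹ ≤ 1 - ‖f a‖ ^ 2 := by
      rw [inv_le_comm₀ (by positivity) hA]
      exact h2
    rw [mul_inv, inv_mul_le_iff₀ hC] at h3
    exact h3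

theorem e42_qd (hf : RoughSim d lam C f) {D : ℕ} {a b : G} (h : d a b ≤ D) :
    qd (f a) (f b) ≤ C * Real.exp (lam * D) := by
  have hC : 0 < C := lt_of_lt_of_le one_pos hf.one_le
  have h1 := hf.up a b
  have h2 : Real.exp (lam * d a b) ≤ Real.exp (lam * D) := by
    rw [Real.exp_le_exp]
    exact mul_le_mul_of_nonneg_left (by exact_mod_cast h) hf.lam_pos.le
  have h3 := mul_le_mul_of_nonneg_left h2 hC.le
  linarith

theorem e42_ge_one (hf : RoughSim d lam C f) (D : ℕ) : 1 ≤ C * Real.exp (lam * D) := by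
  have h1 : 1 ≤ Real.exp (lam * D) := Real.one_le_exp
    (mul_nonneg hf.lam_pos.le (Nat.cast_nonneg D))
  nlinarith [hf.one_le]

theorem e42_near (hf : RoughSim d lam C f) {D : ℕ} {x : G →₀ ℝ} (hx : x ∈ Loc d D) {a : G}
    (ha : a ∈ x.support) : ‖fhat f x‖ < 1 ∧ qd (fhat f x) (f a) ≤ C * Real.exp (lam * D) := by
  have h1 := qd_convex (hf.ball a) (zero_le_one.trans (e42_ge_one hf D))
  have h2 := h1.sum_mem (t := x.support) (w := fun b => x b) (z := f) (fun b _ => hx.1 b) hx.2.2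
    (fun b hb => ⟨hf.ball b, e42_qd hf (hx.2.1 b hb a ha)⟩)
  exact h2

theorem stay_near (hd : HypM d) (hf : RoughSim d lam C f) :
    ∃ R0 : ℝ, 0 ≤ R0 ∧ ∀ (a : G), ∀ s ∈ Set.Icc (0 : ℝ) 1, ∃ b : G, qd (s • f a) (f b) ≤ R0 := by
  have hC1 := hf.one_le
  have hC : 0 < C := lt_of_lt_of_le one_pos hC1
  have hlam := hf.lam_pos
  refine ⟨(1 + C ^ 2) ^ 2 * (C * Real.exp lam) * C, by positivity, fun a s hs => ?_⟩
  have hs0 := hs.1
  have hs1 := hs.2
  have hfa := hf.ball a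
  have hfa0 := norm_nonneg (f a)
  have hzn : ‖s • f a‖ = s * ‖f a‖ := by rw [norm_smul, Real.norm_of_nonneg hs0]
  have hz0 : 0 ≤ s * ‖f a‖ := mul_nonneg hs0 hfa0
  have hz1 : s * ‖f a‖ ≤ ‖f a‖ := by nlinarith
  have hzlt : ‖s • f a‖ < 1 := by rw [hzn]; linarith
  obtain ⟨Az, hAz⟩ : ∃ A, 1 - ‖s • f a‖ ^ 2 = A := ⟨_, rfl⟩
  have hAz0 : 0 < Az := by rw [← hAz]; exact e42_sq_lt hzlt
  have hAz1 : Az ≤ 1 := by rw [← hAz]; nlinarith [sq_nonneg ‖s • f a‖]
  have hAza : 1 - ‖f a‖ ^ 2 ≤ Az := by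
    rw [← hAz, hzn]
    nlinarith
  have hexp1 : 1 ≤ Real.exp lam := Real.one_le_exp hlam.le
  have hlog : 0 ≤ Real.log Az⁻¹ / lam :=
    div_nonneg (Real.log_nonneg ((one_le_inv₀ hAz0).2 hAz1)) hlam.le
  obtain ⟨i, hi⟩ : ∃ i, min (d 1 a) ⌊Real.log Az⁻¹ / lam⌋₊ = i := ⟨_, rfl⟩
  have hin : i ≤ d 1 a := by rw [← hi]; exact min_le_left _ _
  obtain ⟨p, hp⟩ : ∃ p, Real.exp (-(lam * i)) = p := ⟨_, rfl⟩
  have hp0 : 0 < p := by rw [← hp]; exact Real.exp_pos _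
  have h1 : Az ≤ p := by
    have h2 : (i : ℝ) ≤ Real.log Az⁻¹ / lam := by
      refine le_trans ?_ (Nat.floor_le hlog)
      rw [← hi]
      exact_mod_cast min_le_right _ _
    rw [le_div_iff₀ hlam, Real.log_inv] at h2
    rw [← hp, ← Real.log_le_iff_le_exp hAz0]
    linarith
  have h2 : p ≤ C * Real.exp lam * Az := by
    rcases min_choice (d 1 a) ⌊Real.log Az⁻¹ / lam⌋₊ with h3 | h3
    · have h4 : i = d 1 a := by rw [← hi, h3]
      have h5 := (e42_A hf a).2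
      rw [← h4, hp] at h5
      calc p ≤ C * (1 - ‖f a‖ ^ 2) := h5
        _ ≤ C * Az := mul_le_mul_of_nonneg_left hAza hC.le
        _ = C * 1 * Az := by ring
        _ ≤ C * Real.exp lam * Az := by gcongr
    · have h4 : Real.log Az⁻¹ / lam < (i : ℝ) + 1 := by
        rw [← hi, h3]
        exact Nat.lt_floor_add_one _
      rw [div_lt_iff₀ hlam, Real.log_inv] at h4
      have h5 : Real.exp (-(((i : ℝ) + 1) * lam)) < Az := by
        rw [← Real.lt_log_iff_exp_lt hAz0]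
        linarith
      have h6 : p = Real.exp lam * Real.exp (-(((i : ℝ) + 1) * lam)) := by
        rw [← hp, ← Real.exp_add]
        congr 1
        ring
      calc p = Real.exp lam * Real.exp (-(((i : ℝ) + 1) * lam)) := h6
        _ ≤ Real.exp lam * Az := mul_le_mul_of_nonneg_left h5.le (Real.exp_pos _).le
        _ = 1 * Real.exp lam * Az := by ring
        _ ≤ C * Real.exp lam * Az := by gcongr
  obtain ⟨b, hb1, hb2⟩ := hd.geo 1 a i hin
  have hAb := e42_A hf b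
  rw [hb1, hp] at hAb
  have hAb0 := e42_sq_lt (hf.ball b)
  have hAa := (e42_A hf a).1
  have hAa0 := e42_sq_lt (hf.ball a)
  have h3 : ‖f b - f a‖ ≤ C ^ 2 * p := by
    rw [← pow_le_pow_iff_left₀ (norm_nonneg _) (by positivity) two_ne_zero,
      norm_sub_sq_eq (hf.ball b) (hf.ball a)]
    have h4 : qd (f b) (f a) ≤ C * Real.exp (lam * ((d 1 a - i : ℕ) : ℝ)) :=
      e42_qd hf (by rw [hb2])
    have h5 : Real.exp (lam * ((d 1 a - i : ℕ) : ℝ)) * Real.exp (-(lam * d 1 a)) = p := by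
      rw [← Real.exp_add, ← hp, Nat.cast_sub hin]
      congr 1
      ring
    calc qd (f b) (f a) * ((1 - ‖f b‖ ^ 2) * (1 - ‖f a‖ ^ 2))
        ≤ (C * Real.exp (lam * ((d 1 a - i : ℕ) : ℝ))) * ((C * p) *
          (C * Real.exp (-(lam * d 1 a)))) :=
          mul_le_mul h4 (mul_le_mul hAb.1 hAa hAa0.le (by positivity))
            (mul_nonneg hAb0.le hAa0.le) (by positivity)
      _ = C ^ 3 * p * (Real.exp (lam * ((d 1 a - i : ℕ) : ℝ)) *
          Real.exp (-(lam * d 1 a))) := by ring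
      _ = C ^ 3 * 1 * p ^ 2 := by rw [h5]; ring
      _ ≤ C ^ 3 * C * p ^ 2 := by gcongr
      _ = (C ^ 2 * p) ^ 2 := by ring
  have h4 : ‖s • f a - f a‖ ≤ p := by
    have h5 : s • f a - f a = -((1 - s) • f a) := by
      rw [sub_smul, one_smul, neg_sub]
    rw [h5, norm_neg, norm_smul, Real.norm_of_nonneg (by linarith)]
    refine le_trans ?_ h1
    rw [← hAz, hzn]
    nlinarith
  have h5 : ‖s • f a - f b‖ ≤ (1 + C ^ 2) * p := by
    have h6 : s • f a - f b = (s • f a - f a) - (f b - f a) := by abel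
    rw [h6]
    refine (norm_sub_le _ _).trans ?_
    linarith
  refine ⟨b, ?_⟩
  unfold qd
  rw [hAz, div_le_iff₀ (mul_pos hAz0 hAb0)]
  have h6 : ‖s • f a - f b‖ ^ 2 ≤ ((1 + C ^ 2) * p) ^ 2 :=
    pow_le_pow_left₀ (norm_nonneg _) h5 2
  have h7 : p * p ≤ (C * Real.exp lam * Az) * (C * (1 - ‖f b‖ ^ 2)) :=
    mul_le_mul h2 hAb.2 hp0.le (by positivity)
  calc ‖s • f a - f b‖ ^ 2 ≤ (1 + C ^ 2) ^ 2 * (p * p) := by
        refine h6.trans (le_of_eq ?_)
        ring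
    _ ≤ (1 + C ^ 2) ^ 2 * ((C * Real.exp lam * Az) * (C * (1 - ‖f b‖ ^ 2))) :=
        mul_le_mul_of_nonneg_left h7 (by positivity)
    _ = (1 + C ^ 2) ^ 2 * (C * Real.exp lam) * C * (Az * (1 - ‖f b‖ ^ 2)) := by ring

theorem fhat_near (hd : HypM d) (hf : RoughSim d lam C f) (D : ℕ) :
    ∃ R1 : ℝ, 0 ≤ R1 ∧ ∀ x ∈ Loc d D, ‖fhat f x‖ < 1 ∧ ∀ a ∈ x.support, qd (fhat f x) (f a) ≤ R1 := by
  refine ⟨C * Real.exp (lam * D), zero_le_one.trans (e42_ge_one hf D), fun x hx => ⟨?_, ?_⟩⟩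
  · obtain ⟨a, ha⟩ : x.support.Nonempty := by
      rw [Finset.nonempty_iff_ne_empty]
      intro h
      have h1 := hx.2.2
      rw [h, Finset.sum_empty] at h1
      exact zero_ne_one h1
    exact (e42_near hf hx ha).1
  · exact fun a ha => (e42_near hf hx ha).2

theorem fhat_lip (hd : HypM d) (hf : RoughSim d lam C f) (D : ℕ) :
    ∃ C1 : ℝ, 0 ≤ C1 ∧ ∀ x ∈ Loc d D, ∀ y ∈ Loc d D, d1 x y < 2 →
      Real.sqrt (qd (fhat f x) (fhat f y)) ≤ C1 * d1 x y := by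
  classical
  obtain ⟨R, hR⟩ : ∃ R, C * Real.exp (lam * D) = R := ⟨_, rfl⟩
  have hR1 : 1 ≤ R := by rw [← hR]; exact e42_ge_one hf D
  obtain ⟨C', hC'⟩ : ∃ C', 2 * (1 + 2 * R) = C' := ⟨_, rfl⟩
  have hC'1 : 1 ≤ C' := by rw [← hC']; linarith
  refine ⟨(R * C') * C', by positivity, fun x hx y hy hxy => ?_⟩
  have hxs : x ∈ sx x.support := ⟨hx.1, Finset.Subset.refl _, hx.2.2⟩
  have hys : y ∈ sx y.support := ⟨hy.1, Finset.Subset.refl _, hy.2.2⟩
  obtain ⟨z, hz, -, -⟩ := exists_between hxs hys hxy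
  obtain ⟨c, hc⟩ := sx_support_nonempty hz
  have hc' := Finset.mem_inter.1 (hz.2.1 hc)
  obtain ⟨hnx, hqx⟩ := e42_near hf hx hc'.1
  obtain ⟨hny, hqy⟩ := e42_near hf hy hc'.2
  rw [hR] at hqx hqy
  have hAc := e42_sq_lt (hf.ball c)
  have hAx := e42_sq_lt hnx
  have hAy := e42_sq_lt hny
  have hrx : 1 - ‖f c‖ ^ 2 ≤ C' * (1 - ‖fhat f x‖ ^ 2) := by
    rw [← hC']
    exact ratio_le (hf.ball c) hnx (by rw [qd_comm]; exact hqx)
  have hry : 1 - ‖f c‖ ^ 2 ≤ C' * (1 - ‖fhat f y‖ ^ 2) := by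
    rw [← hC']
    exact ratio_le (hf.ball c) hny (by rw [qd_comm]; exact hqy)
  have hac : ∀ a ∈ x.support ∪ y.support, ‖f a - f c‖ ≤ (R * C') * (1 - ‖f c‖ ^ 2) := by
    intro a ha
    have hda : d a c ≤ D := by
      rcases Finset.mem_union.1 ha with h | h
      · exact hx.2.1 a h c hc'.1
      · exact hy.2.1 a h c hc'.2
    have hq := e42_qd hf hda
    rw [hR] at hq
    have hAa := e42_sq_lt (hf.ball a)
    have hra : 1 - ‖f a‖ ^ 2 ≤ C' * (1 - ‖f c‖ ^ 2) := by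
      rw [← hC']
      exact ratio_le (hf.ball a) (hf.ball c) hq
    rw [← pow_le_pow_iff_left₀ (norm_nonneg _) (by positivity) two_ne_zero,
      norm_sub_sq_eq (hf.ball a) (hf.ball c)]
    have hRC : 1 ≤ R * C' := one_le_mul_of_one_le_of_one_le hR1 hC'1
    calc qd (f a) (f c) * ((1 - ‖f a‖ ^ 2) * (1 - ‖f c‖ ^ 2))
        ≤ R * ((C' * (1 - ‖f c‖ ^ 2)) * (1 - ‖f c‖ ^ 2)) := by
          refine mul_le_mul hq ?_ (mul_nonneg hAa.le hAc.le) (by linarith)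
          exact mul_le_mul_of_nonneg_right hra hAc.le
      _ = (R * C') * 1 * (1 - ‖f c‖ ^ 2) ^ 2 := by ring
      _ ≤ (R * C') * (R * C') * (1 - ‖f c‖ ^ 2) ^ 2 := by gcongr
      _ = ((R * C') * (1 - ‖f c‖ ^ 2)) ^ 2 := by ring
  have hfx : fhat f x = ∑ a ∈ x.support ∪ y.support, x a • f a := by
    refine Finset.sum_subset Finset.subset_union_left fun a _ ha => ?_
    rw [Finsupp.notMem_support_iff.1 ha, zero_smul]
  have hfy : fhat f y = ∑ a ∈ x.support ∪ y.support, y a • f a := by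
    refine Finset.sum_subset Finset.subset_union_right fun a _ ha => ?_
    rw [Finsupp.notMem_support_iff.1 ha, zero_smul]
  have hsx := sx_sum hxs (T := x.support ∪ y.support) Finset.subset_union_left
  have hsy := sx_sum hys (T := x.support ∪ y.support) Finset.subset_union_right
  have hdiff : fhat f x - fhat f y =
      ∑ a ∈ x.support ∪ y.support, (x a - y a) • (f a - f c) := by
    have h1 : ∑ a ∈ x.support ∪ y.support, (x a - y a) • (f a - f c) =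
        (∑ a ∈ x.support ∪ y.support, x a • f a - ∑ a ∈ x.support ∪ y.support, y a • f a) -
        ((∑ a ∈ x.support ∪ y.support, x a) - ∑ a ∈ x.support ∪ y.support, y a) • f c := by
      rw [← Finset.sum_sub_distrib, ← Finset.sum_sub_distrib, Finset.sum_smul,
        ← Finset.sum_sub_distrib]
      refine Finset.sum_congr rfl fun a _ => ?_
      rw [smul_sub, sub_smul]
    rw [h1, hsx, hsy, sub_self, zero_smul, sub_zero, hfx, hfy]
  have hnorm : ‖fhat f x - fhat f y‖ ≤ (R * C') * (1 - ‖f c‖ ^ 2) * d1 x y := by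
    rw [hdiff, d1_eq_sum x y (T := x.support ∪ y.support) Finset.subset_union_left
      Finset.subset_union_right, Finset.mul_sum]
    refine (norm_sum_le _ _).trans (Finset.sum_le_sum fun a ha => ?_)
    rw [norm_smul, Real.norm_eq_abs, mul_comm]
    exact mul_le_mul_of_nonneg_right (hac a ha) (abs_nonneg _)
  have hd0 := d1_nonneg x y
  rw [Real.sqrt_le_left (by positivity)]
  unfold qd
  rw [div_le_iff₀ (mul_pos hAx hAy)]
  have h2 : (1 - ‖f c‖ ^ 2) * (1 - ‖f c‖ ^ 2) ≤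
      (C' * (1 - ‖fhat f x‖ ^ 2)) * (C' * (1 - ‖fhat f y‖ ^ 2)) :=
    mul_le_mul hrx hry hAc.le (by positivity)
  calc ‖fhat f x - fhat f y‖ ^ 2 ≤ ((R * C') * (1 - ‖f c‖ ^ 2) * d1 x y) ^ 2 :=
        pow_le_pow_left₀ (norm_nonneg _) hnorm 2
    _ = ((R * C') * d1 x y) ^ 2 * ((1 - ‖f c‖ ^ 2) * (1 - ‖f c‖ ^ 2)) := by ring
    _ ≤ ((R * C') * d1 x y) ^ 2 *
        ((C' * (1 - ‖fhat f x‖ ^ 2)) * (C' * (1 - ‖fhat f y‖ ^ 2))) :=
        mul_le_mul_of_nonneg_left h2 (by positivity)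
    _ = ((R * C') * C' * d1 x y) ^ 2 * ((1 - ‖fhat f x‖ ^ 2) * (1 - ‖fhat f y‖ ^ 2)) := by ring

/-- points of G at bounded quasi-distance in the ball are at bounded distance in G -/
theorem dist_bound (hf : RoughSim d lam C f) (R : ℝ) :
    ∃ N : ℕ, ∀ a b : G, qd (f a) (f b) ≤ R → d a b ≤ N := by
  have hC : 0 < C := lt_of_lt_of_le one_pos hf.one_le
  refine ⟨⌈C * (1 + R) / lam⌉₊, fun a b h => ?_⟩
  have h1 := hf.lo a b
  have h2 : Real.exp (lam * d a b) ≤ C * (1 + R) := by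
    rw [inv_mul_le_iff₀ hC] at h1
    exact h1.trans (mul_le_mul_of_nonneg_left (by linarith) hC.le)
  have h3 := Real.add_one_le_exp (lam * d a b)
  have h4 : (d a b : ℝ) ≤ C * (1 + R) / lam := by
    rw [le_div_iff₀ hf.lam_pos]
    linarith
  exact_mod_cast h4.trans (Nat.le_ceil _)

end Pool.HQ
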