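import Pool.Agent.HQ.E42

/-!
MP_7936f4_al, THEOREM E, module E43: location measures of points of the ball near f(G).

Let R ≥ 1, w z a = max 0 (min 1 (2 - qd z (f a) / R)) (1 if qd ≤ R, 0 if qd ≥ 2R).  For z with qd z (f b) ≤ R for some b the a
with w z a ≠ 0 have qd z (f a) < 2R, so qd (f a) (f b) is bounded (qd_quasi), so d a b ≤ N (dist_bound) and they are finitely
many, at most m (balls of radius N have m elements), total weight ≥ 1.  ql z = Σ w z a δ_a / Σ w z a (for other z put ql z = 0).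
Diameter ≤ 2N =: D' or use dist_bound again.  Lipschitz: for z, z' near f(G), qd z z' ≤ 1 and any a, |w z a - w z' a| ≤
|qd z (f a) - qd z' (f a)|/R ≤ C √(qd z z') if qd z (f a) ≤ 2R or qd z' (f a) ≤ 2R (qd_lip, symmetric), and both weights are 0
otherwise; at most 2m values of a matter; normalisation as in E04 (rho_lip): |w/S - w'/S'|₁ ≤ 2 |w - w'|₁ / S.
-/

namespace Pool.HQ

variable {G : Type} [Group G] {d : G → G → ℕ} {M : ℕ} {lam C : ℝ}
  {f : G → EuclideanSpace ℝ (Fin M)}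

private lemma e43_quot {ι : Type} (T : Finset ι) (a b : ι → ℝ) (hb : ∀ i ∈ T, 0 ≤ b i)
    {Z W : ℝ} (hZ : Z = ∑ i ∈ T, a i) (hW : W = ∑ i ∈ T, b i) (hZ0 : 1 / 2 ≤ Z) (hW0 : 1 / 2 ≤ W) :
    ∑ i ∈ T, |Z⁻¹ * a i - W⁻¹ * b i| ≤ 4 * ∑ i ∈ T, |a i - b i| := by
  have hZp : 0 < Z := by linarith
  have hWp : 0 < W := by linarith
  have hZW : |W - Z| ≤ ∑ i ∈ T, |a i - b i| := by
    rw [hZ, hW, ← Finset.sum_sub_distrib]
    refine (Finset.abs_sum_le_sum_abs _ _).trans (Finset.sum_le_sum fun i _ => ?_)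
    rw [abs_sub_comm]
  set D := ∑ i ∈ T, |a i - b i| with hD
  have hD0 : 0 ≤ D := Finset.sum_nonneg fun _ _ => abs_nonneg _
  have h1 : ∀ i ∈ T, |Z⁻¹ * a i - W⁻¹ * b i| ≤ Z⁻¹ * |a i - b i| + Z⁻¹ * |W - Z| * (W⁻¹ * b i) := by
    intro i hi
    have e1 : Z⁻¹ * a i - W⁻¹ * b i = Z⁻¹ * (a i - b i) + Z⁻¹ * (W - Z) * (W⁻¹ * b i) := by
      field_simp
      ring
    rw [e1]
    refine (abs_add_le _ _).trans (le_of_eq ?_)
    rw [abs_mul, abs_mul, abs_mul, abs_of_pos (inv_pos.2 hZp),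
      abs_of_nonneg (mul_nonneg (inv_nonneg.2 hWp.le) (hb i hi))]
  have h2 := Finset.sum_le_sum h1
  rw [Finset.sum_add_distrib, ← Finset.mul_sum, ← Finset.mul_sum, ← Finset.mul_sum, ← hW,
    inv_mul_cancel₀ hWp.ne', mul_one] at h2
  have hZi : Z⁻¹ ≤ 2 := by
    rw [inv_le_comm₀ hZp (by norm_num)]
    linarith
  refine h2.trans ?_
  have h3 : Z⁻¹ * D ≤ 2 * D := mul_le_mul_of_nonneg_right hZi hD0
  have h4 : Z⁻¹ * |W - Z| ≤ 2 * D :=
    mul_le_mul hZi hZW (abs_nonneg _) (by norm_num)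
  linarith

/-- the weight -/
noncomputable def e43w (R : ℝ) (f : G → EuclideanSpace ℝ (Fin M)) (z : EuclideanSpace ℝ (Fin M))
    (a : G) : ℝ :=
  max 0 (min 1 (2 - qd z (f a) / R))

omit [Group G] in
lemma e43w_nonneg (R : ℝ) (z : EuclideanSpace ℝ (Fin M)) (a : G) : 0 ≤ e43w R f z a :=
  le_max_left _ _

omit [Group G] in
lemma e43w_ne {R : ℝ} (hR : 0 < R) {z : EuclideanSpace ℝ (Fin M)} {a : G}
    (h : e43w R f z a ≠ 0) : qd z (f a) ≤ 2 * R := by
  by_contra h1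
  apply h
  rw [not_le] at h1
  have h2 : 2 < qd z (f a) / R := by
    rw [lt_div_iff₀ hR]
    exact h1
  unfold e43w
  exact max_eq_left ((min_le_right _ _).trans (by linarith))

omit [Group G] in
lemma e43w_one {R : ℝ} (hR : 0 < R) {z : EuclideanSpace ℝ (Fin M)} {a : G}
    (h : qd z (f a) ≤ R) : e43w R f z a = 1 := by
  have h2 : qd z (f a) / R ≤ 1 := by
    rw [div_le_one hR]
    exact h
  unfold e43w
  rw [min_eq_left (by linarith)]
  exact max_eq_right zero_le_one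

omit [Group G] in
lemma e43w_lip {R : ℝ} (hR : 1 ≤ R) (z z' : EuclideanSpace ℝ (Fin M)) (a : G) :
    |e43w R f z a - e43w R f z' a| ≤ |qd z (f a) - qd z' (f a)| := by
  unfold e43w
  refine (abs_max_sub_max_le_max _ _ _ _).trans (max_le (by simp) ?_)
  refine (abs_min_sub_min_le_max _ _ _ _).trans (max_le (by simp) ?_)
  have h1 : 2 - qd z (f a) / R - (2 - qd z' (f a) / R) = -((qd z (f a) - qd z' (f a)) / R) := by
    ring
  rw [h1, abs_neg, abs_div, abs_of_pos (show (0 : ℝ) < R by linarith)]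
  exact div_le_self (abs_nonneg _) hR

theorem exists_ql (hd : HypM d) (hf : RoughSim d lam C f) (R : ℝ) (hR : 1 ≤ R) :
    ∃ (ql : EuclideanSpace ℝ (Fin M) → (G →₀ ℝ)) (D' : ℕ) (L : ℝ), 0 ≤ L ∧
      (∀ z, ‖z‖ < 1 → (∃ b, qd z (f b) ≤ R) → ql z ∈ Loc d D' ∧
        ∀ a ∈ (ql z).support, qd z (f a) ≤ 2 * R) ∧
      (∀ z z', ‖z‖ < 1 → ‖z'‖ < 1 → (∃ b, qd z (f b) ≤ R) → (∃ b, qd z' (f b) ≤ R) → qd z z' ≤ 1 →
        d1 (ql z) (ql z') ≤ L * Real.sqrt (qd z z')) := by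
  classical
  have hR0 : 0 < R := by linarith
  obtain ⟨N, hN⟩ := dist_bound hf (25 * ((1 + 2 * R) * (1 + 2 * R)))
  have hdiam : ∀ z, ‖z‖ < 1 → ∀ a b, qd z (f a) ≤ 2 * R → qd z (f b) ≤ 2 * R → d a b ≤ N := by
    intro z hz a b ha hb
    refine hN a b ?_
    have h1 := qd_quasi (hf.ball a) hz (hf.ball b)
    have h2 := qd_nonneg (hf.ball a) hz
    have h3 := qd_nonneg hz (hf.ball b)
    rw [qd_comm (f a) z] at h1 h2
    have h4 : (1 + qd z (f a)) * (1 + qd z (f b)) ≤ (1 + 2 * R) * (1 + 2 * R) :=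
      mul_le_mul (by linarith) (by linarith) (by linarith) (by linarith)
    linarith
  set m := (hd.fin N).toFinset.card with hm
  have hT0 : ∀ z : EuclideanSpace ℝ (Fin M), ∃ T : Finset G, (‖z‖ < 1 → (∃ b, qd z (f b) ≤ R) →
      T.card ≤ m ∧ ∀ a, a ∈ T ↔ qd z (f a) ≤ 2 * R) := by
    intro z
    by_cases h : ‖z‖ < 1 ∧ ∃ b, qd z (f b) ≤ R
    · obtain ⟨hz, b, hb⟩ := h
      have hball : ∀ a, qd z (f a) ≤ 2 * R → d 1 (b⁻¹ * a) ≤ N := by
        intro a ha
        have h1 := hd.inv b⁻¹ b a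
        rw [inv_mul_cancel] at h1
        rw [h1]
        exact hdiam z hz b a (by linarith) ha
      have hfin : {a : G | qd z (f a) ≤ 2 * R}.Finite := by
        refine Set.Finite.subset ((hd.fin N).image (fun a => b * a)) ?_
        intro a ha
        exact ⟨b⁻¹ * a, hball a ha, by simp⟩
      refine ⟨hfin.toFinset, fun _ _ => ⟨?_, fun a => by simp⟩⟩
      refine Finset.card_le_card_of_injOn (fun a => b⁻¹ * a) ?_ ?_
      · intro a ha
        have ha' : qd z (f a) ≤ 2 * R := by simpa using ha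
        simpa using hball a ha'
      · intro a _ c _ h
        exact mul_left_cancel h
    · exact ⟨∅, fun h1 h2 => absurd ⟨h1, h2⟩ h⟩
  choose T hT using hT0
  set S : EuclideanSpace ℝ (Fin M) → ℝ := fun z => ∑ a ∈ T z, e43w R f z a with hS
  set ql : EuclideanSpace ℝ (Fin M) → (G →₀ ℝ) := fun z =>
    ∑ a ∈ T z, Finsupp.single a ((S z)⁻¹ * e43w R f z a) with hql
  have hw0 : ∀ z, ‖z‖ < 1 → (∃ b, qd z (f b) ≤ R) → ∀ a ∉ T z, e43w R f z a = 0 := by
    intro z hz hb a ha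
    by_contra h
    exact ha (((hT z hz hb).2 a).2 (e43w_ne hR0 h))
  have happ : ∀ z, ‖z‖ < 1 → (∃ b, qd z (f b) ≤ R) → ∀ a,
      ql z a = (S z)⁻¹ * e43w R f z a := by
    intro z hz hb a
    rw [hql]
    simp only
    rw [Finsupp.finsetSum_apply]
    simp only [Finsupp.single_apply]
    rw [Finset.sum_ite_eq' (T z) a (fun a => (S z)⁻¹ * e43w R f z a)]
    split_ifs with h
    · rfl
    · rw [hw0 z hz hb a h, mul_zero]
  have hS1 : ∀ z, ‖z‖ < 1 → (∃ b, qd z (f b) ≤ R) → 1 ≤ S z := by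
    intro z hz hb
    obtain ⟨b, hb'⟩ := hb
    have h1 : b ∈ T z := ((hT z hz ⟨b, hb'⟩).2 b).2 (by linarith)
    have h2 := Finset.single_le_sum (f := fun a => e43w R f z a)
      (fun a _ => e43w_nonneg R z a) h1
    rw [e43w_one hR0 hb'] at h2
    exact h2
  have hSsup : ∀ z, ‖z‖ < 1 → (∃ b, qd z (f b) ≤ R) → ∀ T', T z ⊆ T' →
      S z = ∑ a ∈ T', e43w R f z a := by
    intro z hz hb T' hT'
    exact Finset.sum_subset hT' fun a _ ha => hw0 z hz hb a ha
  have hsupp : ∀ z, ‖z‖ < 1 → (∃ b, qd z (f b) ≤ R) → (ql z).support ⊆ T z := by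
    intro z hz hb a ha
    rw [Finsupp.mem_support_iff, happ z hz hb a] at ha
    by_contra h
    exact ha (by rw [hw0 z hz hb a h, mul_zero])
  obtain ⟨C1, hC1, hlip⟩ := qd_lip M (2 * R)
  refine ⟨ql, N, 4 * ((m + m : ℕ) * C1), by positivity, ?_, ?_⟩
  · intro z hz hb
    have hp := hS1 z hz hb
    refine ⟨⟨?_, ?_, ?_⟩, ?_⟩
    · intro a
      rw [happ z hz hb a]
      exact mul_nonneg (inv_nonneg.2 (by linarith)) (e43w_nonneg R z a)
    · intro a ha b hb'
      exact hdiam z hz a b (((hT z hz hb).2 a).1 (hsupp z hz hb ha))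
        (((hT z hz hb).2 b).1 (hsupp z hz hb hb'))
    · rw [Finset.sum_subset (hsupp z hz hb) fun a _ ha => Finsupp.notMem_support_iff.1 ha,
        Finset.sum_congr rfl fun a _ => happ z hz hb a, ← Finset.mul_sum]
      exact inv_mul_cancel₀ (by linarith)
    · intro a ha
      exact ((hT z hz hb).2 a).1 (hsupp z hz hb ha)
  · intro z z' hz hz' hb hb' hzz
    have hTT : (T z ∪ T z').card ≤ m + m :=
      (Finset.card_union_le _ _).trans (add_le_add (hT z hz hb).1 (hT z' hz' hb').1)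
    rw [d1_eq_sum (ql z) (ql z') (T := T z ∪ T z')
      ((hsupp z hz hb).trans Finset.subset_union_left)
      ((hsupp z' hz' hb').trans Finset.subset_union_right)]
    have h1 : ∑ a ∈ T z ∪ T z', |ql z a - ql z' a| =
        ∑ a ∈ T z ∪ T z', |(S z)⁻¹ * e43w R f z a - (S z')⁻¹ * e43w R f z' a| :=
      Finset.sum_congr rfl fun a _ => by rw [happ z hz hb a, happ z' hz' hb' a]
    rw [h1]
    refine (e43_quot (T z ∪ T z') (fun a => e43w R f z a) (fun a => e43w R f z' a)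
      (fun a _ => e43w_nonneg R z' a) (hSsup z hz hb _ Finset.subset_union_left)
      (hSsup z' hz' hb' _ Finset.subset_union_right) (by linarith [hS1 z hz hb])
      (by linarith [hS1 z' hz' hb'])).trans ?_
    have h2 : ∀ a ∈ T z ∪ T z', |e43w R f z a - e43w R f z' a| ≤ C1 * Real.sqrt (qd z z') := by
      intro a _
      by_cases h3 : qd z (f a) ≤ 2 * R
      · exact (e43w_lip hR z z' a).trans (hlip z z' (f a) hz hz' (hf.ball a) hzz h3)
      · by_cases h4 : qd z' (f a) ≤ 2 * R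
        · rw [abs_sub_comm, qd_comm z z']
          rw [qd_comm z z'] at hzz
          exact (e43w_lip hR z' z a).trans (hlip z' z (f a) hz' hz (hf.ball a) hzz h4)
        · have h5 : e43w R f z a = 0 := by
            by_contra h
            exact h3 (e43w_ne hR0 h)
          have h6 : e43w R f z' a = 0 := by
            by_contra h
            exact h4 (e43w_ne hR0 h)
          rw [h5, h6, sub_zero, abs_zero]
          exact mul_nonneg hC1 (Real.sqrt_nonneg _)
    have h3 := Finset.sum_le_card_nsmul _ _ _ h2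
    rw [nsmul_eq_mul] at h3
    have h4 : ((T z ∪ T z').card : ℝ) ≤ ((m + m : ℕ) : ℝ) := by exact_mod_cast hTT
    have h5 : ((T z ∪ T z').card : ℝ) * (C1 * Real.sqrt (qd z z')) ≤
        ((m + m : ℕ) : ℝ) * (C1 * Real.sqrt (qd z z')) :=
      mul_le_mul_of_nonneg_right h4 (mul_nonneg hC1 (Real.sqrt_nonneg _))
    calc 4 * ∑ a ∈ T z ∪ T z', |e43w R f z a - e43w R f z' a|
        ≤ 4 * (((m + m : ℕ) : ℝ) * (C1 * Real.sqrt (qd z z'))) := by linarith
      _ = 4 * (((m + m : ℕ) : ℝ) * C1) * Real.sqrt (qd z z') := by ring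

end Pool.HQ
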