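import Pool.Agent.HQ.E41

/-!
MP_7936f4_al, THEOREM E, module E44: radial clipping in the ball.

rad κ i = √(1 - e^(-κ i)), clp κ i z = min(1, rad κ i / |z|) • z : the nearest point projection of z onto the ball of radius
rad κ i.  A z = 1 - |z|².
* clp_step: with r_i = |clp i z| = min(rad i, |z|): the two points are on the same ray, qd = (r_{i+1} - r_i)²/((1-r_i²)(1-r_{i+1}²)).
  It is 0 if |z| ≤ rad i.  Otherwise r_i = rad i, 1 - r_i² = e^(-κ i), r_{i+1} ≤ rad (i+1), 1 - r_{i+1}² ≥ e^(-κ(i+1)),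
  r_{i+1} - r_i ≤ rad(i+1) - rad i.  For i = 0: qd ≤ (1 - e^(-κ))/e^(-κ) = e^κ - 1.  For i ≥ 1: rad(i+1) - rad i =
  e^(-κ i)(1-e^(-κ))/(rad(i+1)+rad i) ≤ e^(-κ i) (1-e^(-κ))/rad 1 = e^(-κ i) √(1-e^(-κ)), so qd ≤ (1-e^(-κ)) e^κ = e^κ - 1.
* clp_eq: |z| ≤ rad i, i.e. e^(-κ i) ≤ A z, implies clp i z = z.
* clp_qd: clp i is 1-Lipschitz for the Euclidean norm (projection onto a ball); for qd z z' ≤ 1: A z' ≤ 6 A z (ratio_le with
  R = 1), |z-z'| = √(qd A A') ≤ √6 A √qd; A(clp i z) ≥ max(e^(-κ i), A z), A(clp i z') ≥ max(e^(-κ i), A z /6), so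
  √qd(clp i z, clp i z') ≤ √6 A √qd / √(A(clp i z) A(clp i z')) ≤ 6·√6·min(A e^(κ i), 1)·√qd  (any constant is fine).
* clp_sum: N with e^(-κ N) ≤ A z (all i > N + log 6/κ + 1 are excluded by the hypothesis n ≤ N z + N z' bound): Σ_{i ≤ Nz} A e^(κ i) ≤
  A e^(κ Nz)/(1-e^(-κ)) ≤ e^κ/(1-e^(-κ)) where Nz = ceil(log(1/A z)/κ); the number of i with Nz < i ≤ n ≤ max Nz Nz' is at
  most log 6/κ + 1 because A z / A z' ≤ 6.
-/

namespace Pool.HQ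

variable {M : ℕ}

/-- radius of the i-th ball -/
noncomputable def rad (κ : ℝ) (i : ℕ) : ℝ := Real.sqrt (1 - Real.exp (-(κ * i)))

/-- radial clipping -/
noncomputable def clp (κ : ℝ) (i : ℕ) (z : EuclideanSpace ℝ (Fin M)) : EuclideanSpace ℝ (Fin M) :=
  (min 1 (rad κ i / ‖z‖)) • z

/-- number of steps needed to reach z -/
noncomputable def stp (κ : ℝ) (z : EuclideanSpace ℝ (Fin M)) : ℕ :=
  ⌈Real.log ((1 - ‖z‖ ^ 2)⁻¹) / κ⌉₊

private lemma rad_nonneg (κ : ℝ) (i : ℕ) : 0 ≤ rad κ i := Real.sqrt_nonneg _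

private lemma exp_le_one' {κ : ℝ} (hκ : 0 < κ) (i : ℕ) : Real.exp (-(κ * i)) ≤ 1 := by
  rw [Real.exp_le_one_iff]
  have : 0 ≤ κ * i := by positivity
  linarith

private lemma rad_sq {κ : ℝ} (hκ : 0 < κ) (i : ℕ) : rad κ i ^ 2 = 1 - Real.exp (-(κ * i)) := by
  unfold rad
  rw [Real.sq_sqrt]
  have := exp_le_one' hκ i
  linarith

private lemma norm_clp (κ : ℝ) (i : ℕ) (z : EuclideanSpace ℝ (Fin M)) :
    ‖clp κ i z‖ = min ‖z‖ (rad κ i) := by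
  unfold clp
  have hr := rad_nonneg κ i
  rw [norm_smul, Real.norm_eq_abs, abs_of_nonneg (le_min zero_le_one (by positivity))]
  rcases eq_or_lt_of_le (norm_nonneg z) with h | h
  · rw [← h, mul_zero, min_eq_left hr]
  · rw [min_mul_of_nonneg _ _ h.le, one_mul, div_mul_cancel₀ _ h.ne']

theorem clp_scale {κ : ℝ} (hκ : 0 < κ) (i : ℕ) (z : EuclideanSpace ℝ (Fin M)) :
    ∃ s ∈ Set.Icc (0 : ℝ) 1, clp κ i z = s • z := by
  have hr := rad_nonneg κ i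
  exact ⟨min 1 (rad κ i / ‖z‖), ⟨le_min zero_le_one (by positivity), min_le_left _ _⟩, rfl⟩

theorem clp_zero {κ : ℝ} (z : EuclideanSpace ℝ (Fin M)) : clp κ 0 z = 0 := by
  unfold clp rad
  simp

private lemma clp_of_le (κ : ℝ) (i : ℕ) {z : EuclideanSpace ℝ (Fin M)} (h : ‖z‖ ≤ rad κ i) :
    clp κ i z = z := by
  unfold clp
  rcases eq_or_lt_of_le (norm_nonneg z) with h0 | h0
  · have hz : z = 0 := norm_eq_zero.1 h0.symm
    rw [hz, smul_zero]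
  · rw [min_eq_left, one_smul]
    rw [le_div_iff₀ h0, one_mul]
    exact h

theorem clp_step {κ : ℝ} (hκ : 0 < κ) (i : ℕ) {z : EuclideanSpace ℝ (Fin M)} (hz : ‖z‖ < 1) :
    qd (clp κ i z) (clp κ (i + 1) z) ≤ Real.exp κ - 1 := by
  have hE1 := rad_sq hκ i
  have hE2 := rad_sq hκ (i + 1)
  have hr := rad_nonneg κ i
  have hR := rad_nonneg κ (i + 1)
  have hx : 1 < Real.exp κ := Real.one_lt_exp_iff.2 hκ
  have hEp := Real.exp_pos (-(κ * i))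
  have hEl := exp_le_one' hκ i
  have hEE : Real.exp (-(κ * ((i + 1 : ℕ) : ℝ))) * Real.exp κ = Real.exp (-(κ * i)) := by
    rw [← Real.exp_add]
    congr 1
    push_cast
    ring
  have hqp := Real.exp_pos (-(κ * ((i + 1 : ℕ) : ℝ)))
  set E := Real.exp (-(κ * i)) with hE
  set F := Real.exp (-(κ * ((i + 1 : ℕ) : ℝ))) with hF
  set x := Real.exp κ with hxd
  set r := rad κ i with hrd
  set ρ := rad κ (i + 1) with hρd
  have hFE : F ≤ E := by nlinarith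
  have hrρ : r ≤ ρ := by
    apply le_of_sq_le_sq _ hR
    linarith
  rcases le_or_gt ‖z‖ r with h | h
  · rw [clp_of_le κ i h, clp_of_le κ (i + 1) (h.trans hrρ), qd_self]
    linarith
  · have hz0 : 0 < ‖z‖ := lt_of_le_of_lt hr h
    have n1 := norm_clp κ i z
    have n2 := norm_clp κ (i + 1) z
    rw [← hrd, min_eq_right h.le] at n1
    rw [← hρd] at n2
    set R := min ‖z‖ ρ with hRd
    have hRρ : R ≤ ρ := min_le_right _ _
    have hrR : r ≤ R := le_min h.le hrρ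
    have n3 : ‖clp κ i z - clp κ (i + 1) z‖ = R - r := by
      have e1 : clp κ i z = (r / ‖z‖) • z := by
        unfold clp
        rw [← hrd, min_eq_right]
        rw [div_le_one hz0]
        exact h.le
      have e2 : clp κ (i + 1) z = (R / ‖z‖) • z := by
        unfold clp
        rw [← hρd, hRd]
        congr 1
        rw [← min_div_div_right hz0.le, div_self hz0.ne']
      rw [e1, e2, ← sub_smul, norm_smul, Real.norm_eq_abs, ← sub_div, abs_div,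
        abs_of_pos hz0, div_mul_cancel₀ _ hz0.ne', abs_sub_comm, abs_of_nonneg (by linarith)]
    unfold qd
    rw [n3, n1, n2]
    have hR0 : 0 ≤ R := hr.trans hrR
    have h1r : 1 - r ^ 2 = E := by linarith
    have h1R : F ≤ 1 - R ^ 2 := by
      have : R ^ 2 ≤ ρ ^ 2 := pow_le_pow_left₀ hR0 hRρ 2
      linarith
    rw [h1r, div_le_iff₀ (mul_pos hEp (lt_of_lt_of_le hqp h1R))]
    have k1 : (R - r) ^ 2 ≤ (ρ - r) ^ 2 := pow_le_pow_left₀ (by linarith) (by linarith) 2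
    have k2 : (ρ - r) * (ρ + r) = E - F := by
      have : (ρ - r) * (ρ + r) = ρ ^ 2 - r ^ 2 := by ring
      rw [this]
      linarith
    -- E - F = F * (x - 1), (1 - F / E) ≤ ρ ^ 2
    have k3 : E - F ≤ E * ρ ^ 2 := by
      rw [hE2]
      nlinarith
    have k4 : 0 < E - F := by nlinarith
    have k5 : (ρ - r) ^ 2 * (E - F) ≤ E * (E - F) ^ 2 := by
      have e1 : (ρ - r) ^ 2 * (E - F) ≤ (ρ - r) ^ 2 * (E * ρ ^ 2) :=
        mul_le_mul_of_nonneg_left k3 (sq_nonneg _)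
      have e2 : (ρ - r) ^ 2 * (E * ρ ^ 2) ≤ E * ((ρ - r) * (ρ + r)) ^ 2 := by
        have e3 : ρ ^ 2 ≤ (ρ + r) ^ 2 := pow_le_pow_left₀ hR (by linarith) 2
        have e4 : E * ((ρ - r) * (ρ + r)) ^ 2 - (ρ - r) ^ 2 * (E * ρ ^ 2) =
            E * (ρ - r) ^ 2 * ((ρ + r) ^ 2 - ρ ^ 2) := by ring
        have e5 : 0 ≤ E * (ρ - r) ^ 2 * ((ρ + r) ^ 2 - ρ ^ 2) := by
          apply mul_nonneg (by positivity)
          linarith
        linarith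
      rw [k2] at e2
      exact e1.trans e2
    have k6 : (ρ - r) ^ 2 ≤ E * (E - F) := by
      have : (ρ - r) ^ 2 * (E - F) ≤ (E * (E - F)) * (E - F) := by
        rw [show E * (E - F) * (E - F) = E * (E - F) ^ 2 by ring]
        exact k5
      exact le_of_mul_le_mul_right this k4
    have k7 : (x - 1) * (E * (1 - R ^ 2)) ≥ E * (E - F) := by
      have : E - F = F * (x - 1) := by
        rw [← hEE]
        ring
      rw [this]
      have e1 : F * (x - 1) ≤ (1 - R ^ 2) * (x - 1) :=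
        mul_le_mul_of_nonneg_right h1R (by linarith)
      have e2 := mul_le_mul_of_nonneg_left e1 hEp.le
      linarith
    linarith

private lemma exp_stp_le {κ : ℝ} (hκ : 0 < κ) {z : EuclideanSpace ℝ (Fin M)} (hz : ‖z‖ < 1) {i : ℕ}
    (hi : stp κ z ≤ i) : Real.exp (-(κ * i)) ≤ 1 - ‖z‖ ^ 2 := by
  have hA := A_pos hz
  unfold stp at hi
  have h1 := Nat.le_ceil (Real.log ((1 - ‖z‖ ^ 2)⁻¹) / κ)
  have h2 : Real.log ((1 - ‖z‖ ^ 2)⁻¹) / κ ≤ i := h1.trans (by exact_mod_cast hi)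
  rw [div_le_iff₀ hκ, Real.log_inv] at h2
  have h3 : -(κ * i) ≤ Real.log (1 - ‖z‖ ^ 2) := by linarith
  calc Real.exp (-(κ * i)) ≤ Real.exp (Real.log (1 - ‖z‖ ^ 2)) := Real.exp_le_exp.2 h3
    _ = 1 - ‖z‖ ^ 2 := Real.exp_log hA

theorem clp_eq {κ : ℝ} (hκ : 0 < κ) {z : EuclideanSpace ℝ (Fin M)} (hz : ‖z‖ < 1) {i : ℕ}
    (hi : stp κ z ≤ i) : clp κ i z = z := by
  apply clp_of_le
  have h1 := exp_stp_le hκ hz hi
  apply le_of_sq_le_sq _ (rad_nonneg κ i)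
  rw [rad_sq hκ]
  linarith

private lemma clp_lip (κ : ℝ) (i : ℕ) (z z' : EuclideanSpace ℝ (Fin M)) :
    ‖clp κ i z - clp κ i z'‖ ≤ 3 * ‖z - z'‖ := by
  have hr := rad_nonneg κ i
  have n1 := norm_clp κ i z
  have n2 := norm_clp κ i z'
  unfold clp at n1 n2 ⊢
  have hs0 : 0 ≤ min 1 (rad κ i / ‖z‖) := le_min zero_le_one (by positivity)
  have hs1 : min 1 (rad κ i / ‖z‖) ≤ 1 := min_le_left _ _
  have ht0 : 0 ≤ min 1 (rad κ i / ‖z'‖) := le_min zero_le_one (by positivity)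
  set s := min 1 (rad κ i / ‖z‖) with hs
  set t := min 1 (rad κ i / ‖z'‖) with ht
  rw [norm_smul, Real.norm_eq_abs, abs_of_nonneg hs0] at n1
  rw [norm_smul, Real.norm_eq_abs, abs_of_nonneg ht0] at n2
  have e : s • z - t • z' = s • (z - z') + (s - t) • z' := by
    rw [smul_sub, sub_smul]
    abel
  have h1 : |‖z‖ - ‖z'‖| ≤ ‖z - z'‖ := abs_norm_sub_norm_le z z'
  have h2 : |min ‖z‖ (rad κ i) - min ‖z'‖ (rad κ i)| ≤ ‖z - z'‖ := by
    refine (abs_min_sub_min_le_max _ _ _ _).trans ?_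
    rw [sub_self, abs_zero]
    exact max_le h1 (norm_nonneg _)
  rw [← n1, ← n2] at h2
  have h3 : |(s - t) * ‖z'‖| ≤ 2 * ‖z - z'‖ := by
    have e1 : (s - t) * ‖z'‖ = s * (‖z'‖ - ‖z‖) + (s * ‖z‖ - t * ‖z'‖) := by ring
    rw [e1]
    refine (abs_add_le _ _).trans ?_
    have e2 : |s * (‖z'‖ - ‖z‖)| ≤ 1 * ‖z - z'‖ := by
      rw [abs_mul, abs_of_nonneg hs0, abs_sub_comm]
      exact mul_le_mul hs1 h1 (abs_nonneg _) zero_le_one
    linarith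
  rw [e]
  refine (norm_add_le _ _).trans ?_
  rw [norm_smul, norm_smul, Real.norm_eq_abs, Real.norm_eq_abs, abs_of_nonneg hs0]
  rw [abs_mul, abs_of_nonneg (norm_nonneg z')] at h3
  have h4 : s * ‖z - z'‖ ≤ 1 * ‖z - z'‖ := mul_le_mul_of_nonneg_right hs1 (norm_nonneg _)
  linarith

private lemma A_clp_ge {κ : ℝ} (hκ : 0 < κ) (i : ℕ) {z : EuclideanSpace ℝ (Fin M)} :
    1 - ‖z‖ ^ 2 ≤ 1 - ‖clp κ i z‖ ^ 2 ∧ Real.exp (-(κ * i)) ≤ 1 - ‖clp κ i z‖ ^ 2 := by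
  have hr := rad_nonneg κ i
  have h0 : 0 ≤ min ‖z‖ (rad κ i) := le_min (norm_nonneg _) hr
  rw [norm_clp]
  constructor
  · have := pow_le_pow_left₀ h0 (min_le_left ‖z‖ (rad κ i)) 2
    linarith
  · have := pow_le_pow_left₀ h0 (min_le_right ‖z‖ (rad κ i)) 2
    rw [rad_sq hκ] at this
    linarith

private lemma sqrt_qd_le {x y : EuclideanSpace ℝ (Fin M)} {z z' : EuclideanSpace ℝ (Fin M)}
    (hz : ‖z‖ < 1) (hz' : ‖z'‖ < 1) {a : ℝ} (ha : 0 < a) (hx : a ≤ 1 - ‖x‖ ^ 2)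
    {b : ℝ} (hb : 0 < b) (hy : b ≤ 1 - ‖y‖ ^ 2) (h : ‖x - y‖ ≤ 3 * ‖z - z'‖) {K : ℝ} (hK : 0 ≤ K)
    (hab : (1 - ‖z‖ ^ 2) * (1 - ‖z'‖ ^ 2) ≤ K ^ 2 * (a * b)) :
    Real.sqrt (qd x y) ≤ 3 * K * Real.sqrt (qd z z') := by
  have q0 := qd_nonneg hz hz'
  rw [Real.sqrt_le_left (by positivity), mul_pow, Real.sq_sqrt q0]
  have n1 := norm_sub_sq_eq hz hz'
  unfold qd at n1 ⊢
  set q := ‖z - z'‖ ^ 2 / ((1 - ‖z‖ ^ 2) * (1 - ‖z'‖ ^ 2)) with hq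
  rw [div_le_iff₀ (mul_pos (lt_of_lt_of_le ha hx) (lt_of_lt_of_le hb hy))]
  have h1 : ‖x - y‖ ^ 2 ≤ 9 * ‖z - z'‖ ^ 2 := by
    have := pow_le_pow_left₀ (norm_nonneg _) h 2
    rw [mul_pow] at this
    linarith
  rw [n1] at h1
  have hq0 : 0 ≤ q := q0
  have h2 : q * ((1 - ‖z‖ ^ 2) * (1 - ‖z'‖ ^ 2)) ≤ q * (K ^ 2 * (a * b)) :=
    mul_le_mul_of_nonneg_left hab hq0
  have h3 : a * b ≤ (1 - ‖x‖ ^ 2) * (1 - ‖y‖ ^ 2) :=
    mul_le_mul hx hy hb.le (le_trans ha.le hx)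
  have h4 : q * K ^ 2 * (a * b) ≤ q * K ^ 2 * ((1 - ‖x‖ ^ 2) * (1 - ‖y‖ ^ 2)) :=
    mul_le_mul_of_nonneg_left h3 (by positivity)
  calc ‖x - y‖ ^ 2 ≤ 9 * (q * ((1 - ‖z‖ ^ 2) * (1 - ‖z'‖ ^ 2))) := h1
    _ ≤ 9 * (q * (K ^ 2 * (a * b))) := by linarith
    _ = 9 * (q * K ^ 2 * (a * b)) := by ring
    _ ≤ 9 * (q * K ^ 2 * ((1 - ‖x‖ ^ 2) * (1 - ‖y‖ ^ 2))) := by linarith
    _ = (3 * K) ^ 2 * q * ((1 - ‖x‖ ^ 2) * (1 - ‖y‖ ^ 2)) := by ring

theorem clp_qd (M : ℕ) {κ : ℝ} (hκ : 0 < κ) : ∃ C : ℝ, 0 ≤ C ∧ ∀ z z' : EuclideanSpace ℝ (Fin M),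
    ‖z‖ < 1 → ‖z'‖ < 1 → qd z z' ≤ 1 → ∀ i,
      Real.sqrt (qd (clp κ i z) (clp κ i z')) ≤ C * Real.sqrt (qd z z') := by
  refine ⟨3 * 1, by norm_num, fun z z' hz hz' _ i => ?_⟩
  exact sqrt_qd_le hz hz' (A_pos hz) (A_clp_ge hκ i).1 (A_pos hz') (A_clp_ge hκ i).1
    (clp_lip κ i z z') zero_le_one (by linarith)

private lemma stp_exp {κ : ℝ} (hκ : 0 < κ) {z : EuclideanSpace ℝ (Fin M)} (hz : ‖z‖ < 1) {n : ℕ}
    (hn : n ≤ stp κ z) : Real.exp κ ^ n * (1 - ‖z‖ ^ 2) ≤ Real.exp κ := by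
  have hA := A_pos hz
  have hA1 := A_le_one z
  have hl : 0 ≤ Real.log ((1 - ‖z‖ ^ 2)⁻¹) := by
    rw [Real.log_inv]
    have := Real.log_nonpos hA.le hA1
    linarith
  have h1 : (stp κ z : ℝ) < Real.log ((1 - ‖z‖ ^ 2)⁻¹) / κ + 1 := by
    unfold stp
    exact Nat.ceil_lt_add_one (div_nonneg hl hκ.le)
  have h2 : (n : ℝ) ≤ Real.log ((1 - ‖z‖ ^ 2)⁻¹) / κ + 1 :=
    le_trans (by exact_mod_cast hn) h1.le
  have h3 : n * κ ≤ Real.log ((1 - ‖z‖ ^ 2)⁻¹) + κ := by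
    have := mul_le_mul_of_nonneg_right h2 hκ.le
    rw [add_mul, div_mul_cancel₀ _ hκ.ne', one_mul] at this
    exact this
  have h4 : Real.exp κ ^ n ≤ (1 - ‖z‖ ^ 2)⁻¹ * Real.exp κ := by
    rw [← Real.exp_nat_mul]
    calc Real.exp (n * κ) ≤ Real.exp (Real.log ((1 - ‖z‖ ^ 2)⁻¹) + κ) := Real.exp_le_exp.2 h3
      _ = (1 - ‖z‖ ^ 2)⁻¹ * Real.exp κ := by
        rw [Real.exp_add, Real.exp_log (inv_pos.2 hA)]
  calc Real.exp κ ^ n * (1 - ‖z‖ ^ 2) ≤ (1 - ‖z‖ ^ 2)⁻¹ * Real.exp κ * (1 - ‖z‖ ^ 2) :=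
        mul_le_mul_of_nonneg_right h4 hA.le
    _ = Real.exp κ := by
        field_simp

private lemma geom_le {x : ℝ} (hx : 1 < x) (n : ℕ) :
    ∑ i ∈ Finset.range (n + 1), x ^ i ≤ x ^ n * (x / (x - 1)) := by
  have h0 : 0 < x - 1 := by linarith
  rw [geom_sum_eq hx.ne', mul_div_assoc', div_le_div_iff_of_pos_right h0, pow_succ]
  linarith

theorem clp_sum (M : ℕ) {κ : ℝ} (hκ : 0 < κ) : ∃ C : ℝ, 0 ≤ C ∧ ∀ z z' : EuclideanSpace ℝ (Fin M),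
    ‖z‖ < 1 → ‖z'‖ < 1 → qd z z' ≤ 1 → ∀ n ≤ max (stp κ z) (stp κ z'),
      ∑ i ∈ Finset.range (n + 1), Real.sqrt (qd (clp κ i z) (clp κ i z')) ≤
        C * Real.sqrt (qd z z') := by
  have hx : 1 < Real.exp κ := Real.one_lt_exp_iff.2 hκ
  have hx0 : 0 < Real.exp κ - 1 := by linarith
  refine ⟨9 * (Real.exp κ * (Real.exp κ / (Real.exp κ - 1))), by positivity,
    fun z z' hz hz' hq n hn => ?_⟩
  have hA := A_pos hz
  have hB := A_pos hz'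
  have q0 := Real.sqrt_nonneg (qd z z')
  -- a common bound `m` with `A A' ≤ (3 m)^2` and `exp κ ^ n * m ≤ exp κ`
  obtain ⟨m, hm0, hm1, hm2⟩ : ∃ m : ℝ, 0 ≤ m ∧
      (1 - ‖z‖ ^ 2) * (1 - ‖z'‖ ^ 2) ≤ (3 * m) ^ 2 ∧ Real.exp κ ^ n * m ≤ Real.exp κ := by
    have r1 := ratio_le hz hz' hq
    have r2 := ratio_le (R := 1) hz' hz (by rw [qd_comm]; exact hq)
    rcases le_max_iff.1 hn with h | h
    · refine ⟨1 - ‖z‖ ^ 2, hA.le, ?_, stp_exp hκ hz h⟩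
      nlinarith [mul_le_mul_of_nonneg_left r2 hA.le]
    · refine ⟨1 - ‖z'‖ ^ 2, hB.le, ?_, stp_exp hκ hz' h⟩
      nlinarith [mul_le_mul_of_nonneg_right r1 hB.le]
  have hterm : ∀ i ∈ Finset.range (n + 1), Real.sqrt (qd (clp κ i z) (clp κ i z')) ≤
      9 * m * Real.sqrt (qd z z') * Real.exp κ ^ i := by
    intro i _
    have hp := Real.exp_pos (-(κ * i))
    have e0 : Real.exp (-(κ * i)) * Real.exp κ ^ i = 1 := by
      rw [← Real.exp_nat_mul, ← Real.exp_add]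
      have : -(κ * i) + i * κ = 0 := by ring
      rw [this, Real.exp_zero]
    have h1 := sqrt_qd_le hz hz' hp (A_clp_ge hκ i (z := z)).2 hp (A_clp_ge hκ i (z := z')).2
      (clp_lip κ i z z') (K := 3 * m * Real.exp κ ^ i) (by positivity) (by
        have e1 : (3 * m * Real.exp κ ^ i) ^ 2 * (Real.exp (-(κ * i)) * Real.exp (-(κ * i))) =
            (3 * m) ^ 2 * (Real.exp (-(κ * i)) * Real.exp κ ^ i) ^ 2 := by ring
        rw [e1, e0]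
        linarith)
    refine h1.trans (le_of_eq ?_)
    ring
  refine (Finset.sum_le_sum hterm).trans ?_
  rw [← Finset.mul_sum]
  have hg := geom_le hx n
  have h2 : 9 * m * Real.sqrt (qd z z') * ∑ i ∈ Finset.range (n + 1), Real.exp κ ^ i ≤
      9 * m * Real.sqrt (qd z z') * (Real.exp κ ^ n * (Real.exp κ / (Real.exp κ - 1))) :=
    mul_le_mul_of_nonneg_left hg (by positivity)
  refine h2.trans ?_
  have h3 : 9 * m * Real.sqrt (qd z z') * (Real.exp κ ^ n * (Real.exp κ / (Real.exp κ - 1))) =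
      (Real.exp κ ^ n * m) * (9 * Real.sqrt (qd z z') * (Real.exp κ / (Real.exp κ - 1))) := by ring
  rw [h3]
  have h4 : (Real.exp κ ^ n * m) * (9 * Real.sqrt (qd z z') * (Real.exp κ / (Real.exp κ - 1))) ≤
      Real.exp κ * (9 * Real.sqrt (qd z z') * (Real.exp κ / (Real.exp κ - 1))) :=
    mul_le_mul_of_nonneg_right hm2 (by positivity)
  refine h4.trans (le_of_eq ?_)
  ring

end Pool.HQ
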