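import Pool.Agent.HQ.E43
import Pool.Agent.HQ.E44
import Pool.Agent.HQ.E05

/-!
MP_7936f4_al, THEOREM E, module E45: uniform trivialisation over the location measures.

Let R1 from fhat_near (D), R0 from stay_near, R = 25(1+R1)(1+R0) + 1 (≥ 1); ql, D1, Lq from exists_ql with this R.  For
x ∈ Loc d D let z = fhat f x.  For s ∈ [0,1] and a ∈ supp x: qd (s z) (s f a) ≤ R1 (qd_scale), qd (s f a) (f b) ≤ R0 for some
b, so qd (s z) (f b) ≤ R (qd_quasi): all points clp κ i z (clp_scale) are near f(G).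
D' : bound for the diameter of supp (ql z) ∪ supp x, x ∈ Loc d D (qd z (f a) ≤ 2R, qd z (f b) ≤ R1 give a bound of qd (f a)(f b)
by qd_quasi, hence of d a b by dist_bound), D' ≥ D, D' ≥ D1.  Then ql (clp κ i z) ∈ Loc d D' and the segment
(1-s) ql z + s x is in Loc d D'.
Given P with Lipschitz constant L: choose κ ∈ (0,1] with e^κ - 1 ≤ 1 and L Lq √(e^κ - 1) ≤ 1/2, m ≥ 1 with 2L/m ≤ 1/2.
Radial chain: Pr z i = P (ql (clp κ i z)) (all i; consecutive distance ≤ 1/2 by clp_step; constant for i ≥ stp κ z by clp_eq);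
segment chain: Ps x j = P ((1 - j/m) ql z + (j/m) x), j ≤ m (consecutive points at distance d1(ql z, x)/m ≤ 2/m).
W x = chn (Ps x) m * chn (Pr z) (stp κ z),  x₀ = ql 0 (clp_zero).  chn_spec: unitary, intertwines P x₀ and P x
(Ps x 0 = P (ql z) = Pr z (stp κ z), Ps x m = P x).
Lipschitz: x, y ∈ Loc d D.  There is η ∈ (0,1] such that d1 x y < η implies qd z z' ≤ 1 and qd (clp i z)(clp i z') ≤ 1 for all i
(fhat_lip, clp_qd), z' = fhat f y.  If d1 x y ≥ η use ‖W x - W y‖ ≤ 2 ≤ (2/η) d1 x y.  If d1 x y < η: n = max (stp z)(stp z');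
chn (Pr z) (stp z) = chn (Pr z) n (chn_const), same for z'; chn_lip: difference ≤ 16 Σ_{i ≤ n} L Lq √qd(clp i z, clp i z') ≤
C √qd(z,z') ≤ C' d1 x y (clp_sum, fhat_lip).  Segment chain: d1 of the points ≤ d1 (ql z)(ql z') + d1 x y.
Unitary elements have norm ≤ 1; product estimate.
-/

namespace Pool.HQ

/-- product estimate for elements of norm at most 1 -/
lemma e45_prod {A : Type} [CStarAlgebra A] {a b a' b' : A} (hb : ‖b‖ ≤ 1) (ha' : ‖a'‖ ≤ 1) :
    ‖a * b - a' * b'‖ ≤ ‖a - a'‖ + ‖b - b'‖ := by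
  have h : a * b - a' * b' = (a - a') * b + a' * (b - b') := by noncomm_ring
  rw [h]
  refine (norm_add_le _ _).trans ?_
  have h1 := norm_mul_le (a - a') b
  have h2 := norm_mul_le a' (b - b')
  have h3 : ‖a - a'‖ * ‖b‖ ≤ ‖a - a'‖ := mul_le_of_le_one_right (norm_nonneg _) hb
  have h4 : ‖a'‖ * ‖b - b'‖ ≤ ‖b - b'‖ := mul_le_of_le_one_left (norm_nonneg _) ha'
  linarith

lemma e45_seg {V : Type} (p p' x y : V →₀ ℝ) {s : ℝ} (hs : s ∈ Set.Icc (0 : ℝ) 1) :
    d1 ((1 - s) • p + s • x) ((1 - s) • p' + s • y) ≤ d1 p p' + d1 x y := by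
  unfold d1
  have h : (1 - s) • p + s • x - ((1 - s) • p' + s • y) = (1 - s) • (p - p') + s • (x - y) := by
    rw [smul_sub, smul_sub]
    abel
  rw [h]
  refine (n1_add_le _ _).trans ?_
  rw [n1_smul, n1_smul, abs_of_nonneg hs.1, abs_of_nonneg (sub_nonneg.2 hs.2)]
  have h1 : (1 - s) * n1 (p - p') ≤ n1 (p - p') :=
    mul_le_of_le_one_left (n1_nonneg _) (by linarith [hs.1])
  have h2 : s * n1 (x - y) ≤ n1 (x - y) := mul_le_of_le_one_left (n1_nonneg _) hs.2
  linarith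

theorem exists_UT {G : Type} [Group G] {d : G → G → ℕ} {M : ℕ} {lam C : ℝ}
    {f : G → EuclideanSpace ℝ (Fin M)} (hd : HypM d) (hf : RoughSim d lam C f) (D : ℕ) :
    ∃ D' : ℕ, D ≤ D' ∧ ∀ (A : Type) [CStarAlgebra A] (P : (G →₀ ℝ) → A) (L : ℝ), 0 ≤ L →
      (∀ x ∈ Loc d D', IsStarProjection (P x)) →
      (∀ x ∈ Loc d D', ∀ y ∈ Loc d D', ‖P x - P y‖ ≤ L * d1 x y) →
      ∃ (x₀ : G →₀ ℝ) (W : (G →₀ ℝ) → A) (C' : ℝ), x₀ ∈ Loc d D' ∧ 0 ≤ C' ∧
        (∀ x ∈ Loc d D, W x ∈ unitary A ∧ W x * P x₀ = P x * W x) ∧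
        ∀ x ∈ Loc d D, ∀ y ∈ Loc d D, ‖W x - W y‖ ≤ C' * d1 x y := by
  classical
  obtain ⟨R1, hR1, hnear⟩ := fhat_near hd hf D
  obtain ⟨R0, hR0, hstay⟩ := stay_near hd hf
  obtain ⟨R, hRdef⟩ : ∃ R : ℝ, R = 25 * ((1 + R1) * (1 + R0)) := ⟨_, rfl⟩
  have hR : 1 ≤ R := by
    have h : 0 ≤ R1 * R0 := mul_nonneg hR1 hR0
    rw [hRdef]
    nlinarith
  obtain ⟨ql, D1, Lq, hLq, hql1, hql2⟩ := exists_ql hd hf R hR
  obtain ⟨D2, hD2⟩ := dist_bound hf (25 * ((1 + 2 * R) * (1 + R1)))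
  have hA : ∀ x ∈ Loc d D, ∀ s ∈ Set.Icc (0 : ℝ) 1, ‖s • fhat f x‖ < 1 ∧
      ∃ b, qd (s • fhat f x) (f b) ≤ R := by
    intro x hx s hs
    obtain ⟨h1, h2⟩ := hnear x hx
    obtain ⟨a, ha⟩ := sx_support_nonempty (e31_loc_sx hx)
    obtain ⟨b, hb⟩ := hstay a s hs
    have hsz : ‖s • fhat f x‖ < 1 := by
      rw [norm_smul, Real.norm_of_nonneg hs.1]
      exact (mul_le_of_le_one_left (norm_nonneg _) hs.2).trans_lt h1
    have hsa : ‖s • f a‖ < 1 := by
      rw [norm_smul, Real.norm_of_nonneg hs.1]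
      exact (mul_le_of_le_one_left (norm_nonneg _) hs.2).trans_lt (hf.ball a)
    refine ⟨hsz, b, ?_⟩
    have h3 := qd_quasi hsz hsa (hf.ball b)
    have h4 := (qd_scale h1 (hf.ball a) hs).trans (h2 a ha)
    have h5 := qd_nonneg hsz hsa
    have h6 := qd_nonneg hsa (hf.ball b)
    have h7 : (1 + qd (s • fhat f x) (s • f a)) * (1 + qd (s • f a) (f b)) ≤
        (1 + R1) * (1 + R0) :=
      mul_le_mul (by linarith) (by linarith) (by linarith) (by linarith)
    rw [hRdef]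
    linarith
  have hclp : ∀ (κ : ℝ), 0 < κ → ∀ x ∈ Loc d D, ∀ i, ‖clp κ i (fhat f x)‖ < 1 ∧
      ∃ b, qd (clp κ i (fhat f x)) (f b) ≤ R := by
    intro κ hκ x hx i
    obtain ⟨s, hs, h⟩ := clp_scale hκ i (fhat f x)
    rw [h]
    exact hA x hx s hs
  have hz1 : ∀ x ∈ Loc d D, ∃ b, qd (fhat f x) (f b) ≤ R := by
    intro x hx
    have h := (hA x hx 1 ⟨zero_le_one, le_refl _⟩).2
    simpa only [one_smul] using h
  obtain ⟨D', hDD, hD1', hD2'⟩ : ∃ D' : ℕ, D ≤ D' ∧ D1 ≤ D' ∧ D2 ≤ D' :=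
    ⟨max D (max D1 D2), le_max_left _ _, (le_max_left _ _).trans (le_max_right _ _),
      (le_max_right _ _).trans (le_max_right _ _)⟩
  have hseg : ∀ x ∈ Loc d D, ∀ s ∈ Set.Icc (0 : ℝ) 1,
      (1 - s) • ql (fhat f x) + s • x ∈ Loc d D' := by
    intro x hx s hs
    obtain ⟨q1, q2⟩ := hql1 (fhat f x) (hnear x hx).1 (hz1 x hx)
    have h1 : ql (fhat f x) ∈ sx ((ql (fhat f x)).support ∪ x.support) :=
      sx_mono Finset.subset_union_left (e31_loc_sx q1)
    have h2 : x ∈ sx ((ql (fhat f x)).support ∪ x.support) :=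
      sx_mono Finset.subset_union_right (e31_loc_sx hx)
    have h3 := seg_mem h1 h2 hs
    have hmix : ∀ a ∈ (ql (fhat f x)).support, ∀ b ∈ x.support, d a b ≤ D2 := by
      intro a ha b hb
      apply hD2
      have h4 := qd_quasi (hf.ball a) (hnear x hx).1 (hf.ball b)
      have h5 := q2 a ha
      rw [qd_comm] at h5
      have h6 := (hnear x hx).2 b hb
      have h7 := qd_nonneg (hf.ball a) (hnear x hx).1
      have h8 := qd_nonneg (hnear x hx).1 (hf.ball b)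
      have h9 : (1 + qd (f a) (fhat f x)) * (1 + qd (fhat f x) (f b)) ≤
          (1 + 2 * R) * (1 + R1) :=
        mul_le_mul (by linarith) (by linarith) (by linarith) (by linarith)
      linarith
    refine ⟨h3.1, ?_, h3.2.2⟩
    intro a ha b hb
    rcases Finset.mem_union.1 (h3.2.1 ha) with ha' | ha' <;>
      rcases Finset.mem_union.1 (h3.2.1 hb) with hb' | hb'
    · exact (q1.2.1 a ha' b hb').trans hD1'
    · exact (hmix a ha' b hb').trans hD2'
    · rw [hd.symm]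
      exact (hmix b hb' a ha').trans hD2'
    · exact (hx.2.1 a ha' b hb').trans hDD
  refine ⟨D', hDD, ?_⟩
  intro A _ P L hL hproj hPlip
  have hLL : 0 ≤ L * Lq := mul_nonneg hL hLq
  obtain ⟨ε, hε0, hε1, hε2⟩ : ∃ ε : ℝ, 0 < ε ∧ ε ≤ 1 ∧ L * Lq * ε ≤ 1 / 2 := by
    refine ⟨1 / (2 * (L * Lq + 1)), by positivity, ?_, ?_⟩
    · rw [div_le_one (by positivity)]
      linarith
    · rw [mul_one_div, div_le_div_iff₀ (by positivity) (by norm_num)]
      linarith
  obtain ⟨κ, hκ, hexp⟩ : ∃ κ : ℝ, 0 < κ ∧ Real.exp κ - 1 = ε ^ 2 := by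
    refine ⟨Real.log (1 + ε ^ 2), Real.log_pos (by nlinarith), ?_⟩
    rw [Real.exp_log (by positivity)]
    ring
  have hsq : Real.sqrt (Real.exp κ - 1) = ε := by
    rw [hexp]
    exact Real.sqrt_sq hε0.le
  have hexp1 : Real.exp κ - 1 ≤ 1 := by
    rw [hexp]
    nlinarith
  obtain ⟨m, hm1, hm2⟩ : ∃ m : ℕ, 4 * L ≤ m ∧ 1 ≤ m := by
    refine ⟨⌈4 * L⌉₊ + 1, ?_, by omega⟩
    push_cast
    have := Nat.le_ceil (4 * L)
    linarith
  have hm0 : (0 : ℝ) < m := by exact_mod_cast hm2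
  obtain ⟨Pr, hPrd⟩ : ∃ Pr : (G →₀ ℝ) → ℕ → A,
      ∀ x i, Pr x i = P (ql (clp κ i (fhat f x))) := ⟨_, fun _ _ => rfl⟩
  obtain ⟨Ps, hPsd⟩ : ∃ Ps : (G →₀ ℝ) → ℕ → A,
      ∀ x j, Ps x j = P ((1 - (j : ℝ) / m) • ql (fhat f x) + ((j : ℝ) / m) • x) :=
    ⟨_, fun _ _ => rfl⟩
  have hloc : ∀ x ∈ Loc d D, ∀ i, ql (clp κ i (fhat f x)) ∈ Loc d D' := fun x hx i =>
    loc_mono hD1' (hql1 _ (hclp κ hκ x hx i).1 (hclp κ hκ x hx i).2).1
  have hPr : ∀ x ∈ Loc d D, ∀ i, IsStarProjection (Pr x i) := by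
    intro x hx i
    rw [hPrd]
    exact hproj _ (hloc x hx i)
  have hPr1 : ∀ x ∈ Loc d D, ∀ i, ‖Pr x i - Pr x (i + 1)‖ ≤ 1 / 2 := by
    intro x hx i
    rw [hPrd, hPrd]
    have h1 := hPlip _ (hloc x hx i) _ (hloc x hx (i + 1))
    have h2 := clp_step hκ i (hnear x hx).1
    have h3 := hql2 _ _ (hclp κ hκ x hx i).1 (hclp κ hκ x hx (i + 1)).1 (hclp κ hκ x hx i).2
      (hclp κ hκ x hx (i + 1)).2 (h2.trans hexp1)
    have h4 : Real.sqrt (qd (clp κ i (fhat f x)) (clp κ (i + 1) (fhat f x))) ≤ ε := by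
      rw [← hsq]
      exact Real.sqrt_le_sqrt h2
    refine h1.trans ((mul_le_mul_of_nonneg_left (h3.trans (mul_le_mul_of_nonneg_left h4 hLq))
      hL).trans ?_)
    rw [← mul_assoc]
    exact hε2
  have hPr2 : ∀ x ∈ Loc d D, ∀ i, stp κ (fhat f x) ≤ i → Pr x i = P (ql (fhat f x)) := by
    intro x hx i hi
    rw [hPrd, clp_eq hκ (hnear x hx).1 hi]
  have hj : ∀ j : ℕ, j ≤ m → (j : ℝ) / m ∈ Set.Icc (0 : ℝ) 1 := by
    intro j hjm
    refine ⟨by positivity, ?_⟩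
    rw [div_le_one hm0]
    exact_mod_cast hjm
  have hPs : ∀ x ∈ Loc d D, ∀ j, j ≤ m → IsStarProjection (Ps x j) := by
    intro x hx j hjm
    rw [hPsd]
    exact hproj _ (hseg x hx _ (hj j hjm))
  have hPs1 : ∀ x ∈ Loc d D, ∀ j, j < m → ‖Ps x j - Ps x (j + 1)‖ ≤ 1 / 2 := by
    intro x hx j hjm
    rw [hPsd, hPsd]
    have h1 := hPlip _ (hseg x hx _ (hj j hjm.le)) _ (hseg x hx _ (hj (j + 1) hjm))
    rw [seg_d1'] at h1
    have h2 : d1 (ql (fhat f x)) x ≤ 2 :=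
      sx_d1_le (e31_loc_sx (hql1 (fhat f x) (hnear x hx).1 (hz1 x hx)).1) (e31_loc_sx hx)
    have h3 : |(j : ℝ) / m - ((j + 1 : ℕ) : ℝ) / m| = 1 / m := by
      push_cast
      rw [← sub_div, show (j : ℝ) - (j + 1) = -1 by ring, neg_div, abs_neg,
        abs_of_nonneg (by positivity)]
    rw [h3] at h1
    refine h1.trans ?_
    have h4 : 1 / (m : ℝ) * d1 (ql (fhat f x)) x ≤ 1 / m * 2 :=
      mul_le_mul_of_nonneg_left h2 (by positivity)
    refine (mul_le_mul_of_nonneg_left h4 hL).trans ?_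
    have h5 : L * (1 / (m : ℝ) * 2) = (2 * L) / m := by ring
    rw [h5, div_le_div_iff₀ hm0 (by norm_num)]
    linarith
  have hPs0 : ∀ x, Ps x 0 = P (ql (fhat f x)) := by
    intro x
    rw [hPsd]
    simp
  have hPsm : ∀ x, Ps x m = P x := by
    intro x
    rw [hPsd, div_self hm0.ne']
    simp
  have hzero : ‖(0 : EuclideanSpace ℝ (Fin M))‖ < 1 ∧
      ∃ b, qd (0 : EuclideanSpace ℝ (Fin M)) (f b) ≤ R := by
    refine ⟨by simp, 1, ?_⟩
    rw [hf.one, qd_self]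
    linarith
  have hs1 : ∀ x ∈ Loc d D, chn (Ps x) m ∈ unitary A ∧
      chn (Ps x) m * Ps x 0 = Ps x m * chn (Ps x) m := by
    intro x hx
    have h := chn_spec (P := Ps x) (n := m) (hPs x hx) (hPs1 x hx)
    exact ⟨h.1, h.2.1⟩
  have hs2 : ∀ x ∈ Loc d D, ∀ n, chn (Pr x) n ∈ unitary A ∧
      chn (Pr x) n * Pr x 0 = Pr x n * chn (Pr x) n := by
    intro x hx n
    have h := chn_spec (P := Pr x) (n := n) (fun i _ => hPr x hx i) (fun i _ => hPr1 x hx i)
    exact ⟨h.1, h.2.1⟩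
  obtain ⟨C1, hC1, hfl⟩ := fhat_lip hd hf D
  obtain ⟨Cq, hCq, hcq⟩ := clp_qd M hκ
  obtain ⟨Cs, hCs, hcs⟩ := clp_sum M hκ
  obtain ⟨η, hη0, hη1, hη2, hη3⟩ : ∃ η : ℝ, 0 < η ∧ η ≤ 1 ∧ C1 * η ≤ 1 ∧ Cq * (C1 * η) ≤ 1 := by
    have hp : 0 ≤ Cq * C1 := mul_nonneg hCq hC1
    refine ⟨1 / (1 + C1 + Cq * C1), by positivity, ?_, ?_, ?_⟩
    · rw [div_le_one (by positivity)]
      linarith
    · rw [mul_one_div, div_le_one (by positivity)]
      linarith
    · rw [← mul_assoc, mul_one_div, div_le_one (by positivity)]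
      linarith
  refine ⟨ql 0, fun x => chn (Ps x) m * chn (Pr x) (stp κ (fhat f x)),
    2 / η + (16 * ((m + 1) * (L * (Lq * C1 + 1))) + 16 * (L * Lq * (Cs * C1))),
    loc_mono hD1' (hql1 0 hzero.1 hzero.2).1, by positivity, ?_, ?_⟩
  · intro x hx
    refine ⟨mul_mem (hs1 x hx).1 (hs2 x hx _).1, ?_⟩
    have h1 := (hs1 x hx).2
    have h2 := (hs2 x hx (stp κ (fhat f x))).2
    rw [hPs0, hPsm] at h1
    rw [hPr2 x hx _ le_rfl, hPrd, clp_zero] at h2
    show chn (Ps x) m * chn (Pr x) (stp κ (fhat f x)) * P (ql 0) =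
      P x * (chn (Ps x) m * chn (Pr x) (stp κ (fhat f x)))
    rw [mul_assoc, h2, ← mul_assoc, h1, mul_assoc]
  · intro x hx y hy
    have hu1 := t_unitary_le (hs1 x hx).1
    have hu1' := t_unitary_le (hs1 y hy).1
    have hu2 := t_unitary_le (hs2 x hx (stp κ (fhat f x))).1
    have hu2' := t_unitary_le (hs2 y hy (stp κ (fhat f y))).1
    have hd0 := d1_nonneg x y
    have ht1 : 0 ≤ 16 * ((m + 1) * (L * (Lq * C1 + 1))) * d1 x y := by positivity
    have ht2 : 0 ≤ 16 * (L * Lq * (Cs * C1)) * d1 x y := by positivity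
    rcases le_or_gt η (d1 x y) with hle | hlt
    · have h1 : ‖chn (Ps x) m * chn (Pr x) (stp κ (fhat f x)) -
          chn (Ps y) m * chn (Pr y) (stp κ (fhat f y))‖ ≤ 2 := by
        refine (norm_sub_le _ _).trans ?_
        have a1 := norm_mul_le (chn (Ps x) m) (chn (Pr x) (stp κ (fhat f x)))
        have a2 := norm_mul_le (chn (Ps y) m) (chn (Pr y) (stp κ (fhat f y)))
        have a3 := mul_le_one₀ hu1 (norm_nonneg _) hu2
        have a4 := mul_le_one₀ hu1' (norm_nonneg _) hu2'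
        linarith
      have h2 : 2 ≤ 2 / η * d1 x y := by
        rw [div_mul_eq_mul_div, le_div_iff₀ hη0]
        linarith
      refine h1.trans ?_
      rw [add_mul, add_mul]
      linarith
    · have hlt2 : d1 x y < 2 := by linarith
      have hq := hfl x hx y hy hlt2
      have hq1 : Real.sqrt (qd (fhat f x) (fhat f y)) ≤ 1 :=
        hq.trans ((mul_le_mul_of_nonneg_left hlt.le hC1).trans hη2)
      have hle1 : ∀ {t : ℝ}, Real.sqrt t ≤ 1 → t ≤ 1 := by
        intro t ht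
        have := Real.sqrt_le_left (show (0 : ℝ) ≤ 1 from zero_le_one) |>.1 ht
        simpa using this
      have hqd := hle1 hq1
      have hz := (hnear x hx).1
      have hz' := (hnear y hy).1
      have hci : ∀ i, qd (clp κ i (fhat f x)) (clp κ i (fhat f y)) ≤ 1 := by
        intro i
        apply hle1
        refine (hcq _ _ hz hz' hqd i).trans ?_
        refine le_trans (mul_le_mul_of_nonneg_left (hq.trans
          (mul_le_mul_of_nonneg_left hlt.le hC1)) hCq) hη3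
      -- radial chains
      have hrad : ‖chn (Pr x) (stp κ (fhat f x)) - chn (Pr y) (stp κ (fhat f y))‖ ≤
          16 * (L * Lq * (Cs * C1)) * d1 x y := by
        obtain ⟨n, hn⟩ : ∃ n, n = max (stp κ (fhat f x)) (stp κ (fhat f y)) := ⟨_, rfl⟩
        have e1 : chn (Pr x) n = chn (Pr x) (stp κ (fhat f x)) := by
          refine chn_const (hPr x hx) ?_ (by rw [hn]; exact le_max_left _ _)
          intro i hi
          rw [hPr2 x hx i hi, hPr2 x hx _ le_rfl]
        have e2 : chn (Pr y) n = chn (Pr y) (stp κ (fhat f y)) := by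
          refine chn_const (hPr y hy) ?_ (by rw [hn]; exact le_max_right _ _)
          intro i hi
          rw [hPr2 y hy i hi, hPr2 y hy _ le_rfl]
        rw [← e1, ← e2]
        refine (chn_lip (P := Pr x) (P' := Pr y) (n := n) (fun i _ => hPr x hx i)
          (fun i _ => hPr y hy i) (fun i _ => hPr1 x hx i) (fun i _ => hPr1 y hy i)).trans ?_
        have h3 : ∑ i ∈ Finset.range (n + 1), ‖Pr x i - Pr y i‖ ≤
            ∑ i ∈ Finset.range (n + 1), L * Lq *
              Real.sqrt (qd (clp κ i (fhat f x)) (clp κ i (fhat f y))) := by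
          refine Finset.sum_le_sum fun i _ => ?_
          rw [hPrd, hPrd]
          refine (hPlip _ (hloc x hx i) _ (hloc y hy i)).trans ?_
          rw [mul_assoc]
          refine mul_le_mul_of_nonneg_left ?_ hL
          exact hql2 _ _ (hclp κ hκ x hx i).1 (hclp κ hκ y hy i).1 (hclp κ hκ x hx i).2
            (hclp κ hκ y hy i).2 (hci i)
        rw [← Finset.mul_sum] at h3
        have h4 := hcs _ _ hz hz' hqd n hn.le
        have h5 : L * Lq * ∑ i ∈ Finset.range (n + 1),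
            Real.sqrt (qd (clp κ i (fhat f x)) (clp κ i (fhat f y))) ≤
            L * Lq * (Cs * (C1 * d1 x y)) :=
          mul_le_mul_of_nonneg_left (h4.trans (mul_le_mul_of_nonneg_left hq hCs)) hLL
        have h6 := h3.trans h5
        have h7 : 16 * (L * Lq * (Cs * C1)) * d1 x y = 16 * (L * Lq * (Cs * (C1 * d1 x y))) := by
          ring
        rw [h7]
        linarith
      -- segment chains
      have hsg : ‖chn (Ps x) m - chn (Ps y) m‖ ≤
          16 * ((m + 1) * (L * (Lq * C1 + 1))) * d1 x y := by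
        refine (chn_lip (P := Ps x) (P' := Ps y) (n := m) (hPs x hx) (hPs y hy) (hPs1 x hx)
          (hPs1 y hy)).trans ?_
        have h3 : ∀ j ∈ Finset.range (m + 1), ‖Ps x j - Ps y j‖ ≤
            L * ((Lq * C1 + 1) * d1 x y) := by
          intro j hjm
          have hjm' : j ≤ m := Nat.lt_succ_iff.1 (Finset.mem_range.1 hjm)
          rw [hPsd, hPsd]
          refine (hPlip _ (hseg x hx _ (hj j hjm')) _ (hseg y hy _ (hj j hjm'))).trans ?_
          refine mul_le_mul_of_nonneg_left ?_ hL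
          refine (e45_seg _ _ _ _ (hj j hjm')).trans ?_
          have h4 := hql2 _ _ hz hz' (hz1 x hx) (hz1 y hy) hqd
          have h5 := mul_le_mul_of_nonneg_left hq hLq
          linarith
        have h4 := Finset.sum_le_card_nsmul _ _ _ h3
        rw [Finset.card_range, nsmul_eq_mul] at h4
        push_cast at h4
        have h7 : 16 * ((m + 1) * (L * (Lq * C1 + 1))) * d1 x y =
            16 * (((m : ℝ) + 1) * (L * ((Lq * C1 + 1) * d1 x y))) := by
          ring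
        rw [h7]
        linarith
      have h8 := e45_prod (a := chn (Ps x) m) (b := chn (Pr x) (stp κ (fhat f x)))
        (a' := chn (Ps y) m) (b' := chn (Pr y) (stp κ (fhat f y))) hu2 hu1'
      have h9 : 0 ≤ 2 / η * d1 x y := by positivity
      refine h8.trans ?_
      rw [add_mul, add_mul]
      linarith

end Pool.HQ
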