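import Pool.Agent.HQ.E34

/-!
MP_7936f4_al, THEOREM E, module E46: a Lipschitz family of unitaries rotating given orthonormal vectors q c into
given orthogonal vectors w c (if they have norm 1).

`Hm w = exp ((π/2) K)`, `K = Σ_c (|w c⟩⟨q c| - |q c⟩⟨w c|)`: skew-adjoint, so unitary.  If `‖w c‖ = 1` then
`K (q c) = w c`, `K (w c) = - q c`, so `q c ∓ i w c` are eigenvectors with eigenvalues `± i`, and `exp ((π/2) K) (q c) = w c`.
-/

namespace Pool.HQ

open scoped InnerProductSpace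

/-- orthogonal family w of vectors of norm ≤ 1, orthogonal to all q c -/
def Good {ℋ Λ : Type} [NormedAddCommGroup ℋ] [InnerProductSpace ℂ ℋ] (q w : Λ → ℋ) : Prop :=
  (∀ c c', c ≠ c' → ⟪w c, w c'⟫_ℂ = 0) ∧ (∀ c c', ⟪w c, q c'⟫_ℂ = 0) ∧ ∀ c, ‖w c‖ ≤ 1

theorem E46_pow {A : Type*} [NormedRing A] [NormOneClass A] (a b : A) (M : ℝ) (ha : ‖a‖ ≤ M)
    (hb : ‖b‖ ≤ M) (n : ℕ) : ‖a ^ (n + 1) - b ^ (n + 1)‖ ≤ (n + 1) * M ^ n * ‖a - b‖ := by
  have hM : 0 ≤ M := (norm_nonneg a).trans ha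
  induction n with
  | zero => simp
  | succ n ih =>
    have e : a ^ (n + 1 + 1) - b ^ (n + 1 + 1) = a ^ (n + 1) * (a - b)
        + (a ^ (n + 1) - b ^ (n + 1)) * b := by
      rw [pow_succ a (n + 1), pow_succ b (n + 1), mul_sub, sub_mul]
      abel
    rw [e]
    have h1 : ‖a ^ (n + 1)‖ ≤ M ^ (n + 1) := (norm_pow_le a (n + 1)).trans
      (pow_le_pow_left₀ (norm_nonneg a) ha _)
    calc ‖a ^ (n + 1) * (a - b) + (a ^ (n + 1) - b ^ (n + 1)) * b‖
        ≤ ‖a ^ (n + 1)‖ * ‖a - b‖ + ‖a ^ (n + 1) - b ^ (n + 1)‖ * ‖b‖ :=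
          (norm_add_le _ _).trans (add_le_add (norm_mul_le _ _) (norm_mul_le _ _))
      _ ≤ M ^ (n + 1) * ‖a - b‖ + ((n + 1) * M ^ n * ‖a - b‖) * M := by
          gcongr
      _ = ((n + 1 : ℕ) + 1 : ℝ) * M ^ (n + 1) * ‖a - b‖ := by
          push_cast; ring

theorem E46_exp {A : Type*} [NormedRing A] [NormOneClass A] [NormedAlgebra ℂ A] [CompleteSpace A]
    (a b : A) (M : ℝ) (ha : ‖a‖ ≤ M) (hb : ‖b‖ ≤ M) :
    ‖NormedSpace.exp a - NormedSpace.exp b‖ ≤ Real.exp M * ‖a - b‖ := by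
  have h1 := NormedSpace.exp_series_hasSum_exp' (𝕂 := ℂ) a
  have h2 := NormedSpace.exp_series_hasSum_exp' (𝕂 := ℂ) b
  have h3 := h1.sub h2
  have h4 := (hasSum_nat_add_iff' 1).2 h3
  simp only [Finset.range_one, Finset.sum_singleton, Nat.factorial_zero, Nat.cast_one, inv_one,
    pow_zero, one_smul, sub_self, sub_zero] at h4
  have h5 : HasSum (fun n : ℕ => M ^ n / (n.factorial : ℝ) * ‖a - b‖) (Real.exp M * ‖a - b‖) := by
    have := NormedSpace.expSeries_div_hasSum_exp M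
    rw [← Real.exp_eq_exp_ℝ] at this
    exact this.mul_right _
  have h8 : ∀ n : ℕ, ‖((n + 1).factorial : ℂ)⁻¹ • a ^ (n + 1) -
      ((n + 1).factorial : ℂ)⁻¹ • b ^ (n + 1)‖ ≤ M ^ n / (n.factorial : ℝ) * ‖a - b‖ := by
    intro n
    rw [← smul_sub, norm_smul]
    have h6 := E46_pow a b M ha hb n
    have h7 : ‖(((n + 1).factorial : ℂ))⁻¹‖ = (((n + 1).factorial : ℝ))⁻¹ := by
      rw [norm_inv]; simp
    rw [h7, Nat.factorial_succ]
    push_cast
    calc (((n : ℝ) + 1) * (n.factorial : ℝ))⁻¹ * ‖a ^ (n + 1) - b ^ (n + 1)‖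
        ≤ (((n : ℝ) + 1) * (n.factorial : ℝ))⁻¹ * ((n + 1) * M ^ n * ‖a - b‖) := by gcongr
      _ = M ^ n / (n.factorial : ℝ) * ‖a - b‖ := by
          field_simp
  exact HasSum.norm_le_of_bounded h4 h5 h8

theorem E46_eig {ℋ : Type} [NormedAddCommGroup ℋ] [InnerProductSpace ℂ ℋ] [CompleteSpace ℋ]
    (A : ℋ →L[ℂ] ℋ) (u : ℋ) (l : ℂ) (h : A u = l • u) :
    (NormedSpace.exp A) u = Complex.exp l • u := by
  have h1 := NormedSpace.exp_series_hasSum_exp' (𝕂 := ℂ) A
  have h2 := (ContinuousLinearMap.apply ℂ ℋ u).hasSum h1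
  simp only [ContinuousLinearMap.apply_apply] at h2
  have h3 : ∀ n : ℕ, (A ^ n) u = l ^ n • u := by
    intro n
    induction n with
    | zero => simp
    | succ n ih =>
      rw [pow_succ, ContinuousLinearMap.mul_apply, h, map_smul, ih, smul_smul, pow_succ, mul_comm]
  have h4 : HasSum (fun n : ℕ => (l ^ n / (n.factorial : ℂ)) • u) (Complex.exp l • u) := by
    have := NormedSpace.expSeries_div_hasSum_exp l
    rw [← Complex.exp_eq_exp_ℂ] at this
    exact this.smul_const u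
  have h5 : (fun n : ℕ => ((n.factorial : ℂ)⁻¹ • A ^ n) u) =
      fun n : ℕ => (l ^ n / (n.factorial : ℂ)) • u := by
    funext n
    rw [ContinuousLinearMap.smul_apply, h3, smul_smul]
    congr 1
    rw [div_eq_mul_inv, mul_comm]
  rw [h5] at h2
  exact HasSum.unique h2 h4

/-- the generator -/
noncomputable def E46_K {ℋ : Type} [NormedAddCommGroup ℋ] [InnerProductSpace ℂ ℋ]
    {Λ : Type} [Fintype Λ] (q w : Λ → ℋ) : ℋ →L[ℂ] ℋ :=
  ∑ c, (InnerProductSpace.rankOne ℂ (w c) (q c) - InnerProductSpace.rankOne ℂ (q c) (w c))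

theorem E46_K_apply {ℋ : Type} [NormedAddCommGroup ℋ] [InnerProductSpace ℂ ℋ]
    {Λ : Type} [Fintype Λ] (q w : Λ → ℋ) (x : ℋ) :
    E46_K q w x = ∑ c, (⟪q c, x⟫_ℂ • w c - ⟪w c, x⟫_ℂ • q c) := by
  simp [E46_K, ContinuousLinearMap.sum_apply]

theorem exists_halmos {ℋ : Type} [NormedAddCommGroup ℋ] [InnerProductSpace ℂ ℋ] [CompleteSpace ℋ]
    (Λ : Type) [Fintype Λ] [DecidableEq Λ] (q : Λ → ℋ) (hq : Orthonormal ℂ q) :
    ∃ (Hm : (Λ → ℋ) → (ℋ →L[ℂ] ℋ)) (C : ℝ), 0 ≤ C ∧
      (∀ w, Good q w → Hm w ∈ unitary (ℋ →L[ℂ] ℋ)) ∧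
      (∀ w, Good q w → ∀ c, ‖w c‖ = 1 → Hm w (q c) = w c) ∧
      (∀ w, Good q w → ∀ T : ℋ →L[ℂ] ℋ, IsStarProjection T → (∀ c, T (w c) = w c) →
        (∀ c, T (q c) = q c) → Commute (Hm w) T) ∧
      (∀ w w', Good q w → Good q w' → ‖Hm w - Hm w'‖ ≤ C * ∑ c, ‖w c - w' c‖) := by
  classical
  rcases subsingleton_or_nontrivial ℋ with hsub | hnt
  · refine ⟨fun _ => 1, 0, le_rfl, fun _ _ => one_mem _, fun w _ c _ => Subsingleton.elim _ _,
      fun _ _ T _ _ _ => Commute.one_left T, fun w w' _ _ => by simp⟩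
  have hq1 : ∀ c, ‖q c‖ = 1 := hq.1
  have hqq : ∀ c c', c ≠ c' → ⟪q c, q c'⟫_ℂ = 0 := fun c c' h => hq.2 h
  set s : ℝ := Real.pi / 2 with hs
  have hs0 : 0 ≤ s := by positivity
  refine ⟨fun w => NormedSpace.exp ((s : ℂ) • E46_K q w), Real.exp (s * (2 * Fintype.card Λ)) *
    (s * 2), by positivity, ?_, ?_, ?_, ?_⟩
  · -- unitary
    intro w _
    have hstar : star ((s : ℂ) • E46_K q w) = -((s : ℂ) • E46_K q w) := by
      rw [star_smul]
      have h1 : star (E46_K q w) = - E46_K q w := by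
        rw [ContinuousLinearMap.star_eq_adjoint, E46_K, map_sum, ← Finset.sum_neg_distrib]
        refine Finset.sum_congr rfl fun c _ => ?_
        rw [map_sub, InnerProductSpace.adjoint_rankOne, InnerProductSpace.adjoint_rankOne]
        abel
      rw [h1]
      simp
    let _ : NormedAlgebra ℚ (ℋ →L[ℂ] ℋ) := NormedAlgebra.restrictScalars ℚ ℂ (ℋ →L[ℂ] ℋ)
    have hc : Commute ((s : ℂ) • E46_K q w) (-((s : ℂ) • E46_K q w)) :=
      (Commute.refl _).neg_right
    rw [Unitary.mem_iff, NormedSpace.star_exp, hstar]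
    constructor
    · rw [← NormedSpace.exp_add_of_commute hc.symm]; simp
    · rw [← NormedSpace.exp_add_of_commute hc]; simp
  · -- rotation
    intro w hw c hc
    have hww : ⟪w c, w c⟫_ℂ = 1 := by
      rw [inner_self_eq_norm_sq_to_K, hc]; simp
    have hqc : ⟪q c, q c⟫_ℂ = 1 := by
      rw [inner_self_eq_norm_sq_to_K, hq1]; simp
    have hqw : ∀ c', ⟪q c', w c⟫_ℂ = 0 := fun c' => by
      rw [← inner_conj_symm, hw.2.1]; simp
    have hK1 : E46_K q w (q c) = w c := by
      rw [E46_K_apply, Finset.sum_eq_single c]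
      · rw [hqc, hw.2.1]; simp
      · intro c' _ hne
        rw [hqq c' c hne, hw.2.1]; simp
      · simp
    have hK2 : E46_K q w (w c) = - q c := by
      rw [E46_K_apply, Finset.sum_eq_single c]
      · rw [hww, hqw]; simp
      · intro c' _ hne
        rw [hqw, hw.1 c' c hne]; simp
      · simp
    have hu1 : ((s : ℂ) • E46_K q w) (q c - Complex.I • w c)
        = ((s : ℂ) * Complex.I) • (q c - Complex.I • w c) := by
      rw [ContinuousLinearMap.smul_apply, map_sub, map_smul, hK1, hK2, mul_smul]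
      congr 1
      rw [smul_sub, smul_smul, Complex.I_mul_I]
      module
    have hu2 : ((s : ℂ) • E46_K q w) (q c + Complex.I • w c)
        = (-((s : ℂ) * Complex.I)) • (q c + Complex.I • w c) := by
      rw [ContinuousLinearMap.smul_apply, map_add, map_smul, hK1, hK2, neg_smul, mul_smul,
        ← smul_neg]
      congr 1
      rw [smul_add, smul_smul, Complex.I_mul_I]
      module
    have e1 := E46_eig _ _ _ hu1
    have e2 := E46_eig _ _ _ hu2
    have hE1 : Complex.exp ((s : ℂ) * Complex.I) = Complex.I := by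
      rw [hs]; push_cast; exact Complex.exp_pi_div_two_mul_I
    have hE2 : Complex.exp (-((s : ℂ) * Complex.I)) = -Complex.I := by
      rw [Complex.exp_neg, hE1, Complex.inv_I]
    rw [hE1] at e1
    rw [hE2] at e2
    have hsum : q c = (1 / 2 : ℂ) • ((q c - Complex.I • w c) + (q c + Complex.I • w c)) := by
      module
    change (NormedSpace.exp ((s : ℂ) • E46_K q w)) (q c) = w c
    calc (NormedSpace.exp ((s : ℂ) • E46_K q w)) (q c)
        = (NormedSpace.exp ((s : ℂ) • E46_K q w))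
          ((1 / 2 : ℂ) • ((q c - Complex.I • w c) + (q c + Complex.I • w c))) := by rw [← hsum]
      _ = (1 / 2 : ℂ) • (Complex.I • (q c - Complex.I • w c)
          + (-Complex.I) • (q c + Complex.I • w c)) := by rw [map_smul, map_add, e1, e2]
      _ = (-(Complex.I * Complex.I)) • w c := by module
      _ = w c := by rw [Complex.I_mul_I]; simp
  · -- commutation
    intro w _ T hT hTw hTq
    have hTs : ContinuousLinearMap.adjoint T = T := by
      rw [← ContinuousLinearMap.star_eq_adjoint]; exact hT.isSelfAdjoint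
    have hcomm : Commute (E46_K q w) T := by
      ext x
      rw [ContinuousLinearMap.mul_apply, ContinuousLinearMap.mul_apply, E46_K_apply, E46_K_apply,
        map_sum]
      refine Finset.sum_congr rfl fun c _ => ?_
      rw [map_sub, map_smul, map_smul, hTw, hTq]
      have a1 : ⟪q c, T x⟫_ℂ = ⟪q c, x⟫_ℂ := by
        rw [← ContinuousLinearMap.adjoint_inner_left, hTs, hTq]
      have a2 : ⟪w c, T x⟫_ℂ = ⟪w c, x⟫_ℂ := by
        rw [← ContinuousLinearMap.adjoint_inner_left, hTs, hTw]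
      rw [a1, a2]
    exact (hcomm.smul_left (s : ℂ)).exp_left
  · -- Lipschitz
    intro w w' hw hw'
    have hKn : ∀ w, Good q w → ‖(s : ℂ) • E46_K q w‖ ≤ s * (2 * Fintype.card Λ) := by
      intro w hw
      rw [norm_smul, Complex.norm_real, Real.norm_of_nonneg hs0]
      refine mul_le_mul_of_nonneg_left ?_ hs0
      calc ‖E46_K q w‖ ≤ ∑ c : Λ, ‖InnerProductSpace.rankOne ℂ (w c) (q c)
            - InnerProductSpace.rankOne ℂ (q c) (w c)‖ := norm_sum_le _ _
        _ ≤ ∑ c : Λ, (2 : ℝ) := by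
            refine Finset.sum_le_sum fun c _ => ?_
            refine (norm_sub_le _ _).trans ?_
            rw [InnerProductSpace.norm_rankOne, InnerProductSpace.norm_rankOne, hq1]
            have := hw.2.2 c
            linarith
        _ = 2 * Fintype.card Λ := by simp [mul_comm]
    have hdiff : E46_K q w - E46_K q w' = E46_K q (fun c => w c - w' c) := by
      rw [E46_K, E46_K, E46_K, ← Finset.sum_sub_distrib]
      refine Finset.sum_congr rfl fun c _ => ?_
      simp only [map_sub, ContinuousLinearMap.sub_apply]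
      abel
    have h1 := E46_exp _ _ _ (hKn w hw) (hKn w' hw')
    refine h1.trans ?_
    rw [mul_assoc]
    refine mul_le_mul_of_nonneg_left ?_ (Real.exp_pos _).le
    rw [← smul_sub, norm_smul, Complex.norm_real, Real.norm_of_nonneg hs0, hdiff, mul_assoc]
    refine mul_le_mul_of_nonneg_left ?_ hs0
    calc ‖E46_K q (fun c => w c - w' c)‖ ≤ ∑ c : Λ, ‖InnerProductSpace.rankOne ℂ (w c - w' c) (q c)
            - InnerProductSpace.rankOne ℂ (q c) (w c - w' c)‖ := norm_sum_le _ _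
      _ ≤ ∑ c : Λ, 2 * ‖w c - w' c‖ := by
          refine Finset.sum_le_sum fun c _ => ?_
          refine (norm_sub_le _ _).trans ?_
          rw [InnerProductSpace.norm_rankOne, InnerProductSpace.norm_rankOne, hq1]
          linarith
      _ = 2 * ∑ c, ‖w c - w' c‖ := by rw [Finset.mul_sum]

end Pool.HQ
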