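import Pool.Agent.HQ.Defs

/-!
MP_7936f4_al, THEOREM E, module E47: colouring of the group, injective on balls.

G is countable (union of the finite balls {d 1 a ≤ n}).  The graph a ~ b iff a ≠ b, d a b ≤ ρ has degree < m, m = number of
elements of the ball of radius ρ (left invariance); colour greedily along an enumeration of G with m colours
(m ≥ 1).
-/

namespace Pool.HQ

theorem exists_colouring {G : Type} [Group G] {d : G → G → ℕ} (hd : HypM d) (ρ : ℕ) :
    ∃ (m : ℕ) (c : G → Fin m), ∀ a b, d a b ≤ ρ → c a = c b → a = b := by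
  classical
  have hcount : Countable G := by
    have h1 : (⋃ n : ℕ, {a : G | d 1 a ≤ n}) = Set.univ := by
      ext a
      simp only [Set.mem_iUnion, Set.mem_setOf_eq, Set.mem_univ, iff_true]
      exact ⟨d 1 a, le_refl _⟩
    have h2 : (⋃ n : ℕ, {a : G | d 1 a ≤ n}).Countable :=
      Set.countable_iUnion fun n => (hd.fin n).countable
    rw [h1] at h2
    exact Set.countable_univ_iff.1 h2
  obtain ⟨e, he⟩ := exists_injective_nat G
  obtain ⟨m, hm⟩ : ∃ m, m = (hd.fin ρ).toFinset.card := ⟨_, rfl⟩
  have hmpos : 0 < m := by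
    rw [hm, Finset.card_pos]
    refine ⟨1, ?_⟩
    rw [Set.Finite.mem_toFinset, Set.mem_setOf_eq, hd.self]
    exact Nat.zero_le _
  -- the neighbours of a
  have hN : ∀ a, ∃ S : Finset G, S.card < m ∧ ∀ b, b ≠ a → d a b ≤ ρ → b ∈ S := by
    intro a
    refine ⟨((hd.fin ρ).toFinset.image fun b => a * b).erase a, ?_, ?_⟩
    · have h1 : a ∈ (hd.fin ρ).toFinset.image fun b => a * b := by
        refine Finset.mem_image.2 ⟨1, ?_, mul_one a⟩
        rw [Set.Finite.mem_toFinset, Set.mem_setOf_eq, hd.self]
        exact Nat.zero_le _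
      rw [Finset.card_erase_of_mem h1,
        Finset.card_image_of_injective _ (mul_right_injective a), ← hm]
      omega
    · intro b hb hab
      refine Finset.mem_erase.2 ⟨hb, Finset.mem_image.2 ⟨a⁻¹ * b, ?_, by simp⟩⟩
      rw [Set.Finite.mem_toFinset, Set.mem_setOf_eq]
      have := hd.inv a 1 (a⁻¹ * b)
      rw [mul_one, mul_inv_cancel_left] at this
      omega
  have hwf : WellFounded fun a b : G => e a < e b := InvImage.wf e Nat.lt_wfRel.wf
  let step : ∀ a : G, (∀ b : G, e b < e a → Fin m) → Fin m := fun a F =>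
    if h : ∃ x : Fin m, ∀ b (hb : e b < e a), d a b ≤ ρ → F b hb ≠ x then Classical.choose h
    else ⟨0, hmpos⟩
  let c : G → Fin m := hwf.fix step
  have hc : ∀ a b, e b < e a → d a b ≤ ρ → c b ≠ c a := by
    intro a b hb hab
    have hex : ∃ x : Fin m, ∀ b (_ : e b < e a), d a b ≤ ρ → c b ≠ x := by
      obtain ⟨S, hS, hS'⟩ := hN a
      by_contra hcon
      push Not at hcon
      have h1 : (Finset.univ : Finset (Fin m)) ⊆ S.image c := by
        intro x _
        obtain ⟨b, hb, hab, hx⟩ := hcon x
        refine Finset.mem_image.2 ⟨b, hS' b ?_ hab, hx⟩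
        rintro rfl
        exact lt_irrefl _ hb
      have h2 := Finset.card_le_card h1
      rw [Finset.card_univ, Fintype.card_fin] at h2
      have h3 := Finset.card_image_le (s := S) (f := c)
      omega
    have h1 : c a = step a fun b _ => c b := hwf.fix_eq step a
    have h2 : step a (fun b _ => c b) = Classical.choose hex := dif_pos hex
    rw [h1, h2]
    exact Classical.choose_spec hex b hb hab
  refine ⟨m, c, fun a b hab h => ?_⟩
  by_contra hne
  rcases lt_or_gt_of_ne (fun h' => hne (he h') : e a ≠ e b) with h1 | h1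
  · exact hc b a h1 (by rw [hd.symm]; exact hab) h
  · exact hc a b h1 hab h.symm

end Pool.HQ
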