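import Pool.Agent.HQ.E35
import Pool.Agent.HQ.E45
import Pool.Agent.HQ.E46
import Pool.Agent.HQ.E47

/-!
MP_7936f4_al, THEOREM E, module E48: the complex cocycle.

D' ≥ D from exists_UT.  exists_GB with (D', r): Ω, U, P, v, q, n, R, L (may assume L ≥ 0: replace it by max L 0 where needed).
A := L2 Ω →L[ℂ] L2 Ω is a C*-algebra; P x is a star projection for x ∈ Loc d D' (Prank: P x = Σ_i |b_i⟩⟨b_i|).  exists_UT:
x₀, W, C'.  Colouring c : G → Fin m injective at distance ≤ ρ = max r (2R + D') (exists_colouring).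
For x ∈ Loc d D and a colour j let w x j = v a x for the unique a with c a = j, v a x ≠ 0 (if v a x ≠ 0 ≠ v a' x, vsupp gives
b, b' ∈ supp x with d a b ≤ R, d a' b' ≤ R, so d a a' ≤ 2R + D'), and w x j = 0 if there is none.  Q j = q j.val.
Good Q (w x): vorth, vnorm, ⟪v a x, q i⟫ = ⟪P v a x, q i⟫ = ⟪v a x, P q i⟫ = 0.
‖w x j - w y j‖ ≤ 2 L d1 x y: if w x j = v a x ≠ 0, w y j = v a' y ≠ 0, a ≠ a' then v a y = 0, v a' x = 0 and
w x j - w y j = (v a x - v a y) + (v a' x - v a' y); other cases similar.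
Hm, C'' from exists_halmos.  θ₀ : Fin n → ℋ an orthonormal basis of the range of P x₀ (Prank).  Index K = Fin n ⊕ Fin m,
 B x (inl i) = Hm (w x) (W x (θ₀ i)), B x (inr j) = Hm (w x) (Q j).
B x is orthonormal (W x unitary; W x θ₀ i in the range of P x, orthogonal to the q's; Hm unitary), and
Σ_k |B_k⟩⟨B_k| = T x := P x + Σ_j |Q j⟩⟨Q j| since the (W x θ₀ i) are an orthonormal basis of the range of P x
(W x P x₀ = P x W x), and Hm (w x) commutes with T x (T x is a star projection, T x (w x j) = w x j: vP).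
 A g x k l = ⟪B (pact g x) k, U g (B x l)⟫.
U g T x = T (pact g x) U g (Peqv, qfix).  So A g x is unitary, A (g h) x = A g (pact h x) A h x (insert T (pact h x) =
Σ_k |B_k⟩⟨B_k| between U g and U h, Umul, pact_mul), Lipschitz: |A g x k l - A g y k l| ≤ ‖B (pact g x) k - B (pact g y) k‖ +
‖B x l - B y l‖ ≤ 2 C d1 x y (pact_d1, loc_pact).
Near: ∃ b ∈ supp x, d a b ≤ r: ‖v a x‖ = 1 (vone) so w x (c a) = v a x, B x (inr (c a)) = v a x, U g (v a x) = v (g a) (pact g x) =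
B (pact g x) (inr (c (g a))) (g b ∈ supp (pact g x), d (g a)(g b) = d a b), so the column inr (c a) of A g x is the unit vector.
Finally reindex K ≃ Fin (n+m).
-/

namespace Pool.HQ

open scoped Pointwise Matrix InnerProductSpace

namespace E48

section abstract

variable {ℋ : Type} [NormedAddCommGroup ℋ] [InnerProductSpace ℂ ℋ] [CompleteSpace ℋ]

lemma proj_apply {κ : Type} [Fintype κ] {b : κ → ℋ} (hb : Orthonormal ℂ b) {T : ℋ →L[ℂ] ℋ}
    (hT : ∀ w, T w = ∑ i, ⟪b i, w⟫_ℂ • b i) (i : κ) : T (b i) = b i := by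
  classical
  rw [hT]
  have := orthonormal_iff_ite.mp hb
  simp [this]

lemma proj_of_basis {κ : Type} [Fintype κ] {b : κ → ℋ} (hb : Orthonormal ℂ b) {T : ℋ →L[ℂ] ℋ}
    (hT : ∀ w, T w = ∑ i, ⟪b i, w⟫_ℂ • b i) : IsStarProjection T := by
  have hTb := proj_apply hb hT
  refine ⟨?_, ?_⟩
  · show T * T = T
    ext w
    show T (T w) = T w
    conv_lhs => rw [hT w]
    rw [map_sum]
    simp only [map_smul, hTb]
    rw [hT w]
  · rw [ContinuousLinearMap.isSelfAdjoint_iff_isSymmetric]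
    intro x y
    show ⟪T x, y⟫_ℂ = ⟪x, T y⟫_ℂ
    rw [hT, hT, sum_inner, inner_sum]
    refine Finset.sum_congr rfl fun i _ => ?_
    rw [inner_smul_left, inner_smul_right, inner_conj_symm, mul_comm]

lemma proj_symm {T : ℋ →L[ℂ] ℋ} (hT : IsStarProjection T) (x y : ℋ) :
    ⟪T x, y⟫_ℂ = ⟪x, T y⟫_ℂ :=
  (ContinuousLinearMap.isSelfAdjoint_iff_isSymmetric.mp hT.isSelfAdjoint) x y

/-- a unitary maps orthonormal families to orthonormal families -/
lemma uni_orth {κ : Type} {b : κ → ℋ} (hb : Orthonormal ℂ b) {u : ℋ →L[ℂ] ℋ}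
    (hu : u ∈ unitary (ℋ →L[ℂ] ℋ)) : Orthonormal ℂ (fun k => u (b k)) := by
  classical
  rw [orthonormal_iff_ite] at hb ⊢
  intro i j
  rw [ContinuousLinearMap.inner_map_map_of_mem_unitary hu, hb]

/-- conjugation of the projection on an orthonormal family -/
lemma uni_proj {κ : Type} [Fintype κ] {b : κ → ℋ} {T T' : ℋ →L[ℂ] ℋ}
    (hT : ∀ w, T w = ∑ i, ⟪b i, w⟫_ℂ • b i) {u : ℋ →L[ℂ] ℋ}
    (hu : u ∈ unitary (ℋ →L[ℂ] ℋ)) (hc : u * T = T' * u) (w : ℋ) :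
    T' w = ∑ i, ⟪u (b i), w⟫_ℂ • u (b i) := by
  have h1 : u (star u w) = w := by
    have := (Unitary.mem_iff.mp hu).2
    have h2 := congrArg (fun f : ℋ →L[ℂ] ℋ => f w) this
    simpa using h2
  have h2 : ∀ i, ⟪u (b i), w⟫_ℂ = ⟪b i, star u w⟫_ℂ := by
    intro i
    conv_lhs => rw [← h1]
    exact ContinuousLinearMap.inner_map_map_of_mem_unitary hu _ _
  calc T' w = T' (u (star u w)) := by rw [h1]
    _ = (T' * u) (star u w) := rfl
    _ = (u * T) (star u w) := by rw [hc]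
    _ = u (T (star u w)) := rfl
    _ = u (∑ i, ⟪b i, star u w⟫_ℂ • b i) := by rw [hT]
    _ = ∑ i, ⟪b i, star u w⟫_ℂ • u (b i) := by rw [map_sum]; simp only [map_smul]
    _ = _ := Finset.sum_congr rfl fun i _ => by rw [h2]

end abstract

section cocycle

variable {G ℋ : Type} [Group G] [NormedAddCommGroup ℋ] [InnerProductSpace ℂ ℋ] [CompleteSpace ℋ]
  {κ : Type} [Fintype κ] [DecidableEq κ] {X : Set (G →₀ ℝ)} {U : G → (ℋ ≃ₗᵢ[ℂ] ℋ)}
  {B : (G →₀ ℝ) → κ → ℋ} {T : (G →₀ ℝ) → (ℋ →L[ℂ] ℋ)}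

/-- the matrix cocycle -/
noncomputable def AA (U : G → (ℋ ≃ₗᵢ[ℂ] ℋ)) (B : (G →₀ ℝ) → κ → ℋ) (g : G) (x : G →₀ ℝ) :
    Matrix κ κ ℂ := fun k l => ⟪B (pact g x) k, U g (B x l)⟫_ℂ

lemma sum_inner_mul (B : κ → ℋ) (T : ℋ →L[ℂ] ℋ) (hT : ∀ w, T w = ∑ k, ⟪B k, w⟫_ℂ • B k)
    (u w : ℋ) : ∑ k, ⟪u, B k⟫_ℂ * ⟪B k, w⟫_ℂ = ⟪u, T w⟫_ℂ := by
  rw [hT, inner_sum]
  refine Finset.sum_congr rfl fun k _ => ?_
  rw [inner_smul_right, mul_comm]

theorem AA_uni (hX : ∀ g : G, ∀ x ∈ X, pact g x ∈ X) (hB : ∀ x ∈ X, Orthonormal ℂ (B x))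
    (hT : ∀ x ∈ X, ∀ w, T x w = ∑ k, ⟪B x k, w⟫_ℂ • B x k)
    (hUT : ∀ g, ∀ x ∈ X, ∀ w, T (pact g x) (U g w) = U g (T x w)) (g : G) {x : G →₀ ℝ}
    (hx : x ∈ X) : (AA U B g x)ᴴ * AA U B g x = 1 := by
  ext k l
  rw [Matrix.mul_apply]
  simp only [Matrix.conjTranspose_apply, AA]
  have h1 : ∀ m, star ⟪B (pact g x) m, U g (B x k)⟫_ℂ = ⟪U g (B x k), B (pact g x) m⟫_ℂ :=
    fun m => inner_conj_symm _ _
  simp only [h1]
  rw [sum_inner_mul (B (pact g x)) (T (pact g x)) (hT _ (hX g x hx)), hUT g x hx,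
    proj_apply (hB x hx) (hT x hx), LinearIsometryEquiv.inner_map_map,
    orthonormal_iff_ite.mp (hB x hx), Matrix.one_apply]

theorem AA_coc (hX : ∀ g : G, ∀ x ∈ X, pact g x ∈ X) (hB : ∀ x ∈ X, Orthonormal ℂ (B x))
    (hT : ∀ x ∈ X, ∀ w, T x w = ∑ k, ⟪B x k, w⟫_ℂ • B x k)
    (hUT : ∀ g, ∀ x ∈ X, ∀ w, T (pact g x) (U g w) = U g (T x w))
    (hU : ∀ g h w, U (g * h) w = U g (U h w)) (g h : G) {x : G →₀ ℝ}
    (hx : x ∈ X) : AA U B (g * h) x = AA U B g (pact h x) * AA U B h x := by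
  ext k l
  rw [Matrix.mul_apply]
  simp only [AA]
  have h1 : ∀ m, ⟪B (pact g (pact h x)) k, U g (B (pact h x) m)⟫_ℂ =
      ⟪(U g).symm (B (pact g (pact h x)) k), B (pact h x) m⟫_ℂ := by
    intro m
    rw [← LinearIsometryEquiv.inner_map_map (U g) ((U g).symm _) (B (pact h x) m),
      LinearIsometryEquiv.apply_symm_apply]
  simp only [h1]
  rw [sum_inner_mul (B (pact h x)) (T (pact h x)) (hT _ (hX h x hx)), hUT h x hx,
    proj_apply (hB x hx) (hT x hx),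
    ← LinearIsometryEquiv.inner_map_map (U g) ((U g).symm _) (U h (B x l)),
    LinearIsometryEquiv.apply_symm_apply, pact_mul, hU]

theorem AA_lip (hX : ∀ g : G, ∀ x ∈ X, pact g x ∈ X) (hB : ∀ x ∈ X, Orthonormal ℂ (B x)) {C : ℝ}
    (hL : ∀ x ∈ X, ∀ y ∈ X, ∀ k, ‖B x k - B y k‖ ≤ C * d1 x y) (g : G) {x y : G →₀ ℝ}
    (hx : x ∈ X) (hy : y ∈ X) (k l : κ) : ‖AA U B g x k l - AA U B g y k l‖ ≤ (2 * C) * d1 x y := by
  simp only [AA]
  have e : ⟪B (pact g x) k, U g (B x l)⟫_ℂ - ⟪B (pact g y) k, U g (B y l)⟫_ℂ =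
      ⟪B (pact g x) k - B (pact g y) k, U g (B x l)⟫_ℂ +
        ⟪B (pact g y) k, U g (B x l - B y l)⟫_ℂ := by
    rw [inner_sub_left, map_sub, inner_sub_right]
    ring
  rw [e]
  refine (norm_add_le _ _).trans ?_
  have h1 : ‖⟪B (pact g x) k - B (pact g y) k, U g (B x l)⟫_ℂ‖ ≤ C * d1 x y := by
    refine (norm_inner_le_norm _ _).trans ?_
    rw [LinearIsometryEquiv.norm_map, (hB x hx).1 l, mul_one]
    have := hL _ (hX g x hx) _ (hX g y hy) k
    rwa [pact_d1] at this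
  have h2 : ‖⟪B (pact g y) k, U g (B x l - B y l)⟫_ℂ‖ ≤ C * d1 x y := by
    refine (norm_inner_le_norm _ _).trans ?_
    rw [LinearIsometryEquiv.norm_map, (hB _ (hX g y hy)).1 k, one_mul]
    exact hL x hx y hy l
  linarith

theorem AA_near (hX : ∀ g : G, ∀ x ∈ X, pact g x ∈ X) (hB : ∀ x ∈ X, Orthonormal ℂ (B x)) (g : G)
    {x : G →₀ ℝ} (hx : x ∈ X) {l l' : κ} (h : U g (B x l) = B (pact g x) l') (k : κ) :
    AA U B g x k l = if k = l' then 1 else 0 := by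
  simp only [AA]
  rw [h, orthonormal_iff_ite.mp (hB _ (hX g x hx))]

end cocycle

/-- the colouring of the near coordinates -/
lemma exists_w {G ℋ : Type} [NormedAddCommGroup ℋ] {X : Set (G →₀ ℝ)} {m : ℕ} (c : G → Fin m)
    (v : G → (G →₀ ℝ) → ℋ)
    (hinj : ∀ x ∈ X, ∀ a a', v a x ≠ 0 → v a' x ≠ 0 → c a = c a' → a = a') :
    ∃ w : (G →₀ ℝ) → Fin m → ℋ, ∀ x ∈ X, (∀ a, v a x ≠ 0 → w x (c a) = v a x) ∧
      ∀ j, (∃ a, c a = j ∧ v a x ≠ 0 ∧ w x j = v a x) ∨ (w x j = 0 ∧ ∀ a, c a = j → v a x = 0) := by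
  classical
  refine ⟨fun x j => if h : ∃ a, c a = j ∧ v a x ≠ 0 then v h.choose x else 0, ?_⟩
  intro x hx
  constructor
  · intro a ha
    have h : ∃ a', c a' = c a ∧ v a' x ≠ 0 := ⟨a, rfl, ha⟩
    show (if h : ∃ a', c a' = c a ∧ v a' x ≠ 0 then v h.choose x else 0) = v a x
    rw [dif_pos h]
    have h1 := h.choose_spec
    rw [hinj x hx _ _ h1.2 ha h1.1]
  · intro j
    by_cases h : ∃ a, c a = j ∧ v a x ≠ 0
    · left
      exact ⟨h.choose, h.choose_spec.1, h.choose_spec.2, dif_pos h⟩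
    · right
      refine ⟨dif_neg h, fun a ha => ?_⟩
      by_contra hne
      exact h ⟨a, ha, hne⟩

lemma w_lip {G ℋ : Type} [NormedAddCommGroup ℋ] {X : Set (G →₀ ℝ)} {m : ℕ} (c : G → Fin m)
    (v : G → (G →₀ ℝ) → ℋ) {L : ℝ} (hL : 0 ≤ L)
    (hlip : ∀ a, ∀ x ∈ X, ∀ y ∈ X, ‖v a x - v a y‖ ≤ L * d1 x y) {w : (G →₀ ℝ) → Fin m → ℋ}
    (hw : ∀ x ∈ X, (∀ a, v a x ≠ 0 → w x (c a) = v a x) ∧
      ∀ j, (∃ a, c a = j ∧ v a x ≠ 0 ∧ w x j = v a x) ∨ (w x j = 0 ∧ ∀ a, c a = j → v a x = 0))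
    {x y : G →₀ ℝ} (hx : x ∈ X) (hy : y ∈ X) (j : Fin m) :
    ‖w x j - w y j‖ ≤ (2 * L) * d1 x y := by
  have hd := d1_nonneg x y
  have hLd : 0 ≤ L * d1 x y := mul_nonneg hL hd
  rcases (hw x hx).2 j with ⟨a, ha1, ha2, ha3⟩ | ⟨hx1, hx2⟩
  · by_cases hay : v a y = 0
    · rcases (hw y hy).2 j with ⟨a', ha1', ha2', ha3'⟩ | ⟨hy1, hy2⟩
      · by_cases hax : v a' x = 0
        · have e : w x j - w y j = (v a x - v a y) + (v a' x - v a' y) := by
            rw [ha3, ha3', hay, hax]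
            abel
          rw [e]
          refine (norm_add_le _ _).trans ?_
          have h1 := hlip a x hx y hy
          have h2 := hlip a' x hx y hy
          linarith
        · have e1 := (hw x hx).1 a' hax
          rw [ha1'] at e1
          rw [e1, ha3']
          have h1 := hlip a' x hx y hy
          linarith
      · have e : w x j - w y j = v a x - v a y := by rw [ha3, hy1, hay]
        rw [e]
        have h1 := hlip a x hx y hy
        linarith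
    · have e1 := (hw y hy).1 a hay
      rw [ha1] at e1
      rw [e1, ha3]
      have h1 := hlip a x hx y hy
      linarith
  · rcases (hw y hy).2 j with ⟨a', ha1', ha2', ha3'⟩ | ⟨hy1, hy2⟩
    · have e : w x j - w y j = v a' x - v a' y := by rw [hx1, ha3', hx2 a' ha1']
      rw [e]
      have h1 := hlip a' x hx y hy
      linarith
    · rw [hx1, hy1, sub_zero, norm_zero]
      linarith

end E48

open E48 in
theorem complex_cocycle {G : Type} [Group G] {d : G → G → ℕ} {M : ℕ} {lam C : ℝ}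
    {f : G → EuclideanSpace ℝ (Fin M)} (hd : HypM d) (hf : RoughSim d lam C f) (D r : ℕ) :
    ∃ (N : ℕ) (c : G → Fin N) (A : G → (G →₀ ℝ) → Matrix (Fin N) (Fin N) ℂ) (C1 : ℝ), 0 ≤ C1 ∧
      (∀ a b, d a b ≤ r → c a = c b → a = b) ∧
      (∀ g, ∀ x ∈ Loc d D, (A g x)ᴴ * A g x = 1) ∧
      (∀ g h, ∀ x ∈ Loc d D, A (g * h) x = A g (pact h x) * A h x) ∧
      (∀ g, ∀ x ∈ Loc d D, ∀ y ∈ Loc d D, ∀ i j, ‖A g x i j - A g y i j‖ ≤ C1 * d1 x y) ∧
      (∀ g, ∀ x ∈ Loc d D, ∀ a, (∃ b ∈ x.support, d a b ≤ r) →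
        (A g x).mulVec (Pi.single (c a) 1) = Pi.single (c (g * a)) 1) := by
  classical
  obtain ⟨D', hDD', hUT⟩ := exists_UT hd hf D
  obtain ⟨Ω, U, P, v, q, n, R, L0, hGB⟩ := exists_GB hd D' r
  obtain ⟨L, hLdef⟩ : ∃ L : ℝ, L = max L0 0 := ⟨_, rfl⟩
  have hL0 : 0 ≤ L := by rw [hLdef]; exact le_max_right _ _
  have hLL : ∀ x y : G →₀ ℝ, L0 * d1 x y ≤ L * d1 x y := fun x y =>
    mul_le_mul_of_nonneg_right (by rw [hLdef]; exact le_max_left _ _) (d1_nonneg x y)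
  have hsub : Loc d D ⊆ Loc d D' := loc_mono hDD'
  have hPp : ∀ x ∈ Loc d D', IsStarProjection (P x) := by
    intro x hx
    obtain ⟨b, hb, hT⟩ := hGB.Prank x hx
    exact proj_of_basis hb hT
  obtain ⟨x₀, W, C', hx₀, hC', hW, hWl⟩ := hUT (L2 Ω →L[ℂ] L2 Ω) P L hL0 hPp
    (fun x hx y hy => (hGB.Plip x hx y hy).trans (hLL x y))
  obtain ⟨m, c, hc⟩ := exists_colouring hd (max r (2 * R + D'))
  have hinj : ∀ x ∈ Loc d D, ∀ a a', v a x ≠ 0 → v a' x ≠ 0 → c a = c a' → a = a' := by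
    intro x hx a a' ha ha' hcc
    apply hc a a' _ hcc
    obtain ⟨b, hb, hab⟩ := hGB.vsupp x (hsub hx) a ha
    obtain ⟨b', hb', hab'⟩ := hGB.vsupp x (hsub hx) a' ha'
    have h1 := (hsub hx).2.1 b hb b' hb'
    have h2 := hd.tri a b a'
    have h3 := hd.tri b b' a'
    rw [hd.symm b' a'] at h3
    refine le_trans ?_ (le_max_right _ _)
    omega
  obtain ⟨w, hw⟩ := exists_w c v hinj
  obtain ⟨Q, hQdef⟩ : ∃ Q : Fin m → L2 Ω, ∀ j, Q j = q j.val := ⟨fun j => q j.val, fun _ => rfl⟩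
  have hQ : Orthonormal ℂ Q := by
    have : Q = fun j : Fin m => q j.val := funext hQdef
    rw [this]
    exact hGB.qorth.comp _ Fin.val_injective
  have hPsymm : ∀ x ∈ Loc d D', ∀ a b, ⟪P x a, b⟫_ℂ = ⟪a, P x b⟫_ℂ := fun x hx =>
    proj_symm (hPp x hx)
  have hvq : ∀ x ∈ Loc d D', ∀ a i, ⟪v a x, q i⟫_ℂ = 0 := by
    intro x hx a i
    rw [← hGB.vP x hx a, hPsymm x hx, hGB.qP x hx, inner_zero_right]
  have hPw : ∀ x ∈ Loc d D, ∀ j, P x (w x j) = w x j := by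
    intro x hx j
    rcases (hw x hx).2 j with ⟨a, _, _, h⟩ | ⟨h, _⟩
    · rw [h, hGB.vP x (hsub hx)]
    · rw [h, map_zero]
  have hgood : ∀ x ∈ Loc d D, Good Q (w x) := by
    intro x hx
    refine ⟨?_, ?_, ?_⟩
    · intro j j' hjj
      rcases (hw x hx).2 j with ⟨a, ha, _, h⟩ | ⟨h, _⟩
      · rcases (hw x hx).2 j' with ⟨a', ha', _, h'⟩ | ⟨h', _⟩
        · rw [h, h']
          apply hGB.vorth x (hsub hx)
          rintro rfl
          exact hjj (ha.symm.trans ha')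
        · rw [h', inner_zero_right]
      · rw [h, inner_zero_left]
    · intro j j'
      rw [hQdef]
      rcases (hw x hx).2 j with ⟨a, _, _, h⟩ | ⟨h, _⟩
      · rw [h, hvq x (hsub hx)]
      · rw [h, inner_zero_left]
    · intro j
      rcases (hw x hx).2 j with ⟨a, _, _, h⟩ | ⟨h, _⟩
      · rw [h]
        exact hGB.vnorm x (hsub hx) a
      · rw [h, norm_zero]
        exact zero_le_one
  obtain ⟨Hm, CH, hCH, hH1, hH2, hH3, hH4⟩ := exists_halmos (Fin m) Q hQ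
  obtain ⟨θ, hθ, hθP⟩ := hGB.Prank x₀ hx₀
  -- the basis before the rotation
  obtain ⟨E, hE1, hE2⟩ : ∃ E : (G →₀ ℝ) → (Fin n ⊕ Fin m) → L2 Ω,
      (∀ x i, E x (Sum.inl i) = W x (θ i)) ∧ ∀ x j, E x (Sum.inr j) = Q j :=
    ⟨fun x => Sum.elim (fun i => W x (θ i)) Q, fun _ _ => rfl, fun _ _ => rfl⟩
  have hPE : ∀ x ∈ Loc d D, ∀ i, P x (W x (θ i)) = W x (θ i) := by
    intro x hx i
    have h1 := (hW x hx).2
    have h2 := congrArg (fun F : L2 Ω →L[ℂ] L2 Ω => F (θ i)) h1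
    have h3 : W x (P x₀ (θ i)) = P x (W x (θ i)) := h2
    rw [← h3, proj_apply hθ hθP]
  have hEQ : ∀ x ∈ Loc d D, ∀ i j, ⟪W x (θ i), Q j⟫_ℂ = 0 := by
    intro x hx i j
    rw [← hPE x hx i, hPsymm x (hsub hx), hQdef, hGB.qP x (hsub hx), inner_zero_right]
  have hEo : ∀ x ∈ Loc d D, Orthonormal ℂ (E x) := by
    intro x hx
    have hWo := orthonormal_iff_ite.mp (uni_orth hθ (hW x hx).1)
    have hQo := orthonormal_iff_ite.mp hQ
    rw [orthonormal_iff_ite]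
    intro i j
    rcases i with i | i <;> rcases j with j | j
    · rw [hE1, hE1, hWo]
      simp
    · rw [hE1, hE2, hEQ x hx]
      simp
    · rw [hE1, hE2, inner_eq_zero_symm.mp (hEQ x hx j i)]
      simp
    · rw [hE2, hE2, hQo]
      simp
  obtain ⟨T, hTdef⟩ : ∃ T : (G →₀ ℝ) → (L2 Ω →L[ℂ] L2 Ω), ∀ x u,
      T x u = P x u + ∑ j, ⟪Q j, u⟫_ℂ • Q j := by
    refine ⟨fun x => P x + ∑ j, rk1 (Q j), fun x u => ?_⟩
    rw [add_apply, sum_apply]
    rfl
  have hTE : ∀ x ∈ Loc d D, ∀ u, T x u = ∑ k, ⟪E x k, u⟫_ℂ • E x k := by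
    intro x hx u
    rw [hTdef, Fintype.sum_sum_type]
    simp only [hE1, hE2]
    congr 1
    exact uni_proj hθP (hW x hx).1 (hW x hx).2 u
  have hTp : ∀ x ∈ Loc d D, IsStarProjection (T x) := fun x hx =>
    proj_of_basis (hEo x hx) (hTE x hx)
  have hTw : ∀ x ∈ Loc d D, ∀ j, T x (w x j) = w x j := by
    intro x hx j
    rw [hTdef, hPw x hx, add_eq_left]
    refine Finset.sum_eq_zero fun j' _ => ?_
    rw [inner_eq_zero_symm.mp ((hgood x hx).2.1 j j'), zero_smul]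
  have hTQ : ∀ x ∈ Loc d D, ∀ j, T x (Q j) = Q j := by
    intro x hx j
    have := proj_apply (hEo x hx) (hTE x hx) (Sum.inr j)
    rwa [hE2] at this
  have hcomm : ∀ x ∈ Loc d D, Commute (Hm (w x)) (T x) := fun x hx =>
    hH3 (w x) (hgood x hx) (T x) (hTp x hx) (hTw x hx) (hTQ x hx)
  -- the basis
  obtain ⟨B, hBdef⟩ : ∃ B : (G →₀ ℝ) → (Fin n ⊕ Fin m) → L2 Ω, ∀ x k,
      B x k = Hm (w x) (E x k) := ⟨fun x k => Hm (w x) (E x k), fun _ _ => rfl⟩
  have hBo : ∀ x ∈ Loc d D, Orthonormal ℂ (B x) := by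
    intro x hx
    have : B x = fun k => Hm (w x) (E x k) := funext (hBdef x)
    rw [this]
    exact uni_orth (hEo x hx) (hH1 _ (hgood x hx))
  have hTB : ∀ x ∈ Loc d D, ∀ u, T x u = ∑ k, ⟪B x k, u⟫_ℂ • B x k := by
    intro x hx u
    simp only [hBdef]
    exact uni_proj (hTE x hx) (hH1 _ (hgood x hx)) (hcomm x hx) u
  have hUTT : ∀ g, ∀ x ∈ Loc d D, ∀ u, T (pact g x) (U g u) = U g (T x u) := by
    intro g x hx u
    rw [hTdef, hTdef, hGB.Peqv g x (hsub hx), map_add, map_sum]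
    congr 1
    refine Finset.sum_congr rfl fun j _ => ?_
    have hq : U g (Q j) = Q j := by rw [hQdef, hGB.qfix]
    rw [map_smul, hq]
    congr 1
    conv_lhs => rw [← hq]
    exact LinearIsometryEquiv.inner_map_map _ _ _
  have hX : ∀ g : G, ∀ x ∈ Loc d D, pact g x ∈ Loc d D := fun g x hx => loc_pact hd g hx
  -- Lipschitz estimate for the basis
  obtain ⟨CB, hCBdef⟩ : ∃ CB : ℝ, CB = CH * (m * (2 * L)) + C' := ⟨_, rfl⟩
  have hCB : 0 ≤ CB := by
    rw [hCBdef]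
    positivity
  have hBl : ∀ x ∈ Loc d D, ∀ y ∈ Loc d D, ∀ k, ‖B x k - B y k‖ ≤ CB * d1 x y := by
    intro x hx y hy k
    have hdd := d1_nonneg x y
    have e : B x k - B y k = (Hm (w x) - Hm (w y)) (E x k) + Hm (w y) (E x k - E y k) := by
      rw [hBdef, hBdef, sub_apply, map_sub]
      abel
    rw [e]
    refine (norm_add_le _ _).trans ?_
    have h1 : ‖(Hm (w x) - Hm (w y)) (E x k)‖ ≤ CH * (m * (2 * L)) * d1 x y := by
      refine (ContinuousLinearMap.le_opNorm _ _).trans ?_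
      rw [(hEo x hx).1 k, mul_one]
      refine (hH4 _ _ (hgood x hx) (hgood y hy)).trans ?_
      have h2 : ∑ j, ‖w x j - w y j‖ ≤ ∑ _j : Fin m, (2 * L) * d1 x y :=
        Finset.sum_le_sum fun j _ => w_lip c v hL0
          (fun a x hx y hy => (hGB.vlip a x (hsub hx) y (hsub hy)).trans (hLL x y)) hw hx hy j
      rw [Finset.sum_const, Finset.card_univ, Fintype.card_fin, nsmul_eq_mul] at h2
      calc CH * ∑ j, ‖w x j - w y j‖ ≤ CH * (m * (2 * L * d1 x y)) :=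
            mul_le_mul_of_nonneg_left h2 hCH
        _ = CH * (m * (2 * L)) * d1 x y := by ring
    have h3 : ‖Hm (w y) (E x k - E y k)‖ ≤ C' * d1 x y := by
      rw [ContinuousLinearMap.norm_map_of_mem_unitary (hH1 _ (hgood y hy))]
      rcases k with i | j
      · rw [hE1, hE1, ← sub_apply]
        refine (ContinuousLinearMap.le_opNorm _ _).trans ?_
        rw [hθ.1 i, mul_one]
        exact hWl x hx y hy
      · rw [hE2, hE2, sub_self, norm_zero]
        exact mul_nonneg hC' hdd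
    rw [hCBdef, add_mul]
    linarith
  -- near coordinates
  have hBv : ∀ x ∈ Loc d D, ∀ a, ‖v a x‖ = 1 → B x (Sum.inr (c a)) = v a x := by
    intro x hx a ha
    have hne : v a x ≠ 0 := by
      intro h
      rw [h, norm_zero] at ha
      exact zero_ne_one ha
    have h1 := (hw x hx).1 a hne
    rw [hBdef, hE2, hH2 (w x) (hgood x hx) (c a) (by rw [h1, ha]), h1]
  have hnear : ∀ g, ∀ x ∈ Loc d D, ∀ a, (∃ b ∈ x.support, d a b ≤ r) →
      U g (B x (Sum.inr (c a))) = B (pact g x) (Sum.inr (c (g * a))) := by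
    intro g x hx a hab
    have h1 := hGB.vone x (hsub hx) a hab
    have h2 : v (g * a) (pact g x) = U g (v a x) := hGB.veqv g a x (hsub hx)
    rw [hBv x hx a h1, hBv (pact g x) (hX g x hx) (g * a)
      (by rw [h2, LinearIsometryEquiv.norm_map, h1]), h2]
  refine ⟨n + m, fun a => finSumFinEquiv (Sum.inr (c a)),
    fun g x => (AA U B g x).submatrix finSumFinEquiv.symm finSumFinEquiv.symm, 2 * CB,
    by positivity, ?_, ?_, ?_, ?_, ?_⟩
  · intro a b hab h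
    have h1 := Sum.inr_injective (finSumFinEquiv.injective h)
    exact hc a b (hab.trans (le_max_left _ _)) h1
  · intro g x hx
    show ((AA U B g x).submatrix finSumFinEquiv.symm finSumFinEquiv.symm)ᴴ *
      (AA U B g x).submatrix finSumFinEquiv.symm finSumFinEquiv.symm = 1
    rw [Matrix.conjTranspose_submatrix, Matrix.submatrix_mul_equiv,
      AA_uni hX hBo hTB hUTT g hx, Matrix.submatrix_one_equiv]
  · intro g h x hx
    show (AA U B (g * h) x).submatrix finSumFinEquiv.symm finSumFinEquiv.symm =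
      (AA U B g (pact h x)).submatrix finSumFinEquiv.symm finSumFinEquiv.symm *
      (AA U B h x).submatrix finSumFinEquiv.symm finSumFinEquiv.symm
    rw [Matrix.submatrix_mul_equiv, AA_coc hX hBo hTB hUTT hGB.Umul g h hx]
  · intro g x hx y hy i j
    exact AA_lip hX hBo hBl g hx hy _ _
  · intro g x hx a hab
    rw [Matrix.mulVec_single_one]
    ext i
    show AA U B g x (finSumFinEquiv.symm i) (finSumFinEquiv.symm (finSumFinEquiv (Sum.inr (c a)))) =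
      (Pi.single (finSumFinEquiv (Sum.inr (c (g * a)))) (1 : ℂ) : Fin (n + m) → ℂ) i
    rw [Equiv.symm_apply_apply, AA_near hX hBo g hx (hnear g x hx a hab), Pi.single_apply]
    congr 1
    rw [eq_iff_iff, Equiv.symm_apply_eq]

end Pool.HQ
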