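import Mathlib

/-!
MODULE FL1 (problem MP_7936f4_al): global flow of a bounded Lipschitz vector field on a Banach space.
-/

open Set Filter Topology NNReal

namespace Pool.HQ

section
variable {E : Type*} [NormedAddCommGroup E] [NormedSpace ℝ E]

theorem curve_dist_right {W : E → E} {K : ℝ≥0} (hK : LipschitzWith K W) {f g : ℝ → E}
    (hf : ∀ t, HasDerivAt f (W (f t)) t) (hg : ∀ t, HasDerivAt g (W (g t)) t) (t : ℝ) (ht : 0 ≤ t) :
    dist (f t) (g t) ≤ dist (f 0) (g 0) * Real.exp (K * t) := by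
  have := dist_le_of_trajectories_ODE (v := fun _ => W) (a := 0) (b := t) (δ := dist (f 0) (g 0))
    (fun _ => hK) (f := f) (g := g)
    (fun s _ => (hf s).continuousAt.continuousWithinAt)
    (fun s _ => (hf s).hasDerivWithinAt)
    (fun s _ => (hg s).continuousAt.continuousWithinAt)
    (fun s _ => (hg s).hasDerivWithinAt) le_rfl t ⟨ht, le_rfl⟩
  simpa using this

theorem curve_dist {W : E → E} {K : ℝ≥0} (hK : LipschitzWith K W) {f g : ℝ → E}
    (hf : ∀ t, HasDerivAt f (W (f t)) t) (hg : ∀ t, HasDerivAt g (W (g t)) t) (t : ℝ) :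
    dist (f t) (g t) ≤ dist (f 0) (g 0) * Real.exp (K * |t|) := by
  rcases le_total 0 t with ht | ht
  · rw [abs_of_nonneg ht]
    exact curve_dist_right hK hf hg t ht
  · have hneg : LipschitzWith K (fun x => - W x) := by
      intro x y
      simpa [edist_neg_neg] using hK x y
    have key : ∀ h : ℝ → E, (∀ t, HasDerivAt h (W (h t)) t) →
        ∀ t, HasDerivAt (fun s => h (-s)) (- W (h (-t))) t := by
      intro h hh t
      have := (hh (-t)).scomp t (hasDerivAt_neg t)
      simpa [Function.comp_def] using this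
    have := curve_dist_right hneg (key f hf) (key g hg) (-t) (by linarith)
    rw [abs_of_nonpos ht]
    simpa using this

theorem exists_curve [CompleteSpace E] {W : E → E} {K B : ℝ≥0} (hK : LipschitzWith K W)
    (hB : ∀ x, ‖W x‖ ≤ B) (x : E) :
    ∃ α : ℝ → E, α 0 = x ∧ ∀ t, HasDerivAt α (W (α t)) t := by
  have hloc : ∀ n : ℕ, ∃ α : ℝ → E, α 0 = x ∧
      ∀ t ∈ Ioo (-((n : ℝ) + 1)) ((n : ℝ) + 1), HasDerivAt α (W (α t)) t := by
    intro n
    have h0 : (0 : ℝ) ∈ Icc (-((n : ℝ) + 1)) ((n : ℝ) + 1) := by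
      constructor <;> [have : (0 : ℝ) ≤ n := n.cast_nonneg; have : (0 : ℝ) ≤ n := n.cast_nonneg] <;>
        linarith
    have hPL : IsPicardLindelof (fun _ => W) (⟨0, h0⟩ : Icc (-((n : ℝ) + 1)) ((n : ℝ) + 1)) x
        (B * ((n : ℝ≥0) + 1)) 0 B K := by
      apply IsPicardLindelof.of_time_independent (fun y _ => hB y) (hK.lipschitzOnWith)
      push_cast
      simp
    obtain ⟨α, h1, h2⟩ := hPL.exists_eq_forall_mem_Icc_hasDerivWithinAt₀
    refine ⟨α, h1, fun t ht => ?_⟩
    exact (h2 t (Ioo_subset_Icc_self ht)).hasDerivAt (Icc_mem_nhds ht.1 ht.2)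
  choose α h0 h1 using hloc
  have hagree : ∀ m n : ℕ, m ≤ n → ∀ s : ℝ, |s| < (m : ℝ) + 1 → α m s = α n s := by
    intro m n hmn s hs
    have hmn' : (m : ℝ) ≤ n := by exact_mod_cast hmn
    have hs' := abs_lt.1 hs
    have := ODE_solution_unique_of_mem_Ioo (v := fun _ => W) (s := fun _ => univ) (K := K)
      (a := -((m : ℝ) + 1)) (b := (m : ℝ) + 1) (t₀ := 0) (f := α m) (g := α n)
      (fun _ _ => hK.lipschitzOnWith)
      (by constructor <;> [have : (0 : ℝ) ≤ m := m.cast_nonneg; have : (0 : ℝ) ≤ m := m.cast_nonneg] <;>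
        linarith)
      (fun t ht => ⟨h1 m t ht, trivial⟩)
      (fun t ht => ⟨h1 n t ⟨by linarith [ht.1], by linarith [ht.2]⟩, trivial⟩)
      (by rw [h0, h0])
    exact this ⟨by linarith [hs'.1], hs'.2⟩
  refine ⟨fun t => α ⌈|t|⌉₊ t, by simp [h0], fun t => ?_⟩
  set n : ℕ := ⌈|t|⌉₊ + 1 with hn
  have ht : |t| < n := by
    rw [hn]
    push_cast
    have := Nat.le_ceil |t|
    linarith
  have hev : (fun s => α ⌈|s|⌉₊ s) =ᶠ[𝓝 t] α n := by
    have : {s : ℝ | |s| < n} ∈ 𝓝 t :=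
      (isOpen_lt continuous_abs continuous_const).mem_nhds ht
    filter_upwards [this] with s hs
    have hs' : |s| < (n : ℝ) := hs
    have h3 : ⌈|s|⌉₊ ≤ n := Nat.ceil_le.2 hs'.le
    refine hagree _ _ h3 s ?_
    have := Nat.le_ceil |s|
    linarith
  have e : α ⌈|t|⌉₊ t = α n t := hev.self_of_nhds
  have := (h1 n t (abs_lt.1 (by linarith))).congr_of_eventuallyEq hev
  rw [← e] at this
  exact this

theorem exists_flow [CompleteSpace E] {W : E → E} {K B : ℝ≥0} (hK : LipschitzWith K W)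
    (hB : ∀ x, ‖W x‖ ≤ B) :
    ∃ F : ℝ → E → E, (∀ x, F 0 x = x) ∧ (∀ x t, HasDerivAt (fun s => F s x) (W (F t x)) t) ∧
      (∀ s t x, F (s + t) x = F s (F t x)) ∧
      (∀ t x y, dist (F t x) (F t y) ≤ dist x y * Real.exp (K * |t|)) ∧
      ∀ x, ∀ α : ℝ → E, α 0 = x → (∀ t, HasDerivAt α (W (α t)) t) → ∀ t, α t = F t x := by
  choose F h0 h1 using exists_curve hK hB
  have huniq : ∀ x, ∀ α : ℝ → E, α 0 = x → (∀ t, HasDerivAt α (W (α t)) t) →
      ∀ t, α t = F x t := by
    intro x α ha hd t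
    have := curve_dist hK hd (h1 x) t
    rw [ha, h0, dist_self, zero_mul] at this
    exact dist_le_zero.1 this
  refine ⟨fun t x => F x t, h0, h1, ?_, ?_, ?_⟩
  · intro s t x
    have hd : ∀ r, HasDerivAt (fun r => F x (r + t)) (W (F x (r + t))) r := by
      intro r
      exact (h1 x (r + t)).comp_add_const r t
    exact huniq (F x t) (fun r => F x (r + t)) (by simp) hd s
  · intro t x y
    have := curve_dist hK (h1 x) (h1 y) t
    rwa [h0, h0] at this
  · exact huniq

end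

end Pool.HQ
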