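import Pool.Agent.HQ.FL1

/-!
MODULE FL2 (problem MP_7936f4_al): flow of a relatively Lipschitz vector field on E₁ x (unit ball of E₂).

D(z) = 1 - |z|^2.  In the coordinates X = D(z) Xi the field becomes
 W(X,z) = (D V1 - 2 <z,V2> Xi, V2) for |z| < 1, 0 for |z| >= 1,
which is bounded and globally Lipschitz if V vanishes for |Xi| > R.
-/

open Set Filter Topology NNReal RealInnerProductSpace

namespace Pool.HQ

section
variable {E₁ E₂ : Type*} [NormedAddCommGroup E₁] [NormedSpace ℝ E₁]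
  [NormedAddCommGroup E₂] [InnerProductSpace ℝ E₂]

/-- 1 - |z|^2 -/
noncomputable def DD (z : E₂) : ℝ := 1 - ‖z‖ ^ 2

/-- relative distance -/
noncomputable def rdg (p q : E₁ × E₂) : ℝ := ‖p.1 - q.1‖ + ‖p.2 - q.2‖ / (1 - ‖p.2‖)

/-- A relatively Lipschitz vector field. -/
structure RField (V1 : E₁ × E₂ → E₁) (V2 : E₁ × E₂ → E₂) (v K R : ℝ) : Prop where
  v0 : 0 ≤ v
  K0 : 0 ≤ K
  R0 : 0 ≤ R
  b1 : ∀ p, ‖p.2‖ < 1 → ‖V1 p‖ ≤ v
  b2 : ∀ p, ‖p.2‖ < 1 → ‖V2 p‖ ≤ v * (1 - ‖p.2‖)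
  l1 : ∀ p q, ‖p.2‖ < 1 → ‖q.2‖ < 1 → ‖V1 p - V1 q‖ ≤ K * rdg p q
  l2 : ∀ p q, ‖p.2‖ < 1 → ‖q.2‖ < 1 → ‖V2 p - V2 q‖ ≤ K * (1 - ‖p.2‖) * rdg p q
  z1 : ∀ p, ‖p.2‖ < 1 → R < ‖p.1‖ → V1 p = 0
  z2 : ∀ p, ‖p.2‖ < 1 → R < ‖p.1‖ → V2 p = 0

/-- back to the coordinates (Xi,z) -/
noncomputable def unX (x : E₁ × E₂) : E₁ × E₂ := ((DD x.2)⁻¹ • x.1, x.2)

/-- to the coordinates (X,z) -/
noncomputable def toX (p : E₁ × E₂) : E₁ × E₂ := ((DD p.2) • p.1, p.2)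

/-- the transformed field -/
noncomputable def WX (V1 : E₁ × E₂ → E₁) (V2 : E₁ × E₂ → E₂) (x : E₁ × E₂) : E₁ × E₂ :=
  open Classical in
  if ‖x.2‖ < 1 then
    (DD x.2 • V1 (unX x) - (2 * ⟪x.2, V2 (unX x)⟫) • (unX x).1, V2 (unX x))
  else 0

theorem DD_pos {z : E₂} (hz : ‖z‖ < 1) : 0 < DD z := by
  unfold DD
  nlinarith [norm_nonneg z]

theorem DD_ge {z : E₂} (hz : ‖z‖ < 1) : 1 - ‖z‖ ≤ DD z := by
  unfold DD
  nlinarith [norm_nonneg z]

theorem DD_le {z : E₂} (_hz : ‖z‖ < 1) : DD z ≤ 2 * (1 - ‖z‖) := by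
  unfold DD
  nlinarith [norm_nonneg z, sq_nonneg (1 - ‖z‖)]

theorem unX_toX {p : E₁ × E₂} (hp : ‖p.2‖ < 1) : unX (toX p) = p := by
  have := (DD_pos hp).ne'
  unfold unX toX
  ext
  · simp only
    rw [smul_smul, inv_mul_cancel₀ this, one_smul]
  · rfl

theorem toX_unX {x : E₁ × E₂} (hx : ‖x.2‖ < 1) : toX (unX x) = x := by
  have := (DD_pos hx).ne'
  unfold unX toX
  ext
  · simp only
    rw [smul_smul, mul_inv_cancel₀ this, one_smul]
  · rfl

variable {V1 : E₁ × E₂ → E₁} {V2 : E₁ × E₂ → E₂} {v K R : ℝ}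

theorem WX_norm (H : RField V1 V2 v K R) (x : E₁ × E₂) (hx : ‖x.2‖ < 1) :
    ‖WX V1 V2 x‖ ≤ v * (1 + 2 * R) * DD x.2 := by
  have hD := DD_pos hx
  have hv := H.v0
  have hR := H.R0
  unfold WX
  rw [if_pos hx]
  set p := unX x with hp
  have hp2 : p.2 = x.2 := rfl
  have hpn : ‖p.2‖ < 1 := by rw [hp2]; exact hx
  have h1 := H.b1 p hpn
  have h2 := H.b2 p hpn
  have h2' : ‖V2 p‖ ≤ v * DD x.2 := h2.trans (by
    rw [hp2]; exact mul_le_mul_of_nonneg_left (DD_ge hx) hv)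
  have hin : |⟪x.2, V2 p⟫| ≤ v * DD x.2 := by
    calc |⟪x.2, V2 p⟫| ≤ ‖x.2‖ * ‖V2 p‖ := abs_real_inner_le_norm _ _
      _ ≤ 1 * ‖V2 p‖ := mul_le_mul_of_nonneg_right hx.le (norm_nonneg _)
      _ ≤ v * DD x.2 := by rw [one_mul]; exact h2'
  have hq : ‖(2 * ⟪x.2, V2 p⟫) • p.1‖ ≤ 2 * (v * DD x.2) * R := by
    by_cases hpr : R < ‖p.1‖
    · rw [H.z2 p hpn hpr]
      simp only [inner_zero_right, mul_zero, zero_smul, norm_zero]
      positivity
    · rw [norm_smul, Real.norm_eq_abs, abs_mul, abs_two]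
      have := not_lt.1 hpr
      have h3 : 0 ≤ v * DD x.2 := by positivity
      apply mul_le_mul (by linarith) this (norm_nonneg _) (by positivity)
  rw [Prod.norm_mk]
  apply max_le
  · calc ‖DD x.2 • V1 p - (2 * ⟪x.2, V2 p⟫) • p.1‖
        ≤ ‖DD x.2 • V1 p‖ + ‖(2 * ⟪x.2, V2 p⟫) • p.1‖ := norm_sub_le _ _
      _ ≤ DD x.2 * v + 2 * (v * DD x.2) * R := by
        apply add_le_add _ hq
        rw [norm_smul, Real.norm_eq_abs, abs_of_pos hD]
        exact mul_le_mul_of_nonneg_left h1 hD.le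
      _ = v * (1 + 2 * R) * DD x.2 := by ring
  · refine h2'.trans ?_
    have : 0 ≤ v * R * DD x.2 := by positivity
    nlinarith

theorem WX_bound (H : RField V1 V2 v K R) (x : E₁ × E₂) :
    ‖WX V1 V2 x‖ ≤ v * (1 + 2 * R) := by
  have hv := H.v0
  have hR := H.R0
  by_cases hx : ‖x.2‖ < 1
  · refine (WX_norm H x hx).trans ?_
    have : DD x.2 ≤ 1 := by unfold DD; nlinarith [norm_nonneg x.2]
    have h0 : 0 ≤ v * (1 + 2 * R) := by positivity
    nlinarith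
  · unfold WX
    rw [if_neg hx, norm_zero]
    positivity

/-- Lipschitz constant of WX. -/
noncomputable def KW (v K R : ℝ) : ℝ :=
  16 * (v * (1 + 2 * R)) + K * (4 + 6 * R) + 3 * v + 2 * v * (2 + 6 * R) +
    2 * (v + K * (4 + 6 * R)) * (2 * R + 1)

theorem WX_lip_aux (H : RField V1 V2 v K R) (x y : E₁ × E₂) (hxy : ‖x.2‖ ≤ ‖y.2‖) :
    ‖WX V1 V2 x - WX V1 V2 y‖ ≤ KW v K R * ‖x - y‖ := by
  have hv := H.v0
  have hR := H.R0
  have hK := H.K0
  set e := ‖x - y‖ with he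
  have he0 : 0 ≤ e := norm_nonneg _
  have h1e : ‖x.1 - y.1‖ ≤ e := by
    rw [he]; exact (norm_fst_le (x - y))
  have h2e : ‖x.2 - y.2‖ ≤ e := by
    rw [he]; exact (norm_snd_le (x - y))
  have hKW : 0 ≤ KW v K R := by unfold KW; positivity
  by_cases hx : ‖x.2‖ < 1
  swap
  · have hy : ¬ ‖y.2‖ < 1 := fun h => hx (lt_of_le_of_lt hxy h)
    unfold WX
    rw [if_neg hx, if_neg hy, sub_zero, norm_zero]
    positivity
  have hD := DD_pos hx
  have hD1 : DD x.2 ≤ 1 := by unfold DD; nlinarith [norm_nonneg x.2]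
  by_cases hde : DD x.2 / 8 ≤ e
  · have hWx := WX_norm H x hx
    have hWy : ‖WX V1 V2 y‖ ≤ v * (1 + 2 * R) * DD x.2 := by
      by_cases hy : ‖y.2‖ < 1
      · refine (WX_norm H y hy).trans ?_
        apply mul_le_mul_of_nonneg_left _ (by positivity)
        unfold DD
        nlinarith [norm_nonneg x.2]
      · unfold WX
        rw [if_neg hy, norm_zero]
        positivity
    calc ‖WX V1 V2 x - WX V1 V2 y‖ ≤ ‖WX V1 V2 x‖ + ‖WX V1 V2 y‖ := norm_sub_le _ _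
      _ ≤ v * (1 + 2 * R) * (16 * e) := by
        have h0 : 0 ≤ v * (1 + 2 * R) := by positivity
        nlinarith
      _ ≤ KW v K R * e := by
        unfold KW
        have : 0 ≤ (K * (4 + 6 * R) + 3 * v + 2 * v * (2 + 6 * R) +
          2 * (v + K * (4 + 6 * R)) * (2 * R + 1)) * e := by positivity
        nlinarith
  push Not at hde
  -- close points
  have hny : ‖y.2‖ ≤ ‖x.2‖ + e := by
    have := norm_sub_norm_le y.2 x.2
    rw [norm_sub_rev] at this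
    linarith
  have hDD : |DD x.2 - DD y.2| ≤ 3 * e := by
    unfold DD
    rw [abs_le]
    constructor <;> nlinarith [norm_nonneg x.2, norm_nonneg y.2]
  have hDD' := abs_le.1 hDD
  have hDy : DD x.2 / 2 < DD y.2 := by linarith [hDD'.2]
  have hy : ‖y.2‖ < 1 := by
    by_contra hcon
    push Not at hcon
    have : DD y.2 ≤ 0 := by unfold DD; nlinarith
    linarith
  have hDyp := DD_pos hy
  set p := unX x with hp
  set q := unX y with hq
  have hp2 : p.2 = x.2 := rfl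
  have hq2 : q.2 = y.2 := rfl
  have hpx : DD x.2 • p.1 = x.1 := by
    rw [hp]; unfold unX; simp only
    rw [smul_smul, mul_inv_cancel₀ hD.ne', one_smul]
  have hqy : DD y.2 • q.1 = y.1 := by
    rw [hq]; unfold unX; simp only
    rw [smul_smul, mul_inv_cancel₀ hDyp.ne', one_smul]
  have hpn : ‖p.2‖ < 1 := hx
  have hqn : ‖q.2‖ < 1 := hy
  have eWx : WX V1 V2 x = (DD x.2 • V1 p - (2 * ⟪x.2, V2 p⟫) • p.1, V2 p) := by
    unfold WX; rw [if_pos hx]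
  have eWy : WX V1 V2 y = (DD y.2 • V1 q - (2 * ⟪y.2, V2 q⟫) • q.1, V2 q) := by
    unfold WX; rw [if_pos hy]
  by_cases hboth : R < ‖p.1‖ ∧ R < ‖q.1‖
  · rw [eWx, eWy, H.z1 p hpn hboth.1, H.z2 p hpn hboth.1, H.z1 q hqn hboth.2, H.z2 q hqn hboth.2]
    simp only [smul_zero, inner_zero_right, mul_zero, zero_smul, sub_self]
    rw [norm_zero]
    positivity
  -- |p.1 - q.1|
  have hdiff : DD x.2 * ‖p.1 - q.1‖ ≤ (2 + 6 * R) * e := by
    have hor : ‖p.1‖ ≤ R ∨ ‖q.1‖ ≤ R := by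
      by_contra hcon
      push Not at hcon
      exact hboth hcon
    rcases hor with h | h
    · -- D_y (p - q) = (x.1 - y.1) + (D_y - D_x) p.1
      have e1 : DD y.2 • (p.1 - q.1) = (x.1 - y.1) + (DD y.2 - DD x.2) • p.1 := by
        rw [smul_sub, hqy, sub_smul, hpx]; abel
      have e2 : DD y.2 * ‖p.1 - q.1‖ ≤ e + 3 * e * R := by
        calc DD y.2 * ‖p.1 - q.1‖ = ‖DD y.2 • (p.1 - q.1)‖ := by
              rw [norm_smul, Real.norm_eq_abs, abs_of_pos hDyp]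
          _ ≤ ‖x.1 - y.1‖ + ‖(DD y.2 - DD x.2) • p.1‖ := by rw [e1]; exact norm_add_le _ _
          _ ≤ e + 3 * e * R := by
            apply add_le_add h1e
            rw [norm_smul, Real.norm_eq_abs, abs_sub_comm]
            exact mul_le_mul hDD h (norm_nonneg _) (by positivity)
      nlinarith [norm_nonneg (p.1 - q.1)]
    · have e1 : DD x.2 • (p.1 - q.1) = (x.1 - y.1) + (DD y.2 - DD x.2) • q.1 := by
        rw [smul_sub, hpx, sub_smul, hqy]; abel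
      calc DD x.2 * ‖p.1 - q.1‖ = ‖DD x.2 • (p.1 - q.1)‖ := by
            rw [norm_smul, Real.norm_eq_abs, abs_of_pos hD]
        _ ≤ ‖x.1 - y.1‖ + ‖(DD y.2 - DD x.2) • q.1‖ := by rw [e1]; exact norm_add_le _ _
        _ ≤ e + 3 * e * R := by
          apply add_le_add h1e
          rw [norm_smul, Real.norm_eq_abs, abs_sub_comm]
          exact mul_le_mul hDD h (norm_nonneg _) (by positivity)
        _ ≤ (2 + 6 * R) * e := by nlinarith [mul_nonneg he0 hR]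
  have hq1 : ‖q.1‖ ≤ 2 * R + 1 := by
    have hs : ‖p.1 - q.1‖ ≤ (2 + 6 * R) / 8 := by
      have : DD x.2 * ‖p.1 - q.1‖ ≤ DD x.2 * ((2 + 6 * R) / 8) := by nlinarith
      exact le_of_mul_le_mul_left this hD
    by_cases h : ‖q.1‖ ≤ R
    · linarith
    · have : ‖p.1‖ ≤ R := by
        by_contra hcon
        push Not at h hcon
        exact hboth ⟨hcon, h⟩
      have h3 : ‖q.1‖ ≤ ‖p.1‖ + ‖p.1 - q.1‖ := by
        have := norm_sub_norm_le q.1 p.1
        rw [norm_sub_rev] at this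
        linarith
      linarith
  -- relative distance
  have hrd : DD x.2 * rdg p q ≤ (4 + 6 * R) * e := by
    unfold rdg
    rw [mul_add, hp2]
    have h3 : DD x.2 * (‖x.2 - q.2‖ / (1 - ‖x.2‖)) ≤ 2 * e := by
      have hpos : 0 < 1 - ‖x.2‖ := by linarith
      rw [← mul_div_assoc, div_le_iff₀ hpos, hq2]
      have := DD_le hx
      nlinarith [norm_nonneg (x.2 - y.2)]
    linarith
  have hrd0 : 0 ≤ rdg p q := by
    unfold rdg
    have hpos : 0 < 1 - ‖p.2‖ := by linarith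
    positivity
  have hl1 := H.l1 p q hpn hqn
  have hl2 := H.l2 p q hpn hqn
  have hl1' : DD x.2 * ‖V1 p - V1 q‖ ≤ K * (4 + 6 * R) * e := by
    calc DD x.2 * ‖V1 p - V1 q‖ ≤ DD x.2 * (K * rdg p q) := mul_le_mul_of_nonneg_left hl1 hD.le
      _ = K * (DD x.2 * rdg p q) := by ring
      _ ≤ K * ((4 + 6 * R) * e) := mul_le_mul_of_nonneg_left hrd hK
      _ = _ := by ring
  have hl2' : ‖V2 p - V2 q‖ ≤ K * (4 + 6 * R) * e := by
    calc ‖V2 p - V2 q‖ ≤ K * (1 - ‖p.2‖) * rdg p q := hl2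
      _ ≤ K * DD x.2 * rdg p q := by
        apply mul_le_mul_of_nonneg_right _ hrd0
        exact mul_le_mul_of_nonneg_left (DD_ge hx) hK
      _ = K * (DD x.2 * rdg p q) := by ring
      _ ≤ K * ((4 + 6 * R) * e) := mul_le_mul_of_nonneg_left hrd hK
      _ = _ := by ring
  have hV1q := H.b1 q hqn
  have hV2p : ‖V2 p‖ ≤ v * DD x.2 := (H.b2 p hpn).trans
    (mul_le_mul_of_nonneg_left (DD_ge hx) hv)
  have hin1 : |⟪x.2, V2 p⟫| ≤ v * DD x.2 := by
    calc |⟪x.2, V2 p⟫| ≤ ‖x.2‖ * ‖V2 p‖ := abs_real_inner_le_norm _ _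
      _ ≤ 1 * ‖V2 p‖ := mul_le_mul_of_nonneg_right hx.le (norm_nonneg _)
      _ ≤ v * DD x.2 := by rw [one_mul]; exact hV2p
  have hin2 : |⟪x.2, V2 p⟫ - ⟪y.2, V2 q⟫| ≤ (v + K * (4 + 6 * R)) * e := by
    have e1 : ⟪x.2, V2 p⟫ - ⟪y.2, V2 q⟫ = ⟪x.2 - y.2, V2 p⟫ + ⟪y.2, V2 p - V2 q⟫ := by
      rw [inner_sub_left, inner_sub_right]; ring
    rw [e1]
    calc |⟪x.2 - y.2, V2 p⟫ + ⟪y.2, V2 p - V2 q⟫|
        ≤ |⟪x.2 - y.2, V2 p⟫| + |⟪y.2, V2 p - V2 q⟫| := abs_add_le _ _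
      _ ≤ e * v + 1 * (K * (4 + 6 * R) * e) := by
        apply add_le_add
        · refine (abs_real_inner_le_norm _ _).trans ?_
          apply mul_le_mul h2e _ (norm_nonneg _) he0
          refine hV2p.trans ?_
          nlinarith
        · refine (abs_real_inner_le_norm _ _).trans ?_
          exact mul_le_mul hy.le hl2' (norm_nonneg _) zero_le_one
      _ = _ := by ring
  rw [eWx, eWy, Prod.mk_sub_mk, Prod.norm_mk]
  apply max_le
  · have e1 : DD x.2 • V1 p - (2 * ⟪x.2, V2 p⟫) • p.1 -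
        (DD y.2 • V1 q - (2 * ⟪y.2, V2 q⟫) • q.1) =
        DD x.2 • (V1 p - V1 q) + (DD x.2 - DD y.2) • V1 q -
          ((2 * ⟪x.2, V2 p⟫) • (p.1 - q.1) +
            (2 * (⟪x.2, V2 p⟫ - ⟪y.2, V2 q⟫)) • q.1) := by
      simp only [smul_sub, sub_smul, mul_sub]
      abel
    rw [e1]
    have n1 : ‖DD x.2 • (V1 p - V1 q)‖ ≤ K * (4 + 6 * R) * e := by
      rw [norm_smul, Real.norm_eq_abs, abs_of_pos hD]; exact hl1'
    have n2 : ‖(DD x.2 - DD y.2) • V1 q‖ ≤ 3 * e * v := by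
      rw [norm_smul, Real.norm_eq_abs]
      exact mul_le_mul hDD hV1q (norm_nonneg _) (by positivity)
    have n3 : ‖(2 * ⟪x.2, V2 p⟫) • (p.1 - q.1)‖ ≤ 2 * v * ((2 + 6 * R) * e) := by
      rw [norm_smul, Real.norm_eq_abs, abs_mul, abs_two]
      calc 2 * |⟪x.2, V2 p⟫| * ‖p.1 - q.1‖ ≤ 2 * (v * DD x.2) * ‖p.1 - q.1‖ := by
            apply mul_le_mul_of_nonneg_right _ (norm_nonneg _)
            linarith
        _ = 2 * v * (DD x.2 * ‖p.1 - q.1‖) := by ring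
        _ ≤ _ := mul_le_mul_of_nonneg_left hdiff (by positivity)
    have n4 : ‖(2 * (⟪x.2, V2 p⟫ - ⟪y.2, V2 q⟫)) • q.1‖ ≤
        2 * ((v + K * (4 + 6 * R)) * e) * (2 * R + 1) := by
      rw [norm_smul, Real.norm_eq_abs, abs_mul, abs_two]
      apply mul_le_mul _ hq1 (norm_nonneg _) (by positivity)
      linarith
    calc ‖DD x.2 • (V1 p - V1 q) + (DD x.2 - DD y.2) • V1 q -
          ((2 * ⟪x.2, V2 p⟫) • (p.1 - q.1) + (2 * (⟪x.2, V2 p⟫ - ⟪y.2, V2 q⟫)) • q.1)‖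
        ≤ (‖DD x.2 • (V1 p - V1 q)‖ + ‖(DD x.2 - DD y.2) • V1 q‖) +
          (‖(2 * ⟪x.2, V2 p⟫) • (p.1 - q.1)‖ +
            ‖(2 * (⟪x.2, V2 p⟫ - ⟪y.2, V2 q⟫)) • q.1‖) := by
          refine (norm_sub_le _ _).trans ?_
          exact add_le_add (norm_add_le _ _) (norm_add_le _ _)
      _ ≤ (K * (4 + 6 * R) * e + 3 * e * v) + (2 * v * ((2 + 6 * R) * e) +
          2 * ((v + K * (4 + 6 * R)) * e) * (2 * R + 1)) :=
          add_le_add (add_le_add n1 n2) (add_le_add n3 n4)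
      _ ≤ KW v K R * e := by
        unfold KW
        have : 0 ≤ 16 * (v * (1 + 2 * R)) * e := by positivity
        nlinarith
  · refine hl2'.trans ?_
    unfold KW
    have : 0 ≤ (16 * (v * (1 + 2 * R)) + 3 * v + 2 * v * (2 + 6 * R) +
      2 * (v + K * (4 + 6 * R)) * (2 * R + 1)) * e := by positivity
    nlinarith

theorem WX_lip (H : RField V1 V2 v K R) (x y : E₁ × E₂) :
    ‖WX V1 V2 x - WX V1 V2 y‖ ≤ KW v K R * ‖x - y‖ := by
  rcases le_total ‖x.2‖ ‖y.2‖ with h | h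
  · exact WX_lip_aux H x y h
  · rw [norm_sub_rev, norm_sub_rev x y]
    exact WX_lip_aux H y x h

end

end Pool.HQ
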