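import Pool.Agent.HQ.FL2

/-!
MODULE FL3 (problem MP_7936f4_al): existence of the flow of a relatively Lipschitz vector field, and its estimates.
-/

open Set Filter Topology NNReal RealInnerProductSpace

namespace Pool.HQ

section
variable {E₁ E₂ : Type*} [NormedAddCommGroup E₁] [NormedSpace ℝ E₁] [CompleteSpace E₁]
  [NormedAddCommGroup E₂] [InnerProductSpace ℝ E₂] [CompleteSpace E₂]
  {V1 : E₁ × E₂ → E₁} {V2 : E₁ × E₂ → E₂} {v K R : ℝ}

/-- A flow of the field on the set of points with norm of the second coordinate < 1. -/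
structure RFlow (V1 : E₁ × E₂ → E₁) (V2 : E₁ × E₂ → E₂) (F : ℝ → E₁ × E₂ → E₁ × E₂) : Prop where
  zero : ∀ p, ‖p.2‖ < 1 → F 0 p = p
  maps : ∀ t p, ‖p.2‖ < 1 → ‖(F t p).2‖ < 1
  add : ∀ s t p, ‖p.2‖ < 1 → F (s + t) p = F s (F t p)
  d1 : ∀ p t, ‖p.2‖ < 1 → HasDerivAt (fun s => (F s p).1) (V1 (F t p)) t
  d2 : ∀ p t, ‖p.2‖ < 1 → HasDerivAt (fun s => (F s p).2) (V2 (F t p)) t

theorem exists_rflow (H : RField V1 V2 v K R) : ∃ F, RFlow V1 V2 F := by
  have hv := H.v0
  have hR := H.R0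
  have hK := H.K0
  have hKW : 0 ≤ KW v K R := by unfold KW; positivity
  have hB : 0 ≤ v * (1 + 2 * R) := by positivity
  have hLip : LipschitzWith (⟨KW v K R, hKW⟩ : ℝ≥0) (WX V1 V2) := by
    apply LipschitzWith.of_dist_le_mul
    intro x y
    rw [dist_eq_norm, dist_eq_norm]
    exact WX_lip H x y
  obtain ⟨F, h0, h1, h2, h3, h4⟩ := exists_flow (B := ⟨v * (1 + 2 * R), hB⟩) hLip
    (fun x => WX_bound H x)
  have hfix : ∀ t x, ¬ ‖x.2‖ < 1 → F t x = x := by
    intro t x hx
    have := h4 x (fun _ => x) rfl (fun s => by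
      have : WX V1 V2 x = 0 := by unfold WX; rw [if_neg hx]
      rw [this]
      exact hasDerivAt_const s x) t
    exact this.symm
  have hmaps : ∀ t x, ‖x.2‖ < 1 → ‖(F t x).2‖ < 1 := by
    intro t x hx
    by_contra hcon
    have h5 := hfix (-t) (F t x) hcon
    rw [← h2, neg_add_cancel, h0] at h5
    rw [← h5] at hcon
    exact hcon hx
  refine ⟨fun t p => unX (F t (toX p)), ?_, ?_, ?_, ?_, ?_⟩
  · intro p hp
    rw [h0, unX_toX hp]
  · intro t p hp
    exact hmaps t (toX p) hp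
  · intro s t p hp
    rw [h2, toX_unX (hmaps t (toX p) hp)]
  · intro p t hp
    have hx : ‖(F t (toX p)).2‖ < 1 := hmaps t (toX p) hp
    have hD := DD_pos hx
    have hd := h1 (toX p) t
    have eW : WX V1 V2 (F t (toX p)) = (DD (F t (toX p)).2 • V1 (unX (F t (toX p))) -
        (2 * ⟪(F t (toX p)).2, V2 (unX (F t (toX p)))⟫) • (unX (F t (toX p))).1,
        V2 (unX (F t (toX p)))) := by
      unfold WX; rw [if_pos hx]
    rw [eW] at hd
    have hd1 : HasDerivAt (fun s => (F s (toX p)).1)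
        (DD (F t (toX p)).2 • V1 (unX (F t (toX p))) -
          (2 * ⟪(F t (toX p)).2, V2 (unX (F t (toX p)))⟫) • (unX (F t (toX p))).1) t := by
      simpa using hd.hasFDerivAt.fst.hasDerivAt
    have hd2 : HasDerivAt (fun s => (F s (toX p)).2) (V2 (unX (F t (toX p)))) t := by
      simpa using hd.hasFDerivAt.snd.hasDerivAt
    have hdD : HasDerivAt (fun s => DD (F s (toX p)).2)
        (-(2 * ⟪(F t (toX p)).2, V2 (unX (F t (toX p)))⟫)) t := by
      have := hd2.norm_sq
      have := this.const_sub 1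
      exact this
    have hinv := hdD.inv hD.ne'
    have hmul := hinv.smul hd1
    refine (hmul.congr_deriv ?_).congr_of_eventuallyEq (Filter.Eventually.of_forall fun s => rfl)
    set x := F t (toX p) with hxdef
    have e1 : (unX x).1 = (DD x.2)⁻¹ • x.1 := rfl
    rw [e1]
    simp only [Pi.inv_apply]
    rw [← hxdef, smul_sub, smul_smul, inv_mul_cancel₀ hD.ne', one_smul, smul_smul, smul_smul]
    have e2 : -(-(2 * ⟪x.2, V2 (unX x)⟫)) / DD x.2 ^ 2 =
        (DD x.2)⁻¹ * (2 * ⟪x.2, V2 (unX x)⟫ * (DD x.2)⁻¹) := by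
      field_simp
    rw [e2, mul_assoc]
    abel
  · intro p t hp
    have hx : ‖(F t (toX p)).2‖ < 1 := hmaps t (toX p) hp
    have hd := h1 (toX p) t
    have eW : WX V1 V2 (F t (toX p)) = (DD (F t (toX p)).2 • V1 (unX (F t (toX p))) -
        (2 * ⟪(F t (toX p)).2, V2 (unX (F t (toX p)))⟫) • (unX (F t (toX p))).1,
        V2 (unX (F t (toX p)))) := by
      unfold WX; rw [if_pos hx]
    rw [eW] at hd
    have hd2 : HasDerivAt (fun s => (F s (toX p)).2) (V2 (unX (F t (toX p)))) t := by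
      simpa using hd.hasFDerivAt.snd.hasDerivAt
    exact hd2

end

end Pool.HQ
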