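import Pool.Agent.HQ.FL3

/-!
MODULE FL4 (problem MP_7936f4_al): estimates for the flow of a relatively Lipschitz vector field.
-/

open Set Filter Topology NNReal RealInnerProductSpace

namespace Pool.HQ

section
variable {E₁ E₂ : Type*} [NormedAddCommGroup E₁] [NormedSpace ℝ E₁]
  [NormedAddCommGroup E₂] [InnerProductSpace ℝ E₂]
  {V1 : E₁ × E₂ → E₁} {V2 : E₁ × E₂ → E₂} {v K R : ℝ} {F : ℝ → E₁ × E₂ → E₁ × E₂}

theorem RField.neg (H : RField V1 V2 v K R) :
    RField (fun p => - V1 p) (fun p => - V2 p) v K R where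
  v0 := H.v0
  K0 := H.K0
  R0 := H.R0
  b1 p hp := by rw [norm_neg]; exact H.b1 p hp
  b2 p hp := by rw [norm_neg]; exact H.b2 p hp
  l1 p q hp hq := by rw [← neg_sub', norm_neg]; exact H.l1 p q hp hq
  l2 p q hp hq := by rw [← neg_sub', norm_neg]; exact H.l2 p q hp hq
  z1 p hp h := by rw [H.z1 p hp h, neg_zero]
  z2 p hp h := by rw [H.z2 p hp h, neg_zero]

theorem RFlow.neg (hF : RFlow V1 V2 F) :
    RFlow (fun p => - V1 p) (fun p => - V2 p) (fun t p => F (-t) p) where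
  zero p hp := by rw [neg_zero]; exact hF.zero p hp
  maps t p hp := hF.maps (-t) p hp
  add s t p hp := by rw [neg_add]; exact hF.add (-s) (-t) p hp
  d1 p t hp := by
    have := (hF.d1 p (-t) hp).scomp t (hasDerivAt_neg t)
    simpa [Function.comp_def] using this
  d2 p t hp := by
    have := (hF.d2 p (-t) hp).scomp t (hasDerivAt_neg t)
    simpa [Function.comp_def] using this

theorem RFlow.disp2_pos (H : RField V1 V2 v K R) (hF : RFlow V1 V2 F) (p : E₁ × E₂)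
    (hp : ‖p.2‖ < 1) (t : ℝ) (ht : 0 ≤ t) :
    ‖(F t p).2 - p.2‖ ≤ (1 - ‖p.2‖) * (Real.exp ((v + 1) * t) - 1) := by
  have hv := H.v0
  have h1 := norm_le_gronwallBound_of_norm_deriv_right_le (f := fun t => (F t p).2 - p.2)
    (f' := fun t => V2 (F t p)) (δ := 0) (K := v + 1) (ε := (v + 1) * (1 - ‖p.2‖)) (a := 0) (b := t)
    (fun s _ => ((hF.d2 p s hp).sub_const p.2).continuousAt.continuousWithinAt)
    (fun s _ => ((hF.d2 p s hp).sub_const p.2).hasDerivWithinAt)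
    (by rw [hF.zero p hp]; simp)
    (fun s _ => by
      have h2 := H.b2 (F s p) (hF.maps s p hp)
      have h3 : 1 - ‖(F s p).2‖ ≤ (1 - ‖p.2‖) + ‖(F s p).2 - p.2‖ := by
        have := norm_sub_norm_le p.2 (F s p).2
        rw [norm_sub_rev] at this
        linarith
      have h4 : 0 < 1 - ‖(F s p).2‖ := by linarith [hF.maps s p hp]
      nlinarith [norm_nonneg ((F s p).2 - p.2)])
    t ⟨ht, le_rfl⟩
  rw [gronwallBound_of_K_ne_0 (by positivity : v + 1 ≠ 0)] at h1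
  have e : 0 * Real.exp ((v + 1) * (t - 0)) + (v + 1) * (1 - ‖p.2‖) / (v + 1) *
      (Real.exp ((v + 1) * (t - 0)) - 1) = (1 - ‖p.2‖) * (Real.exp ((v + 1) * t) - 1) := by
    rw [sub_zero]
    field_simp
    ring
  simp only at h1
  rw [e] at h1
  exact h1

theorem RFlow.disp2 (H : RField V1 V2 v K R) (hF : RFlow V1 V2 F) (p : E₁ × E₂)
    (hp : ‖p.2‖ < 1) (t : ℝ) :
    ‖(F t p).2 - p.2‖ ≤ (1 - ‖p.2‖) * (Real.exp ((v + 1) * |t|) - 1) := by
  rcases le_total 0 t with ht | ht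
  · rw [abs_of_nonneg ht]
    exact hF.disp2_pos H p hp t ht
  · rw [abs_of_nonpos ht]
    have := (RFlow.neg hF).disp2_pos H.neg p hp (-t) (by linarith)
    simpa using this

theorem RFlow.scale (H : RField V1 V2 v K R) (hF : RFlow V1 V2 F) (p : E₁ × E₂)
    (hp : ‖p.2‖ < 1) (t : ℝ) :
    1 - ‖(F t p).2‖ ≤ Real.exp ((v + 1) * |t|) * (1 - ‖p.2‖) := by
  have h := hF.disp2 H p hp t
  have := norm_sub_norm_le p.2 (F t p).2
  rw [norm_sub_rev] at this
  nlinarith

theorem RFlow.scale' (H : RField V1 V2 v K R) (hF : RFlow V1 V2 F) (p : E₁ × E₂)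
    (hp : ‖p.2‖ < 1) (t : ℝ) :
    1 - ‖p.2‖ ≤ Real.exp ((v + 1) * |t|) * (1 - ‖(F t p).2‖) := by
  have h := hF.scale H (F t p) (hF.maps t p hp) (-t)
  rw [← hF.add (-t) t p hp, neg_add_cancel, hF.zero p hp, abs_neg] at h
  exact h

theorem RFlow.disp1_pos (H : RField V1 V2 v K R) (hF : RFlow V1 V2 F) (p : E₁ × E₂)
    (hp : ‖p.2‖ < 1) (t : ℝ) (ht : 0 ≤ t) : ‖(F t p).1 - p.1‖ ≤ v * t := by
  have h1 := norm_image_sub_le_of_norm_deriv_right_le_segment (f := fun t => (F t p).1)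
    (f' := fun t => V1 (F t p)) (C := v) (a := 0) (b := t)
    (fun s _ => (hF.d1 p s hp).continuousAt.continuousWithinAt)
    (fun s _ => (hF.d1 p s hp).hasDerivWithinAt)
    (fun s _ => H.b1 (F s p) (hF.maps s p hp)) t ⟨ht, le_rfl⟩
  rw [hF.zero p hp, sub_zero] at h1
  exact h1

theorem RFlow.disp1 (H : RField V1 V2 v K R) (hF : RFlow V1 V2 F) (p : E₁ × E₂)
    (hp : ‖p.2‖ < 1) (t : ℝ) : ‖(F t p).1 - p.1‖ ≤ v * |t| := by
  rcases le_total 0 t with ht | ht
  · rw [abs_of_nonneg ht]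
    exact hF.disp1_pos H p hp t ht
  · rw [abs_of_nonpos ht]
    have := (RFlow.neg hF).disp1_pos H.neg p hp (-t) (by linarith)
    simpa using this

theorem rdg_nonneg (p q : E₁ × E₂) (hp : ‖p.2‖ < 1) : 0 ≤ rdg p q := by
  unfold rdg
  have : 0 < 1 - ‖p.2‖ := by linarith
  positivity

theorem exp_sub_one_le {w r : ℝ} (hw : 0 ≤ w) (hr : 0 ≤ r) (hr1 : r ≤ 1) :
    Real.exp (w * r) - 1 ≤ w * Real.exp w * r := by
  -- convexity: exp (w r) <= (1-r) + r exp w ... use exp x - 1 <= x exp x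
  have h1 : Real.exp (w * r) - 1 ≤ (w * r) * Real.exp (w * r) := by
    have := Real.add_one_le_exp (-(w * r))
    have h2 : Real.exp (w * r) * Real.exp (-(w * r)) = 1 := by
      rw [← Real.exp_add, add_neg_cancel, Real.exp_zero]
    have h3 := Real.exp_pos (w * r)
    nlinarith
  have h4 : Real.exp (w * r) ≤ Real.exp w := Real.exp_le_exp.2 (by nlinarith)
  have h5 : 0 ≤ w * r := mul_nonneg hw hr
  nlinarith

/-- Constant of the displacement estimate. -/
noncomputable def cE (v : ℝ) : ℝ := v + (v + 1) * Real.exp (v + 1)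

theorem cE_nonneg {v : ℝ} (hv : 0 ≤ v) : 0 ≤ cE v := by unfold cE; positivity

theorem RFlow.rd_small (H : RField V1 V2 v K R) (hF : RFlow V1 V2 F) (p : E₁ × E₂)
    (hp : ‖p.2‖ < 1) (t : ℝ) (ht : |t| ≤ 1) : rdg p (F t p) ≤ cE v * |t| := by
  have hv := H.v0
  have h1 := hF.disp1 H p hp t
  have h2 := hF.disp2 H p hp t
  have hpos : 0 < 1 - ‖p.2‖ := by linarith
  have h3 := exp_sub_one_le (w := v + 1) (by linarith) (abs_nonneg t) ht
  unfold rdg cE
  rw [norm_sub_rev, norm_sub_rev p.2]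
  have h4 : ‖(F t p).2 - p.2‖ / (1 - ‖p.2‖) ≤ (v + 1) * Real.exp (v + 1) * |t| := by
    rw [div_le_iff₀ hpos]
    nlinarith
  linarith

theorem RFlow.rd_pair_pos (H : RField V1 V2 v K R) (hF : RFlow V1 V2 F) (T : ℝ) (p q : E₁ × E₂)
    (hp : ‖p.2‖ < 1) (hq : ‖q.2‖ < 1) (t : ℝ) (ht : 0 ≤ t) (htT : t ≤ T) :
    rdg (F t p) (F t q) ≤
      2 * Real.exp ((v + 1) * T) * Real.exp (2 * K * Real.exp ((v + 1) * T) ^ 2 * T) * rdg p q := by
  have hv := H.v0
  have hK := H.K0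
  set ell : ℝ := 1 - ‖p.2‖ with hell
  have hl : 0 < ell := by rw [hell]; linarith
  set A : ℝ := Real.exp ((v + 1) * T) with hA
  have hT : 0 ≤ T := ht.trans htT
  have hA1 : 1 ≤ A := by rw [hA]; exact Real.one_le_exp (by positivity)
  have hsc : ∀ s, 0 ≤ s → s ≤ T → 1 - ‖(F s p).2‖ ≤ A * ell ∧ ell ≤ A * (1 - ‖(F s p).2‖) := by
    intro s hs hsT
    have e : Real.exp ((v + 1) * |s|) ≤ A := by
      rw [hA, abs_of_nonneg hs]
      exact Real.exp_le_exp.2 (mul_le_mul_of_nonneg_left hsT (by linarith))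
    have hpos : 0 < 1 - ‖(F s p).2‖ := by linarith [hF.maps s p hp]
    exact ⟨(hF.scale H p hp s).trans (mul_le_mul_of_nonneg_right e hl.le),
      (hF.scale' H p hp s).trans (mul_le_mul_of_nonneg_right e hpos.le)⟩
  -- the pair
  set Y : ℝ → E₁ × E₂ := fun s => ((F s p).1 - (F s q).1, ell⁻¹ • ((F s p).2 - (F s q).2)) with hY
  have hrdY : ∀ s, 0 ≤ s → s ≤ T → rdg (F s p) (F s q) ≤ 2 * A * ‖Y s‖ := by
    intro s hs hsT
    obtain ⟨h1, h2⟩ := hsc s hs hsT
    have hpos : 0 < 1 - ‖(F s p).2‖ := by linarith [hF.maps s p hp]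
    have hY1 : ‖(F s p).1 - (F s q).1‖ ≤ ‖Y s‖ := by
      rw [hY]; exact norm_fst_le (((F s p).1 - (F s q).1, ell⁻¹ • ((F s p).2 - (F s q).2)) : E₁ × E₂)
    have hY2 : ell⁻¹ * ‖(F s p).2 - (F s q).2‖ ≤ ‖Y s‖ := by
      have := norm_snd_le (((F s p).1 - (F s q).1, ell⁻¹ • ((F s p).2 - (F s q).2)) : E₁ × E₂)
      rw [hY]
      simp only at this
      rw [norm_smul, Real.norm_eq_abs, abs_of_pos (inv_pos.2 hl)] at this
      exact this
    have hY3 : ‖(F s p).2 - (F s q).2‖ ≤ ell * ‖Y s‖ := by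
      rw [inv_mul_le_iff₀ hl] at hY2; exact hY2
    unfold rdg
    have h3 : ‖(F s p).2 - (F s q).2‖ / (1 - ‖(F s p).2‖) ≤ A * ‖Y s‖ := by
      rw [div_le_iff₀ hpos]
      nlinarith [norm_nonneg (Y s)]
    nlinarith [norm_nonneg (Y s)]
  have hYd : ∀ s, HasDerivAt Y (V1 (F s p) - V1 (F s q), ell⁻¹ • (V2 (F s p) - V2 (F s q))) s := by
    intro s
    exact ((hF.d1 p s hp).sub (hF.d1 q s hq)).prodMk
      (((hF.d2 p s hp).sub (hF.d2 q s hq)).const_smul ell⁻¹)
  have hgr := norm_le_gronwallBound_of_norm_deriv_right_le (f := Y)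
    (f' := fun s => (V1 (F s p) - V1 (F s q), ell⁻¹ • (V2 (F s p) - V2 (F s q))))
    (δ := ‖Y 0‖) (K := 2 * K * A ^ 2) (ε := 0) (a := 0) (b := T)
    (fun s _ => (hYd s).continuousAt.continuousWithinAt)
    (fun s _ => (hYd s).hasDerivWithinAt) le_rfl
    (fun s hs => by
      have hps := hF.maps s p hp
      have hqs := hF.maps s q hq
      have hrd := hrdY s hs.1 hs.2.le
      have hrd0 := rdg_nonneg (F s p) (F s q) hps
      obtain ⟨h1, h2⟩ := hsc s hs.1 hs.2.le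
      have l1 := H.l1 _ _ hps hqs
      have l2 := H.l2 _ _ hps hqs
      rw [add_zero, Prod.norm_mk]
      have hYn := norm_nonneg (Y s)
      have hAA : A ≤ A ^ 2 := by nlinarith
      apply max_le
      · calc ‖V1 (F s p) - V1 (F s q)‖ ≤ K * rdg (F s p) (F s q) := l1
          _ ≤ K * (2 * A * ‖Y s‖) := mul_le_mul_of_nonneg_left hrd hK
          _ ≤ K * (2 * A ^ 2 * ‖Y s‖) := by
            apply mul_le_mul_of_nonneg_left _ hK
            apply mul_le_mul_of_nonneg_right _ hYn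
            linarith
          _ = 2 * K * A ^ 2 * ‖Y s‖ := by ring
      · rw [norm_smul, Real.norm_eq_abs, abs_of_pos (inv_pos.2 hl), inv_mul_le_iff₀ hl]
        calc ‖V2 (F s p) - V2 (F s q)‖ ≤ K * (1 - ‖(F s p).2‖) * rdg (F s p) (F s q) := l2
          _ ≤ K * (A * ell) * (2 * A * ‖Y s‖) := by
            apply mul_le_mul _ hrd hrd0 (by positivity)
            exact mul_le_mul_of_nonneg_left h1 hK
          _ = ell * (2 * K * A ^ 2 * ‖Y s‖) := by ring)
    t ⟨ht, htT⟩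
  rw [gronwallBound_ε0, sub_zero] at hgr
  have hY0 : ‖Y 0‖ ≤ rdg p q := by
    rw [hY]
    simp only
    rw [hF.zero p hp, hF.zero q hq, Prod.norm_mk]
    unfold rdg
    rw [norm_smul, Real.norm_eq_abs, abs_of_pos (inv_pos.2 hl)]
    have h5 : 0 ≤ ‖p.2 - q.2‖ / (1 - ‖p.2‖) := by positivity
    apply max_le
    · linarith
    · rw [div_eq_inv_mul]
      linarith [norm_nonneg (p.1 - q.1)]
  have hrdpq := rdg_nonneg p q hp
  calc rdg (F t p) (F t q) ≤ 2 * A * ‖Y t‖ := hrdY t ht htT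
    _ ≤ 2 * A * (‖Y 0‖ * Real.exp (2 * K * A ^ 2 * t)) :=
      mul_le_mul_of_nonneg_left hgr (by positivity)
    _ ≤ 2 * A * (rdg p q * Real.exp (2 * K * A ^ 2 * T)) := by
      apply mul_le_mul_of_nonneg_left _ (by positivity)
      apply mul_le_mul hY0 _ (Real.exp_pos _).le hrdpq
      exact Real.exp_le_exp.2 (mul_le_mul_of_nonneg_left htT (by positivity))
    _ = _ := by ring

/-- constant of the pair estimate -/
noncomputable def cP (v K T : ℝ) : ℝ :=
  2 * Real.exp ((v + 1) * T) * Real.exp (2 * K * Real.exp ((v + 1) * T) ^ 2 * T)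

theorem RFlow.rd_pair (H : RField V1 V2 v K R) (hF : RFlow V1 V2 F) (T : ℝ) (p q : E₁ × E₂)
    (hp : ‖p.2‖ < 1) (hq : ‖q.2‖ < 1) (t : ℝ) (ht : |t| ≤ T) :
    rdg (F t p) (F t q) ≤ cP v K T * rdg p q := by
  unfold cP
  rcases le_total 0 t with h | h
  · rw [abs_of_nonneg h] at ht
    exact hF.rd_pair_pos H T p q hp hq t h ht
  · rw [abs_of_nonpos h] at ht
    have := (RFlow.neg hF).rd_pair_pos H.neg T p q hp hq (-t) (by linarith) ht
    simpa using this

/-- Euler step -/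
noncomputable def eul (V1 : E₁ × E₂ → E₁) (V2 : E₁ × E₂ → E₂) (s : ℝ) (p : E₁ × E₂) : E₁ × E₂ :=
  (p.1 + s • V1 p, p.2 + s • V2 p)

theorem eul_scale (H : RField V1 V2 v K R) (p : E₁ × E₂) (hp : ‖p.2‖ < 1) (s : ℝ) (hs : 0 ≤ s)
    (hs1 : s * v ≤ 1 / 2) : (1 - ‖p.2‖) / 2 ≤ 1 - ‖(eul V1 V2 s p).2‖ := by
  unfold eul
  simp only
  have h1 := H.b2 p hp
  have h2 : ‖p.2 + s • V2 p‖ ≤ ‖p.2‖ + s * ‖V2 p‖ := by
    refine (norm_add_le _ _).trans ?_
    rw [norm_smul, Real.norm_eq_abs, abs_of_nonneg hs]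
  have hpos : 0 < 1 - ‖p.2‖ := by linarith
  have h3 : s * ‖V2 p‖ ≤ s * (v * (1 - ‖p.2‖)) := mul_le_mul_of_nonneg_left h1 hs
  nlinarith

theorem RFlow.euler (H : RField V1 V2 v K R) (hF : RFlow V1 V2 F) (p : E₁ × E₂)
    (hp : ‖p.2‖ < 1) (s : ℝ) (hs : 0 ≤ s) (hs1 : s ≤ 1) (hsv : s * v ≤ 1 / 2) :
    rdg (eul V1 V2 s p) (F s p) ≤ 3 * K * cE v * s ^ 2 := by
  have hv := H.v0
  have hK := H.K0
  have hc := cE_nonneg hv
  have hpos : 0 < 1 - ‖p.2‖ := by linarith
  have hg1 := norm_image_sub_le_of_norm_deriv_right_le_segment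
    (f := fun r => (F r p).1 - r • V1 p) (f' := fun r => V1 (F r p) - V1 p)
    (C := K * cE v * s) (a := 0) (b := s)
    (fun r _ => ((hF.d1 p r hp).sub ((hasDerivAt_id r).smul_const (V1 p))).continuousAt.continuousWithinAt)
    (fun r _ => by
      have := ((hF.d1 p r hp).sub ((hasDerivAt_id r).smul_const (V1 p))).hasDerivWithinAt
        (s := Ici r)
      rw [one_smul] at this
      exact this)
    (fun r hr => by
      have h1 := H.l1 p (F r p) hp (hF.maps r p hp)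
      have h2 := hF.rd_small H p hp r (by rw [abs_of_nonneg hr.1]; linarith [hr.2])
      rw [abs_of_nonneg hr.1] at h2
      rw [norm_sub_rev]
      calc ‖V1 p - V1 (F r p)‖ ≤ K * rdg p (F r p) := h1
        _ ≤ K * (cE v * s) := by
          apply mul_le_mul_of_nonneg_left _ hK
          exact h2.trans (mul_le_mul_of_nonneg_left hr.2.le hc)
        _ = _ := by ring) s ⟨hs, le_rfl⟩
  have hg2 := norm_image_sub_le_of_norm_deriv_right_le_segment
    (f := fun r => (F r p).2 - r • V2 p) (f' := fun r => V2 (F r p) - V2 p)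
    (C := K * (1 - ‖p.2‖) * cE v * s) (a := 0) (b := s)
    (fun r _ => ((hF.d2 p r hp).sub ((hasDerivAt_id r).smul_const (V2 p))).continuousAt.continuousWithinAt)
    (fun r _ => by
      have := ((hF.d2 p r hp).sub ((hasDerivAt_id r).smul_const (V2 p))).hasDerivWithinAt
        (s := Ici r)
      rw [one_smul] at this
      exact this)
    (fun r hr => by
      have h1 := H.l2 p (F r p) hp (hF.maps r p hp)
      have h2 := hF.rd_small H p hp r (by rw [abs_of_nonneg hr.1]; linarith [hr.2])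
      rw [abs_of_nonneg hr.1] at h2
      rw [norm_sub_rev]
      calc ‖V2 p - V2 (F r p)‖ ≤ K * (1 - ‖p.2‖) * rdg p (F r p) := h1
        _ ≤ K * (1 - ‖p.2‖) * (cE v * s) := by
          apply mul_le_mul_of_nonneg_left _ (by positivity)
          exact h2.trans (mul_le_mul_of_nonneg_left hr.2.le hc)
        _ = _ := by ring) s ⟨hs, le_rfl⟩
  simp only [zero_smul, sub_zero] at hg1 hg2
  rw [hF.zero p hp] at hg1 hg2
  have e1 : ‖(eul V1 V2 s p).1 - (F s p).1‖ ≤ K * cE v * s * s := by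
    unfold eul
    simp only
    rw [norm_sub_rev]
    have : (F s p).1 - (p.1 + s • V1 p) = (F s p).1 - s • V1 p - p.1 := by abel
    rw [this]
    exact hg1
  have e2 : ‖(eul V1 V2 s p).2 - (F s p).2‖ ≤ K * (1 - ‖p.2‖) * cE v * s * s := by
    unfold eul
    simp only
    rw [norm_sub_rev]
    have : (F s p).2 - (p.2 + s • V2 p) = (F s p).2 - s • V2 p - p.2 := by abel
    rw [this]
    exact hg2
  have e3 := eul_scale H p hp s hs hsv
  have hpos' : 0 < 1 - ‖(eul V1 V2 s p).2‖ := by linarith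
  have e4 : ‖(eul V1 V2 s p).2 - (F s p).2‖ / (1 - ‖(eul V1 V2 s p).2‖) ≤ 2 * (K * cE v * s * s) := by
    rw [div_le_iff₀ hpos']
    have h0 : 0 ≤ K * cE v * s * s := by positivity
    nlinarith
  unfold rdg
  nlinarith

end

end Pool.HQ
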