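import Pool.Agent.HQ.FL4

/-!
MODULE FL5 (problem MP_7936f4_al): the holonomy theorem.  Along the flow of a relatively Lipschitz field
which decreases Psi near Psi = 1 and Phi above Phi = C, the hypersurface Psi = 1 is mapped bijectively onto
the hypersurface Phi = C, with bounded relative displacement, bilipschitz at small relative scale.
-/

open Set Filter Topology NNReal RealInnerProductSpace

namespace Pool.HQ

/-- abstract decrease lemma -/
theorem decr_steps {g : ℝ → ℝ} {k s1 c B : ℝ} (hk : 0 ≤ k) (hs1 : 0 < s1) (hcB : c ≤ B) (h0 : g 0 ≤ B)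
    (hstep : ∀ t, 0 ≤ t → g t ≤ B → ∀ s, 0 ≤ s → s ≤ s1 → g (t + s) ≤ max (g t - k * s) c)
    (t : ℝ) (ht : 0 ≤ t) : g t ≤ max (g 0 - k * t) c := by
  obtain ⟨n, hn⟩ := exists_nat_gt (t / s1)
  have hn0 : (0 : ℝ) < n := lt_of_le_of_lt (by positivity) hn
  set s := t / n with hs
  have hs0 : 0 ≤ s := by positivity
  have hss1 : s ≤ s1 := by
    rw [hs, div_le_iff₀ hn0]
    rw [div_lt_iff₀ hs1] at hn
    linarith
  have key : ∀ m : ℕ, g (m * s) ≤ max (g 0 - k * (m * s)) c := by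
    intro m
    induction m with
    | zero => simp
    | succ m ih =>
      have hms : 0 ≤ (m : ℝ) * s := by positivity
      have hB : g (m * s) ≤ B := ih.trans (max_le (by nlinarith [mul_nonneg hk hms]) hcB)
      have h1 := hstep (m * s) hms hB s hs0 hss1
      have e : ((m + 1 : ℕ) : ℝ) * s = m * s + s := by push_cast; ring
      rw [e]
      refine h1.trans (max_le ?_ (le_max_right _ _))
      rcases le_max_iff.1 ih with h | h
      · refine le_trans ?_ (le_max_left _ _)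
        linarith
      · refine le_trans ?_ (le_max_right _ _)
        have : 0 ≤ k * s := mul_nonneg hk hs0
        linarith
  have e : (n : ℝ) * s = t := by rw [hs]; field_simp
  have := key n
  rw [e] at this
  exact this

theorem ev_le (a : ℝ) {b : ℝ} (hb : 0 < b) : ∀ᶠ s in 𝓝[>] (0 : ℝ), a * s ≤ b := by
  have h : Tendsto (fun s : ℝ => a * s) (𝓝[>] 0) (𝓝 (a * 0)) :=
    ((continuous_const.mul continuous_id).tendsto 0).mono_left nhdsWithin_le_nhds
  rw [mul_zero] at h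
  exact (h.eventually (eventually_lt_nhds hb)).mono fun s hs => le_of_lt hs

section
variable {E₁ E₂ : Type*} [NormedAddCommGroup E₁] [NormedSpace ℝ E₁]
  [NormedAddCommGroup E₂] [InnerProductSpace ℝ E₂]
  {V1 : E₁ × E₂ → E₁} {V2 : E₁ × E₂ → E₂} {v K R : ℝ} {F : ℝ → E₁ × E₂ → E₁ × E₂}
  {Psi Ph : E₁ × E₂ → ℝ} {nu kap s0 eta0 Lam Bd C : ℝ}

/-- From local to global relative Lipschitz bounds. -/
theorem RField.ofLocal {η : ℝ} (hη : 0 < η) (v0 : 0 ≤ v) (K0 : 0 ≤ K) (R0 : 0 ≤ R)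
    (b1 : ∀ p, ‖p.2‖ < 1 → ‖V1 p‖ ≤ v)
    (b2 : ∀ p, ‖p.2‖ < 1 → ‖V2 p‖ ≤ v * (1 - ‖p.2‖))
    (l1 : ∀ p q, ‖p.2‖ < 1 → ‖q.2‖ < 1 → rdg p q ≤ η → ‖V1 p - V1 q‖ ≤ K * rdg p q)
    (l2 : ∀ p q, ‖p.2‖ < 1 → ‖q.2‖ < 1 → rdg p q ≤ η →
      ‖V2 p - V2 q‖ ≤ K * (1 - ‖p.2‖) * rdg p q)
    (z1 : ∀ p, ‖p.2‖ < 1 → R < ‖p.1‖ → V1 p = 0)
    (z2 : ∀ p, ‖p.2‖ < 1 → R < ‖p.1‖ → V2 p = 0) :
    RField V1 V2 v (max K (v * (2 / η + 1))) R where
  v0 := v0
  K0 := le_max_of_le_left K0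
  R0 := R0
  b1 := b1
  b2 := b2
  l1 p q hp hq := by
    have hr := rdg_nonneg p q hp
    rcases le_or_gt (rdg p q) η with h | h
    · exact (l1 p q hp hq h).trans (mul_le_mul_of_nonneg_right (le_max_left _ _) hr)
    · have h1 : ‖V1 p - V1 q‖ ≤ 2 * v := by
        refine (norm_sub_le _ _).trans ?_
        linarith [b1 p hp, b1 q hq]
      refine h1.trans (le_trans ?_ (mul_le_mul_of_nonneg_right (le_max_right _ _) hr))
      have h2 : 2 * v = v * (2 / η) * η := by field_simp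
      have h3 : v * (2 / η) * η ≤ v * (2 / η) * rdg p q :=
        mul_le_mul_of_nonneg_left h.le (by positivity)
      have h4 : 0 ≤ v * rdg p q := by positivity
      nlinarith
  l2 p q hp hq := by
    have hr := rdg_nonneg p q hp
    have hpos : 0 < 1 - ‖p.2‖ := by linarith
    rcases le_or_gt (rdg p q) η with h | h
    · refine (l2 p q hp hq h).trans (mul_le_mul_of_nonneg_right ?_ hr)
      exact mul_le_mul_of_nonneg_right (le_max_left _ _) hpos.le
    · have hr2 : ‖p.2 - q.2‖ ≤ (1 - ‖p.2‖) * rdg p q := by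
        unfold rdg
        have : ‖p.2 - q.2‖ = (1 - ‖p.2‖) * (‖p.2 - q.2‖ / (1 - ‖p.2‖)) := by field_simp
        nlinarith [norm_nonneg (p.1 - q.1)]
      have hq' : 1 - ‖q.2‖ ≤ (1 - ‖p.2‖) * (1 + rdg p q) := by
        have := norm_sub_norm_le p.2 q.2
        nlinarith
      have h1 : ‖V2 p - V2 q‖ ≤ v * (1 - ‖p.2‖) * (2 + rdg p q) := by
        refine (norm_sub_le _ _).trans ?_
        have h5 := b2 p hp
        have h6 := (b2 q hq).trans (mul_le_mul_of_nonneg_left hq' v0)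
        nlinarith
      refine h1.trans ?_
      have h2 : 2 ≤ (2 / η) * rdg p q := by
        rw [div_mul_eq_mul_div, le_div_iff₀ hη]
        linarith
      calc v * (1 - ‖p.2‖) * (2 + rdg p q)
          ≤ v * (1 - ‖p.2‖) * ((2 / η) * rdg p q + rdg p q) :=
            mul_le_mul_of_nonneg_left (by linarith) (by positivity)
        _ = (v * (2 / η + 1)) * (1 - ‖p.2‖) * rdg p q := by ring
        _ ≤ max K (v * (2 / η + 1)) * (1 - ‖p.2‖) * rdg p q := by
          apply mul_le_mul_of_nonneg_right _ hr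
          exact mul_le_mul_of_nonneg_right (le_max_right _ _) hpos.le
  z1 := z1
  z2 := z2

/-- Input of the holonomy theorem. -/
structure HolIn (V1 : E₁ × E₂ → E₁) (V2 : E₁ × E₂ → E₂) (Psi Ph : E₁ × E₂ → ℝ)
    (nu kap s0 eta0 Lam Bd C : ℝ) : Prop where
  nu_pos : 0 < nu
  kap_pos : 0 < kap
  s0_pos : 0 < s0
  eta0_pos : 0 < eta0
  Lam_pos : 0 < Lam
  lipPsi : ∀ p q, ‖p.2‖ < 1 → ‖q.2‖ < 1 → rdg p q ≤ eta0 → Psi p ≤ 1 →
    |Psi p - Psi q| ≤ Lam * rdg p q
  lipPh : ∀ p q, ‖p.2‖ < 1 → ‖q.2‖ < 1 → rdg p q ≤ eta0 → Psi p ≤ 1 →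
    |Ph p - Ph q| ≤ Lam * rdg p q
  cont : ContinuousOn Psi {p | ‖p.2‖ < 1}
  ePsi : ∀ p s, ‖p.2‖ < 1 → 1 - nu ≤ Psi p → Psi p ≤ 1 → 0 ≤ s → s ≤ s0 →
    Psi (eul V1 V2 s p) ≤ Psi p - kap * s
  ePh : ∀ p s, ‖p.2‖ < 1 → Psi p ≤ 1 → C - nu ≤ Ph p → 0 ≤ s → s ≤ s0 →
    Ph (eul V1 V2 s p) ≤ Ph p - kap * s
  sub : ∀ p, ‖p.2‖ < 1 → Ph p ≤ C → Psi p ≤ 1 - nu
  bd : ∀ p, ‖p.2‖ < 1 → Psi p ≤ 1 → Ph p ≤ Bd

variable (H : RField V1 V2 v K R) (hF : RFlow V1 V2 F)
  (hI : HolIn V1 V2 Psi Ph nu kap s0 eta0 Lam Bd C)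

include H hF hI

theorem HolIn.step : ∃ s1 > 0, ∀ p, ‖p.2‖ < 1 → Psi p ≤ 1 → ∀ s, 0 ≤ s → s ≤ s1 →
    Psi (F s p) ≤ max (Psi p - kap / 2 * s) (1 - nu / 2) ∧
    Ph (F s p) ≤ max (Ph p - kap / 2 * s) (C - nu / 2) := by
  have hv := H.v0
  have hK := H.K0
  have hc := cE_nonneg hv
  have hnu := hI.nu_pos
  have hkap := hI.kap_pos
  have heta := hI.eta0_pos
  have hLam := hI.Lam_pos
  have ev := (ev_le 1 hI.s0_pos).and ((ev_le 1 one_pos).and ((ev_le v (by norm_num : (0:ℝ) < 1 / 2)).and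
    ((ev_le (Lam * (3 * K * cE v)) (half_pos hkap)).and ((ev_le (3 * K * cE v) heta).and
    ((ev_le (2 * v) heta).and ((ev_le (Lam * (2 * v)) hnu).and ((ev_le (cE v) heta).and
    ((ev_le (Lam * cE v) (half_pos hnu)).and (self_mem_nhdsWithin : Ioi (0 : ℝ) ∈ 𝓝[>] (0 : ℝ))))))))))
  obtain ⟨s1, e1, e2, e3, e4, e5, e6, e7, e8, e9, e10⟩ := ev.exists
  have hs1 : 0 < s1 := e10
  rw [one_mul] at e1 e2
  refine ⟨s1, hs1, fun p hp hPsi s hs hss => ?_⟩
  have mon : ∀ {a b : ℝ}, 0 ≤ a → a * s1 ≤ b → a * s ≤ b := fun ha hb =>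
    (mul_le_mul_of_nonneg_left hss ha).trans hb
  have hpF := hF.maps s p hp
  have hsv : s * v ≤ 1 / 2 := by rw [mul_comm]; exact mon hv e3
  -- Euler point
  have hE0 : ‖(eul V1 V2 s p).2‖ < 1 := by
    have := eul_scale H p hp s hs hsv
    linarith
  have hEF := hF.euler H p hp s hs (hss.trans e2) hsv
  have hEF0 := rdg_nonneg (eul V1 V2 s p) (F s p) hE0
  have hEFeta : rdg (eul V1 V2 s p) (F s p) ≤ eta0 := by
    refine hEF.trans ?_
    have h1 : 3 * K * cE v * s ≤ eta0 := mon (by positivity) e5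
    have h2 : s ≤ 1 := hss.trans e2
    have h3 : 0 ≤ 3 * K * cE v * s := by positivity
    nlinarith
  have hEFL : Lam * rdg (eul V1 V2 s p) (F s p) ≤ kap / 2 * s := by
    have h1 : Lam * (3 * K * cE v) * s ≤ kap / 2 := mon (by positivity) e4
    calc Lam * rdg (eul V1 V2 s p) (F s p) ≤ Lam * (3 * K * cE v * s ^ 2) :=
          mul_le_mul_of_nonneg_left hEF hLam.le
      _ = (Lam * (3 * K * cE v) * s) * s := by ring
      _ ≤ kap / 2 * s := mul_le_mul_of_nonneg_right h1 hs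
  -- displacement to the Euler point
  have hpE : rdg p (eul V1 V2 s p) ≤ 2 * v * s := by
    have hpos : 0 < 1 - ‖p.2‖ := by linarith
    unfold rdg eul
    simp only
    rw [sub_add_cancel_left, sub_add_cancel_left, norm_neg, norm_neg, norm_smul, norm_smul,
      Real.norm_eq_abs, abs_of_nonneg hs]
    have h1 := mul_le_mul_of_nonneg_left (H.b1 p hp) hs
    have h2 : s * ‖V2 p‖ / (1 - ‖p.2‖) ≤ s * v := by
      rw [div_le_iff₀ hpos, mul_assoc]
      exact mul_le_mul_of_nonneg_left (H.b2 p hp) hs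
    linarith
  -- displacement to the flow point
  have hpFr : rdg p (F s p) ≤ cE v * s := by
    have := hF.rd_small H p hp s (by rw [abs_of_nonneg hs]; exact hss.trans e2)
    rwa [abs_of_nonneg hs] at this
  -- Psi of the Euler point
  have hPsiE : Psi (eul V1 V2 s p) ≤ 1 := by
    rcases le_or_gt (1 - nu) (Psi p) with h | h
    · have := hI.ePsi p s hp h hPsi hs (hss.trans e1)
      have : 0 ≤ kap * s := by positivity
      linarith
    · have h1 := hI.lipPsi p (eul V1 V2 s p) hp hE0 (hpE.trans (mon (by positivity) e6)) hPsi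
      have h2 : Lam * rdg p (eul V1 V2 s p) ≤ nu := by
        calc Lam * rdg p (eul V1 V2 s p) ≤ Lam * (2 * v * s) :=
              mul_le_mul_of_nonneg_left hpE hLam.le
          _ = Lam * (2 * v) * s := by ring
          _ ≤ nu := mon (by positivity) e7
      have := neg_abs_le (Psi p - Psi (eul V1 V2 s p))
      linarith
  have hLc : Lam * rdg p (F s p) ≤ nu / 2 := by
    calc Lam * rdg p (F s p) ≤ Lam * (cE v * s) := mul_le_mul_of_nonneg_left hpFr hLam.le
      _ = Lam * cE v * s := by ring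
      _ ≤ nu / 2 := mon (by positivity) e9
  have hpFeta : rdg p (F s p) ≤ eta0 := hpFr.trans (mon hc e8)
  constructor
  · rcases le_or_gt (1 - nu) (Psi p) with h | h
    · have h1 := hI.ePsi p s hp h hPsi hs (hss.trans e1)
      have h2 := hI.lipPsi _ _ hE0 hpF hEFeta hPsiE
      refine le_trans ?_ (le_max_left _ _)
      have := neg_abs_le (Psi (eul V1 V2 s p) - Psi (F s p))
      linarith
    · have h2 := hI.lipPsi _ _ hp hpF hpFeta hPsi
      refine le_trans ?_ (le_max_right _ _)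
      have := neg_abs_le (Psi p - Psi (F s p))
      linarith
  · rcases le_or_gt (C - nu) (Ph p) with h | h
    · have h1 := hI.ePh p s hp hPsi h hs (hss.trans e1)
      have h2 := hI.lipPh _ _ hE0 hpF hEFeta hPsiE
      refine le_trans ?_ (le_max_left _ _)
      have := neg_abs_le (Ph (eul V1 V2 s p) - Ph (F s p))
      linarith
    · have h2 := hI.lipPh _ _ hp hpF hpFeta hPsi
      refine le_trans ?_ (le_max_right _ _)
      have := neg_abs_le (Ph p - Ph (F s p))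
      linarith

theorem HolIn.fPsi (p : E₁ × E₂) (hp : ‖p.2‖ < 1) (hPsi : Psi p ≤ 1) (t : ℝ) (ht : 0 ≤ t) :
    Psi (F t p) ≤ max (Psi p - kap / 2 * t) (1 - nu / 2) := by
  obtain ⟨s1, hs1, hst⟩ := hI.step H hF
  have hnu := hI.nu_pos
  have := decr_steps (g := fun t => Psi (F t p)) (k := kap / 2) (s1 := s1) (c := 1 - nu / 2) (B := 1)
    (half_pos hI.kap_pos).le hs1 (by linarith) (by rw [hF.zero p hp]; exact hPsi)
    (fun t _ hB s hs hss => by
      have h1 := (hst (F t p) (hF.maps t p hp) hB s hs hss).1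
      rw [add_comm, hF.add s t p hp]
      exact h1) t ht
  simp only [hF.zero p hp] at this
  exact this

theorem HolIn.fPsi_le (p : E₁ × E₂) (hp : ‖p.2‖ < 1) (hPsi : Psi p ≤ 1) (t : ℝ) (ht : 0 ≤ t) :
    Psi (F t p) ≤ 1 := by
  refine (hI.fPsi H hF p hp hPsi t ht).trans (max_le ?_ ?_)
  · have : 0 ≤ kap / 2 * t := mul_nonneg (half_pos hI.kap_pos).le ht
    linarith
  · linarith [hI.nu_pos]

theorem HolIn.fPsi_lt (p : E₁ × E₂) (hp : ‖p.2‖ < 1) (hPsi : Psi p ≤ 1) (t : ℝ) (ht : 0 < t) :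
    Psi (F t p) < 1 := by
  refine (hI.fPsi H hF p hp hPsi t ht.le).trans_lt (max_lt ?_ ?_)
  · have : 0 < kap / 2 * t := mul_pos (half_pos hI.kap_pos) ht
    linarith
  · linarith [hI.nu_pos]

theorem HolIn.fPh (p : E₁ × E₂) (hp : ‖p.2‖ < 1) (hPsi : Psi p ≤ 1) (t : ℝ) (ht : 0 ≤ t) :
    Ph (F t p) ≤ max (Ph p - kap / 2 * t) (C - nu / 2) := by
  obtain ⟨s1, hs1, hst⟩ := hI.step H hF
  have := decr_steps (g := fun t => Ph (F t p)) (k := kap / 2) (s1 := s1) (c := C - nu / 2)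
    (B := max (Ph p) (C - nu / 2))
    (half_pos hI.kap_pos).le hs1 (le_max_right _ _)
    (by rw [hF.zero p hp]; exact le_max_left _ _)
    (fun t ht _ s hs hss => by
      have h1 := (hst (F t p) (hF.maps t p hp) (hI.fPsi_le H hF p hp hPsi t ht) s hs hss).2
      rw [add_comm, hF.add s t p hp]
      exact h1) t ht
  simp only [hF.zero p hp] at this
  exact this

theorem HolIn.cPh (p : E₁ × E₂) (hp : ‖p.2‖ < 1) (hPsi : Psi p ≤ 1) (t : ℝ) (ht : 0 ≤ t) :
    ContinuousAt (fun t => Ph (F t p)) t := by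
  have hv := H.v0
  have hc := cE_nonneg hv
  have hq := hF.maps t p hp
  have hL := hI.fPsi_le H hF p hp hPsi t ht
  rw [ContinuousAt, tendsto_iff_norm_sub_tendsto_zero]
  have h0 : Tendsto (fun s : ℝ => Lam * (cE v * |s - t|)) (𝓝 t) (𝓝 0) := by
    have : Tendsto (fun s : ℝ => Lam * (cE v * |s - t|)) (𝓝 t) (𝓝 (Lam * (cE v * |t - t|))) := by
      apply Continuous.tendsto
      fun_prop
    simpa using this
  have h1 : Tendsto (fun s : ℝ => |s - t|) (𝓝 t) (𝓝 0) := by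
    have : Tendsto (fun s : ℝ => |s - t|) (𝓝 t) (𝓝 |t - t|) := by
      apply Continuous.tendsto
      fun_prop
    simpa using this
  have h2 : Tendsto (fun s : ℝ => cE v * |s - t|) (𝓝 t) (𝓝 0) := by
    simpa using h1.const_mul (cE v)
  refine squeeze_zero' (Eventually.of_forall fun s => norm_nonneg _) ?_ h0
  filter_upwards [h1.eventually (eventually_lt_nhds one_pos),
    h2.eventually (eventually_lt_nhds hI.eta0_pos)] with s hs1 hs2
  have h3 := hF.rd_small H (F t p) hq (s - t) hs1.le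
  have e : F (s - t) (F t p) = F s p := by rw [← hF.add (s - t) t p hp, sub_add_cancel]
  rw [e] at h3
  have h4 := hI.lipPh (F t p) (F s p) hq (hF.maps s p hp) (h3.trans hs2.le) hL
  rw [Real.norm_eq_abs, abs_sub_comm]
  exact h4.trans (mul_le_mul_of_nonneg_left h3 hI.Lam_pos.le)

omit H hI in
theorem RFlow.cont (p : E₁ × E₂) (hp : ‖p.2‖ < 1) : Continuous (fun t => F t p) := by
  rw [continuous_iff_continuousAt]
  intro t
  exact (hF.d1 p t hp).continuousAt.prodMk (hF.d2 p t hp).continuousAt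

omit H in
theorem HolIn.cPsi (p : E₁ × E₂) (hp : ‖p.2‖ < 1) : Continuous (fun t => Psi (F t p)) := by
  apply hI.cont.comp_continuous (hF.cont p hp)
  intro t
  exact hF.maps t p hp

/-- hitting time -/
theorem HolIn.hit (p : E₁ × E₂) (hp : ‖p.2‖ < 1) (hPsi : Psi p = 1) :
    ∃ t, 0 ≤ t ∧ t ≤ 2 * (Bd - C) / kap ∧ Ph (F t p) = C := by
  have hkap := hI.kap_pos
  have hnu := hI.nu_pos
  have hPh : C < Ph p := by
    by_contra hcon
    have := hI.sub p hp (not_lt.1 hcon)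
    linarith
  have hbd := hI.bd p hp hPsi.le
  set T := 2 * (Bd - C) / kap with hT
  have hT0 : 0 ≤ T := by rw [hT]; apply div_nonneg _ hkap.le; linarith
  have h1 := hI.fPh H hF p hp hPsi.le T hT0
  have h2 : Ph (F T p) ≤ C := by
    refine h1.trans (max_le ?_ (by linarith))
    have : kap / 2 * T = Bd - C := by rw [hT]; field_simp
    linarith
  have hc : ContinuousOn (fun t => Ph (F t p)) (Icc 0 T) := fun t ht =>
    (hI.cPh H hF p hp hPsi.le t ht.1).continuousWithinAt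
  have := intermediate_value_Icc' hT0 hc
  have hmem : C ∈ Icc (Ph (F T p)) (Ph (F 0 p)) := by
    rw [hF.zero p hp]
    exact ⟨h2, hPh.le⟩
  obtain ⟨t, ht, hte⟩ := this hmem
  exact ⟨t, ht.1, ht.2, hte⟩

/-- backward hitting time -/
theorem HolIn.back (q : E₁ × E₂) (hq : ‖q.2‖ < 1) (hPh : Ph q = C) :
    ∃ t, 0 ≤ t ∧ t ≤ 2 * (Bd - C) / kap ∧ Psi (F (-t) q) = 1 := by
  have hkap := hI.kap_pos
  have hnu := hI.nu_pos
  have hPsi : Psi q ≤ 1 - nu := hI.sub q hq hPh.le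
  have hbd := hI.bd q hq (by linarith)
  -- lower bound of Ph backward in time
  have key : ∀ t, 0 ≤ t → Psi (F (-t) q) ≤ 1 → C + kap / 2 * t ≤ Bd := by
    intro t ht h1
    have h2 := hI.fPh H hF (F (-t) q) (hF.maps _ q hq) h1 t ht
    rw [← hF.add t (-t) q hq, add_neg_cancel, hF.zero q hq, hPh] at h2
    have h3 := hI.bd (F (-t) q) (hF.maps _ q hq) h1
    rcases le_max_iff.1 h2 with h | h
    · linarith
    · linarith
  have hT : ∀ t, 0 ≤ t → Psi (F (-t) q) ≤ 1 → t ≤ 2 * (Bd - C) / kap := by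
    intro t ht h1
    have := key t ht h1
    rw [le_div_iff₀ hkap]
    linarith
  set T := 2 * (Bd - C) / kap + 1 with hTd
  have hT0 : 0 ≤ T := by
    have := hT 0 le_rfl (by rw [neg_zero, hF.zero q hq]; linarith)
    linarith
  have h1 : 1 ≤ Psi (F (-T) q) := by
    by_contra hcon
    have := hT T hT0 (not_le.1 hcon).le
    linarith
  have hc : ContinuousOn (fun t => Psi (F (-t) q)) (Icc 0 T) :=
    ((hI.cPsi hF q hq).comp continuous_neg).continuousOn
  have := intermediate_value_Icc hT0 hc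
  have hmem : (1 : ℝ) ∈ Icc (Psi (F (-0) q)) (Psi (F (-T) q)) := by
    rw [neg_zero, hF.zero q hq]
    exact ⟨by linarith, h1⟩
  obtain ⟨t, ht, hte⟩ := this hmem
  exact ⟨t, ht.1, hT t ht.1 (le_of_eq hte), hte⟩

end

end Pool.HQ
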