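import Pool.Agent.HQ.FL5

/-!
MODULE FL6 (problem MP_7936f4_al): the holonomy theorem, final statement.
-/

open Set Filter Topology NNReal RealInnerProductSpace

namespace Pool.HQ

section
variable {E₁ E₂ : Type*} [NormedAddCommGroup E₁] [NormedSpace ℝ E₁]
  [NormedAddCommGroup E₂] [InnerProductSpace ℝ E₂]
  {V1 : E₁ × E₂ → E₁} {V2 : E₁ × E₂ → E₂} {v K R : ℝ} {F : ℝ → E₁ × E₂ → E₁ × E₂}
  {Psi Ph : E₁ × E₂ → ℝ} {nu kap s0 eta0 Lam Bd C : ℝ}

theorem rdg_comp {p q : E₁ × E₂} (hp : ‖p.2‖ < 1) (h : rdg p q ≤ 1 / 2) :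
    (1 - ‖p.2‖) ≤ 2 * (1 - ‖q.2‖) ∧ 1 - ‖q.2‖ ≤ 2 * (1 - ‖p.2‖) := by
  have hpos : 0 < 1 - ‖p.2‖ := by linarith
  have h2 : ‖p.2 - q.2‖ ≤ (1 - ‖p.2‖) * (1 / 2) := by
    have h3 : ‖p.2 - q.2‖ / (1 - ‖p.2‖) ≤ 1 / 2 := by
      unfold rdg at h
      linarith [norm_nonneg (p.1 - q.1)]
    rw [div_le_iff₀ hpos] at h3
    linarith
  have h4 := norm_sub_norm_le p.2 q.2
  have h5 := norm_sub_norm_le q.2 p.2
  rw [norm_sub_rev] at h5
  constructor <;> linarith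

theorem rdg_symm {p q : E₁ × E₂} (hp : ‖p.2‖ < 1) (hq : ‖q.2‖ < 1) (h : rdg p q ≤ 1 / 2) :
    rdg q p ≤ 2 * rdg p q := by
  have hpos : 0 < 1 - ‖p.2‖ := by linarith
  have hpos' : 0 < 1 - ‖q.2‖ := by linarith
  obtain ⟨h1, h2⟩ := rdg_comp hp h
  unfold rdg
  rw [norm_sub_rev q.1, norm_sub_rev q.2]
  have h3 : ‖p.2 - q.2‖ / (1 - ‖q.2‖) ≤ 2 * (‖p.2 - q.2‖ / (1 - ‖p.2‖)) := by
    rw [div_le_iff₀ hpos', mul_div_assoc', div_mul_eq_mul_div, le_div_iff₀ hpos]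
    nlinarith [norm_nonneg (p.2 - q.2)]
  nlinarith [norm_nonneg (p.1 - q.1)]

theorem rdg_tri {p q r : E₁ × E₂} (hp : ‖p.2‖ < 1) (hq : ‖q.2‖ < 1) (h : rdg p q ≤ 1 / 2) :
    rdg p r ≤ rdg p q + 2 * rdg q r := by
  have hpos : 0 < 1 - ‖p.2‖ := by linarith
  have hpos' : 0 < 1 - ‖q.2‖ := by linarith
  obtain ⟨h1, h2⟩ := rdg_comp hp h
  unfold rdg
  have h3 : ‖p.1 - r.1‖ ≤ ‖p.1 - q.1‖ + ‖q.1 - r.1‖ := norm_sub_le_norm_sub_add_norm_sub _ _ _
  have h4 : ‖p.2 - r.2‖ ≤ ‖p.2 - q.2‖ + ‖q.2 - r.2‖ := norm_sub_le_norm_sub_add_norm_sub _ _ _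
  have h5 : ‖q.2 - r.2‖ / (1 - ‖p.2‖) ≤ 2 * (‖q.2 - r.2‖ / (1 - ‖q.2‖)) := by
    rw [div_le_iff₀ hpos, mul_div_assoc', div_mul_eq_mul_div, le_div_iff₀ hpos']
    nlinarith [norm_nonneg (q.2 - r.2)]
  have h6 : ‖p.2 - r.2‖ / (1 - ‖p.2‖) ≤
      ‖p.2 - q.2‖ / (1 - ‖p.2‖) + ‖q.2 - r.2‖ / (1 - ‖p.2‖) := by
    rw [← add_div]
    exact div_le_div_of_nonneg_right h4 hpos.le
  linarith [norm_nonneg (q.1 - r.1)]

/-- symmetrisation of an estimate -/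
theorem symm_est {a b a' b' : E₁ × E₂} {e1 e2 B : ℝ} (ha : ‖a.2‖ < 1) (hb : ‖b.2‖ < 1)
    (ha' : ‖a'.2‖ < 1) (hb' : ‖b'.2‖ < 1) (hB : 0 ≤ B)
    (h : rdg b a ≤ e1 → rdg b' a' ≤ B * rdg b a) (h21 : 2 * e2 ≤ e1) (h2 : e2 ≤ 1 / 2)
    (hBe : 2 * B * e2 ≤ 1 / 2) (hab : rdg a b ≤ e2) : rdg a' b' ≤ 4 * B * rdg a b := by
  have h3 := rdg_symm ha hb (hab.trans h2)
  have h4 := h (by linarith)
  have h5 : B * rdg b a ≤ B * (2 * rdg a b) := mul_le_mul_of_nonneg_left h3 hB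
  have h6 : B * rdg a b ≤ B * e2 := mul_le_mul_of_nonneg_left hab hB
  have h7 := rdg_symm hb' ha' (by linarith)
  linarith

variable (H : RField V1 V2 v K R) (hF : RFlow V1 V2 F)
  (hI : HolIn V1 V2 Psi Ph nu kap s0 eta0 Lam Bd C)

include H hF hI

/-- estimate for a pair of points of which the first one arrives first -/
theorem HolIn.pair {T B : ℝ} (hT : 0 ≤ T) (hB : B = cP v K T + 2 * (cE v * (2 / kap * (Lam * cP v K T))))
    {p q : E₁ × E₂} (hp : ‖p.2‖ < 1) (hq : ‖q.2‖ < 1) {t t' : ℝ} (ht : 0 ≤ t) (htt : t ≤ t')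
    (htT : t' ≤ T)
    (hPsi : Psi p = 1) (hPsi' : Psi q = 1) (hPh : Ph (F t p) = C) (hPh' : Ph (F t' q) = C)
    (h1 : cP v K T * rdg p q ≤ eta0) (h2 : cP v K T * rdg p q ≤ 1 / 2)
    (h3 : 2 / kap * (Lam * cP v K T) * rdg p q ≤ 1) : rdg (F t p) (F t' q) ≤ B * rdg p q := by
  have hv := H.v0
  have hK := H.K0
  have hkap := hI.kap_pos
  have hLam := hI.Lam_pos
  have hnu := hI.nu_pos
  have hc := cE_nonneg hv
  have hc2 : 0 < cP v K T := by unfold cP; positivity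
  have hr := rdg_nonneg p q hp
  have hpt := hF.maps t p hp
  have hqt := hF.maps t q hq
  have hqt' := hF.maps t' q hq
  have e1 := hF.rd_pair H T p q hp hq t (by rw [abs_of_nonneg ht]; linarith)
  have e2 := hI.lipPh (F t p) (F t q) hpt hqt (e1.trans h1) (hI.fPsi_le H hF p hp hPsi.le t ht)
  rw [hPh] at e2
  have e3 : Lam * rdg (F t p) (F t q) ≤ Lam * (cP v K T * rdg p q) :=
    mul_le_mul_of_nonneg_left e1 hLam.le
  have e4 : Ph (F t q) ≤ C + Lam * (cP v K T * rdg p q) := by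
    have := neg_abs_le (C - Ph (F t q))
    linarith
  have e5 := hI.fPh H hF (F t q) hqt (hI.fPsi_le H hF q hq hPsi'.le t ht) (t' - t) (by linarith)
  rw [← hF.add (t' - t) t q hq, sub_add_cancel, hPh'] at e5
  have e6 : kap / 2 * (t' - t) ≤ Lam * (cP v K T * rdg p q) := by
    rcases le_max_iff.1 e5 with h | h
    · linarith
    · linarith
  have e7 : t' - t ≤ 2 / kap * (Lam * cP v K T) * rdg p q := by
    rw [div_mul_eq_mul_div, div_mul_eq_mul_div, le_div_iff₀ hkap]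
    linarith
  have e8 := hF.rd_small H (F t q) hqt (t' - t) (by rw [abs_of_nonneg (by linarith)]; linarith)
  rw [← hF.add (t' - t) t q hq, sub_add_cancel, abs_of_nonneg (by linarith)] at e8
  have e9 := rdg_tri (r := F t' q) hpt hqt (e1.trans h2)
  have e10 : cE v * (t' - t) ≤ cE v * (2 / kap * (Lam * cP v K T) * rdg p q) :=
    mul_le_mul_of_nonneg_left e7 hc
  rw [hB]
  nlinarith

/-- estimate for a pair of points, backward -/
theorem HolIn.pair_back {T B : ℝ} (hT : 0 ≤ T)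
    (hB : B = cP v K T + 2 * (cE v * (2 / kap * (Lam * cP v K T))))
    {p q : E₁ × E₂} (hp : ‖p.2‖ < 1) (hq : ‖q.2‖ < 1) {t t' : ℝ} (ht : 0 ≤ t) (htt : t ≤ t')
    (htT : t' ≤ T)
    (hPsi : Psi p = 1) (hPsi' : Psi q = 1)
    (h1 : cP v K T * rdg (F t p) (F t' q) ≤ eta0) (h2 : cP v K T * rdg (F t p) (F t' q) ≤ 1 / 2)
    (h3 : 2 / kap * (Lam * cP v K T) * rdg (F t p) (F t' q) ≤ 1)
    (h4 : Lam * (cP v K T * rdg (F t p) (F t' q)) < nu / 2) :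
    rdg p q ≤ B * rdg (F t p) (F t' q) := by
  have hv := H.v0
  have hK := H.K0
  have hkap := hI.kap_pos
  have hLam := hI.Lam_pos
  have hnu := hI.nu_pos
  have hc := cE_nonneg hv
  have hc2 : 0 < cP v K T := by unfold cP; positivity
  have hpt := hF.maps t p hp
  have hqt' := hF.maps t' q hq
  have hr := rdg_nonneg (F t p) (F t' q) hpt
  -- q1 = F (t' - t) q
  have hq1 := hF.maps (t' - t) q hq
  have a1 : F (-t) (F t p) = p := by rw [← hF.add (-t) t p hp, neg_add_cancel, hF.zero p hp]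
  have a2 : F (-t) (F t' q) = F (t' - t) q := by
    rw [← hF.add (-t) t' q hq]
    congr 1
    ring
  have a3 : F (-(t' - t)) (F (t' - t) q) = q := by
    rw [← hF.add (-(t' - t)) (t' - t) q hq, neg_add_cancel, hF.zero q hq]
  have e1 := hF.rd_pair H T (F t p) (F t' q) hpt hqt' (-t) (by
    rw [abs_neg, abs_of_nonneg ht]; linarith)
  rw [a1, a2] at e1
  have e2 := hI.lipPsi p (F (t' - t) q) hp hq1 (e1.trans h1) hPsi.le
  rw [hPsi] at e2
  have e3 : Lam * rdg p (F (t' - t) q) ≤ Lam * (cP v K T * rdg (F t p) (F t' q)) :=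
    mul_le_mul_of_nonneg_left e1 hLam.le
  have e4 : 1 - Lam * (cP v K T * rdg (F t p) (F t' q)) ≤ Psi (F (t' - t) q) := by
    have := le_abs_self (1 - Psi (F (t' - t) q))
    linarith
  have e5 := hI.fPsi H hF q hq hPsi'.le (t' - t) (by linarith)
  rw [hPsi'] at e5
  have e6 : kap / 2 * (t' - t) ≤ Lam * (cP v K T * rdg (F t p) (F t' q)) := by
    rcases le_max_iff.1 e5 with h | h
    · linarith
    · linarith
  have e7 : t' - t ≤ 2 / kap * (Lam * cP v K T) * rdg (F t p) (F t' q) := by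
    rw [div_mul_eq_mul_div, div_mul_eq_mul_div, le_div_iff₀ hkap]
    linarith
  have e8 := hF.rd_small H (F (t' - t) q) hq1 (-(t' - t)) (by
    rw [abs_neg, abs_of_nonneg (by linarith)]; linarith)
  rw [a3, abs_neg, abs_of_nonneg (by linarith)] at e8
  have e9 := rdg_tri (r := q) hp hq1 (e1.trans h2)
  have e10 : cE v * (t' - t) ≤ cE v * (2 / kap * (Lam * cP v K T) * rdg (F t p) (F t' q)) :=
    mul_le_mul_of_nonneg_left e7 hc
  rw [hB]
  nlinarith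

/-- THE HOLONOMY THEOREM. -/
theorem HolIn.main : ∃ (h : E₁ × E₂ → E₁ × E₂) (S η C1 : ℝ), 0 < S ∧ 0 < η ∧ 0 < C1 ∧
    BijOn h {p | ‖p.2‖ < 1 ∧ Psi p = 1} {p | ‖p.2‖ < 1 ∧ Ph p = C} ∧
    (∀ p, ‖p.2‖ < 1 → Psi p = 1 → ‖(h p).1 - p.1‖ ≤ S ∧ ‖(h p).2 - p.2‖ ≤ S * (1 - ‖p.2‖) ∧
      1 - ‖p.2‖ ≤ S * (1 - ‖(h p).2‖)) ∧
    (∀ p q, ‖p.2‖ < 1 → ‖q.2‖ < 1 → Psi p = 1 → Psi q = 1 → rdg p q ≤ η →
      rdg (h p) (h q) ≤ C1 * rdg p q) ∧
    (∀ p q, ‖p.2‖ < 1 → ‖q.2‖ < 1 → Psi p = 1 → Psi q = 1 → rdg (h p) (h q) ≤ η →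
      rdg p q ≤ C1 * rdg (h p) (h q)) := by
  have hv := H.v0
  have hK := H.K0
  have hkap := hI.kap_pos
  have hLam := hI.Lam_pos
  have hnu := hI.nu_pos
  have heta := hI.eta0_pos
  have hc := cE_nonneg hv
  classical
  have hch : ∀ p : E₁ × E₂, ∃ t, ‖p.2‖ < 1 → Psi p = 1 →
      0 ≤ t ∧ t ≤ 2 * (Bd - C) / kap ∧ Ph (F t p) = C := by
    intro p
    by_cases h : ‖p.2‖ < 1 ∧ Psi p = 1
    · obtain ⟨t, ht⟩ := hI.hit H hF p h.1 h.2
      exact ⟨t, fun _ _ => ht⟩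
    · exact ⟨0, fun h1 h2 => absurd ⟨h1, h2⟩ h⟩
  choose ta hta using hch
  set T := max 0 (2 * (Bd - C) / kap) with hTd
  have hT : 0 ≤ T := le_max_left _ _
  have htaT : ∀ p, ‖p.2‖ < 1 → Psi p = 1 → ta p ≤ T := fun p h1 h2 =>
    ((hta p h1 h2).2.1).trans (le_max_right _ _)
  -- uniqueness of the hitting time
  have huniq : ∀ p, ‖p.2‖ < 1 → Psi p ≤ 1 → ∀ t t', 0 ≤ t → t < t' → Ph (F t p) = C →
      Ph (F t' p) < C := by
    intro p hp hP t t' ht htt h1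
    have h2 := hI.fPh H hF (F t p) (hF.maps t p hp) (hI.fPsi_le H hF p hp hP t ht) (t' - t)
      (by linarith)
    rw [← hF.add (t' - t) t p hp, sub_add_cancel, h1] at h2
    refine h2.trans_lt (max_lt ?_ (by linarith))
    have : 0 < kap / 2 * (t' - t) := mul_pos (half_pos hkap) (by linarith)
    linarith
  have huniq' : ∀ p, ‖p.2‖ < 1 → Psi p ≤ 1 → ∀ t t', 0 ≤ t → 0 ≤ t' → Ph (F t p) = C →
      Ph (F t' p) = C → t = t' := by
    intro p hp hP t t' ht ht' h1 h2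
    rcases lt_trichotomy t t' with h | h | h
    · exact absurd h2 (huniq p hp hP t t' ht h h1).ne
    · exact h
    · exact absurd h1 (huniq p hp hP t' t ht' h h2).ne
  set B := cP v K T + 2 * (cE v * (2 / kap * (Lam * cP v K T))) with hBd
  have hc2 : 0 < cP v K T := by unfold cP; positivity
  have hB : 0 < B := by positivity
  have ev := (ev_le (cP v K T) heta).and ((ev_le (cP v K T) (by norm_num : (0:ℝ) < 1 / 2)).and
    ((ev_le (2 / kap * (Lam * cP v K T)) one_pos).and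
    ((ev_le (Lam * cP v K T) (by linarith : 0 < nu / 4)).and
    (self_mem_nhdsWithin : Ioi (0 : ℝ) ∈ 𝓝[>] (0 : ℝ)))))
  obtain ⟨e1, c1, c2, c3, c4, he1⟩ := ev.exists
  have he1 : 0 < e1 := he1
  have ev2 := (ev_le 2 he1).and ((ev_le 1 (by norm_num : (0:ℝ) < 1 / 2)).and
    ((ev_le (2 * B) (by norm_num : (0:ℝ) < 1 / 2)).and
    (self_mem_nhdsWithin : Ioi (0 : ℝ) ∈ 𝓝[>] (0 : ℝ))))
  obtain ⟨e2, d1, d2, d3, he2⟩ := ev2.exists
  have he2 : 0 < e2 := he2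
  rw [one_mul] at d2
  have mon : ∀ {a b r : ℝ}, 0 ≤ a → a * e1 ≤ b → r ≤ e1 → a * r ≤ b := fun ha hb hr =>
    (mul_le_mul_of_nonneg_left hr ha).trans hb
  set h : E₁ × E₂ → E₁ × E₂ := fun p => F (ta p) p with hh
  have hhm : ∀ p, ‖p.2‖ < 1 → ‖(h p).2‖ < 1 := fun p hp => hF.maps _ p hp
  -- the ordered estimates
  have P1 : ∀ p q, ‖p.2‖ < 1 → ‖q.2‖ < 1 → Psi p = 1 → Psi q = 1 → ta p ≤ ta q →
      rdg p q ≤ e1 → rdg (h p) (h q) ≤ B * rdg p q := by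
    intro p q hp hq hP hP' htt hr
    obtain ⟨t1, t2, t3⟩ := hta p hp hP
    obtain ⟨t1', t2', t3'⟩ := hta q hq hP'
    exact hI.pair H hF hT hBd hp hq t1 htt (htaT q hq hP') hP hP' t3 t3'
      (mon hc2.le c1 hr) (mon hc2.le c2 hr) (mon (by positivity) c3 hr)
  have P2 : ∀ p q, ‖p.2‖ < 1 → ‖q.2‖ < 1 → Psi p = 1 → Psi q = 1 → ta p ≤ ta q →
      rdg (h p) (h q) ≤ e1 → rdg p q ≤ B * rdg (h p) (h q) := by
    intro p q hp hq hP hP' htt hr
    obtain ⟨t1, t2, t3⟩ := hta p hp hP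
    obtain ⟨t1', t2', t3'⟩ := hta q hq hP'
    have h4 : Lam * (cP v K T * rdg (h p) (h q)) < nu / 2 := by
      have := mon (a := Lam * cP v K T) (by positivity) c4 hr
      linarith
    exact hI.pair_back H hF hT hBd hp hq t1 htt (htaT q hq hP') hP hP'
      (mon hc2.le c1 hr) (mon hc2.le c2 hr) (mon (by positivity) c3 hr) h4
  refine ⟨h, Real.exp ((v + 1) * T) + v * T, e2, 4 * B, by positivity, he2, by positivity,
    ⟨?_, ?_, ?_⟩, ?_, ?_, ?_⟩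
  · -- maps
    rintro p ⟨hp, hP⟩
    exact ⟨hhm p hp, (hta p hp hP).2.2⟩
  · -- injective
    rintro p ⟨hp, hP⟩ q ⟨hq, hP'⟩ heq
    have key : ∀ p q, ‖p.2‖ < 1 → ‖q.2‖ < 1 → Psi p = 1 → Psi q = 1 → ta p ≤ ta q →
        h p = h q → p = q := by
      intro p q hp hq hP hP' htt heq
      have a1 : F (-(ta p)) (F (ta p) p) = p := by
        rw [← hF.add _ _ p hp, neg_add_cancel, hF.zero p hp]
      have a2 : F (-(ta p)) (F (ta q) q) = F (ta q - ta p) q := by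
        rw [← hF.add _ _ q hq]
        congr 1
        ring
      have a3 : p = F (ta q - ta p) q := a1.symm.trans ((congrArg (F (-(ta p))) heq).trans a2)
      rcases eq_or_lt_of_le htt with h0 | h0
      · rw [h0, sub_self, hF.zero q hq] at a3
        exact a3
      · exfalso
        have := hI.fPsi_lt H hF q hq hP'.le (ta q - ta p) (by linarith)
        rw [← a3, hP] at this
        exact lt_irrefl _ this
    rcases le_total (ta p) (ta q) with h0 | h0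
    · exact key p q hp hq hP hP' h0 heq
    · exact (key q p hq hp hP' hP h0 heq.symm).symm
  · -- surjective
    rintro q ⟨hq, hQ⟩
    obtain ⟨t, t1, t2, t3⟩ := hI.back H hF q hq hQ
    have hpn := hF.maps (-t) q hq
    refine ⟨F (-t) q, ⟨hpn, t3⟩, ?_⟩
    have a1 : F t (F (-t) q) = q := by
      rw [← hF.add _ _ q hq, add_neg_cancel, hF.zero q hq]
    obtain ⟨s1, s2, s3⟩ := hta _ hpn t3
    have : ta (F (-t) q) = t :=
      huniq' _ hpn t3.le _ _ s1 t1 s3 (by rw [a1]; exact hQ)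
    rw [hh]
    simp only
    rw [this, a1]
  · -- displacement
    intro p hp hP
    obtain ⟨t1, t2, t3⟩ := hta p hp hP
    have htT := htaT p hp hP
    have hpos : 0 < 1 - ‖p.2‖ := by linarith
    have hpos' : 0 < 1 - ‖(h p).2‖ := by linarith [hhm p hp]
    have x1 := hF.disp1 H p hp (ta p)
    have x2 := hF.disp2 H p hp (ta p)
    have x3 := hF.scale' H p hp (ta p)
    rw [abs_of_nonneg t1] at x1 x2 x3
    have x4 : Real.exp ((v + 1) * ta p) ≤ Real.exp ((v + 1) * T) :=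
      Real.exp_le_exp.2 (mul_le_mul_of_nonneg_left htT (by linarith))
    have x5 : v * ta p ≤ v * T := mul_le_mul_of_nonneg_left htT hv
    have x6 := Real.exp_pos ((v + 1) * T)
    have x7 : 0 ≤ v * T := by positivity
    refine ⟨by linarith, ?_, ?_⟩
    · refine x2.trans ?_
      rw [mul_comm]
      apply mul_le_mul_of_nonneg_right _ hpos.le
      linarith
    · refine x3.trans ?_
      apply mul_le_mul_of_nonneg_right _ hpos'.le
      linarith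
  · -- Lipschitz
    intro p q hp hq hP hP' hr
    have hr0 := rdg_nonneg p q hp
    rcases le_total (ta p) (ta q) with h0 | h0
    · refine (P1 p q hp hq hP hP' h0 (by linarith)).trans ?_
      apply mul_le_mul_of_nonneg_right _ hr0
      linarith
    · exact symm_est hp hq (hhm p hp) (hhm q hq) hB.le
        (fun hr' => P1 q p hq hp hP' hP h0 hr') d1 d2 d3 hr
  · -- inverse Lipschitz
    intro p q hp hq hP hP' hr
    have hr0 := rdg_nonneg (h p) (h q) (hhm p hp)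
    rcases le_total (ta p) (ta q) with h0 | h0
    · refine (P2 p q hp hq hP hP' h0 (by linarith)).trans ?_
      apply mul_le_mul_of_nonneg_right _ hr0
      linarith
    · exact symm_est (hhm p hp) (hhm q hq) hp hq hB.le
        (fun hr' => P2 q p hq hp hP' hP h0 hr') d1 d2 d3 hr

end

/-- The holonomy theorem, self contained: no flow in the statement. -/
theorem holonomy {E₁ E₂ : Type*} [NormedAddCommGroup E₁] [NormedSpace ℝ E₁] [CompleteSpace E₁]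
    [NormedAddCommGroup E₂] [InnerProductSpace ℝ E₂] [CompleteSpace E₂]
    {V1 : E₁ × E₂ → E₁} {V2 : E₁ × E₂ → E₂} {v K R : ℝ} {Psi Ph : E₁ × E₂ → ℝ}
    {nu kap s0 eta0 Lam Bd C : ℝ}
    (H : RField V1 V2 v K R) (hI : HolIn V1 V2 Psi Ph nu kap s0 eta0 Lam Bd C) :
    ∃ (h : E₁ × E₂ → E₁ × E₂) (S η C1 : ℝ), 0 < S ∧ 0 < η ∧ 0 < C1 ∧
    BijOn h {p | ‖p.2‖ < 1 ∧ Psi p = 1} {p | ‖p.2‖ < 1 ∧ Ph p = C} ∧
    (∀ p, ‖p.2‖ < 1 → Psi p = 1 → ‖(h p).1 - p.1‖ ≤ S ∧ ‖(h p).2 - p.2‖ ≤ S * (1 - ‖p.2‖) ∧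
      1 - ‖p.2‖ ≤ S * (1 - ‖(h p).2‖)) ∧
    (∀ p q, ‖p.2‖ < 1 → ‖q.2‖ < 1 → Psi p = 1 → Psi q = 1 → rdg p q ≤ η →
      rdg (h p) (h q) ≤ C1 * rdg p q) ∧
    (∀ p q, ‖p.2‖ < 1 → ‖q.2‖ < 1 → Psi p = 1 → Psi q = 1 → rdg (h p) (h q) ≤ η →
      rdg p q ≤ C1 * rdg (h p) (h q)) := by
  obtain ⟨F, hF⟩ := exists_rflow H
  exact hI.main H hF

end Pool.HQ
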