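import Pool.Agent.HQ.VDefs
import Pool.Agent.HQ.E00

/-!
MP_7936f4_al, full question.  Part III: data (structure VD) and all explicit functions of part III.
Blueprint: see the comments; beta^n = Q.bt n = exp(lam/2 * n).
-/

namespace Pool.HQ

/-- Euclidean space -/
abbrev EU (n : ℕ) := EuclideanSpace ℝ (Fin n)

/-- clamp to [0,1] -/
noncomputable def cl (t : ℝ) : ℝ := max 0 (min 1 t)

/-- Data of part III: the metric d, the map f into the ball of R^M, the colouring c, and all parameters. -/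
structure VD (G : Type) (M L : ℕ) where
  d : G → G → ℕ
  f : G → EU M
  c : G → Fin L
  lam : ℝ
  δ : ℕ
  K : ℝ
  s0 : ℕ
  r0 : ℕ
  eta : ℝ
  C0 : ℝ
  rC : ℕ
  C : ℝ
  C1 : ℝ
  rm : ℕ
  tau : ℝ
  C5 : ℝ
  W5 : ℝ
  W6 : ℝ
  r2 : ℕ
  W8 : ℝ
  sig : ℝ
  Wc : ℝ
  rc : ℕ
  r8 : ℕ
  eps : ℝ
  E : ℝ
  rE : ℕ

namespace VD

variable {G : Type} {M L : ℕ} (Q : VD G M L)

/-- beta^n -/
noncomputable def bt (n : ℕ) : ℝ := Real.exp (Q.lam / 2 * n)

/-- number of elements of the ball of radius r about b (independent of b) -/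
noncomputable def nb (b : G) (r : ℕ) : ℝ := ({a | Q.d b a ≤ r}.ncard : ℝ)

/-- A_0 = 2 C', W_7, L_1, eta_1, kap_4, K_3 -/
noncomputable def A0 : ℝ := 2 * Q.C1
noncomputable def W7 : ℝ := Q.W6 + 2 * Q.A0
noncomputable def L1 : ℝ := 2 * Q.K * Q.W7
noncomputable def eta1 : ℝ := Q.eta / (4 * Q.L1)
noncomputable def kap : ℝ := 1 / (2 * Q.bt Q.r0 ^ 2)
noncomputable def K3 : ℝ := 2 * Q.K ^ 2 * Q.bt Q.s0
/-- bound for E|X - io psi| and cst (wG b) psi of all measures psi which occur -/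
noncomputable def A1 : ℝ := Q.L1 * (Q.L1 * Q.A0)

/-- the weight of J_b -/
noncomputable def wb (b a : G) : ℝ := wG Q.d Q.lam b a
/-- J_b(X) -/
noncomputable def J (b : G) (X : EU L) : ℝ := JJ Q.d Q.lam Q.c Q.E b X
/-- om(f a, z) -/
noncomputable def o (a : G) (z : EU M) : ℝ := om (Q.f a) z
/-- J_b(X) with the penalty for om(f b, z) > W_6 -/
noncomputable def Jp (b : G) (p : EU L × EU M) : ℝ := Q.J b p.1 + max 0 (Q.o b p.2 - Q.W6)
/-- J_G(p) = inf_b Jp_b(p) -/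
noncomputable def JG (p : EU L × EU M) : ℝ := ⨅ b : G, Q.Jp b p
/-- Phi(p) -/
noncomputable def Ph (p : EU L × EU M) : ℝ := Phi Q.f Q.c Q.E p

open Classical in
/-- the finite set of all a with om(f a, z) ≤ W -/
noncomputable def near (z : EU M) (W : ℝ) : Finset G :=
  if h : {a | Q.o a z ≤ W}.Finite then h.toFinset else ∅

/-- cut-off: 1 for om(f a,z) ≤ W, 0 for om(f a,z) ≥ 2W -/
noncomputable def k (W : ℝ) (z : EU M) (a : G) : ℝ := cl (2 - Q.o a z / W)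

/-- m_a(p) -/
noncomputable def mm (p : EU L × EU M) (a : G) : ℝ :=
  Q.k Q.W8 p.2 a * max 0 (p.1 (Q.c a) - Q.tau) ^ 3
noncomputable def sm (p : EU L × EU M) : ℝ := ∑ a ∈ Q.near p.2 (2 * Q.W8), Q.mm p a
/-- the location x(p) -/
noncomputable def x (p : EU L × EU M) : G →₀ ℝ :=
  ∑ a ∈ Q.near p.2 (2 * Q.W8), Finsupp.single a (Q.mm p a / Q.sm p)
/-- the affine map G →₀ R → R^M with a ↦ f a -/
noncomputable def fb (x : G →₀ ℝ) : EU M := x.sum fun a t => t • Q.f a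
/-- fhat(p) -/
noncomputable def fh (p : EU L × EU M) : EU M := Q.fb (Q.x p)

/-- near coordinates of X as a measure -/
noncomputable def uA (p : EU L × EU M) : G →₀ ℝ :=
  ∑ a ∈ Q.near p.2 (2 * Q.Wc), Finsupp.single a (Q.k Q.Wc p.2 a * p.1 (Q.c a))
/-- the target q_A(p), total mass 1 -/
noncomputable def qA (p : EU L × EU M) : G →₀ ℝ := Q.uA p + (1 - tot (Q.uA p)) • Q.x p
noncomputable def TA (p : EU L × EU M) : EU L := io Q.c (Q.qA p)

/-- weights of near minimisers -/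
noncomputable def nn (p : EU L × EU M) (b : G) : ℝ := max 0 (2 * Q.JG p - Q.Jp b p)
noncomputable def sn (p : EU L × EU M) : ℝ := ∑ b ∈ Q.near p.2 Q.W7, Q.nn p b
/-- x_J(p) -/
noncomputable def xJ (p : EU L × EU M) : G →₀ ℝ :=
  ∑ b ∈ Q.near p.2 Q.W7, Finsupp.single b (Q.nn p b / Q.sn p)

/-- the far weight (1 - k_a) om(f a, z) -/
noncomputable def wf (z : EU M) (a : G) : ℝ := (1 - Q.k Q.Wc z a) * Q.o a z
/-- XX(p): cost of the far part -/
noncomputable def XXh (p : EU L × EU M) : ℝ := NN Q.c Q.E (Q.wf p.2) p.1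
/-- switch: 1 if XX ≤ eta_1, 0 if XX ≥ 2 eta_1 -/
noncomputable def chi (p : EU L × EU M) : ℝ := cl (2 - Q.XXh p / Q.eta1)
noncomputable def T1 (p : EU L × EU M) : EU L :=
  (1 - Q.chi p) • Q.TA p + Q.chi p • io Q.c (Q.xJ p)

noncomputable def th1 (p : EU L × EU M) : ℝ := cl ((Q.JG p - 1.2 * Q.C0) / (0.3 * Q.C0))
noncomputable def th2 (p : EU L × EU M) : ℝ := cl ((1.8 * Q.C0 - Q.JG p) / (0.3 * Q.C0))
/-- speed of the z-motion -/
noncomputable def vs (p : EU L × EU M) : ℝ := Q.th2 p + Q.sig * cl (Q.Ph p / Q.C5 - 1)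
/-- cut-off of the vector field: 1 on Psi ≤ 1 -/
noncomputable def cut (p : EU L × EU M) : ℝ :=
  cl (10 * (1.1 - Q.JG p / Q.C1)) * cl (10 * (1.1 - om (Q.fh p) p.2 / Q.W5))

/-- the vector field -/
noncomputable def V1 (p : EU L × EU M) : EU L :=
  Q.cut p • (Q.th1 p • (Q.T1 p - p.1) + Q.vs p • (Q.TA p - p.1))
noncomputable def V2 (p : EU L × EU M) : EU M :=
  (Q.cut p * Q.vs p * ((1 - ‖p.2‖) / (16 * (‖Q.fh p - p.2‖ + (1 - ‖p.2‖))))) • (Q.fh p - p.2)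

/-- the function Psi; T_1 = {Psi < 1} -/
noncomputable def Psi (p : EU L × EU M) : ℝ :=
  max (Q.JG p / Q.C1) (cl ((1.5 - Q.JG p / Q.C1) / 0.4) * (om (Q.fh p) p.2 / Q.W5))

/-- centre and radius of the Euclidean ball {z : om(y,z) < W} -/
noncomputable def kc (W : ℝ) (y : EU M) : ℝ := 1 + (W ^ 2 - 1) * (1 - ‖y‖ ^ 2)
noncomputable def bc (W : ℝ) (y : EU M) : EU M := (kc W y)⁻¹ • y
noncomputable def br (W : ℝ) (y : EU M) : ℝ := W * Real.sqrt (W ^ 2 - 1) * (1 - ‖y‖ ^ 2) / kc W y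

/-- the action on {Psi = 1} for a cocycle A -/
noncomputable def act [Group G] (A : G → (G →₀ ℝ) → Matrix (Fin L) (Fin L) ℝ) (g : G)
    (p : EU L × EU M) : EU L × EU M :=
  (WithLp.toLp 2 ((A g (Q.x p)).mulVec p.1.ofLp),
   bc Q.W5 (Q.fb (pact g (Q.x p))) +
     (br Q.W5 (Q.fb (pact g (Q.x p))) / br Q.W5 (Q.fh p)) • (p.2 - bc Q.W5 (Q.fh p)))

end VD

end Pool.HQ
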