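import Pool.Agent.HQ.SNear
import Pool.Agent.HQ.VFun

/-!
MODULE GA01 (problem MP_7936f4_al, part III, G-side, helper68): the balls om(y,z) ≤ W and the Lipschitz
estimate for the affine maps between them.

bc W y = y / k, br W y = W sqrt(W^2-1) D(y) / k, k = 1 + (W^2-1) D(y).
-/

namespace Pool.HQ.GA

open Pool.HQ

variable {M : ℕ}

theorem kc_pos {W : ℝ} (hW : 1 < W) {y : EU M} (hy : ‖y‖ < 1) : 1 ≤ VD.kc W y := by
  unfold VD.kc
  have h1 : 0 < 1 - ‖y‖ ^ 2 := Dz_pos hy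
  have h2 : 0 < W ^ 2 - 1 := by nlinarith
  have := mul_pos h2 h1
  linarith

theorem kc_eq (W : ℝ) (y : EU M) : VD.kc W y = 1 + (W ^ 2 - 1) * Dz y := rfl

/-- D/k -/
noncomputable def ub (W : ℝ) (y : EU M) : ℝ := Dz y / VD.kc W y

theorem br_eq (W : ℝ) (y : EU M) : VD.br W y = W * Real.sqrt (W ^ 2 - 1) * ub W y := by
  unfold VD.br ub Dz
  rw [mul_div_assoc]

theorem ub_pos {W : ℝ} (hW : 1 < W) {y : EU M} (hy : ‖y‖ < 1) : 0 < ub W y :=
  div_pos (Dz_pos hy) (lt_of_lt_of_le one_pos (kc_pos hW hy))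

theorem br_pos {W : ℝ} (hW : 1 < W) {y : EU M} (hy : ‖y‖ < 1) : 0 < VD.br W y := by
  rw [br_eq]
  have h2 : 0 < W ^ 2 - 1 := by nlinarith
  have := ub_pos hW hy
  have := Real.sqrt_pos.2 h2
  positivity

theorem ratio_eq {W : ℝ} (hW : 1 < W) (y y' : EU M) :
    VD.br W y / VD.br W y' = ub W y / ub W y' := by
  rw [br_eq, br_eq]
  have h2 : 0 < W ^ 2 - 1 := by nlinarith
  have := Real.sqrt_pos.2 h2
  rw [mul_div_mul_left _ _ (by positivity)]

/-- the identity behind ball_iff -/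
theorem ball_key {W : ℝ} (hW : 1 < W) {y : EU M} (hy : ‖y‖ < 1) (z : EU M) :
    VD.kc W y * (‖z - VD.bc W y‖ ^ 2 - VD.br W y ^ 2) =
      ‖y - z‖ ^ 2 - (W ^ 2 - 1) * Dz y * Dz z := by
  have hk := kc_pos hW hy
  have hk0 : VD.kc W y ≠ 0 := by positivity
  have h2 : 0 ≤ W ^ 2 - 1 := by nlinarith
  have hbr : VD.br W y ^ 2 = W ^ 2 * (W ^ 2 - 1) * (Dz y) ^ 2 / VD.kc W y ^ 2 := by
    rw [br_eq]
    unfold ub
    rw [mul_pow, mul_pow, Real.sq_sqrt h2, div_pow]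
    ring
  have hbc : ‖z - VD.bc W y‖ ^ 2 = ‖z‖ ^ 2 - 2 * (VD.kc W y)⁻¹ * inner ℝ y z +
      (VD.kc W y)⁻¹ ^ 2 * ‖y‖ ^ 2 := by
    unfold VD.bc
    rw [@norm_sub_sq_real, norm_smul, real_inner_smul_right, mul_pow, real_inner_comm,
      Real.norm_eq_abs, sq_abs]
    ring
  have hyz : ‖y - z‖ ^ 2 = ‖y‖ ^ 2 - 2 * inner ℝ y z + ‖z‖ ^ 2 := @norm_sub_sq_real _ _ _ y z
  rw [hbr, hbc, hyz]
  field_simp
  rw [kc_eq]
  unfold Dz
  ring

theorem ball_iff {W : ℝ} (hW : 1 < W) {y : EU M} (hy : ‖y‖ < 1) (z : EU M) :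
    ‖z - VD.bc W y‖ ≤ VD.br W y ↔ ‖z‖ < 1 ∧ om y z ≤ W := by
  have hk := kc_pos hW hy
  have hkey := ball_key hW hy z
  have hbr := br_pos hW hy
  have hDy := Dz_pos hy
  have hm : 0 < (W ^ 2 - 1) * Dz y := mul_pos (by nlinarith) hDy
  constructor
  · intro h
    have h1 : ‖z - VD.bc W y‖ ^ 2 - VD.br W y ^ 2 ≤ 0 := by
      have := norm_nonneg (z - VD.bc W y)
      nlinarith
    have h2 : ‖y - z‖ ^ 2 ≤ (W ^ 2 - 1) * Dz y * Dz z := by
      have : VD.kc W y * (‖z - VD.bc W y‖ ^ 2 - VD.br W y ^ 2) ≤ 0 :=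
        mul_nonpos_of_nonneg_of_nonpos (by linarith) h1
      linarith
    have h3 : 0 ≤ Dz z := by
      by_contra hcon
      have : (W ^ 2 - 1) * Dz y * Dz z < 0 := mul_neg_of_pos_of_neg hm (not_le.1 hcon)
      have := sq_nonneg ‖y - z‖
      linarith
    have h4 : ‖z‖ ≤ 1 := by
      unfold Dz at h3
      have := norm_nonneg z
      nlinarith
    have hz : ‖z‖ < 1 := by
      rcases eq_or_lt_of_le h4 with h5 | h5
      · exfalso
        have h6 : Dz z = 0 := by unfold Dz; rw [h5]; norm_num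
        rw [h6, mul_zero] at h2
        have h7 : ‖y - z‖ = 0 := by
          have := sq_nonneg ‖y - z‖
          exact pow_eq_zero_iff (two_ne_zero) |>.1 (le_antisymm h2 this)
        have h8 : y = z := by rwa [norm_eq_zero, sub_eq_zero] at h7
        rw [h8, h5] at hy
        exact lt_irrefl _ hy
      · exact h5
    refine ⟨hz, ?_⟩
    have hDz := Dz_pos hz
    have h6 : om y z ^ 2 ≤ W ^ 2 := by
      rw [om_sq hy hz, div_le_iff₀ (by positivity)]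
      unfold Nz
      nlinarith
    exact le_of_sq_le_sq h6 (by linarith)
  · rintro ⟨hz, h⟩
    have hDz := Dz_pos hz
    have h1 : om y z ^ 2 ≤ W ^ 2 := by
      have := om_pos hy hz
      nlinarith
    rw [om_sq hy hz, div_le_iff₀ (by positivity)] at h1
    unfold Nz at h1
    have h2 : VD.kc W y * (‖z - VD.bc W y‖ ^ 2 - VD.br W y ^ 2) ≤ 0 := by
      rw [hkey]; nlinarith
    have h3 : ‖z - VD.bc W y‖ ^ 2 - VD.br W y ^ 2 ≤ 0 := by
      by_contra hcon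
      have : 0 < VD.kc W y * (‖z - VD.bc W y‖ ^ 2 - VD.br W y ^ 2) :=
        mul_pos (by linarith) (not_le.1 hcon)
      linarith
    exact le_of_sq_le_sq (by linarith) hbr.le

theorem ball_eq {W : ℝ} (hW : 1 < W) {y : EU M} (hy : ‖y‖ < 1) {z : EU M} (hz : ‖z‖ < 1) :
    ‖z - VD.bc W y‖ = VD.br W y ↔ om y z = W := by
  have hk := kc_pos hW hy
  have hkey := ball_key hW hy z
  have hbr := br_pos hW hy
  have hDy := Dz_pos hy
  have hDz := Dz_pos hz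
  have hom := om_pos hy hz
  have hsq := om_sq hy hz
  have e : ‖y - z‖ ^ 2 = om y z ^ 2 * (Dz y * Dz z) - Dz y * Dz z := by
    rw [hsq, div_mul_cancel₀ _ (by positivity)]
    unfold Nz
    ring
  have e2 : VD.kc W y * (‖z - VD.bc W y‖ ^ 2 - VD.br W y ^ 2) =
      (om y z ^ 2 - W ^ 2) * (Dz y * Dz z) := by
    rw [hkey, e]; ring
  constructor
  · intro h
    rw [h, sub_self, mul_zero] at e2
    have h1 : om y z ^ 2 - W ^ 2 = 0 := by
      rcases mul_eq_zero.1 e2.symm with h | h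
      · exact h
      · exact absurd h (by positivity)
    have h2 : om y z ^ 2 = W ^ 2 := by linarith
    exact (pow_left_inj₀ hom.le (by linarith) two_ne_zero).1 h2
  · intro h
    rw [h, sub_self, zero_mul] at e2
    have h1 : ‖z - VD.bc W y‖ ^ 2 - VD.br W y ^ 2 = 0 := by
      rcases mul_eq_zero.1 e2 with h | h
      · exact absurd h (by positivity)
      · exact h
    have h2 : ‖z - VD.bc W y‖ ^ 2 = VD.br W y ^ 2 := by linarith
    exact (pow_left_inj₀ (norm_nonneg _) hbr.le two_ne_zero).1 h2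

/-! ### Lipschitz estimates -/

theorem Dz_lip {y y' : EU M} (hy : ‖y‖ < 1) (hy' : ‖y'‖ < 1) : |Dz y - Dz y'| ≤ 2 * ‖y - y'‖ := by
  have := Dz_sub_le hy hy'
  rw [abs_sub_comm]
  exact this

theorem bc_lip {W : ℝ} (hW : 1 < W) {y y' : EU M} (hy : ‖y‖ < 1) (hy' : ‖y'‖ < 1) :
    ‖VD.bc W y - VD.bc W y'‖ ≤ (2 * W ^ 2) * ‖y - y'‖ := by
  have hk := kc_pos hW hy
  have hk' := kc_pos hW hy'
  have hD := Dz_lip hy hy'
  have hm : 0 < W ^ 2 - 1 := by nlinarith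
  unfold VD.bc
  have e : (VD.kc W y)⁻¹ • y - (VD.kc W y')⁻¹ • y' =
      (VD.kc W y)⁻¹ • (y - y') + ((VD.kc W y)⁻¹ - (VD.kc W y')⁻¹) • y' := by
    rw [smul_sub, sub_smul]; abel
  rw [e]
  refine (norm_add_le _ _).trans ?_
  rw [norm_smul, norm_smul, Real.norm_eq_abs, Real.norm_eq_abs]
  have h1 : |(VD.kc W y)⁻¹| ≤ 1 := by
    rw [abs_of_pos (by positivity)]
    exact inv_le_one_of_one_le₀ hk
  have h2 : |(VD.kc W y)⁻¹ - (VD.kc W y')⁻¹| ≤ (W ^ 2 - 1) * (2 * ‖y - y'‖) := by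
    have e2 : (VD.kc W y)⁻¹ - (VD.kc W y')⁻¹ =
        (VD.kc W y)⁻¹ * (VD.kc W y')⁻¹ * ((W ^ 2 - 1) * (Dz y' - Dz y)) := by
      have a1 : VD.kc W y ≠ 0 := by positivity
      have a2 : VD.kc W y' ≠ 0 := by positivity
      field_simp
      rw [kc_eq, kc_eq]
      ring
    rw [e2, abs_mul, abs_mul, abs_mul, abs_of_pos hm, abs_sub_comm (Dz y')]
    have h3 : |(VD.kc W y')⁻¹| ≤ 1 := by
      rw [abs_of_pos (by positivity)]
      exact inv_le_one_of_one_le₀ hk'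
    have h4 : |(VD.kc W y)⁻¹| * |(VD.kc W y')⁻¹| ≤ 1 :=
      mul_le_one₀ h1 (abs_nonneg _) h3
    have h5 : (W ^ 2 - 1) * |Dz y - Dz y'| ≤ (W ^ 2 - 1) * (2 * ‖y - y'‖) :=
      mul_le_mul_of_nonneg_left hD hm.le
    have h6 : 0 ≤ (W ^ 2 - 1) * |Dz y - Dz y'| := by positivity
    calc _ ≤ 1 * ((W ^ 2 - 1) * |Dz y - Dz y'|) := mul_le_mul_of_nonneg_right h4 h6
      _ ≤ _ := by rw [one_mul]; exact h5
  have h7 : |(VD.kc W y)⁻¹ - (VD.kc W y')⁻¹| * ‖y'‖ ≤ (W ^ 2 - 1) * (2 * ‖y - y'‖) := by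
    calc _ ≤ |(VD.kc W y)⁻¹ - (VD.kc W y')⁻¹| * 1 :=
          mul_le_mul_of_nonneg_left hy'.le (abs_nonneg _)
      _ ≤ _ := by rw [mul_one]; exact h2
  have h8 : |(VD.kc W y)⁻¹| * ‖y - y'‖ ≤ 1 * ‖y - y'‖ :=
    mul_le_mul_of_nonneg_right h1 (norm_nonneg _)
  have := norm_nonneg (y - y')
  nlinarith

theorem ub_lip {W : ℝ} (hW : 1 < W) {y y' : EU M} (hy : ‖y‖ < 1) (hy' : ‖y'‖ < 1) :
    |ub W y - ub W y'| ≤ 2 * ‖y - y'‖ := by
  have hk := kc_pos hW hy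
  have hk' := kc_pos hW hy'
  have hD := Dz_lip hy hy'
  unfold ub
  have e2 : Dz y / VD.kc W y - Dz y' / VD.kc W y' =
      (VD.kc W y)⁻¹ * (VD.kc W y')⁻¹ * (Dz y - Dz y') := by
    have a1 : VD.kc W y ≠ 0 := by positivity
    have a2 : VD.kc W y' ≠ 0 := by positivity
    field_simp
    rw [kc_eq, kc_eq]
    ring
  rw [e2, abs_mul, abs_mul]
  have h1 : |(VD.kc W y)⁻¹| ≤ 1 := by
    rw [abs_of_pos (by positivity)]
    exact inv_le_one_of_one_le₀ hk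
  have h3 : |(VD.kc W y')⁻¹| ≤ 1 := by
    rw [abs_of_pos (by positivity)]
    exact inv_le_one_of_one_le₀ hk'
  have h4 : |(VD.kc W y)⁻¹| * |(VD.kc W y')⁻¹| ≤ 1 :=
    mul_le_one₀ h1 (abs_nonneg _) h3
  calc _ ≤ 1 * |Dz y - Dz y'| := mul_le_mul_of_nonneg_right h4 (abs_nonneg _)
    _ ≤ _ := by rw [one_mul]; exact hD

theorem ub_le {W : ℝ} (hW : 1 < W) {y : EU M} (hy : ‖y‖ < 1) : ub W y ≤ Dz y := by
  unfold ub
  exact div_le_self (Dz_pos hy).le (kc_pos hW hy)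

theorem le_ub {W : ℝ} (hW : 1 < W) {y : EU M} (hy : ‖y‖ < 1) : Dz y ≤ W ^ 2 * ub W y := by
  unfold ub
  have hk := kc_pos hW hy
  have hD := Dz_pos hy
  have h1 := Dz_le_one y
  have hm : 0 < W ^ 2 - 1 := by nlinarith
  rw [← mul_div_assoc, le_div_iff₀ (by positivity), mul_comm (W ^ 2)]
  apply mul_le_mul_of_nonneg_left _ hD.le
  rw [kc_eq]
  nlinarith

theorem br_le {W : ℝ} (hW : 1 < W) {y : EU M} (hy : ‖y‖ < 1) : VD.br W y ≤ W ^ 2 * Dz y := by
  rw [br_eq]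
  have h1 := ub_le hW hy
  have h2 := ub_pos hW hy
  have hW0 : 0 < W := by linarith
  have h3 : Real.sqrt (W ^ 2 - 1) ≤ W := by
    rw [Real.sqrt_le_left hW0.le]
    linarith
  calc W * Real.sqrt (W ^ 2 - 1) * ub W y ≤ W * W * Dz y := by
        apply mul_le_mul _ h1 h2.le (by positivity)
        exact mul_le_mul_of_nonneg_left h3 hW0.le
    _ = _ := by ring

theorem rho_lip {u u' ug ug' a b t Db Dg : ℝ} (ha : 0 < a) (hb : 0 ≤ b) (hDb : 0 < Db) (hDg : 0 < Dg)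
    (ht : 0 ≤ t)
    (hu : Db ≤ a * u) (hu' : Db ≤ a * u') (hug' : |ug'| ≤ b * Dg)
    (h1 : |u - u'| ≤ b * t * Db) (h2 : |ug - ug'| ≤ b * t * Dg) :
    |ug / u - ug' / u'| ≤ (a * b + a ^ 2 * b ^ 2) * (t * (Dg / Db)) := by
  have hu0 : 0 < u := by
    by_contra hcon
    have : a * u ≤ 0 := mul_nonpos_of_nonneg_of_nonpos ha.le (not_lt.1 hcon)
    linarith
  have hu0' : 0 < u' := by
    by_contra hcon
    have : a * u' ≤ 0 := mul_nonpos_of_nonneg_of_nonpos ha.le (not_lt.1 hcon)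
    linarith
  have iu : 1 / u ≤ a / Db := by
    rw [div_le_div_iff₀ hu0 hDb]; linarith
  have iu' : 1 / u' ≤ a / Db := by
    rw [div_le_div_iff₀ hu0' hDb]; linarith
  have e : ug / u - ug' / u' = (ug - ug') * (1 / u) + ug' * (1 / u') * ((u' - u) * (1 / u)) := by
    field_simp
    ring
  rw [e]
  refine (abs_add_le _ _).trans ?_
  rw [abs_mul, abs_mul, abs_mul, abs_mul, abs_of_pos (by positivity : 0 < 1 / u),
    abs_of_pos (by positivity : 0 < 1 / u'), abs_sub_comm u' u]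
  have b1 : |ug - ug'| * (1 / u) ≤ (b * t * Dg) * (a / Db) :=
    mul_le_mul h2 iu (by positivity) (by positivity)
  have b2 : |ug'| * (1 / u') ≤ (b * Dg) * (a / Db) :=
    mul_le_mul hug' iu' (by positivity) (by positivity)
  have b3 : |u - u'| * (1 / u) ≤ (b * t * Db) * (a / Db) :=
    mul_le_mul h1 iu (by positivity) (by positivity)
  have b4 : |ug'| * (1 / u') * (|u - u'| * (1 / u)) ≤
      ((b * Dg) * (a / Db)) * ((b * t * Db) * (a / Db)) :=
    mul_le_mul b2 b3 (by positivity) (by positivity)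
  have e1 : (b * t * Dg) * (a / Db) + ((b * Dg) * (a / Db)) * ((b * t * Db) * (a / Db)) =
      (a * b + a ^ 2 * b ^ 2) * (t * (Dg / Db)) := by
    field_simp
  linarith

/-- Lipschitz estimate for the affine maps between the balls. -/
theorem lip_core {W : ℝ} (hW : 1 < W) {B : ℝ} (hB : 1 ≤ B) : ∃ K : ℝ, 0 ≤ K ∧
    ∀ (y y' yg yg' z z' : EU M) (Db Dg t : ℝ), 0 < Db → 0 < Dg → 0 ≤ t →
    ‖y‖ < 1 → ‖y'‖ < 1 → ‖yg‖ < 1 → ‖yg'‖ < 1 →
    Db ≤ B * Dz y → Dz y ≤ B * Db → Db ≤ B * Dz y' → Dz yg' ≤ B * Dg →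
    ‖y - y'‖ ≤ B * t * Db → ‖yg - yg'‖ ≤ B * t * Dg → ‖z - VD.bc W y‖ ≤ VD.br W y →
    ‖z - z'‖ ≤ B * t * Db →
    ‖(VD.bc W yg + (VD.br W yg / VD.br W y) • (z - VD.bc W y)) -
      (VD.bc W yg' + (VD.br W yg' / VD.br W y') • (z' - VD.bc W y'))‖ ≤ K * t * Dg := by
  have hW0 : 0 < W := by linarith
  have hW2 : 1 ≤ W ^ 2 := by nlinarith
  set a := W ^ 2 * B with had
  set b := 2 * B with hbd
  have ha : 0 < a := by positivity
  have hb : 0 ≤ b := by positivity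
  refine ⟨(2 * W ^ 2) * B + (a * b + a ^ 2 * b ^ 2) * (W ^ 2 * B) + a * b * ((2 * W ^ 2) * B + B),
    by positivity, ?_⟩
  intro y y' yg yg' z z' Db Dg t hDb hDg ht hy hy' hyg hyg' h1 h2 h3 h4 h5 h6 h7 h8
  rw [ratio_eq hW, ratio_eq hW]
  have l1 := le_ub hW hy
  have l2 := le_ub hW hy'
  have hu : Db ≤ a * ub W y := by rw [had]; nlinarith
  have hu' : Db ≤ a * ub W y' := by rw [had]; nlinarith
  have hug' : |ub W yg'| ≤ b * Dg := by
    rw [abs_of_pos (ub_pos hW hyg')]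
    have := ub_le hW hyg'
    have : 0 ≤ B * Dg := by positivity
    rw [hbd]; linarith
  have hl1 : |ub W y - ub W y'| ≤ b * t * Db := by
    have := ub_lip hW hy hy'
    rw [hbd]; nlinarith
  have hl2 : |ub W yg - ub W yg'| ≤ b * t * Dg := by
    have := ub_lip hW hyg hyg'
    rw [hbd]; nlinarith
  have hρ := rho_lip ha hb hDb hDg ht hu hu' hug' hl1 hl2
  have hu0' := ub_pos hW hy'
  have hug0' := ub_pos hW hyg'
  have hρ' : |ub W yg' / ub W y'| ≤ a * b * (Dg / Db) := by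
    rw [abs_div, abs_of_pos hu0', div_le_iff₀ hu0']
    have : a * b * (Dg / Db) * ub W y' = (b * Dg) * ((a * ub W y') / Db) := by ring
    rw [this]
    have h9 : 1 ≤ a * ub W y' / Db := by rw [le_div_iff₀ hDb]; linarith
    have h10 : 0 ≤ b * Dg := by positivity
    nlinarith
  have e : (VD.bc W yg + (ub W yg / ub W y) • (z - VD.bc W y)) -
      (VD.bc W yg' + (ub W yg' / ub W y') • (z' - VD.bc W y')) =
      (VD.bc W yg - VD.bc W yg') + (ub W yg / ub W y - ub W yg' / ub W y') • (z - VD.bc W y) +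
      (ub W yg' / ub W y') • ((z - z') - (VD.bc W y - VD.bc W y')) := by
    rw [sub_smul, smul_sub (ub W yg' / ub W y') (z - z'), smul_sub _ z z', smul_sub _ z' (VD.bc W y'),
      smul_sub _ (VD.bc W y) (VD.bc W y'), smul_sub (ub W yg' / ub W y') z (VD.bc W y)]
    abel
  rw [e]
  refine (norm_add_le _ _).trans ?_
  have f1 : ‖VD.bc W yg - VD.bc W yg'‖ ≤ (2 * W ^ 2) * (B * t * Dg) :=
    (bc_lip hW hyg hyg').trans (mul_le_mul_of_nonneg_left h6 (by positivity))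
  have f2 : ‖VD.bc W y - VD.bc W y'‖ ≤ (2 * W ^ 2) * (B * t * Db) :=
    (bc_lip hW hy hy').trans (mul_le_mul_of_nonneg_left h5 (by positivity))
  have f3 : ‖z - VD.bc W y‖ ≤ W ^ 2 * B * Db := by
    have := br_le hW hy
    calc _ ≤ W ^ 2 * Dz y := h7.trans this
      _ ≤ W ^ 2 * (B * Db) := mul_le_mul_of_nonneg_left h2 (by positivity)
      _ = _ := by ring
  have f4 : ‖(ub W yg / ub W y - ub W yg' / ub W y') • (z - VD.bc W y)‖ ≤
      ((a * b + a ^ 2 * b ^ 2) * (t * (Dg / Db))) * (W ^ 2 * B * Db) := by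
    rw [norm_smul, Real.norm_eq_abs]
    exact mul_le_mul hρ f3 (norm_nonneg _) (by positivity)
  have f5 : ‖(ub W yg' / ub W y') • ((z - z') - (VD.bc W y - VD.bc W y'))‖ ≤
      (a * b * (Dg / Db)) * (B * t * Db + (2 * W ^ 2) * (B * t * Db)) := by
    rw [norm_smul, Real.norm_eq_abs]
    apply mul_le_mul hρ' _ (norm_nonneg _) (by positivity)
    exact (norm_sub_le _ _).trans (add_le_add h8 f2)
  have f6 := norm_add_le (VD.bc W yg - VD.bc W yg')
    ((ub W yg / ub W y - ub W yg' / ub W y') • (z - VD.bc W y))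
  have e1 : ((a * b + a ^ 2 * b ^ 2) * (t * (Dg / Db))) * (W ^ 2 * B * Db) =
      ((a * b + a ^ 2 * b ^ 2) * (W ^ 2 * B)) * t * Dg := by
    field_simp
  have e2 : (a * b * (Dg / Db)) * (B * t * Db + (2 * W ^ 2) * (B * t * Db)) =
      (a * b * ((2 * W ^ 2) * B + B)) * t * Dg := by
    field_simp
    ring
  rw [e1] at f4
  rw [e2] at f5
  nlinarith

end Pool.HQ.GA
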