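import Pool.Agent.HQ.LP04

/-!
MP_7936f4_al, full question.  Part III, LIPSCHITZ BLOCK (helper87), module LP05: three facts about the
locations.

We use the sharp quasi triangle inequality om(x,y) ≤ 2 om(x,z) om(z,y) of the unit ball (om_two).
PROOF of om_two: with N(x,y) = 1 - 2<x,y> + |x|^2|y|^2 (Nz_eq), C(x,y) = (1+|x|^2)(1+|y|^2) - 4<x,y>, one has
C(x,y) = 2 N(x,y) - Dx Dy, hence C/(Dx Dy) = 2 om^2 - 1 (= cosh of the distance) ≥ 1.
CLAIM  C(x,y) Dz^2 ≤ 2 C(x,z) C(z,y).  Given the claim: 2 om(x,y)^2 - 1 ≤ 2 (2P-1)(2R-1), P = om(x,z)^2 ≥ 1,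
R = om(z,y)^2 ≥ 1, so 2 om(x,y)^2 ≤ 1 + 2(2P-1)(2R-1) = 8PR - 4P - 4R + 3 ≤ 8 P R, om(x,y) ≤ 2 om om.
CLAIM: (Cauchy-Schwarz in the Lorentz orthogonal complement of Z.)  For a vector x put x0 = 1+|x|^2,
x' = 2x, so <X,Y> := x0 y0 - x'.y' = C(x,y), <X,X> = Dx^2.  Put c = C(x,z), e = C(z,y), D = Dz.
U = D^2 X - c Z, V = D^2 Y - e Z (in R x R^M) satisfy <U,Z> = 0 = <V,Z>, and
<U,V> = D^4 C(x,y) - D^2 c e.  For U orthogonal to Z: z0 U0 = z'.U' so |U0| ≤ (|z'|/z0)|U'|, |z'| < z0, hence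
|U'|^2 - U0^2 ≥ 0, moreover the form U'.V' - U0 V0 is positive semidefinite on Z^perp, and
|U'.V' - U0 V0| ≤ sqrt(|U'|^2-U0^2) sqrt(|V'|^2-V0^2), where |U'|^2 - U0^2 = - <U,U> = D^2 c^2 - D^4 Dx^2 ≤ D^2 c^2.
So D^4 C(x,y) - D^2 c e = <U,V> ≤ D^2 c e (c, e > 0), i.e. D^2 C(x,y) ≤ 2 c e.
(Alternative for the positive semidefinite form: a quadratic polynomial in s:
-<U + s V, U + s V> ≥ 0 for all real s, discriminant ≤ 0.)

mm_supp: mm p a ≠ 0 gives k ≠ 0 so o a z < 2 W8 (k_eq_zero), and X(c a) > tau.  By om_two, h.lo and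
  h.hr8: wb b a ≤ K * 2 * 2 W8 * W7 = 4 K W8 W7 ≤ bt r8, so d a b ≤ r8 (bt strictly increasing).
  Take psi with tot psi = 1 and cst (wb b) psi + E |X - io psi| < A0 + A0/100 =: A (exists_near; J b X ≤ A0).
  |X - io psi| ≤ A/E, E ≥ 4 A1 / tau, A1 = L1 * (L1 * A0) ≥ A0 (L1 = 2 K W7 ≥ 1), so |X - io psi| ≤ 0.26 tau.
  (io psi)(c a) = sum of psi a' over c a' = c a.  For a' ≠ a of the same colour d a a' > 2 (rE + r8 + ...)
  (h.inj), so d a' b > 2 rE + r8 ≥ rE, weight ≥ bt rE ≥ 2 E ≥ 8 A1/tau ≥ 8 A0 / tau (h.hrE: 2 K W7 (W7+2E) ≤ bt rE),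
  so the sum of |psi a'| over these a' is ≤ A tau/(8 A0) ≤ 0.13 tau.
  Hence psi a ≥ tau - 0.26 tau - 0.13 tau ≥ 0.6 tau and wb b a * 0.6 tau ≤ A, wb b a ≤ 1.7 A0/tau < bt r2
  (h.hr2), so d a b ≤ r2.
sm_lower: same psi (A = 1.01 A0).  h.hrm: 4 A0 ≤ bt rm: the mass outside B(b,rm) is ≤ A / (4 A0) ≤ 0.26, so
  sum over B(b,rm) of psi ≥ 0.74 (tot psi = 1), some a in B(b,rm) has psi a ≥ 0.74 / N, N = nb 1 rm (number of
  elements of the ball, does not depend on b).  X(c a) ≥ psi a - (same colour, as above ≤ 0.13 tau) - 0.26 tau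
  ≥ 0.74/N - 0.39 tau, and tau ≤ 1/(16 N) (h.htau), so X(c a) - tau ≥ 0.74/N - 1.39/(16 N) ≥ 1/(4N).
  k W8 z a = 1: o a z ≤ 2 om(f a,f b) om(f b,z) ≤ 2 K bt rm W7 ≤ W8 (h.rm2: rm ≤ r2, h.hW8).  So
  mm p a ≥ (1/(4N))^3 = mu rm, all mm are ≥ 0 and a is in near z (2 W8), so sm p ≥ mu rm.
  (In the step for the same colour the bound d a b ≤ rm ≤ r2 is used: d a' b > 2 (rE + r2 + ...) - r2 ≥ rE.)
near_inj: o a z ≤ 2 Wc, o b z ≤ W7: wb b a ≤ K 2 (2 Wc) W7 = 4 K Wc W7 ≤ bt rc (h.hrc), d a b ≤ rc, the same for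
  a', so d a a' ≤ 2 rc and h.inj applies.
-/

namespace Pool.HQ.LP

variable {G : Type} [Group G] {M L : ℕ} {Q : VD G M L}

/-- The algebraic core of `om_two`. -/
theorem lp05_core (x y z : EU M) (hx : ‖x‖ < 1) (hy : ‖y‖ < 1) (hz : ‖z‖ < 1) :
    (1 - ‖z‖ ^ 2) ^ 2 * ((1 + ‖x‖ ^ 2) * (1 + ‖y‖ ^ 2) - 4 * inner ℝ x y) ≤
      2 * ((1 + ‖x‖ ^ 2) * (1 + ‖z‖ ^ 2) - 4 * inner ℝ x z) *
        ((1 + ‖z‖ ^ 2) * (1 + ‖y‖ ^ 2) - 4 * inner ℝ z y) := by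
  obtain ⟨c, hc⟩ : ∃ c : ℝ, c = (1 + ‖x‖ ^ 2) * (1 + ‖z‖ ^ 2) - 4 * inner ℝ x z := ⟨_, rfl⟩
  obtain ⟨α, hα⟩ : ∃ α : ℝ, α = 2 * c * (1 + ‖z‖ ^ 2) - (1 - ‖z‖ ^ 2) ^ 2 * (1 + ‖x‖ ^ 2) :=
    ⟨_, rfl⟩
  obtain ⟨β, hβ⟩ : ∃ β : EU M, β = (2 * c) • z - ((1 - ‖z‖ ^ 2) ^ 2) • x := ⟨_, rfl⟩
  have hβ2 : ‖β‖ ^ 2 = 4 * c ^ 2 * ‖z‖ ^ 2 - 4 * c * (1 - ‖z‖ ^ 2) ^ 2 * inner ℝ x z +
      (1 - ‖z‖ ^ 2) ^ 4 * ‖x‖ ^ 2 := by
    rw [hβ, norm_sub_sq_real, norm_smul, norm_smul, inner_smul_left, inner_smul_right,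
      real_inner_comm x z, mul_pow, mul_pow, Real.norm_eq_abs, Real.norm_eq_abs, sq_abs, sq_abs]
    simp only [conj_trivial]
    ring
  have hid : α ^ 2 = 4 * ‖β‖ ^ 2 + (1 - ‖z‖ ^ 2) ^ 4 * (1 - ‖x‖ ^ 2) ^ 2 := by
    rw [hβ2, hα, hc]
    ring
  have hxz : inner ℝ x z ≤ ‖x‖ * ‖z‖ := real_inner_le_norm x z
  have hx0 := norm_nonneg x
  have hy0 := norm_nonneg y
  have hz0 := norm_nonneg z
  have hα0 : 0 ≤ α := by
    have h1 : α = (1 + ‖z‖ ^ 2) ^ 2 * (1 + ‖x‖ ^ 2) + 4 * ‖z‖ ^ 2 * (1 + ‖x‖ ^ 2) -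
        8 * inner ℝ x z * (1 + ‖z‖ ^ 2) := by
      rw [hα, hc]
      ring
    have h2 : 8 * inner ℝ x z * (1 + ‖z‖ ^ 2) ≤ 8 * (‖x‖ * ‖z‖) * (1 + ‖z‖ ^ 2) := by
      have : 0 ≤ 1 + ‖z‖ ^ 2 := by positivity
      nlinarith
    have h3 : 8 * (‖x‖ * ‖z‖) * (1 + ‖z‖ ^ 2) ≤ 4 * (1 + ‖x‖ ^ 2) * ‖z‖ * (1 + ‖z‖ ^ 2) := by
      have h4 : 2 * ‖x‖ ≤ 1 + ‖x‖ ^ 2 := by linarith [sq_nonneg (1 - ‖x‖)]
      have h5 : 0 ≤ 4 * ‖z‖ * (1 + ‖z‖ ^ 2) := by positivity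
      linarith [mul_le_mul_of_nonneg_left h4 h5]
    have h6 : 0 ≤ (1 + ‖x‖ ^ 2) * (1 - ‖z‖) ^ 4 := by positivity
    linarith
  have hβα : 2 * ‖β‖ ≤ α := by
    apply abs_le_of_sq_le_sq' _ hα0 |>.2
    rw [hid]
    have : 0 ≤ (1 - ‖z‖ ^ 2) ^ 4 * (1 - ‖x‖ ^ 2) ^ 2 := by positivity
    linarith
  have hβy : inner ℝ β y ≤ ‖β‖ * ‖y‖ := real_inner_le_norm β y
  have hβy' : inner ℝ β y = 2 * c * inner ℝ z y - (1 - ‖z‖ ^ 2) ^ 2 * inner ℝ x y := by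
    rw [hβ, inner_sub_left, inner_smul_left, inner_smul_left]
    simp only [conj_trivial]
  have hfin : 0 ≤ α * (1 + ‖y‖ ^ 2) - 4 * inner ℝ β y := by
    have h1 : 4 * (‖β‖ * ‖y‖) ≤ 2 * α * ‖y‖ := by nlinarith
    have h2 : 0 ≤ α * (1 - ‖y‖) ^ 2 := by positivity
    linarith
  rw [hβy', hα] at hfin
  rw [← hc]
  linarith

theorem om_two {x y z : EU M} (hx : ‖x‖ < 1) (hy : ‖y‖ < 1) (hz : ‖z‖ < 1) :
    om x y ≤ 2 * (om x z * om z y) := by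
  have hcore := lp05_core x y z hx hy hz
  have hDx := Dz_pos hx
  have hDy := Dz_pos hy
  have hDz := Dz_pos hz
  have e1 := om_sq hx hy
  have e2 := om_sq hx hz
  have e3 := om_sq hz hy
  have n1 := Nz_eq x y
  have n2 := Nz_eq x z
  have n3 := Nz_eq z y
  obtain ⟨S, hS⟩ : ∃ S : ℝ, om x y ^ 2 = S := ⟨_, rfl⟩
  obtain ⟨P, hP⟩ : ∃ P : ℝ, om x z ^ 2 = P := ⟨_, rfl⟩
  obtain ⟨R, hR⟩ : ∃ R : ℝ, om z y ^ 2 = R := ⟨_, rfl⟩
  rw [hS, eq_div_iff (by positivity)] at e1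
  rw [hP, eq_div_iff (by positivity)] at e2
  rw [hR, eq_div_iff (by positivity)] at e3
  have hP1 : 1 ≤ P := by
    rw [← hP]
    nlinarith [one_le_om hx hz]
  have hR1 : 1 ≤ R := by
    rw [← hR]
    nlinarith [one_le_om hz hy]
  have c1 : (1 + ‖x‖ ^ 2) * (1 + ‖y‖ ^ 2) - 4 * inner ℝ x y = (2 * S - 1) * (Dz x * Dz y) := by
    have : (2 * S - 1) * (Dz x * Dz y) = 2 * Nz x y - Dz x * Dz y := by
      rw [← e1]
      ring
    rw [this, n1]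
    unfold Dz
    ring
  have c2 : (1 + ‖x‖ ^ 2) * (1 + ‖z‖ ^ 2) - 4 * inner ℝ x z = (2 * P - 1) * (Dz x * Dz z) := by
    have : (2 * P - 1) * (Dz x * Dz z) = 2 * Nz x z - Dz x * Dz z := by
      rw [← e2]
      ring
    rw [this, n2]
    unfold Dz
    ring
  have c3 : (1 + ‖z‖ ^ 2) * (1 + ‖y‖ ^ 2) - 4 * inner ℝ z y = (2 * R - 1) * (Dz z * Dz y) := by
    have : (2 * R - 1) * (Dz z * Dz y) = 2 * Nz z y - Dz z * Dz y := by
      rw [← e3]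
      ring
    rw [this, n3]
    unfold Dz
    ring
  rw [c1, c2, c3] at hcore
  have hcore2 : (Dz x * Dz y * Dz z ^ 2) * (2 * S - 1) ≤
      (Dz x * Dz y * Dz z ^ 2) * (2 * ((2 * P - 1) * (2 * R - 1))) := by
    have : (1 - ‖z‖ ^ 2) ^ 2 = Dz z ^ 2 := rfl
    rw [this] at hcore
    linarith
  have h2 : 2 * S - 1 ≤ 2 * ((2 * P - 1) * (2 * R - 1)) :=
    le_of_mul_le_mul_left hcore2 (by positivity)
  have h3 : S ≤ 4 * (P * R) := by linarith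
  have h0 : 0 ≤ 2 * (om x z * om z y) := by
    have := om_pos hx hz
    have := om_pos hz hy
    positivity
  apply abs_le_of_sq_le_sq' _ h0 |>.2
  have : (2 * (om x z * om z y)) ^ 2 = 4 * (P * R) := by
    rw [← hP, ← hR]
    ring
  rw [this, hS]
  exact h3

theorem lp05_fin (h : Q.OK) (r : ℕ) : {a | Q.d 1 a ≤ r}.Finite := h.hd.fin r

theorem nb_pos (h : Q.OK) (r : ℕ) : 1 ≤ Q.nb 1 r := by
  unfold VD.nb
  have : 0 < ({a | Q.d 1 a ≤ r} : Set G).ncard := by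
    rw [Set.ncard_pos (lp05_fin h r)]
    exact ⟨1, by simp [h.hd.self]⟩
  exact_mod_cast this

theorem mu_pos (h : Q.OK) (r : ℕ) : 0 < Q.mu r := by
  have := nb_pos h r
  unfold VD.mu
  positivity

theorem lp05_wb (Q : VD G M L) (b a : G) : Q.wb b a = Q.bt (Q.d a b) := by
  unfold VD.wb wG VD.bt
  rfl

theorem lp05_bt_le (h : Q.OK) {m n : ℕ} (hmn : Q.bt m ≤ Q.bt n) : m ≤ n := by
  unfold VD.bt at hmn
  rw [Real.exp_le_exp] at hmn
  have h1 : 0 < Q.lam / 2 := by linarith [h.lam_pos]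
  have h2 := le_of_mul_le_mul_left hmn h1
  exact_mod_cast h2

theorem lp05_bt_mono (h : Q.OK) {m n : ℕ} (hmn : m ≤ n) : Q.bt m ≤ Q.bt n := by
  unfold VD.bt
  rw [Real.exp_le_exp]
  have h1 : 0 < Q.lam / 2 := by linarith [h.lam_pos]
  have h2 : (m : ℝ) ≤ n := by exact_mod_cast hmn
  exact mul_le_mul_of_nonneg_left h2 h1.le

theorem lp05_bt_pos (Q : VD G M L) (n : ℕ) : 0 < Q.bt n := Real.exp_pos _

theorem lp05_wbo (h : Q.OK) {a b : G} {z : EU M} (hz : ‖z‖ < 1) {W W' : ℝ} (ha : Q.o a z ≤ W)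
    (hb : Q.o b z ≤ W') : Q.bt (Q.d a b) ≤ 2 * Q.K * W * W' := by
  have h1 := h.lo a b
  rw [lp05_wb] at h1
  have h2 := om_two (h.ball a) (h.ball b) hz
  rw [om_symm z (Q.f b)] at h2
  have h3 : om (Q.f a) z * om (Q.f b) z ≤ W * W' := by
    have h4 := om_pos (h.ball a) hz
    have h5 := om_pos (h.ball b) hz
    exact mul_le_mul ha hb h5.le (h4.le.trans ha)
  have hK := h.K1
  calc Q.bt (Q.d a b) ≤ Q.K * om (Q.f a) (Q.f b) := h1
    _ ≤ Q.K * (2 * (om (Q.f a) z * om (Q.f b) z)) := mul_le_mul_of_nonneg_left h2 (by linarith)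
    _ ≤ Q.K * (2 * (W * W')) := by
        apply mul_le_mul_of_nonneg_left _ (by linarith)
        linarith
    _ = 2 * Q.K * W * W' := by ring

/-- a nearly optimal measure. -/
theorem lp05_psi (h : Q.OK) {p : EU L × EU M} {b : G} (hb : Gd Q p b) : ∃ ψ : G →₀ ℝ,
    tot ψ = 1 ∧ cst (Q.wb b) ψ + Q.E * ‖p.1 - io Q.c ψ‖ < 1.01 * Q.A0 := by
  have hA := (C0_le h).2
  have h1 : NN Q.c Q.E (wG Q.d Q.lam b) p.1 < 1.01 * Q.A0 := by
    have h2 : Q.J b p.1 ≤ Q.A0 := (J_le_Jp b p).trans hb.2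
    have h3 : Q.J b p.1 = NN Q.c Q.E (wG Q.d Q.lam b) p.1 := rfl
    rw [← h3]
    linarith
  exact exists_near h1

theorem lp05_far (h : Q.OK) {b : G} {ψ : G →₀ ℝ} (P : G → Prop) [DecidablePred P] {B : ℝ}
    (hP : ∀ a, P a → B ≤ Q.wb b a) :
    B * ∑ a ∈ ψ.support.filter P, |ψ a| ≤ cst (Q.wb b) ψ := by
  unfold cst Finsupp.sum
  rw [Finset.mul_sum]
  refine (Finset.sum_le_sum (g := fun a => Q.wb b a * |ψ a|) ?_).trans
    (Finset.sum_le_sum_of_subset_of_nonneg (Finset.filter_subset _ _) ?_)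
  · intro a ha
    exact mul_le_mul_of_nonneg_right (hP a (Finset.mem_filter.1 ha).2) (abs_nonneg _)
  · intro a _ _
    have := one_le_wb h b a
    positivity

theorem lp05_io (c : G → Fin L) (ψ : G →₀ ℝ) (i : Fin L) :
    (io c ψ) i = ∑ a ∈ ψ.support, if c a = i then ψ a else 0 := by
  unfold io Finsupp.sum
  rw [WithLp.ofLp_sum, Finset.sum_apply]
  refine Finset.sum_congr rfl fun a _ => ?_
  simp only [PiLp.smul_apply, PiLp.single_apply, smul_eq_mul]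
  by_cases hc : c a = i
  · rw [if_pos hc, if_pos hc.symm, mul_one]
  · rw [if_neg hc, if_neg (fun e => hc e.symm), mul_zero]

theorem lp05_L1 (h : Q.OK) : Q.A0 ≤ Q.A1 ∧ 1 ≤ Q.W7 := by
  have hA := (C0_le h).2
  have hW := W6_nonneg h
  have hK := h.K1
  have h7 : Q.W7 = Q.W6 + 2 * Q.A0 := rfl
  have h1 : Q.L1 = 2 * Q.K * Q.W7 := rfl
  have h2 : Q.A1 = Q.L1 * (Q.L1 * Q.A0) := rfl
  have h3 : 1 ≤ Q.W7 := by linarith
  have h4 : 1 ≤ Q.L1 := by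
    rw [h1]
    nlinarith
  refine ⟨?_, h3⟩
  rw [h2]
  have h5 : Q.A0 ≤ Q.L1 * Q.A0 := by nlinarith
  nlinarith

/-- the coordinates of X near b are close to the values of psi. -/
theorem lp05_coord (h : Q.OK) {p : EU L × EU M} {b : G} {ψ : G →₀ ℝ}
    (hψ : cst (Q.wb b) ψ + Q.E * ‖p.1 - io Q.c ψ‖ < 1.01 * Q.A0) {a : G}
    (ha : Q.d a b ≤ Q.r8 + Q.r2 + Q.rm) : |p.1 (Q.c a) - ψ a| ≤ 0.33 * Q.tau := by
  classical
  have hA := (C0_le h).2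
  have hA1 := (lp05_L1 h).1
  have hW7 := (lp05_L1 h).2
  have hK := h.K1
  have hE := h.E1
  have hE2 := h.hE2
  have hτ := h.tau_pos
  have hc0 : 0 ≤ cst (Q.wb b) ψ :=
    cst_nonneg (fun a => zero_le_one.trans (one_le_wb h b a)) ψ
  have hn0 := norm_nonneg (p.1 - io Q.c ψ)
  have h1 : ‖p.1 - io Q.c ψ‖ ≤ 0.2525 * Q.tau := by
    have h2 : Q.E * ‖p.1 - io Q.c ψ‖ ≤ Q.E * (0.2525 * Q.tau) := by
      linarith
    exact le_of_mul_le_mul_left h2 (by linarith)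
  have h2 : |p.1 (Q.c a) - (io Q.c ψ) (Q.c a)| ≤ ‖p.1 - io Q.c ψ‖ := by
    have := PiLp.norm_apply_le (p.1 - io Q.c ψ) (Q.c a)
    rw [Real.norm_eq_abs, PiLp.sub_apply] at this
    exact this
  have h3 : |(io Q.c ψ) (Q.c a) - ψ a| ≤
      ∑ x ∈ ψ.support.filter (fun x => Q.c x = Q.c a ∧ x ≠ a), |ψ x| := by
    have h4 : (io Q.c ψ) (Q.c a) - ψ a =
        ∑ x ∈ ψ.support.filter (fun x => Q.c x = Q.c a ∧ x ≠ a), ψ x := by
      rw [lp05_io, Finset.sum_filter]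
      have h5 : ψ a = ∑ x ∈ ψ.support, if x = a then ψ x else 0 := by
        rw [Finset.sum_ite_eq']
        split_ifs with h6
        · rfl
        · exact Finsupp.notMem_support_iff.1 h6
      rw [h5, ← Finset.sum_sub_distrib]
      refine Finset.sum_congr rfl fun x _ => ?_
      by_cases hx : x = a
      · rw [if_pos hx, if_pos (by rw [hx]), if_neg (fun hh => hh.2 hx), sub_self]
      · rw [if_neg hx, sub_zero]
        by_cases hx2 : Q.c x = Q.c a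
        · rw [if_pos hx2, if_pos ⟨hx2, hx⟩]
        · rw [if_neg hx2, if_neg (fun hh => hx2 hh.1)]
    rw [h4]
    exact Finset.abs_sum_le_sum_abs _ _
  have h4 := lp05_far h (b := b) (ψ := ψ) (fun x => Q.c x = Q.c a ∧ x ≠ a) (B := Q.bt Q.rE) (by
    rintro x ⟨hx1, hx2⟩
    rw [lp05_wb]
    apply lp05_bt_mono h
    by_contra hlt
    push Not at hlt
    apply hx2
    apply h.inj x a _ hx1
    have h5 := h.hd.tri x b a
    have h6 := h.hd.symm b a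
    omega)
  have h5 : 16 * Q.A0 ≤ Q.tau * Q.bt Q.rE := by
    have h6 := h.hrE
    have h7 : 4 * Q.E ≤ Q.bt Q.rE := by
      have h8 : 1 ≤ Q.K * Q.W7 := by nlinarith
      nlinarith
    nlinarith
  have h6 : ∑ x ∈ ψ.support.filter (fun x => Q.c x = Q.c a ∧ x ≠ a), |ψ x| ≤ 0.07 * Q.tau := by
    have h7 : Q.bt Q.rE * ∑ x ∈ ψ.support.filter (fun x => Q.c x = Q.c a ∧ x ≠ a), |ψ x| ≤
        Q.bt Q.rE * (0.07 * Q.tau) := by
      have h8 := mul_nonneg (by linarith : 0 ≤ Q.E) hn0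
      linarith
    exact le_of_mul_le_mul_left h7 (lp05_bt_pos Q _)
  have h7 : |p.1 (Q.c a) - ψ a| ≤ |p.1 (Q.c a) - (io Q.c ψ) (Q.c a)| +
      |(io Q.c ψ) (Q.c a) - ψ a| := abs_sub_le _ _ _
  linarith

theorem lp05_mm_nonneg (Q : VD G M L) (p : EU L × EU M) (a : G) : 0 ≤ Q.mm p a := by
  unfold VD.mm
  exact mul_nonneg (k_nonneg Q _ _ _) (pow_nonneg (le_max_left _ _) 3)

theorem lp05_mm (h : Q.OK) {p : EU L × EU M} {a : G} (ha : Q.mm p a ≠ 0) :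
    Q.o a p.2 ≤ 2 * Q.W8 ∧ Q.tau < p.1 (Q.c a) := by
  unfold VD.mm at ha
  constructor
  · by_contra hlt
    push Not at hlt
    apply ha
    rw [k_eq_zero Q (W_pos h).2.1 hlt.le, zero_mul]
  · by_contra hlt
    push Not at hlt
    apply ha
    rw [max_eq_left (by linarith), zero_pow three_ne_zero, mul_zero]

theorem mm_supp (h : Q.OK) {p : EU L × EU M} {b : G} (hb : Gd Q p b) {a : G} (ha : Q.mm p a ≠ 0) :
    Q.d a b ≤ Q.r2 := by
  classical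
  have hA := (C0_le h).2
  obtain ⟨h1, h2⟩ := lp05_mm h ha
  have h3 : Q.d a b ≤ Q.r8 := by
    apply lp05_bt_le h
    have h4 := lp05_wbo h hb.1 h1 (Gd.o h hb)
    have h5 := h.hr8
    linarith
  obtain ⟨ψ, hψ1, hψ⟩ := lp05_psi h hb
  have h4 := lp05_coord h hψ (a := a) (by omega)
  have h5 := (abs_le.1 h4).2
  have hτ := h.tau_pos
  have h6 : 0.67 * Q.tau ≤ ψ a := by linarith
  have h7 : Q.wb b a * ψ a ≤ cst (Q.wb b) ψ := by
    have h8 := lp05_far h (b := b) (ψ := ψ) (fun x => x = a) (B := Q.wb b a) (by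
      rintro x rfl
      exact le_rfl)
    refine le_trans ?_ h8
    apply mul_le_mul_of_nonneg_left _ (zero_le_one.trans (one_le_wb h b a))
    have h9 : a ∈ ψ.support.filter (fun x => x = a) := by
      rw [Finset.mem_filter]
      refine ⟨?_, rfl⟩
      rw [Finsupp.mem_support_iff]
      intro h0
      rw [h0] at h6
      linarith
    exact (le_abs_self _).trans
      (Finset.single_le_sum (f := fun x => |ψ x|) (fun x _ => abs_nonneg _) h9)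
  have hE := h.E1
  have hn0 := mul_nonneg (by linarith : 0 ≤ Q.E) (norm_nonneg (p.1 - io Q.c ψ))
  have h8 := h.hr2
  apply lp05_bt_le h
  rw [← lp05_wb]
  have hw0 : 0 < Q.wb b a := lt_of_lt_of_le one_pos (one_le_wb h b a)
  have h9 : Q.wb b a * (0.67 * Q.tau) ≤ 1.01 * Q.A0 := by
    have := mul_le_mul_of_nonneg_left h6 hw0.le
    linarith
  have h10 : Q.tau * Q.wb b a ≤ Q.tau * Q.bt Q.r2 := by
    linarith
  exact le_of_mul_le_mul_left h10 hτ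

theorem sm_lower (h : Q.OK) {p : EU L × EU M} {b : G} (hb : Gd Q p b) : Q.mu Q.rm ≤ Q.sm p := by
  classical
  have hA := (C0_le h).2
  have hE := h.E1
  have hK := h.K1
  have hτ := h.tau_pos
  obtain ⟨ψ, hψ1, hψ⟩ := lp05_psi h hb
  have hn0 := mul_nonneg (by linarith : 0 ≤ Q.E) (norm_nonneg (p.1 - io Q.c ψ))
  have h1 := lp05_far h (b := b) (ψ := ψ) (fun x => ¬ Q.d x b ≤ Q.rm) (B := Q.bt Q.rm) (by
    intro x hx
    rw [lp05_wb]
    apply lp05_bt_mono h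
    omega)
  have h2 := h.hrm
  have h3 : ∑ x ∈ ψ.support.filter (fun x => ¬ Q.d x b ≤ Q.rm), |ψ x| ≤ 0.2525 := by
    have h0 : 0 ≤ ∑ x ∈ ψ.support.filter (fun x => ¬ Q.d x b ≤ Q.rm), |ψ x| :=
      Finset.sum_nonneg fun _ _ => abs_nonneg _
    have h4 : (4 * Q.A0) * ∑ x ∈ ψ.support.filter (fun x => ¬ Q.d x b ≤ Q.rm), |ψ x| ≤
        (4 * Q.A0) * 0.2525 := by
      have := mul_le_mul_of_nonneg_right h2 h0
      linarith
    exact le_of_mul_le_mul_left h4 (by linarith)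
  have h4 : 0.7475 ≤ ∑ x ∈ ψ.support.filter (fun x => Q.d x b ≤ Q.rm), ψ x := by
    have h5 : tot ψ = ∑ x ∈ ψ.support.filter (fun x => Q.d x b ≤ Q.rm), ψ x +
        ∑ x ∈ ψ.support.filter (fun x => ¬ Q.d x b ≤ Q.rm), ψ x := by
      rw [Finset.sum_filter_add_sum_filter_not]
      rfl
    have h6 : ∑ x ∈ ψ.support.filter (fun x => ¬ Q.d x b ≤ Q.rm), ψ x ≤
        ∑ x ∈ ψ.support.filter (fun x => ¬ Q.d x b ≤ Q.rm), |ψ x| :=
      Finset.sum_le_sum fun x _ => le_abs_self _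
    rw [hψ1] at h5
    linarith
  have hN := nb_pos h Q.rm
  -- the cardinality of the ball
  have hcard : ((ψ.support.filter (fun x => Q.d x b ≤ Q.rm)).card : ℝ) ≤ Q.nb 1 Q.rm := by
    unfold VD.nb
    have h5 : (ψ.support.filter (fun x => Q.d x b ≤ Q.rm)).card ≤
        ((lp05_fin h Q.rm).toFinset.image (fun x => b * x)).card := by
      apply Finset.card_le_card
      intro x hx
      rw [Finset.mem_image]
      refine ⟨b⁻¹ * x, ?_, by group⟩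
      rw [Set.Finite.mem_toFinset, Set.mem_setOf_eq]
      have h6 := (Finset.mem_filter.1 hx).2
      have h7 := h.hd.inv b⁻¹ b x
      rw [inv_mul_cancel] at h7
      rw [h7, h.hd.symm]
      exact h6
    have h6 := h5.trans Finset.card_image_le
    rw [← Set.ncard_eq_toFinset_card _ (lp05_fin h Q.rm)] at h6
    exact_mod_cast h6
  obtain ⟨N, hNe⟩ : ∃ N : ℝ, N = Q.nb 1 Q.rm := ⟨_, rfl⟩
  rw [← hNe] at hN hcard
  obtain ⟨a, ha, haψ⟩ : ∃ a ∈ ψ.support.filter (fun x => Q.d x b ≤ Q.rm), 0.74 / N ≤ ψ a := by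
    by_contra hcon
    push Not at hcon
    have h5 : ∑ x ∈ ψ.support.filter (fun x => Q.d x b ≤ Q.rm), ψ x ≤
        (ψ.support.filter (fun x => Q.d x b ≤ Q.rm)).card • (0.74 / N) :=
      Finset.sum_le_card_nsmul _ _ _ fun x hx => (hcon x hx).le
    rw [nsmul_eq_mul] at h5
    have h6 : ((ψ.support.filter (fun x => Q.d x b ≤ Q.rm)).card : ℝ) * (0.74 / N) ≤
        N * (0.74 / N) := mul_le_mul_of_nonneg_right hcard (by positivity)
    have h7 : N * (0.74 / N) = 0.74 := by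
      field_simp
    rw [h7] at h6
    linarith
  have hda : Q.d a b ≤ Q.rm := (Finset.mem_filter.1 ha).2
  have h5 := lp05_coord h hψ (a := a) (by omega)
  have h6 := (abs_le.1 h5).1
  have hτN := h.htau
  rw [← hNe] at hτN
  have h7 : 1 / (4 * N) ≤ p.1 (Q.c a) - Q.tau := by
    have h8 : 0.74 / N - 1.33 * Q.tau ≤ p.1 (Q.c a) - Q.tau := by linarith
    refine le_trans ?_ h8
    have hN0 : 0 < N := by linarith
    have h9 : Q.tau ≤ 1 / (16 * N) := by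
      rw [le_div_iff₀ (by positivity)]
      linarith
    have h10 : 1 / (4 * N) = 0.25 * (1 / N) := by
      field_simp
      norm_num
    have h11 : 1 / (16 * N) = 0.0625 * (1 / N) := by
      field_simp
      norm_num
    have h12 : 0.74 / N = 0.74 * (1 / N) := by ring
    have h13 : 0 < 1 / N := by positivity
    rw [h10, h12]
    rw [h11] at h9
    linarith
  have hW7 := (lp05_L1 h).2
  have h8 : Q.o a p.2 ≤ Q.W8 := by
    have h9 := om_two (h.ball a) hb.1 (h.ball b)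
    have h10 := h.up a b
    rw [lp05_wb] at h10
    have h11 : Q.bt (Q.d a b) ≤ Q.bt Q.r2 := lp05_bt_mono h (hda.trans h.rm2)
    have h12 : om (Q.f b) p.2 ≤ Q.W7 := Gd.o h hb
    have h13 := om_pos (h.ball b) hb.1
    have h14 := om_pos (h.ball a) (h.ball b)
    have h15 : om (Q.f a) (Q.f b) ≤ Q.K * Q.bt Q.r2 :=
      h10.trans (mul_le_mul_of_nonneg_left h11 (by linarith))
    have h16 : om (Q.f a) (Q.f b) * om (Q.f b) p.2 ≤ (Q.K * Q.bt Q.r2) * Q.W7 :=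
      mul_le_mul h15 h12 h13.le (h14.le.trans h15)
    have h17 := h.hW8
    have h18 : Q.o a p.2 = om (Q.f a) p.2 := rfl
    rw [h18]
    linarith
  have hW8 := (W_pos h).2.1
  have h9 : Q.k Q.W8 p.2 a = 1 := by
    unfold VD.k
    apply cl_eq_one
    have : Q.o a p.2 / Q.W8 ≤ 1 := by
      rw [div_le_one hW8]
      exact h8
    linarith
  have h10 : Q.mu Q.rm ≤ Q.mm p a := by
    unfold VD.mu VD.mm
    rw [h9, one_mul, ← hNe]
    apply pow_le_pow_left₀ (by positivity)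
    exact h7.trans (le_max_right _ _)
  refine h10.trans ?_
  unfold VD.sm
  apply Finset.single_le_sum (f := fun a => Q.mm p a) (fun x _ => lp05_mm_nonneg Q p x)
  rw [mem_near h hb.1]
  linarith

theorem near_inj (h : Q.OK) {p : EU L × EU M} {b : G} (hb : Gd Q p b) {a a' : G}
    (ha : Q.o a p.2 ≤ 2 * Q.Wc) (ha' : Q.o a' p.2 ≤ 2 * Q.Wc) (hc : Q.c a = Q.c a') : a = a' := by
  have h1 : Q.d a b ≤ Q.rc := by
    apply lp05_bt_le h
    have h4 := lp05_wbo h hb.1 ha (Gd.o h hb)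
    have h5 := h.hrc
    linarith
  have h2 : Q.d a' b ≤ Q.rc := by
    apply lp05_bt_le h
    have h4 := lp05_wbo h hb.1 ha' (Gd.o h hb)
    have h5 := h.hrc
    linarith
  apply h.inj a a' _ hc
  have h3 := h.hd.tri a b a'
  have h4 := h.hd.symm b a'
  omega

end Pool.HQ.LP
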