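import Pool.Agent.HQ.V11
import Pool.Agent.HQ.LP05
import Pool.Agent.HQ.E31

/-!
MODULE GA02 (problem MP_7936f4_al, part III, G-side, helper68): the orthogonal cocycle and the invariance of J.
-/

namespace Pool.HQ.GA

open Pool.HQ
open scoped Pointwise Matrix

variable {G : Type} [Group G] {M L : ℕ}

/-- The properties of the cocycle A which are used. -/
structure CocA (Q : VD G M L) (A : G → (G →₀ ℝ) → Matrix (Fin L) (Fin L) ℝ) (CA : ℝ) : Prop where
  CA0 : 0 ≤ CA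
  orth : ∀ g, ∀ x ∈ Loc Q.d (2 * Q.r2), (A g x)ᵀ * A g x = 1
  coc : ∀ g h, ∀ x ∈ Loc Q.d (2 * Q.r2), A (g * h) x = A g (pact h x) * A h x
  lip : ∀ g, ∀ x ∈ Loc Q.d (2 * Q.r2), ∀ y ∈ Loc Q.d (2 * Q.r2), ∀ i j,
    |A g x i j - A g y i j| ≤ CA * d1 x y
  near : ∀ g, ∀ x ∈ Loc Q.d (2 * Q.r2), ∀ a, (∃ b ∈ x.support, Q.d a b ≤ Q.rE + 2 * Q.r2) →
    (A g x).mulVec (Pi.single (Q.c a) 1) = Pi.single (Q.c (g * a)) 1

/-- matrix times vector -/
noncomputable def mv {L : ℕ} (B : Matrix (Fin L) (Fin L) ℝ) (X : EU L) : EU L :=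
  WithLp.toLp 2 (B.mulVec X.ofLp)

theorem mv_sub (B : Matrix (Fin L) (Fin L) ℝ) (X Y : EU L) : mv B (X - Y) = mv B X - mv B Y := by
  unfold mv
  rw [WithLp.ofLp_sub, Matrix.mulVec_sub, WithLp.toLp_sub]

theorem mv_add (B : Matrix (Fin L) (Fin L) ℝ) (X Y : EU L) : mv B (X + Y) = mv B X + mv B Y := by
  unfold mv
  rw [WithLp.ofLp_add, Matrix.mulVec_add, WithLp.toLp_add]

theorem mv_smul (B : Matrix (Fin L) (Fin L) ℝ) (t : ℝ) (X : EU L) : mv B (t • X) = t • mv B X := by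
  unfold mv
  rw [WithLp.ofLp_smul, Matrix.mulVec_smul, WithLp.toLp_smul]

theorem mv_zero (B : Matrix (Fin L) (Fin L) ℝ) : mv B 0 = 0 := by
  unfold mv
  rw [WithLp.ofLp_zero, Matrix.mulVec_zero, WithLp.toLp_zero]

theorem mv_mv (B C : Matrix (Fin L) (Fin L) ℝ) (X : EU L) : mv B (mv C X) = mv (B * C) X := by
  unfold mv
  rw [Matrix.mulVec_mulVec]

theorem mv_one (X : EU L) : mv (1 : Matrix (Fin L) (Fin L) ℝ) X = X := by
  unfold mv
  rw [Matrix.one_mulVec]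

theorem mv_single {B : Matrix (Fin L) (Fin L) ℝ} {i j : Fin L}
    (h : B.mulVec (Pi.single i 1) = Pi.single j 1) :
    mv B (EuclideanSpace.single i (1 : ℝ)) = EuclideanSpace.single j (1 : ℝ) := by
  unfold mv
  have : (EuclideanSpace.single i (1 : ℝ) : EU L).ofLp = Pi.single i 1 := rfl
  rw [this, h]
  rfl

theorem mv_inner (B : Matrix (Fin L) (Fin L) ℝ) (hB : Bᵀ * B = 1) (X Y : EU L) :
    inner ℝ (mv B X) (mv B Y) = inner ℝ X Y := by
  have e : ∀ U V : EU L, inner ℝ U V = U.ofLp ⬝ᵥ V.ofLp := by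
    intro U V
    rw [EuclideanSpace.inner_eq_star_dotProduct, star_trivial, dotProduct_comm]
  rw [e, e]
  unfold mv
  simp only
  rw [Matrix.dotProduct_mulVec, Matrix.vecMul_mulVec, ← Matrix.mulVec_transpose]
  rw [Matrix.transpose_mul, Matrix.transpose_transpose, hB, Matrix.one_mulVec]

theorem mv_norm (B : Matrix (Fin L) (Fin L) ℝ) (hB : Bᵀ * B = 1) (X : EU L) : ‖mv B X‖ = ‖X‖ := by
  have h := mv_inner B hB X X
  rw [real_inner_self_eq_norm_sq, real_inner_self_eq_norm_sq] at h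
  exact (pow_left_inj₀ (norm_nonneg _) (norm_nonneg _) two_ne_zero).1 h

/-! ### the action on measures -/

theorem pact_sum {β : Type} [AddCommMonoid β] (g : G) (ψ : G →₀ ℝ) (F : G → ℝ → β) :
    (pact g ψ).sum F = ψ.sum (fun a t => F (g * a) t) := by
  unfold pact
  rw [Finsupp.sum_equivMapDomain]
  rfl

theorem tot_pact (g : G) (ψ : G →₀ ℝ) : tot (pact g ψ) = tot ψ := by
  unfold tot; rw [pact_sum]

theorem cst_pact (w : G → ℝ) (g : G) (ψ : G →₀ ℝ) :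
    cst w (pact g ψ) = cst (fun a => w (g * a)) ψ := by
  unfold cst; rw [pact_sum]

theorem wb_mul (Q : VD G M L) (h : Q.OK) (g b a : G) : Q.wb (g * b) (g * a) = Q.wb b a := by
  unfold VD.wb wG
  rw [h.hd.inv]

theorem cst_wb_pact (Q : VD G M L) (h : Q.OK) (g b : G) (ψ : G →₀ ℝ) :
    cst (Q.wb (g * b)) (pact g ψ) = cst (Q.wb b) ψ := by
  rw [cst_pact]
  congr 1
  funext a
  exact wb_mul Q h g b a

theorem mem_pact_support {g : G} {ψ : G →₀ ℝ} {a : G} :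
    a ∈ (pact g ψ).support ↔ g⁻¹ * a ∈ ψ.support := by
  rw [Finsupp.mem_support_iff, Finsupp.mem_support_iff, pact_apply]
  rfl

theorem mul_mem_pact_support {g : G} {ψ : G →₀ ℝ} {a : G} :
    g * a ∈ (pact g ψ).support ↔ a ∈ ψ.support := by
  rw [mem_pact_support, inv_mul_cancel_left]

variable {Q : VD G M L} {A : G → (G →₀ ℝ) → Matrix (Fin L) (Fin L) ℝ} {CA : ℝ}

theorem CocA.one (hA : CocA Q A CA) {x : G →₀ ℝ} (hx : x ∈ Loc Q.d (2 * Q.r2)) : A 1 x = 1 := by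
  have h1 := hA.coc 1 1 x hx
  rw [one_mul, pact_one] at h1
  have h2 := hA.orth 1 x hx
  calc A 1 x = 1 * A 1 x := (one_mul _).symm
    _ = ((A 1 x)ᵀ * A 1 x) * A 1 x := by rw [h2]
    _ = (A 1 x)ᵀ * (A 1 x * A 1 x) := by rw [mul_assoc]
    _ = (A 1 x)ᵀ * A 1 x := by rw [← h1]
    _ = 1 := h2

theorem CocA.inv (hA : CocA Q A CA) (g : G) {x : G →₀ ℝ} (hx : x ∈ Loc Q.d (2 * Q.r2)) :
    A g⁻¹ (pact g x) * A g x = 1 := by
  rw [← hA.coc g⁻¹ g x hx, inv_mul_cancel, hA.one hx]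

theorem CocA.io (hA : CocA Q A CA) (g : G) {x : G →₀ ℝ} (hx : x ∈ Loc Q.d (2 * Q.r2))
    {ψ : G →₀ ℝ} (hψ : ∀ a ∈ ψ.support, ∃ b ∈ x.support, Q.d a b ≤ Q.rE + 2 * Q.r2) :
    mv (A g x) (io Q.c ψ) = io Q.c (pact g ψ) := by
  unfold Pool.HQ.io
  rw [pact_sum]
  have hlin : ∀ s : Finset G, mv (A g x) (∑ a ∈ s, ψ a • EuclideanSpace.single (Q.c a) (1 : ℝ)) =
      ∑ a ∈ s, ψ a • mv (A g x) (EuclideanSpace.single (Q.c a) (1 : ℝ)) := by
    intro s
    classical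
    induction s using Finset.induction_on with
    | empty => simp [mv_zero]
    | insert a s ha ih =>
      rw [Finset.sum_insert ha, Finset.sum_insert ha, mv_add, mv_smul, ih]
  rw [Finsupp.sum, hlin, Finsupp.sum]
  apply Finset.sum_congr rfl
  intro a ha
  rw [mv_single (hA.near g x hx a (hψ a ha))]

theorem J_le (h : Q.OK) (hA : CocA Q A CA) (g : G) {x : G →₀ ℝ} (hx : x ∈ Loc Q.d (2 * Q.r2))
    {b : G} (hb : ∃ a ∈ x.support, Q.d b a ≤ Q.r2) (X : EU L) :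
    Q.J (g * b) (mv (A g x) X) ≤ Q.J b X := by
  obtain ⟨ψ, h1, h2, h3⟩ := v_opt_J h b X
  obtain ⟨a0, ha0, hb0⟩ := hb
  have hio := hA.io g hx (ψ := ψ) (fun a ha => ⟨a0, ha0, by
    have := h.hd.tri a b a0
    have := h2 a ha
    omega⟩)
  have h4 := v_J_le h (g * b) (mv (A g x) X) (ψ := pact g ψ) (by rw [tot_pact]; exact h1)
  rw [cst_wb_pact Q h, ← hio, ← mv_sub, mv_norm _ (hA.orth g x hx), h3] at h4
  exact h4

theorem J_eq (h : Q.OK) (hA : CocA Q A CA) (g : G) {x : G →₀ ℝ} (hx : x ∈ Loc Q.d (2 * Q.r2))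
    {b : G} (hb : ∃ a ∈ x.support, Q.d b a ≤ Q.r2) (X : EU L) :
    Q.J (g * b) (mv (A g x) X) = Q.J b X := by
  classical
  apply le_antisymm (J_le h hA g hx hb X)
  obtain ⟨a0, ha0, hb0⟩ := hb
  have h1 := J_le h hA g⁻¹ (loc_pact h.hd g hx) (b := g * b)
    ⟨g * a0, mul_mem_pact_support.2 ha0, by rw [h.hd.inv]; exact hb0⟩ (mv (A g x) X)
  rw [inv_mul_cancel_left, mv_mv, hA.inv g hx, mv_one] at h1
  exact h1

/-- near coordinates -/
theorem coord_eq (hA : CocA Q A CA) (g : G) {x : G →₀ ℝ} (hx : x ∈ Loc Q.d (2 * Q.r2))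
    {a : G} (ha : ∃ b ∈ x.support, Q.d a b ≤ Q.rE + 2 * Q.r2) (X : EU L) :
    (mv (A g x) X) (Q.c (g * a)) = X (Q.c a) := by
  have h1 := mv_inner (A g x) (hA.orth g x hx) (EuclideanSpace.single (Q.c a) (1 : ℝ)) X
  rw [mv_single (hA.near g x hx a ha)] at h1
  simpa [EuclideanSpace.inner_single_left] using h1

/-- Lipschitz dependence on x -/
theorem mv_lip (hA : CocA Q A CA) (g : G) {x y : G →₀ ℝ} (hx : x ∈ Loc Q.d (2 * Q.r2))
    (hy : y ∈ Loc Q.d (2 * Q.r2)) (X : EU L) :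
    ‖mv (A g x) X - mv (A g y) X‖ ≤ (L : ℝ) * L * CA * d1 x y * ‖X‖ := by
  have hCA := hA.CA0
  have hd := d1_nonneg x y
  have hcoord : ∀ i, |(mv (A g x) X - mv (A g y) X) i| ≤ L * (CA * d1 x y * ‖X‖) := by
    intro i
    have e : (mv (A g x) X - mv (A g y) X) i = ∑ j, (A g x i j - A g y i j) * X j := by
      unfold mv
      simp [Matrix.mulVec, dotProduct, ← Finset.sum_sub_distrib, sub_mul]
    rw [e]
    refine (Finset.abs_sum_le_sum_abs _ _).trans ?_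
    calc ∑ j, |(A g x i j - A g y i j) * X j| ≤ ∑ _j : Fin L, CA * d1 x y * ‖X‖ := by
          apply Finset.sum_le_sum
          intro j _
          rw [abs_mul]
          have hXj : |X j| ≤ ‖X‖ := by
            have := EuclideanSpace.norm_eq X
            rw [← Real.norm_eq_abs]
            exact PiLp.norm_apply_le X j
          exact mul_le_mul (hA.lip g x hx y hy i j) hXj (abs_nonneg _) (by positivity)
      _ = L * (CA * d1 x y * ‖X‖) := by
          rw [Finset.sum_const, Finset.card_univ, Fintype.card_fin, nsmul_eq_mul]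
  have h1 : ‖mv (A g x) X - mv (A g y) X‖ ≤ ∑ i, |(mv (A g x) X - mv (A g y) X) i| := by
    set Z := mv (A g x) X - mv (A g y) X with hZ
    have e : Z = ∑ i, Z i • (EuclideanSpace.single i (1 : ℝ) : EU L) := by
      ext j
      simp [Finset.sum_apply, Pi.single_apply]
    calc ‖Z‖ = ‖∑ i, Z i • (EuclideanSpace.single i (1 : ℝ) : EU L)‖ := by rw [← e]
      _ ≤ ∑ i, ‖Z i • (EuclideanSpace.single i (1 : ℝ) : EU L)‖ := norm_sum_le _ _
      _ = ∑ i, |Z i| := by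
        apply Finset.sum_congr rfl
        intro i _
        rw [norm_smul, Real.norm_eq_abs, PiLp.norm_single, norm_one, mul_one]
  refine h1.trans ?_
  calc ∑ i, |(mv (A g x) X - mv (A g y) X) i| ≤ ∑ _i : Fin L, L * (CA * d1 x y * ‖X‖) :=
        Finset.sum_le_sum fun i _ => hcoord i
    _ = (L : ℝ) * L * CA * d1 x y * ‖X‖ := by
        rw [Finset.sum_const, Finset.card_univ, Fintype.card_fin, nsmul_eq_mul]; ring

end Pool.HQ.GA
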