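import Pool.Agent.HQ.GA02

/-!
MODULE GA03 (problem MP_7936f4_al, part III, G-side, helper68): second moment of the location measures and
the distance of f (g b) from fb (pact g (x p)).

MOMENT: sum_a x_a w_a^2 ≤ A0^3/mu (w = wb b): x_a = mm_a / sm, mm_a ≤ |psi_a|^3, w_a |psi_a| ≤ A0, sum |psi| ≤ A0.
KHM: |fb y - f b| ≤ 2 K^2 m2 D_b, D(fb y) ≥ sum y_a D_a ≥ (D_b/(4K^2)) sum y_a/w_a^2 ≥ D_b/(4 K^2 m2).
-/

namespace Pool.HQ.GA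

open Pool.HQ
open scoped Pointwise Matrix

variable {G : Type} [Group G] {M L : ℕ} {Q : VD G M L}

theorem moment (h : Q.OK) {p : EU L × EU M} {b : G} (hb : Q.At p b) :
    cst (fun a => Q.wb b a ^ 2) (Q.x p) ≤ Q.A0 ^ 3 / Q.mu Q.rm := by
  obtain ⟨ψ, hψ⟩ := v_exists_OptJ h p b
  have hwb : ∀ a, 0 ≤ Q.wb b a := fun a => zero_le_one.trans (v_one_le_wb h b a)
  have hE : 0 ≤ Q.E := zero_le_one.trans h.E1
  have hcA : cst (Q.wb b) ψ ≤ Q.A0 := by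
    have h1 : 0 ≤ Q.E * ‖p.1 - io Q.c ψ‖ := mul_nonneg hE (norm_nonneg _)
    have h2 := hψ.opt
    have := hb.J
    linarith
  obtain ⟨hsm, hs⟩ := v_sm_pos h hb
  obtain ⟨hmu, -⟩ := v_mu_pos h Q.rm
  have key : ∀ a, Q.wb b a ^ 2 * |Q.x p a| ≤ (Q.A0 ^ 2 / Q.mu Q.rm) * |ψ a| := by
    intro a
    have h1 : |Q.x p a| = Q.mm p a / Q.sm p := by
      rw [v_x_apply h hb.z, abs_of_nonneg (div_nonneg (v_mm_nonneg Q p a) hs.le)]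
    have h3 := v_mm_le h hb hψ a
    have h4 : Q.wb b a * |ψ a| ≤ Q.A0 := (v10_term h b ψ a).trans hcA
    have h5 : 0 ≤ Q.wb b a * |ψ a| := mul_nonneg (hwb a) (abs_nonneg _)
    have h6 : (Q.wb b a * |ψ a|) ^ 2 ≤ Q.A0 ^ 2 := pow_le_pow_left₀ h5 h4 2
    have h7 : Q.wb b a ^ 2 * Q.mm p a ≤ Q.A0 ^ 2 * |ψ a| := by
      calc Q.wb b a ^ 2 * Q.mm p a ≤ Q.wb b a ^ 2 * |ψ a| ^ 3 :=
            mul_le_mul_of_nonneg_left h3 (sq_nonneg _)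
        _ = (Q.wb b a * |ψ a|) ^ 2 * |ψ a| := by ring
        _ ≤ Q.A0 ^ 2 * |ψ a| := mul_le_mul_of_nonneg_right h6 (abs_nonneg _)
    rw [h1, ← mul_div_assoc]
    calc Q.wb b a ^ 2 * Q.mm p a / Q.sm p ≤ Q.A0 ^ 2 * |ψ a| / Q.mu Q.rm := by
          apply div_le_div₀ (by positivity) h7 hmu hsm
      _ = _ := by ring
  have hsum : ∑ a ∈ (Q.x p).support, |ψ a| ≤ Q.A0 := by
    classical
    refine le_trans ?_ hcA
    rw [v_cst_eq (Q.wb b) ψ (ψ.support ∪ (Q.x p).support) Finset.subset_union_left]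
    refine le_trans (Finset.sum_le_sum fun a _ => ?_)
      (Finset.sum_le_sum_of_subset_of_nonneg Finset.subset_union_right fun i _ _ => ?_)
    · exact le_mul_of_one_le_left (abs_nonneg _) (v_one_le_wb h b a)
    · exact mul_nonneg (hwb i) (abs_nonneg _)
  have hA0 : 0 ≤ Q.A0 := v10_A0_nonneg h
  calc cst (fun a => Q.wb b a ^ 2) (Q.x p) = ∑ a ∈ (Q.x p).support, Q.wb b a ^ 2 * |Q.x p a| :=
        v_cst_eq _ _ _ subset_rfl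
    _ ≤ ∑ a ∈ (Q.x p).support, (Q.A0 ^ 2 / Q.mu Q.rm) * |ψ a| := Finset.sum_le_sum fun a _ => key a
    _ = (Q.A0 ^ 2 / Q.mu Q.rm) * ∑ a ∈ (Q.x p).support, |ψ a| := by rw [Finset.mul_sum]
    _ ≤ (Q.A0 ^ 2 / Q.mu Q.rm) * Q.A0 := mul_le_mul_of_nonneg_left hsum (by positivity)
    _ = _ := by ring

theorem cst_wb2_pact (h : Q.OK) (g b : G) (ψ : G →₀ ℝ) :
    cst (fun a => Q.wb (g * b) a ^ 2) (pact g ψ) = cst (fun a => Q.wb b a ^ 2) ψ := by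
  rw [cst_pact]
  congr 1
  funext a
  rw [wb_mul Q h]

/-- D(fb y) is at least the mean of the D(f a). -/
theorem fb_D_mean (h : Q.OK) {y : G →₀ ℝ} (h0 : ∀ a, 0 ≤ y a) (h1 : tot y = 1) :
    ∑ a ∈ y.support, y a * (1 - ‖Q.f a‖ ^ 2) ≤ 1 - ‖Q.fb y‖ ^ 2 := by
  have hs : ∑ a ∈ y.support, y a = 1 := by
    have := h1
    unfold tot at this
    rwa [Finsupp.sum] at this
  have hn : ‖Q.fb y‖ ≤ ∑ a ∈ y.support, y a * ‖Q.f a‖ := by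
    unfold VD.fb
    rw [Finsupp.sum]
    refine (norm_sum_le _ _).trans (le_of_eq ?_)
    apply Finset.sum_congr rfl
    intro a _
    rw [norm_smul, Real.norm_eq_abs, abs_of_nonneg (h0 a)]
  have hj : (∑ a ∈ y.support, y a * ‖Q.f a‖) ^ 2 ≤ ∑ a ∈ y.support, y a * ‖Q.f a‖ ^ 2 := by
    have hcs := Finset.sum_mul_sq_le_sq_mul_sq y.support (fun a => Real.sqrt (y a))
      (fun a => Real.sqrt (y a) * ‖Q.f a‖)
    have e1 : ∑ a ∈ y.support, Real.sqrt (y a) * (Real.sqrt (y a) * ‖Q.f a‖) =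
        ∑ a ∈ y.support, y a * ‖Q.f a‖ := by
      apply Finset.sum_congr rfl
      intro a _
      rw [← mul_assoc, Real.mul_self_sqrt (h0 a)]
    have e2 : ∑ a ∈ y.support, Real.sqrt (y a) ^ 2 = 1 := by
      rw [← hs]
      apply Finset.sum_congr rfl
      intro a _
      rw [Real.sq_sqrt (h0 a)]
    have e3 : ∑ a ∈ y.support, (Real.sqrt (y a) * ‖Q.f a‖) ^ 2 =
        ∑ a ∈ y.support, y a * ‖Q.f a‖ ^ 2 := by
      apply Finset.sum_congr rfl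
      intro a _
      rw [mul_pow, Real.sq_sqrt (h0 a)]
    rw [e1, e2, e3, one_mul] at hcs
    exact hcs
  have e4 : ∑ a ∈ y.support, y a * (1 - ‖Q.f a‖ ^ 2) = 1 - ∑ a ∈ y.support, y a * ‖Q.f a‖ ^ 2 := by
    have e5 : ∑ a ∈ y.support, y a * (1 - ‖Q.f a‖ ^ 2) =
        ∑ a ∈ y.support, y a - ∑ a ∈ y.support, y a * ‖Q.f a‖ ^ 2 := by
      rw [← Finset.sum_sub_distrib]
      apply Finset.sum_congr rfl
      intro a _
      ring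
    rw [e5, hs]
  rw [e4]
  have h2 : ‖Q.fb y‖ ^ 2 ≤ (∑ a ∈ y.support, y a * ‖Q.f a‖) ^ 2 :=
    pow_le_pow_left₀ (norm_nonneg _) hn 2
  linarith

/-- Distance of f b from the barycentre fb y, in terms of the second moment. -/
theorem Kh_gen (h : Q.OK) {y : G →₀ ℝ} (h0 : ∀ a, 0 ≤ y a) (h1 : tot y = 1) (b : G) {m : ℝ}
    (hm : cst (fun a => Q.wb b a ^ 2) y ≤ m) :
    ‖Q.fb y‖ < 1 ∧ om (Q.f b) (Q.fb y) ^ 2 ≤ 1 + (2 * Q.K ^ 2 * m) ^ 2 * (4 * Q.K ^ 2 * m) := by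
  have hK := h.K1
  have hnorm := v_fb_norm h h0 h1
  refine ⟨hnorm, ?_⟩
  have hDb : 0 < 1 - ‖Q.f b‖ ^ 2 := Dz_pos (h.ball b)
  have hDy : 0 < 1 - ‖Q.fb y‖ ^ 2 := Dz_pos hnorm
  have hs : ∑ a ∈ y.support, y a = 1 := by
    have := h1
    unfold tot at this
    rwa [Finsupp.sum] at this
  have hcst : ∑ a ∈ y.support, Q.wb b a ^ 2 * y a ≤ m := by
    refine le_trans (le_of_eq ?_) hm
    rw [v_cst_eq _ y _ subset_rfl]
    apply Finset.sum_congr rfl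
    intro a _
    rw [abs_of_nonneg (h0 a)]
  have hw1 : ∀ a, 1 ≤ Q.wb b a := fun a => v_one_le_wb h b a
  have hm1 : 1 ≤ m := by
    refine le_trans ?_ hcst
    rw [← hs]
    apply Finset.sum_le_sum
    intro a _
    have : 1 ≤ Q.wb b a ^ 2 := one_le_pow₀ (hw1 a)
    exact le_mul_of_one_le_left (h0 a) this
  have hm0 : 0 < m := by linarith
  -- (1)
  have e1 : ‖Q.fb y - Q.f b‖ ≤ 2 * Q.K ^ 2 * m * (1 - ‖Q.f b‖ ^ 2) := by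
    refine (v_fb_sub Q h1 b).trans ?_
    calc ∑ a ∈ y.support, |y a| * ‖Q.f a - Q.f b‖
        ≤ ∑ a ∈ y.support, (2 * Q.K ^ 2 * (1 - ‖Q.f b‖ ^ 2)) * (Q.wb b a ^ 2 * y a) := by
          apply Finset.sum_le_sum
          intro a _
          have h3 : ‖Q.f a - Q.f b‖ ≤ 2 * (Q.K * Q.wb b a) ^ 2 * (1 - ‖Q.f b‖ ^ 2) := by
            refine (v_dist_le (h.ball a) (h.ball b)).trans ?_
            have := pow_le_pow_left₀ (zero_le_one.trans (one_le_om (h.ball a) (h.ball b)))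
              (h.up a b) 2
            exact mul_le_mul_of_nonneg_right (by linarith) hDb.le
          rw [abs_of_nonneg (h0 a)]
          calc y a * ‖Q.f a - Q.f b‖ ≤ y a * (2 * (Q.K * Q.wb b a) ^ 2 * (1 - ‖Q.f b‖ ^ 2)) :=
                mul_le_mul_of_nonneg_left h3 (h0 a)
            _ = _ := by ring
      _ = (2 * Q.K ^ 2 * (1 - ‖Q.f b‖ ^ 2)) * ∑ a ∈ y.support, Q.wb b a ^ 2 * y a := by
          rw [Finset.mul_sum]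
      _ ≤ (2 * Q.K ^ 2 * (1 - ‖Q.f b‖ ^ 2)) * m := mul_le_mul_of_nonneg_left hcst (by positivity)
      _ = _ := by ring
  -- (2)
  have e2 : 1 - ‖Q.f b‖ ^ 2 ≤ 4 * Q.K ^ 2 * m * (1 - ‖Q.fb y‖ ^ 2) := by
    have h2 := fb_D_mean h h0 h1
    have h3 : ∀ a, (1 - ‖Q.f b‖ ^ 2) * (2 / m - Q.wb b a ^ 2 / m ^ 2) ≤
        4 * Q.K ^ 2 * (1 - ‖Q.f a‖ ^ 2) := by
      intro a
      have hDa : 0 < 1 - ‖Q.f a‖ ^ 2 := Dz_pos (h.ball a)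
      have h4 := v_D_ratio (h.ball b) (h.ball a)
      have h5 : om (Q.f b) (Q.f a) ^ 2 ≤ (Q.K * Q.wb b a) ^ 2 := by
        rw [om_symm]
        exact pow_le_pow_left₀ (zero_le_one.trans (one_le_om (h.ball a) (h.ball b))) (h.up a b) 2
      have h6 : 1 - ‖Q.f b‖ ^ 2 ≤ 4 * (Q.K * Q.wb b a) ^ 2 * (1 - ‖Q.f a‖ ^ 2) :=
        h4.trans (mul_le_mul_of_nonneg_right (by linarith) hDa.le)
      have hw : 0 < Q.wb b a ^ 2 := by have := hw1 a; positivity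
      -- 2/m - w/m^2 ≤ 1/w
      have h7 : 2 / m - Q.wb b a ^ 2 / m ^ 2 ≤ 1 / Q.wb b a ^ 2 := by
        rw [div_sub_div _ _ hm0.ne' (by positivity), div_le_div_iff₀ (by positivity) hw]
        nlinarith [mul_nonneg hm0.le (sq_nonneg (m - Q.wb b a ^ 2))]
      calc (1 - ‖Q.f b‖ ^ 2) * (2 / m - Q.wb b a ^ 2 / m ^ 2)
          ≤ (1 - ‖Q.f b‖ ^ 2) * (1 / Q.wb b a ^ 2) := mul_le_mul_of_nonneg_left h7 hDb.le
        _ ≤ (4 * (Q.K * Q.wb b a) ^ 2 * (1 - ‖Q.f a‖ ^ 2)) * (1 / Q.wb b a ^ 2) :=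
            mul_le_mul_of_nonneg_right h6 (by positivity)
        _ = 4 * Q.K ^ 2 * (1 - ‖Q.f a‖ ^ 2) * (Q.wb b a ^ 2 * (1 / Q.wb b a ^ 2)) := by ring
        _ = 4 * Q.K ^ 2 * (1 - ‖Q.f a‖ ^ 2) := by
            rw [mul_one_div_cancel hw.ne', mul_one]
    have h8 : (1 - ‖Q.f b‖ ^ 2) * (1 / m) ≤ 4 * Q.K ^ 2 * (1 - ‖Q.fb y‖ ^ 2) := by
      calc (1 - ‖Q.f b‖ ^ 2) * (1 / m)
          ≤ (1 - ‖Q.f b‖ ^ 2) * (2 / m - (∑ a ∈ y.support, Q.wb b a ^ 2 * y a) / m ^ 2) := by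
            apply mul_le_mul_of_nonneg_left _ hDb.le
            have : (∑ a ∈ y.support, Q.wb b a ^ 2 * y a) / m ^ 2 ≤ 1 / m := by
              rw [div_le_div_iff₀ (by positivity) hm0]
              nlinarith
            have e : 2 / m = 1 / m + 1 / m := by ring
            linarith
        _ = ∑ a ∈ y.support, y a * ((1 - ‖Q.f b‖ ^ 2) * (2 / m - Q.wb b a ^ 2 / m ^ 2)) := by
            have e : ∀ a, y a * ((1 - ‖Q.f b‖ ^ 2) * (2 / m - Q.wb b a ^ 2 / m ^ 2)) =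
                ((1 - ‖Q.f b‖ ^ 2) * (2 / m)) * y a -
                ((1 - ‖Q.f b‖ ^ 2) / m ^ 2) * (Q.wb b a ^ 2 * y a) := fun a => by ring
            rw [Finset.sum_congr rfl fun a _ => e a, Finset.sum_sub_distrib, ← Finset.mul_sum,
              ← Finset.mul_sum, hs]
            ring
        _ ≤ ∑ a ∈ y.support, y a * (4 * Q.K ^ 2 * (1 - ‖Q.f a‖ ^ 2)) :=
            Finset.sum_le_sum fun a _ => mul_le_mul_of_nonneg_left (h3 a) (h0 a)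
        _ = 4 * Q.K ^ 2 * ∑ a ∈ y.support, y a * (1 - ‖Q.f a‖ ^ 2) := by
            rw [Finset.mul_sum]
            apply Finset.sum_congr rfl
            intro a _
            ring
        _ ≤ _ := mul_le_mul_of_nonneg_left h2 (by positivity)
    have h9 : (1 - ‖Q.f b‖ ^ 2) = ((1 - ‖Q.f b‖ ^ 2) * (1 / m)) * m := by field_simp
    rw [h9]
    calc (1 - ‖Q.f b‖ ^ 2) * (1 / m) * m ≤ 4 * Q.K ^ 2 * (1 - ‖Q.fb y‖ ^ 2) * m :=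
          mul_le_mul_of_nonneg_right h8 hm0.le
      _ = _ := by ring
  -- (3)
  have e3 : om (Q.f b) (Q.fb y) ^ 2 = 1 + ‖Q.f b - Q.fb y‖ ^ 2 /
      ((1 - ‖Q.f b‖ ^ 2) * (1 - ‖Q.fb y‖ ^ 2)) := by
    unfold om
    rw [Real.sq_sqrt]
    · rfl
    · unfold qd
      have : 0 ≤ ‖Q.f b - Q.fb y‖ ^ 2 / ((1 - ‖Q.f b‖ ^ 2) * (1 - ‖Q.fb y‖ ^ 2)) := by positivity
      linarith
  rw [e3]
  have e4 : ‖Q.f b - Q.fb y‖ ^ 2 / ((1 - ‖Q.f b‖ ^ 2) * (1 - ‖Q.fb y‖ ^ 2)) ≤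
      (2 * Q.K ^ 2 * m) ^ 2 * (4 * Q.K ^ 2 * m) := by
    rw [div_le_iff₀ (mul_pos hDb hDy), norm_sub_rev]
    calc ‖Q.fb y - Q.f b‖ ^ 2 ≤ (2 * Q.K ^ 2 * m * (1 - ‖Q.f b‖ ^ 2)) ^ 2 :=
          pow_le_pow_left₀ (norm_nonneg _) e1 2
      _ = (2 * Q.K ^ 2 * m) ^ 2 * (1 - ‖Q.f b‖ ^ 2) * (1 - ‖Q.f b‖ ^ 2) := by ring
      _ ≤ (2 * Q.K ^ 2 * m) ^ 2 * (1 - ‖Q.f b‖ ^ 2) * (4 * Q.K ^ 2 * m * (1 - ‖Q.fb y‖ ^ 2)) :=
          mul_le_mul_of_nonneg_left e2 (by positivity)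
      _ = _ := by ring
  linarith

theorem Kh_le (h : Q.OK) {y : G →₀ ℝ} (h0 : ∀ a, 0 ≤ y a) (h1 : tot y = 1) (b : G)
    (hm : cst (fun a => Q.wb b a ^ 2) y ≤ Q.A0 ^ 3 / Q.mu Q.rm) :
    om (Q.f b) (Q.fb y) ≤ Q.Khm := by
  obtain ⟨h2, h3⟩ := Kh_gen h h0 h1 b hm
  have hK := h.K1
  obtain ⟨hmu, -⟩ := v_mu_pos h Q.rm
  have hA0 : 0 ≤ Q.A0 := v10_A0_nonneg h
  unfold VD.Khm VD.Kh
  apply Real.le_sqrt_of_sq_le
  refine h3.trans ?_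
  have hbt := v_one_le_bt h Q.rm
  have hbt2 : 1 ≤ Q.bt Q.rm ^ 2 := one_le_pow₀ hbt
  have e : 1 + (2 * Q.K ^ 2 * (Q.A0 ^ 3 / Q.mu Q.rm)) ^ 2 * (4 * Q.K ^ 2 * (Q.A0 ^ 3 / Q.mu Q.rm)) =
      1 + (2 * Q.K ^ 2 * Q.A0 ^ 3 / Q.mu Q.rm) ^ 2 * (Q.A0 ^ 3 / Q.mu Q.rm) * (4 * Q.K ^ 2 * 1) := by
    ring
  rw [e]
  have h4 : (2 * Q.K ^ 2 * Q.A0 ^ 3 / Q.mu Q.rm) ^ 2 * (Q.A0 ^ 3 / Q.mu Q.rm) * (4 * Q.K ^ 2 * 1) ≤
      (2 * Q.K ^ 2 * Q.A0 ^ 3 / Q.mu Q.rm) ^ 2 * (Q.A0 ^ 3 / Q.mu Q.rm) *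
        (4 * Q.K ^ 2 * Q.bt Q.rm ^ 2) := by
    apply mul_le_mul_of_nonneg_left _ (by positivity)
    apply mul_le_mul_of_nonneg_left hbt2 (by positivity)
  linarith

/-- facts about the translated location measure -/
theorem pact_loc (h : Q.OK) {p : EU L × EU M} {b : G} (hb : Q.At p b) (g : G) :
    (∀ a, 0 ≤ pact g (Q.x p) a) ∧ tot (pact g (Q.x p)) = 1 ∧ ‖Q.fb (pact g (Q.x p))‖ < 1 ∧
      om (Q.f (g * b)) (Q.fb (pact g (Q.x p))) ≤ Q.Khm := by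
  have h0 : ∀ a, 0 ≤ pact g (Q.x p) a := fun a => by
    rw [pact_apply]; exact v_x_nonneg h hb _
  have h1 : tot (pact g (Q.x p)) = 1 := by rw [tot_pact]; exact v_x_tot h hb
  refine ⟨h0, h1, v_fb_norm h h0 h1, ?_⟩
  apply Kh_le h h0 h1
  rw [cst_wb2_pact h]
  exact moment h hb

end Pool.HQ.GA
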