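import Pool.Agent.HQ.LP05

/-!
MP_7936f4_al, full question.  Part III, LIPSCHITZ BLOCK (helper87), module LP06: mm, sm and the location x.

* mm p a ≠ 0 implies k W8 z a ≠ 0 implies o a z < 2 W8 (k_eq_zero), so a ∈ near z (2 W8) (mem_near).
* x_apply: value of the sum of the singles at a; for a not in near both sides are 0.
* sm_eq: both sums contain the support.
* LLU_mm: with m = max 0 (X(c a) - tau) ∈ [0, A0], m' for q: |m - m'| ≤ |X - X'| ≤ t (|X i| ≤ |X|),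
  |mm p a - mm q a| ≤ |k - k'| m^3 + k' |m^3 - m'^3| ≤ 90 t A0^3 + 3 A0^2 t.
* LL_sm, LB_sm: LL.of_family with R = r2 (SB from mm_supp).
* x: LLU.div with m = mu rm (sm_lower), LL1.of_family.
* tot_x: tot (x p) = (sum of mm)/sm = 1, sm > 0.
-/

namespace Pool.HQ.LP

variable {G : Type} [Group G] {M L : ℕ} {Q : VD G M L}

theorem mm_nonneg (Q : VD G M L) (p : EU L × EU M) (a : G) : 0 ≤ Q.mm p a := by
  unfold VD.mm
  exact mul_nonneg (k_nonneg Q _ _ _) (pow_nonneg (le_max_left _ _) 3)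

theorem mm_near (h : Q.OK) {p : EU L × EU M} (hp : ‖p.2‖ < 1) {a : G} (ha : Q.mm p a ≠ 0) :
    a ∈ Q.near p.2 (2 * Q.W8) := by
  rw [mem_near h hp]
  by_contra hcon
  push Not at hcon
  apply ha
  unfold VD.mm
  rw [k_eq_zero Q (W_pos h).2.1 hcon.le, zero_mul]

theorem x_apply (h : Q.OK) {p : EU L × EU M} (hp : ‖p.2‖ < 1) (a : G) :
    Q.x p a = Q.mm p a / Q.sm p := by
  classical
  unfold VD.x
  rw [Finsupp.finsetSum_apply]
  simp only [Finsupp.single_apply]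
  rw [Finset.sum_ite_eq']
  split_ifs with h1
  · rfl
  · have h2 : Q.mm p a = 0 := by
      by_contra hne
      exact h1 (mm_near h hp hne)
    rw [h2, zero_div]

theorem sm_eq (h : Q.OK) {p : EU L × EU M} (hp : ‖p.2‖ < 1) (s : Finset G)
    (hs : ∀ a, Q.mm p a ≠ 0 → a ∈ s) : Q.sm p = ∑ a ∈ s, Q.mm p a := by
  classical
  unfold VD.sm
  have h1 : ∑ a ∈ Q.near p.2 (2 * Q.W8), Q.mm p a =
      ∑ a ∈ Q.near p.2 (2 * Q.W8) ∪ s, Q.mm p a := by
    refine Finset.sum_subset Finset.subset_union_left ?_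
    intro a _ ha
    by_contra hne
    exact ha (mm_near h hp hne)
  have h2 : ∑ a ∈ s, Q.mm p a = ∑ a ∈ Q.near p.2 (2 * Q.W8) ∪ s, Q.mm p a := by
    refine Finset.sum_subset Finset.subset_union_right ?_
    intro a _ ha
    by_contra hne
    exact ha (hs a hne)
  rw [h1, h2]

theorem sm_pos (h : Q.OK) {p : EU L × EU M} {b : G} (hb : Gd Q p b) : 0 < Q.sm p :=
  lt_of_lt_of_le (mu_pos h Q.rm) (sm_lower h hb)

/-- a coordinate is bounded by the norm. -/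
private theorem abs_coord_le {n : ℕ} (X : EU n) (i : Fin n) : |X i| ≤ ‖X‖ := by
  have h1 : ‖X i‖ ≤ ‖X‖ := PiLp.norm_apply_le X i
  rwa [Real.norm_eq_abs] at h1

private theorem m_bounds {n : ℕ} {X : EU n} {A tau : ℝ} (hX : ‖X‖ ≤ A) (htau : 0 < tau)
    (i : Fin n) : 0 ≤ max 0 (X i - tau) ∧ max 0 (X i - tau) ≤ A := by
  refine ⟨le_max_left _ _, max_le ((norm_nonneg X).trans hX) ?_⟩
  have h1 := abs_coord_le X i
  have h2 := le_abs_self (X i)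
  linarith

private theorem m_close {n : ℕ} {X Y : EU n} {t : ℝ} (hXY : ‖X - Y‖ ≤ t) (tau : ℝ)
    (i : Fin n) : |max 0 (X i - tau) - max 0 (Y i - tau)| ≤ t := by
  have h1 := abs_max_sub_max_le_max 0 (X i - tau) 0 (Y i - tau)
  have h2 : X i - tau - (Y i - tau) = (X - Y) i := by
    rw [PiLp.sub_apply]
    ring
  have h3 := abs_coord_le (X - Y) i
  rw [sub_zero, abs_zero, h2] at h1
  refine h1.trans (max_le ((norm_nonneg _).trans hXY) (h3.trans hXY))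

private theorem cube_aux {k k' m m' A t : ℝ} (hk' : 0 ≤ k') (hk1 : k' ≤ 1) (hkk : |k - k'| ≤ 90 * t)
    (hm : 0 ≤ m) (hmA : m ≤ A) (hm' : 0 ≤ m') (hmA' : m' ≤ A) (hmm : |m - m'| ≤ t) (ht : 0 ≤ t) :
    |k * m ^ 3 - k' * m' ^ 3| ≤ (90 * A ^ 3 + 3 * A ^ 2) * t := by
  have hA : 0 ≤ A := hm.trans hmA
  have e : k * m ^ 3 - k' * m' ^ 3 = (k - k') * m ^ 3 + k' * ((m - m') * (m ^ 2 + m * m' + m' ^ 2)) := by
    ring
  have h1 : |(k - k') * m ^ 3| ≤ 90 * t * A ^ 3 := by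
    rw [abs_mul, abs_of_nonneg (pow_nonneg hm 3)]
    exact mul_le_mul hkk (pow_le_pow_left₀ hm hmA 3) (pow_nonneg hm 3) (by positivity)
  have h2 : m ^ 2 + m * m' + m' ^ 2 ≤ 3 * A ^ 2 := by
    have h3 : m ^ 2 ≤ A ^ 2 := pow_le_pow_left₀ hm hmA 2
    have h4 : m' ^ 2 ≤ A ^ 2 := pow_le_pow_left₀ hm' hmA' 2
    have h5 : m * m' ≤ A * A := mul_le_mul hmA hmA' hm' hA
    nlinarith
  have h6 : 0 ≤ m ^ 2 + m * m' + m' ^ 2 := by positivity
  have h7 : |k' * ((m - m') * (m ^ 2 + m * m' + m' ^ 2))| ≤ 1 * (t * (3 * A ^ 2)) := by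
    rw [abs_mul, abs_mul, abs_of_nonneg hk', abs_of_nonneg h6]
    exact mul_le_mul hk1 (mul_le_mul hmm h2 h6 ht) (by positivity) zero_le_one
  rw [e]
  refine (abs_add_le _ _).trans ?_
  linarith

theorem LLU_mm (h : Q.OK) : LLU Q (fun a p => Q.mm p a) := by
  have hA := (C0_le h).2
  refine ⟨90 * Q.A0 ^ 3 + 3 * Q.A0 ^ 2, by positivity, ?_⟩
  intro t p q b hpr a
  obtain ⟨h1, h2⟩ := m_bounds (Gd.X h hpr.gp) h.tau_pos (Q.c a)
  obtain ⟨h3, h4⟩ := m_bounds (Gd.X h hpr.gq) h.tau_pos (Q.c a)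
  exact cube_aux (k_nonneg Q _ _ _) (k_le_one Q _ _ _) (k_close Q h.ball hpr.cs (W_pos h).2.1 a)
    h1 h2 h3 h4 (m_close hpr.cs.dX Q.tau (Q.c a)) hpr.cs.t0

theorem LBU_mm (h : Q.OK) : LBU Q (fun a p => Q.mm p a) := by
  have hA := (C0_le h).2
  refine ⟨Q.A0 ^ 3, by positivity, ?_⟩
  intro p b hb a
  obtain ⟨h1, h2⟩ := m_bounds (Gd.X h hb) h.tau_pos (Q.c a)
  change |Q.mm p a| ≤ Q.A0 ^ 3
  rw [abs_of_nonneg (mm_nonneg Q p a)]
  unfold VD.mm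
  have h3 := pow_le_pow_left₀ h1 h2 3
  have h4 := mul_le_mul (k_le_one Q Q.W8 p.2 a) h3 (pow_nonneg h1 3) zero_le_one
  rwa [one_mul] at h4

theorem SB_mm (h : Q.OK) : SB Q Q.r2 (fun a p => Q.mm p a) := by
  intro p b hb a ha
  exact mm_supp h hb ha

theorem LL_sm (h : Q.OK) : LL Q Q.sm :=
  LL.of_family h.hd (LLU_mm h) (SB_mm h) fun _ _ hb s hs => sm_eq h hb.1 s hs

theorem LB_sm (h : Q.OK) : LB Q Q.sm :=
  LB.of_family h.hd (LBU_mm h) (SB_mm h) fun _ _ hb s hs => sm_eq h hb.1 s hs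

private theorem SB_xx (h : Q.OK) : SB Q Q.r2 (fun a p => Q.mm p a / Q.sm p) := by
  intro p b hb a ha
  refine mm_supp h hb ?_
  intro h0
  apply ha
  change Q.mm p a / Q.sm p = 0
  rw [h0, zero_div]

theorem LL1_x (h : Q.OK) : LL1 Q Q.x :=
  LL1.of_family h.hd
    (LLU.div (LLU_mm h) (LBU_mm h) (LL_sm h) (mu_pos h Q.rm) fun _ _ hb => sm_lower h hb)
    (SB_xx h) fun _ _ hb a => x_apply h hb.1 a

theorem LB1_x (h : Q.OK) : LB1 Q Q.x :=
  LB1.of_family h.hd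
    (LBU.div (LBU_mm h) (mu_pos h Q.rm) fun _ _ hb => sm_lower h hb)
    (SB_xx h) fun _ _ hb a => x_apply h hb.1 a

theorem x_nonneg (h : Q.OK) {p : EU L × EU M} {b : G} (hb : Gd Q p b) (a : G) : 0 ≤ Q.x p a := by
  rw [x_apply h hb.1 a]
  exact div_nonneg (mm_nonneg Q p a) (sm_pos h hb).le

theorem tot_x (h : Q.OK) {p : EU L × EU M} {b : G} (hb : Gd Q p b) : tot (Q.x p) = 1 := by
  have h1 : (Q.x p).support ⊆ Q.near p.2 (2 * Q.W8) := by
    intro a ha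
    rw [Finsupp.mem_support_iff, x_apply h hb.1 a] at ha
    refine mm_near h hb.1 ?_
    intro h0
    apply ha
    rw [h0, zero_div]
  have h2 : tot (Q.x p) = ∑ a ∈ Q.near p.2 (2 * Q.W8), Q.x p a := by
    unfold tot
    exact Finsupp.sum_of_support_subset _ h1 _ (fun _ _ => rfl)
  rw [h2]
  have h3 : ∑ a ∈ Q.near p.2 (2 * Q.W8), Q.x p a = Q.sm p / Q.sm p := by
    have h4 : Q.sm p = ∑ a ∈ Q.near p.2 (2 * Q.W8), Q.mm p a := rfl
    calc ∑ a ∈ Q.near p.2 (2 * Q.W8), Q.x p a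
        = ∑ a ∈ Q.near p.2 (2 * Q.W8), Q.mm p a / Q.sm p :=
          Finset.sum_congr rfl fun a _ => x_apply h hb.1 a
      _ = (∑ a ∈ Q.near p.2 (2 * Q.W8), Q.mm p a) / Q.sm p := (Finset.sum_div _ _ _).symm
      _ = Q.sm p / Q.sm p := by rw [← h4]
  rw [h3]
  exact div_self (sm_pos h hb).ne'

theorem x_supp (h : Q.OK) {p : EU L × EU M} {b : G} (hb : Gd Q p b) {a : G} (ha : Q.x p a ≠ 0) :
    Q.d a b ≤ Q.r2 := by
  refine mm_supp h hb ?_
  intro h0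
  apply ha
  rw [x_apply h hb.1 a, h0, zero_div]

end Pool.HQ.LP
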