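import Pool.Agent.HQ.GA01
import Pool.Agent.HQ.GA03
import Pool.Agent.HQ.LP06

/-!
MODULE GA04 (problem MP_7936f4_al, part III, G-side, helper68): the action on the set Psi ≤ 1: equivariance of
the location x(p), invariance of JG and Psi, group law.
-/

namespace Pool.HQ.GA

open Pool.HQ
open scoped Pointwise Matrix

variable {G : Type} [Group G] {M L : ℕ} {Q : VD G M L}
  {A : G → (G →₀ ℝ) → Matrix (Fin L) (Fin L) ℝ} {CA : ℝ}

/-- the set Psi ≤ 1 -/
structure Sp (Q : VD G M L) (p : EU L × EU M) : Prop where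
  z : ‖p.2‖ < 1
  J : Q.JG p ≤ Q.C1
  W : om (Q.fh p) p.2 ≤ Q.W5

theorem C1_pos (h : Q.OK) : 0 < Q.C1 := by
  have h1 := h.C0a
  have h2 := h.C1b
  linarith

theorem W5_pos (h : Q.OK) : 0 < Q.W5 := by
  have := h.W5a
  linarith

theorem cl_one {s : ℝ} (h : 1 ≤ s) : cl s = 1 := by
  unfold cl
  rw [min_eq_left h, max_eq_right zero_le_one]

theorem Psi_eq (h : Q.OK) {p : EU L × EU M} (hJ : Q.JG p ≤ Q.C1) :
    Q.Psi p = max (Q.JG p / Q.C1) (om (Q.fh p) p.2 / Q.W5) := by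
  have hC := C1_pos h
  unfold VD.Psi
  rw [cl_one, one_mul]
  have h1 : Q.JG p / Q.C1 ≤ 1 := by rw [div_le_one hC]; exact hJ
  rw [le_div_iff₀ (by norm_num)]
  linarith

theorem Sp_iff (h : Q.OK) {p : EU L × EU M} : Sp Q p ↔ ‖p.2‖ < 1 ∧ Q.Psi p ≤ 1 := by
  have hC := C1_pos h
  have hW := W5_pos h
  constructor
  · intro hp
    refine ⟨hp.z, ?_⟩
    rw [Psi_eq h hp.J]
    apply max_le
    · rw [div_le_one hC]; exact hp.J
    · rw [div_le_one hW]; exact hp.W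
  · rintro ⟨hz, hP⟩
    have h1 : Q.JG p / Q.C1 ≤ 1 := (le_max_left _ _).trans hP
    have hJ : Q.JG p ≤ Q.C1 := by rwa [div_le_one hC] at h1
    rw [Psi_eq h hJ] at hP
    have h2 := (le_max_right _ _).trans hP
    exact ⟨hz, hJ, by rwa [div_le_one hW] at h2⟩

theorem Sp.exists_at (h : Q.OK) {p : EU L × EU M} (hp : Sp Q p) :
    ∃ b, Q.At p b ∧ Q.JG p = Q.Jp b p := by
  obtain ⟨b, hb⟩ := v_exists_JG h hp.z
  refine ⟨b, v_at_of_Jp h hp.z ?_, hb⟩
  rw [← hb]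
  have h1 := hp.J
  have h2 := C1_pos h
  unfold VD.A0
  linarith

theorem Khm_nonneg (h : Q.OK) : 0 ≤ Q.Khm := Real.sqrt_nonneg _

theorem KW_le (h : Q.OK) : 2 * Q.Khm * Q.W5 ≤ Q.W6 := by
  have h1 := h.hW6
  have h2 := h.K1
  have h3 := v_one_le_bt h Q.r0
  have h4 := Khm_nonneg h
  have h5 := W5_pos h
  have h6 : 0 ≤ Q.Khm * Q.W5 := by positivity
  have h7 : 1 ≤ Q.K * Q.bt Q.r0 := one_le_mul_of_one_le_of_one_le h2 h3
  have h8 : 1 * (Q.Khm * Q.W5) ≤ (Q.K * Q.bt Q.r0) * (Q.Khm * Q.W5) :=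
    mul_le_mul_of_nonneg_right h7 h6
  linarith

theorem W67 (h : Q.OK) : Q.W6 ≤ Q.W7 := by
  have := v10_A0_nonneg h
  unfold VD.W7
  linarith

theorem act_fst (g : G) (p : EU L × EU M) : (Q.act A g p).1 = mv (A g (Q.x p)) p.1 := rfl

theorem act_snd (g : G) (p : EU L × EU M) : (Q.act A g p).2 =
    VD.bc Q.W5 (Q.fb (pact g (Q.x p))) +
     (VD.br Q.W5 (Q.fb (pact g (Q.x p))) / VD.br Q.W5 (Q.fh p)) • (p.2 - VD.bc Q.W5 (Q.fh p)) := rfl

theorem act_ball (h : Q.OK) {p : EU L × EU M} (hp : Sp Q p) (g : G) :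
    ‖(Q.act A g p).2‖ < 1 ∧ om (Q.fb (pact g (Q.x p))) (Q.act A g p).2 ≤ Q.W5 ∧
      (om (Q.fh p) p.2 = Q.W5 → om (Q.fb (pact g (Q.x p))) (Q.act A g p).2 = Q.W5) := by
  obtain ⟨b, hb, -⟩ := hp.exists_at h
  have hW : 1 < Q.W5 := by have := h.W5a; linarith
  obtain ⟨-, -, hyg, -⟩ := pact_loc h hb g
  have hy : ‖Q.fh p‖ < 1 := v_fb_norm h (v_x_nonneg h hb) (v_x_tot h hb)
  have h1 := (ball_iff hW hy p.2).2 ⟨hp.z, hp.W⟩
  have hr := br_pos hW hy
  have hrg := br_pos hW hyg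
  have e : ‖(Q.act A g p).2 - VD.bc Q.W5 (Q.fb (pact g (Q.x p)))‖ =
      VD.br Q.W5 (Q.fb (pact g (Q.x p))) / VD.br Q.W5 (Q.fh p) * ‖p.2 - VD.bc Q.W5 (Q.fh p)‖ := by
    rw [act_snd, add_sub_cancel_left, norm_smul, Real.norm_eq_abs, abs_of_pos (div_pos hrg hr)]
  have h2 : ‖(Q.act A g p).2 - VD.bc Q.W5 (Q.fb (pact g (Q.x p)))‖ ≤
      VD.br Q.W5 (Q.fb (pact g (Q.x p))) := by
    rw [e]
    calc _ ≤ VD.br Q.W5 (Q.fb (pact g (Q.x p))) / VD.br Q.W5 (Q.fh p) * VD.br Q.W5 (Q.fh p) :=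
          mul_le_mul_of_nonneg_left h1 (div_pos hrg hr).le
      _ = _ := by field_simp
  obtain ⟨h3, h4⟩ := (ball_iff hW hyg _).1 h2
  refine ⟨h3, h4, fun h5 => ?_⟩
  rw [← ball_eq hW hyg h3, e, (ball_eq hW hy hp.z).2 h5]
  field_simp

theorem act_at (h : Q.OK) (hA : CocA Q A CA) {p : EU L × EU M} (hp : Sp Q p) (g : G) {b : G}
    (hb : Q.At p b) : Q.At (Q.act A g p) (g * b) ∧ Q.Jp (g * b) (Q.act A g p) = Q.J b p.1 := by
  obtain ⟨h1, h2, -⟩ := act_ball (A := A) h hp g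
  obtain ⟨-, htot, hyg, hK⟩ := pact_loc h hb g
  have hx := v_x_loc h hb
  -- an element of the support
  have hne : (Q.x p).support.Nonempty := by
    by_contra hcon
    rw [Finset.not_nonempty_iff_eq_empty, Finsupp.support_eq_empty] at hcon
    have := v_x_tot h hb
    rw [hcon] at this
    unfold tot at this
    rw [Finsupp.sum_zero_index] at this
    norm_num at this
  obtain ⟨a0, ha0⟩ := hne
  have hd : Q.d b a0 ≤ Q.r2 := by
    rw [h.hd.symm]
    exact (v_x_supp h hb ha0).1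
  have hJ := J_eq h hA g hx (b := b) ⟨a0, ha0, hd⟩ p.1
  have ho : Q.o (g * b) (Q.act A g p).2 ≤ Q.W6 := by
    have h3 := v_om_tri (h.ball (g * b)) hyg h1
    have h4 := Khm_nonneg h
    have h5 := om_pos hyg h1
    have h6 := om_pos (h.ball (g * b)) hyg
    refine h3.trans (le_trans ?_ (KW_le h))
    calc 2 * om (Q.f (g * b)) (Q.fb (pact g (Q.x p))) * om (Q.fb (pact g (Q.x p))) (Q.act A g p).2
        ≤ 2 * Q.Khm * Q.W5 := mul_le_mul (by linarith) h2 h5.le (by positivity)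
      _ = _ := rfl
  refine ⟨⟨h1, ho.trans (W67 h), ?_⟩, ?_⟩
  · rw [act_fst, hJ]; exact hb.J
  · unfold VD.Jp
    rw [act_fst, hJ, max_eq_left (by linarith), add_zero]

theorem act_mm (h : Q.OK) (hA : CocA Q A CA) {p : EU L × EU M} (hp : Sp Q p) (g a : G) :
    Q.mm (Q.act A g p) (g * a) = Q.mm p a := by
  obtain ⟨b, hb, -⟩ := hp.exists_at h
  have hb' := (act_at h hA hp g hb).1
  have hx := v_x_loc h hb
  have hne : (Q.x p).support.Nonempty := by
    by_contra hcon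
    rw [Finset.not_nonempty_iff_eq_empty, Finsupp.support_eq_empty] at hcon
    have := v_x_tot h hb
    rw [hcon] at this
    unfold tot at this
    rw [Finsupp.sum_zero_index] at this
    norm_num at this
  obtain ⟨a0, ha0⟩ := hne
  have hW8 := v11_W8_pos h
  have hd0 := (v_x_supp h hb ha0).1
  by_cases hd : Q.d a b ≤ Q.r2
  · have hd' : Q.d (g * a) (g * b) ≤ Q.r2 := by rw [h.hd.inv]; exact hd
    have h1 := v10_o_le h hb.z hb.o7 hd
    have h2 := v10_o_le h hb'.z hb'.o7 hd'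
    rw [v_mm_eq h hb (a := a) (by linarith), v_mm_eq h hb' (a := g * a) (by linarith)]
    rw [act_fst, coord_eq hA g hx ⟨a0, ha0, by
      have h3 := h.hd.tri a b a0
      rw [h.hd.symm b a0] at h3
      omega⟩]
  · have h1 : Q.mm p a = 0 := by
      by_contra hcon
      exact hd (v_mm_supp h hb hcon).1
    have h2 : Q.mm (Q.act A g p) (g * a) = 0 := by
      by_contra hcon
      have := (v_mm_supp h hb' hcon).1
      rw [h.hd.inv] at this
      exact hd this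
    rw [h1, h2]

theorem act_x (h : Q.OK) (hA : CocA Q A CA) {p : EU L × EU M} (hp : Sp Q p) (g : G) :
    Q.x (Q.act A g p) = pact g (Q.x p) := by
  classical
  obtain ⟨b, hb, -⟩ := hp.exists_at h
  have hb' := (act_at h hA hp g hb).1
  have hmm := act_mm h hA hp g
  have hsm : Q.sm (Q.act A g p) = Q.sm p := by
    rw [LP.sm_eq h hb.z (Q.bl b Q.r2) (fun a ha => (v_mem_bl h).2 (v_mm_supp h hb ha).1),
      LP.sm_eq h hb'.z ((Q.bl b Q.r2).image (fun a => g * a)) (fun a ha => ?_),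
      Finset.sum_image (fun a _ a' _ haa => mul_left_cancel haa)]
    · exact Finset.sum_congr rfl fun a _ => hmm a
    · rw [Finset.mem_image]
      refine ⟨g⁻¹ * a, ?_, mul_inv_cancel_left g a⟩
      rw [v_mem_bl h]
      have h1 := hmm (g⁻¹ * a)
      rw [mul_inv_cancel_left] at h1
      rw [h1] at ha
      exact (v_mm_supp h hb ha).1
  ext a
  rw [v_x_apply h hb'.z, pact_apply, v_x_apply h hb.z, hsm]
  have h1 := hmm (g⁻¹ * a)
  rw [mul_inv_cancel_left] at h1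
  rw [h1]
  rfl

theorem act_fh (h : Q.OK) (hA : CocA Q A CA) {p : EU L × EU M} (hp : Sp Q p) (g : G) :
    Q.fh (Q.act A g p) = Q.fb (pact g (Q.x p)) := by
  unfold VD.fh
  rw [act_x h hA hp g]

theorem act_JG_le (h : Q.OK) (hA : CocA Q A CA) {p : EU L × EU M} (hp : Sp Q p) (g : G) :
    Q.JG (Q.act A g p) ≤ Q.JG p := by
  obtain ⟨b, hb, hJ⟩ := hp.exists_at h
  have h1 := (act_at h hA hp g hb).2
  have h2 := v_JG_le h (Q.act A g p) (g * b)
  rw [h1] at h2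
  rw [hJ]
  exact h2.trans (v_J_le_Jp h p b)

theorem act_Sp (h : Q.OK) (hA : CocA Q A CA) {p : EU L × EU M} (hp : Sp Q p) (g : G) :
    Sp Q (Q.act A g p) := by
  obtain ⟨h1, h2, -⟩ := act_ball (A := A) h hp g
  refine ⟨h1, (act_JG_le h hA hp g).trans hp.J, ?_⟩
  rw [act_fh h hA hp]
  exact h2

theorem act_mul (h : Q.OK) (hA : CocA Q A CA) {p : EU L × EU M} (hp : Sp Q p) (g g' : G) :
    Q.act A (g * g') p = Q.act A g (Q.act A g' p) := by
  obtain ⟨b, hb, -⟩ := hp.exists_at h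
  have hx := v_x_loc h hb
  have hx' := act_x h hA hp g'
  have hfh' := act_fh h hA hp g'
  have hW : 1 < Q.W5 := by have := h.W5a; linarith
  obtain ⟨-, -, hyg, -⟩ := pact_loc h hb g'
  have hy : ‖Q.fh p‖ < 1 := v_fb_norm h (v_x_nonneg h hb) (v_x_tot h hb)
  have hr := br_pos hW hy
  have hrg := br_pos hW hyg
  apply Prod.ext
  · rw [act_fst, act_fst, act_fst, hx', mv_mv, hA.coc g g' _ hx]
  · rw [act_snd, act_snd, hfh', hx', act_snd, add_sub_cancel_left, smul_smul, ← pact_mul]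
    congr 2
    field_simp

theorem act_one (h : Q.OK) (hA : CocA Q A CA) {p : EU L × EU M} (hp : Sp Q p) :
    Q.act A 1 p = p := by
  obtain ⟨b, hb, -⟩ := hp.exists_at h
  have hx := v_x_loc h hb
  have hW : 1 < Q.W5 := by have := h.W5a; linarith
  have hy : ‖Q.fh p‖ < 1 := v_fb_norm h (v_x_nonneg h hb) (v_x_tot h hb)
  have hr := br_pos hW hy
  apply Prod.ext
  · rw [act_fst, hA.one hx, mv_one]
  · rw [act_snd, pact_one]
    have e : Q.fb (Q.x p) = Q.fh p := rfl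
    rw [e, div_self hr.ne', one_smul, add_sub_cancel]

theorem act_JG (h : Q.OK) (hA : CocA Q A CA) {p : EU L × EU M} (hp : Sp Q p) (g : G) :
    Q.JG (Q.act A g p) = Q.JG p := by
  apply le_antisymm (act_JG_le h hA hp g)
  have h1 := act_JG_le h hA (act_Sp h hA hp g) g⁻¹
  rw [← act_mul h hA hp, inv_mul_cancel, act_one h hA hp] at h1
  exact h1

theorem act_Psi (h : Q.OK) (hA : CocA Q A CA) {p : EU L × EU M} (hp : Sp Q p) (hP : Q.Psi p = 1)
    (g : G) : Q.Psi (Q.act A g p) = 1 := by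
  have hC := C1_pos h
  have hW := W5_pos h
  have hp' := act_Sp h hA hp g
  obtain ⟨-, -, h3⟩ := act_ball (A := A) h hp g
  rw [Psi_eq h hp.J] at hP
  rw [Psi_eq h hp'.J, act_JG h hA hp, act_fh h hA hp]
  have h4 : om (Q.fb (pact g (Q.x p))) (Q.act A g p).2 / Q.W5 ≤ 1 := by
    rw [div_le_one hW, ← act_fh h hA hp]
    exact hp'.W
  have h5 : Q.JG p / Q.C1 ≤ 1 := by
    rw [div_le_one hC]; exact hp.J
  rcases max_choice (Q.JG p / Q.C1) (om (Q.fh p) p.2 / Q.W5) with h6 | h6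
  · rw [h6] at hP
    rw [hP]
    exact max_eq_left h4
  · rw [h6, div_eq_one_iff_eq hW.ne'] at hP
    rw [h3 hP, div_self hW.ne']
    exact max_eq_right h5

end Pool.HQ.GA
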