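import Pool.Agent.HQ.LP11

/-!
MP_7936f4_al, full question.  Part III, LIPSCHITZ BLOCK (helper87), module LP12: final statements.

* V_zero: cut p = 0 if JG p ≥ 1.1 C1 (cl_eq_zero), so V1 p = 0, V2 p = 0.
* V_bd: if JG p ≤ 1.1 C1 ≤ 0.95 A0 (A0 = 2 C1) there is a good b (exists_good): LB_V1, V2_bd; else V = 0.
* V_lip_small: let r = rd p q, t = 2 r, Cs t p q (Cs.of_rd, r ≤ 1/400).
  If JG p ≤ 1.2 C1 ≤ 0.95 A0: exists_pair gives b with Pr Q t p q b for small t: LL_V1, V2_lip.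
  If JG p > 1.2 C1: then JG q ≥ 1.1 C1 for small t (JG_close': if JG q < 1.1 C1 then
  JG p ≤ JG q + (E + 30 (W6 + 1.1 C1)) t ≤ 1.2 C1 for t ≤ 0.1 C1/(E + 30(W6 + 1.1 C1))), so both V vanish.
* V_lip: for r ≤ η use V_lip_small.  For η < r ≤ 1/4: |V1 p - V1 q| ≤ 2 v ≤ (2v/η) r;
  |p.2 - q.2| ≤ r (1-|p.2|) ≤ (1-|p.2|)/4, so 1 - |q.2| ≤ (5/4)(1-|p.2|), and
  |V2 p - V2 q| ≤ v (1-|p.2|) + v (5/4) (1-|p.2|) ≤ 3 v (1-|p.2|) ≤ (3v/η) (1-|p.2|) r.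
* Psi_lip: Psi p ≤ 1 implies JG p / C1 ≤ 1 (le_max_left), JG p ≤ C1 ≤ 0.95 A0, so exists_pair; Psi is LL:
  LL.mx (LL_JG.divc) (LL.mul of a clamp and LL_omfh.divc).
* Psi_cont: at p with JG p ≤ 1.6 C1: for q near p there is b with Pr (exists_pair; rd p q → 0 as q → p:
  rd p q = |p.1-q.1| + |p.2-q.2|/(1-|p.2|)), so |Psi p - Psi q| ≤ 2 K rd p q.  At p with JG p > 1.6 C1: JG is
  continuous at p (JG_close, JG_close': |JG p - JG q| ≤ K_p t for q near p, e.g. JG q ≤ JG p + 1 near p), so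
  JG q > 1.55 C1 near p, there cl ((1.5 - JG q/C1)/0.4) = 0 and Psi q = max (JG q/C1) 0 = JG q/C1.
  (Use Metric.continuousOn_iff or ContinuousWithinAt, or the eventual filter formulation.)
-/

namespace Pool.HQ.LP

variable {G : Type} [Group G] {M L : ℕ} {Q : VD G M L}

theorem V_zero (h : Q.OK) {p : EU L × EU M} (hJ : 1.1 * Q.C1 ≤ Q.JG p) : Q.V1 p = 0 ∧ Q.V2 p = 0 := by
  have hC := (C0_le h).1
  have hcut : Q.cut p = 0 := by
    unfold VD.cut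
    rw [cl_eq_zero, zero_mul]
    have h1 : 1.1 ≤ Q.JG p / Q.C1 := by
      rw [le_div_iff₀ (by linarith)]
      exact hJ
    linarith
  unfold VD.V1 VD.V2
  rw [hcut]
  simp

theorem V_bd (h : Q.OK) : ∃ v : ℝ, 0 ≤ v ∧ ∀ p : EU L × EU M, ‖p.2‖ < 1 →
    ‖Q.V1 p‖ ≤ v ∧ ‖Q.V2 p‖ ≤ v * (1 - ‖p.2‖) := by
  obtain ⟨B1, hB1, h1⟩ := LB_V1 h
  obtain ⟨B2, hB2, h2⟩ := V2_bd h
  have hC := (C0_le h).1
  refine ⟨B1 + B2, by linarith, fun p hp => ?_⟩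
  have hD : 0 < 1 - ‖p.2‖ := by linarith
  rcases le_or_gt (1.1 * Q.C1) (Q.JG p) with hJ | hJ
  · obtain ⟨e1, e2⟩ := V_zero h hJ
    rw [e1, e2, norm_zero, norm_zero]
    constructor <;> positivity
  · have hA : Q.A0 = 2 * Q.C1 := rfl
    obtain ⟨b, hb⟩ := exists_good h hp (by rw [hA]; linarith)
    have h3 := h1 p b hb
    have h4 := h2 p b hb
    constructor
    · linarith
    · nlinarith

theorem V_lip_small (h : Q.OK) : ∃ K η : ℝ, 0 ≤ K ∧ 0 < η ∧ ∀ p q : EU L × EU M, ‖p.2‖ < 1 →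
    ‖q.2‖ < 1 → rd p q ≤ η →
    ‖Q.V1 p - Q.V1 q‖ ≤ K * rd p q ∧ ‖Q.V2 p - Q.V2 q‖ ≤ K * (1 - ‖p.2‖) * rd p q := by
  obtain ⟨K1, hK1, l1⟩ := LL_V1 h
  obtain ⟨K2, hK2, l2⟩ := V2_lip h
  obtain ⟨η0, hη0, he⟩ := exists_pair h
  have hC := (C0_le h).1
  have hE := h.E1
  have hW := W6_nonneg h
  have hA : Q.A0 = 2 * Q.C1 := rfl
  have hD : 0 < Q.E + 30 * (Q.W6 + 1.1 * Q.C1) := by linarith
  have hη1 : 0 < 0.05 * Q.C1 / (Q.E + 30 * (Q.W6 + 1.1 * Q.C1)) := by positivity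
  refine ⟨2 * (K1 + K2), min (1 / 400) (min (η0 / 2) (0.05 * Q.C1 / (Q.E + 30 * (Q.W6 + 1.1 * Q.C1)))),
    by linarith, lt_min (by norm_num) (lt_min (by linarith) hη1), ?_⟩
  intro p q hp hq hr
  have hr1 : rd p q ≤ 1 / 400 := hr.trans (min_le_left _ _)
  have hr2 : rd p q ≤ η0 / 2 := hr.trans ((min_le_right _ _).trans (min_le_left _ _))
  have hr3 : rd p q ≤ 0.05 * Q.C1 / (Q.E + 30 * (Q.W6 + 1.1 * Q.C1)) :=
    hr.trans ((min_le_right _ _).trans (min_le_right _ _))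
  have hcs := Cs.of_rd hp hq hr1
  have hr0 : 0 ≤ rd p q := by linarith [hcs.t0]
  have hDp : 0 < 1 - ‖p.2‖ := by linarith
  rcases le_or_gt (Q.JG p) (1.2 * Q.C1) with hJ | hJ
  · obtain ⟨b, hb⟩ := he _ p q hcs (by linarith) (by rw [hA]; linarith)
    have h1 := l1 _ p q b hb
    have h2 := l2 _ p q b hb
    have h3 : 0 ≤ K1 * rd p q := mul_nonneg hK1 hr0
    have h4 : 0 ≤ K2 * rd p q := mul_nonneg hK2 hr0
    have h5 : 0 ≤ K1 * rd p q * (1 - ‖p.2‖) := mul_nonneg h3 hDp.le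
    constructor
    · linarith
    · linarith
  · obtain ⟨e1, e2⟩ := V_zero h (p := p) (by linarith)
    have hJq : 1.1 * Q.C1 ≤ Q.JG q := by
      by_contra hlt
      rw [not_le] at hlt
      have h1 := JG_close' h hcs
      rw [le_div_iff₀ hD] at hr3
      have h2 : (Q.E + 30 * (Q.W6 + Q.JG q)) * (2 * rd p q) ≤
          (Q.E + 30 * (Q.W6 + 1.1 * Q.C1)) * (2 * rd p q) :=
        mul_le_mul_of_nonneg_right (by linarith) (by linarith)
      linarith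
    obtain ⟨e3, e4⟩ := V_zero h hJq
    rw [e1, e2, e3, e4, sub_self, sub_self, norm_zero, norm_zero]
    have h3 : 0 ≤ (K1 + K2) * rd p q := mul_nonneg (by linarith) hr0
    have h4 : 0 ≤ (K1 + K2) * rd p q * (1 - ‖p.2‖) := mul_nonneg h3 hDp.le
    constructor
    · linarith
    · linarith

/-- FINAL: the vector field is bounded and Lipschitz for the relative distance. -/
theorem V_lip (h : Q.OK) : ∃ Kc v : ℝ, 0 ≤ Kc ∧ 0 ≤ v ∧
    (∀ p : EU L × EU M, ‖p.2‖ < 1 → ‖Q.V1 p‖ ≤ v ∧ ‖Q.V2 p‖ ≤ v * (1 - ‖p.2‖)) ∧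
    ∀ p q : EU L × EU M, ‖p.2‖ < 1 → ‖q.2‖ < 1 → rd p q ≤ 1 / 4 →
      ‖Q.V1 p - Q.V1 q‖ ≤ Kc * rd p q ∧ ‖Q.V2 p - Q.V2 q‖ ≤ Kc * (1 - ‖p.2‖) * rd p q := by
  obtain ⟨K, η, hK, hη, hs⟩ := V_lip_small h
  obtain ⟨v, hv, hb⟩ := V_bd h
  refine ⟨K + 3 * v / η, v, by positivity, hv, hb, ?_⟩
  intro p q hp hq hr
  have hDp : 0 < 1 - ‖p.2‖ := by linarith
  have hr0 : 0 ≤ rd p q := by
    unfold rd
    positivity
  have hp1 : 0 ≤ K * rd p q := mul_nonneg hK hr0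
  have hp2 : 0 ≤ 3 * v / η * rd p q := mul_nonneg (by positivity) hr0
  rcases le_or_gt (rd p q) η with h1 | h1
  · obtain ⟨a1, a2⟩ := hs p q hp hq h1
    have a3 : 0 ≤ 3 * v / η * rd p q * (1 - ‖p.2‖) := mul_nonneg hp2 hDp.le
    constructor
    · linarith
    · linarith
  · have h2 : 3 * v ≤ 3 * v / η * rd p q := by
      rw [div_mul_eq_mul_div, le_div_iff₀ hη]
      exact mul_le_mul_of_nonneg_left h1.le (by positivity)
    obtain ⟨b1, b2⟩ := hb p hp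
    obtain ⟨c1, c2⟩ := hb q hq
    have h3 : ‖p.2 - q.2‖ ≤ 1 / 4 * (1 - ‖p.2‖) := by
      have h4 : ‖p.2 - q.2‖ / (1 - ‖p.2‖) ≤ rd p q := by
        unfold rd
        linarith [norm_nonneg (p.1 - q.1)]
      have h5 := h4.trans hr
      rwa [div_le_iff₀ hDp] at h5
    have h6 : 1 - ‖q.2‖ ≤ 5 / 4 * (1 - ‖p.2‖) := by
      have h7 := norm_sub_norm_le p.2 q.2
      linarith
    have h8 : v * (1 - ‖q.2‖) ≤ v * (5 / 4 * (1 - ‖p.2‖)) := mul_le_mul_of_nonneg_left h6 hv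
    have h9 : 3 * v * (1 - ‖p.2‖) ≤ 3 * v / η * rd p q * (1 - ‖p.2‖) :=
      mul_le_mul_of_nonneg_right h2 hDp.le
    have h10 : 0 ≤ K * rd p q * (1 - ‖p.2‖) := mul_nonneg hp1 hDp.le
    have h11 : 0 ≤ v * (1 - ‖p.2‖) := mul_nonneg hv hDp.le
    have n1 := norm_sub_le (Q.V1 p) (Q.V1 q)
    have n2 := norm_sub_le (Q.V2 p) (Q.V2 q)
    constructor
    · linarith
    · linarith

theorem LL_Psi (h : Q.OK) : LL Q Q.Psi := by
  have h1 : LL Q (fun p => Q.JG p / Q.C1) := (LL_JG h).divc Q.C1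
  have h2 : LL Q (fun p => cl ((1.5 - Q.JG p / Q.C1) / 0.4)) :=
    (((LL.const (1.5 : ℝ)).sub h1).divc 0.4).clamp
  have h3 : LL Q (fun p => cl ((1.5 - Q.JG p / Q.C1) / 0.4) * (om (Q.fh p) p.2 / Q.W5)) :=
    h2.mul (LB.clamp _) ((LL_omfh h).divc Q.W5) ((LB_omfh h).divc Q.W5)
  exact h1.mx h3

/-- FINAL: Psi and Ph are Lipschitz near Psi ≤ 1. -/
theorem Psi_lip (h : Q.OK) : ∃ Kc η : ℝ, 0 ≤ Kc ∧ 0 < η ∧ ∀ p q : EU L × EU M, ‖p.2‖ < 1 →
    ‖q.2‖ < 1 → Q.Psi p ≤ 1 → rd p q ≤ η →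
    |Q.Psi p - Q.Psi q| ≤ Kc * rd p q ∧ |Q.Ph p - Q.Ph q| ≤ Kc * rd p q := by
  obtain ⟨K1, hK1, l1⟩ := LL_Psi h
  obtain ⟨K2, hK2, l2⟩ := LL_Ph h
  obtain ⟨η0, hη0, he⟩ := exists_pair h
  have hC := (C0_le h).1
  have hA : Q.A0 = 2 * Q.C1 := rfl
  refine ⟨2 * (K1 + K2), min (1 / 400) (η0 / 2), by linarith, lt_min (by norm_num) (by linarith), ?_⟩
  intro p q hp hq hP hr
  have hr1 : rd p q ≤ 1 / 400 := hr.trans (min_le_left _ _)
  have hr2 : rd p q ≤ η0 / 2 := hr.trans (min_le_right _ _)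
  have hcs := Cs.of_rd hp hq hr1
  have hr0 : 0 ≤ rd p q := by linarith [hcs.t0]
  have hJ : Q.JG p ≤ Q.C1 := by
    have h1 : Q.JG p / Q.C1 ≤ 1 := (le_max_left _ _).trans hP
    rwa [div_le_one (by linarith)] at h1
  obtain ⟨b, hb⟩ := he _ p q hcs (by linarith) (by rw [hA]; linarith)
  have h1 := l1 _ p q b hb
  have h2 := l2 _ p q b hb
  rw [Real.norm_eq_abs] at h1 h2
  have h3 : 0 ≤ K1 * rd p q := mul_nonneg hK1 hr0
  have h4 : 0 ≤ K2 * rd p q := mul_nonneg hK2 hr0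
  constructor
  · linarith
  · linarith

theorem JG_near (h : Q.OK) {p q : EU L × EU M} (hp : ‖p.2‖ < 1) (hq : ‖q.2‖ < 1)
    (hr : rd p q ≤ 1 / 400) :
    |Q.JG q - Q.JG p| ≤ 62 * (Q.E + 30 * (Q.W6 + Q.JG p)) * rd p q := by
  have hcs := Cs.of_rd hp hq hr
  have hr0 : 0 ≤ rd p q := by linarith [hcs.t0]
  have h1 := JG_close h hcs
  have h2 := JG_close' h hcs
  have hE := h.E1
  have hW := W6_nonneg h
  have hJ := one_le_JG h p
  obtain ⟨A, hA⟩ : ∃ A : ℝ, A = Q.E + 30 * (Q.W6 + Q.JG p) := ⟨_, rfl⟩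
  have hA0 : 0 ≤ A := by rw [hA]; linarith
  rw [← hA] at h1 ⊢
  have h3 : 0 ≤ A * rd p q := mul_nonneg hA0 hr0
  have h4 : Q.E + 30 * (Q.W6 + Q.JG q) ≤ 31 * A := by
    have h5 : A * (2 * rd p q) ≤ A * 1 := mul_le_mul_of_nonneg_left (by linarith) hA0
    linarith
  have h5 := mul_le_mul_of_nonneg_right h4 (by linarith : 0 ≤ 2 * rd p q)
  rw [abs_le]
  constructor
  · linarith
  · linarith

theorem tendsto_rd (p : EU L × EU M) : Filter.Tendsto (fun q => rd p q) (nhds p) (nhds 0) := by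
  have h1 : Continuous (fun q : EU L × EU M => rd p q) := by
    unfold rd
    fun_prop
  have h2 := h1.tendsto p
  have h3 : rd p p = 0 := by
    unfold rd
    simp
  rwa [h3] at h2

theorem cont_of_rd {F : EU L × EU M → ℝ} {p : EU L × EU M} {K η : ℝ} (hη : 0 < η)
    (h : ∀ q : EU L × EU M, ‖q.2‖ < 1 → rd p q ≤ η → |F q - F p| ≤ K * rd p q) :
    ContinuousWithinAt F {p : EU L × EU M | ‖p.2‖ < 1} p := by
  unfold ContinuousWithinAt
  rw [tendsto_iff_dist_tendsto_zero]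
  have h1 : Filter.Tendsto (fun q => K * rd p q) (nhdsWithin p {p : EU L × EU M | ‖p.2‖ < 1})
      (nhds 0) := by
    have h2 := ((tendsto_rd p).const_mul K).mono_left
      (nhdsWithin_le_nhds (s := {p : EU L × EU M | ‖p.2‖ < 1}))
    rwa [mul_zero] at h2
  refine squeeze_zero' (Filter.Eventually.of_forall fun q => dist_nonneg) ?_ h1
  have h3 : ∀ᶠ q in nhdsWithin p {p : EU L × EU M | ‖p.2‖ < 1}, rd p q < η :=
    ((tendsto_rd p).mono_left nhdsWithin_le_nhds).eventually (gt_mem_nhds hη)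
  filter_upwards [h3, self_mem_nhdsWithin] with q hq1 hq2
  rw [Real.dist_eq]
  exact h q hq2 hq1.le

theorem JG_cont (h : Q.OK) : ContinuousOn Q.JG {p : EU L × EU M | ‖p.2‖ < 1} := by
  intro p hp
  exact cont_of_rd (η := 1 / 400) (by norm_num) fun q hq hr => JG_near h hp hq hr

/-- FINAL: Psi is continuous. -/
theorem Psi_cont (h : Q.OK) : ContinuousOn Q.Psi {p : EU L × EU M | ‖p.2‖ < 1} := by
  intro p hp
  have hC := (C0_le h).1
  have hA : Q.A0 = 2 * Q.C1 := rfl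
  rcases le_or_gt (Q.JG p) (1.6 * Q.C1) with hJ | hJ
  · obtain ⟨K1, hK1, l1⟩ := LL_Psi h
    obtain ⟨η0, hη0, he⟩ := exists_pair h
    refine cont_of_rd (K := 2 * K1) (η := min (1 / 400) (η0 / 2))
      (lt_min (by norm_num) (by linarith)) fun q hq hr => ?_
    have hr1 : rd p q ≤ 1 / 400 := hr.trans (min_le_left _ _)
    have hr2 : rd p q ≤ η0 / 2 := hr.trans (min_le_right _ _)
    have hcs := Cs.of_rd hp hq hr1
    obtain ⟨b, hb⟩ := he _ p q hcs (by linarith) (by rw [hA]; linarith)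
    have h1 := l1 _ p q b hb
    rw [Real.norm_eq_abs, abs_sub_comm] at h1
    linarith
  · have h1 : ContinuousWithinAt (fun q => Q.JG q / Q.C1) {p : EU L × EU M | ‖p.2‖ < 1} p :=
      (JG_cont h p hp).div_const _
    have h2 : ∀ q : EU L × EU M, 1.5 * Q.C1 < Q.JG q → Q.Psi q = Q.JG q / Q.C1 := by
      intro q hq
      have h3 : 1.5 < Q.JG q / Q.C1 := by
        rw [lt_div_iff₀ (by linarith)]
        exact hq
      unfold VD.Psi
      rw [cl_eq_zero (div_nonpos_of_nonpos_of_nonneg (by linarith) (by norm_num)), zero_mul]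
      exact max_eq_left (by linarith)
    refine h1.congr_of_eventuallyEq ?_ (h2 p (by linarith))
    have h4 : ∀ᶠ q in nhdsWithin p {p : EU L × EU M | ‖p.2‖ < 1}, 1.5 * Q.C1 < Q.JG q :=
      (JG_cont h p hp).eventually (lt_mem_nhds (by linarith))
    filter_upwards [h4] with q hq
    exact h2 q hq

end Pool.HQ.LP
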