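import Pool.Agent.HQ.GA04
import Pool.Agent.HQ.LP12
import Pool.Agent.HQ.FL4

/-!
MODULE GA05 (problem MP_7936f4_al, part III, G-side, helper68): the action is uniformly Lipschitz at small
relative scale.
-/

namespace Pool.HQ.GA

open Pool.HQ
open scoped Pointwise Matrix

variable {G : Type} [Group G] {M L : ℕ} {Q : VD G M L}
  {A : G → (G →₀ ℝ) → Matrix (Fin L) (Fin L) ℝ} {CA : ℝ}

theorem fb_pact_lip (h : Q.OK) {p q : EU L × EU M} {b : G} (hb : Q.At p b) (hb' : Q.At q b) (g : G) :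
    ‖Q.fb (pact g (Q.x p)) - Q.fb (pact g (Q.x q))‖ ≤
      (2 * Q.K ^ 2 * Q.bt Q.r2 ^ 2 * Dz (Q.f (g * b))) * n1 (Q.x p - Q.x q) := by
  have hK := h.K1
  have hbt := v_bt_pos Q Q.r2
  have hD := Dz_pos (h.ball (g * b))
  have h1 : tot (pact g (Q.x p)) = tot (pact g (Q.x q)) := by
    rw [tot_pact, tot_pact, v_x_tot h hb, v_x_tot h hb']
  have h2 := LP.fb_sub_le Q (pact g (Q.x p)) (pact g (Q.x q)) h1 (Q.f (g * b))
    (r := 2 * Q.K ^ 2 * Q.bt Q.r2 ^ 2 * Dz (Q.f (g * b))) (by positivity) (fun a ha => by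
      have hd : Q.d a (g * b) ≤ Q.r2 := by
        have e : a = g * (g⁻¹ * a) := (mul_inv_cancel_left g a).symm
        rw [e, h.hd.inv]
        rcases ha with ha | ha
        · rw [pact_apply] at ha
          exact (v_x_supp h hb (Finsupp.mem_support_iff.2 ha)).1
        · rw [pact_apply] at ha
          exact (v_x_supp h hb' (Finsupp.mem_support_iff.2 ha)).1
      have h3 := v_dist_le (h.ball a) (h.ball (g * b))
      have h4 : om (Q.f a) (Q.f (g * b)) ≤ Q.K * Q.bt Q.r2 := by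
        refine (h.up a (g * b)).trans (mul_le_mul_of_nonneg_left ?_ (by linarith))
        rw [v_wb_eq]
        exact (v_bt_le_iff h).2 hd
      have h5 := om_pos (h.ball a) (h.ball (g * b))
      have h6 : om (Q.f a) (Q.f (g * b)) ^ 2 ≤ (Q.K * Q.bt Q.r2) ^ 2 := pow_le_pow_left₀ h5.le h4 2
      refine h3.trans ?_
      calc 2 * om (Q.f a) (Q.f (g * b)) ^ 2 * (1 - ‖Q.f (g * b)‖ ^ 2)
          ≤ 2 * (Q.K * Q.bt Q.r2) ^ 2 * Dz (Q.f (g * b)) :=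
            mul_le_mul_of_nonneg_right (by linarith) hD.le
        _ = _ := by ring)
  rw [← pact_sub, pact_n1] at h2
  exact h2

theorem D_comp (h : Q.OK) {y : EU M} (hy : ‖y‖ < 1) (b : G) {W : ℝ} (hW : om (Q.f b) y ≤ W) :
    Dz (Q.f b) ≤ 4 * W ^ 2 * Dz y ∧ Dz y ≤ 4 * W ^ 2 * Dz (Q.f b) := by
  have hD := Dz_pos (h.ball b)
  have hD' := Dz_pos hy
  have h1 := om_pos (h.ball b) hy
  have h2 : om (Q.f b) y ^ 2 ≤ W ^ 2 := pow_le_pow_left₀ h1.le hW 2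
  constructor
  · refine (v_D_ratio (h.ball b) hy).trans ?_
    exact mul_le_mul_of_nonneg_right (by linarith) hD'.le
  · refine (v_D_ratio hy (h.ball b)).trans ?_
    rw [om_symm]
    exact mul_le_mul_of_nonneg_right (by linarith) hD.le

theorem act_lip (h : Q.OK) (hA : CocA Q A CA) : ∃ η K : ℝ, 0 < η ∧ 1 ≤ K ∧ ∀ p q, Sp Q p → Sp Q q →
    rd p q ≤ η → ∀ g, rd (Q.act A g p) (Q.act A g q) ≤ K * rd p q := by
  obtain ⟨η1, hη1, hpair⟩ := LP.exists_pair h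
  obtain ⟨K1, hK1, hx1⟩ := LP.LL1_x h
  have hW : 1 < Q.W5 := by have := h.W5a; linarith
  have hK := h.K1
  have hbt := v_bt_pos Q Q.r2
  have hA0 := v10_A0_nonneg h
  have hCA := hA.CA0
  set B : ℝ := 1 + 4 * Q.Khm ^ 2 + 2 * Q.K ^ 2 * Q.bt Q.r2 ^ 2 * K1 + 4 * Q.W7 ^ 2 with hBd
  have hB : 1 ≤ B := by
    have : 0 ≤ 4 * Q.Khm ^ 2 + 2 * Q.K ^ 2 * Q.bt Q.r2 ^ 2 * K1 + 4 * Q.W7 ^ 2 := by positivity
    rw [hBd]; linarith
  obtain ⟨K2, hK2, hcore⟩ := lip_core (M := M) hW hB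
  refine ⟨min (1 / 400) (η1 / 2),
    1 + 1 + (L : ℝ) * L * CA * (K1 * 2) * Q.A0 + 8 * Q.W7 ^ 2 * (K2 * 2), by positivity, ?_, ?_⟩
  · have : 0 ≤ (L : ℝ) * L * CA * (K1 * 2) * Q.A0 + 8 * Q.W7 ^ 2 * (K2 * 2) := by positivity
    linarith
  intro p q hp hq hrd g
  have hr1 : rd p q ≤ 1 / 400 := hrd.trans (min_le_left _ _)
  have hr2 : rd p q ≤ η1 / 2 := hrd.trans (min_le_right _ _)
  have hr0 : 0 ≤ rd p q := rdg_nonneg p q hp.z
  have hCs := LP.Cs.of_rd hp.z hq.z hr1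
  set t := 2 * rd p q with ht
  have ht0 : 0 ≤ t := by rw [ht]; linarith
  obtain ⟨b, hPr⟩ := hpair t p q hCs (by rw [ht]; linarith) (by
    have h1 := hp.J
    have h2 := C1_pos h
    unfold VD.A0
    linarith)
  have hb : Q.At p b := v_at_of_Jp h hp.z hPr.jp
  have hb' : Q.At q b := v_at_of_Jp h hq.z hPr.jq
  have hxn := hx1 t p q b hPr
  have hxl := v_x_loc h hb
  have hxl' := v_x_loc h hb'
  -- first coordinate
  have hX : ‖q.1‖ ≤ Q.A0 := (LP.norm_le_J h b q.1).trans hb'.J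
  have f1 : ‖(Q.act A g p).1 - (Q.act A g q).1‖ ≤
      rd p q + (L : ℝ) * L * CA * (K1 * t) * Q.A0 := by
    rw [act_fst, act_fst]
    have e : mv (A g (Q.x p)) p.1 - mv (A g (Q.x q)) q.1 =
        mv (A g (Q.x p)) (p.1 - q.1) + (mv (A g (Q.x p)) q.1 - mv (A g (Q.x q)) q.1) := by
      rw [mv_sub]; abel
    rw [e]
    refine (norm_add_le _ _).trans (add_le_add ?_ ?_)
    · rw [mv_norm _ (hA.orth g _ hxl)]
      unfold rd
      have hpos : 0 < 1 - ‖p.2‖ := by linarith [hp.z]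
      have : 0 ≤ ‖p.2 - q.2‖ / (1 - ‖p.2‖) := by positivity
      linarith
    · refine (mv_lip hA g hxl hxl' q.1).trans ?_
      have hd : d1 (Q.x p) (Q.x q) ≤ K1 * t := hxn
      apply mul_le_mul _ hX (norm_nonneg _) (by positivity)
      exact mul_le_mul_of_nonneg_left hd (by positivity)
  -- second coordinate
  have hDb := Dz_pos (h.ball b)
  have hDg := Dz_pos (h.ball (g * b))
  obtain ⟨-, -, hy, hy2⟩ := pact_loc h hb 1
  obtain ⟨-, -, hy', hy2'⟩ := pact_loc h hb' 1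
  rw [pact_one, one_mul] at hy2 hy2'
  rw [pact_one] at hy hy'
  obtain ⟨-, -, hyg, hyg2⟩ := pact_loc h hb g
  obtain ⟨-, -, hyg', hyg2'⟩ := pact_loc h hb' g
  have c1 := D_comp h hy b hy2
  have c1' := D_comp h hy' b hy2'
  have c2' := D_comp h hyg' (g * b) hyg2'
  have hKB : 4 * Q.Khm ^ 2 ≤ B := by
    have : 0 ≤ 2 * Q.K ^ 2 * Q.bt Q.r2 ^ 2 * K1 + 4 * Q.W7 ^ 2 := by positivity
    rw [hBd]; linarith
  have hKB2 : 2 * Q.K ^ 2 * Q.bt Q.r2 ^ 2 * K1 ≤ B := by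
    have : 0 ≤ 4 * Q.Khm ^ 2 + 4 * Q.W7 ^ 2 := by positivity
    rw [hBd]; linarith
  have hKB3 : 4 * Q.W7 ^ 2 ≤ B := by
    have : 0 ≤ 4 * Q.Khm ^ 2 + 2 * Q.K ^ 2 * Q.bt Q.r2 ^ 2 * K1 := by positivity
    rw [hBd]; linarith
  have hfl : ∀ g', ‖Q.fb (pact g' (Q.x p)) - Q.fb (pact g' (Q.x q))‖ ≤ B * t * Dz (Q.f (g' * b)) := by
    intro g'
    refine (fb_pact_lip h hb hb' g').trans ?_
    have hDg' := Dz_pos (h.ball (g' * b))
    calc (2 * Q.K ^ 2 * Q.bt Q.r2 ^ 2 * Dz (Q.f (g' * b))) * n1 (Q.x p - Q.x q)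
        ≤ (2 * Q.K ^ 2 * Q.bt Q.r2 ^ 2 * Dz (Q.f (g' * b))) * (K1 * t) :=
          mul_le_mul_of_nonneg_left hxn (by positivity)
      _ = (2 * Q.K ^ 2 * Q.bt Q.r2 ^ 2 * K1) * (t * Dz (Q.f (g' * b))) := by ring
      _ ≤ B * (t * Dz (Q.f (g' * b))) := mul_le_mul_of_nonneg_right hKB2 (by positivity)
      _ = _ := by ring
  have hfl1 := hfl 1
  rw [pact_one, pact_one, one_mul] at hfl1
  have hzz : ‖p.2 - q.2‖ ≤ B * t * Dz (Q.f b) := by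
    have a1 := hCs.dz1
    have a2 := D_comp h hp.z b hb.o7
    have a3 : 1 - ‖p.2‖ ≤ Dz p.2 := DD_ge hp.z
    calc ‖p.2 - q.2‖ ≤ t * (1 - ‖p.2‖) := a1
      _ ≤ t * (4 * Q.W7 ^ 2 * Dz (Q.f b)) := mul_le_mul_of_nonneg_left (a3.trans a2.2) ht0
      _ = (4 * Q.W7 ^ 2) * (t * Dz (Q.f b)) := by ring
      _ ≤ B * (t * Dz (Q.f b)) := mul_le_mul_of_nonneg_right hKB3 (by positivity)
      _ = _ := by ring
  have hDy := Dz_pos hy
  have hDy' := Dz_pos hy'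
  have hDyg' := Dz_pos hyg'
  have f2 : ‖(Q.act A g p).2 - (Q.act A g q).2‖ ≤ K2 * t * Dz (Q.f (g * b)) := by
    rw [act_snd, act_snd]
    apply hcore (Q.fh p) (Q.fh q) (Q.fb (pact g (Q.x p))) (Q.fb (pact g (Q.x q))) p.2 q.2
      (Dz (Q.f b)) (Dz (Q.f (g * b))) t hDb hDg ht0 hy hy' hyg hyg'
    · exact c1.1.trans (mul_le_mul_of_nonneg_right hKB hDy.le)
    · exact c1.2.trans (mul_le_mul_of_nonneg_right hKB hDb.le)
    · exact c1'.1.trans (mul_le_mul_of_nonneg_right hKB hDy'.le)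
    · exact c2'.2.trans (mul_le_mul_of_nonneg_right hKB hDg.le)
    · exact hfl1
    · exact hfl g
    · exact (ball_iff hW hy p.2).2 ⟨hp.z, hp.W⟩
    · exact hzz
  -- conclusion
  have hat := (act_at h hA hp g hb).1
  have hz' := hat.z
  have hpos : 0 < 1 - ‖(Q.act A g p).2‖ := by linarith
  have f3 : Dz (Q.f (g * b)) ≤ 8 * Q.W7 ^ 2 * (1 - ‖(Q.act A g p).2‖) := by
    have a1 := (D_comp h hz' (g * b) hat.o7).1
    have a2 : Dz (Q.act A g p).2 ≤ 2 * (1 - ‖(Q.act A g p).2‖) := DD_le hz'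
    calc _ ≤ 4 * Q.W7 ^ 2 * Dz (Q.act A g p).2 := a1
      _ ≤ 4 * Q.W7 ^ 2 * (2 * (1 - ‖(Q.act A g p).2‖)) := mul_le_mul_of_nonneg_left a2 (by positivity)
      _ = _ := by ring
  have f4 : ‖(Q.act A g p).2 - (Q.act A g q).2‖ / (1 - ‖(Q.act A g p).2‖) ≤
      8 * Q.W7 ^ 2 * (K2 * t) := by
    rw [div_le_iff₀ hpos]
    calc _ ≤ K2 * t * Dz (Q.f (g * b)) := f2
      _ ≤ K2 * t * (8 * Q.W7 ^ 2 * (1 - ‖(Q.act A g p).2‖)) :=
          mul_le_mul_of_nonneg_left f3 (by positivity)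
      _ = _ := by ring
  unfold rd at f1 ⊢
  rw [ht] at f1 f4
  unfold rd at f1 f4
  have hpos' : 0 < 1 - ‖p.2‖ := by linarith [hp.z]
  have h9 : 0 ≤ ‖p.1 - q.1‖ + ‖p.2 - q.2‖ / (1 - ‖p.2‖) := by positivity
  linarith

end Pool.HQ.GA
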