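import Pool.Agent.HQ.VDefs

/-!
MP_7936f4_al, full question.  Action of G on a subset T of R^L x ball with locations (structure HsAct);
BdAct is the special case T = hypersurface Phi = C.
-/

namespace Pool.HQ

/-- Action of G on a subset T of R^L x ball, with locations. -/
structure HsAct {G : Type} [Group G] {L M : ℕ} (f : G → EuclideanSpace ℝ (Fin M))
    (T : Set (EuclideanSpace ℝ (Fin L) × EuclideanSpace ℝ (Fin M)))
    (act : G → EuclideanSpace ℝ (Fin L) × EuclideanSpace ℝ (Fin M) →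
      EuclideanSpace ℝ (Fin L) × EuclideanSpace ℝ (Fin M))
    (Lo : EuclideanSpace ℝ (Fin L) × EuclideanSpace ℝ (Fin M) → G → Prop) (W η K : ℝ) : Prop where
  ball : ∀ p ∈ T, ‖p.2‖ < 1
  eta_pos : 0 < η
  one_le : 1 ≤ K
  maps : ∀ g, ∀ p ∈ T, act g p ∈ T
  one : ∀ p ∈ T, act 1 p = p
  mul : ∀ g h, ∀ p ∈ T, act (g * h) p = act g (act h p)
  loc : ∀ p ∈ T, ∃ a, Lo p a
  locg : ∀ g, ∀ p ∈ T, ∀ a, Lo p a → Lo (act g p) (g * a)
  close : ∀ p ∈ T, ∀ a, Lo p a → om (f a) p.2 ≤ W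
  lip : ∀ p ∈ T, ∀ q ∈ T, rd p q ≤ η → ∀ g, rd (act g p) (act g q) ≤ K * rd p q
  faith : ∀ g, g ≠ 1 → ∃ p ∈ T, act g p ≠ p

theorem HsAct.toBdAct {G : Type} [Group G] {d : G → G → ℕ} {L M : ℕ}
    {f : G → EuclideanSpace ℝ (Fin M)} {c : G → Fin L} {E C : ℝ}
    {act : G → EuclideanSpace ℝ (Fin L) × EuclideanSpace ℝ (Fin M) →
      EuclideanSpace ℝ (Fin L) × EuclideanSpace ℝ (Fin M)}
    {Lo : EuclideanSpace ℝ (Fin L) × EuclideanSpace ℝ (Fin M) → G → Prop} {W η K : ℝ}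
    (h : HsAct f {p | ‖p.2‖ < 1 ∧ Phi f c E p = C} act Lo W η K) :
    BdAct d f c E C act Lo W η K where
  eta_pos := h.eta_pos
  one_le := h.one_le
  maps g p h1 h2 := h.maps g p ⟨h1, h2⟩
  one p h1 h2 := h.one p ⟨h1, h2⟩
  mul g g' p h1 h2 := h.mul g g' p ⟨h1, h2⟩
  loc p h1 h2 := h.loc p ⟨h1, h2⟩
  locg g p h1 h2 := h.locg g p ⟨h1, h2⟩
  close p h1 h2 := h.close p ⟨h1, h2⟩
  lip p q h1 h2 h3 h4 := h.lip p ⟨h1, h3⟩ q ⟨h2, h4⟩
  faith g hg := by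
    obtain ⟨p, hp, h1⟩ := h.faith g hg
    exact ⟨p, hp.1, hp.2, h1⟩

end Pool.HQ
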