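import Pool.Agent.HQ.E48

/-!
MP_7936f4_al, THEOREM E: a uniformly Lipschitz orthogonal cocycle with exact near coordinates.

From complex_cocycle by realification: on Fin N ⊕ Fin N the matrix [[Re A, -Im A],[Im A, Re A]], colour inl (c a);
(Re A + i Im A) unitary gives orthogonality, products correspond, |Re|, |Im| ≤ |·|.  Reindex Fin N ⊕ Fin N ≃ Fin (N+N).
-/

namespace Pool.HQ

open scoped Pointwise Matrix

namespace TheoremEAux

/-- The realification of a complex matrix. -/
noncomputable def rl {N : ℕ} (Z : Matrix (Fin N) (Fin N) ℂ) : Matrix (Fin N ⊕ Fin N) (Fin N ⊕ Fin N) ℝ :=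
  Matrix.fromBlocks (Matrix.of fun i j => (Z i j).re) (Matrix.of fun i j => -(Z i j).im)
    (Matrix.of fun i j => (Z i j).im) (Matrix.of fun i j => (Z i j).re)

theorem rl_mul {N : ℕ} (Z W : Matrix (Fin N) (Fin N) ℂ) : rl (Z * W) = rl Z * rl W := by
  unfold rl
  rw [Matrix.fromBlocks_multiply]
  congr 1 <;> ext i j <;>
    simp only [Matrix.of_apply, Matrix.add_apply, Matrix.mul_apply, Complex.re_sum, Complex.im_sum,
      Complex.mul_re, Complex.mul_im, ← Finset.sum_add_distrib, ← Finset.sum_neg_distrib] <;>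
    refine Finset.sum_congr rfl fun k _ => ?_ <;> ring

theorem rl_conj {N : ℕ} (Z : Matrix (Fin N) (Fin N) ℂ) : rl (Zᴴ) = (rl Z)ᵀ := by
  unfold rl
  rw [Matrix.fromBlocks_transpose]
  congr 1 <;> ext i j <;> simp [Matrix.conjTranspose_apply]

theorem rl_one {N : ℕ} : rl (1 : Matrix (Fin N) (Fin N) ℂ) = 1 := by
  unfold rl
  rw [← Matrix.fromBlocks_one]
  congr 1 <;> ext i j <;> by_cases h : i = j <;> simp [Matrix.one_apply, h]

theorem rl_lip {N : ℕ} (Z W : Matrix (Fin N) (Fin N) ℂ) (B : ℝ) (h : ∀ i j, ‖Z i j - W i j‖ ≤ B)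
    (i j : Fin N ⊕ Fin N) : |rl Z i j - rl W i j| ≤ B := by
  have hre : ∀ i j, |(Z i j).re - (W i j).re| ≤ B := fun i j => by
    rw [← Complex.sub_re]
    exact (Complex.abs_re_le_norm _).trans (h i j)
  have him : ∀ i j, |(Z i j).im - (W i j).im| ≤ B := fun i j => by
    rw [← Complex.sub_im]
    exact (Complex.abs_im_le_norm _).trans (h i j)
  rcases i with i | i <;> rcases j with j | j
  · exact hre i j
  · change |-(Z i j).im - -(W i j).im| ≤ B
    have h1 : -(Z i j).im - -(W i j).im = -((Z i j).im - (W i j).im) := by ring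
    rw [h1, abs_neg]
    exact him i j
  · exact him i j
  · exact hre i j

theorem rl_single {N : ℕ} (Z : Matrix (Fin N) (Fin N) ℂ) (a b : Fin N)
    (h : Z.mulVec (Pi.single a 1) = Pi.single b 1) (k : Fin N ⊕ Fin N) :
    rl Z k (Sum.inl a) = (Pi.single (Sum.inl b) 1 : Fin N ⊕ Fin N → ℝ) k := by
  have h1 : ∀ i, Z i a = (Pi.single b 1 : Fin N → ℂ) i := fun i => by
    rw [← h, Matrix.mulVec_single_one]
    rfl
  rcases k with i | i
  · change (Z i a).re = _
    rw [h1]
    by_cases hi : i = b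
    · subst hi; simp
    · rw [Pi.single_eq_of_ne hi, Pi.single_eq_of_ne (by simpa using hi)]
      simp
  · change (Z i a).im = _
    rw [h1]
    by_cases hi : i = b
    · subst hi; simp
    · rw [Pi.single_eq_of_ne hi, Pi.single_eq_of_ne (by simp)]
      simp

end TheoremEAux

open TheoremEAux in
theorem theorem_E {G : Type} [Group G] {d : G → G → ℕ} {M : ℕ} {lam C : ℝ}
    {f : G → EuclideanSpace ℝ (Fin M)} (hd : HypM d) (hf : RoughSim d lam C f) (D r : ℕ) :
    ∃ (L : ℕ) (c : G → Fin L) (A : G → (G →₀ ℝ) → Matrix (Fin L) (Fin L) ℝ) (C1 : ℝ), 0 ≤ C1 ∧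
      (∀ a b, d a b ≤ r → c a = c b → a = b) ∧
      (∀ g, ∀ x ∈ Loc d D, (A g x)ᵀ * A g x = 1) ∧
      (∀ g h, ∀ x ∈ Loc d D, A (g * h) x = A g (pact h x) * A h x) ∧
      (∀ g, ∀ x ∈ Loc d D, ∀ y ∈ Loc d D, ∀ i j, |A g x i j - A g y i j| ≤ C1 * d1 x y) ∧
      (∀ g, ∀ x ∈ Loc d D, ∀ a, (∃ b ∈ x.support, d a b ≤ r) →
        (A g x).mulVec (Pi.single (c a) 1) = Pi.single (c (g * a)) 1) := by
  obtain ⟨N, c, A, C1, h0, hc, hu, hm, hl, hn⟩ := complex_cocycle hd hf D r
  refine ⟨N + N, fun a => finSumFinEquiv (Sum.inl (c a)),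
    fun g x => (rl (A g x)).submatrix finSumFinEquiv.symm finSumFinEquiv.symm, C1, h0, ?_, ?_, ?_, ?_, ?_⟩
  · intro a b hab h
    refine hc a b hab ?_
    have := finSumFinEquiv.injective h
    exact Sum.inl_injective this
  · intro g x hx
    rw [Matrix.transpose_submatrix, Matrix.submatrix_mul_equiv, ← rl_conj, ← rl_mul, hu g x hx, rl_one,
      Matrix.submatrix_one_equiv]
  · intro g h x hx
    simp only
    rw [Matrix.submatrix_mul_equiv, ← rl_mul, ← hm g h x hx]
  · intro g x hx y hy i j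
    exact rl_lip _ _ _ (hl g x hx y hy) _ _
  · intro g x hx a ha
    have h1 := rl_single (A g x) (c a) (c (g * a)) (hn g x hx a ha)
    ext k
    rw [Matrix.mulVec_single_one]
    change rl (A g x) (finSumFinEquiv.symm k) (finSumFinEquiv.symm (finSumFinEquiv (Sum.inl (c a)))) = _
    rw [Equiv.symm_apply_apply, h1]
    by_cases hk : k = finSumFinEquiv (Sum.inl (c (g * a)))
    · subst hk
      rw [Equiv.symm_apply_apply, Pi.single_eq_same, Pi.single_eq_same]
    · rw [Pi.single_eq_of_ne hk, Pi.single_eq_of_ne]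
      intro h2
      exact hk (by rw [← h2, Equiv.apply_symm_apply])

end Pool.HQ
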