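import Pool.Agent.HQ.GA05
import Pool.Agent.HQ.HsDefs
import Pool.Agent.HQ.TheoremE

/-!
MODULE GA06 (problem MP_7936f4_al, part III, G-side, helper68): faithfulness and the final statement hsAct.
-/

namespace Pool.HQ.GA

open Pool.HQ
open scoped Pointwise Matrix

variable {G : Type} [Group G] {M L : ℕ} {Q : VD G M L}
  {A : G → (G →₀ ℝ) → Matrix (Fin L) (Fin L) ℝ} {CA : ℝ}

/-- the test points -/
noncomputable def pt (Q : VD G M L) (s : ℝ) : EU L × EU M :=
  (s • EuclideanSpace.single (Q.c 1) (1 : ℝ), Q.f 1)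

theorem pt_cont (Q : VD G M L) : Continuous (pt Q) := by
  unfold pt
  fun_prop

theorem pt_coord (h : Q.OK) {s : ℝ} {a : G} (ha : Q.tau < (pt Q s).1 (Q.c a)) : Q.c a = Q.c 1 := by
  by_contra hcon
  have h1 : (pt Q s).1 (Q.c a) = 0 := by
    unfold pt
    simp [Pi.single_apply, hcon]
  rw [h1] at ha
  have := h.tau_pos
  linarith

theorem pt_JG (h : Q.OK) : Q.Jp 1 (pt Q 1) ≤ 1 := by
  have h1 := v_J_le h 1 (pt Q 1).1 (ψ := Finsupp.single 1 1) (by
    unfold tot; rw [Finsupp.sum_single_index rfl])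
  have h2 : cst (Q.wb 1) (Finsupp.single 1 1) = 1 := by
    unfold cst
    rw [Finsupp.sum_single_index (by simp), v_wb_self h]
    norm_num
  have h3 : (pt Q 1).1 - io Q.c (Finsupp.single 1 1) = 0 := by
    unfold pt Pool.HQ.io
    rw [Finsupp.sum_single_index (by simp)]
    simp
  rw [h2, h3, norm_zero, mul_zero, add_zero] at h1
  have h4 : Q.o 1 (pt Q 1).2 = 1 := v_om_self
  unfold VD.Jp
  rw [h4]
  have h5 : 1 ≤ Q.W6 := by
    have h6 := h.W6b
    have h7 := h.hC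
    have h8 := KW_le h
    have h9 := h.hW6
    -- W6 ≥ 2 Khm W5 with Khm ≥ 1
    have hA := v10_A0_nonneg h
    have hK := v_one_le_Kh h hA Q.rm
    have hW := h.W5a
    have : 1 ≤ Q.Khm := hK
    nlinarith
  rw [max_eq_left (by linarith), add_zero]
  exact h1

/-- A point of the hypersurface Psi = 1 whose location is a point mass. -/
theorem exists_pt (h : Q.OK) : ∃ s : ℝ, Sp Q (pt Q s) ∧ Q.Psi (pt Q s) = 1 := by
  have hC := C1_pos h
  have hC1 : 1 ≤ Q.C1 := by
    have h1 := h.C0a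
    have h2 := h.C1b
    linarith
  have hball : ∀ s, ‖(pt Q s).2‖ < 1 := fun s => h.ball 1
  have hcont : Continuous (fun s => Q.Psi (pt Q s)) :=
    (LP.Psi_cont h).comp_continuous (pt_cont Q) hball
  have hJ1 : Q.JG (pt Q 1) ≤ 1 := (v_JG_le h _ 1).trans (pt_JG h)
  have hA0 : 1 ≤ Q.A0 := by unfold VD.A0; linarith
  have hat : Q.At (pt Q 1) 1 := v_at_of_Jp h (hball 1) ((pt_JG h).trans hA0)
  -- the location of pt 1
  have hx : Q.x (pt Q 1) = Finsupp.single 1 1 := by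
    have hs : (Q.x (pt Q 1)).support ⊆ {1} := by
      intro a ha
      obtain ⟨h1, -, h3⟩ := v_x_supp h hat ha
      rw [Finset.mem_singleton]
      refine v_inj h 1 (by omega) ?_ (pt_coord h h3)
      rw [h.hd.self]; omega
    have h1 := Finsupp.support_subset_singleton.1 hs
    have h2 := v_x_tot h hat
    rw [h1] at h2
    unfold tot at h2
    rw [Finsupp.sum_single_index rfl] at h2
    rw [h1, h2]
  have hfh : Q.fh (pt Q 1) = Q.f 1 := by
    unfold VD.fh VD.fb
    rw [hx, Finsupp.sum_single_index (by simp), one_smul]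
  have hP1 : Q.Psi (pt Q 1) ≤ 1 := by
    have : Sp Q (pt Q 1) := by
      refine ⟨hball 1, hJ1.trans hC1, ?_⟩
      rw [hfh]
      have e : om (Q.f 1) (pt Q 1).2 = 1 := v_om_self
      rw [e]
      have := h.W5a
      linarith
    exact ((Sp_iff h).1 this).2
  have hP2 : 1 ≤ Q.Psi (pt Q Q.C1) := by
    have h1 : Q.C1 ≤ Q.JG (pt Q Q.C1) := by
      obtain ⟨b, hb⟩ := v_exists_JG h (p := pt Q Q.C1) (hball _)
      rw [hb]
      have h2 := LP.norm_le_J h b (pt Q Q.C1).1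
      have h3 := v_J_le_Jp h (pt Q Q.C1) b
      have h4 : ‖(pt Q Q.C1).1‖ = Q.C1 := by
        unfold pt
        rw [norm_smul, Real.norm_eq_abs, abs_of_pos hC, PiLp.norm_single, norm_one, mul_one]
      linarith
    have h5 : 1 ≤ Q.JG (pt Q Q.C1) / Q.C1 := by rw [le_div_iff₀ hC]; linarith
    exact h5.trans (le_max_left _ _)
  obtain ⟨s, -, hs⟩ := intermediate_value_Icc hC1 hcont.continuousOn ⟨hP1, hP2⟩
  exact ⟨s, (Sp_iff h).2 ⟨hball s, hs.le⟩, hs⟩

theorem act_faith (h : Q.OK) (hA : CocA Q A CA) : ∃ p, Sp Q p ∧ Q.Psi p = 1 ∧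
    ∀ g, Q.act A g p = p → g = 1 := by
  obtain ⟨s, hp, hP⟩ := exists_pt h
  refine ⟨pt Q s, hp, hP, fun g hg => ?_⟩
  obtain ⟨b, hb, -⟩ := hp.exists_at h
  have hx := act_x h hA hp g
  rw [hg] at hx
  have hne : (Q.x (pt Q s)).support.Nonempty := by
    by_contra hcon
    rw [Finset.not_nonempty_iff_eq_empty, Finsupp.support_eq_empty] at hcon
    have := v_x_tot h hb
    rw [hcon] at this
    unfold tot at this
    rw [Finsupp.sum_zero_index] at this
    norm_num at this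
  obtain ⟨a, ha⟩ := hne
  have hga : g * a ∈ (Q.x (pt Q s)).support := by
    rw [hx]
    exact mul_mem_pact_support.2 ha
  obtain ⟨h1, -, h3⟩ := v_x_supp h hb ha
  obtain ⟨h1', -, h3'⟩ := v_x_supp h hb hga
  have e : g * a = a := by
    refine v_inj h b (by omega) (by omega) ?_
    rw [pt_coord h h3, pt_coord h h3']
  exact mul_eq_right.1 e

/-- THE G-SIDE: the group acts on the hypersurface Psi = 1. -/
theorem hsAct (h : Q.OK) (hA : CocA Q A CA) : ∃ W η K : ℝ,
    HsAct Q.f {p : EU L × EU M | ‖p.2‖ < 1 ∧ Q.Psi p = 1} (Q.act A)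
      (fun p a => a ∈ (Q.x p).support) W η K := by
  obtain ⟨η, K, hη, hK, hlip⟩ := act_lip h hA
  have hSp : ∀ p ∈ {p : EU L × EU M | ‖p.2‖ < 1 ∧ Q.Psi p = 1}, Sp Q p := fun p hp =>
    (Sp_iff h).2 ⟨hp.1, hp.2.le⟩
  refine ⟨Q.W8, η, K, ?_⟩
  refine
    { ball := fun p hp => hp.1
      eta_pos := hη
      one_le := hK
      maps := fun g p hp => ⟨(act_Sp h hA (hSp p hp) g).z, act_Psi h hA (hSp p hp) hp.2 g⟩
      one := fun p hp => act_one h hA (hSp p hp)
      mul := fun g g' p hp => act_mul h hA (hSp p hp) g g'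
      loc := ?_
      locg := ?_
      close := ?_
      lip := fun p hp q hq hr g => hlip p q (hSp p hp) (hSp q hq) hr g
      faith := ?_ }
  · intro p hp
    obtain ⟨b, hb, -⟩ := (hSp p hp).exists_at h
    by_contra hcon
    push Not at hcon
    have h0 : Q.x p = 0 := Finsupp.support_eq_empty.1 (Finset.eq_empty_of_forall_notMem hcon)
    have := v_x_tot h hb
    rw [h0] at this
    unfold tot at this
    rw [Finsupp.sum_zero_index] at this
    norm_num at this
  · intro g p hp a ha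
    change g * a ∈ (Q.x (Q.act A g p)).support
    rw [act_x h hA (hSp p hp) g]
    exact mul_mem_pact_support.2 ha
  · intro p hp a ha
    obtain ⟨b, hb, -⟩ := (hSp p hp).exists_at h
    exact (v_x_supp h hb ha).2.1
  · intro g hg
    obtain ⟨p, hp, hP, hf⟩ := act_faith h hA
    exact ⟨p, ⟨hp.z, hP⟩, fun hcon => hg (hf g hcon)⟩

open Classical in
/-- The cocycle of Theorem E has the properties CocA. -/
theorem CocA.of_E {D r : ℕ} {C1 : ℝ} (h0 : 0 ≤ C1) (hD : 2 * Q.r2 ≤ D) (hr : Q.rE + 2 * Q.r2 ≤ r)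
    (h1 : ∀ g, ∀ x ∈ Loc Q.d D, (A g x)ᵀ * A g x = 1)
    (h2 : ∀ g h, ∀ x ∈ Loc Q.d D, A (g * h) x = A g (pact h x) * A h x)
    (h3 : ∀ g, ∀ x ∈ Loc Q.d D, ∀ y ∈ Loc Q.d D, ∀ i j, |A g x i j - A g y i j| ≤ C1 * d1 x y)
    (h4 : ∀ g, ∀ x ∈ Loc Q.d D, ∀ a, (∃ b ∈ x.support, Q.d a b ≤ r) →
        (A g x).mulVec (Pi.single (Q.c a) 1) = Pi.single (Q.c (g * a)) 1) : CocA Q A C1 where
  CA0 := h0
  orth g x hx := h1 g x (loc_mono hD hx)
  coc g g' x hx := h2 g g' x (loc_mono hD hx)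
  lip g x hx y hy := h3 g x (loc_mono hD hx) y (loc_mono hD hy)
  near g x hx a ha := by
    obtain ⟨b, hb, hab⟩ := ha
    exact h4 g x (loc_mono hD hx) a ⟨b, hb, by omega⟩

end Pool.HQ.GA
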