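import Pool.Agent.HQ.SGeo

/-!
MODULE SGeo2 (MP_7936f4_al, star-shapedness block): quasi-triangle inequality, four point inequality,
local comparison for om.
-/

namespace Pool.HQ

variable {M : ℕ}

theorem om_pos {x z : EuclideanSpace ℝ (Fin M)} (hx : ‖x‖ < 1) (hz : ‖z‖ < 1) : 0 < om x z :=
  lt_of_lt_of_le one_pos (one_le_om hx hz)

/-- Quasi-triangle inequality. -/
theorem om_tri {x y z : EuclideanSpace ℝ (Fin M)} (hx : ‖x‖ < 1) (hy : ‖y‖ < 1) (hz : ‖z‖ < 1) :
    om x z ≤ 5 * (om x y * om y z) := by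
  have h0 : 0 ≤ 5 * (om x y * om y z) :=
    mul_nonneg (by norm_num) (mul_pos (om_pos hx hy) (om_pos hy hz)).le
  refine le_of_sq_le_sq ?_ h0
  rw [mul_pow, mul_pow, om_sq hx hz, om_sq hx hy, om_sq hy hz]
  have dx := Dz_pos hx
  have dy := Dz_pos hy
  have dz := Dz_pos hz
  have n1 := Nz_pos hx hy
  have n2 := Nz_pos hy hz
  have k1 : Dz y ^ 2 ≤ 4 * Nz x y := Dz_sq_le' hx hy
  have k2 : Dz y ^ 2 ≤ 4 * Nz y z := Dz_sq_le hy hz
  have k3 := sq_le_Nz hx hy
  have k4 := sq_le_Nz hy hz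
  have tri : ‖x - z‖ ≤ ‖x - y‖ + ‖y - z‖ := norm_sub_le_norm_sub_add_norm_sub x y z
  have tri2 : ‖x - z‖ ^ 2 ≤ 2 * ‖x - y‖ ^ 2 + 2 * ‖y - z‖ ^ 2 := by
    have := norm_nonneg (x - z)
    nlinarith [sq_nonneg (‖x - y‖ - ‖y - z‖)]
  have m1 : Dz x * Dz y ≤ Nz x y := by
    unfold Nz; nlinarith [sq_nonneg ‖x - y‖]
  have m2 : Dz y * Dz z ≤ Nz y z := by
    unfold Nz; nlinarith [sq_nonneg ‖y - z‖]
  have key : Dz y ^ 2 * Nz x z ≤ 17 * (Nz x y * Nz y z) := by
    have e1 : Dz y ^ 2 * ‖x - y‖ ^ 2 ≤ 4 * (Nz x y * Nz y z) := by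
      have := mul_le_mul k2 k3 (sq_nonneg _) (by linarith)
      linarith
    have e2 : Dz y ^ 2 * ‖y - z‖ ^ 2 ≤ 4 * (Nz x y * Nz y z) := by
      have := mul_le_mul k1 k4 (sq_nonneg _) (by linarith)
      linarith
    have e3 : Dz y ^ 2 * (Dz x * Dz z) ≤ Nz x y * Nz y z := by
      have := mul_le_mul m1 m2 (mul_pos dy dz).le n1.le
      nlinarith
    have e4 : Dz y ^ 2 * Nz x z ≤ Dz y ^ 2 * (2 * ‖x - y‖ ^ 2 + 2 * ‖y - z‖ ^ 2 + Dz x * Dz z) := by
      refine mul_le_mul_of_nonneg_left ?_ (sq_nonneg _)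
      unfold Nz; linarith
    nlinarith
  rw [div_le_iff₀ (mul_pos dx dz)]
  have e : (5 : ℝ) ^ 2 * (Nz x y / (Dz x * Dz y) * (Nz y z / (Dz y * Dz z))) * (Dz x * Dz z) =
      25 * (Nz x y * Nz y z) / Dz y ^ 2 := by
    field_simp; ring
  rw [e, le_div_iff₀ (by positivity)]
  nlinarith [mul_pos n1 n2]

/-- |x-z| + Dz x + Dz z. -/
noncomputable def De (x z : EuclideanSpace ℝ (Fin M)) : ℝ := ‖x - z‖ + Dz x + Dz z

theorem De_pos {x z : EuclideanSpace ℝ (Fin M)} (hx : ‖x‖ < 1) (hz : ‖z‖ < 1) : 0 < De x z := by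
  unfold De
  have := Dz_pos hx
  have := Dz_pos hz
  positivity

theorem De_symm (x z : EuclideanSpace ℝ (Fin M)) : De x z = De z x := by
  unfold De; rw [norm_sub_rev]; ring

theorem De_tri {x y z : EuclideanSpace ℝ (Fin M)} (hy : ‖y‖ < 1) : De x z ≤ De x y + De y z := by
  unfold De
  have := Dz_pos hy
  have tri : ‖x - z‖ ≤ ‖x - y‖ + ‖y - z‖ := norm_sub_le_norm_sub_add_norm_sub x y z
  linarith

theorem Nz_le_De {x z : EuclideanSpace ℝ (Fin M)} (hx : ‖x‖ < 1) (hz : ‖z‖ < 1) :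
    Nz x z ≤ De x z ^ 2 := by
  unfold Nz De
  have h1 := Dz_pos hx
  have h2 := Dz_pos hz
  have h3 := norm_nonneg (x - z)
  nlinarith [mul_pos h1 h2, mul_nonneg h3 h1.le, mul_nonneg h3 h2.le, sq_nonneg (Dz x), sq_nonneg (Dz z)]

theorem De_le_Nz {x z : EuclideanSpace ℝ (Fin M)} (hx : ‖x‖ < 1) (hz : ‖z‖ < 1) :
    De x z ^ 2 ≤ 25 * Nz x z := by
  have h1 := Dz_sq_le hx hz
  have h2 := Dz_sq_le' hx hz
  have h3 := sq_le_Nz hx hz
  have hN := Nz_pos hx hz
  have a1 : Dz x ≤ 2 * Real.sqrt (Nz x z) := by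
    refine le_of_sq_le_sq ?_ (by positivity)
    rw [mul_pow, Real.sq_sqrt hN.le]; linarith
  have a2 : Dz z ≤ 2 * Real.sqrt (Nz x z) := by
    refine le_of_sq_le_sq ?_ (by positivity)
    rw [mul_pow, Real.sq_sqrt hN.le]; linarith
  have a3 : ‖x - z‖ ≤ Real.sqrt (Nz x z) := by
    refine le_of_sq_le_sq ?_ (by positivity)
    rw [Real.sq_sqrt hN.le]; linarith
  have a4 : De x z ≤ 5 * Real.sqrt (Nz x z) := by unfold De; linarith
  have a5 := De_pos hx hz
  calc De x z ^ 2 ≤ (5 * Real.sqrt (Nz x z)) ^ 2 := by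
        exact pow_le_pow_left₀ a5.le a4 2
    _ = 25 * Nz x z := by rw [mul_pow, Real.sq_sqrt hN.le]; norm_num

/-- Four point inequality for De. -/
theorem De_four {a b c e : EuclideanSpace ℝ (Fin M)} (ha : ‖a‖ < 1) (hb : ‖b‖ < 1) (hc : ‖c‖ < 1)
    (he : ‖e‖ < 1) :
    De a b * De c e ≤ 4 * max (De a c * De b e) (De a e * De b c) := by
  have pab := De_pos ha hb
  have pac := De_pos ha hc
  have pae := De_pos ha he
  have pbc := De_pos hb hc
  have pbe := De_pos hb he
  have pce := De_pos hc he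
  have t1 : De a b ≤ De a c + De b c := by
    have := De_tri (x := a) (z := b) hc; rwa [De_symm c b] at this
  have t2 : De a b ≤ De a e + De b e := by
    have := De_tri (x := a) (z := b) he; rwa [De_symm e b] at this
  have t3 : De c e ≤ De a c + De a e := by
    have := De_tri (x := c) (z := e) ha; rwa [De_symm c a] at this
  have t4 : De c e ≤ De b c + De b e := by
    have := De_tri (x := c) (z := e) hb; rwa [De_symm c b] at this
  -- the smallest of the four
  rcases le_total (De a c) (De b c) with h1 | h1 <;> rcases le_total (De a e) (De b e) with h2 | h2 <;>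
    rcases le_total (De a c) (De a e) with h3 | h3 <;> rcases le_total (De b c) (De b e) with h4 | h4
  all_goals
    first
      | (have u1 : De a b ≤ 2 * De b c := by linarith
         have u2 : De c e ≤ 2 * De a e := by linarith
         have u3 := mul_le_mul u1 u2 pce.le (by linarith)
         have u4 := le_max_right (De a c * De b e) (De a e * De b c)
         nlinarith)
      | (have u1 : De a b ≤ 2 * De b e := by linarith
         have u2 : De c e ≤ 2 * De a c := by linarith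
         have u3 := mul_le_mul u1 u2 pce.le (by linarith)
         have u4 := le_max_left (De a c * De b e) (De a e * De b c)
         nlinarith)
      | (have u1 : De a b ≤ 2 * De a c := by linarith
         have u2 : De c e ≤ 2 * De b e := by linarith
         have u3 := mul_le_mul u1 u2 pce.le (by linarith)
         have u4 := le_max_left (De a c * De b e) (De a e * De b c)
         nlinarith)
      | (have u1 : De a b ≤ 2 * De a e := by linarith
         have u2 : De c e ≤ 2 * De b c := by linarith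
         have u3 := mul_le_mul u1 u2 pce.le (by linarith)
         have u4 := le_max_right (De a c * De b e) (De a e * De b c)
         nlinarith)

/-- Four point inequality for om. -/
theorem om_four {a b c e : EuclideanSpace ℝ (Fin M)} (ha : ‖a‖ < 1) (hb : ‖b‖ < 1) (hc : ‖c‖ < 1)
    (he : ‖e‖ < 1) :
    om a b * om c e ≤ 100 * max (om a c * om b e) (om a e * om b c) := by
  have da := Dz_pos ha
  have db := Dz_pos hb
  have dc := Dz_pos hc
  have de := Dz_pos he
  have hR : 0 < Dz a * Dz b * Dz c * Dz e := by positivity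
  -- om = sqrt N / sqrt (D D)
  have e1 : ∀ x y u v : EuclideanSpace ℝ (Fin M), ‖x‖ < 1 → ‖y‖ < 1 → ‖u‖ < 1 → ‖v‖ < 1 →
      (om x y * om u v) ^ 2 = Nz x y * Nz u v / (Dz x * Dz y * Dz u * Dz v) := by
    intro x y u v hx hy hu hv
    have := Dz_pos hx
    have := Dz_pos hy
    have := Dz_pos hu
    have := Dz_pos hv
    rw [mul_pow, om_sq hx hy, om_sq hu hv]
    field_simp
  have four := De_four ha hb hc he
  have lhs : (om a b * om c e) ^ 2 ≤ (De a b * De c e) ^ 2 / (Dz a * Dz b * Dz c * Dz e) := by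
    rw [e1 a b c e ha hb hc he]
    refine div_le_div_of_nonneg_right ?_ (by positivity)
    rw [mul_pow]
    exact mul_le_mul (Nz_le_De ha hb) (Nz_le_De hc he) (Nz_pos hc he).le (by positivity)
  have r1 : (De a c * De b e) ^ 2 / (Dz a * Dz b * Dz c * Dz e) ≤ 25 ^ 2 * (om a c * om b e) ^ 2 := by
    rw [e1 a c b e ha hc hb he, ← mul_div_assoc]
    rw [show Dz a * Dz c * Dz b * Dz e = Dz a * Dz b * Dz c * Dz e by ring]
    refine div_le_div_of_nonneg_right ?_ (by positivity)
    rw [mul_pow]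
    have := mul_le_mul (De_le_Nz ha hc) (De_le_Nz hb he) (sq_nonneg _)
      (mul_nonneg (by norm_num) (Nz_pos ha hc).le)
    linarith
  have r2 : (De a e * De b c) ^ 2 / (Dz a * Dz b * Dz c * Dz e) ≤ 25 ^ 2 * (om a e * om b c) ^ 2 := by
    rw [e1 a e b c ha he hb hc, ← mul_div_assoc]
    rw [show Dz a * Dz e * Dz b * Dz c = Dz a * Dz b * Dz c * Dz e by ring]
    refine div_le_div_of_nonneg_right ?_ (by positivity)
    rw [mul_pow]
    have := mul_le_mul (De_le_Nz ha he) (De_le_Nz hb hc) (sq_nonneg _)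
      (mul_nonneg (by norm_num) (Nz_pos ha he).le)
    linarith
  have p1 : 0 < om a c * om b e := mul_pos (om_pos ha hc) (om_pos hb he)
  have p2 : 0 < om a e * om b c := mul_pos (om_pos ha he) (om_pos hb hc)
  refine le_of_sq_le_sq ?_ (by positivity)
  have q0 : 0 ≤ De a b * De c e := (mul_pos (De_pos ha hb) (De_pos hc he)).le
  rcases le_total (De a c * De b e) (De a e * De b c) with hm | hm
  · rw [max_eq_right hm] at four
    have s1 : (De a b * De c e) ^ 2 ≤ 16 * (De a e * De b c) ^ 2 := by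
      have := pow_le_pow_left₀ q0 four 2
      linarith [this, mul_pow 4 (De a e * De b c) 2]
    have s2 : (om a b * om c e) ^ 2 ≤ 16 * (25 ^ 2 * (om a e * om b c) ^ 2) := by
      refine lhs.trans ?_
      rw [div_le_iff₀ hR]
      rw [div_le_iff₀ hR] at r2
      nlinarith
    have s3 : (om a e * om b c) ^ 2 ≤ (max (om a c * om b e) (om a e * om b c)) ^ 2 :=
      pow_le_pow_left₀ p2.le (le_max_right _ _) 2
    rw [mul_pow]
    nlinarith
  · rw [max_eq_left hm] at four
    have s1 : (De a b * De c e) ^ 2 ≤ 16 * (De a c * De b e) ^ 2 := by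
      have := pow_le_pow_left₀ q0 four 2
      linarith [this, mul_pow 4 (De a c * De b e) 2]
    have s2 : (om a b * om c e) ^ 2 ≤ 16 * (25 ^ 2 * (om a c * om b e) ^ 2) := by
      refine lhs.trans ?_
      rw [div_le_iff₀ hR]
      rw [div_le_iff₀ hR] at r1
      nlinarith
    have s3 : (om a c * om b e) ^ 2 ≤ (max (om a c * om b e) (om a e * om b c)) ^ 2 :=
      pow_le_pow_left₀ p1.le (le_max_left _ _) 2
    rw [mul_pow]
    nlinarith

end Pool.HQ
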