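import Pool.Agent.HQ.HsDefs
import Pool.Agent.HQ.SGeo2

/-!
MP_7936f4_al, full question.  Conjugation of an action on a subset of R^L x ball by the holonomy; padding of the
rough similarity by zero coordinates.
-/

namespace Pool.HQ

variable {G : Type} [Group G] {L M : ℕ}

theorem rd_nonneg {p q : EuclideanSpace ℝ (Fin L) × EuclideanSpace ℝ (Fin M)} (hp : ‖p.2‖ < 1) :
    0 ≤ rd p q := by
  unfold rd
  have : 0 < 1 - ‖p.2‖ := by linarith
  positivity

theorem om_disp {x z : EuclideanSpace ℝ (Fin M)} (hx : ‖x‖ < 1) (hz : ‖z‖ < 1) {S : ℝ} (hS : 0 < S)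
    (h1 : ‖z - x‖ ≤ S * (1 - ‖x‖)) (h2 : 1 - ‖x‖ ≤ S * (1 - ‖z‖)) : om x z ≤ 1 + S ^ 3 := by
  have hS3 : 0 < S ^ 3 := by positivity
  refine le_of_sq_le_sq ?_ (by linarith)
  have hDx := Dz_pos hx
  have hDz := Dz_pos hz
  have hx0 : 0 < 1 - ‖x‖ := by linarith
  have hz0 : 0 < 1 - ‖z‖ := by linarith
  have e1 : 1 - ‖x‖ ≤ Dz x := by
    unfold Dz; have := norm_nonneg x; nlinarith
  have e2 : 1 - ‖z‖ ≤ Dz z := by
    unfold Dz; have := norm_nonneg z; nlinarith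
  rw [om_sq hx hz, div_le_iff₀ (by positivity)]
  unfold Nz
  rw [norm_sub_rev] at h1
  have h3 : ‖x - z‖ ^ 2 ≤ S ^ 3 * (Dz x * Dz z) := by
    calc ‖x - z‖ ^ 2 ≤ (S * (1 - ‖x‖)) ^ 2 := pow_le_pow_left₀ (norm_nonneg _) h1 2
      _ = S ^ 2 * ((1 - ‖x‖) * (1 - ‖x‖)) := by ring
      _ ≤ S ^ 2 * (Dz x * (S * Dz z)) := by
          refine mul_le_mul_of_nonneg_left ?_ (by positivity)
          refine mul_le_mul e1 (h2.trans (mul_le_mul_of_nonneg_left e2 hS.le)) hx0.le hDx.le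
      _ = S ^ 3 * (Dz x * Dz z) := by ring
  have h4 : 0 < Dz x * Dz z := by positivity
  nlinarith [mul_pos hS3 h4, mul_pos (mul_pos hS3 hS3) h4]

theorem HsAct.conj {f : G → EuclideanSpace ℝ (Fin M)} (hf : ∀ a, ‖f a‖ < 1)
    {T T' : Set (EuclideanSpace ℝ (Fin L) × EuclideanSpace ℝ (Fin M))}
    {act : G → EuclideanSpace ℝ (Fin L) × EuclideanSpace ℝ (Fin M) →
      EuclideanSpace ℝ (Fin L) × EuclideanSpace ℝ (Fin M)}
    {Lo : EuclideanSpace ℝ (Fin L) × EuclideanSpace ℝ (Fin M) → G → Prop} {W η K : ℝ}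
    (H : HsAct f T act Lo W η K) (hT' : ∀ p ∈ T', ‖p.2‖ < 1)
    {F : EuclideanSpace ℝ (Fin L) × EuclideanSpace ℝ (Fin M) →
      EuclideanSpace ℝ (Fin L) × EuclideanSpace ℝ (Fin M)} {S η0 C1 : ℝ}
    (hS : 0 < S) (hη0 : 0 < η0) (hC1 : 0 < C1) (hF : Set.BijOn F T T')
    (hnear : ∀ p ∈ T, ‖(F p).2 - p.2‖ ≤ S * (1 - ‖p.2‖) ∧ 1 - ‖p.2‖ ≤ S * (1 - ‖(F p).2‖))
    (h1 : ∀ p ∈ T, ∀ q ∈ T, rd p q ≤ η0 → rd (F p) (F q) ≤ C1 * rd p q)
    (h2 : ∀ p ∈ T, ∀ q ∈ T, rd (F p) (F q) ≤ η0 → rd p q ≤ C1 * rd (F p) (F q)) :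
    ∃ (act' : G → EuclideanSpace ℝ (Fin L) × EuclideanSpace ℝ (Fin M) →
      EuclideanSpace ℝ (Fin L) × EuclideanSpace ℝ (Fin M))
      (Lo' : EuclideanSpace ℝ (Fin L) × EuclideanSpace ℝ (Fin M) → G → Prop) (W' η' K' : ℝ),
      HsAct f T' act' Lo' W' η' K' := by
  classical
  set Fi := Function.invFunOn F T with hFi
  have m1 : ∀ q ∈ T', Fi q ∈ T := fun q hq => by
    obtain ⟨p, hp, hpq⟩ := hF.surjOn hq
    exact Function.invFunOn_mem ⟨p, hp, hpq⟩
  have m2 : ∀ q ∈ T', F (Fi q) = q := fun q hq => by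
    obtain ⟨p, hp, hpq⟩ := hF.surjOn hq
    exact Function.invFunOn_eq ⟨p, hp, hpq⟩
  have m3 : ∀ p ∈ T, Fi (F p) = p := fun p hp =>
    hF.injOn (m1 _ (hF.mapsTo hp)) hp (m2 _ (hF.mapsTo hp))
  have hK0 : 0 < K := lt_of_lt_of_le one_pos H.one_le
  have hη := H.eta_pos
  refine ⟨fun g q => F (act g (Fi q)), fun q a => Lo (Fi q) a, 5 * ((|W| + 1) * (1 + S ^ 3)),
    min η0 (min (η / C1) (η0 / (K * C1))), max 1 (C1 * K * C1), ?_⟩
  refine ⟨hT', ?_, le_max_left _ _, ?_, ?_, ?_, ?_, ?_, ?_, ?_, ?_⟩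
  · exact lt_min hη0 (lt_min (by positivity) (by positivity))
  · intro g q hq
    exact hF.mapsTo (H.maps g _ (m1 q hq))
  · intro q hq
    show F (act 1 (Fi q)) = q
    rw [H.one _ (m1 q hq), m2 q hq]
  · intro g g' q hq
    show F (act (g * g') (Fi q)) = F (act g (Fi (F (act g' (Fi q)))))
    rw [m3 _ (H.maps g' _ (m1 q hq)), H.mul g g' _ (m1 q hq)]
  · intro q hq
    exact H.loc _ (m1 q hq)
  · intro g q hq a ha
    show Lo (Fi (F (act g (Fi q)))) (g * a)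
    rw [m3 _ (H.maps g _ (m1 q hq))]
    exact H.locg g _ (m1 q hq) a ha
  · intro q hq a ha
    have hp := m1 q hq
    have hc := H.close _ hp a ha
    obtain ⟨n1, n2⟩ := hnear _ hp
    rw [m2 q hq] at n1 n2
    have b1 := H.ball _ hp
    have b2 := hT' q hq
    have h3 := om_disp b1 b2 hS n1 n2
    have h4 := om_tri (hf a) b1 b2
    refine h4.trans (mul_le_mul_of_nonneg_left ?_ (by norm_num))
    have h5 : om (f a) (Fi q).2 ≤ |W| + 1 := by
      have := le_abs_self W; linarith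
    exact mul_le_mul h5 h3 (om_pos b1 b2).le (by positivity)
  · intro q hq q' hq' hr g
    have hp := m1 q hq
    have hp' := m1 q' hq'
    have r1 : rd q q' ≤ η0 := hr.trans (min_le_left _ _)
    have r2 : rd q q' ≤ η / C1 := hr.trans ((min_le_right _ _).trans (min_le_left _ _))
    have r3 : rd q q' ≤ η0 / (K * C1) := hr.trans ((min_le_right _ _).trans (min_le_right _ _))
    have n0 : 0 ≤ rd q q' := rd_nonneg (hT' q hq)
    have s1 : rd (Fi q) (Fi q') ≤ C1 * rd q q' := by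
      have := h2 _ hp _ hp' (by rw [m2 q hq, m2 q' hq']; exact r1)
      rwa [m2 q hq, m2 q' hq'] at this
    have s2 : rd (Fi q) (Fi q') ≤ η := by
      rw [le_div_iff₀ hC1] at r2
      linarith
    have s3 := H.lip _ hp _ hp' s2 g
    have s4 : rd (act g (Fi q)) (act g (Fi q')) ≤ K * (C1 * rd q q') :=
      s3.trans (mul_le_mul_of_nonneg_left s1 hK0.le)
    have s5 : rd (act g (Fi q)) (act g (Fi q')) ≤ η0 := by
      rw [le_div_iff₀ (by positivity)] at r3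
      refine s4.trans ?_
      linarith
    have s6 := h1 _ (H.maps g _ hp) _ (H.maps g _ hp') s5
    show rd (F (act g (Fi q))) (F (act g (Fi q'))) ≤ max 1 (C1 * K * C1) * rd q q'
    refine s6.trans ((mul_le_mul_of_nonneg_left s4 hC1.le).trans ?_)
    have := mul_le_mul_of_nonneg_right (le_max_right 1 (C1 * K * C1)) n0
    linarith
  · intro g hg
    obtain ⟨p, hp, hne⟩ := H.faith g hg
    refine ⟨F p, hF.mapsTo hp, ?_⟩
    show F (act g (Fi (F p))) ≠ F p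
    rw [m3 p hp]
    intro he
    exact hne (hF.injOn (H.maps g p hp) hp he)

theorem embed (M k : ℕ) (hk : M ≤ k) :
    Nonempty (EuclideanSpace ℝ (Fin M) →ₗᵢ[ℝ] EuclideanSpace ℝ (Fin k)) := by
  let b := (EuclideanSpace.basisFun (Fin M) ℝ).toBasis
  let g : EuclideanSpace ℝ (Fin M) →ₗ[ℝ] EuclideanSpace ℝ (Fin k) :=
    b.constr ℝ (fun i => EuclideanSpace.single (Fin.castLE hk i) (1 : ℝ))
  refine ⟨g.isometryOfOrthonormal (v := b) ?_ ?_⟩
  · rw [OrthonormalBasis.coe_toBasis]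
    exact (EuclideanSpace.basisFun (Fin M) ℝ).orthonormal
  · have h1 : (g ∘ b) = (fun i => EuclideanSpace.single i (1 : ℝ)) ∘ (Fin.castLE hk) := by
      funext i
      show g (b i) = _
      rw [Module.Basis.constr_basis]
      rfl
    rw [h1]
    exact (EuclideanSpace.orthonormal_single).comp _ (Fin.castLE_injective hk)

/-- Padding with zero coordinates. -/
theorem RoughSim.pad {d : G → G → ℕ} {lam C : ℝ} {f : G → EuclideanSpace ℝ (Fin M)}
    (hf : RoughSim d lam C f) (k : ℕ) (hk : M ≤ k) :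
    ∃ f' : G → EuclideanSpace ℝ (Fin k), RoughSim d lam C f' := by
  obtain ⟨ι⟩ := embed M k hk
  have e : ∀ a b, qd (ι (f a)) (ι (f b)) = qd (f a) (f b) := by
    intro a b
    unfold qd
    rw [← map_sub, ι.norm_map, ι.norm_map, ι.norm_map]
  refine ⟨fun a => ι (f a), hf.lam_pos, hf.one_le, ?_, ?_, ?_, ?_⟩
  · intro a; rw [ι.norm_map]; exact hf.ball a
  · show ι (f 1) = 0
    rw [hf.one, map_zero]
  · intro a b; rw [e]; exact hf.lo a b
  · intro a b; rw [e]; exact hf.up a b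

end Pool.HQ
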