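import Pool.Agent.HQ.SGeo2

/-!
MODULE SNear (MP_7936f4_al, star-shapedness block): local comparison of om x z and om x z' for z' near z,
uniformly in x.
-/

namespace Pool.HQ

variable {M : ℕ}

theorem Dz_sub_le {z z' : EuclideanSpace ℝ (Fin M)} (hz : ‖z‖ < 1) (hz' : ‖z'‖ < 1) :
    |Dz z' - Dz z| ≤ 2 * ‖z - z'‖ := by
  unfold Dz
  have h1 : |‖z‖ - ‖z'‖| ≤ ‖z - z'‖ := abs_norm_sub_norm_le z z'
  have e : (1 - ‖z'‖ ^ 2) - (1 - ‖z‖ ^ 2) = (‖z‖ - ‖z'‖) * (‖z‖ + ‖z'‖) := by ring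
  rw [e, abs_mul]
  have h2 : |‖z‖ + ‖z'‖| ≤ 2 := by
    rw [abs_of_nonneg (by positivity)]; linarith
  calc |‖z‖ - ‖z'‖| * |‖z‖ + ‖z'‖| ≤ ‖z - z'‖ * 2 :=
        mul_le_mul h1 h2 (abs_nonneg _) (norm_nonneg _)
    _ = 2 * ‖z - z'‖ := by ring

theorem Nz_near {x z z' : EuclideanSpace ℝ (Fin M)} (hx : ‖x‖ < 1) (hz : ‖z‖ < 1) (hz' : ‖z'‖ < 1)
    (h : ‖z - z'‖ ≤ Dz z / 4) : Nz x z' ≤ (1 + 13 * (‖z - z'‖ / Dz z)) * Nz x z := by
  set e := ‖z - z'‖ with he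
  have he0 : 0 ≤ e := norm_nonneg _
  have hD := Dz_pos hz
  have hN := Nz_pos hx hz
  set R := Real.sqrt (Nz x z) with hR
  have hR0 : 0 < R := Real.sqrt_pos.mpr hN
  have hRR : R ^ 2 = Nz x z := Real.sq_sqrt hN.le
  have a1 : Dz x ≤ 2 * R := by
    refine le_of_sq_le_sq ?_ (by positivity)
    rw [mul_pow, hRR]; linarith [Dz_sq_le hx hz]
  have a2 : Dz z ≤ 2 * R := by
    refine le_of_sq_le_sq ?_ (by positivity)
    rw [mul_pow, hRR]; linarith [Dz_sq_le' hx hz]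
  have a3 : ‖x - z‖ ≤ R := by
    refine le_of_sq_le_sq ?_ (by positivity)
    rw [hRR]; exact sq_le_Nz hx hz
  have b1 : ‖x - z'‖ ≤ ‖x - z‖ + e := by
    have := norm_sub_le_norm_sub_add_norm_sub x z z'
    exact this
  have b2 : ‖x - z'‖ ^ 2 ≤ ‖x - z‖ ^ 2 + 2 * R * e + e ^ 2 := by
    have := norm_nonneg (x - z')
    have := norm_nonneg (x - z)
    nlinarith
  have b3 : Dz z' ≤ Dz z + 2 * e := by
    have := (abs_le.mp (Dz_sub_le hz hz')).2
    linarith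
  have b4 : e ^ 2 ≤ e * R / 2 := by nlinarith
  have b5 : Dz x * Dz z' ≤ Dz x * Dz z + 4 * R * e := by
    have hx' := Dz_pos hx
    nlinarith
  have b6 : Nz x z' ≤ Nz x z + 13 / 2 * (R * e) := by
    unfold Nz; nlinarith
  have b7 : R * Dz z ≤ 2 * Nz x z := by rw [← hRR]; nlinarith
  have b8 : R * e ≤ 2 * (e / Dz z) * Nz x z := by
    have : R * e = (e / Dz z) * (R * Dz z) := by field_simp
    rw [this]
    have := mul_le_mul_of_nonneg_left b7 (div_nonneg he0 hD.le)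
    linarith
  nlinarith

theorem om_near1 {x z z' : EuclideanSpace ℝ (Fin M)} (hx : ‖x‖ < 1) (hz : ‖z‖ < 1) (hz' : ‖z'‖ < 1)
    (h : ‖z - z'‖ ≤ Dz z / 4) : om x z' ≤ (1 + 15 * (‖z - z'‖ / Dz z)) * om x z := by
  have hD := Dz_pos hz
  have hD' := Dz_pos hz'
  have hDx := Dz_pos hx
  have hN := Nz_pos hx hz
  set t := ‖z - z'‖ / Dz z with ht
  have ht0 : 0 ≤ t := div_nonneg (norm_nonneg _) hD.le
  have ht1 : t ≤ 1 / 4 := by rw [ht, div_le_iff₀ hD]; linarith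
  have hN' := Nz_near hx hz hz' h
  have b3 : (1 - 2 * t) * Dz z ≤ Dz z' := by
    have := (abs_le.mp (Dz_sub_le hz hz')).1
    have e1 : (1 - 2 * t) * Dz z = Dz z - 2 * ‖z - z'‖ := by rw [ht]; field_simp
    linarith
  refine om_le_of_sq (by positivity) hx hz ?_
  rw [om_sq hx hz', om_sq hx hz]
  have h2t : 0 < 1 - 2 * t := by linarith
  have c1 : Nz x z' / (Dz x * Dz z') ≤ ((1 + 13 * t) * Nz x z) / (Dz x * ((1 - 2 * t) * Dz z)) := by
    refine div_le_div₀ (by positivity) hN' (by positivity) ?_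
    exact mul_le_mul_of_nonneg_left b3 hDx.le
  refine c1.trans ?_
  have c2 : ((1 + 13 * t) * Nz x z) / (Dz x * ((1 - 2 * t) * Dz z)) =
      ((1 + 13 * t) / (1 - 2 * t)) * (Nz x z / (Dz x * Dz z)) := by
    field_simp
  rw [c2]
  refine mul_le_mul_of_nonneg_right ?_ (by positivity)
  rw [div_le_iff₀ h2t]
  nlinarith [mul_nonneg ht0 ht0, mul_nonneg (mul_nonneg ht0 ht0) (sub_nonneg.mpr ht1)]

/-- Two-sided comparison. -/
theorem om_near2 {x z z' : EuclideanSpace ℝ (Fin M)} (hx : ‖x‖ < 1) (hz : ‖z‖ < 1) (hz' : ‖z'‖ < 1)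
    (h : ‖z - z'‖ ≤ Dz z / 8) : om x z ≤ (1 + 30 * (‖z - z'‖ / Dz z)) * om x z' := by
  have hD := Dz_pos hz
  have hD' := Dz_pos hz'
  have b3 : Dz z / 2 ≤ Dz z' := by
    have := (abs_le.mp (Dz_sub_le hz hz')).1
    linarith
  have h' : ‖z' - z‖ ≤ Dz z' / 4 := by rw [norm_sub_rev]; linarith
  refine (om_near1 hx hz' hz h').trans ?_
  refine mul_le_mul_of_nonneg_right ?_ (om_pos hx hz').le
  rw [norm_sub_rev z' z]
  have : ‖z - z'‖ / Dz z' ≤ 2 * (‖z - z'‖ / Dz z) := by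
    rw [← mul_div_assoc, div_le_div_iff₀ hD' hD]
    nlinarith [norm_nonneg (z - z')]
  linarith

/-- The relative comparison in the form of a difference. -/
theorem om_near {x z z' : EuclideanSpace ℝ (Fin M)} (hx : ‖x‖ < 1) (hz : ‖z‖ < 1) (hz' : ‖z'‖ < 1)
    (h : ‖z - z'‖ ≤ Dz z / 60) : |om x z' - om x z| ≤ 30 * (‖z - z'‖ / Dz z) * om x z := by
  have hD := Dz_pos hz
  have h1 := om_near1 hx hz hz' (by linarith)
  have h2 := om_near2 hx hz hz' (by linarith)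
  set t := ‖z - z'‖ / Dz z with ht
  have ht0 : 0 ≤ t := div_nonneg (norm_nonneg _) hD.le
  have p1 := om_pos hx hz
  have p2 := om_pos hx hz'
  rw [abs_le]
  constructor
  · -- om x z' >= om x z / (1 + 30 t) >= (1 - 30 t) om x z
    have : (1 - 30 * t) * ((1 + 30 * t) * om x z') ≤ om x z' := by
      nlinarith [mul_nonneg (mul_nonneg ht0 ht0) p2.le]
    by_cases hc : 0 ≤ 1 - 30 * t
    · have := mul_le_mul_of_nonneg_left h2 hc
      nlinarith
    · push Not at hc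
      nlinarith
  · nlinarith [mul_nonneg ht0 p1.le]

end Pool.HQ
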