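import Pool.Agent.HQ.VOK
import Pool.Agent.HQ.SNear
import Pool.Agent.HQ.E02

/-!
MP_7936f4_al, full question.  Part III, LIPSCHITZ BLOCK (helper87), module LP00: the notion of close pairs
of points (Cs, Pr) and the calculus of Lipschitz / bounded functions.

All proofs are elementary: norm_sub_le, triangle inequality, products of bounded Lipschitz functions.
* smul: F p • H p - F q • H q = F p • (H p - H q) + (F p - F q) • H q.
* cl is 1-Lipschitz with values in [0,1].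
* of_le: use Pr.symm for the other inequality.
* of_small: if t > η use the bound: |F p - F q| ≤ 2B ≤ (2B/η) t.
* exists_ball: {a | d a b ≤ R} = left translate of {a | d 1 a ≤ R} (d a b = d b a = d 1 (b⁻¹ a)).
* LL1.of_family: n1 (ψ p - ψ q) = sum over the ball s about b of |F a p - F a q| ≤ N K t (n1_eq_sum).
-/

namespace Pool.HQ.LP

variable {G : Type} [Group G] {M L : ℕ}

/-- p and q are t-close (symmetric in p and q). -/
structure Cs (t : ℝ) (p q : EU L × EU M) : Prop where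
  hp : ‖p.2‖ < 1
  hq : ‖q.2‖ < 1
  t0 : 0 ≤ t
  t1 : t ≤ 1 / 200
  dX : ‖p.1 - q.1‖ ≤ t
  dz1 : ‖p.2 - q.2‖ ≤ t * (1 - ‖p.2‖)
  dz2 : ‖p.2 - q.2‖ ≤ t * (1 - ‖q.2‖)

theorem Cs.symm {t : ℝ} {p q : EU L × EU M} (h : Cs t p q) : Cs t q p := by
  refine ⟨h.hq, h.hp, h.t0, h.t1, ?_, ?_, ?_⟩
  · rw [norm_sub_rev]; exact h.dX
  · rw [norm_sub_rev]; exact h.dz2
  · rw [norm_sub_rev]; exact h.dz1

theorem Cs.of_rd {p q : EU L × EU M} (hp : ‖p.2‖ < 1) (hq : ‖q.2‖ < 1) (h : rd p q ≤ 1 / 400) :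
    Cs (2 * rd p q) p q := by
  have h1 : 0 < 1 - ‖p.2‖ := by linarith
  have hr : rd p q = ‖p.1 - q.1‖ + ‖p.2 - q.2‖ / (1 - ‖p.2‖) := rfl
  have ha : 0 ≤ ‖p.1 - q.1‖ := norm_nonneg _
  have hb : 0 ≤ ‖p.2 - q.2‖ / (1 - ‖p.2‖) := div_nonneg (norm_nonneg _) h1.le
  have hr0 : 0 ≤ rd p q := by rw [hr]; linarith
  have hz : ‖p.2 - q.2‖ ≤ rd p q * (1 - ‖p.2‖) := by
    have h2 : ‖p.2 - q.2‖ / (1 - ‖p.2‖) ≤ rd p q := by rw [hr]; linarith
    rwa [div_le_iff₀ h1] at h2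
  have hpq : ‖q.2‖ ≤ ‖p.2‖ + ‖p.2 - q.2‖ := by
    have := norm_sub_norm_le q.2 p.2
    rw [norm_sub_rev q.2 p.2] at this
    linarith
  refine ⟨hp, hq, by linarith, by linarith, ?_, ?_, ?_⟩
  · rw [hr]; linarith
  · nlinarith
  · have h3 : (1 - ‖p.2‖) * (1 - rd p q) ≤ 1 - ‖q.2‖ := by nlinarith
    have h4 : 1 - ‖p.2‖ ≤ 2 * (1 - ‖q.2‖) := by nlinarith
    have h5 := mul_le_mul_of_nonneg_left h4 hr0
    linarith

/-- b is good for p. -/
def Gd (Q : VD G M L) (p : EU L × EU M) (b : G) : Prop := ‖p.2‖ < 1 ∧ Q.Jp b p ≤ Q.A0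

/-- p, q are t-close and b is good for both. -/
structure Pr (Q : VD G M L) (t : ℝ) (p q : EU L × EU M) (b : G) : Prop where
  cs : Cs t p q
  jp : Q.Jp b p ≤ Q.A0
  jq : Q.Jp b q ≤ Q.A0

theorem Pr.symm {Q : VD G M L} {t : ℝ} {p q : EU L × EU M} {b : G} (h : Pr Q t p q b) :
    Pr Q t q p b := by
  exact ⟨h.cs.symm, h.jq, h.jp⟩

theorem Pr.gp {Q : VD G M L} {t : ℝ} {p q : EU L × EU M} {b : G} (h : Pr Q t p q b) : Gd Q p b := by
  exact ⟨h.cs.hp, h.jp⟩

theorem Pr.gq {Q : VD G M L} {t : ℝ} {p q : EU L × EU M} {b : G} (h : Pr Q t p q b) : Gd Q q b := by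
  exact ⟨h.cs.hq, h.jq⟩

/-! ### Lipschitz and bounded functions -/

/-- Lipschitz on close pairs with a common good b. -/
def LL (Q : VD G M L) {β : Type} [NormedAddCommGroup β] (F : EU L × EU M → β) : Prop :=
  ∃ K : ℝ, 0 ≤ K ∧ ∀ t p q b, Pr Q t p q b → ‖F p - F q‖ ≤ K * t

/-- bounded on good points. -/
def LB (Q : VD G M L) {β : Type} [NormedAddCommGroup β] (F : EU L × EU M → β) : Prop :=
  ∃ B : ℝ, 0 ≤ B ∧ ∀ p b, Gd Q p b → ‖F p‖ ≤ B

section cal
variable {Q : VD G M L} {β : Type} [NormedAddCommGroup β]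

theorem LL.const (c : β) : LL Q (fun _ => c) := by
  refine ⟨0, le_refl 0, ?_⟩
  intro t p q b _
  simp

theorem LB.const (c : β) : LB Q (fun _ => c) := by
  exact ⟨‖c‖, norm_nonneg c, fun _ _ _ => le_refl _⟩

theorem LL.add {F H : EU L × EU M → β} (hF : LL Q F) (hH : LL Q H) : LL Q (fun p => F p + H p) := by
  obtain ⟨K, hK, h1⟩ := hF
  obtain ⟨K', hK', h2⟩ := hH
  refine ⟨K + K', by linarith, ?_⟩
  intro t p q b h
  have h3 := h1 t p q b h
  have h4 := h2 t p q b h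
  calc ‖F p + H p - (F q + H q)‖ = ‖(F p - F q) + (H p - H q)‖ := by congr 1; abel
    _ ≤ ‖F p - F q‖ + ‖H p - H q‖ := norm_add_le _ _
    _ ≤ (K + K') * t := by linarith

theorem LB.add {F H : EU L × EU M → β} (hF : LB Q F) (hH : LB Q H) : LB Q (fun p => F p + H p) := by
  obtain ⟨K, hK, h1⟩ := hF
  obtain ⟨K', hK', h2⟩ := hH
  refine ⟨K + K', by linarith, ?_⟩
  intro p b h
  have h3 := h1 p b h
  have h4 := h2 p b h
  exact (norm_add_le _ _).trans (by linarith)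

theorem LL.sub {F H : EU L × EU M → β} (hF : LL Q F) (hH : LL Q H) : LL Q (fun p => F p - H p) := by
  obtain ⟨K, hK, h1⟩ := hF
  obtain ⟨K', hK', h2⟩ := hH
  refine ⟨K + K', by linarith, ?_⟩
  intro t p q b h
  have h3 := h1 t p q b h
  have h4 := h2 t p q b h
  calc ‖F p - H p - (F q - H q)‖ = ‖(F p - F q) - (H p - H q)‖ := by congr 1; abel
    _ ≤ ‖F p - F q‖ + ‖H p - H q‖ := norm_sub_le _ _
    _ ≤ (K + K') * t := by linarith

theorem LB.sub {F H : EU L × EU M → β} (hF : LB Q F) (hH : LB Q H) : LB Q (fun p => F p - H p) := by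
  obtain ⟨K, hK, h1⟩ := hF
  obtain ⟨K', hK', h2⟩ := hH
  refine ⟨K + K', by linarith, ?_⟩
  intro p b h
  have h3 := h1 p b h
  have h4 := h2 p b h
  exact (norm_sub_le _ _).trans (by linarith)

theorem LL.smul [NormedSpace ℝ β] {F : EU L × EU M → ℝ} {H : EU L × EU M → β} (hF : LL Q F)
    (hF' : LB Q F) (hH : LL Q H) (hH' : LB Q H) : LL Q (fun p => F p • H p) := by
  obtain ⟨K, hK, h1⟩ := hF
  obtain ⟨B, hB, h2⟩ := hF'
  obtain ⟨K', hK', h3⟩ := hH
  obtain ⟨B', hB', h4⟩ := hH'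
  refine ⟨B * K' + K * B', by positivity, ?_⟩
  intro t p q b h
  have h5 := h1 t p q b h
  have h6 := h3 t p q b h
  have h7 := h2 p b h.gp
  have h8 := h4 q b h.gq
  have ht := h.cs.t0
  have e : F p • H p - F q • H q = F p • (H p - H q) + (F p - F q) • H q := by
    rw [smul_sub, sub_smul]; abel
  calc ‖F p • H p - F q • H q‖ = ‖F p • (H p - H q) + (F p - F q) • H q‖ := by rw [e]
    _ ≤ ‖F p • (H p - H q)‖ + ‖(F p - F q) • H q‖ := norm_add_le _ _
    _ = ‖F p‖ * ‖H p - H q‖ + ‖F p - F q‖ * ‖H q‖ := by rw [norm_smul, norm_smul]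
    _ ≤ B * (K' * t) + (K * t) * B' := by
        apply add_le_add
        · exact mul_le_mul h7 h6 (norm_nonneg _) hB
        · exact mul_le_mul h5 h8 (norm_nonneg _) (by positivity)
    _ = (B * K' + K * B') * t := by ring

theorem LB.smul [NormedSpace ℝ β] {F : EU L × EU M → ℝ} {H : EU L × EU M → β} (hF : LB Q F)
    (hH : LB Q H) : LB Q (fun p => F p • H p) := by
  obtain ⟨B, hB, h2⟩ := hF
  obtain ⟨B', hB', h4⟩ := hH
  refine ⟨B * B', by positivity, ?_⟩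
  intro p b h
  rw [norm_smul]
  exact mul_le_mul (h2 p b h) (h4 p b h) (norm_nonneg _) hB

theorem LL.mul {F H : EU L × EU M → ℝ} (hF : LL Q F)
    (hF' : LB Q F) (hH : LL Q H) (hH' : LB Q H) : LL Q (fun p => F p * H p) := by
  have := hF.smul hF' hH hH'
  simpa only [smul_eq_mul] using this

theorem LB.mul {F H : EU L × EU M → ℝ} (hF : LB Q F) (hH : LB Q H) : LB Q (fun p => F p * H p) := by
  have := hF.smul hH
  simpa only [smul_eq_mul] using this

theorem LL.cmul (c : ℝ) {F : EU L × EU M → ℝ} (hF : LL Q F) : LL Q (fun p => c * F p) := by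
  obtain ⟨K, hK, h1⟩ := hF
  refine ⟨|c| * K, by positivity, ?_⟩
  intro t p q b h
  rw [← mul_sub, norm_mul, Real.norm_eq_abs c, mul_assoc]
  exact mul_le_mul_of_nonneg_left (h1 t p q b h) (abs_nonneg c)

theorem LB.cmul (c : ℝ) {F : EU L × EU M → ℝ} (hF : LB Q F) : LB Q (fun p => c * F p) := by
  obtain ⟨B, hB, h1⟩ := hF
  refine ⟨|c| * B, by positivity, ?_⟩
  intro p b h
  rw [norm_mul, Real.norm_eq_abs c]
  exact mul_le_mul_of_nonneg_left (h1 p b h) (abs_nonneg c)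

theorem LL.divc {F : EU L × EU M → ℝ} (hF : LL Q F) (c : ℝ) : LL Q (fun p => F p / c) := by
  have := LL.cmul c⁻¹ hF
  simpa only [div_eq_inv_mul] using this

theorem LB.divc {F : EU L × EU M → ℝ} (hF : LB Q F) (c : ℝ) : LB Q (fun p => F p / c) := by
  have := LB.cmul c⁻¹ hF
  simpa only [div_eq_inv_mul] using this

theorem cl_nonneg (s : ℝ) : 0 ≤ cl s := by
  exact le_max_left _ _

theorem cl_le_one (s : ℝ) : cl s ≤ 1 := by
  exact max_le (by norm_num) (min_le_left _ _)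

theorem cl_eq_zero {s : ℝ} (h : s ≤ 0) : cl s = 0 := by
  unfold cl
  rw [max_eq_left]
  exact (min_le_right _ _).trans h

theorem cl_eq_one {s : ℝ} (h : 1 ≤ s) : cl s = 1 := by
  unfold cl
  rw [min_eq_left h, max_eq_right]
  norm_num

theorem cl_lip (s s' : ℝ) : |cl s - cl s'| ≤ |s - s'| := by
  unfold cl
  have h1 : |max 0 (min 1 s) - max 0 (min 1 s')| ≤ |min 1 s - min 1 s'| := by
    have := abs_max_sub_max_le_max 0 (min 1 s) 0 (min 1 s')
    simpa using this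
  have h2 : |min 1 s - min 1 s'| ≤ |s - s'| := by
    have := abs_min_sub_min_le_max 1 s 1 s'
    simpa using this
  exact h1.trans h2

theorem LL.clamp {F : EU L × EU M → ℝ} (hF : LL Q F) : LL Q (fun p => cl (F p)) := by
  obtain ⟨K, hK, h1⟩ := hF
  exact ⟨K, hK, fun t p q b h => (cl_lip _ _).trans (h1 t p q b h)⟩

theorem LB.clamp (F : EU L × EU M → ℝ) : LB Q (fun p => cl (F p)) := by
  refine ⟨1, by norm_num, ?_⟩
  intro p b _
  rw [Real.norm_of_nonneg (cl_nonneg _)]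
  exact cl_le_one _

theorem LL.mx {F H : EU L × EU M → ℝ} (hF : LL Q F) (hH : LL Q H) :
    LL Q (fun p => max (F p) (H p)) := by
  obtain ⟨K, hK, h1⟩ := hF
  obtain ⟨K', hK', h2⟩ := hH
  refine ⟨K + K', by linarith, ?_⟩
  intro t p q b h
  have h3 := h1 t p q b h
  have h4 := h2 t p q b h
  have ht := h.cs.t0
  rw [Real.norm_eq_abs] at h3 h4 ⊢
  refine (abs_max_sub_max_le_max _ _ _ _).trans ?_
  have h5 : 0 ≤ K * t := by positivity
  have h6 : 0 ≤ K' * t := by positivity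
  apply max_le
  · linarith
  · linarith

theorem div_aux {a b c e m B K K' t : ℝ} (hm : 0 < m) (hc : m ≤ c) (he : m ≤ e) (hB : 0 ≤ B)
    (ha : |a| ≤ B) (h1 : |a - b| ≤ K * t) (h2 : |c - e| ≤ K' * t) :
    |a / c - b / e| ≤ (B * K' / m ^ 2 + K / m) * t := by
  have hc0 : 0 < c := lt_of_lt_of_le hm hc
  have he0 : 0 < e := lt_of_lt_of_le hm he
  have e1 : a / c - b / e = a * (e - c) / (c * e) + (a - b) / e := by
    field_simp
    ring
  have h3 : |a * (e - c) / (c * e)| ≤ B * (K' * t) / m ^ 2 := by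
    rw [abs_div, abs_mul, abs_of_pos (mul_pos hc0 he0), abs_sub_comm e c]
    have h4 : |a| * |c - e| ≤ B * (K' * t) := mul_le_mul ha h2 (abs_nonneg _) hB
    have h5 : m ^ 2 ≤ c * e := by
      rw [sq]
      exact mul_le_mul hc he hm.le hc0.le
    exact div_le_div₀ ((mul_nonneg (abs_nonneg _) (abs_nonneg _)).trans h4) h4 (by positivity) h5
  have h6 : |(a - b) / e| ≤ K * t / m := by
    rw [abs_div, abs_of_pos he0]
    exact div_le_div₀ ((abs_nonneg _).trans h1) h1 hm he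
  rw [e1]
  refine (abs_add_le _ _).trans ?_
  calc |a * (e - c) / (c * e)| + |(a - b) / e| ≤ B * (K' * t) / m ^ 2 + K * t / m := add_le_add h3 h6
    _ = _ := by ring

/-- quotient by a function bounded below. -/
theorem LL.div {F H : EU L × EU M → ℝ} (hF : LL Q F) (hF' : LB Q F) (hH : LL Q H)
    {m : ℝ} (hm : 0 < m) (hH' : ∀ p b, Gd Q p b → m ≤ H p) : LL Q (fun p => F p / H p) := by
  obtain ⟨K, hK, h1⟩ := hF
  obtain ⟨B, hB, h2⟩ := hF'
  obtain ⟨K', hK', h3⟩ := hH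
  refine ⟨B * K' / m ^ 2 + K / m, by positivity, ?_⟩
  intro t p q b h
  exact div_aux hm (hH' p b h.gp) (hH' q b h.gq) hB (h2 p b h.gp) (h1 t p q b h) (h3 t p q b h)

theorem LB.div {F H : EU L × EU M → ℝ} (hF : LB Q F)
    {m : ℝ} (hm : 0 < m) (hH' : ∀ p b, Gd Q p b → m ≤ H p) : LB Q (fun p => F p / H p) := by
  obtain ⟨B, hB, h2⟩ := hF
  refine ⟨B / m, by positivity, ?_⟩
  intro p b h
  have h3 := hH' p b h
  have h4 : 0 < H p := lt_of_lt_of_le hm h3
  rw [norm_div, Real.norm_of_nonneg h4.le]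
  exact div_le_div₀ hB (h2 p b h) hm h3

theorem LL.of_le {F : EU L × EU M → ℝ}
    (h : ∃ K : ℝ, 0 ≤ K ∧ ∀ t p q b, Pr Q t p q b → F q ≤ F p + K * t) : LL Q F := by
  obtain ⟨K, hK, h1⟩ := h
  refine ⟨K, hK, ?_⟩
  intro t p q b hp
  rw [Real.norm_eq_abs, abs_le]
  have h2 := h1 t p q b hp
  have h3 := h1 t q p b hp.symm
  constructor <;> linarith

theorem LL.of_small {F : EU L × EU M → β} (hB : LB Q F) (h : ∃ K η : ℝ, 0 ≤ K ∧ 0 < η ∧
    ∀ t p q b, Pr Q t p q b → t ≤ η → ‖F p - F q‖ ≤ K * t) : LL Q F := by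
  obtain ⟨B, hB0, h1⟩ := hB
  obtain ⟨K, η, hK, hη, h2⟩ := h
  refine ⟨K + 2 * B / η, by positivity, ?_⟩
  intro t p q b hp
  have ht := hp.cs.t0
  by_cases htη : t ≤ η
  · have h3 := h2 t p q b hp htη
    have h4 : 0 ≤ 2 * B / η * t := by positivity
    linarith
  · push Not at htη
    have h3 := h1 p b hp.gp
    have h4 := h1 q b hp.gq
    have h5 : 2 * B ≤ 2 * B / η * t := by
      rw [div_mul_eq_mul_div, le_div_iff₀ hη]
      exact mul_le_mul_of_nonneg_left htη.le (by positivity)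
    have h6 : 0 ≤ K * t := by positivity
    have h7 := norm_sub_le (F p) (F q)
    linarith

theorem LL.fst : LL Q (fun p => p.1) := by
  refine ⟨1, by norm_num, ?_⟩
  intro t p q b h
  rw [one_mul]
  exact h.cs.dX

end cal

/-! ### Families and finitely supported functions -/

/-- uniformly Lipschitz family. -/
def LLU (Q : VD G M L) (F : G → EU L × EU M → ℝ) : Prop :=
  ∃ K : ℝ, 0 ≤ K ∧ ∀ t p q b, Pr Q t p q b → ∀ a, |F a p - F a q| ≤ K * t

/-- uniformly bounded family. -/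
def LBU (Q : VD G M L) (F : G → EU L × EU M → ℝ) : Prop :=
  ∃ B : ℝ, 0 ≤ B ∧ ∀ p b, Gd Q p b → ∀ a, |F a p| ≤ B

/-- l¹ Lipschitz. -/
def LL1 (Q : VD G M L) (F : EU L × EU M → (G →₀ ℝ)) : Prop :=
  ∃ K : ℝ, 0 ≤ K ∧ ∀ t p q b, Pr Q t p q b → n1 (F p - F q) ≤ K * t

/-- l¹ bounded. -/
def LB1 (Q : VD G M L) (F : EU L × EU M → (G →₀ ℝ)) : Prop :=
  ∃ B : ℝ, 0 ≤ B ∧ ∀ p b, Gd Q p b → n1 (F p) ≤ B

/-- the family is supported in the balls of radius R about the good elements. -/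
def SB (Q : VD G M L) (R : ℕ) (F : G → EU L × EU M → ℝ) : Prop :=
  ∀ p b, Gd Q p b → ∀ a, F a p ≠ 0 → Q.d a b ≤ R

theorem exists_ball {d : G → G → ℕ} (hd : HypM d) (R : ℕ) :
    ∃ N : ℕ, ∀ b, ∃ s : Finset G, s.card ≤ N ∧ ∀ a, a ∈ s ↔ d a b ≤ R := by
  classical
  refine ⟨(hd.fin R).toFinset.card, ?_⟩
  intro b
  refine ⟨(hd.fin R).toFinset.image (fun a => b * a), Finset.card_image_le, ?_⟩
  intro a
  rw [Finset.mem_image]
  constructor
  · rintro ⟨x, hx, rfl⟩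
    rw [Set.Finite.mem_toFinset, Set.mem_setOf_eq] at hx
    have h1 : d (b * x) b = d x 1 := by
      have := hd.inv b x 1
      rwa [mul_one] at this
    rw [h1, hd.symm]
    exact hx
  · intro h
    refine ⟨b⁻¹ * a, ?_, by group⟩
    rw [Set.Finite.mem_toFinset, Set.mem_setOf_eq]
    have h1 := hd.inv b 1 (b⁻¹ * a)
    rw [mul_one, mul_inv_cancel_left] at h1
    rw [← h1, hd.symm]
    exact h

section fam
variable {Q : VD G M L}

theorem LL1.of_family (hd : HypM Q.d) {F : G → EU L × EU M → ℝ} {ψ : EU L × EU M → (G →₀ ℝ)}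
    (hF : LLU Q F) {R : ℕ} (hS : SB Q R F) (hψ : ∀ p b, Gd Q p b → ∀ a, ψ p a = F a p) : LL1 Q ψ := by
  classical
  obtain ⟨K, hK, h1⟩ := hF
  obtain ⟨N, hN⟩ := exists_ball hd R
  refine ⟨N * K, by positivity, ?_⟩
  intro t p q b h
  obtain ⟨s, hs, hmem⟩ := hN b
  have hz : ∀ a, a ∉ s → F a p = 0 ∧ F a q = 0 := by
    intro a ha
    constructor
    · by_contra hne
      exact ha ((hmem a).2 (hS p b h.gp a hne))
    · by_contra hne
      exact ha ((hmem a).2 (hS q b h.gq a hne))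
  have hsub : (ψ p - ψ q).support ⊆ s := by
    intro a ha
    by_contra hne
    rw [Finsupp.mem_support_iff, Finsupp.sub_apply, hψ p b h.gp a, hψ q b h.gq a, (hz a hne).1,
      (hz a hne).2, sub_zero] at ha
    exact ha rfl
  rw [n1_eq_sum _ hsub]
  have ht := h.cs.t0
  calc ∑ a ∈ s, |(ψ p - ψ q) a| ≤ ∑ _a ∈ s, K * t := by
        apply Finset.sum_le_sum
        intro a _
        rw [Finsupp.sub_apply, hψ p b h.gp a, hψ q b h.gq a]
        exact h1 t p q b h a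
    _ = s.card * (K * t) := by rw [Finset.sum_const, nsmul_eq_mul]
    _ ≤ N * (K * t) := by
        apply mul_le_mul_of_nonneg_right _ (by positivity)
        exact_mod_cast hs
    _ = _ := by ring

theorem LB1.of_family (hd : HypM Q.d) {F : G → EU L × EU M → ℝ} {ψ : EU L × EU M → (G →₀ ℝ)}
    (hF : LBU Q F) {R : ℕ} (hS : SB Q R F) (hψ : ∀ p b, Gd Q p b → ∀ a, ψ p a = F a p) : LB1 Q ψ := by
  classical
  obtain ⟨B, hB, h1⟩ := hF
  obtain ⟨N, hN⟩ := exists_ball hd R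
  refine ⟨N * B, by positivity, ?_⟩
  intro p b h
  obtain ⟨s, hs, hmem⟩ := hN b
  have hsub : (ψ p).support ⊆ s := by
    intro a ha
    rw [Finsupp.mem_support_iff, hψ p b h a] at ha
    exact (hmem a).2 (hS p b h a ha)
  rw [n1_eq_sum _ hsub]
  calc ∑ a ∈ s, |(ψ p) a| ≤ ∑ _a ∈ s, B := by
        apply Finset.sum_le_sum
        intro a _
        rw [hψ p b h a]
        exact h1 p b h a
    _ = s.card * B := by rw [Finset.sum_const, nsmul_eq_mul]
    _ ≤ N * B := by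
        apply mul_le_mul_of_nonneg_right _ hB
        exact_mod_cast hs

/-- sums of a uniformly Lipschitz family. -/
theorem LL.of_family (hd : HypM Q.d) {F : G → EU L × EU M → ℝ} {H : EU L × EU M → ℝ}
    (hF : LLU Q F) {R : ℕ} (hS : SB Q R F)
    (hH : ∀ p b, Gd Q p b → ∀ s : Finset G, (∀ a, F a p ≠ 0 → a ∈ s) → H p = ∑ a ∈ s, F a p) :
    LL Q H := by
  classical
  obtain ⟨K, hK, h1⟩ := hF
  obtain ⟨N, hN⟩ := exists_ball hd R
  refine ⟨N * K, by positivity, ?_⟩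
  intro t p q b h
  obtain ⟨s, hs, hmem⟩ := hN b
  rw [hH p b h.gp s (fun a ha => (hmem a).2 (hS p b h.gp a ha)),
    hH q b h.gq s (fun a ha => (hmem a).2 (hS q b h.gq a ha)), ← Finset.sum_sub_distrib]
  have ht := h.cs.t0
  calc ‖∑ a ∈ s, (F a p - F a q)‖ ≤ ∑ a ∈ s, |F a p - F a q| := by
        rw [Real.norm_eq_abs]
        exact Finset.abs_sum_le_sum_abs _ _
    _ ≤ ∑ _a ∈ s, K * t := Finset.sum_le_sum fun a _ => h1 t p q b h a
    _ = s.card * (K * t) := by rw [Finset.sum_const, nsmul_eq_mul]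
    _ ≤ N * (K * t) := by
        apply mul_le_mul_of_nonneg_right _ (by positivity)
        exact_mod_cast hs
    _ = _ := by ring

theorem LB.of_family (hd : HypM Q.d) {F : G → EU L × EU M → ℝ} {H : EU L × EU M → ℝ}
    (hF : LBU Q F) {R : ℕ} (hS : SB Q R F)
    (hH : ∀ p b, Gd Q p b → ∀ s : Finset G, (∀ a, F a p ≠ 0 → a ∈ s) → H p = ∑ a ∈ s, F a p) :
    LB Q H := by
  classical
  obtain ⟨B, hB, h1⟩ := hF
  obtain ⟨N, hN⟩ := exists_ball hd R
  refine ⟨N * B, by positivity, ?_⟩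
  intro p b h
  obtain ⟨s, hs, hmem⟩ := hN b
  rw [hH p b h s (fun a ha => (hmem a).2 (hS p b h a ha))]
  calc ‖∑ a ∈ s, F a p‖ ≤ ∑ a ∈ s, |F a p| := by
        rw [Real.norm_eq_abs]
        exact Finset.abs_sum_le_sum_abs _ _
    _ ≤ ∑ _a ∈ s, B := Finset.sum_le_sum fun a _ => h1 p b h a
    _ = s.card * B := by rw [Finset.sum_const, nsmul_eq_mul]
    _ ≤ N * B := by
        apply mul_le_mul_of_nonneg_right _ hB
        exact_mod_cast hs

/-- quotient of a family by a function bounded below. -/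
theorem LLU.div {F : G → EU L × EU M → ℝ} {H : EU L × EU M → ℝ} (hF : LLU Q F) (hF' : LBU Q F)
    (hH : LL Q H) {m : ℝ} (hm : 0 < m) (hH' : ∀ p b, Gd Q p b → m ≤ H p) :
    LLU Q (fun a p => F a p / H p) := by
  obtain ⟨K, hK, h1⟩ := hF
  obtain ⟨B, hB, h2⟩ := hF'
  obtain ⟨K', hK', h3⟩ := hH
  refine ⟨B * K' / m ^ 2 + K / m, by positivity, ?_⟩
  intro t p q b h a
  exact div_aux hm (hH' p b h.gp) (hH' q b h.gq) hB (h2 p b h.gp a) (h1 t p q b h a)
    (h3 t p q b h)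

theorem LBU.div {F : G → EU L × EU M → ℝ} {H : EU L × EU M → ℝ} (hF : LBU Q F)
    {m : ℝ} (hm : 0 < m) (hH' : ∀ p b, Gd Q p b → m ≤ H p) :
    LBU Q (fun a p => F a p / H p) := by
  obtain ⟨B, hB, h2⟩ := hF
  refine ⟨B / m, by positivity, ?_⟩
  intro p b h a
  have h3 := hH' p b h
  have h4 : 0 < H p := lt_of_lt_of_le hm h3
  rw [abs_div, abs_of_pos h4]
  exact div_le_div₀ hB (h2 p b h a) hm h3

theorem LL1.add {F H : EU L × EU M → (G →₀ ℝ)} (hF : LL1 Q F) (hH : LL1 Q H) :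
    LL1 Q (fun p => F p + H p) := by
  obtain ⟨K, hK, h1⟩ := hF
  obtain ⟨K', hK', h2⟩ := hH
  refine ⟨K + K', by linarith, ?_⟩
  intro t p q b h
  have h3 := h1 t p q b h
  have h4 := h2 t p q b h
  calc n1 (F p + H p - (F q + H q)) = n1 ((F p - F q) + (H p - H q)) := by congr 1; abel
    _ ≤ n1 (F p - F q) + n1 (H p - H q) := n1_add_le _ _
    _ ≤ (K + K') * t := by linarith

theorem LB1.add {F H : EU L × EU M → (G →₀ ℝ)} (hF : LB1 Q F) (hH : LB1 Q H) :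
    LB1 Q (fun p => F p + H p) := by
  obtain ⟨K, hK, h1⟩ := hF
  obtain ⟨K', hK', h2⟩ := hH
  refine ⟨K + K', by linarith, ?_⟩
  intro p b h
  have h3 := h1 p b h
  have h4 := h2 p b h
  exact (n1_add_le _ _).trans (by linarith)

theorem LL1.smul {F : EU L × EU M → ℝ} {H : EU L × EU M → (G →₀ ℝ)} (hF : LL Q F) (hF' : LB Q F)
    (hH : LL1 Q H) (hH' : LB1 Q H) : LL1 Q (fun p => F p • H p) := by
  obtain ⟨K, hK, h1⟩ := hF
  obtain ⟨B, hB, h2⟩ := hF'
  obtain ⟨K', hK', h3⟩ := hH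
  obtain ⟨B', hB', h4⟩ := hH'
  refine ⟨B * K' + K * B', by positivity, ?_⟩
  intro t p q b h
  have h5 := h1 t p q b h
  have h6 := h3 t p q b h
  have h7 := h2 p b h.gp
  have h8 := h4 q b h.gq
  have ht := h.cs.t0
  rw [Real.norm_eq_abs] at h5 h7
  have e : F p • H p - F q • H q = F p • (H p - H q) + (F p - F q) • H q := by
    rw [smul_sub, sub_smul]; abel
  calc n1 (F p • H p - F q • H q) = n1 (F p • (H p - H q) + (F p - F q) • H q) := by rw [e]
    _ ≤ n1 (F p • (H p - H q)) + n1 ((F p - F q) • H q) := n1_add_le _ _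
    _ = |F p| * n1 (H p - H q) + |F p - F q| * n1 (H q) := by rw [n1_smul, n1_smul]
    _ ≤ B * (K' * t) + (K * t) * B' := by
        apply add_le_add
        · exact mul_le_mul h7 h6 (n1_nonneg _) hB
        · exact mul_le_mul h5 h8 (n1_nonneg _) (by positivity)
    _ = (B * K' + K * B') * t := by ring

theorem LB1.smul {F : EU L × EU M → ℝ} {H : EU L × EU M → (G →₀ ℝ)} (hF : LB Q F)
    (hH : LB1 Q H) : LB1 Q (fun p => F p • H p) := by
  obtain ⟨B, hB, h2⟩ := hF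
  obtain ⟨B', hB', h4⟩ := hH
  refine ⟨B * B', by positivity, ?_⟩
  intro p b h
  rw [n1_smul]
  exact mul_le_mul (h2 p b h) (h4 p b h) (n1_nonneg _) hB

theorem abs_tot_le (ψ : G →₀ ℝ) : |tot ψ| ≤ n1 ψ := by
  rw [n1_eq_sum ψ (Finset.Subset.refl _)]
  exact Finset.abs_sum_le_sum_abs _ _

theorem tot_sub (ψ ψ' : G →₀ ℝ) : tot (ψ - ψ') = tot ψ - tot ψ' := by
  unfold tot
  exact Finsupp.sum_sub_index (fun _ _ _ => rfl)

theorem norm_io_le (c : G → Fin L) (ψ : G →₀ ℝ) : ‖io c ψ‖ ≤ n1 ψ := by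
  rw [n1_eq_sum ψ (Finset.Subset.refl _)]
  refine (norm_sum_le _ _).trans (le_of_eq ?_)
  apply Finset.sum_congr rfl
  intro a _
  rw [norm_smul, EuclideanSpace.norm_single, norm_one, mul_one, Real.norm_eq_abs]

theorem io_sub (c : G → Fin L) (ψ ψ' : G →₀ ℝ) : io c (ψ - ψ') = io c ψ - io c ψ' := by
  unfold io
  exact Finsupp.sum_sub_index (fun _ _ _ => sub_smul _ _ _)

theorem LL1.totL {F : EU L × EU M → (G →₀ ℝ)} (hF : LL1 Q F) : LL Q (fun p => tot (F p)) := by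
  obtain ⟨K, hK, h1⟩ := hF
  refine ⟨K, hK, ?_⟩
  intro t p q b h
  rw [← tot_sub, Real.norm_eq_abs]
  exact (abs_tot_le _).trans (h1 t p q b h)

theorem LB1.totB {F : EU L × EU M → (G →₀ ℝ)} (hF : LB1 Q F) : LB Q (fun p => tot (F p)) := by
  obtain ⟨B, hB, h1⟩ := hF
  exact ⟨B, hB, fun p b h => (abs_tot_le _).trans (h1 p b h)⟩

theorem LL1.ioL (c : G → Fin L) {F : EU L × EU M → (G →₀ ℝ)} (hF : LL1 Q F) :
    LL Q (fun p => io c (F p)) := by
  obtain ⟨K, hK, h1⟩ := hF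
  refine ⟨K, hK, ?_⟩
  intro t p q b h
  rw [← io_sub]
  exact (norm_io_le c _).trans (h1 t p q b h)

theorem LB1.ioB (c : G → Fin L) {F : EU L × EU M → (G →₀ ℝ)} (hF : LB1 Q F) :
    LB Q (fun p => io c (F p)) := by
  obtain ⟨B, hB, h1⟩ := hF
  exact ⟨B, hB, fun p b h => (norm_io_le c _).trans (h1 p b h)⟩

end fam

end Pool.HQ.LP
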