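import Pool.Agent.HQ.LP00

/-!
MP_7936f4_al, full question.  Part III, LIPSCHITZ BLOCK (helper87), module LP01: om and the cut-off k.

* om_close: om_near (SNear) with |z-z'| ≤ t (1-|z|) ≤ t Dz z ≤ Dz z / 200 (Dz z = (1-|z|)(1+|z|) ≥ 1-|z|).
* k_close: if om(f a,z) ≤ 3W: cl is 1-Lipschitz, |o - o'|/W ≤ 30 t o / W ≤ 90 t.  If om(f a, z) > 3 W then
  o' ≥ (1 - 30 t) o ≥ (1 - 30/200) 3 W > 2 W, so both cut-offs vanish (argument of cl negative).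
* norm_sub_le_om: |x-z|^2 ≤ Nz x z = om^2 Dz x Dz z (om_sq), and Dz x ≤ 4 om^2 Dz z
  (Dz x ^2 ≤ 4 Nz x z = 4 om^2 Dz x Dz z, divide by Dz x).  So |x-z|^2 ≤ 4 om^4 (Dz z)^2.
  Dz z ≤ 2 (1-|z|).
* om_le_of: om^2 = Nz/(Dz x Dz z) = |x-z|^2/(Dz x Dz z) + 1 ≤ A^2/m + 1 ≤ (A^2/m+1)^2  (A^2/m + 1 ≥ 1).
* om_close_left: for |x-x'| ≤ Dz x / 60: om_near with om_symm.
-/

namespace Pool.HQ.LP

variable {G : Type} {M L : ℕ}

theorem one_sub_le_Dz {z : EU M} (hz : ‖z‖ < 1) : 1 - ‖z‖ ≤ Dz z := by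
  unfold Dz
  nlinarith [norm_nonneg z]

theorem Dz_le_two {z : EU M} (hz : ‖z‖ < 1) : Dz z ≤ 2 * (1 - ‖z‖) := by
  unfold Dz
  nlinarith [norm_nonneg z]

theorem om_close {t : ℝ} {p q : EU L × EU M} (h : Cs t p q) {x : EU M} (hx : ‖x‖ < 1) :
    |om x p.2 - om x q.2| ≤ 30 * t * om x p.2 := by
  have hD := Dz_pos h.hp
  have h1 := one_sub_le_Dz h.hp
  have h2 : ‖p.2 - q.2‖ ≤ t * Dz p.2 := h.dz1.trans (mul_le_mul_of_nonneg_left h1 h.t0)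
  have h3 : ‖p.2 - q.2‖ ≤ Dz p.2 / 60 := by
    have := mul_le_mul_of_nonneg_right h.t1 hD.le
    linarith
  have h4 := om_near hx h.hp h.hq h3
  have h5 : ‖p.2 - q.2‖ / Dz p.2 ≤ t := by
    rw [div_le_iff₀ hD]
    exact h2
  rw [abs_sub_comm] at h4
  refine h4.trans ?_
  exact mul_le_mul_of_nonneg_right (by linarith) (om_pos hx h.hp).le

theorem om_close' {t : ℝ} {p q : EU L × EU M} (h : Cs t p q) {x : EU M} (hx : ‖x‖ < 1) :
    |om x p.2 - om x q.2| ≤ 30 * t * om x q.2 := by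
  rw [abs_sub_comm]
  exact om_close h.symm hx

theorem om_le_close {t : ℝ} {p q : EU L × EU M} (h : Cs t p q) {x : EU M} (hx : ‖x‖ < 1) :
    om x q.2 ≤ (1 + 30 * t) * om x p.2 := by
  have h1 := (abs_le.1 (om_close h hx)).1
  linarith

theorem k_nonneg (Q : VD G M L) (W : ℝ) (z : EU M) (a : G) : 0 ≤ Q.k W z a := cl_nonneg _

theorem k_le_one (Q : VD G M L) (W : ℝ) (z : EU M) (a : G) : Q.k W z a ≤ 1 := cl_le_one _

theorem k_eq_zero (Q : VD G M L) {W : ℝ} (hW : 0 < W) {z : EU M} {a : G} (h : 2 * W ≤ Q.o a z) :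
    Q.k W z a = 0 := by
  unfold VD.k cl
  have h1 : 2 ≤ Q.o a z / W := by
    rw [le_div_iff₀ hW]
    exact h
  exact max_eq_left ((min_le_right _ _).trans (by linarith))

theorem k_close (Q : VD G M L) (hb : ∀ a, ‖Q.f a‖ < 1) {t : ℝ} {p q : EU L × EU M} (h : Cs t p q)
    {W : ℝ} (hW : 0 < W) (a : G) : |Q.k W p.2 a - Q.k W q.2 a| ≤ 90 * t := by
  have h0 : |Q.o a p.2 - Q.o a q.2| ≤ 30 * t * Q.o a p.2 := om_close h (hb a)
  have ht := h.t0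
  rcases le_or_gt (Q.o a p.2) (3 * W) with h1 | h1
  · unfold VD.k
    refine (cl_lip _ _).trans ?_
    have e : 2 - Q.o a p.2 / W - (2 - Q.o a q.2 / W) = -((Q.o a p.2 - Q.o a q.2) / W) := by ring
    rw [e, abs_neg, abs_div, abs_of_pos hW, div_le_iff₀ hW]
    refine h0.trans ?_
    nlinarith
  · have h2 := (abs_le.1 h0).2
    have h3 := h.t1
    have h4 : 2 * W ≤ Q.o a q.2 := by
      have : 30 * t * Q.o a p.2 ≤ 30 * (1 / 200) * Q.o a p.2 :=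
        mul_le_mul_of_nonneg_right (by linarith) (by linarith)
      linarith
    rw [k_eq_zero Q hW (by linarith : 2 * W ≤ Q.o a p.2), k_eq_zero Q hW h4, sub_self, abs_zero]
    positivity

theorem Dz_le_om {x z : EU M} (hx : ‖x‖ < 1) (hz : ‖z‖ < 1) : Dz x ≤ 4 * om x z ^ 2 * Dz z := by
  have hDx := Dz_pos hx
  have hDz := Dz_pos hz
  have h1 := Dz_sq_le hx hz
  have h2 : Nz x z = om x z ^ 2 * (Dz x * Dz z) := by
    rw [om_sq hx hz]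
    field_simp
  rw [h2] at h1
  refine le_of_mul_le_mul_left (a := Dz x) ?_ hDx
  calc Dz x * Dz x = Dz x ^ 2 := by ring
    _ ≤ 4 * (om x z ^ 2 * (Dz x * Dz z)) := h1
    _ = _ := by ring

theorem norm_sub_le_om {x z : EU M} (hx : ‖x‖ < 1) (hz : ‖z‖ < 1) :
    ‖x - z‖ ≤ 4 * om x z ^ 2 * (1 - ‖z‖) := by
  have hDx := Dz_pos hx
  have hDz := Dz_pos hz
  have h0 := Dz_le_om hx hz
  have h1 := sq_le_Nz hx hz
  have h2 : Nz x z = om x z ^ 2 * (Dz x * Dz z) := by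
    rw [om_sq hx hz]
    field_simp
  have h3 : ‖x - z‖ ^ 2 ≤ (2 * om x z ^ 2 * Dz z) ^ 2 := by
    calc ‖x - z‖ ^ 2 ≤ om x z ^ 2 * (Dz x * Dz z) := by rw [← h2]; exact h1
      _ ≤ om x z ^ 2 * ((4 * om x z ^ 2 * Dz z) * Dz z) := by
          refine mul_le_mul_of_nonneg_left ?_ (sq_nonneg _)
          exact mul_le_mul_of_nonneg_right h0 hDz.le
      _ = _ := by ring
  have h4 : ‖x - z‖ ≤ 2 * om x z ^ 2 * Dz z := by
    have h5 : 0 ≤ 2 * om x z ^ 2 * Dz z := by positivity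
    exact abs_le_of_sq_le_sq' h3 h5 |>.2
  have h6 := Dz_le_two hz
  calc ‖x - z‖ ≤ 2 * om x z ^ 2 * Dz z := h4
    _ ≤ 2 * om x z ^ 2 * (2 * (1 - ‖z‖)) := mul_le_mul_of_nonneg_left h6 (by positivity)
    _ = _ := by ring

theorem om_le_of {x z : EU M} (hx : ‖x‖ < 1) (hz : ‖z‖ < 1) {A m : ℝ} (hm : 0 < m)
    (h1 : ‖x - z‖ ≤ A * (1 - ‖z‖)) (h2 : m * (1 - ‖z‖) ≤ Dz x) : om x z ≤ A ^ 2 / m + 1 := by
  have hDx := Dz_pos hx
  have hDz := Dz_pos hz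
  have h0 : 0 < 1 - ‖z‖ := by linarith
  have h3 := one_sub_le_Dz hz
  have h4 : om x z ^ 2 = ‖x - z‖ ^ 2 / (Dz x * Dz z) + 1 := by
    rw [om_sq hx hz]
    unfold Nz
    field_simp
  have h5 : ‖x - z‖ ^ 2 ≤ (A * (1 - ‖z‖)) ^ 2 := pow_le_pow_left₀ (norm_nonneg _) h1 2
  have h6 : ‖x - z‖ ^ 2 / (Dz x * Dz z) ≤ A ^ 2 / m := by
    rw [div_le_div_iff₀ (mul_pos hDx hDz) hm]
    have h7 : m * (1 - ‖z‖) * (1 - ‖z‖) ≤ Dz x * Dz z :=
      mul_le_mul h2 h3 h0.le hDx.le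
    calc ‖x - z‖ ^ 2 * m ≤ (A * (1 - ‖z‖)) ^ 2 * m := mul_le_mul_of_nonneg_right h5 hm.le
      _ = A ^ 2 * (m * (1 - ‖z‖) * (1 - ‖z‖)) := by ring
      _ ≤ A ^ 2 * (Dz x * Dz z) := mul_le_mul_of_nonneg_left h7 (sq_nonneg _)
  have h8 := one_le_om hx hz
  have h9 : om x z ≤ om x z ^ 2 := by nlinarith
  linarith

theorem om_close_left {x x' z : EU M} (hx : ‖x‖ < 1) (hx' : ‖x'‖ < 1) (hz : ‖z‖ < 1)
    (h : ‖x - x'‖ ≤ Dz x / 60) : |om x' z - om x z| ≤ 30 * (‖x - x'‖ / Dz x) * om x z := by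
  have h1 := om_near hz hx hx' h
  rw [om_symm x' z, om_symm x z]
  exact h1

end Pool.HQ.LP
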