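import Pool.Agent.HQ.LP00

/-!
MP_7936f4_al, full question.  Part III, LIPSCHITZ BLOCK (helper87), module LP02: the costs NN.

NN c E w X = inf over psi with tot psi = 1 of cst w psi + E |X - io c psi|, bounded below by 0.
The index type is nonempty: single a 1 (G is a group).
* NN_le: ciInf_le;  exists_near: exists_lt_of_ciInf_lt;  le_NN: le_ciInf.
* n1_le_cst: |t| ≤ w a |t|.
* one_le_NN: 1 = tot psi ≤ n1 psi ≤ cst w psi.
* norm_le_NN: |X| ≤ |io psi| + |X - io psi| ≤ n1 psi + E |X - io psi|.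
* NN_lipX: |X' - io psi| ≤ |X - io psi| + |X - X'|.
* NN_scale: cst w' psi ≤ s cst w psi, s ≥ 1.
-/

namespace Pool.HQ.LP

variable {G : Type} [Group G] {L : ℕ} {c : G → Fin L} {E : ℝ} {w w' : G → ℝ} {X X' : EU L}

omit [Group G] in
theorem cst_nonneg (hw : ∀ a, 0 ≤ w a) (ψ : G →₀ ℝ) : 0 ≤ cst w ψ := by
  unfold cst Finsupp.sum
  exact Finset.sum_nonneg fun a _ => mul_nonneg (hw a) (abs_nonneg _)

omit [Group G] in
theorem cst_mono (hw : ∀ a, w a ≤ w' a) (ψ : G →₀ ℝ) : cst w ψ ≤ cst w' ψ := by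
  unfold cst Finsupp.sum
  exact Finset.sum_le_sum fun a _ => mul_le_mul_of_nonneg_right (hw a) (abs_nonneg _)

omit [Group G] in
theorem cst_scale {s : ℝ} (hw : ∀ a, w' a ≤ s * w a) (ψ : G →₀ ℝ) : cst w' ψ ≤ s * cst w ψ := by
  unfold cst Finsupp.sum
  rw [Finset.mul_sum]
  refine Finset.sum_le_sum fun a _ => ?_
  rw [← mul_assoc]
  exact mul_le_mul_of_nonneg_right (hw a) (abs_nonneg _)

omit [Group G] in
theorem n1_le_cst (hw : ∀ a, 1 ≤ w a) (ψ : G →₀ ℝ) : n1 ψ ≤ cst w ψ := by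
  unfold cst Finsupp.sum n1
  refine Finset.sum_le_sum fun a _ => ?_
  have h1 := abs_nonneg (ψ a)
  have h2 := mul_le_mul_of_nonneg_right (hw a) h1
  rwa [one_mul] at h2

theorem NN_le (hw : ∀ a, 0 ≤ w a) (hE : 0 ≤ E) {ψ : G →₀ ℝ} (hψ : tot ψ = 1) :
    NN c E w X ≤ cst w ψ + E * ‖X - io c ψ‖ := by
  unfold NN
  refine ciInf_le (f := fun ψ : {ψ : G →₀ ℝ // tot ψ = 1} => cst w ψ.1 + E * ‖X - io c ψ.1‖)
    ⟨0, ?_⟩ ⟨ψ, hψ⟩
  rintro _ ⟨φ, rfl⟩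
  exact add_nonneg (cst_nonneg hw _) (mul_nonneg hE (norm_nonneg _))

private theorem tot_single_one : tot (Finsupp.single (1 : G) (1 : ℝ)) = 1 := by
  unfold tot
  rw [Finsupp.sum_single_index rfl]

private theorem nonempty_tot : Nonempty {ψ : G →₀ ℝ // tot ψ = 1} :=
  ⟨⟨Finsupp.single (1 : G) (1 : ℝ), tot_single_one⟩⟩

theorem exists_near {s : ℝ} (hs : NN c E w X < s) :
    ∃ ψ : G →₀ ℝ, tot ψ = 1 ∧ cst w ψ + E * ‖X - io c ψ‖ < s := by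
  have : Nonempty {ψ : G →₀ ℝ // tot ψ = 1} := nonempty_tot
  unfold NN at hs
  obtain ⟨⟨ψ, hψ⟩, h⟩ := exists_lt_of_ciInf_lt hs
  exact ⟨ψ, hψ, h⟩

theorem le_NN {s : ℝ} (h : ∀ ψ : G →₀ ℝ, tot ψ = 1 → s ≤ cst w ψ + E * ‖X - io c ψ‖) :
    s ≤ NN c E w X := by
  have : Nonempty {ψ : G →₀ ℝ // tot ψ = 1} := nonempty_tot
  unfold NN
  exact le_ciInf fun ψ => h ψ.1 ψ.2

theorem NN_nonneg (hw : ∀ a, 0 ≤ w a) (hE : 0 ≤ E) : 0 ≤ NN c E w X :=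
  le_NN fun _ _ => add_nonneg (cst_nonneg hw _) (mul_nonneg hE (norm_nonneg _))

theorem NN_mono (hw : ∀ a, 0 ≤ w a) (hE : 0 ≤ E) (h : ∀ a, w a ≤ w' a) :
    NN c E w X ≤ NN c E w' X := by
  refine le_NN fun ψ hψ => ?_
  have h1 := NN_le (c := c) (X := X) hw hE hψ
  have h2 := cst_mono h ψ
  linarith

theorem one_le_NN (hw : ∀ a, 1 ≤ w a) (hE : 0 ≤ E) : 1 ≤ NN c E w X := by
  refine le_NN fun ψ hψ => ?_
  have h1 := abs_tot_le ψ
  have h2 := n1_le_cst hw ψ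
  have h3 : 0 ≤ E * ‖X - io c ψ‖ := mul_nonneg hE (norm_nonneg _)
  rw [hψ, abs_one] at h1
  linarith

theorem norm_le_NN (hw : ∀ a, 1 ≤ w a) (hE : 1 ≤ E) : ‖X‖ ≤ NN c E w X := by
  refine le_NN fun ψ _ => ?_
  have h1 := norm_io_le c ψ
  have h2 := n1_le_cst hw ψ
  have h3 : ‖X‖ ≤ ‖io c ψ‖ + ‖X - io c ψ‖ := by
    have := norm_add_le (io c ψ) (X - io c ψ)
    rwa [add_sub_cancel] at this
  have h4 : ‖X - io c ψ‖ ≤ E * ‖X - io c ψ‖ := le_mul_of_one_le_left (norm_nonneg _) hE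
  linarith

theorem NN_lipX (hw : ∀ a, 0 ≤ w a) (hE : 0 ≤ E) : NN c E w X' ≤ NN c E w X + E * ‖X - X'‖ := by
  have h : NN c E w X' - E * ‖X - X'‖ ≤ NN c E w X := by
    refine le_NN fun ψ hψ => ?_
    have h1 := NN_le (c := c) (X := X') hw hE hψ
    have h2 : ‖X' - io c ψ‖ ≤ ‖X - io c ψ‖ + ‖X - X'‖ := by
      have := norm_sub_le (X - io c ψ) (X - X')
      rwa [sub_sub_sub_cancel_left] at this
    have h3 := mul_le_mul_of_nonneg_left h2 hE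
    linarith
  linarith

theorem NN_scale (hw : ∀ a, 0 ≤ w a) (hE : 0 ≤ E) {s : ℝ} (hs : 1 ≤ s) (hw' : ∀ a, 0 ≤ w' a)
    (h : ∀ a, w' a ≤ s * w a) : NN c E w' X ≤ s * NN c E w X := by
  have hs0 : 0 < s := lt_of_lt_of_le one_pos hs
  rw [← div_le_iff₀' hs0]
  refine le_NN fun ψ hψ => ?_
  rw [div_le_iff₀' hs0]
  have h1 := NN_le (c := c) (X := X) hw' hE hψ
  have h2 := cst_scale h ψ
  have h3 : E * ‖X - io c ψ‖ ≤ s * (E * ‖X - io c ψ‖) :=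
    le_mul_of_one_le_left (mul_nonneg hE (norm_nonneg _)) hs
  linarith

end Pool.HQ.LP
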