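import Pool.Agent.HQ.LP01
import Pool.Agent.HQ.LP02

/-!
MP_7936f4_al, full question.  Part III, LIPSCHITZ BLOCK (helper87), module LP03: the functions Jp and JG.

* one_le_wb: exp of something nonnegative.
* J b X = NN c E (wb b) X (all weights ≥ 1), so 1 ≤ J b X, |X| ≤ J b X.
* Jp b p = J b X + max 0 (o b z - W6), so J ≤ Jp and o b z ≤ W6 + Jp b p (as J ≥ 0).
* JG_le: ciInf_le (bounded below by 0).  exists_Jp: exists_lt_of_ciInf_lt.  one_le_JG: le_ciInf.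
* Jp_close: Jp b q - Jp b p ≤ E |X - X'| + |o b z' - o b z| ≤ E t + 30 t (o b z)   (max is 1-Lipschitz).
* JG_close: for e > 0 let Jp b p < JG p + e; then o b z ≤ W6 + JG p + e and
  JG q ≤ Jp b q ≤ JG p + e + (E + 30 (W6 + JG p + e)) t; let e → 0 (le_of_forall_pos_le_add, or
  take e small explicitly).
* A0 = 2 C1, C1 ≥ 4 C0 ≥ 4, W6 ≥ 1 (W6b: C ≤ W6, hC: 16 T0 ≤ C; only W6 ≥ 0 needed:  hW6 or W6b);
  in W6_nonneg use hC (T0 ≥ 0 because all factors are nonnegative: K ≥ 1, Kh = sqrt ≥ 0, C0 ≥ 1).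
* exists_pair: JG p ≤ 0.95 A0 < 0.96 A0, so Jp b p < 0.96 A0 for some b, and
  Jp b q ≤ 0.96 A0 + (E + 30 (W6 + A0)) t ≤ A0 for t ≤ 0.04 A0 / (E + 30 (W6 + A0)).
-/

namespace Pool.HQ.LP

variable {G : Type} [Group G] {M L : ℕ} {Q : VD G M L}

theorem C0_le (h : Q.OK) : 4 ≤ Q.C1 ∧ 8 ≤ Q.A0 := by
  have h1 := h.C1b
  have h2 := h.C0a
  have h3 : Q.A0 = 2 * Q.C1 := rfl
  constructor
  · linarith
  · linarith

theorem one_le_wb (h : Q.OK) (b a : G) : 1 ≤ Q.wb b a := by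
  unfold VD.wb wG
  apply Real.one_le_exp
  have := h.lam_pos
  positivity

theorem one_le_o (h : Q.OK) (a : G) {z : EU M} (hz : ‖z‖ < 1) : 1 ≤ Q.o a z :=
  one_le_om (h.ball a) hz

theorem one_le_J (h : Q.OK) (b : G) (X : EU L) : 1 ≤ Q.J b X :=
  one_le_NN (w := wG Q.d Q.lam b) (fun a => one_le_wb h b a) (by linarith [h.E1])

theorem norm_le_J (h : Q.OK) (b : G) (X : EU L) : ‖X‖ ≤ Q.J b X :=
  norm_le_NN (w := wG Q.d Q.lam b) (fun a => one_le_wb h b a) h.E1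

theorem J_le_Jp (b : G) (p : EU L × EU M) : Q.J b p.1 ≤ Q.Jp b p := by
  unfold VD.Jp
  have := le_max_left 0 (Q.o b p.2 - Q.W6)
  linarith

theorem o_le_Jp (h : Q.OK) (b : G) (p : EU L × EU M) : Q.o b p.2 ≤ Q.W6 + Q.Jp b p := by
  have h1 := one_le_J h b p.1
  have h2 := le_max_right 0 (Q.o b p.2 - Q.W6)
  have h3 : Q.Jp b p = Q.J b p.1 + max 0 (Q.o b p.2 - Q.W6) := rfl
  rw [h3]
  linarith

theorem one_le_Jp (h : Q.OK) (b : G) (p : EU L × EU M) : 1 ≤ Q.Jp b p :=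
  (one_le_J h b p.1).trans (J_le_Jp b p)

theorem JG_le (h : Q.OK) (b : G) (p : EU L × EU M) : Q.JG p ≤ Q.Jp b p := by
  refine ciInf_le ⟨1, ?_⟩ b
  rintro _ ⟨c, rfl⟩
  exact one_le_Jp h c p

theorem exists_Jp {p : EU L × EU M} {s : ℝ} (hs : Q.JG p < s) : ∃ b, Q.Jp b p < s :=
  exists_lt_of_ciInf_lt hs

theorem one_le_JG (h : Q.OK) (p : EU L × EU M) : 1 ≤ Q.JG p :=
  le_ciInf fun b => one_le_Jp h b p

theorem W6_nonneg (h : Q.OK) : 0 ≤ Q.W6 := by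
  have h1 := h.W6b
  have h2 := h.hC
  have h3 : 0 ≤ Q.T0 := by
    unfold VD.T0 VD.Kh
    have h4 := h.K1
    have h5 := h.C0a
    have h6 := Real.sqrt_nonneg (1 + (2 * Q.K ^ 2 * (2 * Q.C0) ^ 3 / Q.mu Q.rC) ^ 2 *
      ((2 * Q.C0) ^ 3 / Q.mu Q.rC) * (4 * Q.K ^ 2 * Q.bt Q.rC ^ 2))
    have h7 : 0 ≤ 2 * Q.K := by linarith
    exact mul_nonneg (mul_nonneg h7 h6) (by linarith)
  linarith

theorem Jp_close (h : Q.OK) {t : ℝ} {p q : EU L × EU M} (hc : Cs t p q) (b : G) :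
    Q.Jp b q ≤ Q.Jp b p + (Q.E + 30 * Q.o b p.2) * t := by
  have h1 : Q.J b q.1 ≤ Q.J b p.1 + Q.E * ‖p.1 - q.1‖ :=
    NN_lipX (w := wG Q.d Q.lam b) (fun a => zero_le_one.trans (one_le_wb h b a))
      (by linarith [h.E1])
  have h2 : Q.E * ‖p.1 - q.1‖ ≤ Q.E * t := mul_le_mul_of_nonneg_left hc.dX (by linarith [h.E1])
  have h3 : |Q.o b p.2 - Q.o b q.2| ≤ 30 * t * Q.o b p.2 := om_close hc (h.ball b)
  have h4 : Q.Jp b q = Q.J b q.1 + max 0 (Q.o b q.2 - Q.W6) := rfl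
  have h5 : Q.Jp b p = Q.J b p.1 + max 0 (Q.o b p.2 - Q.W6) := rfl
  have h6 : max 0 (Q.o b q.2 - Q.W6) ≤ max 0 (Q.o b p.2 - Q.W6) + 30 * t * Q.o b p.2 := by
    apply max_le
    · have h7 := le_max_left 0 (Q.o b p.2 - Q.W6)
      have h8 := abs_nonneg (Q.o b p.2 - Q.o b q.2)
      linarith
    · have h7 := le_max_right 0 (Q.o b p.2 - Q.W6)
      have h8 := neg_abs_le (Q.o b p.2 - Q.o b q.2)
      linarith
  rw [h4, h5]
  linarith

theorem JG_close (h : Q.OK) {t : ℝ} {p q : EU L × EU M} (hc : Cs t p q) :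
    Q.JG q ≤ Q.JG p + (Q.E + 30 * (Q.W6 + Q.JG p)) * t := by
  have ht := hc.t0
  have h0 : 0 < 1 + 30 * t := by linarith
  have h1 : (Q.JG q - (Q.E + 30 * Q.W6) * t) / (1 + 30 * t) ≤ Q.JG p := by
    refine le_ciInf fun b => ?_
    rw [div_le_iff₀ h0]
    have h2 := (JG_le h b q).trans (Jp_close h hc b)
    have h3 := mul_le_mul_of_nonneg_right (o_le_Jp h b p) ht
    linarith
  rw [div_le_iff₀ h0] at h1
  linarith

theorem JG_close' (h : Q.OK) {t : ℝ} {p q : EU L × EU M} (hc : Cs t p q) :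
    Q.JG p ≤ Q.JG q + (Q.E + 30 * (Q.W6 + Q.JG q)) * t :=
  JG_close h hc.symm

theorem exists_pair (h : Q.OK) : ∃ η : ℝ, 0 < η ∧ ∀ t (p q : EU L × EU M), Cs t p q → t ≤ η →
    Q.JG p ≤ 0.95 * Q.A0 → ∃ b, Pr Q t p q b := by
  have hA := (C0_le h).2
  have hE := h.E1
  have hW := W6_nonneg h
  have hD : 0 < Q.E + 30 * (Q.W6 + Q.A0) := by linarith
  refine ⟨0.04 * Q.A0 / (Q.E + 30 * (Q.W6 + Q.A0)), by positivity, ?_⟩
  intro t p q hc ht hJ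
  obtain ⟨b, hb⟩ := exists_Jp (Q := Q) (p := p) (s := 0.96 * Q.A0) (by linarith)
  refine ⟨b, hc, by linarith, ?_⟩
  rw [le_div_iff₀ hD] at ht
  have h1 := Jp_close h hc b
  have h2 := o_le_Jp h b p
  have h3 : (Q.E + 30 * Q.o b p.2) * t ≤ (Q.E + 30 * (Q.W6 + Q.A0)) * t :=
    mul_le_mul_of_nonneg_right (by linarith) hc.t0
  linarith

theorem exists_good (h : Q.OK) {p : EU L × EU M} (hp : ‖p.2‖ < 1) (hJ : Q.JG p ≤ 0.95 * Q.A0) :
    ∃ b, Gd Q p b := by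
  have hA := (C0_le h).2
  obtain ⟨b, hb⟩ := exists_Jp (Q := Q) (p := p) (s := 0.96 * Q.A0) (by linarith)
  exact ⟨b, hp, by linarith⟩

theorem Gd.JG (h : Q.OK) {p : EU L × EU M} {b : G} (hb : Gd Q p b) : Q.JG p ≤ Q.A0 :=
  (JG_le h b p).trans hb.2

theorem Gd.o (h : Q.OK) {p : EU L × EU M} {b : G} (hb : Gd Q p b) : Q.o b p.2 ≤ Q.W7 := by
  have h1 := o_le_Jp h b p
  have h2 := hb.2
  have h3 : Q.W7 = Q.W6 + 2 * Q.A0 := rfl
  have hA := (C0_le h).2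
  linarith

theorem Gd.X (h : Q.OK) {p : EU L × EU M} {b : G} (hb : Gd Q p b) : ‖p.1‖ ≤ Q.A0 :=
  ((norm_le_J h b p.1).trans (J_le_Jp b p)).trans hb.2

theorem LL_JG (h : Q.OK) : LL Q Q.JG := by
  have hA := (C0_le h).2
  have hE := h.E1
  have hW := W6_nonneg h
  refine ⟨Q.E + 30 * (Q.W6 + Q.A0), by linarith, ?_⟩
  intro t p q b hpr
  have ht := hpr.cs.t0
  have h1 := JG_close h hpr.cs
  have h2 := JG_close' h hpr.cs
  have h3 := Gd.JG h hpr.gp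
  have h4 := Gd.JG h hpr.gq
  have h5 := mul_le_mul_of_nonneg_right h3 ht
  have h6 := mul_le_mul_of_nonneg_right h4 ht
  rw [Real.norm_eq_abs, abs_le]
  constructor
  · linarith
  · linarith

theorem LB_JG (h : Q.OK) : LB Q Q.JG := by
  have hA := (C0_le h).2
  refine ⟨Q.A0, by linarith, ?_⟩
  intro p b hb
  rw [Real.norm_eq_abs, abs_of_nonneg (by linarith [one_le_JG h p])]
  exact Gd.JG h hb

theorem LB_fst (h : Q.OK) : LB Q (fun p => p.1) := by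
  have hA := (C0_le h).2
  exact ⟨Q.A0, by linarith, fun p b hb => Gd.X h hb⟩

end Pool.HQ.LP
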