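import Pool.Agent.HQ.LP03

/-!
MP_7936f4_al, full question.  Part III, LIPSCHITZ BLOCK (helper87), module LP04: near sets.

* wb_le: h.lo a b: wb b a ≤ K om(f a, f b), and om_tri, om_symm.
* o_le_wb: om_tri: om(f a, z) ≤ 5 om(f a,f b) om(f b,z), h.up.
* exists_radius: lam/2 * d a b ≤ exp(lam/2 * d a b) = wb b a ≤ 5 K W W' (o ≥ 1 > 0, so W, W' > 0 there),
  so d a b ≤ R := ⌈10 K W W' / lam⌉₊  (use max with 0 where convenient).
* near_finite: if it contains an element b, it is contained in {a | d a b ≤ R} (exists_radius W W),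
  which is finite (exists_ball); otherwise it is empty.
* mem_near: unfold near, dif_pos near_finite, Set.Finite.mem_toFinset.
* near_card: same with exists_ball.
* o_le_of_ball: A = max 1 (5 K bt(R) W7): o_le_wb with wb b a = exp(lam/2 d a b) ≤ bt R, Gd.o.
-/

namespace Pool.HQ.LP

variable {G : Type} [Group G] {M L : ℕ} {Q : VD G M L}

theorem LP04_K_pos (h : Q.OK) : 0 < Q.K := lt_of_lt_of_le one_pos h.K1

theorem LP04_wb_pos (b a : G) : 0 < Q.wb b a := by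
  unfold VD.wb wG
  exact Real.exp_pos _

theorem LP04_o_pos (h : Q.OK) (a : G) {z : EU M} (hz : ‖z‖ < 1) : 0 < Q.o a z :=
  lt_of_lt_of_le one_pos (one_le_o h a hz)

theorem wb_le (h : Q.OK) {a b : G} {z : EU M} (hz : ‖z‖ < 1) :
    Q.wb b a ≤ 5 * Q.K * (Q.o a z * Q.o b z) := by
  have h1 := h.lo a b
  have h2 : om (Q.f a) (Q.f b) ≤ 5 * (om (Q.f a) z * om z (Q.f b)) :=
    om_tri (h.ball a) hz (h.ball b)
  rw [om_symm z (Q.f b)] at h2
  have h3 := mul_le_mul_of_nonneg_left h2 (LP04_K_pos h).le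
  have e1 : 5 * Q.K * (Q.o a z * Q.o b z) = Q.K * (5 * (om (Q.f a) z * om (Q.f b) z)) := by
    unfold VD.o
    ring
  rw [e1]
  exact h1.trans h3

theorem o_le_wb (h : Q.OK) {a b : G} {z : EU M} (hz : ‖z‖ < 1) :
    Q.o a z ≤ 5 * Q.K * (Q.wb b a * Q.o b z) := by
  have h1 := h.up a b
  have h2 : om (Q.f a) z ≤ 5 * (om (Q.f a) (Q.f b) * om (Q.f b) z) :=
    om_tri (h.ball a) (h.ball b) hz
  have h3 := mul_le_mul_of_nonneg_right h1 (LP04_o_pos h b hz).le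
  have e1 : 5 * Q.K * (Q.wb b a * Q.o b z) = 5 * (Q.K * Q.wb b a * Q.o b z) := by ring
  rw [e1]
  refine h2.trans ?_
  have h4 : om (Q.f a) (Q.f b) * om (Q.f b) z ≤ Q.K * Q.wb b a * Q.o b z := h3
  linarith

theorem LP04_le_wb (h : Q.OK) (a b : G) : Q.lam / 2 * (Q.d a b : ℝ) ≤ Q.wb b a := by
  have h1 := Real.add_one_le_exp (Q.lam / 2 * (Q.d a b : ℝ))
  have h2 : Q.wb b a = Real.exp (Q.lam / 2 * (Q.d a b : ℝ)) := rfl
  rw [h2]
  linarith

theorem exists_radius (h : Q.OK) (W W' : ℝ) : ∃ R : ℕ, ∀ (a b : G) (z : EU M), ‖z‖ < 1 →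
    Q.o a z ≤ W → Q.o b z ≤ W' → Q.d a b ≤ R := by
  refine ⟨⌈10 * Q.K * (W * W') / Q.lam⌉₊, ?_⟩
  intro a b z hz ha hb
  have h1 := LP04_le_wb h a b
  have h2 := wb_le h (a := a) (b := b) hz
  have h3 := LP04_o_pos h a hz
  have h4 := LP04_o_pos h b hz
  have h5 : Q.o a z * Q.o b z ≤ W * W' := mul_le_mul ha hb h4.le (h3.le.trans ha)
  have h6 : 5 * Q.K * (Q.o a z * Q.o b z) ≤ 5 * Q.K * (W * W') :=
    mul_le_mul_of_nonneg_left h5 (by linarith [LP04_K_pos h])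
  have h7 : (Q.d a b : ℝ) ≤ 10 * Q.K * (W * W') / Q.lam := by
    rw [le_div_iff₀ h.lam_pos]
    linarith
  have h8 : (Q.d a b : ℝ) ≤ (⌈10 * Q.K * (W * W') / Q.lam⌉₊ : ℝ) := h7.trans (Nat.le_ceil _)
  exact_mod_cast h8

theorem near_finite (h : Q.OK) {z : EU M} (hz : ‖z‖ < 1) (W : ℝ) : {a | Q.o a z ≤ W}.Finite := by
  by_cases hb : ∃ b, Q.o b z ≤ W
  · obtain ⟨b, hb⟩ := hb
    obtain ⟨R, hR⟩ := exists_radius h W W
    obtain ⟨N, hN⟩ := exists_ball h.hd R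
    obtain ⟨s, _, hs⟩ := hN b
    refine Set.Finite.subset s.finite_toSet fun a ha => ?_
    rw [Finset.mem_coe, hs]
    exact hR a b z hz ha hb
  · refine Set.Finite.subset Set.finite_empty fun a ha => ?_
    exact absurd ⟨a, ha⟩ hb

theorem mem_near (h : Q.OK) {z : EU M} (hz : ‖z‖ < 1) {W : ℝ} {a : G} :
    a ∈ Q.near z W ↔ Q.o a z ≤ W := by
  unfold VD.near
  rw [dif_pos (near_finite h hz W), Set.Finite.mem_toFinset]
  rfl

theorem near_card (h : Q.OK) (W : ℝ) : ∃ N : ℕ, ∀ z : EU M, ‖z‖ < 1 → (Q.near z W).card ≤ N := by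
  obtain ⟨R, hR⟩ := exists_radius h W W
  obtain ⟨N, hN⟩ := exists_ball h.hd R
  refine ⟨N, fun z hz => ?_⟩
  rcases (Q.near z W).eq_empty_or_nonempty with he | ⟨b, hb⟩
  · rw [he, Finset.card_empty]
    exact Nat.zero_le _
  · obtain ⟨s, hsN, hs⟩ := hN b
    refine le_trans (Finset.card_le_card fun a ha => ?_) hsN
    rw [hs]
    exact hR a b z hz ((mem_near h hz).1 ha) ((mem_near h hz).1 hb)

theorem LP04_wb_le_bt (h : Q.OK) {a b : G} {R : ℕ} (hab : Q.d a b ≤ R) : Q.wb b a ≤ Q.bt R := by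
  have h2 : Q.wb b a = Real.exp (Q.lam / 2 * (Q.d a b : ℝ)) := rfl
  rw [h2]
  unfold VD.bt
  apply Real.exp_le_exp.2
  have h3 : (Q.d a b : ℝ) ≤ R := by exact_mod_cast hab
  have h4 := h.lam_pos
  exact mul_le_mul_of_nonneg_left h3 (by linarith)

theorem o_le_of_ball (h : Q.OK) (R : ℕ) : ∃ A : ℝ, 1 ≤ A ∧ ∀ (p : EU L × EU M) (b : G), Gd Q p b →
    ∀ a, Q.d a b ≤ R → Q.o a p.2 ≤ A := by
  refine ⟨max 1 (5 * Q.K * (Q.bt R * Q.W7)), le_max_left _ _, ?_⟩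
  intro p b hb a hab
  refine le_trans ?_ (le_max_right _ _)
  refine (o_le_wb h (a := a) (b := b) hb.1).trans ?_
  have h1 := LP04_wb_le_bt h hab
  have h2 := Gd.o h hb
  have h3 : Q.wb b a * Q.o b p.2 ≤ Q.bt R * Q.W7 :=
    mul_le_mul h1 h2 (LP04_o_pos h b hb.1).le ((LP04_wb_pos b a).le.trans h1)
  exact mul_le_mul_of_nonneg_left h3 (by linarith [LP04_K_pos h])

/-- the near elements of a good point are in a ball. -/
theorem good_radius (h : Q.OK) (W : ℝ) : ∃ R : ℕ, ∀ (p : EU L × EU M) (b : G), Gd Q p b →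
    ∀ a, Q.o a p.2 ≤ W → Q.d a b ≤ R := by
  obtain ⟨R, hR⟩ := exists_radius h W Q.W7
  exact ⟨R, fun p b hb a ha => hR a b p.2 hb.1 ha (Gd.o h hb)⟩

theorem W_pos (h : Q.OK) : 0 < Q.W7 ∧ 0 < Q.W8 ∧ 0 < Q.Wc ∧ 0 < Q.eta1 ∧ 0 < Q.L1 := by
  have hA := (C0_le h).2
  have hW6 := W6_nonneg h
  have hK := LP04_K_pos h
  have e7 : Q.W7 = Q.W6 + 2 * Q.A0 := rfl
  have h7 : 0 < Q.W7 := by rw [e7]; linarith
  have hbt : ∀ n, 0 < Q.bt n := fun n => Real.exp_pos _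
  have h8 : 0 < Q.W8 := by
    have h1 := h.hW8
    have h2 : 0 < 2 * Q.K * Q.bt Q.r2 * Q.W7 :=
      mul_pos (mul_pos (by linarith) (hbt _)) h7
    linarith
  have hL1 : 0 < Q.L1 := by
    have e1 : Q.L1 = 2 * Q.K * Q.W7 := rfl
    rw [e1]
    exact mul_pos (by linarith) h7
  have hA1 : 0 < Q.A1 := by
    have e1 : Q.A1 = Q.L1 * (Q.L1 * Q.A0) := rfl
    rw [e1]
    exact mul_pos hL1 (mul_pos hL1 (by linarith))
  have hWc : 0 < Q.Wc := by
    have h1 := h.hWc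
    have h2 : 0 < 2 * Q.bt Q.r2 * Q.A1 * Q.L1 :=
      mul_pos (mul_pos (mul_pos (by norm_num) (hbt _)) hA1) hL1
    have h3 : 0 < Q.eps * Q.Wc := by linarith
    exact (pos_iff_pos_of_mul_pos h3).1 h.eps_pos
  have heta : 0 < Q.eta1 := by
    have e1 : Q.eta1 = Q.eta / (4 * Q.L1) := rfl
    rw [e1]
    exact div_pos h.eta_pos (by linarith)
  exact ⟨h7, h8, hWc, heta, hL1⟩

end Pool.HQ.LP
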