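import Pool.Agent.HQ.LP06

/-!
MP_7936f4_al, full question.  Part III, LIPSCHITZ BLOCK (helper87), module LP07: fhat.

* fb_sub_le: fb is linear, fb psi - fb psi' = fb (psi - psi') = sum (psi - psi') a • (f a - y) because
  tot (psi - psi') = 0; the norm is ≤ sum |(psi - psi') a| r.
* fb_dist_le: fb psi - y = sum psi a • (f a - y).
* fb_Dz_ge: m ≤ Dz (f a) = 1 - |f a|^2, so |f a| ≤ sqrt(1-m) =: s for a in the support (s^2 = 1 - m, 1 - m ≥ 0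
  because the support is nonempty (tot = 1) and |f a|^2 ≥ 0); |fb psi| ≤ sum psi a |f a| ≤ s.
* fh_near: for a in the support of x p: d a b ≤ r2, so o a z ≤ A' (o_le_of_ball r2);
  |f a - z| ≤ 4 A'^2 (1-|z|) (norm_sub_le_om), Dz z ≤ 4 A'^2 Dz (f a) (Dz_le_om, om_symm), Dz z ≥ 1 - |z|.
  So A = 4 A'^2, m = 1/(4 A'^2); |fh p| < 1 because Dz (fh p) > 0.
* fh_lip: fb_sub_le with y = p.2, r = 4 A'^2 (1-|p.2|); the supports of x p and x q are in B(b,r2), and b is good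
  for p, so o a p.2 ≤ A' for these a; n1 (x p - x q) ≤ K t (LL1_x).
* LB_omfh: om_le_of.
* LL_omfh: LL.of_small.  |om(fh p) z - om(fh q) z'| ≤ |om(fh p) z - om(fh p) z'| + |om(fh p) z' - om(fh q) z'|.
  First ≤ 30 t om(fh p) z ≤ 30 t B.  Second: om_close_left with x = fh p, x' = fh q, z':
  |fh p - fh q| ≤ K t (1-|z|) ≤ (K/m) t Dz(fh p) ≤ Dz(fh p)/60 for t ≤ m/(60 K + 1) (and m ≤ 1 wlog, or take
  η = m / (60 (K+1))), so second ≤ 30 (K/m) t om(fh p) z' ≤ 30 (K/m) t (1+30t) B ≤ 60 (K/m) B t.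
-/

namespace Pool.HQ.LP

variable {G : Type} [Group G] {M L : ℕ} {Q : VD G M L}

theorem lp7_tot {ψ : G →₀ ℝ} {T : Finset G} (hT : ψ.support ⊆ T) : tot ψ = ∑ a ∈ T, ψ a := by
  unfold tot
  exact Finsupp.sum_of_support_subset _ hT _ (fun _ _ => rfl)

theorem lp7_fb (Q : VD G M L) {ψ : G →₀ ℝ} {T : Finset G} (hT : ψ.support ⊆ T) :
    Q.fb ψ = ∑ a ∈ T, ψ a • Q.f a := by
  unfold VD.fb
  exact Finsupp.sum_of_support_subset _ hT _ (fun _ _ => zero_smul _ _)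

theorem fb_sub_le (Q : VD G M L) (ψ ψ' : G →₀ ℝ) (ht : tot ψ = tot ψ') (y : EU M) {r : ℝ}
    (hr : 0 ≤ r) (hr' : ∀ a, (ψ a ≠ 0 ∨ ψ' a ≠ 0) → ‖Q.f a - y‖ ≤ r) :
    ‖Q.fb ψ - Q.fb ψ'‖ ≤ r * n1 (ψ - ψ') := by
  classical
  set T := ψ.support ∪ ψ'.support with hT
  have h1 : ψ.support ⊆ T := Finset.subset_union_left
  have h2 : ψ'.support ⊆ T := Finset.subset_union_right
  have h3 : (ψ - ψ').support ⊆ T := Finsupp.support_sub
  have h4 : ∑ a ∈ T, (ψ a - ψ' a) = 0 := by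
    rw [Finset.sum_sub_distrib, ← lp7_tot h1, ← lp7_tot h2, ht, sub_self]
  have h5 : Q.fb ψ - Q.fb ψ' = ∑ a ∈ T, (ψ a - ψ' a) • (Q.f a - y) := by
    rw [lp7_fb Q h1, lp7_fb Q h2, ← Finset.sum_sub_distrib]
    simp_rw [smul_sub]
    rw [Finset.sum_sub_distrib (f := fun a => (ψ a - ψ' a) • Q.f a), ← Finset.sum_smul, h4,
      zero_smul, sub_zero]
    exact Finset.sum_congr rfl fun a _ => (sub_smul _ _ _).symm
  rw [h5, n1_eq_sum _ h3, Finset.mul_sum]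
  refine (norm_sum_le _ _).trans (Finset.sum_le_sum fun a _ => ?_)
  rw [norm_smul, Real.norm_eq_abs, Finsupp.sub_apply, mul_comm]
  by_cases h6 : ψ a ≠ 0 ∨ ψ' a ≠ 0
  · exact mul_le_mul_of_nonneg_right (hr' a h6) (abs_nonneg _)
  · push Not at h6
    rw [h6.1, h6.2, sub_zero, abs_zero, mul_zero, mul_zero]

theorem fb_dist_le (Q : VD G M L) {ψ : G →₀ ℝ} (h0 : ∀ a, 0 ≤ ψ a) (ht : tot ψ = 1) (y : EU M)
    {r : ℝ} (hr' : ∀ a, ψ a ≠ 0 → ‖Q.f a - y‖ ≤ r) : ‖Q.fb ψ - y‖ ≤ r := by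
  have h1 := lp7_fb Q (subset_refl ψ.support)
  have h2 := lp7_tot (subset_refl ψ.support)
  rw [ht] at h2
  have h3 : Q.fb ψ - y = ∑ a ∈ ψ.support, ψ a • (Q.f a - y) := by
    simp_rw [smul_sub]
    rw [Finset.sum_sub_distrib, ← Finset.sum_smul, ← h2, one_smul, h1]
  rw [h3]
  refine (norm_sum_le _ _).trans ?_
  calc ∑ a ∈ ψ.support, ‖ψ a • (Q.f a - y)‖ ≤ ∑ a ∈ ψ.support, ψ a * r := by
        refine Finset.sum_le_sum fun a ha => ?_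
        rw [norm_smul, Real.norm_of_nonneg (h0 a)]
        exact mul_le_mul_of_nonneg_left (hr' a (Finsupp.mem_support_iff.1 ha)) (h0 a)
    _ = r := by rw [← Finset.sum_mul, ← h2, one_mul]

theorem fb_Dz_ge (Q : VD G M L) {ψ : G →₀ ℝ} (h0 : ∀ a, 0 ≤ ψ a) (ht : tot ψ = 1)
    {m : ℝ} (hm : ∀ a, ψ a ≠ 0 → m ≤ Dz (Q.f a)) : m ≤ Dz (Q.fb ψ) := by
  have h1 : ∃ a, ψ a ≠ 0 := by
    by_contra h
    push Not at h
    have h2 : ψ = 0 := by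
      ext a
      exact h a
    rw [h2] at ht
    unfold tot at ht
    simp at ht
  obtain ⟨a, ha⟩ := h1
  have h2 : 0 ≤ 1 - m := by
    have h3 := hm a ha
    unfold Dz at h3
    have h4 := sq_nonneg ‖Q.f a‖
    linarith
  have h3 : ‖Q.fb ψ - 0‖ ≤ Real.sqrt (1 - m) := by
    refine fb_dist_le Q h0 ht 0 fun a ha => ?_
    rw [sub_zero]
    apply Real.le_sqrt_of_sq_le
    have h4 := hm a ha
    unfold Dz at h4
    linarith
  rw [sub_zero] at h3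
  have h4 : ‖Q.fb ψ‖ ^ 2 ≤ 1 - m := by
    rw [← Real.sq_sqrt h2]
    exact pow_le_pow_left₀ (norm_nonneg _) h3 2
  unfold Dz
  linarith

theorem fh_near (h : Q.OK) : ∃ A m : ℝ, 0 ≤ A ∧ 0 < m ∧ ∀ (p : EU L × EU M) (b : G), Gd Q p b →
    ‖Q.fh p - p.2‖ ≤ A * (1 - ‖p.2‖) ∧ m * (1 - ‖p.2‖) ≤ Dz (Q.fh p) ∧ ‖Q.fh p‖ < 1 := by
  obtain ⟨A', hA1, hA'⟩ := o_le_of_ball h Q.r2
  have hA2 : 0 < 4 * A' ^ 2 := by positivity
  refine ⟨4 * A' ^ 2, 1 / (4 * A' ^ 2), hA2.le, by positivity, ?_⟩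
  intro p b hb
  have hz := hb.1
  have hz1 : 0 < 1 - ‖p.2‖ := by linarith
  have hx0 : ∀ a, 0 ≤ Q.x p a := fun a => x_nonneg h hb a
  have hxt := tot_x h hb
  have ho : ∀ a, Q.x p a ≠ 0 → om (Q.f a) p.2 ^ 2 ≤ A' ^ 2 := by
    intro a ha
    have h1 : om (Q.f a) p.2 ≤ A' := hA' p b hb a (x_supp h hb ha)
    exact pow_le_pow_left₀ (zero_le_one.trans (one_le_om (h.ball a) hz)) h1 2
  have h2 : 1 / (4 * A' ^ 2) * (1 - ‖p.2‖) ≤ Dz (Q.fh p) := by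
    refine fb_Dz_ge Q hx0 hxt fun a ha => ?_
    have h3 := Dz_le_om hz (h.ball a)
    rw [om_symm] at h3
    have h4 := one_sub_le_Dz hz
    have h5 : 0 < Dz (Q.f a) := lt_of_lt_of_le (by linarith [h.ball a]) (one_sub_le_Dz (h.ball a))
    have h6 : 4 * om (Q.f a) p.2 ^ 2 * Dz (Q.f a) ≤ 4 * A' ^ 2 * Dz (Q.f a) :=
      mul_le_mul_of_nonneg_right (by linarith [ho a ha]) h5.le
    rw [one_div_mul_eq_div, div_le_iff₀ hA2]
    linarith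
  refine ⟨?_, h2, ?_⟩
  · refine fb_dist_le Q hx0 hxt p.2 fun a ha => ?_
    refine (norm_sub_le_om (h.ball a) hz).trans ?_
    exact mul_le_mul_of_nonneg_right (by linarith [ho a ha]) hz1.le
  · have h3 : 0 < Dz (Q.fh p) := lt_of_lt_of_le (by positivity) h2
    unfold Dz at h3
    have h4 := norm_nonneg (Q.fh p)
    nlinarith

theorem fh_lip (h : Q.OK) : ∃ K : ℝ, 0 ≤ K ∧ ∀ t p q b, Pr Q t p q b →
    ‖Q.fh p - Q.fh q‖ ≤ K * t * (1 - ‖p.2‖) := by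
  obtain ⟨A', hA1, hA'⟩ := o_le_of_ball h Q.r2
  obtain ⟨K, hK0, hK⟩ := LL1_x h
  refine ⟨4 * A' ^ 2 * K, by positivity, ?_⟩
  intro t p q b hpr
  have hz := hpr.cs.hp
  have hz1 : 0 < 1 - ‖p.2‖ := by linarith
  have h1 : ‖Q.fb (Q.x p) - Q.fb (Q.x q)‖ ≤ 4 * A' ^ 2 * (1 - ‖p.2‖) * n1 (Q.x p - Q.x q) := by
    refine fb_sub_le Q _ _ ?_ p.2 (by positivity) fun a ha => ?_
    · rw [tot_x h hpr.gp, tot_x h hpr.gq]
    · have h2 : Q.d a b ≤ Q.r2 := by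
        rcases ha with h3 | h3
        · exact x_supp h hpr.gp h3
        · exact x_supp h hpr.gq h3
      have h3 : om (Q.f a) p.2 ≤ A' := hA' p b hpr.gp a h2
      have h4 : om (Q.f a) p.2 ^ 2 ≤ A' ^ 2 :=
        pow_le_pow_left₀ (zero_le_one.trans (one_le_om (h.ball a) hz)) h3 2
      refine (norm_sub_le_om (h.ball a) hz).trans ?_
      exact mul_le_mul_of_nonneg_right (by linarith) hz1.le
  have h2 : 4 * A' ^ 2 * (1 - ‖p.2‖) * n1 (Q.x p - Q.x q) ≤ 4 * A' ^ 2 * (1 - ‖p.2‖) * (K * t) :=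
    mul_le_mul_of_nonneg_left (hK t p q b hpr) (by positivity)
  calc ‖Q.fh p - Q.fh q‖ ≤ 4 * A' ^ 2 * (1 - ‖p.2‖) * (K * t) := h1.trans h2
    _ = 4 * A' ^ 2 * K * t * (1 - ‖p.2‖) := by ring

theorem LB_omfh (h : Q.OK) : LB Q (fun p => om (Q.fh p) p.2) := by
  obtain ⟨A, m, hA, hm, hn⟩ := fh_near h
  refine ⟨A ^ 2 / m + 1, by positivity, ?_⟩
  intro p b hb
  obtain ⟨h1, h2, h3⟩ := hn p b hb
  rw [Real.norm_of_nonneg (zero_le_one.trans (one_le_om h3 hb.1))]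
  exact om_le_of h3 hb.1 hm h1 h2

theorem LL_omfh (h : Q.OK) : LL Q (fun p => om (Q.fh p) p.2) := by
  obtain ⟨A, m, hA, hm, hn⟩ := fh_near h
  obtain ⟨K, hK0, hK⟩ := fh_lip h
  obtain ⟨B, hB0, hB⟩ := LB_omfh h
  refine LL.of_small (LB_omfh h) ⟨30 * B + 60 * K * B / m, m / (60 * (K + 1)), by positivity,
    by positivity, ?_⟩
  intro t p q b hpr ht
  have ht0 := hpr.cs.t0
  have ht1 := hpr.cs.t1
  obtain ⟨-, hp2, hp3⟩ := hn p b hpr.gp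
  obtain ⟨-, hq2, hq3⟩ := hn q b hpr.gq
  have hz := hpr.cs.hp
  have hz' := hpr.cs.hq
  have hz1 : 0 < 1 - ‖p.2‖ := by linarith
  have hD : 0 < Dz (Q.fh p) := lt_of_lt_of_le (by positivity) hp2
  have hBp : om (Q.fh p) p.2 ≤ B := by
    have h1 := hB p b hpr.gp
    rwa [Real.norm_of_nonneg (zero_le_one.trans (one_le_om hp3 hz))] at h1
  have h1 : |om (Q.fh p) p.2 - om (Q.fh p) q.2| ≤ 30 * t * B :=
    (om_close hpr.cs hp3).trans (mul_le_mul_of_nonneg_left hBp (by positivity))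
  have h2 : ‖Q.fh p - Q.fh q‖ / Dz (Q.fh p) ≤ K * t / m := by
    rw [div_le_div_iff₀ hD hm]
    have h3 := hK t p q b hpr
    calc ‖Q.fh p - Q.fh q‖ * m ≤ K * t * (1 - ‖p.2‖) * m := mul_le_mul_of_nonneg_right h3 hm.le
      _ = K * t * (m * (1 - ‖p.2‖)) := by ring
      _ ≤ K * t * Dz (Q.fh p) := mul_le_mul_of_nonneg_left hp2 (by positivity)
  have h3 : K * t / m ≤ 1 / 60 := by
    rw [le_div_iff₀ (by positivity)] at ht
    rw [div_le_div_iff₀ hm (by norm_num)]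
    nlinarith
  have h4 : ‖Q.fh p - Q.fh q‖ ≤ Dz (Q.fh p) / 60 := by
    have h5 := h2.trans h3
    rw [div_le_iff₀ hD] at h5
    linarith
  have h5 := om_close_left hp3 hq3 hz' h4
  have h6 : om (Q.fh p) q.2 ≤ 2 * B := by
    refine (om_le_close hpr.cs hp3).trans ?_
    have h7 : 0 ≤ om (Q.fh p) p.2 := zero_le_one.trans (one_le_om hp3 hz)
    nlinarith
  have h7 : 30 * (‖Q.fh p - Q.fh q‖ / Dz (Q.fh p)) * om (Q.fh p) q.2 ≤
      30 * (K * t / m) * (2 * B) := by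
    refine mul_le_mul (by linarith) h6 (zero_le_one.trans (one_le_om hp3 hz')) (by positivity)
  have h8 : om (Q.fh p) p.2 - om (Q.fh q) q.2 =
      (om (Q.fh p) p.2 - om (Q.fh p) q.2) - (om (Q.fh q) q.2 - om (Q.fh p) q.2) := by ring
  rw [Real.norm_eq_abs, h8]
  refine (abs_sub _ _).trans ?_
  calc |om (Q.fh p) p.2 - om (Q.fh p) q.2| + |om (Q.fh q) q.2 - om (Q.fh p) q.2|
      ≤ 30 * t * B + 30 * (K * t / m) * (2 * B) := add_le_add h1 (h5.trans h7)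
    _ = (30 * B + 60 * K * B / m) * t := by
        field_simp
        ring

end Pool.HQ.LP
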