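import Pool.Agent.HQ.LP06

/-!
MP_7936f4_al, full question.  Part III, LIPSCHITZ BLOCK (helper87), module LP08: uA, qA, TA.

* uA_apply: value of the sum of singles; for a not in near z (2Wc) (o a z > 2 Wc) k Wc z a = 0.
* the family F a p = k Wc z a * X(c a): |F a p - F a q| ≤ |k - k'| |X| + |X - X'| ≤ 90 t A0 + t (k_close),
  |F a p| ≤ A0; supported in {o a z < 2 Wc}, so in B(b,R) (good_radius).
* LL1.of_family, LB1.of_family; qA = uA + (1 - tot uA) • x; TA = io c qA.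
-/

namespace Pool.HQ.LP

variable {G : Type} [Group G] {M L : ℕ} {Q : VD G M L}

theorem uA_apply (h : Q.OK) {p : EU L × EU M} (hp : ‖p.2‖ < 1) (a : G) :
    Q.uA p a = Q.k Q.Wc p.2 a * p.1 (Q.c a) := by
  classical
  unfold VD.uA
  rw [Finsupp.finset_sum_apply]
  by_cases ha : a ∈ Q.near p.2 (2 * Q.Wc)
  · rw [Finset.sum_eq_single a]
    · rw [Finsupp.single_eq_same]
    · intro b _ hb
      rw [Finsupp.single_apply, if_neg hb]
    · intro h'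
      exact absurd ha h'
  · rw [Finset.sum_eq_zero]
    · have hk : Q.k Q.Wc p.2 a = 0 := by
        apply k_eq_zero Q (W_pos h).2.2.1
        rw [mem_near h hp, not_le] at ha
        exact ha.le
      rw [hk, zero_mul]
    · intro b hb
      rw [Finsupp.single_apply, if_neg]
      rintro rfl
      exact ha hb

theorem uA_SB (h : Q.OK) : ∃ R : ℕ, SB Q R (fun a p => Q.k Q.Wc p.2 a * p.1 (Q.c a)) := by
  obtain ⟨R, hR⟩ := good_radius h (2 * Q.Wc)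
  refine ⟨R, fun p b hb a ha => hR p b hb a ?_⟩
  by_contra hc
  rw [not_le] at hc
  apply ha
  have hk : Q.k Q.Wc p.2 a = 0 := k_eq_zero Q (W_pos h).2.2.1 hc.le
  simp only [hk, zero_mul]

theorem uA_LLU (h : Q.OK) : LLU Q (fun a p => Q.k Q.Wc p.2 a * p.1 (Q.c a)) := by
  have hA := (C0_le h).2
  refine ⟨90 * Q.A0 + 1, by linarith, ?_⟩
  intro t p q b hpr a
  have ht := hpr.cs.t0
  have h1 := k_close Q h.ball hpr.cs (W_pos h).2.2.1 a
  have h2 : |p.1 (Q.c a)| ≤ Q.A0 :=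
    (PiLp.norm_apply_le p.1 (Q.c a)).trans (Gd.X h hpr.gp)
  have h3 : |p.1 (Q.c a) - q.1 (Q.c a)| ≤ t := by
    have h4 := PiLp.norm_apply_le (p.1 - q.1) (Q.c a)
    rw [PiLp.sub_apply, Real.norm_eq_abs] at h4
    exact h4.trans hpr.cs.dX
  have h5 := k_nonneg Q Q.Wc q.2 a
  have h6 := k_le_one Q Q.Wc q.2 a
  have e : Q.k Q.Wc p.2 a * p.1 (Q.c a) - Q.k Q.Wc q.2 a * q.1 (Q.c a) =
      (Q.k Q.Wc p.2 a - Q.k Q.Wc q.2 a) * p.1 (Q.c a) +
        Q.k Q.Wc q.2 a * (p.1 (Q.c a) - q.1 (Q.c a)) := by ring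
  change |Q.k Q.Wc p.2 a * p.1 (Q.c a) - Q.k Q.Wc q.2 a * q.1 (Q.c a)| ≤ _
  rw [e]
  refine (abs_add_le _ _).trans ?_
  rw [abs_mul, abs_mul, abs_of_nonneg h5]
  have h7 := mul_le_mul h1 h2 (abs_nonneg _) (by linarith)
  have h8 := mul_le_mul h6 h3 (abs_nonneg _) zero_le_one
  linarith

theorem uA_LBU (h : Q.OK) : LBU Q (fun a p => Q.k Q.Wc p.2 a * p.1 (Q.c a)) := by
  have hA := (C0_le h).2
  refine ⟨Q.A0, by linarith, ?_⟩
  intro p b hb a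
  have h2 : |p.1 (Q.c a)| ≤ Q.A0 := (PiLp.norm_apply_le p.1 (Q.c a)).trans (Gd.X h hb)
  have h5 := k_nonneg Q Q.Wc p.2 a
  have h6 := k_le_one Q Q.Wc p.2 a
  change |Q.k Q.Wc p.2 a * p.1 (Q.c a)| ≤ _
  rw [abs_mul, abs_of_nonneg h5]
  have h8 := mul_le_mul h6 h2 (abs_nonneg _) zero_le_one
  linarith

theorem LL1_uA (h : Q.OK) : LL1 Q Q.uA := by
  obtain ⟨R, hR⟩ := uA_SB h
  exact LL1.of_family h.hd (uA_LLU h) hR (fun p b hb a => uA_apply h hb.1 a)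

theorem LB1_uA (h : Q.OK) : LB1 Q Q.uA := by
  obtain ⟨R, hR⟩ := uA_SB h
  exact LB1.of_family h.hd (uA_LBU h) hR (fun p b hb a => uA_apply h hb.1 a)

theorem LL1_qA (h : Q.OK) : LL1 Q Q.qA := by
  have h1 : LL Q (fun p => 1 - tot (Q.uA p)) := LL.sub (LL.const (1 : ℝ)) (LL1.totL (LL1_uA h))
  have h2 : LB Q (fun p => 1 - tot (Q.uA p)) := LB.sub (LB.const (1 : ℝ)) (LB1.totB (LB1_uA h))
  exact LL1.add (LL1_uA h) (LL1.smul h1 h2 (LL1_x h) (LB1_x h))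

theorem LB1_qA (h : Q.OK) : LB1 Q Q.qA := by
  have h2 : LB Q (fun p => 1 - tot (Q.uA p)) := LB.sub (LB.const (1 : ℝ)) (LB1.totB (LB1_uA h))
  exact LB1.add (LB1_uA h) (LB1.smul h2 (LB1_x h))

theorem LL_TA (h : Q.OK) : LL Q Q.TA := LL1.ioL Q.c (LL1_qA h)

theorem LB_TA (h : Q.OK) : LB Q Q.TA := LB1.ioB Q.c (LB1_qA h)

end Pool.HQ.LP
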