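import Pool.Agent.HQ.LP04

/-!
MP_7936f4_al, full question.  Part III, LIPSCHITZ BLOCK (helper87), module LP09: nn, sn, xJ.

* nn_supp: nn p a ≠ 0 gives Jp a p < 2 JG p ≤ 2 A0, and o a z ≤ W6 + Jp a p ≤ W6 + 2 A0 = W7 (o_le_Jp, Gd.JG).
* LLU_nn: case o a p.2 ≤ 2 W7: |nn p a - nn q a| ≤ 2 |JG p - JG q| + |Jp a p - Jp a q|, and Jp_close in both
  directions: |Jp a p - Jp a q| ≤ (E + 30 (3 W7)) t, because o a q.2 ≤ (1+30t) 2 W7 ≤ 3 W7 (om_le_close).
  Case o a p.2 > 2 W7: nn p a = 0 by nn_supp, and o a q.2 ≥ (1 - 30/200) 2 W7 > W7, so nn q a = 0 by nn_supp.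
* LBU_nn: 0 ≤ nn ≤ 2 JG ≤ 2 A0.
* sn_lower: choose a with Jp a p < JG p + 1/2 (exists_Jp): nn p a ≥ JG p - 1/2 ≥ 1/2; a is in near z W7.
* LL_sn: LL.of_family (SB from nn_supp and good_radius W7).
* xJ: LLU.div, LL1.of_family, with xJ_apply.
-/

namespace Pool.HQ.LP

variable {G : Type} [Group G] {M L : ℕ} {Q : VD G M L}

theorem nn_supp (h : Q.OK) {p : EU L × EU M} {b : G} (hb : Gd Q p b) {a : G} (ha : Q.nn p a ≠ 0) :
    Q.o a p.2 ≤ Q.W7 := by
  have h1 : 0 < 2 * Q.JG p - Q.Jp a p := by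
    by_contra hc
    apply ha
    unfold VD.nn
    exact max_eq_left (not_lt.1 hc)
  have h2 := o_le_Jp h a p
  have h3 := Gd.JG h hb
  have h4 : Q.W7 = Q.W6 + 2 * Q.A0 := rfl
  linarith

theorem lp09_max (x y : ℝ) : |max 0 x - max 0 y| ≤ |x - y| := by
  have h := abs_max_sub_max_le_max 0 x 0 y
  simpa using h

theorem LLU_nn (h : Q.OK) : LLU Q (fun a p => Q.nn p a) := by
  obtain ⟨KJ, hKJ, hJ⟩ := LL_JG h
  obtain ⟨hW7, -⟩ := W_pos h
  have hE := h.E1
  refine ⟨2 * KJ + Q.E + 90 * Q.W7, by linarith, ?_⟩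
  intro t p q b hpr a
  have ht := hpr.cs.t0
  have ht1 := hpr.cs.t1
  have hK : 0 ≤ (2 * KJ + Q.E + 90 * Q.W7) * t := mul_nonneg (by linarith) ht
  rcases le_or_gt (Q.o a p.2) (2 * Q.W7) with hc | hc
  · have h1 : |Q.nn p a - Q.nn q a| ≤ |(2 * Q.JG p - Q.Jp a p) - (2 * Q.JG q - Q.Jp a q)| :=
      lp09_max _ _
    have h2 : |Q.JG p - Q.JG q| ≤ KJ * t := hJ t p q b hpr
    have h3 := Jp_close h hpr.cs a
    have h4 := Jp_close h hpr.cs.symm a
    have h5 : Q.o a q.2 ≤ (1 + 30 * t) * Q.o a p.2 := om_le_close hpr.cs (h.ball a)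
    have h5' : Q.o a q.2 ≤ 3 * Q.W7 := by
      have h6 : (1 + 30 * t) * Q.o a p.2 ≤ (1 + 30 * t) * (2 * Q.W7) :=
        mul_le_mul_of_nonneg_left hc (by linarith)
      have h7 : (1 + 30 * t) * (2 * Q.W7) ≤ (3 / 2) * (2 * Q.W7) :=
        mul_le_mul_of_nonneg_right (by linarith) (by linarith)
      linarith
    have h8 : (Q.E + 30 * Q.o a p.2) * t ≤ (Q.E + 90 * Q.W7) * t :=
      mul_le_mul_of_nonneg_right (by linarith) ht
    have h9 : (Q.E + 30 * Q.o a q.2) * t ≤ (Q.E + 90 * Q.W7) * t :=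
      mul_le_mul_of_nonneg_right (by linarith) ht
    refine h1.trans ?_
    rw [abs_le] at h2 ⊢
    constructor
    · nlinarith [h2.1, h2.2]
    · nlinarith [h2.1, h2.2]
  · have h1 : Q.nn p a = 0 := by
      by_contra hne
      have := nn_supp h hpr.gp hne
      linarith
    have h2 : |Q.o a p.2 - Q.o a q.2| ≤ 30 * t * Q.o a p.2 := om_close hpr.cs (h.ball a)
    have h3 : 30 * t * Q.o a p.2 ≤ (3 / 20) * Q.o a p.2 :=
      mul_le_mul_of_nonneg_right (by linarith) (by linarith)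
    have h4 := le_abs_self (Q.o a p.2 - Q.o a q.2)
    have h5 : Q.nn q a = 0 := by
      by_contra hne
      have := nn_supp h hpr.gq hne
      linarith
    show |Q.nn p a - Q.nn q a| ≤ _
    rw [h1, h5, sub_zero, abs_zero]
    exact hK

omit [Group G] in
theorem lp09_nn_nonneg (p : EU L × EU M) (a : G) : 0 ≤ Q.nn p a := le_max_left _ _

theorem LBU_nn (h : Q.OK) : LBU Q (fun a p => Q.nn p a) := by
  have hA := (C0_le h).2
  refine ⟨2 * Q.A0, by linarith, ?_⟩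
  intro p b hb a
  have h1 := Gd.JG h hb
  have h2 := one_le_Jp h a p
  have h3 := one_le_JG h p
  show |Q.nn p a| ≤ _
  rw [abs_of_nonneg (lp09_nn_nonneg p a)]
  exact max_le (by linarith) (by linarith)

theorem sn_eq (h : Q.OK) {p : EU L × EU M} {b : G} (hb : Gd Q p b) (s : Finset G)
    (hs : ∀ a, Q.nn p a ≠ 0 → a ∈ s) : Q.sn p = ∑ a ∈ s, Q.nn p a := by
  classical
  have h1 : ∑ a ∈ Q.near p.2 Q.W7, Q.nn p a = ∑ a ∈ s ∪ Q.near p.2 Q.W7, Q.nn p a := by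
    refine Finset.sum_subset Finset.subset_union_right fun a _ ha => ?_
    by_contra hne
    exact ha ((mem_near h hb.1).2 (nn_supp h hb hne))
  have h2 : ∑ a ∈ s, Q.nn p a = ∑ a ∈ s ∪ Q.near p.2 Q.W7, Q.nn p a := by
    refine Finset.sum_subset Finset.subset_union_left fun a _ ha => ?_
    by_contra hne
    exact ha (hs a hne)
  unfold VD.sn
  rw [h1, h2]

theorem sn_lower (h : Q.OK) {p : EU L × EU M} {b : G} (hb : Gd Q p b) : 1 / 2 ≤ Q.sn p := by
  obtain ⟨a, ha⟩ := exists_Jp (Q := Q) (p := p) (s := Q.JG p + 1 / 2) (by linarith)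
  have h1 := one_le_JG h p
  have h2 : 1 / 2 ≤ Q.nn p a := by
    have h3 : 2 * Q.JG p - Q.Jp a p ≤ Q.nn p a := le_max_right _ _
    linarith
  have h3 : a ∈ Q.near p.2 Q.W7 := (mem_near h hb.1).2 (nn_supp h hb (by linarith [h2] : Q.nn p a ≠ 0))
  have h4 : Q.nn p a ≤ Q.sn p := by
    unfold VD.sn
    exact Finset.single_le_sum (f := fun a => Q.nn p a) (fun c _ => lp09_nn_nonneg p c) h3
  linarith

theorem xJ_apply (h : Q.OK) {p : EU L × EU M} {b : G} (hb : Gd Q p b) (a : G) :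
    Q.xJ p a = Q.nn p a / Q.sn p := by
  classical
  unfold VD.xJ
  rw [Finsupp.finsetSum_apply]
  simp only [Finsupp.single_apply]
  by_cases ha : a ∈ Q.near p.2 Q.W7
  · rw [Finset.sum_eq_single a]
    · simp
    · intro c _ hc
      simp [hc]
    · intro hc
      exact absurd ha hc
  · have h0 : Q.nn p a = 0 := by
      by_contra hne
      exact ha ((mem_near h hb.1).2 (nn_supp h hb hne))
    rw [h0, zero_div]
    refine Finset.sum_eq_zero fun c hc => ?_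
    have : c ≠ a := fun e => ha (e ▸ hc)
    simp [this]

theorem lp09_SB_nn (h : Q.OK) : ∃ R : ℕ, SB Q R (fun a p => Q.nn p a) := by
  obtain ⟨R, hR⟩ := good_radius h Q.W7
  exact ⟨R, fun p b hb a ha => hR p b hb a (nn_supp h hb ha)⟩

theorem LL_sn (h : Q.OK) : LL Q Q.sn := by
  obtain ⟨R, hR⟩ := lp09_SB_nn h
  exact LL.of_family h.hd (LLU_nn h) hR (fun p b hb s hs => sn_eq h hb s hs)

theorem LL1_xJ (h : Q.OK) : LL1 Q Q.xJ := by
  obtain ⟨R, hR⟩ := lp09_SB_nn h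
  refine LL1.of_family h.hd (F := fun a p => Q.nn p a / Q.sn p)
    (LLU.div (LLU_nn h) (LBU_nn h) (LL_sn h) (m := 1 / 2) (by norm_num)
      (fun p b hb => sn_lower h hb)) (R := R) ?_ (fun p b hb a => xJ_apply h hb a)
  intro p b hb a ha
  exact hR p b hb a (fun h0 => ha (by
    have h1 : Q.nn p a = 0 := h0
    show Q.nn p a / Q.sn p = 0
    rw [h1, zero_div]))

theorem LB1_xJ (h : Q.OK) : LB1 Q Q.xJ := by
  obtain ⟨R, hR⟩ := lp09_SB_nn h
  refine LB1.of_family h.hd (F := fun a p => Q.nn p a / Q.sn p)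
    (LBU.div (LBU_nn h) (m := 1 / 2) (by norm_num)
      (fun p b hb => sn_lower h hb)) (R := R) ?_ (fun p b hb a => xJ_apply h hb a)
  intro p b hb a ha
  exact hR p b hb a (fun h0 => ha (by
    have h1 : Q.nn p a = 0 := h0
    show Q.nn p a / Q.sn p = 0
    rw [h1, zero_div]))

end Pool.HQ.LP
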