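import Pool.Agent.HQ.LP05

/-!
MP_7936f4_al, full question.  Part III, LIPSCHITZ BLOCK (helper87), module LP10: Ph, XXh, chi.

* LB_Ph: b good: o a z ≤ 5 K W7 wb b a (o_le_wb, Gd.o), NN_scale with s = 5 K W7 ≥ 1, J b X ≤ Jp b p ≤ A0:
  Ph p ≤ 5 K W7 A0.
* LL_Ph: LL.of_le: Ph q ≤ (1+30t) NN(o(.,z)) X' ≤ (1+30t)(Ph p + E t) ≤ Ph p + (30 B + 2 E) t
  (om_le_close, NN_scale, NN_lipX, 30 t ≤ 1).
* 0 ≤ wf z a ≤ o a z (k in [0,1]); XXh ≤ Ph (NN_mono), so XXh is bounded on good points.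
* near_mass: let S = B0 + 1, B0 a bound of XXh on good points.  For a in near z (2Wc):
  (io psi)(c a) = psi a + sum of psi a' over a' ≠ a with c a' = c a; such a' are not in near z (2 Wc) (near_inj), so
  k Wc z a' = 0 (k_eq_zero) and wf z a' = o a' z ≥ 1; hence the sum of the |psi a'| is ≤ cst (wf z) psi ≤ S.
  |psi a| ≤ |io psi| + S ≤ |X| + |X - io psi| + S ≤ A0 + 2 S (E ≥ 1).  Sum over at most N elements (near_card).
* wf_near: wf z' a - wf z a = (1-k')(o'-o) + (k-k') o, so |.| ≤ 30 t o + 90 t o ≤ 240 t Wc for o ≤ 2 Wc.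
* wf_far: o > 2 Wc: k = 0, wf z a = o, wf z' a ≤ o' ≤ (1+30t) o.
* LL_XXh: LL.of_le.  For e in (0,1] choose psi with cost at p < XXh p + e (exists_near).  Then
  XXh q ≤ cst (wf z') psi + E |X' - io psi| ≤ (1+30t) cst (wf z) psi + 240 Wc t B + E |X - io psi| + E t
       ≤ (1+30t)(XXh p + e) + (240 Wc B + E) t.
  Since e is arbitrary: XXh q ≤ XXh p + (30 B0 + 240 Wc B + E) t.
* chi = cl (2 - XXh/eta1).
-/

namespace Pool.HQ.LP

variable {G : Type} [Group G] {M L : ℕ} {Q : VD G M L}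

omit [Group G] in
theorem LP10_Ph_eq (p : EU L × EU M) : Q.Ph p = NN Q.c Q.E (fun a => Q.o a p.2) p.1 := rfl

theorem LP10_o_nonneg (h : Q.OK) {z : EU M} (hz : ‖z‖ < 1) (a : G) : 0 ≤ Q.o a z :=
  zero_le_one.trans (one_le_o h a hz)

theorem LP10_E_nonneg (h : Q.OK) : 0 ≤ Q.E := zero_le_one.trans h.E1

theorem LP10_Ph_nonneg (h : Q.OK) {p : EU L × EU M} (hp : ‖p.2‖ < 1) : 0 ≤ Q.Ph p :=
  NN_nonneg (LP10_o_nonneg h hp) (LP10_E_nonneg h)

theorem LB_Ph (h : Q.OK) : LB Q Q.Ph := by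
  have hW7 := (W_pos h).1
  have hK := h.K1
  have hA := (C0_le h).2
  refine ⟨5 * Q.K * Q.W7 * Q.A0, by positivity, ?_⟩
  intro p b hb
  have hz := hb.1
  rw [Real.norm_of_nonneg (LP10_Ph_nonneg h hz)]
  have ho := Gd.o h hb
  have h1 := one_le_o h b hz
  have hs : 1 ≤ 5 * Q.K * Q.W7 := by nlinarith
  have hwb : ∀ a, 0 ≤ Q.wb b a := fun a => zero_le_one.trans (one_le_wb h b a)
  have h2 : NN Q.c Q.E (fun a => Q.o a p.2) p.1 ≤
      (5 * Q.K * Q.W7) * NN Q.c Q.E (Q.wb b) p.1 := by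
    refine NN_scale hwb (LP10_E_nonneg h) hs (LP10_o_nonneg h hz) ?_
    intro a
    refine (o_le_wb h (a := a) (b := b) hz).trans ?_
    have h3 : Q.wb b a * Q.o b p.2 ≤ Q.wb b a * Q.W7 := mul_le_mul_of_nonneg_left ho (hwb a)
    have h4 := mul_le_mul_of_nonneg_left h3 (by linarith : (0 : ℝ) ≤ 5 * Q.K)
    calc 5 * Q.K * (Q.wb b a * Q.o b p.2) ≤ 5 * Q.K * (Q.wb b a * Q.W7) := h4
      _ = 5 * Q.K * Q.W7 * Q.wb b a := by ring
  have h5 : NN Q.c Q.E (Q.wb b) p.1 ≤ Q.A0 := (J_le_Jp (Q := Q) b p).trans hb.2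
  rw [LP10_Ph_eq]
  exact h2.trans (mul_le_mul_of_nonneg_left h5 (by positivity))

theorem LL_Ph (h : Q.OK) : LL Q Q.Ph := by
  obtain ⟨B, hB, hB1⟩ := LB_Ph h
  have hE := LP10_E_nonneg h
  refine LL.of_le ⟨30 * B + 2 * Q.E, by positivity, ?_⟩
  intro t p q b hpr
  have hc := hpr.cs
  have ht := hc.t0
  have ht1 := hc.t1
  have h1 : Q.Ph q ≤ (1 + 30 * t) * NN Q.c Q.E (fun a => Q.o a p.2) q.1 := by
    rw [LP10_Ph_eq]
    refine NN_scale (LP10_o_nonneg h hc.hp) hE (by linarith) (LP10_o_nonneg h hc.hq) ?_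
    intro a
    exact om_le_close hc (h.ball a)
  have h2 : NN Q.c Q.E (fun a => Q.o a p.2) q.1 ≤ Q.Ph p + Q.E * ‖p.1 - q.1‖ := by
    rw [LP10_Ph_eq]
    exact NN_lipX (LP10_o_nonneg h hc.hp) hE
  have h3 : Q.E * ‖p.1 - q.1‖ ≤ Q.E * t := mul_le_mul_of_nonneg_left hc.dX hE
  have h4 : Q.Ph p ≤ B := by
    have := hB1 p b hpr.gp
    exact (le_abs_self _).trans this
  have h5 : NN Q.c Q.E (fun a => Q.o a p.2) q.1 ≤ Q.Ph p + Q.E * t := by linarith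
  have h6 := mul_le_mul_of_nonneg_left h5 (by linarith : (0 : ℝ) ≤ 1 + 30 * t)
  have h7 : t * Q.Ph p ≤ t * B := mul_le_mul_of_nonneg_left h4 ht
  have h8 : (1 + 30 * t) * (Q.E * t) ≤ 2 * (Q.E * t) :=
    mul_le_mul_of_nonneg_right (by linarith) (mul_nonneg hE ht)
  nlinarith

theorem wf_nonneg (h : Q.OK) {z : EU M} (hz : ‖z‖ < 1) (a : G) : 0 ≤ Q.wf z a := by
  unfold VD.wf
  exact mul_nonneg (by linarith [k_le_one Q Q.Wc z a]) (LP10_o_nonneg h hz a)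

theorem wf_le (h : Q.OK) {z : EU M} (hz : ‖z‖ < 1) (a : G) : Q.wf z a ≤ Q.o a z := by
  unfold VD.wf
  have h1 := mul_nonneg (k_nonneg Q Q.Wc z a) (LP10_o_nonneg h hz a)
  linarith

theorem XXh_nonneg (h : Q.OK) {p : EU L × EU M} (hp : ‖p.2‖ < 1) : 0 ≤ Q.XXh p :=
  NN_nonneg (wf_nonneg h hp) (LP10_E_nonneg h)

theorem XXh_le_Ph (h : Q.OK) {p : EU L × EU M} (hp : ‖p.2‖ < 1) : Q.XXh p ≤ Q.Ph p := by
  rw [LP10_Ph_eq]
  exact NN_mono (wf_nonneg h hp) (LP10_E_nonneg h) (wf_le h hp)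

theorem LB_XXh (h : Q.OK) : LB Q Q.XXh := by
  obtain ⟨B, hB, hB1⟩ := LB_Ph h
  refine ⟨B, hB, ?_⟩
  intro p b hb
  rw [Real.norm_of_nonneg (XXh_nonneg h hb.1)]
  have h1 := hB1 p b hb
  rw [Real.norm_of_nonneg (LP10_Ph_nonneg h hb.1)] at h1
  exact (XXh_le_Ph h hb.1).trans h1

omit [Group G] in
theorem LP10_io_apply (c : G → Fin L) (ψ : G →₀ ℝ) (i : Fin L) :
    (io c ψ) i = ∑ a ∈ ψ.support, (if c a = i then ψ a else 0) := by
  unfold io Finsupp.sum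
  rw [WithLp.ofLp_sum, Finset.sum_apply]
  refine Finset.sum_congr rfl fun a _ => ?_
  rw [PiLp.smul_apply]
  simp only [PiLp.single_apply, EuclideanSpace.single, smul_eq_mul, mul_ite, mul_one, mul_zero]
  by_cases hi : c a = i
  · rw [if_pos hi, if_pos hi.symm]
  · rw [if_neg hi, if_neg (fun hh => hi hh.symm)]

theorem near_mass (h : Q.OK) : ∃ B : ℝ, 0 ≤ B ∧ ∀ (p : EU L × EU M) (b : G), Gd Q p b →
    ∀ ψ : G →₀ ℝ, tot ψ = 1 → cst (Q.wf p.2) ψ + Q.E * ‖p.1 - io Q.c ψ‖ ≤ Q.XXh p + 1 →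
    ∑ a ∈ Q.near p.2 (2 * Q.Wc), |ψ a| ≤ B := by
  classical
  obtain ⟨B0, hB0, hB1⟩ := LB_XXh h
  obtain ⟨N, hN⟩ := near_card h (2 * Q.Wc)
  have hA := (C0_le h).2
  have hE := h.E1
  have hWc := (W_pos h).2.2.1
  refine ⟨N * (Q.A0 + 2 * (B0 + 1)), by positivity, ?_⟩
  intro p b hb ψ _ hψ
  have hz := hb.1
  have hX : Q.XXh p ≤ B0 := (le_abs_self _).trans (hB1 p b hb)
  have hc0 := cst_nonneg (wf_nonneg h hz) ψ
  have hn0 := norm_nonneg (p.1 - io Q.c ψ)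
  have hcS : cst (Q.wf p.2) ψ ≤ B0 + 1 := by
    have := mul_nonneg (zero_le_one.trans hE) hn0
    linarith
  have hnS : ‖p.1 - io Q.c ψ‖ ≤ B0 + 1 := by
    have := mul_le_mul_of_nonneg_right hE hn0
    linarith
  have hio : ‖io Q.c ψ‖ ≤ Q.A0 + (B0 + 1) := by
    have h1 := norm_sub_norm_le (io Q.c ψ) p.1
    rw [norm_sub_rev] at h1
    have h2 := Gd.X h hb
    linarith
  have hpt : ∀ a ∈ Q.near p.2 (2 * Q.Wc), |ψ a| ≤ Q.A0 + 2 * (B0 + 1) := by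
    intro a ha
    rw [mem_near h hz] at ha
    have h3 : |(io Q.c ψ) (Q.c a) - ψ a| ≤ cst (Q.wf p.2) ψ := by
      have h4 : (io Q.c ψ) (Q.c a) - ψ a =
          ∑ a' ∈ ψ.support, (if Q.c a' = Q.c a ∧ a' ≠ a then ψ a' else 0) := by
        rw [LP10_io_apply]
        have h5 : ψ a = ∑ a' ∈ ψ.support, (if a' = a then ψ a' else 0) := by
          rw [Finset.sum_ite_eq']
          split_ifs with h6
          · rfl
          · exact Finsupp.notMem_support_iff.1 h6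
        rw [h5, ← Finset.sum_sub_distrib]
        refine Finset.sum_congr rfl fun a' _ => ?_
        by_cases h7 : a' = a
        · subst h7
          simp
        · by_cases h8 : Q.c a' = Q.c a
          · rw [if_pos h8, if_neg h7, if_pos ⟨h8, h7⟩, sub_zero]
          · rw [if_neg h8, if_neg h7, if_neg (fun hh => h8 hh.1), sub_zero]
      rw [h4]
      unfold cst Finsupp.sum
      refine (Finset.abs_sum_le_sum_abs _ _).trans (Finset.sum_le_sum fun a' _ => ?_)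
      show _ ≤ Q.wf p.2 a' * |ψ a'|
      by_cases h9 : Q.c a' = Q.c a ∧ a' ≠ a
      · rw [if_pos h9]
        have h10 : 2 * Q.Wc < Q.o a' p.2 := by
          by_contra hcon
          exact h9.2 (near_inj h hb (not_lt.1 hcon) ha h9.1)
        have h11 : Q.wf p.2 a' = Q.o a' p.2 := by
          unfold VD.wf
          rw [k_eq_zero Q hWc h10.le, sub_zero, one_mul]
        rw [h11]
        have h12 := one_le_o h a' hz
        have := mul_le_mul_of_nonneg_right h12 (abs_nonneg (ψ a'))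
        linarith
      · rw [if_neg h9, abs_zero]
        exact mul_nonneg (wf_nonneg h hz a') (abs_nonneg _)
    have h13 : |(io Q.c ψ) (Q.c a)| ≤ ‖io Q.c ψ‖ := by
      have := PiLp.norm_apply_le (io Q.c ψ) (Q.c a)
      rwa [Real.norm_eq_abs] at this
    have h14 : |ψ a| ≤ |(io Q.c ψ) (Q.c a)| + |(io Q.c ψ) (Q.c a) - ψ a| := by
      have h15 : ψ a = (io Q.c ψ) (Q.c a) - ((io Q.c ψ) (Q.c a) - ψ a) := by ring
      have h16 := abs_sub ((io Q.c ψ) (Q.c a)) ((io Q.c ψ) (Q.c a) - ψ a)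
      rw [← h15] at h16
      exact h16
    linarith
  calc ∑ a ∈ Q.near p.2 (2 * Q.Wc), |ψ a|
      ≤ ∑ _a ∈ Q.near p.2 (2 * Q.Wc), (Q.A0 + 2 * (B0 + 1)) := Finset.sum_le_sum hpt
    _ = ((Q.near p.2 (2 * Q.Wc)).card : ℝ) * (Q.A0 + 2 * (B0 + 1)) := by
        rw [Finset.sum_const, nsmul_eq_mul]
    _ ≤ N * (Q.A0 + 2 * (B0 + 1)) := by
        refine mul_le_mul_of_nonneg_right ?_ (by positivity)
        exact_mod_cast hN p.2 hz

theorem wf_near (h : Q.OK) {t : ℝ} {p q : EU L × EU M} (hc : Cs t p q) {a : G}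
    (ha : Q.o a p.2 ≤ 2 * Q.Wc) : Q.wf q.2 a ≤ Q.wf p.2 a + 240 * t * Q.Wc := by
  have hWc := (W_pos h).2.2.1
  have ht := hc.t0
  have h1 : |Q.o a p.2 - Q.o a q.2| ≤ 30 * t * Q.o a p.2 := om_close hc (h.ball a)
  have h2 := k_close Q h.ball hc hWc a
  have h3 := k_le_one Q Q.Wc q.2 a
  have h4 := k_nonneg Q Q.Wc q.2 a
  have ho := LP10_o_nonneg h hc.hp a
  rw [abs_le] at h1 h2
  have e1 : Q.wf q.2 a - Q.wf p.2 a = (1 - Q.k Q.Wc q.2 a) * (Q.o a q.2 - Q.o a p.2) +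
      (Q.k Q.Wc p.2 a - Q.k Q.Wc q.2 a) * Q.o a p.2 := by
    unfold VD.wf
    ring
  have h5 : (1 - Q.k Q.Wc q.2 a) * (Q.o a q.2 - Q.o a p.2) ≤ 30 * t * Q.o a p.2 := by
    have h6 : (1 - Q.k Q.Wc q.2 a) * (Q.o a q.2 - Q.o a p.2) ≤
        (1 - Q.k Q.Wc q.2 a) * (30 * t * Q.o a p.2) :=
      mul_le_mul_of_nonneg_left (by linarith [h1.1]) (by linarith)
    have h7 : (1 - Q.k Q.Wc q.2 a) * (30 * t * Q.o a p.2) ≤ 1 * (30 * t * Q.o a p.2) :=
      mul_le_mul_of_nonneg_right (by linarith) (by positivity)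
    linarith
  have h8 : (Q.k Q.Wc p.2 a - Q.k Q.Wc q.2 a) * Q.o a p.2 ≤ 90 * t * Q.o a p.2 :=
    mul_le_mul_of_nonneg_right h2.2 ho
  have h9 : 120 * t * Q.o a p.2 ≤ 120 * t * (2 * Q.Wc) :=
    mul_le_mul_of_nonneg_left ha (by positivity)
  linarith

theorem wf_far (h : Q.OK) {t : ℝ} {p q : EU L × EU M} (hc : Cs t p q) {a : G}
    (ha : 2 * Q.Wc < Q.o a p.2) : Q.wf q.2 a ≤ (1 + 30 * t) * Q.wf p.2 a := by
  have hWc := (W_pos h).2.2.1
  have h1 : Q.wf p.2 a = Q.o a p.2 := by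
    unfold VD.wf
    rw [k_eq_zero Q hWc ha.le, sub_zero, one_mul]
  rw [h1]
  exact (wf_le h hc.hq a).trans (om_le_close hc (h.ball a))

theorem cst_wf (h : Q.OK) {t : ℝ} {p q : EU L × EU M} (hc : Cs t p q) (ψ : G →₀ ℝ) :
    cst (Q.wf q.2) ψ ≤ (1 + 30 * t) * cst (Q.wf p.2) ψ +
      240 * t * Q.Wc * ∑ a ∈ Q.near p.2 (2 * Q.Wc), |ψ a| := by
  classical
  have hWc := (W_pos h).2.2.1
  have ht := hc.t0
  have h1 : ∑ a ∈ ψ.support, (if a ∈ Q.near p.2 (2 * Q.Wc) then |ψ a| else 0) ≤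
      ∑ a ∈ Q.near p.2 (2 * Q.Wc), |ψ a| := by
    rw [← Finset.sum_filter]
    refine Finset.sum_le_sum_of_subset_of_nonneg ?_ fun a _ _ => abs_nonneg _
    intro a ha
    exact (Finset.mem_filter.1 ha).2
  have h2 : cst (Q.wf q.2) ψ ≤ (1 + 30 * t) * cst (Q.wf p.2) ψ +
      240 * t * Q.Wc * ∑ a ∈ ψ.support, (if a ∈ Q.near p.2 (2 * Q.Wc) then |ψ a| else 0) := by
    unfold cst Finsupp.sum
    rw [Finset.mul_sum, Finset.mul_sum, ← Finset.sum_add_distrib]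
    refine Finset.sum_le_sum fun a _ => ?_
    by_cases ha : a ∈ Q.near p.2 (2 * Q.Wc)
    · rw [if_pos ha]
      rw [mem_near h hc.hp] at ha
      have h3 := mul_le_mul_of_nonneg_right (wf_near h hc ha) (abs_nonneg (ψ a))
      have h4 : 0 ≤ 30 * t * (Q.wf p.2 a * |ψ a|) :=
        mul_nonneg (by positivity) (mul_nonneg (wf_nonneg h hc.hp a) (abs_nonneg _))
      linarith
    · rw [if_neg ha, mul_zero, add_zero]
      rw [mem_near h hc.hp, not_le] at ha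
      have h3 := mul_le_mul_of_nonneg_right (wf_far h hc ha) (abs_nonneg (ψ a))
      linarith
  have h5 := mul_le_mul_of_nonneg_left h1 (by positivity : 0 ≤ 240 * t * Q.Wc)
  linarith

theorem LL_XXh (h : Q.OK) : LL Q Q.XXh := by
  obtain ⟨B0, hB0, hB1⟩ := LB_XXh h
  obtain ⟨B, hB, hBm⟩ := near_mass h
  have hWc := (W_pos h).2.2.1
  have hE := LP10_E_nonneg h
  refine LL.of_le ⟨30 * B0 + 240 * Q.Wc * B + Q.E, by positivity, ?_⟩
  intro t p q b hpr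
  have hc := hpr.cs
  have ht := hc.t0
  have ht1 := hc.t1
  refine le_of_forall_pos_le_add fun e he => ?_
  obtain ⟨e', he'⟩ : ∃ e' : ℝ, e' = min 1 (e / 2) := ⟨_, rfl⟩
  have he0 : 0 < e' := by rw [he']; exact lt_min one_pos (by linarith)
  have he1 : e' ≤ 1 := by rw [he']; exact min_le_left _ _
  have he2 : e' ≤ e / 2 := by rw [he']; exact min_le_right _ _
  obtain ⟨ψ, hψ1, hψ2⟩ := exists_near (c := Q.c) (E := Q.E) (w := Q.wf p.2) (X := p.1)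
    (s := Q.XXh p + e') (by
      have : NN Q.c Q.E (Q.wf p.2) p.1 = Q.XXh p := rfl
      linarith)
  have h1 : Q.XXh q ≤ cst (Q.wf q.2) ψ + Q.E * ‖q.1 - io Q.c ψ‖ :=
    NN_le (wf_nonneg h hc.hq) hE hψ1
  have h2 := cst_wf h hc ψ
  have h3 := hBm p b hpr.gp ψ hψ1 (by linarith)
  have h4 := mul_le_mul_of_nonneg_left h3 (by positivity : 0 ≤ 240 * t * Q.Wc)
  have h5 : ‖q.1 - io Q.c ψ‖ ≤ ‖p.1 - io Q.c ψ‖ + t := by
    have e1 : q.1 - io Q.c ψ = (p.1 - io Q.c ψ) - (p.1 - q.1) := by abel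
    rw [e1]
    exact (norm_sub_le _ _).trans (by linarith [hc.dX])
  have h6 := mul_le_mul_of_nonneg_left h5 hE
  have h7 : Q.XXh p ≤ B0 := (le_abs_self _).trans (hB1 p b hpr.gp)
  have h8 := mul_nonneg hE (norm_nonneg (p.1 - io Q.c ψ))
  have h9 : 30 * t * cst (Q.wf p.2) ψ ≤ 30 * t * (B0 + e') :=
    mul_le_mul_of_nonneg_left (by linarith) (by positivity)
  have h10 : 30 * t * e' ≤ e' := by nlinarith
  nlinarith

theorem LL_chi (h : Q.OK) : LL Q Q.chi := by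
  have h1 : LL Q (fun p => 2 - Q.XXh p / Q.eta1) := (LL.const 2).sub ((LL_XXh h).divc Q.eta1)
  exact h1.clamp

theorem LB_chi (Q : VD G M L) : LB Q Q.chi := LB.clamp (fun p => 2 - Q.XXh p / Q.eta1)

end Pool.HQ.LP
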