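import Pool.Agent.HQ.LP07
import Pool.Agent.HQ.LP08
import Pool.Agent.HQ.LP09
import Pool.Agent.HQ.LP10

/-!
MP_7936f4_al, full question.  Part III, LIPSCHITZ BLOCK (helper87), module LP11: the vector field on good pairs.

Everything in LL_*, LB_* is the calculus of LP00 applied to the definitions (VFun), with LL_JG, LB_JG, LB_fst
(LP03), LL_omfh (LP07), LL_TA (LP08), LL1_xJ (LP09), LL_Ph, LL_chi (LP10).

gg_le: |v|/(|v|+D) ≤ 1.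
gg_lip: (D/(|v|+D)) v - (D'/(|v'|+D')) v' = (D/(|v|+D)) (v - v') + (D/(|v|+D) - D'/(|v'|+D')) v' and
  D/(|v|+D) - D'/(|v'|+D') = (D (|v'|-|v|) + (D-D') |v|)/((|v|+D)(|v'|+D')), so the second term has norm
  ≤ |v - v'| (D/(|v|+D)) (|v'|/(|v'|+D')) + |D-D'| (|v|/(|v|+D)) (|v'|/(|v'|+D')) ≤ |v-v'| + |D-D'|.

V2 p = (cut p * vs p / 16) • g p, g p = (D/(|v|+D)) • v, D = 1-|p.2|, v = fh p - p.2.
V2_bd: |g| ≤ D, cut*vs bounded.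
V2_lip: |g p - g q| ≤ 2 |v - v'| + |D-D'| ≤ 2 (K t D + t D) + t D (fh_lip; |p.2 - q.2| ≤ t D), |g p| ≤ D;
  |V2 p - V2 q| ≤ |s p - s q| |g p| + |s q| |g p - g q|, s = cut * vs / 16 (LL and LB).
-/

namespace Pool.HQ.LP

variable {G : Type} [Group G] {M L : ℕ} {Q : VD G M L}

theorem LL_T1 (h : Q.OK) : LL Q Q.T1 := by
  have hc := LL_chi h
  have hcb := LB_chi Q
  have h1 : LL Q (fun p => (1 : ℝ) - Q.chi p) := (LL.const 1).sub hc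
  have h1b : LB Q (fun p => (1 : ℝ) - Q.chi p) := (LB.const 1).sub hcb
  exact (h1.smul h1b (LL_TA h) (LB_TA h)).add
    (hc.smul hcb ((LL1_xJ h).ioL Q.c) ((LB1_xJ h).ioB Q.c))

theorem LB_T1 (h : Q.OK) : LB Q Q.T1 := by
  have hcb := LB_chi Q
  have h1b : LB Q (fun p => (1 : ℝ) - Q.chi p) := (LB.const 1).sub hcb
  exact (h1b.smul (LB_TA h)).add (hcb.smul ((LB1_xJ h).ioB Q.c))

theorem LL_th1 (h : Q.OK) : LL Q Q.th1 := by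
  exact (((LL_JG h).sub (LL.const (1.2 * Q.C0))).divc (0.3 * Q.C0)).clamp

theorem LB_th1 (Q : VD G M L) : LB Q Q.th1 := by
  exact LB.clamp _

theorem LL_vs (h : Q.OK) : LL Q Q.vs := by
  have h1 : LL Q Q.th2 := (((LL.const (1.8 * Q.C0)).sub (LL_JG h)).divc (0.3 * Q.C0)).clamp
  have h2 : LL Q (fun p => cl (Q.Ph p / Q.C5 - 1)) :=
    (((LL_Ph h).divc Q.C5).sub (LL.const 1)).clamp
  exact h1.add (LL.cmul Q.sig h2)

theorem LB_vs (Q : VD G M L) : LB Q Q.vs := by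
  have h1 : LB Q Q.th2 := LB.clamp _
  have h2 : LB Q (fun p => cl (Q.Ph p / Q.C5 - 1)) := LB.clamp _
  exact h1.add (LB.cmul Q.sig h2)

theorem LL_cut (h : Q.OK) : LL Q Q.cut := by
  have h1 : LL Q (fun p => cl (10 * (1.1 - Q.JG p / Q.C1))) :=
    (LL.cmul 10 ((LL.const (1.1 : ℝ)).sub ((LL_JG h).divc Q.C1))).clamp
  have h2 : LL Q (fun p => cl (10 * (1.1 - om (Q.fh p) p.2 / Q.W5))) :=
    (LL.cmul 10 ((LL.const (1.1 : ℝ)).sub ((LL_omfh h).divc Q.W5))).clamp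
  exact h1.mul (LB.clamp _) h2 (LB.clamp _)

theorem LB_cut (Q : VD G M L) : LB Q Q.cut := by
  exact (LB.clamp _).mul (LB.clamp _)

theorem LL_V1 (h : Q.OK) : LL Q Q.V1 := by
  have a1 : LL Q (fun p => Q.T1 p - p.1) := (LL_T1 h).sub LL.fst
  have a2 : LB Q (fun p => Q.T1 p - p.1) := (LB_T1 h).sub (LB_fst h)
  have b1 : LL Q (fun p => Q.TA p - p.1) := (LL_TA h).sub LL.fst
  have b2 : LB Q (fun p => Q.TA p - p.1) := (LB_TA h).sub (LB_fst h)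
  have c1 : LL Q (fun p => Q.th1 p • (Q.T1 p - p.1) + Q.vs p • (Q.TA p - p.1)) :=
    ((LL_th1 h).smul (LB_th1 Q) a1 a2).add ((LL_vs h).smul (LB_vs Q) b1 b2)
  have c2 : LB Q (fun p => Q.th1 p • (Q.T1 p - p.1) + Q.vs p • (Q.TA p - p.1)) :=
    ((LB_th1 Q).smul a2).add ((LB_vs Q).smul b2)
  exact (LL_cut h).smul (LB_cut Q) c1 c2

theorem LB_V1 (h : Q.OK) : LB Q Q.V1 := by
  have a2 : LB Q (fun p => Q.T1 p - p.1) := (LB_T1 h).sub (LB_fst h)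
  have b2 : LB Q (fun p => Q.TA p - p.1) := (LB_TA h).sub (LB_fst h)
  have c2 : LB Q (fun p => Q.th1 p • (Q.T1 p - p.1) + Q.vs p • (Q.TA p - p.1)) :=
    ((LB_th1 Q).smul a2).add ((LB_vs Q).smul b2)
  exact (LB_cut Q).smul c2

theorem gg_le {v : EU M} {D : ℝ} (hD : 0 < D) : ‖(D / (‖v‖ + D)) • v‖ ≤ D := by
  have h0 := norm_nonneg v
  have h1 : 0 < ‖v‖ + D := by linarith
  rw [norm_smul, Real.norm_of_nonneg (by positivity), div_mul_eq_mul_div, div_le_iff₀ h1]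
  nlinarith

theorem gg_lip {v v' : EU M} {D D' : ℝ} (hD : 0 < D) (hD' : 0 < D') :
    ‖(D / (‖v‖ + D)) • v - (D' / (‖v'‖ + D')) • v'‖ ≤ 2 * ‖v - v'‖ + |D - D'| := by
  have h0 := norm_nonneg v
  have h0' := norm_nonneg v'
  have h1 : 0 < ‖v‖ + D := by linarith
  have h1' : 0 < ‖v'‖ + D' := by linarith
  have e : (D / (‖v‖ + D)) • v - (D' / (‖v'‖ + D')) • v' =
      (D / (‖v‖ + D)) • (v - v') + (D / (‖v‖ + D) - D' / (‖v'‖ + D')) • v' := by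
    rw [smul_sub, sub_smul]; abel
  have e2 : (D / (‖v‖ + D) - D' / (‖v'‖ + D')) * ‖v'‖ =
      (‖v'‖ - ‖v‖) * (D / (‖v‖ + D) * (‖v'‖ / (‖v'‖ + D'))) +
        (D - D') * (‖v‖ / (‖v‖ + D) * (‖v'‖ / (‖v'‖ + D'))) := by
    field_simp
    ring
  have hD1 : D / (‖v‖ + D) ≤ 1 := by rw [div_le_one h1]; linarith
  have hD0 : 0 ≤ D / (‖v‖ + D) := by positivity
  have hv1 : ‖v‖ / (‖v‖ + D) ≤ 1 := by rw [div_le_one h1]; linarith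
  have hv0 : 0 ≤ ‖v‖ / (‖v‖ + D) := by positivity
  have hw1 : ‖v'‖ / (‖v'‖ + D') ≤ 1 := by rw [div_le_one h1']; linarith
  have hw0 : 0 ≤ ‖v'‖ / (‖v'‖ + D') := by positivity
  have h2 : ‖(D / (‖v‖ + D)) • (v - v')‖ ≤ ‖v - v'‖ := by
    rw [norm_smul, Real.norm_of_nonneg hD0]
    exact mul_le_of_le_one_left (norm_nonneg _) hD1
  have h3 : ‖(D / (‖v‖ + D) - D' / (‖v'‖ + D')) • v'‖ ≤ ‖v - v'‖ + |D - D'| := by
    have : ‖(D / (‖v‖ + D) - D' / (‖v'‖ + D')) • v'‖ =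
        |(D / (‖v‖ + D) - D' / (‖v'‖ + D')) * ‖v'‖| := by
      rw [norm_smul, Real.norm_eq_abs, abs_mul, abs_of_nonneg h0']
    rw [this, e2]
    refine (abs_add_le _ _).trans (add_le_add ?_ ?_)
    · rw [abs_mul, abs_of_nonneg (mul_nonneg hD0 hw0)]
      have h4 : |‖v'‖ - ‖v‖| ≤ ‖v - v'‖ := by
        rw [abs_sub_comm]
        exact abs_norm_sub_norm_le v v'
      exact (mul_le_of_le_one_right (abs_nonneg _) (mul_le_one₀ hD1 hw0 hw1)).trans h4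
    · rw [abs_mul, abs_of_nonneg (mul_nonneg hv0 hw0)]
      exact mul_le_of_le_one_right (abs_nonneg _) (mul_le_one₀ hv1 hw0 hw1)
  rw [e]
  have := norm_add_le ((D / (‖v‖ + D)) • (v - v')) ((D / (‖v‖ + D) - D' / (‖v'‖ + D')) • v')
  linarith

private theorem V2_eq (p : EU L × EU M) : Q.V2 p = (Q.cut p * Q.vs p / 16) •
    (((1 - ‖p.2‖) / (‖Q.fh p - p.2‖ + (1 - ‖p.2‖))) • (Q.fh p - p.2)) := by
  unfold VD.V2
  rw [smul_smul]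
  congr 1
  rw [mul_comm 16 (‖Q.fh p - p.2‖ + (1 - ‖p.2‖)), ← div_div]
  ring

private theorem LL_s (h : Q.OK) : LL Q (fun p => Q.cut p * Q.vs p / 16) :=
  ((LL_cut h).mul (LB_cut Q) (LL_vs h) (LB_vs Q)).divc 16

private theorem LB_s (Q : VD G M L) : LB Q (fun p => Q.cut p * Q.vs p / 16) :=
  ((LB_cut Q).mul (LB_vs Q)).divc 16

theorem V2_bd (h : Q.OK) : ∃ B : ℝ, 0 ≤ B ∧ ∀ p b, Gd Q p b → ‖Q.V2 p‖ ≤ B * (1 - ‖p.2‖) := by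
  obtain ⟨B, hB, h1⟩ := LB_s Q
  refine ⟨B, hB, ?_⟩
  intro p b hp
  have hD : 0 < 1 - ‖p.2‖ := by linarith [hp.1]
  rw [V2_eq, norm_smul]
  exact mul_le_mul (h1 p b hp) (gg_le hD) (norm_nonneg _) hB

theorem V2_lip (h : Q.OK) : ∃ K : ℝ, 0 ≤ K ∧ ∀ t p q b, Pr Q t p q b →
    ‖Q.V2 p - Q.V2 q‖ ≤ K * t * (1 - ‖p.2‖) := by
  obtain ⟨B, hB, h1⟩ := LB_s Q
  obtain ⟨K1, hK1, h2⟩ := LL_s h
  obtain ⟨K2, hK2, h3⟩ := fh_lip h
  refine ⟨K1 + B * (2 * (K2 + 1) + 1), by positivity, ?_⟩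
  intro t p q b hp
  have ht := hp.cs.t0
  have hD : 0 < 1 - ‖p.2‖ := by linarith [hp.cs.hp]
  have hD' : 0 < 1 - ‖q.2‖ := by linarith [hp.cs.hq]
  have h4 := h1 q b hp.gq
  have h5 := h2 t p q b hp
  have h6 := h3 t p q b hp
  have h7 := hp.cs.dz1
  rw [V2_eq, V2_eq]
  set s := Q.cut p * Q.vs p / 16 with hs
  set s' := Q.cut q * Q.vs q / 16 with hs'
  set g := ((1 - ‖p.2‖) / (‖Q.fh p - p.2‖ + (1 - ‖p.2‖))) • (Q.fh p - p.2) with hg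
  set g' := ((1 - ‖q.2‖) / (‖Q.fh q - q.2‖ + (1 - ‖q.2‖))) • (Q.fh q - q.2) with hg'
  have h8 : ‖g‖ ≤ 1 - ‖p.2‖ := gg_le hD
  have h9 : ‖g - g'‖ ≤ 2 * ‖(Q.fh p - p.2) - (Q.fh q - q.2)‖ + |(1 - ‖p.2‖) - (1 - ‖q.2‖)| :=
    gg_lip hD hD'
  have h10 : ‖(Q.fh p - p.2) - (Q.fh q - q.2)‖ ≤ K2 * t * (1 - ‖p.2‖) + t * (1 - ‖p.2‖) := by
    have e : (Q.fh p - p.2) - (Q.fh q - q.2) = (Q.fh p - Q.fh q) - (p.2 - q.2) := by abel
    rw [e]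
    exact (norm_sub_le _ _).trans (add_le_add h6 h7)
  have h11 : |(1 - ‖p.2‖) - (1 - ‖q.2‖)| ≤ t * (1 - ‖p.2‖) := by
    have e : (1 - ‖p.2‖) - (1 - ‖q.2‖) = -(‖p.2‖ - ‖q.2‖) := by ring
    rw [e, abs_neg]
    exact (abs_norm_sub_norm_le _ _).trans h7
  have h12 : ‖g - g'‖ ≤ (2 * (K2 + 1) + 1) * t * (1 - ‖p.2‖) := by
    calc ‖g - g'‖ ≤ 2 * (K2 * t * (1 - ‖p.2‖) + t * (1 - ‖p.2‖)) + t * (1 - ‖p.2‖) := by linarith
      _ = _ := by ring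
  have e : s • g - s' • g' = (s - s') • g + s' • (g - g') := by
    rw [smul_sub, sub_smul]; abel
  rw [e]
  calc ‖(s - s') • g + s' • (g - g')‖ ≤ ‖(s - s') • g‖ + ‖s' • (g - g')‖ := norm_add_le _ _
    _ = ‖s - s'‖ * ‖g‖ + ‖s'‖ * ‖g - g'‖ := by rw [norm_smul (s - s') g, norm_smul s' (g - g')]
    _ ≤ K1 * t * (1 - ‖p.2‖) + B * ((2 * (K2 + 1) + 1) * t * (1 - ‖p.2‖)) := by
        apply add_le_add
        · exact mul_le_mul h5 h8 (norm_nonneg _) (by positivity)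
        · exact mul_le_mul h4 h12 (norm_nonneg _) hB
    _ = (K1 + B * (2 * (K2 + 1) + 1)) * t * (1 - ‖p.2‖) := by ring

end Pool.HQ.LP
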