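import Pool.Agent.HQ.LP12
import Pool.Agent.HQ.FL6

/-!
MP_7936f4_al, full question.  Part III, LIPSCHITZ BLOCK (helper87), module LP13: the input of the flow block
(helper68): RField, HolIn.
-/

namespace Pool.HQ.LP

variable {G : Type} [Group G] {M L : ℕ} {Q : VD G M L}

theorem norm_le_JG (h : Q.OK) (p : EU L × EU M) : ‖p.1‖ ≤ Q.JG p := by
  unfold VD.JG
  haveI : Nonempty G := ⟨1⟩
  exact le_ciInf fun b => (norm_le_J h b p.1).trans (J_le_Jp b p)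

theorem rfield (h : Q.OK) : ∃ v K R : ℝ, RField Q.V1 Q.V2 v K R := by
  obtain ⟨Kc, v, hK, hv, hb, hl⟩ := V_lip h
  have hC := (C0_le h).1
  have hz : ∀ p : EU L × EU M, ‖p.2‖ < 1 → 1.1 * Q.C1 < ‖p.1‖ → Q.V1 p = 0 ∧ Q.V2 p = 0 := by
    intro p _ hp
    exact V_zero h (hp.le.trans (norm_le_JG h p))
  exact ⟨v, _, 1.1 * Q.C1, RField.ofLocal (η := 1 / 4) (by norm_num) hv hK (by linarith)
    (fun p hp => (hb p hp).1) (fun p hp => (hb p hp).2)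
    (fun p q hp hq hr => (hl p q hp hq hr).1) (fun p q hp hq hr => (hl p q hp hq hr).2)
    (fun p hp hR => (hz p hp hR).1) (fun p hp hR => (hz p hp hR).2)⟩

theorem JG_of_Psi (h : Q.OK) {p : EU L × EU M} (hP : Q.Psi p ≤ 1) : Q.JG p ≤ Q.C1 := by
  have hC := (C0_le h).1
  have h1 : Q.JG p / Q.C1 ≤ 1 := (le_max_left _ _).trans hP
  rwa [div_le_one (by linarith)] at h1

theorem Ph_bd (h : Q.OK) : ∃ Bd : ℝ, ∀ p : EU L × EU M, ‖p.2‖ < 1 → Q.Psi p ≤ 1 → Q.Ph p ≤ Bd := by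
  obtain ⟨B, hB, hB'⟩ := LB_Ph h
  refine ⟨B, fun p hp hP => ?_⟩
  have hC := C0_le h
  have hJ := JG_of_Psi h hP
  have hA : Q.A0 = 2 * Q.C1 := rfl
  obtain ⟨b, hb⟩ := exists_good h hp (by rw [hA]; linarith)
  exact (le_abs_self _).trans (hB' p b hb)

/-- The input of the holonomy theorem from the three Euler facts. -/
theorem holIn (h : Q.OK) {nu kap s0 : ℝ} (hnu : 0 < nu) (hk : 0 < kap) (hs : 0 < s0)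
    (ePsi : ∀ (p : EU L × EU M) (s : ℝ), ‖p.2‖ < 1 → 1 - nu ≤ Q.Psi p → Q.Psi p ≤ 1 → 0 ≤ s → s ≤ s0 →
      Q.Psi (eul Q.V1 Q.V2 s p) ≤ Q.Psi p - kap * s)
    (ePh : ∀ (p : EU L × EU M) (s : ℝ), ‖p.2‖ < 1 → Q.Psi p ≤ 1 → Q.C - nu ≤ Q.Ph p → 0 ≤ s → s ≤ s0 →
      Q.Ph (eul Q.V1 Q.V2 s p) ≤ Q.Ph p - kap * s)
    (sub : ∀ p : EU L × EU M, ‖p.2‖ < 1 → Q.Ph p ≤ Q.C → Q.Psi p ≤ 1 - nu) :
    ∃ eta0 Lam Bd : ℝ, HolIn Q.V1 Q.V2 Q.Psi Q.Ph nu kap s0 eta0 Lam Bd Q.C := by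
  obtain ⟨Kc, η, hK, hη, hl⟩ := Psi_lip h
  obtain ⟨Bd, hBd⟩ := Ph_bd h
  refine ⟨η, Kc + 1, Bd, hnu, hk, hs, hη, by linarith, ?_, ?_, Psi_cont h, ePsi, ePh, sub, hBd⟩
  · intro p q hp hq hr hP
    refine (hl p q hp hq hP hr).1.trans (mul_le_mul_of_nonneg_right (by linarith) ?_)
    exact rdg_nonneg p q hp
  · intro p q hp hq hr hP
    refine (hl p q hp hq hP hr).2.trans (mul_le_mul_of_nonneg_right (by linarith) ?_)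
    exact rdg_nonneg p q hp

/-- The holonomy of the flow. -/
theorem hol (h : Q.OK) {nu kap s0 : ℝ} (hnu : 0 < nu) (hk : 0 < kap) (hs : 0 < s0)
    (ePsi : ∀ (p : EU L × EU M) (s : ℝ), ‖p.2‖ < 1 → 1 - nu ≤ Q.Psi p → Q.Psi p ≤ 1 → 0 ≤ s → s ≤ s0 →
      Q.Psi (eul Q.V1 Q.V2 s p) ≤ Q.Psi p - kap * s)
    (ePh : ∀ (p : EU L × EU M) (s : ℝ), ‖p.2‖ < 1 → Q.Psi p ≤ 1 → Q.C - nu ≤ Q.Ph p → 0 ≤ s → s ≤ s0 →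
      Q.Ph (eul Q.V1 Q.V2 s p) ≤ Q.Ph p - kap * s)
    (sub : ∀ p : EU L × EU M, ‖p.2‖ < 1 → Q.Ph p ≤ Q.C → Q.Psi p ≤ 1 - nu) :
    ∃ (F : EU L × EU M → EU L × EU M) (S η C1 : ℝ), 0 < S ∧ 0 < η ∧ 0 < C1 ∧
    Set.BijOn F {p | ‖p.2‖ < 1 ∧ Q.Psi p = 1} {p | ‖p.2‖ < 1 ∧ Q.Ph p = Q.C} ∧
    (∀ p, ‖p.2‖ < 1 → Q.Psi p = 1 → ‖(F p).1 - p.1‖ ≤ S ∧ ‖(F p).2 - p.2‖ ≤ S * (1 - ‖p.2‖) ∧
      1 - ‖p.2‖ ≤ S * (1 - ‖(F p).2‖)) ∧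
    (∀ p q, ‖p.2‖ < 1 → ‖q.2‖ < 1 → Q.Psi p = 1 → Q.Psi q = 1 → rd p q ≤ η →
      rd (F p) (F q) ≤ C1 * rd p q) ∧
    (∀ p q, ‖p.2‖ < 1 → ‖q.2‖ < 1 → Q.Psi p = 1 → Q.Psi q = 1 → rd (F p) (F q) ≤ η →
      rd p q ≤ C1 * rd (F p) (F q)) := by
  obtain ⟨v, K, R, hR⟩ := rfield h
  obtain ⟨eta0, Lam, Bd, hI⟩ := holIn h hnu hk hs ePsi ePh sub
  exact holonomy hR hI

end Pool.HQ.LP
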