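import Pool.Agent.HQ.V18C
import Pool.Agent.HQ.FL4

/-!
MODULE V20 (MP_7936f4_al, part III): the two Euler step facts ePsi and ePh.
-/

namespace Pool.HQ

variable {G : Type} [Group G] {M L : ℕ} {Q : VD G M L}

theorem v20_C1 (h : Q.OK) : 4 ≤ Q.C1 := (v_num h).C1_ge

theorem v20_om_nonneg {x z : EU M} : 0 ≤ om x z := Real.sqrt_nonneg _

theorem v_Psi_le_max (h : Q.OK) (p : EU L × EU M) :
    Q.Psi p ≤ max (Q.JG p / Q.C1) (om (Q.fh p) p.2 / Q.W5) := by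
  have hW := h.W5a
  unfold VD.Psi
  refine max_le_max le_rfl ?_
  exact mul_le_of_le_one_left (div_nonneg v20_om_nonneg (by linarith)) (v_cl_mem _).2

theorem v_Psi_eq (h : Q.OK) {p : EU L × EU M} (hJ : Q.JG p ≤ Q.C1) :
    Q.Psi p = max (Q.JG p / Q.C1) (om (Q.fh p) p.2 / Q.W5) := by
  have hC := v20_C1 h
  have h1 : Q.JG p / Q.C1 ≤ 1 := by
    rw [div_le_one (by linarith)]
    exact hJ
  unfold VD.Psi
  rw [v_cl_one (t := (1.5 - Q.JG p / Q.C1) / 0.4), one_mul]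
  rw [le_div_iff₀ (by norm_num)]
  linarith

theorem v_Psi_one (h : Q.OK) {p : EU L × EU M} (hP : Q.Psi p ≤ 1) :
    Q.JG p ≤ Q.C1 ∧ om (Q.fh p) p.2 ≤ Q.W5 := by
  have hC := v20_C1 h
  have hW := h.W5a
  have h1 : Q.JG p / Q.C1 ≤ 1 := (le_max_left _ _).trans hP
  have h2 : Q.JG p ≤ Q.C1 := by
    rwa [div_le_one (by linarith)] at h1
  refine ⟨h2, ?_⟩
  rw [v_Psi_eq h h2] at hP
  have h3 := (le_max_right _ _).trans hP
  rwa [div_le_one (by linarith)] at h3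

theorem v_ePh (h : Q.OK) : ∃ s0 κ : ℝ, 0 < s0 ∧ 0 < κ ∧ ∀ (p : EU L × EU M) (s : ℝ), ‖p.2‖ < 1 →
    Q.Psi p ≤ 1 → Q.C / 2 ≤ Q.Ph p → 0 ≤ s → s ≤ s0 →
      Q.Ph (eul Q.V1 Q.V2 s p) ≤ Q.Ph p - κ * s := by
  have hn := v_num h
  have hsig := hn.sig_ge
  have hK := h.K1
  have hk := hn.kap_pos
  have he := hn.eta1_pos
  have hW := h.W5a
  refine ⟨min (1 / (2 + Q.sig)) (Q.kap / (3 * Q.K) / (1 + Q.sig)),
    min (Q.eta1 / 2) (1 / (16 * (1 + 4 * Q.W5 ^ 2)) / 8), ?_, ?_, ?_⟩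
  · refine lt_min ?_ ?_ <;> positivity
  · refine lt_min ?_ ?_ <;> positivity
  · intro p s hz hP hC hs hs0
    obtain ⟨h1, h2⟩ := v_Psi_one h hP
    have h3 : s * (2 + Q.sig) ≤ 1 := by
      rw [← le_div_iff₀ (by linarith)]
      exact hs0.trans (min_le_left _ _)
    have h4 : s * (1 + Q.sig) ≤ Q.kap / (3 * Q.K) := by
      rw [← le_div_iff₀ (by linarith)]
      exact hs0.trans (min_le_right _ _)
    have h5 := v_Ph_step h hz h1 h2 hC hs h3 h4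
    unfold eul
    linarith [mul_comm s (min (Q.eta1 / 2) (1 / (16 * (1 + 4 * Q.W5 ^ 2)) / 8))]

/-- ePsi from the decrease of om (module V19) -/
theorem v_ePsi_of (h : Q.OK)
    (hom : ∃ s1 : ℝ, 0 < s1 ∧ ∀ (p : EU L × EU M) (s : ℝ), ‖p.2‖ < 1 → Q.JG p ≤ Q.C1 →
      Q.W5 / 2 ≤ om (Q.fh p) p.2 → om (Q.fh p) p.2 ≤ Q.W5 → 0 ≤ s → s ≤ s1 →
      om (Q.fh (eul Q.V1 Q.V2 s p)) (eul Q.V1 Q.V2 s p).2 ≤ (1 - s) * om (Q.fh p) p.2)
    (hom' : ∃ s1 : ℝ, 0 < s1 ∧ ∀ (p : EU L × EU M) (s : ℝ), ‖p.2‖ < 1 → Q.JG p ≤ Q.C1 →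
      om (Q.fh p) p.2 ≤ Q.W5 → 0 ≤ s → s ≤ s1 →
      om (Q.fh (eul Q.V1 Q.V2 s p)) (eul Q.V1 Q.V2 s p).2 ≤ 1.5 * om (Q.fh p) p.2) :
    ∃ s0 κ : ℝ, 0 < s0 ∧ 0 < κ ∧ ∀ (p : EU L × EU M) (s : ℝ), ‖p.2‖ < 1 →
    9 / 10 ≤ Q.Psi p → Q.Psi p ≤ 1 → 0 ≤ s → s ≤ s0 →
      Q.Psi (eul Q.V1 Q.V2 s p) ≤ Q.Psi p - κ * s := by
  obtain ⟨s1, hs1, hom⟩ := hom
  obtain ⟨s2, hs2, hom'⟩ := hom'
  have hn := v_num h
  have hsig := hn.sig_ge
  have he := hn.eta1_pos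
  have hW := h.W5a
  have hC := v20_C1 h
  have hL : 10 ≤ Q.L1 := by linarith [hn.L1_ge, hn.W67, hn.W56]
  have heps := h.eps_pos
  have hek := hn.eta1_kap
  have hk := hn.kap_le
  have hse : 1000 * ((1 + Q.sig) * Q.eps) ≤ Q.eta1 / Q.L1 := by
    rw [le_div_iff₀ (by linarith)]
    calc 1000 * ((1 + Q.sig) * Q.eps) * Q.L1 = 1000 * (1 + Q.sig) * Q.L1 * Q.eps := by ring
      _ ≤ Q.eta1 := hn.eps_sig
  have heL : Q.eta1 / Q.L1 ≤ 1 := by
    rw [div_le_one (by linarith)]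
    linarith
  have heL0 : 0 < Q.eta1 / Q.L1 := by positivity
  set κ := min (1 / 10) (Q.eta1 / (4 * Q.L1 * Q.C1)) with hκ
  have hκ0 : 0 < κ := by
    rw [hκ]
    refine lt_min (by norm_num) (by positivity)
  have hκ1 : κ ≤ 1 / 10 := min_le_left _ _
  have hκ2 : κ * Q.C1 ≤ Q.eta1 / Q.L1 / 4 := by
    have : κ ≤ Q.eta1 / (4 * Q.L1 * Q.C1) := min_le_right _ _
    rw [le_div_iff₀ (by positivity)] at this
    rw [le_div_iff₀ (by norm_num), le_div_iff₀ (by linarith)]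
    linarith
  refine ⟨min (min (1 / (2 + Q.sig)) s1) s2, κ, ?_, hκ0, ?_⟩
  · refine lt_min (lt_min ?_ hs1) hs2
    positivity
  · intro p s hz hP0 hP hs hs0
    obtain ⟨h1, h2⟩ := v_Psi_one h hP
    have hsa : s ≤ 1 / (2 + Q.sig) := hs0.trans ((min_le_left _ _).trans (min_le_left _ _))
    have hsb : s ≤ s1 := hs0.trans ((min_le_left _ _).trans (min_le_right _ _))
    have hsc : s ≤ s2 := hs0.trans (min_le_right _ _)
    have h3 : s * (2 + Q.sig) ≤ 1 := by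
      rw [← le_div_iff₀ (by linarith)]
      exact hsa
    have hs13 : s ≤ 1 / 3 := by nlinarith
    obtain ⟨-, -, hJ⟩ := v_JG_step h hz h1 h2 hs h3
    have hJ' : Q.JG (eul Q.V1 Q.V2 s p) ≤
        Q.JG p - s * (Q.th1 p * (Q.eta1 / (2 * Q.L1)) - (1 + Q.sig) * Q.eps) := hJ
    have hPe := v_Psi_eq h h1
    have hPJ : Q.JG p / Q.C1 ≤ Q.Psi p := by rw [hPe]; exact le_max_left _ _
    have hPo : om (Q.fh p) p.2 / Q.W5 ≤ Q.Psi p := by rw [hPe]; exact le_max_right _ _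
    have hd : Q.eta1 / (2 * Q.L1) = Q.eta1 / Q.L1 / 2 := by field_simp
    rw [hd] at hJ'
    refine (v_Psi_le_max h _).trans (max_le ?_ ?_)
    · rw [div_le_iff₀ (by linarith)]
      rw [div_le_iff₀ (by linarith)] at hPJ
      by_cases hc : 0.8 * Q.C1 ≤ Q.JG p
      · have ht : Q.th1 p = 1 := by
          unfold VD.th1
          refine v_cl_one ?_
          have hC0 := h.C0a
          have hC1b := h.C1b
          rw [le_div_iff₀ (by linarith)]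
          linarith
        rw [ht, one_mul] at hJ'
        have h4 : s * (κ * Q.C1) ≤ s * (Q.eta1 / Q.L1 / 2 - (1 + Q.sig) * Q.eps) :=
          mul_le_mul_of_nonneg_left (by linarith) hs
        nlinarith
      · push Not at hc
        have h5 : 0 ≤ s * (Q.th1 p * (Q.eta1 / Q.L1 / 2)) := by
          have := (v_th Q p).1
          positivity
        have h6 : s * ((1 + Q.sig) * Q.eps) ≤ 1 * (1 / 1000) :=
          mul_le_mul (by linarith) (by linarith) (by positivity) (by norm_num)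
        have h7 : κ * s ≤ 1 / 10 * (1 / 3) := mul_le_mul hκ1 hs13 hs (by norm_num)
        have h8 : (9 / 10 - 1 / 30) * Q.C1 ≤ (Q.Psi p - κ * s) * Q.C1 :=
          mul_le_mul_of_nonneg_right (by linarith) (by linarith)
        nlinarith
    · rw [div_le_iff₀ (by linarith)]
      rw [div_le_iff₀ (by linarith)] at hPo
      by_cases hc : Q.W5 / 2 ≤ om (Q.fh p) p.2
      · have h4 := hom p s hz h1 hc h2 hs hsb
        have h5 : s * (Q.W5 / 2) ≤ s * om (Q.fh p) p.2 := mul_le_mul_of_nonneg_left hc hs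
        have h6 : κ * s * Q.W5 ≤ s * (Q.W5 / 2) := by
          have : κ * (s * Q.W5) ≤ 1 / 2 * (s * Q.W5) :=
            mul_le_mul_of_nonneg_right (by linarith) (by positivity)
          linarith
        linarith
      · push Not at hc
        have h4 := hom' p s hz h1 h2 hs hsc
        have h7 : κ * s ≤ 1 / 10 * (1 / 3) := mul_le_mul hκ1 hs13 hs (by norm_num)
        have h8 : (9 / 10 - 1 / 30) * Q.W5 ≤ (Q.Psi p - κ * s) * Q.W5 :=
          mul_le_mul_of_nonneg_right (by linarith) (by linarith)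
        linarith

end Pool.HQ
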