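import Pool.Agent.HQ.V12
import Pool.Agent.HQ.LP03

/-!
MODULE V21 (MP_7936f4_al, part III, helper87): {Ph <= C} lies in {Psi <= 1/2}; a point of {Psi = 1} with a given location.

v_sub_b.  b from v_exists_proj.  psi with tot psi = 1 and cost of Ph at p (LP.exists_near: cst o psi + E |X - io psi| < C + e for every
  e > 0, or an optimal measure; note that v_opt_Ph needs o b z <= W7, which is shown first).  For every psi with tot psi = 1:
  cst o psi >= o b z * n1 psi >= o b z (o a z >= o b z), so o b z <= Ph p <= C (le_NN / v_le_NN) <= W6 (h.W6b) <= W7.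
  J b X <= 2 K C Ph p <= 2 K C^2: v_NN_scale with wb b a <= 2 K o a z o b z <= (2 K C) o a z (v_wb_le), 2 K C >= 1.
  2 K C^2 <= C1/2 (h.C1a) <= A0.
v_sub.  Jp b p = J b X + max 0 (o b z - W6) = J b X <= C1/2, so JG <= C1/2 (v_JG_le) and JG/C1 <= 1/2.
  om(fh,z) <= 2 om(fh, f b) om(f b, z) <= 2 Khm C <= W5/2 (v_om_tri, om_symm, v_Khm, h.W5b); 0 <= cl <= 1, so the second term of
  Psi is <= 1/2 as well.
v_exists_z.  u = a unit vector (M > 0), z(t) = x + t (u - x), 0 <= t < 1: |z(t)| <= (1-t)|x| + t < 1.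
  g(t) = |x - z(t)|^2 - (W^2-1) (1-|x|^2) (1-|z(t)|^2) is continuous on [0,1], g(0) = -(W^2-1)(1-|x|^2)^2 <= 0, g(1) = |x-u|^2 > 0.
  Intermediate value theorem: g(t) = 0 for some t in [0,1], t < 1 since g(1) > 0; then qd x z = W^2 - 1, om x z = sqrt(W^2) = W.
v_faith_pt.  p = (single (c a) 1, z), om(f a, z) = W5 (v_exists_z).  X = io c (single a 1), so J a X <= wb a a * 1 = 1 (v_J_io, or
  LP.NN_le).  o a z = W5 <= W6, so Jp a p <= 1, JG <= 1 <= C1/4, At p a (J <= 1 <= A0, o a z = W5 <= W7), and the clamp in Psi is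
  cl ((1.5 - JG/C1)/0.4) = 1.  mm p a' <> 0 implies d a' a <= r2 and X(c a') > tau > 0, so c a' = c a (X i = 0 for i <> c a), so
  a' = a (h.inj; d a' a <= r2).  mm p a = k * (1-tau)^3 > 0 (o a z = W5 <= W8: v_mm_eq; tau <= 1/16).  So x p = single a 1
  (v_x_apply: x p a = mm p a/sm p, tot = 1 by v_x_tot), fh p = f a, om (fh p) z = W5, Psi p = max (JG/C1) (1 * (W5/W5)) = 1.
-/

namespace Pool.HQ

variable {G : Type} [Group G] {M L : ℕ} {Q : VD G M L}

theorem v_sub_b (h : Q.OK) {p : EU L × EU M} (hz : ‖p.2‖ < 1) (hP : Q.Ph p ≤ Q.C) :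
    ∃ b, Q.o b p.2 ≤ Q.C ∧ Q.J b p.1 ≤ Q.C1 / 2 ∧ Q.At p b := by
  obtain ⟨b, hb⟩ := v_exists_proj h hz
  have n := v_num h
  have hob := v_one_le_o h b hz
  have hob0 : 0 < Q.o b p.2 := by linarith
  have hE := V09_E h
  have hC := n.C_ge
  have hK := h.K1
  have h1 : Q.o b p.2 ≤ Q.Ph p := by
    refine v_le_NN fun ψ hψ => ?_
    have e1 : 0 ≤ Q.E * ‖p.1 - io Q.c ψ‖ := mul_nonneg hE (norm_nonneg _)
    have e2 : 1 ≤ cst (fun a => Q.o a p.2 / Q.o b p.2) ψ :=
      v_one_le_cst (fun a => (one_le_div hob0).2 (hb a)) hψ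
    have e3 := v_cst_mul (fun a => Q.o a p.2 / Q.o b p.2) (Q.o b p.2) ψ
    have e4 : (fun a => Q.o b p.2 * (Q.o a p.2 / Q.o b p.2)) = fun a => om (Q.f a) p.2 := by
      funext a
      have : Q.o a p.2 = om (Q.f a) p.2 := rfl
      rw [← this]
      field_simp
    rw [e4] at e3
    have e5 : Q.o b p.2 * 1 ≤ Q.o b p.2 * cst (fun a => Q.o a p.2 / Q.o b p.2) ψ :=
      mul_le_mul_of_nonneg_left e2 hob0.le
    linarith
  have h2 : Q.o b p.2 ≤ Q.C := h1.trans hP
  have ht : 1 ≤ 2 * Q.K * Q.C := by nlinarith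
  have h3 : Q.J b p.1 ≤ (2 * Q.K * Q.C) * Q.Ph p := by
    refine v_NN_scale (c := Q.c) (w := wG Q.d Q.lam b) (w' := fun a => om (Q.f a) p.2) hE
      (fun a => V09_wb h b a) ht
      (fun a => zero_le_one.trans (v_one_le_o h a hz)) (fun a => ?_) p.1
    have e1 := v_wb_le h a b hz
    have e2 := v_one_le_o h a hz
    have e3 : 2 * Q.K * Q.o a p.2 * Q.o b p.2 ≤ 2 * Q.K * Q.o a p.2 * Q.C :=
      mul_le_mul_of_nonneg_left h2 (by positivity)
    have e4 : Q.wb b a ≤ 2 * Q.K * Q.C * Q.o a p.2 := by linarith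
    exact e4
  have h4 : Q.J b p.1 ≤ Q.C1 / 2 := by
    have e1 : (2 * Q.K * Q.C) * Q.Ph p ≤ (2 * Q.K * Q.C) * Q.C :=
      mul_le_mul_of_nonneg_left hP (by linarith)
    have e2 := h.C1a
    nlinarith
  refine ⟨b, h2, h4, hz, ?_, ?_⟩
  · have := h.W6b
    have := n.W67
    linarith
  · have := n.A0_eq
    have := n.C1_ge
    linarith

/-- {Ph <= C} is contained in {Psi <= 1/2}. -/
theorem v_sub (h : Q.OK) {p : EU L × EU M} (hz : ‖p.2‖ < 1) (hP : Q.Ph p ≤ Q.C) :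
    Q.Psi p ≤ 1 / 2 := by
  obtain ⟨b, h1, h2, hA⟩ := v_sub_b h hz hP
  have n := v_num h
  have hC1 := n.C1_ge
  have hC := n.C_ge
  have hK := n.Khm_ge
  have hW5 := h.W5a
  have h3 : Q.Jp b p = Q.J b p.1 := by
    unfold VD.Jp
    have := h.W6b
    rw [max_eq_left (by linarith), add_zero]
  have h4 : Q.JG p ≤ Q.C1 / 2 := by
    have := v_JG_le h p b
    linarith
  have hfh := v_fh_norm h hA
  have h5 : om (Q.fh p) p.2 ≤ 2 * Q.Khm * Q.C := by
    have e1 := v_om_tri hfh (h.ball b) hz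
    have e2 := v_Khm h hA
    rw [om_symm] at e2
    have e3 := one_le_om hfh (h.ball b)
    have e4 := one_le_om (h.ball b) hz
    have e5 : om (Q.f b) p.2 ≤ Q.C := h1
    have e6 : om (Q.fh p) (Q.f b) * om (Q.f b) p.2 ≤ Q.Khm * Q.C :=
      mul_le_mul e2 e5 (by linarith) (by linarith)
    nlinarith
  have h6 : om (Q.fh p) p.2 / Q.W5 ≤ 1 / 2 := by
    rw [div_le_iff₀ (by linarith)]
    have := h.W5b
    nlinarith
  have h7 : 0 ≤ om (Q.fh p) p.2 / Q.W5 := by
    have := one_le_om hfh hz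
    positivity
  unfold VD.Psi
  refine max_le ?_ ?_
  · rw [div_le_iff₀ (by linarith)]
    linarith
  · have e1 := LP.cl_nonneg ((1.5 - Q.JG p / Q.C1) / 0.4)
    have e2 := LP.cl_le_one ((1.5 - Q.JG p / Q.C1) / 0.4)
    calc cl ((1.5 - Q.JG p / Q.C1) / 0.4) * (om (Q.fh p) p.2 / Q.W5)
        ≤ 1 * (om (Q.fh p) p.2 / Q.W5) := mul_le_mul_of_nonneg_right e2 h7
      _ ≤ 1 / 2 := by linarith

theorem v_exists_z (hM : 0 < M) {x : EU M} (hx : ‖x‖ < 1) {W : ℝ} (hW : 1 ≤ W) :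
    ∃ z : EU M, ‖z‖ < 1 ∧ om x z = W := by
  set u : EU M := EuclideanSpace.single ⟨0, hM⟩ (1 : ℝ) with hu
  have hun : ‖u‖ = 1 := by
    rw [hu]; simp
  let zt : ℝ → EU M := fun t => x + t • (u - x)
  let g : ℝ → ℝ := fun t => ‖x - zt t‖ ^ 2 - (W ^ 2 - 1) * ((1 - ‖x‖ ^ 2) * (1 - ‖zt t‖ ^ 2))
  have hcont : Continuous g := by
    have : Continuous zt := by fun_prop
    fun_prop
  have h0 : g 0 ≤ 0 := by
    have e1 : zt 0 = x := by simp [zt]
    have e2 : g 0 = - ((W ^ 2 - 1) * ((1 - ‖x‖ ^ 2) * (1 - ‖x‖ ^ 2))) := by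
      simp only [g, e1, sub_self, norm_zero]
      ring
    rw [e2]
    have e3 : 0 ≤ W ^ 2 - 1 := by nlinarith
    have e4 : 0 ≤ (W ^ 2 - 1) * ((1 - ‖x‖ ^ 2) * (1 - ‖x‖ ^ 2)) :=
      mul_nonneg e3 (mul_self_nonneg _)
    linarith
  have h1 : 0 < g 1 := by
    have e1 : zt 1 = u := by simp [zt]
    have e2 : g 1 = ‖x - u‖ ^ 2 := by
      simp only [g, e1, hun]
      ring
    rw [e2]
    have e3 : x ≠ u := by
      rintro rfl
      linarith
    have e4 : 0 < ‖x - u‖ := norm_pos_iff.2 (sub_ne_zero.2 e3)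
    positivity
  obtain ⟨t, ht, hgt⟩ : (0 : ℝ) ∈ g '' Set.Icc 0 1 :=
    intermediate_value_Icc zero_le_one hcont.continuousOn ⟨h0, h1.le⟩
  have ht1 : t < 1 := by
    rcases ht.2.lt_or_eq with h | h
    · exact h
    · exfalso
      rw [h] at hgt
      linarith
  have hz : ‖zt t‖ < 1 := by
    have e1 : zt t = (1 - t) • x + t • u := by
      simp only [zt]
      rw [smul_sub, sub_smul, one_smul]
      abel
    rw [e1]
    calc ‖(1 - t) • x + t • u‖ ≤ ‖(1 - t) • x‖ + ‖t • u‖ := norm_add_le _ _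
      _ = (1 - t) * ‖x‖ + t := by
          rw [norm_smul, norm_smul, hun, Real.norm_eq_abs, Real.norm_eq_abs,
            abs_of_nonneg (by linarith), abs_of_nonneg ht.1, mul_one]
      _ < 1 := by nlinarith [ht.1]
  refine ⟨zt t, hz, ?_⟩
  have hDx : 0 < 1 - ‖x‖ ^ 2 := Dz_pos hx
  have hDz : 0 < 1 - ‖zt t‖ ^ 2 := Dz_pos hz
  have hq : qd x (zt t) = W ^ 2 - 1 := by
    unfold qd
    rw [div_eq_iff (mul_pos hDx hDz).ne']
    have : g t = 0 := hgt
    simp only [g] at this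
    linarith
  unfold om
  rw [hq, show (1 : ℝ) + (W ^ 2 - 1) = W ^ 2 by ring]
  exact Real.sqrt_sq (by linarith)

/-- a point of {Psi = 1} whose location is the vertex a. -/
theorem v_faith_pt (h : Q.OK) (hM : 0 < M) (a : G) :
    ∃ p : EU L × EU M, ‖p.2‖ < 1 ∧ Q.Psi p = 1 ∧ Q.x p = Finsupp.single a 1 := by
  have n := v_num h
  have hW5 := h.W5a
  obtain ⟨z, hz, hoz⟩ := v_exists_z hM (h.ball a) (W := Q.W5) (by linarith)
  set p : EU L × EU M := (io Q.c (Finsupp.single a (1 : ℝ)), z) with hp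
  have hC1 := n.C1_ge
  have hA0 := n.A0_eq
  have hoa : Q.o a p.2 = Q.W5 := hoz
  have hJ : Q.J a p.1 ≤ 1 := by
    have e1 := v_J_io h a (ψ := Finsupp.single a (1 : ℝ)) (v_tot_single a 1)
    have e2 : cst (Q.wb a) (Finsupp.single a (1 : ℝ)) = 1 := by
      rw [v_cst_single, v_wb_self h]
      norm_num
    have e3 : Q.J a p.1 = Q.J a (io Q.c (Finsupp.single a (1 : ℝ))) := rfl
    rw [e3]
    linarith
  have hJp : Q.Jp a p ≤ 1 := by
    unfold VD.Jp
    have := n.W56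
    rw [max_eq_left (by rw [hoa]; linarith), add_zero]
    exact hJ
  have hJG : Q.JG p ≤ 1 := (v_JG_le h p a).trans hJp
  have hJG1 := v_one_le_JG h p
  have hz' : ‖p.2‖ < 1 := hz
  have hJpA : Q.Jp a p ≤ Q.A0 := hJp.trans (by linarith)
  have hA : Q.At p a := v_at_of_Jp (p := p) (b := a) h hz' hJpA
  have htau := h.tau_pos
  have htau1 := n.tau_le
  have hX : ∀ i, p.1 i = if i = Q.c a then 1 else 0 := by
    intro i
    have e1 : p.1 = (1 : ℝ) • EuclideanSpace.single (Q.c a) (1 : ℝ) := v_io_single Q.c a 1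
    rw [e1, one_smul]
    by_cases hi : i = Q.c a
    · subst hi; simp
    · simp [hi]
  have hne : ∀ a', Q.mm p a' ≠ 0 → a' = a := by
    intro a' ha'
    obtain ⟨e1, e2, e3⟩ := v_mm_supp h hA ha'
    rw [hX] at e3
    have e4 : Q.c a' = Q.c a := by
      by_contra hc
      rw [if_neg hc] at e3
      linarith
    refine v_inj h a (by omega) ?_ e4
    rw [h.hd.self]
    omega
  have hx0 : ∀ a', a' ≠ a → Q.x p a' = 0 := by
    intro a' ha'
    rw [v_x_apply (p := p) h hz']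
    have : Q.mm p a' = 0 := by
      by_contra hc
      exact ha' (hne a' hc)
    rw [this, zero_div]
  have hx1 : Q.x p a = 1 := by
    have e1 := v_x_tot h hA
    rw [v_tot_eq (Q.x p) {a} (by
      intro a' ha'
      rw [Finsupp.mem_support_iff] at ha'
      rw [Finset.mem_singleton]
      by_contra hc
      exact ha' (hx0 a' hc)), Finset.sum_singleton] at e1
    exact e1
  have hx : Q.x p = Finsupp.single a 1 := by
    classical
    ext a'
    by_cases hc : a' = a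
    · subst hc
      rw [hx1, Finsupp.single_eq_same]
    · rw [hx0 a' hc, Finsupp.single_apply, if_neg (fun e => hc e.symm)]
  refine ⟨p, hz', ?_, hx⟩
  have hfh : Q.fh p = Q.f a := by
    unfold VD.fh VD.fb
    rw [hx, Finsupp.sum_single_index (by rw [zero_smul]), one_smul]
  unfold VD.Psi
  have e1 : cl ((1.5 - Q.JG p / Q.C1) / 0.4) = 1 := by
    apply LP.cl_eq_one
    have e2 : Q.JG p / Q.C1 ≤ 1 / 4 := by
      rw [div_le_iff₀ (by linarith)]
      linarith
    rw [le_div_iff₀ (by norm_num)]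
    linarith
  have e3 : om (Q.fh p) p.2 = Q.W5 := by rw [hfh]; exact hoz
  rw [e1, e3, div_self (by linarith), one_mul]
  apply max_eq_right
  rw [div_le_one (by linarith)]
  linarith

end Pool.HQ
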