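import Pool.Agent.HQ.V19b
import Pool.Agent.HQ.V20
import Pool.Agent.HQ.V21

/-!
MODULE V22 (MP_7936f4_al, part III): the three facts used by LP.hol.
-/

namespace Pool.HQ

variable {G : Type} [Group G] {M L : ℕ} {Q : VD G M L}

theorem v_ePsi (h : Q.OK) : ∃ s0 κ : ℝ, 0 < s0 ∧ 0 < κ ∧ ∀ (p : EU L × EU M) (s : ℝ), ‖p.2‖ < 1 →
    9 / 10 ≤ Q.Psi p → Q.Psi p ≤ 1 → 0 ≤ s → s ≤ s0 →
      Q.Psi (eul Q.V1 Q.V2 s p) ≤ Q.Psi p - κ * s := by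
  have hn := v_num h
  have hsig := hn.sig_ge
  refine v_ePsi_of h ?_ ?_
  · refine ⟨1 / (2 + Q.sig), by positivity, ?_⟩
    intro p s hz hJ hW' hW hs hs1
    have h3 : s * (2 + Q.sig) ≤ 1 := by
      rw [← le_div_iff₀ (by linarith)]
      exact hs1
    exact v_om_step h hz hJ hW hW' hs h3
  · obtain ⟨s1, hs1, -, hh⟩ := v_om_step' h
    refine ⟨s1, hs1, ?_⟩
    intro p s hz hJ hW hs hss
    refine (hh p hz hJ hW s hs hss).trans ?_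
    have h0 : 0 ≤ om (Q.fh p) p.2 := v20_om_nonneg
    linarith

/-- The three facts. -/
theorem v_core (h : Q.OK) : ∃ nu kap s0 : ℝ, 0 < nu ∧ 0 < kap ∧ 0 < s0 ∧
    (∀ (p : EU L × EU M) (s : ℝ), ‖p.2‖ < 1 → 1 - nu ≤ Q.Psi p → Q.Psi p ≤ 1 → 0 ≤ s → s ≤ s0 →
      Q.Psi (eul Q.V1 Q.V2 s p) ≤ Q.Psi p - kap * s) ∧
    (∀ (p : EU L × EU M) (s : ℝ), ‖p.2‖ < 1 → Q.Psi p ≤ 1 → Q.C - nu ≤ Q.Ph p → 0 ≤ s → s ≤ s0 →
      Q.Ph (eul Q.V1 Q.V2 s p) ≤ Q.Ph p - kap * s) ∧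
    (∀ p : EU L × EU M, ‖p.2‖ < 1 → Q.Ph p ≤ Q.C → Q.Psi p ≤ 1 - nu) := by
  obtain ⟨s1, k1, hs1, hk1, h1⟩ := v_ePsi h
  obtain ⟨s2, k2, hs2, hk2, h2⟩ := v_ePh h
  have hC := (v_num h).C_ge
  refine ⟨1 / 10, min k1 k2, min s1 s2, by norm_num, lt_min hk1 hk2, lt_min hs1 hs2, ?_, ?_, ?_⟩
  · intro p s hz hP0 hP hs hs0
    have h3 := h1 p s hz (by linarith) hP hs (hs0.trans (min_le_left _ _))
    have h4 : min k1 k2 * s ≤ k1 * s := mul_le_mul_of_nonneg_right (min_le_left _ _) hs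
    linarith
  · intro p s hz hP hP0 hs hs0
    have h3 := h2 p s hz hP (by linarith) hs (hs0.trans (min_le_right _ _))
    have h4 : min k1 k2 * s ≤ k2 * s := mul_le_mul_of_nonneg_right (min_le_right _ _) hs
    linarith
  · intro p hz hP
    have h3 := v_sub h hz hP
    linarith

end Pool.HQ
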