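import Mathlib

/-!
MP_7936f4_al, full question.  Part IV: from an action on a dense subset of a complete metric space
(later: the unit sphere) with locations in a hyperbolic group to a uniformly quasiconformal discrete action.
Interface definitions.
-/

namespace Pool.HQ

/-- Gromov product at 1. -/
noncomputable def gpr {G : Type} [Group G] (d : G → G → ℕ) (a b : G) : ℝ :=
  ((d 1 a : ℝ) + d 1 b - d a b) / 2

/-- f is H-quasiconformal in the metric sense. -/
def MetricQC {Y : Type} [MetricSpace Y] (H : ℝ) (f : Y → Y) : Prop :=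
  ∀ z, ∃ δ > 0, ∀ y y', dist y z < δ → dist y' z < δ → dist y z ≤ dist y' z →
    dist (f y) (f z) ≤ H * dist (f y') (f z)

/-- What part IV needs to know about the metric d of the group. -/
structure HMet {G : Type} [Group G] (d : G → G → ℕ) (δ : ℝ) : Prop where
  self : ∀ a, d a a = 0
  symm : ∀ a b, d a b = d b a
  tri : ∀ a b c, d a c ≤ d a b + d b c
  inv : ∀ g a b, d (g * a) (g * b) = d a b
  fin : ∀ r, {g | d 1 g ≤ r}.Finite
  hyp : ∀ a b c, min (gpr d a b) (gpr d b c) ≤ gpr d a c + δ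

/-- Interface III to IV.  Om: the domain of the action (dense), L p a: the group element a is a location
of the point p. -/
structure PreAct {G : Type} [Group G] (d : G → G → ℕ) {X : Type} [MetricSpace X]
    (Om : Set X) (act : G → X → X) (L : X → G → Prop) (lam η C D : ℝ) : Prop where
  lam_pos : 0 < lam
  eta_pos : 0 < η
  one_le : 1 ≤ C
  dense : Dense Om
  nonempty : Om.Nonempty
  maps : ∀ g, ∀ p ∈ Om, act g p ∈ Om
  one : ∀ p ∈ Om, act 1 p = p
  mul : ∀ g h, ∀ p ∈ Om, act (g * h) p = act g (act h p)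
  loc : ∀ p ∈ Om, ∃ a, L p a
  locg : ∀ g, ∀ p ∈ Om, ∀ a, L p a → L (act g p) (g * a)
  locd : ∀ p ∈ Om, ∀ a b, L p a → L p b → (d a b : ℝ) ≤ D
  low : ∀ p ∈ Om, ∀ q ∈ Om, ∀ a b, L p a → L q b →
    Real.exp (-lam * gpr d a b) ≤
      C * (dist p q + Real.exp (-lam * d 1 a) + Real.exp (-lam * d 1 b))
  up : ∀ p ∈ Om, ∀ q ∈ Om, ∀ a b, L p a → L q b →
    dist p q + Real.exp (-lam * d 1 a) + Real.exp (-lam * d 1 b) ≤
      C * Real.exp (-lam * gpr d a b)
  near : ∀ p ∈ Om, ∀ q ∈ Om, ∀ a, L p a → dist p q ≤ η * Real.exp (-lam * d 1 a) →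
    ∀ g, dist (act g p) (act g q) ≤
      C * Real.exp (lam * ((d 1 a : ℝ) - d 1 (g * a))) * dist p q
  faith : ∀ g, g ≠ 1 → ∃ p ∈ Om, act g p ≠ p

end Pool.HQ
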