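import Pool.Agent.HQ.Defs
import Pool.Agent.HQ.QDefs

/-!
The word metric of a finitely generated group; hyperbolic groups.
-/

namespace Pool.HQ

variable {G : Type} [Group G]

/-- g is a product of n elements, each of which is in S or is the inverse of an element of S. -/
def IsWord (S : Finset G) (n : ℕ) (g : G) : Prop :=
  ∃ l : List G, l.length = n ∧ (∀ s ∈ l, s ∈ S ∨ s⁻¹ ∈ S) ∧ l.prod = g

/-- Word length with respect to S. -/
noncomputable def wlen (S : Finset G) (g : G) : ℕ := sInf {n | IsWord S n g}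

/-- Word metric with respect to S. -/
noncomputable def wdist (S : Finset G) (a b : G) : ℕ := wlen S (a⁻¹ * b)

/-- Hyperbolic groups: finitely generated, and the word metric of some finite generating set satisfies
the four point condition of Gromov. -/
def IsHypGroup (G : Type) [Group G] : Prop :=
  ∃ S : Finset G, Subgroup.closure (S : Set G) = ⊤ ∧ ∃ δ : ℕ, ∀ a b c w : G,
    wdist S a c + wdist S b w ≤
      max (wdist S a b + wdist S c w) (wdist S b c + wdist S a w) + 2 * δ

theorem IsWord.one (S : Finset G) : IsWord S 0 (1 : G) := ⟨[], rfl, by simp, rfl⟩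

theorem IsWord.mul {S : Finset G} {m n : ℕ} {g h : G} (hg : IsWord S m g) (hh : IsWord S n h) :
    IsWord S (m + n) (g * h) := by
  obtain ⟨l, h1, h2, h3⟩ := hg
  obtain ⟨k, k1, k2, k3⟩ := hh
  refine ⟨l ++ k, by simp [h1, k1], ?_, by simp [h3, k3]⟩
  intro s hs
  rcases List.mem_append.mp hs with hs | hs
  · exact h2 s hs
  · exact k2 s hs

theorem IsWord.inv {S : Finset G} {n : ℕ} {g : G} (hg : IsWord S n g) : IsWord S n g⁻¹ := by
  obtain ⟨l, h1, h2, h3⟩ := hg
  refine ⟨(l.map (fun x => x⁻¹)).reverse, by simp [h1], ?_, ?_⟩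
  · intro s hs
    rw [List.mem_reverse, List.mem_map] at hs
    obtain ⟨t, ht, rfl⟩ := hs
    rcases h2 t ht with h | h
    · right; simpa using h
    · left; exact h
  · rw [← h3, List.prod_inv_reverse]

theorem exists_word {S : Finset G} (hS : Subgroup.closure (S : Set G) = ⊤) (g : G) :
    ∃ n, IsWord S n g := by
  have hg : g ∈ Subgroup.closure (S : Set G) := by rw [hS]; trivial
  induction hg using Subgroup.closure_induction with
  | mem x hx => exact ⟨1, [x], rfl, by simpa using Or.inl hx, by simp⟩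
  | one => exact ⟨0, IsWord.one S⟩
  | mul x y _ _ hx hy =>
    obtain ⟨m, hm⟩ := hx
    obtain ⟨n, hn⟩ := hy
    exact ⟨m + n, hm.mul hn⟩
  | inv x _ hx =>
    obtain ⟨m, hm⟩ := hx
    exact ⟨m, hm.inv⟩

theorem wlen_spec {S : Finset G} (hS : Subgroup.closure (S : Set G) = ⊤) (g : G) :
    IsWord S (wlen S g) g := Nat.sInf_mem (exists_word hS g)

theorem wlen_le {S : Finset G} {n : ℕ} {g : G} (h : IsWord S n g) : wlen S g ≤ n :=
  Nat.sInf_le h

theorem wlen_one (S : Finset G) : wlen S (1 : G) = 0 :=
  Nat.le_zero.mp (wlen_le (IsWord.one S))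

theorem wlen_inv {S : Finset G} (hS : Subgroup.closure (S : Set G) = ⊤) (g : G) :
    wlen S g⁻¹ = wlen S g := by
  apply le_antisymm
  · exact wlen_le (wlen_spec hS g).inv
  · have := wlen_le (wlen_spec hS g⁻¹).inv
    rwa [inv_inv] at this

theorem wlen_mul {S : Finset G} (hS : Subgroup.closure (S : Set G) = ⊤) (g h : G) :
    wlen S (g * h) ≤ wlen S g + wlen S h :=
  wlen_le ((wlen_spec hS g).mul (wlen_spec hS h))

theorem wlen_eq_zero {S : Finset G} (hS : Subgroup.closure (S : Set G) = ⊤) {g : G}
    (h : wlen S g = 0) : g = 1 := by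
  obtain ⟨l, h1, _, h3⟩ := wlen_spec hS g
  rw [h, List.length_eq_zero_iff] at h1
  rw [← h3, h1, List.prod_nil]

theorem wlen_split {S : Finset G} (hS : Subgroup.closure (S : Set G) = ⊤) (g : G) (k : ℕ)
    (hk : k ≤ wlen S g) : ∃ x y, x * y = g ∧ wlen S x = k ∧ wlen S y = wlen S g - k := by
  obtain ⟨l, h1, h2, h3⟩ := wlen_spec hS g
  have hx : IsWord S k (l.take k).prod :=
    ⟨l.take k, by rw [List.length_take, h1]; exact min_eq_left hk,
      fun s hs => h2 s (List.mem_of_mem_take hs), rfl⟩
  have hy : IsWord S (wlen S g - k) (l.drop k).prod :=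
    ⟨l.drop k, by rw [List.length_drop, h1], fun s hs => h2 s (List.mem_of_mem_drop hs), rfl⟩
  have hxy : (l.take k).prod * (l.drop k).prod = g := by
    rw [← List.prod_append, List.take_append_drop, h3]
  refine ⟨_, _, hxy, ?_, ?_⟩
  · have e1 := wlen_le hx
    have e2 := wlen_le hy
    have e3 := wlen_mul hS (l.take k).prod (l.drop k).prod
    rw [hxy] at e3
    omega
  · have e1 := wlen_le hx
    have e2 := wlen_le hy
    have e3 := wlen_mul hS (l.take k).prod (l.drop k).prod
    rw [hxy] at e3
    omega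

theorem wlen_fin (S : Finset G) (hS : Subgroup.closure (S : Set G) = ⊤) (r : ℕ) :
    {g : G | wlen S g ≤ r}.Finite := by
  classical
  have key : ∀ n, {g : G | IsWord S n g}.Finite := by
    intro n
    induction n with
    | zero =>
      refine (Set.finite_singleton (1 : G)).subset ?_
      rintro g ⟨l, h1, _, h3⟩
      rw [List.length_eq_zero_iff] at h1
      rw [Set.mem_singleton_iff, ← h3, h1, List.prod_nil]
    | succ n ih =>
      have hT : ((S : Set G) ∪ (S : Set G)⁻¹).Finite :=
        S.finite_toSet.union S.finite_toSet.inv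
      refine (Set.Finite.mul hT ih).subset ?_
      rintro g ⟨l, h1, h2, h3⟩
      cases l with
      | nil => simp at h1
      | cons s t =>
        refine ⟨s, ?_, t.prod, ⟨t, by simpa using h1, fun x hx => h2 x (List.mem_cons_of_mem _ hx), rfl⟩,
          by rw [← h3, List.prod_cons]⟩
        rcases h2 s List.mem_cons_self with h | h
        · left; exact h
        · right; exact h
  refine (Set.Finite.biUnion (Set.finite_Iic r) (fun n _ => key n)).subset ?_
  intro g hg
  simp only [Set.mem_iUnion]
  exact ⟨wlen S g, hg, wlen_spec hS g⟩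

/-- The word metric of a hyperbolic group has the properties HypM. -/
theorem hypM_word {S : Finset G} (hS : Subgroup.closure (S : Set G) = ⊤) {δ : ℕ}
    (hδ : ∀ a b c w : G, wdist S a c + wdist S b w ≤
      max (wdist S a b + wdist S c w) (wdist S b c + wdist S a w) + 2 * δ) :
    HypM (wdist S) where
  self a := by unfold wdist; rw [inv_mul_cancel, wlen_one]
  eq_of a b h := by
    have := wlen_eq_zero hS h
    rw [inv_mul_eq_one] at this
    exact this
  symm a b := by
    unfold wdist
    rw [← wlen_inv hS, mul_inv_rev, inv_inv]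
  tri a b c := by
    unfold wdist
    have := wlen_mul hS (a⁻¹ * b) (b⁻¹ * c)
    rwa [mul_assoc, mul_inv_cancel_left] at this
  inv g a b := by
    unfold wdist
    rw [mul_inv_rev, mul_assoc, inv_mul_cancel_left]
  fin r := by
    simp only [wdist, inv_one, one_mul]
    exact wlen_fin S hS r
  geo a b k hk := by
    obtain ⟨x, y, hxy, hx, hy⟩ := wlen_split hS (a⁻¹ * b) k hk
    refine ⟨a * x, ?_, ?_⟩
    · unfold wdist; rw [inv_mul_cancel_left, hx]
    · unfold wdist
      rw [← hy]
      congr 1
      rw [mul_inv_rev, mul_assoc, ← hxy, inv_mul_cancel_left]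
  hyp := ⟨δ, hδ⟩

/-- HypM implies the version with the Gromov product used in part IV. -/
theorem HypM.toHMet {d : G → G → ℕ} (h : HypM d) : ∃ δ : ℝ, HMet d δ := by
  obtain ⟨δ, hδ⟩ := h.hyp
  refine ⟨(δ : ℝ), ⟨h.self, h.symm, h.tri, h.inv, h.fin, ?_⟩⟩
  intro a b c
  · have h1 := hδ a b c 1
    have h2 : (d a c : ℝ) + d b 1 ≤ max ((d a b : ℝ) + d c 1) (d b c + d a 1) + 2 * δ := by
      exact_mod_cast h1
    rw [h.symm b 1, h.symm c 1, h.symm a 1] at h2
    unfold gpr
    rcases max_cases ((d a b : ℝ) + d 1 c) (d b c + d 1 a) with ⟨h3, _⟩ | ⟨h3, _⟩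
    · rw [h3] at h2
      refine (min_le_left _ _).trans ?_
      linarith
    · rw [h3] at h2
      refine (min_le_right _ _).trans ?_
      linarith

end Pool.HQ
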