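import Pool.Agent.HQ.MainA
import Pool.Agent.HQ.GA06
import Pool.Agent.HQ.V22
import Pool.Agent.HQ.Word

/-!
MP_7936f4_al, full question.  The main theorem.
-/

namespace Pool.HQ

theorem vFacts {G : Type} [Group G] {M L : ℕ} {Q : VD G M L} (h : Q.OK) : VFacts Q := v_core h

theorem gFacts {G : Type} [Group G] {M L : ℕ} {Q : VD G M L} (h : Q.OK) : GFacts Q := by
  intro D r A C1 hC1 hD hr h1 h2 h3 h4
  have hA : GA.CocA Q A C1 := GA.CocA.of_E hC1 (by omega) (by omega) h1 h2 h3 h4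
  obtain ⟨W, η, K, hh⟩ := GA.hsAct h hA
  exact ⟨_, _, W, η, K, hh⟩

/-- Every hyperbolic group acts faithfully, uniformly quasiconformally and (uniformly) discretely on a
sphere of dimension at least two. -/
theorem hyp_sphere {G : Type} [Group G] (hG : IsHypGroup G) :
    ∃ n : ℕ, 2 ≤ n ∧ ∃ H : ℝ, ∃ ρ : G →* (Sph n ≃ₜ Sph n), Function.Injective ρ ∧
      (∀ g, MetricQC H (ρ g)) ∧ ∃ ε > 0, ∀ g, g ≠ 1 → ∃ x, ε ≤ dist (ρ g x) x := by
  obtain ⟨S, hS, δ, hδ⟩ := hG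
  exact main_of (hypM_word hS hδ) (fun M L Q hQ _ => vFacts hQ) (fun M L Q hQ _ => gFacts hQ)

end Pool.HQ
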