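import Pool.Agent.HQ.VOK

/-!
MP_7936f4_al, full question.  Part III: existence of the parameters (helper87).
-/

namespace Pool.HQ.VPar

/-- beta^n -/
noncomputable def btf (lam : ℝ) (n : ℕ) : ℝ := Real.exp (lam / 2 * n)
/-- number of elements of the ball about 1 -/
noncomputable def nbf {G : Type} [Group G] (d : G → G → ℕ) (r : ℕ) : ℝ := ({a | d 1 a ≤ r}.ncard : ℝ)
noncomputable def muf {G : Type} [Group G] (d : G → G → ℕ) (r : ℕ) : ℝ := (1 / (4 * nbf d r)) ^ 3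
noncomputable def Khf {G : Type} [Group G] (d : G → G → ℕ) (lam K A : ℝ) (r : ℕ) : ℝ :=
  Real.sqrt (1 + (2 * K ^ 2 * A ^ 3 / muf d r) ^ 2 * (A ^ 3 / muf d r) * (4 * K ^ 2 * btf lam r ^ 2))

theorem exists_bt {lam : ℝ} (hl : 0 < lam) (A : ℝ) : ∃ n : ℕ, A ≤ btf lam n := by
  obtain ⟨n, hn⟩ := exists_nat_gt (A / (lam / 2))
  refine ⟨n, ?_⟩
  rw [div_lt_iff₀ (by positivity)] at hn
  have := Real.add_one_le_exp (lam / 2 * n)
  unfold btf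
  nlinarith

theorem exists_bt_ge {lam : ℝ} (hl : 0 < lam) (A : ℝ) (m : ℕ) : ∃ n : ℕ, A ≤ btf lam n ∧ m ≤ n := by
  obtain ⟨n, hn⟩ := exists_bt hl A
  refine ⟨n + m, hn.trans ?_, by omega⟩
  unfold btf
  rw [Real.exp_le_exp]
  push_cast
  have : 0 ≤ (m : ℝ) := m.cast_nonneg
  nlinarith

theorem exists_params {G : Type} [Group G] {d : G → G → ℕ} {M : ℕ} {lam Cf : ℝ} {f : G → EU M}
    (hd : HypM d) (hf : RoughSim d lam Cf f) :
    ∃ Cs : ℝ, ∀ C, Cs ≤ C → ∃ Es : ℝ, ∀ E, Es ≤ E → ∃ Rs : ℕ, ∀ (L : ℕ) (c : G → Fin L),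
      (∀ a b, d a b ≤ Rs → c a = c b → a = b) →
      ∃ Q : VD G M L, Q.OK ∧ Q.d = d ∧ Q.f = f ∧ Q.c = c ∧ Q.lam = lam ∧ Q.C = C ∧ Q.E = E ∧
        2 * (Q.rE + Q.rc + Q.r8 + Q.r2 + Q.rm + Q.r0) ≤ Rs := by
  have hl := hf.lam_pos
  obtain ⟨δ, hδ⟩ := hd.hyp
  set K : ℝ := Real.sqrt Cf with hK
  have hK1 : 1 ≤ K := by rw [hK, Real.one_le_sqrt]; exact hf.one_le
  have hK0 : 0 < K := by linarith
  have hbt : ∀ n, 0 < btf lam n := fun n => Real.exp_pos _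
  have hbt1 : ∀ n, 1 ≤ btf lam n := fun n => by
    unfold btf; rw [Real.one_le_exp_iff]; positivity
  have hnb : ∀ r, 1 ≤ nbf d r := by
    intro r
    unfold nbf
    have h1 : (1 : G) ∈ {a | d 1 a ≤ r} := by simp [hd.self]
    have h2 : 0 < {a | d 1 a ≤ r}.ncard := Set.ncard_pos (hd.fin r) |>.mpr ⟨1, h1⟩
    exact_mod_cast h2
  obtain ⟨s0, hs0⟩ := exists_bt hl (2 * K ^ 2)
  obtain ⟨r0, hr0⟩ := exists_bt hl (4 * btf lam (2 * δ))
  obtain ⟨eta, heta0, heta⟩ : ∃ eta : ℝ, 0 < eta ∧ btf lam r0 * eta ≤ 1 / 4 :=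
    ⟨1 / (4 * btf lam r0), by have := hbt r0; positivity, by have := hbt r0; field_simp; rfl⟩
  obtain ⟨kap, hkap⟩ : ∃ kap : ℝ, kap = 1 / (2 * btf lam r0 ^ 2) := ⟨_, rfl⟩
  obtain ⟨K3, hK3⟩ : ∃ K3 : ℝ, K3 = 2 * K ^ 2 * btf lam s0 := ⟨_, rfl⟩
  obtain ⟨C0, hC0a, hC0b, hC0c⟩ : ∃ C0 : ℝ, 1 ≤ C0 ∧ 6 / kap ≤ C0 ∧
      2 * K * K3 / kap * (6 * K / kap + 3) ≤ C0 :=
    ⟨max 1 (max (6 / kap) (2 * K * K3 / kap * (6 * K / kap + 3))), le_max_left _ _,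
      (le_max_left _ _).trans (le_max_right _ _), (le_max_right _ _).trans (le_max_right _ _)⟩
  obtain ⟨rC, hrC⟩ := exists_bt hl (8 * C0)
  refine ⟨16 * (2 * K * Khf d lam K (2 * C0) rC * (2 * C0 + 1)), fun C hC => ?_⟩
  obtain ⟨C1, hC1a, hC1b⟩ : ∃ C1 : ℝ, 4 * K * C ^ 2 ≤ C1 ∧ 4 * C0 ≤ C1 :=
    ⟨max (4 * K * C ^ 2) (4 * C0), le_max_left _ _, le_max_right _ _⟩
  obtain ⟨A0, hA0⟩ : ∃ A0 : ℝ, A0 = 2 * C1 := ⟨_, rfl⟩
  have hA0p : 8 ≤ A0 := by rw [hA0]; linarith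
  obtain ⟨rm, hrm, hrCm⟩ := exists_bt_ge hl (4 * A0) rC
  obtain ⟨tau, htau0, htau⟩ : ∃ tau : ℝ, 0 < tau ∧ 16 * tau * nbf d rm ≤ 1 :=
    ⟨1 / (16 * nbf d rm), by have := hnb rm; positivity, by have := hnb rm; field_simp; rfl⟩
  obtain ⟨Khm, hKhm⟩ : ∃ Khm : ℝ, Khm = Khf d lam K A0 rm := ⟨_, rfl⟩
  obtain ⟨T5, hT5⟩ : ∃ T5 : ℝ, T5 = 2 * K * Khm * (A0 + 1) := ⟨_, rfl⟩
  obtain ⟨C5, hC5⟩ : ∃ C5 : ℝ, 8 * T5 ≤ C5 := ⟨_, le_rfl⟩
  obtain ⟨W5, hW5a, hW5b, hW5c⟩ : ∃ W5 : ℝ, 5 ≤ W5 ∧ 4 * Khm * C ≤ W5 ∧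
      64 * C5 * nbf d rm * K * btf lam rm * Khm ≤ W5 :=
    ⟨max 5 (max (4 * Khm * C) (64 * C5 * nbf d rm * K * btf lam rm * Khm)), le_max_left _ _,
      (le_max_left _ _).trans (le_max_right _ _), (le_max_right _ _).trans (le_max_right _ _)⟩
  obtain ⟨W6, hW6a, hW6b⟩ : ∃ W6 : ℝ, 6 * K * btf lam r0 * Khm * W5 ≤ W6 ∧ C ≤ W6 :=
    ⟨max (6 * K * btf lam r0 * Khm * W5) C, le_max_left _ _, le_max_right _ _⟩
  have hKhm0 : 0 ≤ Khm := by rw [hKhm]; exact Real.sqrt_nonneg _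
  have hW60 : 0 ≤ W6 := le_trans (by have := hbt r0; positivity) hW6a
  obtain ⟨W7, hW7⟩ : ∃ W7 : ℝ, W7 = W6 + 2 * A0 := ⟨_, rfl⟩
  have hW7p : 16 ≤ W7 := by rw [hW7]; linarith
  obtain ⟨r2, hr2, hrm2⟩ := exists_bt_ge hl (2 * A0 / tau) rm
  have hr2' : 2 * A0 ≤ tau * btf lam r2 := by
    rw [div_le_iff₀ htau0] at hr2; linarith
  obtain ⟨W8, hW8⟩ : ∃ W8 : ℝ, 2 * K * btf lam r2 * W7 ≤ W8 := ⟨_, le_rfl⟩
  obtain ⟨Lf, hLf⟩ : ∃ Lf : ℝ, Lf = 1000 * (A0 + 1) ^ 2 * nbf d r2 ^ 2 / muf d rm * K ^ 2 *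
      btf lam r2 ^ 2 * W7 ^ 2 := ⟨_, rfl⟩
  have hmu : ∀ r, 0 < muf d r := fun r => by
    unfold muf; have := hnb r; positivity
  have hLf0 : 0 ≤ Lf := by
    rw [hLf]
    have := hmu rm
    have := hbt r2
    positivity
  obtain ⟨sig, hsig⟩ : ∃ sig : ℝ, 100000 * Lf * W5 ^ 4 * (A0 + 5) ≤ sig := ⟨_, le_rfl⟩
  have hsig0 : 0 ≤ sig := le_trans (by positivity) hsig
  obtain ⟨L1, hL1⟩ : ∃ L1 : ℝ, L1 = 2 * K * W7 := ⟨_, rfl⟩
  have hL1p : 0 < L1 := by rw [hL1]; positivity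
  obtain ⟨eta1, heta1⟩ : ∃ eta1 : ℝ, eta1 = eta / (4 * L1) := ⟨_, rfl⟩
  have heta1p : 0 < eta1 := by rw [heta1]; positivity
  obtain ⟨eps, heps0, heps⟩ : ∃ eps : ℝ, 0 < eps ∧ 1000000 * (1 + sig) * L1 ^ 4 * eps ≤ eta1 := by
    have h1 : 0 < 1000000 * (1 + sig) * L1 ^ 4 := by positivity
    exact ⟨eta1 / (1000000 * (1 + sig) * L1 ^ 4), by positivity, by field_simp; rfl⟩
  obtain ⟨A1, hA1⟩ : ∃ A1 : ℝ, A1 = L1 * (L1 * A0) := ⟨_, rfl⟩
  obtain ⟨Wc, hWc⟩ : ∃ Wc : ℝ, 2 * btf lam r2 * A1 * L1 ≤ eps * Wc :=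
    ⟨2 * btf lam r2 * A1 * L1 / eps, by field_simp; rfl⟩
  obtain ⟨rc, hrc⟩ := exists_bt hl (4 * K * Wc * W7)
  obtain ⟨r8, hr8⟩ := exists_bt hl (4 * K * W8 * W7)
  refine ⟨max 1 (max (8 * btf lam rc * btf lam r2 * Real.sqrt (nbf d rc) * A1 / eps) (4 * A1 / tau)),
    fun E hE => ?_⟩
  have hE1 : 1 ≤ E := (le_max_left _ _).trans hE
  have hE2 : 8 * btf lam rc * btf lam r2 * Real.sqrt (nbf d rc) * A1 ≤ eps * E := by
    have h1 := ((le_max_left _ _).trans (le_max_right _ _)).trans hE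
    rw [div_le_iff₀ heps0] at h1
    linarith
  have hE3 : 4 * A1 ≤ tau * E := by
    have h1 := ((le_max_right _ _).trans (le_max_right _ _)).trans hE
    rw [div_le_iff₀ htau0] at h1
    linarith
  obtain ⟨rE, hrE⟩ := exists_bt hl (2 * K * W7 * (W7 + 2 * E))
  refine ⟨2 * (rE + rc + r8 + r2 + rm + r0), fun L c hc => ?_⟩
  subst hkap hK3 hA0 hKhm hT5 hW7 hLf hL1 heta1 hA1
  refine ⟨{ d := d, f := f, c := c, lam := lam, δ := δ, K := K, s0 := s0, r0 := r0, eta := eta,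
            C0 := C0, rC := rC, C := C, C1 := C1, rm := rm, tau := tau, C5 := C5, W5 := W5,
            W6 := W6, r2 := r2, W8 := W8, sig := sig, Wc := Wc, rc := rc, r8 := r8, eps := eps,
            E := E, rE := rE }, ?_, rfl, rfl, rfl, rfl, rfl, rfl, le_rfl⟩
  exact
    { hd := hd
      four := hδ
      lam_pos := hl
      K1 := hK1
      ball := hf.ball
      up := by
        intro a b
        show om (f a) (f b) ≤ K * Real.exp (lam / 2 * d a b)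
        have h1 := hf.up a b
        unfold om
        rw [Real.sqrt_le_left (by positivity), mul_pow, hK, Real.sq_sqrt (by linarith [hf.one_le]),
          ← Real.exp_nat_mul]
        refine h1.trans (le_of_eq ?_)
        congr 2
        push_cast
        ring
      lo := by
        intro a b
        show Real.exp (lam / 2 * d a b) ≤ K * om (f a) (f b)
        have h1 := hf.lo a b
        have hC : 0 < Cf := by linarith [hf.one_le]
        unfold om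
        rw [hK, ← Real.sqrt_mul hC.le]
        refine Real.le_sqrt_of_sq_le ?_
        rw [← Real.exp_nat_mul]
        have h2 := mul_le_mul_of_nonneg_left h1 hC.le
        rw [← mul_assoc, mul_inv_cancel₀ hC.ne', one_mul] at h2
        refine le_trans (le_of_eq ?_) h2
        congr 1
        push_cast
        ring
      inj := hc
      hs0 := hs0
      hr0 := hr0
      eta_pos := heta0
      heta := heta
      C0a := hC0a
      C0b := hC0b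
      C0c := hC0c
      hrC := hrC
      hC := hC
      C1a := hC1a
      C1b := hC1b
      hrm := hrm
      rCm := hrCm
      tau_pos := htau0
      htau := htau
      hC5 := hC5
      W5a := hW5a
      W5b := hW5b
      W5c := hW5c
      hW6 := hW6a
      W6b := hW6b
      hr2 := hr2'
      rm2 := hrm2
      hW8 := hW8
      hsig := hsig
      eps_pos := heps0
      heps := heps
      hWc := hWc
      hrc := hrc
      E1 := hE1
      hE := hE2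
      hE2 := hE3
      hr8 := hr8
      hrE := hrE }

end Pool.HQ.VPar
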