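import Pool.Agent.HQ.SFin
import Pool.Agent.HQ.HsConj
import Pool.Agent.HQ.LP13
import Pool.Agent.HQ.GA04
import Pool.Agent.HQ.VPar
import Pool.Agent.HQ.TheoremE
import Pool.Agent.HQ.BsRough

/-!
MP_7936f4_al, full question.  Final assembly, first part: everything except the three facts of part III
(hypothesis HV) and the action on the hypersurface Psi = 1 (hypothesis HG).
-/

namespace Pool.HQ

variable {G : Type} [Group G]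

theorem exists_rough {d : G → G → ℕ} (h : HypM d) (k : ℕ) :
    ∃ (M : ℕ) (lam C : ℝ) (f : G → EuclideanSpace ℝ (Fin M)), k ≤ M ∧ RoughSim d lam C f := by
  obtain ⟨lam, hl0, hh⟩ := h.exists_roughSim
  obtain ⟨m, C, f, hf⟩ := hh lam hl0 le_rfl
  obtain ⟨f', hf'⟩ := hf.pad (max (m + 1) k) (le_max_left _ _)
  exact ⟨_, lam, C, f', le_max_right _ _, hf'⟩

/-- The three facts of part III. -/
def VFacts {M L : ℕ} (Q : VD G M L) : Prop :=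
  ∃ nu kap s0 : ℝ, 0 < nu ∧ 0 < kap ∧ 0 < s0 ∧
    (∀ (p : EU L × EU M) (s : ℝ), ‖p.2‖ < 1 → 1 - nu ≤ Q.Psi p → Q.Psi p ≤ 1 → 0 ≤ s → s ≤ s0 →
      Q.Psi (eul Q.V1 Q.V2 s p) ≤ Q.Psi p - kap * s) ∧
    (∀ (p : EU L × EU M) (s : ℝ), ‖p.2‖ < 1 → Q.Psi p ≤ 1 → Q.C - nu ≤ Q.Ph p → 0 ≤ s → s ≤ s0 →
      Q.Ph (eul Q.V1 Q.V2 s p) ≤ Q.Ph p - kap * s) ∧
    (∀ p : EU L × EU M, ‖p.2‖ < 1 → Q.Ph p ≤ Q.C → Q.Psi p ≤ 1 - nu)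

theorem bdAct_of {M L : ℕ} {Q : VD G M L} (h : Q.OK) (hV : VFacts Q)
    {act : G → EU L × EU M → EU L × EU M} {Lo : EU L × EU M → G → Prop} {W η K : ℝ}
    (hG : HsAct Q.f {p | ‖p.2‖ < 1 ∧ Q.Psi p = 1} act Lo W η K) :
    ∃ (act' : G → EU L × EU M → EU L × EU M) (Lo' : EU L × EU M → G → Prop) (W' η' K' : ℝ),
      BdAct Q.d Q.f Q.c Q.E Q.C act' Lo' W' η' K' := by
  obtain ⟨nu, kap, s0, h1, h2, h3, ePsi, ePh, sub⟩ := hV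
  obtain ⟨F, S, η0, C1, hS, hη0, hC1, hF, hn, l1, l2⟩ := LP.hol h h1 h2 h3 ePsi ePh sub
  obtain ⟨act', Lo', W', η', K', hH⟩ := hG.conj (T' := {p | ‖p.2‖ < 1 ∧ Q.Ph p = Q.C})
    h.ball (fun p hp => hp.1) hS hη0 hC1 hF (fun p hp => (hn p hp.1 hp.2).2)
    (fun p hp q hq hr => l1 p q hp.1 hq.1 hp.2 hq.2 hr)
    (fun p hp q hq hr => l2 p q hp.1 hq.1 hp.2 hq.2 hr)
  exact ⟨act', Lo', W', η', K', HsAct.toBdAct hH⟩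

/-- The action on Psi = 1, for a cocycle of theorem E. -/
def GFacts {M L : ℕ} (Q : VD G M L) : Prop :=
  ∀ (D r : ℕ) (A : G → (G →₀ ℝ) → Matrix (Fin L) (Fin L) ℝ) (C1 : ℝ), 0 ≤ C1 →
    2 * (Q.rE + Q.rc + Q.r8 + Q.r2 + Q.rm + Q.r0) ≤ D →
    2 * (Q.rE + Q.rc + Q.r8 + Q.r2 + Q.rm + Q.r0) ≤ r →
      (∀ g, ∀ x ∈ Loc Q.d D, (A g x).transpose * A g x = 1) →
      (∀ g h, ∀ x ∈ Loc Q.d D, A (g * h) x = A g (pact h x) * A h x) →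
      (∀ g, ∀ x ∈ Loc Q.d D, ∀ y ∈ Loc Q.d D, ∀ i j, |A g x i j - A g y i j| ≤ C1 * d1 x y) →
      (∀ g, ∀ x ∈ Loc Q.d D, ∀ a, (∃ b ∈ x.support, Q.d a b ≤ r) →
        (A g x).mulVec (Pi.single (Q.c a) 1) = Pi.single (Q.c (g * a)) 1) →
    ∃ (act : G → EU L × EU M → EU L × EU M) (Lo : EU L × EU M → G → Prop) (W η K : ℝ),
      HsAct Q.f {p | ‖p.2‖ < 1 ∧ Q.Psi p = 1} act Lo W η K

theorem main_of {d : G → G → ℕ} (h : HypM d)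
    (HV : ∀ (M L : ℕ) (Q : VD G M L), Q.OK → 0 < M → VFacts Q)
    (HG : ∀ (M L : ℕ) (Q : VD G M L), Q.OK → 0 < M → GFacts Q) :
    ∃ n : ℕ, 2 ≤ n ∧ ∃ H : ℝ, ∃ ρ : G →* (Sph n ≃ₜ Sph n), Function.Injective ρ ∧
      (∀ g, MetricQC H (ρ g)) ∧ ∃ ε > 0, ∀ g, g ≠ 1 → ∃ x, ε ≤ dist (ρ g x) x := by
  obtain ⟨M, lam, Cf, f, hM, hf⟩ := exists_rough h 3
  obtain ⟨A0, hA0, hst⟩ := star_main h hf
  obtain ⟨Cs, hCs⟩ := VPar.exists_params h hf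
  obtain ⟨Es, hEs⟩ := hCs (max A0 Cs) (le_max_right _ _)
  obtain ⟨Rs, hRs⟩ := hEs (max 1 Es) (le_max_right _ _)
  obtain ⟨L, c, A, C1, hC1, hinj, horth, hcoc, hlip, hnear⟩ := theorem_E h hf Rs Rs
  obtain ⟨Q, hQ, e1, e2, e3, e4, e5, e6, e7⟩ := hRs L c hinj
  subst e1 e2 e3
  obtain ⟨act, Lo, W, η, K, hact⟩ := HG M L Q hQ (by omega) Rs Rs A C1 hC1 e7 e7 horth hcoc hlip hnear
  obtain ⟨act', Lo', W', η', K', hB⟩ := bdAct_of hQ (HV M L Q hQ (by omega)) hact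
  refine ⟨L + M - 1, by omega, ?_⟩
  refine hst (max A0 Cs) (le_max_left _ _) L Q.c (max 1 Es) (le_max_left _ _) act' Lo' W' η' K' ?_
    (L + M - 1) (by omega)
  rw [← e5, ← e6]
  exact hB

end Pool.HQ
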