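import Pool.Agent.HQ.Word

/-!
Hyperbolic groups in an arbitrary universe, and their copies in Type.
-/

namespace Pool.HQ

universe u v

section
variable {G : Type u} [Group G]

/-- g is a product of n elements, each of which is in S or is the inverse of an element of S. -/
def UWord (S : Finset G) (n : ℕ) (g : G) : Prop :=
  ∃ l : List G, l.length = n ∧ (∀ s ∈ l, s ∈ S ∨ s⁻¹ ∈ S) ∧ l.prod = g

/-- Word metric with respect to S. -/
noncomputable def udist (S : Finset G) (a b : G) : ℕ := sInf {n | UWord S n (a⁻¹ * b)}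

/-- Hyperbolic groups: finitely generated, and the word metric of some finite generating set satisfies
the four point condition of Gromov. -/
def IsHyp (G : Type u) [Group G] : Prop :=
  ∃ S : Finset G, Subgroup.closure (S : Set G) = ⊤ ∧ ∃ δ : ℕ, ∀ a b c w : G,
    udist S a c + udist S b w ≤
      max (udist S a b + udist S c w) (udist S b c + udist S a w) + 2 * δ

end

theorem isHyp_iff (G : Type) [Group G] : IsHyp G ↔ IsHypGroup G := Iff.rfl

theorem UWord.map {G : Type u} {G' : Type v} [Group G] [Group G'] (e : G ≃* G') {S : Finset G} {n : ℕ}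
    {g : G} (h : UWord S n g) : UWord (S.map e.toEquiv.toEmbedding) n (e g) := by
  obtain ⟨l, h1, h2, h3⟩ := h
  refine ⟨l.map e, by simpa using h1, ?_, ?_⟩
  · intro s hs
    rw [List.mem_map] at hs
    obtain ⟨t, ht, rfl⟩ := hs
    rcases h2 t ht with h | h
    · left
      exact Finset.mem_map.2 ⟨t, h, rfl⟩
    · right
      exact Finset.mem_map.2 ⟨t⁻¹, h, by simp⟩
  · rw [← h3, map_list_prod]

theorem uword_map_iff {G : Type u} {G' : Type v} [Group G] [Group G'] (e : G ≃* G') {S : Finset G} {n : ℕ}
    {g : G} : UWord (S.map e.toEquiv.toEmbedding) n (e g) ↔ UWord S n g := by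
  refine ⟨fun h => ?_, fun h => h.map e⟩
  obtain ⟨l, h1, h2, h3⟩ := h
  refine ⟨l.map e.symm, by simpa using h1, ?_, ?_⟩
  · intro s hs
    rw [List.mem_map] at hs
    obtain ⟨t, ht, rfl⟩ := hs
    rcases h2 t ht with h | h
    · left
      obtain ⟨x, hx, hx'⟩ := Finset.mem_map.1 h
      have : t = e x := hx'.symm
      rw [this]
      simpa using hx
    · right
      obtain ⟨x, hx, hx'⟩ := Finset.mem_map.1 h
      have h4 : t⁻¹ = e x := hx'.symm
      have : (e.symm t)⁻¹ = x := by
        rw [← map_inv, h4]
        simp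
      rw [this]
      exact hx
  · rw [← map_list_prod, h3]
    simp

theorem udist_map {G : Type u} {G' : Type v} [Group G] [Group G'] (e : G ≃* G') (S : Finset G)
    (a b : G) : udist (S.map e.toEquiv.toEmbedding) (e a) (e b) = udist S a b := by
  unfold udist
  congr 1
  ext n
  change UWord _ n ((e a)⁻¹ * e b) ↔ UWord S n (a⁻¹ * b)
  rw [← map_inv, ← map_mul]
  exact uword_map_iff e

theorem IsHyp.equiv {G : Type u} {G' : Type v} [Group G] [Group G'] (e : G ≃* G') (h : IsHyp G) :
    IsHyp G' := by
  obtain ⟨S, hS, δ, hd⟩ := h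
  refine ⟨S.map e.toEquiv.toEmbedding, ?_, δ, ?_⟩
  · have h1 : ((S.map e.toEquiv.toEmbedding : Finset G') : Set G') = e.toMonoidHom '' (S : Set G) := by
      ext x
      simp
    rw [h1, ← MonoidHom.map_closure, hS, Subgroup.map_top_of_surjective _ e.surjective]
  · intro a b c w
    have key := hd (e.symm a) (e.symm b) (e.symm c) (e.symm w)
    rw [← udist_map e, ← udist_map e, ← udist_map e, ← udist_map e, ← udist_map e, ← udist_map e] at key
    simpa using key

theorem IsHyp.countable {G : Type u} [Group G] (h : IsHyp G) : Countable G := by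
  obtain ⟨S, hS, -⟩ := h
  have h1 : Function.Surjective (FreeGroup.lift (fun s : S => (s : G))) := by
    rw [← MonoidHom.range_eq_top, FreeGroup.range_lift_eq_closure]
    simpa using hS
  exact h1.countable

theorem IsHyp.exists_type {G : Type u} [Group G] (h : IsHyp G) :
    ∃ (G' : Type) (_ : Group G') (_ : G ≃* G'), IsHypGroup G' := by
  have : Countable G := h.countable
  obtain ⟨T, ⟨e0⟩⟩ : ∃ T : Type, Nonempty (T ≃ G) := ⟨Shrink.{0} G, ⟨(equivShrink.{0} G).symm⟩⟩
  let i0 : Group T := e0.group
  have e : G ≃* T := (e0.mulEquiv).symm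
  exact ⟨T, i0, e, (isHyp_iff _).1 (h.equiv e)⟩

end Pool.HQ
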