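import Pool.Agent.HQ.MainA
import Pool.Agent.HQ.V22
import Pool.Agent.HQ.GA06
import Pool.Agent.HQ.Univ

/-!
MP_7936f4_al, full question.  The final theorem with the stronger conclusion that every ρ(g) is locally a
quasi-similarity with a uniform constant (LocQS), and with uniform discreteness of ρ(G).
-/

namespace Pool.HQ

/-- Near every point x the map f is, up to the factor A, a similarity of some ratio m > 0. -/
def LocQS {Y : Type} [MetricSpace Y] (A : ℝ) (f : Y → Y) : Prop :=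
  ∀ x, ∃ r > 0, ∃ m > 0, ∀ y y', dist y x < r → dist y' x < r →
    dist (f y) (f y') ≤ A * m * dist y y' ∧ m * dist y y' ≤ A * dist (f y) (f y')

theorem LocQS.metricQC {Y : Type} [MetricSpace Y] {A : ℝ} (hA : 0 ≤ A) {f : Y → Y} (h : LocQS A f) :
    MetricQC (A ^ 2) f := by
  intro z
  obtain ⟨r, hr, m, hm, hts⟩ := h z
  refine ⟨r, hr, ?_⟩
  intro y y' hy hy' hle
  have k1 := (hts y z hy (by simpa using hr)).1
  have k2 := (hts y' z hy' (by simpa using hr)).2
  calc dist (f y) (f z) ≤ A * m * dist y z := k1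
    _ ≤ A * m * dist y' z := mul_le_mul_of_nonneg_left hle (by positivity)
    _ = A * (m * dist y' z) := by ring
    _ ≤ A * (A * dist (f y') (f z)) := mul_le_mul_of_nonneg_left k2 hA
    _ = A ^ 2 * dist (f y') (f z) := by ring

/-- Conclusion: a faithful action by uniformly locally quasi-similar homeomorphisms with uniformly discrete
image. -/
def GoodRho {G : Type*} [Group G] {Y : Type} [MetricSpace Y] (A ε : ℝ) (ρ : G →* (Y ≃ₜ Y)) : Prop :=
  Function.Injective ρ ∧ (∀ g, LocQS A (ρ g)) ∧ ∀ g, g ≠ 1 → ∃ x, ε ≤ dist (ρ g x) x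

section
variable {G : Type} [Group G] {d : G → G → ℕ} {δ : ℝ} {X : Type} [MetricSpace X] [CompleteSpace X]
    {Om : Set X} {act : G → X → X} {L : X → G → Prop} {lam η C D : ℝ}

/-- Main theorem of part IV, strong form (same proof as PreAct.main). -/
theorem PreAct.main_good (h : HMet d δ) (P : PreAct d Om act L lam η C D) :
    ∃ A ε : ℝ, 0 < A ∧ 0 < ε ∧ ∃ ρ : G →* (X ≃ₜ X), GoodRho A ε ρ := by
  have hC0 : 0 < C := lt_of_lt_of_le one_pos P.one_le
  have hη := P.eta_pos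
  have hlam := P.lam_pos
  set A := C ^ 2 * ((η + 2) / η) * Real.exp (lam * Sc δ lam C D) with hA
  have hApos : 0 < A := by positivity
  -- discreteness
  have hdisc : ∃ ε > 0, ∀ g, g ≠ 1 → ∃ x, ε ≤ dist (P.rho h g x) x := by
    obtain ⟨p0, hp0⟩ := P.nonempty
    obtain ⟨a0, ha0⟩ := P.loc p0 hp0
    obtain ⟨R, hR⟩ := exists_nat_ge (2 * Real.log C / lam + |D| + 2 * d 1 a0)
    have hfinR : {g | d 1 g ≤ R}.Finite := h.fin R
    have hfin : ∀ s : Finset G, ∃ ε > 0, ∀ g ∈ s, g ≠ 1 → ∃ x, ε ≤ dist (P.rho h g x) x := by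
      classical
      intro s
      induction s using Finset.induction_on with
      | empty => exact ⟨1, one_pos, by simp⟩
      | insert g s _ ih =>
        obtain ⟨ε, hε, hs⟩ := ih
        by_cases hg : g = 1
        · refine ⟨ε, hε, ?_⟩
          intro k hk hk1
          rcases Finset.mem_insert.mp hk with rfl | hk
          · exact absurd hg hk1
          · exact hs k hk hk1
        · obtain ⟨p, hp, hpg⟩ := P.faith g hg
          refine ⟨min ε (dist (act g p) p), lt_min hε (dist_pos.mpr hpg), ?_⟩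
          intro k hk hk1
          rcases Finset.mem_insert.mp hk with rfl | hk
          · refine ⟨p, ?_⟩
            rw [P.rho_apply, P.F_eq h _ hp]
            exact min_le_right _ _
          · obtain ⟨x, hx⟩ := hs k hk hk1
            exact ⟨x, (min_le_left _ _).trans hx⟩
    obtain ⟨ε, hε, hs⟩ := hfin hfinR.toFinset
    refine ⟨min ε (η * Real.exp (-lam * d 1 a0)), lt_min hε (by positivity), ?_⟩
    intro g hg
    by_cases hgR : d 1 g ≤ R
    · obtain ⟨x, hx⟩ := hs g (by simpa using hgR) hg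
      exact ⟨x, (min_le_left _ _).trans hx⟩
    · refine ⟨p0, ?_⟩
      rw [P.rho_apply, P.F_eq h _ hp0]
      refine (min_le_right _ _).trans ?_
      by_contra hcon
      push Not at hcon
      have hne : p0 ≠ act g p0 ∨ p0 = act g p0 := (em _).symm
      push Not at hgR
      have hgR' : (R : ℝ) < d 1 g := by exact_mod_cast hgR
      have hdd : (d 1 g : ℝ) ≤ d a0 (g * a0) + 2 * d 1 a0 := by
        have t1 := h.tri 1 a0 g
        have t2 := h.tri a0 (g * a0) g
        have t3 := h.inv g a0 1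
        rw [mul_one] at t3
        rw [t3, h.symm a0 1] at t2
        have t1' : (d 1 g : ℝ) ≤ d 1 a0 + d a0 g := by exact_mod_cast t1
        have t2' : (d a0 g : ℝ) ≤ d a0 (g * a0) + d 1 a0 := by exact_mod_cast t2
        linarith
      rcases hne with hne | hne
      · have k := P.loc_close h hp0 (P.maps g p0 hp0) hne ha0 (P.locg g p0 hp0 a0 ha0)
          (by rw [dist_comm]; exact hcon.le)
        have k' : (d a0 (g * a0) : ℝ) ≤ 2 * Real.log C / lam := by
          rw [le_div_iff₀ hlam]; linarith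
        have := abs_nonneg D
        linarith
      · have k := P.locg g p0 hp0 a0 ha0
        rw [← hne] at k
        have k' := P.locd p0 hp0 a0 (g * a0) ha0 k
        have := le_abs_self D
        have hK : 0 ≤ 2 * Real.log C / lam :=
          div_nonneg (mul_nonneg zero_le_two (Real.log_nonneg P.one_le)) hlam.le
        linarith
  obtain ⟨ε, hε, hs⟩ := hdisc
  refine ⟨A, ε, hApos, hε, P.rho h, ?_, ?_, hs⟩
  · rw [injective_iff_map_eq_one]
    intro g hg
    by_contra hne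
    obtain ⟨x, hx⟩ := hs g hne
    rw [hg] at hx
    simp at hx
    linarith
  · intro g z
    obtain ⟨r, hr, m, hm, hts⟩ := P.two_sided h z g
    refine ⟨r, hr, m, hm, fun y y' hy hy' => ?_⟩
    rw [P.rho_apply, P.rho_apply]
    exact hts y y' hy hy'

end

section
variable {G : Type} [Group G]

theorem GoodRho.transport {X Y : Type} [MetricSpace X] [MetricSpace Y] (e : X ≃ᵢ Y) {A ε : ℝ}
    {ρ : G →* (X ≃ₜ X)} (h : GoodRho A ε ρ) : GoodRho A ε (trho e ρ) := by
  obtain ⟨hi, hq, hd⟩ := h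
  refine ⟨?_, ?_, ?_⟩
  · intro g h hgh
    refine hi (Homeomorph.ext fun x => ?_)
    have h1 : trho e ρ g (e x) = trho e ρ h (e x) := by rw [hgh]
    rw [trho_apply, trho_apply, e.symm_apply_apply] at h1
    exact e.injective h1
  · intro g z
    obtain ⟨r, hr, m, hm, hh⟩ := hq g (e.symm z)
    refine ⟨r, hr, m, hm, fun y y' hy hy' => ?_⟩
    rw [trho_apply, trho_apply, e.dist_eq]
    have := hh (e.symm y) (e.symm y') (by rwa [e.symm.dist_eq]) (by rwa [e.symm.dist_eq])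
    rwa [e.symm.dist_eq] at this
  · intro g hg
    obtain ⟨x, hx⟩ := hd g hg
    refine ⟨e x, ?_⟩
    rw [trho_apply, e.symm_apply_apply, e.dist_eq]
    exact hx

theorem star_main_good {d : G → G → ℕ} {M : ℕ} {lam C : ℝ} {f : G → EuclideanSpace ℝ (Fin M)}
    (h : HypM d) (hf : RoughSim d lam C f) :
    ∃ A0 : ℝ, 2 ≤ A0 ∧ ∀ A : ℝ, A0 ≤ A → ∀ (L : ℕ) (c : G → Fin L) (E : ℝ), 1 ≤ E →
      ∀ (act : G → EuclideanSpace ℝ (Fin L) × EuclideanSpace ℝ (Fin M) →
        EuclideanSpace ℝ (Fin L) × EuclideanSpace ℝ (Fin M))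
        (Lo : EuclideanSpace ℝ (Fin L) × EuclideanSpace ℝ (Fin M) → G → Prop) (W η K : ℝ),
        BdAct d f c E A act Lo W η K → ∀ n : ℕ, n + 1 = L + M →
          ∃ H ε : ℝ, 0 < H ∧ 0 < ε ∧ ∃ ρ : G →* (Sph n ≃ₜ Sph n), GoodRho H ε ρ := by
  obtain ⟨A0, hA0, hS⟩ := sphOK_exists h hf
  refine ⟨A0, hA0, ?_⟩
  intro A hA L c E hE act Lo W η K hB n hn
  obtain ⟨K0, η0, hok⟩ := hS A hA L c E hE
  obtain ⟨Om, act', L', η', C', D', P⟩ := preAct_of_bdAct h hf hok hB
  obtain ⟨δ, hδ⟩ := h.toHMet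
  have : CompleteSpace (Metric.sphere (0 : VV L M) 1) :=
    (Metric.isClosed_sphere.isComplete).completeSpace_coe
  obtain ⟨H, ε, hH, hε, ρ, h1⟩ := PreAct.main_good hδ P
  obtain ⟨e⟩ := sphere_equiv L M
  rw [← hn] at e
  exact ⟨H, ε, hH, hε, trho e ρ, h1.transport e⟩

theorem main_good_of {d : G → G → ℕ} (h : HypM d) :
    ∃ n : ℕ, 2 ≤ n ∧ ∃ H ε : ℝ, 0 < H ∧ 0 < ε ∧ ∃ ρ : G →* (Sph n ≃ₜ Sph n), GoodRho H ε ρ := by
  obtain ⟨M, lam, Cf, f, hM, hf⟩ := exists_rough h 3
  obtain ⟨A0, hA0, hst⟩ := star_main_good h hf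
  obtain ⟨Cs, hCs⟩ := VPar.exists_params h hf
  obtain ⟨Es, hEs⟩ := hCs (max A0 Cs) (le_max_right _ _)
  obtain ⟨Rs, hRs⟩ := hEs (max 1 Es) (le_max_right _ _)
  obtain ⟨L, c, A, C1, hC1, hinj, horth, hcoc, hlip, hnear⟩ := theorem_E h hf Rs Rs
  obtain ⟨Q, hQ, e1, e2, e3, e4, e5, e6, e7⟩ := hRs L c hinj
  subst e1 e2 e3
  obtain ⟨W, η, K, hact⟩ := GA.hsAct hQ
    (GA.CocA.of_E hC1 (by omega) (by omega) horth hcoc hlip hnear)
  obtain ⟨act', Lo', W', η', K', hB⟩ := bdAct_of hQ (v_core hQ) hact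
  refine ⟨L + M - 1, by omega, ?_⟩
  refine hst (max A0 Cs) (le_max_left _ _) L Q.c (max 1 Es) (le_max_left _ _) act' Lo' W' η' K' ?_
    (L + M - 1) (by omega)
  rw [← e5, ← e6]
  exact hB

end

universe u

/-- THE FULL ANSWER: every hyperbolic group acts faithfully and uniformly quasiconformally, with uniformly
discrete image, on a sphere of dimension n ≥ 2. -/
theorem full_answer (G : Type u) [Group G] (hG : IsHyp G) :
    ∃ n : ℕ, 2 ≤ n ∧ ∃ A ε : ℝ, 0 < A ∧ 0 < ε ∧ ∃ ρ : G →* (Sph n ≃ₜ Sph n),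
      Function.Injective ρ ∧ (∀ g, LocQS A (ρ g)) ∧ (∀ g, MetricQC (A ^ 2) (ρ g)) ∧
      ∀ g g', g ≠ g' → ∃ x, ε ≤ dist (ρ g x) (ρ g' x) := by
  obtain ⟨T, i0, e, S, hS, δ, hδ⟩ := hG.exists_type
  obtain ⟨n, hn, A, ε, hA, hε, ρ, hi, hq, hd⟩ := main_good_of (hypM_word hS hδ)
  refine ⟨n, hn, A, ε, hA, hε, ρ.comp e.toMonoidHom, ?_, ?_, ?_, ?_⟩
  · intro a b hab
    exact e.injective (hi hab)
  · intro g
    exact hq (e g)
  · intro g
    exact (hq (e g)).metricQC hA.le
  · intro g g' hgg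
    obtain ⟨x, hx⟩ := hd (e (g * g'⁻¹)) (by
      intro hcon
      rw [map_eq_one_iff e e.injective] at hcon
      exact hgg (mul_inv_eq_one.1 hcon))
    refine ⟨(ρ (e g')).symm x, ?_⟩
    have h1 : (ρ.comp e.toMonoidHom) g' ((ρ (e g')).symm x) = x := (ρ (e g')).apply_symm_apply x
    have h2 : (ρ.comp e.toMonoidHom) g ((ρ (e g')).symm x) = ρ (e (g * g'⁻¹)) x := by
      rw [map_mul, map_mul, map_inv, map_inv]
      rfl
    rw [h1, h2]
    exact hx

end Pool.HQ

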