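import Pool.Agent.HQ.QLoc

/-!
Part IV: extension of the action to the whole space.
-/

open Filter Topology Set

namespace Pool.HQ

section
variable {G : Type} [Group G] {d : G → G → ℕ} {δ : ℝ} {X : Type} [MetricSpace X]
    [CompleteSpace X] {Om : Set X} {act : G → X → X} {L : X → G → Prop} {lam η C D : ℝ}

/-- Extension of act g from Om to X. -/
noncomputable def PreAct.F (P : PreAct d Om act L lam η C D) (g : G) : X → X :=
  P.dense.extend (fun p : Om => act g p)

omit [CompleteSpace X] in
theorem PreAct.lip (h : HMet d δ) (P : PreAct d Om act L lam η C D) (g : G) :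
    UniformContinuous (fun p : Om => act g p) := by
  have hC0 : 0 < C := lt_of_lt_of_le one_pos P.one_le
  have hη := P.eta_pos
  refine (LipschitzWith.of_dist_le_mul (K := Real.toNNReal
    (C ^ 2 * ((η + 2) / η) * Real.exp (lam * d 1 g) * Real.exp (-lam * 0))) ?_).uniformContinuous
  intro p q
  rw [Real.coe_toNNReal _ (by positivity)]
  obtain ⟨a, ha⟩ := P.loc p p.2
  obtain ⟨b, hb⟩ := P.loc q q.2
  refine P.comp h p.2 q.2 ha hb g 0 (d 1 g) ?_ ?_
  · have := h.le_hh g a; linarith
  · have := h.le_hh g b; linarith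

theorem PreAct.F_cont (h : HMet d δ) (P : PreAct d Om act L lam η C D) (g : G) :
    Continuous (P.F g) := by
  refine P.dense.continuous_extend ?_
  intro a
  exact uniformly_extend_exists (isUniformInducing_val Om) P.dense.denseRange_val (P.lip h g) a

omit [CompleteSpace X] in
theorem PreAct.F_eq (h : HMet d δ) (P : PreAct d Om act L lam η C D) (g : G) {p : X}
    (hp : p ∈ Om) : P.F g p = act g p :=
  P.dense.extend_eq (P.lip h g).continuous ⟨p, hp⟩

theorem PreAct.F_mul (h : HMet d δ) (P : PreAct d Om act L lam η C D) (g k : G) :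
    P.F (g * k) = P.F g ∘ P.F k := by
  refine Continuous.ext_on P.dense (P.F_cont h _) ((P.F_cont h g).comp (P.F_cont h k)) ?_
  intro p hp
  simp only [Function.comp]
  rw [P.F_eq h _ hp, P.F_eq h _ hp, P.F_eq h _ (P.maps k p hp), P.mul _ _ _ hp]

theorem PreAct.F_one (h : HMet d δ) (P : PreAct d Om act L lam η C D) : P.F 1 = id := by
  refine Continuous.ext_on P.dense (P.F_cont h _) continuous_id ?_
  intro p hp
  rw [P.F_eq h _ hp, P.one _ hp]; rfl

/-- The homeomorphism of X given by g. -/
noncomputable def PreAct.H (h : HMet d δ) (P : PreAct d Om act L lam η C D) (g : G) : X ≃ₜ X where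
  toFun := P.F g
  invFun := P.F g⁻¹
  left_inv x := by
    have := congrFun (P.F_mul h g⁻¹ g) x
    rw [inv_mul_cancel, P.F_one h] at this
    exact this.symm
  right_inv x := by
    have := congrFun (P.F_mul h g g⁻¹) x
    rw [mul_inv_cancel, P.F_one h] at this
    exact this.symm
  continuous_toFun := P.F_cont h g
  continuous_invFun := P.F_cont h g⁻¹

/-- The homomorphism to the homeomorphism group. -/
noncomputable def PreAct.rho (h : HMet d δ) (P : PreAct d Om act L lam η C D) :
    G →* (X ≃ₜ X) where
  toFun := P.H h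
  map_one' := by
    ext x
    exact congrFun (P.F_one h) x
  map_mul' g k := by
    ext x
    exact congrFun (P.F_mul h g k) x

theorem PreAct.rho_apply (h : HMet d δ) (P : PreAct d Om act L lam η C D) (g : G) (x : X) :
    P.rho h g x = P.F g x := rfl

omit [CompleteSpace X] in
/-- A weak inequality between continuous functions on pairs extends from a dense set. -/
theorem dense_pair (hd : Dense Om) {x : X} {r : ℝ} (u v : X × X → ℝ) (hu : Continuous u)
    (hv : Continuous v)
    (huv : ∀ p ∈ Om, ∀ q ∈ Om, dist p x < r → dist q x < r → u (p, q) ≤ v (p, q)) :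
    ∀ p q, dist p x < r → dist q x < r → u (p, q) ≤ v (p, q) := by
  intro p q hp hq
  have hB : IsOpen (Metric.ball x r ×ˢ Metric.ball x r : Set (X × X)) :=
    Metric.isOpen_ball.prod Metric.isOpen_ball
  have h1 : (p, q) ∈ closure ((Metric.ball x r ×ˢ Metric.ball x r) ∩ (Om ×ˢ Om)) :=
    (hd.prod hd).open_subset_closure_inter hB ⟨hp, hq⟩
  have h2 : closure ((Metric.ball x r ×ˢ Metric.ball x r) ∩ (Om ×ˢ Om)) ⊆
      {z : X × X | u z ≤ v z} := by
    refine closure_minimal ?_ (isClosed_le hu hv)
    rintro ⟨a, b⟩ ⟨⟨ha, hb⟩, ⟨ha', hb'⟩⟩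
    exact huv a ha' b hb' ha hb
  exact h2 h1

end

end Pool.HQ
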