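import Pool.Agent.HQ.QExt

/-!
Part IV: uniform quasiconformality and discreteness.
-/

open Filter Topology Set

namespace Pool.HQ

section
variable {G : Type} [Group G] {d : G → G → ℕ} {δ : ℝ} {X : Type} [MetricSpace X]
    {Om : Set X} {act : G → X → X} {L : X → G → Prop} {lam η C D : ℝ}

theorem HMet.delta_nonneg (h : HMet d δ) : 0 ≤ δ := by
  have := h.hyp 1 1 1
  rw [min_self] at this
  linarith

/-- bound for the variation of the displacement near a point. -/
noncomputable def Sc (δ lam C D : ℝ) : ℝ := 2 * δ + 2 * (2 * Real.log C / lam) + 2 * |D|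

theorem PreAct.locest (h : HMet d δ) (P : PreAct d Om act L lam η C D) (x : X) (g : G) :
    ∃ r > 0, ∃ h0 : ℝ, ∀ p ∈ Om, dist p x < r → ∀ a, L p a →
      h0 - Sc δ lam C D ≤ hh d g a ∧ hh d g a ≤ h0 + Sc δ lam C D := by
  have hC0 : 0 < C := lt_of_lt_of_le one_pos P.one_le
  have hlam := P.lam_pos
  have hη := P.eta_pos
  have hδ := h.delta_nonneg
  have hK : 0 ≤ 2 * Real.log C / lam :=
    div_nonneg (mul_nonneg zero_le_two (Real.log_nonneg P.one_le)) hlam.le
  have hD := abs_nonneg D
  by_cases hc : ∃ R : ℝ, ∀ r > 0, ∃ p ∈ Om, dist p x < r ∧ ∃ a, L p a ∧ (d 1 a : ℝ) ≤ R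
  · obtain ⟨R, hR⟩ := hc
    have hr : 0 < η / 4 * Real.exp (-lam * R) := by positivity
    obtain ⟨p0, hp0, hd0, a0, ha0, haR⟩ := hR _ hr
    refine ⟨_, hr, hh d g a0, ?_⟩
    intro p hp hdp a ha
    have hda : (d a a0 : ℝ) ≤ 2 * Real.log C / lam + |D| := by
      by_cases hpp : p = p0
      · subst hpp
        have := P.locd p hp a a0 ha ha0
        have := le_abs_self D
        linarith
      · have h1 : dist p0 p ≤ η * Real.exp (-lam * d 1 a0) := by
          have h2 : dist p0 p ≤ dist p0 x + dist p x := by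
            rw [dist_comm p x]; exact dist_triangle _ _ _
          have h3 : Real.exp (-lam * R) ≤ Real.exp (-lam * d 1 a0) := by
            rw [Real.exp_le_exp]; nlinarith
          nlinarith [Real.exp_pos (-lam * R)]
        have h4 := P.loc_close h hp0 hp (Ne.symm hpp) ha0 ha h1
        rw [h.symm a0 a] at h4
        have : (d a a0 : ℝ) ≤ 2 * Real.log C / lam := by
          rw [le_div_iff₀ hlam]; linarith
        linarith
    have e1 := h.hh_near g a a0
    have e2 := h.hh_near g a0 a
    rw [h.symm a0 a] at e2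
    unfold Sc
    constructor <;> linarith
  · push Not at hc
    set R : ℝ := (Real.log (4 * C) + lam * d 1 g) / lam with hRdef
    obtain ⟨r1, hr1, hfar⟩ := hc R
    have hE : 0 < Real.exp (-lam * d 1 g) / (4 * C) := by positivity
    set r := min r1 (Real.exp (-lam * d 1 g) / (4 * C)) with hrdef
    have hr : 0 < r := lt_min hr1 hE
    have hRe : Real.exp (-lam * R) = Real.exp (-lam * d 1 g) / (4 * C) := by
      have : -lam * R = -lam * d 1 g - Real.log (4 * C) := by
        rw [hRdef]; field_simp; ring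
      rw [this, Real.exp_sub, Real.exp_log (by positivity)]
    obtain ⟨p0, hp0, hdp0⟩ := P.dense.exists_dist_lt x hr
    rw [dist_comm] at hdp0
    obtain ⟨a0, ha0⟩ := P.loc p0 hp0
    refine ⟨r, hr, hh d g a0, ?_⟩
    intro p hp hdp a ha
    have f1 : Real.exp (-lam * d 1 a) ≤ Real.exp (-lam * R) := by
      rw [Real.exp_le_exp]
      have := hfar p hp (lt_of_lt_of_le hdp (min_le_left _ _)) a ha
      nlinarith
    have f2 : Real.exp (-lam * d 1 a0) ≤ Real.exp (-lam * R) := by
      rw [Real.exp_le_exp]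
      have := hfar p0 hp0 (lt_of_lt_of_le hdp0 (min_le_left _ _)) a0 ha0
      nlinarith
    have f3 : dist p p0 ≤ 2 * (Real.exp (-lam * d 1 g) / (4 * C)) := by
      have h2 : dist p p0 ≤ dist p x + dist p0 x := by
        rw [dist_comm p0 x]; exact dist_triangle _ _ _
      have := min_le_right r1 (Real.exp (-lam * d 1 g) / (4 * C))
      rw [← hrdef] at this
      linarith
    have f4 := P.low p hp p0 hp0 a a0 ha ha0
    have f5 : Real.exp (-lam * gpr d a a0) ≤ Real.exp (-lam * d 1 g) := by
      refine f4.trans ?_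
      rw [hRe] at f1 f2
      calc C * (dist p p0 + Real.exp (-lam * d 1 a) + Real.exp (-lam * d 1 a0))
          ≤ C * (2 * (Real.exp (-lam * d 1 g) / (4 * C)) + Real.exp (-lam * d 1 g) / (4 * C) +
              Real.exp (-lam * d 1 g) / (4 * C)) :=
            mul_le_mul_of_nonneg_left (by linarith) hC0.le
        _ = Real.exp (-lam * d 1 g) := by field_simp; ring
    have f6 : (d 1 g : ℝ) ≤ gpr d a a0 := by
      rw [Real.exp_le_exp] at f5
      nlinarith
    have e1 := h.hh_sub g a a0 f6
    have e2 := h.hh_sub g a0 a (by rw [h.gpr_symm]; exact f6)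
    unfold Sc
    constructor <;> linarith

variable [CompleteSpace X]

/-- The two-sided local estimate for the extended action. -/
theorem PreAct.two_sided (h : HMet d δ) (P : PreAct d Om act L lam η C D) (x : X) (g : G) :
    ∃ r > 0, ∃ m > 0, ∀ y y', dist y x < r → dist y' x < r →
      dist (P.F g y) (P.F g y') ≤
        (C ^ 2 * ((η + 2) / η) * Real.exp (lam * Sc δ lam C D)) * m * dist y y' ∧
      m * dist y y' ≤ (C ^ 2 * ((η + 2) / η) * Real.exp (lam * Sc δ lam C D)) *
        dist (P.F g y) (P.F g y') := by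
  obtain ⟨r, hr, h0, hloc⟩ := P.locest h x g
  refine ⟨r, hr, Real.exp (-lam * h0), Real.exp_pos _, ?_⟩
  set A := C ^ 2 * ((η + 2) / η) * Real.exp (lam * Sc δ lam C D) with hA
  have cont := P.F_cont h g
  intro y y' hy hy'
  constructor
  · refine dense_pair P.dense (fun z : X × X => dist (P.F g z.1) (P.F g z.2))
      (fun z => A * Real.exp (-lam * h0) * dist z.1 z.2) (by fun_prop) (by fun_prop) ?_ y y' hy hy'
    intro p hp q hq hpx hqx
    obtain ⟨a, ha⟩ := P.loc p hp
    obtain ⟨b, hb⟩ := P.loc q hq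
    simp only
    rw [P.F_eq h _ hp, P.F_eq h _ hq]
    exact P.comp h hp hq ha hb g h0 _ (hloc p hp hpx a ha).1 (hloc q hq hqx b hb).1
  · refine dense_pair P.dense (fun z : X × X => Real.exp (-lam * h0) * dist z.1 z.2)
      (fun z => A * dist (P.F g z.1) (P.F g z.2)) (by fun_prop) (by fun_prop) ?_ y y' hy hy'
    intro p hp q hq hpx hqx
    obtain ⟨a, ha⟩ := P.loc p hp
    obtain ⟨b, hb⟩ := P.loc q hq
    simp only
    rw [P.F_eq h _ hp, P.F_eq h _ hq]
    have e : ∀ a, hh d g⁻¹ (g * a) = -hh d g a := by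
      intro a; unfold hh; rw [inv_mul_cancel_left]; ring
    have k := P.comp h (P.maps g p hp) (P.maps g q hq) (P.locg g p hp a ha)
      (P.locg g q hq b hb) g⁻¹ (-h0) (Sc δ lam C D)
      (by rw [e]; have := (hloc p hp hpx a ha).2; linarith)
      (by rw [e]; have := (hloc q hq hqx b hb).2; linarith)
    rw [← P.mul _ _ _ hp, ← P.mul _ _ _ hq, inv_mul_cancel, P.one _ hp, P.one _ hq] at k
    have k2 := mul_le_mul_of_nonneg_left k (Real.exp_pos (-lam * h0)).le
    refine k2.trans (le_of_eq ?_)
    have : Real.exp (-lam * h0) * Real.exp (-lam * -h0) = 1 := by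
      rw [← Real.exp_add, ← Real.exp_zero]; congr 1; ring
    calc Real.exp (-lam * h0) * (C ^ 2 * ((η + 2) / η) * Real.exp (lam * Sc δ lam C D) *
          Real.exp (-lam * -h0) * dist (act g p) (act g q))
        = (Real.exp (-lam * h0) * Real.exp (-lam * -h0)) *
          (C ^ 2 * ((η + 2) / η) * Real.exp (lam * Sc δ lam C D)) *
          dist (act g p) (act g q) := by ring
      _ = A * dist (act g p) (act g q) := by rw [this, one_mul]

/-- Main theorem of part IV. -/
theorem PreAct.main (h : HMet d δ) (P : PreAct d Om act L lam η C D) :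
    ∃ H : ℝ, ∃ ρ : G →* (X ≃ₜ X), Function.Injective ρ ∧ (∀ g, MetricQC H (ρ g)) ∧
      ∃ ε > 0, ∀ g, g ≠ 1 → ∃ x, ε ≤ dist (ρ g x) x := by
  have hC0 : 0 < C := lt_of_lt_of_le one_pos P.one_le
  have hη := P.eta_pos
  have hlam := P.lam_pos
  set A := C ^ 2 * ((η + 2) / η) * Real.exp (lam * Sc δ lam C D) with hA
  have hApos : 0 < A := by positivity
  -- discreteness
  have hdisc : ∃ ε > 0, ∀ g, g ≠ 1 → ∃ x, ε ≤ dist (P.rho h g x) x := by
    obtain ⟨p0, hp0⟩ := P.nonempty
    obtain ⟨a0, ha0⟩ := P.loc p0 hp0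
    obtain ⟨R, hR⟩ := exists_nat_ge (2 * Real.log C / lam + |D| + 2 * d 1 a0)
    have hfinR : {g | d 1 g ≤ R}.Finite := h.fin R
    -- finitely many elements
    have hfin : ∀ s : Finset G, ∃ ε > 0, ∀ g ∈ s, g ≠ 1 → ∃ x, ε ≤ dist (P.rho h g x) x := by
      classical
      intro s
      induction s using Finset.induction_on with
      | empty => exact ⟨1, one_pos, by simp⟩
      | insert g s _ ih =>
        obtain ⟨ε, hε, hs⟩ := ih
        by_cases hg : g = 1
        · refine ⟨ε, hε, ?_⟩
          intro k hk hk1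
          rcases Finset.mem_insert.mp hk with rfl | hk
          · exact absurd hg hk1
          · exact hs k hk hk1
        · obtain ⟨p, hp, hpg⟩ := P.faith g hg
          refine ⟨min ε (dist (act g p) p), lt_min hε (dist_pos.mpr hpg), ?_⟩
          intro k hk hk1
          rcases Finset.mem_insert.mp hk with rfl | hk
          · refine ⟨p, ?_⟩
            rw [P.rho_apply, P.F_eq h _ hp]
            exact min_le_right _ _
          · obtain ⟨x, hx⟩ := hs k hk hk1
            exact ⟨x, (min_le_left _ _).trans hx⟩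
    obtain ⟨ε, hε, hs⟩ := hfin hfinR.toFinset
    refine ⟨min ε (η * Real.exp (-lam * d 1 a0)), lt_min hε (by positivity), ?_⟩
    intro g hg
    by_cases hgR : d 1 g ≤ R
    · obtain ⟨x, hx⟩ := hs g (by simpa using hgR) hg
      exact ⟨x, (min_le_left _ _).trans hx⟩
    · refine ⟨p0, ?_⟩
      rw [P.rho_apply, P.F_eq h _ hp0]
      refine (min_le_right _ _).trans ?_
      by_contra hcon
      push Not at hcon
      have hne : p0 ≠ act g p0 ∨ p0 = act g p0 := (em _).symm
      push Not at hgR
      have hgR' : (R : ℝ) < d 1 g := by exact_mod_cast hgR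
      have hdd : (d 1 g : ℝ) ≤ d a0 (g * a0) + 2 * d 1 a0 := by
        have t1 := h.tri 1 a0 g
        have t2 := h.tri a0 (g * a0) g
        have t3 := h.inv g a0 1
        rw [mul_one] at t3
        rw [t3, h.symm a0 1] at t2
        have t1' : (d 1 g : ℝ) ≤ d 1 a0 + d a0 g := by exact_mod_cast t1
        have t2' : (d a0 g : ℝ) ≤ d a0 (g * a0) + d 1 a0 := by exact_mod_cast t2
        linarith
      rcases hne with hne | hne
      · have k := P.loc_close h hp0 (P.maps g p0 hp0) hne ha0 (P.locg g p0 hp0 a0 ha0)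
          (by rw [dist_comm]; exact hcon.le)
        have k' : (d a0 (g * a0) : ℝ) ≤ 2 * Real.log C / lam := by
          rw [le_div_iff₀ hlam]; linarith
        have := abs_nonneg D
        linarith
      · have k := P.locg g p0 hp0 a0 ha0
        rw [← hne] at k
        have k' := P.locd p0 hp0 a0 (g * a0) ha0 k
        have := le_abs_self D
        have hK : 0 ≤ 2 * Real.log C / lam :=
          div_nonneg (mul_nonneg zero_le_two (Real.log_nonneg P.one_le)) hlam.le
        linarith
  refine ⟨A ^ 2, P.rho h, ?_, ?_, hdisc⟩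
  · rw [injective_iff_map_eq_one]
    intro g hg
    by_contra hne
    obtain ⟨ε, hε, hs⟩ := hdisc
    obtain ⟨x, hx⟩ := hs g hne
    rw [hg] at hx
    simp at hx
    linarith
  · intro g z
    obtain ⟨r, hr, m, hm, hts⟩ := P.two_sided h z g
    refine ⟨r, hr, ?_⟩
    intro y y' hy hy' hle
    have k1 := (hts y z hy (by simpa using hr)).1
    have k2 := (hts y' z hy' (by simpa using hr)).2
    rw [P.rho_apply, P.rho_apply, P.rho_apply]
    calc dist (P.F g y) (P.F g z) ≤ A * m * dist y z := k1
      _ ≤ A * m * dist y' z := mul_le_mul_of_nonneg_left hle (by positivity)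
      _ = A * (m * dist y' z) := by ring
      _ ≤ A * (A * dist (P.F g y') (P.F g z)) := mul_le_mul_of_nonneg_left k2 hApos.le
      _ = A ^ 2 * dist (P.F g y') (P.F g z) := by ring

end

end Pool.HQ
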