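import Pool.Agent.HQ.QDefs

/-!
Part IV: locations and the two-sided comparison.
-/

namespace Pool.HQ

section
variable {G : Type} [Group G] {d : G → G → ℕ} {δ : ℝ}

/-- displacement of the location under g. -/
noncomputable def hh (d : G → G → ℕ) (g a : G) : ℝ := (d 1 (g * a) : ℝ) - d 1 a

theorem HMet.dinv (h : HMet d δ) (g : G) : d 1 g⁻¹ = d 1 g := by
  have := h.inv g 1 g⁻¹
  rw [mul_one, mul_inv_cancel, h.symm] at this
  exact this.symm

theorem HMet.hh_le (h : HMet d δ) (g a : G) : hh d g a ≤ d 1 g := by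
  have h1 := h.tri 1 g (g * a)
  have h2 := h.inv g 1 a
  rw [mul_one] at h2
  rw [h2] at h1
  have : (d 1 (g * a) : ℝ) ≤ d 1 g + d 1 a := by exact_mod_cast h1
  unfold hh; linarith

theorem HMet.le_hh (h : HMet d δ) (g a : G) : -(d 1 g : ℝ) ≤ hh d g a := by
  have h1 := h.tri g 1 (g * a)
  have h2 := h.inv g 1 a
  rw [mul_one] at h2
  rw [h2, h.symm g 1] at h1
  have : (d 1 a : ℝ) ≤ d 1 g + d 1 (g * a) := by exact_mod_cast h1
  unfold hh; linarith

theorem HMet.gpr_mul (h : HMet d δ) (g a b : G) :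
    gpr d (g * a) (g * b) = gpr d a b + (hh d g a + hh d g b) / 2 := by
  unfold gpr hh
  rw [h.inv]
  ring

theorem HMet.gpr_symm (h : HMet d δ) (a b : G) : gpr d a b = gpr d b a := by
  unfold gpr; rw [h.symm a b]; ring

theorem HMet.gpr_le_left (h : HMet d δ) (a b : G) : gpr d a b ≤ d 1 a := by
  have h1 := h.tri 1 a b
  have : (d 1 b : ℝ) ≤ d 1 a + d a b := by exact_mod_cast h1
  unfold gpr; linarith

theorem HMet.hh_eq (h : HMet d δ) (g a : G) : hh d g a = d 1 g - 2 * gpr d g⁻¹ a := by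
  have h1 : d g⁻¹ a = d 1 (g * a) := by
    have := h.inv g g⁻¹ a
    rw [mul_inv_cancel] at this
    exact this.symm
  unfold gpr hh
  rw [h1, h.dinv]
  ring

theorem HMet.hh_sub (h : HMet d δ) (g a b : G) (hab : (d 1 g : ℝ) ≤ gpr d a b) :
    hh d g a ≤ hh d g b + 2 * δ := by
  rw [h.hh_eq, h.hh_eq]
  have h1 := h.hyp g⁻¹ b a
  have h2 := h.gpr_le_left g⁻¹ b
  rw [h.dinv] at h2
  rw [min_eq_left (by rw [h.gpr_symm b a]; linarith)] at h1
  linarith

theorem HMet.hh_near (h : HMet d δ) (g a b : G) : hh d g a ≤ hh d g b + 2 * d a b := by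
  unfold hh
  have h1 := h.tri 1 (g * b) (g * a)
  rw [h.inv] at h1
  have h1' : (d 1 (g * a) : ℝ) ≤ d 1 (g * b) + d b a := by exact_mod_cast h1
  have h2 := h.tri 1 a b
  have h2' : (d 1 b : ℝ) ≤ d 1 a + d a b := by exact_mod_cast h2
  rw [h.symm b a] at h1'
  linarith

end

section
variable {G : Type} [Group G] {d : G → G → ℕ} {δ : ℝ} {X : Type} [MetricSpace X]
    {Om : Set X} {act : G → X → X} {L : X → G → Prop} {lam η C D : ℝ}

/-- Points which are close with respect to the scale have close locations. -/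
theorem PreAct.loc_close (h : HMet d δ) (P : PreAct d Om act L lam η C D) {p q : X} (hp : p ∈ Om)
    (hq : q ∈ Om) (hpq : p ≠ q) {a b : G} (ha : L p a) (hb : L q b)
    (hd : dist p q ≤ η * Real.exp (-lam * d 1 a)) : lam * d a b ≤ 2 * Real.log C := by
  have hC0 : 0 < C := lt_of_lt_of_le one_pos P.one_le
  have hK : 0 ≤ Real.log C := Real.log_nonneg P.one_le
  have hCe : C = Real.exp (Real.log C) := (Real.exp_log hC0).symm
  have hdist : 0 < dist p q := dist_pos.mpr hpq
  -- one side
  have key : ∀ p q : X, p ∈ Om → q ∈ Om → p ≠ q → ∀ a b : G, L p a → L q b →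
      dist p q ≤ η * Real.exp (-lam * d 1 a) → Real.log C ≤ lam * d a b →
      lam * d 1 b ≤ lam * d 1 a - lam * d a b + 2 * Real.log C := by
    intro p q hp hq hpq a b ha hb hd hlt
    have hdist : 0 < dist p q := dist_pos.mpr hpq
    have e1 : d 1 (b⁻¹ * a) = d a b := by
      have := h.inv b 1 (b⁻¹ * a)
      rw [mul_one, mul_inv_cancel_left] at this
      rw [← this, h.symm]
    have h1 := P.near p hp q hq a ha hd b⁻¹
    rw [e1] at h1
    have h2 : dist (act b⁻¹ p) (act b⁻¹ q) ≤ η * Real.exp (-lam * d a b) * C := by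
      calc dist (act b⁻¹ p) (act b⁻¹ q)
          ≤ C * Real.exp (lam * ((d 1 a : ℝ) - d a b)) * dist p q := h1
        _ ≤ C * Real.exp (lam * ((d 1 a : ℝ) - d a b)) * (η * Real.exp (-lam * d 1 a)) :=
            mul_le_mul_of_nonneg_left hd (by positivity)
        _ = η * (Real.exp (lam * ((d 1 a : ℝ) - d a b)) * Real.exp (-lam * d 1 a)) * C := by ring
        _ = η * Real.exp (-lam * d a b) * C := by
            rw [← Real.exp_add]; congr 3; ring
    have h3 : dist (act b⁻¹ q) (act b⁻¹ p) ≤ η * Real.exp (-lam * d 1 (b⁻¹ * b)) := by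
      rw [dist_comm, inv_mul_cancel, h.self]
      refine h2.trans ?_
      have : Real.exp (-lam * d a b) * C ≤ 1 := by
        rw [hCe, ← Real.exp_add, Real.exp_le_one_iff]
        linarith
      calc η * Real.exp (-lam * d a b) * C = η * (Real.exp (-lam * d a b) * C) := by ring
        _ ≤ η * 1 := mul_le_mul_of_nonneg_left this P.eta_pos.le
        _ = η * Real.exp (-lam * ((0 : ℕ) : ℝ)) := by simp
    have h4 := P.near _ (P.maps b⁻¹ q hq) _ (P.maps b⁻¹ p hp) _ (P.locg b⁻¹ q hq b hb) h3 b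
    rw [← P.mul _ _ _ hq, ← P.mul _ _ _ hp, mul_inv_cancel, P.one _ hp, P.one _ hq,
      inv_mul_cancel, h.self, mul_one, dist_comm q p, dist_comm (act b⁻¹ q)] at h4
    have h5 : dist p q ≤ C * Real.exp (lam * (((0 : ℕ) : ℝ) - d 1 b)) *
        (C * Real.exp (lam * ((d 1 a : ℝ) - d a b)) * dist p q) :=
      h4.trans (mul_le_mul_of_nonneg_left h1 (by positivity))
    have h6 : C * Real.exp (lam * (((0 : ℕ) : ℝ) - d 1 b)) *
        (C * Real.exp (lam * ((d 1 a : ℝ) - d a b)) * dist p q) =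
        Real.exp (2 * Real.log C - lam * d 1 b + lam * d 1 a - lam * d a b) * dist p q := by
      have : Real.exp (2 * Real.log C - lam * d 1 b + lam * d 1 a - lam * d a b) =
          Real.exp (Real.log C) * Real.exp (Real.log C) *
          (Real.exp (lam * (((0 : ℕ) : ℝ) - d 1 b)) * Real.exp (lam * ((d 1 a : ℝ) - d a b))) := by
        rw [← Real.exp_add, ← Real.exp_add, ← Real.exp_add]; congr 1; push_cast; ring
      rw [this, ← hCe]; ring
    rw [h6] at h5
    have h7 : 1 ≤ Real.exp (2 * Real.log C - lam * d 1 b + lam * d 1 a - lam * d a b) := by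
      by_contra hcon
      push Not at hcon
      have := mul_lt_mul_of_pos_right hcon hdist
      linarith
    rw [Real.one_le_exp_iff] at h7
    linarith
  by_contra hcon
  push Not at hcon
  have hb1 := key p q hp hq hpq a b ha hb hd (by linarith)
  have hd' : dist q p ≤ η * Real.exp (-lam * d 1 b) := by
    rw [dist_comm]
    refine hd.trans (mul_le_mul_of_nonneg_left ?_ P.eta_pos.le)
    rw [Real.exp_le_exp]; linarith
  have hb2 := key q p hq hp hpq.symm b a hb ha hd' (by rw [h.symm b a]; linarith)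
  rw [h.symm b a] at hb2
  linarith

/-- Upper comparison. -/
theorem PreAct.comp (h : HMet d δ) (P : PreAct d Om act L lam η C D) {p q : X} (hp : p ∈ Om)
    (hq : q ∈ Om) {a b : G} (ha : L p a) (hb : L q b) (g : G) (h0 s : ℝ)
    (h1 : h0 - s ≤ hh d g a) (h2 : h0 - s ≤ hh d g b) :
    dist (act g p) (act g q) ≤
      C ^ 2 * ((η + 2) / η) * Real.exp (lam * s) * Real.exp (-lam * h0) * dist p q := by
  have hC0 : 0 < C := lt_of_lt_of_le one_pos P.one_le
  have hη := P.eta_pos
  have hC2 : C ≤ C ^ 2 * ((η + 2) / η) := by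
    have h3 : 1 ≤ (η + 2) / η := by rw [one_le_div hη]; linarith
    have : C * 1 ≤ C ^ 2 * ((η + 2) / η) := by
      rw [pow_two, mul_assoc]
      refine mul_le_mul_of_nonneg_left ?_ hC0.le
      calc (1 : ℝ) = 1 * 1 := by ring
        _ ≤ C * ((η + 2) / η) := mul_le_mul P.one_le h3 zero_le_one hC0.le
    linarith
  have hcase : ∀ t : ℝ, h0 - s ≤ t → Real.exp (-lam * t) ≤
      Real.exp (lam * s) * Real.exp (-lam * h0) := by
    intro t ht
    rw [← Real.exp_add, Real.exp_le_exp]
    nlinarith [mul_le_mul_of_nonneg_left ht P.lam_pos.le]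
  by_cases c1 : dist p q ≤ η * Real.exp (-lam * d 1 a)
  · refine (P.near p hp q hq a ha c1 g).trans ?_
    refine mul_le_mul_of_nonneg_right ?_ dist_nonneg
    have e : Real.exp (lam * ((d 1 a : ℝ) - d 1 (g * a))) = Real.exp (-lam * hh d g a) := by
      unfold hh; congr 1; ring
    rw [e, mul_assoc (C ^ 2 * ((η + 2) / η))]
    exact mul_le_mul hC2 (hcase _ h1) (Real.exp_pos _).le (by positivity)
  by_cases c2 : dist q p ≤ η * Real.exp (-lam * d 1 b)
  · rw [dist_comm, dist_comm p q]
    refine (P.near q hq p hp b hb c2 g).trans ?_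
    refine mul_le_mul_of_nonneg_right ?_ dist_nonneg
    have e : Real.exp (lam * ((d 1 b : ℝ) - d 1 (g * b))) = Real.exp (-lam * hh d g b) := by
      unfold hh; congr 1; ring
    rw [e, mul_assoc (C ^ 2 * ((η + 2) / η))]
    exact mul_le_mul hC2 (hcase _ h2) (Real.exp_pos _).le (by positivity)
  push Not at c1 c2
  rw [dist_comm] at c2
  have l1 := P.low p hp q hq a b ha hb
  have u1 := P.up _ (P.maps g p hp) _ (P.maps g q hq) _ _ (P.locg g p hp a ha)
    (P.locg g q hq b hb)
  have u2 : dist (act g p) (act g q) ≤ C * Real.exp (-lam * gpr d (g * a) (g * b)) := by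
    have e1 := Real.exp_pos (-lam * d 1 (g * a))
    have e2 := Real.exp_pos (-lam * d 1 (g * b))
    linarith
  rw [h.gpr_mul] at u2
  have e3 : Real.exp (-lam * (gpr d a b + (hh d g a + hh d g b) / 2)) =
      Real.exp (-lam * gpr d a b) * Real.exp (-lam * ((hh d g a + hh d g b) / 2)) := by
    rw [← Real.exp_add]; congr 1; ring
  rw [e3] at u2
  have l2 : Real.exp (-lam * gpr d a b) ≤ C * (((η + 2) / η) * dist p q) := by
    refine l1.trans (mul_le_mul_of_nonneg_left ?_ hC0.le)
    have x1 : Real.exp (-lam * d 1 a) ≤ dist p q / η := by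
      rw [le_div_iff₀ hη]; linarith
    have x2 : Real.exp (-lam * d 1 b) ≤ dist p q / η := by
      rw [le_div_iff₀ hη]; linarith
    have x3 : (η + 2) / η * dist p q = dist p q + dist p q / η + dist p q / η := by
      field_simp; ring
    rw [x3]; linarith
  have l3 : Real.exp (-lam * ((hh d g a + hh d g b) / 2)) ≤
      Real.exp (lam * s) * Real.exp (-lam * h0) := hcase _ (by linarith)
  calc dist (act g p) (act g q)
      ≤ C * (Real.exp (-lam * gpr d a b) * Real.exp (-lam * ((hh d g a + hh d g b) / 2))) := u2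
    _ ≤ C * ((C * (((η + 2) / η) * dist p q)) * (Real.exp (lam * s) * Real.exp (-lam * h0))) :=
        mul_le_mul_of_nonneg_left (mul_le_mul l2 l3 (Real.exp_pos _).le (by positivity)) hC0.le
    _ = C ^ 2 * ((η + 2) / η) * Real.exp (lam * s) * Real.exp (-lam * h0) * dist p q := by ring

end

end Pool.HQ
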