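import Pool.Agent.HQ.VDefs

/-!
MODULE SCst (MP_7936f4_al, star-shapedness block): elementary properties of tot, cst, io.
-/

namespace Pool.HQ

section
variable {G : Type}

theorem tot_add (u v : G →₀ ℝ) : tot (u + v) = tot u + tot v := by
  unfold tot
  exact Finsupp.sum_add_index' (fun _ => rfl) (fun _ _ _ => rfl)

theorem tot_smul (r : ℝ) (u : G →₀ ℝ) : tot (r • u) = r * tot u := by
  unfold tot
  rw [Finsupp.sum_smul_index (fun _ => rfl), Finsupp.mul_sum]

theorem tot_neg (u : G →₀ ℝ) : tot (-u) = -tot u := by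
  have := tot_smul (-1) u
  rwa [neg_one_smul, neg_one_mul] at this

theorem tot_sub (u v : G →₀ ℝ) : tot (u - v) = tot u - tot v := by
  rw [sub_eq_add_neg, tot_add, tot_neg, sub_eq_add_neg]

theorem tot_eq_sum {F : Finset G} (u : G →₀ ℝ) (h : u.support ⊆ F) : tot u = ∑ a ∈ F, u a :=
  Finsupp.sum_of_support_subset _ h _ (fun _ _ => rfl)

theorem cst_eq_sum (w : G → ℝ) {F : Finset G} (u : G →₀ ℝ) (h : u.support ⊆ F) :
    cst w u = ∑ a ∈ F, w a * |u a| :=
  Finsupp.sum_of_support_subset _ h _ (fun _ _ => by simp)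

theorem cst_add_le {w : G → ℝ} (hw : ∀ a, 0 ≤ w a) (u v : G →₀ ℝ) :
    cst w (u + v) ≤ cst w u + cst w v := by
  classical
  rw [cst_eq_sum w (u + v) Finsupp.support_add, cst_eq_sum w u Finset.subset_union_left,
    cst_eq_sum w v Finset.subset_union_right, ← Finset.sum_add_distrib]
  refine Finset.sum_le_sum fun a _ => ?_
  rw [Finsupp.add_apply, ← mul_add]
  exact mul_le_mul_of_nonneg_left (abs_add_le _ _) (hw a)

theorem cst_smul (w : G → ℝ) (r : ℝ) (u : G →₀ ℝ) : cst w (r • u) = |r| * cst w u := by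
  classical
  rw [cst_eq_sum w (r • u) Finsupp.support_smul, cst_eq_sum w u (subset_refl _), Finset.mul_sum]
  refine Finset.sum_congr rfl fun a _ => ?_
  rw [Finsupp.smul_apply, smul_eq_mul, abs_mul]
  ring

theorem cst_nonneg {w : G → ℝ} (hw : ∀ a, 0 ≤ w a) (u : G →₀ ℝ) : 0 ≤ cst w u :=
  Finset.sum_nonneg fun a _ => mul_nonneg (hw a) (abs_nonneg _)

theorem cst_mono {w w' : G → ℝ} (u : G →₀ ℝ) (h : ∀ a ∈ u.support, w a ≤ w' a) :
    cst w u ≤ cst w' u :=
  Finset.sum_le_sum fun a ha => mul_le_mul_of_nonneg_right (h a ha) (abs_nonneg _)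

/-- l^1 norm. -/
noncomputable def el (u : G →₀ ℝ) : ℝ := cst (fun _ => 1) u

theorem el_nonneg (u : G →₀ ℝ) : 0 ≤ el u := cst_nonneg (fun _ => zero_le_one) u

theorem el_add_le (u v : G →₀ ℝ) : el (u + v) ≤ el u + el v :=
  cst_add_le (fun _ => zero_le_one) u v

theorem el_smul (r : ℝ) (u : G →₀ ℝ) : el (r • u) = |r| * el u := cst_smul _ r u

theorem el_eq_sum {F : Finset G} (u : G →₀ ℝ) (h : u.support ⊆ F) : el u = ∑ a ∈ F, |u a| := by
  unfold el
  rw [cst_eq_sum _ u h]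
  exact Finset.sum_congr rfl fun a _ => one_mul _

theorem cst_const (W : ℝ) (u : G →₀ ℝ) : cst (fun _ => W) u = W * el u := by
  unfold el cst
  rw [Finsupp.mul_sum]
  exact Finset.sum_congr rfl fun a _ => by ring

theorem cst_le_el {w : G → ℝ} {W : ℝ} (u : G →₀ ℝ) (h : ∀ a ∈ u.support, w a ≤ W) :
    cst w u ≤ W * el u := by
  rw [← cst_const]; exact cst_mono u h

theorem el_le_cst {w : G → ℝ} {W : ℝ} (u : G →₀ ℝ) (h : ∀ a ∈ u.support, W ≤ w a) :
    W * el u ≤ cst w u := by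
  rw [← cst_const]; exact cst_mono u h

theorem abs_tot_le (u : G →₀ ℝ) : |tot u| ≤ el u := by
  rw [tot_eq_sum u (subset_refl _), el_eq_sum u (subset_refl _)]
  exact Finset.abs_sum_le_sum_abs _ _

/-- Normalised nonnegative functions which are close. -/
theorem el_normalize_sub {u v : G →₀ ℝ} {F : Finset G} (hu : u.support ⊆ F) (hv : v.support ⊆ F)
    {c ε : ℝ} (hc : 0 < c) (hv0 : ∀ a, 0 ≤ v a)
    (hcu : c ≤ tot u) (hcv : c ≤ tot v) (h : ∀ a ∈ F, |u a - v a| ≤ ε) :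
    el ((tot u)⁻¹ • u - (tot v)⁻¹ • v) ≤ 2 * (F.card * ε) / c := by
  classical
  have hU : 0 < tot u := lt_of_lt_of_le hc hcu
  have hV : 0 < tot v := lt_of_lt_of_le hc hcv
  have hsub : (u - v).support ⊆ F := (Finsupp.support_sub).trans (Finset.union_subset hu hv)
  have h1 : el (u - v) ≤ F.card * ε := by
    rw [el_eq_sum _ hsub]
    calc ∑ a ∈ F, |(u - v) a| ≤ ∑ _a ∈ F, ε := Finset.sum_le_sum fun a ha => h a ha
      _ = F.card * ε := by rw [Finset.sum_const, nsmul_eq_mul]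
  have h2 : |tot u - tot v| ≤ F.card * ε := by
    rw [← tot_sub]; exact (abs_tot_le _).trans h1
  have h3 : el v = tot v := by
    rw [el_eq_sum v (subset_refl _), tot_eq_sum v (subset_refl _)]
    exact Finset.sum_congr rfl fun a _ => abs_of_nonneg (hv0 a)
  have e : (tot u)⁻¹ • u - (tot v)⁻¹ • v = (tot u)⁻¹ • (u - v) + ((tot u)⁻¹ - (tot v)⁻¹) • v := by
    rw [smul_sub, sub_smul]; abel
  rw [e]
  refine (el_add_le _ _).trans ?_
  rw [el_smul, el_smul, h3, abs_of_pos (inv_pos.mpr hU)]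
  have h4 : |(tot u)⁻¹ - (tot v)⁻¹| * tot v = (tot u)⁻¹ * |tot u - tot v| := by
    rw [inv_sub_inv hU.ne' hV.ne', abs_div, abs_mul, abs_of_pos hU, abs_of_pos hV, abs_sub_comm]
    field_simp
  rw [h4, ← mul_add]
  have h5 : (tot u)⁻¹ ≤ c⁻¹ := inv_anti₀ hc hcu
  have h6 : 0 ≤ (F.card : ℝ) * ε := (abs_nonneg _).trans h2
  calc (tot u)⁻¹ * (el (u - v) + |tot u - tot v|) ≤ c⁻¹ * (F.card * ε + F.card * ε) :=
        mul_le_mul h5 (add_le_add h1 h2) (add_nonneg (el_nonneg _) (abs_nonneg _))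
          (inv_nonneg.mpr hc.le)
    _ = 2 * (F.card * ε) / c := by field_simp; ring

end

section
variable {G : Type} {L : ℕ} (c : G → Fin L)

theorem io_add (u v : G →₀ ℝ) : io c (u + v) = io c u + io c v := by
  unfold io
  exact Finsupp.sum_add_index' (fun _ => zero_smul ℝ _) (fun _ _ _ => add_smul _ _ _)

theorem io_smul (r : ℝ) (u : G →₀ ℝ) : io c (r • u) = r • io c u := by
  unfold io
  rw [Finsupp.sum_smul_index (h := fun a t => t • EuclideanSpace.single (c a) (1 : ℝ))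
    (fun _ => zero_smul ℝ _), Finsupp.smul_sum]
  refine Finset.sum_congr rfl fun a _ => ?_
  simp only [mul_smul]

theorem io_sub (u v : G →₀ ℝ) : io c (u - v) = io c u - io c v := by
  rw [sub_eq_add_neg, io_add, ← neg_one_smul ℝ v, io_smul, neg_one_smul, sub_eq_add_neg]

theorem norm_io_le (u : G →₀ ℝ) : ‖io c u‖ ≤ el u := by
  rw [el_eq_sum u (subset_refl _)]
  unfold io
  refine (norm_sum_le _ _).trans (Finset.sum_le_sum fun a _ => ?_)
  rw [norm_smul, PiLp.norm_single, norm_one, mul_one, Real.norm_eq_abs]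

end

end Pool.HQ
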