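import Pool.Agent.HQ.SMin
import Pool.Agent.HQ.SCst

/-!
MODULE SBar (MP_7936f4_al, star-shapedness block): the probability measure xb f z on the group, supported on
the near-minimisers of om (f a) z, Lipschitz in z at the scale Dz z.
-/

namespace Pool.HQ

variable {G : Type} [Group G] {d : G → G → ℕ} {M : ℕ} {lam C : ℝ}
  {f : G → EuclideanSpace ℝ (Fin M)}

/-- weight -/
noncomputable def hw (f : G → EuclideanSpace ℝ (Fin M)) (z : EuclideanSpace ℝ (Fin M)) (a : G) : ℝ :=
  max 0 (11 / 10 - om (f a) z / mz f z)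

open Classical in
/-- weights as a finitely supported function -/
noncomputable def xw (f : G → EuclideanSpace ℝ (Fin M)) (z : EuclideanSpace ℝ (Fin M)) : G →₀ ℝ :=
  if h : (Function.support (hw f z)).Finite then Finsupp.ofSupportFinite (hw f z) h else 0

/-- normalised weights -/
noncomputable def xb (f : G → EuclideanSpace ℝ (Fin M)) (z : EuclideanSpace ℝ (Fin M)) : G →₀ ℝ :=
  (tot (xw f z))⁻¹ • xw f z

omit [Group G] in
theorem hw_nonneg (f : G → EuclideanSpace ℝ (Fin M)) (z : EuclideanSpace ℝ (Fin M)) (a : G) :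
    0 ≤ hw f z a := le_max_left _ _

omit [Group G] in
theorem hw_supp {z : EuclideanSpace ℝ (Fin M)} {a : G}
    (ha : hw f z a ≠ 0) : om (f a) z / mz f z ≤ 11 / 10 := by
  by_contra hcon
  push Not at hcon
  apply ha
  unfold hw
  rw [max_eq_left]
  linarith

theorem hw_fin (h : HypM d) (hf : RoughSim d lam C f) {z : EuclideanSpace ℝ (Fin M)} (hz : ‖z‖ < 1) :
    (Function.support (hw f z)).Finite := by
  refine (fin_om h hf hz (11 / 10 * mz f z)).subset ?_
  intro a ha
  have h1 := hw_supp ha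
  have h2 := one_le_mz hf hz
  rwa [div_le_iff₀ (by linarith)] at h1

theorem xw_apply (h : HypM d) (hf : RoughSim d lam C f) {z : EuclideanSpace ℝ (Fin M)} (hz : ‖z‖ < 1)
    (a : G) : xw f z a = hw f z a := by
  unfold xw
  rw [dif_pos (hw_fin h hf hz)]
  rfl

theorem xw_supp (h : HypM d) (hf : RoughSim d lam C f) {z : EuclideanSpace ℝ (Fin M)} (hz : ‖z‖ < 1)
    {a : G} (ha : a ∈ (xw f z).support) : om (f a) z / mz f z ≤ 11 / 10 := by
  rw [Finsupp.mem_support_iff, xw_apply h hf hz] at ha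
  exact hw_supp ha

theorem tot_xw (h : HypM d) (hf : RoughSim d lam C f) {z : EuclideanSpace ℝ (Fin M)} (hz : ‖z‖ < 1) :
    9 / 100 ≤ tot (xw f z) := by
  classical
  obtain ⟨a, ha⟩ := exists_lt_mz hf hz
  have hm := one_le_mz hf hz
  have h1 : 9 / 100 ≤ xw f z a := by
    rw [xw_apply h hf hz]
    unfold hw
    refine le_max_of_le_right ?_
    have : om (f a) z / mz f z ≤ 101 / 100 := by rw [div_le_iff₀ (by linarith)]; exact ha
    linarith
  have hmem : a ∈ (xw f z).support := by
    rw [Finsupp.mem_support_iff]; intro h0; rw [h0] at h1; norm_num at h1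
  rw [tot_eq_sum _ (subset_refl _)]
  refine h1.trans (Finset.single_le_sum (f := fun b => xw f z b) (fun b _ => ?_) hmem)
  rw [xw_apply h hf hz]; exact hw_nonneg _ _ _

theorem tot_xb (h : HypM d) (hf : RoughSim d lam C f) {z : EuclideanSpace ℝ (Fin M)} (hz : ‖z‖ < 1) :
    tot (xb f z) = 1 := by
  unfold xb
  have := tot_xw h hf hz
  rw [tot_smul, inv_mul_cancel₀ (by linarith)]

theorem xb_supp (h : HypM d) (hf : RoughSim d lam C f) {z : EuclideanSpace ℝ (Fin M)} (hz : ‖z‖ < 1)
    {a : G} (ha : a ∈ (xb f z).support) : om (f a) z ≤ 11 / 10 * mz f z := by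
  have h1 := xw_supp h hf hz (Finsupp.support_smul ha)
  have h2 := one_le_mz hf hz
  rwa [div_le_iff₀ (by linarith)] at h1

theorem xb_nonneg (h : HypM d) (hf : RoughSim d lam C f) {z : EuclideanSpace ℝ (Fin M)} (hz : ‖z‖ < 1)
    (a : G) : 0 ≤ xb f z a := by
  unfold xb
  have := tot_xw h hf hz
  rw [Finsupp.smul_apply, smul_eq_mul, xw_apply h hf hz]
  exact mul_nonneg (inv_nonneg.mpr (by linarith)) (hw_nonneg _ _ _)

theorem el_xb (h : HypM d) (hf : RoughSim d lam C f) {z : EuclideanSpace ℝ (Fin M)} (hz : ‖z‖ < 1) :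
    el (xb f z) = 1 := by
  rw [← tot_xb h hf hz, el_eq_sum _ (subset_refl _), tot_eq_sum _ (subset_refl _)]
  exact Finset.sum_congr rfl fun a _ => abs_of_nonneg (xb_nonneg h hf hz a)

/-- A set of small diameter has a bounded number of elements. -/
theorem card_le_ball (h : HypM d) (D : ℕ) (F : Finset G) (hF : ∀ a ∈ F, ∀ b ∈ F, d a b ≤ D) :
    F.card ≤ (h.fin D).toFinset.card := by
  classical
  rcases F.eq_empty_or_nonempty with rfl | ⟨a0, ha0⟩
  · simp
  refine Finset.card_le_card_of_injOn (fun a => a0⁻¹ * a) ?_ ?_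
  · intro a ha
    have h1 := hF a0 ha0 a ha
    have h2 := h.inv a0 1 (a0⁻¹ * a)
    rw [mul_one, mul_inv_cancel_left] at h2
    simp only [Finset.mem_coe, Set.Finite.mem_toFinset, Set.mem_ofPred_eq]
    omega
  · intro a _ b _ hab
    exact mul_left_cancel hab

/-- General comparison of xb at two points. -/
theorem xb_sub (h : HypM d) (hf : RoughSim d lam C f) :
    ∃ K : ℝ, 0 ≤ K ∧ ∀ (z z' : EuclideanSpace ℝ (Fin M)) (ε : ℝ), ‖z‖ < 1 → ‖z'‖ < 1 → 0 ≤ ε →
      ε ≤ 1 / 3 →
      (∀ a, |om (f a) z' / mz f z' - om (f a) z / mz f z| ≤ ε * (om (f a) z / mz f z)) →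
      el (xb f z - xb f z') ≤ K * ε := by
  classical
  obtain ⟨D, hD⟩ := diam_near h hf
  refine ⟨2 * ((h.fin D).toFinset.card * 2) / (9 / 100), by positivity, ?_⟩
  intro z z' ε hz hz' hε hε1 H
  have hm := one_le_mz hf hz
  have hm' := one_le_mz hf hz'
  set F := (xw f z).support ∪ (xw f z').support with hF
  have hratio : ∀ a ∈ F, om (f a) z / mz f z ≤ 2 := by
    intro a ha
    rcases Finset.mem_union.mp ha with ha | ha
    · have := xw_supp h hf hz ha; linarith
    · have h1 := xw_supp h hf hz' ha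
      have h2 := (abs_le.mp (H a)).1
      have h3 : 0 ≤ om (f a) z / mz f z :=
        div_nonneg (om_pos (hf.ball a) hz).le (by linarith)
      nlinarith
  have hcard : (F.card : ℝ) ≤ (h.fin D).toFinset.card := by
    have : F.card ≤ (h.fin D).toFinset.card := by
      refine card_le_ball h D F fun a ha b hb => hD z hz a b ?_ ?_
      · have := hratio a ha; rwa [div_le_iff₀ (by linarith)] at this
      · have := hratio b hb; rwa [div_le_iff₀ (by linarith)] at this
    exact_mod_cast this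
  have hdiff : ∀ a ∈ F, |xw f z a - xw f z' a| ≤ 2 * ε := by
    intro a ha
    rw [xw_apply h hf hz, xw_apply h hf hz']
    unfold hw
    rw [max_comm 0, max_comm 0]
    refine (abs_max_sub_max_le_abs _ _ _).trans ?_
    have e : (11 / 10 - om (f a) z / mz f z) - (11 / 10 - om (f a) z' / mz f z') =
        om (f a) z' / mz f z' - om (f a) z / mz f z := by ring
    rw [e]
    refine (H a).trans ?_
    have := mul_le_mul_of_nonneg_left (hratio a ha) hε
    linarith
  have hk := el_normalize_sub (u := xw f z) (v := xw f z') (F := F) Finset.subset_union_left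
    Finset.subset_union_right (c := 9 / 100) (ε := 2 * ε) (by norm_num)
    (fun a => by rw [xw_apply h hf hz']; exact hw_nonneg _ _ _)
    (tot_xw h hf hz) (tot_xw h hf hz') hdiff
  refine hk.trans ?_
  have e : 2 * ((h.fin D).toFinset.card * 2) / (9 / 100) * ε =
      2 * ((h.fin D).toFinset.card * (2 * ε)) / (9 / 100) := by ring
  rw [e]
  refine div_le_div_of_nonneg_right ?_ (by norm_num)
  refine mul_le_mul_of_nonneg_left ?_ (by norm_num)
  exact mul_le_mul_of_nonneg_right hcard (by linarith)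

/-- Ratios: elementary estimate. -/
theorem ratio_near {A B A' B' ε : ℝ} (hA : 0 < A) (hB : 0 < B) (hε : 0 ≤ ε) (hε1 : ε ≤ 1 / 2)
    (h1 : |A' - A| ≤ ε * A) (h2 : |B' - B| ≤ ε * B) : |A' / B' - A / B| ≤ 4 * ε * (A / B) := by
  have b1 := (abs_le.mp h2).1
  have hB' : B / 2 ≤ B' := by nlinarith
  have hB'0 : 0 < B' := by linarith
  have e : A' / B' - A / B = ((A' - A) * B + A * (B - B')) / (B' * B) := by
    field_simp; ring
  rw [e, abs_div, abs_of_pos (mul_pos hB'0 hB), div_le_iff₀ (by positivity)]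
  have h3 : |(A' - A) * B + A * (B - B')| ≤ 2 * ε * A * B := by
    refine (abs_add_le _ _).trans ?_
    rw [abs_mul, abs_mul, abs_of_pos hA, abs_of_pos hB, abs_sub_comm B B']
    nlinarith [mul_le_mul_of_nonneg_right h1 hB.le, mul_le_mul_of_nonneg_left h2 hA.le]
  refine h3.trans ?_
  have e2 : 4 * ε * (A / B) * (B' * B) = 4 * ε * A * B' := by field_simp
  rw [e2]
  have := mul_le_mul_of_nonneg_left hB' (mul_nonneg (mul_nonneg (by norm_num : (0:ℝ) ≤ 4) hε) hA.le)
  linarith

theorem xb_near (h : HypM d) (hf : RoughSim d lam C f) :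
    ∃ K : ℝ, 0 ≤ K ∧ ∀ (z z' : EuclideanSpace ℝ (Fin M)), ‖z‖ < 1 → ‖z'‖ < 1 →
      ‖z - z'‖ ≤ Dz z / 360 → el (xb f z - xb f z') ≤ K * (‖z - z'‖ / Dz z) := by
  obtain ⟨K, hK0, hK⟩ := xb_sub h hf
  refine ⟨K * 120, by positivity, ?_⟩
  intro z z' hz hz' hn
  have hD := Dz_pos hz
  set t := ‖z - z'‖ / Dz z with ht
  have ht0 : 0 ≤ t := div_nonneg (norm_nonneg _) hD.le
  have ht1 : t ≤ 1 / 360 := by rw [ht, div_le_iff₀ hD]; linarith
  have hm := one_le_mz hf hz
  have := hK z z' (120 * t) hz hz' (by positivity) (by linarith) ?_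
  · linarith
  intro a
  have h1 := om_near (hf.ball a) hz hz' (by linarith : ‖z - z'‖ ≤ Dz z / 60)
  have h2 := mz_near hf hz hz' (by linarith : ‖z - z'‖ ≤ Dz z / 60)
  have h3 := ratio_near (om_pos (hf.ball a) hz) (by linarith : 0 < mz f z)
    (by positivity : 0 ≤ 30 * t) (by linarith) h1 h2
  refine h3.trans (le_of_eq ?_)
  ring

end Pool.HQ
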