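import Pool.Agent.HQ.SPre
import Pool.Agent.HQ.Word

/-!
MODULE SFin (MP_7936f4_al, assembly): from the action on the hypersurface to the action on the standard sphere.
-/

namespace Pool.HQ

variable {G : Type} [Group G]

/-- Transport of a homomorphism to the group of homeomorphisms. -/
noncomputable def trho {X Y : Type} [MetricSpace X] [MetricSpace Y] (e : X ≃ᵢ Y) (ρ : G →* (X ≃ₜ X)) :
    G →* (Y ≃ₜ Y) where
  toFun g := (e.toHomeomorph.symm.trans (ρ g)).trans e.toHomeomorph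
  map_one' := by
    ext y
    simp
  map_mul' g h := by
    ext y
    simp

theorem trho_apply {X Y : Type} [MetricSpace X] [MetricSpace Y] (e : X ≃ᵢ Y) (ρ : G →* (X ≃ₜ X))
    (g : G) (y : Y) : trho e ρ g y = e (ρ g (e.symm y)) := rfl

theorem transport {X Y : Type} [MetricSpace X] [MetricSpace Y] (e : X ≃ᵢ Y) {H : ℝ}
    (ρ : G →* (X ≃ₜ X)) (hi : Function.Injective ρ) (hq : ∀ g, MetricQC H (ρ g))
    (hd : ∃ ε > 0, ∀ g, g ≠ 1 → ∃ x, ε ≤ dist (ρ g x) x) :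
    ∃ ρ' : G →* (Y ≃ₜ Y), Function.Injective ρ' ∧ (∀ g, MetricQC H (ρ' g)) ∧
      ∃ ε > 0, ∀ g, g ≠ 1 → ∃ x, ε ≤ dist (ρ' g x) x := by
  refine ⟨trho e ρ, ?_, ?_, ?_⟩
  · intro g h hgh
    refine hi (Homeomorph.ext fun x => ?_)
    have h1 : trho e ρ g (e x) = trho e ρ h (e x) := by rw [hgh]
    rw [trho_apply, trho_apply, e.symm_apply_apply] at h1
    exact e.injective h1
  · intro g z
    obtain ⟨δ, hδ, hh⟩ := hq g (e.symm z)
    refine ⟨δ, hδ, fun y y' hy hy' hyy => ?_⟩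
    rw [trho_apply, trho_apply, trho_apply, e.dist_eq, e.dist_eq]
    exact hh _ _ (by rwa [e.symm.dist_eq]) (by rwa [e.symm.dist_eq])
      (by rwa [e.symm.dist_eq, e.symm.dist_eq])
  · obtain ⟨ε, hε, hh⟩ := hd
    refine ⟨ε, hε, fun g hg => ?_⟩
    obtain ⟨x, hx⟩ := hh g hg
    refine ⟨e x, ?_⟩
    rw [trho_apply, e.symm_apply_apply, e.dist_eq]
    exact hx

/-- The standard sphere of dimension n. -/
abbrev Sph (n : ℕ) : Type := Metric.sphere (0 : EuclideanSpace ℝ (Fin (n + 1))) 1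

theorem star_main {d : G → G → ℕ} {M : ℕ} {lam C : ℝ} {f : G → EuclideanSpace ℝ (Fin M)}
    (h : HypM d) (hf : RoughSim d lam C f) :
    ∃ A0 : ℝ, 2 ≤ A0 ∧ ∀ A : ℝ, A0 ≤ A → ∀ (L : ℕ) (c : G → Fin L) (E : ℝ), 1 ≤ E →
      ∀ (act : G → EuclideanSpace ℝ (Fin L) × EuclideanSpace ℝ (Fin M) →
        EuclideanSpace ℝ (Fin L) × EuclideanSpace ℝ (Fin M))
        (Lo : EuclideanSpace ℝ (Fin L) × EuclideanSpace ℝ (Fin M) → G → Prop) (W η K : ℝ),
        BdAct d f c E A act Lo W η K → ∀ n : ℕ, n + 1 = L + M →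
          ∃ H : ℝ, ∃ ρ : G →* (Sph n ≃ₜ Sph n), Function.Injective ρ ∧ (∀ g, MetricQC H (ρ g)) ∧
            ∃ ε > 0, ∀ g, g ≠ 1 → ∃ x, ε ≤ dist (ρ g x) x := by
  obtain ⟨A0, hA0, hS⟩ := sphOK_exists h hf
  refine ⟨A0, hA0, ?_⟩
  intro A hA L c E hE act Lo W η K hB n hn
  obtain ⟨K0, η0, hok⟩ := hS A hA L c E hE
  obtain ⟨Om, act', L', η', C', D', P⟩ := preAct_of_bdAct h hf hok hB
  obtain ⟨δ, hδ⟩ := h.toHMet
  have : CompleteSpace (Metric.sphere (0 : VV L M) 1) :=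
    (Metric.isClosed_sphere.isComplete).completeSpace_coe
  obtain ⟨H, ρ, h1, h2, h3⟩ := PreAct.main hδ P
  obtain ⟨e⟩ := sphere_equiv L M
  rw [← hn] at e
  obtain ⟨ρ', h4, h5, h6⟩ := transport e ρ h1 h2 h3
  exact ⟨H, ρ', h4, h5, h6⟩

end Pool.HQ
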