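import Pool.Agent.HQ.VDefs

/-!
MODULE SGeo (MP_7936f4_al, star-shapedness block): geometry of the unit ball.

Dz z = 1 - |z|^2, Nz x z = |x-z|^2 + Dz x Dz z ( = 1 - 2 <x,z> + |x|^2 |z|^2), om x z ^ 2 = Nz x z / (Dz x Dz z).
Everything follows from |x-z| <= sqrt N, Dz x <= 2 sqrt N, Dz z <= 2 sqrt N, where the last two are
N >= (1 - |x||z|)^2 >= (1-|x|)^2 >= (Dz x / 2)^2.
-/

namespace Pool.HQ

variable {M : ℕ}

/-- 1 - |z|^2. -/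
noncomputable def Dz (z : EuclideanSpace ℝ (Fin M)) : ℝ := 1 - ‖z‖ ^ 2

/-- The numerator of om^2. -/
noncomputable def Nz (x z : EuclideanSpace ℝ (Fin M)) : ℝ := ‖x - z‖ ^ 2 + Dz x * Dz z

theorem Dz_pos {z : EuclideanSpace ℝ (Fin M)} (hz : ‖z‖ < 1) : 0 < Dz z := by
  unfold Dz
  have := norm_nonneg z
  nlinarith

theorem Dz_le_one (z : EuclideanSpace ℝ (Fin M)) : Dz z ≤ 1 := by
  unfold Dz
  have := sq_nonneg ‖z‖
  linarith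

theorem Nz_pos {x z : EuclideanSpace ℝ (Fin M)} (hx : ‖x‖ < 1) (hz : ‖z‖ < 1) : 0 < Nz x z := by
  unfold Nz
  have h1 := Dz_pos hx
  have h2 := Dz_pos hz
  positivity

theorem Nz_symm (x z : EuclideanSpace ℝ (Fin M)) : Nz x z = Nz z x := by
  unfold Nz
  rw [norm_sub_rev, mul_comm]

/-- N = 1 - 2 <x,z> + |x|^2 |z|^2. -/
theorem Nz_eq (x z : EuclideanSpace ℝ (Fin M)) :
    Nz x z = 1 - 2 * inner ℝ x z + ‖x‖ ^ 2 * ‖z‖ ^ 2 := by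
  unfold Nz Dz
  rw [@norm_sub_sq_real]
  ring

theorem le_Nz (x z : EuclideanSpace ℝ (Fin M)) : (1 - ‖x‖ * ‖z‖) ^ 2 ≤ Nz x z := by
  rw [Nz_eq]
  have := real_inner_le_norm x z
  nlinarith

theorem sq_le_Nz {x z : EuclideanSpace ℝ (Fin M)} (hx : ‖x‖ < 1) (hz : ‖z‖ < 1) :
    ‖x - z‖ ^ 2 ≤ Nz x z := by
  unfold Nz
  have h1 := Dz_pos hx
  have h2 := Dz_pos hz
  have := mul_pos h1 h2
  linarith

theorem Dz_sq_le {x z : EuclideanSpace ℝ (Fin M)} (hx : ‖x‖ < 1) (hz : ‖z‖ < 1) :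
    Dz x ^ 2 ≤ 4 * Nz x z := by
  have h1 := le_Nz x z
  have hx0 := norm_nonneg x
  have hz0 := norm_nonneg z
  have h2 : Dz x ≤ 2 * (1 - ‖x‖ * ‖z‖) := by
    unfold Dz
    nlinarith
  have h3 := Dz_pos hx
  nlinarith

theorem Dz_sq_le' {x z : EuclideanSpace ℝ (Fin M)} (hx : ‖x‖ < 1) (hz : ‖z‖ < 1) :
    Dz z ^ 2 ≤ 4 * Nz x z := by
  rw [Nz_symm]
  exact Dz_sq_le hz hx

theorem one_add_qd {x z : EuclideanSpace ℝ (Fin M)} (hx : ‖x‖ < 1) (hz : ‖z‖ < 1) :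
    1 + qd x z = Nz x z / (Dz x * Dz z) := by
  have h1 := Dz_pos hx
  have h2 := Dz_pos hz
  unfold qd Nz
  rw [show (1 - ‖x‖ ^ 2) = Dz x from rfl, show (1 - ‖z‖ ^ 2) = Dz z from rfl]
  field_simp
  ring

theorem om_sq {x z : EuclideanSpace ℝ (Fin M)} (hx : ‖x‖ < 1) (hz : ‖z‖ < 1) :
    om x z ^ 2 = Nz x z / (Dz x * Dz z) := by
  unfold om
  rw [Real.sq_sqrt, one_add_qd hx hz]
  rw [one_add_qd hx hz]
  exact div_nonneg (Nz_pos hx hz).le (mul_pos (Dz_pos hx) (Dz_pos hz)).le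

theorem one_le_om {x z : EuclideanSpace ℝ (Fin M)} (hx : ‖x‖ < 1) (hz : ‖z‖ < 1) :
    1 ≤ om x z := by
  unfold om
  rw [Real.one_le_sqrt]
  have h1 : 0 < 1 - ‖x‖ ^ 2 := Dz_pos hx
  have h2 : 0 < 1 - ‖z‖ ^ 2 := Dz_pos hz
  have : 0 ≤ qd x z := by unfold qd; positivity
  linarith

theorem om_symm (x z : EuclideanSpace ℝ (Fin M)) : om x z = om z x := by
  unfold om qd
  rw [norm_sub_rev, mul_comm]

theorem om_zero {z : EuclideanSpace ℝ (Fin M)} (hz : ‖z‖ < 1) : om 0 z ^ 2 = 1 / Dz z := by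
  rw [om_sq (by simp) hz]
  have h2 := Dz_pos hz
  have h3 : Dz (0 : EuclideanSpace ℝ (Fin M)) = 1 := by simp [Dz]
  have h4 : Nz (0 : EuclideanSpace ℝ (Fin M)) z = 1 := by
    unfold Nz; rw [h3]; unfold Dz; simp
  rw [h3, h4, one_mul]

/-- Comparison of Nz: the inequality om x z <= t om' in terms of squares. -/
theorem om_le_of_sq {x z x' z' : EuclideanSpace ℝ (Fin M)} {t : ℝ} (ht : 0 ≤ t)
    (hx' : ‖x'‖ < 1) (hz' : ‖z'‖ < 1) (h : om x z ^ 2 ≤ t ^ 2 * om x' z' ^ 2) :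
    om x z ≤ t * om x' z' := by
  have h1 : 0 ≤ om x' z' := zero_le_one.trans (one_le_om hx' hz')
  refine le_of_sq_le_sq ?_ (mul_nonneg ht h1) 
  rw [mul_pow]; exact h

end Pool.HQ
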