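import Pool.Agent.HQ.SRad

/-!
MODULE SHull (MP_7936f4_al, star-shapedness block): the image of f is radially quasi-convex.
-/

namespace Pool.HQ

variable {G : Type} [Group G] {d : G → G → ℕ} {M : ℕ} {lam C : ℝ}
  {f : G → EuclideanSpace ℝ (Fin M)}

theorem RoughSim.om_sq_le (hf : RoughSim d lam C f) (a b : G) :
    om (f a) (f b) ^ 2 ≤ C * Real.exp (lam * d a b) := by
  rw [om_sq (hf.ball a) (hf.ball b), ← one_add_qd (hf.ball a) (hf.ball b)]
  exact hf.up a b

theorem RoughSim.le_om_sq (hf : RoughSim d lam C f) (a b : G) :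
    C⁻¹ * Real.exp (lam * d a b) ≤ om (f a) (f b) ^ 2 := by
  rw [om_sq (hf.ball a) (hf.ball b), ← one_add_qd (hf.ball a) (hf.ball b)]
  exact hf.lo a b

theorem RoughSim.C_pos (hf : RoughSim d lam C f) : 0 < C := lt_of_lt_of_le one_pos hf.one_le

theorem RoughSim.le_Dz (hf : RoughSim d lam C f) (a : G) :
    C⁻¹ * Real.exp (-lam * d 1 a) ≤ Dz (f a) := by
  have h1 := hf.om_sq_le 1 a
  rw [hf.one, om_zero (hf.ball a)] at h1
  have hD := Dz_pos (hf.ball a)
  rw [div_le_iff₀ hD] at h1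
  have hC := hf.C_pos
  have e : Real.exp (-lam * d 1 a) = (Real.exp (lam * d 1 a))⁻¹ := by
    rw [← Real.exp_neg]; congr 1; ring
  rw [e, ← mul_inv, inv_le_iff_one_le_mul₀ (by positivity)]
  linarith

theorem RoughSim.Dz_le (hf : RoughSim d lam C f) (a : G) :
    Dz (f a) ≤ C * Real.exp (-lam * d 1 a) := by
  have h1 := hf.le_om_sq 1 a
  rw [hf.one, om_zero (hf.ball a)] at h1
  have hD := Dz_pos (hf.ball a)
  have hC := hf.C_pos
  rw [le_div_iff₀ hD] at h1
  have e : Real.exp (-lam * d 1 a) = (Real.exp (lam * d 1 a))⁻¹ := by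
    rw [← Real.exp_neg]; congr 1; ring
  have h2 : Real.exp (lam * d 1 a) * Dz (f a) ≤ C := by
    have := mul_le_mul_of_nonneg_left h1 hC.le
    rw [← mul_assoc, ← mul_assoc, mul_inv_cancel₀ hC.ne', one_mul, mul_one] at this
    exact this
  rw [e, ← div_eq_mul_inv, le_div_iff₀ (Real.exp_pos _)]
  linarith

/-- Euclidean distances. -/
theorem RoughSim.dist_sq_le (hf : RoughSim d lam C f) (a b : G) :
    ‖f a - f b‖ ^ 2 ≤ C ^ 3 * Real.exp (lam * ((d a b : ℝ) - d 1 a - d 1 b)) := by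
  have ha := Dz_pos (hf.ball a)
  have hb := Dz_pos (hf.ball b)
  have h1 := hf.om_sq_le a b
  rw [om_sq (hf.ball a) (hf.ball b), div_le_iff₀ (by positivity)] at h1
  have h2 := sq_le_Nz (hf.ball a) (hf.ball b)
  have hC := hf.C_pos
  calc ‖f a - f b‖ ^ 2 ≤ C * Real.exp (lam * d a b) * (Dz (f a) * Dz (f b)) := h2.trans h1
    _ ≤ C * Real.exp (lam * d a b) * ((C * Real.exp (-lam * d 1 a)) * (C * Real.exp (-lam * d 1 b))) :=
        mul_le_mul_of_nonneg_left
          (mul_le_mul (hf.Dz_le a) (hf.Dz_le b) hb.le (by positivity)) (by positivity)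
    _ = C ^ 3 * (Real.exp (lam * d a b) * Real.exp (-lam * d 1 a) * Real.exp (-lam * d 1 b)) := by ring
    _ = C ^ 3 * Real.exp (lam * ((d a b : ℝ) - d 1 a - d 1 b)) := by
        rw [← Real.exp_add, ← Real.exp_add]; congr 2; ring

/-- Every scale between that of f a and 1 is attained on the way from 1 to a. -/
theorem RoughSim.up_point (h : HypM d) (hf : RoughSim d lam C f) (a : G) (t : ℝ)
    (ht : Dz (f a) ≤ t) (ht1 : t ≤ 1) :
    ∃ a', t ≤ C * Dz (f a') ∧ ‖f a' - f a‖ ≤ C ^ 2 * Real.exp lam * t := by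
  have hD := Dz_pos (hf.ball a)
  have ht0 : 0 < t := lt_of_lt_of_le hD ht
  have hl := hf.lam_pos
  have hC := hf.C_pos
  have hC1 := hf.one_le
  set k := ⌊Real.log (1 / t) / lam⌋₊ with hk
  have hlog : 0 ≤ Real.log (1 / t) / lam := by
    refine div_nonneg (Real.log_nonneg ?_) hl.le
    rw [le_div_iff₀ ht0]; linarith
  have k1 : (k : ℝ) * lam ≤ Real.log (1 / t) := by
    have := Nat.floor_le hlog
    rwa [← hk, le_div_iff₀ hl] at this
  have k2 : Real.log (1 / t) < ((k : ℝ) + 1) * lam := by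
    have := Nat.lt_floor_add_one (Real.log (1 / t) / lam)
    rwa [← hk, div_lt_iff₀ hl] at this
  rw [one_div, Real.log_inv] at k1 k2
  -- t <= exp(-lam k) <= exp lam * t
  have e1 : t ≤ Real.exp (-lam * k) := by
    rw [← Real.log_le_iff_le_exp ht0]; linarith
  have e2 : Real.exp (-lam * k) ≤ Real.exp lam * t := by
    have : Real.exp lam * t = Real.exp (lam + Real.log t) := by
      rw [Real.exp_add, Real.exp_log ht0]
    rw [this, Real.exp_le_exp]; linarith
  by_cases hka : k ≤ d 1 a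
  · obtain ⟨c, hc1, hc2⟩ := h.geo 1 a k hka
    refine ⟨c, ?_, ?_⟩
    · have := hf.le_Dz c
      rw [hc1] at this
      have h3 := mul_le_mul_of_nonneg_left this hC.le
      rw [← mul_assoc, mul_inv_cancel₀ hC.ne', one_mul] at h3
      exact e1.trans h3
    · have h4 := hf.dist_sq_le c a
      rw [hc1, hc2, Nat.cast_sub hka] at h4
      have h5 : Real.exp (lam * ((d 1 a : ℝ) - k - k - d 1 a)) = Real.exp (-lam * k) ^ 2 := by
        rw [← Real.exp_nat_mul]; congr 1; push_cast; ring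
      rw [h5] at h4
      refine le_of_sq_le_sq ?_ (by positivity)
      refine h4.trans ?_
      have h6 : Real.exp (-lam * k) ^ 2 ≤ (Real.exp lam * t) ^ 2 :=
        pow_le_pow_left₀ (Real.exp_pos _).le e2 2
      have h7 : C ^ 3 ≤ C ^ 4 := pow_le_pow_right₀ hC1 (by norm_num)
      calc C ^ 3 * Real.exp (-lam * k) ^ 2 ≤ C ^ 4 * (Real.exp lam * t) ^ 2 :=
            mul_le_mul h7 h6 (by positivity) (by positivity)
        _ = (C ^ 2 * Real.exp lam * t) ^ 2 := by ring
  · push Not at hka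
    refine ⟨a, ?_, by rw [sub_self, norm_zero]; positivity⟩
    have := hf.le_Dz a
    have h3 := mul_le_mul_of_nonneg_left this hC.le
    rw [← mul_assoc, mul_inv_cancel₀ hC.ne', one_mul] at h3
    refine (e1.trans ?_).trans h3
    rw [Real.exp_le_exp]
    have : (d 1 a : ℝ) ≤ k := by exact_mod_cast hka.le
    nlinarith

/-- Points far from the image of f are far from it at the scale Dz z. -/
theorem RoughSim.hull (h : HypM d) (hf : RoughSim d lam C f) (K : ℝ) (hK : 1 ≤ K) :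
    ∃ m0 : ℝ, 1 ≤ m0 ∧ ∀ z : EuclideanSpace ℝ (Fin M), ‖z‖ < 1 → (∀ a, m0 ≤ om (f a) z) →
      ∀ a, K ^ 2 * Dz z ^ 2 ≤ Nz (f a) z := by
  have hC := hf.C_pos
  set K1 := C ^ 2 * Real.exp lam with hK1
  have hK1p : 0 < K1 := by positivity
  refine ⟨2 + ((2 * K1 + 1) ^ 2 * K * C + 8 * C * K), ?_, ?_⟩
  · have : 0 ≤ (2 * K1 + 1) ^ 2 * K * C + 8 * C * K := by positivity
    linarith
  intro z hz hfar a
  by_contra hcon
  push Not at hcon
  have hD := Dz_pos hz
  have hx := hf.ball a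
  have n1 : ‖f a - z‖ < K * Dz z := by
    refine lt_of_pow_lt_pow_left₀ 2 (by positivity) ?_
    rw [mul_pow]
    exact lt_of_le_of_lt (sq_le_Nz hx hz) hcon
  have n2 : Dz (f a) < 2 * K * Dz z := by
    refine lt_of_pow_lt_pow_left₀ 2 (by positivity) ?_
    have := Dz_sq_le hx hz
    rw [mul_pow, mul_pow]; linarith
  obtain ⟨a', ha1, ha2⟩ := hf.up_point h a (min 1 (2 * K * Dz z))
    (le_min (Dz_le_one _) n2.le) (min_le_left _ _)
  have hx' := hf.ball a'
  have hD' := Dz_pos hx'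
  have hom := hfar a'
  have hom2 : om (f a') z ^ 2 = 1 + ‖f a' - z‖ ^ 2 / (Dz (f a') * Dz z) := by
    rw [om_sq hx' hz]
    unfold Nz
    field_simp
    ring
  have B : ‖f a' - z‖ ^ 2 / (Dz (f a') * Dz z) ≤ (2 * K1 + 1) ^ 2 * K * C + 8 * C * K := by
    rcases le_total 1 (2 * K * Dz z) with hc | hc
    · rw [min_eq_left hc] at ha1
      have b1 : ‖f a' - z‖ ≤ 2 := by
        have := norm_sub_le (f a') z; linarith
      have b2 : ‖f a' - z‖ ^ 2 ≤ 4 := by nlinarith [norm_nonneg (f a' - z)]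
      rw [div_le_iff₀ (by positivity)]
      have b3 : 4 ≤ 8 * C * K * (Dz (f a') * Dz z) := by
        have : 1 * 1 ≤ (C * Dz (f a')) * (2 * K * Dz z) :=
          mul_le_mul ha1 hc (by norm_num) (by positivity)
        linarith
      have b4 : 0 ≤ (2 * K1 + 1) ^ 2 * K * C * (Dz (f a') * Dz z) := by positivity
      linarith
    · rw [min_eq_right hc] at ha1 ha2
      have b1 : ‖f a' - z‖ ≤ (2 * K1 + 1) * (K * Dz z) := by
        have t := norm_sub_le_norm_sub_add_norm_sub (f a') (f a) z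
        linarith
      have b2 : ‖f a' - z‖ ^ 2 ≤ ((2 * K1 + 1) * (K * Dz z)) ^ 2 :=
        pow_le_pow_left₀ (norm_nonneg _) b1 2
      rw [div_le_iff₀ (by positivity)]
      have b3 : ((2 * K1 + 1) * (K * Dz z)) ^ 2 ≤
          (2 * K1 + 1) ^ 2 * K * C * (Dz (f a') * Dz z) := by
        have : (2 * K1 + 1) ^ 2 * K * Dz z * (2 * K * Dz z) ≤
            (2 * K1 + 1) ^ 2 * K * Dz z * (C * Dz (f a')) :=
          mul_le_mul_of_nonneg_left ha1 (by positivity)
        have h5 : 0 ≤ (2 * K1 + 1) ^ 2 * K ^ 2 * Dz z ^ 2 := by positivity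
        linarith
      have b4 : 0 ≤ 8 * C * K * (Dz (f a') * Dz z) := by positivity
      linarith
  have hm : 1 ≤ om (f a') z := one_le_om hx' hz
  have : om (f a') z ≤ om (f a') z ^ 2 := by nlinarith
  linarith

end Pool.HQ
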