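import Pool.Agent.HQ.SPhi

/-!
MODULE SLip (MP_7936f4_al, star-shapedness block): Lipschitz properties of the coordinates (w,z) and of Ph.

Xc: the X-coordinate of (w,z); Wc: the w-coordinate of (X,z).  D = Dz z, D' = Dz z', t = |z - z'| / D.
PROOFS.
norm_w_le: |w|/D = |X - io (xb f z)| <= |X| + |io (xb f z)| <= Ph + 1 (norm_le_Phi, norm_io_le, el_xb).
Dz_near: Dz_sub_le gives |D' - D| <= 2 |z - z'| <= D / 180.
Xc_near: X - X' = io (xb f z - xb f z') + (D'^-1 (w - w')) + (D^-1 - D'^-1) w; the first term is <= K t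
 (norm_io_le, io_sub, xb_near), the second <= 1.01 |w - w'| / D, the third is
 |w|/D * |D' - D|/D' <= B * 2 |z - z'| * 1.01 / D.
Wc_near: w - w' = D (X - X') + (D - D') X' - D (io (xb f z) - io (xb f z')) - (D - D') io (xb f z').
Ph_near: X = Xc w z, X' = Xc w' z', tau = (|w - w'| + |z - z'|)/D <= 1/180, t <= 1/360.
 |w| <= (B+1) D by norm_w_le, so |X - X'| <= Kx tau (Xc_near).  Phi_scale (theta = 1 + 30 t, from om_near;
 for the other direction: om(f a) z <= (1 + 60 t) om(f a) z', since (1 - 30 t)(1 + 60 t) >= 1 for 30 t <= 1/12)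
 and Phi_lip: Ph w' z' <= (1+30t)(Ph w z + E Kx tau), Ph w z <= (1+60t)(Ph w' z' + E Kx tau).
Ph_continuousOn: from Ph_near with B = max 1 (Ph p) at each point p (use Metric.continuousOn_iff or
 ContinuousWithinAt via squeeze).  Ph_ray_cont: composition with s -> (s w, s z).
Ph_zero: Ph 0 0 = Phi (io (xb f 0), 0) <= cst (xb f 0) + 0 <= 11/10 mz f 0 * el (xb f 0) = 11/10 mz f 0 (Phi_le,
 xb_supp, el_xb, cst_le_el), and mz f 0 <= om (f 1) 0 = om 0 0 = 1 (hf.one; qd 0 0 = 0).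
-/

namespace Pool.HQ

variable {G : Type} [Group G] {d : G → G → ℕ} {M L : ℕ} {lam C : ℝ}
  {f : G → EuclideanSpace ℝ (Fin M)} {E : ℝ}

omit [Group G] in
/-- The X-coordinate of (w,z). -/
noncomputable def Xc (f : G → EuclideanSpace ℝ (Fin M)) (c : G → Fin L)
    (w : EuclideanSpace ℝ (Fin L)) (z : EuclideanSpace ℝ (Fin M)) : EuclideanSpace ℝ (Fin L) :=
  io c (xb f z) + (Dz z)⁻¹ • w

omit [Group G] in
/-- The w-coordinate of (X,z). -/
noncomputable def Wc (f : G → EuclideanSpace ℝ (Fin M)) (c : G → Fin L)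
    (X : EuclideanSpace ℝ (Fin L)) (z : EuclideanSpace ℝ (Fin M)) : EuclideanSpace ℝ (Fin L) :=
  Dz z • (X - io c (xb f z))

omit [Group G] in
theorem Ph_eq (c : G → Fin L) (w : EuclideanSpace ℝ (Fin L)) (z : EuclideanSpace ℝ (Fin M)) :
    Ph f c E w z = Phi f c E (Xc f c w z, z) := rfl

omit [Group G] in
theorem Xc_Wc (c : G → Fin L) (X : EuclideanSpace ℝ (Fin L)) {z : EuclideanSpace ℝ (Fin M)}
    (hz : ‖z‖ < 1) : Xc f c (Wc f c X z) z = X := by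
  have h := Dz_pos hz
  unfold Xc Wc
  rw [smul_smul, inv_mul_cancel₀ h.ne', one_smul, add_sub_cancel]

omit [Group G] in
theorem Wc_Xc (c : G → Fin L) (w : EuclideanSpace ℝ (Fin L)) {z : EuclideanSpace ℝ (Fin M)}
    (hz : ‖z‖ < 1) : Wc f c (Xc f c w z) z = w := by
  have h := Dz_pos hz
  unfold Xc Wc
  rw [add_sub_cancel_left, smul_smul, mul_inv_cancel₀ h.ne', one_smul]

omit [Group G] in
theorem Ph_Wc (c : G → Fin L) (X : EuclideanSpace ℝ (Fin L)) {z : EuclideanSpace ℝ (Fin M)}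
    (hz : ‖z‖ < 1) : Ph f c E (Wc f c X z) z = Phi f c E (X, z) := by
  rw [Ph_eq, Xc_Wc c X hz]

theorem norm_w_le (h : HypM d) (hf : RoughSim d lam C f) (c : G → Fin L) (hE : 1 ≤ E)
    (w : EuclideanSpace ℝ (Fin L)) {z : EuclideanSpace ℝ (Fin M)} (hz : ‖z‖ < 1) :
    ‖w‖ ≤ (Ph f c E w z + 1) * Dz z := by
  have hD := Dz_pos hz
  have h1 : w = Dz z • (Xc f c w z - io c (xb f z)) := (Wc_Xc c w hz).symm
  have h2 := norm_le_Phi (c := c) hf hE hz (Xc f c w z)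
  have h3 : ‖io c (xb f z)‖ ≤ 1 := by
    rw [← el_xb h hf hz]
    exact norm_io_le c _
  have h4 : ‖w‖ = Dz z * ‖Xc f c w z - io c (xb f z)‖ := by
    conv_lhs => rw [h1]
    rw [norm_smul, Real.norm_of_nonneg hD.le]
  rw [h4, mul_comm]
  refine mul_le_mul_of_nonneg_right ?_ hD.le
  rw [Ph_eq]
  exact (norm_sub_le _ _).trans (by linarith)

theorem Dz_near {z z' : EuclideanSpace ℝ (Fin M)} (hz : ‖z‖ < 1) (hz' : ‖z'‖ < 1)
    (hn : ‖z - z'‖ ≤ Dz z / 360) : Dz z' ≤ 101 / 100 * Dz z ∧ Dz z ≤ 101 / 100 * Dz z' := by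
  have hD := Dz_pos hz
  have h1 := abs_le.1 (Dz_sub_le hz hz')
  constructor <;> linarith [h1.1, h1.2]

theorem Xc_near (h : HypM d) (hf : RoughSim d lam C f) :
    ∃ K : ℝ, 1 ≤ K ∧ ∀ (L : ℕ) (c : G → Fin L) (B : ℝ), 0 ≤ B →
      ∀ (w w' : EuclideanSpace ℝ (Fin L)) (z z' : EuclideanSpace ℝ (Fin M)), ‖z‖ < 1 → ‖z'‖ < 1 →
        ‖w‖ ≤ B * Dz z → ‖z - z'‖ ≤ Dz z / 360 →
        ‖Xc f c w z - Xc f c w' z'‖ ≤ K * (B + 1) * ((‖w - w'‖ + ‖z - z'‖) / Dz z) := by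
  obtain ⟨K, hK0, hK⟩ := xb_near h hf
  refine ⟨K + 3, by linarith, ?_⟩
  intro L c B hB w w' z z' hz hz' hw hn
  have hD := Dz_pos hz
  have hD' := Dz_pos hz'
  obtain ⟨n1, n2⟩ := Dz_near hz hz' hn
  have h1 : Xc f c w z - Xc f c w' z' = io c (xb f z - xb f z') + (Dz z')⁻¹ • (w - w') +
      ((Dz z)⁻¹ - (Dz z')⁻¹) • w := by
    unfold Xc
    rw [io_sub, smul_sub, sub_smul]
    abel
  have e1 : ‖io c (xb f z - xb f z')‖ ≤ K * (‖z - z'‖ / Dz z) :=
    (norm_io_le c _).trans (hK z z' hz hz' hn)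
  have e0 : (Dz z')⁻¹ ≤ 101 / 100 * (Dz z)⁻¹ := by
    rw [← one_div, ← one_div, div_le_iff₀ hD', mul_assoc, mul_comm (1 / Dz z), mul_one_div,
      ← mul_div_assoc, le_div_iff₀ hD]
    linarith
  have e2 : ‖(Dz z')⁻¹ • (w - w')‖ ≤ 101 / 100 * (‖w - w'‖ / Dz z) := by
    rw [norm_smul, Real.norm_of_nonneg (inv_pos.2 hD').le]
    have g1 := mul_le_mul_of_nonneg_right e0 (norm_nonneg (w - w'))
    refine g1.trans (le_of_eq ?_)
    rw [mul_assoc, mul_comm (Dz z)⁻¹, ← div_eq_mul_inv]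
  have e3 : ‖((Dz z)⁻¹ - (Dz z')⁻¹) • w‖ ≤ 202 / 100 * B * (‖z - z'‖ / Dz z) := by
    rw [norm_smul, Real.norm_eq_abs]
    have g1 : (Dz z)⁻¹ - (Dz z')⁻¹ = (Dz z' - Dz z) * ((Dz z)⁻¹ * (Dz z')⁻¹) := by
      field_simp
    have g2 := Dz_sub_le hz hz'
    have hi := inv_pos.2 hD
    have hi' := inv_pos.2 hD'
    rw [g1, abs_mul, abs_of_pos (mul_pos hi hi')]
    have g3 : |Dz z' - Dz z| * ((Dz z)⁻¹ * (Dz z')⁻¹) ≤
        (2 * ‖z - z'‖) * ((Dz z)⁻¹ * (101 / 100 * (Dz z)⁻¹)) := by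
      refine mul_le_mul g2 ?_ (by positivity) (by positivity)
      exact mul_le_mul_of_nonneg_left e0 hi.le
    have g4 := mul_le_mul g3 hw (norm_nonneg w) (by positivity)
    refine g4.trans (le_of_eq ?_)
    field_simp
    ring
  rw [h1]
  refine (norm_add₃_le).trans ?_
  have hw0 : 0 ≤ ‖w - w'‖ / Dz z := by positivity
  have ht0 : 0 ≤ ‖z - z'‖ / Dz z := by positivity
  rw [add_div]
  have k1 : 0 ≤ K * B := by positivity
  nlinarith [mul_nonneg hK0 hw0, mul_nonneg k1 hw0, mul_nonneg k1 ht0, mul_nonneg hB hw0,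
    mul_nonneg hB ht0]

theorem Wc_near (h : HypM d) (hf : RoughSim d lam C f) :
    ∃ K : ℝ, 1 ≤ K ∧ ∀ (L : ℕ) (c : G → Fin L) (B : ℝ), 0 ≤ B →
      ∀ (X X' : EuclideanSpace ℝ (Fin L)) (z z' : EuclideanSpace ℝ (Fin M)), ‖z‖ < 1 → ‖z'‖ < 1 →
        ‖X'‖ ≤ B → ‖z - z'‖ ≤ Dz z / 360 →
        ‖Wc f c X z - Wc f c X' z'‖ ≤ Dz z * ‖X - X'‖ + K * (B + 1) * ‖z - z'‖ := by
  obtain ⟨K, hK0, hK⟩ := xb_near h hf
  refine ⟨K + 2, by linarith, ?_⟩
  intro L c B hB X X' z z' hz hz' hX hn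
  have hD := Dz_pos hz
  have hs := Dz_sub_le hz hz'
  rw [abs_sub_comm] at hs
  have h1 : Wc f c X z - Wc f c X' z' = Dz z • (X - X') + (Dz z - Dz z') • X' -
      Dz z • io c (xb f z - xb f z') - (Dz z - Dz z') • io c (xb f z') := by
    unfold Wc
    rw [io_sub]
    simp only [smul_sub, sub_smul]
    abel
  have e1 : ‖Dz z • (X - X')‖ = Dz z * ‖X - X'‖ := by
    rw [norm_smul, Real.norm_of_nonneg hD.le]
  have e2 : ‖(Dz z - Dz z') • X'‖ ≤ 2 * ‖z - z'‖ * B := by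
    rw [norm_smul, Real.norm_eq_abs]
    exact mul_le_mul hs hX (norm_nonneg _) (by positivity)
  have e3 : ‖Dz z • io c (xb f z - xb f z')‖ ≤ K * ‖z - z'‖ := by
    rw [norm_smul, Real.norm_of_nonneg hD.le]
    have g1 := mul_le_mul_of_nonneg_left ((norm_io_le c _).trans (hK z z' hz hz' hn)) hD.le
    refine g1.trans (le_of_eq ?_)
    field_simp
  have e4 : ‖(Dz z - Dz z') • io c (xb f z')‖ ≤ 2 * ‖z - z'‖ := by
    rw [norm_smul, Real.norm_eq_abs]
    have g1 : ‖io c (xb f z')‖ ≤ 1 := by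
      rw [← el_xb h hf hz']
      exact norm_io_le c _
    have := mul_le_mul hs g1 (norm_nonneg _) (by positivity)
    linarith
  rw [h1]
  refine (norm_sub_le _ _).trans ?_
  have f1 := norm_sub_le (Dz z • (X - X') + (Dz z - Dz z') • X') (Dz z • io c (xb f z - xb f z'))
  have f2 := norm_add_le (Dz z • (X - X')) ((Dz z - Dz z') • X')
  have hn0 := norm_nonneg (z - z')
  have k1 : 0 ≤ K * B := by positivity
  nlinarith [mul_nonneg k1 hn0]

theorem Ph_near (h : HypM d) (hf : RoughSim d lam C f) (c : G → Fin L) (hE : 1 ≤ E) {B : ℝ}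
    (hB : 1 ≤ B) :
    ∃ K : ℝ, 1 ≤ K ∧ ∀ (w w' : EuclideanSpace ℝ (Fin L)) (z z' : EuclideanSpace ℝ (Fin M)),
      ‖z‖ < 1 → ‖z'‖ < 1 → Ph f c E w z ≤ B → ‖w - w'‖ ≤ Dz z / 360 → ‖z - z'‖ ≤ Dz z / 360 →
      |Ph f c E w' z' - Ph f c E w z| ≤ K * ((‖w - w'‖ + ‖z - z'‖) / Dz z) := by
  obtain ⟨Kx, hKx1, hKx⟩ := Xc_near h hf
  set K1 : ℝ := Kx * (B + 1 + 1) with hK1
  have hK10 : 1 ≤ K1 := by nlinarith
  refine ⟨60 * B + 2 * (E * K1), by nlinarith, ?_⟩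
  intro w w' z z' hz hz' hPh hww hzz
  have hD := Dz_pos hz
  have hE0 : 0 ≤ E := by linarith
  have hw : ‖w‖ ≤ (B + 1) * Dz z := by
    refine (norm_w_le h hf c hE w hz).trans ?_
    exact mul_le_mul_of_nonneg_right (by linarith) hD.le
  have hX := hKx L c (B + 1) (by linarith) w w' z z' hz hz' hw hzz
  rw [← hK1] at hX
  set τ : ℝ := (‖w - w'‖ + ‖z - z'‖) / Dz z with hτ
  set t : ℝ := ‖z - z'‖ / Dz z with ht
  have ht0 : 0 ≤ t := by positivity
  have htτ : t ≤ τ := by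
    rw [ht, hτ]
    exact div_le_div_of_nonneg_right (by linarith [norm_nonneg (w - w')]) hD.le
  have ht1 : t ≤ 1 / 360 := by
    rw [ht, div_le_iff₀ hD]
    linarith
  have hτ0 : 0 ≤ τ := ht0.trans htτ
  set X := Xc f c w z with hXd
  set X' := Xc f c w' z' with hXd'
  have hom : ∀ a, |om (f a) z' - om (f a) z| ≤ 30 * t * om (f a) z := fun a =>
    om_near (hf.ball a) hz hz' (by linarith)
  have h1 : ∀ a, om (f a) z' ≤ (1 + 30 * t) * om (f a) z := fun a => by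
    have := (abs_le.1 (hom a)).2
    linarith
  have h2 : ∀ a, om (f a) z ≤ (1 + 60 * t) * om (f a) z' := fun a => by
    have g1 := (abs_le.1 (hom a)).1
    have g2 := om_pos (hf.ball a) hz
    have g3 : (1 - 30 * t) * om (f a) z ≤ om (f a) z' := by linarith
    have g4 := mul_le_mul_of_nonneg_left g3 (show 0 ≤ 1 + 60 * t by positivity)
    have g5 : om (f a) z ≤ (1 + 60 * t) * ((1 - 30 * t) * om (f a) z) := by
      have g6 : 0 ≤ (30 * t * (1 - 60 * t)) * om (f a) z :=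
        mul_nonneg (mul_nonneg (by positivity) (by linarith)) g2.le
      nlinarith
    linarith
  have hEK : 0 ≤ E * K1 * τ := by positivity
  have hEX : E * ‖X - X'‖ ≤ E * K1 * τ := by
    have := mul_le_mul_of_nonneg_left hX hE0
    linarith
  rw [Ph_eq, Ph_eq] at *
  have a1 := Phi_scale (c := c) (E := E) hf hE0 hz' (by linarith : (1 : ℝ) ≤ 1 + 30 * t) h1 X'
  have a2 := Phi_lip (c := c) hf hE0 hz X X'
  have b1 := Phi_scale (c := c) (E := E) hf hE0 hz (by linarith : (1 : ℝ) ≤ 1 + 60 * t) h2 X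
  have b2 := Phi_lip (c := c) hf hE0 hz' X' X
  rw [norm_sub_rev] at b2
  have a3 : Phi f c E (X', z') ≤ (1 + 30 * t) * (Phi f c E (X, z) + E * K1 * τ) :=
    a1.trans (mul_le_mul_of_nonneg_left (by linarith) (by positivity))
  have b3 : Phi f c E (X, z) ≤ (1 + 60 * t) * (Phi f c E (X', z') + E * K1 * τ) :=
    b1.trans (mul_le_mul_of_nonneg_left (by linarith) (by positivity))
  have hBτ : 0 ≤ B * τ := by positivity
  have htE : t * (E * K1 * τ) ≤ 1 / 360 * (E * K1 * τ) := mul_le_mul_of_nonneg_right ht1 hEK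
  rw [abs_le]
  constructor
  · rcases le_total (Phi f c E (X, z)) (Phi f c E (X', z')) with hle | hle
    · have : 0 ≤ (60 * B + 2 * (E * K1)) * τ := by positivity
      linarith
    · have g1 : t * Phi f c E (X', z') ≤ t * B := mul_le_mul_of_nonneg_left (by linarith) ht0
      have g2 : t * B ≤ B * τ := by nlinarith
      nlinarith
  · have g1 : t * Phi f c E (X, z) ≤ t * B := mul_le_mul_of_nonneg_left hPh ht0
    have g2 : t * B ≤ B * τ := by nlinarith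
    nlinarith

theorem Ph_continuousOn (h : HypM d) (hf : RoughSim d lam C f) (c : G → Fin L) (hE : 1 ≤ E) :
    ContinuousOn (fun p : EuclideanSpace ℝ (Fin L) × EuclideanSpace ℝ (Fin M) => Ph f c E p.1 p.2)
      {p | ‖p.2‖ < 1} := by
  intro p hp
  have hp' : ‖p.2‖ < 1 := hp
  have hD := Dz_pos hp'
  obtain ⟨K, hK1, hK⟩ := Ph_near h hf c hE (le_max_left 1 (Ph f c E p.1 p.2))
  rw [Metric.continuousWithinAt_iff]
  intro ε hε
  refine ⟨min (Dz p.2 / 360) (ε * Dz p.2 / (4 * K)), by positivity, ?_⟩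
  intro x hx hxp
  have hx' : ‖x.2‖ < 1 := hx
  rw [Prod.dist_eq, max_lt_iff, dist_comm, dist_comm x.2, dist_eq_norm, dist_eq_norm] at hxp
  obtain ⟨hx1, hx2⟩ := hxp
  have a1 := lt_min_iff.1 hx1
  have a2 := lt_min_iff.1 hx2
  have h1 := hK p.1 x.1 p.2 x.2 hp' hx' (le_max_right _ _) a1.1.le a2.1.le
  rw [Real.dist_eq]
  refine lt_of_le_of_lt h1 ?_
  have hK0 : 0 < K := by linarith
  have h2 : ‖p.1 - x.1‖ + ‖p.2 - x.2‖ < 2 * (ε * Dz p.2 / (4 * K)) := by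
    linarith [a1.2, a2.2]
  have h3 : K * ((‖p.1 - x.1‖ + ‖p.2 - x.2‖) / Dz p.2) <
      K * (2 * (ε * Dz p.2 / (4 * K)) / Dz p.2) :=
    mul_lt_mul_of_pos_left (div_lt_div_of_pos_right h2 hD) hK0
  refine h3.trans_le ?_
  have h4 : K * (2 * (ε * Dz p.2 / (4 * K)) / Dz p.2) = ε / 2 := by
    field_simp
    norm_num
  rw [h4]
  linarith

theorem Ph_ray_cont (h : HypM d) (hf : RoughSim d lam C f) (c : G → Fin L) (hE : 1 ≤ E)
    (w : EuclideanSpace ℝ (Fin L)) {z : EuclideanSpace ℝ (Fin M)} (hz : ‖z‖ < 1) :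
    ContinuousOn (fun s : ℝ => Ph f c E (s • w) (s • z)) (Set.Icc 0 1) := by
  have h1 := Ph_continuousOn h hf c hE
  refine h1.comp (f := fun s : ℝ => (s • w, s • z)) ?_ ?_
  · exact Continuous.continuousOn (by fun_prop)
  · intro s hs
    exact norm_smul_lt hs.1 hs.2 hz

theorem Ph_zero (h : HypM d) (hf : RoughSim d lam C f) (c : G → Fin L) (hE : 0 ≤ E) :
    Ph f c E 0 0 ≤ 11 / 10 := by
  have hz : ‖(0 : EuclideanSpace ℝ (Fin M))‖ < 1 := by simp
  rw [Ph_eq]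
  have h1 := Phi_le (c := c) (E := E) hf hE hz (Xc f c 0 0) (xb f 0) (tot_xb h hf hz)
  refine h1.trans ?_
  have h2 : Xc f c 0 (0 : EuclideanSpace ℝ (Fin M)) - io c (xb f 0) = 0 := by
    unfold Xc
    rw [smul_zero, add_zero, sub_self]
  rw [h2, norm_zero, mul_zero, add_zero]
  have h3 := cst_le_el (w := fun a => om (f a) (0 : EuclideanSpace ℝ (Fin M)))
    (W := 11 / 10 * mz f 0) (xb f 0) (fun a ha => xb_supp h hf hz ha)
  rw [el_xb h hf hz, mul_one] at h3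
  have h4 := mz_le hf hz 1
  have h5 : om (f 1) (0 : EuclideanSpace ℝ (Fin M)) = 1 := by
    rw [hf.one]
    simp [om, qd]
  linarith

end Pool.HQ
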