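import Pool.Agent.HQ.SPhi

/-!
MODULE SLoc (MP_7936f4_al, star-shapedness block): local radial decrease of Ph.

PROOF of dec_exists.  r = rr s z, x = 1 - r.  The case s = 1 is trivial (rr 1 z = 1).  If s < 1 then
(le_one_sub_rr) x >= 2/3 (1-s)/Dz z > 0 and (one_sub_rr_le) x <= 2 (1-s)/Dz z <= 1/180.  By smul_coord
the left side is Phi (r X + (1-r) io (ur f s z), s z), X = io (xb f z) + w / Dz z; tot (ur f s z) = 1.
Let m1 be the constant of outer_xb with epsilon = 1/100.
OUTER REGION m1 <= mz f z.  Phi_comb with theta = 1 - x/4: for every psi with tot psi = 1, with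
A = cst psi >= mz f z (mz_le_cst), B = E |X - io psi| >= 0:
 left <= r (theta A + B) + x cst(om(f a)(s z)) (ur), and cst(...) (ur) <= 11/10 mz f z * el (ur)
 <= 11/10 * 101/100 * mz f z <= 1111/1000 A (ur_supp: if om(f a)(s z) <= 11/10 mz(s z), use
 mz(s z) <= mz z, from the first part of outer_xb; otherwise om(f a)(s z) <= om (f a) z <= 11/10 mz z;
 el_ur and the second part of outer_xb).  Now (1-x)(1-x/4) + 1.111 x <= 1 - x/20 and 1 - x <= 1 - x/20,
 hence left <= (1 - x/20)(A + B) for all psi; divide by 1 - x/20 > 0 and use le_Phi.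
INNER REGION mz f z <= m1.  om_smul_le: om(f a)(s z) <= theta om(f a) z, theta = 1/sqrt r (take squares), and
 r theta = sqrt r <= 1 - x/2, theta <= 3/2.  cst(om(f a)(s z)) (ur) <= 3/2 * 11/10 * m1 * el (ur) and
 el (ur) <= 1 + K (1-s)/(x Dz z) <= 1 + 3/2 K (K from xb_near, |z - s z| <= 1 - s, le_one_sub_rr).
 With K' = 1.65 m1 (1 + 1.5 K): left <= (1 - x/2)(A+B) + x K' for all psi, so
 left <= (1 - x/2) Ph + x K' (le_Phi), and K' <= Ph/3 gives left <= (1 - x/6) Ph <= (1 - x/20) Ph.
C0 = max 1 (3 K').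
-/

namespace Pool.HQ

variable {G : Type} [Group G] {d : G → G → ℕ} {M : ℕ} {lam C : ℝ}
  {f : G → EuclideanSpace ℝ (Fin M)}

omit [Group G] in
/-- Local radial decrease above the level C0. -/
def Dec {L : ℕ} (f : G → EuclideanSpace ℝ (Fin M)) (c : G → Fin L) (E C0 : ℝ) : Prop :=
  ∀ (w : EuclideanSpace ℝ (Fin L)) (z : EuclideanSpace ℝ (Fin M)), ‖z‖ < 1 → C0 ≤ Ph f c E w z →
    ∀ s : ℝ, s ≤ 1 → 1 - s ≤ Dz z / 360 →
      Ph f c E (s • w) (s • z) ≤ (1 - (1 - rr s z) / 20) * Ph f c E w z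

omit [Group G] in
private theorem el_sub_comm (u v : G →₀ ℝ) : el (u - v) = el (v - u) := by
  have : u - v = (-1 : ℝ) • (v - u) := by
    rw [neg_smul, one_smul, neg_sub]
  rw [this, el_smul, abs_neg, abs_one, one_mul]

theorem dec_exists (h : HypM d) (hf : RoughSim d lam C f) :
    ∃ C0 : ℝ, 1 ≤ C0 ∧ ∀ (L : ℕ) (c : G → Fin L) (E : ℝ), 0 ≤ E → Dec f c E C0 := by
  obtain ⟨K, hK0, hK⟩ := xb_near h hf
  obtain ⟨m1, hm1, ho⟩ := outer_xb h hf (ε := 1 / 100) (by norm_num)
  refine ⟨max 1 (3 * (33 / 20 * m1 * (1 + 3 / 2 * K))), le_max_left _ _, ?_⟩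
  intro L c E hE w z hz hC s hs1 hs
  have hD := Dz_pos hz
  have hs4 : 1 - s ≤ Dz z / 4 := by linarith
  have hs0 : 0 < s := by have := s_pos_of hs4; linarith
  have hPpos : 1 ≤ Ph f c E w z := (le_max_left _ _).trans hC
  have hPK : 3 * (33 / 20 * m1 * (1 + 3 / 2 * K)) ≤ Ph f c E w z := (le_max_right _ _).trans hC
  rcases hs1.eq_or_lt with rfl | hslt
  · have hr1 : rr 1 z = 1 := by
      unfold rr
      rw [one_smul, one_mul, div_self hD.ne']
    rw [hr1, one_smul, one_smul]
    linarith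
  have hsz := norm_smul_lt hs0.le hs1 hz
  have hx1 := le_one_sub_rr hs0 hs1 hz hs4
  have hx2 := one_sub_rr_le hs0 hs1 hz
  have hq0 : 0 < (1 - s) / Dz z := div_pos (by linarith) hD
  have hq1 : (1 - s) / Dz z ≤ 1 / 360 := by
    rw [div_le_div_iff₀ hD (by norm_num)]
    linarith
  have hr0 := rr_pos hs0 hs1 hz
  have hrlt : rr s z < 1 := by linarith
  have hrle : rr s z ≤ 1 := hrlt.le
  have hx0 : 0 < 1 - rr s z := by linarith
  have hxs : 1 - rr s z ≤ 1 / 180 := by linarith
  have htu := tot_ur h hf hs0 hs1 hz hrlt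
  have heu := el_ur h hf hs0 hs1 hz hrlt
  have hPh : Ph f c E (s • w) (s • z) =
      Phi f c E (rr s z • (io c (xb f z) + (Dz z)⁻¹ • w) + (1 - rr s z) • io c (ur f s z),
        s • z) := by
    unfold Ph
    rw [smul_coord hf hs0 hs1 hz hrlt w]
  have hmz1 := one_le_mz hf hz
  rcases le_total m1 (mz f z) with hm | hm
  · -- outer region
    obtain ⟨ho1, ho2⟩ := ho z hz hm s hs1 hs4
    have hmono : ∀ a, om (f a) (s • z) ≤ om (f a) z := fun a => by
      have h1 := ho1 a
      have h2 := om_pos (hf.ball a) hz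
      have h3 := mul_nonneg hx0.le h2.le
      linarith
    have hmm : mz f (s • z) ≤ mz f z := le_mz fun a => (mz_le hf hsz a).trans (hmono a)
    have hcu : cst (fun a => om (f a) (s • z)) (ur f s z) ≤ 11 / 10 * mz f z * el (ur f s z) :=
      cst_le_el _ fun a ha => by
        rcases ur_supp h hf hs0 hs1 hz ha with h1 | h1
        · exact h1.trans (by linarith)
        · exact (hmono a).trans h1
    have hel : el (ur f s z) ≤ 101 / 100 := by
      have h1 := mul_le_mul_of_nonneg_left ho2 (inv_pos.mpr hx0).le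
      have h2 : (1 - rr s z)⁻¹ * (1 / 100 * (1 - rr s z)) = 1 / 100 := by
        field_simp
      linarith
    have hcu2 : cst (fun a => om (f a) (s • z)) (ur f s z) ≤ 1111 / 1000 * mz f z := by
      have := mul_le_mul_of_nonneg_left hel (by linarith : 0 ≤ 11 / 10 * mz f z)
      linarith
    have hpos : 0 < 1 - (1 - rr s z) / 20 := by linarith
    have key : Ph f c E (s • w) (s • z) / (1 - (1 - rr s z) / 20) ≤ Ph f c E w z := by
      rw [hPh]
      unfold Ph
      refine le_Phi fun ψ hψ => ?_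
      rw [div_le_iff₀ hpos]
      have h1 := Phi_comb (c := c) (z' := s • z) hf hE hsz hr0.le hrle
        (θ := 1 - (1 - rr s z) / 4) ho1 (io c (xb f z) + (Dz z)⁻¹ • w) (ur f s z) htu ψ hψ
      refine h1.trans ?_
      have h2 := mz_le_cst hf hz hψ
      have h3 : 0 ≤ E * ‖io c (xb f z) + (Dz z)⁻¹ • w - io c ψ‖ :=
        mul_nonneg hE (norm_nonneg _)
      set A := cst (fun a => om (f a) z) ψ
      set B := E * ‖io c (xb f z) + (Dz z)⁻¹ • w - io c ψ‖
      set U := cst (fun a => om (f a) (s • z)) (ur f s z)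
      obtain ⟨x, hx⟩ : ∃ x, x = 1 - rr s z := ⟨_, rfl⟩
      have hrx : rr s z = 1 - x := by linarith
      rw [← hx] at hx0 hxs hpos
      rw [hrx]
      have h4 : U ≤ 1111 / 1000 * A := by linarith
      have hA : 1 ≤ A := by linarith
      have h5 : x * U ≤ x * (1111 / 1000 * A) := mul_le_mul_of_nonneg_left h4 hx0.le
      have h6 : x * x * A ≤ 1 / 180 * (x * A) := by
        have := mul_le_mul_of_nonneg_right hxs (mul_nonneg hx0.le (by linarith : (0:ℝ) ≤ A))
        linarith
      have h7 : 0 < x * A := mul_pos hx0 (by linarith)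
      have h8 : 0 ≤ x * B := mul_nonneg hx0.le h3
      linarith
    rwa [div_le_iff₀' hpos] at key
  · -- inner region
    obtain ⟨q, hq⟩ : ∃ q, q = Real.sqrt (rr s z) := ⟨_, rfl⟩
    have hq2 : q ^ 2 = rr s z := by rw [hq]; exact Real.sq_sqrt hr0.le
    have hqpos : 0 < q := by rw [hq]; exact Real.sqrt_pos.mpr hr0
    have hqle : q ≤ 1 - (1 - rr s z) / 2 := by
      linarith [sq_nonneg (1 - q)]
    have hqge : 2 / 3 ≤ q := by
      by_contra hcon
      push Not at hcon
      have h1 : q ^ 2 < (2 / 3) ^ 2 := pow_lt_pow_left₀ hcon hqpos.le (by norm_num)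
      rw [hq2] at h1
      norm_num at h1
      linarith
    have hθ : ∀ a, om (f a) (s • z) ≤ q⁻¹ * om (f a) z := fun a => by
      have h1 := om_smul_le hs0 hs1 (hf.ball a) hz
      have h2 := om_pos (hf.ball a) hz
      have h3 := om_pos (hf.ball a) hsz
      have h4 : q * om (f a) (s • z) ≤ om (f a) z := by
        refine (sq_le_sq₀ (mul_nonneg hqpos.le h3.le) h2.le).mp ?_
        rw [mul_pow, hq2]; exact h1
      rw [inv_mul_eq_div, le_div_iff₀' hqpos]
      exact h4
    have hqinv : q⁻¹ ≤ 3 / 2 := by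
      rw [inv_le_comm₀ hqpos (by norm_num)]
      norm_num; linarith
    have hcu : cst (fun a => om (f a) (s • z)) (ur f s z) ≤ 33 / 20 * m1 * el (ur f s z) :=
      cst_le_el _ fun a ha => by
        rcases ur_supp h hf hs0 hs1 hz ha with h1 | h1
        · have h2 := mz_smul_le hf hs0 hs1 hz hs4
          linarith
        · have h2 := om_pos (hf.ball a) hz
          have h3 := hθ a
          have h4 := mul_le_mul_of_nonneg_right hqinv h2.le
          linarith
    have hel : el (ur f s z) ≤ 1 + 3 / 2 * K := by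
      have hnorm : ‖z - s • z‖ ≤ 1 - s := by
        have e : z - s • z = (1 - s) • z := by rw [sub_smul, one_smul]
        rw [e, norm_smul, Real.norm_of_nonneg (by linarith)]
        exact mul_le_of_le_one_right (by linarith) hz.le
      have h1 := hK z (s • z) hz hsz (hnorm.trans hs)
      rw [el_sub_comm] at h1
      have h2 : ‖z - s • z‖ / Dz z ≤ 3 / 2 * (1 - rr s z) := by
        have := div_le_div_of_nonneg_right hnorm hD.le
        linarith
      have h3 : el (xb f (s • z) - xb f z) ≤ K * (3 / 2 * (1 - rr s z)) :=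
        h1.trans (mul_le_mul_of_nonneg_left h2 hK0)
      have h4 := mul_le_mul_of_nonneg_left h3 (inv_pos.mpr hx0).le
      have h5 : (1 - rr s z)⁻¹ * (K * (3 / 2 * (1 - rr s z))) = 3 / 2 * K := by
        field_simp
      linarith
    have hcu2 : cst (fun a => om (f a) (s • z)) (ur f s z) ≤
        33 / 20 * m1 * (1 + 3 / 2 * K) :=
      hcu.trans (mul_le_mul_of_nonneg_left hel (by linarith))
    obtain ⟨K', hK'⟩ : ∃ K', K' = 33 / 20 * m1 * (1 + 3 / 2 * K) := ⟨_, rfl⟩
    rw [← hK'] at hcu2 hPK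
    have hpos : 0 < 1 - (1 - rr s z) / 2 := by linarith
    have key : (Ph f c E (s • w) (s • z) - (1 - rr s z) * K') / (1 - (1 - rr s z) / 2) ≤
        Ph f c E w z := by
      rw [hPh]
      unfold Ph
      refine le_Phi fun ψ hψ => ?_
      rw [div_le_iff₀ hpos, sub_le_iff_le_add]
      have h1 := Phi_comb (c := c) (z' := s • z) hf hE hsz hr0.le hrle
        (θ := q⁻¹) hθ (io c (xb f z) + (Dz z)⁻¹ • w) (ur f s z) htu ψ hψ
      refine h1.trans ?_
      have h2 := mz_le_cst hf hz hψ
      have h3 : 0 ≤ E * ‖io c (xb f z) + (Dz z)⁻¹ • w - io c ψ‖ :=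
        mul_nonneg hE (norm_nonneg _)
      set A := cst (fun a => om (f a) z) ψ
      set B := E * ‖io c (xb f z) + (Dz z)⁻¹ • w - io c ψ‖
      set U := cst (fun a => om (f a) (s • z)) (ur f s z)
      have e1 : rr s z * (q⁻¹ * A + B) = q * A + rr s z * B := by
        rw [← hq2]; field_simp
      rw [e1]
      have hA : 0 ≤ A := by linarith
      have h5 := mul_le_mul_of_nonneg_left hcu2 hx0.le
      have h6 := mul_le_mul_of_nonneg_right hqle hA
      have h7 : rr s z * B ≤ (1 - (1 - rr s z) / 2) * B :=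
        mul_le_mul_of_nonneg_right (by linarith) h3
      linarith
    rw [div_le_iff₀' hpos] at key
    have h8 : (1 - rr s z) * K' ≤ (1 - rr s z) * (Ph f c E w z / 3) :=
      mul_le_mul_of_nonneg_left (by linarith) hx0.le
    have h9 : 0 ≤ (1 - rr s z) * Ph f c E w z := mul_nonneg hx0.le (by linarith)
    linarith

end Pool.HQ
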