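import Pool.Agent.HQ.SHull

/-!
MODULE SMin (MP_7936f4_al, star-shapedness block): the minimum mz of om (f a) z over the group.
-/

namespace Pool.HQ

variable {G : Type} [Group G] {d : G → G → ℕ} {M : ℕ} {lam C : ℝ}
  {f : G → EuclideanSpace ℝ (Fin M)}

/-- inf over a of om (f a) z. -/
noncomputable def mz (f : G → EuclideanSpace ℝ (Fin M)) (z : EuclideanSpace ℝ (Fin M)) : ℝ :=
  ⨅ a, om (f a) z

theorem mz_le (hf : RoughSim d lam C f) {z : EuclideanSpace ℝ (Fin M)} (hz : ‖z‖ < 1) (a : G) :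
    mz f z ≤ om (f a) z :=
  ciInf_le ⟨0, by rintro _ ⟨b, rfl⟩; exact (om_pos (hf.ball b) hz).le⟩ a

theorem le_mz {z : EuclideanSpace ℝ (Fin M)} {t : ℝ} (h : ∀ a, t ≤ om (f a) z) : t ≤ mz f z :=
  le_ciInf h

theorem one_le_mz (hf : RoughSim d lam C f) {z : EuclideanSpace ℝ (Fin M)} (hz : ‖z‖ < 1) :
    1 ≤ mz f z := le_mz fun a => one_le_om (hf.ball a) hz

theorem exists_lt_mz (hf : RoughSim d lam C f) {z : EuclideanSpace ℝ (Fin M)} (hz : ‖z‖ < 1) :
    ∃ a, om (f a) z ≤ 101 / 100 * mz f z := by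
  have h1 := one_le_mz hf hz
  obtain ⟨a, ha⟩ := exists_lt_of_ciInf_lt (show mz f z < 101 / 100 * mz f z by linarith)
  exact ⟨a, ha.le⟩

theorem fin_om (h : HypM d) (hf : RoughSim d lam C f) {z : EuclideanSpace ℝ (Fin M)} (hz : ‖z‖ < 1)
    (T : ℝ) : {a | om (f a) z ≤ T}.Finite := by
  have hC := hf.C_pos
  have hl := hf.lam_pos
  obtain ⟨n, hn⟩ := exists_nat_ge (Real.log (C * (5 * (|T| * om z (f 1))) ^ 2 + 1) / lam)
  refine (h.fin n).subset ?_
  intro a ha
  simp only [Set.mem_ofPred_eq] at ha ⊢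
  have h1 := om_tri (hf.ball a) hz (hf.ball 1)
  have h0 := om_pos hz (hf.ball 1)
  have h2 : om (f a) (f 1) ≤ 5 * (|T| * om z (f 1)) := by
    refine h1.trans ?_
    have := mul_le_mul_of_nonneg_right (ha.trans (le_abs_self T)) h0.le
    linarith
  have h3 := hf.le_om_sq a 1
  have h4 : om (f a) (f 1) ^ 2 ≤ (5 * (|T| * om z (f 1))) ^ 2 :=
    pow_le_pow_left₀ (om_pos (hf.ball a) (hf.ball 1)).le h2 2
  have h5 : Real.exp (lam * d a 1) ≤ C * (5 * (|T| * om z (f 1))) ^ 2 := by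
    have := mul_le_mul_of_nonneg_left (h3.trans h4) hC.le
    rwa [← mul_assoc, mul_inv_cancel₀ hC.ne', one_mul] at this
  have h6 : lam * d a 1 ≤ Real.log (C * (5 * (|T| * om z (f 1))) ^ 2 + 1) := by
    rw [Real.le_log_iff_exp_le (by positivity)]
    linarith
  have h7 : (d a 1 : ℝ) ≤ n := by
    refine le_trans ?_ hn
    rw [le_div_iff₀ hl]; linarith
  rw [h.symm 1 a]
  exact_mod_cast h7

/-- The set of near-minimisers has bounded diameter. -/
theorem diam_near (h : HypM d) (hf : RoughSim d lam C f) :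
    ∃ D : ℕ, ∀ z : EuclideanSpace ℝ (Fin M), ‖z‖ < 1 → ∀ a b, om (f a) z ≤ 2 * mz f z →
      om (f b) z ≤ 2 * mz f z → d a b ≤ D := by
  have hC := hf.C_pos
  have hC1 := hf.one_le
  have hl := hf.lam_pos
  obtain ⟨n, hn⟩ := exists_nat_ge (2 * Real.log (200 * C) / lam)
  refine ⟨2 * n + 1, ?_⟩
  intro z hz a b ha hb
  set k := d a b / 2 with hk
  obtain ⟨c, hc1, hc2⟩ := h.geo a b k (Nat.div_le_self _ _)
  have hm := one_le_mz hf hz
  have four := om_four (hf.ball a) (hf.ball b) (hf.ball c) hz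
  have oab := om_pos (hf.ball a) (hf.ball b)
  have oac := om_pos (hf.ball a) (hf.ball c)
  have obc := om_pos (hf.ball b) (hf.ball c)
  have oaz := om_pos (hf.ball a) hz
  have obz := om_pos (hf.ball b) hz
  -- exponents
  set D : ℝ := (d a b : ℝ) with hD
  have hk2 : (k : ℝ) ≤ D / 2 := by
    have : 2 * k ≤ d a b := by omega
    have : (2 : ℝ) * k ≤ d a b := by exact_mod_cast this
    linarith
  have hDk : (d b c : ℝ) = D - k := by
    rw [h.symm b c, hc2, Nat.cast_sub (Nat.div_le_self _ _)]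
  set S := Real.sqrt C with hS
  have hS0 : 0 < S := Real.sqrt_pos.mpr hC
  have hSS : S ^ 2 = C := Real.sq_sqrt hC.le
  have b1 : om (f a) (f c) ≤ S * Real.exp (lam * (D - k) / 2) := by
    refine le_of_sq_le_sq ?_ (by positivity)
    rw [mul_pow, hSS, ← Real.exp_nat_mul]
    refine (hf.om_sq_le a c).trans (mul_le_mul_of_nonneg_left ?_ hC.le)
    rw [Real.exp_le_exp, hc1]
    push_cast
    nlinarith
  have b2 : om (f b) (f c) ≤ S * Real.exp (lam * (D - k) / 2) := by
    refine le_of_sq_le_sq ?_ (by positivity)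
    rw [mul_pow, hSS, ← Real.exp_nat_mul]
    refine (hf.om_sq_le b c).trans (mul_le_mul_of_nonneg_left ?_ hC.le)
    rw [Real.exp_le_exp, hDk]
    push_cast
    linarith
  have b3 : Real.exp (lam * D / 2) ≤ S * om (f a) (f b) := by
    refine le_of_sq_le_sq ?_ (by positivity)
    rw [mul_pow, hSS, ← Real.exp_nat_mul]
    have := mul_le_mul_of_nonneg_left (hf.le_om_sq a b) hC.le
    rw [← mul_assoc, mul_inv_cancel₀ hC.ne', one_mul] at this
    refine le_trans (le_of_eq ?_) this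
    congr 1; push_cast; ring
  have hmax : max (om (f a) (f c) * om (f b) z) (om (f a) z * om (f b) (f c)) ≤
      S * Real.exp (lam * (D - k) / 2) * (2 * mz f z) := by
    refine max_le ?_ ?_
    · exact mul_le_mul b1 hb obz.le (by positivity)
    · rw [mul_comm]
      exact mul_le_mul b2 ha oaz.le (by positivity)
  have hmc := mz_le hf hz c
  have k1 : om (f a) (f b) * mz f z ≤ 100 * (S * Real.exp (lam * (D - k) / 2) * (2 * mz f z)) := by
    calc om (f a) (f b) * mz f z ≤ om (f a) (f b) * om (f c) z :=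
          mul_le_mul_of_nonneg_left hmc oab.le
      _ ≤ _ := four.trans (mul_le_mul_of_nonneg_left hmax (by norm_num))
  have k2 : om (f a) (f b) ≤ 200 * (S * Real.exp (lam * (D - k) / 2)) := by
    have h0 : 0 < mz f z := by linarith
    refine le_of_mul_le_mul_right ?_ h0
    linarith
  have k3 : Real.exp (lam * D / 2) ≤ 200 * C * Real.exp (lam * (D - k) / 2) := by
    calc Real.exp (lam * D / 2) ≤ S * om (f a) (f b) := b3
      _ ≤ S * (200 * (S * Real.exp (lam * (D - k) / 2))) := mul_le_mul_of_nonneg_left k2 hS0.le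
      _ = 200 * S ^ 2 * Real.exp (lam * (D - k) / 2) := by ring
      _ = _ := by rw [hSS]
  have k4 : Real.exp (lam * k / 2) ≤ 200 * C := by
    have e : Real.exp (lam * D / 2) = Real.exp (lam * k / 2) * Real.exp (lam * (D - k) / 2) := by
      rw [← Real.exp_add]; congr 1; ring
    rw [e] at k3
    exact le_of_mul_le_mul_right k3 (Real.exp_pos _)
  have k5 : lam * k / 2 ≤ Real.log (200 * C) := by
    rw [Real.le_log_iff_exp_le (by positivity)]; exact k4
  have k6 : (k : ℝ) ≤ n := by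
    refine le_trans ?_ hn
    rw [le_div_iff₀ hl]; linarith
  have k7 : k ≤ n := by exact_mod_cast k6
  omega

theorem mz_near (hf : RoughSim d lam C f) {z z' : EuclideanSpace ℝ (Fin M)} (hz : ‖z‖ < 1)
    (hz' : ‖z'‖ < 1) (h : ‖z - z'‖ ≤ Dz z / 60) :
    |mz f z' - mz f z| ≤ 30 * (‖z - z'‖ / Dz z) * mz f z := by
  have hD := Dz_pos hz
  set t := ‖z - z'‖ / Dz z with ht
  have ht0 : 0 ≤ t := div_nonneg (norm_nonneg _) hD.le
  have ht1 : t ≤ 1 / 60 := by rw [ht, div_le_iff₀ hD]; linarith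
  have hm := one_le_mz hf hz
  have lo : (1 - 30 * t) * mz f z ≤ mz f z' := by
    refine le_mz fun a => ?_
    have h1 := (abs_le.mp (om_near (hf.ball a) hz hz' h)).1
    have h2 := mz_le hf hz a
    have h3 : (1 - 30 * t) * mz f z ≤ (1 - 30 * t) * om (f a) z :=
      mul_le_mul_of_nonneg_left h2 (by linarith)
    rw [← ht] at h1
    linarith
  have hi : mz f z' ≤ (1 + 30 * t) * mz f z := by
    have h30 : 0 < 1 + 30 * t := by linarith
    rw [← div_le_iff₀' h30]
    refine le_mz fun a => ?_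
    rw [div_le_iff₀' h30]
    have h1 := (abs_le.mp (om_near (hf.ball a) hz hz' h)).2
    have h2 := mz_le hf hz' a
    rw [← ht] at h1
    linarith
  rw [abs_le]
  constructor <;> linarith

theorem mz_smul_le (hf : RoughSim d lam C f) {s : ℝ} (hs : 0 < s) (hs1 : s ≤ 1)
    {z : EuclideanSpace ℝ (Fin M)} (hz : ‖z‖ < 1) (h : 1 - s ≤ Dz z / 4) :
    mz f (s • z) ≤ 3 / 2 * mz f z := by
  have hsz := norm_smul_lt hs.le hs1 hz
  rw [← div_le_iff₀' (by norm_num)]
  refine le_mz fun a => ?_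
  rw [div_le_iff₀' (by norm_num)]
  refine (mz_le hf hsz a).trans ?_
  have h1 := om_smul_le hs hs1 (hf.ball a) hz
  have h2 := half_le_rr hs hs1 hz h
  have h3 := om_pos (hf.ball a) hz
  have h4 := om_pos (hf.ball a) hsz
  refine le_of_sq_le_sq ?_ (by positivity)
  nlinarith [sq_nonneg (om (f a) (s • z)), sq_nonneg (om (f a) z)]

end Pool.HQ
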