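import Pool.Agent.HQ.SBar

/-!
MODULE SOuter (MP_7936f4_al, star-shapedness block): radial estimates far from the image of f.
-/

namespace Pool.HQ

variable {G : Type} [Group G] {d : G → G → ℕ} {M : ℕ} {lam C : ℝ}
  {f : G → EuclideanSpace ℝ (Fin M)}

theorem s_pos_of {z : EuclideanSpace ℝ (Fin M)} {s : ℝ} (h : 1 - s ≤ Dz z / 4) : 3 / 4 ≤ s := by
  have := Dz_le_one z
  linarith

theorem outer_om (h : HypM d) (hf : RoughSim d lam C f) {ε : ℝ} (hε : 0 < ε) :
    ∃ m1 : ℝ, 1 ≤ m1 ∧ ∀ z : EuclideanSpace ℝ (Fin M), ‖z‖ < 1 → m1 ≤ mz f z →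
      ∀ s : ℝ, s ≤ 1 → 1 - s ≤ Dz z / 4 → ∀ a,
        om (f a) (s • z) ^ 2 ≤ rr s z * (1 + ε * (1 - rr s z)) * om (f a) z ^ 2 := by
  set K : ℝ := 1 + 5 / ε with hKdef
  have hK1 : 1 ≤ K := by
    have : 0 ≤ 5 / ε := by positivity
    linarith
  have hK2 : 5 / ε ≤ K ^ 2 := by
    have : 0 ≤ 5 / ε := by positivity
    nlinarith
  obtain ⟨m0, hm0, hull⟩ := hf.hull h K hK1
  refine ⟨m0 + (1 + 4 / ε), ?_, ?_⟩
  · have : 0 ≤ 4 / ε := by positivity
    linarith
  intro z hz hmz s hs1 hs a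
  have h4 : 0 ≤ 4 / ε := by positivity
  have hs34 := s_pos_of hs
  have hs0 : 0 < s := by linarith
  have hx := hf.ball a
  have hN := Nz_pos hx hz
  have hDx := Dz_pos hx
  have hDz := Dz_pos hz
  have hfar : ∀ b, m0 ≤ om (f b) z := fun b => by
    have := mz_le hf hz b; linarith
  have h1 := hull z hz hfar a
  have hom : 1 + 4 / ε ≤ om (f a) z := by
    have := mz_le hf hz a; linarith
  have hom2 : 4 / ε ≤ om (f a) z ^ 2 := by nlinarith
  have h2 : Dz (f a) * Dz z * (4 / ε) ≤ Nz (f a) z := by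
    rw [om_sq hx hz, le_div_iff₀ (by positivity)] at hom2
    linarith
  have h2' : Dz (f a) * Dz z ≤ ε / 4 * Nz (f a) z := by
    have := mul_le_mul_of_nonneg_left h2 (by positivity : 0 ≤ ε / 4)
    have e : ε / 4 * (Dz (f a) * Dz z * (4 / ε)) = Dz (f a) * Dz z := by field_simp
    rw [e] at this; exact this
  have h1' : Dz z ^ 2 ≤ ε / 5 * Nz (f a) z := by
    have a1 : 5 / ε * Dz z ^ 2 ≤ Nz (f a) z :=
      (mul_le_mul_of_nonneg_right hK2 (sq_nonneg _)).trans h1
    have := mul_le_mul_of_nonneg_left a1 (by positivity : 0 ≤ ε / 5)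
    have e : ε / 5 * (5 / ε * Dz z ^ 2) = Dz z ^ 2 := by field_simp
    rw [e] at this; exact this
  -- the numerator
  set q := 1 - s * ‖f a‖ ^ 2 * ‖z‖ ^ 2 with hq
  have hq1 : q ≤ (1 - s) + Dz (f a) + Dz z := by
    have e : (1 - s) + Dz (f a) + Dz z - q =
        (1 - ‖f a‖ ^ 2) * (1 - ‖z‖ ^ 2) + (1 - s) * (1 - ‖f a‖ ^ 2 * ‖z‖ ^ 2) := by
      rw [hq]; unfold Dz; ring
    have e1 : 0 ≤ (1 - ‖f a‖ ^ 2) * (1 - ‖z‖ ^ 2) := (mul_pos hDx hDz).le
    have e2 : 0 ≤ (1 - s) * (1 - ‖f a‖ ^ 2 * ‖z‖ ^ 2) := by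
      refine mul_nonneg (by linarith) ?_
      have c1 : ‖f a‖ ^ 2 ≤ 1 := by unfold Dz at hDx; linarith
      have c2 : ‖z‖ ^ 2 ≤ 1 := by unfold Dz at hDz; linarith
      nlinarith [sq_nonneg ‖f a‖, sq_nonneg ‖z‖]
    linarith
  have hq2 : Dz z * q ≤ ε / 2 * Nz (f a) z := by
    have : Dz z * q ≤ 5 / 4 * Dz z ^ 2 + Dz (f a) * Dz z := by nlinarith
    linarith
  have hfrac : (1 - s) * q / (s * Nz (f a) z) ≤ ε * (1 - rr s z) := by
    have b1 := le_one_sub_rr hs0 hs1 hz hs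
    have b2 : (1 - s) * q / (s * Nz (f a) z) ≤ ε * (2 / 3 * ((1 - s) / Dz z)) := by
      have e : ε * (2 / 3 * ((1 - s) / Dz z)) = (ε * (2 / 3) * (1 - s)) / Dz z := by ring
      rw [e, div_le_div_iff₀ (by positivity) hDz]
      have c1 : (1 - s) * q * Dz z ≤ (1 - s) * (ε / 2 * Nz (f a) z) := by
        have := mul_le_mul_of_nonneg_left hq2 (by linarith : 0 ≤ 1 - s)
        linarith
      have c2 : (1 - s) * (ε / 2 * Nz (f a) z) ≤ ε * (2 / 3) * (1 - s) * (s * Nz (f a) z) := by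
        have : 0 ≤ (1 - s) * ε * Nz (f a) z := by
          have : 0 ≤ 1 - s := by linarith
          positivity
        nlinarith
      linarith
    exact b2.trans (mul_le_mul_of_nonneg_left b1 hε.le)
  rw [om_smul_sq hs0 hs1 hx hz]
  have hr := rr_pos hs0 hs1 hz
  calc rr s z * om (f a) z ^ 2 * (1 + (1 - s) * q / (s * Nz (f a) z))
      ≤ rr s z * om (f a) z ^ 2 * (1 + ε * (1 - rr s z)) :=
        mul_le_mul_of_nonneg_left (by linarith) (by positivity)
    _ = rr s z * (1 + ε * (1 - rr s z)) * om (f a) z ^ 2 := by ring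

theorem outer_xb (h : HypM d) (hf : RoughSim d lam C f) {ε : ℝ} (hε : 0 < ε) :
    ∃ m1 : ℝ, 1 ≤ m1 ∧ ∀ z : EuclideanSpace ℝ (Fin M), ‖z‖ < 1 → m1 ≤ mz f z →
      ∀ s : ℝ, s ≤ 1 → 1 - s ≤ Dz z / 4 →
        (∀ a, om (f a) (s • z) ≤ (1 - (1 - rr s z) / 4) * om (f a) z) ∧
        el (xb f (s • z) - xb f z) ≤ ε * (1 - rr s z) := by
  obtain ⟨K, hK0, hK⟩ := xb_sub h hf
  set e0 : ℝ := min (1 / 3) (ε / (K + 1)) with he0
  have he0p : 0 < e0 := lt_min (by norm_num) (by positivity)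
  obtain ⟨m1, hm1, hout⟩ := outer_om h hf he0p
  refine ⟨m1, hm1, ?_⟩
  intro z hz hmz s hs1 hs
  have hs34 := s_pos_of hs
  have hs0 : 0 < s := by linarith
  have hsz := norm_smul_lt hs0.le hs1 hz
  have hr := rr_pos hs0 hs1 hz
  have hr1 := rr_le_one hs0 hs1 hz
  have ho := hout z hz hmz s hs1 hs
  set r := rr s z with hrdef
  set x := e0 * (1 - r) with hx
  have he13 : e0 ≤ 1 / 3 := min_le_left _ _
  have hx0 : 0 ≤ x := mul_nonneg he0p.le (by linarith)
  have hx1 : x ≤ 1 / 3 := by nlinarith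
  constructor
  · intro a
    have oa := om_pos (hf.ball a) hz
    have q0 : 0 ≤ 1 - (1 - r) / 4 := by linarith
    refine le_of_sq_le_sq ?_ (mul_nonneg q0 oa.le)
    refine (ho a).trans ?_
    rw [mul_pow]
    refine mul_le_mul_of_nonneg_right ?_ (sq_nonneg _)
    nlinarith [sq_nonneg (1 - r), mul_nonneg hr.le (sub_nonneg.mpr hr1)]
  have hm := one_le_mz hf hz
  have hm' := one_le_mz hf hsz
  -- comparison of the minima
  set R := Real.sqrt r with hR
  have hR0 : 0 < R := Real.sqrt_pos.mpr hr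
  have hRR : R ^ 2 = r := Real.sq_sqrt hr.le
  have lo : ∀ a, R * om (f a) z ≤ om (f a) (s • z) := by
    intro a
    refine le_of_sq_le_sq ?_ (om_pos (hf.ball a) hsz).le
    rw [mul_pow, hRR]
    exact om_smul_ge hs0 hs1 (hf.ball a) hz
  have hi : ∀ a, om (f a) (s • z) ≤ R * (1 + x) * om (f a) z := by
    intro a
    have oa := om_pos (hf.ball a) hz
    refine le_of_sq_le_sq ?_ (by positivity)
    refine (ho a).trans ?_
    rw [mul_pow, mul_pow, hRR]
    refine mul_le_mul_of_nonneg_right ?_ (sq_nonneg _)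
    refine mul_le_mul_of_nonneg_left ?_ hr.le
    nlinarith
  have mlo : R * mz f z ≤ mz f (s • z) := le_mz fun a =>
    (mul_le_mul_of_nonneg_left (mz_le hf hz a) hR0.le).trans (lo a)
  have mhi : mz f (s • z) ≤ R * (1 + x) * mz f z := by
    have hp : 0 < R * (1 + x) := by positivity
    rw [← div_le_iff₀' hp]
    refine le_mz fun a => ?_
    rw [div_le_iff₀' hp]
    exact (mz_le hf hsz a).trans (hi a)
  have hfin := hK z (s • z) x hz hsz hx0 hx1 ?_
  · have e : el (xb f (s • z) - xb f z) = el (xb f z - xb f (s • z)) := by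
      have := el_smul (-1) (xb f z - xb f (s • z))
      rw [abs_neg, abs_one, one_mul, neg_one_smul, neg_sub] at this
      exact this
    rw [e]
    refine hfin.trans ?_
    rw [hx, ← mul_assoc]
    refine mul_le_mul_of_nonneg_right ?_ (by linarith)
    have : e0 ≤ ε / (K + 1) := min_le_right _ _
    calc K * e0 ≤ K * (ε / (K + 1)) := mul_le_mul_of_nonneg_left this hK0
      _ ≤ ε := by
        rw [← mul_div_assoc, div_le_iff₀ (by linarith)]
        linarith
  intro a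
  have oa := om_pos (hf.ball a) hz
  have oa' := om_pos (hf.ball a) hsz
  set A := om (f a) z
  set A' := om (f a) (s • z)
  set B := mz f z
  set B' := mz f (s • z)
  have hB : 0 < B := by linarith
  have hB' : 0 < B' := by linarith
  have u1 : A' / B' ≤ (1 + x) * (A / B) := by
    rw [div_le_iff₀ hB']
    have : A' ≤ R * (1 + x) * A := hi a
    have h5 : (1 + x) * (A / B) * (R * B) ≤ (1 + x) * (A / B) * B' :=
      mul_le_mul_of_nonneg_left mlo (by positivity)
    have e : (1 + x) * (A / B) * (R * B) = R * (1 + x) * A := by field_simp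
    linarith
  have u2 : (1 - x) * (A / B) ≤ A' / B' := by
    rw [le_div_iff₀ hB']
    have h5 : (1 - x) * (A / B) * B' ≤ (1 - x) * (A / B) * (R * (1 + x) * B) :=
      mul_le_mul_of_nonneg_left mhi (mul_nonneg (by linarith) (by positivity))
    have e : (1 - x) * (A / B) * (R * (1 + x) * B) = (1 - x ^ 2) * (R * A) := by field_simp; ring
    have h6 : R * A ≤ A' := lo a
    have h7 : (1 - x ^ 2) * (R * A) ≤ R * A := by
      have : 0 ≤ x ^ 2 * (R * A) := by positivity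
      linarith
    linarith
  rw [abs_le]
  constructor <;> linarith

end Pool.HQ
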