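import Pool.Agent.HQ.SOuter

/-!
MODULE SPhi (MP_7936f4_al, star-shapedness block): properties of Phi, the function Ph in the coordinates
(w,z), and the local radial decrease of Ph.
-/

namespace Pool.HQ

variable {G : Type} [Group G] {d : G → G → ℕ} {M L : ℕ} {lam C : ℝ}
  {f : G → EuclideanSpace ℝ (Fin M)} {c : G → Fin L} {E : ℝ}

omit [Group G] in
theorem NN_le {w : G → ℝ} (hw : ∀ a, 0 ≤ w a) (hE : 0 ≤ E) (X : EuclideanSpace ℝ (Fin L))
    (ψ : G →₀ ℝ) (hψ : tot ψ = 1) : NN c E w X ≤ cst w ψ + E * ‖X - io c ψ‖ := by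
  unfold NN
  refine ciInf_le (f := fun ψ : {ψ : G →₀ ℝ // tot ψ = 1} => cst w ψ.1 + E * ‖X - io c ψ.1‖)
    ⟨0, ?_⟩ ⟨ψ, hψ⟩
  rintro _ ⟨φ, rfl⟩
  exact add_nonneg (cst_nonneg hw _) (mul_nonneg hE (norm_nonneg _))

theorem le_NN {w : G → ℝ} {X : EuclideanSpace ℝ (Fin L)} {t : ℝ}
    (h : ∀ ψ : G →₀ ℝ, tot ψ = 1 → t ≤ cst w ψ + E * ‖X - io c ψ‖) : t ≤ NN c E w X := by
  unfold NN
  have : Nonempty {ψ : G →₀ ℝ // tot ψ = 1} :=
    ⟨⟨Finsupp.single 1 1, by unfold tot; rw [Finsupp.sum_single_index rfl]⟩⟩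
  exact le_ciInf fun ψ => h ψ.1 ψ.2

theorem Phi_le (hf : RoughSim d lam C f) (hE : 0 ≤ E) {z : EuclideanSpace ℝ (Fin M)} (hz : ‖z‖ < 1)
    (X : EuclideanSpace ℝ (Fin L)) (ψ : G →₀ ℝ) (hψ : tot ψ = 1) :
    Phi f c E (X, z) ≤ cst (fun a => om (f a) z) ψ + E * ‖X - io c ψ‖ :=
  NN_le (fun a => (om_pos (hf.ball a) hz).le) hE X ψ hψ

theorem le_Phi {X : EuclideanSpace ℝ (Fin L)} {z : EuclideanSpace ℝ (Fin M)} {t : ℝ}
    (h : ∀ ψ : G →₀ ℝ, tot ψ = 1 → t ≤ cst (fun a => om (f a) z) ψ + E * ‖X - io c ψ‖) :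
    t ≤ Phi f c E (X, z) := le_NN h

omit [Group G] in
theorem one_le_el {ψ : G →₀ ℝ} (hψ : tot ψ = 1) : 1 ≤ el ψ := by
  have := abs_tot_le ψ
  rwa [hψ, abs_one] at this

theorem mz_le_cst (hf : RoughSim d lam C f) {z : EuclideanSpace ℝ (Fin M)} (hz : ‖z‖ < 1)
    {ψ : G →₀ ℝ} (hψ : tot ψ = 1) : mz f z ≤ cst (fun a => om (f a) z) ψ := by
  have h1 := el_le_cst (w := fun a => om (f a) z) (W := mz f z) ψ (fun a _ => mz_le hf hz a)
  have h2 := one_le_el hψ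
  have h3 := one_le_mz hf hz
  nlinarith

theorem mz_le_Phi (hf : RoughSim d lam C f) (hE : 0 ≤ E) {z : EuclideanSpace ℝ (Fin M)} (hz : ‖z‖ < 1)
    (X : EuclideanSpace ℝ (Fin L)) : mz f z ≤ Phi f c E (X, z) :=
  le_Phi fun ψ hψ => (mz_le_cst hf hz hψ).trans
    (le_add_of_nonneg_right (mul_nonneg hE (norm_nonneg _)))

theorem norm_le_Phi (hf : RoughSim d lam C f) (hE : 1 ≤ E) {z : EuclideanSpace ℝ (Fin M)}
    (hz : ‖z‖ < 1) (X : EuclideanSpace ℝ (Fin L)) : ‖X‖ ≤ Phi f c E (X, z) := by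
  refine le_Phi fun ψ _ => ?_
  have h1 : ‖X‖ ≤ ‖io c ψ‖ + ‖X - io c ψ‖ := by
    have := norm_add_le (io c ψ) (X - io c ψ)
    rwa [add_sub_cancel] at this
  have h2 := norm_io_le c ψ
  have h3 := el_le_cst (w := fun a => om (f a) z) (W := 1) ψ (fun a _ => one_le_om (hf.ball a) hz)
  have h4 := norm_nonneg (X - io c ψ)
  nlinarith

theorem Phi_lip (hf : RoughSim d lam C f) (hE : 0 ≤ E) {z : EuclideanSpace ℝ (Fin M)} (hz : ‖z‖ < 1)
    (X X' : EuclideanSpace ℝ (Fin L)) : Phi f c E (X', z) ≤ Phi f c E (X, z) + E * ‖X - X'‖ := by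
  rw [← sub_le_iff_le_add]
  refine le_Phi fun ψ hψ => ?_
  rw [sub_le_iff_le_add]
  refine (Phi_le hf hE hz X' ψ hψ).trans ?_
  have h1 : ‖X' - io c ψ‖ ≤ ‖X - io c ψ‖ + ‖X - X'‖ := by
    have := norm_sub_le_norm_sub_add_norm_sub X' X (io c ψ)
    rw [norm_sub_rev X' X] at this
    linarith
  have := mul_le_mul_of_nonneg_left h1 hE
  linarith

/-- Change of z. -/
theorem Phi_scale (hf : RoughSim d lam C f) (hE : 0 ≤ E) {z z' : EuclideanSpace ℝ (Fin M)}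
    (hz' : ‖z'‖ < 1) {θ : ℝ} (hθ : 1 ≤ θ) (h : ∀ a, om (f a) z' ≤ θ * om (f a) z)
    (X : EuclideanSpace ℝ (Fin L)) : Phi f c E (X, z') ≤ θ * Phi f c E (X, z) := by
  have hθ0 : 0 < θ := by linarith
  rw [← div_le_iff₀' hθ0]
  refine le_Phi fun ψ hψ => ?_
  rw [div_le_iff₀' hθ0]
  refine (Phi_le hf hE hz' X ψ hψ).trans ?_
  have h1 : cst (fun a => om (f a) z') ψ ≤ θ * cst (fun a => om (f a) z) ψ := by
    have := cst_mono (w := fun a => om (f a) z') (w' := fun a => θ * om (f a) z) ψ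
      (fun a _ => h a)
    refine this.trans (le_of_eq ?_)
    unfold cst
    rw [Finsupp.mul_sum]
    exact Finset.sum_congr rfl fun a _ => by ring
  have h2 : 0 ≤ E * ‖X - io c ψ‖ := mul_nonneg hE (norm_nonneg _)
  nlinarith

/-- The basic convexity estimate. -/
theorem Phi_comb (hf : RoughSim d lam C f) (hE : 0 ≤ E) {z z' : EuclideanSpace ℝ (Fin M)}
    (hz' : ‖z'‖ < 1) {r θ : ℝ} (hr : 0 ≤ r) (hr1 : r ≤ 1)
    (h : ∀ a, om (f a) z' ≤ θ * om (f a) z) (X : EuclideanSpace ℝ (Fin L))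
    (u : G →₀ ℝ) (hu : tot u = 1) (ψ : G →₀ ℝ) (hψ : tot ψ = 1) :
    Phi f c E (r • X + (1 - r) • io c u, z') ≤
      r * (θ * cst (fun a => om (f a) z) ψ + E * ‖X - io c ψ‖) +
        (1 - r) * cst (fun a => om (f a) z') u := by
  have htot : tot (r • ψ + (1 - r) • u) = 1 := by
    rw [tot_add, tot_smul, tot_smul, hψ, hu]; ring
  refine (Phi_le hf hE hz' _ _ htot).trans ?_
  have hw : ∀ a, 0 ≤ om (f a) z' := fun a => (om_pos (hf.ball a) hz').le
  have h1 : cst (fun a => om (f a) z') (r • ψ + (1 - r) • u) ≤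
      r * cst (fun a => om (f a) z') ψ + (1 - r) * cst (fun a => om (f a) z') u := by
    refine (cst_add_le hw _ _).trans ?_
    rw [cst_smul, cst_smul, abs_of_nonneg hr, abs_of_nonneg (by linarith : 0 ≤ 1 - r)]
  have h2 : cst (fun a => om (f a) z') ψ ≤ θ * cst (fun a => om (f a) z) ψ := by
    have := cst_mono (w := fun a => om (f a) z') (w' := fun a => θ * om (f a) z) ψ
      (fun a _ => h a)
    refine this.trans (le_of_eq ?_)
    unfold cst
    rw [Finsupp.mul_sum]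
    exact Finset.sum_congr rfl fun a _ => by ring
  have h3 : ‖r • X + (1 - r) • io c u - io c (r • ψ + (1 - r) • u)‖ = r * ‖X - io c ψ‖ := by
    rw [io_add, io_smul, io_smul]
    have : r • X + (1 - r) • io c u - (r • io c ψ + (1 - r) • io c u) = r • (X - io c ψ) := by
      rw [smul_sub]; abel
    rw [this, norm_smul, Real.norm_of_nonneg hr]
  rw [h3]
  have h4 := mul_le_mul_of_nonneg_left h2 hr
  linarith

/-- Phi in the coordinates (w,z). -/
noncomputable def Ph (f : G → EuclideanSpace ℝ (Fin M)) (c : G → Fin L) (E : ℝ)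
    (w : EuclideanSpace ℝ (Fin L)) (z : EuclideanSpace ℝ (Fin M)) : ℝ :=
  Phi f c E (io c (xb f z) + (Dz z)⁻¹ • w, z)

/-- The measure which appears in the radial contraction. -/
noncomputable def ur (f : G → EuclideanSpace ℝ (Fin M)) (s : ℝ) (z : EuclideanSpace ℝ (Fin M)) :
    G →₀ ℝ := (1 - rr s z)⁻¹ • (xb f (s • z) - rr s z • xb f z)

theorem tot_ur (h : HypM d) (hf : RoughSim d lam C f) {s : ℝ} (hs : 0 < s) (hs1 : s ≤ 1)
    {z : EuclideanSpace ℝ (Fin M)} (hz : ‖z‖ < 1) (hr : rr s z < 1) : tot (ur f s z) = 1 := by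
  unfold ur
  rw [tot_smul, tot_sub, tot_smul, tot_xb h hf hz, tot_xb h hf (norm_smul_lt hs.le hs1 hz), mul_one,
    inv_mul_cancel₀ (by linarith)]

theorem el_ur (h : HypM d) (hf : RoughSim d lam C f) {s : ℝ} (hs : 0 < s) (hs1 : s ≤ 1)
    {z : EuclideanSpace ℝ (Fin M)} (hz : ‖z‖ < 1) (hr : rr s z < 1) :
    el (ur f s z) ≤ 1 + (1 - rr s z)⁻¹ * el (xb f (s • z) - xb f z) := by
  unfold ur
  have hr0 := rr_pos hs hs1 hz
  set r := rr s z
  have h1 : 0 < 1 - r := by linarith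
  have e : xb f (s • z) - r • xb f z = (1 - r) • xb f (s • z) + r • (xb f (s • z) - xb f z) := by
    rw [sub_smul, one_smul, smul_sub]; abel
  rw [e, el_smul, abs_of_pos (inv_pos.mpr h1)]
  have h2 := el_add_le ((1 - r) • xb f (s • z)) (r • (xb f (s • z) - xb f z))
  rw [el_smul, el_smul, abs_of_pos h1, abs_of_pos hr0, el_xb h hf (norm_smul_lt hs.le hs1 hz),
    mul_one] at h2
  have h3 : r * el (xb f (s • z) - xb f z) ≤ el (xb f (s • z) - xb f z) := by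
    have := el_nonneg (xb f (s • z) - xb f z)
    nlinarith
  calc (1 - r)⁻¹ * el ((1 - r) • xb f (s • z) + r • (xb f (s • z) - xb f z))
      ≤ (1 - r)⁻¹ * ((1 - r) + el (xb f (s • z) - xb f z)) :=
        mul_le_mul_of_nonneg_left (by linarith) (inv_pos.mpr h1).le
    _ = 1 + (1 - r)⁻¹ * el (xb f (s • z) - xb f z) := by
        rw [mul_add, inv_mul_cancel₀ h1.ne']

theorem ur_supp (h : HypM d) (hf : RoughSim d lam C f) {s : ℝ} (hs : 0 < s) (hs1 : s ≤ 1)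
    {z : EuclideanSpace ℝ (Fin M)} (hz : ‖z‖ < 1) {a : G} (ha : a ∈ (ur f s z).support) :
    om (f a) (s • z) ≤ 11 / 10 * mz f (s • z) ∨ om (f a) z ≤ 11 / 10 * mz f z := by
  classical
  unfold ur at ha
  have h1 := Finsupp.support_smul ha
  have h2 := Finsupp.support_sub h1
  rcases Finset.mem_union.mp h2 with h3 | h3
  · left; exact xb_supp h hf (norm_smul_lt hs.le hs1 hz) h3
  · right; exact xb_supp h hf hz (Finsupp.support_smul h3)

/-- The point (s w, s z) in the coordinates (X,z). -/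
theorem smul_coord (hf : RoughSim d lam C f) {s : ℝ} (hs : 0 < s) (hs1 : s ≤ 1)
    {z : EuclideanSpace ℝ (Fin M)} (hz : ‖z‖ < 1) (hr : rr s z < 1) (w : EuclideanSpace ℝ (Fin L)) :
    io c (xb f (s • z)) + (Dz (s • z))⁻¹ • (s • w) =
      rr s z • (io c (xb f z) + (Dz z)⁻¹ • w) + (1 - rr s z) • io c (ur f s z) := by
  have hD := Dz_pos hz
  have hDs := Dz_pos (norm_smul_lt hs.le hs1 hz)
  have h1 : (1 : ℝ) - rr s z ≠ 0 := by linarith
  unfold ur
  rw [io_smul, smul_smul (1 - rr s z), mul_inv_cancel₀ h1, one_smul, io_sub, io_smul, smul_add,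
    smul_smul (rr s z) (Dz z)⁻¹ w, smul_smul (Dz (s • z))⁻¹ s w]
  have e : rr s z * (Dz z)⁻¹ = (Dz (s • z))⁻¹ * s := by
    unfold rr; field_simp
  rw [e]
  abel

end Pool.HQ
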