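import Pool.Agent.HQ.SPsi
import Pool.Agent.HQ.QFin

/-!
MODULE SPre (MP_7936f4_al, assembly): from the action on the hypersurface (BdAct) to PreAct on the unit sphere.

Notation: D_a = Dz (f a), D = Dz z.  om (f a) z <= W implies
 D <= 4 W^2 D_a, D_a <= 4 W^2 D (om_sq: Nz = om^2 D_a D <= W^2 D_a D, Dz_sq_le: D^2 <= 4 Nz, D_a^2 <= 4 Nz) and
 |f a - z|^2 <= Nz <= W^2 D_a D <= 4 W^4 D_a^2, that is |f a - z| <= 2 W^2 D_a.
 (W >= 1 because om >= 1.)
PreAct.of_type: act' g x = if x = Psi y then Psi (act g y) else x (Classical.choose, injectivity);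
 L' x a = (EX y, Psi y = x and Lo y a).
de_low, de_up: e^{-lam gpr(a,b)} is comparable with De (f a) (f b): om(f a)(f b)^2 = Nz/(D_a D_b) (om_sq), om^2 comparable
 with e^{lam d(a,b)} (om_sq_le, le_om_sq), D_a comparable with e^{-lam |a|} (le_Dz, Dz_le), hence Nz comparable with
 e^{lam (d(a,b) - |a| - |b|)} = (e^{-lam gpr})^2, and Nz <= De^2 <= 25 Nz (Nz_le_De, De_le_Nz).
preAct_of_bdAct.  Y = subtype of Hyp f c E A, Psi y = the point Psn of the sphere (norm 1).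
 injective: sph lo with |Psn p - Psn q| = 0 gives |z - z'| + D |X - X'| <= 0.
 dense: dense_dir (0 < L since c 1 : Fin L) and dir.   Nonempty: take w = unit vector.
 locd: om (f a)(f b) <= 5 W^2 (om_tri, om_symm), le_om_sq: e^{lam d(a,b)} <= C 25 W^4, take logarithms.
 low: e^{-lam gpr} <= K De (f a)(f b) = K (|f a - f b| + D_a + D_b) and
   |f a - f b| <= |f a - z| + |Psn p - pr 0 z| + |Psn p - Psn q| + |Psn q - pr 0 z'| + |z' - f b|
   (|z - z'| = |pr 0 z - pr 0 z'|), D <= 4 W^2 D_a, D_a <= C e^{-lam |a|}.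
 up: |Psn p - Psn q| <= |f a - f b| + K (D_a + D_b) in the same way, D_a, D_b, |f a - f b| <= De <= K e^{-lam gpr},
   e^{-lam |a|} <= C D_a.
 near: dist <= eta' e^{-lam|a|} <= eta' C D_a <= eta' C 4 W^2 D <= eta0 D, so lo: |z-z'| + D|X-X'| <= K0 dist;
   1 - |z| >= D/2, so rd p q <= 2 K0 dist/D <= eta (if eta' small), BdAct.lip: rd (gp) (gq) <= K rd p q =: r, small;
   |z_g - z_g'| <= (1 - |z_g|) r <= D_g r <= D_g/360, so up: dist(g) <= K0 (D_g r + D_g r) <= 4 K K0^2 (D_g/D) dist, and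
   D_g <= 4 W^2 D_{ga} <= 4 W^2 C e^{-lam |ga|} (locg, close at gp), 1/D <= 4 W^2/D_a <= 4 W^2 C e^{lam |a|}.
 faith, one, mul, loc, locg: from BdAct.
-/

namespace Pool.HQ

variable {G : Type} [Group G] {d : G → G → ℕ} {M L : ℕ} {lam C : ℝ}
  {f : G → EuclideanSpace ℝ (Fin M)} {E : ℝ}

theorem PreAct.of_type {Y X : Type} [MetricSpace X] (Ψ : Y → X) (hinj : Function.Injective Ψ)
    (act : G → Y → Y) (Lo : Y → G → Prop) {η C' D : ℝ} (h1 : 0 < lam) (h2 : 0 < η) (h3 : 1 ≤ C')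
    (hdense : DenseRange Ψ) (hne : Nonempty Y) (one : ∀ p, act 1 p = p)
    (mul : ∀ g h p, act (g * h) p = act g (act h p)) (loc : ∀ p, ∃ a, Lo p a)
    (locg : ∀ g p a, Lo p a → Lo (act g p) (g * a))
    (locd : ∀ p a b, Lo p a → Lo p b → (d a b : ℝ) ≤ D)
    (low : ∀ p q a b, Lo p a → Lo q b → Real.exp (-lam * gpr d a b) ≤
      C' * (dist (Ψ p) (Ψ q) + Real.exp (-lam * d 1 a) + Real.exp (-lam * d 1 b)))
    (up : ∀ p q a b, Lo p a → Lo q b →
      dist (Ψ p) (Ψ q) + Real.exp (-lam * d 1 a) + Real.exp (-lam * d 1 b) ≤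
        C' * Real.exp (-lam * gpr d a b))
    (near : ∀ p q a, Lo p a → dist (Ψ p) (Ψ q) ≤ η * Real.exp (-lam * d 1 a) →
      ∀ g, dist (Ψ (act g p)) (Ψ (act g q)) ≤
        C' * Real.exp (lam * ((d 1 a : ℝ) - d 1 (g * a))) * dist (Ψ p) (Ψ q))
    (faith : ∀ g, g ≠ 1 → ∃ p, act g p ≠ p) :
    ∃ (act' : G → X → X) (L' : X → G → Prop), PreAct d (Set.range Ψ) act' L' lam η C' D := by
  classical
  obtain ⟨act', hact'⟩ : ∃ act' : G → X → X, ∀ g y, act' g (Ψ y) = Ψ (act g y) := by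
    refine ⟨fun g x => if h : ∃ y, Ψ y = x then Ψ (act g h.choose) else x, fun g y => ?_⟩
    have h : ∃ y', Ψ y' = Ψ y := ⟨y, rfl⟩
    simp only
    rw [dif_pos h, hinj h.choose_spec]
  refine ⟨act', fun x a => ∃ y, Ψ y = x ∧ Lo y a, ?_⟩
  have hL : ∀ {y a}, (∃ y', Ψ y' = Ψ y ∧ Lo y' a) → Lo y a := by
    rintro y a ⟨y', h, h'⟩
    rwa [hinj h] at h'
  exact
  { lam_pos := h1
    eta_pos := h2
    one_le := h3
    dense := hdense
    nonempty := Set.range_nonempty Ψ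
    maps := by
      rintro g _ ⟨y, rfl⟩
      exact ⟨act g y, (hact' g y).symm⟩
    one := by
      rintro _ ⟨y, rfl⟩
      rw [hact', one]
    mul := by
      rintro g h _ ⟨y, rfl⟩
      rw [hact', hact', hact', mul]
    loc := by
      rintro _ ⟨y, rfl⟩
      obtain ⟨a, ha⟩ := loc y
      exact ⟨a, y, rfl, ha⟩
    locg := by
      rintro g _ ⟨y, rfl⟩ a ha
      exact ⟨act g y, (hact' g y).symm, locg g y a (hL ha)⟩
    locd := by
      rintro _ ⟨y, rfl⟩ a b ha hb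
      exact locd y a b (hL ha) (hL hb)
    low := by
      rintro _ ⟨y, rfl⟩ _ ⟨y', rfl⟩ a b ha hb
      exact low y y' a b (hL ha) (hL hb)
    up := by
      rintro _ ⟨y, rfl⟩ _ ⟨y', rfl⟩ a b ha hb
      exact up y y' a b (hL ha) (hL hb)
    near := by
      rintro _ ⟨y, rfl⟩ _ ⟨y', rfl⟩ a ha hd g
      rw [hact', hact']
      exact near y y' a (hL ha) hd g
    faith := by
      intro g hg
      obtain ⟨y, hy⟩ := faith g hg
      refine ⟨Ψ y, ⟨y, rfl⟩, fun h => hy ?_⟩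
      rw [hact'] at h
      exact hinj h }

theorem one_sub_norm_le {z : EuclideanSpace ℝ (Fin M)} (hz : ‖z‖ < 1) :
    1 - ‖z‖ ≤ Dz z ∧ Dz z ≤ 2 * (1 - ‖z‖) := by
  have h0 := norm_nonneg z
  unfold Dz
  constructor <;> nlinarith

theorem Dz_le_of_om {x z : EuclideanSpace ℝ (Fin M)} (hx : ‖x‖ < 1) (hz : ‖z‖ < 1) {W : ℝ}
    (hW : om x z ≤ W) : Dz z ≤ 4 * W ^ 2 * Dz x ∧ Dz x ≤ 4 * W ^ 2 * Dz z ∧
      ‖x - z‖ ≤ 2 * W ^ 2 * Dz x := by
  have h1 := one_le_om hx hz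
  have dx := Dz_pos hx
  have dz := Dz_pos hz
  have hW0 : 0 < W := by linarith
  have h2 : om x z ^ 2 ≤ W ^ 2 := pow_le_pow_left₀ (by linarith) hW 2
  rw [om_sq hx hz, div_le_iff₀ (mul_pos dx dz)] at h2
  have h3 := Dz_sq_le hx hz
  have h4 := Dz_sq_le' hx hz
  have h5 := sq_le_Nz hx hz
  have k1 : Dz z ≤ 4 * W ^ 2 * Dz x := by
    have : Dz z * Dz z ≤ (4 * W ^ 2 * Dz x) * Dz z := by nlinarith
    exact le_of_mul_le_mul_right this dz
  have k2 : Dz x ≤ 4 * W ^ 2 * Dz z := by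
    have : Dz x * Dz x ≤ (4 * W ^ 2 * Dz z) * Dz x := by nlinarith
    exact le_of_mul_le_mul_right this dx
  refine ⟨k1, k2, le_of_sq_le_sq ?_ (by positivity)⟩
  have k3 : W ^ 2 * (Dz x * Dz z) ≤ W ^ 2 * (Dz x * (4 * W ^ 2 * Dz x)) :=
    mul_le_mul_of_nonneg_left (mul_le_mul_of_nonneg_left k1 dx.le) (by positivity)
  calc ‖x - z‖ ^ 2 ≤ W ^ 2 * (Dz x * Dz z) := h5.trans h2
    _ ≤ W ^ 2 * (Dz x * (4 * W ^ 2 * Dz x)) := k3
    _ = (2 * W ^ 2 * Dz x) ^ 2 := by ring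

theorem SPre_exp (lam : ℝ) (d : G → G → ℕ) (a b : G) :
    Real.exp (-lam * gpr d a b) ^ 2 =
      Real.exp (lam * d a b) * (Real.exp (-lam * d 1 a) * Real.exp (-lam * d 1 b)) := by
  rw [← Real.exp_nat_mul, ← Real.exp_add, ← Real.exp_add]
  congr 1
  unfold gpr
  push_cast
  ring

theorem RoughSim.de_low (hf : RoughSim d lam C f) : ∃ K : ℝ, 1 ≤ K ∧ ∀ a b,
    Real.exp (-lam * gpr d a b) ≤ K * De (f a) (f b) := by
  have hC := hf.one_le
  have hC0 := hf.C_pos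
  refine ⟨C ^ 2, one_le_pow₀ hC, fun a b => ?_⟩
  have ha := Dz_pos (hf.ball a)
  have hb := Dz_pos (hf.ball b)
  have hDe := De_pos (hf.ball a) (hf.ball b)
  have hN := Nz_pos (hf.ball a) (hf.ball b)
  have h1 := hf.le_om_sq a b
  rw [om_sq (hf.ball a) (hf.ball b), inv_mul_le_iff₀ hC0, ← mul_div_assoc,
    le_div_iff₀ (mul_pos ha hb)] at h1
  have h2 := hf.le_Dz a
  have h3 := hf.le_Dz b
  rw [inv_mul_le_iff₀ hC0] at h2 h3
  have h4 := Nz_le_De (hf.ball a) (hf.ball b)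
  refine le_of_sq_le_sq ?_ (by positivity)
  rw [SPre_exp]
  have h5 : Real.exp (-lam * d 1 a) * Real.exp (-lam * d 1 b) ≤
      (C * Dz (f a)) * (C * Dz (f b)) := mul_le_mul h2 h3 (Real.exp_pos _).le (by positivity)
  calc Real.exp (lam * d a b) * (Real.exp (-lam * d 1 a) * Real.exp (-lam * d 1 b))
      ≤ Real.exp (lam * d a b) * ((C * Dz (f a)) * (C * Dz (f b))) :=
        mul_le_mul_of_nonneg_left h5 (Real.exp_pos _).le
    _ = C ^ 2 * (Real.exp (lam * d a b) * (Dz (f a) * Dz (f b))) := by ring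
    _ ≤ C ^ 2 * (C * Nz (f a) (f b)) := mul_le_mul_of_nonneg_left h1 (by positivity)
    _ ≤ C ^ 2 * (C * De (f a) (f b) ^ 2) :=
        mul_le_mul_of_nonneg_left (mul_le_mul_of_nonneg_left h4 hC0.le) (by positivity)
    _ ≤ C ^ 2 * (C ^ 2 * De (f a) (f b) ^ 2) := by
        refine mul_le_mul_of_nonneg_left (mul_le_mul_of_nonneg_right ?_ (by positivity))
          (by positivity)
        nlinarith
    _ = (C ^ 2 * De (f a) (f b)) ^ 2 := by ring

theorem RoughSim.de_up (hf : RoughSim d lam C f) : ∃ K : ℝ, 1 ≤ K ∧ ∀ a b,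
    De (f a) (f b) ≤ K * Real.exp (-lam * gpr d a b) := by
  have hC := hf.one_le
  have hC0 := hf.C_pos
  refine ⟨5 * C ^ 2, by nlinarith [one_le_pow₀ hC (n := 2)], fun a b => ?_⟩
  have ha := Dz_pos (hf.ball a)
  have hb := Dz_pos (hf.ball b)
  have h1 := hf.om_sq_le a b
  rw [om_sq (hf.ball a) (hf.ball b), div_le_iff₀ (mul_pos ha hb)] at h1
  have h2 := hf.Dz_le a
  have h3 := hf.Dz_le b
  have h4 := De_le_Nz (hf.ball a) (hf.ball b)
  refine le_of_sq_le_sq ?_ (by positivity)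
  have h5 : Dz (f a) * Dz (f b) ≤ (C * Real.exp (-lam * d 1 a)) * (C * Real.exp (-lam * d 1 b)) :=
    mul_le_mul h2 h3 hb.le (by positivity)
  calc De (f a) (f b) ^ 2 ≤ 25 * Nz (f a) (f b) := h4
    _ ≤ 25 * (C * Real.exp (lam * d a b) * (Dz (f a) * Dz (f b))) := by linarith
    _ ≤ 25 * (C * Real.exp (lam * d a b) *
        ((C * Real.exp (-lam * d 1 a)) * (C * Real.exp (-lam * d 1 b)))) :=
        mul_le_mul_of_nonneg_left (mul_le_mul_of_nonneg_left h5 (by positivity)) (by norm_num)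
    _ = 25 * C ^ 3 * (Real.exp (lam * d a b) *
        (Real.exp (-lam * d 1 a) * Real.exp (-lam * d 1 b))) := by ring
    _ = 25 * C ^ 3 * Real.exp (-lam * gpr d a b) ^ 2 := by rw [SPre_exp]
    _ ≤ 25 * C ^ 4 * Real.exp (-lam * gpr d a b) ^ 2 := by
        refine mul_le_mul_of_nonneg_right ?_ (by positivity)
        have : C ^ 3 ≤ C ^ 4 := pow_le_pow_right₀ hC (by norm_num)
        linarith
    _ = (5 * C ^ 2 * Real.exp (-lam * gpr d a b)) ^ 2 := by ring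

/-- the comparison between distances on the sphere and in the group, for one pair of points -/
theorem SPre_cmp (hf : RoughSim d lam C f) {c : G → Fin L} {A K0 η0 : ℝ}
    (hS : SphOK f c E A K0 η0) {W : ℝ}
    {p q : EuclideanSpace ℝ (Fin L) × EuclideanSpace ℝ (Fin M)} (hp : p ∈ Hyp f c E A)
    (hq : q ∈ Hyp f c E A) {a b : G} (ha : om (f a) p.2 ≤ W) (hb : om (f b) q.2 ≤ W) :
    De (f a) (f b) ≤ ‖Psn f c p - Psn f c q‖ +
      (1 + 2 * W ^ 2 + 4 * K0 * W ^ 2) * (Dz (f a) + Dz (f b)) ∧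
    ‖Psn f c p - Psn f c q‖ ≤ (1 + 2 * W ^ 2 + 4 * K0 * W ^ 2) * De (f a) (f b) := by
  have hK := hS.K_one
  obtain ⟨a1, a2, a3⟩ := Dz_le_of_om (hf.ball a) hp.1 ha
  obtain ⟨b1, b2, b3⟩ := Dz_le_of_om (hf.ball b) hq.1 hb
  have pa := Dz_pos (hf.ball a)
  have pb := Dz_pos (hf.ball b)
  have v1 := hS.vert p hp
  have v2 := hS.vert q hq
  have v1' : ‖Psn f c p - pr 0 p.2‖ ≤ 4 * K0 * W ^ 2 * Dz (f a) := by
    refine v1.trans ?_
    have := mul_le_mul_of_nonneg_left a1 (by linarith : (0 : ℝ) ≤ K0)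
    linarith
  have v2' : ‖Psn f c q - pr 0 q.2‖ ≤ 4 * K0 * W ^ 2 * Dz (f b) := by
    refine v2.trans ?_
    have := mul_le_mul_of_nonneg_left b1 (by linarith : (0 : ℝ) ≤ K0)
    linarith
  have e1 : ‖(pr 0 p.2 : VV L M) - pr 0 q.2‖ = ‖p.2 - q.2‖ := by
    rw [pr_sub, sub_self]
    have h1 := norm_pr_sq (0 : EuclideanSpace ℝ (Fin L)) (p.2 - q.2)
    rw [norm_zero] at h1
    have h2 : ‖(pr (0 : EuclideanSpace ℝ (Fin L)) (p.2 - q.2) : VV L M)‖ ^ 2 =
        ‖p.2 - q.2‖ ^ 2 := by rw [h1]; ring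
    exact (pow_left_inj₀ (norm_nonneg _) (norm_nonneg _) two_ne_zero).1 h2
  constructor
  · have t1 : ‖p.2 - q.2‖ ≤ ‖Psn f c p - pr 0 p.2‖ + ‖Psn f c p - Psn f c q‖ +
        ‖Psn f c q - pr 0 q.2‖ := by
      rw [← e1]
      have e2 : (pr 0 p.2 : VV L M) - pr 0 q.2 = -(Psn f c p - pr 0 p.2) +
          (Psn f c p - Psn f c q) + (Psn f c q - pr 0 q.2) := by abel
      rw [e2]
      refine (norm_add_le _ _).trans (add_le_add ((norm_add_le _ _).trans ?_) le_rfl)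
      rw [norm_neg]
    have t2 : ‖f a - f b‖ ≤ ‖f a - p.2‖ + ‖p.2 - q.2‖ + ‖f b - q.2‖ := by
      have e2 : f a - f b = (f a - p.2) + (p.2 - q.2) + -(f b - q.2) := by abel
      rw [e2]
      refine (norm_add_le _ _).trans (add_le_add (norm_add_le _ _) ?_)
      rw [norm_neg]
    unfold De
    linarith
  · have t1 : ‖Psn f c p - Psn f c q‖ ≤ ‖Psn f c p - pr 0 p.2‖ + ‖p.2 - q.2‖ +
        ‖Psn f c q - pr 0 q.2‖ := by
      rw [← e1]
      have e2 : Psn f c p - Psn f c q = (Psn f c p - pr 0 p.2) +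
          ((pr 0 p.2 : VV L M) - pr 0 q.2) + -(Psn f c q - pr 0 q.2) := by abel
      rw [e2]
      refine (norm_add_le _ _).trans (add_le_add (norm_add_le _ _) ?_)
      rw [norm_neg]
    have t2 : ‖p.2 - q.2‖ ≤ ‖f a - p.2‖ + ‖f a - f b‖ + ‖f b - q.2‖ := by
      have e2 : p.2 - q.2 = -(f a - p.2) + (f a - f b) + (f b - q.2) := by abel
      rw [e2]
      refine (norm_add_le _ _).trans (add_le_add ((norm_add_le _ _).trans ?_) le_rfl)
      rw [norm_neg]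
    have t3 : 0 ≤ (2 * W ^ 2 + 4 * K0 * W ^ 2) * ‖f a - f b‖ := by positivity
    unfold De
    have t4 : 0 ≤ Dz (f a) + Dz (f b) := by positivity
    linarith

theorem preAct_of_bdAct (h : HypM d) (hf : RoughSim d lam C f) {c : G → Fin L} {A K0 η0 : ℝ}
    (hS : SphOK f c E A K0 η0)
    {act : G → EuclideanSpace ℝ (Fin L) × EuclideanSpace ℝ (Fin M) →
      EuclideanSpace ℝ (Fin L) × EuclideanSpace ℝ (Fin M)}
    {Lo : EuclideanSpace ℝ (Fin L) × EuclideanSpace ℝ (Fin M) → G → Prop} {W η K : ℝ}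
    (hA : BdAct d f c E A act Lo W η K) :
    ∃ (Om : Set (Metric.sphere (0 : VV L M) 1))
      (act' : G → Metric.sphere (0 : VV L M) 1 → Metric.sphere (0 : VV L M) 1)
      (L' : Metric.sphere (0 : VV L M) 1 → G → Prop) (η' C' D' : ℝ),
      PreAct d Om act' L' lam η' C' D' := by
  have _ := h
  have hL : 0 < L := (c 1).pos
  have hC := hf.one_le
  have hC0 := hf.C_pos
  have hlam := hf.lam_pos
  have hK0 := hS.K_one
  have hη0 := hS.eta_pos
  have hK := hA.one_le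
  have hη := hA.eta_pos
  obtain ⟨K1, hK1, hlow⟩ := hf.de_low
  obtain ⟨K2, hK2, hup⟩ := hf.de_up
  -- a point of the hypersurface
  obtain ⟨p0, hp0⟩ : ∃ p, p ∈ Hyp f c E A := by
    have e1 : ‖(EuclideanSpace.single ⟨0, hL⟩ (1 : ℝ) : EuclideanSpace ℝ (Fin L))‖ = 1 := by
      rw [PiLp.norm_single, norm_one]
    obtain ⟨p, hp, -⟩ := hS.dir (EuclideanSpace.single ⟨0, hL⟩ (1 : ℝ)) 0 (by
      intro h0
      rw [h0, norm_zero] at e1
      exact zero_ne_one e1) (by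
      have h1 := norm_pr_sq (EuclideanSpace.single ⟨0, hL⟩ (1 : ℝ) : EuclideanSpace ℝ (Fin L))
        (0 : EuclideanSpace ℝ (Fin M))
      rw [e1, norm_zero] at h1
      nlinarith [norm_nonneg (pr (EuclideanSpace.single ⟨0, hL⟩ (1 : ℝ) : EuclideanSpace ℝ (Fin L))
        (0 : EuclideanSpace ℝ (Fin M)))])
    exact ⟨p, hp⟩
  have hW : 1 ≤ W := by
    obtain ⟨a, ha⟩ := hA.loc p0 hp0.1 hp0.2
    exact (one_le_om (hf.ball a) hp0.1).trans (hA.close p0 hp0.1 hp0.2 a ha)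
  have hclose : ∀ p ∈ Hyp f c E A, ∀ a, Lo p a → om (f a) p.2 ≤ W := fun p hp a ha =>
    hA.close p hp.1 hp.2 a ha
  obtain ⟨B, hB⟩ : ∃ B : ℝ, B = 4 * C * W ^ 2 := ⟨_, rfl⟩
  have hW2 : 1 ≤ W ^ 2 := one_le_pow₀ hW
  have hB1 : 1 ≤ B := by rw [hB]; nlinarith
  have hcmp : ∀ p ∈ Hyp f c E A, ∀ a, Lo p a → Dz p.2 ≤ B * Real.exp (-lam * d 1 a) ∧
      Real.exp (-lam * d 1 a) ≤ B * Dz p.2 := by
    intro p hp a ha
    obtain ⟨a1, a2, -⟩ := Dz_le_of_om (hf.ball a) hp.1 (hclose p hp a ha)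
    have h2 := hf.le_Dz a
    rw [inv_mul_le_iff₀ hC0] at h2
    have h3 := hf.Dz_le a
    constructor
    · calc Dz p.2 ≤ 4 * W ^ 2 * Dz (f a) := a1
        _ ≤ 4 * W ^ 2 * (C * Real.exp (-lam * d 1 a)) :=
            mul_le_mul_of_nonneg_left h3 (by positivity)
        _ = B * Real.exp (-lam * d 1 a) := by rw [hB]; ring
    · calc Real.exp (-lam * d 1 a) ≤ C * Dz (f a) := h2
        _ ≤ C * (4 * W ^ 2 * Dz p.2) := mul_le_mul_of_nonneg_left a2 hC0.le
        _ = B * Dz p.2 := by rw [hB]; ring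
  obtain ⟨M1, hM1⟩ : ∃ M1 : ℝ, M1 = 1 + 2 * W ^ 2 + 4 * K0 * W ^ 2 := ⟨_, rfl⟩
  have hM11 : 1 ≤ M1 := by rw [hM1]; nlinarith
  obtain ⟨m, hm⟩ : ∃ m : ℝ, m = min (min η0 η) 1 := ⟨_, rfl⟩
  have hm0 : 0 < m := by rw [hm]; exact lt_min (lt_min hη0 hη) one_pos
  have hmη0 : m ≤ η0 := by rw [hm]; exact (min_le_left _ _).trans (min_le_left _ _)
  have hmη : m ≤ η := by rw [hm]; exact (min_le_left _ _).trans (min_le_right _ _)
  have hm1 : m ≤ 1 := by rw [hm]; exact min_le_right _ _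
  obtain ⟨η', hη'⟩ : ∃ η' : ℝ, η' = m / (720 * K * K0 * B) := ⟨_, rfl⟩
  have hη'0 : 0 < η' := by rw [hη']; positivity
  have hη'eq : 720 * K * K0 * B * η' = m := by rw [hη']; field_simp
  obtain ⟨C', hC'⟩ : ∃ C' : ℝ, C' = K1 * (M1 * C) + (M1 + C) * K2 + 2 * K * K0 ^ 2 * B ^ 2 :=
    ⟨_, rfl⟩
  have c1 : K1 * (M1 * C) ≤ C' := by
    rw [hC']
    have : 0 ≤ (M1 + C) * K2 := by positivity
    have : 0 ≤ 2 * K * K0 ^ 2 * B ^ 2 := by positivity
    linarith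
  have c2 : (M1 + C) * K2 ≤ C' := by
    rw [hC']
    have : 0 ≤ K1 * (M1 * C) := by positivity
    have : 0 ≤ 2 * K * K0 ^ 2 * B ^ 2 := by positivity
    linarith
  have c3 : 2 * K * K0 ^ 2 * B ^ 2 ≤ C' := by
    rw [hC']
    have : 0 ≤ K1 * (M1 * C) := by positivity
    have : 0 ≤ (M1 + C) * K2 := by positivity
    linarith
  have hC'1 : 1 ≤ C' := by
    refine le_trans ?_ c1
    exact one_le_mul_of_one_le_of_one_le hK1 (one_le_mul_of_one_le_of_one_le hM11 hC)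
  -- the map to the sphere
  have hnorm : ∀ y : {p // p ∈ Hyp f c E A}, Psn f c y.1 ∈ Metric.sphere (0 : VV L M) 1 := fun y => by
    rw [mem_sphere_zero_iff_norm]
    exact hS.norm y.1 y.2
  obtain ⟨Ψ, hΨ⟩ : ∃ Ψ : {p // p ∈ Hyp f c E A} → Metric.sphere (0 : VV L M) 1,
      Ψ = fun y => ⟨Psn f c y.1, hnorm y⟩ := ⟨_, rfl⟩
  have hdist : ∀ y y', dist (Ψ y) (Ψ y') = ‖Psn f c y.1 - Psn f c y'.1‖ := by
    intro y y'
    rw [hΨ, Subtype.dist_eq, dist_eq_norm]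
  have hinj : Function.Injective Ψ := by
    intro y y' hyy
    have h0 : ‖Psn f c y.1 - Psn f c y'.1‖ = 0 := by rw [← hdist, hyy, dist_self]
    have hD := Dz_pos y.2.1
    have h1 := hS.lo y.1 y.2 y'.1 y'.2 (by rw [h0]; positivity)
    rw [h0, mul_zero] at h1
    have h2 := norm_nonneg (y.1.2 - y'.1.2)
    have h3 := norm_nonneg (y.1.1 - y'.1.1)
    have h4 : 0 ≤ Dz y.1.2 * ‖y.1.1 - y'.1.1‖ := mul_nonneg hD.le h3
    have h5 : ‖y.1.2 - y'.1.2‖ = 0 := by linarith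
    have h6 : Dz y.1.2 * ‖y.1.1 - y'.1.1‖ = 0 := by linarith
    have h7 : ‖y.1.1 - y'.1.1‖ = 0 := by
      rcases mul_eq_zero.1 h6 with h8 | h8
      · exact absurd h8 hD.ne'
      · exact h8
    refine Subtype.ext (Prod.ext ?_ ?_)
    · exact sub_eq_zero.1 (norm_eq_zero.1 h7)
    · exact sub_eq_zero.1 (norm_eq_zero.1 h5)
  have hdense : DenseRange Ψ := by
    refine (dense_dir hL).mono ?_
    rintro v ⟨w, z, hw, hv⟩
    have hn : ‖(pr w z : VV L M)‖ = 1 := by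
      rw [← hv]
      have := v.2
      rwa [mem_sphere_zero_iff_norm] at this
    obtain ⟨p, hp, hpv⟩ := hS.dir w z hw hn
    refine ⟨⟨p, hp⟩, ?_⟩
    rw [hΨ]
    apply Subtype.ext
    simp only
    rw [hpv, hv]
  obtain ⟨actY, hactY⟩ : ∃ actY : G → {p // p ∈ Hyp f c E A} → {p // p ∈ Hyp f c E A},
      ∀ g y, (actY g y).1 = act g y.1 :=
    ⟨fun g y => ⟨act g y.1, hA.maps g y.1 y.2.1 y.2.2⟩, fun _ _ => rfl⟩
  refine ⟨Set.range Ψ, ?_⟩
  suffices hP : ∃ (act' : G → Metric.sphere (0 : VV L M) 1 → Metric.sphere (0 : VV L M) 1)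
      (L' : Metric.sphere (0 : VV L M) 1 → G → Prop),
      PreAct d (Set.range Ψ) act' L' lam η' C' (Real.log (C * (25 * W ^ 4)) / lam) by
    obtain ⟨act', L', hP⟩ := hP
    exact ⟨act', L', η', C', _, hP⟩
  refine PreAct.of_type (d := d) (lam := lam) (η := η') (C' := C')
    (D := Real.log (C * (25 * W ^ 4)) / lam) Ψ hinj actY (fun y a => Lo y.1 a) hlam hη'0 hC'1
    hdense ⟨⟨p0, hp0⟩⟩ (fun y => Subtype.ext ((hactY 1 y).trans (hA.one y.1 y.2.1 y.2.2)))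
    (fun g k y => Subtype.ext (by
      rw [hactY, hactY, hactY]
      exact hA.mul g k y.1 y.2.1 y.2.2))
    (fun y => hA.loc y.1 y.2.1 y.2.2)
    (fun g y a ha => by
      rw [hactY]
      exact hA.locg g y.1 y.2.1 y.2.2 a ha)
    ?_ ?_ ?_ ?_ ?_
  · -- locd
    intro y a b ha hb
    have h1 := om_tri (hf.ball a) y.2.1 (hf.ball b)
    have h2 := hclose y.1 y.2 a ha
    have h3 := hclose y.1 y.2 b hb
    rw [om_symm] at h3
    have h4 := one_le_om (hf.ball a) y.2.1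
    have h5 := one_le_om y.2.1 (hf.ball b)
    have h6 : om (f a) (f b) ≤ 5 * W ^ 2 := by
      have : om (f a) y.1.2 * om y.1.2 (f b) ≤ W * W :=
        mul_le_mul h2 h3 (by linarith) (by linarith)
      linarith
    have h7 := hf.le_om_sq a b
    rw [inv_mul_le_iff₀ hC0] at h7
    have h8 : om (f a) (f b) ^ 2 ≤ (5 * W ^ 2) ^ 2 :=
      pow_le_pow_left₀ (zero_le_one.trans (one_le_om (hf.ball a) (hf.ball b))) h6 2
    have h9 : Real.exp (lam * d a b) ≤ C * (25 * W ^ 4) := by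
      refine h7.trans (mul_le_mul_of_nonneg_left (h8.trans (le_of_eq ?_)) hC0.le)
      ring
    rw [le_div_iff₀ hlam, mul_comm]
    rw [← Real.log_exp (lam * d a b)]
    exact Real.log_le_log (Real.exp_pos _) h9
  · -- low
    intro y y' a b ha hb
    have h1 := (SPre_cmp hf hS y.2 y'.2 (hclose y.1 y.2 a ha) (hclose y'.1 y'.2 b hb)).1
    rw [← hM1] at h1
    have h2 := hlow a b
    rw [hdist]
    obtain ⟨s, hs⟩ : ∃ s, s = ‖Psn f c y.1 - Psn f c y'.1‖ := ⟨_, rfl⟩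
    rw [← hs] at h1 ⊢
    have hs0 : 0 ≤ s := by rw [hs]; exact norm_nonneg _
    have h3 := hf.Dz_le a
    have h4 := hf.Dz_le b
    have e1 := Real.exp_pos (-lam * d 1 a)
    have e2 := Real.exp_pos (-lam * d 1 b)
    have h5 : De (f a) (f b) ≤ M1 * C * (s + Real.exp (-lam * d 1 a) + Real.exp (-lam * d 1 b)) := by
      have h6 : M1 * (Dz (f a) + Dz (f b)) ≤
          M1 * (C * Real.exp (-lam * d 1 a) + C * Real.exp (-lam * d 1 b)) :=
        mul_le_mul_of_nonneg_left (by linarith) (by linarith)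
      have h7 : s ≤ M1 * C * s :=
        le_mul_of_one_le_left hs0 (one_le_mul_of_one_le_of_one_le hM11 hC)
      linarith
    calc Real.exp (-lam * gpr d a b) ≤ K1 * De (f a) (f b) := h2
      _ ≤ K1 * (M1 * C * (s + Real.exp (-lam * d 1 a) + Real.exp (-lam * d 1 b))) :=
          mul_le_mul_of_nonneg_left h5 (by linarith)
      _ = K1 * (M1 * C) * (s + Real.exp (-lam * d 1 a) + Real.exp (-lam * d 1 b)) := by ring
      _ ≤ C' * (s + Real.exp (-lam * d 1 a) + Real.exp (-lam * d 1 b)) :=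
          mul_le_mul_of_nonneg_right c1 (by positivity)
  · -- up
    intro y y' a b ha hb
    have h1 := (SPre_cmp hf hS y.2 y'.2 (hclose y.1 y.2 a ha) (hclose y'.1 y'.2 b hb)).2
    rw [← hM1] at h1
    have h2 := hup a b
    rw [hdist]
    have h3 := hf.le_Dz a
    have h4 := hf.le_Dz b
    rw [inv_mul_le_iff₀ hC0] at h3 h4
    have pa := Dz_pos (hf.ball a)
    have pb := Dz_pos (hf.ball b)
    have h5 : C * Dz (f a) + C * Dz (f b) ≤ C * De (f a) (f b) := by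
      rw [← mul_add]
      refine mul_le_mul_of_nonneg_left ?_ hC0.le
      unfold De
      linarith [norm_nonneg (f a - f b)]
    have h6 : (M1 + C) * De (f a) (f b) ≤ (M1 + C) * (K2 * Real.exp (-lam * gpr d a b)) :=
      mul_le_mul_of_nonneg_left h2 (by linarith)
    have h7 : (M1 + C) * K2 * Real.exp (-lam * gpr d a b) ≤ C' * Real.exp (-lam * gpr d a b) :=
      mul_le_mul_of_nonneg_right c2 (Real.exp_pos _).le
    linarith
  · -- near
    intro y y' a ha hd g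
    rw [hdist] at hd ⊢
    rw [hdist, hactY, hactY]
    obtain ⟨t, ht⟩ : ∃ t, t = ‖Psn f c y.1 - Psn f c y'.1‖ := ⟨_, rfl⟩
    rw [← ht] at hd ⊢
    have ht0 : 0 ≤ t := by rw [ht]; exact norm_nonneg _
    obtain ⟨p, hp⟩ := y
    obtain ⟨q, hq⟩ := y'
    simp only at ht ha hd ⊢
    have hD := Dz_pos hp.1
    obtain ⟨k1, k2⟩ := hcmp p hp a ha
    have htD : t ≤ η' * (B * Dz p.2) := hd.trans (mul_le_mul_of_nonneg_left k2 hη'0.le)
    have hKK : 1 ≤ K * K0 := one_le_mul_of_one_le_of_one_le hK hK0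
    have hBη : B * η' ≤ m := by
      rw [← hη'eq]
      have h1 : 0 ≤ B * η' := by positivity
      have h2 := mul_le_mul_of_nonneg_right hKK h1
      linarith
    have hlo := hS.lo p hp q hq (by
      rw [← ht]
      calc t ≤ η' * (B * Dz p.2) := htD
        _ = (B * η') * Dz p.2 := by ring
        _ ≤ η0 * Dz p.2 := mul_le_mul_of_nonneg_right (hBη.trans hmη0) hD.le)
    rw [← ht] at hlo
    obtain ⟨n1, n2⟩ := one_sub_norm_le hp.1
    have hz1 : 0 < 1 - ‖p.2‖ := by linarith [hp.1]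
    have hrd : rd p q ≤ 2 * K0 * t / Dz p.2 := by
      unfold rd
      have e1 : ‖p.2 - q.2‖ / (1 - ‖p.2‖) ≤ 2 * ‖p.2 - q.2‖ / Dz p.2 := by
        rw [div_le_div_iff₀ hz1 hD]
        have := mul_le_mul_of_nonneg_left n2 (norm_nonneg (p.2 - q.2))
        linarith
      have e2 : ‖p.1 - q.1‖ + 2 * ‖p.2 - q.2‖ / Dz p.2 =
          (Dz p.2 * ‖p.1 - q.1‖ + 2 * ‖p.2 - q.2‖) / Dz p.2 := by field_simp
      have e3 : (Dz p.2 * ‖p.1 - q.1‖ + 2 * ‖p.2 - q.2‖) / Dz p.2 ≤ 2 * K0 * t / Dz p.2 := by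
        refine div_le_div_of_nonneg_right ?_ hD.le
        have e4 : 0 ≤ Dz p.2 * ‖p.1 - q.1‖ := mul_nonneg hD.le (norm_nonneg _)
        linarith
      linarith
    have hr1 : 2 * K0 * t / Dz p.2 ≤ 2 * K0 * (B * η') := by
      rw [div_le_iff₀ hD]
      have := mul_le_mul_of_nonneg_left htD (by linarith : (0 : ℝ) ≤ 2 * K0)
      linarith
    have hr2 : K * (2 * K0 * (B * η')) = m / 360 := by
      rw [← hη'eq]; ring
    have hr3 : 2 * K0 * (B * η') ≤ K * (2 * K0 * (B * η')) :=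
      le_mul_of_one_le_left (by positivity) hK
    have hlip := hA.lip p q hp.1 hq.1 hp.2 hq.2 (by linarith) g
    have hgp := hA.maps g p hp.1 hp.2
    have hgq := hA.maps g q hq.1 hq.2
    have hDg := Dz_pos hgp.1
    obtain ⟨n3, -⟩ := one_sub_norm_le hgp.1
    have hz2 : 0 < 1 - ‖(act g p).2‖ := by linarith [hgp.1]
    obtain ⟨r, hr⟩ : ∃ r, r = K * (2 * K0 * t / Dz p.2) := ⟨_, rfl⟩
    have hr0 : 0 ≤ r := by rw [hr]; positivity
    have hlip' : rd (act g p) (act g q) ≤ r := by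
      rw [hr]
      exact hlip.trans (mul_le_mul_of_nonneg_left hrd (by linarith))
    have hr360 : r ≤ 1 / 360 := by
      rw [hr]
      have := mul_le_mul_of_nonneg_left hr1 (by linarith : (0 : ℝ) ≤ K)
      linarith
    have hzg : ‖(act g p).2 - (act g q).2‖ ≤
        Dz (act g p).2 * (‖(act g p).2 - (act g q).2‖ / (1 - ‖(act g p).2‖)) := by
      have e1 : ‖(act g p).2 - (act g q).2‖ =
          (1 - ‖(act g p).2‖) * (‖(act g p).2 - (act g q).2‖ / (1 - ‖(act g p).2‖)) := by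
        field_simp
      calc ‖(act g p).2 - (act g q).2‖ =
          (1 - ‖(act g p).2‖) * (‖(act g p).2 - (act g q).2‖ / (1 - ‖(act g p).2‖)) := e1
        _ ≤ _ := mul_le_mul_of_nonneg_right n3 (div_nonneg (norm_nonneg _) hz2.le)
    have hsum : ‖(act g p).2 - (act g q).2‖ + Dz (act g p).2 * ‖(act g p).1 - (act g q).1‖ ≤
        Dz (act g p).2 * r := by
      have e1 := mul_le_mul_of_nonneg_left hlip' hDg.le
      unfold rd at e1
      rw [mul_add] at e1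
      linarith
    have hzg2 : ‖(act g p).2 - (act g q).2‖ ≤ Dz (act g p).2 / 360 := by
      have e1 : 0 ≤ Dz (act g p).2 * ‖(act g p).1 - (act g q).1‖ := mul_nonneg hDg.le (norm_nonneg _)
      have e2 := mul_le_mul_of_nonneg_left hr360 hDg.le
      linarith
    have hupg := hS.up (act g p) hgp (act g q) hgq hzg2
    have hupg2 : ‖Psn f c (act g p) - Psn f c (act g q)‖ ≤ K0 * (Dz (act g p).2 * r) :=
      hupg.trans (mul_le_mul_of_nonneg_left hsum (by linarith))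
    obtain ⟨k3, -⟩ := hcmp (act g p) hgp (g * a) (hA.locg g p hp.1 hp.2 a ha)
    have hexp : Real.exp (lam * ((d 1 a : ℝ) - d 1 (g * a))) * Real.exp (-lam * d 1 a) =
        Real.exp (-lam * d 1 (g * a)) := by
      rw [← Real.exp_add]
      congr 1
      ring
    have hfin : Dz (act g p).2 ≤
        B ^ 2 * Real.exp (lam * ((d 1 a : ℝ) - d 1 (g * a))) * Dz p.2 := by
      have e0 := Real.exp_pos (lam * ((d 1 a : ℝ) - d 1 (g * a)))
      calc Dz (act g p).2 ≤ B * Real.exp (-lam * d 1 (g * a)) := k3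
        _ = B * (Real.exp (lam * ((d 1 a : ℝ) - d 1 (g * a))) * Real.exp (-lam * d 1 a)) := by
            rw [hexp]
        _ ≤ B * (Real.exp (lam * ((d 1 a : ℝ) - d 1 (g * a))) * (B * Dz p.2)) :=
            mul_le_mul_of_nonneg_left (mul_le_mul_of_nonneg_left k2 e0.le) (by linarith)
        _ = _ := by ring
    have e0 := Real.exp_pos (lam * ((d 1 a : ℝ) - d 1 (g * a)))
    calc ‖Psn f c (act g p) - Psn f c (act g q)‖ ≤ K0 * (Dz (act g p).2 * r) := hupg2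
      _ ≤ K0 * (B ^ 2 * Real.exp (lam * ((d 1 a : ℝ) - d 1 (g * a))) * Dz p.2 * r) :=
          mul_le_mul_of_nonneg_left (mul_le_mul_of_nonneg_right hfin hr0) (by linarith)
      _ = 2 * K * K0 ^ 2 * B ^ 2 * Real.exp (lam * ((d 1 a : ℝ) - d 1 (g * a))) * t := by
          rw [hr]
          field_simp
      _ ≤ C' * Real.exp (lam * ((d 1 a : ℝ) - d 1 (g * a))) * t :=
          mul_le_mul_of_nonneg_right (mul_le_mul_of_nonneg_right c3 e0.le) ht0
  · -- faith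
    intro g hg
    obtain ⟨p, hp1, hp2, hp3⟩ := hA.faith g hg
    refine ⟨⟨p, hp1, hp2⟩, fun h0 => hp3 ?_⟩
    have h1 := congrArg Subtype.val h0
    rw [hactY] at h1
    exact h1

end Pool.HQ
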