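import Mathlib

/-!
MODULE SVec (MP_7936f4_al, star-shapedness block): the Euclidean product space, normalisation of vectors,
density of directions.

PROOFS.  norm_pr_sq: WithLp.prod_norm_sq_eq_of_L2.  nz_sub_le:
|v/|v| - v'/|v'|| <= |v - v'|/|v| + |v'| |1/|v| - 1/|v'|| = |v - v'|/|v| + ||v'| - |v||/|v| <= 2 |v - v'|/|v|.
dense_dir: let v = pr w z be a unit vector; if w ≠ 0 nothing to do.  If w = 0 take e = unit vector of R^L (L > 0) and
v_t = nz (pr (t e) z), t > 0 small: |v_t - v| <= 2 |t| (nz_sub_le, nz v = v).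
sphere_equiv: a linear isometry equivalence with the standard space (both have dimension L + M: use
LinearIsometryEquiv.ofFinrankEq or stdOrthonormalBasis; finrank of WithLp 2 of a product).
-/

namespace Pool.HQ

/-- The Euclidean product. -/
abbrev VV (L M : ℕ) : Type := WithLp 2 (EuclideanSpace ℝ (Fin L) × EuclideanSpace ℝ (Fin M))

variable {L M : ℕ}

/-- The vector (w,z). -/
noncomputable def pr (w : EuclideanSpace ℝ (Fin L)) (z : EuclideanSpace ℝ (Fin M)) : VV L M :=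
  WithLp.toLp 2 (w, z)

theorem norm_pr_sq (w : EuclideanSpace ℝ (Fin L)) (z : EuclideanSpace ℝ (Fin M)) :
    ‖pr w z‖ ^ 2 = ‖w‖ ^ 2 + ‖z‖ ^ 2 := by
  rw [WithLp.prod_norm_sq_eq_of_L2]
  rfl

theorem norm_fst_le (w : EuclideanSpace ℝ (Fin L)) (z : EuclideanSpace ℝ (Fin M)) :
    ‖w‖ ≤ ‖pr w z‖ := by
  have h := norm_pr_sq w z
  have h1 : ‖w‖ ^ 2 ≤ ‖pr w z‖ ^ 2 := by nlinarith [sq_nonneg ‖z‖]
  exact (pow_le_pow_iff_left₀ (norm_nonneg _) (norm_nonneg _) two_ne_zero).1 h1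

theorem norm_snd_le (w : EuclideanSpace ℝ (Fin L)) (z : EuclideanSpace ℝ (Fin M)) :
    ‖z‖ ≤ ‖pr w z‖ := by
  have h := norm_pr_sq w z
  have h1 : ‖z‖ ^ 2 ≤ ‖pr w z‖ ^ 2 := by nlinarith [sq_nonneg ‖w‖]
  exact (pow_le_pow_iff_left₀ (norm_nonneg _) (norm_nonneg _) two_ne_zero).1 h1

theorem norm_pr_le (w : EuclideanSpace ℝ (Fin L)) (z : EuclideanSpace ℝ (Fin M)) :
    ‖pr w z‖ ≤ ‖w‖ + ‖z‖ := by
  have h := norm_pr_sq w z
  have h1 : ‖pr w z‖ ^ 2 ≤ (‖w‖ + ‖z‖) ^ 2 := by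
    nlinarith [mul_nonneg (norm_nonneg w) (norm_nonneg z)]
  exact (pow_le_pow_iff_left₀ (norm_nonneg _) (by positivity) two_ne_zero).1 h1

theorem pr_sub (w w' : EuclideanSpace ℝ (Fin L)) (z z' : EuclideanSpace ℝ (Fin M)) :
    pr w z - pr w' z' = pr (w - w') (z - z') := rfl

theorem pr_smul (s : ℝ) (w : EuclideanSpace ℝ (Fin L)) (z : EuclideanSpace ℝ (Fin M)) :
    s • pr w z = pr (s • w) (s • z) := rfl

theorem pr_inj {w w' : EuclideanSpace ℝ (Fin L)} {z z' : EuclideanSpace ℝ (Fin M)}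
    (h : pr w z = pr w' z') : w = w' ∧ z = z' := by
  have h1 := congrArg WithLp.ofLp h
  have h2 : ((w, z) : EuclideanSpace ℝ (Fin L) × EuclideanSpace ℝ (Fin M)) = (w', z') := h1
  exact Prod.mk.injEq _ _ _ _ ▸ h2

theorem exists_pr (v : VV L M) : ∃ w z, v = pr w z := ⟨v.ofLp.1, v.ofLp.2, rfl⟩

/-- Normalisation. -/
noncomputable def nz (v : VV L M) : VV L M := ‖v‖⁻¹ • v

theorem norm_nz {v : VV L M} (hv : v ≠ 0) : ‖nz v‖ = 1 := by
  have h : ‖v‖ ≠ 0 := norm_ne_zero_iff.2 hv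
  rw [nz, norm_smul, norm_inv, norm_norm, inv_mul_cancel₀ h]

theorem norm_smul_nz (v : VV L M) : ‖v‖ • nz v = v := by
  by_cases hv : v = 0
  · subst hv
    simp
  · have h : ‖v‖ ≠ 0 := norm_ne_zero_iff.2 hv
    rw [nz, smul_smul, mul_inv_cancel₀ h, one_smul]

theorem nz_smul {s : ℝ} (hs : 0 < s) (v : VV L M) : nz (s • v) = nz v := by
  rw [nz, nz, norm_smul, Real.norm_eq_abs, abs_of_pos hs, smul_smul, mul_inv]
  congr 1
  field_simp

theorem nz_of_norm {v : VV L M} (hv : ‖v‖ = 1) : nz v = v := by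
  rw [nz, hv, inv_one, one_smul]

theorem nz_sub_le {v v' : VV L M} (hv : v ≠ 0) (hv' : v' ≠ 0) :
    ‖nz v - nz v'‖ ≤ 2 * ‖v - v'‖ / ‖v‖ := by
  have h : 0 < ‖v‖ := norm_pos_iff.2 hv
  have h' : 0 < ‖v'‖ := norm_pos_iff.2 hv'
  have e : nz v - nz v' = ‖v‖⁻¹ • (v - v') + (‖v‖⁻¹ * (‖v'‖ - ‖v‖)) • nz v' := by
    have h1 : (‖v‖⁻¹ * (‖v'‖ - ‖v‖)) • nz v' = ‖v‖⁻¹ • v' - nz v' := by
      rw [mul_sub, sub_smul, mul_smul, norm_smul_nz, inv_mul_cancel₀ h.ne', one_smul]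
    rw [h1, smul_sub, nz]
    abel
  rw [e]
  have h2 : |‖v'‖ - ‖v‖| ≤ ‖v - v'‖ := by
    rw [norm_sub_rev]
    exact abs_norm_sub_norm_le v' v
  calc ‖‖v‖⁻¹ • (v - v') + (‖v‖⁻¹ * (‖v'‖ - ‖v‖)) • nz v'‖
      ≤ ‖‖v‖⁻¹ • (v - v')‖ + ‖(‖v‖⁻¹ * (‖v'‖ - ‖v‖)) • nz v'‖ := norm_add_le _ _
    _ = ‖v‖⁻¹ * ‖v - v'‖ + ‖v‖⁻¹ * |‖v'‖ - ‖v‖| := by
        rw [norm_smul, norm_smul, norm_nz hv', mul_one, norm_inv, norm_norm, norm_mul, norm_inv,
          norm_norm, Real.norm_eq_abs]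
    _ ≤ ‖v‖⁻¹ * ‖v - v'‖ + ‖v‖⁻¹ * ‖v - v'‖ := by
        have := mul_le_mul_of_nonneg_left h2 (inv_nonneg.2 h.le)
        linarith
    _ = 2 * ‖v - v'‖ / ‖v‖ := by
        field_simp
        ring

theorem dense_dir (hL : 0 < L) :
    Dense {v : Metric.sphere (0 : VV L M) 1 | ∃ w z, w ≠ 0 ∧ (v : VV L M) = pr w z} := by
  rw [Metric.dense_iff]
  intro x r hr
  obtain ⟨w, z, hx⟩ := exists_pr (x : VV L M)
  have hx1 : ‖(x : VV L M)‖ = 1 := by
    have := x.2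
    rwa [mem_sphere_zero_iff_norm] at this
  by_cases hw : w = 0
  · set e : EuclideanSpace ℝ (Fin L) := EuclideanSpace.single ⟨0, hL⟩ (1 : ℝ) with he
    have hen : ‖e‖ = 1 := by
      rw [he, PiLp.norm_single, norm_one]
    have hene : e ≠ 0 := by
      intro h
      rw [h, norm_zero] at hen
      exact zero_ne_one hen
    set t : ℝ := r / 4 with ht
    have ht0 : 0 < t := by positivity
    set v : VV L M := pr (t • e) z with hv
    have hsub : ‖(x : VV L M) - v‖ ≤ t := by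
      rw [hx, hv, pr_sub, hw]
      refine (norm_pr_le _ _).trans ?_
      rw [zero_sub, norm_neg, norm_smul, hen, sub_self, norm_zero, Real.norm_eq_abs,
        abs_of_pos ht0]
      simp
    have hvne : v ≠ 0 := by
      intro h
      have h1 := norm_fst_le (t • e) z
      rw [← hv, h, norm_zero, norm_smul, hen, mul_one, Real.norm_eq_abs, abs_of_pos ht0] at h1
      linarith
    have hxne : (x : VV L M) ≠ 0 := by
      intro h
      rw [h, norm_zero] at hx1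
      exact zero_ne_one hx1
    have hvpos : 0 < ‖v‖ := norm_pos_iff.2 hvne
    refine ⟨⟨nz v, by rw [mem_sphere_zero_iff_norm]; exact norm_nz hvne⟩, ?_, ?_⟩
    · rw [Metric.mem_ball, Subtype.dist_eq, dist_comm, dist_eq_norm]
      have h1 := nz_sub_le hxne hvne
      rw [nz_of_norm hx1, hx1, div_one] at h1
      refine lt_of_le_of_lt h1 ?_
      have h2 : 2 * ‖(x : VV L M) - v‖ ≤ 2 * t := by linarith
      refine lt_of_le_of_lt h2 ?_
      rw [ht]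
      linarith
    · refine ⟨‖v‖⁻¹ • (t • e), ‖v‖⁻¹ • z, ?_, ?_⟩
      · exact smul_ne_zero (inv_ne_zero hvpos.ne') (smul_ne_zero ht0.ne' hene)
      · change nz v = _
        rw [nz, ← pr_smul]
  · exact ⟨x, Metric.mem_ball_self hr, w, z, hw, hx⟩

theorem sphere_equiv (L M : ℕ) :
    Nonempty (Metric.sphere (0 : VV L M) 1 ≃ᵢ
      Metric.sphere (0 : EuclideanSpace ℝ (Fin (L + M))) 1) := by
  have hfin : Module.finrank ℝ (VV L M) = Module.finrank ℝ (EuclideanSpace ℝ (Fin (L + M))) := by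
    rw [(WithLp.linearEquiv 2 ℝ (EuclideanSpace ℝ (Fin L) × EuclideanSpace ℝ (Fin M))).finrank_eq]
    simp
  have hfin' : Module.finrank ℝ (VV L M) = L + M := by
    rw [hfin]
    simp
  let φ : VV L M ≃ₗᵢ[ℝ] EuclideanSpace ℝ (Fin (L + M)) :=
    ((stdOrthonormalBasis ℝ (VV L M)).reindex (finCongr hfin')).repr
  refine ⟨⟨⟨fun v => ⟨φ v, ?_⟩, fun v => ⟨φ.symm v, ?_⟩, ?_, ?_⟩, ?_⟩⟩
  · have := v.2
    rw [mem_sphere_zero_iff_norm] at this ⊢
    rw [φ.norm_map]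
    exact this
  · have := v.2
    rw [mem_sphere_zero_iff_norm] at this ⊢
    rw [φ.symm.norm_map]
    exact this
  · intro v
    apply Subtype.ext
    simp
  · intro v
    apply Subtype.ext
    simp
  · intro v v'
    exact φ.isometry v v'

end Pool.HQ
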