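import Pool.Agent.HQ.SRay
import Pool.Agent.HQ.SVec

/-!
MODULE SPsi (MP_7936f4_al, star-shapedness block): the radial projection of the hypersurface Phi = A onto the
unit sphere of R^L x R^M and its metric properties.

Psn p = nz (pr w z), where p = (X,z), w = Wc X z.  Every point of the hypersurface satisfies Ph w z = A (Ph_Wc),
|w| <= (A+1) D (norm_w_le), |X| <= A (norm_le_Phi), D = Dz z, and 1 - |z| <= D (D = (1-|z|)(1+|z|)).
Constants: C0 of dec_exists, assume A >= max (C0 + 1) 2 (A0 below); Ph 0 0 <= 11/10 (Ph_zero).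

norm_low: there is c1 in (0,1] (dependent on c, E, A) with c1 <= |pr w z| for all p of the hypersurface: K of Ph_near
 at (0,0) with B = 2, D = 1: if |w|, |z| <= 1/360 then A - 11/10 <= K (|w| + |z|); hence
 |w| + |z| >= min (1/360) (1/(2K)) [A - 11/10 >= 1/2] and |w| + |z| <= 2 |pr w z|.
norm_up: |pr w z| <= |w| + |z| <= (A+1) + 1.
pr_close (KEY): p, p' of the hypersurface, v = Psn p, v' = Psn p', eps = |v - v'| <= eta1 D.  Let rho = |pr w z|,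
 rho' = |pr w' z'|, q = rho v' = (rho/rho') (w', z'), |q - pr w z| = rho eps <= (A+2) eps.  So q = (w_q, z_q) with
 |z_q - z|, |w_q - w| <= (A+2) eps <= D/360, |z_q| < 1 (1 - |z| >= D/2), and Ph_near (B = A):
 |Ph q - A| <= 2 K (A+2) eps / D =: kappa (small if eta1 is small, in particular kappa < 1/10800 and Ph q > C0).
 Case rho <= rho': q = s (w',z'), s = rho/rho' <= 1: ray_key for (w',z') and s: 1 - s <= 30 kappa Dz z', and
 Dz z' <= Dz (s z') = Dz z_q <= 2 D (Dz_smul_ge, Dz_near).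
 Case rho' < rho: (w', z') = s q, s = rho'/rho: ray_key for q and s (Ph (s q) = A > C0, Ph q - A <= kappa):
 1 - s <= 30 kappa Dz z_q <= 60 kappa D.
 In both cases |rho - rho'| = (1 - s) max (rho, rho') <= 60 kappa D (A+2) <= C5 eps and
 |pr w z - pr w' z'| <= |pr w z - q| + |rho - rho'| <= C6 eps.
sph_up: |Psn p - Psn q| <= 2 |pr w z - pr w' z'|/c1 (nz_sub_le, norm_low) and Wc_near.
sph_lo: pr_close, then Xc_near with B = A + 1 (X = Xc w z by Xc_Wc), K (B+1) 2 C6 eps / D.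
sph_vert: |nz (pr w z) - pr 0 z| <= |w|/rho + |z| |1/rho - 1| <= |w|/c1 + |1 - rho| (|z| <= rho) and
 |1 - rho| <= (1 - |z|) + |w|  (||pr w z| - |z|| <= |w|).
sph_dir: ray_cross (Ph 0 0 <= 11/10 < A) gives rho with Ph (rho w) (rho z) = A; p = (Xc (rho w) (rho z), rho z);
 Wc_Xc, nz_smul, nz_of_norm.
-/

namespace Pool.HQ

variable {G : Type} [Group G] {d : G → G → ℕ} {M L : ℕ} {lam C : ℝ}
  {f : G → EuclideanSpace ℝ (Fin M)} {E : ℝ}

omit [Group G] in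
/-- The vector (w,z) of the point p = (X,z). -/
noncomputable def vec (f : G → EuclideanSpace ℝ (Fin M)) (c : G → Fin L)
    (p : EuclideanSpace ℝ (Fin L) × EuclideanSpace ℝ (Fin M)) : VV L M := pr (Wc f c p.1 p.2) p.2

omit [Group G] in
/-- The radial projection. -/
noncomputable def Psn (f : G → EuclideanSpace ℝ (Fin M)) (c : G → Fin L)
    (p : EuclideanSpace ℝ (Fin L) × EuclideanSpace ℝ (Fin M)) : VV L M := nz (vec f c p)

omit [Group G] in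
/-- The hypersurface. -/
def Hyp (f : G → EuclideanSpace ℝ (Fin M)) (c : G → Fin L) (E A : ℝ) :
    Set (EuclideanSpace ℝ (Fin L) × EuclideanSpace ℝ (Fin M)) := {p | ‖p.2‖ < 1 ∧ Phi f c E p = A}


omit [Group G] in
theorem vec_eq (c : G → Fin L) (p : EuclideanSpace ℝ (Fin L) × EuclideanSpace ℝ (Fin M)) :
    vec f c p = pr (Wc f c p.1 p.2) p.2 := rfl

omit [Group G] in
theorem Hyp_Ph (c : G → Fin L) {A : ℝ} {p : EuclideanSpace ℝ (Fin L) × EuclideanSpace ℝ (Fin M)}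
    (hp : p ∈ Hyp f c E A) : Ph f c E (Wc f c p.1 p.2) p.2 = A := by
  rw [Ph_Wc c p.1 hp.1]
  exact hp.2

theorem Hyp_w (h : HypM d) (hf : RoughSim d lam C f) (c : G → Fin L) (hE : 1 ≤ E) {A : ℝ}
    {p : EuclideanSpace ℝ (Fin L) × EuclideanSpace ℝ (Fin M)} (hp : p ∈ Hyp f c E A) :
    ‖Wc f c p.1 p.2‖ ≤ (A + 1) * Dz p.2 := by
  have h1 := norm_w_le h hf c hE (Wc f c p.1 p.2) hp.1
  rwa [Hyp_Ph c hp] at h1

theorem one_sub_norm_le_Dz {z : EuclideanSpace ℝ (Fin M)} (hz : ‖z‖ < 1) : 1 - ‖z‖ ≤ Dz z := by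
  unfold Dz
  have := norm_nonneg z
  nlinarith

theorem Dz_le_two {z : EuclideanSpace ℝ (Fin M)} (hz : ‖z‖ < 1) : Dz z ≤ 2 * (1 - ‖z‖) := by
  unfold Dz
  have := norm_nonneg z
  nlinarith

theorem norm_low (h : HypM d) (hf : RoughSim d lam C f) (c : G → Fin L) (hE : 1 ≤ E) {A : ℝ}
    (hA : 2 ≤ A) : ∃ c1 : ℝ, 0 < c1 ∧ c1 ≤ 1 ∧ ∀ p ∈ Hyp f c E A, c1 ≤ ‖vec f c p‖ := by
  obtain ⟨K, hK, hKn⟩ := Ph_near h hf c hE (B := 2) (by norm_num)
  have hK0 : 0 < K := by linarith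
  refine ⟨1 / (360 * K), by positivity, ?_, ?_⟩
  · rw [div_le_one (by positivity)]; linarith
  · intro p hp
    by_contra hcon
    push Not at hcon
    have hlt : 1 / (360 * K) ≤ 1 / 360 := by
      apply one_div_le_one_div_of_le (by norm_num); linarith
    have hw := norm_fst_le (Wc f c p.1 p.2) p.2
    have hz := norm_snd_le (Wc f c p.1 p.2) p.2
    rw [← vec_eq c p] at hw hz
    have hP0 := Ph_zero h hf c (by linarith : (0:ℝ) ≤ E)
    have hD0 : Dz (0 : EuclideanSpace ℝ (Fin M)) = 1 := by simp [Dz]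
    have h1 := hKn 0 (Wc f c p.1 p.2) 0 p.2 (by simp) hp.1 (by linarith)
      (by rw [hD0, zero_sub, norm_neg]; linarith) (by rw [hD0, zero_sub, norm_neg]; linarith)
    rw [hD0, zero_sub, zero_sub, norm_neg, norm_neg, div_one, Hyp_Ph c hp] at h1
    have h2 : K * (‖Wc f c p.1 p.2‖ + ‖p.2‖) ≤ K * (2 * (1 / (360 * K))) :=
      mul_le_mul_of_nonneg_left (by linarith) hK0.le
    have h3 : K * (2 * (1 / (360 * K))) = 1 / 180 := by field_simp; norm_num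
    have h4 := le_abs_self (A - Ph f c E 0 0)
    linarith

theorem norm_up (h : HypM d) (hf : RoughSim d lam C f) (c : G → Fin L) (hE : 1 ≤ E) {A : ℝ}
    (hA : 2 ≤ A) : ∀ p ∈ Hyp f c E A, ‖vec f c p‖ ≤ A + 2 := by
  intro p hp
  have h1 := norm_pr_le (Wc f c p.1 p.2) p.2
  rw [← vec_eq c p] at h1
  have h2 := Hyp_w h hf c hE hp
  have h3 := Dz_le_one p.2
  have h4 : (A + 1) * Dz p.2 ≤ (A + 1) * 1 := mul_le_mul_of_nonneg_left h3 (by linarith)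
  have h5 := hp.1
  linarith

theorem pr_close (h : HypM d) (hf : RoughSim d lam C f) (c : G → Fin L) (hE : 1 ≤ E) {C0 : ℝ}
    (hC0 : 1 ≤ C0) (hd : Dec f c E C0) {A : ℝ} (hA : C0 + 1 ≤ A) :
    ∃ K η : ℝ, 1 ≤ K ∧ 0 < η ∧ ∀ p ∈ Hyp f c E A, ∀ q ∈ Hyp f c E A,
      ‖Psn f c p - Psn f c q‖ ≤ η * Dz p.2 →
      ‖vec f c p - vec f c q‖ ≤ K * ‖Psn f c p - Psn f c q‖ := by
  have hA2 : 2 ≤ A := by linarith
  obtain ⟨K, hK, hKn⟩ := Ph_near h hf c hE (B := A) (by linarith)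
  have hK0 : 0 < K := by linarith
  obtain ⟨c1, hc1, hc11, hlow⟩ := norm_low h hf c hE hA2
  have hup := norm_up h hf c hE hA2
  have hA20 : 0 < A + 2 := by linarith
  have hKA : 0 < K * (A + 2) := by positivity
  refine ⟨(A + 2) + 120 * K * (A + 2) ^ 2, 1 / (43200 * K * (A + 2)), ?_, by positivity, ?_⟩
  · have : 0 ≤ 120 * K * (A + 2) ^ 2 := by positivity
    linarith
  intro p hp q hq hle
  have hz := hp.1
  have hz' := hq.1
  set w := Wc f c p.1 p.2 with hw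
  set z := p.2 with hzdef
  set w' := Wc f c q.1 q.2 with hw'
  set z' := q.2 with hzdef'
  have hD := Dz_pos hz
  set D := Dz z with hDdef
  have hPh : Ph f c E w z = A := Hyp_Ph c hp
  have hPh' : Ph f c E w' z' = A := Hyp_Ph c hq
  have hvp : vec f c p = pr w z := rfl
  have hvq : vec f c q = pr w' z' := rfl
  set ρ := ‖vec f c p‖ with hρ
  set ρ' := ‖vec f c q‖ with hρ'
  have hρ0 : 0 < ρ := lt_of_lt_of_le hc1 (hlow p hp)
  have hρ0' : 0 < ρ' := lt_of_lt_of_le hc1 (hlow q hq)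
  have hρu : ρ ≤ A + 2 := hup p hp
  have hρu' : ρ' ≤ A + 2 := hup q hq
  set ε := ‖Psn f c p - Psn f c q‖ with hε
  have hε0 : 0 ≤ ε := norm_nonneg _
  -- the point `r`
  have hvp2 : ρ • Psn f c p = pr w z := norm_smul_nz (vec f c p)
  have hvq2 : ρ' • Psn f c q = pr w' z' := norm_smul_nz (vec f c q)
  have hr : ρ • Psn f c q = pr ((ρ / ρ') • w') ((ρ / ρ') • z') := by
    rw [← pr_smul, ← hvq2, smul_smul, div_mul_cancel₀ _ hρ0'.ne']
  have hdist : ‖pr w z - ρ • Psn f c q‖ ≤ (A + 2) * ε := by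
    rw [← hvp2, ← smul_sub, norm_smul, Real.norm_of_nonneg hρ0.le]
    exact mul_le_mul_of_nonneg_right hρu hε0
  have hdist2 := hdist
  rw [hr, pr_sub] at hdist2
  have hw1 : ‖w - (ρ / ρ') • w'‖ ≤ (A + 2) * ε := (norm_fst_le _ _).trans hdist2
  have hz1 : ‖z - (ρ / ρ') • z'‖ ≤ (A + 2) * ε := (norm_snd_le _ _).trans hdist2
  have hηe : (A + 2) * ε ≤ D / (43200 * K) := by
    calc (A + 2) * ε ≤ (A + 2) * (1 / (43200 * K * (A + 2)) * D) :=
          mul_le_mul_of_nonneg_left hle hA20.le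
      _ = D / (43200 * K) := by field_simp
  have hη2 : D / (43200 * K) ≤ D / 43200 := by
    apply div_le_div_of_nonneg_left hD.le (by norm_num); linarith
  have hw2 : ‖w - (ρ / ρ') • w'‖ ≤ D / 360 := by linarith
  have hz2 : ‖z - (ρ / ρ') • z'‖ ≤ D / 360 := by linarith
  have hzr : ‖(ρ / ρ') • z'‖ < 1 := by
    have h1 : ‖(ρ / ρ') • z'‖ ≤ ‖z‖ + ‖z - (ρ / ρ') • z'‖ := by
      have := norm_sub_norm_le ((ρ / ρ') • z') z
      rw [norm_sub_rev] at this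
      linarith
    have h2 := Dz_le_two hz
    have h3 : 0 < D := hD
    linarith
  have hPr := hKn w ((ρ / ρ') • w') z ((ρ / ρ') • z') hz hzr hPh.le hw2 hz2
  rw [hPh] at hPr
  set κ := K * (2 * (A + 2) * ε / D) with hκ
  have hPr2 : |Ph f c E ((ρ / ρ') • w') ((ρ / ρ') • z') - A| ≤ κ := by
    refine hPr.trans (mul_le_mul_of_nonneg_left ?_ hK0.le)
    apply div_le_div_of_nonneg_right _ hD.le
    linarith
  have hκD : κ * D = 2 * K * (A + 2) * ε := by rw [hκ]; field_simp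
  have hκ0 : 0 ≤ κ := by rw [hκ]; positivity
  have hκs : κ < 1 / 10800 := by
    have h1 : κ * D ≤ D / 21600 := by
      rw [hκD]
      have h2 := mul_le_mul_of_nonneg_left hηe (by positivity : (0:ℝ) ≤ 2 * K)
      have h3 : 2 * K * (D / (43200 * K)) = D / 21600 := by field_simp; norm_num
      have h4 : 2 * K * (A + 2) * ε = 2 * K * ((A + 2) * ε) := by ring
      rw [h4, ← h3]
      exact h2
    have h2 : κ ≤ 1 / 21600 := by
      refine le_of_mul_le_mul_right (h1.trans (le_of_eq ?_)) hD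
      ring
    exact h2.trans_lt (by norm_num)
  obtain ⟨hPa, hPb⟩ := abs_le.mp hPr2
  have hDr := (Dz_near hz hzr hz2).1
  -- the difference of the radii
  have hrad : |ρ - ρ'| ≤ 60 * (A + 2) * (κ * D) := by
    rcases le_or_gt ρ ρ' with hc | hc
    · have hs0 : 0 < ρ / ρ' := div_pos hρ0 hρ0'
      have hs1 : ρ / ρ' ≤ 1 := (div_le_one hρ0').mpr hc
      have h1 := ray_key h hf c hE hC0 hd hz' hs0 hs1 (by linarith) (κ := κ)
        (by rw [hPh']; linarith) hκs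
      have h2 : Dz z' ≤ 2 * D := by
        have := Dz_smul_ge hs0.le hs1 z'
        linarith
      have h3 : 1 - ρ / ρ' ≤ 30 * κ * (2 * D) :=
        h1.trans (mul_le_mul_of_nonneg_left h2 (by positivity))
      have h4 : ρ' - ρ = (1 - ρ / ρ') * ρ' := by field_simp
      rw [abs_sub_comm, abs_of_nonneg (by linarith), h4]
      calc (1 - ρ / ρ') * ρ' ≤ (30 * κ * (2 * D)) * (A + 2) :=
            mul_le_mul h3 hρu' hρ0'.le (by positivity)
        _ = 60 * (A + 2) * (κ * D) := by ring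
    · have hs0 : 0 < ρ' / ρ := div_pos hρ0' hρ0
      have hs1 : ρ' / ρ ≤ 1 := (div_le_one hρ0).mpr hc.le
      have e1 : (ρ' / ρ) • (ρ / ρ') • w' = w' := by
        rw [smul_smul]
        have : ρ' / ρ * (ρ / ρ') = 1 := by field_simp
        rw [this, one_smul]
      have e2 : (ρ' / ρ) • (ρ / ρ') • z' = z' := by
        rw [smul_smul]
        have : ρ' / ρ * (ρ / ρ') = 1 := by field_simp
        rw [this, one_smul]
      have h1 := ray_key h hf c hE hC0 hd (w := (ρ / ρ') • w') hzr hs0 hs1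
        (by rw [e1, e2, hPh']; linarith) (κ := κ) (by rw [e1, e2, hPh']; linarith) hκs
      have h3 : 1 - ρ' / ρ ≤ 30 * κ * (2 * D) :=
        h1.trans (mul_le_mul_of_nonneg_left (by linarith) (by positivity))
      have h4 : ρ - ρ' = (1 - ρ' / ρ) * ρ := by field_simp
      rw [abs_of_nonneg (by linarith), h4]
      calc (1 - ρ' / ρ) * ρ ≤ (30 * κ * (2 * D)) * (A + 2) :=
            mul_le_mul h3 hρu hρ0.le (by positivity)
        _ = 60 * (A + 2) * (κ * D) := by ring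
  have hn1 : ‖Psn f c q‖ = 1 := norm_nz (by
    intro h0
    rw [hρ', h0, norm_zero] at hρ0'
    exact lt_irrefl _ hρ0')
  have hlast : ‖ρ • Psn f c q - vec f c q‖ = |ρ - ρ'| := by
    rw [hvq, ← hvq2, ← sub_smul, norm_smul, hn1, mul_one, Real.norm_eq_abs]
  calc ‖vec f c p - vec f c q‖
      ≤ ‖vec f c p - ρ • Psn f c q‖ + ‖ρ • Psn f c q - vec f c q‖ := by
        have := norm_add_le (vec f c p - ρ • Psn f c q) (ρ • Psn f c q - vec f c q)
        rwa [sub_add_sub_cancel] at this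
    _ ≤ (A + 2) * ε + 60 * (A + 2) * (κ * D) := by
        rw [hlast, hvp]
        exact add_le_add hdist hrad
    _ = ((A + 2) + 120 * K * (A + 2) ^ 2) * ε := by rw [hκD]; ring

theorem sph_up (h : HypM d) (hf : RoughSim d lam C f) (c : G → Fin L) (hE : 1 ≤ E) {A : ℝ}
    (hA : 2 ≤ A) :
    ∃ K : ℝ, 1 ≤ K ∧ ∀ p ∈ Hyp f c E A, ∀ q ∈ Hyp f c E A, ‖p.2 - q.2‖ ≤ Dz p.2 / 360 →
      ‖Psn f c p - Psn f c q‖ ≤ K * (‖p.2 - q.2‖ + Dz p.2 * ‖p.1 - q.1‖) := by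
  obtain ⟨c1, hc1, hc11, hlow⟩ := norm_low h hf c hE hA
  obtain ⟨K, hK, hKn⟩ := Wc_near h hf (M := M)
  have hKA : 0 ≤ K * (A + 1) := mul_nonneg (by linarith) (by linarith)
  refine ⟨2 / c1 * (K * (A + 1) + 1), ?_, ?_⟩
  · have h1 : 1 ≤ 2 / c1 := by rw [le_div_iff₀ hc1]; linarith
    nlinarith
  intro p hp q hq hle
  have hp0 : vec f c p ≠ 0 := by
    intro h0
    have := hlow p hp
    rw [h0, norm_zero] at this
    linarith
  have hq0 : vec f c q ≠ 0 := by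
    intro h0
    have := hlow q hq
    rw [h0, norm_zero] at this
    linarith
  have hD := Dz_pos hp.1
  have h1 := nz_sub_le hp0 hq0
  have hX : ‖q.1‖ ≤ A := by
    have := norm_le_Phi (c := c) hf hE hq.1 q.1
    exact this.trans hq.2.le
  have h2 := hKn L c A (by linarith) p.1 q.1 p.2 q.2 hp.1 hq.1 hX hle
  have h3 : ‖vec f c p - vec f c q‖ ≤ ‖Wc f c p.1 p.2 - Wc f c q.1 q.2‖ + ‖p.2 - q.2‖ := by
    rw [vec_eq, vec_eq, pr_sub]
    exact norm_pr_le _ _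
  have hz0 := norm_nonneg (p.2 - q.2)
  have hX0 := norm_nonneg (p.1 - q.1)
  have hDX : 0 ≤ Dz p.2 * ‖p.1 - q.1‖ := mul_nonneg hD.le hX0
  have h4 : ‖vec f c p - vec f c q‖ ≤ (K * (A + 1) + 1) * (‖p.2 - q.2‖ + Dz p.2 * ‖p.1 - q.1‖) := by
    nlinarith
  have h5 : 0 < ‖vec f c p‖ := norm_pos_iff.mpr hp0
  calc ‖Psn f c p - Psn f c q‖ ≤ 2 * ‖vec f c p - vec f c q‖ / ‖vec f c p‖ := h1
    _ ≤ 2 * ‖vec f c p - vec f c q‖ / c1 :=
        div_le_div_of_nonneg_left (by positivity) hc1 (hlow p hp)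
    _ = 2 / c1 * ‖vec f c p - vec f c q‖ := by ring
    _ ≤ 2 / c1 * ((K * (A + 1) + 1) * (‖p.2 - q.2‖ + Dz p.2 * ‖p.1 - q.1‖)) :=
        mul_le_mul_of_nonneg_left h4 (by positivity)
    _ = 2 / c1 * (K * (A + 1) + 1) * (‖p.2 - q.2‖ + Dz p.2 * ‖p.1 - q.1‖) := by ring

theorem sph_lo (h : HypM d) (hf : RoughSim d lam C f) (c : G → Fin L) (hE : 1 ≤ E) {C0 : ℝ}
    (hC0 : 1 ≤ C0) (hd : Dec f c E C0) {A : ℝ} (hA : C0 + 1 ≤ A) :
    ∃ K η : ℝ, 1 ≤ K ∧ 0 < η ∧ ∀ p ∈ Hyp f c E A, ∀ q ∈ Hyp f c E A,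
      ‖Psn f c p - Psn f c q‖ ≤ η * Dz p.2 →
      ‖p.2 - q.2‖ + Dz p.2 * ‖p.1 - q.1‖ ≤ K * ‖Psn f c p - Psn f c q‖ := by
  obtain ⟨K1, η1, hK1, hη1, hcl⟩ := pr_close h hf c hE hC0 hd hA
  obtain ⟨K2, hK2, hKn⟩ := Xc_near h hf (M := M)
  have hK10 : 0 < K1 := by linarith
  have hK20 : 0 < K2 := by linarith
  have hA0 : 0 < A := by linarith
  refine ⟨K1 + K2 * (A + 2) * (2 * K1), min η1 (1 / (360 * K1)), ?_, ?_, ?_⟩
  · have : 0 ≤ K2 * (A + 2) * (2 * K1) := by positivity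
    linarith
  · exact lt_min hη1 (by positivity)
  intro p hp q hq hle
  have hD := Dz_pos hp.1
  set D := Dz p.2 with hDdef
  set ε := ‖Psn f c p - Psn f c q‖ with hε
  have hε0 : 0 ≤ ε := norm_nonneg _
  have hle1 : ε ≤ η1 * D := hle.trans (mul_le_mul_of_nonneg_right (min_le_left _ _) hD.le)
  have hle2 : ε ≤ 1 / (360 * K1) * D :=
    hle.trans (mul_le_mul_of_nonneg_right (min_le_right _ _) hD.le)
  have h1 := hcl p hp q hq hle1
  rw [vec_eq, vec_eq, pr_sub] at h1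
  have hw1 := (norm_fst_le (Wc f c p.1 p.2 - Wc f c q.1 q.2) (p.2 - q.2)).trans h1
  have hz1 := (norm_snd_le (Wc f c p.1 p.2 - Wc f c q.1 q.2) (p.2 - q.2)).trans h1
  have hz2 : ‖p.2 - q.2‖ ≤ D / 360 := by
    refine hz1.trans ?_
    calc K1 * ε ≤ K1 * (1 / (360 * K1) * D) := mul_le_mul_of_nonneg_left hle2 hK10.le
      _ = D / 360 := by field_simp
  have h2 := hKn L c (A + 1) (by linarith) (Wc f c p.1 p.2) (Wc f c q.1 q.2) p.2 q.2 hp.1 hq.1
    (Hyp_w h hf c hE hp) hz2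
  rw [Xc_Wc c p.1 hp.1, Xc_Wc c q.1 hq.1] at h2
  have h3 : ‖p.1 - q.1‖ ≤ K2 * (A + 1 + 1) * ((2 * K1 * ε) / D) := by
    refine h2.trans (mul_le_mul_of_nonneg_left ?_ (by positivity))
    apply div_le_div_of_nonneg_right _ hD.le
    linarith
  have h4 : D * ‖p.1 - q.1‖ ≤ K2 * (A + 2) * (2 * K1) * ε := by
    calc D * ‖p.1 - q.1‖ ≤ D * (K2 * (A + 1 + 1) * ((2 * K1 * ε) / D)) :=
          mul_le_mul_of_nonneg_left h3 hD.le
      _ = K2 * (A + 2) * (2 * K1) * ε := by field_simp; ring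
  calc ‖p.2 - q.2‖ + D * ‖p.1 - q.1‖ ≤ K1 * ε + K2 * (A + 2) * (2 * K1) * ε := add_le_add hz1 h4
    _ = (K1 + K2 * (A + 2) * (2 * K1)) * ε := by ring

theorem sph_vert (h : HypM d) (hf : RoughSim d lam C f) (c : G → Fin L) (hE : 1 ≤ E) {A : ℝ}
    (hA : 2 ≤ A) :
    ∃ K : ℝ, 1 ≤ K ∧ ∀ p ∈ Hyp f c E A, ‖Psn f c p - pr 0 p.2‖ ≤ K * Dz p.2 := by
  obtain ⟨c1, hc1, hc11, hlow⟩ := norm_low h hf c hE hA
  refine ⟨(A + 1) / c1 + 1 + (A + 1), ?_, ?_⟩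
  · have : 0 ≤ (A + 1) / c1 := div_nonneg (by linarith) hc1.le
    linarith
  intro p hp
  have hD := Dz_pos hp.1
  have hw := Hyp_w h hf c hE hp
  have hρ := hlow p hp
  have hρ0 : 0 < ‖vec f c p‖ := lt_of_lt_of_le hc1 hρ
  have hz := norm_snd_le (Wc f c p.1 p.2) p.2
  have hup := norm_pr_le (Wc f c p.1 p.2) p.2
  rw [← vec_eq c p] at hz hup
  set ρ := ‖vec f c p‖ with hρdef
  have e : Psn f c p - pr 0 p.2 = pr (ρ⁻¹ • Wc f c p.1 p.2) ((ρ⁻¹ - 1) • p.2) := by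
    unfold Psn nz
    rw [← hρdef, vec_eq, pr_smul, pr_sub, sub_zero, sub_smul, one_smul]
  have hw0 := norm_nonneg (Wc f c p.1 p.2)
  have hz0 := norm_nonneg p.2
  have h1 : ‖ρ⁻¹ • Wc f c p.1 p.2‖ ≤ (A + 1) / c1 * Dz p.2 := by
    rw [norm_smul, Real.norm_of_nonneg (inv_pos.mpr hρ0).le]
    calc ρ⁻¹ * ‖Wc f c p.1 p.2‖ ≤ c1⁻¹ * ((A + 1) * Dz p.2) :=
          mul_le_mul (inv_anti₀ hc1 hρ) hw hw0 (inv_pos.mpr hc1).le
      _ = (A + 1) / c1 * Dz p.2 := by ring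
  have h2 : ‖(ρ⁻¹ - 1) • p.2‖ ≤ |1 - ρ| := by
    rw [norm_smul, Real.norm_eq_abs]
    have e2 : ρ⁻¹ - 1 = (1 - ρ) / ρ := by field_simp
    rw [e2, abs_div, abs_of_pos hρ0]
    calc |1 - ρ| / ρ * ‖p.2‖ ≤ |1 - ρ| / ρ * ρ := mul_le_mul_of_nonneg_left hz (by positivity)
      _ = |1 - ρ| := div_mul_cancel₀ _ hρ0.ne'
  have h3 : |1 - ρ| ≤ Dz p.2 + (A + 1) * Dz p.2 := by
    have h4 := one_sub_norm_le_Dz hp.1
    have h5 : 0 ≤ (A + 1) * Dz p.2 := mul_nonneg (by linarith) hD.le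
    have h6 := hp.1
    rw [abs_le]
    constructor <;> linarith
  rw [e]
  calc ‖pr (ρ⁻¹ • Wc f c p.1 p.2) ((ρ⁻¹ - 1) • p.2)‖
      ≤ ‖ρ⁻¹ • Wc f c p.1 p.2‖ + ‖(ρ⁻¹ - 1) • p.2‖ := norm_pr_le _ _
    _ ≤ (A + 1) / c1 * Dz p.2 + (Dz p.2 + (A + 1) * Dz p.2) := add_le_add h1 (h2.trans h3)
    _ = ((A + 1) / c1 + 1 + (A + 1)) * Dz p.2 := by ring

theorem sph_dir (h : HypM d) (hf : RoughSim d lam C f) (c : G → Fin L) (hE : 1 ≤ E) {A : ℝ}
    (hA : 2 ≤ A) {w : EuclideanSpace ℝ (Fin L)} (hw : w ≠ 0) {z : EuclideanSpace ℝ (Fin M)}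
    (hn : ‖pr w z‖ = 1) : ∃ p ∈ Hyp f c E A, Psn f c p = pr w z := by
  have hP0 := Ph_zero h hf c (by linarith : (0:ℝ) ≤ E)
  obtain ⟨ρ, hρ, hz, hP⟩ := ray_cross h hf c hE (by linarith : Ph f c E 0 0 < A) hw z
  refine ⟨(Xc f c (ρ • w) (ρ • z), ρ • z), ⟨hz, hP⟩, ?_⟩
  have e : vec f c (Xc f c (ρ • w) (ρ • z), ρ • z) = ρ • pr w z := by
    rw [vec_eq, pr_smul]
    simp only
    rw [Wc_Xc c (ρ • w) hz]
  unfold Psn
  rw [e, nz_smul hρ, nz_of_norm hn]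

/-- The package of all properties of the radial projection. -/
structure SphOK (f : G → EuclideanSpace ℝ (Fin M)) (c : G → Fin L) (E A K η : ℝ) : Prop where
  K_one : 1 ≤ K
  eta_pos : 0 < η
  norm : ∀ p ∈ Hyp f c E A, ‖Psn f c p‖ = 1
  up : ∀ p ∈ Hyp f c E A, ∀ q ∈ Hyp f c E A, ‖p.2 - q.2‖ ≤ Dz p.2 / 360 →
      ‖Psn f c p - Psn f c q‖ ≤ K * (‖p.2 - q.2‖ + Dz p.2 * ‖p.1 - q.1‖)
  lo : ∀ p ∈ Hyp f c E A, ∀ q ∈ Hyp f c E A, ‖Psn f c p - Psn f c q‖ ≤ η * Dz p.2 →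
      ‖p.2 - q.2‖ + Dz p.2 * ‖p.1 - q.1‖ ≤ K * ‖Psn f c p - Psn f c q‖
  vert : ∀ p ∈ Hyp f c E A, ‖Psn f c p - pr 0 p.2‖ ≤ K * Dz p.2
  dir : ∀ (w : EuclideanSpace ℝ (Fin L)) (z : EuclideanSpace ℝ (Fin M)), w ≠ 0 → ‖pr w z‖ = 1 →
      ∃ p ∈ Hyp f c E A, Psn f c p = pr w z

/-- All constants together (take the maximum of the K, monotone since the right sides are nonnegative). -/
theorem sphOK_exists (h : HypM d) (hf : RoughSim d lam C f) :
    ∃ A0 : ℝ, 2 ≤ A0 ∧ ∀ A : ℝ, A0 ≤ A → ∀ (L : ℕ) (c : G → Fin L) (E : ℝ), 1 ≤ E →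
      ∃ K η : ℝ, SphOK f c E A K η := by
  obtain ⟨C0, hC0, hdec⟩ := dec_exists h hf
  refine ⟨C0 + 1, by linarith, ?_⟩
  intro A hA L c E hE
  have hA2 : 2 ≤ A := by linarith
  have hd := hdec L c E (by linarith)
  obtain ⟨c1, hc1, hc11, hlow⟩ := norm_low h hf c hE hA2
  obtain ⟨K1, hK1, hup⟩ := sph_up h hf c hE hA2
  obtain ⟨K2, η, hK2, hη, hlo⟩ := sph_lo h hf c hE hC0 hd hA
  obtain ⟨K3, hK3, hvert⟩ := sph_vert h hf c hE hA2
  refine ⟨max K1 (max K2 K3), η, ?_⟩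
  refine ⟨hK1.trans (le_max_left _ _), hη, ?_, ?_, ?_, ?_, ?_⟩
  · intro p hp
    refine norm_nz ?_
    intro h0
    have := hlow p hp
    rw [h0, norm_zero] at this
    linarith
  · intro p hp q hq hle
    have hD := Dz_pos hp.1
    exact (hup p hp q hq hle).trans
      (mul_le_mul_of_nonneg_right (le_max_left _ _) (by positivity))
  · intro p hp q hq hle
    exact (hlo p hp q hq hle).trans
      (mul_le_mul_of_nonneg_right ((le_max_left _ _).trans (le_max_right _ _)) (norm_nonneg _))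
  · intro p hp
    exact (hvert p hp).trans
      (mul_le_mul_of_nonneg_right ((le_max_right _ _).trans (le_max_right _ _))
        (Dz_pos hp.1).le)
  · intro w z hw hn
    exact sph_dir h hf c hE hA2 hw hn

end Pool.HQ
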