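import Pool.Agent.HQ.SNear

/-!
MODULE SRad (MP_7936f4_al, star-shapedness block): radial contraction z -> s z of the ball.

rr s z = s Dz z / Dz (s z): the factor by which w / Dz z is multiplied under (z,w) -> (s z, s w).
Exact identities: Nz x (s z) = s Nz x z + (1-s)(1 - s |x|^2 |z|^2);
1 - rr s z = (1-s)(1+s|z|^2) / Dz (s z).
-/

namespace Pool.HQ

variable {M : ℕ}

/-- The contraction factor. -/
noncomputable def rr (s : ℝ) (z : EuclideanSpace ℝ (Fin M)) : ℝ := s * Dz z / Dz (s • z)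

theorem norm_smul_lt {s : ℝ} (hs : 0 ≤ s) (hs1 : s ≤ 1) {z : EuclideanSpace ℝ (Fin M)}
    (hz : ‖z‖ < 1) : ‖s • z‖ < 1 := by
  rw [norm_smul, Real.norm_of_nonneg hs]
  have := norm_nonneg z
  nlinarith

theorem Dz_smul (s : ℝ) (z : EuclideanSpace ℝ (Fin M)) : Dz (s • z) = 1 - s ^ 2 * ‖z‖ ^ 2 := by
  unfold Dz
  rw [norm_smul, mul_pow, Real.norm_eq_abs, sq_abs]

theorem Dz_smul_ge {s : ℝ} (hs : 0 ≤ s) (hs1 : s ≤ 1) (z : EuclideanSpace ℝ (Fin M)) :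
    Dz z ≤ Dz (s • z) := by
  rw [Dz_smul]
  unfold Dz
  have : s ^ 2 ≤ 1 := by nlinarith
  have := mul_le_mul_of_nonneg_right this (sq_nonneg ‖z‖)
  linarith

theorem Dz_smul_le {s : ℝ} (hs : 0 ≤ s) (hs1 : s ≤ 1) {z : EuclideanSpace ℝ (Fin M)}
    (hz : ‖z‖ < 1) (h : 1 - s ≤ Dz z / 4) : Dz (s • z) ≤ 3 / 2 * Dz z := by
  rw [Dz_smul]
  have e : 1 - s ^ 2 * ‖z‖ ^ 2 = Dz z + (1 - s) * (1 + s) * ‖z‖ ^ 2 := by unfold Dz; ring
  rw [e]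
  have h0 := norm_nonneg z
  have h1 : ‖z‖ ^ 2 ≤ 1 := by nlinarith
  have h2 : (1 - s) * (1 + s) * ‖z‖ ^ 2 ≤ (1 - s) * 2 := by
    have : (1 - s) * (1 + s) ≤ (1 - s) * 2 := by nlinarith
    have h3 : 0 ≤ (1 - s) * (1 + s) := mul_nonneg (by linarith) (by linarith)
    nlinarith
  linarith

theorem rr_pos {s : ℝ} (hs : 0 < s) (hs1 : s ≤ 1) {z : EuclideanSpace ℝ (Fin M)} (hz : ‖z‖ < 1) :
    0 < rr s z := by
  unfold rr
  have := Dz_pos hz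
  have := Dz_pos (norm_smul_lt hs.le hs1 hz)
  positivity

theorem one_sub_rr {s : ℝ} (hs : 0 < s) (hs1 : s ≤ 1) {z : EuclideanSpace ℝ (Fin M)} (hz : ‖z‖ < 1) :
    1 - rr s z = (1 - s) * (1 + s * ‖z‖ ^ 2) / Dz (s • z) := by
  have h := Dz_pos (norm_smul_lt hs.le hs1 hz)
  unfold rr
  rw [eq_div_iff h.ne', sub_mul, div_mul_cancel₀ _ h.ne', Dz_smul]
  unfold Dz
  ring

theorem rr_le_one {s : ℝ} (hs : 0 < s) (hs1 : s ≤ 1) {z : EuclideanSpace ℝ (Fin M)} (hz : ‖z‖ < 1) :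
    rr s z ≤ 1 := by
  have h := one_sub_rr hs hs1 hz
  have h2 := Dz_pos (norm_smul_lt hs.le hs1 hz)
  have : 0 ≤ (1 - s) * (1 + s * ‖z‖ ^ 2) / Dz (s • z) :=
    div_nonneg (mul_nonneg (by linarith) (by positivity)) h2.le
  linarith

theorem one_sub_rr_le {s : ℝ} (hs : 0 < s) (hs1 : s ≤ 1) {z : EuclideanSpace ℝ (Fin M)}
    (hz : ‖z‖ < 1) : 1 - rr s z ≤ 2 * ((1 - s) / Dz z) := by
  rw [one_sub_rr hs hs1 hz, ← mul_div_assoc]
  have h2 := Dz_pos hz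
  refine div_le_div₀ (by linarith) ?_ h2 (Dz_smul_ge hs.le hs1 z)
  have h0 := norm_nonneg z
  have : s * ‖z‖ ^ 2 ≤ 1 := by nlinarith [sq_nonneg ‖z‖]
  nlinarith

theorem le_one_sub_rr {s : ℝ} (hs : 0 < s) (hs1 : s ≤ 1) {z : EuclideanSpace ℝ (Fin M)}
    (hz : ‖z‖ < 1) (h : 1 - s ≤ Dz z / 4) : 2 / 3 * ((1 - s) / Dz z) ≤ 1 - rr s z := by
  rw [one_sub_rr hs hs1 hz]
  have h2 := Dz_pos hz
  have h3 := Dz_pos (norm_smul_lt hs.le hs1 hz)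
  have h4 := Dz_smul_le hs.le hs1 hz h
  rw [div_eq_mul_inv, div_eq_mul_inv]
  have e1 : 2 / 3 * (Dz z)⁻¹ ≤ (Dz (s • z))⁻¹ := by
    rw [le_inv_comm₀ (by positivity) h3, mul_inv, inv_inv]
    linarith
  have e2 : 1 - s ≤ (1 - s) * (1 + s * ‖z‖ ^ 2) := by
    have : 0 ≤ (1 - s) * (s * ‖z‖ ^ 2) := mul_nonneg (by linarith) (by positivity)
    linarith
  calc 2 / 3 * ((1 - s) * (Dz z)⁻¹) = (1 - s) * (2 / 3 * (Dz z)⁻¹) := by ring
    _ ≤ ((1 - s) * (1 + s * ‖z‖ ^ 2)) * (Dz (s • z))⁻¹ :=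
        mul_le_mul e2 e1 (by positivity) (mul_nonneg (by linarith) (by positivity))

theorem half_le_rr {s : ℝ} (hs : 0 < s) (hs1 : s ≤ 1) {z : EuclideanSpace ℝ (Fin M)}
    (hz : ‖z‖ < 1) (h : 1 - s ≤ Dz z / 4) : 1 / 2 ≤ rr s z := by
  have h1 := one_sub_rr_le hs hs1 hz
  have h2 := Dz_pos hz
  have h3 : (1 - s) / Dz z ≤ 1 / 4 := by rw [div_le_iff₀ h2]; linarith
  linarith

/-- Exact identity. -/
theorem Nz_smul (s : ℝ) (x z : EuclideanSpace ℝ (Fin M)) :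
    Nz x (s • z) = s * Nz x z + (1 - s) * (1 - s * ‖x‖ ^ 2 * ‖z‖ ^ 2) := by
  rw [Nz_eq, Nz_eq, norm_smul, inner_smul_right, mul_pow, Real.norm_eq_abs, sq_abs]
  ring

/-- om(x,sz)^2 in terms of om(x,z)^2. -/
theorem om_smul_sq {s : ℝ} (hs : 0 < s) (hs1 : s ≤ 1) {x z : EuclideanSpace ℝ (Fin M)}
    (hx : ‖x‖ < 1) (hz : ‖z‖ < 1) :
    om x (s • z) ^ 2 =
      rr s z * om x z ^ 2 * (1 + (1 - s) * (1 - s * ‖x‖ ^ 2 * ‖z‖ ^ 2) / (s * Nz x z)) := by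
  have h1 := norm_smul_lt hs.le hs1 hz
  rw [om_sq hx h1, om_sq hx hz, Nz_smul]
  have := Dz_pos hx
  have := Dz_pos hz
  have := Dz_pos h1
  have := Nz_pos hx hz
  unfold rr
  field_simp

/-- Lower bound (R2). -/
theorem om_smul_ge {s : ℝ} (hs : 0 < s) (hs1 : s ≤ 1) {x z : EuclideanSpace ℝ (Fin M)}
    (hx : ‖x‖ < 1) (hz : ‖z‖ < 1) : rr s z * om x z ^ 2 ≤ om x (s • z) ^ 2 := by
  rw [om_smul_sq hs hs1 hx hz]
  have h1 := rr_pos hs hs1 hz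
  have hN := Nz_pos hx hz
  have h2 : 0 ≤ (1 - s) * (1 - s * ‖x‖ ^ 2 * ‖z‖ ^ 2) / (s * Nz x z) := by
    refine div_nonneg (mul_nonneg (by linarith) ?_) (by positivity)
    have a := norm_nonneg x
    have b := norm_nonneg z
    have c : ‖x‖ ^ 2 ≤ 1 := by nlinarith
    have e : ‖z‖ ^ 2 ≤ 1 := by nlinarith
    have f : ‖x‖ ^ 2 * ‖z‖ ^ 2 ≤ 1 := by nlinarith [sq_nonneg ‖x‖, sq_nonneg ‖z‖]
    nlinarith [mul_nonneg (sq_nonneg ‖x‖) (sq_nonneg ‖z‖)]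
  have h3 : 0 ≤ rr s z * om x z ^ 2 := mul_nonneg h1.le (sq_nonneg _)
  nlinarith

/-- Upper bound (R1). -/
theorem om_smul_le {s : ℝ} (hs : 0 < s) (hs1 : s ≤ 1) {x z : EuclideanSpace ℝ (Fin M)}
    (hx : ‖x‖ < 1) (hz : ‖z‖ < 1) : rr s z * om x (s • z) ^ 2 ≤ om x z ^ 2 := by
  have h1 := norm_smul_lt hs.le hs1 hz
  rw [om_sq hx h1, om_sq hx hz, Nz_smul]
  have dx := Dz_pos hx
  have dz := Dz_pos hz
  have dsz := Dz_pos h1
  have hN := Nz_pos hx hz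
  set a := ‖x‖ * ‖z‖ with ha
  set t := ‖z‖ with ht
  have ht0 : 0 ≤ t := norm_nonneg z
  have hx0 := norm_nonneg x
  have ha0 : 0 ≤ a := mul_nonneg hx0 ht0
  have hat : a ≤ t := by rw [ha]; nlinarith
  have hN2 : (1 - a) ^ 2 ≤ Nz x z := le_Nz x z
  have h1a : 0 < 1 - a := by linarith
  have h1t : 0 < 1 - t := by linarith
  -- goal: s Dz z / Dz(sz) * (..)/(Dz x * Dz(sz)) <= Nz x z / (Dz x * Dz z)
  have e1 : ‖x‖ ^ 2 * t ^ 2 = a ^ 2 := by rw [ha]; ring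
  have eA : s * Nz x z + (1 - s) * (1 - s * ‖x‖ ^ 2 * t ^ 2) =
      s * Nz x z + (1 - s) * (1 - s * a ^ 2) := by rw [← e1]; ring
  rw [eA]
  -- N(1-a)^2 version
  have k1 : (s * Nz x z + (1 - s) * (1 - s * a ^ 2)) * (1 - a) ^ 2 ≤ Nz x z * (1 - s * a) ^ 2 := by
    have e2 : Nz x z * (1 - s * a) ^ 2 - (s * Nz x z + (1 - s) * (1 - s * a ^ 2)) * (1 - a) ^ 2 =
        (Nz x z - (1 - a) ^ 2) * ((1 - s) * (1 - s * a ^ 2)) := by ring
    have e3 : 0 ≤ (1 - s) * (1 - s * a ^ 2) := by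
      refine mul_nonneg (by linarith) ?_
      have : a ^ 2 ≤ 1 := by nlinarith
      nlinarith [sq_nonneg a]
    have := mul_nonneg (sub_nonneg.mpr hN2) e3
    linarith
  have k2 : (1 - s * a) * (1 - t) ≤ (1 - s * t) * (1 - a) := by
    have : (1 - s * t) * (1 - a) - (1 - s * a) * (1 - t) = (1 - s) * (t - a) := by ring
    have : 0 ≤ (1 - s) * (t - a) := mul_nonneg (by linarith) (by linarith)
    linarith
  have k2' : ((1 - s * a) * (1 - t)) ^ 2 ≤ ((1 - s * t) * (1 - a)) ^ 2 := by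
    refine pow_le_pow_left₀ (mul_nonneg ?_ h1t.le) k2 2
    nlinarith
  have k3 : s * (1 + t) ^ 2 ≤ (1 + s * t) ^ 2 := by
    have : (1 + s * t) ^ 2 - s * (1 + t) ^ 2 = (1 - s) * (1 - s * t ^ 2) := by ring
    have h5 : 0 ≤ (1 - s) * (1 - s * t ^ 2) := by
      refine mul_nonneg (by linarith) ?_
      have : t ^ 2 ≤ 1 := by nlinarith
      nlinarith [sq_nonneg t]
    linarith
  have eD : Dz z = (1 - t) * (1 + t) := by unfold Dz; rw [← ht]; ring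
  have eDs : Dz (s • z) = (1 - s * t) * (1 + s * t) := by rw [Dz_smul, ← ht]; ring
  -- main inequality: s * num * Dz z ^2 <= Nz * Dz(sz)^2
  set num := s * Nz x z + (1 - s) * (1 - s * a ^ 2) with hnum
  have hst : 0 < 1 - s * t := by nlinarith
  have main : s * num * Dz z ^ 2 ≤ Nz x z * Dz (s • z) ^ 2 := by
    have m1 : s * num * Dz z ^ 2 * (1 - a) ^ 2 ≤ Nz x z * Dz (s • z) ^ 2 * (1 - a) ^ 2 := by
      calc s * num * Dz z ^ 2 * (1 - a) ^ 2 = (num * (1 - a) ^ 2) * (s * Dz z ^ 2) := by ring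
        _ ≤ (Nz x z * (1 - s * a) ^ 2) * (s * Dz z ^ 2) :=
            mul_le_mul_of_nonneg_right k1 (by positivity)
        _ = Nz x z * (((1 - s * a) * (1 - t)) ^ 2 * (s * (1 + t) ^ 2)) := by rw [eD]; ring
        _ ≤ Nz x z * (((1 - s * t) * (1 - a)) ^ 2 * (1 + s * t) ^ 2) := by
            refine mul_le_mul_of_nonneg_left ?_ hN.le
            exact mul_le_mul k2' k3 (by positivity) (by positivity)
        _ = Nz x z * Dz (s • z) ^ 2 * (1 - a) ^ 2 := by rw [eDs]; ring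
    exact le_of_mul_le_mul_right m1 (by positivity)
  unfold rr
  rw [div_mul_div_comm, div_le_div_iff₀ (by positivity) (by positivity)]
  have : s * Dz z * num * (Dz x * Dz z) = (s * num * Dz z ^ 2) * Dz x := by ring
  rw [this]
  have : Nz x z * (Dz (s • z) * (Dz x * Dz (s • z))) = (Nz x z * Dz (s • z) ^ 2) * Dz x := by ring
  rw [this]
  exact mul_le_mul_of_nonneg_right main dx.le

end Pool.HQ
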