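import Pool.Agent.HQ.SLoc
import Pool.Agent.HQ.SLip

/-!
MODULE SRay (MP_7936f4_al, star-shapedness block): behaviour of Ph along rays.

PROOFS.
ray_mono: IsClosed.Icc_subset_of_forall_exists_gt on [s,1] with the set {t | Ph (s w)(s z) <= Ph (t w)(t z)}:
 closed in [s,1] by Ph_ray_cont; if t in [s,1) is in it then Ph (t .) >= Ph (s .) > C0, so by continuity
 Ph (t' .) >= C0 for t' > t close to t, and for t' close to t also 1 - t/t' <= Dz (t' z)/360 (Dz (t' z) >= Dz z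
 by Dz_smul_ge), hence Dec at (t' w, t' z) with the factor t/t': Ph (t .) <= (1 - (1-rr)/20) Ph (t' .) <= Ph (t' .)
 (rr_le_one, Ph >= C0 >= 1 > 0).
ray_mono2: apply ray_mono to (t w, t z) and s/t.
ray_key: t = max s (1 - Dz z/360).  By ray_mono2 Ph (s .) <= Ph (t .), by ray_mono C0 <= Ph w z.
 Dec: Ph (t .) <= (1 - (1 - rr t z)/20) Ph w z and 1 - rr t z >= 2/3 (1-t)/Dz z (le_one_sub_rr), Ph w z >= 1:
 (1-t)/(30 Dz z) <= Ph w z - Ph (t .) <= kappa, that is 1 - t <= 30 kappa Dz z < Dz z / 360, hence t = s.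
ray_cross: a = |w| > 0, b = |z|.  The function g(rho) = rho a - (A + 1) (1 - rho^2 b^2) is continuous, g 0 < 0 and
 g (large) > 0 (g rho >= rho a - (A+1)), so g rho = 0 for some rho > 0, and then Dz (rho z) = rho a/(A+1) > 0, hence
 |rho z| < 1.  At this rho: |X| <= Ph (norm_le_Phi) and norm_w_le: rho a <= (Ph + 1) Dz(rho z), that is
 A + 1 <= Ph + 1.  Ph 0 0 < A: intermediate value theorem along the segment (Ph_ray_cont for the point (rho w, rho z)).
-/

namespace Pool.HQ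

variable {G : Type} [Group G] {d : G → G → ℕ} {M L : ℕ} {lam C : ℝ}
  {f : G → EuclideanSpace ℝ (Fin M)} {E : ℝ}

theorem ray_mono (h : HypM d) (hf : RoughSim d lam C f) (c : G → Fin L) (hE : 1 ≤ E) {C0 : ℝ}
    (hC0 : 1 ≤ C0) (hd : Dec f c E C0) {w : EuclideanSpace ℝ (Fin L)}
    {z : EuclideanSpace ℝ (Fin M)} (hz : ‖z‖ < 1) {s : ℝ} (hs : 0 < s) (hs1 : s ≤ 1)
    (hlt : C0 < Ph f c E (s • w) (s • z)) :
    Ph f c E (s • w) (s • z) ≤ Ph f c E w z := by
  obtain ⟨g, hg⟩ : ∃ g : ℝ → ℝ, g = fun t => Ph f c E (t • w) (t • z) := ⟨_, rfl⟩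
  have hgc : ContinuousOn g (Set.Icc 0 1) := by rw [hg]; exact Ph_ray_cont h hf c hE w hz
  have hgs : g s = Ph f c E (s • w) (s • z) := by rw [hg]
  have hg1 : g 1 = Ph f c E w z := by rw [hg]; simp only [one_smul]
  rw [← hgs] at hlt ⊢
  rw [← hg1]
  have hD := Dz_pos hz
  have hcl : IsClosed ({t : ℝ | g s ≤ g t} ∩ Set.Icc s 1) := by
    have h1 : ContinuousOn g (Set.Icc s 1) := hgc.mono (Set.Icc_subset_Icc_left hs.le)
    have h2 := h1.preimage_isClosed_of_isClosed isClosed_Icc (isClosed_Ici (a := g s))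
    rw [Set.inter_comm] at h2
    exact h2
  have hsub : Set.Icc s 1 ⊆ {t : ℝ | g s ≤ g t} := by
    refine hcl.Icc_subset_of_forall_exists_gt (show g s ≤ g s from le_rfl) ?_
    rintro x ⟨hx, hx1, hx2⟩ y hy
    have hx' : g s ≤ g x := hx
    have hy' : x < y := hy
    have hx0 : 0 < x := lt_of_lt_of_le hs hx1
    have hcx := hgc x ⟨hx0.le, hx2.le⟩
    rw [Metric.continuousWithinAt_iff] at hcx
    obtain ⟨δ, hδ, hδ'⟩ := hcx (g x - C0) (by linarith)
    obtain ⟨e, he⟩ : ∃ e, e = min (min (y - x) (1 - x)) (min (δ / 2) (s * Dz z / 360)) := ⟨_, rfl⟩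
    have he0 : 0 < e := by
      rw [he]
      refine lt_min (lt_min (by linarith) (by linarith)) (lt_min (by linarith) (by positivity))
    have he1 : e ≤ y - x := by rw [he]; exact (min_le_left _ _).trans (min_le_left _ _)
    have he2 : e ≤ 1 - x := by rw [he]; exact (min_le_left _ _).trans (min_le_right _ _)
    have he3 : e ≤ δ / 2 := by rw [he]; exact (min_le_right _ _).trans (min_le_left _ _)
    have he4 : e ≤ s * Dz z / 360 := by rw [he]; exact (min_le_right _ _).trans (min_le_right _ _)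
    obtain ⟨t, ht⟩ : ∃ t, t = x + e := ⟨_, rfl⟩
    have ht0 : 0 < t := by linarith
    have ht1 : t ≤ 1 := by linarith
    have hxt : x ≤ t := by linarith
    refine ⟨t, ?_, ⟨by linarith, by linarith⟩⟩
    have h1 := hδ' (x := t) ⟨ht0.le, ht1⟩ (by
      rw [Real.dist_eq, ht, add_sub_cancel_left, abs_of_pos he0]
      linarith)
    rw [Real.dist_eq] at h1
    have h2 := (abs_lt.1 h1).1
    have hgt : C0 ≤ g t := by linarith
    have htz := norm_smul_lt ht0.le ht1 hz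
    have hxt1 : x / t ≤ 1 := by rw [div_le_one ht0]; exact hxt
    have hxt0 : 0 < x / t := div_pos hx0 ht0
    have h3 : 1 - x / t ≤ Dz (t • z) / 360 := by
      have h4 : 1 - x / t = e / t := by rw [ht]; field_simp; ring
      have h5 : e / t ≤ Dz z / 360 := by
        rw [div_le_iff₀ ht0]
        have h6 : s * (Dz z / 360) ≤ t * (Dz z / 360) :=
          mul_le_mul_of_nonneg_right (by linarith) (by positivity)
        linarith
      have h7 := Dz_smul_ge ht0.le ht1 z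
      rw [h4]
      linarith
    have h4 := hd (t • w) (t • z) htz (by rw [hg] at hgt; exact hgt) (x / t) hxt1 h3
    have e1 : (x / t) • t • w = x • w := by rw [smul_smul, div_mul_cancel₀ _ ht0.ne']
    have e2 : (x / t) • t • z = x • z := by rw [smul_smul, div_mul_cancel₀ _ ht0.ne']
    rw [e1, e2] at h4
    have h5 := rr_le_one hxt0 hxt1 htz
    have e3 : g x = Ph f c E (x • w) (x • z) := by rw [hg]
    have e4 : g t = Ph f c E (t • w) (t • z) := by rw [hg]
    rw [← e3, ← e4] at h4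
    have h6 : 0 ≤ (1 - rr (x / t) (t • z)) * g t := mul_nonneg (by linarith) (by linarith)
    have h7 : g s ≤ g t := by linarith
    exact h7
  exact hsub ⟨hs1, le_rfl⟩

theorem ray_mono2 (h : HypM d) (hf : RoughSim d lam C f) (c : G → Fin L) (hE : 1 ≤ E) {C0 : ℝ}
    (hC0 : 1 ≤ C0) (hd : Dec f c E C0) {w : EuclideanSpace ℝ (Fin L)}
    {z : EuclideanSpace ℝ (Fin M)} (hz : ‖z‖ < 1) {s t : ℝ} (hs : 0 < s) (hst : s ≤ t) (ht : t ≤ 1)
    (hlt : C0 < Ph f c E (s • w) (s • z)) :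
    Ph f c E (s • w) (s • z) ≤ Ph f c E (t • w) (t • z) := by
  have ht0 : 0 < t := lt_of_lt_of_le hs hst
  have e1 : (s / t) • t • w = s • w := by rw [smul_smul, div_mul_cancel₀ _ ht0.ne']
  have e2 : (s / t) • t • z = s • z := by rw [smul_smul, div_mul_cancel₀ _ ht0.ne']
  have h1 := ray_mono h hf c hE hC0 hd (w := t • w) (norm_smul_lt ht0.le ht hz) (s := s / t)
    (div_pos hs ht0) (by rw [div_le_one ht0]; exact hst) (by rw [e1, e2]; exact hlt)
  rwa [e1, e2] at h1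

theorem ray_key (h : HypM d) (hf : RoughSim d lam C f) (c : G → Fin L) (hE : 1 ≤ E) {C0 : ℝ}
    (hC0 : 1 ≤ C0) (hd : Dec f c E C0) {w : EuclideanSpace ℝ (Fin L)}
    {z : EuclideanSpace ℝ (Fin M)} (hz : ‖z‖ < 1) {s κ : ℝ} (hs : 0 < s) (hs1 : s ≤ 1)
    (hlt : C0 < Ph f c E (s • w) (s • z))
    (hk : Ph f c E w z - Ph f c E (s • w) (s • z) ≤ κ) (hκ : κ < 1 / 10800) :
    1 - s ≤ 30 * κ * Dz z := by
  have hD := Dz_pos hz
  obtain ⟨t, ht⟩ : ∃ t, t = max s (1 - Dz z / 360) := ⟨_, rfl⟩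
  have hst : s ≤ t := by rw [ht]; exact le_max_left _ _
  have ht1 : t ≤ 1 := by
    rw [ht]
    exact max_le hs1 (by linarith)
  have ht0 : 0 < t := lt_of_lt_of_le hs hst
  have h1t : 1 - t ≤ Dz z / 360 := by
    have := le_max_right s (1 - Dz z / 360)
    rw [← ht] at this
    linarith
  have h1 := ray_mono2 h hf c hE hC0 hd hz hs hst ht1 hlt
  have h2 := ray_mono h hf c hE hC0 hd hz hs hs1 hlt
  have h3 : C0 ≤ Ph f c E w z := by linarith
  have h4 := hd w z hz h3 t ht1 h1t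
  have h5 := le_one_sub_rr ht0 ht1 hz (by linarith)
  have h6 : 0 ≤ (1 - t) / Dz z := div_nonneg (by linarith) hD.le
  have h7 : (1 - rr t z) * 1 ≤ (1 - rr t z) * Ph f c E w z :=
    mul_le_mul_of_nonneg_left (by linarith) (by linarith)
  have h8 : (1 - t) / Dz z ≤ 30 * κ := by linarith
  rw [div_le_iff₀ hD] at h8
  have h9 : t = s := by
    rcases max_choice s (1 - Dz z / 360) with h10 | h10
    · rw [ht, h10]
    · exfalso
      rw [h10] at ht
      have h11 : 30 * κ * Dz z < Dz z / 360 := by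
        have := mul_lt_mul_of_pos_right hκ hD
        linarith
      linarith
  rw [h9] at h8
  exact h8

theorem ray_cross (h : HypM d) (hf : RoughSim d lam C f) (c : G → Fin L) (hE : 1 ≤ E) {A : ℝ}
    (hA : Ph f c E 0 0 < A) {w : EuclideanSpace ℝ (Fin L)} (hw : w ≠ 0)
    (z : EuclideanSpace ℝ (Fin M)) :
    ∃ ρ : ℝ, 0 < ρ ∧ ‖ρ • z‖ < 1 ∧ Ph f c E (ρ • w) (ρ • z) = A := by
  have hw0 : 0 < ‖w‖ := norm_pos_iff.2 hw
  have hA0 : 0 < A := by
    have h1 := norm_le_Phi (c := c) hf hE (z := (0 : EuclideanSpace ℝ (Fin M))) (by simp)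
      (Xc f c 0 0)
    rw [← Ph_eq] at h1
    exact lt_of_le_of_lt ((norm_nonneg _).trans h1) hA
  have hA1 : 0 < A + 1 := by linarith
  obtain ⟨r, hr, hr0⟩ : ∃ r : ℝ, 0 < r ∧ r * ‖w‖ = (A + 1) * (1 - r ^ 2 * ‖z‖ ^ 2) := by
    have hc : ContinuousOn (fun r : ℝ => r * ‖w‖ - (A + 1) * (1 - r ^ 2 * ‖z‖ ^ 2))
        (Set.Icc 0 ((A + 1) / ‖w‖)) := by fun_prop
    have h1 := intermediate_value_Icc (show (0 : ℝ) ≤ (A + 1) / ‖w‖ by positivity) hc
    have h2 : (0 : ℝ) ∈ Set.Icc ((0 : ℝ) * ‖w‖ - (A + 1) * (1 - 0 ^ 2 * ‖z‖ ^ 2))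
        ((A + 1) / ‖w‖ * ‖w‖ - (A + 1) * (1 - ((A + 1) / ‖w‖) ^ 2 * ‖z‖ ^ 2)) := by
      constructor
      · nlinarith
      · rw [div_mul_cancel₀ _ hw0.ne']
        have h3 : 0 ≤ (A + 1) * (((A + 1) / ‖w‖) ^ 2 * ‖z‖ ^ 2) := by positivity
        linarith
    obtain ⟨r, hr1, hr2⟩ := h1 h2
    simp only at hr2
    refine ⟨r, ?_, by linarith⟩
    rcases hr1.1.eq_or_lt with h4 | h4
    · rw [← h4] at hr2
      norm_num at hr2
      linarith
    · exact h4
  have hDr : Dz (r • z) = r * ‖w‖ / (A + 1) := by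
    rw [Dz_smul, hr0]
    field_simp
  have hDpos : 0 < Dz (r • z) := by
    rw [hDr]
    positivity
  have hrz : ‖r • z‖ < 1 := by
    unfold Dz at hDpos
    have h1 := norm_nonneg (r • z)
    nlinarith
  have h1 := norm_w_le h hf c hE (r • w) hrz
  rw [norm_smul, Real.norm_of_nonneg hr.le, hDr] at h1
  have h2 : A ≤ Ph f c E (r • w) (r • z) := by
    have h3 : 0 < r * ‖w‖ := mul_pos hr hw0
    have h4 : (A + 1) * (r * ‖w‖) ≤ (Ph f c E (r • w) (r • z) + 1) * (r * ‖w‖) := by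
      have h5 := mul_le_mul_of_nonneg_left h1 hA1.le
      have h6 : (A + 1) * ((Ph f c E (r • w) (r • z) + 1) * (r * ‖w‖ / (A + 1))) =
          (Ph f c E (r • w) (r • z) + 1) * (r * ‖w‖) := by
        field_simp
      rwa [h6] at h5
    have h5 := le_of_mul_le_mul_right h4 h3
    linarith
  have h3 := intermediate_value_Icc (zero_le_one' ℝ) (Ph_ray_cont h hf c hE (r • w) hrz)
  simp only [zero_smul, one_smul] at h3
  obtain ⟨s, hs, hsA⟩ := h3 ⟨hA.le, h2⟩
  simp only at hsA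
  have hs0 : 0 < s := by
    rcases hs.1.eq_or_lt with h4 | h4
    · rw [← h4, zero_smul, zero_smul] at hsA
      linarith
    · exact h4
  refine ⟨s * r, mul_pos hs0 hr, ?_, ?_⟩
  · rw [← smul_smul]
    exact norm_smul_lt hs.1 hs.2 hrz
  · rw [← smul_smul, ← smul_smul]
    exact hsA

end Pool.HQ
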