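import Pool.Agent.HQ.VFun

/-!
MP_7936f4_al, full question.  Part III: the constraints on the parameters (structure VD.OK) and the
predicate Tm (test measures).
-/

namespace Pool.HQ

namespace VD

variable {G : Type} {M L : ℕ}

/-- mu(r) = (1/(4 N(r)))^3 -/
noncomputable def mu [Group G] (Q : VD G M L) (r : ℕ) : ℝ := (1 / (4 * Q.nb 1 r)) ^ 3

/-- bound for om(f b, fhat) if J_b(X) ≤ A, 4A ≤ bt r -/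
noncomputable def Kh [Group G] (Q : VD G M L) (A : ℝ) (r : ℕ) : ℝ :=
  Real.sqrt (1 + (2 * Q.K ^ 2 * A ^ 3 / Q.mu r) ^ 2 * (A ^ 3 / Q.mu r) * (4 * Q.K ^ 2 * Q.bt r ^ 2))

/-- T_0, T_5 -/
noncomputable def T0 [Group G] (Q : VD G M L) : ℝ :=
  2 * Q.K * Q.Kh (2 * Q.C0) Q.rC * (2 * Q.C0 + 1)
noncomputable def Khm [Group G] (Q : VD G M L) : ℝ := Q.Kh Q.A0 Q.rm
noncomputable def T5 [Group G] (Q : VD G M L) : ℝ := 2 * Q.K * Q.Khm * (Q.A0 + 1)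

/-- Lipschitz constant of fhat -/
noncomputable def Lf [Group G] (Q : VD G M L) : ℝ :=
  1000 * (Q.A0 + 1) ^ 2 * Q.nb 1 Q.r2 ^ 2 / Q.mu Q.rm * Q.K ^ 2 * Q.bt Q.r2 ^ 2 * Q.W7 ^ 2

/-- All constraints. -/
structure OK [Group G] (Q : VD G M L) : Prop where
  hd : HypM Q.d
  four : ∀ a b c w, Q.d a c + Q.d b w ≤ max (Q.d a b + Q.d c w) (Q.d b c + Q.d a w) + 2 * Q.δ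
  lam_pos : 0 < Q.lam
  K1 : 1 ≤ Q.K
  ball : ∀ a, ‖Q.f a‖ < 1
  up : ∀ a b, om (Q.f a) (Q.f b) ≤ Q.K * Q.wb b a
  lo : ∀ a b, Q.wb b a ≤ Q.K * om (Q.f a) (Q.f b)
  inj : ∀ a b, Q.d a b ≤ 2 * (Q.rE + Q.rc + Q.r8 + Q.r2 + Q.rm + Q.r0) → Q.c a = Q.c b → a = b
  hs0 : 2 * Q.K ^ 2 ≤ Q.bt Q.s0
  hr0 : 4 * Q.bt (2 * Q.δ) ≤ Q.bt Q.r0
  eta_pos : 0 < Q.eta
  heta : Q.bt Q.r0 * Q.eta ≤ 1 / 4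
  C0a : 1 ≤ Q.C0
  C0b : 6 / Q.kap ≤ Q.C0
  C0c : 2 * Q.K * Q.K3 / Q.kap * (6 * Q.K / Q.kap + 3) ≤ Q.C0
  hrC : 8 * Q.C0 ≤ Q.bt Q.rC
  hC : 16 * Q.T0 ≤ Q.C
  C1a : 4 * Q.K * Q.C ^ 2 ≤ Q.C1
  C1b : 4 * Q.C0 ≤ Q.C1
  hrm : 4 * Q.A0 ≤ Q.bt Q.rm
  rCm : Q.rC ≤ Q.rm
  tau_pos : 0 < Q.tau
  htau : 16 * Q.tau * Q.nb 1 Q.rm ≤ 1
  hC5 : 8 * Q.T5 ≤ Q.C5
  W5a : 5 ≤ Q.W5
  W5b : 4 * Q.Khm * Q.C ≤ Q.W5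
  W5c : 64 * Q.C5 * Q.nb 1 Q.rm * Q.K * Q.bt Q.rm * Q.Khm ≤ Q.W5
  hW6 : 6 * Q.K * Q.bt Q.r0 * Q.Khm * Q.W5 ≤ Q.W6
  W6b : Q.C ≤ Q.W6
  hr2 : 2 * Q.A0 ≤ Q.tau * Q.bt Q.r2
  rm2 : Q.rm ≤ Q.r2
  hW8 : 2 * Q.K * Q.bt Q.r2 * Q.W7 ≤ Q.W8
  hsig : 100000 * Q.Lf * Q.W5 ^ 4 * (Q.A0 + 5) ≤ Q.sig
  eps_pos : 0 < Q.eps
  heps : 1000000 * (1 + Q.sig) * Q.L1 ^ 4 * Q.eps ≤ Q.eta1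
  hWc : 2 * Q.bt Q.r2 * Q.A1 * Q.L1 ≤ Q.eps * Q.Wc
  hrc : 4 * Q.K * Q.Wc * Q.W7 ≤ Q.bt Q.rc
  E1 : 1 ≤ Q.E
  hE : 8 * Q.bt Q.rc * Q.bt Q.r2 * Real.sqrt (Q.nb 1 Q.rc) * Q.A1 ≤ Q.eps * Q.E
  hE2 : 4 * Q.A1 ≤ Q.tau * Q.E
  hr8 : 4 * Q.K * Q.W8 * Q.W7 ≤ Q.bt Q.r8
  hrE : 2 * Q.K * Q.W7 * (Q.W7 + 2 * Q.E) ≤ Q.bt Q.rE

/-- psi is a test measure for the point p near b. -/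
structure Tm (Q : VD G M L) (p : EU L × EU M) (b : G) (ψ : G →₀ ℝ) : Prop where
  tot1 : tot ψ = 1
  sup : ∀ a ∈ ψ.support, Q.d a b ≤ Q.rE + Q.r8
  cW : cst (Q.wb b) ψ ≤ Q.A1
  cE : Q.E * ‖p.1 - io Q.c ψ‖ ≤ Q.A1

end VD

end Pool.HQ
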