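import Pool.Agent.HQ.SNear
import Pool.Agent.HQ.VOK

/-!
MODULE V01 (MP_7936f4_al, part III): geometry of om in the unit ball.
Nz x z = |x-z|^2 + Dz x Dz z = 1 - 2<x,z> + |x|^2|z|^2 (SGeo: Nz_eq), om x z ^2 = Nz x z/(Dz x Dz z) (om_sq), Dz z = 1-|z|^2.

* v_om_self: qd x x = 0.
* v_om_ptol (Ptolemy).  With [x,z] = sqrt (Nz x z) it says [p,q][r,s] <= [p,r][q,s] + [p,s][q,r] (all D factors are the
  same product).  If q = 0: [p,0] = 1 and the claim is [r,s] <= [p,r][0,s] + [p,s][0,r] = [p,r] + [p,s]; similarly s = 0.  It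
  is easiest to prove it in one go with the inversion: for q, s nonzero put q* = q/|q|^2, s* = s/|s|^2: [x,q] = |q| |x-q*|,
  |q*-s*| = |q-s|/(|q||s|).  Ptolemy's inequality in a Euclidean space (Mathlib:
  EuclideanGeometry.mul_dist_le_mul_dist_add_mul_dist : dist a c * dist b d <= dist a b * dist c d + dist b c * dist a d)
  gives |p-q*||r-s*| <= |p-r||q*-s*| + |p-s*||r-q*|; multiply by |q||s|: [p,q][r,s] <= |p-r||q-s| + [p,s][r,q] and
  |p-r| <= [p,r], |q-s| <= [q,s].  Case q = 0: [r,s] = |s||r-s*| <= |s||p-s*| + |s||p-r| <= [p,s] + [p,r] (if s = 0 too it is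
  1 <= [p,r] + 1).  Case s = 0: [p,q] <= [p,r] + [q,r]?  (claim: [p,q]*1 <= [p,r]*1 + 1*[q,r]): same by symmetry.
* v_om_tri: take r = s = y, q = z, p = x in Ptolemy: om x z * om y y <= om x y * om z y + om x y * om z y.
* v_om_lip: let u = |z'-z|, e = 1-|z|, t = u/e <= 1/2; then 1-|z'| >= e - u >= e/2 > 0.  [x,z] = sqrt N satisfies
  |[x,z'] - [x,z]| <= |x| |z'-z| <= u (for x = 0 both are 1; otherwise [x,z] = |x||z - x*|), and [x,z] >= 1-|x||z| >= e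
  (le_Nz), similarly [x,z'] >= 1-|z'| >= e/2.  D z <= D z' + 2u, D z' >= 1-|z'| >= e/2 and D z >= e.
  om x z'/om x z = [x,z']/[x,z] sqrt(D z/D z') <= (1+t) sqrt(1+4t) <= (1+2t)^2 <= 1+6t;  the other direction:
  [x,z]/[x,z'] sqrt(D z'/D z) <= (1+2t) sqrt(1+2t) <= (1+2t)^2 <= 1+6t.
* v_om_abs: from v_om_lip: difference <= 6t om x z or <= 6t om x z' <= 6t(1+6t) om x z <= 24 t om x z.
* v_D_ratio: Dz x ^2 <= 4 Nz x z (Dz_sq_le), so D x <= 4 om^2 D z.  v_dist_le: |x-z|^2 <= Nz = om^2 D x D z <= 4 om^4 (D z)^2.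
-/

namespace Pool.HQ

variable {M : ℕ}

/-- the square root of Nz -/
noncomputable def v01br (x z : EU M) : ℝ := Real.sqrt (Nz x z)

theorem v01_nz_nonneg (x z : EU M) : 0 ≤ Nz x z := (sq_nonneg _).trans (le_Nz x z)

theorem v01_br_nonneg (x z : EU M) : 0 ≤ v01br x z := Real.sqrt_nonneg _

theorem v01_br_sq (x z : EU M) : v01br x z ^ 2 = Nz x z := Real.sq_sqrt (v01_nz_nonneg x z)

theorem v01_br_symm (x z : EU M) : v01br x z = v01br z x := by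
  unfold v01br
  rw [Nz_symm]

theorem v01_br_zero (x : EU M) : v01br x 0 = 1 := by
  unfold v01br
  rw [Nz_eq]
  simp

theorem v01_br_zero' (x : EU M) : v01br 0 x = 1 := by
  rw [v01_br_symm, v01_br_zero]

theorem v01_br_eq {x z : EU M} (hz : z ≠ 0) : v01br x z = ‖z‖ * ‖x - (‖z‖ ^ 2)⁻¹ • z‖ := by
  have hz0 : 0 < ‖z‖ := norm_pos_iff.2 hz
  have h1 : 0 ≤ ‖z‖ * ‖x - (‖z‖ ^ 2)⁻¹ • z‖ := by positivity
  refine (sq_eq_sq₀ (v01_br_nonneg x z) h1).1 ?_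
  rw [v01_br_sq, Nz_eq, mul_pow, @norm_sub_sq_real, norm_smul, inner_smul_right, mul_pow,
    Real.norm_eq_abs, sq_abs]
  field_simp
  ring

theorem v01_inv {q s : EU M} (hq : q ≠ 0) (hs : s ≠ 0) :
    ‖q‖ * ‖s‖ * ‖(‖q‖ ^ 2)⁻¹ • q - (‖s‖ ^ 2)⁻¹ • s‖ = ‖q - s‖ := by
  have hq0 : 0 < ‖q‖ := norm_pos_iff.2 hq
  have hs0 : 0 < ‖s‖ := norm_pos_iff.2 hs
  have h1 : 0 ≤ ‖q‖ * ‖s‖ * ‖(‖q‖ ^ 2)⁻¹ • q - (‖s‖ ^ 2)⁻¹ • s‖ := by positivity
  refine (sq_eq_sq₀ h1 (norm_nonneg _)).1 ?_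
  rw [mul_pow, mul_pow, @norm_sub_sq_real, @norm_sub_sq_real, norm_smul, norm_smul,
    inner_smul_right, real_inner_smul_left, mul_pow, mul_pow, Real.norm_eq_abs, Real.norm_eq_abs,
    sq_abs, sq_abs]
  field_simp
  ring

theorem v01_norm_le_br {x z : EU M} (hx : ‖x‖ < 1) (hz : ‖z‖ < 1) : ‖x - z‖ ≤ v01br x z :=
  Real.le_sqrt_of_sq_le (sq_le_Nz hx hz)

/-- triangle inequality for a fixed last argument -/
theorem v01_br_tri {x y z : EU M} (hz : ‖z‖ ≤ 1) :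
    v01br x z ≤ ‖x - y‖ + v01br y z := by
  by_cases h : z = 0
  · subst h
    rw [v01_br_zero, v01_br_zero]
    linarith [norm_nonneg (x - y)]
  · rw [v01_br_eq h, v01_br_eq h]
    have h1 : ‖x - (‖z‖ ^ 2)⁻¹ • z‖ ≤ ‖x - y‖ + ‖y - (‖z‖ ^ 2)⁻¹ • z‖ :=
      norm_sub_le_norm_sub_add_norm_sub _ _ _
    have h2 := norm_nonneg z
    have h3 := norm_nonneg (x - y)
    nlinarith [mul_le_mul_of_nonneg_left h1 h2]

theorem v01_ptol {p q r s : EU M} (hp : ‖p‖ < 1) (hq : ‖q‖ < 1) (hr : ‖r‖ < 1) (hs : ‖s‖ < 1) :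
    v01br p q * v01br r s ≤ v01br p r * v01br q s + v01br p s * v01br q r := by
  by_cases hq0 : q = 0
  · subst hq0
    rw [v01_br_zero, v01_br_zero', v01_br_zero']
    have h1 := v01_br_tri (x := r) (y := p) hs.le
    have h2 := v01_norm_le_br hp hr
    rw [norm_sub_rev] at h2
    linarith
  by_cases hs0 : s = 0
  · subst hs0
    rw [v01_br_zero, v01_br_zero, v01_br_zero]
    have h1 := v01_br_tri (x := p) (y := r) hq.le
    have h2 := v01_norm_le_br hp hr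
    rw [v01_br_symm q r]
    linarith
  have h1 := EuclideanGeometry.mul_dist_le_mul_dist_add_mul_dist p r ((‖q‖ ^ 2)⁻¹ • q)
    ((‖s‖ ^ 2)⁻¹ • s)
  rw [dist_eq_norm, dist_eq_norm, dist_eq_norm, dist_eq_norm, dist_eq_norm, dist_eq_norm] at h1
  have h2 : v01br p q * v01br r s ≤ ‖p - r‖ * ‖q - s‖ + v01br r q * v01br p s := by
    rw [v01_br_eq hq0, v01_br_eq hs0, v01_br_eq (x := r) hq0, v01_br_eq (x := p) hs0, ← v01_inv hq0 hs0]
    have h3 : 0 ≤ ‖q‖ * ‖s‖ := by positivity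
    have h4 := mul_le_mul_of_nonneg_left h1 h3
    linarith
  have h3 : ‖p - r‖ * ‖q - s‖ ≤ v01br p r * v01br q s :=
    mul_le_mul (v01_norm_le_br hp hr) (v01_norm_le_br hq hs) (norm_nonneg _) (v01_br_nonneg _ _)
  rw [v01_br_symm q r]
  linarith

theorem v01_om_eq {x z : EU M} (hx : ‖x‖ < 1) (hz : ‖z‖ < 1) :
    om x z = v01br x z / (Real.sqrt (Dz x) * Real.sqrt (Dz z)) := by
  unfold om v01br
  rw [one_add_qd hx hz, Real.sqrt_div' _ (mul_pos (Dz_pos hx) (Dz_pos hz)).le,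
    Real.sqrt_mul (Dz_pos hx).le]

theorem v_om_self {x : EU M} : om x x = 1 := by
  unfold om qd
  simp

theorem v_om_ptol {p q r s : EU M} (hp : ‖p‖ < 1) (hq : ‖q‖ < 1) (hr : ‖r‖ < 1) (hs : ‖s‖ < 1) :
    om p q * om r s ≤ om p r * om q s + om p s * om q r := by
  rw [v01_om_eq hp hq, v01_om_eq hr hs, v01_om_eq hp hr, v01_om_eq hq hs, v01_om_eq hp hs,
    v01_om_eq hq hr]
  have h1 := v01_ptol hp hq hr hs
  have a1 := Real.sqrt_pos.2 (Dz_pos hp)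
  have a2 := Real.sqrt_pos.2 (Dz_pos hq)
  have a3 := Real.sqrt_pos.2 (Dz_pos hr)
  have a4 := Real.sqrt_pos.2 (Dz_pos hs)
  set P := Real.sqrt (Dz p)
  set Q := Real.sqrt (Dz q)
  set R := Real.sqrt (Dz r)
  set S := Real.sqrt (Dz s)
  have e1 : v01br p q / (P * Q) * (v01br r s / (R * S)) =
      (v01br p q * v01br r s) / (P * Q * R * S) := by
    field_simp
  have e2 : v01br p r / (P * R) * (v01br q s / (Q * S)) +
      v01br p s / (P * S) * (v01br q r / (Q * R)) =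
      (v01br p r * v01br q s + v01br p s * v01br q r) / (P * Q * R * S) := by
    field_simp
  rw [e1, e2]
  exact div_le_div_of_nonneg_right h1 (by positivity)

theorem v_om_tri {x y z : EU M} (hx : ‖x‖ < 1) (hy : ‖y‖ < 1) (hz : ‖z‖ < 1) :
    om x z ≤ 2 * om x y * om y z := by
  have h := v_om_ptol hx hz hy hy
  rw [v_om_self, om_symm z y] at h
  linarith

theorem v01_norm_lt {z z' : EU M} (hz : ‖z‖ < 1) (h : ‖z' - z‖ ≤ (1 - ‖z‖) / 2) :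
    (1 - ‖z‖) / 2 ≤ 1 - ‖z'‖ := by
  have h1 : ‖z'‖ ≤ ‖z' - z‖ + ‖z‖ := by
    have := norm_add_le (z' - z) z
    simpa using this
  linarith

theorem v01_Dz_ge {z : EU M} (hz : ‖z‖ < 1) : 1 - ‖z‖ ≤ Dz z := by
  unfold Dz
  nlinarith [norm_nonneg z]

theorem v01_br_ge {x z : EU M} (hx : ‖x‖ < 1) (hz : ‖z‖ < 1) : 1 - ‖z‖ ≤ v01br x z := by
  refine Real.le_sqrt_of_sq_le (le_trans ?_ (le_Nz x z))
  have h1 : ‖x‖ * ‖z‖ ≤ ‖z‖ := mul_le_of_le_one_left (norm_nonneg z) hx.le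
  exact pow_le_pow_left₀ (by linarith) (by linarith) 2

theorem v_om_lip {x z z' : EU M} (hx : ‖x‖ < 1) (hz : ‖z‖ < 1) (h : ‖z' - z‖ ≤ (1 - ‖z‖) / 2) :
    ‖z'‖ < 1 ∧ om x z' ≤ (1 + 6 * (‖z' - z‖ / (1 - ‖z‖))) * om x z ∧
      om x z ≤ (1 + 6 * (‖z' - z‖ / (1 - ‖z‖))) * om x z' := by
  have he : 0 < 1 - ‖z‖ := by linarith
  have hz'1 := v01_norm_lt hz h
  have hz' : ‖z'‖ < 1 := by linarith
  set u := ‖z' - z‖ with hu
  set e := 1 - ‖z‖ with hee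
  have hu0 : 0 ≤ u := norm_nonneg _
  set t := u / e with ht
  have ht0 : 0 ≤ t := by positivity
  have ht1 : t ≤ 1 / 2 := by
    rw [ht, div_le_iff₀ he]
    linarith
  have hut : u = t * e := by
    rw [ht]
    field_simp
  have b1 := v01_br_ge hx hz
  have b2 := v01_br_ge hx hz'
  have c1 : v01br x z' ≤ (1 + t) * v01br x z := by
    have h1 : v01br z' x ≤ ‖z' - z‖ + v01br z x := v01_br_tri hx.le
    rw [v01_br_symm z' x, v01_br_symm z x] at h1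
    have h2 : u ≤ t * v01br x z := by
      rw [hut]
      exact mul_le_mul_of_nonneg_left b1 ht0
    linarith
  have c2 : v01br x z ≤ (1 + 2 * t) * v01br x z' := by
    have h1 : v01br z x ≤ ‖z - z'‖ + v01br z' x := v01_br_tri hx.le
    rw [v01_br_symm z' x, v01_br_symm z x, norm_sub_rev] at h1
    have h2 : u ≤ 2 * t * v01br x z' := by
      have h3 : t * e ≤ t * (2 * v01br x z') :=
        mul_le_mul_of_nonneg_left (by linarith) ht0
      rw [hut]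
      linarith
    linarith
  have d0 := Dz_sub_le hz hz'
  rw [norm_sub_rev] at d0
  obtain ⟨d1, d2⟩ := abs_le.1 d0
  have e1 := v01_Dz_ge hz
  have e2 := v01_Dz_ge hz'
  have f1 : Dz z ≤ (1 + 4 * t) * Dz z' := by
    have h3 : t * e ≤ t * (2 * Dz z') := mul_le_mul_of_nonneg_left (by linarith) ht0
    have h4 : ‖z' - z‖ = t * e := hut
    linarith
  have f2 : Dz z' ≤ (1 + 2 * t) * Dz z := by
    have h3 : t * e ≤ t * Dz z := mul_le_mul_of_nonneg_left (by linarith) ht0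
    have h4 : ‖z' - z‖ = t * e := hut
    linarith
  have g0 := Dz_pos hx
  have g1 := Dz_pos hz
  have g2 := Dz_pos hz'
  have n1 := v01_br_nonneg x z
  have n2 := v01_br_nonneg x z'
  refine ⟨hz', ?_, ?_⟩
  · refine om_le_of_sq (by positivity) hx hz ?_
    rw [om_sq hx hz, om_sq hx hz', ← v01_br_sq, ← v01_br_sq, mul_div_assoc',
      div_le_div_iff₀ (mul_pos g0 g2) (mul_pos g0 g1)]
    have h1 : v01br x z' ^ 2 ≤ ((1 + t) * v01br x z) ^ 2 := pow_le_pow_left₀ n2 c1 2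
    have h2 : v01br x z' ^ 2 * Dz z ≤ ((1 + t) * v01br x z) ^ 2 * ((1 + 4 * t) * Dz z') :=
      mul_le_mul h1 f1 g1.le (by positivity)
    have h3 : (1 + t) ^ 2 * (1 + 4 * t) ≤ (1 + 6 * t) ^ 2 := by nlinarith [mul_nonneg ht0 ht0, mul_nonneg (mul_nonneg ht0 ht0) ht0]
    have h4 : (1 + t) ^ 2 * (1 + 4 * t) * (v01br x z ^ 2 * Dz z' * Dz x) ≤
        (1 + 6 * t) ^ 2 * (v01br x z ^ 2 * Dz z' * Dz x) :=
      mul_le_mul_of_nonneg_right h3 (by positivity)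
    have h5 := mul_le_mul_of_nonneg_right h2 g0.le
    calc v01br x z' ^ 2 * (Dz x * Dz z) = v01br x z' ^ 2 * Dz z * Dz x := by ring
      _ ≤ ((1 + t) * v01br x z) ^ 2 * ((1 + 4 * t) * Dz z') * Dz x := h5
      _ = (1 + t) ^ 2 * (1 + 4 * t) * (v01br x z ^ 2 * Dz z' * Dz x) := by ring
      _ ≤ (1 + 6 * t) ^ 2 * (v01br x z ^ 2 * Dz z' * Dz x) := h4
      _ = _ := by ring
  · refine om_le_of_sq (by positivity) hx hz' ?_
    rw [om_sq hx hz, om_sq hx hz', ← v01_br_sq, ← v01_br_sq, mul_div_assoc',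
      div_le_div_iff₀ (mul_pos g0 g1) (mul_pos g0 g2)]
    have h1 : v01br x z ^ 2 ≤ ((1 + 2 * t) * v01br x z') ^ 2 := pow_le_pow_left₀ n1 c2 2
    have h2 : v01br x z ^ 2 * Dz z' ≤ ((1 + 2 * t) * v01br x z') ^ 2 * ((1 + 2 * t) * Dz z) :=
      mul_le_mul h1 f2 g2.le (by positivity)
    have h3 : (1 + 2 * t) ^ 2 * (1 + 2 * t) ≤ (1 + 6 * t) ^ 2 := by
      nlinarith [mul_nonneg ht0 ht0, mul_nonneg (mul_nonneg ht0 ht0) ht0,
        mul_nonneg (mul_nonneg ht0 ht0) (sub_nonneg.2 ht1)]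
    have h4 : (1 + 2 * t) ^ 2 * (1 + 2 * t) * (v01br x z' ^ 2 * Dz z * Dz x) ≤
        (1 + 6 * t) ^ 2 * (v01br x z' ^ 2 * Dz z * Dz x) :=
      mul_le_mul_of_nonneg_right h3 (by positivity)
    have h5 := mul_le_mul_of_nonneg_right h2 g0.le
    calc v01br x z ^ 2 * (Dz x * Dz z') = v01br x z ^ 2 * Dz z' * Dz x := by ring
      _ ≤ ((1 + 2 * t) * v01br x z') ^ 2 * ((1 + 2 * t) * Dz z) * Dz x := h5
      _ = (1 + 2 * t) ^ 2 * (1 + 2 * t) * (v01br x z' ^ 2 * Dz z * Dz x) := by ring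
      _ ≤ (1 + 6 * t) ^ 2 * (v01br x z' ^ 2 * Dz z * Dz x) := h4
      _ = _ := by ring

theorem v_om_abs {x z z' : EU M} (hx : ‖x‖ < 1) (hz : ‖z‖ < 1) (h : ‖z' - z‖ ≤ (1 - ‖z‖) / 2) :
    |om x z' - om x z| ≤ 24 * (‖z' - z‖ / (1 - ‖z‖)) * om x z := by
  obtain ⟨hz', h1, h2⟩ := v_om_lip hx hz h
  have he : 0 < 1 - ‖z‖ := by linarith
  set t := ‖z' - z‖ / (1 - ‖z‖) with ht
  have ht0 : 0 ≤ t := by positivity
  have ht1 : t ≤ 1 / 2 := by
    rw [ht, div_le_iff₀ he]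
    linarith
  have p1 : 0 < om x z := lt_of_lt_of_le one_pos (one_le_om hx hz)
  have h3 : 6 * t * om x z' ≤ 6 * t * ((1 + 6 * t) * om x z) :=
    mul_le_mul_of_nonneg_left h1 (by positivity)
  have h4 : 6 * t * ((1 + 6 * t) * om x z) ≤ 24 * t * om x z := by
    have : 6 * t * (1 + 6 * t) ≤ 24 * t := by nlinarith
    nlinarith
  have h5 : 0 ≤ t * om x z := by positivity
  rw [abs_le]
  constructor <;> nlinarith

theorem v_D_ratio {x z : EU M} (hx : ‖x‖ < 1) (hz : ‖z‖ < 1) :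
    1 - ‖x‖ ^ 2 ≤ 4 * om x z ^ 2 * (1 - ‖z‖ ^ 2) := by
  have h1 := Dz_pos hx
  have h2 := Dz_pos hz
  have h3 := Dz_sq_le hx hz
  change Dz x ≤ 4 * om x z ^ 2 * Dz z
  rw [om_sq hx hz]
  have e : 4 * (Nz x z / (Dz x * Dz z)) * Dz z = 4 * Nz x z / Dz x := by
    field_simp
  rw [e, le_div_iff₀ h1]
  linarith

theorem v_dist_le {x z : EU M} (hx : ‖x‖ < 1) (hz : ‖z‖ < 1) :
    ‖x - z‖ ≤ 2 * om x z ^ 2 * (1 - ‖z‖ ^ 2) := by
  have h1 := Dz_pos hx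
  have h2 := Dz_pos hz
  have h3 := sq_le_Nz hx hz
  have h4 := v_D_ratio hx hz
  have h5 : Nz x z = om x z ^ 2 * (Dz x * Dz z) := by
    rw [om_sq hx hz]
    field_simp
  change Dz x ≤ 4 * om x z ^ 2 * Dz z at h4
  change ‖x - z‖ ≤ 2 * om x z ^ 2 * Dz z
  have h6 : 0 ≤ 2 * om x z ^ 2 * Dz z := by positivity
  refine le_of_sq_le_sq ?_ h6
  have h7 : om x z ^ 2 * (Dz x * Dz z) ≤ om x z ^ 2 * (4 * om x z ^ 2 * Dz z * Dz z) :=
    mul_le_mul_of_nonneg_left (mul_le_mul_of_nonneg_right h4 h2.le) (sq_nonneg _)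
  calc ‖x - z‖ ^ 2 ≤ Nz x z := h3
    _ = om x z ^ 2 * (Dz x * Dz z) := h5
    _ ≤ om x z ^ 2 * (4 * om x z ^ 2 * Dz z * Dz z) := h7
    _ = _ := by ring

end Pool.HQ
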