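import Pool.Agent.HQ.V01

/-!
MODULE V02 (MP_7936f4_al, part III): the straight step z' = z + s rho (y - z) towards a point y of the ball, where
rho = (1-|z|)/(16 (|y-z| + (1-|z|))).

Write e = 1-|z|, D = 1-|z|^2, Dy = 1-|y|^2, a = s rho in [0,1/16], R2 = Dy/D, g = a R2.
(1) |z'-z| = s rho |y-z| <= s e/16, so |z'| < 1.
(2) g <= s/8:  Dy <= 2(1-|y|) <= 2(e + |y-z|), D >= e, so rho R2 <= (1/16) e/(e+|y-z|) * 2 (e+|y-z|)/e = 1/8.
(3) convexity: Z x z := sqrt(Nz x z) (= sqrt(1-2<x,z>+|x|^2|z|^2)) is convex in z: for x = 0 constant 1, otherwise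
    Z x z = |x| |z - x/|x|^2|.  Hence Z x z' <= (1-a) Z x z + a Z x y.  And D z' >= (1-a) D + a Dy (|.|^2 is convex).
    As om x z = Z x z/sqrt(D x D z) (om_sq):  om x z' <= (D/D z')^(1/2) ((1-a) om x z + a sqrt(R2) om x y)
    <= (1-a+g)^(-1/2) ((1-a) om x z + sqrt(a g) om x y).
(4) Sum over i with weights t_i: B' <= (1-a+g)^(-1/2) ((1-a) B + sqrt(ag) Y), B = sum t om x_i z, Y = sum t om x_i y.
    Write Y <= B/4 + T, T = max 0 (Y - B/4).  Real inequality for 0 <= a <= 1/16, 0 <= g <= 1/8, w = a+g <= 3/16: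
    (1-a+g)^(-1/2) (1 - a + sqrt(ag)/4) <= 1 - w/8 (use sqrt(ag) <= w/2; (1+u)^(-1/2) <= 1 - u/2 + u^2/2 for |u| <= 3/16; the
    product is <= 1 - (3/8) w + 1.1 w^2 <= 1 - w/8), and (1-a+g)^(-1/2) sqrt(ag) <= s/10 (a <= s/16, g <= s/8,
    sqrt(ag) <= s/11.3, (15/16)^(-1/2) <= 1.04).  w >= a = s rho.
v_rho_low: |y-z| <= 2 om y z^2 (1-|z|^2) <= 4 om^2 e, so rho >= 1/(16 (1 + 4 om^2)).
-/

namespace Pool.HQ

variable {M : ℕ}

/-- the factor rho of the step -/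
noncomputable def rhoS (z y : EU M) : ℝ := (1 - ‖z‖) / (16 * (‖y - z‖ + (1 - ‖z‖)))

theorem v_rho_pos {z y : EU M} (hz : ‖z‖ < 1) : 0 < rhoS z y ∧ rhoS z y ≤ 1 / 16 := by
  have he : 0 < 1 - ‖z‖ := by linarith
  have h0 := norm_nonneg (y - z)
  unfold rhoS
  constructor
  · positivity
  · rw [div_le_div_iff₀ (by positivity) (by norm_num)]
    nlinarith

theorem v_rho_low {z y : EU M} (hz : ‖z‖ < 1) (hy : ‖y‖ < 1) :
    1 / (16 * (1 + 4 * om y z ^ 2)) ≤ rhoS z y := by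
  have he : 0 < 1 - ‖z‖ := by linarith
  have h0 := norm_nonneg (y - z)
  have h1 := v_dist_le hy hz
  have h2 : 1 - ‖z‖ ^ 2 ≤ 2 * (1 - ‖z‖) := by nlinarith [norm_nonneg z]
  have h3 : 2 * om y z ^ 2 * (1 - ‖z‖ ^ 2) ≤ 2 * om y z ^ 2 * (2 * (1 - ‖z‖)) :=
    mul_le_mul_of_nonneg_left h2 (by positivity)
  unfold rhoS
  rw [div_le_div_iff₀ (by positivity) (by positivity)]
  nlinarith

theorem v02_rho_mul {z y : EU M} (hz : ‖z‖ < 1) : rhoS z y * ‖y - z‖ ≤ 1 / 16 * (1 - ‖z‖) := by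
  have he : 0 < 1 - ‖z‖ := by linarith
  have h0 := norm_nonneg (y - z)
  unfold rhoS
  rw [div_mul_eq_mul_div, div_le_iff₀ (by positivity)]
  nlinarith [mul_pos he he]

theorem v_step_near {z y : EU M} (hz : ‖z‖ < 1) {s : ℝ} (hs : 0 ≤ s) (hs1 : s ≤ 1) :
    ‖(z + (s * rhoS z y) • (y - z)) - z‖ ≤ s / 16 * (1 - ‖z‖) ∧
      ‖z + (s * rhoS z y) • (y - z)‖ < 1 := by
  have he : 0 < 1 - ‖z‖ := by linarith
  have h1 := v02_rho_mul (y := y) hz
  have hρ := (v_rho_pos (y := y) hz).1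
  have h2 : ‖(s * rhoS z y) • (y - z)‖ ≤ s / 16 * (1 - ‖z‖) := by
    rw [norm_smul, Real.norm_eq_abs, abs_of_nonneg (by positivity)]
    have := mul_le_mul_of_nonneg_left h1 hs
    linarith
  refine ⟨by rw [add_sub_cancel_left]; exact h2, ?_⟩
  have h3 := norm_add_le z ((s * rhoS z y) • (y - z))
  have h4 : s / 16 * (1 - ‖z‖) ≤ 1 / 16 * (1 - ‖z‖) :=
    mul_le_mul_of_nonneg_right (by linarith) he.le
  linarith

/-- convexity of br in the second argument -/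
theorem v02_br_conv (x z y : EU M) {a : ℝ} (ha : 0 ≤ a) (ha1 : a ≤ 1) :
    v01br x (z + a • (y - z)) ≤ (1 - a) * v01br x z + a * v01br x y := by
  by_cases hx : x = 0
  · subst hx
    rw [v01_br_zero', v01_br_zero', v01_br_zero']
    linarith
  · rw [v01_br_symm x, v01_br_symm x, v01_br_symm x, v01_br_eq hx, v01_br_eq hx, v01_br_eq hx]
    set w : EU M := (‖x‖ ^ 2)⁻¹ • x with hw
    have e : z + a • (y - z) - w = (1 - a) • (z - w) + a • (y - w) := by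
      module
    have h1 : ‖z + a • (y - z) - w‖ ≤ (1 - a) * ‖z - w‖ + a * ‖y - w‖ := by
      rw [e]
      refine (norm_add_le _ _).trans ?_
      rw [norm_smul, norm_smul, Real.norm_eq_abs, Real.norm_eq_abs, abs_of_nonneg ha,
        abs_of_nonneg (by linarith)]
    have h2 := mul_le_mul_of_nonneg_left h1 (norm_nonneg x)
    linarith

theorem v02_Dz_conv (z y : EU M) {a : ℝ} (ha : 0 ≤ a) (ha1 : a ≤ 1) :
    (1 - a) * Dz z + a * Dz y ≤ Dz (z + a • (y - z)) := by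
  unfold Dz
  have e : ‖z + a • (y - z)‖ ^ 2 = (1 - a) * ‖z‖ ^ 2 + a * ‖y‖ ^ 2 - a * (1 - a) * ‖y - z‖ ^ 2 := by
    rw [@norm_add_sq_real, norm_smul, inner_smul_right, mul_pow, Real.norm_eq_abs, sq_abs,
      inner_sub_right, real_inner_self_eq_norm_sq, @norm_sub_sq_real, real_inner_comm]
    ring
  rw [e]
  have : 0 ≤ a * (1 - a) * ‖y - z‖ ^ 2 :=
    mul_nonneg (mul_nonneg ha (by linarith)) (sq_nonneg _)
  linarith

theorem v02_ineq {a r q : ℝ} (ha : 0 ≤ a) (ha1 : a ≤ 1 / 16) (hq : 0 ≤ q)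
    (hr : 0 ≤ r) (hq2 : q ^ 2 = 1 - a + a * r ^ 2) : 1 - a + a * r / 4 ≤ (1 - a / 8) * q := by
  have h0 : 0 ≤ (1 - a / 8) * q := mul_nonneg (by linarith) hq
  refine le_of_sq_le_sq ?_ h0
  rw [mul_pow, hq2]
  have h1 : 0 ≤ a * r ^ 2 := by positivity
  have h2 : 2 * (a * r) ≤ a + a * r ^ 2 := by nlinarith [mul_nonneg ha (sq_nonneg (r - 1))]
  have h3 : 0 ≤ a * r := by positivity
  have h4 : (a * r) ^ 2 = a * (a * r ^ 2) := by ring
  set g := a * r ^ 2 with hg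
  set h := a * r with hh
  have e1 : (1 - a + h / 4) ^ 2 = (1 - a) ^ 2 + (1 - a) * h / 2 + a * g / 16 := by
    have : (1 - a + h / 4) ^ 2 = (1 - a) ^ 2 + (1 - a) * h / 2 + h ^ 2 / 16 := by ring
    rw [this, h4]
  rw [e1]
  have h5 : (1 - a) * (2 * h) ≤ (1 - a) * (a + g) := mul_le_mul_of_nonneg_left h2 (by linarith)
  have h6 : 0 ≤ a * g := mul_nonneg ha h1
  have h7 : a * g ≤ 1 / 16 * g := mul_le_mul_of_nonneg_right ha1 h1
  have h8 : a * a ≤ 1 / 16 * a := mul_le_mul_of_nonneg_right ha1 ha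
  have h9 : 0 ≤ a ^ 2 / 64 * (1 - a + g) := mul_nonneg (by positivity) (by linarith)
  nlinarith

theorem v02_one {x z y : EU M} (hx : ‖x‖ < 1) (hz : ‖z‖ < 1) (hy : ‖y‖ < 1) {a : ℝ} (ha : 0 ≤ a)
    (ha1 : a ≤ 1 / 16) (hz' : ‖z + a • (y - z)‖ < 1) :
    om x (z + a • (y - z)) * Real.sqrt (1 - a + a * (Real.sqrt (Dz y) / Real.sqrt (Dz z)) ^ 2) ≤
      (1 - a) * om x z + a * (Real.sqrt (Dz y) / Real.sqrt (Dz z)) * om x y := by
  have h0 := Dz_pos hx
  have h1 := Dz_pos hz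
  have h2 := Dz_pos hy
  have h3 := Dz_pos hz'
  have s0 := Real.sqrt_pos.2 h0
  have s1 := Real.sqrt_pos.2 h1
  have s2 := Real.sqrt_pos.2 h2
  have s3 := Real.sqrt_pos.2 h3
  have hb := v02_br_conv x z y ha (by linarith)
  have hD := v02_Dz_conv z y ha (by linarith)
  rw [v01_om_eq hx hz', v01_om_eq hx hz, v01_om_eq hx hy]
  set q := Real.sqrt (1 - a + a * (Real.sqrt (Dz y) / Real.sqrt (Dz z)) ^ 2) with hq
  have hq0 : 0 ≤ q := Real.sqrt_nonneg _
  have hq1 : q * Real.sqrt (Dz z) ≤ Real.sqrt (Dz (z + a • (y - z))) := by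
    refine Real.le_sqrt_of_sq_le (le_trans (le_of_eq ?_) hD)
    rw [mul_pow, Real.sq_sqrt h1.le, hq, Real.sq_sqrt (add_nonneg (by linarith) (by positivity)),
      div_pow, Real.sq_sqrt h1.le, Real.sq_sqrt h2.le]
    field_simp
  have hq2 : q / Real.sqrt (Dz (z + a • (y - z))) ≤ 1 / Real.sqrt (Dz z) := by
    rw [div_le_div_iff₀ s3 s1]
    linarith
  have e1 : v01br x (z + a • (y - z)) /
      (Real.sqrt (Dz x) * Real.sqrt (Dz (z + a • (y - z)))) * q =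
      v01br x (z + a • (y - z)) / Real.sqrt (Dz x) * (q / Real.sqrt (Dz (z + a • (y - z)))) := by
    field_simp
  rw [e1]
  have h4 : v01br x (z + a • (y - z)) / Real.sqrt (Dz x) *
      (q / Real.sqrt (Dz (z + a • (y - z)))) ≤
      ((1 - a) * v01br x z + a * v01br x y) / Real.sqrt (Dz x) * (1 / Real.sqrt (Dz z)) :=
    mul_le_mul (div_le_div_of_nonneg_right hb s0.le) hq2 (by positivity)
      (div_nonneg ((v01_br_nonneg _ _).trans hb) s0.le)
  refine h4.trans (le_of_eq ?_)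
  field_simp

theorem v_step {ι : Type} (S : Finset ι) (t : ι → ℝ) (x : ι → EU M) (ht : ∀ i ∈ S, 0 ≤ t i)
    (hx : ∀ i ∈ S, ‖x i‖ < 1) {z y : EU M} (hz : ‖z‖ < 1) (hy : ‖y‖ < 1) {s : ℝ} (hs : 0 ≤ s)
    (hs1 : s ≤ 1) :
    ∑ i ∈ S, t i * om (x i) (z + (s * rhoS z y) • (y - z)) ≤
      (1 - s * rhoS z y / 8) * ∑ i ∈ S, t i * om (x i) z +
        s / 10 * max 0 (∑ i ∈ S, t i * om (x i) y - 1 / 4 * ∑ i ∈ S, t i * om (x i) z) := by
  have he : 0 < 1 - ‖z‖ := by linarith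
  obtain ⟨hρ0, hρ1⟩ := v_rho_pos (y := y) hz
  obtain ⟨-, hz'⟩ := v_step_near (y := y) hz hs hs1
  have h1 := Dz_pos hz
  have h2 := Dz_pos hy
  have s1 := Real.sqrt_pos.2 h1
  have s2 := Real.sqrt_pos.2 h2
  set a := s * rhoS z y with ha
  have ha0 : 0 ≤ a := by positivity
  have ha1 : a ≤ s / 16 := by
    have := mul_le_mul_of_nonneg_left hρ1 hs
    linarith
  have ha2 : a ≤ 1 / 16 := by linarith
  set r := Real.sqrt (Dz y) / Real.sqrt (Dz z) with hr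
  have hr0 : 0 < r := by positivity
  have hr2 : r ^ 2 = Dz y / Dz z := by
    rw [hr, div_pow, Real.sq_sqrt h1.le, Real.sq_sqrt h2.le]
  -- g at most s / 8
  have hg : a * r ^ 2 ≤ s / 8 := by
    have k1 : Dz y ≤ 2 * (‖y - z‖ + (1 - ‖z‖)) := by
      have k2 : ‖z‖ ≤ ‖y - z‖ + ‖y‖ := by
        have := norm_sub_le_norm_sub_add_norm_sub z y 0
        rw [sub_zero, sub_zero, norm_sub_rev] at this
        exact this
      have k3 : Dz y ≤ 2 * (1 - ‖y‖) := by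
        unfold Dz
        nlinarith [norm_nonneg y]
      linarith
    have k4 := v01_Dz_ge hz
    have k5 : rhoS z y * Dz y ≤ 1 / 8 * Dz z := by
      have k6 : rhoS z y * Dz y ≤ rhoS z y * (2 * (‖y - z‖ + (1 - ‖z‖))) :=
        mul_le_mul_of_nonneg_left k1 hρ0.le
      have k7 : rhoS z y * (2 * (‖y - z‖ + (1 - ‖z‖))) = 1 / 8 * (1 - ‖z‖) := by
        unfold rhoS
        have : 0 < ‖y - z‖ + (1 - ‖z‖) := by positivity
        field_simp
        ring
      linarith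
    rw [hr2, ha, mul_assoc, ← mul_div_assoc]
    have k8 : rhoS z y * Dz y / Dz z ≤ 1 / 8 := by
      rw [div_le_iff₀ h1]
      exact k5
    have := mul_le_mul_of_nonneg_left k8 hs
    linarith
  set q := Real.sqrt (1 - a + a * r ^ 2) with hq
  have hg0 : 0 ≤ a * r ^ 2 := by positivity
  have hq2 : q ^ 2 = 1 - a + a * r ^ 2 := Real.sq_sqrt (by linarith)
  have hqpos : 0 < q := Real.sqrt_pos.2 (by linarith)
  have hineq := v02_ineq ha0 ha2 hqpos.le hr0.le hq2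
  have hT : a * r ≤ s / 10 * q := by
    refine le_of_sq_le_sq ?_ (by positivity)
    have k1 : (a * r) ^ 2 = a * (a * r ^ 2) := by ring
    have k0 : (s / 10 * q) ^ 2 = (s / 10) ^ 2 * (1 - a + a * r ^ 2) := by rw [← hq2]; ring
    rw [k1, k0]
    have k2 : a * (a * r ^ 2) ≤ s / 16 * (s / 8) := mul_le_mul ha1 hg hg0 (by positivity)
    have k3 : (s / 10) ^ 2 * (15 / 16) ≤ (s / 10) ^ 2 * (1 - a + a * r ^ 2) :=
      mul_le_mul_of_nonneg_left (by linarith) (sq_nonneg _)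
    nlinarith [sq_nonneg s]
  set B := ∑ i ∈ S, t i * om (x i) z with hB
  set Y := ∑ i ∈ S, t i * om (x i) y with hY
  set B' := ∑ i ∈ S, t i * om (x i) (z + a • (y - z)) with hB'
  have hB0 : 0 ≤ B := Finset.sum_nonneg fun i hi =>
    mul_nonneg (ht i hi) (zero_le_one.trans (one_le_om (hx i hi) hz))
  have hsum : B' * q ≤ (1 - a) * B + a * r * Y := by
    rw [hB', hB, hY, Finset.sum_mul, Finset.mul_sum, Finset.mul_sum, ← Finset.sum_add_distrib]
    refine Finset.sum_le_sum fun i hi => ?_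
    have := mul_le_mul_of_nonneg_left (v02_one (hx i hi) hz hy ha0 ha2 hz') (ht i hi)
    calc t i * om (x i) (z + a • (y - z)) * q = t i * (om (x i) (z + a • (y - z)) * q) := by ring
      _ ≤ _ := this
      _ = _ := by ring
  set T := max 0 (Y - 1 / 4 * B) with hTd
  have hT0 : 0 ≤ T := le_max_left _ _
  have hYT : Y ≤ 1 / 4 * B + T := by
    have := le_max_right 0 (Y - 1 / 4 * B)
    linarith
  have har : 0 ≤ a * r := by positivity
  have k1 : a * r * Y ≤ a * r * (1 / 4 * B + T) := mul_le_mul_of_nonneg_left hYT har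
  have k2 : (1 - a + a * r / 4) * B ≤ (1 - a / 8) * q * B := mul_le_mul_of_nonneg_right hineq hB0
  have k3 : a * r * T ≤ s / 10 * q * T := mul_le_mul_of_nonneg_right hT hT0
  have k4 : B' * q ≤ ((1 - a / 8) * B + s / 10 * T) * q := by nlinarith
  exact le_of_mul_le_mul_right k4 hqpos

end Pool.HQ
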