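import Pool.Agent.HQ.VOK

/-!
MODULE V03 (MP_7936f4_al, part III): algebra of tot, cst, io on finitely supported functions.
tot, io are linear (Finsupp.sum_add_index', Finsupp.sum_smul_index', sum over a sum: Finsupp.sum_finset_sum_index);
cst w is the weighted l^1 norm: over any finite set S containing the support cst w psi = sum_(a in S) w a |psi a|
(Finsupp.sum_of_support_subset).
-/

namespace Pool.HQ

variable {G : Type} {L : ℕ}

theorem v_tot_add (ψ φ : G →₀ ℝ) : tot (ψ + φ) = tot ψ + tot φ := by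
  unfold tot
  exact Finsupp.sum_add_index' (fun _ => rfl) (fun _ _ _ => rfl)

theorem v_tot_smul (t : ℝ) (ψ : G →₀ ℝ) : tot (t • ψ) = t * tot ψ := by
  unfold tot
  rw [Finsupp.sum_smul_index' (fun _ => rfl), Finsupp.mul_sum]
  rfl

theorem v_tot_single (a : G) (t : ℝ) : tot (Finsupp.single a t) = t := by
  unfold tot
  exact Finsupp.sum_single_index rfl

theorem v_tot_sum {ι : Type} (S : Finset ι) (φ : ι → G →₀ ℝ) :
    tot (∑ i ∈ S, φ i) = ∑ i ∈ S, tot (φ i) := by
  classical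
  induction S using Finset.induction_on with
  | empty =>
    rw [Finset.sum_empty, Finset.sum_empty]
    unfold tot
    exact Finsupp.sum_zero_index
  | insert a S ha ih => rw [Finset.sum_insert ha, Finset.sum_insert ha, v_tot_add, ih]

theorem v_tot_eq (ψ : G →₀ ℝ) (S : Finset G) (h : ψ.support ⊆ S) : tot ψ = ∑ a ∈ S, ψ a := by
  unfold tot
  exact Finsupp.sum_of_support_subset ψ h (fun _ t => t) (fun _ _ => rfl)

theorem v_io_add (c : G → Fin L) (ψ φ : G →₀ ℝ) : io c (ψ + φ) = io c ψ + io c φ := by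
  unfold io
  exact Finsupp.sum_add_index' (fun _ => zero_smul _ _) (fun _ _ _ => add_smul _ _ _)


theorem v_io_single (c : G → Fin L) (a : G) (t : ℝ) :
    io c (Finsupp.single a t) = t • EuclideanSpace.single (c a) (1 : ℝ) := by
  unfold io
  exact Finsupp.sum_single_index (zero_smul _ _)

theorem v_io_sum {ι : Type} (c : G → Fin L) (S : Finset ι) (φ : ι → G →₀ ℝ) :
    io c (∑ i ∈ S, φ i) = ∑ i ∈ S, io c (φ i) := by
  classical
  induction S using Finset.induction_on with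
  | empty =>
    rw [Finset.sum_empty, Finset.sum_empty]
    unfold io
    exact Finsupp.sum_zero_index
  | insert a S ha ih => rw [Finset.sum_insert ha, Finset.sum_insert ha, v_io_add, ih]

theorem v_io_eq (c : G → Fin L) (ψ : G →₀ ℝ) (S : Finset G) (h : ψ.support ⊆ S) :
    io c ψ = ∑ a ∈ S, ψ a • EuclideanSpace.single (c a) (1 : ℝ) := by
  unfold io
  exact Finsupp.sum_of_support_subset ψ h _ (fun _ _ => zero_smul _ _)

theorem v_io_smul (c : G → Fin L) (t : ℝ) (ψ : G →₀ ℝ) : io c (t • ψ) = t • io c ψ := by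
  rw [v_io_eq c (t • ψ) ψ.support Finsupp.support_smul, v_io_eq c ψ ψ.support subset_rfl,
    Finset.smul_sum]
  refine Finset.sum_congr rfl fun a _ => ?_
  rw [Finsupp.smul_apply, smul_smul, smul_eq_mul]

theorem v_cst_eq (w : G → ℝ) (ψ : G →₀ ℝ) (S : Finset G) (h : ψ.support ⊆ S) :
    cst w ψ = ∑ a ∈ S, w a * |ψ a| := by
  unfold cst
  exact Finsupp.sum_of_support_subset ψ h _ (fun _ _ => by rw [abs_zero, mul_zero])

theorem v_cst_nonneg {w : G → ℝ} (hw : ∀ a, 0 ≤ w a) (ψ : G →₀ ℝ) : 0 ≤ cst w ψ := by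
  rw [v_cst_eq w ψ ψ.support subset_rfl]
  exact Finset.sum_nonneg fun a _ => mul_nonneg (hw a) (abs_nonneg _)

theorem v_cst_add_le {w : G → ℝ} (hw : ∀ a, 0 ≤ w a) (ψ φ : G →₀ ℝ) :
    cst w (ψ + φ) ≤ cst w ψ + cst w φ := by
  classical
  rw [v_cst_eq w (ψ + φ) (ψ.support ∪ φ.support) Finsupp.support_add,
    v_cst_eq w ψ (ψ.support ∪ φ.support) Finset.subset_union_left,
    v_cst_eq w φ (ψ.support ∪ φ.support) Finset.subset_union_right, ← Finset.sum_add_distrib]
  refine Finset.sum_le_sum fun a _ => ?_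
  rw [← mul_add, Finsupp.add_apply]
  exact mul_le_mul_of_nonneg_left (abs_add_le _ _) (hw a)

theorem v_cst_smul (w : G → ℝ) (t : ℝ) (ψ : G →₀ ℝ) : cst w (t • ψ) = |t| * cst w ψ := by
  rw [v_cst_eq w (t • ψ) ψ.support Finsupp.support_smul, v_cst_eq w ψ ψ.support subset_rfl,
    Finset.mul_sum]
  refine Finset.sum_congr rfl fun a _ => ?_
  rw [Finsupp.smul_apply, smul_eq_mul, abs_mul]
  ring

theorem v_cst_single (w : G → ℝ) (a : G) (t : ℝ) : cst w (Finsupp.single a t) = w a * |t| := by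
  unfold cst
  exact Finsupp.sum_single_index (by rw [abs_zero, mul_zero])

theorem v_cst_sum_le {ι : Type} {w : G → ℝ} (hw : ∀ a, 0 ≤ w a) (S : Finset ι) (φ : ι → G →₀ ℝ) :
    cst w (∑ i ∈ S, φ i) ≤ ∑ i ∈ S, cst w (φ i) := by
  classical
  induction S using Finset.induction_on with
  | empty =>
    rw [Finset.sum_empty, Finset.sum_empty]
    unfold cst
    rw [Finsupp.sum_zero_index]
  | insert a S ha ih =>
    rw [Finset.sum_insert ha, Finset.sum_insert ha]
    exact (v_cst_add_le hw _ _).trans (by linarith)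

/-- monotonicity in the weight (only on the support) -/
theorem v_cst_mono {w w' : G → ℝ} (ψ : G →₀ ℝ) (h : ∀ a ∈ ψ.support, w a ≤ w' a) :
    cst w ψ ≤ cst w' ψ := by
  rw [v_cst_eq w ψ ψ.support subset_rfl, v_cst_eq w' ψ ψ.support subset_rfl]
  exact Finset.sum_le_sum fun a ha => mul_le_mul_of_nonneg_right (h a ha) (abs_nonneg _)

theorem v_cst_mul (w : G → ℝ) (t : ℝ) (ψ : G →₀ ℝ) : cst (fun a => t * w a) ψ = t * cst w ψ := by
  rw [v_cst_eq _ ψ ψ.support subset_rfl, v_cst_eq w ψ ψ.support subset_rfl, Finset.mul_sum]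
  exact Finset.sum_congr rfl fun a _ => mul_assoc _ _ _

theorem v_cst_add_w (w w' : G → ℝ) (ψ : G →₀ ℝ) :
    cst (fun a => w a + w' a) ψ = cst w ψ + cst w' ψ := by
  rw [v_cst_eq _ ψ ψ.support subset_rfl, v_cst_eq w ψ ψ.support subset_rfl,
    v_cst_eq w' ψ ψ.support subset_rfl, ← Finset.sum_add_distrib]
  exact Finset.sum_congr rfl fun a _ => add_mul _ _ _

theorem v_abs_tot_le (ψ : G →₀ ℝ) : |tot ψ| ≤ cst (fun _ => 1) ψ := by
  rw [v_tot_eq ψ ψ.support subset_rfl, v_cst_eq _ ψ ψ.support subset_rfl]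
  refine (Finset.abs_sum_le_sum_abs _ _).trans (le_of_eq ?_)
  exact Finset.sum_congr rfl fun a _ => (one_mul _).symm

theorem v_norm_io_le (c : G → Fin L) (ψ : G →₀ ℝ) : ‖io c ψ‖ ≤ cst (fun _ => 1) ψ := by
  rw [v_io_eq c ψ ψ.support subset_rfl, v_cst_eq _ ψ ψ.support subset_rfl]
  refine (norm_sum_le _ _).trans (le_of_eq ?_)
  refine Finset.sum_congr rfl fun a _ => ?_
  rw [norm_smul, EuclideanSpace.norm_single, norm_one, mul_one, one_mul, Real.norm_eq_abs]

theorem v_one_le_cst {w : G → ℝ} (hw : ∀ a, 1 ≤ w a) {ψ : G →₀ ℝ} (h : tot ψ = 1) :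
    1 ≤ cst w ψ := by
  have h1 := v_abs_tot_le ψ
  rw [h, abs_one] at h1
  exact h1.trans (v_cst_mono ψ fun a _ => hw a)

/-- a weighted average: cost of a probability measure is at most the sup of the weight -/
theorem v_cst_prob {w : G → ℝ} {ψ : G →₀ ℝ} (h0 : ∀ a, 0 ≤ ψ a) (h : tot ψ = 1) {W : ℝ}
    (hw : ∀ a ∈ ψ.support, w a ≤ W) : cst w ψ ≤ W := by
  rw [v_cst_eq w ψ ψ.support subset_rfl]
  rw [v_tot_eq ψ ψ.support subset_rfl] at h
  calc ∑ a ∈ ψ.support, w a * |ψ a| ≤ ∑ a ∈ ψ.support, W * ψ a := by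
        refine Finset.sum_le_sum fun a ha => ?_
        rw [abs_of_nonneg (h0 a)]
        exact mul_le_mul_of_nonneg_right (hw a ha) (h0 a)
    _ = W := by rw [← Finset.mul_sum, h, mul_one]

end Pool.HQ
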