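import Pool.Agent.HQ.V03

/-!
MODULE V04 (MP_7936f4_al, part III): the cost function NN c E w X = inf over psi with tot psi = 1 of
cst w psi + E |X - io c psi|.  w >= 0, E >= 0.

The set of values is bounded below by 0 and nonempty (needs an element of G: take Nonempty G).  NN_le: ciInf_le.
NN_lip: for every psi, cst w psi + E|X' - io psi| <= cst w psi + E|X - io psi| + E|X - X'|.
NN_conv3: psi_i near-optimal (up to e) for X_i; psi = sum a_i psi_i has tot = 1, cost <= sum a_i cost_i (convexity of cst and of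
the norm); let e -> 0 (exists_lt_of_ciInf_lt).
NN_scale: w a <= t w' a, t >= 1: cost for w <= t * cost for w'.
-/

namespace Pool.HQ

variable {G : Type} [Nonempty G] {L : ℕ} {c : G → Fin L} {E : ℝ} {w : G → ℝ}

omit [Nonempty G] in
theorem V04_bdd (hE : 0 ≤ E) (hw : ∀ a, 0 ≤ w a) (X : EU L) :
    BddBelow (Set.range fun ψ : {ψ : G →₀ ℝ // tot ψ = 1} => cst w ψ.1 + E * ‖X - io c ψ.1‖) := by
  refine ⟨0, ?_⟩
  rintro _ ⟨ψ, rfl⟩
  have h1 := v_cst_nonneg hw ψ.1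
  have h2 : 0 ≤ E * ‖X - io c ψ.1‖ := mul_nonneg hE (norm_nonneg _)
  simp only
  linarith

instance V04_ne : Nonempty {ψ : G →₀ ℝ // tot ψ = 1} :=
  ⟨⟨Finsupp.single (Classical.arbitrary G) 1, v_tot_single _ _⟩⟩

theorem v_NN_le (hE : 0 ≤ E) (hw : ∀ a, 0 ≤ w a) (X : EU L) {ψ : G →₀ ℝ} (h : tot ψ = 1) :
    NN c E w X ≤ cst w ψ + E * ‖X - io c ψ‖ :=
  ciInf_le (V04_bdd hE hw X) (⟨ψ, h⟩ : {ψ : G →₀ ℝ // tot ψ = 1})

theorem v_le_NN {X : EU L} {t : ℝ} (h : ∀ ψ : G →₀ ℝ, tot ψ = 1 → t ≤ cst w ψ + E * ‖X - io c ψ‖) :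
    t ≤ NN c E w X :=
  le_ciInf fun ψ => h ψ.1 ψ.2

theorem v_NN_nonneg (hE : 0 ≤ E) (hw : ∀ a, 0 ≤ w a) (X : EU L) : 0 ≤ NN c E w X := by
  refine v_le_NN fun ψ _ => ?_
  have h1 := v_cst_nonneg hw ψ
  have h2 : 0 ≤ E * ‖X - io c ψ‖ := mul_nonneg hE (norm_nonneg _)
  linarith

theorem v_one_le_NN (hE : 0 ≤ E) (hw : ∀ a, 1 ≤ w a) (X : EU L) : 1 ≤ NN c E w X := by
  refine v_le_NN fun ψ h => ?_
  have h1 := v_one_le_cst hw h
  have h2 : 0 ≤ E * ‖X - io c ψ‖ := mul_nonneg hE (norm_nonneg _)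
  linarith

theorem V04_lip1 (hE : 0 ≤ E) (hw : ∀ a, 0 ≤ w a) (X Y : EU L) :
    NN c E w X ≤ NN c E w Y + E * ‖X - Y‖ := by
  rw [← sub_le_iff_le_add]
  refine v_le_NN fun ψ h => ?_
  have h1 := v_NN_le (c := c) hE hw X h
  have h2 : ‖X - io c ψ‖ ≤ ‖X - Y‖ + ‖Y - io c ψ‖ := by
    have := norm_add_le (X - Y) (Y - io c ψ)
    rwa [sub_add_sub_cancel] at this
  have h3 := mul_le_mul_of_nonneg_left h2 hE
  linarith

theorem v_NN_lip (hE : 0 ≤ E) (hw : ∀ a, 0 ≤ w a) (X Y : EU L) :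
    |NN c E w X - NN c E w Y| ≤ E * ‖X - Y‖ := by
  rw [abs_sub_le_iff]
  constructor
  · have := V04_lip1 (c := c) hE hw X Y
    linarith
  · have := V04_lip1 (c := c) hE hw Y X
    rw [norm_sub_rev] at this
    linarith

/-- near-optimal measures -/
theorem V04_near (E : ℝ) (w : G → ℝ) (c : G → Fin L) (X : EU L) {e : ℝ} (he : 0 < e) :
    ∃ ψ : G →₀ ℝ, tot ψ = 1 ∧ cst w ψ + E * ‖X - io c ψ‖ < NN c E w X + e := by
  have h : (⨅ ψ : {ψ : G →₀ ℝ // tot ψ = 1}, (cst w ψ.1 + E * ‖X - io c ψ.1‖)) < NN c E w X + e := by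
    change NN c E w X < NN c E w X + e
    linarith
  obtain ⟨ψ, hψ⟩ := exists_lt_of_ciInf_lt h
  exact ⟨ψ.1, ψ.2, hψ⟩

theorem v_NN_conv3 (hE : 0 ≤ E) (hw : ∀ a, 0 ≤ w a) (X Y Z : EU L) {α β γ : ℝ} (hα : 0 ≤ α)
    (hβ : 0 ≤ β) (hγ : 0 ≤ γ) (h1 : α + β + γ = 1) :
    NN c E w (α • X + β • Y + γ • Z) ≤ α * NN c E w X + β * NN c E w Y + γ * NN c E w Z := by
  refine le_of_forall_pos_le_add fun e he => ?_
  obtain ⟨ψ, hψ, hψ'⟩ := V04_near E w c X he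
  obtain ⟨φ, hφ, hφ'⟩ := V04_near E w c Y he
  obtain ⟨χ, hχ, hχ'⟩ := V04_near E w c Z he
  have ht : tot (α • ψ + β • φ + γ • χ) = 1 := by
    rw [v_tot_add, v_tot_add, v_tot_smul, v_tot_smul, v_tot_smul, hψ, hφ, hχ]
    linarith
  have hc : cst w (α • ψ + β • φ + γ • χ) ≤ α * cst w ψ + β * cst w φ + γ * cst w χ := by
    have h2 := v_cst_add_le hw (α • ψ + β • φ) (γ • χ)
    have h3 := v_cst_add_le hw (α • ψ) (β • φ)
    rw [v_cst_smul, v_cst_smul, abs_of_nonneg hα, abs_of_nonneg hβ] at h3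
    rw [v_cst_smul, abs_of_nonneg hγ] at h2
    linarith
  have hn : ‖(α • X + β • Y + γ • Z) - io c (α • ψ + β • φ + γ • χ)‖ ≤
      α * ‖X - io c ψ‖ + β * ‖Y - io c φ‖ + γ * ‖Z - io c χ‖ := by
    have h2 : (α • X + β • Y + γ • Z) - io c (α • ψ + β • φ + γ • χ) =
        α • (X - io c ψ) + β • (Y - io c φ) + γ • (Z - io c χ) := by
      rw [v_io_add, v_io_add, v_io_smul, v_io_smul, v_io_smul]
      simp only [smul_sub]
      abel
    rw [h2]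
    refine (norm_add_le _ _).trans (add_le_add ((norm_add_le _ _).trans (add_le_add ?_ ?_)) ?_)
    · rw [norm_smul, Real.norm_eq_abs, abs_of_nonneg hα]
    · rw [norm_smul, Real.norm_eq_abs, abs_of_nonneg hβ]
    · rw [norm_smul, Real.norm_eq_abs, abs_of_nonneg hγ]
  have h4 := v_NN_le (c := c) hE hw (α • X + β • Y + γ • Z) ht
  have h5 := mul_le_mul_of_nonneg_left hn hE
  have h6 := mul_le_mul_of_nonneg_left hψ'.le hα
  have h7 := mul_le_mul_of_nonneg_left hφ'.le hβ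
  have h8 := mul_le_mul_of_nonneg_left hχ'.le hγ
  have h9 : e = α * e + β * e + γ * e := by rw [← add_mul, ← add_mul, h1, one_mul]
  calc NN c E w (α • X + β • Y + γ • Z)
      ≤ _ := h4
    _ ≤ (α * cst w ψ + β * cst w φ + γ * cst w χ) +
        E * (α * ‖X - io c ψ‖ + β * ‖Y - io c φ‖ + γ * ‖Z - io c χ‖) := add_le_add hc h5
    _ = α * (cst w ψ + E * ‖X - io c ψ‖) + β * (cst w φ + E * ‖Y - io c φ‖) +
        γ * (cst w χ + E * ‖Z - io c χ‖) := by ring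
    _ ≤ α * (NN c E w X + e) + β * (NN c E w Y + e) + γ * (NN c E w Z + e) :=
        add_le_add (add_le_add h6 h7) h8
    _ = α * NN c E w X + β * NN c E w Y + γ * NN c E w Z + (α * e + β * e + γ * e) := by ring
    _ = _ := by rw [← h9]

theorem v_NN_scale (hE : 0 ≤ E) (hw : ∀ a, 0 ≤ w a) {w' : G → ℝ} {t : ℝ} (ht : 1 ≤ t)
    (hw' : ∀ a, 0 ≤ w' a) (h : ∀ a, w a ≤ t * w' a) (X : EU L) : NN c E w X ≤ t * NN c E w' X := by
  have ht0 : 0 < t := lt_of_lt_of_le one_pos ht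
  rw [mul_comm, ← div_le_iff₀ ht0]
  refine v_le_NN fun ψ hψ => ?_
  rw [div_le_iff₀ ht0]
  have h1 := v_NN_le (c := c) hE hw X hψ
  have h2 : cst w ψ ≤ t * cst w' ψ := by
    rw [← v_cst_mul]
    exact v_cst_mono ψ fun a _ => h a
  have h3 : E * ‖X - io c ψ‖ ≤ t * (E * ‖X - io c ψ‖) :=
    le_mul_of_one_le_left (mul_nonneg hE (norm_nonneg _)) ht
  have h4 := v_cst_nonneg hw' ψ
  calc NN c E w X ≤ _ := h1
    _ ≤ t * cst w' ψ + t * (E * ‖X - io c ψ‖) := add_le_add h2 h3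
    _ = _ := by ring

theorem v_NN_io (hE : 0 ≤ E) (hw : ∀ a, 0 ≤ w a) {ψ : G →₀ ℝ} (h : tot ψ = 1) :
    NN c E w (io c ψ) ≤ cst w ψ := by
  have h1 := v_NN_le (c := c) hE hw (io c ψ) h
  rw [sub_self, norm_zero, mul_zero, add_zero] at h1
  exact h1

end Pool.HQ
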