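import Pool.Agent.HQ.V04

/-!
MODULE V05 (MP_7936f4_al, part III): restriction of the support and existence of minimisers for NN.

* v_restrict: move the mass outside S to b: psi' = psi on S, plus (sum_(a not in S) psi a) at b.  tot is unchanged,
  cst w psi' <= cst w (psi on S) + sum_(a not in S) |psi a| w b, |io psi - io psi'| <= sum_(a not in S) |psi a| * 2
  (difference of two unit vectors), and w b + 2E <= w a outside S.
* v_exists_min: on the finite dimensional space of functions on S with sum 1 the cost is continuous and (w >= 1) bounded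
  sublevel sets |psi|_1 <= cost; so a minimiser among the measures supported in S exists, and by v_restrict it is a
  minimiser among all.
* v_exists_near: v_restrict + exists_lt_of_ciInf_lt.
-/

namespace Pool.HQ

variable {G : Type} [Nonempty G] {L : ℕ} {c : G → Fin L} {E : ℝ} {w : G → ℝ}

theorem v_restrict (hE : 0 ≤ E) (hw : ∀ a, 0 ≤ w a) (S : Finset G) {b : G} (hb : b ∈ S)
    (hS : ∀ a, a ∉ S → w b + 2 * E ≤ w a) (X : EU L) {ψ : G →₀ ℝ} (h : tot ψ = 1) :
    ∃ φ : G →₀ ℝ, tot φ = 1 ∧ φ.support ⊆ S ∧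
      cst w φ + E * ‖X - io c φ‖ ≤ cst w ψ + E * ‖X - io c ψ‖ := by
  classical
  obtain ⟨T, hT⟩ : ∃ T : Finset G, T = ψ.support ∪ S := ⟨_, rfl⟩
  have hsT : ψ.support ⊆ T := by rw [hT]; exact Finset.subset_union_left
  have hST : S ⊆ T := by rw [hT]; exact Finset.subset_union_right
  obtain ⟨m, hm⟩ : ∃ m : ℝ, m = ∑ a ∈ T \ S, ψ a := ⟨_, rfl⟩
  obtain ⟨μ, hμ⟩ : ∃ μ : ℝ, μ = ∑ a ∈ T \ S, |ψ a| := ⟨_, rfl⟩
  have hmμ : |m| ≤ μ := by rw [hm, hμ]; exact Finset.abs_sum_le_sum_abs _ _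
  refine ⟨(∑ a ∈ S, Finsupp.single a (ψ a)) + Finsupp.single b m, ?_, ?_, ?_⟩
  · rw [v_tot_add, v_tot_sum, v_tot_single]
    simp only [v_tot_single]
    rw [v_tot_eq ψ T hsT, ← Finset.sum_sdiff hST] at h
    rw [hm]
    linarith
  · intro a ha
    by_contra hc
    rw [Finsupp.mem_support_iff] at ha
    apply ha
    rw [Finsupp.add_apply, Finsupp.finsetSum_apply]
    have h1 : ∑ x ∈ S, (Finsupp.single x (ψ x)) a = 0 := by
      refine Finset.sum_eq_zero fun x hx => ?_
      rw [Finsupp.single_apply, if_neg]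
      rintro rfl
      exact hc hx
    rw [h1, Finsupp.single_apply, if_neg, add_zero]
    rintro rfl
    exact hc hb
  · have hc1 : cst w ((∑ a ∈ S, Finsupp.single a (ψ a)) + Finsupp.single b m) ≤
        (∑ a ∈ S, w a * |ψ a|) + w b * μ := by
      refine (v_cst_add_le hw _ _).trans (add_le_add ?_ ?_)
      · refine (v_cst_sum_le hw _ _).trans (le_of_eq ?_)
        refine Finset.sum_congr rfl fun a _ => ?_
        rw [v_cst_single]
      · rw [v_cst_single]
        exact mul_le_mul_of_nonneg_left hmμ (hw b)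
    have hc2 : cst w ψ = (∑ a ∈ T \ S, w a * |ψ a|) + ∑ a ∈ S, w a * |ψ a| := by
      rw [v_cst_eq w ψ T hsT, Finset.sum_sdiff hST]
    have hc3 : (w b + 2 * E) * μ ≤ ∑ a ∈ T \ S, w a * |ψ a| := by
      rw [hμ, Finset.mul_sum]
      refine Finset.sum_le_sum fun a ha => ?_
      rw [Finset.mem_sdiff] at ha
      exact mul_le_mul_of_nonneg_right (hS a ha.2) (abs_nonneg _)
    have hio : io c ψ - io c ((∑ a ∈ S, Finsupp.single a (ψ a)) + Finsupp.single b m) =
        ∑ a ∈ T \ S, ψ a • ((EuclideanSpace.single (c a) (1 : ℝ) : EU L) -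
          EuclideanSpace.single (c b) (1 : ℝ)) := by
      rw [v_io_add, v_io_sum, v_io_single, v_io_eq c ψ T hsT, ← Finset.sum_sdiff hST]
      simp only [v_io_single, smul_sub]
      rw [Finset.sum_sub_distrib, ← Finset.sum_smul, ← hm]
      abel
    have hn1 : ∀ i j : Fin L, ‖(EuclideanSpace.single i (1 : ℝ) : EU L) -
        EuclideanSpace.single j (1 : ℝ)‖ ≤ 2 := by
      intro i j
      refine (norm_sub_le _ _).trans ?_
      rw [EuclideanSpace.norm_single, EuclideanSpace.norm_single]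
      norm_num
    have hn2 : ‖io c ψ - io c ((∑ a ∈ S, Finsupp.single a (ψ a)) + Finsupp.single b m)‖ ≤
        2 * μ := by
      rw [hio, hμ, Finset.mul_sum]
      refine (norm_sum_le _ _).trans (Finset.sum_le_sum fun a _ => ?_)
      rw [norm_smul, Real.norm_eq_abs, mul_comm]
      exact mul_le_mul_of_nonneg_right (hn1 _ _) (abs_nonneg _)
    have hn3 : ‖X - io c ((∑ a ∈ S, Finsupp.single a (ψ a)) + Finsupp.single b m)‖ ≤
        ‖X - io c ψ‖ + 2 * μ := by
      have e1 : X - io c ((∑ a ∈ S, Finsupp.single a (ψ a)) + Finsupp.single b m) =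
          (X - io c ψ) +
            (io c ψ - io c ((∑ a ∈ S, Finsupp.single a (ψ a)) + Finsupp.single b m)) := by abel
      rw [e1]
      exact (norm_add_le _ _).trans (by linarith)
    have hn4 := mul_le_mul_of_nonneg_left hn3 hE
    nlinarith

/-- extension by zero -/
noncomputable def v05_ext (S : Finset G) (g : S → ℝ) : G →₀ ℝ := by
  classical
  exact Finsupp.onFinset S (fun a => if h : a ∈ S then g ⟨a, h⟩ else 0) (by
    intro a ha
    by_contra hc
    exact ha (dif_neg hc))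

omit [Nonempty G] in
theorem v05_ext_apply (S : Finset G) (g : S → ℝ) (a : S) : v05_ext S g a = g a := by
  classical
  unfold v05_ext
  simp

omit [Nonempty G] in
theorem v05_ext_support (S : Finset G) (g : S → ℝ) : (v05_ext S g).support ⊆ S := by
  classical
  intro a ha
  by_contra hc
  rw [Finsupp.mem_support_iff] at ha
  apply ha
  unfold v05_ext
  simp [hc]

omit [Nonempty G] in
theorem v05_cost (S : Finset G) (X : EU L) (ψ : G →₀ ℝ) (hψ : ψ.support ⊆ S) :
    cst w ψ + E * ‖X - io c ψ‖ = (∑ a : S, w a * |ψ a|) +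
      E * ‖X - ∑ a : S, ψ a • (EuclideanSpace.single (c a) (1 : ℝ) : EU L)‖ := by
  rw [v_cst_eq w ψ S hψ, v_io_eq c ψ S hψ]
  rw [← Finset.sum_coe_sort S (fun a => w a * |ψ a|),
    ← Finset.sum_coe_sort S (fun a => ψ a • (EuclideanSpace.single (c a) (1 : ℝ) : EU L))]

theorem v_exists_min (hE : 0 ≤ E) (hw : ∀ a, 1 ≤ w a) (S : Finset G) {b : G} (hb : b ∈ S)
    (hS : ∀ a, a ∉ S → w b + 2 * E ≤ w a) (X : EU L) :
    ∃ ψ : G →₀ ℝ, tot ψ = 1 ∧ ψ.support ⊆ S ∧ cst w ψ + E * ‖X - io c ψ‖ = NN c E w X := by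
  classical
  have hw0 : ∀ a, 0 ≤ w a := fun a => zero_le_one.trans (hw a)
  obtain ⟨F, hF⟩ : ∃ F : (S → ℝ) → ℝ, F = fun g => (∑ a : S, w a * |g a|) +
      E * ‖X - ∑ a : S, g a • (EuclideanSpace.single (c a) (1 : ℝ) : EU L)‖ := ⟨_, rfl⟩
  have hFc : Continuous F := by
    rw [hF]
    fun_prop
  obtain ⟨g0, hg0⟩ : ∃ g0 : S → ℝ, g0 = fun a => if a = ⟨b, hb⟩ then 1 else 0 := ⟨_, rfl⟩
  have hg0s : ∑ a, g0 a = 1 := by
    rw [hg0]
    simp
  obtain ⟨K, hK⟩ : ∃ K : Set (S → ℝ), K = {g | ∑ a, g a = 1 ∧ F g ≤ F g0} := ⟨_, rfl⟩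
  have hKc : IsCompact K := by
    refine Metric.isCompact_of_isClosed_isBounded ?_ ?_
    · rw [hK]
      exact (isClosed_eq (by fun_prop) continuous_const).inter (isClosed_le hFc continuous_const)
    · refine (Metric.isBounded_closedBall (x := (0 : S → ℝ)) (r := F g0)).subset ?_
      intro g hg
      rw [hK] at hg
      rw [mem_closedBall_zero_iff]
      have h1 : ∀ a : S, ‖g a‖ ≤ F g := by
        intro a
        rw [hF]
        simp only
        have h2 : w a * |g a| ≤ ∑ a : S, w a * |g a| :=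
          Finset.single_le_sum (f := fun a : S => w a * |g a|)
            (fun i _ => mul_nonneg (hw0 i) (abs_nonneg _)) (Finset.mem_univ a)
        have h3 : |g a| ≤ w a * |g a| := by
          have := mul_le_mul_of_nonneg_right (hw a) (abs_nonneg (g a))
          linarith
        have h4 := mul_nonneg hE (norm_nonneg
          (X - ∑ a : S, g a • (EuclideanSpace.single (c a) (1 : ℝ) : EU L)))
        rw [Real.norm_eq_abs]
        linarith
      have h0 : 0 ≤ F g0 := by
        rw [hF]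
        simp only
        refine add_nonneg (Finset.sum_nonneg fun i _ => mul_nonneg (hw0 i) (abs_nonneg _))
          (mul_nonneg hE (norm_nonneg _))
      exact (pi_norm_le_iff_of_nonneg h0).2 fun a => (h1 a).trans hg.2
  have hKn : K.Nonempty := ⟨g0, by rw [hK]; exact ⟨hg0s, le_rfl⟩⟩
  obtain ⟨g, hgK, hgmin⟩ := hKc.exists_isMinOn hKn hFc.continuousOn
  have hgK' := hgK
  rw [hK] at hgK'
  have hcost : ∀ g : S → ℝ, cst w (v05_ext S g) + E * ‖X - io c (v05_ext S g)‖ = F g := by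
    intro g
    rw [v05_cost S X _ (v05_ext_support S g), hF]
    simp only [v05_ext_apply]
  have htot : ∀ g : S → ℝ, tot (v05_ext S g) = ∑ a, g a := by
    intro g
    rw [v_tot_eq _ S (v05_ext_support S g),
      ← Finset.sum_coe_sort S (fun a => (v05_ext S g) a)]
    simp only [v05_ext_apply]
  have ht1 : tot (v05_ext S g) = 1 := by rw [htot]; exact hgK'.1
  refine ⟨v05_ext S g, ht1, v05_ext_support S g, le_antisymm ?_ ?_⟩
  · refine v_le_NN fun ψ hψ => ?_
    obtain ⟨φ, h1, h2, h3⟩ := v_restrict (c := c) hE hw0 S hb hS X hψ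
    refine le_trans ?_ h3
    rw [hcost, v05_cost S X φ h2]
    have h4 : (∑ a : S, w a * |φ a|) +
        E * ‖X - ∑ a : S, φ a • (EuclideanSpace.single (c a) (1 : ℝ) : EU L)‖ =
        F (fun a => φ a) := by rw [hF]
    rw [h4]
    by_cases h5 : F (fun a : S => φ a) ≤ F g0
    · refine hgmin ?_
      rw [hK]
      refine ⟨?_, h5⟩
      rw [v_tot_eq φ S h2, ← Finset.sum_coe_sort S (fun a => φ a)] at h1
      exact h1
    · exact hgK'.2.trans (not_le.1 h5).le
  · exact v_NN_le hE hw0 X ht1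

theorem v_exists_near (hE : 0 ≤ E) (hw : ∀ a, 0 ≤ w a) (S : Finset G) {b : G} (hb : b ∈ S)
    (hS : ∀ a, a ∉ S → w b + 2 * E ≤ w a) (X : EU L) {e : ℝ} (he : 0 < e) :
    ∃ ψ : G →₀ ℝ, tot ψ = 1 ∧ ψ.support ⊆ S ∧ cst w ψ + E * ‖X - io c ψ‖ ≤ NN c E w X + e := by
  have h1 : NN c E w X < NN c E w X + e := by linarith
  have hne : Nonempty {ψ : G →₀ ℝ // tot ψ = 1} :=
    ⟨⟨Finsupp.single b 1, v_tot_single b 1⟩⟩
  obtain ⟨ψ, hψ⟩ := exists_lt_of_ciInf_lt h1
  obtain ⟨φ, h2, h3, h4⟩ := v_restrict (c := c) hE hw S hb hS X ψ.2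
  exact ⟨φ, h2, h3, h4.trans hψ.le⟩

end Pool.HQ
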