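import Pool.Agent.HQ.V03

/-!
MODULE V06 (MP_7936f4_al, part III): l^2 facts for a colouring c which is injective on a finite set S.

If supp psi is contained in S and c is injective on S then the coordinate of io c psi at c a (a in S) is psi a, the other
coordinates vanish.  So sum_(a in B) (X(c a) - psi a)^2 <= |X - io psi|^2 for B in S (distinct coordinates), and
Cauchy-Schwarz.  Only injectivity on S is used; a in S need not be in the support.
-/

namespace Pool.HQ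

variable {G : Type} {L : ℕ} {c : G → Fin L}

theorem v_io_apply {S : Finset G} (hc : ∀ a ∈ S, ∀ a' ∈ S, c a = c a' → a = a') {ψ : G →₀ ℝ}
    (h : ψ.support ⊆ S) {a : G} (ha : a ∈ S) : io c ψ (c a) = ψ a := by
  classical
  rw [v_io_eq c ψ S h]
  have h0 : (∑ b ∈ S, ψ b • EuclideanSpace.single (c b) (1 : ℝ)) (c a) =
      ∑ b ∈ S, if c a = c b then ψ b else 0 := by
    rw [WithLp.ofLp_sum, Finset.sum_apply]
    refine Finset.sum_congr rfl fun b _ => ?_
    by_cases hab : c a = c b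
    · simp [hab]
    · simp [hab]
  rw [h0, Finset.sum_eq_single a]
  · simp
  · intro b hb hne
    exact if_neg (fun h' => hne (hc a ha b hb h').symm)
  · intro h'
    exact absurd ha h'

theorem v_coord {S : Finset G} (hc : ∀ a ∈ S, ∀ a' ∈ S, c a = c a' → a = a') {ψ : G →₀ ℝ}
    (h : ψ.support ⊆ S) {a : G} (ha : a ∈ S) (X : EU L) : |X (c a) - ψ a| ≤ ‖X - io c ψ‖ := by
  have h1 : X (c a) - ψ a = (X - io c ψ) (c a) := by
    rw [PiLp.sub_apply, v_io_apply hc h ha]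
  rw [h1, ← Real.norm_eq_abs]
  exact PiLp.norm_apply_le _ _

theorem v_coord_sum {S : Finset G} (hc : ∀ a ∈ S, ∀ a' ∈ S, c a = c a' → a = a') {ψ : G →₀ ℝ}
    (h : ψ.support ⊆ S) {B : Finset G} (hB : B ⊆ S) (X : EU L) :
    ∑ a ∈ B, |X (c a) - ψ a| ≤ Real.sqrt B.card * ‖X - io c ψ‖ := by
  classical
  have h1 : ∑ a ∈ B, |X (c a) - ψ a| ^ 2 ≤ ‖X - io c ψ‖ ^ 2 := by
    rw [EuclideanSpace.norm_sq_eq]
    have h2 : ∑ a ∈ B, |X (c a) - ψ a| ^ 2 = ∑ i ∈ B.image c, ‖(X - io c ψ) i‖ ^ 2 := by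
      rw [Finset.sum_image (fun a ha b hb hab => hc a (hB ha) b (hB hb) hab)]
      refine Finset.sum_congr rfl fun a ha => ?_
      rw [PiLp.sub_apply, v_io_apply hc h (hB ha), Real.norm_eq_abs]
    rw [h2]
    exact Finset.sum_le_sum_of_subset_of_nonneg (Finset.subset_univ _) fun i _ _ => by positivity
  have h3 : (∑ a ∈ B, |X (c a) - ψ a|) ^ 2 ≤ B.card * ∑ a ∈ B, |X (c a) - ψ a| ^ 2 :=
    sq_sum_le_card_mul_sum_sq
  have h4 : 0 ≤ ‖X - io c ψ‖ := norm_nonneg _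
  have h5 : 0 ≤ Real.sqrt B.card * ‖X - io c ψ‖ := by positivity
  refine le_of_sq_le_sq ?_ h5
  rw [mul_pow, Real.sq_sqrt (by positivity)]
  refine h3.trans ?_
  exact mul_le_mul_of_nonneg_left h1 (by positivity)

theorem v_diff_sum {S : Finset G} (hc : ∀ a ∈ S, ∀ a' ∈ S, c a = c a' → a = a') {ψ φ : G →₀ ℝ}
    (h : ψ.support ⊆ S) (h' : φ.support ⊆ S) {B : Finset G} (hB : B ⊆ S) (X : EU L) :
    ∑ a ∈ B, |ψ a - φ a| ≤ Real.sqrt B.card * (‖X - io c ψ‖ + ‖X - io c φ‖) := by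
  have h1 := v_coord_sum hc h hB X
  have h2 := v_coord_sum hc h' hB X
  have h3 : ∑ a ∈ B, |ψ a - φ a| ≤ ∑ a ∈ B, (|X (c a) - ψ a| + |X (c a) - φ a|) := by
    refine Finset.sum_le_sum fun a _ => ?_
    have : ψ a - φ a = -(X (c a) - ψ a) + (X (c a) - φ a) := by ring
    rw [this]
    refine (abs_add_le _ _).trans ?_
    rw [abs_neg]
  rw [Finset.sum_add_distrib] at h3
  rw [mul_add]
  linarith

end Pool.HQ
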