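import Pool.Agent.HQ.V01

/-!
MODULE V07 (MP_7936f4_al, part III): elementary consequences of the constraints VD.OK.

bt n = exp(lam/2 n), lam > 0; wb b a = bt (d a b) (wG); d symmetric, left invariant, triangle inequality.
nb: {a | d b a <= r} is the translate by b of {a | d 1 a <= r} (HypM.inv), finite (HypM.fin).
v_num: list of numerical facts.  All from the fields of OK:
 mu r = (1/(4 N))^3 with N >= 1, so 0 < mu r <= 1; Kh A r = sqrt(1 + nonneg) >= 1 for A >= 0; T0 >= 2*1*1*3; C >= 16*T0 >= 96;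
 C1 >= 4 C0 >= 4, A0 = 2 C1 >= 8; T5 >= 2(A0+1), C5 >= 8 T5 >= 16; W5 >= 5; W6 >= 6 K bt r0 Khm W5 >= W5; W7 = W6 + 2 A0 >= W6;
 W8 >= 2K bt r2 W7 >= W7; L1 = 2 K W7 >= 2 W7; A1 = L1^2 A0 >= A0 ; eta <= 1/4 (bt r0 >= 1); bt r0 >= 4, kap = 1/(2 bt r0^2) <= 1/32;
 eta1 = eta/(4 L1) <= kap/96 : eta <= 1/(4 bt r0), L1 >= 2 W6 >= 12 K bt r0; sig >= 1 (Lf >= 1000);
 eps: from heps; Wc >= A1 L1 (hWc with eps <= 1, bt r2 >= 1) >= W7.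
-/

namespace Pool.HQ

variable {G : Type} [Group G] {M L : ℕ} {Q : VD G M L}

theorem v_bt_pos (Q : VD G M L) (n : ℕ) : 0 < Q.bt n := by
  exact Real.exp_pos _

theorem v_bt_add (Q : VD G M L) (m n : ℕ) : Q.bt (m + n) = Q.bt m * Q.bt n := by
  unfold VD.bt
  rw [← Real.exp_add]
  congr 1
  push_cast
  ring

theorem v_one_le_bt (h : Q.OK) (n : ℕ) : 1 ≤ Q.bt n := by
  unfold VD.bt
  have := h.lam_pos
  apply Real.one_le_exp
  positivity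

theorem v_bt_le_iff (h : Q.OK) {m n : ℕ} : Q.bt m ≤ Q.bt n ↔ m ≤ n := by
  unfold VD.bt
  have := h.lam_pos
  rw [Real.exp_le_exp, mul_le_mul_iff_right₀ (by positivity), Nat.cast_le]

theorem v_wb_eq (Q : VD G M L) (b a : G) : Q.wb b a = Q.bt (Q.d a b) := by
  rfl

theorem v_wb_self (h : Q.OK) (b : G) : Q.wb b b = 1 := by
  rw [v_wb_eq, h.hd.self]
  simp [VD.bt]

theorem v_wb_symm (h : Q.OK) (a b : G) : Q.wb a b = Q.wb b a := by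
  rw [v_wb_eq, v_wb_eq, h.hd.symm]

theorem v_one_le_wb (h : Q.OK) (b a : G) : 1 ≤ Q.wb b a := by
  rw [v_wb_eq]
  exact v_one_le_bt h _

theorem v_wb_tri (h : Q.OK) (b b' a : G) : Q.wb b a ≤ Q.wb b b' * Q.wb b' a := by
  rw [v_wb_eq, v_wb_eq, v_wb_eq, ← v_bt_add, v_bt_le_iff h]
  have := h.hd.tri a b' b
  omega

/-- the ball of radius r about b as a finset -/
noncomputable def VD.bl (Q : VD G M L) (b : G) (r : ℕ) : Finset G :=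
  by classical exact if h : {a | Q.d a b ≤ r}.Finite then h.toFinset else ∅

theorem v_ball_fin (h : Q.OK) (b : G) (r : ℕ) : {a | Q.d a b ≤ r}.Finite := by
  have h1 : {a | Q.d a b ≤ r} = (fun a => b * a) '' {a | Q.d 1 a ≤ r} := by
    ext a
    rw [Set.mem_image, Set.mem_setOf_eq]
    constructor
    · intro ha
      refine ⟨b⁻¹ * a, ?_, by group⟩
      rw [Set.mem_setOf_eq]
      have h1 := h.hd.inv b 1 (b⁻¹ * a)
      rw [mul_one, mul_inv_cancel_left] at h1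
      rw [← h1, h.hd.symm]
      exact ha
    · rintro ⟨x, hx, rfl⟩
      rw [Set.mem_setOf_eq] at hx
      have h2 := h.hd.inv b x 1
      rw [mul_one] at h2
      show Q.d (b * x) b ≤ r
      rw [h2, h.hd.symm]
      exact hx
  rw [h1]
  exact (h.hd.fin r).image _

theorem v_mem_bl (h : Q.OK) {a b : G} {r : ℕ} : a ∈ Q.bl b r ↔ Q.d a b ≤ r := by
  unfold VD.bl
  rw [dif_pos (v_ball_fin h b r), Set.Finite.mem_toFinset, Set.mem_setOf_eq]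

theorem v_card_bl (h : Q.OK) (b : G) (r : ℕ) : ((Q.bl b r).card : ℝ) = Q.nb 1 r := by
  classical
  have h1 : Q.bl b r = (h.hd.fin r).toFinset.image (fun a => b * a) := by
    ext a
    rw [v_mem_bl h, Finset.mem_image]
    constructor
    · intro ha
      refine ⟨b⁻¹ * a, ?_, by group⟩
      rw [Set.Finite.mem_toFinset, Set.mem_setOf_eq]
      have h1 := h.hd.inv b 1 (b⁻¹ * a)
      rw [mul_one, mul_inv_cancel_left] at h1
      rw [← h1, h.hd.symm]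
      exact ha
    · rintro ⟨x, hx, rfl⟩
      rw [Set.Finite.mem_toFinset, Set.mem_setOf_eq] at hx
      have h2 := h.hd.inv b x 1
      rw [mul_one] at h2
      rw [h2, h.hd.symm]
      exact hx
  rw [h1, Finset.card_image_of_injective _ (fun x y hxy => mul_left_cancel hxy)]
  unfold VD.nb
  rw [Set.ncard_eq_toFinset_card _ (h.hd.fin r)]

theorem v_nb_mono (h : Q.OK) {r r' : ℕ} (hr : r ≤ r') : Q.nb 1 r ≤ Q.nb 1 r' := by
  unfold VD.nb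
  have h1 : ({a | Q.d 1 a ≤ r} : Set G).ncard ≤ ({a | Q.d 1 a ≤ r'} : Set G).ncard := by
    apply Set.ncard_le_ncard _ (h.hd.fin r')
    intro a ha
    rw [Set.mem_setOf_eq] at ha ⊢
    exact ha.trans hr
  exact_mod_cast h1

theorem v_one_le_nb (h : Q.OK) (r : ℕ) : 1 ≤ Q.nb 1 r := by
  unfold VD.nb
  have h1 : 0 < ({a | Q.d 1 a ≤ r} : Set G).ncard := by
    rw [Set.ncard_pos (h.hd.fin r)]
    refine ⟨1, ?_⟩
    rw [Set.mem_setOf_eq, h.hd.self]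
    exact Nat.zero_le _
  exact_mod_cast h1

theorem v_mu_pos (h : Q.OK) (r : ℕ) : 0 < Q.mu r ∧ Q.mu r ≤ 1 := by
  have h1 := v_one_le_nb h r
  unfold VD.mu
  have h2 : 0 < 1 / (4 * Q.nb 1 r) := by positivity
  have h3 : 1 / (4 * Q.nb 1 r) ≤ 1 := by
    rw [div_le_one (by positivity)]
    linarith
  exact ⟨by positivity, pow_le_one₀ h2.le h3⟩

theorem v_one_le_Kh (h : Q.OK) {A : ℝ} (hA : 0 ≤ A) (r : ℕ) : 1 ≤ Q.Kh A r := by
  obtain ⟨h1, h2⟩ := v_mu_pos h r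
  unfold VD.Kh
  rw [Real.one_le_sqrt]
  have h3 : 0 ≤ (2 * Q.K ^ 2 * A ^ 3 / Q.mu r) ^ 2 * (A ^ 3 / Q.mu r) * (4 * Q.K ^ 2 * Q.bt r ^ 2) := by
    positivity
  linarith

/-- numerical facts -/
structure VNum (Q : VD G M L) : Prop where
  C_ge : 96 ≤ Q.C
  C1_ge : 4 ≤ Q.C1
  A0_eq : Q.A0 = 2 * Q.C1
  C0_A0 : 8 * Q.C0 ≤ Q.A0
  Khm_ge : 1 ≤ Q.Khm
  T0_ge : 6 ≤ Q.T0
  T5_ge : 2 * Q.A0 ≤ Q.T5
  C5_ge : 16 ≤ Q.C5
  W56 : Q.W5 ≤ Q.W6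
  A056 : Q.A0 ≤ Q.W5
  W67 : Q.W6 ≤ Q.W7
  W7_eq : Q.W7 = Q.W6 + 2 * Q.A0
  W78 : Q.W7 ≤ Q.W8
  L1_ge : 2 * Q.W7 ≤ Q.L1
  A1_ge : Q.L1 * Q.A0 ≤ Q.A1
  bt0 : 4 ≤ Q.bt Q.r0
  eta_le : Q.eta ≤ 1 / 16
  kap_pos : 0 < Q.kap
  kap_le : Q.kap ≤ 1 / 32
  K3_ge : 2 ≤ Q.K3
  eta1_pos : 0 < Q.eta1
  eta1_kap : 96 * Q.eta1 ≤ Q.kap
  eta1_eq : 4 * Q.L1 * Q.eta1 = Q.eta
  sig_ge : 1 ≤ Q.sig
  eps_kap : 1000 * Q.eps ≤ Q.kap
  eps_one : Q.eps ≤ 1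
  eps_sig : 1000 * (1 + Q.sig) * Q.L1 * Q.eps ≤ Q.eta1
  eps_W : 1000 * (1 + Q.sig) * Q.L1 * Q.W7 ^ 2 * Q.eps ≤ 1
  Wc_ge : Q.A1 ≤ Q.Wc
  Wc_W7 : Q.W7 ≤ Q.Wc
  tau_le : Q.tau ≤ 1 / 16
  A1E : Q.A1 / Q.E ≤ Q.tau / 4

theorem v_num (h : Q.OK) : VNum Q := by
  have K1 := h.K1
  have C0a := h.C0a
  have C1b := h.C1b
  have hA0 : Q.A0 = 2 * Q.C1 := rfl
  have hA08 : 8 * Q.C0 ≤ Q.A0 := by rw [hA0]; linarith
  have hA0pos : 8 ≤ Q.A0 := by linarith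
  have hKhm : 1 ≤ Q.Khm := v_one_le_Kh h (by linarith) _
  have hKh : 1 ≤ Q.Kh (2 * Q.C0) Q.rC := v_one_le_Kh h (by linarith) _
  have hT0 : 6 ≤ Q.T0 := by
    unfold VD.T0
    have h1 : 1 ≤ Q.K * Q.Kh (2 * Q.C0) Q.rC := one_le_mul_of_one_le_of_one_le K1 hKh
    nlinarith
  have hC : 96 ≤ Q.C := by have := h.hC; linarith
  have hT5 : 2 * Q.A0 ≤ Q.T5 := by
    unfold VD.T5
    have h1 : 1 ≤ Q.K * Q.Khm := one_le_mul_of_one_le_of_one_le K1 hKhm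
    nlinarith
  have hC5 : 16 ≤ Q.C5 := by have := h.hC5; linarith
  have W5a := h.W5a
  have hbr0 := v_one_le_bt h Q.r0
  have hbt0 : 4 ≤ Q.bt Q.r0 := by
    have h1 := h.hr0
    have h2 := v_one_le_bt h (2 * Q.δ)
    linarith
  have hKb : 1 ≤ Q.K * Q.bt Q.r0 * Q.Khm :=
    one_le_mul_of_one_le_of_one_le (one_le_mul_of_one_le_of_one_le K1 hbr0) hKhm
  have hW6' : 6 * Q.bt Q.r0 * Q.W5 ≤ Q.W6 := by
    have h1 := h.hW6
    have h2 : 1 ≤ Q.K * Q.Khm := one_le_mul_of_one_le_of_one_le K1 hKhm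
    have h3 : 6 * Q.bt Q.r0 * Q.W5 ≤ (6 * Q.bt Q.r0 * Q.W5) * (Q.K * Q.Khm) :=
      le_mul_of_one_le_right (by positivity) h2
    calc 6 * Q.bt Q.r0 * Q.W5 ≤ (6 * Q.bt Q.r0 * Q.W5) * (Q.K * Q.Khm) := h3
      _ = 6 * Q.K * Q.bt Q.r0 * Q.Khm * Q.W5 := by ring
      _ ≤ Q.W6 := h1
  have hW56 : Q.W5 ≤ Q.W6 := by nlinarith
  have hbrm := v_one_le_bt h Q.rm
  have hnbm := v_one_le_nb h Q.rm
  have hA056 : Q.A0 ≤ Q.W5 := by
    have h1 := h.W5c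
    have h2 := h.hrm
    have h3 : 1 ≤ Q.nb 1 Q.rm * Q.K * Q.Khm :=
      one_le_mul_of_one_le_of_one_le (one_le_mul_of_one_le_of_one_le hnbm K1) hKhm
    have h4 : Q.bt Q.rm ≤ 64 * Q.C5 * Q.nb 1 Q.rm * Q.K * Q.bt Q.rm * Q.Khm := by
      have h5 : 1 ≤ 64 * Q.C5 * (Q.nb 1 Q.rm * Q.K * Q.Khm) := by nlinarith
      calc Q.bt Q.rm ≤ Q.bt Q.rm * (64 * Q.C5 * (Q.nb 1 Q.rm * Q.K * Q.Khm)) :=
            le_mul_of_one_le_right (by positivity) h5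
        _ = _ := by ring
    linarith
  have hW7 : Q.W7 = Q.W6 + 2 * Q.A0 := rfl
  have hW67 : Q.W6 ≤ Q.W7 := by rw [hW7]; linarith
  have hW7pos : 5 ≤ Q.W7 := by linarith
  have hbr2 := v_one_le_bt h Q.r2
  have hW78 : Q.W7 ≤ Q.W8 := by
    have h1 := h.hW8
    have h2 : 1 ≤ Q.K * Q.bt Q.r2 := one_le_mul_of_one_le_of_one_le K1 hbr2
    nlinarith
  have hL1 : Q.L1 = 2 * Q.K * Q.W7 := rfl
  have hL1ge : 2 * Q.W7 ≤ Q.L1 := by rw [hL1]; nlinarith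
  have hL1pos : 10 ≤ Q.L1 := by linarith
  have hA1 : Q.A1 = Q.L1 * (Q.L1 * Q.A0) := rfl
  have hLA : 0 ≤ Q.L1 * Q.A0 := by positivity
  have hA1ge : Q.L1 * Q.A0 ≤ Q.A1 := by rw [hA1]; nlinarith
  have heta := h.heta
  have eta_pos := h.eta_pos
  have heta16 : Q.eta ≤ 1 / 16 := by nlinarith
  have hkap : Q.kap = 1 / (2 * Q.bt Q.r0 ^ 2) := rfl
  have hkap_pos : 0 < Q.kap := by rw [hkap]; positivity
  have hkap_le : Q.kap ≤ 1 / 32 := by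
    rw [hkap]
    apply one_div_le_one_div_of_le (by norm_num)
    nlinarith
  have hK3 : 2 ≤ Q.K3 := by
    unfold VD.K3
    have h1 := v_one_le_bt h Q.s0
    have h2 : 1 ≤ Q.K ^ 2 := one_le_pow₀ K1
    nlinarith
  have heta1 : Q.eta1 = Q.eta / (4 * Q.L1) := rfl
  have heta1_pos : 0 < Q.eta1 := by rw [heta1]; positivity
  have heta1_eq : 4 * Q.L1 * Q.eta1 = Q.eta := by rw [heta1]; field_simp
  have heta1_kap : 96 * Q.eta1 ≤ Q.kap := by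
    have h1 : 60 * Q.bt Q.r0 ≤ Q.L1 := by nlinarith
    have h2 : Q.eta1 * (960 * Q.bt Q.r0 ^ 2) ≤ 1 := by
      have h3 : 4 * Q.bt Q.r0 * (4 * Q.L1 * Q.eta1) ≤ 1 := by rw [heta1_eq]; linarith
      have h4 : 0 ≤ Q.bt Q.r0 * Q.eta1 := by positivity
      nlinarith
    rw [hkap, le_div_iff₀ (by positivity)]
    nlinarith
  obtain ⟨hmu0, hmu1⟩ := v_mu_pos h Q.rm
  have hnb2 := v_one_le_nb h Q.r2
  have hLf : 1 ≤ Q.Lf := by
    unfold VD.Lf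
    have h1 : 1 ≤ (Q.A0 + 1) ^ 2 := one_le_pow₀ (by linarith)
    have h2 : 1 ≤ Q.nb 1 Q.r2 ^ 2 := one_le_pow₀ hnb2
    have h3 : 1 ≤ Q.K ^ 2 := one_le_pow₀ K1
    have h4 : 1 ≤ Q.bt Q.r2 ^ 2 := one_le_pow₀ hbr2
    have h5 : 1 ≤ Q.W7 ^ 2 := one_le_pow₀ (by linarith)
    have h6 : 1 ≤ 1000 * (Q.A0 + 1) ^ 2 * Q.nb 1 Q.r2 ^ 2 / Q.mu Q.rm := by
      rw [le_div_iff₀ hmu0]
      have : 1 ≤ (Q.A0 + 1) ^ 2 * Q.nb 1 Q.r2 ^ 2 := one_le_mul_of_one_le_of_one_le h1 h2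
      nlinarith
    exact one_le_mul_of_one_le_of_one_le (one_le_mul_of_one_le_of_one_le
      (one_le_mul_of_one_le_of_one_le h6 h3) h4) h5
  have hsig1 : 1 ≤ Q.sig := by
    have h1 := h.hsig
    have h2 : 1 ≤ Q.W5 ^ 4 := one_le_pow₀ (by linarith)
    have h3 : 1 ≤ Q.Lf * Q.W5 ^ 4 * (Q.A0 + 5) :=
      one_le_mul_of_one_le_of_one_le (one_le_mul_of_one_le_of_one_le hLf h2) (by linarith)
    have h4 : 100000 * Q.Lf * Q.W5 ^ 4 * (Q.A0 + 5) = 100000 * (Q.Lf * Q.W5 ^ 4 * (Q.A0 + 5)) := by ring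
    linarith
  have eps_pos := h.eps_pos
  have heps := h.heps
  have hL14 : Q.L1 ≤ Q.L1 ^ 4 := by
    calc Q.L1 = Q.L1 ^ 1 := (pow_one _).symm
      _ ≤ Q.L1 ^ 4 := pow_le_pow_right₀ (by linarith) (by norm_num)
  have hL13 : Q.L1 ^ 3 ≤ Q.L1 ^ 4 := pow_le_pow_right₀ (by linarith) (by norm_num)
  have hL1one : 1 ≤ Q.L1 ^ 4 := one_le_pow₀ (by linarith)
  have hse : 0 < (1 + Q.sig) * Q.eps := by positivity
  have heps2 : 1000000 * (((1 + Q.sig) * Q.eps) * Q.L1 ^ 4) ≤ Q.eta1 := by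
    calc 1000000 * (((1 + Q.sig) * Q.eps) * Q.L1 ^ 4) = 1000000 * (1 + Q.sig) * Q.L1 ^ 4 * Q.eps := by ring
      _ ≤ Q.eta1 := heps
  have hs1 : (1 + Q.sig) * Q.eps ≤ ((1 + Q.sig) * Q.eps) * Q.L1 ^ 4 := le_mul_of_one_le_right hse.le hL1one
  have hs2 : ((1 + Q.sig) * Q.eps) * Q.L1 ≤ ((1 + Q.sig) * Q.eps) * Q.L1 ^ 4 :=
    mul_le_mul_of_nonneg_left hL14 hse.le
  have hs3 : ((1 + Q.sig) * Q.eps) * Q.L1 ^ 3 ≤ ((1 + Q.sig) * Q.eps) * Q.L1 ^ 4 :=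
    mul_le_mul_of_nonneg_left hL13 hse.le
  have heps_le : Q.eps ≤ (1 + Q.sig) * Q.eps := le_mul_of_one_le_left eps_pos.le (by linarith)
  have heta1_one : Q.eta1 ≤ 1 := by linarith
  have heps_one : Q.eps ≤ 1 := by linarith
  have hW7L : Q.W7 ^ 2 ≤ Q.L1 ^ 2 := pow_le_pow_left₀ (by linarith) (by linarith) 2
  have hWc0 : Q.A1 ≤ Q.Wc := by
    have h1 := h.hWc
    have hA1pos : 0 < Q.A1 := by rw [hA1]; positivity
    have h2 : Q.A1 ≤ 2 * Q.bt Q.r2 * Q.A1 * Q.L1 := by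
      have h3 : 1 ≤ 2 * Q.bt Q.r2 * Q.L1 := by nlinarith
      calc Q.A1 ≤ Q.A1 * (2 * Q.bt Q.r2 * Q.L1) := le_mul_of_one_le_right hA1pos.le h3
        _ = _ := by ring
    have h4 : 0 < Q.eps * Q.Wc := by linarith
    have h5 : 0 < Q.Wc := by
      by_contra hne
      push Not at hne
      have : Q.eps * Q.Wc ≤ 0 := mul_nonpos_of_nonneg_of_nonpos eps_pos.le hne
      linarith
    have h6 : Q.eps * Q.Wc ≤ Q.Wc := mul_le_of_le_one_left h5.le heps_one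
    linarith
  have htau := h.htau
  have tau_pos := h.tau_pos
  have htau16 : Q.tau ≤ 1 / 16 := by nlinarith
  exact
  { C_ge := hC
    C1_ge := by linarith
    A0_eq := hA0
    C0_A0 := hA08
    Khm_ge := hKhm
    T0_ge := hT0
    T5_ge := hT5
    C5_ge := hC5
    W56 := hW56
    A056 := hA056
    W67 := hW67
    W7_eq := hW7
    W78 := hW78
    L1_ge := hL1ge
    A1_ge := hA1ge
    bt0 := hbt0
    eta_le := heta16
    kap_pos := hkap_pos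
    kap_le := hkap_le
    K3_ge := hK3
    eta1_pos := heta1_pos
    eta1_kap := heta1_kap
    eta1_eq := heta1_eq
    sig_ge := hsig1
    eps_kap := by linarith
    eps_one := heps_one
    eps_sig := by
      calc 1000 * (1 + Q.sig) * Q.L1 * Q.eps = 1000 * (((1 + Q.sig) * Q.eps) * Q.L1) := by ring
        _ ≤ Q.eta1 := by linarith
    eps_W := by
      calc 1000 * (1 + Q.sig) * Q.L1 * Q.W7 ^ 2 * Q.eps
          = 1000 * (((1 + Q.sig) * Q.eps) * Q.L1) * Q.W7 ^ 2 := by ring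
        _ ≤ 1000 * (((1 + Q.sig) * Q.eps) * Q.L1) * Q.L1 ^ 2 :=
            mul_le_mul_of_nonneg_left hW7L (by positivity)
        _ = 1000 * (((1 + Q.sig) * Q.eps) * Q.L1 ^ 3) := by ring
        _ ≤ 1 := by linarith
    Wc_ge := hWc0
    Wc_W7 := by
      have : Q.W7 ≤ Q.L1 * Q.A0 := by nlinarith
      linarith
    tau_le := htau16
    A1E := by
      have h1 := h.hE2
      have h2 := h.E1
      rw [div_le_iff₀ (by linarith)]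
      linarith }

end Pool.HQ
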