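import Pool.Agent.HQ.V07

/-!
MODULE V08 (MP_7936f4_al, part III): comparison of om(f a, z) with the word metric.

v_o_le: om(f a,z) <= 2 om(f a,f b) om(f b,z) (v_om_tri) and OK.up.  v_wb_le: OK.lo and v_om_tri, om_symm.
v_o_le7, v_wb_le7: insert o b z <= W7, L1 = 2 K W7 (W7 >= 1, K >= 1).
v_near_fin: o a z <= W gives wb 1 a <= 2 K W o 1 z, so d a 1 bounded (lam > 0: bt n unbounded), balls are finite.
v_d8: wb b a <= 2K (2 W8) W7 = 4 K W8 W7 <= bt r8 and v_bt_le_iff.  v_dc: same with rc.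
v_d7: o b' z <= W7 <= 2 W8; wb b b' <= 2K W7 W7 = L1 W7.
v_rips: four a b m b' : d a m + d b b' <= max (d a b + d m b') (d b m + d a b') + 2 delta; hence d a m + d b m <= d a b + 2 delta or
 d a m + d m b' <= d a b' + 2 delta.
v_exists_proj: the set {a | o a z <= o 1 z} is finite and nonempty.
v_proj: let n = d b a.  If n < s0: wb b a <= bt s0 <= K3 and o b z <= o a z.  If n >= s0: take m with d b m = s0, d m a = n - s0 (geo).
 Ptolemy (v_om_ptol) for z, f m, f b, f a: om z (f m) om (f b) (f a) <= om z (f b) om (f m) (f a) + om z (f a) om (f m) (f b); with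
 om z (f m) >= om z (f b): om z (f b) (om (f b) (f a) - om (f m) (f a)) <= om z (f a) om (f m) (f b) <= om z (f a) K bt s0;
 om (f b) (f a) >= bt n/K, om (f m) (f a) <= K bt (n - s0) = K bt n/bt s0 <= bt n/(2K) (hs0), so the difference is >= bt n/(2K),
 hence bt n om z (f b) <= 2 K^2 bt s0 om z (f a) = K3 om z (f a).
-/

namespace Pool.HQ

variable {G : Type} [Group G] {M L : ℕ} {Q : VD G M L}

theorem v_one_le_o (h : Q.OK) (a : G) {z : EU M} (hz : ‖z‖ < 1) : 1 ≤ Q.o a z :=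
  one_le_om (h.ball a) hz

theorem v08_W7_pos (h : Q.OK) : 8 ≤ Q.W7 := by
  have hn := v_num h
  have h1 := hn.C1_ge
  have h2 := hn.A0_eq
  have h3 := hn.A056
  have h4 := hn.W56
  have h5 := hn.W67
  linarith

theorem v08_K_pos (h : Q.OK) : 0 < Q.K := lt_of_lt_of_le one_pos h.K1

theorem v08_L1_pos (h : Q.OK) : 0 < Q.L1 := by
  have h1 := (v_num h).L1_ge
  have h2 := v08_W7_pos h
  linarith

theorem v_o_le (h : Q.OK) (a b : G) {z : EU M} (hz : ‖z‖ < 1) :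
    Q.o a z ≤ 2 * Q.K * Q.wb b a * Q.o b z := by
  have h1 := v_om_tri (h.ball a) (h.ball b) hz
  have h2 := h.up a b
  have h3 : 0 ≤ om (Q.f b) z := zero_le_one.trans (one_le_om (h.ball b) hz)
  calc Q.o a z ≤ 2 * om (Q.f a) (Q.f b) * om (Q.f b) z := h1
    _ ≤ 2 * (Q.K * Q.wb b a) * om (Q.f b) z :=
      mul_le_mul_of_nonneg_right (mul_le_mul_of_nonneg_left h2 (by norm_num)) h3
    _ = 2 * Q.K * Q.wb b a * Q.o b z := by
      show _ = 2 * Q.K * Q.wb b a * om (Q.f b) z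
      ring

theorem v_wb_le (h : Q.OK) (a b : G) {z : EU M} (hz : ‖z‖ < 1) :
    Q.wb b a ≤ 2 * Q.K * Q.o a z * Q.o b z := by
  have h1 := v_om_tri (h.ball a) hz (h.ball b)
  have h2 := h.lo a b
  have h3 := v08_K_pos h
  calc Q.wb b a ≤ Q.K * om (Q.f a) (Q.f b) := h2
    _ ≤ Q.K * (2 * om (Q.f a) z * om z (Q.f b)) := mul_le_mul_of_nonneg_left h1 h3.le
    _ = 2 * Q.K * Q.o a z * Q.o b z := by
      show _ = 2 * Q.K * om (Q.f a) z * om (Q.f b) z
      rw [om_symm z (Q.f b)]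
      ring

theorem v_o_le7 (h : Q.OK) (a : G) {b : G} {z : EU M} (hz : ‖z‖ < 1) (hb : Q.o b z ≤ Q.W7) :
    Q.o a z ≤ Q.L1 * Q.wb b a := by
  have h1 := v_o_le h a b hz
  have h2 := v_one_le_wb h b a
  have h3 := v08_K_pos h
  have h4 : 0 ≤ 2 * Q.K * Q.wb b a := by positivity
  calc Q.o a z ≤ 2 * Q.K * Q.wb b a * Q.o b z := h1
    _ ≤ 2 * Q.K * Q.wb b a * Q.W7 := mul_le_mul_of_nonneg_left hb h4
    _ = Q.L1 * Q.wb b a := by
      unfold VD.L1
      ring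

theorem v_wb_le7 (h : Q.OK) (a : G) {b : G} {z : EU M} (hz : ‖z‖ < 1) (hb : Q.o b z ≤ Q.W7) :
    Q.wb b a ≤ Q.L1 * Q.o a z := by
  have h1 := v_wb_le h a b hz
  have h2 := v_one_le_o h a hz
  have h3 := v08_K_pos h
  have h4 : 0 ≤ 2 * Q.K * Q.o a z := by positivity
  calc Q.wb b a ≤ 2 * Q.K * Q.o a z * Q.o b z := h1
    _ ≤ 2 * Q.K * Q.o a z * Q.W7 := mul_le_mul_of_nonneg_left hb h4
    _ = Q.L1 * Q.o a z := by
      unfold VD.L1
      ring

theorem v08_bt_unb (h : Q.OK) (x : ℝ) : ∃ n : ℕ, x < Q.bt n := by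
  have hl : 0 < Q.lam / 2 := by
    have := h.lam_pos
    linarith
  obtain ⟨n, hn⟩ := exists_nat_gt (x / (Q.lam / 2))
  refine ⟨n, ?_⟩
  rw [div_lt_iff₀ hl] at hn
  have h1 : (Q.lam / 2 * n : ℝ) + 1 ≤ Q.bt n := Real.add_one_le_exp _
  linarith

theorem v08_le (h : Q.OK) {m n : ℕ} (hmn : Q.bt m ≤ Q.bt n) : m ≤ n := (v_bt_le_iff h).1 hmn

theorem v_near_fin (h : Q.OK) {z : EU M} (hz : ‖z‖ < 1) (W : ℝ) : {a | Q.o a z ≤ W}.Finite := by
  obtain ⟨n, hn⟩ := v08_bt_unb h (2 * Q.K * W * Q.o 1 z)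
  refine (v_ball_fin h 1 n).subset ?_
  intro a ha
  have ha' : Q.o a z ≤ W := ha
  have h1 := v_wb_le h a 1 hz
  have h2 := v_one_le_o h 1 hz
  have h3 := v08_K_pos h
  have h4 : 2 * Q.K * Q.o a z * Q.o 1 z ≤ 2 * Q.K * W * Q.o 1 z :=
    mul_le_mul_of_nonneg_right (mul_le_mul_of_nonneg_left ha' (by positivity)) (by linarith)
  rw [v_wb_eq] at h1
  exact v08_le h (by linarith)

theorem v_mem_near (h : Q.OK) {z : EU M} (hz : ‖z‖ < 1) {W : ℝ} {a : G} :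
    a ∈ Q.near z W ↔ Q.o a z ≤ W := by
  classical
  unfold VD.near
  rw [dif_pos (v_near_fin h hz W), Set.Finite.mem_toFinset]
  rfl

theorem v_d8 (h : Q.OK) {a b : G} {z : EU M} (hz : ‖z‖ < 1) (hb : Q.o b z ≤ Q.W7)
    (ha : Q.o a z ≤ 2 * Q.W8) : Q.d a b ≤ Q.r8 := by
  have h1 := v_wb_le h a b hz
  have h2 := v_one_le_o h a hz
  have h3 := v_one_le_o h b hz
  have h4 := v08_K_pos h
  have h5 : 2 * Q.K * Q.o a z * Q.o b z ≤ 2 * Q.K * (2 * Q.W8) * Q.W7 := by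
    have h6 : 2 * Q.K * Q.o a z ≤ 2 * Q.K * (2 * Q.W8) := mul_le_mul_of_nonneg_left ha (by positivity)
    have h7 : 0 ≤ 2 * Q.K * Q.o a z := by positivity
    exact mul_le_mul h6 hb (by linarith) (h7.trans h6)
  have h6 := h.hr8
  rw [v_wb_eq] at h1
  refine v08_le h ?_
  linarith

theorem v_dc (h : Q.OK) {a b : G} {z : EU M} (hz : ‖z‖ < 1) (hb : Q.o b z ≤ Q.W7)
    (ha : Q.o a z ≤ 2 * Q.Wc) : Q.d a b ≤ Q.rc := by
  have h1 := v_wb_le h a b hz
  have h2 := v_one_le_o h a hz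
  have h3 := v_one_le_o h b hz
  have h4 := v08_K_pos h
  have h5 : 2 * Q.K * Q.o a z * Q.o b z ≤ 2 * Q.K * (2 * Q.Wc) * Q.W7 := by
    have h6 : 2 * Q.K * Q.o a z ≤ 2 * Q.K * (2 * Q.Wc) := mul_le_mul_of_nonneg_left ha (by positivity)
    have h7 : 0 ≤ 2 * Q.K * Q.o a z := by positivity
    exact mul_le_mul h6 hb (by linarith) (h7.trans h6)
  have h6 := h.hrc
  rw [v_wb_eq] at h1
  refine v08_le h ?_
  linarith

theorem v_d7 (h : Q.OK) {b b' : G} {z : EU M} (hz : ‖z‖ < 1) (hb : Q.o b z ≤ Q.W7)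
    (hb' : Q.o b' z ≤ Q.W7) : Q.d b' b ≤ Q.r8 ∧ Q.wb b b' ≤ Q.L1 * Q.W7 := by
  have h1 := (v_num h).W78
  have h2 := v08_W7_pos h
  refine ⟨v_d8 h hz hb (by linarith), ?_⟩
  exact (v_wb_le7 h b' hz hb).trans (mul_le_mul_of_nonneg_left hb' (v08_L1_pos h).le)

theorem v_far (h : Q.OK) {a b : G} {z : EU M} (hz : ‖z‖ < 1) (hb : Q.o b z ≤ Q.W7)
    (ha : Q.Wc ≤ Q.o a z) : Q.Wc / Q.L1 ≤ Q.wb b a := by
  rw [div_le_iff₀ (v08_L1_pos h), mul_comm]
  exact ha.trans (v_o_le7 h a hz hb)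

theorem v_rips (h : Q.OK) {b b' m : G} (hm : Q.d b m + Q.d m b' = Q.d b b') (a : G) :
    Q.wb m a ≤ Q.bt (2 * Q.δ) * (Q.wb b a / Q.bt (Q.d b m)) ∨
      Q.wb m a ≤ Q.bt (2 * Q.δ) * (Q.wb b' a / Q.bt (Q.d m b')) := by
  have h1 := h.four a b m b'
  rw [← hm] at h1
  rcases le_total (Q.d a b + Q.d m b') (Q.d b m + Q.d a b') with hc | hc
  · right
    rw [max_eq_right hc] at h1
    have h2 : Q.d a m + Q.d m b' ≤ 2 * Q.δ + Q.d a b' := by omega
    have h3 := (v_bt_le_iff h).2 h2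
    rw [v_bt_add, v_bt_add] at h3
    rw [v_wb_eq, v_wb_eq, ← mul_div_assoc, le_div_iff₀ (v_bt_pos Q _)]
    exact h3
  · left
    rw [max_eq_left hc] at h1
    have h2 : Q.d a m + Q.d b m ≤ 2 * Q.δ + Q.d a b := by omega
    have h3 := (v_bt_le_iff h).2 h2
    rw [v_bt_add, v_bt_add] at h3
    rw [v_wb_eq, v_wb_eq, ← mul_div_assoc, le_div_iff₀ (v_bt_pos Q _)]
    exact h3

theorem v_exists_proj (h : Q.OK) {z : EU M} (hz : ‖z‖ < 1) : ∃ b, ∀ a, Q.o b z ≤ Q.o a z := by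
  have hfin := v_near_fin h hz (Q.o 1 z)
  obtain ⟨b, hb, hmin⟩ := Set.exists_min_image {a | Q.o a z ≤ Q.o 1 z} (fun a => Q.o a z) hfin
    ⟨1, show Q.o 1 z ≤ Q.o 1 z from le_refl _⟩
  refine ⟨b, fun a => ?_⟩
  rcases le_total (Q.o a z) (Q.o 1 z) with ha | ha
  · exact hmin a ha
  · exact le_trans hb ha

theorem v_proj (h : Q.OK) {z : EU M} (hz : ‖z‖ < 1) {b : G} (hb : ∀ a, Q.o b z ≤ Q.o a z) (a : G) :
    Q.wb b a * Q.o b z ≤ Q.K3 * Q.o a z := by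
  have hK := v08_K_pos h
  have hK1 := h.K1
  have ho := v_one_le_o h a hz
  have hob := v_one_le_o h b hz
  have hs := v_bt_pos Q Q.s0
  have hK3 : Q.K3 = 2 * Q.K ^ 2 * Q.bt Q.s0 := rfl
  have hsym : Q.d a b = Q.d b a := h.hd.symm a b
  have hKK : 1 ≤ Q.K ^ 2 := one_le_pow₀ hK1
  rcases lt_or_ge (Q.d a b) Q.s0 with hn | hn
  · have h1 : Q.wb b a ≤ Q.bt Q.s0 := by
      rw [v_wb_eq]
      exact (v_bt_le_iff h).2 hn.le
    have h2 : Q.bt Q.s0 ≤ Q.K3 := by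
      rw [hK3]
      nlinarith
    exact mul_le_mul (h1.trans h2) (hb a) (by linarith) (by linarith)
  · rw [hsym] at hn
    obtain ⟨m, hm1, hm2⟩ := h.hd.geo b a Q.s0 hn
    have hptol := v_om_ptol hz (h.ball m) (h.ball b) (h.ball a)
    have hmin : Q.o b z ≤ om z (Q.f m) := by
      rw [om_symm z (Q.f m)]
      exact hb m
    have hlo : Q.wb b a ≤ Q.K * om (Q.f b) (Q.f a) := by
      rw [om_symm (Q.f b) (Q.f a)]
      exact h.lo a b
    have hup1 : om (Q.f m) (Q.f a) ≤ Q.K * Q.bt (Q.d m a) := by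
      have := h.up m a
      rwa [v_wb_eq] at this
    have hup2 : om (Q.f m) (Q.f b) ≤ Q.K * Q.bt Q.s0 := by
      have := h.up m b
      rwa [v_wb_eq, h.hd.symm m b, hm1] at this
    have hbtn : Q.wb b a = Q.bt Q.s0 * Q.bt (Q.d m a) := by
      rw [v_wb_eq, hsym, ← v_bt_add]
      congr 1
      omega
    have hX : om z (Q.f a) = Q.o a z := om_symm z (Q.f a)
    have hP : om z (Q.f b) = Q.o b z := om_symm z (Q.f b)
    rw [hX, hP] at hptol
    have hba : 0 ≤ om (Q.f b) (Q.f a) := zero_le_one.trans (one_le_om (h.ball b) (h.ball a))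
    have hs0 := h.hs0
    set P := Q.o b z with hPd
    set X := Q.o a z with hXd
    set T := Q.bt (Q.d m a) with hT
    set s := Q.bt Q.s0 with hsd
    have hTpos : 0 < T := v_bt_pos Q _
    -- P * (s T) ≤ K * (P om(b,a)) ≤ K (P K T + X K s)
    have h1 : P * om (Q.f b) (Q.f a) ≤ P * (Q.K * T) + X * (Q.K * s) := by
      have h2 : P * om (Q.f b) (Q.f a) ≤ om z (Q.f m) * om (Q.f b) (Q.f a) :=
        mul_le_mul_of_nonneg_right hmin hba
      have h3 : P * om (Q.f m) (Q.f a) ≤ P * (Q.K * T) :=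
        mul_le_mul_of_nonneg_left hup1 (by linarith)
      have h4 : X * om (Q.f m) (Q.f b) ≤ X * (Q.K * s) :=
        mul_le_mul_of_nonneg_left hup2 (by linarith)
      linarith
    have h5 : P * (s * T) ≤ Q.K * (P * (Q.K * T) + X * (Q.K * s)) := by
      calc P * (s * T) ≤ P * (Q.K * om (Q.f b) (Q.f a)) := by
            rw [hbtn] at hlo
            exact mul_le_mul_of_nonneg_left hlo (by linarith)
        _ = Q.K * (P * om (Q.f b) (Q.f a)) := by ring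
        _ ≤ _ := mul_le_mul_of_nonneg_left h1 hK.le
    have h6 : 2 * (Q.K ^ 2 * (P * T)) ≤ P * (s * T) := by
      have h7 : 0 ≤ P * T := mul_nonneg (by linarith) hTpos.le
      nlinarith [mul_le_mul_of_nonneg_right hs0 h7]
    rw [hbtn, hK3]
    nlinarith

/-- the cut-off function -/
theorem v_k_mem (Q : VD G M L) (W : ℝ) (z : EU M) (a : G) : 0 ≤ Q.k W z a ∧ Q.k W z a ≤ 1 := by
  unfold VD.k cl
  exact ⟨le_max_left _ _, max_le zero_le_one (min_le_left _ _)⟩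

theorem v_k_one {Q : VD G M L} {W : ℝ} (hW : 0 < W) {z : EU M} {a : G} (ha : Q.o a z ≤ W) :
    Q.k W z a = 1 := by
  unfold VD.k cl
  have h1 : Q.o a z / W ≤ 1 := by
    rw [div_le_one hW]
    exact ha
  rw [min_eq_left (by linarith), max_eq_right zero_le_one]

theorem v_k_zero {Q : VD G M L} {W : ℝ} (hW : 0 < W) {z : EU M} {a : G} (ha : 2 * W ≤ Q.o a z) :
    Q.k W z a = 0 := by
  unfold VD.k cl
  have h1 : 2 ≤ Q.o a z / W := by
    rw [le_div_iff₀ hW]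
    exact ha
  exact max_eq_left ((min_le_right _ _).trans (by linarith))

end Pool.HQ
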