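import Pool.Agent.HQ.V08
import Pool.Agent.HQ.V05

/-!
MODULE V09 (MP_7936f4_al, part III): the functions J_b, JG, Phi; minimisers.

J b X = NN c E (wb b) X, wb b >= 1; Ph p = NN c E (fun a => o a p.2) p.1, o >= 1 (v_one_le_o, |p.2| < 1).
v_J_tri: v_NN_scale with wb b a <= wb b b' wb b' a.
v_exists_JG: Jp b p >= 1 + (o b z - W6); only finitely many b have Jp b p <= Jp 1 p; take the minimum over them; JG = that (ciInf).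
v_Jp_near: J >= 1, so o b z - W6 <= 2 A0.
v_opt_J: v_exists_min with S = bl b rE: outside S wb b a >= bt rE (>= rE+1) >= 2K W7 (W7 + 2E) >= 1 + 2E = wb b b + 2E.
v_opt_Ph: v_exists_min with S = bl b rE: outside S: o a z >= wb b a/(2 K o b z) >= bt rE/(2K W7) >= W7 + 2E >= o b z + 2E.
v_Ph_le, v_J_le_Ph: v_NN_scale with v_o_le7, v_wb_le7.
v_Tm_J: d a b <= d a b' + d b' b <= rE + r8 (v_d7); cst (wb b) psi <= wb b b' cst (wb b') psi <= L1 W7 A0 <= L1 (L1 A0) = A1.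
v_Tm_Ph: E|..| <= Ph <= L1 J <= L1 A0 <= A1; cst (wb b) psi <= L1 cst o psi <= L1 (L1 A0).
-/

namespace Pool.HQ

variable {G : Type} [Group G] {M L : ℕ} {Q : VD G M L}

theorem V09_E (h : Q.OK) : 0 ≤ Q.E := zero_le_one.trans h.E1

theorem V09_wb (h : Q.OK) (b : G) : ∀ a, 0 ≤ Q.wb b a := fun a =>
  zero_le_one.trans (v_one_le_wb h b a)

theorem v_J_le (h : Q.OK) (b : G) (X : EU L) {ψ : G →₀ ℝ} (hψ : tot ψ = 1) :
    Q.J b X ≤ cst (Q.wb b) ψ + Q.E * ‖X - io Q.c ψ‖ :=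
  v_NN_le (c := Q.c) (w := Q.wb b) (V09_E h) (V09_wb h b) X hψ

theorem v_J_lip (h : Q.OK) (b : G) (X Y : EU L) : |Q.J b X - Q.J b Y| ≤ Q.E * ‖X - Y‖ :=
  v_NN_lip (c := Q.c) (w := Q.wb b) (V09_E h) (V09_wb h b) X Y

theorem v_one_le_J (h : Q.OK) (b : G) (X : EU L) : 1 ≤ Q.J b X :=
  v_one_le_NN (c := Q.c) (w := Q.wb b) (V09_E h) (v_one_le_wb h b) X

theorem v_J_io (h : Q.OK) (b : G) {ψ : G →₀ ℝ} (hψ : tot ψ = 1) :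
    Q.J b (io Q.c ψ) ≤ cst (Q.wb b) ψ :=
  v_NN_io (c := Q.c) (w := Q.wb b) (V09_E h) (V09_wb h b) hψ

theorem v_J_conv3 (h : Q.OK) (b : G) (X Y Z : EU L) {α β γ : ℝ} (hα : 0 ≤ α) (hβ : 0 ≤ β)
    (hγ : 0 ≤ γ) (h1 : α + β + γ = 1) :
    Q.J b (α • X + β • Y + γ • Z) ≤ α * Q.J b X + β * Q.J b Y + γ * Q.J b Z :=
  v_NN_conv3 (c := Q.c) (w := Q.wb b) (V09_E h) (V09_wb h b) X Y Z hα hβ hγ h1

theorem v_J_tri (h : Q.OK) (b b' : G) (X : EU L) : Q.J b X ≤ Q.wb b b' * Q.J b' X :=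
  v_NN_scale (c := Q.c) (w := Q.wb b) (w' := Q.wb b') (V09_E h) (V09_wb h b) (v_one_le_wb h b b')
    (V09_wb h b') (fun a => v_wb_tri h b b' a) X

theorem v_J_le_Jp (h : Q.OK) (p : EU L × EU M) (b : G) : Q.J b p.1 ≤ Q.Jp b p := by
  have _ := h
  unfold VD.Jp
  have := le_max_left 0 (Q.o b p.2 - Q.W6)
  linarith

theorem v_JG_le (h : Q.OK) (p : EU L × EU M) (b : G) : Q.JG p ≤ Q.Jp b p := by
  refine ciInf_le ?_ b
  refine ⟨1, ?_⟩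
  rintro _ ⟨b, rfl⟩
  exact (v_one_le_J h b p.1).trans (v_J_le_Jp h p b)

theorem v_exists_JG (h : Q.OK) {p : EU L × EU M} (hz : ‖p.2‖ < 1) : ∃ b, Q.JG p = Q.Jp b p := by
  have hfin : {b | Q.Jp b p ≤ Q.Jp 1 p}.Finite := by
    refine (v_near_fin h hz (Q.Jp 1 p + Q.W6)).subset ?_
    intro b hb
    have h1 : Q.Jp b p ≤ Q.Jp 1 p := hb
    have h2 := v_one_le_J h b p.1
    have h3 := le_max_right 0 (Q.o b p.2 - Q.W6)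
    unfold VD.Jp at h1
    have h4 : Q.o b p.2 ≤ (Q.J 1 p.1 + max 0 (Q.o 1 p.2 - Q.W6)) + Q.W6 := by linarith
    exact h4
  obtain ⟨b, hb, hmin⟩ := Set.exists_min_image _ (fun b => Q.Jp b p) hfin ⟨1, le_refl (Q.Jp 1 p)⟩
  refine ⟨b, le_antisymm (v_JG_le h p b) (le_ciInf fun b' => ?_)⟩
  by_cases h1 : Q.Jp b' p ≤ Q.Jp 1 p
  · exact hmin b' h1
  · have h2 : Q.Jp b p ≤ Q.Jp 1 p := hb
    exact h2.trans (not_le.1 h1).le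

theorem v_one_le_JG (h : Q.OK) (p : EU L × EU M) : 1 ≤ Q.JG p :=
  le_ciInf fun b => (v_one_le_J h b p.1).trans (v_J_le_Jp h p b)

theorem v_Jp_near (h : Q.OK) {p : EU L × EU M} {b : G} (hb : Q.Jp b p ≤ 2 * Q.A0) :
    Q.o b p.2 ≤ Q.W7 := by
  have h2 := v_one_le_J h b p.1
  have h3 := le_max_right 0 (Q.o b p.2 - Q.W6)
  unfold VD.Jp at hb
  unfold VD.W7
  linarith

theorem V09_W7 (h : Q.OK) : 1 ≤ Q.W7 := by
  have hn := v_num h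
  have h1 := hn.W7_eq
  have h2 := hn.W56
  have h3 := h.W5a
  have h4 := hn.A0_eq
  have h5 := hn.C1_ge
  linarith

theorem V09_bt (h : Q.OK) : Q.L1 * (Q.W7 + 2 * Q.E) ≤ Q.bt Q.rE := by
  have h1 := h.hrE
  unfold VD.L1
  exact h1

theorem V09_L1 (h : Q.OK) : 2 ≤ Q.L1 := by
  have h1 := (v_num h).L1_ge
  have h2 := V09_W7 h
  linarith

theorem v_opt_J (h : Q.OK) (b : G) (X : EU L) :
    ∃ ψ : G →₀ ℝ, tot ψ = 1 ∧ (∀ a ∈ ψ.support, Q.d a b ≤ Q.rE) ∧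
      cst (Q.wb b) ψ + Q.E * ‖X - io Q.c ψ‖ = Q.J b X := by
  have hb : b ∈ Q.bl b Q.rE := (v_mem_bl h).2 (by rw [h.hd.self]; exact Nat.zero_le _)
  have hE := V09_E h
  have hW := V09_W7 h
  have hL := V09_L1 h
  have hS : ∀ a, a ∉ Q.bl b Q.rE → Q.wb b b + 2 * Q.E ≤ Q.wb b a := by
    intro a ha
    rw [v_mem_bl h, not_le] at ha
    have h1 : Q.bt Q.rE ≤ Q.bt (Q.d a b) := (v_bt_le_iff h).2 ha.le
    rw [v_wb_self h, v_wb_eq]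
    have h2 := V09_bt h
    have h3 : 1 + 2 * Q.E ≤ Q.L1 * (Q.W7 + 2 * Q.E) := by nlinarith
    linarith
  obtain ⟨ψ, h1, h2, h3⟩ := v_exists_min (c := Q.c) (E := Q.E) (w := Q.wb b) hE (v_one_le_wb h b)
    (Q.bl b Q.rE) hb hS X
  exact ⟨ψ, h1, fun a ha => (v_mem_bl h).1 (h2 ha), h3⟩

theorem v_opt_Ph (h : Q.OK) {p : EU L × EU M} (hz : ‖p.2‖ < 1) {b : G} (hb : Q.o b p.2 ≤ Q.W7) :
    ∃ ψ : G →₀ ℝ, tot ψ = 1 ∧ (∀ a ∈ ψ.support, Q.d a b ≤ Q.rE) ∧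
      cst (fun a => Q.o a p.2) ψ + Q.E * ‖p.1 - io Q.c ψ‖ = Q.Ph p := by
  have hb' : b ∈ Q.bl b Q.rE := (v_mem_bl h).2 (by rw [h.hd.self]; exact Nat.zero_le _)
  have hE := V09_E h
  have hL := V09_L1 h
  have hS : ∀ a, a ∉ Q.bl b Q.rE → Q.o b p.2 + 2 * Q.E ≤ Q.o a p.2 := by
    intro a ha
    rw [v_mem_bl h, not_le] at ha
    have h1 : Q.bt Q.rE ≤ Q.bt (Q.d a b) := (v_bt_le_iff h).2 ha.le
    have h2 := V09_bt h
    have h3 := v_wb_le7 h a hz hb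
    rw [v_wb_eq] at h3
    have h4 : Q.L1 * (Q.W7 + 2 * Q.E) ≤ Q.L1 * Q.o a p.2 := by linarith
    have h5 : Q.W7 + 2 * Q.E ≤ Q.o a p.2 := le_of_mul_le_mul_left h4 (by linarith)
    linarith
  obtain ⟨ψ, h1, h2, h3⟩ := v_exists_min (c := Q.c) (E := Q.E) (w := fun a => Q.o a p.2) hE
    (fun a => v_one_le_o h a hz) (Q.bl b Q.rE) hb' hS p.1
  exact ⟨ψ, h1, fun a ha => (v_mem_bl h).1 (h2 ha), h3⟩

theorem v_Ph_le_test (h : Q.OK) {p : EU L × EU M} (hz : ‖p.2‖ < 1) {ψ : G →₀ ℝ} (hψ : tot ψ = 1) :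
    Q.Ph p ≤ cst (fun a => Q.o a p.2) ψ + Q.E * ‖p.1 - io Q.c ψ‖ :=
  v_NN_le (c := Q.c) (w := fun a => Q.o a p.2) (V09_E h)
    (fun a => zero_le_one.trans (v_one_le_o h a hz)) p.1 hψ

theorem v_Ph_le (h : Q.OK) {p : EU L × EU M} (hz : ‖p.2‖ < 1) {b : G} (hb : Q.o b p.2 ≤ Q.W7) :
    Q.Ph p ≤ Q.L1 * Q.J b p.1 :=
  v_NN_scale (c := Q.c) (w := fun a => Q.o a p.2) (w' := Q.wb b) (t := Q.L1) (V09_E h)
    (fun a => zero_le_one.trans (v_one_le_o h a hz)) (by linarith [V09_L1 h])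
    (V09_wb h b) (fun a => v_o_le7 h a hz hb) p.1

theorem v_J_le_Ph (h : Q.OK) {p : EU L × EU M} (hz : ‖p.2‖ < 1) {b : G} (hb : Q.o b p.2 ≤ Q.W7) :
    Q.J b p.1 ≤ Q.L1 * Q.Ph p :=
  v_NN_scale (c := Q.c) (w := Q.wb b) (w' := fun a => Q.o a p.2) (t := Q.L1) (V09_E h)
    (V09_wb h b) (by linarith [V09_L1 h]) (fun a => zero_le_one.trans (v_one_le_o h a hz))
    (fun a => v_wb_le7 h a hz hb) p.1

theorem v_Tm_J (h : Q.OK) {p : EU L × EU M} (hz : ‖p.2‖ < 1) {b b' : G} (hb : Q.o b p.2 ≤ Q.W7)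
    (hb' : Q.o b' p.2 ≤ Q.W7) (hJ : Q.J b' p.1 ≤ Q.A0) {ψ : G →₀ ℝ} (hψ : tot ψ = 1)
    (hs : ∀ a ∈ ψ.support, Q.d a b' ≤ Q.rE)
    (ho : cst (Q.wb b') ψ + Q.E * ‖p.1 - io Q.c ψ‖ = Q.J b' p.1) : Q.Tm p b ψ := by
  have hn := v_num h
  obtain ⟨k1, k2⟩ := v_d7 h hz hb hb'
  have hL := V09_L1 h
  have hW := V09_W7 h
  have hE0 : 0 ≤ Q.E * ‖p.1 - io Q.c ψ‖ := mul_nonneg (V09_E h) (norm_nonneg _)
  have hc0 : 0 ≤ cst (Q.wb b') ψ := v_cst_nonneg (V09_wb h b') ψ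
  have hA0 : 0 ≤ Q.A0 := by linarith [hn.A0_eq, hn.C1_ge]
  have hLA : Q.A0 ≤ Q.A1 := by
    have h1 := hn.A1_ge
    have h2 : Q.A0 ≤ Q.L1 * Q.A0 := le_mul_of_one_le_left hA0 (by linarith)
    linarith
  refine ⟨hψ, ?_, ?_, ?_⟩
  · intro a ha
    have h1 := hs a ha
    have h2 := h.hd.tri a b' b
    omega
  · have h1 : cst (Q.wb b) ψ ≤ Q.wb b b' * cst (Q.wb b') ψ := by
      rw [← v_cst_mul]
      exact v_cst_mono ψ fun a _ => v_wb_tri h b b' a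
    have h2 : cst (Q.wb b') ψ ≤ Q.A0 := by linarith
    have h3 : Q.wb b b' * cst (Q.wb b') ψ ≤ (Q.L1 * Q.W7) * Q.A0 :=
      mul_le_mul k2 h2 hc0 (by positivity)
    have h4 : Q.W7 ≤ Q.L1 := by linarith [hn.L1_ge]
    have h5 : (Q.L1 * Q.W7) * Q.A0 ≤ Q.A1 := by
      unfold VD.A1
      rw [mul_assoc]
      exact mul_le_mul_of_nonneg_left (mul_le_mul_of_nonneg_right h4 hA0) (by linarith)
    linarith
  · linarith

theorem v_Tm_Ph (h : Q.OK) {p : EU L × EU M} (hz : ‖p.2‖ < 1) {b : G} (hb : Q.o b p.2 ≤ Q.W7)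
    (hJ : Q.J b p.1 ≤ Q.A0) {ψ : G →₀ ℝ} (hψ : tot ψ = 1)
    (hs : ∀ a ∈ ψ.support, Q.d a b ≤ Q.rE)
    (ho : cst (fun a => Q.o a p.2) ψ + Q.E * ‖p.1 - io Q.c ψ‖ = Q.Ph p) : Q.Tm p b ψ := by
  have hn := v_num h
  have hL := V09_L1 h
  have hE0 : 0 ≤ Q.E * ‖p.1 - io Q.c ψ‖ := mul_nonneg (V09_E h) (norm_nonneg _)
  have hc0 : 0 ≤ cst (fun a => Q.o a p.2) ψ :=
    v_cst_nonneg (fun a => zero_le_one.trans (v_one_le_o h a hz)) ψ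
  have hA0 : 0 ≤ Q.A0 := by linarith [hn.A0_eq, hn.C1_ge]
  have hPh : Q.Ph p ≤ Q.L1 * Q.A0 :=
    (v_Ph_le h hz hb).trans (mul_le_mul_of_nonneg_left hJ (by linarith))
  refine ⟨hψ, ?_, ?_, ?_⟩
  · intro a ha
    exact (hs a ha).trans (Nat.le_add_right _ _)
  · have h1 : cst (Q.wb b) ψ ≤ Q.L1 * cst (fun a => Q.o a p.2) ψ := by
      rw [← v_cst_mul]
      exact v_cst_mono ψ fun a _ => v_wb_le7 h a hz hb
    have h2 : cst (fun a => Q.o a p.2) ψ ≤ Q.L1 * Q.A0 := by linarith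
    have h3 : Q.L1 * cst (fun a => Q.o a p.2) ψ ≤ Q.L1 * (Q.L1 * Q.A0) :=
      mul_le_mul_of_nonneg_left h2 (by linarith)
    unfold VD.A1
    linarith
  · have h1 := hn.A1_ge
    linarith

end Pool.HQ
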