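import Pool.Agent.HQ.V09
import Pool.Agent.HQ.V06

/-!
MODULE V10 (MP_7936f4_al, part III): coordinates of X near b.

v_inj: any two elements within R = rE+rc+r8+r2+rm+r0 of b are at distance <= 2R: OK.inj.
v_X_coord, v_X_sum, v_diff: V06 with S = bl b (rE + r8 + rc + r2 + rm + r0) (contains the support of psi, and bl b rc), sqrt of the
number of elements of bl b rc (v_card_bl), |X - io psi| <= A1/E.
v_supp: psi = optimal measure of J_b (v_opt_J, v_Tm_J), d a b <= r8 (v_d8).  psi a >= X(c a) - |X - io psi| >= X(c a) - A0/E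
 (E|..| <= J b X <= A0), A0/E <= A1/E <= tau/4: psi a >= tau/2 > 0, so (tau/2) wb b a <= cst <= A0, bt(d a b) <= 2 A0/tau <= bt r2
 (hr2).  o a z <= 2 K wb b a o b z <= 2K bt r2 W7 <= W8.  X(c a) - tau <= psi a + A0/E - tau <= psi a.
v_big: psi optimal for J_b: sum over d a b > r of |psi a| <= A/bt r <= 1/4 (there wb b a >= bt r), so the sum over bl b r of psi is
 >= 3/4 and some a in bl b r has psi a >= 3/(4 N(r)); X(c a) >= psi a - A0/E; tau <= 1/(16 N(rm)) <= 1/(16 N(r)), A0/E <= tau/4.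
 o a z <= 2 K bt rm W7 <= W8 (rm <= r2, hW8).
v_big_Tm: for a as in v_big and any test measure phi: phi a >= X(c a) - A1/E >= 1/(4N) + tau - tau/4.
-/

namespace Pool.HQ

variable {G : Type} [Group G] {M L : ℕ} {Q : VD G M L}

theorem v10_d_le (h : Q.OK) {a a' b : G} {R : ℕ} (ha : Q.d a b ≤ R) (ha' : Q.d a' b ≤ R) :
    Q.d a a' ≤ 2 * R := by
  have h1 := h.hd.tri a b a'
  have h2 := h.hd.symm b a'
  omega

theorem v_inj (h : Q.OK) (b : G) {a a' : G} (ha : Q.d a b ≤ Q.rE + Q.rc + Q.r8 + Q.r2 + Q.rm + Q.r0)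
    (ha' : Q.d a' b ≤ Q.rE + Q.rc + Q.r8 + Q.r2 + Q.rm + Q.r0) (hc : Q.c a = Q.c a') : a = a' :=
  h.inj a a' (v10_d_le h ha ha') hc

theorem v10_injS (h : Q.OK) (b : G) :
    ∀ a ∈ Q.bl b (Q.rE + Q.rc + Q.r8 + Q.r2 + Q.rm + Q.r0),
      ∀ a' ∈ Q.bl b (Q.rE + Q.rc + Q.r8 + Q.r2 + Q.rm + Q.r0), Q.c a = Q.c a' → a = a' :=
  fun _ ha _ ha' hc => v_inj h b ((v_mem_bl h).1 ha) ((v_mem_bl h).1 ha') hc

theorem v10_supp (h : Q.OK) {b : G} {ψ : G →₀ ℝ} (hs : ∀ a ∈ ψ.support, Q.d a b ≤ Q.rE + Q.r8) :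
    ψ.support ⊆ Q.bl b (Q.rE + Q.rc + Q.r8 + Q.r2 + Q.rm + Q.r0) := by
  intro a ha
  rw [v_mem_bl h]
  have := hs a ha
  omega

theorem v10_sub (h : Q.OK) (b : G) :
    Q.bl b Q.rc ⊆ Q.bl b (Q.rE + Q.rc + Q.r8 + Q.r2 + Q.rm + Q.r0) := by
  intro a ha
  rw [v_mem_bl h] at ha ⊢
  omega

theorem v10_E_pos (h : Q.OK) : 0 < Q.E := by
  have := h.E1
  linarith

theorem v_X_coord (h : Q.OK) {p : EU L × EU M} {b : G} {ψ : G →₀ ℝ}
    (hs : ∀ a ∈ ψ.support, Q.d a b ≤ Q.rE + Q.r8) {a : G}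
    (ha : Q.d a b ≤ Q.rE + Q.rc + Q.r8 + Q.r2 + Q.rm + Q.r0) :
    |p.1 (Q.c a) - ψ a| ≤ ‖p.1 - io Q.c ψ‖ :=
  v_coord (v10_injS h b) (v10_supp h hs) ((v_mem_bl h).2 ha) p.1

theorem v_X_sum (h : Q.OK) {p : EU L × EU M} {b : G} {ψ : G →₀ ℝ}
    (hs : ∀ a ∈ ψ.support, Q.d a b ≤ Q.rE + Q.r8) (hE : Q.E * ‖p.1 - io Q.c ψ‖ ≤ Q.A1) :
    ∑ a ∈ Q.bl b Q.rc, |p.1 (Q.c a) - ψ a| ≤ Real.sqrt (Q.nb 1 Q.rc) * (Q.A1 / Q.E) := by
  have h1 := v_coord_sum (v10_injS h b) (v10_supp h hs) (v10_sub h b) p.1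
  rw [v_card_bl h] at h1
  refine h1.trans (mul_le_mul_of_nonneg_left ?_ (Real.sqrt_nonneg _))
  rw [le_div_iff₀ (v10_E_pos h)]
  linarith

theorem v_diff (h : Q.OK) {p : EU L × EU M} {b : G} {ψ φ : G →₀ ℝ}
    (hs : ∀ a ∈ ψ.support, Q.d a b ≤ Q.rE + Q.r8) (hE : Q.E * ‖p.1 - io Q.c ψ‖ ≤ Q.A1)
    (hs' : ∀ a ∈ φ.support, Q.d a b ≤ Q.rE + Q.r8) (hE' : Q.E * ‖p.1 - io Q.c φ‖ ≤ Q.A1) :
    ∑ a ∈ Q.bl b Q.rc, |ψ a - φ a| ≤ Real.sqrt (Q.nb 1 Q.rc) * (2 * Q.A1 / Q.E) := by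
  have h1 := v_diff_sum (v10_injS h b) (v10_supp h hs) (v10_supp h hs') (v10_sub h b) p.1
  rw [v_card_bl h] at h1
  refine h1.trans (mul_le_mul_of_nonneg_left ?_ (Real.sqrt_nonneg _))
  rw [le_div_iff₀ (v10_E_pos h)]
  linarith

theorem v10_A0_A1 (h : Q.OK) : Q.A0 ≤ Q.A1 := by
  have n := v_num h
  have h1 := n.A1_ge
  have h2 := n.L1_ge
  have h3 := n.C1_ge
  have h4 := n.A0_eq
  have h5 := n.W7_eq
  have h6 := n.W56
  have h7 := n.A056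
  nlinarith

theorem v10_A0_nonneg (h : Q.OK) : 0 ≤ Q.A0 := by
  have n := v_num h
  have h3 := n.C1_ge
  have h4 := n.A0_eq
  linarith

theorem v10_W7_nonneg (h : Q.OK) : 0 ≤ Q.W7 := by
  have n := v_num h
  have h3 := v10_A0_nonneg h
  linarith [n.A056, n.W56, n.W67]

/-- the error is at most tau/4 -/
theorem v10_err (h : Q.OK) {n : ℝ} (hn : Q.E * n ≤ Q.A1) : n ≤ Q.tau / 4 := by
  have h1 := (v_num h).A1E
  refine le_trans ?_ h1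
  rw [le_div_iff₀ (v10_E_pos h)]
  linarith

/-- one term of the cost -/
theorem v10_term (h : Q.OK) (b : G) (ψ : G →₀ ℝ) (a : G) :
    Q.wb b a * |ψ a| ≤ cst (Q.wb b) ψ := by
  classical
  rw [v_cst_eq (Q.wb b) ψ (ψ.support ∪ {a}) Finset.subset_union_left]
  refine Finset.single_le_sum (f := fun a => Q.wb b a * |ψ a|) (fun i _ => ?_) (by simp)
  have := v_one_le_wb h b i
  exact mul_nonneg (by linarith) (abs_nonneg _)

theorem v10_cst_nonneg (h : Q.OK) (b : G) (ψ : G →₀ ℝ) : 0 ≤ cst (Q.wb b) ψ :=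
  v_cst_nonneg (fun a => zero_le_one.trans (v_one_le_wb h b a)) ψ

theorem v10_o_le (h : Q.OK) {z : EU M} (hz : ‖z‖ < 1) {a b : G} (hb : Q.o b z ≤ Q.W7)
    (hd : Q.d a b ≤ Q.r2) : Q.o a z ≤ Q.W8 := by
  have h1 := v_o_le h a b hz
  have h2 : Q.wb b a ≤ Q.bt Q.r2 := by
    rw [v_wb_eq]
    exact (v_bt_le_iff h).2 hd
  have h3 := v_one_le_wb h b a
  have h4 := v_one_le_o h b hz
  have h5 := h.K1
  have h6 : Q.wb b a * Q.o b z ≤ Q.bt Q.r2 * Q.W7 :=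
    mul_le_mul h2 hb (by linarith) (by linarith)
  have h7 := h.hW8
  calc Q.o a z ≤ 2 * Q.K * Q.wb b a * Q.o b z := h1
    _ = 2 * Q.K * (Q.wb b a * Q.o b z) := by ring
    _ ≤ 2 * Q.K * (Q.bt Q.r2 * Q.W7) := mul_le_mul_of_nonneg_left h6 (by linarith)
    _ ≤ Q.W8 := by linarith

theorem v_supp (h : Q.OK) {p : EU L × EU M} (hz : ‖p.2‖ < 1) {b : G} (hb : Q.o b p.2 ≤ Q.W7)
    (hJ : Q.J b p.1 ≤ Q.A0) {ψ : G →₀ ℝ} (hψ : tot ψ = 1) (hs : ∀ a ∈ ψ.support, Q.d a b ≤ Q.rE)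
    (ho : cst (Q.wb b) ψ + Q.E * ‖p.1 - io Q.c ψ‖ = Q.J b p.1) {a : G}
    (ha : Q.o a p.2 ≤ 2 * Q.W8) (hX : Q.tau < p.1 (Q.c a)) :
    Q.d a b ≤ Q.r2 ∧ Q.o a p.2 ≤ Q.W8 ∧ p.1 (Q.c a) - Q.tau ≤ ψ a := by
  have hE := v10_E_pos h
  have hc0 := v10_cst_nonneg h b ψ
  have hn0 : 0 ≤ Q.E * ‖p.1 - io Q.c ψ‖ := by positivity
  have hn : ‖p.1 - io Q.c ψ‖ ≤ Q.tau / 4 :=
    v10_err h (by linarith [v10_A0_A1 h])
  have hd8 := v_d8 h hz hb ha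
  have h1 := v_X_coord h (p := p) (fun x hx => (hs x hx).trans (by omega : Q.rE ≤ Q.rE + Q.r8))
    (a := a) (by omega)
  have h2 := (abs_le.1 h1).2
  have ht := h.tau_pos
  have h3 : Q.tau / 2 ≤ ψ a := by linarith
  have h4 := v10_term h b ψ a
  have h5 : |ψ a| = ψ a := abs_of_nonneg (by linarith)
  rw [h5] at h4
  have h6 := v_one_le_wb h b a
  have h7 : Q.wb b a * (Q.tau / 2) ≤ Q.A0 := by
    have : Q.wb b a * (Q.tau / 2) ≤ Q.wb b a * ψ a := mul_le_mul_of_nonneg_left h3 (by linarith)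
    linarith
  have h8 : Q.tau * Q.wb b a ≤ Q.tau * Q.bt Q.r2 := by
    have := h.hr2
    linarith
  have h9 : Q.wb b a ≤ Q.bt Q.r2 := le_of_mul_le_mul_left h8 ht
  have h10 : Q.d a b ≤ Q.r2 := by
    rw [v_wb_eq] at h9
    exact (v_bt_le_iff h).1 h9
  exact ⟨h10, v10_o_le h hz hb h10, by linarith⟩

theorem v_big (h : Q.OK) {p : EU L × EU M} (hz : ‖p.2‖ < 1) {b : G} (hb : Q.o b p.2 ≤ Q.W7)
    {A : ℝ} (hJ : Q.J b p.1 ≤ A) (hA : A ≤ Q.A0) {r : ℕ} (hr : 4 * A ≤ Q.bt r) (hrm : r ≤ Q.rm) :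
    ∃ a, Q.d a b ≤ r ∧ 1 / (4 * Q.nb 1 r) ≤ p.1 (Q.c a) - Q.tau ∧ Q.o a p.2 ≤ Q.W8 := by
  classical
  obtain ⟨ψ, hψ, hs, ho⟩ := v_opt_J h b p.1
  have hE := v10_E_pos h
  have hc0 := v10_cst_nonneg h b ψ
  have hn0 : 0 ≤ Q.E * ‖p.1 - io Q.c ψ‖ := by positivity
  have hn : ‖p.1 - io Q.c ψ‖ ≤ Q.tau / 4 :=
    v10_err h (by linarith [v10_A0_A1 h])
  have hcA : cst (Q.wb b) ψ ≤ A := by linarith
  have hbt := v_bt_pos Q r
  -- the mass of the far part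
  set S := ψ.support ∪ Q.bl b r with hS
  have hfar : ∑ a ∈ S \ Q.bl b r, |ψ a| ≤ 1 / 4 := by
    have h1 : Q.bt r * ∑ a ∈ S \ Q.bl b r, |ψ a| ≤ cst (Q.wb b) ψ := by
      rw [v_cst_eq (Q.wb b) ψ S Finset.subset_union_left, Finset.mul_sum]
      refine le_trans ?_ (Finset.sum_le_sum_of_subset_of_nonneg (Finset.sdiff_subset
        (s := S) (t := Q.bl b r)) fun i _ _ => ?_)
      · refine Finset.sum_le_sum fun a ha => ?_
        have h2 : a ∉ Q.bl b r := (Finset.mem_sdiff.1 ha).2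
        rw [v_mem_bl h, not_le] at h2
        refine mul_le_mul_of_nonneg_right ?_ (abs_nonneg _)
        rw [v_wb_eq]
        exact (v_bt_le_iff h).2 h2.le
      · have := v_one_le_wb h b i
        exact mul_nonneg (by linarith) (abs_nonneg _)
    have h3 : Q.bt r * ∑ a ∈ S \ Q.bl b r, |ψ a| ≤ Q.bt r * (1 / 4) := by linarith
    exact le_of_mul_le_mul_left h3 hbt
  have hnear : 3 / 4 ≤ ∑ a ∈ Q.bl b r, ψ a := by
    have h1 : ∑ a ∈ S, ψ a = 1 := by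
      rw [← v_tot_eq ψ S Finset.subset_union_left, hψ]
    have h2 : ∑ a ∈ S \ Q.bl b r, ψ a + ∑ a ∈ Q.bl b r, ψ a = ∑ a ∈ S, ψ a :=
      Finset.sum_sdiff Finset.subset_union_right
    have h3 : ∑ a ∈ S \ Q.bl b r, ψ a ≤ ∑ a ∈ S \ Q.bl b r, |ψ a| :=
      Finset.sum_le_sum fun a _ => le_abs_self _
    linarith
  have hN := v_one_le_nb h r
  have hN0 : 0 < Q.nb 1 r := by linarith
  have hcard := v_card_bl h b r
  have hne : (Q.bl b r).Nonempty := by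
    rw [← Finset.card_pos]
    have : (0 : ℝ) < ((Q.bl b r).card : ℝ) := by rw [hcard]; exact hN0
    exact_mod_cast this
  obtain ⟨a, ha, hψa⟩ := Finset.exists_le_of_sum_le hne
    (f := fun _ => 3 / (4 * Q.nb 1 r)) (g := fun a => ψ a) (by
      rw [Finset.sum_const, nsmul_eq_mul, hcard]
      refine le_trans (le_of_eq ?_) hnear
      field_simp)
  have had : Q.d a b ≤ r := (v_mem_bl h).1 ha
  have hr2 := h.rm2
  have h1 := v_X_coord h (p := p) (fun x hx => (hs x hx).trans (by omega : Q.rE ≤ Q.rE + Q.r8))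
    (a := a) (by omega)
  have h2 := (abs_le.1 h1).1
  refine ⟨a, had, ?_, v10_o_le h hz hb (by omega)⟩
  have ht := h.htau
  have htp := h.tau_pos
  have hmono := v_nb_mono h hrm
  have h3 : 16 * Q.tau * Q.nb 1 r ≤ 1 := by
    have : 16 * Q.tau * Q.nb 1 r ≤ 16 * Q.tau * Q.nb 1 Q.rm :=
      mul_le_mul_of_nonneg_left hmono (by linarith)
    linarith
  have h4 : Q.tau ≤ 1 / (16 * Q.nb 1 r) := by
    rw [le_div_iff₀ (by positivity)]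
    linarith
  have h5 : 3 / (4 * Q.nb 1 r) = 3 * (1 / (4 * Q.nb 1 r)) := by ring
  have h6 : 1 / (16 * Q.nb 1 r) = (1 / (4 * Q.nb 1 r)) / 4 := by
    field_simp
    norm_num
  have h7 : 0 < 1 / (4 * Q.nb 1 r) := by positivity
  have h8 : 3 / (4 * Q.nb 1 r) ≤ ψ a := hψa
  rw [h5] at h8
  rw [h6] at h4
  linarith

theorem v_big_Tm (h : Q.OK) {p : EU L × EU M} {b : G} {a : G} {r : ℕ} (har : Q.d a b ≤ Q.rm)
    (ha : 1 / (4 * Q.nb 1 r) ≤ p.1 (Q.c a) - Q.tau) {φ : G →₀ ℝ} (hφ : Q.Tm p b φ) :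
    1 / (4 * Q.nb 1 r) ≤ φ a := by
  have hn : ‖p.1 - io Q.c φ‖ ≤ Q.tau / 4 := v10_err h hφ.cE
  have h1 := v_X_coord h (p := p) hφ.sup (a := a) (by omega)
  have h2 := (abs_le.1 h1).2
  have ht := h.tau_pos
  linarith

end Pool.HQ
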