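import Pool.Agent.HQ.V10
import Pool.Agent.HQ.E30

/-!
MODULE V11 (MP_7936f4_al, part III): the location x(p) and the affine map fb.

mm p a = k W8 z a * max 0 (X(c a) - tau)^3; sm p = sum over near z (2 W8).
v_mm_eq: if X(c a) <= tau both sides are 0; otherwise o a z <= W8 by v_supp (optimal measure of J_b: v_opt_J), so k = 1.
v_mm_supp: mm p a <> 0 implies k <> 0, so o a z < 2 W8, and X(c a) > tau; v_supp.
v_mm_le: v_supp: 0 < X(c a) - tau <= psi a.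
v_sm_low: the element a of v_big is in near z (2 W8) and has mm p a >= (1/(4N))^3 = mu r; the other terms are >= 0.
v_x_apply: for a outside near z (2 W8) mm p a = 0.  v_x_tot: v_tot_sum, v_tot_single, sum of mm/sm = 1.
v_x_loc: d a a' <= d a b + d b a' <= 2 r2.
v_fb_norm: finite convex combination of points of the open unit ball (sum of y a |f a| < 1).
v_fb_D: 1-|.|^2 is concave, so 1 - |fb y|^2 >= sum y a (1-|f a|^2) >= y a (1-|f a|^2).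
v_fb_sub: fb y - f b = sum y a (f a - f b) as the total mass is 1.
-/

namespace Pool.HQ

variable {G : Type} [Group G] {M L : ℕ} {Q : VD G M L}

/-- b is a location of p of cost at most A0 -/
structure VD.At (Q : VD G M L) (p : EU L × EU M) (b : G) : Prop where
  z : ‖p.2‖ < 1
  o7 : Q.o b p.2 ≤ Q.W7
  J : Q.J b p.1 ≤ Q.A0

/-- psi is an optimal measure of J_b at p -/
structure VD.OptJ (Q : VD G M L) (p : EU L × EU M) (b : G) (ψ : G →₀ ℝ) : Prop where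
  tot1 : tot ψ = 1
  sup : ∀ a ∈ ψ.support, Q.d a b ≤ Q.rE
  opt : cst (Q.wb b) ψ + Q.E * ‖p.1 - io Q.c ψ‖ = Q.J b p.1

theorem v_at_of_Jp (h : Q.OK) {p : EU L × EU M} (hz : ‖p.2‖ < 1) {b : G} (hb : Q.Jp b p ≤ Q.A0) :
    Q.At p b := by
  have h0 := v10_A0_nonneg h
  exact ⟨hz, v_Jp_near h (by linarith), (v_J_le_Jp h p b).trans hb⟩

theorem v_exists_OptJ (h : Q.OK) (p : EU L × EU M) (b : G) : ∃ ψ, Q.OptJ p b ψ := by
  obtain ⟨ψ, h1, h2, h3⟩ := v_opt_J h b p.1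
  exact ⟨ψ, h1, h2, h3⟩

theorem v_OptJ_Tm (h : Q.OK) {p : EU L × EU M} {b b' : G} (hb : Q.At p b) (hb' : Q.At p b')
    {ψ : G →₀ ℝ} (hψ : Q.OptJ p b' ψ) : Q.Tm p b ψ :=
  v_Tm_J h hb.z hb.o7 hb'.o7 hb'.J hψ.tot1 hψ.sup hψ.opt

theorem v11_W8_pos (h : Q.OK) : 0 < Q.W8 := by
  have h1 := V09_W7 h
  have h2 := (v_num h).W78
  linarith

theorem v_mm_nonneg (Q : VD G M L) (p : EU L × EU M) (a : G) : 0 ≤ Q.mm p a :=
  mul_nonneg (v_k_mem Q Q.W8 p.2 a).1 (pow_nonneg (le_max_left _ _) 3)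

theorem v_mm_eq (h : Q.OK) {p : EU L × EU M} {b : G} (hA : Q.At p b) {a : G}
    (ha : Q.o a p.2 ≤ 2 * Q.W8) : Q.mm p a = max 0 (p.1 (Q.c a) - Q.tau) ^ 3 := by
  unfold VD.mm
  by_cases hX : p.1 (Q.c a) ≤ Q.tau
  · rw [max_eq_left (by linarith)]
    norm_num
  · push Not at hX
    obtain ⟨ψ, hψ⟩ := v_exists_OptJ h p b
    have h1 := v_supp h hA.z hA.o7 hA.J hψ.tot1 hψ.sup hψ.opt ha hX
    rw [v_k_one (v11_W8_pos h) h1.2.1, one_mul]

theorem v11_mm_ne (h : Q.OK) {p : EU L × EU M} {a : G} (ha : Q.mm p a ≠ 0) :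
    Q.o a p.2 ≤ 2 * Q.W8 ∧ Q.tau < p.1 (Q.c a) := by
  constructor
  · by_contra hc
    push Not at hc
    refine ha ?_
    unfold VD.mm
    rw [v_k_zero (v11_W8_pos h) hc.le, zero_mul]
  · by_contra hc
    push Not at hc
    refine ha ?_
    unfold VD.mm
    rw [max_eq_left (by linarith)]
    norm_num

theorem v_mm_supp (h : Q.OK) {p : EU L × EU M} {b : G} (hA : Q.At p b) {a : G}
    (ha : Q.mm p a ≠ 0) : Q.d a b ≤ Q.r2 ∧ Q.o a p.2 ≤ Q.W8 ∧ Q.tau < p.1 (Q.c a) := by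
  obtain ⟨h1, h2⟩ := v11_mm_ne h ha
  obtain ⟨ψ, hψ⟩ := v_exists_OptJ h p b
  have h3 := v_supp h hA.z hA.o7 hA.J hψ.tot1 hψ.sup hψ.opt h1 h2
  exact ⟨h3.1, h3.2.1, h2⟩

theorem v_mm_le (h : Q.OK) {p : EU L × EU M} {b : G} (hA : Q.At p b) {ψ : G →₀ ℝ}
    (hψ : Q.OptJ p b ψ) (a : G) : Q.mm p a ≤ |ψ a| ^ 3 := by
  by_cases ha : Q.mm p a = 0
  · rw [ha]
    positivity
  · obtain ⟨h1, h2⟩ := v11_mm_ne h ha
    have h3 := v_supp h hA.z hA.o7 hA.J hψ.tot1 hψ.sup hψ.opt h1 h2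
    rw [v_mm_eq h hA h1, max_eq_right (by linarith)]
    exact pow_le_pow_left₀ (by linarith) (h3.2.2.trans (le_abs_self _)) 3

theorem v_sm_low (h : Q.OK) {p : EU L × EU M} {b : G} (hA : Q.At p b) {A : ℝ}
    (hJ : Q.J b p.1 ≤ A) (hA0 : A ≤ Q.A0) {r : ℕ} (hr : 4 * A ≤ Q.bt r) (hrm : r ≤ Q.rm) :
    Q.mu r ≤ Q.sm p := by
  obtain ⟨a, h1, h2, h3⟩ := v_big h hA.z hA.o7 hJ hA0 hr hrm
  have h8 := v11_W8_pos h
  have h4 : Q.o a p.2 ≤ 2 * Q.W8 := by linarith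
  have h5 : Q.mm p a ≤ Q.sm p :=
    Finset.single_le_sum (f := fun a => Q.mm p a) (fun i _ => v_mm_nonneg Q p i)
      ((v_mem_near h hA.z).2 h4)
  refine le_trans ?_ h5
  rw [v_mm_eq h hA h4]
  have h6 := v_one_le_nb h r
  have h7 : 0 < 1 / (4 * Q.nb 1 r) := by positivity
  exact pow_le_pow_left₀ h7.le (h2.trans (le_max_right _ _)) 3

theorem v_sm_pos (h : Q.OK) {p : EU L × EU M} {b : G} (hA : Q.At p b) :
    Q.mu Q.rm ≤ Q.sm p ∧ 0 < Q.sm p := by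
  have h1 := v_sm_low h hA hA.J le_rfl h.hrm le_rfl
  exact ⟨h1, (v_mu_pos h Q.rm).1.trans_le h1⟩

theorem v_x_apply (h : Q.OK) {p : EU L × EU M} (hz : ‖p.2‖ < 1) (a : G) :
    Q.x p a = Q.mm p a / Q.sm p := by
  classical
  have h1 : Q.x p a = ∑ b ∈ Q.near p.2 (2 * Q.W8), if b = a then Q.mm p b / Q.sm p else 0 := by
    unfold VD.x
    rw [Finsupp.finsetSum_apply]
    exact Finset.sum_congr rfl fun b _ => Finsupp.single_apply
  rw [h1, Finset.sum_ite_eq']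
  split_ifs with hc
  · rfl
  · have h2 : Q.mm p a = 0 := by
      by_contra hne
      exact hc ((v_mem_near h hz).2 (v11_mm_ne h hne).1)
    rw [h2, zero_div]

theorem v_x_nonneg (h : Q.OK) {p : EU L × EU M} {b : G} (hA : Q.At p b) (a : G) : 0 ≤ Q.x p a := by
  rw [v_x_apply h hA.z]
  exact div_nonneg (v_mm_nonneg Q p a) (v_sm_pos h hA).2.le

theorem v_x_tot (h : Q.OK) {p : EU L × EU M} {b : G} (hA : Q.At p b) : tot (Q.x p) = 1 := by
  unfold VD.x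
  rw [v_tot_sum]
  simp only [v_tot_single]
  rw [← Finset.sum_div]
  exact div_self (v_sm_pos h hA).2.ne'

theorem v_x_supp (h : Q.OK) {p : EU L × EU M} {b : G} (hA : Q.At p b) {a : G}
    (ha : a ∈ (Q.x p).support) : Q.d a b ≤ Q.r2 ∧ Q.o a p.2 ≤ Q.W8 ∧ Q.tau < p.1 (Q.c a) := by
  rw [Finsupp.mem_support_iff, v_x_apply h hA.z] at ha
  refine v_mm_supp h hA fun hc => ha ?_
  rw [hc, zero_div]

theorem v_x_loc (h : Q.OK) {p : EU L × EU M} {b : G} (hA : Q.At p b) :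
    Q.x p ∈ Loc Q.d (2 * Q.r2) := by
  refine ⟨v_x_nonneg h hA, fun a ha a' ha' =>
    v10_d_le h (v_x_supp h hA ha).1 (v_x_supp h hA ha').1, ?_⟩
  rw [← v_tot_eq (Q.x p) _ subset_rfl]
  exact v_x_tot h hA

theorem v11_f_sq (h : Q.OK) (a : G) : 0 < 1 - ‖Q.f a‖ ^ 2 := by
  have h1 := h.ball a
  have h2 := norm_nonneg (Q.f a)
  nlinarith

theorem v11_fb_D (h : Q.OK) {y : G →₀ ℝ} (h0 : ∀ a, 0 ≤ y a) (h1 : tot y = 1) (a : G) :
    y a * (1 - ‖Q.f a‖ ^ 2) ≤ 1 - ‖Q.fb y‖ ^ 2 := by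
  rw [v_tot_eq y y.support subset_rfl] at h1
  have h2 : ‖Q.fb y‖ ^ 2 ≤ ∑ b ∈ y.support, y b * ‖Q.f b‖ ^ 2 := by
    have h3 := (convexOn_univ_norm (E := EU M)).pow (fun _ _ => norm_nonneg _) 2
    have h4 := h3.map_sum_le (t := y.support) (w := fun b => y b) (p := fun b => Q.f b)
      (fun i _ => h0 i) h1 (fun _ _ => Set.mem_univ _)
    simpa [VD.fb, Finsupp.sum] using h4
  have h3 : ∑ b ∈ y.support, y b * (1 - ‖Q.f b‖ ^ 2) =
      ∑ b ∈ y.support, y b - ∑ b ∈ y.support, y b * ‖Q.f b‖ ^ 2 := by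
    rw [← Finset.sum_sub_distrib]
    refine Finset.sum_congr rfl fun b _ => ?_
    ring
  rw [h1] at h3
  have h5 : ∀ b ∈ y.support, 0 ≤ y b * (1 - ‖Q.f b‖ ^ 2) := fun b _ =>
    mul_nonneg (h0 b) (v11_f_sq h b).le
  by_cases ha : a ∈ y.support
  · have h4 := Finset.single_le_sum h5 ha
    linarith
  · rw [Finsupp.notMem_support_iff.1 ha, zero_mul]
    have h4 := Finset.sum_nonneg h5
    linarith

theorem v_fb_norm (h : Q.OK) {y : G →₀ ℝ} (h0 : ∀ a, 0 ≤ y a) (h1 : tot y = 1) : ‖Q.fb y‖ < 1 := by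
  have h2 : ∃ a, 0 < y a := by
    by_contra hc
    push Not at hc
    rw [v_tot_eq y y.support subset_rfl] at h1
    have h3 : ∑ a ∈ y.support, y a ≤ 0 := Finset.sum_nonpos fun a _ => hc a
    linarith
  obtain ⟨a, ha⟩ := h2
  have h3 := v11_fb_D h h0 h1 a
  have h4 := mul_pos ha (v11_f_sq h a)
  have h5 := norm_nonneg (Q.fb y)
  nlinarith

theorem v_fb_D (h : Q.OK) {y : G →₀ ℝ} (h0 : ∀ a, 0 ≤ y a) (h1 : tot y = 1) (a : G) :
    y a * (1 - ‖Q.f a‖ ^ 2) ≤ 1 - ‖Q.fb y‖ ^ 2 :=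
  v11_fb_D h h0 h1 a

theorem v_fb_sub (Q : VD G M L) {y : G →₀ ℝ} (h1 : tot y = 1) (b : G) :
    ‖Q.fb y - Q.f b‖ ≤ ∑ a ∈ y.support, |y a| * ‖Q.f a - Q.f b‖ := by
  rw [v_tot_eq y y.support subset_rfl] at h1
  have h2 : Q.fb y - Q.f b = ∑ a ∈ y.support, y a • (Q.f a - Q.f b) := by
    have h3 : Q.f b = (∑ a ∈ y.support, y a) • Q.f b := by rw [h1, one_smul]
    have h4 : ∑ a ∈ y.support, y a • (Q.f a - Q.f b) =
        ∑ a ∈ y.support, y a • Q.f a - (∑ a ∈ y.support, y a) • Q.f b := by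
      rw [Finset.sum_smul, ← Finset.sum_sub_distrib]
      exact Finset.sum_congr rfl fun a _ => smul_sub _ _ _
    rw [h4, ← h3]
    rfl
  rw [h2]
  refine (norm_sum_le _ _).trans (Finset.sum_le_sum fun a _ => ?_)
  rw [norm_smul, Real.norm_eq_abs]

end Pool.HQ
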