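import Pool.Agent.HQ.V11

/-!
MODULE V12 (MP_7936f4_al, part III): fhat(p) is close to f b for every location b of p.

v_Kh.  psi optimal for J_b (v_exists_OptJ), y = x p, D_b = 1-|f b|^2.
 (1) |fh p - f b| <= sum y a |f a - f b| (v_fb_sub), |f a - f b| <= 2 om(f a,f b)^2 D_b (v_dist_le) <= 2 K^2 (wb b a)^2 D_b.
     y a = mm p a/sm p, mm p a <= |psi a|^3 (v_mm_le), |psi a| wb b a <= cst <= J b X <= A, so mm (wb)^2 <= A^2 |psi a| and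
     sum |psi a| <= cst <= A: |fh p - f b| <= 2 K^2 D_b A^3/sm p <= 2 K^2 A^3/mu r * D_b.
 (2) a1 from v_big: mm p a1 >= mu r, sm p <= sum |psi a|^3 <= A^3, so y a1 >= mu r/A^3; D(f a1) >= D_b/(4 om^2) >=
     D_b/(4 K^2 bt r^2) (v_D_ratio, wb b a1 <= bt r); 1-|fh p|^2 >= y a1 D(f a1) (v_fb_D).
 (3) om^2 = 1 + |f b - fh|^2/(D_b D(fh)) <= 1 + (2K^2A^3/mu)^2 (A^3/mu)(4K^2 bt r^2).
v_Khm: A = A0, r = rm.  v_o_fh: v_om_tri through f b.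
v_W: o b z <= 2 om(f b,fh) om(fh,z) <= 2.2 Khm W5 and 6 K bt r0 Khm W5 <= W6.
v_W_near: o m z <= 2 K wb b m o b z (v_o_le with a = m), wb b m = bt(d m b) <= bt r0.
-/

namespace Pool.HQ

variable {G : Type} [Group G] {M L : ℕ} {Q : VD G M L}

theorem v12_wb_nonneg (h : Q.OK) (b a : G) : 0 ≤ Q.wb b a :=
  zero_le_one.trans (v_one_le_wb h b a)

theorem v_fh_norm (h : Q.OK) {p : EU L × EU M} {b : G} (hA : Q.At p b) : ‖Q.fh p‖ < 1 := by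
  exact v_fb_norm h (v_x_nonneg h hA) (v_x_tot h hA)

theorem v12_om_fa (h : Q.OK) (a b : G) : om (Q.f a) (Q.f b) ^ 2 ≤ (Q.K * Q.wb b a) ^ 2 :=
  pow_le_pow_left₀ (zero_le_one.trans (one_le_om (h.ball a) (h.ball b))) (h.up a b) 2

theorem v12_D_pos (h : Q.OK) (a : G) : 0 < 1 - ‖Q.f a‖ ^ 2 := Dz_pos (h.ball a)

/-- the sum of |psi a| is at most the cost -/
theorem v12_sum (h : Q.OK) (b : G) (ψ : G →₀ ℝ) (S : Finset G) :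
    ∑ a ∈ S, |ψ a| ≤ cst (Q.wb b) ψ := by
  classical
  rw [v_cst_eq (Q.wb b) ψ (ψ.support ∪ S) Finset.subset_union_left]
  refine le_trans (Finset.sum_le_sum fun a _ => ?_)
    (Finset.sum_le_sum_of_subset_of_nonneg Finset.subset_union_right fun i _ _ => ?_)
  · exact le_mul_of_one_le_left (abs_nonneg _) (v_one_le_wb h b a)
  · exact mul_nonneg (v12_wb_nonneg h b i) (abs_nonneg _)

/-- (1) -/
theorem v12_one (h : Q.OK) {p : EU L × EU M} {b : G} (hb : Q.At p b) {A : ℝ} (hJ : Q.J b p.1 ≤ A)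
    {m : ℝ} (hm0 : 0 < m) (hm : m ≤ Q.sm p) :
    ‖Q.fh p - Q.f b‖ ≤ 2 * Q.K ^ 2 * A ^ 3 / m * (1 - ‖Q.f b‖ ^ 2) := by
  obtain ⟨ψ, hψ⟩ := v_exists_OptJ h p b
  have hE : 0 ≤ Q.E := zero_le_one.trans h.E1
  have hcA : cst (Q.wb b) ψ ≤ A := by
    have h1 : 0 ≤ Q.E * ‖p.1 - io Q.c ψ‖ := mul_nonneg hE (norm_nonneg _)
    have h2 := hψ.opt
    linarith
  have hA0 : 0 ≤ A := (v_cst_nonneg (v12_wb_nonneg h b) ψ).trans hcA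
  have hs : 0 < Q.sm p := lt_of_lt_of_le hm0 hm
  have hD := v12_D_pos h b
  refine (v_fb_sub Q (v_x_tot h hb) b).trans ?_
  have key : ∀ a, |Q.x p a| * ‖Q.f a - Q.f b‖ ≤
      2 * Q.K ^ 2 * A ^ 2 * (1 - ‖Q.f b‖ ^ 2) / Q.sm p * |ψ a| := by
    intro a
    have h1 : |Q.x p a| = Q.mm p a / Q.sm p := by
      rw [v_x_apply h hb.z, abs_of_nonneg (div_nonneg (v_mm_nonneg Q p a) hs.le)]
    have h2 : ‖Q.f a - Q.f b‖ ≤ 2 * (Q.K * Q.wb b a) ^ 2 * (1 - ‖Q.f b‖ ^ 2) := by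
      refine (v_dist_le (h.ball a) (h.ball b)).trans ?_
      have := v12_om_fa h a b
      exact mul_le_mul_of_nonneg_right (by linarith) hD.le
    have h3 := v_mm_le h hb hψ a
    have h4 : Q.wb b a * |ψ a| ≤ A := (v10_term h b ψ a).trans hcA
    have h5 : 0 ≤ Q.wb b a * |ψ a| := mul_nonneg (v12_wb_nonneg h b a) (abs_nonneg _)
    have h6 : (Q.wb b a * |ψ a|) ^ 2 ≤ A ^ 2 := pow_le_pow_left₀ h5 h4 2
    have h7 : Q.mm p a * Q.wb b a ^ 2 ≤ A ^ 2 * |ψ a| := by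
      calc Q.mm p a * Q.wb b a ^ 2 ≤ |ψ a| ^ 3 * Q.wb b a ^ 2 :=
            mul_le_mul_of_nonneg_right h3 (sq_nonneg _)
        _ = (Q.wb b a * |ψ a|) ^ 2 * |ψ a| := by ring
        _ ≤ A ^ 2 * |ψ a| := mul_le_mul_of_nonneg_right h6 (abs_nonneg _)
    rw [h1]
    calc Q.mm p a / Q.sm p * ‖Q.f a - Q.f b‖
        ≤ Q.mm p a / Q.sm p * (2 * (Q.K * Q.wb b a) ^ 2 * (1 - ‖Q.f b‖ ^ 2)) :=
          mul_le_mul_of_nonneg_left h2 (div_nonneg (v_mm_nonneg Q p a) hs.le)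
      _ = 2 * Q.K ^ 2 * (1 - ‖Q.f b‖ ^ 2) / Q.sm p * (Q.mm p a * Q.wb b a ^ 2) := by
          ring
      _ ≤ 2 * Q.K ^ 2 * (1 - ‖Q.f b‖ ^ 2) / Q.sm p * (A ^ 2 * |ψ a|) := by
          refine mul_le_mul_of_nonneg_left h7 ?_
          have := sq_nonneg Q.K
          positivity
      _ = _ := by ring
  refine (Finset.sum_le_sum fun a _ => key a).trans ?_
  rw [← Finset.mul_sum]
  have h8 : ∑ a ∈ (Q.x p).support, |ψ a| ≤ A := (v12_sum h b ψ _).trans hcA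
  have h9 : 0 ≤ 2 * Q.K ^ 2 * A ^ 2 * (1 - ‖Q.f b‖ ^ 2) := by positivity
  calc 2 * Q.K ^ 2 * A ^ 2 * (1 - ‖Q.f b‖ ^ 2) / Q.sm p * ∑ a ∈ (Q.x p).support, |ψ a|
      ≤ 2 * Q.K ^ 2 * A ^ 2 * (1 - ‖Q.f b‖ ^ 2) / Q.sm p * A :=
        mul_le_mul_of_nonneg_left h8 (div_nonneg h9 hs.le)
    _ ≤ 2 * Q.K ^ 2 * A ^ 2 * (1 - ‖Q.f b‖ ^ 2) / m * A := by
        refine mul_le_mul_of_nonneg_right ?_ hA0
        exact div_le_div_of_nonneg_left h9 hm0 hm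
    _ = _ := by ring

/-- (2) -/
theorem v12_two (h : Q.OK) {p : EU L × EU M} {b : G} (hb : Q.At p b) {A : ℝ} (hJ : Q.J b p.1 ≤ A)
    (hA0 : A ≤ Q.A0) {r : ℕ} (hr : 4 * A ≤ Q.bt r) (hrm : r ≤ Q.rm) :
    1 - ‖Q.f b‖ ^ 2 ≤ A ^ 3 / Q.mu r * (4 * Q.K ^ 2 * Q.bt r ^ 2) * (1 - ‖Q.fh p‖ ^ 2) := by
  obtain ⟨ψ, hψ⟩ := v_exists_OptJ h p b
  have hE : 0 ≤ Q.E := zero_le_one.trans h.E1
  have hcA : cst (Q.wb b) ψ ≤ A := by
    have h1 : 0 ≤ Q.E * ‖p.1 - io Q.c ψ‖ := mul_nonneg hE (norm_nonneg _)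
    have h2 := hψ.opt
    linarith
  have hA : 0 ≤ A := (v_cst_nonneg (v12_wb_nonneg h b) ψ).trans hcA
  obtain ⟨hmu, hmu1⟩ := v_mu_pos h r
  have hsm := v_sm_low h hb hJ hA0 hr hrm
  have hs : 0 < Q.sm p := lt_of_lt_of_le hmu hsm
  obtain ⟨a, ha1, ha2, ha3⟩ := v_big h hb.z hb.o7 hJ hA0 hr hrm
  have hnb := v_one_le_nb h r
  have hW8 : 0 < Q.W8 := by
    have := v_one_le_o h a hb.z
    linarith
  -- the mass at a
  have h1 : Q.mu r ≤ Q.mm p a := by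
    rw [v_mm_eq h hb (by linarith)]
    unfold VD.mu
    refine pow_le_pow_left₀ (by positivity) ?_ 3
    exact ha2.trans (le_max_right _ _)
  -- upper bound for sm
  have h2 : Q.sm p ≤ A ^ 3 := by
    unfold VD.sm
    have h3 : ∀ x, |ψ x| ≤ A := fun x => by
      have h4 := (v10_term h b ψ x).trans hcA
      have h5 : |ψ x| ≤ Q.wb b x * |ψ x| :=
        le_mul_of_one_le_left (abs_nonneg _) (v_one_le_wb h b x)
      linarith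
    have h4 : ∀ x ∈ Q.near p.2 (2 * Q.W8), Q.mm p x ≤ A ^ 2 * |ψ x| := fun x _ => by
      refine (v_mm_le h hb hψ x).trans ?_
      have h5 : |ψ x| ^ 2 ≤ A ^ 2 := pow_le_pow_left₀ (abs_nonneg _) (h3 x) 2
      calc |ψ x| ^ 3 = |ψ x| ^ 2 * |ψ x| := by ring
        _ ≤ A ^ 2 * |ψ x| := mul_le_mul_of_nonneg_right h5 (abs_nonneg _)
    refine (Finset.sum_le_sum h4).trans ?_
    rw [← Finset.mul_sum]
    have h6 := (v12_sum h b ψ (Q.near p.2 (2 * Q.W8))).trans hcA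
    calc A ^ 2 * ∑ x ∈ Q.near p.2 (2 * Q.W8), |ψ x| ≤ A ^ 2 * A :=
          mul_le_mul_of_nonneg_left h6 (sq_nonneg _)
      _ = A ^ 3 := by ring
  have hA3 : 0 < A ^ 3 := lt_of_lt_of_le hs h2
  have h3 : Q.mu r / A ^ 3 ≤ Q.x p a := by
    rw [v_x_apply h hb.z]
    exact div_le_div₀ (v_mm_nonneg Q p a) h1 hs h2
  have h4 := v_fb_D h (v_x_nonneg h hb) (v_x_tot h hb) a
  have hDa := v12_D_pos h a
  have h5 : Q.mu r / A ^ 3 * (1 - ‖Q.f a‖ ^ 2) ≤ 1 - ‖Q.fh p‖ ^ 2 :=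
    (mul_le_mul_of_nonneg_right h3 hDa.le).trans h4
  have h6 : 1 - ‖Q.f a‖ ^ 2 ≤ A ^ 3 / Q.mu r * (1 - ‖Q.fh p‖ ^ 2) := by
    have h7 := mul_le_mul_of_nonneg_left h5 (div_nonneg hA3.le hmu.le)
    have h8 : A ^ 3 / Q.mu r * (Q.mu r / A ^ 3 * (1 - ‖Q.f a‖ ^ 2)) = 1 - ‖Q.f a‖ ^ 2 := by
      have hA3' := hA3.ne'
      have hmu' := hmu.ne'
      rw [← mul_assoc, div_mul_div_cancel₀ hmu', div_self hA3', one_mul]
    rw [h8] at h7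
    exact h7
  have h7 := v_D_ratio (h.ball b) (h.ball a)
  have h8 : om (Q.f b) (Q.f a) ^ 2 ≤ (Q.K * Q.bt r) ^ 2 := by
    rw [om_symm]
    refine (v12_om_fa h a b).trans ?_
    refine pow_le_pow_left₀ (mul_nonneg (by linarith [h.K1]) (v12_wb_nonneg h b a)) ?_ 2
    refine mul_le_mul_of_nonneg_left ?_ (by linarith [h.K1])
    rw [v_wb_eq]
    exact (v_bt_le_iff h).2 ha1
  calc 1 - ‖Q.f b‖ ^ 2 ≤ 4 * om (Q.f b) (Q.f a) ^ 2 * (1 - ‖Q.f a‖ ^ 2) := h7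
    _ ≤ 4 * (Q.K * Q.bt r) ^ 2 * (1 - ‖Q.f a‖ ^ 2) :=
        mul_le_mul_of_nonneg_right (by linarith) hDa.le
    _ ≤ 4 * (Q.K * Q.bt r) ^ 2 * (A ^ 3 / Q.mu r * (1 - ‖Q.fh p‖ ^ 2)) :=
        mul_le_mul_of_nonneg_left h6 (by positivity)
    _ = _ := by ring

theorem v_Kh (h : Q.OK) {p : EU L × EU M} {b : G} (hb : Q.At p b) {A : ℝ} (hJ : Q.J b p.1 ≤ A)
    (h1 : 1 ≤ A) (hA0 : A ≤ Q.A0) {r : ℕ} (hr : 4 * A ≤ Q.bt r) (hrm : r ≤ Q.rm) :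
    om (Q.f b) (Q.fh p) ≤ Q.Kh A r := by
  obtain ⟨hmu, hmu1⟩ := v_mu_pos h r
  have hsm := v_sm_low h hb hJ hA0 hr hrm
  have e1 := v12_one h hb hJ hmu hsm
  have e2 := v12_two h hb hJ hA0 hr hrm
  have hfh := v_fh_norm h hb
  have hDb := v12_D_pos h b
  have hDh : 0 < 1 - ‖Q.fh p‖ ^ 2 := Dz_pos hfh
  unfold om VD.Kh
  refine Real.sqrt_le_sqrt ?_
  have hK := h.K1
  have hbt := v_bt_pos Q r
  set C1 : ℝ := 2 * Q.K ^ 2 * A ^ 3 / Q.mu r with hC1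
  set C2 : ℝ := A ^ 3 / Q.mu r * (4 * Q.K ^ 2 * Q.bt r ^ 2) with hC2
  have hC10 : 0 ≤ C1 := by positivity
  have hC20 : 0 ≤ C2 := by positivity
  have e3 : qd (Q.f b) (Q.fh p) ≤ C1 ^ 2 * C2 := by
    unfold qd
    rw [div_le_iff₀ (mul_pos hDb hDh)]
    have e4 : ‖Q.f b - Q.fh p‖ ^ 2 ≤ (C1 * (1 - ‖Q.f b‖ ^ 2)) ^ 2 := by
      rw [norm_sub_rev]
      exact pow_le_pow_left₀ (norm_nonneg _) e1 2
    calc ‖Q.f b - Q.fh p‖ ^ 2 ≤ (C1 * (1 - ‖Q.f b‖ ^ 2)) ^ 2 := e4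
      _ = C1 ^ 2 * (1 - ‖Q.f b‖ ^ 2) * (1 - ‖Q.f b‖ ^ 2) := by ring
      _ ≤ C1 ^ 2 * (1 - ‖Q.f b‖ ^ 2) * (C2 * (1 - ‖Q.fh p‖ ^ 2)) :=
          mul_le_mul_of_nonneg_left e2 (by positivity)
      _ = C1 ^ 2 * C2 * ((1 - ‖Q.f b‖ ^ 2) * (1 - ‖Q.fh p‖ ^ 2)) := by ring
  have e5 : C1 ^ 2 * C2 =
      C1 ^ 2 * (A ^ 3 / Q.mu r) * (4 * Q.K ^ 2 * Q.bt r ^ 2) := by
    rw [hC2]
    ring
  linarith

theorem v_Khm (h : Q.OK) {p : EU L × EU M} {b : G} (hb : Q.At p b) :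
    om (Q.f b) (Q.fh p) ≤ Q.Khm := by
  have hn := v_num h
  exact v_Kh h hb hb.J (by linarith [hn.A0_eq, hn.C1_ge]) le_rfl h.hrm le_rfl

theorem v_o_fh (h : Q.OK) {p : EU L × EU M} {b : G} (hb : Q.At p b) {t : ℝ}
    (ht : om (Q.f b) (Q.fh p) ≤ t) (a : G) : om (Q.f a) (Q.fh p) ≤ 2 * Q.K * Q.wb b a * t := by
  have hfh := v_fh_norm h hb
  have h1 := v_om_tri (h.ball a) (h.ball b) hfh
  have h2 := h.up a b
  have h3 := one_le_om (h.ball b) hfh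
  have h4 := one_le_om (h.ball a) (h.ball b)
  have h5 : om (Q.f a) (Q.f b) * om (Q.f b) (Q.fh p) ≤ (Q.K * Q.wb b a) * t :=
    mul_le_mul h2 ht (by linarith) (by linarith)
  calc om (Q.f a) (Q.fh p) ≤ 2 * om (Q.f a) (Q.f b) * om (Q.f b) (Q.fh p) := h1
    _ = 2 * (om (Q.f a) (Q.f b) * om (Q.f b) (Q.fh p)) := by ring
    _ ≤ 2 * ((Q.K * Q.wb b a) * t) := by linarith
    _ = _ := by ring

theorem v_W (h : Q.OK) {p : EU L × EU M} {b : G} (hb : Q.At p b)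
    (hW : om (Q.fh p) p.2 ≤ 1.1 * Q.W5) : 2 * Q.K * Q.bt Q.r0 * Q.o b p.2 ≤ Q.W6 := by
  have hfh := v_fh_norm h hb
  have h1 := v_om_tri (h.ball b) hfh hb.z
  have h2 := v_Khm h hb
  have h3 := one_le_om (h.ball b) hfh
  have h4 := one_le_om hfh hb.z
  have hW5 : 0 < Q.W5 := by linarith [h.W5a]
  have h5 : om (Q.f b) (Q.fh p) * om (Q.fh p) p.2 ≤ Q.Khm * (1.1 * Q.W5) :=
    mul_le_mul h2 hW (by linarith) (by linarith)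
  have h6 : Q.o b p.2 ≤ 2.2 * (Q.Khm * Q.W5) := by
    unfold VD.o
    calc om (Q.f b) p.2 ≤ 2 * om (Q.f b) (Q.fh p) * om (Q.fh p) p.2 := h1
      _ = 2 * (om (Q.f b) (Q.fh p) * om (Q.fh p) p.2) := by ring
      _ ≤ 2 * (Q.Khm * (1.1 * Q.W5)) := by linarith
      _ = _ := by ring
  have hK := h.K1
  have hbt := v_bt_pos Q Q.r0
  have h7 := h.hW6
  have h8 : 0 ≤ Q.K * Q.bt Q.r0 * Q.Khm * Q.W5 := by
    have := (v_num h).Khm_ge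
    positivity
  calc 2 * Q.K * Q.bt Q.r0 * Q.o b p.2 ≤ 2 * Q.K * Q.bt Q.r0 * (2.2 * (Q.Khm * Q.W5)) :=
        mul_le_mul_of_nonneg_left h6 (by positivity)
    _ = 4.4 * (Q.K * Q.bt Q.r0 * Q.Khm * Q.W5) := by ring
    _ ≤ 6 * (Q.K * Q.bt Q.r0 * Q.Khm * Q.W5) := by linarith
    _ ≤ Q.W6 := by linarith

theorem v_W_near (h : Q.OK) {p : EU L × EU M} {b : G} (hb : Q.At p b)
    (hW : om (Q.fh p) p.2 ≤ 1.1 * Q.W5) {m : G} (hm : Q.d m b ≤ Q.r0) :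
    Q.o m p.2 ≤ Q.W6 ∧ Q.Jp m p = Q.J m p.1 := by
  have h1 := v_o_le h m b hb.z
  have h2 : Q.wb b m ≤ Q.bt Q.r0 := by
    rw [v_wb_eq]
    exact (v_bt_le_iff h).2 hm
  have h3 := v_W h hb hW
  have h4 := v_one_le_o h b hb.z
  have hK := h.K1
  have h5 : Q.o m p.2 ≤ Q.W6 := by
    refine h1.trans (le_trans ?_ h3)
    refine mul_le_mul_of_nonneg_right ?_ (by linarith)
    exact mul_le_mul_of_nonneg_left h2 (by linarith)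
  refine ⟨h5, ?_⟩
  unfold VD.Jp
  rw [max_eq_left (by linarith), add_zero]

theorem v_Jp_eq (h : Q.OK) {p : EU L × EU M} {b : G} (hb : Q.At p b)
    (hW : om (Q.fh p) p.2 ≤ 1.1 * Q.W5) : Q.Jp b p = Q.J b p.1 := by
  refine (v_W_near h hb hW ?_).2
  rw [h.hd.self]
  exact Nat.zero_le _

end Pool.HQ
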