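import Pool.Agent.HQ.V11

/-!
MODULE V13 (MP_7936f4_al, part III): the truncated target qA.

b a location of p (At), z = p.2, k_a = k Wc z a, X = p.1.
v_uA_apply: for a outside near z (2 Wc) k_a = 0.  v_qA_tot: tot x = 1.
v_k_near: k_a <> 0 implies o a z < 2 Wc, v_dc.  v_k_far: k_a <> 1 implies o a z > Wc, v_far.
v_tail: on the support of 1-k: 1 <= (L1/Wc) wb b a (v_k_far); cst (wb b) psi <= A1.
v_trunc: cst w uA = sum k_a w a |X(c a)| <= sum k_a w a |psi a| + sum_(a in bl b rc) w a |X(c a) - psi a| and w a <= Lw bt rc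
 there; v_X_sum: second term <= Lw bt rc sqrt(N) A1/E.  |1 - tot uA| = |tot psi - tot uA| <= sum (1-k_a)|psi a| +
 sum_(bl b rc) |X(c a) - psi a| <= A1 L1/Wc + sqrt N A1/E.  cst w (x p) <= Lw bt r2 (v_x_supp, v_cst_prob).
 Total error <= Lw (bt rc sqrt N A1/E + bt r2 (A1 L1/Wc + sqrt N A1/E)) <= Lw eps by hWc (bt r2 A1 L1/Wc <= eps/2) and
 hE (bt rc bt r2 sqrt N A1/E <= eps/8; bt >= 1).
v_near2: sum k_a w a (|psi a| - |phi a|) <= sum_(bl b rc) w a |psi a - phi a| <= Lw bt rc sqrt N 2 A1/E (v_diff) <= Lw eps.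
v_TA_near: X - io qA = (X - io psi) + io (psi - qA), psi = optimal measure of J_b; |X - io psi| <= A1/E <= eps/8, and
 sum_a |psi a - qA a| <= sum (1-k_a)|psi a| + sum_(bl b rc)|X(c a)-psi a| + |1 - tot uA| <= 2 (A1 L1/Wc + sqrt N A1/E) <= 5/4 eps.
-/

namespace Pool.HQ

variable {G : Type} [Group G] {M L : ℕ} {Q : VD G M L}

theorem v13_Wc_pos (h : Q.OK) : 0 < Q.Wc := by
  have h1 := (v_num h).Wc_W7
  have h2 := V09_W7 h
  linarith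

theorem v13_L1_pos (h : Q.OK) : 0 < Q.L1 := by
  have h2 := V09_L1 h
  linarith

theorem v13_A1_nonneg (h : Q.OK) : 0 ≤ Q.A1 :=
  (v10_A0_nonneg h).trans (v10_A0_A1 h)

theorem v_uA_apply (h : Q.OK) {p : EU L × EU M} (hz : ‖p.2‖ < 1) (a : G) :
    Q.uA p a = Q.k Q.Wc p.2 a * p.1 (Q.c a) := by
  classical
  unfold VD.uA
  rw [Finsupp.finsetSum_apply]
  simp only [Finsupp.single_apply]
  rw [Finset.sum_ite_eq']
  split_ifs with ha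
  · rfl
  · rw [v_mem_near h hz, not_le] at ha
    rw [v_k_zero (v13_Wc_pos h) ha.le, zero_mul]

theorem v_qA_tot (h : Q.OK) {p : EU L × EU M} {b : G} (hA : Q.At p b) : tot (Q.qA p) = 1 := by
  unfold VD.qA
  rw [v_tot_add, v_tot_smul, v_x_tot h hA]
  ring

theorem v_kc_near (h : Q.OK) {p : EU L × EU M} {b : G} (hA : Q.At p b) {a : G}
    (hk : Q.k Q.Wc p.2 a ≠ 0) : Q.d a b ≤ Q.rc := by
  refine v_dc h hA.z hA.o7 ?_
  by_contra hc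
  rw [not_le] at hc
  exact hk (v_k_zero (v13_Wc_pos h) hc.le)

theorem v_kc_far (h : Q.OK) {p : EU L × EU M} {b : G} (hA : Q.At p b) {a : G}
    (hk : Q.k Q.Wc p.2 a ≠ 1) : Q.Wc / Q.L1 ≤ Q.wb b a := by
  refine v_far h hA.z hA.o7 ?_
  by_contra hc
  rw [not_le] at hc
  exact hk (v_k_one (v13_Wc_pos h) hc.le)

theorem v_tail (h : Q.OK) {p : EU L × EU M} {b : G} (hA : Q.At p b) {ψ : G →₀ ℝ}
    (hψ : cst (Q.wb b) ψ ≤ Q.A1) :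
    cst (fun a => 1 - Q.k Q.Wc p.2 a) ψ ≤ Q.A1 * Q.L1 / Q.Wc := by
  have hW := v13_Wc_pos h
  have hL := v13_L1_pos h
  have h1 : cst (fun a => 1 - Q.k Q.Wc p.2 a) ψ ≤ cst (fun a => Q.L1 / Q.Wc * Q.wb b a) ψ := by
    refine v_cst_mono ψ fun a _ => ?_
    have hw := v_one_le_wb h b a
    by_cases hk : Q.k Q.Wc p.2 a = 1
    · rw [hk, sub_self]
      positivity
    · have h2 := v_kc_far h hA hk
      have h3 := (v_k_mem Q Q.Wc p.2 a).1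
      rw [div_le_iff₀ hL] at h2
      have h4 : 1 ≤ Q.L1 / Q.Wc * Q.wb b a := by
        rw [div_mul_eq_mul_div, le_div_iff₀ hW]
        linarith
      linarith
  refine h1.trans ?_
  rw [v_cst_mul]
  have h5 : Q.L1 / Q.Wc * cst (Q.wb b) ψ ≤ Q.L1 / Q.Wc * Q.A1 :=
    mul_le_mul_of_nonneg_left hψ (by positivity)
  refine h5.trans (le_of_eq ?_)
  ring

/-- the cost for a weight with the factor k only sees the ball of radius rc -/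
theorem v13_cst_k (h : Q.OK) {p : EU L × EU M} {b : G} (hA : Q.At p b) (w : G → ℝ) (ψ : G →₀ ℝ) :
    cst (fun a => Q.k Q.Wc p.2 a * w a) ψ =
      ∑ a ∈ Q.bl b Q.rc, Q.k Q.Wc p.2 a * w a * |ψ a| := by
  classical
  rw [v_cst_eq _ ψ (ψ.support ∪ Q.bl b Q.rc) Finset.subset_union_left]
  symm
  refine Finset.sum_subset Finset.subset_union_right fun a _ ha => ?_
  rw [v_mem_bl h] at ha
  have : Q.k Q.Wc p.2 a = 0 := by
    by_contra hk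
    exact ha (v_kc_near h hA hk)
  rw [this]
  ring

theorem v13_wle (h : Q.OK) {b : G} {w : G → ℝ} {Lw : ℝ} (hw : ∀ a, w a ≤ Lw * Q.wb b a)
    (hL : 0 ≤ Lw) {a : G} {r : ℕ} (ha : Q.d a b ≤ r) : w a ≤ Lw * Q.bt r := by
  refine (hw a).trans (mul_le_mul_of_nonneg_left ?_ hL)
  rw [v_wb_eq]
  exact (v_bt_le_iff h).2 ha

/-- the three numerical errors -/
theorem v13_num (h : Q.OK) :
    Q.bt Q.rc * (Real.sqrt (Q.nb 1 Q.rc) * (Q.A1 / Q.E)) ≤ Q.eps / 8 ∧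
      Q.bt Q.r2 * (Real.sqrt (Q.nb 1 Q.rc) * (Q.A1 / Q.E)) ≤ Q.eps / 8 ∧
      Real.sqrt (Q.nb 1 Q.rc) * (Q.A1 / Q.E) ≤ Q.eps / 8 ∧
      Q.A1 / Q.E ≤ Q.eps / 8 ∧
      Q.bt Q.r2 * (Q.A1 * Q.L1 / Q.Wc) ≤ Q.eps / 2 ∧
      Q.A1 * Q.L1 / Q.Wc ≤ Q.eps / 2 := by
  have hE := v10_E_pos h
  have hW := v13_Wc_pos h
  have hA1 := v13_A1_nonneg h
  have hL := v13_L1_pos h
  have b1 := v_one_le_bt h Q.rc
  have b2 := v_one_le_bt h Q.r2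
  have hN : 1 ≤ Real.sqrt (Q.nb 1 Q.rc) := by
    rw [Real.one_le_sqrt]
    exact v_one_le_nb h _
  set s := Real.sqrt (Q.nb 1 Q.rc) * (Q.A1 / Q.E) with hs
  have hq : 0 ≤ Q.A1 / Q.E := by positivity
  have hs0 : 0 ≤ s := by positivity
  have h1 : Q.bt Q.rc * Q.bt Q.r2 * s ≤ Q.eps / 8 := by
    have h2 := h.hE
    have h3 : Q.bt Q.rc * Q.bt Q.r2 * s =
        (8 * Q.bt Q.rc * Q.bt Q.r2 * Real.sqrt (Q.nb 1 Q.rc) * Q.A1) / Q.E / 8 := by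
      rw [hs]; ring
    rw [h3]
    have h4 : (8 * Q.bt Q.rc * Q.bt Q.r2 * Real.sqrt (Q.nb 1 Q.rc) * Q.A1) / Q.E ≤ Q.eps := by
      rw [div_le_iff₀ hE]; exact h2
    linarith
  have h5 : Q.bt Q.rc * s ≤ Q.eps / 8 := by
    have : Q.bt Q.rc * s ≤ Q.bt Q.rc * Q.bt Q.r2 * s := by
      have e : Q.bt Q.rc * Q.bt Q.r2 * s = (Q.bt Q.rc * s) * Q.bt Q.r2 := by ring
      rw [e]
      exact le_mul_of_one_le_right (by positivity) b2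
    linarith
  have h6 : Q.bt Q.r2 * s ≤ Q.eps / 8 := by
    have : Q.bt Q.r2 * s ≤ Q.bt Q.rc * Q.bt Q.r2 * s := by
      have e : Q.bt Q.rc * Q.bt Q.r2 * s = (Q.bt Q.r2 * s) * Q.bt Q.rc := by ring
      rw [e]
      exact le_mul_of_one_le_right (by positivity) b1
    linarith
  have h7 : s ≤ Q.eps / 8 := by
    have : s ≤ Q.bt Q.r2 * s := le_mul_of_one_le_left hs0 b2
    linarith
  have h8 : Q.A1 / Q.E ≤ Q.eps / 8 := by
    have : Q.A1 / Q.E ≤ s := le_mul_of_one_le_left hq hN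
    linarith
  have h9 : Q.bt Q.r2 * (Q.A1 * Q.L1 / Q.Wc) ≤ Q.eps / 2 := by
    have h10 := h.hWc
    have e : Q.bt Q.r2 * (Q.A1 * Q.L1 / Q.Wc) = (2 * Q.bt Q.r2 * Q.A1 * Q.L1) / Q.Wc / 2 := by ring
    rw [e]
    have : (2 * Q.bt Q.r2 * Q.A1 * Q.L1) / Q.Wc ≤ Q.eps := by
      rw [div_le_iff₀ hW]; exact h10
    linarith
  have h11 : Q.A1 * Q.L1 / Q.Wc ≤ Q.eps / 2 := by
    have h0 : 0 ≤ Q.A1 * Q.L1 / Q.Wc := by positivity
    have : Q.A1 * Q.L1 / Q.Wc ≤ Q.bt Q.r2 * (Q.A1 * Q.L1 / Q.Wc) := le_mul_of_one_le_left h0 b2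
    linarith
  exact ⟨h5, h6, h7, h8, h9, h11⟩

theorem v13_uA_supp (h : Q.OK) {p : EU L × EU M} {b : G} (hA : Q.At p b) :
    (Q.uA p).support ⊆ Q.bl b Q.rc := by
  intro a ha
  rw [Finsupp.mem_support_iff, v_uA_apply h hA.z] at ha
  rw [v_mem_bl h]
  refine v_kc_near h hA fun hk => ha ?_
  rw [hk, zero_mul]

/-- distance between psi and the truncated coordinates of X -/
theorem v13_err (h : Q.OK) {p : EU L × EU M} {b : G} (hA : Q.At p b) {ψ : G →₀ ℝ}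
    (hψ : Q.Tm p b ψ) :
    cst (fun _ => 1) (ψ + (-1 : ℝ) • Q.uA p) ≤
      Q.A1 * Q.L1 / Q.Wc + Real.sqrt (Q.nb 1 Q.rc) * (Q.A1 / Q.E) := by
  classical
  set T := ψ.support ∪ Q.bl b Q.rc with hT
  have hs : (ψ + (-1 : ℝ) • Q.uA p).support ⊆ T := by
    intro a ha
    rw [Finsupp.mem_support_iff] at ha
    rw [hT, Finset.mem_union]
    by_contra hc
    rw [not_or] at hc
    apply ha
    have h1 : ψ a = 0 := Finsupp.notMem_support_iff.1 hc.1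
    have h2 : Q.uA p a = 0 := Finsupp.notMem_support_iff.1 fun hh => hc.2 (v13_uA_supp h hA hh)
    rw [Finsupp.add_apply, Finsupp.smul_apply, h1, h2]
    simp
  rw [v_cst_eq _ _ T hs]
  have h1 : ∀ a ∈ T, (1 : ℝ) * |(ψ + (-1 : ℝ) • Q.uA p) a| ≤
      (1 - Q.k Q.Wc p.2 a) * |ψ a| + Q.k Q.Wc p.2 a * |p.1 (Q.c a) - ψ a| := by
    intro a _
    have hk := v_k_mem Q Q.Wc p.2 a
    rw [Finsupp.add_apply, Finsupp.smul_apply, v_uA_apply h hA.z, one_mul]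
    have e : ψ a + (-1 : ℝ) • (Q.k Q.Wc p.2 a * p.1 (Q.c a)) =
        (1 - Q.k Q.Wc p.2 a) * ψ a + -(Q.k Q.Wc p.2 a * (p.1 (Q.c a) - ψ a)) := by
      rw [smul_eq_mul]; ring
    rw [e]
    refine (abs_add_le _ _).trans ?_
    rw [abs_neg, abs_mul, abs_mul, abs_of_nonneg hk.1, abs_of_nonneg (by linarith [hk.2])]
  refine (Finset.sum_le_sum h1).trans ?_
  rw [Finset.sum_add_distrib]
  refine add_le_add ?_ ?_
  · have h2 := v_tail h hA hψ.cW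
    rw [v_cst_eq _ ψ T Finset.subset_union_left] at h2
    exact h2
  · have h3 : ∑ a ∈ T, Q.k Q.Wc p.2 a * |p.1 (Q.c a) - ψ a| =
        ∑ a ∈ Q.bl b Q.rc, Q.k Q.Wc p.2 a * |p.1 (Q.c a) - ψ a| := by
      symm
      refine Finset.sum_subset Finset.subset_union_right fun a _ ha => ?_
      rw [v_mem_bl h] at ha
      have : Q.k Q.Wc p.2 a = 0 := by
        by_contra hk
        exact ha (v_kc_near h hA hk)
      rw [this, zero_mul]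
    rw [h3]
    refine le_trans (Finset.sum_le_sum fun a _ => ?_) (v_X_sum h hψ.sup hψ.cE)
    have hk := v_k_mem Q Q.Wc p.2 a
    exact mul_le_of_le_one_left (abs_nonneg _) hk.2

theorem v13_tot_err (h : Q.OK) {p : EU L × EU M} {b : G} (hA : Q.At p b) {ψ : G →₀ ℝ}
    (hψ : Q.Tm p b ψ) :
    |1 - tot (Q.uA p)| ≤ Q.A1 * Q.L1 / Q.Wc + Real.sqrt (Q.nb 1 Q.rc) * (Q.A1 / Q.E) := by
  have h1 : 1 - tot (Q.uA p) = tot (ψ + (-1 : ℝ) • Q.uA p) := by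
    rw [v_tot_add, v_tot_smul, hψ.tot1]
    ring
  rw [h1]
  exact (v_abs_tot_le _).trans (v13_err h hA hψ)

theorem v_trunc (h : Q.OK) {p : EU L × EU M} {b : G} (hA : Q.At p b) {ψ : G →₀ ℝ}
    (hψ : Q.Tm p b ψ) {w : G → ℝ} {Lw : ℝ} (hw0 : ∀ a, 0 ≤ w a) (hw : ∀ a, w a ≤ Lw * Q.wb b a)
    (hL : 0 ≤ Lw) :
    cst w (Q.qA p) ≤ cst (fun a => Q.k Q.Wc p.2 a * w a) ψ + Lw * Q.eps := by
  have hn := v13_num h
  have h1 : cst w (Q.uA p) ≤ cst (fun a => Q.k Q.Wc p.2 a * w a) ψ +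
      Lw * Q.bt Q.rc * (Real.sqrt (Q.nb 1 Q.rc) * (Q.A1 / Q.E)) := by
    rw [v_cst_eq w _ _ (v13_uA_supp h hA), v13_cst_k h hA]
    have h2 := mul_le_mul_of_nonneg_left (v_X_sum h hψ.sup hψ.cE)
      (mul_nonneg hL (v_bt_pos Q Q.rc).le)
    refine le_trans ?_ (add_le_add le_rfl h2)
    rw [Finset.mul_sum, ← Finset.sum_add_distrib]
    refine Finset.sum_le_sum fun a ha => ?_
    rw [v_mem_bl h] at ha
    have hk := v_k_mem Q Q.Wc p.2 a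
    have hwa := v13_wle h hw hL ha
    rw [v_uA_apply h hA.z, abs_mul, abs_of_nonneg hk.1]
    have h3 : |p.1 (Q.c a)| ≤ |ψ a| + |p.1 (Q.c a) - ψ a| := by
      have := abs_add_le (ψ a) (p.1 (Q.c a) - ψ a)
      rwa [add_sub_cancel] at this
    have h4 : w a * (Q.k Q.Wc p.2 a * |p.1 (Q.c a)|) ≤
        w a * (Q.k Q.Wc p.2 a * (|ψ a| + |p.1 (Q.c a) - ψ a|)) :=
      mul_le_mul_of_nonneg_left (mul_le_mul_of_nonneg_left h3 hk.1) (hw0 a)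
    have h5 : w a * (Q.k Q.Wc p.2 a * |p.1 (Q.c a) - ψ a|) ≤
        Lw * Q.bt Q.rc * |p.1 (Q.c a) - ψ a| :=
      mul_le_mul hwa (mul_le_of_le_one_left (abs_nonneg _) hk.2)
        (mul_nonneg hk.1 (abs_nonneg _)) (mul_nonneg hL (v_bt_pos Q Q.rc).le)
    calc w a * (Q.k Q.Wc p.2 a * |p.1 (Q.c a)|)
        ≤ w a * (Q.k Q.Wc p.2 a * (|ψ a| + |p.1 (Q.c a) - ψ a|)) := h4
      _ = Q.k Q.Wc p.2 a * w a * |ψ a| + w a * (Q.k Q.Wc p.2 a * |p.1 (Q.c a) - ψ a|) := by ring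
      _ ≤ _ := by linarith
  have h6 : cst w (Q.x p) ≤ Lw * Q.bt Q.r2 :=
    v_cst_prob (v_x_nonneg h hA) (v_x_tot h hA) fun a ha => v13_wle h hw hL (v_x_supp h hA ha).1
  have h7 := v13_tot_err h hA hψ
  have h8 : cst w (Q.qA p) ≤ cst w (Q.uA p) + |1 - tot (Q.uA p)| * cst w (Q.x p) := by
    unfold VD.qA
    refine (v_cst_add_le hw0 _ _).trans ?_
    rw [v_cst_smul]
  have h9 : |1 - tot (Q.uA p)| * cst w (Q.x p) ≤
      (Q.A1 * Q.L1 / Q.Wc + Real.sqrt (Q.nb 1 Q.rc) * (Q.A1 / Q.E)) * (Lw * Q.bt Q.r2) :=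
    mul_le_mul h7 h6 (v_cst_nonneg hw0 _) ((abs_nonneg _).trans h7)
  obtain ⟨n1, n2, n3, n4, n5, n6⟩ := hn
  have h10 : Lw * Q.bt Q.rc * (Real.sqrt (Q.nb 1 Q.rc) * (Q.A1 / Q.E)) ≤ Lw * (Q.eps / 8) := by
    rw [mul_assoc]
    exact mul_le_mul_of_nonneg_left n1 hL
  have h11 : (Q.A1 * Q.L1 / Q.Wc + Real.sqrt (Q.nb 1 Q.rc) * (Q.A1 / Q.E)) * (Lw * Q.bt Q.r2) ≤
      Lw * (Q.eps / 2 + Q.eps / 8) := by
    have e : (Q.A1 * Q.L1 / Q.Wc + Real.sqrt (Q.nb 1 Q.rc) * (Q.A1 / Q.E)) * (Lw * Q.bt Q.r2) =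
        Lw * (Q.bt Q.r2 * (Q.A1 * Q.L1 / Q.Wc) +
          Q.bt Q.r2 * (Real.sqrt (Q.nb 1 Q.rc) * (Q.A1 / Q.E))) := by ring
    rw [e]
    exact mul_le_mul_of_nonneg_left (add_le_add n5 n2) hL
  have h12 := mul_nonneg hL h.eps_pos.le
  linarith

theorem v_near2 (h : Q.OK) {p : EU L × EU M} {b : G} (hA : Q.At p b) {ψ φ : G →₀ ℝ}
    (hs : ∀ a ∈ ψ.support, Q.d a b ≤ Q.rE + Q.r8) (hE : Q.E * ‖p.1 - io Q.c ψ‖ ≤ Q.A1)
    (hs' : ∀ a ∈ φ.support, Q.d a b ≤ Q.rE + Q.r8) (hE' : Q.E * ‖p.1 - io Q.c φ‖ ≤ Q.A1)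
    {w : G → ℝ} {Lw : ℝ} (hw0 : ∀ a, 0 ≤ w a) (hw : ∀ a, w a ≤ Lw * Q.wb b a) (hL : 0 ≤ Lw) :
    cst (fun a => Q.k Q.Wc p.2 a * w a) ψ ≤ cst (fun a => Q.k Q.Wc p.2 a * w a) φ + Lw * Q.eps := by
  obtain ⟨n1, -⟩ := v13_num h
  rw [v13_cst_k h hA, v13_cst_k h hA]
  have h1 := mul_le_mul_of_nonneg_left (v_diff h hs hE hs' hE')
    (mul_nonneg hL (v_bt_pos Q Q.rc).le)
  have h2 : Lw * Q.bt Q.rc * (Real.sqrt (Q.nb 1 Q.rc) * (2 * Q.A1 / Q.E)) ≤ Lw * Q.eps := by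
    have e : Lw * Q.bt Q.rc * (Real.sqrt (Q.nb 1 Q.rc) * (2 * Q.A1 / Q.E)) =
        2 * (Lw * (Q.bt Q.rc * (Real.sqrt (Q.nb 1 Q.rc) * (Q.A1 / Q.E)))) := by ring
    rw [e]
    have := mul_le_mul_of_nonneg_left n1 hL
    have := mul_nonneg hL h.eps_pos.le
    linarith
  refine le_trans ?_ (add_le_add le_rfl (h1.trans h2))
  rw [Finset.mul_sum, ← Finset.sum_add_distrib]
  refine Finset.sum_le_sum fun a ha => ?_
  rw [v_mem_bl h] at ha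
  have hk := v_k_mem Q Q.Wc p.2 a
  have hwa := v13_wle h hw hL ha
  have h3 : |ψ a| ≤ |φ a| + |ψ a - φ a| := by
    have := abs_add_le (φ a) (ψ a - φ a)
    rwa [add_sub_cancel] at this
  have h4 : Q.k Q.Wc p.2 a * w a * |ψ a| ≤ Q.k Q.Wc p.2 a * w a * (|φ a| + |ψ a - φ a|) :=
    mul_le_mul_of_nonneg_left h3 (mul_nonneg hk.1 (hw0 a))
  have h5 : Q.k Q.Wc p.2 a * w a ≤ Lw * Q.bt Q.rc :=
    (mul_le_of_le_one_left (hw0 a) hk.2).trans hwa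
  have h6 := mul_le_mul_of_nonneg_right h5 (abs_nonneg (ψ a - φ a))
  calc Q.k Q.Wc p.2 a * w a * |ψ a| ≤ Q.k Q.Wc p.2 a * w a * (|φ a| + |ψ a - φ a|) := h4
    _ = Q.k Q.Wc p.2 a * w a * |φ a| + Q.k Q.Wc p.2 a * w a * |ψ a - φ a| := by ring
    _ ≤ _ := by linarith

theorem v_TA_near (h : Q.OK) {p : EU L × EU M} {b : G} (hA : Q.At p b) :
    ‖p.1 - Q.TA p‖ ≤ 2 * Q.eps := by
  obtain ⟨ψ, hψ⟩ := v_exists_OptJ h p b
  have hT := v_OptJ_Tm h hA hA hψ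
  obtain ⟨n1, n2, n3, n4, n5, n6⟩ := v13_num h
  have h1 : ‖p.1 - io Q.c ψ‖ ≤ Q.eps / 8 := by
    refine le_trans ?_ n4
    rw [le_div_iff₀ (v10_E_pos h)]
    linarith [hT.cE]
  have h2 := v13_err h hA hT
  have h3 := v13_tot_err h hA hT
  have hx1 : cst (fun _ => 1) (Q.x p) ≤ 1 :=
    v_cst_prob (v_x_nonneg h hA) (v_x_tot h hA) fun a _ => le_rfl
  have e1 : io Q.c ψ - Q.TA p =
      io Q.c (ψ + (-1 : ℝ) • Q.uA p) - (1 - tot (Q.uA p)) • io Q.c (Q.x p) := by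
    unfold VD.TA VD.qA
    rw [v_io_add, v_io_add, v_io_smul, v_io_smul]
    module
  have h4 : ‖io Q.c ψ - Q.TA p‖ ≤
      2 * (Q.A1 * Q.L1 / Q.Wc + Real.sqrt (Q.nb 1 Q.rc) * (Q.A1 / Q.E)) := by
    rw [e1]
    refine (norm_sub_le _ _).trans ?_
    have h5 := (v_norm_io_le Q.c (ψ + (-1 : ℝ) • Q.uA p)).trans h2
    have h6 : ‖(1 - tot (Q.uA p)) • io Q.c (Q.x p)‖ ≤
        Q.A1 * Q.L1 / Q.Wc + Real.sqrt (Q.nb 1 Q.rc) * (Q.A1 / Q.E) := by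
      rw [norm_smul, Real.norm_eq_abs]
      have h7 := (v_norm_io_le Q.c (Q.x p)).trans hx1
      calc |1 - tot (Q.uA p)| * ‖io Q.c (Q.x p)‖ ≤ |1 - tot (Q.uA p)| * 1 :=
            mul_le_mul_of_nonneg_left h7 (abs_nonneg _)
        _ ≤ _ := by rw [mul_one]; exact h3
    linarith
  have h8 : ‖p.1 - Q.TA p‖ ≤ ‖p.1 - io Q.c ψ‖ + ‖io Q.c ψ - Q.TA p‖ := by
    have := norm_add_le (p.1 - io Q.c ψ) (io Q.c ψ - Q.TA p)
    rwa [sub_add_sub_cancel] at this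
  linarith [h.eps_pos]

end Pool.HQ
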