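import Pool.Agent.HQ.V13

/-!
MODULE V14 (MP_7936f4_al, part III): the far part.

XXb p b psi = cst ((1-k) wb b) psi + E |X - io psi|.  XXh p = NN c E (wf z) X, wf z a = (1 - k_a) o a z.
v_cst_split: w = k w + (1-k) w (v_cst_add_w).
v_XXh_test: v_NN_le (wf >= 0).
v_XXh_le: wf z a <= L1 (1-k_a) wb b a (v_o_le7), E|..| <= L1 E|..|.
v_XXb_le (psi optimal for J_b): first rc <= rE (hE gives bt rc <= eps E <= E <= bt rE).  For a with d a b > rE: k_a = 0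
 (v_kc_near) and wf z a = o a z >= wb b a/(2K o b z) >= bt rE/(2 K W7) >= W7 + 2E >= wf z b + 2E.  So for 0 < e <= 1
 v_exists_near (S = bl b rE) gives phi with cst wf phi + E|X - io phi| <= XXh + e, support in bl b rE, and XXh <= Ph <= L1 A0
 (test with the optimal measure of Ph, or v_NN_scale wf <= o, v_Ph_le), so E|X - io phi| <= L1 A0 + 1 <= A1.  Then
 J_b X <= cst (wb b) phi + E|X - io phi| = cst (k wb b) phi + XXb p b phi <= cst (k wb b) psi + eps/… : use v_near2 with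
 Lw = 1 : cst (k wb b) phi <= cst (k wb b) psi + eps, and XXb p b phi <= L1 (XXh + e) (v_wb_le7: (1-k) wb <= L1 wf).  Subtract:
 XXb p b psi = J_b X - cst (k wb b) psi <= L1 (XXh + e) + eps; let e -> 0.
v_J_TA: J b (TA p) <= cst (wb b) (qA p) (v_J_io, v_qA_tot) <= cst (k wb b) psi + eps (v_trunc, Lw = 1) = J b X - XXb + eps.
-/

namespace Pool.HQ

variable {G : Type} [Group G] {M L : ℕ} {Q : VD G M L}

noncomputable def VD.XXb (Q : VD G M L) (p : EU L × EU M) (b : G) (ψ : G →₀ ℝ) : ℝ :=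
  cst (fun a => (1 - Q.k Q.Wc p.2 a) * Q.wb b a) ψ + Q.E * ‖p.1 - io Q.c ψ‖

theorem v_cst_split (Q : VD G M L) (z : EU M) (w : G → ℝ) (ψ : G →₀ ℝ) :
    cst w ψ = cst (fun a => Q.k Q.Wc z a * w a) ψ + cst (fun a => (1 - Q.k Q.Wc z a) * w a) ψ := by
  rw [← v_cst_add_w]
  congr 1
  funext a
  ring

theorem v14_one_sub_k (Q : VD G M L) (z : EU M) (a : G) :
    0 ≤ 1 - Q.k Q.Wc z a ∧ 1 - Q.k Q.Wc z a ≤ 1 := by
  have h := v_k_mem Q Q.Wc z a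
  constructor <;> linarith [h.1, h.2]

theorem v14_wf_nonneg (h : Q.OK) {z : EU M} (hz : ‖z‖ < 1) (a : G) : 0 ≤ Q.wf z a := by
  have h1 := (v14_one_sub_k Q z a).1
  have h2 := v_one_le_o h a hz
  unfold VD.wf
  exact mul_nonneg h1 (by linarith)

theorem v14_wf_le (h : Q.OK) {z : EU M} (hz : ‖z‖ < 1) (a : G) : Q.wf z a ≤ Q.o a z := by
  have h1 := (v14_one_sub_k Q z a).2
  have h2 := v_one_le_o h a hz
  unfold VD.wf
  exact mul_le_of_le_one_left (by linarith) h1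

theorem v_XXb_nonneg (h : Q.OK) (p : EU L × EU M) (b : G) (ψ : G →₀ ℝ) : 0 ≤ Q.XXb p b ψ := by
  unfold VD.XXb
  refine add_nonneg (v_cst_nonneg (fun a => ?_) ψ) (mul_nonneg (V09_E h) (norm_nonneg _))
  exact mul_nonneg (v14_one_sub_k Q p.2 a).1 (V09_wb h b a)

theorem v_XXh_nonneg (h : Q.OK) {p : EU L × EU M} (hz : ‖p.2‖ < 1) : 0 ≤ Q.XXh p :=
  v_NN_nonneg (c := Q.c) (w := Q.wf p.2) (V09_E h) (v14_wf_nonneg h hz) p.1

theorem v_XXh_test (h : Q.OK) {p : EU L × EU M} (hz : ‖p.2‖ < 1) {ψ : G →₀ ℝ} (hψ : tot ψ = 1) :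
    Q.XXh p ≤ cst (fun a => (1 - Q.k Q.Wc p.2 a) * Q.o a p.2) ψ + Q.E * ‖p.1 - io Q.c ψ‖ :=
  v_NN_le (c := Q.c) (w := Q.wf p.2) (V09_E h) (v14_wf_nonneg h hz) p.1 hψ

theorem v_XXh_le (h : Q.OK) {p : EU L × EU M} {b : G} (hA : Q.At p b) {ψ : G →₀ ℝ}
    (hψ : tot ψ = 1) : Q.XXh p ≤ Q.L1 * Q.XXb p b ψ := by
  have h1 := v_XXh_test h hA.z hψ
  have hL := V09_L1 h
  have h2 : cst (fun a => (1 - Q.k Q.Wc p.2 a) * Q.o a p.2) ψ ≤
      Q.L1 * cst (fun a => (1 - Q.k Q.Wc p.2 a) * Q.wb b a) ψ := by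
    rw [← v_cst_mul]
    refine v_cst_mono ψ fun a _ => ?_
    have h3 := mul_le_mul_of_nonneg_left (v_o_le7 h a hA.z hA.o7) (v14_one_sub_k Q p.2 a).1
    linarith
  have h4 : Q.E * ‖p.1 - io Q.c ψ‖ ≤ Q.L1 * (Q.E * ‖p.1 - io Q.c ψ‖) := by
    have h5 : 0 ≤ Q.E * ‖p.1 - io Q.c ψ‖ := mul_nonneg (V09_E h) (norm_nonneg _)
    nlinarith
  unfold VD.XXb
  linarith

theorem v14_rc (h : Q.OK) : Q.rc ≤ Q.rE := by
  rw [← v_bt_le_iff h]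
  have hn := v_num h
  have h1 := h.hE
  have h2 := v_one_le_bt h Q.r2
  have h3 := v_one_le_bt h Q.rc
  have h4 : 1 ≤ Real.sqrt (Q.nb 1 Q.rc) := by
    rw [Real.one_le_sqrt]
    exact v_one_le_nb h _
  have hL := V09_L1 h
  have h5 : 1 ≤ Q.A1 := by
    have h6 := hn.A1_ge
    have h7 := hn.A0_eq
    have h8 := hn.C1_ge
    nlinarith
  have h6 : Q.bt Q.rc ≤ 8 * Q.bt Q.rc * Q.bt Q.r2 * Real.sqrt (Q.nb 1 Q.rc) * Q.A1 := by
    have e1 : Q.bt Q.rc ≤ 8 * Q.bt Q.rc := by linarith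
    have e2 : 8 * Q.bt Q.rc ≤ 8 * Q.bt Q.rc * Q.bt Q.r2 := le_mul_of_one_le_right (by linarith) h2
    have e3 : 8 * Q.bt Q.rc * Q.bt Q.r2 ≤ 8 * Q.bt Q.rc * Q.bt Q.r2 * Real.sqrt (Q.nb 1 Q.rc) :=
      le_mul_of_one_le_right (by positivity) h4
    have e4 : 8 * Q.bt Q.rc * Q.bt Q.r2 * Real.sqrt (Q.nb 1 Q.rc) ≤
        8 * Q.bt Q.rc * Q.bt Q.r2 * Real.sqrt (Q.nb 1 Q.rc) * Q.A1 :=
      le_mul_of_one_le_right (by positivity) h5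
    linarith
  have h7 : Q.eps * Q.E ≤ Q.E := mul_le_of_le_one_left (V09_E h) hn.eps_one
  have h8 := V09_bt h
  have h9 := V09_W7 h
  have hE := V09_E h
  have h10 : Q.E ≤ Q.L1 * (Q.W7 + 2 * Q.E) := by nlinarith
  linarith

theorem v14_far (h : Q.OK) {p : EU L × EU M} {b : G} (hA : Q.At p b) (a : G)
    (ha : a ∉ Q.bl b Q.rE) : Q.wf p.2 b + 2 * Q.E ≤ Q.wf p.2 a := by
  rw [v_mem_bl h, not_le] at ha
  have hk : Q.k Q.Wc p.2 a = 0 := by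
    by_contra hk
    have h1 := v_kc_near h hA hk
    have h2 := v14_rc h
    omega
  have h1 : Q.wf p.2 a = Q.o a p.2 := by
    unfold VD.wf
    rw [hk, sub_zero, one_mul]
  have h2 := v_wb_le7 h a hA.z hA.o7
  have h3 : Q.bt Q.rE ≤ Q.wb b a := by
    rw [v_wb_eq, v_bt_le_iff h]
    exact ha.le
  have h4 := V09_bt h
  have hL := V09_L1 h
  have h5 : Q.W7 + 2 * Q.E ≤ Q.o a p.2 := by
    have h6 : Q.L1 * (Q.W7 + 2 * Q.E) ≤ Q.L1 * Q.o a p.2 := by linarith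
    exact le_of_mul_le_mul_left h6 (by linarith)
  have h7 := v14_wf_le h hA.z b
  have h8 := hA.o7
  rw [h1]
  linarith

theorem v14_XXh_le_Ph (h : Q.OK) {p : EU L × EU M} (hz : ‖p.2‖ < 1) : Q.XXh p ≤ Q.Ph p := by
  have h1 := v_NN_scale (c := Q.c) (w := Q.wf p.2) (w' := fun a => Q.o a p.2) (t := 1) (V09_E h)
    (v14_wf_nonneg h hz) le_rfl (fun a => zero_le_one.trans (v_one_le_o h a hz))
    (fun a => by rw [one_mul]; exact v14_wf_le h hz a) p.1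
  rw [one_mul] at h1
  exact h1

theorem v14_step (h : Q.OK) {p : EU L × EU M} {b : G} (hA : Q.At p b) {ψ : G →₀ ℝ}
    (hψ : Q.OptJ p b ψ) {e : ℝ} (he : 0 < e) (he1 : e ≤ 1) :
    Q.XXb p b ψ ≤ Q.L1 * (Q.XXh p + e) + Q.eps := by
  have hn := v_num h
  have hL := V09_L1 h
  have hE := V09_E h
  have hb : b ∈ Q.bl b Q.rE := (v_mem_bl h).2 (by rw [h.hd.self]; exact Nat.zero_le _)
  obtain ⟨φ, hφ1, hφS, hφ⟩ := v_exists_near (c := Q.c) (w := Q.wf p.2) (V09_E h)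
    (v14_wf_nonneg h hA.z) (Q.bl b Q.rE) hb (v14_far h hA) p.1 he
  have hφ' : cst (Q.wf p.2) φ + Q.E * ‖p.1 - io Q.c φ‖ ≤ Q.XXh p + e := hφ
  have h0 : 0 ≤ cst (Q.wf p.2) φ := v_cst_nonneg (v14_wf_nonneg h hA.z) φ
  have hA0 : 8 ≤ Q.A0 := by
    have h7 := hn.A0_eq
    have h8 := hn.C1_ge
    linarith
  have hEφ : Q.E * ‖p.1 - io Q.c φ‖ ≤ Q.A1 := by
    have h1 := v14_XXh_le_Ph h hA.z
    have h2 := v_Ph_le h hA.z hA.o7
    have h3 : Q.L1 * Q.J b p.1 ≤ Q.L1 * Q.A0 := mul_le_mul_of_nonneg_left hA.J (by linarith)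
    have h4 : Q.A1 = Q.L1 * (Q.L1 * Q.A0) := rfl
    have h5 : Q.L1 * Q.A0 + 1 ≤ Q.L1 * (Q.L1 * Q.A0) := by
      have h6 : 2 * (Q.L1 * Q.A0) ≤ Q.L1 * (Q.L1 * Q.A0) :=
        mul_le_mul_of_nonneg_right hL (by positivity)
      nlinarith
    linarith
  have hT := v_OptJ_Tm h hA hA hψ
  have hEψ := hT.cE
  have hsφ : ∀ a ∈ φ.support, Q.d a b ≤ Q.rE + Q.r8 := by
    intro a ha
    have h1 := (v_mem_bl h).1 (hφS ha)
    omega
  have h1 := v_near2 h hA hsφ hEφ hT.sup hEψ (w := Q.wb b) (Lw := 1) (V09_wb h b)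
    (fun a => by rw [one_mul]) zero_le_one
  have h2 := v_J_le h b p.1 hφ1
  rw [v_cst_split Q p.2 (Q.wb b) φ] at h2
  have h3 := hψ.opt
  rw [v_cst_split Q p.2 (Q.wb b) ψ] at h3
  have h4 : cst (fun a => (1 - Q.k Q.Wc p.2 a) * Q.wb b a) φ ≤ Q.L1 * cst (Q.wf p.2) φ := by
    rw [← v_cst_mul]
    refine v_cst_mono φ fun a _ => ?_
    have h5 := mul_le_mul_of_nonneg_left (v_wb_le7 h a hA.z hA.o7) (v14_one_sub_k Q p.2 a).1
    unfold VD.wf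
    linarith
  have h5 : Q.E * ‖p.1 - io Q.c φ‖ ≤ Q.L1 * (Q.E * ‖p.1 - io Q.c φ‖) := by
    have h6 : 0 ≤ Q.E * ‖p.1 - io Q.c φ‖ := mul_nonneg hE (norm_nonneg _)
    nlinarith
  have h6 : Q.L1 * (cst (Q.wf p.2) φ + Q.E * ‖p.1 - io Q.c φ‖) ≤ Q.L1 * (Q.XXh p + e) :=
    mul_le_mul_of_nonneg_left hφ' (by linarith)
  unfold VD.XXb
  linarith

theorem v_XXb_le (h : Q.OK) {p : EU L × EU M} {b : G} (hA : Q.At p b) {ψ : G →₀ ℝ}
    (hψ : Q.OptJ p b ψ) : Q.XXb p b ψ ≤ Q.L1 * Q.XXh p + Q.eps := by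
  by_contra hcon
  rw [not_le] at hcon
  have hL := V09_L1 h
  have hL0 : 0 < 2 * Q.L1 := by linarith
  have h0 : 0 < (Q.XXb p b ψ - (Q.L1 * Q.XXh p + Q.eps)) / (2 * Q.L1) :=
    div_pos (by linarith) hL0
  have h1 := v14_step h hA hψ (lt_min one_pos h0) (min_le_left _ _)
  have h2 := min_le_right 1 ((Q.XXb p b ψ - (Q.L1 * Q.XXh p + Q.eps)) / (2 * Q.L1))
  have h3 := mul_le_mul_of_nonneg_left h2 (show 0 ≤ Q.L1 by linarith)
  have h4 : Q.L1 * ((Q.XXb p b ψ - (Q.L1 * Q.XXh p + Q.eps)) / (2 * Q.L1)) =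
      (Q.XXb p b ψ - (Q.L1 * Q.XXh p + Q.eps)) / 2 := by
    have hne : Q.L1 ≠ 0 := by linarith
    field_simp
  linarith

theorem v_J_TA (h : Q.OK) {p : EU L × EU M} {b : G} (hA : Q.At p b) {ψ : G →₀ ℝ}
    (hψ : Q.OptJ p b ψ) : Q.J b (Q.TA p) ≤ Q.J b p.1 - Q.XXb p b ψ + Q.eps := by
  have h1 := v_J_io h b (v_qA_tot h hA)
  have h2 := v_trunc h hA (v_OptJ_Tm h hA hA hψ) (w := Q.wb b) (Lw := 1) (V09_wb h b)
    (fun a => by rw [one_mul]) zero_le_one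
  have h3 := hψ.opt
  rw [v_cst_split Q p.2 (Q.wb b) ψ] at h3
  have h4 : Q.J b (Q.TA p) ≤ cst (Q.wb b) (Q.qA p) := h1
  unfold VD.XXb
  linarith

end Pool.HQ
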