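import Pool.Agent.HQ.V12
import Pool.Agent.HQ.V14

/-!
MODULE V15 (MP_7936f4_al, part III): tightness of the optimal measure.

Notation: b a location (At) which is a minimiser: JG p = Jp b p; by v_Jp_eq (om(fh,z) <= 1.1 W5) Jp b p = J b X =: J >= 1.
psi optimal for J_b: cst (wb b) psi + E|X - io psi| = J.  k = k_a = k Wc z a in [0,1].

v_tight.  Let n = d b b' and mass(w) = cst (k w) psi.
 (0) cst (wb b) psi = mass(wb b) + cst ((1-k) wb b) psi (v_cst_split), so mass(wb b) = J - XXb p b psi, which lies in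
     [(1 - eta) J, J]; eta <= 1/16 (v_num.eta_le), XXb >= 0.
 Case n <= r0: wb b a <= wb b b' wb b' a, wb b b' = bt n <= bt r0 (v_wb_eq, v_bt_le_iff), so
     (3/4) J <= mass(wb b) <= bt r0 mass(wb b'); and kap J wb b' b <= kap J bt r0 with kap bt r0^2 = 1/2.
 Case n > r0: take m with d b m = r0, d m b' = n - r0 (h.hd.geo; see v_proj in V08).  v_W_near: Jp m p = J m X, so
     J = JG p <= Jp m p (v_JG_le) = J m X <= cst (wb m) psi + E|X-io psi| (v_J_le) = mass(wb m) + cst ((1-k) wb m) psi + E|..|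
     <= mass(wb m) + bt r0 XXb (wb m a <= wb m b wb b a, 1 <= bt r0) <= mass(wb m) + bt r0 eta J <= mass(wb m) + J/4 (heta).
     v_rips (b, b', m) at every a: wb m a <= bt(2 delta)/bt r0 wb b a + bt(2 delta)/bt(n-r0) wb b' a (both terms >= 0), so
     (3/4) J <= bt(2delta)/bt r0 mass(wb b) + bt(2delta)/bt(n-r0) mass(wb b') <= J/4 + ... (hr0: 4 bt(2delta) <= bt r0), hence
     mass(wb b') >= (J/2) bt(n-r0)/bt(2delta) = (J/2) bt n/(bt r0 bt(2delta)) >= 2 J bt n/bt r0^2 >= kap J bt n, bt n = wb b' b.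
v_tight_near.  psi' optimal for J_{b'} (v_exists_OptJ), Tm p b psi' (v_OptJ_Tm), also Tm p b psi.  v_tight, then v_near2 with
 w = wb b', Lw = wb b' b (v_wb_tri): kap JG wb b' b <= cst (k wb b') psi' + wb b' b eps <= J b' X + wb b' b eps <=
 Jp b' p + wb b' b eps (v_J_le_Jp) <= 2 JG + wb b' b eps; JG >= 1 and eps <= kap/1000 (v_num.eps_kap) give
 (999/1000) kap wb b' b <= 2.
v_tight_o.  b0 from v_exists_proj, v_proj: wb b0 a o b0 z <= K3 o a z for all a.  So K3 cst (k o) psi >= o b0 z cst (k wb b0) psi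
 >= o b0 z kap JG wb b0 b (v_tight), and o b z <= 2 K wb b0 b o b0 z (v_o_le h b b0).
-/

namespace Pool.HQ

variable {G : Type} [Group G] {M L : ℕ} {Q : VD G M L}

theorem v_mass (h : Q.OK) {p : EU L × EU M} {b : G} {ψ : G →₀ ℝ} (hψ : Q.OptJ p b ψ) :
    cst (fun a => Q.k Q.Wc p.2 a * Q.wb b a) ψ = Q.J b p.1 - Q.XXb p b ψ := by
  have _ := h
  have h1 := v_cst_split Q p.2 (Q.wb b) ψ
  have h2 := hψ.opt
  unfold VD.XXb
  linarith

/-- monotonicity of the near mass -/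
theorem v15_mono (Q : VD G M L) (z : EU M) (ψ : G →₀ ℝ) {w w' : G → ℝ} {c : ℝ}
    (hw : ∀ a, w a ≤ c * w' a) :
    cst (fun a => Q.k Q.Wc z a * w a) ψ ≤ c * cst (fun a => Q.k Q.Wc z a * w' a) ψ := by
  rw [← v_cst_mul]
  refine v_cst_mono ψ fun a _ => ?_
  have h1 := mul_le_mul_of_nonneg_left (hw a) (v_k_mem Q Q.Wc z a).1
  linarith

theorem v15_mono_far (Q : VD G M L) (z : EU M) (ψ : G →₀ ℝ) {w w' : G → ℝ} {c : ℝ}
    (hw : ∀ a, w a ≤ c * w' a) :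
    cst (fun a => (1 - Q.k Q.Wc z a) * w a) ψ ≤
      c * cst (fun a => (1 - Q.k Q.Wc z a) * w' a) ψ := by
  rw [← v_cst_mul]
  refine v_cst_mono ψ fun a _ => ?_
  have h1 := mul_le_mul_of_nonneg_left (hw a) (v14_one_sub_k Q z a).1
  linarith

theorem v15_mass_nonneg (h : Q.OK) (z : EU M) (ψ : G →₀ ℝ) (b : G) :
    0 ≤ cst (fun a => Q.k Q.Wc z a * Q.wb b a) ψ :=
  v_cst_nonneg (fun a => mul_nonneg (v_k_mem Q Q.Wc z a).1 (V09_wb h b a)) ψ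

theorem v_tight (h : Q.OK) {p : EU L × EU M} {b : G} (hA : Q.At p b) (hb : Q.JG p = Q.Jp b p)
    (hW : om (Q.fh p) p.2 ≤ 1.1 * Q.W5) {ψ : G →₀ ℝ} (hψ : Q.OptJ p b ψ)
    (hX : Q.XXb p b ψ ≤ Q.eta * Q.JG p) (b' : G) :
    Q.kap * Q.JG p * Q.wb b' b ≤ cst (fun a => Q.k Q.Wc p.2 a * Q.wb b' a) ψ := by
  have hn := v_num h
  have hJG1 := v_one_le_JG h p
  have hJ : Q.JG p = Q.J b p.1 := hb.trans (v_Jp_eq h hA hW)
  have hm := v_mass h hψ
  have hXX := v_XXb_nonneg h p b ψ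
  have hbt := v_one_le_bt h Q.r0
  have hbt0 : 0 < Q.bt Q.r0 := by linarith
  have hk : Q.kap * (2 * Q.bt Q.r0 ^ 2) = 1 := by
    unfold VD.kap
    field_simp
  have hk0 := hn.kap_pos
  obtain ⟨J, hJd⟩ : ∃ J, J = Q.JG p := ⟨_, rfl⟩
  rw [← hJ] at hm
  rw [← hJd] at hJG1 hX hm ⊢
  have hJ0 : 0 < J := by linarith
  have hm1 : 3 / 4 * J ≤ cst (fun a => Q.k Q.Wc p.2 a * Q.wb b a) ψ := by
    have h1 := mul_le_mul_of_nonneg_right hn.eta_le hJ0.le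
    linarith
  have hm2 : cst (fun a => Q.k Q.Wc p.2 a * Q.wb b a) ψ ≤ J := by linarith
  have hwb' : Q.wb b' b = Q.bt (Q.d b b') := v_wb_eq Q b' b
  rcases le_or_gt (Q.d b b') Q.r0 with hn0 | hn0
  · have h1 : Q.wb b b' ≤ Q.bt Q.r0 := by
      rw [v_wb_eq, h.hd.symm]
      exact (v_bt_le_iff h).2 hn0
    have h2 : Q.wb b' b ≤ Q.bt Q.r0 := by
      rw [hwb']
      exact (v_bt_le_iff h).2 hn0
    have h3 := v15_mono Q p.2 ψ (w := Q.wb b) (w' := Q.wb b') (c := Q.bt Q.r0) (fun a =>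
      (v_wb_tri h b b' a).trans (mul_le_mul_of_nonneg_right h1 (V09_wb h b' a)))
    have h4 : Q.kap * J * Q.wb b' b * Q.bt Q.r0 ≤ J / 2 := by
      have h5 : Q.wb b' b * Q.bt Q.r0 ≤ Q.bt Q.r0 * Q.bt Q.r0 :=
        mul_le_mul_of_nonneg_right h2 hbt0.le
      have h6 := mul_le_mul_of_nonneg_left h5 (mul_pos hk0 hJ0).le
      have h7 : Q.kap * J * (Q.bt Q.r0 * Q.bt Q.r0) = J / 2 * (Q.kap * (2 * Q.bt Q.r0 ^ 2)) := by
        ring
      rw [hk, mul_one] at h7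
      linarith
    have h8 : Q.bt Q.r0 * (Q.kap * J * Q.wb b' b) ≤
        Q.bt Q.r0 * cst (fun a => Q.k Q.Wc p.2 a * Q.wb b' a) ψ := by linarith
    exact le_of_mul_le_mul_left h8 hbt0
  · obtain ⟨m, hm3, hm4⟩ := h.hd.geo b b' Q.r0 hn0.le
    have hdm : Q.d m b ≤ Q.r0 := by rw [h.hd.symm, hm3]
    have hJm := (v_W_near h hA hW hdm).2
    have h1 := v_JG_le h p m
    rw [hJm, ← hJd] at h1
    have h2 := v_J_le h m p.1 hψ.tot1
    rw [v_cst_split Q p.2 (Q.wb m) ψ] at h2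
    have hwm : Q.wb m b = Q.bt Q.r0 := by rw [v_wb_eq, hm3]
    have h3 := v15_mono_far Q p.2 ψ (w := Q.wb m) (w' := Q.wb b) (c := Q.bt Q.r0) (fun a => by
      have := v_wb_tri h m b a
      rwa [hwm] at this)
    have hE0 : 0 ≤ Q.E * ‖p.1 - io Q.c ψ‖ := mul_nonneg (V09_E h) (norm_nonneg _)
    have h4 : Q.E * ‖p.1 - io Q.c ψ‖ ≤ Q.bt Q.r0 * (Q.E * ‖p.1 - io Q.c ψ‖) :=
      le_mul_of_one_le_left hE0 hbt
    have h5 : Q.bt Q.r0 * Q.XXb p b ψ ≤ J / 4 := by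
      have h6 := mul_le_mul_of_nonneg_left hX hbt0.le
      have h7 := mul_le_mul_of_nonneg_right h.heta hJ0.le
      linarith
    have h5' : Q.bt Q.r0 * cst (fun a => (1 - Q.k Q.Wc p.2 a) * Q.wb b a) ψ +
        Q.bt Q.r0 * (Q.E * ‖p.1 - io Q.c ψ‖) ≤ J / 4 := by
      unfold VD.XXb at h5
      linarith
    have h8 : 3 / 4 * J ≤ cst (fun a => Q.k Q.Wc p.2 a * Q.wb m a) ψ := by linarith
    -- Rips
    have hsum : Q.d b m + Q.d m b' = Q.d b b' := by omega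
    have hB2 := v_bt_pos Q (2 * Q.δ)
    have hBn := v_bt_pos Q (Q.d m b')
    have h9 : ∀ a, Q.wb m a ≤ Q.bt (2 * Q.δ) / Q.bt Q.r0 * Q.wb b a +
        Q.bt (2 * Q.δ) / Q.bt (Q.d m b') * Q.wb b' a := by
      intro a
      have t1 : 0 ≤ Q.bt (2 * Q.δ) / Q.bt Q.r0 * Q.wb b a :=
        mul_nonneg (div_nonneg hB2.le hbt0.le) (V09_wb h b a)
      have t2 : 0 ≤ Q.bt (2 * Q.δ) / Q.bt (Q.d m b') * Q.wb b' a :=
        mul_nonneg (div_nonneg hB2.le hBn.le) (V09_wb h b' a)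
      rcases v_rips h hsum a with h10 | h10
      · rw [hm3] at h10
        have e1 : Q.bt (2 * Q.δ) * (Q.wb b a / Q.bt Q.r0) =
            Q.bt (2 * Q.δ) / Q.bt Q.r0 * Q.wb b a := by ring
        linarith
      · have e1 : Q.bt (2 * Q.δ) * (Q.wb b' a / Q.bt (Q.d m b')) =
            Q.bt (2 * Q.δ) / Q.bt (Q.d m b') * Q.wb b' a := by ring
        linarith
    have h11 : cst (fun a => Q.k Q.Wc p.2 a * Q.wb m a) ψ ≤
        Q.bt (2 * Q.δ) / Q.bt Q.r0 * cst (fun a => Q.k Q.Wc p.2 a * Q.wb b a) ψ +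
        Q.bt (2 * Q.δ) / Q.bt (Q.d m b') * cst (fun a => Q.k Q.Wc p.2 a * Q.wb b' a) ψ := by
      rw [← v_cst_mul, ← v_cst_mul, ← v_cst_add_w]
      refine v_cst_mono ψ fun a _ => ?_
      have := mul_le_mul_of_nonneg_left (h9 a) (v_k_mem Q Q.Wc p.2 a).1
      linarith
    have h12 : Q.bt (2 * Q.δ) / Q.bt Q.r0 * cst (fun a => Q.k Q.Wc p.2 a * Q.wb b a) ψ ≤
        1 / 4 * J := by
      refine mul_le_mul ?_ hm2 (v15_mass_nonneg h p.2 ψ b) (by norm_num)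
      rw [div_le_iff₀ hbt0]
      have := h.hr0
      linarith
    obtain ⟨X, hXd⟩ : ∃ X, X = cst (fun a => Q.k Q.Wc p.2 a * Q.wb b' a) ψ := ⟨_, rfl⟩
    rw [← hXd] at h11 ⊢
    have hX0 : 0 ≤ X := by rw [hXd]; exact v15_mass_nonneg h p.2 ψ b'
    have h13 : J / 2 ≤ Q.bt (2 * Q.δ) / Q.bt (Q.d m b') * X := by linarith
    have h14 : J / 2 * Q.bt (Q.d m b') ≤ Q.bt (2 * Q.δ) * X := by
      have h15 := mul_le_mul_of_nonneg_right h13 hBn.le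
      have h16 : Q.bt (2 * Q.δ) / Q.bt (Q.d m b') * X * Q.bt (Q.d m b') = Q.bt (2 * Q.δ) * X := by
        field_simp
      linarith
    have h17 : Q.bt Q.r0 * Q.bt (Q.d m b') = Q.wb b' b := by
      rw [hwb', ← v_bt_add, ← hsum, hm3]
    have h18 : J / 2 * Q.wb b' b ≤ Q.bt Q.r0 ^ 2 / 4 * X := by
      calc J / 2 * Q.wb b' b = Q.bt Q.r0 * (J / 2 * Q.bt (Q.d m b')) := by rw [← h17]; ring
        _ ≤ Q.bt Q.r0 * (Q.bt (2 * Q.δ) * X) := mul_le_mul_of_nonneg_left h14 hbt0.le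
        _ ≤ Q.bt Q.r0 * (Q.bt Q.r0 / 4 * X) := by
            refine mul_le_mul_of_nonneg_left (mul_le_mul_of_nonneg_right ?_ hX0) hbt0.le
            have := h.hr0
            linarith
        _ = Q.bt Q.r0 ^ 2 / 4 * X := by ring
    have h19 := mul_le_mul_of_nonneg_left h18 hk0.le
    have h20 : Q.kap * (Q.bt Q.r0 ^ 2 / 4 * X) = 1 / 8 * X * (Q.kap * (2 * Q.bt Q.r0 ^ 2)) := by
      ring
    rw [hk] at h20
    linarith

theorem v_tight_near (h : Q.OK) {p : EU L × EU M} {b : G} (hA : Q.At p b) (hb : Q.JG p = Q.Jp b p)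
    (hW : om (Q.fh p) p.2 ≤ 1.1 * Q.W5) {ψ : G →₀ ℝ} (hψ : Q.OptJ p b ψ)
    (hX : Q.XXb p b ψ ≤ Q.eta * Q.JG p) {b' : G} (hA' : Q.At p b') (hJ' : Q.Jp b' p ≤ 2 * Q.JG p) :
    Q.wb b' b ≤ 3 / Q.kap := by
  have hn := v_num h
  have hk0 := hn.kap_pos
  have hJG1 := v_one_le_JG h p
  obtain ⟨ψ', hψ'⟩ := v_exists_OptJ h p b'
  have hT' := v_OptJ_Tm h hA hA' hψ'
  have hT := v_OptJ_Tm h hA hA hψ
  have h1 := v_tight h hA hb hW hψ hX b'
  have hw0 := v_one_le_wb h b' b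
  have h2 := v_near2 h hA hT.sup hT.cE hT'.sup hT'.cE (w := Q.wb b') (Lw := Q.wb b' b) (V09_wb h b')
    (fun a => v_wb_tri h b' b a) (by linarith)
  have h3 : cst (fun a => Q.k Q.Wc p.2 a * Q.wb b' a) ψ' ≤ cst (Q.wb b') ψ' := by
    refine v_cst_mono ψ' fun a _ => ?_
    exact mul_le_of_le_one_left (V09_wb h b' a) (v_k_mem Q Q.Wc p.2 a).2
  have h4 := hψ'.opt
  have hE0 : 0 ≤ Q.E * ‖p.1 - io Q.c ψ'‖ := mul_nonneg (V09_E h) (norm_nonneg _)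
  have h5 := v_J_le_Jp h p b'
  have h6 : Q.kap * Q.JG p * Q.wb b' b ≤ 2 * Q.JG p + Q.wb b' b * Q.eps := by linarith
  have h7 : Q.wb b' b * Q.eps ≤ Q.kap / 1000 * Q.JG p * Q.wb b' b := by
    have h8 : Q.eps ≤ Q.kap / 1000 * Q.JG p := by
      have h9 := hn.eps_kap
      have h10 : Q.kap / 1000 ≤ Q.kap / 1000 * Q.JG p :=
        le_mul_of_one_le_right (by linarith) hJG1
      linarith
    have := mul_le_mul_of_nonneg_left h8 (by linarith : 0 ≤ Q.wb b' b)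
    linarith
  have h8 : Q.JG p * (Q.kap * Q.wb b' b) ≤ Q.JG p * 3 := by
    have h9 : 0 ≤ Q.JG p * (Q.kap * Q.wb b' b) := by positivity
    nlinarith
  have h9 : Q.kap * Q.wb b' b ≤ 3 := le_of_mul_le_mul_left h8 (by linarith)
  rw [le_div_iff₀ hk0]
  linarith

theorem v_tight_o (h : Q.OK) {p : EU L × EU M} {b : G} (hA : Q.At p b) (hb : Q.JG p = Q.Jp b p)
    (hW : om (Q.fh p) p.2 ≤ 1.1 * Q.W5) {ψ : G →₀ ℝ} (hψ : Q.OptJ p b ψ)
    (hX : Q.XXb p b ψ ≤ Q.eta * Q.JG p) :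
    Q.kap * Q.JG p / (2 * Q.K * Q.K3) * Q.o b p.2 ≤
      cst (fun a => Q.k Q.Wc p.2 a * Q.o a p.2) ψ := by
  have hn := v_num h
  have hk0 := hn.kap_pos
  have hK := h.K1
  have hK3 := hn.K3_ge
  have hJG1 := v_one_le_JG h p
  obtain ⟨b0, hb0⟩ := v_exists_proj h hA.z
  have ho0 := v_one_le_o h b0 hA.z
  have h1 := v_tight h hA hb hW hψ hX b0
  have h2 : ∀ a, Q.o b0 p.2 * Q.wb b0 a ≤ Q.K3 * Q.o a p.2 := fun a => by
    have := v_proj h hA.z hb0 a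
    linarith
  have h3 : Q.o b0 p.2 * cst (fun a => Q.k Q.Wc p.2 a * Q.wb b0 a) ψ ≤
      Q.K3 * cst (fun a => Q.k Q.Wc p.2 a * Q.o a p.2) ψ := by
    rw [← v_cst_mul, ← v_cst_mul]
    refine v_cst_mono ψ fun a _ => ?_
    have := mul_le_mul_of_nonneg_left (h2 a) (v_k_mem Q Q.Wc p.2 a).1
    linarith
  have h4 := v_o_le h b b0 hA.z
  have h5 : Q.kap * Q.JG p * Q.o b p.2 ≤ Q.kap * Q.JG p * (2 * Q.K * Q.wb b0 b * Q.o b0 p.2) :=
    mul_le_mul_of_nonneg_left h4 (by positivity)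
  have h6 := mul_le_mul_of_nonneg_left h1 (by linarith : 0 ≤ Q.o b0 p.2)
  have h7 : Q.kap * Q.JG p * Q.o b p.2 ≤
      2 * Q.K * (Q.K3 * cst (fun a => Q.k Q.Wc p.2 a * Q.o a p.2) ψ) := by
    have h8 := mul_le_mul_of_nonneg_left (h6.trans h3) (by linarith : 0 ≤ 2 * Q.K)
    linarith
  rw [div_mul_eq_mul_div, div_le_iff₀ (by positivity)]
  linarith

end Pool.HQ
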