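import Pool.Agent.HQ.V15

/-!
MODULE V16 (MP_7936f4_al, part III): the measure xJ of near minimisers.

nn p b = max 0 (2 JG p - Jp b p), sn p = sum over near z W7, xJ p = sum of single b (nn/sn).  Hypothesis: |z| < 1, JG p <= C1
(so 2 JG p <= A0 = 2 C1).
v_nn_supp: nn <> 0 means Jp b p < 2 JG p <= A0; then v_at_of_Jp.
v_sn_pos: a minimiser b (v_exists_JG) has nn p b = JG p >= 1 (v_one_le_JG) and o b z <= W7 (v_at_of_Jp), v_mem_near.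
v_xJ_apply: for b outside near z W7 nn p b = 0 by v_nn_supp.  v_xJ_tot: v_tot_sum, v_tot_single.
v_xJ_wb: v_cst_prob, v_tight_near and v_wb_symm.
v_xJ_o: v_cst_prob, o b' z <= 2 K wb b b' o b z (v_o_le), wb b b' <= 3/kap.
-/

namespace Pool.HQ

variable {G : Type} [Group G] {M L : ℕ} {Q : VD G M L}

theorem v_nn_supp (h : Q.OK) {p : EU L × EU M} (hz : ‖p.2‖ < 1) (hJ : Q.JG p ≤ Q.C1) {b : G}
    (hb : Q.nn p b ≠ 0) : Q.Jp b p ≤ 2 * Q.JG p ∧ Q.At p b := by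
  have h1 : Q.Jp b p ≤ 2 * Q.JG p := by
    by_contra hc
    push Not at hc
    refine hb ?_
    unfold VD.nn
    exact max_eq_left (by linarith)
  refine ⟨h1, v_at_of_Jp h hz ?_⟩
  have h2 := (v_num h).A0_eq
  linarith

theorem V16_nn_nonneg (Q : VD G M L) (p : EU L × EU M) (b : G) : 0 ≤ Q.nn p b :=
  le_max_left _ _

theorem v_sn_pos (h : Q.OK) {p : EU L × EU M} (hz : ‖p.2‖ < 1) (hJ : Q.JG p ≤ Q.C1) :
    0 < Q.sn p := by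
  obtain ⟨b, hb⟩ := v_exists_JG h hz
  have h1 := v_one_le_JG h p
  have h2 : 1 ≤ Q.nn p b := by
    unfold VD.nn
    rw [← hb]
    exact le_trans (by linarith) (le_max_right _ _)
  have h3 := (v_nn_supp h hz hJ (b := b) (by linarith)).2
  have h4 : b ∈ Q.near p.2 Q.W7 := (v_mem_near h hz).2 h3.o7
  have h5 : Q.nn p b ≤ Q.sn p :=
    Finset.single_le_sum (f := fun b => Q.nn p b) (fun a _ => V16_nn_nonneg Q p a) h4
  linarith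

theorem v_xJ_apply (h : Q.OK) {p : EU L × EU M} (hz : ‖p.2‖ < 1) (hJ : Q.JG p ≤ Q.C1) (b : G) :
    Q.xJ p b = Q.nn p b / Q.sn p := by
  classical
  have h1 : Q.xJ p b = ∑ a ∈ Q.near p.2 Q.W7, if a = b then Q.nn p a / Q.sn p else 0 := by
    unfold VD.xJ
    rw [Finsupp.finsetSum_apply]
    exact Finset.sum_congr rfl fun a _ => Finsupp.single_apply
  rw [h1, Finset.sum_ite_eq']
  split_ifs with hb
  · rfl
  · have h2 : Q.nn p b = 0 := by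
      by_contra hc
      exact hb ((v_mem_near h hz).2 (v_nn_supp h hz hJ hc).2.o7)
    rw [h2, zero_div]

theorem v_xJ_nonneg (h : Q.OK) {p : EU L × EU M} (hz : ‖p.2‖ < 1) (hJ : Q.JG p ≤ Q.C1) (b : G) :
    0 ≤ Q.xJ p b := by
  rw [v_xJ_apply h hz hJ]
  exact div_nonneg (V16_nn_nonneg Q p b) (v_sn_pos h hz hJ).le

theorem v_xJ_tot (h : Q.OK) {p : EU L × EU M} (hz : ‖p.2‖ < 1) (hJ : Q.JG p ≤ Q.C1) :
    tot (Q.xJ p) = 1 := by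
  unfold VD.xJ
  rw [v_tot_sum]
  simp only [v_tot_single]
  rw [← Finset.sum_div]
  exact div_self (v_sn_pos h hz hJ).ne'

theorem v_xJ_supp (h : Q.OK) {p : EU L × EU M} (hz : ‖p.2‖ < 1) (hJ : Q.JG p ≤ Q.C1) {b : G}
    (hb : b ∈ (Q.xJ p).support) : Q.Jp b p ≤ 2 * Q.JG p ∧ Q.At p b := by
  rw [Finsupp.mem_support_iff, v_xJ_apply h hz hJ] at hb
  refine v_nn_supp h hz hJ fun hc => hb ?_
  rw [hc, zero_div]

theorem V16_wb_le (h : Q.OK) {p : EU L × EU M} {b : G} (hA : Q.At p b) (hJ : Q.JG p ≤ Q.C1)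
    (hb : Q.JG p = Q.Jp b p) (hW : om (Q.fh p) p.2 ≤ 1.1 * Q.W5) {ψ : G →₀ ℝ}
    (hψ : Q.OptJ p b ψ) (hX : Q.XXb p b ψ ≤ Q.eta * Q.JG p) {a : G}
    (ha : a ∈ (Q.xJ p).support) : Q.wb b a ≤ 3 / Q.kap := by
  obtain ⟨h1, h2⟩ := v_xJ_supp h hA.z hJ ha
  rw [v_wb_symm h]
  exact v_tight_near h hA hb hW hψ hX h2 h1

theorem v_xJ_wb (h : Q.OK) {p : EU L × EU M} {b : G} (hA : Q.At p b) (hJ : Q.JG p ≤ Q.C1)
    (hb : Q.JG p = Q.Jp b p) (hW : om (Q.fh p) p.2 ≤ 1.1 * Q.W5) {ψ : G →₀ ℝ}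
    (hψ : Q.OptJ p b ψ) (hX : Q.XXb p b ψ ≤ Q.eta * Q.JG p) :
    cst (Q.wb b) (Q.xJ p) ≤ 3 / Q.kap :=
  v_cst_prob (v_xJ_nonneg h hA.z hJ) (v_xJ_tot h hA.z hJ)
    fun _ ha => V16_wb_le h hA hJ hb hW hψ hX ha

theorem v_xJ_o (h : Q.OK) {p : EU L × EU M} {b : G} (hA : Q.At p b) (hJ : Q.JG p ≤ Q.C1)
    (hb : Q.JG p = Q.Jp b p) (hW : om (Q.fh p) p.2 ≤ 1.1 * Q.W5) {ψ : G →₀ ℝ}
    (hψ : Q.OptJ p b ψ) (hX : Q.XXb p b ψ ≤ Q.eta * Q.JG p) :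
    cst (fun a => Q.o a p.2) (Q.xJ p) ≤ 6 * Q.K / Q.kap * Q.o b p.2 := by
  refine v_cst_prob (v_xJ_nonneg h hA.z hJ) (v_xJ_tot h hA.z hJ) fun a ha => ?_
  have h1 := V16_wb_le h hA hJ hb hW hψ hX ha
  have h2 := v_o_le h a b hA.z
  have h3 := v_one_le_o h b hA.z
  have h4 := h.K1
  have h5 : 2 * Q.K * Q.wb b a ≤ 2 * Q.K * (3 / Q.kap) :=
    mul_le_mul_of_nonneg_left h1 (by linarith)
  have h6 : 2 * Q.K * Q.wb b a * Q.o b p.2 ≤ 2 * Q.K * (3 / Q.kap) * Q.o b p.2 :=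
    mul_le_mul_of_nonneg_right h5 (by linarith)
  have h7 : 2 * Q.K * (3 / Q.kap) * Q.o b p.2 = 6 * Q.K / Q.kap * Q.o b p.2 := by ring
  linarith

end Pool.HQ
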