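import Pool.Agent.HQ.V16
import Pool.Agent.HQ.V02

/-!
MODULE V17 (MP_7936f4_al, part III): decrease of J_G along the vector field.

Setting: |z| < 1, JG p <= C1 (then a minimiser b has At p b: JG p = Jp b p <= C1 <= A0, v_at_of_Jp), om(fh p,z) <= W5.
By v_Jp_eq, Jp b p = J b X = JG p.
v_cl: 0 <= cl t <= 1; cl t = 1 for t >= 1; cl t = 0 for t <= 0; cl t < 1 implies t < 1; 0 < cl t implies 0 < t.
v_cut_one: JG/C1 <= 1, om/W5 <= 1: both clamps have argument >= 10 * 0.1 = 1.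
v_V1_eq, v_V2_eq: unfold, cut = 1.
v_chi_tight: chi p > 0 gives XXh < 2 eta1, so XXb <= L1 (2 eta1) + eps (v_XXb_le) <= eta <= eta JG
 (4 L1 eta1 = eta, and eps <= eta/2 by eps_sig/eps bounds in v_num: 1000 (1+sig) L1 eps <= eta1).
v_J_TA': v_J_TA and XXb >= 0.
v_J_T1: T1 = (1-chi) TA + chi io(xJ).  v_J_conv3 with third weight 0 (or zero vector): J b (T1) <= (1-chi) J b (TA) + chi J b (io xJ).
 If chi < 1: XXh > eta1, so XXb >= eta1/L1 (v_XXh_le) and J b (TA) <= J - eta1/L1 + eps <= J - eta1/(2 L1).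
 If chi > 0: tight (v_chi_tight), J b (io xJ) <= cst (wb b) xJ (v_J_io, v_xJ_tot) <= 3/kap <= C0/2 (C0b) <= J/2 <= J - 1/2 <=
 J - eta1/(2 L1).  (Multiply by the weights 1-chi and chi; a zero weight needs no bound.)
v_JG_step: X' = X + s V1 = (1 - s th1 - s vs) X + (s th1) T1 + (s vs) TA; 0 <= th1 <= 1, 0 <= vs <= 1 + sig, so s th1 + s vs <= 1.
 v_J_conv3: J b X' <= J b X - s th1 eta1/(2 L1) + s (1+sig) eps (if th1 > 0 then JG > 1.2 C0 >= C0, v_J_T1).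
 z' = z + s V2 = z + (s vs rhoS z fh) (fh - z): v_step_near with s vs <= 1: |z'-z| <= (1-|z|)/16, |z'| < 1, and by v_om_lip
 o b z' <= (1+6/16) o b z <= W6 (v_W: 8 o b z <= 2 K bt r0 o b z <= W6 as bt r0 >= 4).  So Jp b p' = J b X' and
 JG p' <= Jp b p' (v_JG_le).
-/

namespace Pool.HQ

variable {G : Type} [Group G] {M L : ℕ} {Q : VD G M L}

theorem v_cl_mem (t : ℝ) : 0 ≤ cl t ∧ cl t ≤ 1 := by
  unfold cl
  exact ⟨le_max_left _ _, max_le zero_le_one (min_le_left _ _)⟩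

theorem v_cl_one {t : ℝ} (ht : 1 ≤ t) : cl t = 1 := by
  unfold cl
  rw [min_eq_left ht]
  exact max_eq_right zero_le_one

theorem v_cl_zero {t : ℝ} (ht : t ≤ 0) : cl t = 0 := by
  unfold cl
  exact max_eq_left ((min_le_right _ _).trans ht)

theorem v_cl_lt {t : ℝ} (ht : cl t < 1) : t < 1 := by
  by_contra h
  rw [v_cl_one (not_lt.1 h)] at ht
  exact lt_irrefl _ ht

theorem v_cl_pos {t : ℝ} (ht : 0 < cl t) : 0 < t := by
  by_contra h
  rw [v_cl_zero (not_lt.1 h)] at ht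
  exact lt_irrefl _ ht

theorem v_th (Q : VD G M L) (p : EU L × EU M) : 0 ≤ Q.th1 p ∧ Q.th1 p ≤ 1 ∧ 0 ≤ Q.th2 p ∧ Q.th2 p ≤ 1 ∧
    0 ≤ Q.chi p ∧ Q.chi p ≤ 1 := by
  unfold VD.th1 VD.th2 VD.chi
  exact ⟨(v_cl_mem _).1, (v_cl_mem _).2, (v_cl_mem _).1, (v_cl_mem _).2, (v_cl_mem _).1,
    (v_cl_mem _).2⟩

theorem v_vs (h : Q.OK) (p : EU L × EU M) : 0 ≤ Q.vs p ∧ Q.vs p ≤ 1 + Q.sig := by
  obtain ⟨-, -, h1, h2, -, -⟩ := v_th Q p
  have h3 := (v_num h).sig_ge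
  obtain ⟨h4, h5⟩ := v_cl_mem (Q.Ph p / Q.C5 - 1)
  have h6 : 0 ≤ Q.sig * cl (Q.Ph p / Q.C5 - 1) := mul_nonneg (by linarith) h4
  have h7 : Q.sig * cl (Q.Ph p / Q.C5 - 1) ≤ Q.sig * 1 :=
    mul_le_mul_of_nonneg_left h5 (by linarith)
  unfold VD.vs
  constructor <;> linarith

theorem v_cut_one (h : Q.OK) {p : EU L × EU M} (hJ : Q.JG p ≤ Q.C1) (hW : om (Q.fh p) p.2 ≤ Q.W5) :
    Q.cut p = 1 := by
  have h1 := (v_num h).C1_ge
  have h2 := h.W5a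
  have h3 : Q.JG p / Q.C1 ≤ 1 := by
    rw [div_le_one (by linarith)]
    exact hJ
  have h4 : om (Q.fh p) p.2 / Q.W5 ≤ 1 := by
    rw [div_le_one (by linarith)]
    exact hW
  unfold VD.cut
  rw [v_cl_one (by linarith), v_cl_one (by linarith), one_mul]

theorem v_V1_eq (h : Q.OK) {p : EU L × EU M} (hJ : Q.JG p ≤ Q.C1) (hW : om (Q.fh p) p.2 ≤ Q.W5)
    (s : ℝ) : p.1 + s • Q.V1 p =
      (1 - s * Q.th1 p - s * Q.vs p) • p.1 + (s * Q.th1 p) • Q.T1 p + (s * Q.vs p) • Q.TA p := by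
  unfold VD.V1
  rw [v_cut_one h hJ hW]
  module

theorem v_V2_eq (h : Q.OK) {p : EU L × EU M} (hJ : Q.JG p ≤ Q.C1) (hW : om (Q.fh p) p.2 ≤ Q.W5)
    (s : ℝ) : p.2 + s • Q.V2 p = p.2 + (s * Q.vs p * rhoS p.2 (Q.fh p)) • (Q.fh p - p.2) := by
  unfold VD.V2 rhoS
  rw [v_cut_one h hJ hW, smul_smul]
  congr 2
  ring

theorem v_exists_min_At (h : Q.OK) {p : EU L × EU M} (hz : ‖p.2‖ < 1) (hJ : Q.JG p ≤ Q.C1) :
    ∃ b, Q.At p b ∧ Q.JG p = Q.Jp b p := by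
  obtain ⟨b, hb⟩ := v_exists_JG h hz
  have h1 := (v_num h).C1_ge
  have h2 := (v_num h).A0_eq
  exact ⟨b, v_at_of_Jp h hz (by linarith), hb⟩

theorem v17_eps (h : Q.OK) : 4 * Q.L1 * Q.eps ≤ Q.eta1 ∧ 2 ≤ Q.L1 ∧ 0 < Q.eps := by
  have h1 := (v_num h).eps_sig
  have h2 := V09_L1 h
  have h3 := (v_num h).sig_ge
  have h4 := h.eps_pos
  have h5 : 0 ≤ Q.L1 * Q.eps := by positivity
  refine ⟨?_, h2, h4⟩
  nlinarith [mul_nonneg (show 0 ≤ Q.sig by linarith) h5]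

theorem v_chi_tight (h : Q.OK) {p : EU L × EU M} {b : G} (hA : Q.At p b) {ψ : G →₀ ℝ}
    (hψ : Q.OptJ p b ψ) (hc : 0 < Q.chi p) : Q.XXb p b ψ ≤ Q.eta * Q.JG p := by
  have h1 := v_XXb_le h hA hψ
  have h2 := (v_num h).eta1_pos
  have h3 := (v_num h).eta1_eq
  obtain ⟨h4, h5, h6⟩ := v17_eps h
  unfold VD.chi at hc
  have h7 := v_cl_pos hc
  have h8 : Q.XXh p < 2 * Q.eta1 := by
    have : Q.XXh p / Q.eta1 < 2 := by linarith
    rwa [div_lt_iff₀ h2] at this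
  have h9 : Q.L1 * Q.XXh p ≤ Q.L1 * (2 * Q.eta1) := mul_le_mul_of_nonneg_left h8.le (by linarith)
  have h10 := v_one_le_JG h p
  have h11 := h.eta_pos
  have h12 : Q.eta * 1 ≤ Q.eta * Q.JG p := mul_le_mul_of_nonneg_left h10 h11.le
  have h13 : Q.eta1 * 2 ≤ Q.eta1 * Q.L1 := mul_le_mul_of_nonneg_left h5 h2.le
  have h14 : Q.eps * 2 ≤ Q.eps * Q.L1 := mul_le_mul_of_nonneg_left h5 h6.le
  nlinarith

theorem v_J_TA' (h : Q.OK) {p : EU L × EU M} {b : G} (hA : Q.At p b) :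
    Q.J b (Q.TA p) ≤ Q.J b p.1 + Q.eps := by
  obtain ⟨ψ, hψ⟩ := v_exists_OptJ h p b
  have h1 := v_J_TA h hA hψ
  have h2 := v_XXb_nonneg h p b ψ
  linarith

theorem v_J_T1 (h : Q.OK) {p : EU L × EU M} {b : G} (hA : Q.At p b) (hb : Q.JG p = Q.Jp b p)
    (hW : om (Q.fh p) p.2 ≤ 1.1 * Q.W5) (hJ : Q.JG p ≤ Q.C1) (hC : Q.C0 ≤ Q.JG p) :
    Q.J b (Q.T1 p) ≤ Q.J b p.1 - Q.eta1 / (2 * Q.L1) := by
  obtain ⟨ψ, hψ⟩ := v_exists_OptJ h p b
  obtain ⟨-, -, -, -, c0, c1⟩ := v_th Q p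
  obtain ⟨e1, e2, e3⟩ := v17_eps h
  have n1 := (v_num h).eta1_pos
  have n2 := (v_num h).eta1_eq
  have n3 := (v_num h).eta_le
  have hL : 0 < Q.L1 := by linarith
  have h0 := v_J_conv3 h b (Q.TA p) (io Q.c (Q.xJ p)) 0 (α := 1 - Q.chi p) (β := Q.chi p) (γ := 0)
    (by linarith) c0 le_rfl (by ring)
  rw [zero_smul, add_zero, zero_mul, add_zero] at h0
  have h1 : (1 - Q.chi p) * Q.J b (Q.TA p) ≤
      (1 - Q.chi p) * (Q.J b p.1 - Q.eta1 / (2 * Q.L1)) := by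
    rcases eq_or_lt_of_le c1 with hc | hc
    · rw [hc, sub_self, zero_mul, zero_mul]
    · refine mul_le_mul_of_nonneg_left ?_ (by linarith)
      have h2 := v_J_TA h hA hψ
      have h3 := v_XXh_le h hA hψ.tot1
      have hc' := hc
      unfold VD.chi at hc'
      have h4 := v_cl_lt hc'
      have h5 : Q.eta1 < Q.XXh p := by
        have : 1 < Q.XXh p / Q.eta1 := by linarith
        rwa [lt_div_iff₀ n1, one_mul] at this
      have h6 : Q.eta1 / Q.L1 ≤ Q.XXb p b ψ := by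
        rw [div_le_iff₀ hL]
        linarith
      have h7 : Q.eps ≤ Q.eta1 / (2 * Q.L1) := by
        rw [le_div_iff₀ (by linarith)]
        have : 0 < Q.L1 * Q.eps := mul_pos hL e3
        linarith
      have h8 : Q.eta1 / Q.L1 = Q.eta1 / (2 * Q.L1) + Q.eta1 / (2 * Q.L1) := by
        field_simp
        ring
      linarith
  have h2 : Q.chi p * Q.J b (io Q.c (Q.xJ p)) ≤
      Q.chi p * (Q.J b p.1 - Q.eta1 / (2 * Q.L1)) := by
    rcases eq_or_lt_of_le c0 with hc | hc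
    · rw [← hc, zero_mul, zero_mul]
    · refine mul_le_mul_of_nonneg_left ?_ c0
      have h3 := v_chi_tight h hA hψ hc
      have h4 := v_xJ_wb h hA hJ hb hW hψ h3
      have h5 := v_J_io h b (v_xJ_tot h hA.z hJ)
      have h6 := v_Jp_eq h hA hW
      have h7 := h.C0b
      have h8 : 6 / Q.kap = 2 * (3 / Q.kap) := by ring
      have h9 := h.C0a
      have h10 : Q.eta1 / (2 * Q.L1) ≤ 1 / 2 := by
        rw [div_le_iff₀ (by linarith)]
        nlinarith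
      linarith
  unfold VD.T1
  linarith

theorem v_JG_step (h : Q.OK) {p : EU L × EU M} (hz : ‖p.2‖ < 1) (hJ : Q.JG p ≤ Q.C1)
    (hW : om (Q.fh p) p.2 ≤ Q.W5) {s : ℝ} (hs : 0 ≤ s) (hs1 : s * (2 + Q.sig) ≤ 1) :
    ‖p.2 + s • Q.V2 p‖ < 1 ∧ ‖p.2 + s • Q.V2 p - p.2‖ ≤ s * (1 + Q.sig) / 16 * (1 - ‖p.2‖) ∧
      Q.JG (p.1 + s • Q.V1 p, p.2 + s • Q.V2 p) ≤
        Q.JG p - s * (Q.th1 p * (Q.eta1 / (2 * Q.L1)) - (1 + Q.sig) * Q.eps) := by
  obtain ⟨b, hA, hb⟩ := v_exists_min_At h hz hJ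
  obtain ⟨v0, v1⟩ := v_vs h p
  obtain ⟨t0, t1, -, -, -, -⟩ := v_th Q p
  obtain ⟨e1, e2, e3⟩ := v17_eps h
  have n1 := (v_num h).eta1_pos
  have nsig := (v_num h).sig_ge
  have hW5 := h.W5a
  have hW' : om (Q.fh p) p.2 ≤ 1.1 * Q.W5 := by linarith
  have hsv0 : 0 ≤ s * Q.vs p := mul_nonneg hs v0
  have hsv : s * Q.vs p ≤ s * (1 + Q.sig) := mul_le_mul_of_nonneg_left v1 hs
  have hst0 : 0 ≤ s * Q.th1 p := mul_nonneg hs t0
  have hst : s * Q.th1 p ≤ s * 1 := mul_le_mul_of_nonneg_left t1 hs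
  have hsv1 : s * Q.vs p ≤ 1 := by linarith
  have he : 0 < 1 - ‖p.2‖ := by linarith
  obtain ⟨g1, g2⟩ := v_step_near (z := p.2) (y := Q.fh p) hz hsv0 hsv1
  rw [v_V2_eq h hJ hW, v_V1_eq h hJ hW]
  obtain ⟨z', hz'⟩ : ∃ z', z' = p.2 + (s * Q.vs p * rhoS p.2 (Q.fh p)) • (Q.fh p - p.2) := ⟨_, rfl⟩
  rw [← hz'] at g1 g2 ⊢
  refine ⟨g2, ?_, ?_⟩
  · refine g1.trans (mul_le_mul_of_nonneg_right ?_ he.le)
    linarith
  · have k1 : ‖z' - p.2‖ ≤ (1 - ‖p.2‖) / 16 := by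
      refine g1.trans ?_
      have := mul_le_mul_of_nonneg_right (show s * Q.vs p / 16 ≤ 1 / 16 by linarith) he.le
      linarith
    obtain ⟨-, k2, -⟩ := v_om_lip (x := Q.f b) (z := p.2) (z' := z') (h.ball b) hz (by linarith)
    have k3 : ‖z' - p.2‖ / (1 - ‖p.2‖) ≤ 1 / 16 := by
      rw [div_le_iff₀ he]
      linarith
    have ho := v_one_le_o h b hz
    have ho' : Q.o b p.2 = om (Q.f b) p.2 := rfl
    have k4 : Q.o b z' ≤ 2 * Q.o b p.2 := by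
      have k5 : (1 + 6 * (‖z' - p.2‖ / (1 - ‖p.2‖))) * om (Q.f b) p.2 ≤ 2 * om (Q.f b) p.2 := by
        refine mul_le_mul_of_nonneg_right (by linarith) ?_
        rw [← ho']
        linarith
      exact k2.trans k5
    have k6 := v_W h hA hW'
    have k7 : 2 * Q.o b p.2 ≤ 2 * Q.K * Q.bt Q.r0 * Q.o b p.2 := by
      refine mul_le_mul_of_nonneg_right ?_ (by linarith)
      have := (v_num h).bt0
      have := h.K1
      nlinarith
    have k8 := v_JG_le h ((1 - s * Q.th1 p - s * Q.vs p) • p.1 + (s * Q.th1 p) • Q.T1 p +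
      (s * Q.vs p) • Q.TA p, z') b
    refine k8.trans ?_
    have k9 : Q.Jp b ((1 - s * Q.th1 p - s * Q.vs p) • p.1 + (s * Q.th1 p) • Q.T1 p +
        (s * Q.vs p) • Q.TA p, z') = Q.J b ((1 - s * Q.th1 p - s * Q.vs p) • p.1 +
        (s * Q.th1 p) • Q.T1 p + (s * Q.vs p) • Q.TA p) := by
      unfold VD.Jp
      simp only
      rw [max_eq_left (by linarith), add_zero]
    rw [k9]
    have k10 := v_J_conv3 h b p.1 (Q.T1 p) (Q.TA p) (α := 1 - s * Q.th1 p - s * Q.vs p)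
      (β := s * Q.th1 p) (γ := s * Q.vs p) (by linarith) hst0 hsv0 (by ring)
    refine k10.trans ?_
    have k11 := v_Jp_eq h hA hW'
    have k12 : s * Q.th1 p * Q.J b (Q.T1 p) ≤
        s * Q.th1 p * (Q.J b p.1 - Q.eta1 / (2 * Q.L1)) := by
      rcases eq_or_lt_of_le t0 with hc | hc
      · rw [← hc, mul_zero, zero_mul, zero_mul]
      · refine mul_le_mul_of_nonneg_left ?_ hst0
        refine v_J_T1 h hA hb hW' hJ ?_
        unfold VD.th1 at hc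
        have h1 := v_cl_pos hc
        have h2 := h.C0a
        rw [div_pos_iff] at h1
        rcases h1 with h1 | h1
        · linarith [h1.1]
        · exfalso
          linarith [h1.2]
    have k13 : s * Q.vs p * Q.J b (Q.TA p) ≤ s * Q.vs p * (Q.J b p.1 + Q.eps) :=
      mul_le_mul_of_nonneg_left (v_J_TA' h hA) hsv0
    have k14 : s * Q.vs p * Q.eps ≤ s * (1 + Q.sig) * Q.eps :=
      mul_le_mul_of_nonneg_right hsv e3.le
    have k15 : (1 - s * Q.th1 p - s * Q.vs p) * Q.J b p.1 + s * Q.th1 p *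
        (Q.J b p.1 - Q.eta1 / (2 * Q.L1)) + s * Q.vs p * (Q.J b p.1 + Q.eps) =
        Q.J b p.1 - s * Q.th1 p * (Q.eta1 / (2 * Q.L1)) + s * Q.vs p * Q.eps := by ring
    have k16 : Q.JG p - s * (Q.th1 p * (Q.eta1 / (2 * Q.L1)) - (1 + Q.sig) * Q.eps) =
        Q.J b p.1 - s * Q.th1 p * (Q.eta1 / (2 * Q.L1)) + s * (1 + Q.sig) * Q.eps := by
      rw [hb, k11]
      ring
    rw [k16]
    linarith

end Pool.HQ
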