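import Pool.Agent.HQ.V17

/-!
MODULE V18A (MP_7936f4_al, part III): ingredients for the decrease of Phi.

z' = z + (s rhoS z y) (y - z).
v_o_step: v_step_near (|z'-z| <= s/16 (1-|z|)), v_om_lip: factor 1 + 6 s/16 = 1 + 3/8 s <= 2.
v_cst_step: v_step (V02) with S = psi.support, t a = k a |psi a|, x a = f a (ball), v_cst_eq with S = support.
v_cst_far: (1 + 3/8 s) and v_cst_mono.
v_Bhat: om(f a, fh) <= 2 K wb b a Kh(A,r) (v_Kh, v_o_fh), so the left side is <= 2 K Kh cst (k wb b) psi; psiJ optimal for J_b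
 (v_exists_OptJ; Tm by v_OptJ_Tm) and v_near2 with w = wb b, Lw = 1: cst (k wb b) psi <= cst (k wb b) psiJ + eps <= J b X + eps
 (k <= 1, cst (wb b) psiJ <= J b X) <= A + 1.
v_xJ_low (tight case): XJ := cst (o z) xJ <= 6K/kap o b z (v_xJ_o), B := cst (k o z) psi >= cst (k o z) psiJ - L1 eps (v_near2 with
 w = o z, Lw = L1, v_o_le7) >= kap JG/(2 K K3) o b z - L1 eps (v_tight_o; psiJ optimal for J_b), JG >= C0 and C0c give
 kap JG/(2 K K3) >= 6K/kap + 3; t <= kap/(3K): t/2 * 6K/kap <= 1; o b z >= 1; L1 eps <= 1 (v_num eps_sig, eta1 small).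
-/

namespace Pool.HQ

variable {G : Type} [Group G] {M L : ℕ} {Q : VD G M L}

theorem v_o_step (h : Q.OK) {z y : EU M} (hz : ‖z‖ < 1) {s : ℝ} (hs : 0 ≤ s) (hs1 : s ≤ 1) (a : G) :
    Q.o a (z + (s * rhoS z y) • (y - z)) ≤ (1 + 3 / 8 * s) * Q.o a z := by
  have he : 0 < 1 - ‖z‖ := by linarith
  obtain ⟨n1, -⟩ := v_step_near (y := y) hz hs hs1
  have n2 : ‖(z + (s * rhoS z y) • (y - z)) - z‖ ≤ (1 - ‖z‖) / 2 := by
    have : s / 16 * (1 - ‖z‖) ≤ 1 / 2 * (1 - ‖z‖) :=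
      mul_le_mul_of_nonneg_right (by linarith) he.le
    linarith
  have h1 := (v_om_lip (h.ball a) hz n2).2.1
  have h2 : ‖(z + (s * rhoS z y) • (y - z)) - z‖ / (1 - ‖z‖) ≤ s / 16 := by
    rw [div_le_iff₀ he]
    exact n1
  have h3 := v_one_le_o h a hz
  have h4 : 0 ≤ om (Q.f a) z := zero_le_one.trans h3
  refine h1.trans (mul_le_mul_of_nonneg_right ?_ h4)
  linarith

theorem v_cst_step (h : Q.OK) {z y : EU M} (hz : ‖z‖ < 1) (hy : ‖y‖ < 1) {s : ℝ} (hs : 0 ≤ s)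
    (hs1 : s ≤ 1) (k : G → ℝ) (hk : ∀ a, 0 ≤ k a) (ψ : G →₀ ℝ) :
    cst (fun a => k a * Q.o a (z + (s * rhoS z y) • (y - z))) ψ ≤
      (1 - s * rhoS z y / 8) * cst (fun a => k a * Q.o a z) ψ +
        s / 10 * max 0 (cst (fun a => k a * om (Q.f a) y) ψ - 1 / 4 * cst (fun a => k a * Q.o a z) ψ) := by
  have h1 := v_step ψ.support (fun a => k a * |ψ a|) Q.f
    (fun a _ => mul_nonneg (hk a) (abs_nonneg _)) (fun a _ => h.ball a) hz hy hs hs1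
  have e : ∀ y' : EU M, cst (fun a => k a * om (Q.f a) y') ψ =
      ∑ a ∈ ψ.support, k a * |ψ a| * om (Q.f a) y' := by
    intro y'
    rw [v_cst_eq _ ψ ψ.support subset_rfl]
    exact Finset.sum_congr rfl fun a _ => by ring
  have e1 := e (z + (s * rhoS z y) • (y - z))
  have e2 := e z
  have e3 := e y
  change cst (fun a => k a * om (Q.f a) (z + (s * rhoS z y) • (y - z))) ψ ≤
      (1 - s * rhoS z y / 8) * cst (fun a => k a * om (Q.f a) z) ψ +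
        s / 10 * max 0 (cst (fun a => k a * om (Q.f a) y) ψ - 1 / 4 * cst (fun a => k a * om (Q.f a) z) ψ)
  rw [e1, e2, e3]
  exact h1

theorem v_cst_far (h : Q.OK) {z y : EU M} (hz : ‖z‖ < 1) {s : ℝ} (hs : 0 ≤ s)
    (hs1 : s ≤ 1) (k : G → ℝ) (hk : ∀ a, 0 ≤ k a) (ψ : G →₀ ℝ) :
    cst (fun a => k a * Q.o a (z + (s * rhoS z y) • (y - z))) ψ ≤
      (1 + 3 / 8 * s) * cst (fun a => k a * Q.o a z) ψ := by
  rw [← v_cst_mul]
  refine v_cst_mono ψ fun a _ => ?_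
  have h1 := mul_le_mul_of_nonneg_left (v_o_step h (y := y) hz hs hs1 a) (hk a)
  linarith

/-- the near part of the cost of a test measure -/
theorem V18A_near (h : Q.OK) {p : EU L × EU M} {b : G} (hA : Q.At p b) {ψ : G →₀ ℝ}
    (hψ : Q.Tm p b ψ) :
    cst (fun a => Q.k Q.Wc p.2 a * Q.wb b a) ψ ≤ Q.J b p.1 + 1 := by
  obtain ⟨φ, hφ⟩ := v_exists_OptJ h p b
  have hT := v_OptJ_Tm h hA hA hφ
  have h1 := v_near2 h hA hψ.sup hψ.cE hT.sup hT.cE (w := Q.wb b) (Lw := 1)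
    (V09_wb h b) (fun a => by rw [one_mul]) zero_le_one
  have h2 : cst (fun a => Q.k Q.Wc p.2 a * Q.wb b a) φ ≤ cst (Q.wb b) φ := by
    refine v_cst_mono φ fun a _ => ?_
    exact mul_le_of_le_one_left (V09_wb h b a) (v_k_mem Q Q.Wc p.2 a).2
  have h3 := hφ.opt
  have h4 : 0 ≤ Q.E * ‖p.1 - io Q.c φ‖ := mul_nonneg (V09_E h) (norm_nonneg _)
  have h5 := (v_num h).eps_one
  linarith

theorem v_Bhat (h : Q.OK) {p : EU L × EU M} {b : G} (hA : Q.At p b) {ψ : G →₀ ℝ}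
    (hψ : Q.Tm p b ψ) {A : ℝ} (hJ : Q.J b p.1 ≤ A) (h1 : 1 ≤ A) (hA0 : A ≤ Q.A0) {r : ℕ}
    (hr : 4 * A ≤ Q.bt r) (hrm : r ≤ Q.rm) :
    cst (fun a => Q.k Q.Wc p.2 a * om (Q.f a) (Q.fh p)) ψ ≤ 2 * Q.K * Q.Kh A r * (A + 1) := by
  have k1 := v_Kh h hA hJ h1 hA0 hr hrm
  have k2 := v_one_le_Kh h (A := A) (by linarith) r
  have k3 := h.K1
  have k4 := V18A_near h hA hψ
  have k5 : cst (fun a => Q.k Q.Wc p.2 a * om (Q.f a) (Q.fh p)) ψ ≤
      (2 * Q.K * Q.Kh A r) * cst (fun a => Q.k Q.Wc p.2 a * Q.wb b a) ψ := by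
    rw [← v_cst_mul]
    refine v_cst_mono ψ fun a _ => ?_
    have := mul_le_mul_of_nonneg_left (v_o_fh h hA k1 a) (v_k_mem Q Q.Wc p.2 a).1
    linarith
  have k6 : 0 ≤ 2 * Q.K * Q.Kh A r := by positivity
  exact k5.trans (mul_le_mul_of_nonneg_left (by linarith) k6)

theorem v_xJ_low (h : Q.OK) {p : EU L × EU M} {b : G} (hA : Q.At p b) (hJ : Q.JG p ≤ Q.C1)
    (hb : Q.JG p = Q.Jp b p) (hW : om (Q.fh p) p.2 ≤ 1.1 * Q.W5) (hC : Q.C0 ≤ Q.JG p)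
    (hc : 0 < Q.chi p) {ψ : G →₀ ℝ} (hψ : Q.Tm p b ψ) {t : ℝ} (ht : 0 ≤ t)
    (ht1 : t ≤ Q.kap / (3 * Q.K)) :
    1 ≤ cst (fun a => Q.k Q.Wc p.2 a * Q.o a p.2) ψ -
      (1 + t / 2) * cst (fun a => Q.o a p.2) (Q.xJ p) := by
  obtain ⟨φ, hφ⟩ := v_exists_OptJ h p b
  have hT := v_OptJ_Tm h hA hA hφ
  have hn := v_num h
  have hX := v_chi_tight h hA hφ hc
  have h1 := v_xJ_o h hA hJ hb hW hφ hX
  have h2 := v_tight_o h hA hb hW hφ hX
  have h3 := v_near2 h hA hT.sup hT.cE hψ.sup hψ.cE (w := fun a => Q.o a p.2) (Lw := Q.L1)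
    (fun a => zero_le_one.trans (v_one_le_o h a hA.z)) (fun a => v_o_le7 h a hA.z hA.o7)
    (by linarith [V09_L1 h])
  have hK := h.K1
  have hK3 := hn.K3_ge
  have hk := hn.kap_pos
  have ho := v_one_le_o h b hA.z
  have hL := V09_L1 h
  -- L1 eps <= 1
  have h4 : Q.L1 * Q.eps ≤ 1 := by
    have a1 := hn.eps_sig
    have a2 := hn.eta1_kap
    have a3 := hn.kap_le
    have a4 := hn.sig_ge
    have a5 : 0 ≤ Q.L1 * Q.eps := mul_nonneg (by linarith) h.eps_pos.le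
    have a6 : 0 ≤ (Q.sig + 1 - 1) * (Q.L1 * Q.eps) := mul_nonneg (by linarith) a5
    nlinarith
  -- the lower bound for the coefficient
  have h5 : 6 * Q.K / Q.kap + 3 ≤ Q.kap * Q.JG p / (2 * Q.K * Q.K3) := by
    have b1 := h.C0c
    have b2 : 2 * Q.K * Q.K3 / Q.kap * (6 * Q.K / Q.kap + 3) ≤ Q.JG p := b1.trans hC
    have b3 : 0 < 2 * Q.K * Q.K3 := by positivity
    rw [le_div_iff₀ b3]
    have b4 := mul_le_mul_of_nonneg_left b2 hk.le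
    have b5 : Q.kap * (2 * Q.K * Q.K3 / Q.kap * (6 * Q.K / Q.kap + 3)) =
        (6 * Q.K / Q.kap + 3) * (2 * Q.K * Q.K3) := by
      field_simp
    linarith
  have h6 : (6 * Q.K / Q.kap + 3) * Q.o b p.2 ≤
      Q.kap * Q.JG p / (2 * Q.K * Q.K3) * Q.o b p.2 :=
    mul_le_mul_of_nonneg_right h5 (by linarith)
  have h7 : (1 + t / 2) * cst (fun a => Q.o a p.2) (Q.xJ p) ≤
      (1 + t / 2) * (6 * Q.K / Q.kap * Q.o b p.2) := mul_le_mul_of_nonneg_left h1 (by linarith)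
  have h8 : t / 2 * (6 * Q.K / Q.kap) ≤ 1 := by
    rw [le_div_iff₀ (by positivity)] at ht1
    rw [show t / 2 * (6 * Q.K / Q.kap) = t * (3 * Q.K) / Q.kap by ring, div_le_one hk]
    exact ht1
  have h9 : t / 2 * (6 * Q.K / Q.kap) * Q.o b p.2 ≤ 1 * Q.o b p.2 :=
    mul_le_mul_of_nonneg_right h8 (by linarith)
  have h10 : (1 + t / 2) * (6 * Q.K / Q.kap * Q.o b p.2) =
      6 * Q.K / Q.kap * Q.o b p.2 + t / 2 * (6 * Q.K / Q.kap) * Q.o b p.2 := by ring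
  have h11 : (6 * Q.K / Q.kap + 3) * Q.o b p.2 = 6 * Q.K / Q.kap * Q.o b p.2 + 3 * Q.o b p.2 := by
    ring
  linarith

end Pool.HQ
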