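import Pool.Agent.HQ.V18A

/-!
MODULE V18B (MP_7936f4_al, part III): the trial measure for Phi after an Euler step.

psi is optimal for Phi at p (hopt) and Tm p b psi.  t = s th1, sg = s vs (t + sg <= s (2+sig) <= 1, t <= 1/2 as sig >= 1 gives
 s <= 1/3), chi in [0,1], rho = rhoS z (fh p) in (0,1/16], y = fh p, z = p.2, z' = z + (sg rho) (y - z) = z + s V2 (v_V2_eq),
 X' = X + s V1 = (1-t-sg) X + t T1 + sg TA (v_V1_eq), T1 = (1-chi) TA + chi io xJ, TA = io qA.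
 psi' = (1-t-sg) psi + (t (1-chi) + sg) qA + (t chi) xJ, tot psi' = 1 (v_qA_tot, v_xJ_tot), X' - io psi' = (1-t-sg)(X - io psi).
 v_Ph_le_test at p' : Ph p' <= cst (o z') psi' + E |X' - io psi'| <= (1-t-sg) cst (o z') psi + (t(1-chi)+sg) cst (o z') qA +
   t chi cst (o z') xJ + (1-t-sg) e.
 (1) cst (o z') qA <= cst (k o z') psi + 2 L1 eps (v_trunc with w = o z', Lw = 2 L1: o a z' <= 2 o a z <= 2 L1 wb b a).
 (2) cst (o z') psi = cst (k o z') psi + cst ((1-k) o z') psi (v_cst_split), the coefficients of cst (k o z') psi add up to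
   1 - t chi, in [1/2, 1];  (1 - t chi)((1 - sg rho/8) B + sg/10 max(0, Bh - B/4)) <= (1 - t chi - sg rho/16) B + sg/10 max(..)
   (v_cst_step; B >= 0, t chi <= 1/2).
 (3) cst ((1-k) o z') psi <= (1 + 3/8 sg) T (v_cst_far), (1-t-sg)(1+3/8 sg) <= 1 - t - sg/2 (T >= 0).
 (4) cst (o z') xJ <= (1 + 3/8 sg) XJ <= (1 + sg/2) XJ.
 (5) Ph p = B + T + e (v_cst_split, hopt).
 Sum: Ph p' <= (1 - t chi - sg rho/16) B + sg/10 max + (1 - t - sg/2) T + (1-t-sg) e + 2 (t+sg) L1 eps + t chi (1+sg/2) XJ.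
-/

namespace Pool.HQ

variable {G : Type} [Group G] {M L : ℕ} {Q : VD G M L}

theorem v_Ph_trial (h : Q.OK) {p : EU L × EU M} {b : G} (hA : Q.At p b) (hJ : Q.JG p ≤ Q.C1)
    (hW : om (Q.fh p) p.2 ≤ Q.W5) {ψ : G →₀ ℝ} (hψ : Q.Tm p b ψ)
    (hopt : cst (fun a => Q.o a p.2) ψ + Q.E * ‖p.1 - io Q.c ψ‖ = Q.Ph p)
    {s : ℝ} (hs : 0 ≤ s) (hs1 : s * (2 + Q.sig) ≤ 1) {B T e Bh XJ : ℝ}
    (hB : cst (fun a => Q.k Q.Wc p.2 a * Q.o a p.2) ψ = B)
    (hT : cst (fun a => (1 - Q.k Q.Wc p.2 a) * Q.o a p.2) ψ = T)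
    (he : Q.E * ‖p.1 - io Q.c ψ‖ = e)
    (hBh : cst (fun a => Q.k Q.Wc p.2 a * om (Q.f a) (Q.fh p)) ψ = Bh)
    (hXJ : cst (fun a => Q.o a p.2) (Q.xJ p) = XJ) :
    Q.Ph (p.1 + s • Q.V1 p, p.2 + s • Q.V2 p) ≤ Q.Ph p -
      (s * Q.th1 p * Q.chi p * (B - (1 + s * Q.vs p / 2) * XJ) + s * Q.th1 p * (T + e) +
        s * Q.vs p * rhoS p.2 (Q.fh p) / 16 * B + s * Q.vs p / 2 * (T + e) -
        s * Q.vs p / 10 * max 0 (Bh - 1 / 4 * B) - 2 * (s * Q.th1 p + s * Q.vs p) * Q.L1 * Q.eps) := by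
  have hz := hA.z
  have hy := v_fh_norm h hA
  have hn := v_num h
  obtain ⟨t10, t11, -, -, c0, c1⟩ := v_th Q p
  obtain ⟨vs0, vs1⟩ := v_vs h p
  obtain ⟨hr0, hr1⟩ := v_rho_pos (y := Q.fh p) hz
  have hsig := hn.sig_ge
  have hL1 : 0 < Q.L1 := v08_L1_pos h
  have heps := h.eps_pos
  obtain ⟨t, ht⟩ : ∃ t, t = s * Q.th1 p := ⟨_, rfl⟩
  obtain ⟨sg, hsg⟩ : ∃ sg, sg = s * Q.vs p := ⟨_, rfl⟩
  obtain ⟨rho, hrho⟩ : ∃ rho, rho = rhoS p.2 (Q.fh p) := ⟨_, rfl⟩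
  obtain ⟨chi, hchi⟩ : ∃ chi, chi = Q.chi p := ⟨_, rfl⟩
  have ht0 : 0 ≤ t := by rw [ht]; exact mul_nonneg hs t10
  have hsg0 : 0 ≤ sg := by rw [hsg]; exact mul_nonneg hs vs0
  have hts : t ≤ s := by
    rw [ht]
    exact mul_le_of_le_one_right hs t11
  have hsgs : sg ≤ s * (1 + Q.sig) := by
    rw [hsg]
    exact mul_le_mul_of_nonneg_left vs1 hs
  have hsum : t + sg ≤ 1 := by
    have e : s * (2 + Q.sig) = s + s * (1 + Q.sig) := by ring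
    rw [e] at hs1
    linarith
  have hs3 : s ≤ 1 / 3 := by
    have e : s * 3 ≤ s * (2 + Q.sig) := mul_le_mul_of_nonneg_left (by linarith) hs
    linarith
  have ht2 : t ≤ 1 / 2 := by linarith
  have hsg1 : sg ≤ 1 := by linarith
  have hV2 := v_V2_eq h hJ hW s
  have hV1 := v_V1_eq h hJ hW s
  rw [← hsg, ← ht] at hV1
  rw [← hsg] at hV2
  obtain ⟨z', hz'⟩ : ∃ z', z' = p.2 + s • Q.V2 p := ⟨_, rfl⟩
  have hz'e : z' = p.2 + (sg * rhoS p.2 (Q.fh p)) • (Q.fh p - p.2) := by rw [hz', hV2]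
  have hz'n : ‖z'‖ < 1 := by
    rw [hz'e]
    exact (v_step_near hz hsg0 hsg1).2
  have ho0 : ∀ a, 0 ≤ Q.o a p.2 := fun a => zero_le_one.trans (v_one_le_o h a hz)
  have ho0' : ∀ a, 0 ≤ Q.o a z' := fun a => zero_le_one.trans (v_one_le_o h a hz'n)
  have hstep : ∀ a, Q.o a z' ≤ (1 + 3 / 8 * sg) * Q.o a p.2 := fun a => by
    rw [hz'e]
    exact v_o_step h hz hsg0 hsg1 a
  have hk := fun a => v_k_mem Q Q.Wc p.2 a
  -- the test measure
  obtain ⟨ψ', hψ'⟩ : ∃ ψ' : G →₀ ℝ, ψ' = (1 - t - sg) • ψ +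
      ((t * (1 - chi) + sg) • Q.qA p + (t * chi) • Q.xJ p) := ⟨_, rfl⟩
  have htot : tot ψ' = 1 := by
    rw [hψ', v_tot_add, v_tot_add, v_tot_smul, v_tot_smul, v_tot_smul, hψ.tot1, v_qA_tot h hA,
      v_xJ_tot h hz hJ]
    ring
  have hdiff : p.1 + s • Q.V1 p - io Q.c ψ' = (1 - t - sg) • (p.1 - io Q.c ψ) := by
    rw [hV1, hψ', v_io_add, v_io_add, v_io_smul, v_io_smul, v_io_smul]
    unfold VD.T1 VD.TA
    rw [← hchi]
    module
  have htest := v_Ph_le_test h (p := (p.1 + s • Q.V1 p, z')) hz'n htot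
  have h1ts : 0 ≤ 1 - t - sg := by linarith
  have hE' : Q.E * ‖p.1 + s • Q.V1 p - io Q.c ψ'‖ = (1 - t - sg) * e := by
    rw [hdiff, norm_smul, Real.norm_of_nonneg h1ts, ← he]
    ring
  simp only at htest
  rw [hE'] at htest
  have htc0 : 0 ≤ t * chi := mul_nonneg ht0 (by rw [hchi]; exact c0)
  have htc1 : t * chi ≤ t := by rw [hchi]; exact mul_le_of_le_one_right ht0 c1
  have hq0 : 0 ≤ t * (1 - chi) + sg := by
    have : 0 ≤ t * (1 - chi) := mul_nonneg ht0 (by rw [hchi]; linarith)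
    linarith
  have hcst : cst (fun a => Q.o a z') ψ' ≤ (1 - t - sg) * cst (fun a => Q.o a z') ψ +
      ((t * (1 - chi) + sg) * cst (fun a => Q.o a z') (Q.qA p) +
        (t * chi) * cst (fun a => Q.o a z') (Q.xJ p)) := by
    rw [hψ']
    refine (v_cst_add_le ho0' _ _).trans ?_
    rw [v_cst_smul, abs_of_nonneg h1ts]
    refine add_le_add le_rfl ?_
    refine (v_cst_add_le ho0' _ _).trans ?_
    rw [v_cst_smul, v_cst_smul, abs_of_nonneg hq0, abs_of_nonneg htc0]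
  -- (1)
  have e1 : cst (fun a => Q.o a z') (Q.qA p) ≤
      cst (fun a => Q.k Q.Wc p.2 a * Q.o a z') ψ + 2 * Q.L1 * Q.eps := by
    refine v_trunc h hA hψ ho0' (fun a => ?_) (by linarith)
    have h1 := hstep a
    have h2 := v_o_le7 h a hz hA.o7
    have h3 := ho0 a
    have h4 : sg * Q.o a p.2 ≤ 1 * Q.o a p.2 := mul_le_mul_of_nonneg_right hsg1 h3
    linarith
  -- (2)
  have e2 : cst (fun a => Q.k Q.Wc p.2 a * Q.o a z') ψ ≤
      (1 - sg * rho / 8) * B + sg / 10 * max 0 (Bh - 1 / 4 * B) := by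
    have := v_cst_step h hz hy hsg0 hsg1 (fun a => Q.k Q.Wc p.2 a) (fun a => (hk a).1) ψ
    rw [← hz'e, hB, hBh, ← hrho] at this
    exact this
  have e3 : cst (fun a => (1 - Q.k Q.Wc p.2 a) * Q.o a z') ψ ≤ (1 + 3 / 8 * sg) * T := by
    have := v_cst_far h (y := Q.fh p) hz hsg0 hsg1 (fun a => 1 - Q.k Q.Wc p.2 a)
      (fun a => by linarith [(hk a).2]) ψ
    rw [← hz'e, hT] at this
    exact this
  have e4 : cst (fun a => Q.o a z') (Q.xJ p) ≤ (1 + 3 / 8 * sg) * XJ := by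
    have := v_cst_mono (w := fun a => Q.o a z') (w' := fun a => (1 + 3 / 8 * sg) * Q.o a p.2)
      (Q.xJ p) (fun a _ => hstep a)
    rw [v_cst_mul, hXJ] at this
    exact this
  have e5 : Q.Ph p = B + T + e := by
    rw [← hopt, he, v_cst_split Q p.2 (fun a => Q.o a p.2) ψ, hB, hT]
  have e6 := v_cst_split Q p.2 (fun a => Q.o a z') ψ
  have hB0 : 0 ≤ B := by
    rw [← hB]
    exact v_cst_nonneg (fun a => mul_nonneg (hk a).1 (ho0 a)) ψ
  have hT0 : 0 ≤ T := by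
    rw [← hT]
    exact v_cst_nonneg (fun a => mul_nonneg (by linarith [(hk a).2]) (ho0 a)) ψ
  have hXJ0 : 0 ≤ XJ := by
    rw [← hXJ]
    exact v_cst_nonneg ho0 _
  have he0 : 0 ≤ e := by
    rw [← he]
    exact mul_nonneg (zero_le_one.trans h.E1) (norm_nonneg _)
  rw [← hz', e5, ← hsg, ← ht, ← hchi, ← hrho]
  rw [← hrho] at hr0 hr1
  obtain ⟨mx, hmx⟩ : ∃ mx, mx = max 0 (Bh - 1 / 4 * B) := ⟨_, rfl⟩
  have hmx0 : 0 ≤ mx := by rw [hmx]; exact le_max_left _ _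
  rw [← hmx] at e2 ⊢
  rw [e6] at hcst
  obtain ⟨K1, hK1⟩ : ∃ K1, K1 = cst (fun a => Q.k Q.Wc p.2 a * Q.o a z') ψ := ⟨_, rfl⟩
  obtain ⟨F1, hF1⟩ : ∃ F1, F1 = cst (fun a => (1 - Q.k Q.Wc p.2 a) * Q.o a z') ψ := ⟨_, rfl⟩
  rw [← hK1] at hcst e1 e2
  rw [← hF1] at hcst e3
  have f1 : (1 - t * chi) * K1 ≤ (1 - t * chi - sg * rho / 16) * B + sg / 10 * mx := by
    have g1 : (1 - t * chi) * K1 ≤
        (1 - t * chi) * ((1 - sg * rho / 8) * B + sg / 10 * mx) :=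
      mul_le_mul_of_nonneg_left e2 (by linarith)
    have g2 : 0 ≤ sg * rho * B := mul_nonneg (mul_nonneg hsg0 hr0.le) hB0
    have g3 : 0 ≤ sg * mx := mul_nonneg hsg0 hmx0
    have g4 : t * chi * (sg * rho * B) ≤ 1 / 2 * (sg * rho * B) :=
      mul_le_mul_of_nonneg_right (by linarith) g2
    have g5 : 0 ≤ t * chi * (sg * mx) := mul_nonneg htc0 g3
    linarith
  have f2 : (1 - t - sg) * F1 ≤ (1 - t - sg / 2) * T := by
    have g1 : (1 - t - sg) * F1 ≤ (1 - t - sg) * ((1 + 3 / 8 * sg) * T) :=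
      mul_le_mul_of_nonneg_left e3 h1ts
    have g2 : (1 - t - sg) * (1 + 3 / 8 * sg) ≤ 1 - t - sg / 2 := by
      linarith [mul_nonneg ht0 hsg0, mul_nonneg hsg0 hsg0]
    have g3 := mul_le_mul_of_nonneg_right g2 hT0
    linarith
  have f3 : (1 - t - sg) * e ≤ (1 - t - sg / 2) * e :=
    mul_le_mul_of_nonneg_right (by linarith) he0
  have f4 : (t * (1 - chi) + sg) * cst (fun a => Q.o a z') (Q.qA p) ≤
      (t * (1 - chi) + sg) * K1 + 2 * (t + sg) * Q.L1 * Q.eps := by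
    have g1 := mul_le_mul_of_nonneg_left e1 hq0
    have g2 : 0 ≤ Q.L1 * Q.eps := mul_nonneg hL1.le heps.le
    have g3 : (t * (1 - chi) + sg) * (Q.L1 * Q.eps) ≤ (t + sg) * (Q.L1 * Q.eps) :=
      mul_le_mul_of_nonneg_right (by linarith) g2
    linarith
  have f5 : (t * chi) * cst (fun a => Q.o a z') (Q.xJ p) ≤ t * chi * ((1 + sg / 2) * XJ) := by
    refine mul_le_mul_of_nonneg_left (e4.trans ?_) htc0
    exact mul_le_mul_of_nonneg_right (by linarith) hXJ0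
  linarith

end Pool.HQ
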