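import Pool.Agent.HQ.V18B

/-!
MODULE V18C (MP_7936f4_al, part III): Phi decreases along the Euler step.

b minimiser with At (v_exists_min_At), J b X = Jp b p = JG p =: J (v_Jp_eq).  psi from v_opt_Ph, Tm by v_Tm_Ph.
B, T, e, Bh, XJ as in v_Ph_trial; B, T, e >= 0, Ph p = B + T + e (v_cst_split).  rho0 = 1/(16 (1 + 4 W5^2)) <= rho <= 1/16
 (v_rho_low, om(fh,z) <= W5; v_rho_pos).  t = s th1, sg = s vs.
 (A) z-part: if vs > 0 then EX Ts >= 4 with Bh <= Ts and 8 Ts <= Ph p: if th2 > 0 then J < 1.8 C0 <= 2 C0 and Ts = T0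
     (v_Bhat with A = 2 C0, r = rC: hrC, rCm, T0 def; hC: 16 T0 <= C <= 2 Ph);  if cl (Ph/C5 - 1) > 0 then Ph > C5 >= 8 T5, Ts = T5
     (v_Bhat with A = A0, r = rm).  (vs = th2 + sig cl(..) > 0 implies one of the two, v_cl_pos, v_th.)
     Claim: rho/16 B + (T+e)/2 - 1/10 max 0 (Bh - B/4) >= rho0/4 (if B >= 4 Ts the max is 0 and B >= 16; otherwise T + e >= 4 Ts
     and the max is <= Ts).  Times sg.   [rho/16*B: coefficient is s vs rho/16 * B; with B >= 16: >= rho.]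
 (B) t-part (t > 0, so th1 > 0, J > 1.2 C0): chi (B - (1+sg/2) XJ) + (T + e) >= eta1: if chi > 0: v_xJ_low with t := sg
     (sg <= s (1+sig) <= kap/(3K)): B - (1+sg/2) XJ >= 1.  If chi < 1: T + e >= XXh (v_XXh_test) > eta1.  If chi = 1: >= 1 >= eta1.
     (For 0 < chi < 1 the first term is >= 0, T + e >= eta1.)
 (C) error: 2 L1 eps <= eta1/2 and 2 L1 eps <= rho0/8 (v_num eps_sig; eps_W: 1000 (1+sig) L1 W7^2 eps <= 1, W5 <= W7, W5 >= 5: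
     rho0 >= 1/(80 W5^2)).
 (D) th1 + vs >= 1 (th2 = 1 if J <= 1.5 C0, th1 = 1 if J >= 1.5 C0, v_cl_one; vs >= th2).
 Hence the decrease is >= t eta1/2 + sg rho0/8 >= s kappa with kappa = min (eta1/2) (rho0/8).
-/

namespace Pool.HQ

variable {G : Type} [Group G] {M L : ℕ} {Q : VD G M L}

theorem v_th_sum (h : Q.OK) (p : EU L × EU M) : 1 ≤ Q.th1 p + Q.vs p := by
  have hC0 : 0 < Q.C0 := lt_of_lt_of_le one_pos h.C0a
  have h3 : 0 < 0.3 * Q.C0 := by positivity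
  have hvs : Q.th2 p ≤ Q.vs p := by
    unfold VD.vs
    have h1 := (v_cl_mem (Q.Ph p / Q.C5 - 1)).1
    have h2 := (v_num h).sig_ge
    have h4 : 0 ≤ Q.sig * cl (Q.Ph p / Q.C5 - 1) := mul_nonneg (by linarith) h1
    linarith
  have hth := v_th Q p
  rcases le_total (Q.JG p) (1.5 * Q.C0) with hJ | hJ
  · have h4 : Q.th2 p = 1 := by
      unfold VD.th2
      apply v_cl_one
      rw [le_div_iff₀ h3]
      linarith
    linarith [hth.1]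
  · have h4 : Q.th1 p = 1 := by
      unfold VD.th1
      apply v_cl_one
      rw [le_div_iff₀ h3]
      linarith
    linarith [(v_vs h p).1]

theorem v_th1_pos (h : Q.OK) {p : EU L × EU M} (ht : 0 < Q.th1 p) : Q.C0 ≤ Q.JG p := by
  have hC0 : 0 < Q.C0 := lt_of_lt_of_le one_pos h.C0a
  have h3 : 0 < 0.3 * Q.C0 := by positivity
  unfold VD.th1 at ht
  have h1 := v_cl_pos ht
  rw [div_pos_iff_of_pos_right h3] at h1
  linarith

theorem v18c_rho0 (h : Q.OK) {z : EU M} (hz : ‖z‖ < 1) {y : EU M} (hy : ‖y‖ < 1)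
    (hW : om y z ≤ Q.W5) : 1 / (16 * (1 + 4 * Q.W5 ^ 2)) ≤ rhoS z y := by
  refine le_trans ?_ (v_rho_low hz hy)
  have h1 := one_le_om hy hz
  have h2 : om y z ^ 2 ≤ Q.W5 ^ 2 := pow_le_pow_left₀ (by linarith) hW 2
  exact div_le_div_of_nonneg_left zero_le_one (by positivity) (by linarith)

theorem v18c_one (h : Q.OK) {p : EU L × EU M} {b : G} (hA : Q.At p b) (hJ : Q.J b p.1 = Q.JG p)
    {ψ : G →₀ ℝ} (hψ : Q.Tm p b ψ) (hC : Q.C / 2 ≤ Q.Ph p) (hv : 0 < Q.vs p) :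
    ∃ Ts : ℝ, 4 ≤ Ts ∧ cst (fun a => Q.k Q.Wc p.2 a * om (Q.f a) (Q.fh p)) ψ ≤ Ts ∧
      8 * Ts ≤ Q.Ph p := by
  have hn := v_num h
  have hC0 := h.C0a
  have hth := v_th Q p
  by_cases h2 : 0 < Q.th2 p
  · refine ⟨Q.T0, by linarith [hn.T0_ge], ?_, by linarith [h.hC]⟩
    have h3 : 0 < 0.3 * Q.C0 := by positivity
    unfold VD.th2 at h2
    have h4 := v_cl_pos h2
    rw [div_pos_iff_of_pos_right h3] at h4
    have h5 : Q.J b p.1 ≤ 2 * Q.C0 := by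
      rw [hJ]
      linarith
    have h6 := v_Bhat h hA hψ (A := 2 * Q.C0) h5 (by linarith) (by linarith [hn.C0_A0])
      (r := Q.rC) (by linarith [h.hrC]) h.rCm
    exact h6
  · have h3 : Q.th2 p = 0 := le_antisymm (not_lt.1 h2) hth.2.2.1
    have h4 : 0 < cl (Q.Ph p / Q.C5 - 1) := by
      have hsig : 0 < Q.sig := by linarith [hn.sig_ge]
      have h5 : Q.vs p = Q.th2 p + Q.sig * cl (Q.Ph p / Q.C5 - 1) := rfl
      rw [h5, h3, zero_add] at hv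
      exact pos_of_mul_pos_right hv hsig.le
    have h5 := v_cl_pos h4
    have hC5 : 0 < Q.C5 := by linarith [hn.C5_ge]
    have h6 : Q.C5 < Q.Ph p := by
      have h7 : 1 < Q.Ph p / Q.C5 := by linarith
      rwa [one_lt_div hC5] at h7
    have hA0 : 8 ≤ Q.A0 := by linarith [hn.A0_eq, hn.C1_ge]
    refine ⟨Q.T5, by linarith [hn.T5_ge], ?_, by linarith [h.hC5]⟩
    have h6 := v_Bhat h hA hψ (A := Q.A0) hA.J (by linarith) le_rfl
      (r := Q.rm) h.hrm le_rfl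
    exact h6

/-- part (A) -/
theorem v_z_gain (h : Q.OK) {p : EU L × EU M} {b : G} (hA : Q.At p b) (hJ : Q.J b p.1 = Q.JG p)
    (hW : om (Q.fh p) p.2 ≤ Q.W5) {ψ : G →₀ ℝ} (hψ : Q.Tm p b ψ)
    (hopt : cst (fun a => Q.o a p.2) ψ + Q.E * ‖p.1 - io Q.c ψ‖ = Q.Ph p) (hC : Q.C / 2 ≤ Q.Ph p)
    {B T e Bh : ℝ}
    (hB : cst (fun a => Q.k Q.Wc p.2 a * Q.o a p.2) ψ = B)
    (hT : cst (fun a => (1 - Q.k Q.Wc p.2 a) * Q.o a p.2) ψ = T)
    (he : Q.E * ‖p.1 - io Q.c ψ‖ = e)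
    (hBh : cst (fun a => Q.k Q.Wc p.2 a * om (Q.f a) (Q.fh p)) ψ = Bh) (hv : 0 < Q.vs p) :
    1 / (16 * (1 + 4 * Q.W5 ^ 2)) / 4 ≤
      rhoS p.2 (Q.fh p) / 16 * B + (T + e) / 2 - 1 / 10 * max 0 (Bh - 1 / 4 * B) := by
  have hn := v_num h
  have hz := hA.z
  have hfh := v_fh_norm h hA
  have hρ := v18c_rho0 h hz hfh hW
  have hρ0 := (v_rho_pos (y := Q.fh p) hz).1
  obtain ⟨Ts, h4, hTs, h8⟩ := v18c_one h hA hJ hψ hC hv
  rw [hBh] at hTs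
  have hk := fun a => v_k_mem Q Q.Wc p.2 a
  have ho : ∀ a, 0 ≤ Q.o a p.2 := fun a => zero_le_one.trans (v_one_le_o h a hz)
  have hB0 : 0 ≤ B := by
    rw [← hB]
    exact v_cst_nonneg (fun a => mul_nonneg (hk a).1 (ho a)) ψ
  have hT0 : 0 ≤ T := by
    rw [← hT]
    exact v_cst_nonneg (fun a => mul_nonneg (by linarith [(hk a).2]) (ho a)) ψ
  have he0 : 0 ≤ e := by
    rw [← he]
    exact mul_nonneg (V09_E h) (norm_nonneg _)
  have hsum : Q.Ph p = B + T + e := by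
    have h1 : cst (fun a => Q.o a p.2) ψ =
        cst (fun a => Q.k Q.Wc p.2 a * Q.o a p.2) ψ +
          cst (fun a => (1 - Q.k Q.Wc p.2 a) * Q.o a p.2) ψ :=
      v_cst_split Q p.2 (fun a => Q.o a p.2) ψ
    rw [← hopt, h1, hB, hT, he]
  have hr1 : 1 / (16 * (1 + 4 * Q.W5 ^ 2)) ≤ 1 := by
    rw [div_le_one (by positivity)]
    nlinarith [sq_nonneg Q.W5]
  have hr0 : 0 < 1 / (16 * (1 + 4 * Q.W5 ^ 2)) := by positivity
  by_cases hc : 4 * Ts ≤ B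
  · have h5 : max 0 (Bh - 1 / 4 * B) = 0 := max_eq_left (by linarith)
    rw [h5]
    have h6 : rhoS p.2 (Q.fh p) / 16 * 16 ≤ rhoS p.2 (Q.fh p) / 16 * B :=
      mul_le_mul_of_nonneg_left (by linarith) (by linarith)
    linarith
  · have h5 : max 0 (Bh - 1 / 4 * B) ≤ Ts := max_le (by linarith) (by linarith)
    have h6 : 0 ≤ rhoS p.2 (Q.fh p) / 16 * B := mul_nonneg (by linarith) hB0
    linarith

theorem v_Ph_step (h : Q.OK) {p : EU L × EU M} (hz : ‖p.2‖ < 1) (hJ : Q.JG p ≤ Q.C1)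
    (hW : om (Q.fh p) p.2 ≤ Q.W5) (hC : Q.C / 2 ≤ Q.Ph p) {s : ℝ} (hs : 0 ≤ s)
    (hs1 : s * (2 + Q.sig) ≤ 1) (hs2 : s * (1 + Q.sig) ≤ Q.kap / (3 * Q.K)) :
    Q.Ph (p.1 + s • Q.V1 p, p.2 + s • Q.V2 p) ≤
      Q.Ph p - s * min (Q.eta1 / 2) (1 / (16 * (1 + 4 * Q.W5 ^ 2)) / 8) := by
  have hn := v_num h
  have hW5 : 5 ≤ Q.W5 := h.W5a
  have hW' : om (Q.fh p) p.2 ≤ 1.1 * Q.W5 := by linarith
  obtain ⟨b, hA, hb⟩ := v_exists_min_At h hz hJ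
  have hJb : Q.J b p.1 = Q.JG p := by rw [hb, v_Jp_eq h hA hW']
  obtain ⟨ψ, hψ1, hψs, hopt⟩ := v_opt_Ph h hz hA.o7
  have hψ := v_Tm_Ph h hz hA.o7 hA.J hψ1 hψs hopt
  obtain ⟨B, hB⟩ : ∃ B, cst (fun a => Q.k Q.Wc p.2 a * Q.o a p.2) ψ = B := ⟨_, rfl⟩
  obtain ⟨T, hT⟩ : ∃ T, cst (fun a => (1 - Q.k Q.Wc p.2 a) * Q.o a p.2) ψ = T := ⟨_, rfl⟩
  obtain ⟨e, he⟩ : ∃ e, Q.E * ‖p.1 - io Q.c ψ‖ = e := ⟨_, rfl⟩
  obtain ⟨Bh, hBh⟩ : ∃ Bh, cst (fun a => Q.k Q.Wc p.2 a * om (Q.f a) (Q.fh p)) ψ = Bh := ⟨_, rfl⟩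
  obtain ⟨XJ, hXJ⟩ : ∃ XJ, cst (fun a => Q.o a p.2) (Q.xJ p) = XJ := ⟨_, rfl⟩
  have htr := v_Ph_trial h hA hJ hW hψ hopt hs hs1 hB hT he hBh hXJ
  refine htr.trans (sub_le_sub_left ?_ _)
  have hk := fun a => v_k_mem Q Q.Wc p.2 a
  have ho : ∀ a, 0 ≤ Q.o a p.2 := fun a => zero_le_one.trans (v_one_le_o h a hz)
  have hT0 : 0 ≤ T := by
    rw [← hT]
    exact v_cst_nonneg (fun a => mul_nonneg (by linarith [(hk a).2]) (ho a)) ψ
  have he0 : 0 ≤ e := by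
    rw [← he]
    exact mul_nonneg (V09_E h) (norm_nonneg _)
  have hth := v_th Q p
  have hvs := v_vs h p
  have hsum := v_th_sum h p
  have hsig := hn.sig_ge
  have he1 := hn.eta1_pos
  have hL1 : 0 < Q.L1 := v08_L1_pos h
  have hx0 : 0 ≤ Q.L1 * Q.eps := mul_nonneg hL1.le h.eps_pos.le
  -- errors
  have hx1 : 2 * (Q.L1 * Q.eps) ≤ Q.eta1 / 2 := by
    have h1 := hn.eps_sig
    have h2 : 1000 * (1 + Q.sig) * Q.L1 * Q.eps = 1000 * (Q.L1 * Q.eps) +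
      1000 * (Q.sig * (Q.L1 * Q.eps)) := by ring
    have h3 : 0 ≤ Q.sig * (Q.L1 * Q.eps) := mul_nonneg (by linarith) hx0
    linarith
  have hx2 : 2 * (Q.L1 * Q.eps) ≤ 1 / (16 * (1 + 4 * Q.W5 ^ 2)) / 8 := by
    have h1 := hn.eps_W
    have h57 : Q.W5 ≤ Q.W7 := hn.W56.trans hn.W67
    have h2 : Q.W5 ^ 2 ≤ Q.W7 ^ 2 := pow_le_pow_left₀ (by linarith) h57 2
    have h3 : 25 ≤ Q.W5 ^ 2 := by nlinarith
    rw [div_div, le_div_iff₀ (by positivity)]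
    have h4 : 16 * (1 + 4 * Q.W5 ^ 2) * 8 * 2 ≤ 1000 * (1 + Q.sig) * Q.W7 ^ 2 := by
      have h5 : 2000 * Q.W7 ^ 2 ≤ 1000 * (1 + Q.sig) * Q.W7 ^ 2 :=
        mul_le_mul_of_nonneg_right (by linarith) (sq_nonneg _)
      linarith
    have h5 := mul_le_mul_of_nonneg_right h4 hx0
    linarith
  -- the t-part
  have hP : Q.th1 p * Q.eta1 ≤
      Q.th1 p * (Q.chi p * (B - (1 + s * Q.vs p / 2) * XJ) + (T + e)) := by
    by_cases ht : 0 < Q.th1 p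
    · refine mul_le_mul_of_nonneg_left ?_ hth.1
      have hC0 := v_th1_pos h ht
      have hlow : 0 < Q.chi p → 1 ≤ B - (1 + s * Q.vs p / 2) * XJ := by
        intro hc
        have h1 := v_xJ_low h hA hJ hb hW' hC0 hc hψ (t := s * Q.vs p)
          (mul_nonneg hs hvs.1) ((mul_le_mul_of_nonneg_left hvs.2 hs).trans hs2)
        rw [hB, hXJ] at h1
        exact h1
      have hchi0 := hth.2.2.2.2.1
      by_cases hc1 : Q.chi p < 1
      · have h1 : Q.eta1 ≤ T + e := by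
          have h2 := v_XXh_test h hz hψ1
          rw [hT, he] at h2
          have h3 := v_cl_lt hc1
          have h4 : 1 < Q.XXh p / Q.eta1 := by linarith
          rw [one_lt_div he1] at h4
          linarith
        have h2 : 0 ≤ Q.chi p * (B - (1 + s * Q.vs p / 2) * XJ) := by
          by_cases hc0 : 0 < Q.chi p
          · exact mul_nonneg hchi0 (by linarith [hlow hc0])
          · have h3 : Q.chi p = 0 := le_antisymm (not_lt.1 hc0) hchi0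
            rw [h3, zero_mul]
        linarith
      · have h3 : Q.chi p = 1 := le_antisymm hth.2.2.2.2.2 (not_lt.1 hc1)
        have h4 := hlow (by rw [h3]; exact one_pos)
        rw [h3, one_mul]
        linarith [hn.eta1_kap, hn.kap_le]
    · have h1 : Q.th1 p = 0 := le_antisymm (not_lt.1 ht) hth.1
      rw [h1, zero_mul, zero_mul]
  -- the z-part
  have hR : Q.vs p * (1 / (16 * (1 + 4 * Q.W5 ^ 2)) / 4) ≤
      Q.vs p * (rhoS p.2 (Q.fh p) / 16 * B + (T + e) / 2 - 1 / 10 * max 0 (Bh - 1 / 4 * B)) := by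
    by_cases hv : 0 < Q.vs p
    · exact mul_le_mul_of_nonneg_left
        (v_z_gain h hA hJb hW hψ hopt hC hB hT he hBh hv) hvs.1
    · have h1 : Q.vs p = 0 := le_antisymm (not_lt.1 hv) hvs.1
      rw [h1, zero_mul, zero_mul]
  obtain ⟨r0, hr0⟩ : ∃ r0, r0 = 1 / (16 * (1 + 4 * Q.W5 ^ 2)) := ⟨_, rfl⟩
  rw [← hr0] at hx2 hR ⊢
  have hm1 := min_le_left (Q.eta1 / 2) (r0 / 8)
  have hm2 := min_le_right (Q.eta1 / 2) (r0 / 8)
  have hm0 : 0 ≤ min (Q.eta1 / 2) (r0 / 8) := by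
    refine le_min (by linarith) ?_
    rw [hr0]
    positivity
  have k1 : Q.th1 p * (2 * (Q.L1 * Q.eps)) ≤ Q.th1 p * (Q.eta1 / 2) :=
    mul_le_mul_of_nonneg_left hx1 hth.1
  have k2 : Q.vs p * (2 * (Q.L1 * Q.eps)) ≤ Q.vs p * (r0 / 8) :=
    mul_le_mul_of_nonneg_left hx2 hvs.1
  have k3 : Q.th1 p * min (Q.eta1 / 2) (r0 / 8) ≤ Q.th1 p * (Q.eta1 / 2) :=
    mul_le_mul_of_nonneg_left hm1 hth.1
  have k4 : Q.vs p * min (Q.eta1 / 2) (r0 / 8) ≤ Q.vs p * (r0 / 8) :=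
    mul_le_mul_of_nonneg_left hm2 hvs.1
  have k5 : 1 * min (Q.eta1 / 2) (r0 / 8) ≤ (Q.th1 p + Q.vs p) * min (Q.eta1 / 2) (r0 / 8) :=
    mul_le_mul_of_nonneg_right hsum hm0
  have k6 : min (Q.eta1 / 2) (r0 / 8) ≤
      Q.th1 p * (Q.chi p * (B - (1 + s * Q.vs p / 2) * XJ) + (T + e)) +
      Q.vs p * (rhoS p.2 (Q.fh p) / 16 * B + (T + e) / 2 - 1 / 10 * max 0 (Bh - 1 / 4 * B)) -
      (Q.th1 p * (2 * (Q.L1 * Q.eps)) + Q.vs p * (2 * (Q.L1 * Q.eps))) := by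
    linarith
  have k7 := mul_le_mul_of_nonneg_left k6 hs
  refine k7.trans (le_of_eq ?_)
  ring

end Pool.HQ
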