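import Pool.Agent.HQ.V17
import Pool.Agent.HQ.LP03

/-!
MODULE V19 (MP_7936f4_al, part III, helper87): fhat under the Euler step, decrease of om(fhat, z).

Notation n = nb 1 r2 (number of elements of a ball of radius r2), mu = mu rm, bt = bt r2.

v_mm_ball.  If mm p a <> 0 then d a b <= r2, o a z <= W8, X(c a) > tau (v_mm_supp), and v_mm_eq.  If d a b <= r2 then
  o a z <= 2 K wb b a o b z <= 2 K bt r2 W7 <= W8 <= 2 W8 (v_o_le, v_wb_eq, v_bt_le_iff, hA.o7, h.hW8), so v_mm_eq applies.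
v_x_lip.  x p a = mm p a / sm p (v_x_apply), sm p = sum over bl b r2 of mm p a (LP-style: mm vanishes outside bl b r2, and
  bl b r2 is contained in near z (2 W8)), sm p, sm q >= mu > 0 (v_sm_pos).  With m = max 0 (X(c a) - tau), m' for q:
  0 <= m, m' <= A0 (|X i| <= |X| <= J b X <= A0: LP.norm_le_J), |m^3 - m'^3| <= 3 A0^2 |m - m'| <= 3 A0^2 |X - X'| =: e.
  sum |mm p a/sm p - mm q a/sm q| <= sum |mm p a - mm q a|/sm p + (sum mm q a) |1/sm p - 1/sm q| <= n e/sm p + |sm q - sm p|/sm p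
  <= 2 n e/mu = 6 n A0^2/mu |X - X'|.  (n1 over the finite set bl b r2: n1_eq_sum; card of bl b r2 = nb 1 r2: v_card_bl.)
v_fh_lip.  fh p - fh q = sum over bl b r2 of (x p a - x q a) (f a - f b) (total masses 1), |f a - f b| <= 2 om(f a,f b)^2 (1-|f b|^2)
  (v_dist_le) <= 2 K^2 bt^2 (1-|f b|^2), 1-|f b|^2 <= 4 om(f b, fh p)^2 (1-|fh p|^2) <= 4 Khm^2 * 2 (1-|fh p|) (v_D_ratio, v_Khm).
  Total: 6 n A0^2/mu * 2 K^2 bt^2 * 8 Khm^2 = 96 n A0^2 K^2 bt^2 Khm^2/mu <= Lf/10 (n <= n^2, A0^2 <= (A0+1)^2, Khm <= W7: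
  6 K bt r0 Khm W5 <= W6 <= W7).
v_om_fh: v_om_abs in the first variable (om_symm): |fh q - fh p| <= (Lf/10) e (1-|fh p|) <= (1-|fh p|)/2.
v_Ph_big.  a1 from v_big (r = rm, A = A0, h.hrm): d a1 b <= rm, 1/(4N) <= X(c a1) - tau, N = nb 1 rm.  psi from v_opt_Ph, Tm p b psi
  by v_Tm_Ph, psi a1 >= 1/(4N) by v_big_Tm.  Ph p >= cst o psi >= o a1 z * psi a1.  om(fh,z) <= 2 om(fh, f a1) om(f a1, z)
  (v_om_tri), om(f a1, fh) <= 2 K wb b a1 Khm <= 2 K bt rm Khm (v_o_fh, v_Khm).  So o a1 z >= (W5/2)/(4 K bt rm Khm) and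
  Ph >= W5/(32 N K bt rm Khm) >= 2 C5 (h.W5c: 64 C5 N K bt rm Khm <= W5).
v_V1_bd.  cut = 1 (v_cut_one): V1 = th1 (T1 - X) + vs (TA - X).  |TA - X| <= 2 eps (v_TA_near), vs <= 1+sig, and 2 (1+sig) eps <= 1
  (v_num.eps_sig, L1 >= 1, eta1 <= 1).  T1 - X = (1-chi)(TA - X) + chi (io xJ - X), |io xJ| <= n1 xJ = tot xJ = 1 (LP.norm_io_le,
  v_xJ_nonneg, v_xJ_tot), |X| <= J b X <= A0.  So |V1| <= 2 eps + 1 + A0 + 1 <= A0 + 5.
v_step_At.  As in v_JG_step: v_V1_eq, v_J_conv3; if th1 > 0 then JG > 1.2 C0 >= C0 and J b T1 <= J b X (v_J_T1); J b TA <= J b X + eps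
  (v_J_TA'); so J b X' <= J b X + s vs eps <= C1 + 1 <= A0.  o b z' <= (1+6/16) o b z <= W6 <= W7 (v_W, v_step_near, v_om_lip).
v_om_step.  b a minimiser (v_exists_min_At), y = fh p, vs >= sig (v_Ph_big: Ph/C5 - 1 >= 1, v_cl_one; vs = th2 + sig * 1),
  rho = rhoS z y >= 1/(16(1+4 om^2)) >= 1/(80 W5^2) (v_rho_low).  v_step with S = one point, t = 1, x = y and s * vs <= 1:
  om y z' <= (1 - s vs rho/8) om y z + (s vs/10) max 0 (om y y - om y z/4), om y y = 1 (v_om_self), om y z >= W5/2 >= 4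
  (v_num.A056 and A0 >= 8), so the max is 0.  x := s vs rho/8 >= s sig/(640 W5^2) >= 100 Lf (A0+5) s (hsig).
  |X' - X| = s |V1| <= s (A0+5) (v_V1_bd), Lf/10 * s (A0+5) <= 1/2 since s sig <= 1.  v_om_fh at z':
  om (fh p') z' <= (1 + 24 Lf/10 s (A0+5)) om y z' <= (1 + 2.4 Lf (A0+5) s)(1 - x) om y z <= (1 - s) om y z,
  because 2.4 A s - 100 A s <= - s with A = Lf (A0+5) >= 1 (Lf >= 1000: n >= 1, mu <= 1, K, bt, W7 >= 1).
-/

namespace Pool.HQ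

variable {G : Type} [Group G] {M L : ℕ} {Q : VD G M L}

open Classical in
theorem v_mm_ball (h : Q.OK) {p : EU L × EU M} {b : G} (hA : Q.At p b) (a : G) :
    Q.mm p a = if Q.d a b ≤ Q.r2 then max 0 (p.1 (Q.c a) - Q.tau) ^ 3 else 0 := by
  split_ifs with hd
  · refine v_mm_eq h hA ?_
    have h1 := v10_o_le h hA.z hA.o7 hd
    have h2 := v11_W8_pos h
    linarith
  · by_contra hne
    exact hd (v_mm_supp h hA hne).1

theorem v_X_le (h : Q.OK) {p : EU L × EU M} {b : G} (hA : Q.At p b) : ‖p.1‖ ≤ Q.A0 :=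
  (LP.norm_le_J h b p.1).trans hA.J

theorem v_one_le_Lf (h : Q.OK) : 1000 ≤ Q.Lf := by
  have hn := v_num h
  have hC1 := hn.C1_ge
  have hA0 : 8 ≤ Q.A0 := by rw [hn.A0_eq]; linarith
  have h1 : 1 ≤ (Q.A0 + 1) ^ 2 := one_le_pow₀ (by linarith)
  have h2 : 1 ≤ Q.nb 1 Q.r2 ^ 2 := one_le_pow₀ (v_one_le_nb h Q.r2)
  have hm := v_mu_pos h Q.rm
  have h3 : 1 ≤ 1 / Q.mu Q.rm := by
    rw [le_div_iff₀ hm.1]
    linarith [hm.2]
  have h4 : 1 ≤ Q.K ^ 2 := one_le_pow₀ h.K1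
  have h5 : 1 ≤ Q.bt Q.r2 ^ 2 := one_le_pow₀ (v_one_le_bt h Q.r2)
  have h6 : 1 ≤ Q.W7 ^ 2 := one_le_pow₀ (by linarith [v08_W7_pos h])
  have h7 : 1 ≤ (Q.A0 + 1) ^ 2 * Q.nb 1 Q.r2 ^ 2 * (1 / Q.mu Q.rm) * Q.K ^ 2 * Q.bt Q.r2 ^ 2 *
      Q.W7 ^ 2 :=
    one_le_mul_of_one_le_of_one_le (one_le_mul_of_one_le_of_one_le (one_le_mul_of_one_le_of_one_le
      (one_le_mul_of_one_le_of_one_le (one_le_mul_of_one_le_of_one_le h1 h2) h3) h4) h5) h6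
  have e : Q.Lf = 1000 * ((Q.A0 + 1) ^ 2 * Q.nb 1 Q.r2 ^ 2 * (1 / Q.mu Q.rm) * Q.K ^ 2 *
      Q.bt Q.r2 ^ 2 * Q.W7 ^ 2) := by
    unfold VD.Lf
    ring
  rw [e]
  linarith

private theorem v19_coord {n : ℕ} (X : EU n) (i : Fin n) : |X i| ≤ ‖X‖ := by
  have h1 : ‖X i‖ ≤ ‖X‖ := PiLp.norm_apply_le X i
  rwa [Real.norm_eq_abs] at h1

private theorem v19_cube {n : ℕ} {X Y : EU n} {A tau : ℝ} (hX : ‖X‖ ≤ A) (hY : ‖Y‖ ≤ A)
    (ht : 0 < tau) (i : Fin n) :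
    |max 0 (X i - tau) ^ 3 - max 0 (Y i - tau) ^ 3| ≤ 3 * A ^ 2 * ‖X - Y‖ := by
  have hA : 0 ≤ A := (norm_nonneg X).trans hX
  have hm0 : 0 ≤ max 0 (X i - tau) := le_max_left _ _
  have hm0' : 0 ≤ max 0 (Y i - tau) := le_max_left _ _
  have hm : max 0 (X i - tau) ≤ A := by
    refine max_le hA ?_
    have h1 := v19_coord X i
    have h2 := le_abs_self (X i)
    linarith
  have hm' : max 0 (Y i - tau) ≤ A := by
    refine max_le hA ?_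
    have h1 := v19_coord Y i
    have h2 := le_abs_self (Y i)
    linarith
  have hd : |max 0 (X i - tau) - max 0 (Y i - tau)| ≤ ‖X - Y‖ := by
    have h1 := abs_max_sub_max_le_max 0 (X i - tau) 0 (Y i - tau)
    have h2 : X i - tau - (Y i - tau) = (X - Y) i := by
      rw [PiLp.sub_apply]
      ring
    rw [sub_zero, abs_zero, h2] at h1
    exact h1.trans (max_le (norm_nonneg _) (v19_coord (X - Y) i))
  generalize max 0 (X i - tau) = m at *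
  generalize max 0 (Y i - tau) = m' at *
  have e : m ^ 3 - m' ^ 3 = (m ^ 2 + m * m' + m' ^ 2) * (m - m') := by ring
  have h3 : 0 ≤ m ^ 2 + m * m' + m' ^ 2 := by positivity
  have h4 : m ^ 2 + m * m' + m' ^ 2 ≤ 3 * A ^ 2 := by
    have h5 : m ^ 2 ≤ A ^ 2 := pow_le_pow_left₀ hm0 hm 2
    have h6 : m' ^ 2 ≤ A ^ 2 := pow_le_pow_left₀ hm0' hm' 2
    have h7 : m * m' ≤ A * A := mul_le_mul hm hm' hm0' hA
    linarith
  rw [e, abs_mul, abs_of_nonneg h3]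
  exact mul_le_mul h4 hd (abs_nonneg _) (by positivity)

private theorem v19_sm (h : Q.OK) {p : EU L × EU M} {b : G} (hA : Q.At p b) :
    Q.sm p = ∑ a ∈ Q.bl b Q.r2, Q.mm p a := by
  unfold VD.sm
  symm
  refine Finset.sum_subset ?_ ?_
  · intro a ha
    rw [v_mem_bl h] at ha
    rw [v_mem_near h hA.z]
    have h1 := v10_o_le h hA.z hA.o7 ha
    have h2 := v11_W8_pos h
    linarith
  · intro a _ ha
    rw [v_mem_bl h] at ha
    by_contra hne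
    exact ha (v_mm_supp h hA hne).1

/-- quotients by the sum -/
private theorem v19_quot {ι : Type} (S : Finset ι) (F F' : ι → ℝ) (hF' : ∀ i ∈ S, 0 ≤ F' i)
    {s s' e m : ℝ} (hs : s = ∑ i ∈ S, F i) (hs' : s' = ∑ i ∈ S, F' i) (hm : 0 < m) (hms : m ≤ s)
    (hms' : 0 < s') (he : ∀ i ∈ S, |F i - F' i| ≤ e) :
    ∑ i ∈ S, |F i / s - F' i / s'| ≤ 2 * (S.card * e) / m := by
  have hs0 : 0 < s := lt_of_lt_of_le hm hms
  have h1 : ∑ i ∈ S, |F i - F' i| ≤ S.card * e := by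
    calc ∑ i ∈ S, |F i - F' i| ≤ ∑ _i ∈ S, e := Finset.sum_le_sum he
      _ = S.card * e := by rw [Finset.sum_const, nsmul_eq_mul]
  have h2 : |s' - s| ≤ S.card * e := by
    rw [hs, hs', ← Finset.sum_sub_distrib]
    refine (Finset.abs_sum_le_sum_abs _ _).trans ?_
    refine le_trans (Finset.sum_le_sum fun i hi => ?_) h1
    rw [abs_sub_comm]
  have h3 : 0 ≤ S.card * e := (abs_nonneg _).trans h2
  have h4 : ∀ i ∈ S, |F i / s - F' i / s'| ≤ |F i - F' i| / s + F' i * (|s' - s| / (s * s')) := by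
    intro i hi
    have e1 : F i / s - F' i / s' = (F i - F' i) / s + F' i * ((s' - s) / (s * s')) := by
      field_simp
      ring
    rw [e1]
    refine (abs_add_le _ _).trans ?_
    rw [abs_div, abs_of_pos hs0, abs_mul, abs_of_nonneg (hF' i hi), abs_div,
      abs_of_pos (mul_pos hs0 hms')]
  calc ∑ i ∈ S, |F i / s - F' i / s'|
      ≤ ∑ i ∈ S, (|F i - F' i| / s + F' i * (|s' - s| / (s * s'))) := Finset.sum_le_sum h4
    _ = (∑ i ∈ S, |F i - F' i|) / s + s' * (|s' - s| / (s * s')) := by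
        rw [Finset.sum_add_distrib, ← Finset.sum_div, ← Finset.sum_mul, ← hs']
    _ = (∑ i ∈ S, |F i - F' i|) / s + |s' - s| / s := by
        congr 1
        field_simp
    _ ≤ S.card * e / s + S.card * e / s := by
        gcongr
    _ = 2 * (S.card * e) / s := by ring
    _ ≤ 2 * (S.card * e) / m := by
        gcongr

theorem v_x_lip (h : Q.OK) {p q : EU L × EU M} {b : G} (hA : Q.At p b) (hA' : Q.At q b) :
    n1 (Q.x p - Q.x q) ≤ 6 * Q.A0 ^ 2 * Q.nb 1 Q.r2 / Q.mu Q.rm * ‖p.1 - q.1‖ := by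
  classical
  have hX := v_X_le h hA
  have hX' := v_X_le h hA'
  have hsup : (Q.x p - Q.x q).support ⊆ Q.bl b Q.r2 := by
    intro a ha
    rw [v_mem_bl h]
    by_contra hd
    rw [Finsupp.mem_support_iff, Finsupp.sub_apply, v_x_apply h hA.z, v_x_apply h hA'.z,
      v_mm_ball h hA, v_mm_ball h hA', if_neg hd, if_neg hd, zero_div, zero_div, sub_zero] at ha
    exact ha rfl
  have he : ∀ a ∈ Q.bl b Q.r2, |Q.mm p a - Q.mm q a| ≤ 3 * Q.A0 ^ 2 * ‖p.1 - q.1‖ := by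
    intro a ha
    rw [v_mem_bl h] at ha
    rw [v_mm_ball h hA, v_mm_ball h hA', if_pos ha, if_pos ha]
    exact v19_cube hX hX' h.tau_pos _
  have hq := v19_quot (Q.bl b Q.r2) (fun a => Q.mm p a) (fun a => Q.mm q a)
    (fun a _ => v_mm_nonneg Q q a) (v19_sm h hA) (v19_sm h hA') (v_mu_pos h Q.rm).1
    (v_sm_pos h hA).1 (v_sm_pos h hA').2 he
  rw [n1_eq_sum _ hsup]
  have e1 : ∑ a ∈ Q.bl b Q.r2, |(Q.x p - Q.x q) a| =
      ∑ a ∈ Q.bl b Q.r2, |Q.mm p a / Q.sm p - Q.mm q a / Q.sm q| := by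
    refine Finset.sum_congr rfl fun a _ => ?_
    rw [Finsupp.sub_apply, v_x_apply h hA.z, v_x_apply h hA'.z]
  rw [e1]
  refine hq.trans (le_of_eq ?_)
  rw [v_card_bl h]
  ring

private theorem v19_xsupp (h : Q.OK) {p : EU L × EU M} {b : G} (hA : Q.At p b) :
    (Q.x p).support ⊆ Q.bl b Q.r2 := by
  intro a ha
  rw [v_mem_bl h]
  exact (v_x_supp h hA ha).1

private theorem v19_Khm_W7 (h : Q.OK) : Q.Khm ≤ Q.W7 := by
  have hn := v_num h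
  have h1 := h.hW6
  have h2 := hn.W67
  have h3 : 1 ≤ Q.K * Q.bt Q.r0 := one_le_mul_of_one_le_of_one_le h.K1 (v_one_le_bt h _)
  have h4 := h.W5a
  have h5 := hn.Khm_ge
  have h6 : Q.Khm ≤ 6 * Q.K * Q.bt Q.r0 * Q.Khm * Q.W5 := by
    have h7 : 1 ≤ 6 * (Q.K * Q.bt Q.r0) * Q.W5 := by nlinarith
    have h8 := mul_le_mul_of_nonneg_right h7 (by linarith : 0 ≤ Q.Khm)
    calc Q.Khm = 1 * Q.Khm := (one_mul _).symm
      _ ≤ 6 * (Q.K * Q.bt Q.r0) * Q.W5 * Q.Khm := h8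
      _ = _ := by ring
  linarith

/-- distance of f a and f b for a near b -/
private theorem v19_fdist (h : Q.OK) {p : EU L × EU M} {b : G} (hA : Q.At p b) {a : G}
    (ha : Q.d a b ≤ Q.r2) :
    ‖Q.f a - Q.f b‖ ≤ 16 * Q.K ^ 2 * Q.bt Q.r2 ^ 2 * Q.Khm ^ 2 * (1 - ‖Q.fh p‖) := by
  have hy := v_fh_norm h hA
  have hfb := h.ball b
  have hfa := h.ball a
  have h1 := v_dist_le hfa hfb
  have h2 : om (Q.f a) (Q.f b) ≤ Q.K * Q.bt Q.r2 := by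
    refine (h.up a b).trans ?_
    rw [v_wb_eq]
    exact mul_le_mul_of_nonneg_left ((v_bt_le_iff h).2 ha) (by linarith [h.K1])
  have h0 : 0 ≤ om (Q.f a) (Q.f b) := zero_le_one.trans (one_le_om hfa hfb)
  have h3 : om (Q.f a) (Q.f b) ^ 2 ≤ (Q.K * Q.bt Q.r2) ^ 2 := pow_le_pow_left₀ h0 h2 2
  have h4 := v_D_ratio hfb hy
  have h5 : om (Q.f b) (Q.fh p) ^ 2 ≤ Q.Khm ^ 2 :=
    pow_le_pow_left₀ (zero_le_one.trans (one_le_om hfb hy)) (v_Khm h hA) 2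
  have hD : 0 ≤ 1 - ‖Q.f b‖ ^ 2 := (v12_D_pos h b).le
  have hn := norm_nonneg (Q.fh p)
  have h6 : 1 - ‖Q.fh p‖ ^ 2 ≤ 2 * (1 - ‖Q.fh p‖) := by nlinarith
  have h7 : 0 ≤ 1 - ‖Q.fh p‖ := by linarith
  have h8 : 0 ≤ 1 - ‖Q.fh p‖ ^ 2 := by nlinarith
  calc ‖Q.f a - Q.f b‖ ≤ 2 * om (Q.f a) (Q.f b) ^ 2 * (1 - ‖Q.f b‖ ^ 2) := h1
    _ ≤ 2 * (Q.K * Q.bt Q.r2) ^ 2 * (1 - ‖Q.f b‖ ^ 2) :=
        mul_le_mul_of_nonneg_right (by linarith) hD
    _ ≤ 2 * (Q.K * Q.bt Q.r2) ^ 2 * (4 * om (Q.f b) (Q.fh p) ^ 2 * (1 - ‖Q.fh p‖ ^ 2)) :=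
        mul_le_mul_of_nonneg_left h4 (by positivity)
    _ ≤ 2 * (Q.K * Q.bt Q.r2) ^ 2 * (4 * Q.Khm ^ 2 * (2 * (1 - ‖Q.fh p‖))) := by
        refine mul_le_mul_of_nonneg_left ?_ (by positivity)
        exact mul_le_mul (by linarith) h6 h8 (by positivity)
    _ = _ := by ring

theorem v_fh_lip (h : Q.OK) {p q : EU L × EU M} {b : G} (hA : Q.At p b) (hA' : Q.At q b) :
    ‖Q.fh q - Q.fh p‖ ≤ Q.Lf / 10 * ‖p.1 - q.1‖ * (1 - ‖Q.fh p‖) := by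
  classical
  have hy := v_fh_norm h hA
  have hsup := v19_xsupp h hA
  have hsup' := v19_xsupp h hA'
  have e1 : Q.fh p = ∑ a ∈ Q.bl b Q.r2, Q.x p a • Q.f a := by
    unfold VD.fh VD.fb
    exact Finsupp.sum_of_support_subset _ hsup _ (fun _ _ => zero_smul _ _)
  have e2 : Q.fh q = ∑ a ∈ Q.bl b Q.r2, Q.x q a • Q.f a := by
    unfold VD.fh VD.fb
    exact Finsupp.sum_of_support_subset _ hsup' _ (fun _ _ => zero_smul _ _)
  have t1 : ∑ a ∈ Q.bl b Q.r2, Q.x p a = 1 := by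
    rw [← v_tot_eq _ _ hsup]
    exact v_x_tot h hA
  have t2 : ∑ a ∈ Q.bl b Q.r2, Q.x q a = 1 := by
    rw [← v_tot_eq _ _ hsup']
    exact v_x_tot h hA'
  have e3 : Q.fh q - Q.fh p = ∑ a ∈ Q.bl b Q.r2, (Q.x q a - Q.x p a) • (Q.f a - Q.f b) := by
    have e4 : ∑ a ∈ Q.bl b Q.r2, (Q.x q a - Q.x p a) • Q.f b = 0 := by
      rw [← Finset.sum_smul, Finset.sum_sub_distrib, t1, t2, sub_self, zero_smul]
    simp only [smul_sub]
    rw [Finset.sum_sub_distrib, e4, sub_zero, e1, e2, ← Finset.sum_sub_distrib]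
    exact Finset.sum_congr rfl fun a _ => (sub_smul _ _ _).symm
  set D : ℝ := 16 * Q.K ^ 2 * Q.bt Q.r2 ^ 2 * Q.Khm ^ 2 * (1 - ‖Q.fh p‖) with hD
  have hy0 : 0 ≤ 1 - ‖Q.fh p‖ := by linarith
  have hK : 0 ≤ Q.K := by linarith [h.K1]
  have hbt := (v_bt_pos Q Q.r2).le
  have hKhm : 0 ≤ Q.Khm := by linarith [(v_num h).Khm_ge]
  have hD0 : 0 ≤ D := by positivity
  have hsub : (Q.x p - Q.x q).support ⊆ Q.bl b Q.r2 := by
    refine Finset.Subset.trans Finsupp.support_sub ?_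
    exact Finset.union_subset hsup hsup'
  have h1 : ‖Q.fh q - Q.fh p‖ ≤ n1 (Q.x p - Q.x q) * D := by
    rw [e3, n1_eq_sum _ hsub, Finset.sum_mul]
    refine (norm_sum_le _ _).trans (Finset.sum_le_sum fun a ha => ?_)
    rw [v_mem_bl h] at ha
    rw [norm_smul, Real.norm_eq_abs, Finsupp.sub_apply, abs_sub_comm]
    exact mul_le_mul_of_nonneg_left (v19_fdist h hA ha) (abs_nonneg _)
  have h2 := mul_le_mul_of_nonneg_right (v_x_lip h hA hA') hD0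
  refine h1.trans (h2.trans ?_)
  have hn1 := v_one_le_nb h Q.r2
  have hA0 : 0 ≤ Q.A0 := v10_A0_nonneg h
  have hmu := (v_mu_pos h Q.rm).1
  have hKW := v19_Khm_W7 h
  have g1 : Q.A0 ^ 2 ≤ (Q.A0 + 1) ^ 2 := pow_le_pow_left₀ hA0 (by linarith) 2
  have g2 : Q.nb 1 Q.r2 ≤ Q.nb 1 Q.r2 ^ 2 := by nlinarith
  have g3 : Q.Khm ^ 2 ≤ Q.W7 ^ 2 := pow_le_pow_left₀ hKhm hKW 2
  have g4 : Q.A0 ^ 2 * Q.nb 1 Q.r2 * Q.Khm ^ 2 ≤ (Q.A0 + 1) ^ 2 * Q.nb 1 Q.r2 ^ 2 * Q.W7 ^ 2 :=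
    mul_le_mul (mul_le_mul g1 g2 (by linarith) (by positivity)) g3 (by positivity) (by positivity)
  have g5 : 0 ≤ Q.K ^ 2 * Q.bt Q.r2 ^ 2 / Q.mu Q.rm * (‖p.1 - q.1‖ * (1 - ‖Q.fh p‖)) := by
    positivity
  have g6 := mul_le_mul_of_nonneg_left g4 g5
  have g7 : 0 ≤ Q.K ^ 2 * Q.bt Q.r2 ^ 2 / Q.mu Q.rm * (‖p.1 - q.1‖ * (1 - ‖Q.fh p‖)) *
      ((Q.A0 + 1) ^ 2 * Q.nb 1 Q.r2 ^ 2 * Q.W7 ^ 2) := by positivity
  calc 6 * Q.A0 ^ 2 * Q.nb 1 Q.r2 / Q.mu Q.rm * ‖p.1 - q.1‖ * D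
      = 96 * (Q.K ^ 2 * Q.bt Q.r2 ^ 2 / Q.mu Q.rm * (‖p.1 - q.1‖ * (1 - ‖Q.fh p‖)) *
          (Q.A0 ^ 2 * Q.nb 1 Q.r2 * Q.Khm ^ 2)) := by
        rw [hD]
        ring
    _ ≤ 100 * (Q.K ^ 2 * Q.bt Q.r2 ^ 2 / Q.mu Q.rm * (‖p.1 - q.1‖ * (1 - ‖Q.fh p‖)) *
          ((Q.A0 + 1) ^ 2 * Q.nb 1 Q.r2 ^ 2 * Q.W7 ^ 2)) := by linarith
    _ = Q.Lf / 10 * ‖p.1 - q.1‖ * (1 - ‖Q.fh p‖) := by
        unfold VD.Lf
        ring

theorem v_om_fh (h : Q.OK) {p q : EU L × EU M} {b : G} (hA : Q.At p b) (hA' : Q.At q b) {e : ℝ}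
    (he : ‖p.1 - q.1‖ ≤ e) (he1 : Q.Lf / 10 * e ≤ 1 / 2) {z : EU M} (hz : ‖z‖ < 1) :
    om (Q.fh q) z ≤ (1 + 24 * (Q.Lf / 10 * e)) * om (Q.fh p) z := by
  have hp := v_fh_norm h hA
  have hq := v_fh_norm h hA'
  have h0 : 0 < 1 - ‖Q.fh p‖ := by linarith
  have hL : 0 ≤ Q.Lf / 10 := by linarith [v_one_le_Lf h]
  have h1 : ‖Q.fh q - Q.fh p‖ ≤ Q.Lf / 10 * e * (1 - ‖Q.fh p‖) :=
    (v_fh_lip h hA hA').trans (mul_le_mul_of_nonneg_right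
      (mul_le_mul_of_nonneg_left he hL) h0.le)
  have h2 : ‖Q.fh q - Q.fh p‖ ≤ (1 - ‖Q.fh p‖) / 2 := by
    have := mul_le_mul_of_nonneg_right he1 h0.le
    linarith
  have h3 := v_om_abs hz hp h2
  have h4 : ‖Q.fh q - Q.fh p‖ / (1 - ‖Q.fh p‖) ≤ Q.Lf / 10 * e := by
    rw [div_le_iff₀ h0]
    exact h1
  rw [om_symm z (Q.fh q), om_symm z (Q.fh p)] at h3
  have h5 : 0 ≤ om (Q.fh p) z := zero_le_one.trans (one_le_om hp hz)
  have h6 := (abs_le.1 h3).2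
  have h7 : 24 * (‖Q.fh q - Q.fh p‖ / (1 - ‖Q.fh p‖)) * om (Q.fh p) z ≤
      24 * (Q.Lf / 10 * e) * om (Q.fh p) z :=
    mul_le_mul_of_nonneg_right (by linarith) h5
  linarith

theorem v_Ph_big (h : Q.OK) {p : EU L × EU M} {b : G} (hA : Q.At p b)
    (hW : Q.W5 / 2 ≤ om (Q.fh p) p.2) : 2 * Q.C5 ≤ Q.Ph p := by
  have hz := hA.z
  have hy := v_fh_norm h hA
  obtain ⟨a, had, haX, -⟩ := v_big h hz hA.o7 hA.J le_rfl h.hrm le_rfl
  obtain ⟨ψ, hψ, hs, ho⟩ := v_opt_Ph h hz hA.o7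
  have hT := v_Tm_Ph h hz hA.o7 hA.J hψ hs ho
  have hψa := v_big_Tm h had haX hT
  have hN := v_one_le_nb h Q.rm
  have hN0 : 0 < 1 / (4 * Q.nb 1 Q.rm) := by positivity
  have ho1 : 1 ≤ Q.o a p.2 := v_one_le_o h a hz
  -- the cost of a
  have h1 : Q.o a p.2 * (1 / (4 * Q.nb 1 Q.rm)) ≤ Q.Ph p := by
    have h2 : Q.o a p.2 * |ψ a| ≤ cst (fun a => Q.o a p.2) ψ := by
      rw [v_cst_eq _ ψ ψ.support (Finset.Subset.refl _)]
      have hmem : a ∈ ψ.support := by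
        rw [Finsupp.mem_support_iff]
        intro h0
        rw [h0] at hψa
        linarith
      exact Finset.single_le_sum (f := fun a => Q.o a p.2 * |ψ a|)
        (fun i _ => mul_nonneg (zero_le_one.trans (v_one_le_o h i hz)) (abs_nonneg _)) hmem
    have h3 : 0 ≤ Q.E * ‖p.1 - io Q.c ψ‖ := mul_nonneg (V09_E h) (norm_nonneg _)
    have h4 : Q.o a p.2 * (1 / (4 * Q.nb 1 Q.rm)) ≤ Q.o a p.2 * |ψ a| :=
      mul_le_mul_of_nonneg_left (hψa.trans (le_abs_self _)) (by linarith)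
    linarith
  -- a is far from z
  have h5 := v_om_tri hy (h.ball a) hz
  have h6 := v_o_fh h hA (v_Khm h hA) a
  have hK1 := h.K1
  have hKhm := (v_num h).Khm_ge
  have hbt := v_one_le_bt h Q.rm
  have h7 : Q.wb b a ≤ Q.bt Q.rm := by
    rw [v_wb_eq]
    exact (v_bt_le_iff h).2 had
  have h8 : om (Q.fh p) (Q.f a) ≤ 2 * Q.K * Q.bt Q.rm * Q.Khm := by
    rw [om_symm]
    refine h6.trans ?_
    exact mul_le_mul_of_nonneg_right (mul_le_mul_of_nonneg_left h7 (by linarith)) (by linarith)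
  have h9 : om (Q.fh p) p.2 ≤ 2 * (2 * Q.K * Q.bt Q.rm * Q.Khm) * Q.o a p.2 := by
    refine h5.trans ?_
    exact mul_le_mul_of_nonneg_right (mul_le_mul_of_nonneg_left h8 (by norm_num)) (by
      change 0 ≤ Q.o a p.2
      linarith)
  have h10 : Q.W5 ≤ 8 * (Q.K * Q.bt Q.rm * Q.Khm) * Q.o a p.2 := by linarith
  have h11 := h.W5c
  have hP : 0 < Q.K * Q.bt Q.rm * Q.Khm := by positivity
  have hNpos : 0 < Q.nb 1 Q.rm := by linarith
  -- combine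
  have h12 : 64 * Q.C5 * Q.nb 1 Q.rm ≤ 8 * Q.o a p.2 := by
    have h13 : (64 * Q.C5 * Q.nb 1 Q.rm) * (Q.K * Q.bt Q.rm * Q.Khm) ≤
        (8 * Q.o a p.2) * (Q.K * Q.bt Q.rm * Q.Khm) := by
      calc (64 * Q.C5 * Q.nb 1 Q.rm) * (Q.K * Q.bt Q.rm * Q.Khm)
          = 64 * Q.C5 * Q.nb 1 Q.rm * Q.K * Q.bt Q.rm * Q.Khm := by ring
        _ ≤ Q.W5 := h11
        _ ≤ 8 * (Q.K * Q.bt Q.rm * Q.Khm) * Q.o a p.2 := h10
        _ = _ := by ring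
    exact le_of_mul_le_mul_right h13 hP
  have h14 : 2 * Q.C5 ≤ Q.o a p.2 * (1 / (4 * Q.nb 1 Q.rm)) := by
    rw [mul_one_div, le_div_iff₀ (by positivity)]
    linarith
  exact h14.trans h1

theorem v_vs_big (h : Q.OK) {p : EU L × EU M} {b : G} (hA : Q.At p b)
    (hW : Q.W5 / 2 ≤ om (Q.fh p) p.2) : Q.sig ≤ Q.vs p := by
  have h1 := v_Ph_big h hA hW
  have hn := v_num h
  have hC5 : 0 < Q.C5 := by linarith [hn.C5_ge]
  have h2 : 1 ≤ Q.Ph p / Q.C5 - 1 := by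
    have : 2 ≤ Q.Ph p / Q.C5 := by
      rw [le_div_iff₀ hC5]
      exact h1
    linarith
  have h3 := (v_th Q p).2.2.1
  unfold VD.vs
  rw [v_cl_one h2]
  linarith

theorem v_V1_bd (h : Q.OK) {p : EU L × EU M} (hz : ‖p.2‖ < 1) (hJ : Q.JG p ≤ Q.C1)
    (hW : om (Q.fh p) p.2 ≤ Q.W5) : ‖Q.V1 p‖ ≤ Q.A0 + 5 := by
  obtain ⟨b, hA, hb⟩ := v_exists_min_At h hz hJ
  have hn := v_num h
  have hX := v_X_le h hA
  have hTA : ‖Q.TA p - p.1‖ ≤ 2 * Q.eps := by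
    rw [norm_sub_rev]
    exact v_TA_near h hA
  have hxJ : ‖io Q.c (Q.xJ p)‖ ≤ 1 := by
    refine (v_norm_io_le Q.c _).trans ?_
    exact v_cst_prob (fun a => v_xJ_nonneg h hz hJ a) (v_xJ_tot h hz hJ) (fun a _ => le_rfl)
  obtain ⟨t0, t1, -, -, c0, c1⟩ := v_th Q p
  obtain ⟨s0, s1⟩ := v_vs h p
  have heps := h.eps_pos
  have hL1 : 1 ≤ Q.L1 := by linarith [V09_L1 h]
  have hsig := hn.sig_ge
  have heta1 : Q.eta1 ≤ 1 := by
    have h1 := hn.eta1_kap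
    have h2 := hn.kap_le
    linarith
  have he : (1 + Q.sig) * Q.eps ≤ 1 / 1000 := by
    have h1 := hn.eps_sig
    have h2 : 0 ≤ (1 + Q.sig) * Q.eps := by positivity
    have h3 : (1 + Q.sig) * Q.eps ≤ (1 + Q.sig) * Q.eps * Q.L1 := le_mul_of_one_le_right h2 hL1
    have h4 : 1000 * (1 + Q.sig) * Q.L1 * Q.eps = 1000 * ((1 + Q.sig) * Q.eps * Q.L1) := by ring
    linarith
  have he2 : Q.eps ≤ 1 / 1000 := by nlinarith
  have hT1 : ‖Q.T1 p - p.1‖ ≤ 2 * Q.eps + (1 + Q.A0) := by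
    have e : Q.T1 p - p.1 = (1 - Q.chi p) • (Q.TA p - p.1) +
        Q.chi p • (io Q.c (Q.xJ p) - p.1) := by
      unfold VD.T1
      rw [smul_sub, smul_sub, sub_smul, sub_smul, one_smul, one_smul]
      abel
    rw [e]
    refine (norm_add_le _ _).trans ?_
    rw [norm_smul, norm_smul, Real.norm_of_nonneg (by linarith : 0 ≤ 1 - Q.chi p),
      Real.norm_of_nonneg c0]
    have h1 : ‖io Q.c (Q.xJ p) - p.1‖ ≤ 1 + Q.A0 :=
      (norm_sub_le _ _).trans (add_le_add hxJ hX)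
    have h2 : (1 - Q.chi p) * ‖Q.TA p - p.1‖ ≤ 1 * (2 * Q.eps) :=
      mul_le_mul (by linarith) hTA (norm_nonneg _) zero_le_one
    have h3 : Q.chi p * ‖io Q.c (Q.xJ p) - p.1‖ ≤ 1 * (1 + Q.A0) :=
      mul_le_mul c1 h1 (norm_nonneg _) zero_le_one
    linarith
  have hV : Q.V1 p = Q.th1 p • (Q.T1 p - p.1) + Q.vs p • (Q.TA p - p.1) := by
    unfold VD.V1
    rw [v_cut_one h hJ hW, one_smul]
  rw [hV]
  refine (norm_add_le _ _).trans ?_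
  rw [norm_smul, norm_smul, Real.norm_of_nonneg t0, Real.norm_of_nonneg s0]
  have h5 : Q.th1 p * ‖Q.T1 p - p.1‖ ≤ 1 * (2 * Q.eps + (1 + Q.A0)) :=
    mul_le_mul t1 hT1 (norm_nonneg _) zero_le_one
  have h6 : Q.vs p * ‖Q.TA p - p.1‖ ≤ (1 + Q.sig) * (2 * Q.eps) :=
    mul_le_mul s1 hTA (norm_nonneg _) (by linarith)
  have h7 : (1 + Q.sig) * (2 * Q.eps) = 2 * ((1 + Q.sig) * Q.eps) := by ring
  linarith

theorem v_step_At (h : Q.OK) {p : EU L × EU M} {b : G} (hA : Q.At p b) (hb : Q.JG p = Q.Jp b p)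
    (hJ : Q.JG p ≤ Q.C1) (hW : om (Q.fh p) p.2 ≤ Q.W5) {s : ℝ} (hs : 0 ≤ s)
    (hs1 : s * (2 + Q.sig) ≤ 1) : Q.At (p.1 + s • Q.V1 p, p.2 + s • Q.V2 p) b := by
  have hz := hA.z
  have hn := v_num h
  have hsig := hn.sig_ge
  have hW5 := h.W5a
  have hW' : om (Q.fh p) p.2 ≤ 1.1 * Q.W5 := by linarith
  obtain ⟨hz', hzz, -⟩ := v_JG_step h hz hJ hW hs hs1
  have h0 : 0 < 1 - ‖p.2‖ := by linarith
  obtain ⟨t0, t1, -, -, -, -⟩ := v_th Q p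
  obtain ⟨s0, s1⟩ := v_vs h p
  refine ⟨hz', ?_, ?_⟩
  · -- the location
    change Q.o b (p.2 + s • Q.V2 p) ≤ Q.W7
    have h1 : s * (1 + Q.sig) / 16 ≤ 1 / 16 := by linarith
    have h2 : ‖p.2 + s • Q.V2 p - p.2‖ ≤ 1 / 16 * (1 - ‖p.2‖) :=
      hzz.trans (mul_le_mul_of_nonneg_right h1 h0.le)
    have h3 : ‖p.2 + s • Q.V2 p - p.2‖ / (1 - ‖p.2‖) ≤ 1 / 16 := by
      rw [div_le_iff₀ h0]
      exact h2
    have h2' : ‖p.2 + s • Q.V2 p - p.2‖ ≤ (1 - ‖p.2‖) / 2 := by linarith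
    have h4 := (v_om_lip (h.ball b) hz h2').2.1
    have ho : 0 ≤ Q.o b p.2 := zero_le_one.trans (v_one_le_o h b hz)
    have h5 : Q.o b (p.2 + s • Q.V2 p) ≤ 2 * Q.o b p.2 := by
      refine h4.trans ?_
      change (1 + 6 * (‖p.2 + s • Q.V2 p - p.2‖ / (1 - ‖p.2‖))) * Q.o b p.2 ≤ 2 * Q.o b p.2
      exact mul_le_mul_of_nonneg_right (by linarith) ho
    have h6 := v_W h hA hW'
    have h7 : 1 ≤ Q.K * Q.bt Q.r0 := one_le_mul_of_one_le_of_one_le h.K1 (v_one_le_bt h _)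
    have h8 : 2 * Q.o b p.2 ≤ 2 * Q.K * Q.bt Q.r0 * Q.o b p.2 := by
      have := mul_le_mul_of_nonneg_right h7 ho
      calc 2 * Q.o b p.2 = 2 * (1 * Q.o b p.2) := by ring
        _ ≤ 2 * (Q.K * Q.bt Q.r0 * Q.o b p.2) := by linarith
        _ = _ := by ring
    linarith [hn.W67]
  · -- the cost
    change Q.J b (p.1 + s • Q.V1 p) ≤ Q.A0
    rw [v_V1_eq h hJ hW s]
    have hα : 0 ≤ 1 - s * Q.th1 p - s * Q.vs p := by nlinarith
    have hβ : 0 ≤ s * Q.th1 p := mul_nonneg hs t0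
    have hγ : 0 ≤ s * Q.vs p := mul_nonneg hs s0
    have h1 := v_J_conv3 h b p.1 (Q.T1 p) (Q.TA p) hα hβ hγ (by ring)
    have hJb : Q.J b p.1 ≤ Q.C1 := by
      have := v_J_le_Jp h p b
      linarith
    have h2 := v_J_TA' h hA
    have h3 : s * Q.th1 p * Q.J b (Q.T1 p) ≤ s * Q.th1 p * Q.J b p.1 := by
      rcases t0.eq_or_lt with h0 | h0
      · rw [← h0]
        simp
      · have h4 : 0 < (Q.JG p - 1.2 * Q.C0) / (0.3 * Q.C0) := v_cl_pos h0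
        have hC0 := h.C0a
        have h5 : 0 < 0.3 * Q.C0 := by linarith
        have h6 : 0 < Q.JG p - 1.2 * Q.C0 := by
          by_contra hcon
          push Not at hcon
          exact absurd h4 (not_lt.2 (div_nonpos_of_nonpos_of_nonneg hcon h5.le))
        have h7 := v_J_T1 h hA hb hW' hJ (by linarith)
        have h8 : 0 ≤ Q.eta1 / (2 * Q.L1) :=
          div_nonneg hn.eta1_pos.le (by linarith [V09_L1 h])
        exact mul_le_mul_of_nonneg_left (by linarith) hβ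
    have h9 : s * Q.vs p * Q.J b (Q.TA p) ≤ s * Q.vs p * (Q.J b p.1 + Q.eps) :=
      mul_le_mul_of_nonneg_left h2 hγ
    have h10 : s * Q.vs p ≤ 1 := by linarith
    have h11 : s * Q.vs p * Q.eps ≤ 1 * 1 :=
      mul_le_mul h10 hn.eps_one h.eps_pos.le zero_le_one
    have h12 := hn.C1_ge
    have h13 := hn.A0_eq
    linarith

theorem v_om_step (h : Q.OK) {p : EU L × EU M} (hz : ‖p.2‖ < 1) (hJ : Q.JG p ≤ Q.C1)
    (hW : om (Q.fh p) p.2 ≤ Q.W5) (hW' : Q.W5 / 2 ≤ om (Q.fh p) p.2) {s : ℝ} (hs : 0 ≤ s)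
    (hs1 : s * (2 + Q.sig) ≤ 1) :
    om (Q.fh (p.1 + s • Q.V1 p, p.2 + s • Q.V2 p)) (p.2 + s • Q.V2 p) ≤
      (1 - s) * om (Q.fh p) p.2 := by
  obtain ⟨b, hA, hb⟩ := v_exists_min_At h hz hJ
  have hn := v_num h
  have hA' := v_step_At h hA hb hJ hW hs hs1
  have hy := v_fh_norm h hA
  obtain ⟨hz', -, -⟩ := v_JG_step h hz hJ hW hs hs1
  obtain ⟨s0, s1⟩ := v_vs h p
  have hvs := v_vs_big h hA hW'
  have hsig := hn.sig_ge
  have hA0 : 8 ≤ Q.A0 := by rw [hn.A0_eq]; linarith [hn.C1_ge]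
  have hA5 := hn.A056
  have hW5 : 8 ≤ Q.W5 := by linarith
  have hLf := v_one_le_Lf h
  have hom : 4 ≤ om (Q.fh p) p.2 := by linarith
  set ρ : ℝ := rhoS p.2 (Q.fh p) with hρ
  obtain ⟨hρ0, hρ1⟩ := v_rho_pos (y := Q.fh p) hz
  have hρl := v_rho_low hz hy
  rw [← hρ] at hρ0 hρ1 hρl
  -- lower bound for rho
  have hρ2 : 1 / (80 * Q.W5 ^ 2) ≤ ρ := by
    refine le_trans ?_ hρl
    have h1 : om (Q.fh p) p.2 ^ 2 ≤ Q.W5 ^ 2 := pow_le_pow_left₀ (by linarith) hW 2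
    have h2 : 1 ≤ Q.W5 ^ 2 := one_le_pow₀ (by linarith)
    refine one_div_le_one_div_of_le (by positivity) ?_
    linarith
  -- the motion of z
  have hsv0 : 0 ≤ s * Q.vs p := mul_nonneg hs s0
  have hsv1 : s * Q.vs p ≤ 1 := by nlinarith
  have hstep := v_step (Finset.univ : Finset (Fin 1)) (fun _ => (1 : ℝ)) (fun _ => Q.fh p)
    (fun _ _ => zero_le_one) (fun _ _ => hy) hz hy hsv0 hsv1
  simp only [Finset.univ_unique, Finset.sum_singleton, one_mul, v_om_self] at hstep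
  rw [← v_V2_eq h hJ hW s, ← hρ] at hstep
  have hmax : max 0 (1 - 1 / 4 * om (Q.fh p) p.2) = 0 := max_eq_left (by linarith)
  rw [hmax, mul_zero, add_zero] at hstep
  -- the size of the decrease
  set A : ℝ := Q.Lf * (Q.A0 + 5) with hAdef
  have hA1 : 1 ≤ A := by
    have h1 : 1 ≤ Q.Lf := by linarith
    have h2 : 1 ≤ Q.A0 + 5 := by linarith
    exact one_le_mul_of_one_le_of_one_le h1 h2
  have hx : 100 * A * s ≤ s * Q.vs p * ρ / 8 := by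
    have h1 := h.hsig
    have hW50 : 0 < Q.W5 ^ 2 := by positivity
    have hW51 : 1 ≤ Q.W5 ^ 2 := one_le_pow₀ (by linarith)
    have h2 : 100000 * A * Q.W5 ^ 2 ≤ Q.vs p := by
      refine le_trans ?_ (h1.trans hvs)
      have h3 : Q.W5 ^ 2 ≤ Q.W5 ^ 4 := by
        have : Q.W5 ^ 4 = Q.W5 ^ 2 * Q.W5 ^ 2 := by ring
        rw [this]
        exact le_mul_of_one_le_right hW50.le hW51
      calc 100000 * A * Q.W5 ^ 2 ≤ 100000 * A * Q.W5 ^ 4 :=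
            mul_le_mul_of_nonneg_left h3 (by linarith)
        _ = 100000 * Q.Lf * Q.W5 ^ 4 * (Q.A0 + 5) := by rw [hAdef]; ring
    have h4 : 1000 * A ≤ Q.vs p * ρ := by
      have h5 : 100000 * A * Q.W5 ^ 2 * (1 / (80 * Q.W5 ^ 2)) ≤ Q.vs p * ρ :=
        mul_le_mul h2 hρ2 (by positivity) s0
      have h6 : 100000 * A * Q.W5 ^ 2 * (1 / (80 * Q.W5 ^ 2)) = 1250 * A := by
        field_simp
        ring
      linarith
    have h7 := mul_le_mul_of_nonneg_left h4 hs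
    have h8 : s * Q.vs p * ρ / 8 = s * (Q.vs p * ρ) / 8 := by ring
    have h9 : 0 ≤ s * A := mul_nonneg hs (by linarith)
    linarith
  have hx1 : s * Q.vs p * ρ / 8 ≤ 1 := by
    have : s * Q.vs p * ρ ≤ 1 * (1 / 16) := mul_le_mul hsv1 hρ1 hρ0.le zero_le_one
    linarith
  -- the motion of fh
  have hX : ‖p.1 - (p.1 + s • Q.V1 p)‖ ≤ s * (Q.A0 + 5) := by
    have e : p.1 - (p.1 + s • Q.V1 p) = -(s • Q.V1 p) := by abel
    rw [e, norm_neg, norm_smul, Real.norm_of_nonneg hs]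
    exact mul_le_mul_of_nonneg_left (v_V1_bd h hz hJ hW) hs
  have hAs : A * s ≤ 1 := by
    have h9 : 0 ≤ s * A := mul_nonneg hs (by linarith)
    linarith
  have hLe : Q.Lf / 10 * (s * (Q.A0 + 5)) = A * s / 10 := by
    rw [hAdef]
    ring
  have h3 := v_om_fh h hA hA' (e := s * (Q.A0 + 5)) hX (by rw [hLe]; linarith) hz'
  rw [hLe] at h3
  refine h3.trans ?_
  have hAs0 : 0 ≤ A * s := mul_nonneg (by linarith) hs
  have hom0 : 0 ≤ om (Q.fh p) p.2 := by linarith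
  calc (1 + 24 * (A * s / 10)) * om (Q.fh p) (p.2 + s • Q.V2 p)
      ≤ (1 + 24 * (A * s / 10)) * ((1 - s * Q.vs p * ρ / 8) * om (Q.fh p) p.2) :=
        mul_le_mul_of_nonneg_left hstep (by linarith)
    _ = ((1 + 24 * (A * s / 10)) * (1 - s * Q.vs p * ρ / 8)) * om (Q.fh p) p.2 := by ring
    _ ≤ (1 - s) * om (Q.fh p) p.2 := by
        refine mul_le_mul_of_nonneg_right ?_ hom0
        have hsA : s ≤ A * s := le_mul_of_one_le_left hs hA1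
        have h5 : 0 ≤ (24 * (A * s / 10)) * (s * Q.vs p * ρ / 8) := by
          refine mul_nonneg (by linarith) ?_
          linarith
        linarith

end Pool.HQ
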