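import Pool.Agent.HQ.V19

/-!
MODULE V19b (MP_7936f4_al, part III, helper87): small change of om(fhat, z) under a short Euler step.
-/

namespace Pool.HQ

variable {G : Type} [Group G] {M L : ℕ} {Q : VD G M L}

theorem v_om_step' (h : Q.OK) : ∃ s1 : ℝ, 0 < s1 ∧ s1 * (2 + Q.sig) ≤ 1 ∧
    ∀ p : EU L × EU M, ‖p.2‖ < 1 → Q.JG p ≤ Q.C1 → om (Q.fh p) p.2 ≤ Q.W5 →
    ∀ s : ℝ, 0 ≤ s → s ≤ s1 →
    om (Q.fh (p.1 + s • Q.V1 p, p.2 + s • Q.V2 p)) (p.2 + s • Q.V2 p) ≤ 1.2 * om (Q.fh p) p.2 := by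
  have hn := v_num h
  have hsig := hn.sig_ge
  have hLf := v_one_le_Lf h
  have hA0 : 8 ≤ Q.A0 := by rw [hn.A0_eq]; linarith [hn.C1_ge]
  have hB : 0 < Q.Lf * (Q.A0 + 5) := by positivity
  obtain ⟨s1, hs1, h1, h2⟩ : ∃ s1 : ℝ, 0 < s1 ∧ s1 * (16 * (2 + Q.sig)) ≤ 1 ∧
      s1 * (30 * (Q.Lf * (Q.A0 + 5))) ≤ 1 := by
    have p1 : 0 < 16 * (2 + Q.sig) := by linarith
    have p2 : 0 < 30 * (Q.Lf * (Q.A0 + 5)) := by positivity
    refine ⟨min (1 / (16 * (2 + Q.sig))) (1 / (30 * (Q.Lf * (Q.A0 + 5)))), by positivity, ?_, ?_⟩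
    · rw [← le_div_iff₀ p1]; exact min_le_left _ _
    · rw [← le_div_iff₀ p2]; exact min_le_right _ _
  refine ⟨s1, hs1, by nlinarith, fun p hz hJ hW s hs hss => ?_⟩
  have hs2 : s * (2 + Q.sig) ≤ 1 := by nlinarith
  obtain ⟨b, hA, hb⟩ := v_exists_min_At h hz hJ
  have hA' := v_step_At h hA hb hJ hW hs hs2
  obtain ⟨hz', hzz, _⟩ := v_JG_step h hz hJ hW hs hs2
  have hy := v_fh_norm h hA
  have hom : 0 < om (Q.fh p) p.2 := lt_of_lt_of_le one_pos (one_le_om hy hz)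
  have he0 : 0 < 1 - ‖p.2‖ := by linarith
  -- displacement of z
  have hd : ‖p.2 + s • Q.V2 p - p.2‖ ≤ (1 - ‖p.2‖) / 2 := by
    refine hzz.trans ?_
    have : s * (1 + Q.sig) / 16 ≤ 1 / 2 := by nlinarith
    nlinarith
  have ht : ‖p.2 + s • Q.V2 p - p.2‖ / (1 - ‖p.2‖) ≤ 1 / 100 := by
    rw [div_le_iff₀ he0]
    refine hzz.trans ?_
    have : s * (1 + Q.sig) / 16 ≤ 1 / 100 := by nlinarith
    exact mul_le_mul_of_nonneg_right this he0.le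
  have hz1 := (v_om_lip hy hz hd).2.1
  have hz2 : om (Q.fh p) (p.2 + s • Q.V2 p) ≤ 1.06 * om (Q.fh p) p.2 := by
    refine hz1.trans (mul_le_mul_of_nonneg_right ?_ hom.le)
    linarith
  -- displacement of fh
  have hX : ‖p.1 - (p.1 + s • Q.V1 p)‖ ≤ s * (Q.A0 + 5) := by
    have e : p.1 - (p.1 + s • Q.V1 p) = -(s • Q.V1 p) := by abel
    rw [e, norm_neg, norm_smul, Real.norm_of_nonneg hs]
    exact mul_le_mul_of_nonneg_left (v_V1_bd h hz hJ hW) hs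
  have hsm : Q.Lf / 10 * (s * (Q.A0 + 5)) ≤ 1 / 300 := by
    have : s * (30 * (Q.Lf * (Q.A0 + 5))) ≤ 1 := by nlinarith
    linarith
  have h3 := v_om_fh h hA hA' (e := s * (Q.A0 + 5)) hX (by linarith) hz'
  have h0 : 0 ≤ om (Q.fh p) (p.2 + s • Q.V2 p) :=
    zero_le_one.trans (one_le_om hy hz')
  refine h3.trans ?_
  have h4 : 1 + 24 * (Q.Lf / 10 * (s * (Q.A0 + 5))) ≤ 1.08 := by linarith
  calc (1 + 24 * (Q.Lf / 10 * (s * (Q.A0 + 5)))) * om (Q.fh p) (p.2 + s • Q.V2 p)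
      ≤ 1.08 * om (Q.fh p) (p.2 + s • Q.V2 p) := mul_le_mul_of_nonneg_right h4 h0
    _ ≤ 1.08 * (1.06 * om (Q.fh p) p.2) := by
        refine mul_le_mul_of_nonneg_left hz2 (by norm_num)
    _ ≤ 1.2 * om (Q.fh p) p.2 := by nlinarith

end Pool.HQ
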