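import Pool.Agent.HQ.Defs

/-!
MP_7936f4_al, full question.  Part III: the cost functions J_b and Phi, the interface III to the
star-shapedness block (structure BdAct).
-/

namespace Pool.HQ

/-- om(x,z) = sqrt(1 + q) = cosh(dist/2) in the ball model. -/
noncomputable def om {M : ℕ} (x z : EuclideanSpace ℝ (Fin M)) : ℝ := Real.sqrt (1 + qd x z)

section
variable {G : Type} {L : ℕ}

/-- total mass of a finitely supported signed measure -/
noncomputable def tot (ψ : G →₀ ℝ) : ℝ := ψ.sum fun _ t => t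

/-- cost of a finitely supported signed measure for the weight w -/
noncomputable def cst (w : G → ℝ) (ψ : G →₀ ℝ) : ℝ := ψ.sum fun a t => w a * |t|

/-- colour coordinates of a finitely supported signed measure -/
noncomputable def io (c : G → Fin L) (ψ : G →₀ ℝ) : EuclideanSpace ℝ (Fin L) :=
  ψ.sum fun a t => t • EuclideanSpace.single (c a) (1 : ℝ)

/-- The cost of the vector X: infimum over signed measures psi of total mass 1 of
cost(psi) + E |X - io psi|. -/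
noncomputable def NN (c : G → Fin L) (E : ℝ) (w : G → ℝ) (X : EuclideanSpace ℝ (Fin L)) : ℝ :=
  ⨅ ψ : {ψ : G →₀ ℝ // tot ψ = 1}, (cst w ψ.1 + E * ‖X - io c ψ.1‖)

end

/-- The weight beta^(d(a,b)), beta = exp(lam/2). -/
noncomputable def wG {G : Type} (d : G → G → ℕ) (lam : ℝ) (b a : G) : ℝ :=
  Real.exp (lam / 2 * d a b)

/-- J_b. -/
noncomputable def JJ {G : Type} {L : ℕ} (d : G → G → ℕ) (lam : ℝ) (c : G → Fin L) (E : ℝ) (b : G)
    (X : EuclideanSpace ℝ (Fin L)) : ℝ := NN c E (wG d lam b) X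

/-- Phi(X,z). -/
noncomputable def Phi {G : Type} {L M : ℕ} (f : G → EuclideanSpace ℝ (Fin M)) (c : G → Fin L) (E : ℝ)
    (p : EuclideanSpace ℝ (Fin L) × EuclideanSpace ℝ (Fin M)) : ℝ :=
  NN c E (fun a => om (f a) p.2) p.1

/-- Relative distance of two points of R^L x ball, measured at the first one. -/
noncomputable def rd {L M : ℕ} (p q : EuclideanSpace ℝ (Fin L) × EuclideanSpace ℝ (Fin M)) : ℝ :=
  ‖p.1 - q.1‖ + ‖p.2 - q.2‖ / (1 - ‖p.2‖)

/-- Interface: action of G on the hypersurface Phi = C in R^L x ball. -/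
structure BdAct {G : Type} [Group G] (d : G → G → ℕ) {L M : ℕ} (f : G → EuclideanSpace ℝ (Fin M))
    (c : G → Fin L) (E C : ℝ)
    (act : G → EuclideanSpace ℝ (Fin L) × EuclideanSpace ℝ (Fin M) →
      EuclideanSpace ℝ (Fin L) × EuclideanSpace ℝ (Fin M))
    (Lo : EuclideanSpace ℝ (Fin L) × EuclideanSpace ℝ (Fin M) → G → Prop) (W η K : ℝ) : Prop where
  eta_pos : 0 < η
  one_le : 1 ≤ K
  maps : ∀ g p, ‖p.2‖ < 1 → Phi f c E p = C → ‖(act g p).2‖ < 1 ∧ Phi f c E (act g p) = C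
  one : ∀ p, ‖p.2‖ < 1 → Phi f c E p = C → act 1 p = p
  mul : ∀ g h p, ‖p.2‖ < 1 → Phi f c E p = C → act (g * h) p = act g (act h p)
  loc : ∀ p, ‖p.2‖ < 1 → Phi f c E p = C → ∃ a, Lo p a
  locg : ∀ g p, ‖p.2‖ < 1 → Phi f c E p = C → ∀ a, Lo p a → Lo (act g p) (g * a)
  close : ∀ p, ‖p.2‖ < 1 → Phi f c E p = C → ∀ a, Lo p a → om (f a) p.2 ≤ W
  lip : ∀ p q, ‖p.2‖ < 1 → ‖q.2‖ < 1 → Phi f c E p = C → Phi f c E q = C → rd p q ≤ η →
    ∀ g, rd (act g p) (act g q) ≤ K * rd p q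
  faith : ∀ g, g ≠ 1 → ∃ p, ‖p.2‖ < 1 ∧ Phi f c E p = C ∧ act g p ≠ p

end Pool.HQ
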